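import Pool.Agent.Lib.MP_ecee09_co.NE.TL

/-! The collision probability on the event of many classes. -/

namespace NE

open SD (av)
open ComplexConjugate Filter Topology
open scoped InnerProductSpace

section gen
variable {H : Type} [NormedAddCommGroup H] [InnerProductSpace ℂ H] [CompleteSpace H]

theorem aa_bessel {ι : Type} [Fintype ι] (p : ι → H →L[ℂ] H) (hp : ∀ i, IsStarProjection (p i))
    (u : H) (h : ∀ i j, i ≠ j → p i (p j u) = 0) : ∑ i, (⟪u, p i u⟫_ℂ).re ≤ ‖u‖ ^ 2 := by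
  have h1 : (⟪u, ∑ i, p i u⟫_ℂ).re = ∑ i, (⟪u, p i u⟫_ℂ).re := by
    rw [inner_sum, Complex.re_sum]
  have h2 : ‖∑ i, p i u‖ ^ 2 = ∑ i, (⟪u, p i u⟫_ℂ).re := by
    rw [← tl_re_self, sum_inner, Complex.re_sum]
    refine Finset.sum_congr rfl fun i _ => ?_
    rw [tl_proj_move (hp i), map_sum, Finset.sum_eq_single i (fun j _ hj => h i j hj.symm)
      (by simp), tl_proj_idem (hp i)]
  have h3 := tl_re_le u (∑ i, p i u)
  nlinarith [sq_nonneg (‖u‖ - ‖∑ i, p i u‖)]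

theorem aa_kp_insert {N : Set (H →L[ℂ] H)} {B : H →L[ℂ] H} (hB : IsStarProjection B)
    (hc : Commute (kp N) B) : 1 - kp (insert B N) = (1 - kp N) + kp N * B := by
  have pp : IsStarProjection (kp N * (1 - B)) :=
    (kp_proj N).mul hB.one_sub ((Commute.one_right _).sub_right hc)
  have h1 : kp (insert B N) * (kp N * (1 - B)) = kp N * (1 - B) := by
    refine kp_mul_eq ?_
    rintro n (rfl | hn)
    · rw [← mul_assoc, ← hc.eq, mul_assoc, mul_sub, mul_one, hB.isIdempotentElem.eq, sub_self,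
        mul_zero]
    · rw [← mul_assoc, mul_kp hn, zero_mul]
  have h2 : kp N * (1 - B) * kp (insert B N) = kp (insert B N) := by
    rw [mul_assoc, sub_mul, one_mul, mul_kp (Set.mem_insert _ _), sub_zero,
      kp_mul_kp (Set.subset_insert _ _)]
  have h3 := congrArg star h2
  rw [star_mul, (kp_proj _).isSelfAdjoint.star_eq, pp.isSelfAdjoint.star_eq, h1] at h3
  rw [← h3, mul_sub, mul_one]
  abel

end gen

namespace Sys
variable {κ : Ker} {H : Type} [NormedAddCommGroup H] [InnerProductSpace ℂ H] [CompleteSpace H]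
  (S : Sys κ H) {Y : H →L[ℂ] H}

/-- the linear form behind `col` -/
noncomputable def aaL (n : ℕ) (u : H) : ℝ :=
  av fun t : Fin (n + 1) => av fun t' : Fin (n + 1) =>
    (⟪S.v ∅, S.Q (tlB 0 (t + 1)) (tlC (t' + 1)) u⟫_ℂ).re

theorem aaL_add (n : ℕ) (u w : H) : S.aaL n (u + w) = S.aaL n u + S.aaL n w := by
  simp only [aaL, map_add, inner_add_right, Complex.add_re, SD.av_add]

theorem aaL_le (n : ℕ) (u : H) : S.aaL n u ≤ ‖u‖ :=
  SD.av_le_const fun _ => SD.av_le_const fun _ => (tl_re_le _ _).trans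
    ((mul_le_of_le_one_left (norm_nonneg _) (S.norm_v_le _)).trans
      (proj_norm_le (S.Q_proj _ _) _))

theorem col_eq (hY : IsStarProjection Y) (hm : Y ∈ Alg S.V Aa) (n : ℕ) :
    S.col n Y = S.aaL n (Y (S.v ∅)) := by
  refine SD.av_congr fun t => SD.av_congr fun t' => ?_
  rw [← mul_apply_eq_comp (S.Q (tlB 0 _) _),
    tl_proj_re ((S.Q_proj _ _).mul hY (S.alg_comm (S.Q_mem _ _) hm))]
  rfl

theorem aa_one (cd : CD) (hY : IsStarProjection Y) (hm : Y ∈ Alg S.V Aa) {m : ℕ}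
    (y : Fin (m + 1) → Finset ℕ) (hy : ∀ i, (y i : Set ℕ) ⊆ Aa)
    (hB : kp {q | ∃ i j, i ≠ j ∧ q = S.Q (y i) (y j)} * Y = Y) {δ : ℝ} (hδ : 0 < δ) :
    ∀ᶠ n in atTop, S.aaL n (Y (S.v ∅)) ≤ (⟪S.v ∅, Y (S.v ∅)⟫_ℂ).re / (m + 1) + δ := by
  have l := @Set.subset_union_left ℕ
  have r := @Set.subset_union_right ℕ
  filter_upwards [eventually_all.2 fun i => cd κ H S (y i) δ hδ] with n hn
  rw [aaL, SD.av_comm]
  refine SD.av_le_const fun t' => ?_
  set c := tlC (t' + 1) with hc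
  have e : ∀ z : Finset ℕ, (z : Set ℕ) ⊆ Aa →
      (⟪Y (S.v ∅), S.Pib n z c (S.v ∅)⟫_ℂ).re = av fun t : Fin (n + 1) =>
        (⟪S.v ∅, S.Q (tlB 0 (t + 1) ∪ z) c (Y (S.v ∅))⟫_ℂ).re := by
    intro z hz
    rw [Pib, tl_re_avs]
    refine SD.av_congr fun t => ?_
    rw [S.inner_EQ0 (compl_Aa_infinite c) (Set.disjoint_union_right.2
      ⟨tlB_Aa _ _, (tlC_B _ _ _).symm⟩) (hz.trans l) r (S.alg_mono l hm) (tl_supp_empty _)
      (tl_supp_empty _), card_tlB, tl_proj_move hY, S.alg_apply_comm hm (S.EQ_mem _ _ _ _ _)]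
  have e0 := e ∅ (by simp)
  simp only [Finset.union_empty] at e0
  have d : ∀ (a : Finset ℕ) i, Disjoint (a : Set ℕ) Aa → Disjoint (y i) a := fun a i h =>
    Finset.disjoint_coe.1 (h.mono_right (hy i)).symm
  have h1 : ∀ i, (⟪Y (S.v ∅), S.Pib n ∅ c (S.v ∅)⟫_ℂ).re - δ ≤
      (⟪Y (S.v ∅), S.Pib n (y i) c (S.v ∅)⟫_ℂ).re := by
    intro i
    have h := tl_re_le (Y (S.v ∅)) (S.Pib n ∅ c (S.v ∅) - S.Pib n (y i) c (S.v ∅))
    rw [inner_sub_right, Complex.sub_re, norm_sub_rev] at h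
    have h' := mul_le_of_le_one_left (norm_nonneg (S.Pib n (y i) c (S.v ∅) - S.Pib n ∅ c (S.v ∅)))
      ((proj_norm_le hY _).trans (S.norm_v_le ∅))
    have := hn i c (d c i (tlC_Aa _))
    linarith
  have h2 : ∑ i, (⟪Y (S.v ∅), S.Pib n (y i) c (S.v ∅)⟫_ℂ).re ≤ (⟪S.v ∅, Y (S.v ∅)⟫_ℂ).re := by
    rw [Finset.sum_congr rfl fun i _ => e (y i) (hy i), ← SD.av_sum, tl_proj_re hY]
    refine SD.av_le_const fun t => ?_
    refine le_trans (le_of_eq (Finset.sum_congr rfl fun i _ => ?_))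
      (aa_bessel (fun i => S.Q (tlB 0 (t + 1) ∪ y i) c) (fun i => S.Q_proj _ _) (Y (S.v ∅)) ?_)
    · rw [tl_proj_move hY, S.alg_apply_comm hm (S.Q_mem _ _), tl_proj_idem hY]
    · intro i j hij
      have z : S.Q (y i) (y j) * Y = 0 := by
        rw [← hB, ← mul_assoc, mul_kp (N := {q | ∃ i j, i ≠ j ∧ q = S.Q (y i) (y j)})
          ⟨i, j, hij, rfl⟩, zero_mul]
      have mp : S.Q (tlB 0 (t + 1) ∪ y i) c * S.Q c (tlB 0 (t + 1) ∪ y j) ∈ Alg S.V Set.univ :=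
        mul_mem (S.alg_mono (Set.subset_univ _) (S.Q_mem _ _))
          (S.alg_mono (Set.subset_univ _) (S.Q_mem _ _))
      rw [S.Q_symm (_ ∪ y j) c, ← mul_apply_eq_comp, ← S.Q_trans,
        (S.alg_comm (S.Q_mem _ _) mp).eq, mul_apply_eq_comp, Finset.union_comm _ (y i),
        Finset.union_comm _ (y j), S.Q_union (d _ i (tlB_Aa _ _)) (d _ j (tlB_Aa _ _)),
        ← mul_apply_eq_comp (S.Q (y i) (y j)), z]
      simp
  have h3 := (Finset.sum_le_sum fun i (_ : i ∈ Finset.univ) => h1 i).trans h2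
  rw [Finset.sum_const, Finset.card_univ, Fintype.card_fin, nsmul_eq_mul, e0] at h3
  push_cast at h3
  rw [← sub_le_iff_le_add, le_div_iff₀ (by positivity), mul_comm]
  exact h3

end Sys

theorem aa_of (cd : CD) : AA := by
  intro κ H _ _ _ S m δ hδ
  set N : Set (H →L[ℂ] H) := {B | ∃ y : Fin (m + 1) → Finset ℕ, (∀ i, (y i : Set ℕ) ⊆ Aa) ∧
    B = kp {q | ∃ i j, i ≠ j ∧ q = S.Q (y i) (y j)}} with hN
  have mN : ∀ B ∈ N, B ∈ Alg S.V Aa := by
    rintro B ⟨y, hy, rfl⟩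
    refine S.kp_mem ?_
    rintro q ⟨i, j, _, rfl⟩
    exact S.alg_mono (Set.union_subset (hy i) (hy j)) (S.Q_mem _ _)
  have key : ∀ N' : Set (H →L[ℂ] H), N'.Finite → N' ⊆ N → ∀ δ : ℝ, 0 < δ → ∀ᶠ n in atTop,
      S.aaL n ((1 - kp N') (S.v ∅)) ≤ (⟪S.v ∅, (1 - kp N') (S.v ∅)⟫_ℂ).re / (m + 1) + δ := by
    intro N' hf
    induction N', hf using Set.Finite.induction_on with
    | empty =>
      intro _ δ hδ
      have : (1 - kp (∅ : Set (H →L[ℂ] H))) (S.v ∅) = 0 := by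
        rw [sub_apply, (kp_apply_eq_iff ∅ _).2 (by simp)]; simp
      refine Eventually.of_forall fun n => (S.aaL_le n _).trans ?_
      rw [this]; simpa using hδ.le
    | @insert B N' _ _ ih =>
      intro hs δ hδ
      have hs' : N' ⊆ N := (Set.subset_insert _ _).trans hs
      have hBN := hs (Set.mem_insert _ _)
      have mk : kp N' ∈ Alg S.V Aa := S.kp_mem fun n hn => mN n (hs' hn)
      have hc : Commute (kp N') B := S.alg_comm mk (mN B hBN)
      have mB := mN B hBN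
      obtain ⟨y, hy, hB⟩ := hBN
      have pB : IsStarProjection B := hB ▸ kp_proj _
      filter_upwards [ih hs' (δ / 2) (half_pos hδ),
        S.aa_one cd ((kp_proj N').mul pB hc) (mul_mem mk mB) y hy
          (by rw [← hB, hc.eq, ← mul_assoc, pB.isIdempotentElem.eq]) (half_pos hδ)] with n h1 h2
      rw [aa_kp_insert pB hc, add_apply, S.aaL_add, inner_add_right, Complex.add_re, add_div]
      linarith
  obtain ⟨N', hs, hf, hd⟩ := kp_finite N (S.v ∅) (half_pos hδ)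
  filter_upwards [key N' hf hs (δ / 2) (half_pos hδ)] with n hn
  have e : (1 - S.Cm m) (S.v ∅) = (1 - kp N') (S.v ∅) + (kp N' (S.v ∅) - kp N (S.v ∅)) := by
    rw [sub_apply, sub_apply, sub_add_sub_cancel]; rfl
  rw [S.col_eq (Y := 1 - S.Cm m) (kp_proj N).one_sub (sub_mem (one_mem _) (S.kp_mem mN)), e,
    S.aaL_add]
  have h1 := S.aaL_le n (kp N' (S.v ∅) - kp N (S.v ∅))
  have h2 : (⟪S.v ∅, (1 - kp N') (S.v ∅)⟫_ℂ).re ≤ 1 :=
    (tl_re_le _ _).trans (mul_le_one₀ (S.norm_v_le _) (norm_nonneg _)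
      ((proj_norm_le (kp_proj N').one_sub _).trans (S.norm_v_le _)))
  have h3 : (⟪S.v ∅, (1 - kp N') (S.v ∅)⟫_ℂ).re / (m + 1) ≤ 1 / (m + 1) :=
    div_le_div_of_nonneg_right h2 (by positivity)
  linarith

end NE
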