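import Pool.Agent.Lib.MP_ecee09_co.NE.Cells

/-! Block sums and phases on cells. -/

namespace NE

open SD (F sm av ind cnt Tame)

private lemma ee_add0 (x y : TT) : ee (x + y) = ee x * ee y := by
  simp only [ee, AddCircle.toCircle_add, Circle.coe_mul]

private lemma ee_zero0 : ee 0 = 1 := by simp only [ee, AddCircle.toCircle_zero, Circle.coe_one]

private lemma ee_sum0 {ι : Type} (s : Finset ι) (f : ι → TT) :
    ee (∑ i ∈ s, f i) = ∏ i ∈ s, ee (f i) := by
  classical
  induction s using Finset.induction_on with
  | empty => simp [ee_zero0]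
  | insert a s ha ih => rw [Finset.sum_insert ha, Finset.prod_insert ha, ee_add0, ih]

section wl
variable {I K L M E : Type} [AddCommGroup E]

open Classical in
lemma wl_eq [Fintype I] (w : I → E) (Φ : Lab I K) (k : K) :
    wl w Φ k = ∑ i, if Φ i = some k then w i else 0 := finsum_eq_sum_of_fintype _

lemma wl_zero (Φ : Lab I K) : wl (0 : I → E) Φ = 0 := by funext k; simp [wl]

lemma wl_none (w : I → E) : wl w (fun _ => (none : Option K)) = 0 := by funext k; simp [wl]

lemma wl_comp_equiv (e : M ≃ I) (w : I → E) (Φ : Lab I K) : wl (w ∘ e) (Φ ∘ e) = wl w Φ := by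
  funext k
  unfold wl
  rw [← finsum_comp_equiv e]
  rfl

variable [Finite I]

lemma wl_add (w w' : I → E) (Φ : Lab I K) : wl (w + w') Φ = wl w Φ + wl w' Φ := by
  let _ := Fintype.ofFinite I
  funext k
  simp only [wl_eq, Pi.add_apply, ← Finset.sum_add_distrib]
  refine Finset.sum_congr rfl fun i _ => ?_
  split_ifs <;> simp

/-- block sums as a homomorphism -/
noncomputable def wlH (Φ : Lab I K) : (I → E) →+ (K → E) where
  toFun w := wl w Φ
  map_zero' := wl_zero Φ
  map_add' w w' := wl_add w w' Φ

lemma wl_neg (w : I → E) (Φ : Lab I K) : wl (-w) Φ = -wl w Φ := map_neg (wlH Φ) w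

lemma wl_sub (w w' : I → E) (Φ : Lab I K) : wl (w - w') Φ = wl w Φ - wl w' Φ :=
  map_sub (wlH Φ) w w'

lemma wl_single_some [DecidableEq I] [DecidableEq K] {Φ : Lab I K} {i : I} {k : K}
    (h : Φ i = some k) (x : E) : wl (Pi.single i x) Φ = Pi.single k x := by
  let _ := Fintype.ofFinite I
  funext l
  rw [wl_eq, Finset.sum_eq_single i]
  · by_cases hl : l = k
    · subst hl; simp [h]
    · simp [h, hl, Ne.symm hl]
  · intro j _ hj; simp [hj]
  · simp

lemma wl_single_none [DecidableEq I] {Φ : Lab I K} {i : I} (h : Φ i = none) (x : E) :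
    wl (Pi.single i x) Φ = 0 := by
  let _ := Fintype.ofFinite I
  funext l
  rw [wl_eq, Finset.sum_eq_single i]
  · simp [h]
  · intro j _ hj; simp [hj]
  · simp

lemma wl_crd {ι : K → I} (h : Function.Injective ι) (w : I → E) : wl w (crd ι) = w ∘ ι := by
  let _ := Fintype.ofFinite I
  funext k
  rw [wl_eq, Finset.sum_eq_single (ι k)]
  · simp [crd_apply h]
  · intro j _ hj; rw [if_neg fun e => hj ((crd_eq_some h).1 e).symm]
  · simp

lemma wl_some (w : I → E) : wl w some = w := by
  rw [← crd_id, wl_crd Function.injective_id]; rfl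

/-- block sums lie in any subgroup that contains the values -/
lemma wl_mem {S : AddSubgroup E} {w : I → E} (h : ∀ i, w i ∈ S) (Φ : Lab I K) (k : K) :
    wl w Φ k ∈ S := by
  let _ := Fintype.ofFinite I
  rw [wl_eq]
  refine S.sum_mem fun i _ => ?_
  split_ifs
  · exact h i
  · exact S.zero_mem

lemma Gen.of_wl {w : I → E} {Φ : Lab I K} (h : Gen (wl w Φ)) : Gen w := by
  unfold Gen at h ⊢
  rw [eq_top_iff, ← h, AddSubgroup.closure_le]
  rintro _ ⟨k, rfl⟩
  exact wl_mem (fun i => AddSubgroup.subset_closure (Set.mem_range_self i)) Φ k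

lemma map_wl {E' : Type} [AddCommGroup E'] (f : E →+ E') (w : I → E) (Φ : Lab I K) :
    f ∘ wl w Φ = wl (f ∘ w) Φ := by
  let _ := Fintype.ofFinite I
  funext k
  simp only [Function.comp_apply, wl_eq, map_sum]
  refine Finset.sum_congr rfl fun i _ => ?_
  split_ifs <;> simp

lemma wl_lcomp [Finite K] (w : I → E) (Φ : Lab I K) (Ψ : Lab K L) :
    wl w (lcomp Φ Ψ) = wl (wl w Φ) Ψ := by
  classical
  induction w using Pi.single_induction with
  | zero => rw [wl_zero, wl_zero, wl_zero]
  | add w w' h h' => rw [wl_add, wl_add, wl_add, h, h']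
  | single i x =>
    cases h : Φ i with
    | none => rw [wl_single_none h, wl_zero, wl_single_none (lcomp_of_none Ψ h)]
    | some k =>
      rw [wl_single_some h]
      cases h' : Ψ k with
      | none => rw [wl_single_none h', wl_single_none ((lcomp_of_some Ψ h).trans h')]
      | some l => rw [wl_single_some h', wl_single_some ((lcomp_of_some Ψ h).trans h')]

/-- for a good label the block sums take every value -/
lemma Good.wl_surj [Finite K] {Φ : Lab I K} (h : Good Φ) :
    Function.Surjective fun w : I → E => wl w Φ := by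
  classical
  intro v
  induction v using Pi.single_induction with
  | zero => exact ⟨0, wl_zero Φ⟩
  | add v v' h h' =>
    obtain ⟨w, rfl⟩ := h
    obtain ⟨w', rfl⟩ := h'
    exact ⟨w + w', wl_add w w' Φ⟩
  | single k x =>
    obtain ⟨i, hi⟩ := h k
    exact ⟨Pi.single i x, wl_single_some hi x⟩

end wl

section ph
variable {I K L M E : Type} [AddCommGroup E] (τ : QT E)

private lemma q_zero0 : τ.q 0 = 0 := by
  have h := τ.q_add 0 0
  rw [add_zero, map_zero, add_zero] at h
  exact left_eq_add.1 h

lemma cz_self (w : I → E) (i : I) : cz τ w s(i, i) = τ.q (w i) := if_pos rfl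

lemma cz_ne (w : I → E) {i j : I} (h : i ≠ j) : cz τ w s(i, j) = τ.be (w i) (w j) := if_neg h

lemma cz_zero (c : Sym2 I) : cz τ (0 : I → E) c = 0 := by
  induction c using Sym2.ind with
  | _ i j =>
    by_cases h : i = j
    · subst h; rw [cz_self]; exact q_zero0 τ
    · rw [cz_ne τ _ h]; exact map_zero _

lemma cz_map {ι : K → I} (h : Function.Injective ι) (w : I → E) (d : Sym2 K) :
    cz τ w (Sym2.map ι d) = cz τ (w ∘ ι) d := by
  induction d using Sym2.ind with
  | _ k l =>
    rw [Sym2.map_mk]
    by_cases e : k = l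
    · subst e; rw [cz_self, cz_self]; rfl
    · rw [cz_ne τ _ e, cz_ne τ _ (h.ne e)]; rfl

lemma th_eq [Fintype (Sym2 I)] (w : I → E) (P : Om I) :
    th τ w P = ∑ c, (P c).val • cz τ w c := finsum_eq_sum_of_fintype _

lemma brk_eq [Fintype I] (w b : I → E) : brk τ w b = ∑ i, τ.be (w i) (b i) :=
  finsum_eq_sum_of_fintype _

lemma th_zero_left (P : Om I) : th τ (0 : I → E) P = 0 := by simp [th, cz_zero]

lemma th_zero_right (w : I → E) : th τ w 0 = 0 := by simp [th]

lemma brk_zero_left (b : I → E) : brk τ 0 b = 0 := by simp [brk]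

lemma brk_zero_right (w : I → E) : brk τ w 0 = 0 := by simp [brk]

lemma brk_comm (w b : I → E) : brk τ w b = brk τ b w := by
  unfold brk; simp only [fun i => τ.symm (w i) (b i)]

lemma chi_eq (w : I → E) (x : OmE E I) : chi τ w x = ee (brk τ w x.1) * ph τ w x.2 :=
  ee_add0 _ _

lemma brk_comp_equiv (e : M ≃ I) (w b : I → E) : brk τ (w ∘ e) (b ∘ e) = brk τ w b :=
  finsum_comp_equiv e (f := fun i => τ.be (w i) (b i))

lemma th_comp_equiv (e : M ≃ I) (w : I → E) (P : Om I) : th τ (w ∘ e) (pb e P) = th τ w P := by
  have hb : Function.Bijective (Sym2.map e) :=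
    ⟨Sym2.map.injective e.injective, fun c => ⟨Sym2.map e.symm c, by
      rw [Sym2.map_map, e.self_comp_symm, Sym2.map_id]; rfl⟩⟩
  unfold th
  rw [← finsum_comp_equiv (Equiv.ofBijective _ hb)]
  refine finsum_congr fun c => ?_
  rw [Equiv.ofBijective_apply, cz_map τ e.injective]; rfl

lemma ph_comp_equiv (e : M ≃ I) (w : I → E) (P : Om I) : ph τ (w ∘ e) (pb e P) = ph τ w P := by
  unfold ph; rw [th_comp_equiv]

lemma chi_comp_equiv (e : M ≃ I) (w : I → E) (x : OmE E I) :
    chi τ (w ∘ e) (pbEE e x) = chi τ w x := by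
  unfold chi
  rw [show (pbEE e x).1 = x.1 ∘ e from rfl, show (pbEE e x).2 = pb e x.2 from rfl,
    brk_comp_equiv, th_comp_equiv]

variable [Finite I]

lemma brk_add_left (w w' b : I → E) : brk τ (w + w') b = brk τ w b + brk τ w' b := by
  let _ := Fintype.ofFinite I
  simp only [brk_eq, Pi.add_apply, map_add, AddMonoidHom.add_apply, Finset.sum_add_distrib]

lemma brk_add_right (w b b' : I → E) : brk τ w (b + b') = brk τ w b + brk τ w b' := by
  let _ := Fintype.ofFinite I
  simp only [brk_eq, Pi.add_apply, map_add, Finset.sum_add_distrib]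

/-- the pairing as a homomorphism in the second argument -/
noncomputable def brkH (w : I → E) : (I → E) →+ TT where
  toFun := brk τ w
  map_zero' := brk_zero_right τ w
  map_add' := brk_add_right τ w

lemma brk_neg_right (w b : I → E) : brk τ w (-b) = -brk τ w b := map_neg (brkH τ w) b

lemma brk_sub_right (w b b' : I → E) : brk τ w (b - b') = brk τ w b - brk τ w b' :=
  map_sub (brkH τ w) b b'

lemma brk_neg_left (w b : I → E) : brk τ (-w) b = -brk τ w b := by
  rw [brk_comm, brk_neg_right, brk_comm]

lemma brk_sub_left (w w' b : I → E) : brk τ (w - w') b = brk τ w b - brk τ w' b := by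
  rw [brk_comm, brk_sub_right, brk_comm τ b, brk_comm τ b]

lemma brk_single_left [DecidableEq I] (i : I) (x : E) (b : I → E) :
    brk τ (Pi.single i x) b = τ.be x (b i) := by
  let _ := Fintype.ofFinite I
  rw [brk_eq, Finset.sum_eq_single i]
  · simp
  · intro j _ hj; simp [hj]
  · simp

lemma brk_single_right [DecidableEq I] (w : I → E) (i : I) (x : E) :
    brk τ w (Pi.single i x) = τ.be (w i) x := by
  rw [brk_comm, brk_single_left, τ.symm]

lemma brk_spr [Finite K] (w : I → E) (t : K → E) (Φ : Lab I K) :
    brk τ w (spr t Φ) = brk τ (wl w Φ) t := by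
  classical
  induction w using Pi.single_induction with
  | zero => rw [wl_zero, brk_zero_left, brk_zero_left]
  | add w w' h h' => rw [wl_add, brk_add_left, brk_add_left, h, h']
  | single i x =>
    rw [brk_single_left]
    cases h : Φ i with
    | none => rw [wl_single_none h, brk_zero_left, spr_of_none t h, map_zero]
    | some k => rw [wl_single_some h, brk_single_left, spr_some t h]

open Classical in
/-- `(A v) i`: the sum of the `v j` over the neighbours `j` of `i`, the loop included -/
noncomputable def adj (P : Om I) (v : I → E) : I → E := fun i => ∑ᶠ j, (P s(i, j)).val • v j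

omit [Finite I] in
lemma adj_eq [Fintype I] (P : Om I) (v : I → E) (i : I) :
    adj P v i = ∑ j, (P s(i, j)).val • v j := finsum_eq_sum_of_fintype _

/-- the polar form of `th` -/
lemma th_add (w w' : I → E) (P : Om I) :
    th τ (w + w') P = th τ w P + th τ w' P + brk τ w (adj P w') := by
  classical
  let _ := Fintype.ofFinite I
  have key : brk τ w (adj P w') = ∑ c : Sym2 I, ∑ p : I × I with s(p.1, p.2) = c,
      (P s(p.1, p.2)).val • τ.be (w p.1) (w' p.2) := by
    rw [Finset.sum_fiberwise, Fintype.sum_prod_type, brk_eq]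
    simp only [adj_eq, map_sum, map_nsmul]
  rw [key, th_eq, th_eq, th_eq, ← Finset.sum_add_distrib, ← Finset.sum_add_distrib]
  refine Finset.sum_congr rfl fun c _ => ?_
  induction c using Sym2.ind with
  | _ i j =>
    by_cases h : i = j
    · subst h
      have : (Finset.univ.filter fun p : I × I => s(p.1, p.2) = s(i, i)) = {(i, i)} := by
        ext ⟨a, b⟩; simp
      rw [this, Finset.sum_singleton, cz_self, cz_self, cz_self, Pi.add_apply, τ.q_add,
        smul_add, smul_add]
    · have : (Finset.univ.filter fun p : I × I => s(p.1, p.2) = s(i, j)) = {(i, j), (j, i)} := by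
        ext ⟨a, b⟩; simp
      rw [this, Finset.sum_pair (fun e => h (congrArg Prod.fst e)), cz_ne τ _ h, cz_ne τ _ h,
        cz_ne τ _ h, Sym2.eq_swap (a := j), τ.symm (w j) (w' i)]
      simp only [Pi.add_apply, map_add, AddMonoidHom.add_apply, smul_add]
      abel

lemma th_single [DecidableEq I] (i : I) (x : E) (P : Om I) :
    th τ (Pi.single i x) P = (P s(i, i)).val • τ.q x := by
  classical
  let _ := Fintype.ofFinite I
  rw [th_eq, Finset.sum_eq_single s(i, i)]
  · rw [cz_self, Pi.single_eq_same]
  · intro c _ hc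
    induction c using Sym2.ind with
    | _ a b =>
      by_cases h : a = b
      · subst h
        rw [cz_self, Pi.single_eq_of_ne fun e => hc (by rw [e]), q_zero0, smul_zero]
      · rw [cz_ne τ _ h]
        by_cases ha : a = i
        · rw [Pi.single_eq_of_ne (M := fun _ => E) (i' := b) fun e => h (ha.trans e.symm),
            map_zero, smul_zero]
        · rw [Pi.single_eq_of_ne (M := fun _ => E) ha, map_zero, AddMonoidHom.zero_apply,
            smul_zero]
  · simp

omit τ in
lemma adj_add (P : Om I) (v v' : I → E) : adj P (v + v') = adj P v + adj P v' := by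
  let _ := Fintype.ofFinite I
  funext i
  simp only [adj_eq, Pi.add_apply, smul_add, Finset.sum_add_distrib]

omit τ [Finite I] in
lemma adj_zero (P : Om I) : adj P (0 : I → E) = 0 := by funext i; simp [adj]

omit τ in
lemma adj_single [DecidableEq I] (P : Om I) (j : I) (x : E) (i : I) :
    adj P (Pi.single j x) i = (P s(i, j)).val • x := by
  let _ := Fintype.ofFinite I
  rw [adj_eq, Finset.sum_eq_single j]
  · rw [Pi.single_eq_same]
  · intro k _ hk; simp [hk]
  · simp

omit τ in
/-- a blown-up pattern acts through the block sums -/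
lemma adj_ow_zero [Finite K] (Φ : Lab I K) (P : Om K) (v : I → E) :
    adj (ow 0 Φ P) v = spr (adj P (wl v Φ)) Φ := by
  classical
  induction v using Pi.single_induction with
  | zero => rw [wl_zero, adj_zero, adj_zero, spr_zero]
  | add v v' h h' => rw [wl_add, adj_add, adj_add, spr_add, h, h']
  | single j x =>
    funext i
    rw [adj_single]
    cases hj : Φ j with
    | none => rw [wl_single_none hj, adj_zero, spr_zero, ow_none_right _ _ _ hj]; simp
    | some l =>
      rw [wl_single_some hj]
      cases hi : Φ i with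
      | none => rw [spr_of_none _ hi, ow_none_left _ _ hi]; simp
      | some k => rw [spr_some _ hi, adj_single, ow_some _ _ hi hj]

omit τ in
lemma adj_ow [Finite K] (A : Om I) (Φ : Lab I K) (P : Om K) (v : I → E) :
    adj (ow A Φ P) v = adj (ow A Φ 0) v + spr (adj P (wl v Φ)) Φ := by
  let _ := Fintype.ofFinite I
  rw [← adj_ow_zero]
  funext i
  simp only [adj_eq, Pi.add_apply, ← Finset.sum_add_distrib]
  refine Finset.sum_congr rfl fun j _ => ?_
  cases h : lab2 Φ s(i, j) with
  | none => simp only [ow_of_none h]; simp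
  | some d => simp only [ow_of_some h]; simp

lemma th_ow_zero [Finite K] (w : I → E) (Φ : Lab I K) (P : Om K) :
    th τ w (ow 0 Φ P) = th τ (wl w Φ) P := by
  classical
  induction w using Pi.single_induction with
  | zero => rw [wl_zero, th_zero_left, th_zero_left]
  | add w w' h h' => rw [wl_add, th_add, th_add, h, h', adj_ow_zero, brk_spr]
  | single i x =>
    rw [th_single]
    cases h : Φ i with
    | none => rw [wl_single_none h, th_zero_left, ow_none_left _ _ h]; simp
    | some k => rw [wl_single_some h, th_single, ow_some _ _ h h]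

lemma th_ow [Finite K] (w : I → E) (A : Om I) (Φ : Lab I K) (P : Om K) :
    th τ w (ow A Φ P) = th τ w (ow A Φ 0) + th τ (wl w Φ) P := by
  classical
  let _ := Fintype.ofFinite I
  rw [← th_ow_zero, th_eq, th_eq, th_eq, ← Finset.sum_add_distrib]
  refine Finset.sum_congr rfl fun c _ => ?_
  cases h : lab2 Φ c with
  | none => simp only [ow_of_none h]; simp
  | some d => simp only [ow_of_some h]; simp

lemma ph_ow [Finite K] (w : I → E) (A : Om I) (Φ : Lab I K) (P : Om K) :
    ph τ w (ow A Φ P) = ph τ w (ow A Φ 0) * ph τ (wl w Φ) P := by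
  unfold ph; rw [th_ow, ee_add0]

lemma chi_cell [Finite K] (w : I → E) (x : OmE E I) (Φ : Lab I K) (y : OmE E K) :
    chi τ w (cell x Φ y) = chi τ w (cell x Φ 0) * chi τ (wl w Φ) y := by
  unfold chi cell
  rw [← ee_add0, th_ow τ w x.2 Φ y.2]
  simp only [Prod.fst_zero, Prod.snd_zero, spr_zero, add_zero, brk_add_right, brk_spr]
  congr 1; abel

lemma chi_shift (w : I → E) (b t : I → E) (P : Om I) :
    chi τ w (b + t, P) = chi τ w (b, P) * ee (brk τ w t) := by
  unfold chi
  rw [← ee_add0, brk_add_right]
  congr 1; abel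

omit [Finite I] in
/-- the phase as a product over the pairs -/
lemma ph_eq_prod [Fintype (Sym2 I)] (w : I → E) (P : Om I) :
    ph τ w P = ∏ c, if P c = 0 then 1 else ee (cz τ w c) := by
  unfold ph
  rw [th_eq, ee_sum0]
  refine Finset.prod_congr rfl fun c _ => ?_
  rcases SD.F_cases (P c) with h | h <;> rw [h]
  · simp [ee_zero0]
  · rw [if_neg one_ne_zero, ZMod.val_one, one_smul]

/-- changing one pair changes the phase by one term -/
lemma th_update [DecidableEq (Sym2 I)] (w : I → E) (P : Om I) (c : Sym2 I) (a : F) :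
    th τ w (Function.update P c a) + (P c).val • cz τ w c = th τ w P + a.val • cz τ w c := by
  classical
  let _ := Fintype.ofFinite I
  rw [th_eq, th_eq, ← Finset.add_sum_erase _ _ (Finset.mem_univ c),
    ← Finset.add_sum_erase _ (fun d => (P d).val • cz τ w d) (Finset.mem_univ c),
    Function.update_self, Finset.sum_congr rfl fun d hd => by
      rw [Function.update_of_ne (Finset.ne_of_mem_erase hd)]]
  abel

end ph

end NE
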