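import Pool.Agent.Lib.MP_ecee09_co.NE.CBase
import Pool.Agent.Lib.MP_ecee09_co.NE.CellP

/-! Basic API for types `QT`, Gauss sums and positive semidefinite kernels. -/

namespace NE

open SD
open ComplexConjugate

section qt
variable {E : Type} [AddCommGroup E] (τ : QT E)

@[simp] lemma QT.q_zero : τ.q 0 = 0 := by
  have := τ.q_add 0 0
  simpa using this

lemma QT.q_neg (x : E) : τ.q (-x) = τ.be x x - τ.q x := by
  have := τ.q_add x (-x)
  rw [add_neg_cancel, QT.q_zero, map_neg] at this
  rw [eq_sub_iff_add_eq, add_comm, ← sub_eq_zero, sub_eq_add_neg, ← this]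

lemma QT.q_sub (x y : E) : τ.q (x - y) = τ.q x - τ.q y - τ.be (x - y) y := by
  have := τ.q_add (x - y) y
  rw [sub_add_cancel] at this
  rw [this]; abel

@[simp] lemma QT.sub_q (S : AddSubgroup E) (x : S) : (τ.sub S).q x = τ.q x := rfl

@[simp] lemma QT.sub_be (S : AddSubgroup E) (x y : S) : (τ.sub S).be x y = τ.be x y := rfl

lemma QT.mem_perp {S : AddSubgroup E} {x : E} : x ∈ τ.perp S ↔ ∀ s ∈ S, τ.be s x = 0 := Iff.rfl

lemma QT.ND.eq_zero {τ : QT E} (h : τ.ND) {b : E} (hb : ∀ w, τ.be w b = 0) : b = 0 := by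
  exact h b (AddMonoidHom.ext fun w => by rw [τ.symm]; exact hb w)

lemma QT.ND.inj {τ : QT E} (h : τ.ND) : Function.Injective τ.be := by
  exact (injective_iff_map_eq_zero _).2 h

lemma QT.le_perp_perp (S : AddSubgroup E) : S ≤ τ.perp (τ.perp S) := by
  intro x hx s hs
  rw [τ.symm]; exact hs x hx

variable [Finite E]

omit [Finite E] in
lemma QT.card_be (x y : E) : Nat.card E • τ.be x y = 0 := by
  rw [← map_nsmul, card_nsmul_eq_zero', map_zero]

omit [Finite E] in
lemma QT.card_q (x : E) : (2 * Nat.card E) • τ.q x = 0 := by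
  have key : ∀ n : ℕ, 2 • τ.q (n • x) + n • τ.be x x = (2 * n) • τ.q x + (n * n) • τ.be x x := by
    intro n
    induction n with
    | zero => simp
    | succ n ih =>
      rw [succ_nsmul x, τ.q_add, map_nsmul, AddMonoidHom.nsmul_apply,
        show (n + 1) * (n + 1) = n * n + 2 * n + 1 by ring]
      simp only [smul_add, add_smul, mul_add, mul_smul, one_smul, mul_one] at ih ⊢
      rw [← sub_eq_zero] at ih ⊢
      rw [← ih]; abel
  have := key (Nat.card E)
  rw [card_nsmul_eq_zero', QT.q_zero, τ.card_be, mul_smul (Nat.card E), τ.card_be] at this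
  simpa using this.symm

lemma QT.ND.cav_be {τ : QT E} (h : τ.ND) (b : E) :
    cav (fun w => ee (τ.be w b)) = (ind (b = 0) : ℝ) := by
  rw [cav_ee_add (fun w => τ.be w b) fun a c => by simp,
    ind_congr (p := ∀ w, τ.be w b = 0) (q := b = 0) ⟨h.eq_zero, fun e w => by simp [e]⟩]

lemma QT.ND.cav_be' {τ : QT E} (h : τ.ND) (w : E) :
    cav (fun b => ee (τ.be w b)) = (ind (w = 0) : ℝ) := by
  simp only [τ.symm w]; exact h.cav_be w

/-- the number of homomorphisms to the circle -/
lemma card_hom : Nat.card (E →+ TT) = Nat.card E := by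
  let _ := Fintype.ofFinite E
  let f : (E →+ TT) → AddChar E Circle := fun φ =>
    { toFun := fun x => AddCircle.toCircle (φ x)
      map_zero_eq_one' := by simp
      map_add_eq_mul' := fun a b => by simp [AddCircle.toCircle_add] }
  have hi := AddCircle.injective_toCircle (T := (1 : ℝ)) one_ne_zero
  have hs : Function.Surjective (AddCircle.toCircle (T := (1 : ℝ))) := fun z => by
    obtain ⟨x, hx⟩ := (AddCircle.homeomorphCircle (T := (1 : ℝ)) one_ne_zero).surjective z
    exact ⟨x, (AddCircle.homeomorphCircle_apply _ _).symm.trans hx⟩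
  choose g hg using hs
  have hb : Function.Bijective f := ⟨fun φ ψ h => AddMonoidHom.ext fun x =>
    hi (DFunLike.congr_fun h x), fun χ => ⟨AddMonoidHom.mk' (fun x => g (χ x)) fun a b => hi (by
      rw [AddCircle.toCircle_add, hg, hg, hg, AddChar.map_add_eq_mul]),
      DFunLike.ext _ _ fun x => hg _⟩⟩
  rw [Nat.card_eq_of_bijective f hb, Nat.card_congr AddChar.circleEquivComplex.toEquiv,
    Nat.card_eq_fintype_card, Nat.card_eq_fintype_card, AddChar.card_eq]

instance : Finite (E →+ TT) := by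
  exact Nat.finite_of_card_ne_zero (by rw [card_hom]; exact Nat.card_pos.ne')

lemma QT.ND.surj {τ : QT E} (h : τ.ND) (φ : E →+ TT) : ∃ w, τ.be w = φ := by
  exact ((Nat.bijective_iff_injective_and_card _).2 ⟨h.inj, card_hom.symm⟩).2 φ

lemma QT.cav_sub (S : AddSubgroup E) (x : E) :
    cav (fun s : S => ee (τ.be s x)) = (ind (x ∈ τ.perp S) : ℝ) := by
  rw [cav_ee_add (fun s : S => τ.be s x) fun a c => by simp,
    ind_congr (p := ∀ s : S, τ.be s x = 0) (q := x ∈ τ.perp S)
      ⟨fun e s hs => e ⟨s, hs⟩, fun e s => e s s.2⟩]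

lemma QT.ND.card_perp {τ : QT E} (h : τ.ND) (S : AddSubgroup E) :
    Nat.card S * Nat.card (τ.perp S) = Nat.card E := by
  have h1 : cav (fun x : E => cav fun s : S => ee (τ.be s x)) = 1 / Nat.card S := by
    rw [cav_comm]
    simp only [h.cav_be', ZeroMemClass.coe_eq_zero]
    simpa using cav_ind_eq (0 : S) fun _ => 1
  simp only [τ.cav_sub] at h1
  rw [cav_ofReal, av_def, show sm (fun x => ind (x ∈ τ.perp S)) = cnt (τ.perp S : Set E) from rfl,
    cnt_eq_card] at h1
  have h2 := ccard_ne (α := S)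
  have h3 := ccard_ne (α := E)
  push_cast at h1
  field_simp at h1
  have : ((Nat.card S * Nat.card (τ.perp S) : ℕ) : ℂ) = Nat.card E := by
    push_cast; rw [← h1, mul_comm]
  exact_mod_cast this

lemma QT.ND.perp_perp {τ : QT E} (h : τ.ND) (S : AddSubgroup E) : τ.perp (τ.perp S) = S := by
  refine (AddSubgroup.eq_of_le_of_card_ge (τ.le_perp_perp S) ?_).symm
  have h1 := h.card_perp S
  have h2 := h.card_perp (τ.perp S)
  rw [← h1, mul_comm] at h2
  exact (Nat.eq_of_mul_eq_mul_right Nat.card_pos h2).le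

lemma QT.ND.cav_perp {τ : QT E} (h : τ.ND) (S : AddSubgroup E) (x : E) :
    cav (fun s : τ.perp S => ee (τ.be s x)) = (ind (x ∈ S) : ℝ) := by
  rw [τ.cav_sub, h.perp_perp]

lemma QT.ND.cav_brk {τ : QT E} (h : τ.ND) {I : Type} [Finite I] (b : I → E) :
    cav (fun w => ee (brk τ w b)) = (ind (b = 0) : ℝ) := by
  let _ := Fintype.ofFinite I
  simp only [brk, ee_finsum]
  rw [← prod_cav fun i v => ee (τ.be v (b i))]
  simp only [h.cav_be]
  rw [← Complex.ofReal_prod, ← ind_forall, ind_congr (p := ∀ i, b i = 0) (q := b = 0) funext_iff.symm]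

lemma QT.ND.cav_brk' {τ : QT E} (h : τ.ND) {I : Type} [Finite I] (w : I → E) :
    cav (fun b => ee (brk τ w b)) = (ind (w = 0) : ℝ) := by
  simp only [brk, τ.symm (w _)]; exact h.cav_brk w

/-- the Gauss sum -/
noncomputable def gs : ℂ := cav fun x => ee (τ.q x)

lemma norm_gs_le : ‖gs τ‖ ≤ 1 := by
  exact norm_cav_le_const zero_le_one fun x => (norm_ee _).le

lemma QT.ND.norm_gs {τ : QT E} (h : τ.ND) : ‖gs τ‖ ^ 2 = 1 / Nat.card E := by
  have h1 : gs τ * conj (gs τ) = 1 / Nat.card E := by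
    rw [gs, conj_cav, mul_comm, cav_mul_cav]
    have : ∀ y, (cav fun x => conj (ee (τ.q y)) * ee (τ.q x)) =
        cav fun x => ee (τ.q x) * ee (τ.be x y) := fun y => by
      rw [← cav_add_right _ y]
      refine cav_congr fun x => ?_
      rw [τ.q_add, ee_add, ee_add]
      linear_combination ee (τ.q x) * ee (τ.be x y) * ee_mul_conj (τ.q y)
    simp only [this]
    rw [cav_comm]
    simp only [cav_mul_left, h.cav_be']
    rw [cav_congr fun x => mul_comm _ _, cav_ind_eq]; simp
  rw [mul_conj''] at h1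
  exact Complex.ofReal_injective (h1.trans (by simp))

/-- the shifted Gauss sum -/
lemma QT.cav_q_be (t : E) : cav (fun v => ee (τ.q v + τ.be v t)) = gs τ * conj (ee (τ.q t)) := by
  rw [gs, ← cav_add_right (fun x => ee (τ.q x)) t, ← cav_mul_right]
  refine cav_congr fun x => ?_
  rw [τ.q_add, ← ee_sub]; congr 1; abel

end qt

section brk
variable {E I : Type} [AddCommGroup E] [Finite I] (τ : QT E)

lemma brk_single [DecidableEq I] (w : I → E) (i : I) (t : E) :
    brk τ w (Pi.single i t) = τ.be (w i) t := brk_single_right τ w i t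

omit [Finite I] in
@[simp] lemma norm_ph (w : I → E) (P : Om I) : ‖ph τ w P‖ = 1 := norm_ee _

omit [Finite I] in
@[simp] lemma norm_chi (w : I → E) (x : OmE E I) : ‖chi τ w x‖ = 1 := norm_ee _

end brk

section psd
variable {X : Type} [Finite X]

open ComplexOrder in
lemma psd_iff {M : X → X → ℂ} : PSD M ↔ (Matrix.of M).PosSemidef := by
  let _ := Fintype.ofFinite X
  have e : ∀ a : X → ℂ, (csm fun x => csm fun y => a x * conj (a y) * M x y) =
      star (star a) ⬝ᵥ ((Matrix.of M).mulVec (star a)) := fun a => by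
    simp only [csm_eq, dotProduct, Matrix.mulVec, Finset.mul_sum, Matrix.of_apply,
      Pi.star_apply, RCLike.star_def, Complex.conj_conj]
    exact Finset.sum_congr rfl fun x _ => Finset.sum_congr rfl fun y _ => by ring
  rw [Matrix.posSemidef_iff_dotProduct_mulVec]
  constructor
  · rintro ⟨h1, h2⟩
    have hH : (Matrix.of M).IsHermitian := Matrix.IsHermitian.ext fun x y => (h1 y x).symm
    refine ⟨hH, fun v => ?_⟩
    have := h2 (star v)
    rw [e, star_star v] at this
    exact RCLike.nonneg_iff.2 ⟨this, hH.im_star_dotProduct_mulVec_self v⟩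
  · rintro ⟨h1, h2⟩
    exact ⟨fun x y => (h1.apply y x).symm, fun a => by
      rw [e]; exact (RCLike.nonneg_iff.1 (h2 _)).1⟩

open ComplexOrder MatrixOrder in
/-- Gram decomposition -/
lemma PSD.gram {M : X → X → ℂ} (h : PSD M) :
    ∃ φ : X → X → ℂ, ∀ x y, M x y = csm fun j => φ j x * conj (φ j y) := by
  classical
  let _ := Fintype.ofFinite X
  obtain ⟨B, hB⟩ := CStarAlgebra.nonneg_iff_eq_star_mul_self.1 (psd_iff.1 h).nonneg
  refine ⟨fun j x => conj (B j x), fun x y => ?_⟩
  have := congrFun (congrFun hB x) y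
  simpa [csm_eq, Matrix.mul_apply] using this

lemma psd_one (φ : X → ℂ) : PSD fun x y => φ x * conj (φ y) := by
  refine ⟨fun x y => by simp [mul_comm], fun a => ?_⟩
  have : (csm fun x => csm fun y => a x * conj (a y) * (φ x * conj (φ y))) =
      (csm fun x => a x * φ x) * conj (csm fun x => a x * φ x) := by
    rw [conj_csm, csm_mul_csm]
    exact csm_congr fun x => csm_congr fun y => by rw [map_mul]; ring
  rw [this, mul_conj'', Complex.ofReal_re]; positivity

omit [Finite X] in
lemma psd_zero : PSD fun _ _ : X => (0 : ℂ) := by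
  exact ⟨fun x y => by simp, fun a => by simp [csm_zero]⟩

lemma PSD.add {M N : X → X → ℂ} (h : PSD M) (h' : PSD N) : PSD fun x y => M x y + N x y := by
  refine ⟨fun x y => by rw [map_add, ← h.1, ← h'.1], fun a => ?_⟩
  simp only [mul_add, csm_add, Complex.add_re]
  exact add_nonneg (h.2 a) (h'.2 a)

lemma PSD.smul {M : X → X → ℂ} (h : PSD M) {c : ℝ} (hc : 0 ≤ c) :
    PSD fun x y => (c : ℂ) * M x y := by
  refine ⟨fun x y => by rw [map_mul, ← h.1, Complex.conj_ofReal], fun a => ?_⟩
  simp only [mul_left_comm _ (c : ℂ), csm_mul_left, Complex.re_ofReal_mul]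
  exact mul_nonneg hc (h.2 a)

lemma PSD.sum {ι : Type} (s : Finset ι) {M : ι → X → X → ℂ} (h : ∀ i ∈ s, PSD (M i)) :
    PSD fun x y => ∑ i ∈ s, M i x y := by
  classical
  induction s using Finset.induction_on with
  | empty => simpa using psd_zero
  | insert a s ha ih =>
    simp only [Finset.sum_insert ha]
    exact (h a (by simp)).add (ih fun i hi => h i (by simp [hi]))

lemma PSD.csm {O : Type} [Finite O] {M : O → X → X → ℂ} (h : ∀ o, PSD (M o)) :
    PSD fun x y => csm fun o => M o x y := by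
  let _ := Fintype.ofFinite O
  simp only [csm_eq]
  exact PSD.sum _ fun o _ => h o

lemma PSD.cav {O : Type} [Finite O] {M : O → X → X → ℂ} (h : ∀ o, PSD (M o)) :
    PSD fun x y => cav fun o => M o x y := by
  have := (PSD.csm h).smul (c := (Nat.card O : ℝ)⁻¹) (by positivity)
  simpa only [cav_def, div_eq_inv_mul, Complex.ofReal_inv, Complex.ofReal_natCast] using this

lemma PSD.comp {Y : Type} [Finite Y] {M : X → X → ℂ} (h : PSD M) (g : Y → X) :
    PSD fun y y' => M (g y) (g y') := by
  obtain ⟨φ, hφ⟩ := h.gram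
  simp only [hφ]
  exact PSD.csm fun j => psd_one fun y => φ j (g y)

lemma PSD.mul {M N : X → X → ℂ} (h : PSD M) (h' : PSD N) : PSD fun x y => M x y * N x y := by
  obtain ⟨φ, hφ⟩ := h.gram
  obtain ⟨ψ, hψ⟩ := h'.gram
  simp only [hφ, hψ, csm_mul_csm]
  refine PSD.csm fun j => PSD.csm fun k => ?_
  convert psd_one fun x => φ j x * ψ k x using 3
  rw [map_mul]; ring

lemma psd_lim {ι : Type} {l : Filter ι} [l.NeBot] {M : ι → X → X → ℂ} {N : X → X → ℂ}
    (h : ∀ i, PSD (M i)) (hl : ∀ x y, Filter.Tendsto (fun i => M i x y) l (nhds (N x y))) :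
    PSD N := by
  let _ := Fintype.ofFinite X
  refine ⟨fun x y => tendsto_nhds_unique (hl y x) ?_, fun a => ?_⟩
  · simp only [(h _).1 x y]
    exact (Complex.continuous_conj.tendsto _).comp (hl x y)
  · refine ge_of_tendsto' (x := l) (f := fun i =>
      (csm fun x => csm fun y => a x * conj (a y) * M i x y).re) ?_ fun i => (h i).2 a
    simp only [csm_eq]
    exact (Complex.continuous_re.tendsto _).comp
      (tendsto_finsetSum _ fun x _ => tendsto_finsetSum _ fun y _ => (hl x y).const_mul _)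

lemma PSD.diag {M : X → X → ℂ} (h : PSD M) (x : X) : M x x = (‖M x x‖ : ℝ) := by
  obtain ⟨φ, hφ⟩ := h.gram
  simp only [hφ, mul_conj'', csm_ofReal, Complex.norm_real]
  rw [Real.norm_of_nonneg (sm_nonneg fun j => by positivity)]

lemma PSD.diag_nonneg {M : X → X → ℂ} (h : PSD M) (x : X) : 0 ≤ (M x x).re := by
  rw [h.diag, Complex.ofReal_re]; positivity

lemma PSD.norm_sq_le {M : X → X → ℂ} (h : PSD M) (x y : X) :
    ‖M x y‖ ^ 2 ≤ (M x x).re * (M y y).re := by
  obtain ⟨φ, hφ⟩ := h.gram
  simp only [hφ, mul_conj'', csm_ofReal, Complex.ofReal_re]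
  simpa only [Complex.norm_conj] using norm_csm_cs (fun j => φ j x) fun j => conj (φ j y)

lemma PSD.norm_le {M : X → X → ℂ} (h : PSD M) {c : ℝ} (hc : ∀ x, ‖M x x‖ ≤ c) (x y : X) :
    ‖M x y‖ ≤ c := by
  have h0 : 0 ≤ c := (norm_nonneg _).trans (hc x)
  refine (sq_le_sq₀ (norm_nonneg _) h0).1 ((h.norm_sq_le x y).trans ?_)
  rw [sq]
  exact mul_le_mul ((Complex.re_le_norm _).trans (hc x)) ((Complex.re_le_norm _).trans (hc y))
    (h.diag_nonneg y) h0

lemma psd_model {E I : Type} [AddCommGroup E] [Finite E] [Finite I] (τ : QT E) :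
    PSD (model τ : Om I → Om I → ℂ) := by
  exact PSD.cav fun w => psd_one (ph τ w)

lemma psd_gram {E I : Type} [AddCommGroup E] [Finite E] [Finite I] (τ : QT E)
    (u : OmE E I → ℂ) : PSD (gram τ u) := by
  exact PSD.csm fun w => psd_one (tw τ u w)

end psd

end NE
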