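import Pool.Agent.Lib.MP_ecee09_co.NE.Stmts4
import Pool.Agent.Lib.MP_ecee09_co.NE.CQT

/-! Scales: samples, characters, `bet`, `bb`, `dch`, `Nul`. -/

namespace NE

open SD
open ComplexConjugate

set_option linter.unusedSectionVars false

theorem ls_sep {X : Type} [AddCommGroup X] [Finite X] {a : X} (h : a ≠ 0) :
    ∃ ψ : Ch X, ψ a ≠ 0 := by
  obtain ⟨ψ, hψ⟩ := AddChar.exists_apply_ne_zero.2 h
  obtain ⟨χ, rfl⟩ := AddChar.circleEquivComplex.surjective ψ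
  have hi := AddCircle.injective_toCircle (T := (1 : ℝ)) one_ne_zero
  have hs : Function.Surjective (AddCircle.toCircle (T := (1 : ℝ))) := fun z => by
    obtain ⟨x, hx⟩ := (AddCircle.homeomorphCircle (T := (1 : ℝ)) one_ne_zero).surjective z
    exact ⟨x, (AddCircle.homeomorphCircle_apply _ _).symm.trans hx⟩
  choose g hg using hs
  refine ⟨AddMonoidHom.mk' (fun x => g (χ x)) fun a b => hi (by
    rw [AddCircle.toCircle_add, hg, hg, hg, AddChar.map_add_eq_mul]), fun e => hψ ?_⟩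
  have : χ a = 1 := by rw [← hg (χ a), show g (χ a) = 0 from e, AddCircle.toCircle_zero]
  show ((χ a : Circle) : ℂ) = 1
  rw [this]; rfl

theorem ls_cav_ch {X : Type} [AddCommGroup X] [Finite X] (a : X) :
    cav (fun ψ : Ch X => ee (ψ a)) = (ind (a = 0) : ℝ) := by
  rw [cav_ee_add (fun ψ : Ch X => ψ a) fun _ _ => rfl, ind_congr (q := a = 0)
    ⟨fun h => by_contra fun e => let ⟨ψ, hψ⟩ := ls_sep e; hψ (h ψ), fun h ψ => by simp [h]⟩]

section smp
variable {I K T T' : Type}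

/-- the unit vector -/
noncomputable def ei (i : I) : I → ℤ := smp fun _ : Unit => i

theorem smp_eq [Fintype T] (κ : T → I) : smp κ = ∑ t, ei (κ t) := by
  funext i
  simp only [smp, ei, finsum_eq_sum_of_fintype, Finset.sum_apply, Finset.univ_unique,
    Finset.sum_singleton]

theorem smp_hom {M : Type} [AddCommGroup M] [Fintype T] (χ : (I → ℤ) →+ M) (κ : T → I) :
    χ (smp κ) = ∑ t, χ (ei (κ t)) := by rw [smp_eq, map_sum]

theorem smp_equiv (σ : T' ≃ T) (κ : T → I) : smp (fun t => κ (σ t)) = smp κ := by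
  classical
  funext i
  exact finsum_comp_equiv σ (f := fun t => if κ t = i then (1 : ℤ) else 0)

theorem smp_add [Finite T] [Finite T'] (κ : T ⊕ T' → I) :
    smp κ = (smp fun t => κ (.inl t)) + smp fun t => κ (.inr t) := by
  let _ := Fintype.ofFinite T; let _ := Fintype.ofFinite T'
  simp only [smp_eq, Fintype.sum_sum_type]

theorem smp_prod [Fintype T] [Finite T'] (κ : T × T' → I) :
    smp κ = ∑ a, smp fun b => κ (a, b) := by
  let _ := Fintype.ofFinite T'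
  simp only [smp_eq, Fintype.sum_prod_type]

theorem ei_apply [DecidableEq I] (i j : I) : ei i j = if i = j then 1 else 0 := by
  simp only [ei, smp, finsum_unique]
  congr

open Classical in
/-- the block of a label on a template is the sum of the unit vectors at its points -/
theorem yv_lcomp [Fintype T] {ι : T → I} (h : Function.Injective ι) (Ψ : Lab T K) (a : K) :
    yv (lcomp (crd ι) Ψ) a = ∑ u, if Ψ u = some a then ei (ι u) else 0 := by
  funext i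
  rw [Finset.sum_apply, yv]
  by_cases hi : ∃ u, ι u = i
  · obtain ⟨u, rfl⟩ := hi
    rw [lcomp_crd_apply h, Finset.sum_eq_single u (fun v _ hv => by
      split_ifs <;> simp [ei_apply, h.ne hv]) (by simp)]
    split_ifs <;> simp [ei_apply]
  · rw [lcomp_of_none _ ((crd_eq_none h).2 hi), if_neg (by simp)]
    refine (Finset.sum_eq_zero fun u _ => ?_).symm
    split_ifs
    · rw [ei_apply, if_neg fun e => hi ⟨u, e⟩]
    · rfl

/-- an atom of a probe -/
noncomputable def atom {r J t : ℕ} (ι : K × Fin r × Fin J × Fin t → I) (z : K × Fin r) : I → ℤ :=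
  smp fun u : Fin J × Fin t => ι (z.1, z.2, u)

theorem yv_llab [Finite K] {r J t : ℕ} (o : LO K r J t I) (a : K) :
    yv (llab o) a = ∑ j, if o.2 (a, j) then atom o.1 (a, j) else 0 := by
  classical
  let _ := Fintype.ofFinite K
  rw [llab, yv_lcomp o.1.injective, Fintype.sum_prod_type, Finset.sum_eq_single a
    (fun b _ hb => Finset.sum_eq_zero fun u _ => if_neg (by
      unfold tg; split_ifs <;> simp [hb])) (by simp), Fintype.sum_prod_type]
  refine Finset.sum_congr rfl fun j _ => ?_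
  cases h : o.2 (a, j) <;> simp [tg, h, atom, smp_eq]

end smp

section dch
variable {I : Type} [Finite I] (A : Om I) (e : F)

/-- mean of a character over the indices with loop `e` -/
noncomputable def mch (χ : Ch (I → ℤ)) : ℂ := cav fun i : Lp A e => ee (χ (ei (i : I)))

theorem dch_eq (χ : Ch (I → ℤ)) : dch A e χ = 1 - ‖mch A e χ‖ ^ 2 := rfl

theorem norm_mch_le (χ : Ch (I → ℤ)) : ‖mch A e χ‖ ≤ 1 :=
  norm_cav_le_const zero_le_one fun _ => (norm_ee _).le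

theorem dch_nonneg (χ : Ch (I → ℤ)) : 0 ≤ dch A e χ :=
  sub_nonneg.2 (pow_le_one₀ (norm_nonneg _) (norm_mch_le A e χ))

theorem dch_le_one (χ : Ch (I → ℤ)) : dch A e χ ≤ 1 := sub_le_self _ (sq_nonneg _)

theorem cav_smp {T : Type} [Finite T] (χ : Ch (I → ℤ)) :
    (cav fun κ : T → Lp A e => ee (χ (smp fun a => (κ a : I)))) = mch A e χ ^ Nat.card T := by
  let _ := Fintype.ofFinite T
  simp only [smp_hom, ee_sum]
  rw [← prod_cav fun (_ : T) (i : Lp A e) => ee (χ (ei (i : I))), Finset.prod_const,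
    Finset.card_univ, Nat.card_eq_fintype_card, mch]

theorem cav_df (t : ℕ) (χ : Ch (I → ℤ)) :
    (cav fun κ : (Fin t → Lp A e) × (Fin t → Lp A e) => ee (χ (df κ))) =
      (((1 - dch A e χ) ^ t : ℝ) : ℂ) := by
  simp only [df, map_sub, ee_sub]
  rw [cav_prod]
  simp only [cav_mul_left, cav_mul_right, ← conj_cav, cav_smp, Nat.card_eq_fintype_card,
    Fintype.card_fin]
  rw [map_pow, ← mul_pow, mul_conj'', dch_eq, sub_sub_cancel]
  push_cast; rfl

theorem dch_neg (χ : Ch (I → ℤ)) : dch A e (-χ) = dch A e χ := by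
  have : mch A e (-χ) = conj (mch A e χ) := by
    rw [mch, mch, conj_cav]; exact cav_congr fun i => (conj_ee _).symm
  rw [dch_eq, dch_eq, this, Complex.norm_conj]

variable [Nonempty (Lp A e)]

theorem dch_zero : dch A e 0 = 0 := by simp [dch, cav_const]

/-- `dch` as a mean square distance -/
theorem dch_pair (χ : Ch (I → ℤ)) : 2 * dch A e χ =
    av fun p : Lp A e × Lp A e => ‖ee (χ (ei (p.1 : I))) - ee (χ (ei (p.2 : I)))‖ ^ 2 := by
  have h1 : ∀ p : Lp A e × Lp A e, ‖ee (χ (ei (p.1 : I))) - ee (χ (ei (p.2 : I)))‖ ^ 2 =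
      2 - 2 * (ee (χ (ei (p.1 : I))) * conj (ee (χ (ei (p.2 : I))))).re := fun p => by
    rw [← Complex.normSq_eq_norm_sq, Complex.normSq_sub, Complex.normSq_eq_norm_sq,
      Complex.normSq_eq_norm_sq, norm_ee, norm_ee]
    ring
  simp only [h1]
  rw [av_sub, av_const, av_mul_left, ← cav_re, cav_prod]
  simp only [cav_mul_left, cav_mul_right, ← conj_cav]
  rw [mul_conj'', Complex.ofReal_re, dch_eq, mch]
  ring

theorem ls_ee_sub_add (a b c d : TT) :
    ‖ee (a + b) - ee (c + d)‖ ≤ ‖ee a - ee c‖ + ‖ee b - ee d‖ := by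
  have : ee (a + b) - ee (c + d) = (ee a - ee c) * ee b + ee c * (ee b - ee d) := by
    rw [ee_add, ee_add]; ring
  rw [this]
  exact (norm_add_le _ _).trans (by simp)

theorem dch_sum_le {ι : Type} (s : Finset ι) (χ : ι → Ch (I → ℤ)) :
    dch A e (∑ i ∈ s, χ i) ≤ s.card * ∑ i ∈ s, dch A e (χ i) := by
  have h1 : ∀ (x y : I → ℤ), ‖ee ((∑ i ∈ s, χ i) x) - ee ((∑ i ∈ s, χ i) y)‖ ≤
      ∑ i ∈ s, ‖ee (χ i x) - ee (χ i y)‖ := fun x y => by
    classical
    induction s using Finset.induction_on with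
    | empty => simp
    | insert i s hi ih =>
      rw [Finset.sum_insert hi, Finset.sum_insert hi]
      exact (ls_ee_sub_add _ _ _ _).trans (add_le_add le_rfl ih)
  refine le_of_mul_le_mul_left ?_ two_pos
  rw [mul_left_comm, Finset.mul_sum]
  simp only [dch_pair]
  rw [← av_sum, ← av_mul_left]
  exact av_mono fun p => (pow_le_pow_left₀ (norm_nonneg _) (h1 _ _) 2).trans
    sq_sum_le_card_mul_sum_sq

theorem dch_add_le (χ χ' : Ch (I → ℤ)) : dch A e (χ + χ') ≤ 2 * (dch A e χ + dch A e χ') := by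
  simpa using dch_sum_le A e Finset.univ ![χ, χ']

theorem dch_nsmul_le (n : ℕ) (χ : Ch (I → ℤ)) : dch A e (n • χ) ≤ n ^ 2 * dch A e χ := by
  have := dch_sum_le A e (Finset.range n) fun _ => χ
  simpa [sq, mul_assoc] using this

theorem sqrt_dch_add (χ χ' : Ch (I → ℤ)) :
    √(dch A e (χ + χ')) ≤ √(dch A e χ) + √(dch A e χ') := by
  have a := dch_nonneg A e χ
  have b := dch_nonneg A e χ'
  refine Real.sqrt_le_iff.2 ⟨by positivity, le_of_mul_le_mul_left ?_ two_pos⟩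
  have h := abs_av_mul_le
    (fun p : Lp A e × Lp A e => ‖ee (χ (ei (p.1 : I))) - ee (χ (ei (p.2 : I)))‖)
    fun p => ‖ee (χ' (ei (p.1 : I))) - ee (χ' (ei (p.2 : I)))‖
  rw [← dch_pair, ← dch_pair, Real.sqrt_mul zero_le_two, Real.sqrt_mul zero_le_two,
    mul_mul_mul_comm, Real.mul_self_sqrt zero_le_two] at h
  rw [add_sq, Real.sq_sqrt a, Real.sq_sqrt b, dch_pair]
  refine (av_mono fun p => pow_le_pow_left₀ (norm_nonneg _) (ls_ee_sub_add _ _ _ _) 2).trans ?_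
  simp only [add_sq, mul_assoc]
  rw [av_add, av_add, av_mul_left, ← dch_pair, ← dch_pair]
  linarith [le_abs_self (av fun p : Lp A e × Lp A e =>
    ‖ee (χ (ei (p.1 : I))) - ee (χ (ei (p.2 : I)))‖ *
      ‖ee (χ' (ei (p.1 : I))) - ee (χ' (ei (p.2 : I)))‖)]

end dch

namespace LD
variable {I EE : Type} [Finite I] [AddCommGroup EE] {L : LD I EE} {J : ℕ} {Cf : ℕ → ℕ}

/-- the quotient by the subgroup of `A` -/
abbrev Qt (L : LD I EE) (A : Om I) : Type := (I → ℤ) ⧸ L.V A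

theorem Ok.finQ (h : L.Ok J Cf) (hJ : 0 < J) (A : Om I) : Finite (L.Qt A) := by
  classical
  let _ := Fintype.ofFinite I
  refine Finite.of_surjective
    (fun x : I → Fin J => (QuotientAddGroup.mk (fun i => ((x i : ℕ) : ℤ)) : L.Qt A)) fun q => ?_
  obtain ⟨u, rfl⟩ := QuotientAddGroup.mk_surjective q
  have hJ' : (0 : ℤ) < J := by exact_mod_cast hJ
  refine ⟨fun i => ⟨(u i % J).toNat, by have := Int.emod_lt_of_pos (u i) hJ'; omega⟩, ?_⟩
  refine QuotientAddGroup.eq.2 ?_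
  convert h.jv A fun i => u i / J using 1
  funext i
  have := Int.emod_nonneg (u i) hJ'.ne'
  have e := Int.emod_add_mul_ediv (u i) J
  simp only [Pi.add_apply, Pi.neg_apply, Int.toNat_of_nonneg this, Pi.smul_apply, nsmul_eq_mul]
  linarith

/-- the character of `Z^I` of a character of the quotient -/
def lift (L : LD I EE) (A : Om I) (ψ : Ch (L.Qt A)) : Ch (I → ℤ) :=
  ψ.comp (QuotientAddGroup.mk' _)

theorem lift_of_mem (A : Om I) (ψ : Ch (L.Qt A)) {u : I → ℤ} (hu : u ∈ L.V A) :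
    L.lift A ψ u = 0 := by
  show ψ (QuotientAddGroup.mk u) = 0
  rw [(QuotientAddGroup.eq_zero_iff u).2 hu, map_zero]

theorem exists_lift (A : Om I) {χ : Ch (I → ℤ)} (h : ∀ u ∈ L.V A, χ u = 0) :
    ∃ ψ, L.lift A ψ = χ := ⟨QuotientAddGroup.lift _ χ h, AddMonoidHom.ext fun _ => rfl⟩

theorem Ok.ind_eq (h : L.Ok J Cf) (hJ : 0 < J) (A : Om I) (u : I → ℤ) :
    ((ind (u ∈ L.V A) : ℝ) : ℂ) = cav fun ψ : Ch (L.Qt A) => ee (L.lift A ψ u) := by
  have := h.finQ hJ A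
  rw [← ind_congr (QuotientAddGroup.eq_zero_iff u), ← ls_cav_ch]; rfl

theorem Ok.card_ch (h : L.Ok J Cf) (hJ : 0 < J) (A : Om I) :
    Nat.card (Ch (L.Qt A)) = (L.V A).index := by
  have := h.finQ hJ A
  rw [card_hom]; rfl

theorem Ok.index_pos (h : L.Ok J Cf) (hJ : 0 < J) (A : Om I) : 0 < (L.V A).index := by
  have := h.finQ hJ A
  exact Nat.card_pos (α := L.Qt A)

/-- `bet` for an arbitrary character -/
noncomputable def gbet (L : LD I EE) (A : Om I) (e : F) (t : ℕ) (φ : Ch (I → ℤ)) : ℝ :=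
  av fun κ : (Fin t → Lp A e) × (Fin t → Lp A e) => ind (df κ ∈ L.V A) * (ee (φ (df κ))).re

theorem bet_gbet (A : Om I) (l : Ch EE) (e : F) (t : ℕ) (y : I → ℤ) :
    L.bet A l e t y = L.gbet A e t (l.comp (L.B A y)) := rfl

theorem bb_flip (A : Om I) (l : Ch EE) (e e' : F) (t t' : ℕ) :
    L.bb A l e e' t t' = av fun κ : (Fin t' → Lp A e') × (Fin t' → Lp A e') =>
      ind (df κ ∈ L.V A) * L.gbet A e t (l.comp ((L.B A).flip (df κ))) := by
  simp only [bb, bet, gbet, ← av_mul_left]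
  rw [av_comm]
  exact av_congr fun _ => av_congr fun _ => mul_left_comm _ _ _

theorem gbet_congr (A : Om I) (e : F) (t : ℕ) {φ φ' : Ch (I → ℤ)} (h : ∀ u ∈ L.V A, φ u = φ' u) :
    L.gbet A e t φ = L.gbet A e t φ' := av_congr fun κ => by
  by_cases hk : df κ ∈ L.V A
  · rw [h _ hk]
  · simp [ind_neg hk]

variable (h : L.Ok J Cf) (hJ : 0 < J) (A : Om I) (e : F)
include h hJ

/-- the complex form -/
theorem Ok.cav_gbet (t : ℕ) (φ : Ch (I → ℤ)) :
    (cav fun κ : (Fin t → Lp A e) × (Fin t → Lp A e) =>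
      ((ind (df κ ∈ L.V A) : ℝ) : ℂ) * ee (φ (df κ))) =
      ((av fun ψ : Ch (L.Qt A) => (1 - dch A e (φ + L.lift A ψ)) ^ t : ℝ) : ℂ) := by
  have := h.finQ hJ A
  simp only [h.ind_eq hJ, ← cav_mul_right]
  rw [cav_comm, ← cav_ofReal]
  refine cav_congr fun ψ => ?_
  rw [← cav_df]
  exact cav_congr fun κ => by rw [AddMonoidHom.add_apply, ee_add, mul_comm]

theorem Ok.gbet_eq (t : ℕ) (φ : Ch (I → ℤ)) :
    L.gbet A e t φ = av fun ψ : Ch (L.Qt A) => (1 - dch A e (φ + L.lift A ψ)) ^ t := by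
  rw [← Complex.ofReal_re (av _), ← h.cav_gbet hJ, cav_re]
  simp only [gbet, Complex.re_ofReal_mul]

theorem Ok.cav_gbet' (t : ℕ) (φ : Ch (I → ℤ)) :
    (cav fun κ : (Fin t → Lp A e) × (Fin t → Lp A e) =>
      ((ind (df κ ∈ L.V A) : ℝ) : ℂ) * ee (φ (df κ))) = (L.gbet A e t φ : ℝ) := by
  rw [h.cav_gbet hJ, h.gbet_eq hJ]

theorem Ok.bet_eq (l : Ch EE) (t : ℕ) (y : I → ℤ) : L.bet A l e t y =
    av fun ψ : Ch (L.Qt A) => (1 - dch A e (l.comp (L.B A y) + L.lift A ψ)) ^ t :=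
  h.gbet_eq hJ A e t (l.comp (L.B A y))

theorem Ok.gbet_nonneg (t : ℕ) (φ : Ch (I → ℤ)) : 0 ≤ L.gbet A e t φ := by
  have := h.finQ hJ A
  rw [h.gbet_eq hJ]
  exact av_nonneg fun _ => pow_nonneg (sub_nonneg.2 (dch_le_one _ _ _)) _

theorem Ok.gbet_le_one (t : ℕ) (φ : Ch (I → ℤ)) : L.gbet A e t φ ≤ 1 := by
  have := h.finQ hJ A
  rw [h.gbet_eq hJ]
  exact av_le_const fun _ => pow_le_one₀ (sub_nonneg.2 (dch_le_one _ _ _))
    (sub_le_self _ (dch_nonneg _ _ _))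

theorem Ok.gbet_anti {t t' : ℕ} (ht : t ≤ t') (φ : Ch (I → ℤ)) :
    L.gbet A e t' φ ≤ L.gbet A e t φ := by
  have := h.finQ hJ A
  rw [h.gbet_eq hJ, h.gbet_eq hJ]
  exact av_mono fun _ => pow_le_pow_of_le_one (sub_nonneg.2 (dch_le_one _ _ _))
    (sub_le_self _ (dch_nonneg _ _ _)) ht

theorem Ok.bet_nonneg (l : Ch EE) (t : ℕ) (y : I → ℤ) : 0 ≤ L.bet A l e t y :=
  h.gbet_nonneg hJ A e t (l.comp (L.B A y))

theorem Ok.bet_le_one (l : Ch EE) (t : ℕ) (y : I → ℤ) : L.bet A l e t y ≤ 1 :=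
  h.gbet_le_one hJ A e t (l.comp (L.B A y))

theorem Ok.bet_anti (l : Ch EE) {t t' : ℕ} (ht : t ≤ t') (y : I → ℤ) :
    L.bet A l e t' y ≤ L.bet A l e t y := h.gbet_anti hJ A e ht (l.comp (L.B A y))

theorem Ok.bb_nonneg (l : Ch EE) (e' : F) (t t' : ℕ) : 0 ≤ L.bb A l e e' t t' :=
  av_nonneg fun _ => mul_nonneg (ind_nonneg _) (h.bet_nonneg hJ A e' l t' _)

theorem Ok.bb_le_one (l : Ch EE) (e' : F) (t t' : ℕ) : L.bb A l e e' t t' ≤ 1 :=
  (av_mono fun _ => mul_le_one₀ (ind_le_one _) (h.bet_nonneg hJ A e' l t' _)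
    (h.bet_le_one hJ A e' l t' _)).trans av_one_le

theorem Ok.bb_anti (l : Ch EE) (e' : F) {t s t' s' : ℕ} (ht : t ≤ s) (ht' : t' ≤ s') :
    L.bb A l e e' s s' ≤ L.bb A l e e' t t' := by
  refine le_trans (b := L.bb A l e e' s t') (av_mono fun _ =>
    mul_le_mul_of_nonneg_left (h.bet_anti hJ A e' l ht' _) (ind_nonneg _)) ?_
  rw [bb_flip, bb_flip]
  exact av_mono fun _ => mul_le_mul_of_nonneg_left (h.gbet_anti hJ A e ht _) (ind_nonneg _)

theorem Ok.nul_of_gbet {t : ℕ} (ht : 0 < t) {φ : Ch (I → ℤ)} {d : ℝ} (hd : 0 < d)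
    (hb : d ≤ L.gbet A e t φ) : L.Nul A e φ (Real.log (1 / d) / t) := by
  have := h.finQ hJ A
  rw [h.gbet_eq hJ] at hb
  obtain ⟨ψ, hψ⟩ := exists_av_le fun ψ : Ch (L.Qt A) => (1 - dch A e (φ + L.lift A ψ)) ^ t
  refine ⟨φ + L.lift A ψ, fun u hu => by rw [AddMonoidHom.add_apply, lift_of_mem A ψ hu, add_zero],
    ?_⟩
  have h1 : d ≤ Real.exp (-(dch A e (φ + L.lift A ψ) * t)) := by
    rw [← neg_mul, mul_comm, Real.exp_nat_mul]
    exact (hb.trans hψ).trans (pow_le_pow_left₀ (sub_nonneg.2 (dch_le_one _ _ _))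
      (by linarith [Real.add_one_le_exp (-dch A e (φ + L.lift A ψ))]) t)
  rw [le_div_iff₀ (by exact_mod_cast ht), one_div, Real.log_inv]
  linarith [(Real.log_le_iff_le_exp hd).2 h1]

theorem Ok.gbet_of_nul (t : ℕ) {φ : Ch (I → ℤ)} {θ : ℝ} (hθ : θ ≤ 1) (hn : L.Nul A e φ θ) :
    (1 - θ) ^ t / (L.V A).index ≤ L.gbet A e t φ := by
  have := h.finQ hJ A
  obtain ⟨χ, h1, h2⟩ := hn
  obtain ⟨ψ, hψ⟩ := exists_lift A (χ := χ - φ) fun u hu => by
    rw [AddMonoidHom.sub_apply, h1 u hu, sub_self]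
  rw [h.gbet_eq hJ, av_def, h.card_ch hJ]
  refine div_le_div_of_nonneg_right (le_trans ?_ (single_le_sm
    (fun _ => pow_nonneg (sub_nonneg.2 (dch_le_one _ _ _)) _) ψ)) (Nat.cast_nonneg _)
  rw [hψ, add_sub_cancel]
  exact pow_le_pow_left₀ (sub_nonneg.2 hθ) (by linarith) t

theorem Ok.nul_of_bet {t : ℕ} (ht : 0 < t) {l : Ch EE} {y : I → ℤ} {d : ℝ} (hd : 0 < d)
    (hb : d ≤ L.bet A l e t y) : L.Nul A e (l.comp (L.B A y)) (Real.log (1 / d) / t) :=
  h.nul_of_gbet hJ A e ht hd hb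

theorem Ok.bet_of_nul (t : ℕ) {l : Ch EE} {y : I → ℤ} {θ : ℝ} (hθ : θ ≤ 1)
    (hn : L.Nul A e (l.comp (L.B A y)) θ) : (1 - θ) ^ t / (L.V A).index ≤ L.bet A l e t y :=
  h.gbet_of_nul hJ A e t hθ hn

omit h hJ
variable {A e}

theorem Nul.mono {φ : Ch (I → ℤ)} {θ θ' : ℝ} (h : L.Nul A e φ θ) (h' : θ ≤ θ') :
    L.Nul A e φ θ' := let ⟨χ, a, b⟩ := h; ⟨χ, a, b.trans h'⟩

theorem Nul.congr {φ φ' : Ch (I → ℤ)} {θ : ℝ} (h : L.Nul A e φ θ)
    (h' : ∀ u ∈ L.V A, φ u = φ' u) : L.Nul A e φ' θ :=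
  let ⟨χ, a, b⟩ := h; ⟨χ, fun u hu => (a u hu).trans (h' u hu), b⟩

theorem Nul.nonneg {φ : Ch (I → ℤ)} {θ : ℝ} (h : L.Nul A e φ θ) : 0 ≤ θ :=
  let ⟨_, _, b⟩ := h; (dch_nonneg _ _ _).trans b

theorem Nul.neg {φ : Ch (I → ℤ)} {θ : ℝ} (h : L.Nul A e φ θ) : L.Nul A e (-φ) θ :=
  let ⟨χ, a, b⟩ := h
  ⟨-χ, fun u hu => congrArg Neg.neg (a u hu), (dch_neg A e χ).trans_le b⟩

variable [Nonempty (Lp A e)]

theorem nul_zero : L.Nul A e 0 0 := ⟨0, fun _ _ => rfl, (dch_zero A e).le⟩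

theorem nul_sum {ι : Type} (s : Finset ι) {φ : ι → Ch (I → ℤ)} {θ : ℝ}
    (h : ∀ i ∈ s, L.Nul A e (φ i) θ) : L.Nul A e (∑ i ∈ s, φ i) (s.card ^ 2 * θ) := by
  classical
  choose! χ a b using h
  refine ⟨∑ i ∈ s, χ i, fun u hu => ?_, (dch_sum_le A e s χ).trans ?_⟩
  · simp only [AddMonoidHom.finsetSum_apply]
    exact Finset.sum_congr rfl fun i hi => a i hi u hu
  · rw [sq, mul_assoc]
    exact mul_le_mul_of_nonneg_left ((Finset.sum_le_sum b).trans (by simp)) (Nat.cast_nonneg _)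

theorem Nul.add {φ φ' : Ch (I → ℤ)} {θ θ' : ℝ} (h : L.Nul A e φ θ) (h' : L.Nul A e φ' θ') :
    L.Nul A e (φ + φ') (2 * (θ + θ')) := by
  obtain ⟨χ, a, b⟩ := h
  obtain ⟨χ', a', b'⟩ := h'
  exact ⟨χ + χ', fun u hu => by simp [a u hu, a' u hu],
    (dch_add_le A e χ χ').trans (by linarith)⟩

end LD

end NE
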