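import Pool.Agent.Lib.MP_ecee09_co.NE.Defs

/-! Interface statements of parts I and II. Each module proves one of them from others given as
hypotheses. -/

namespace NE

open SD (F sm av ind cnt Tame)
open ComplexConjugate

/-- the points of `S` are partitioned into the cells `range (a x)`, all of the size of `C` -/
def Tile {X C : Type} (a : X → C → X) (S : X → Prop) : Prop :=
  ∀ x, S x → Function.Injective (a x) ∧ (∃ c, a x c = x) ∧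
    ∀ c, S (a x c) ∧ Set.range (a (a x c)) = Set.range (a x)

/-- marginal repair, with the family it gives -/
def MRF : Prop :=
  ∀ (η : ℝ) (N : ℕ), 0 < η → ∃ η0 : ℝ, 0 < η0 ∧
    ∀ (X C O Λ : Type) [Finite X] [Nonempty X] [Finite C] [Nonempty C] [Finite O] [Nonempty O]
      (a : X → Λ → C → X) (φ : O → Λ) (z : Λ) (good : O → Prop) (ψ : X → O → ℝ),
      (∀ x c, a x z c = x) → Nat.card C ≤ N → (∀ x o, 0 ≤ ψ x o) →
      (∀ o, good o → Tile (fun x => a x (φ o)) fun x => 0 < ψ x o) →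
      (∀ o, good o → ∀ x c, 0 < ψ x o → ψ (a x (φ o) c) o = ψ x o) →
      av (fun x => |av (ψ x) - 1|) ≤ η0 →
      av (fun x => av fun o => ψ x o * ind (¬ good o)) ≤ η0 →
      ∃ (ψ' : X → O → ℝ) (A : Fam a), (∀ x o, 0 ≤ ψ' x o) ∧ (∀ x o, ψ' x o ≤ ψ x o) ∧
        (∀ x o c, 0 < ψ' x o → ψ' (a x (φ o) c) o = ψ' x o) ∧ (∀ x o, ¬ good o → ψ' x o = 0) ∧
        (∀ x, av (ψ' x) ≤ 1) ∧ av (fun x => av fun o => ψ x o - ψ' x o) ≤ η ∧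
        av (fun x => 1 - av (ψ' x)) ≤ η ∧
        ∀ f, A.E f = av fun x => (av fun o => ψ' x o * f x (φ o)) + (1 - av (ψ' x)) * f x z

/-- planting the patterns `en c` on random blocks that rarely meet -/
def PLANT : Prop :=
  ∀ (B : ℕ) (η : ℝ), 0 < η → ∃ η0 : ℝ, 0 < η0 ∧
    ∀ (I U C O : Type) [Finite I] [Finite U] [Finite C] [Nonempty C] [Finite O] [Nonempty O]
      (en : C → Om U) (Φ : O → Lab I U), Function.Injective en → (∀ o, Good (Φ o)) →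
      (∀ o, {i | Φ o i ≠ none}.ncard ≤ B) →
      av (fun o => av fun o' => ind (∃ i, Φ o i ≠ none ∧ Φ o' i ≠ none)) ≤ η0 →
      ∃ A : Fam fun (x : Om I) (Ψ : Lab I U) (c : C) => ow x Ψ (en c), A.junk ≤ η ∧
        ∀ f : Om I → Lab I U → ℝ, (∀ x Ψ, |f x Ψ| ≤ 1) → (∀ x Ψ P, f (ow x Ψ P) Ψ = f x Ψ) →
          |A.E f - av fun o => av fun x => f x (Φ o)| ≤ η

/-- finitely many models of bounded order -/
def FIN : Prop :=
  ∀ J : ℕ, ∃ (m : ℕ) (σ : Fin m → Ty), ∀ σ' : Ty, σ'.τ.ND → Nat.card σ'.E ≤ J →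
    ∃ i, (σ i).τ.ND ∧ Nat.card (σ i).E = Nat.card σ'.E ∧
      ∀ (K : Type) [Finite K] (P P' : Om K), model (σ i).τ P P' = model σ'.τ P P'

/-- twisted Gram matrix averaged over coordinate cells -/
noncomputable def kv {E I : Type} [AddCommGroup E] (τ : QT E) (h : OmE E I → ℂ) (U : Type)
    (P P' : Om U) : ℂ :=
  cav fun ι : U ↪ I => cav fun x : OmE E I => gram τ (res h x (crd ι)) P P'

/-- a limit kernel -/
def KLIM : Prop :=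
  ∀ (E : Type) [AddCommGroup E] [Finite E] (τ : QT E), τ.ND →
    ∀ (I : ℕ → Type) [∀ n, Finite (I n)] (h : ∀ n, OmE E (I n) → ℂ),
      (∀ n, n ≤ Nat.card (I n)) → (∀ n x, ‖h n x‖ ≤ 1) →
      ∃ κ : Ker, ∀ (U : Type) [Finite U] (δ : ℝ) (n1 : ℕ), 0 < δ → ∃ n, n1 ≤ n ∧
        ∀ P P' : Om U, ‖kv τ (h n) U P P' - κ.ρ U P P'‖ ≤ δ

/-- decomposition of the blown-up kernel -/
def DEC : Prop :=
  ∀ (κ : Ker) (K : Type) [Finite K] (ε : ℝ), 0 < ε → ∃ S : ℕ, Dec ε (κ.blow K S)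

/-- the inverse step -/
def INV : Prop :=
  ∀ (E : Type) [AddCommGroup E] [Finite E] (τ : QT E), τ.ND →
    ∀ (K : Type) [Finite K] (ε : ℝ), 0 < ε → ∃ n0 : ℕ,
      ∀ (I : Type) [Finite I], n0 ≤ Nat.card I → ∀ h : OmE E I → ℂ, (∀ x, ‖h x‖ ≤ 1) →
        ∃ A : GFam E I K, A.junk ≤ ε ∧
          Dec ε fun P P' : Om K => A.cE fun x Φ => gram τ (res h x Φ) P P'

/-- the inverse step without twist -/
def INV0 : Prop :=
  ∀ (K : Type) [Finite K] (ε : ℝ), 0 < ε → ∃ n0 : ℕ,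
    ∀ (I : Type) [Finite I], n0 ≤ Nat.card I → ∀ f : Om I → ℂ, (∀ x, ‖f x‖ ≤ 1) →
      ∃ A : OFam I K, A.junk ≤ ε ∧
        Dec ε fun P P' : Om K => A.cE fun x Φ => f (ow x Φ P) * conj (f (ow x Φ P'))

/-- tame extraction -/
def EXT : Prop :=
  ∀ (E : Type) [AddCommGroup E] [Finite E] (τ : QT E), τ.ND → ∃ D : ℕ → ℝ,
    ∀ η : ℝ, 0 < η → ∃ k0 : ℕ, ∀ (K : Type) [Finite K], k0 ≤ Nat.card K → ∃ n0 : ℕ,
      ∀ (I : Type) [Finite I], n0 ≤ Nat.card I → ∀ h : OmE E I → ℂ, (∀ x, ‖h x‖ ≤ 1) →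
        ∃ (A : GFam E I K) (c : OmE E I → Lab I K → (K → E) → ℂ), A.junk ≤ η ∧
          (∀ p : ℕ, (A.E fun x Φ => av fun y => ‖fld τ (c x Φ) y‖ ^ p) ≤ D p) ∧
          fen τ h - η ≤ A.E fun x Φ => (ip (res h x Φ) (fld τ (c x Φ))).re

/-- the indicator of a set, complex valued -/
noncomputable def cind {X : Type} (A : Set X) (x : X) : ℂ := (ind (x ∈ A) : ℝ)

/-- an independent dense set has special energy for one of finitely many types -/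
def TOPA : Prop :=
  ∀ θ : ℝ, 0 < θ → ∃ (J0 m : ℕ) (σ : Fin m → Ty) (μ0 : ℝ), 0 < μ0 ∧
    (∀ i, (σ i).τ.ND ∧ Nontrivial (σ i).E ∧ Nat.card (σ i).E ≤ J0) ∧
    ∀ N K' : Fin m → ℕ, (∀ i, N i + Nat.card (σ i).E ≤ K' i) → ∀ η : ℝ, 0 < η → ∃ n0 : ℕ,
      ∀ (I : Type) [Finite I], n0 ≤ Nat.card I → ∀ A : Set (Om I), Indep A →
        θ ≤ av (fun x => ind (x ∈ A)) ^ 2 →
        ∃ (i : Fin m) (B : OFam I (Tst (σ i).E ⊕ Fin (K' i))), B.junk ≤ η ∧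
          μ0 ≤ B.E fun x Φ => SE (σ i).τ (Fin (N i)) (ores (cind A) x Φ)

/-- special energy gives a gain of low energy -/
def TOPG {E : Type} [AddCommGroup E] (τ : QT E) : Prop :=
  ∀ μ0 : ℝ, 0 < μ0 → ∃ c : ℝ, 0 < c ∧ ∀ (K : Type) [Finite K] (η : ℝ), 0 < η →
    ∃ N K' : ℕ, N + Nat.card E ≤ K' ∧ ∀ f : Om (Tst E ⊕ Fin K') → ℂ, (∀ P, ‖f P‖ ≤ 1) →
      μ0 ≤ SE τ (Fin N) f →
      ∃ B : OFam (Tst E ⊕ Fin K') K, B.junk ≤ η ∧
        pen (Low (Nat.card E) _) f + c ≤ B.E fun x Φ => pen (Low (Nat.card E) K) (ores f x Φ)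

/-- the potential -/
noncomputable def pot (J0 : ℕ) {I : Type} (f : Om I → ℂ) : ℝ :=
  ∑ J ∈ Finset.range (J0 + 1), (n2 f - pen (Low J I) f)

def STEP : Prop :=
  ∀ θ : ℝ, 0 < θ → ∃ (J0 : ℕ) (c : ℝ), 0 < c ∧ ∀ (K : Type) [Finite K] (η : ℝ), 0 < η →
    ∃ n0 : ℕ, ∀ (I : Type) [Finite I], n0 ≤ Nat.card I → ∀ A : Set (Om I), Indep A →
      θ ≤ av (fun x => ind (x ∈ A)) ^ 2 →
      ∃ B : OFam I K, B.junk ≤ η ∧
        (B.E fun x Φ => pot J0 (ores (cind A) x Φ)) ≤ pot J0 (cind A) - c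

/-- the statement for the parts of exponent one or two -/
def COR : Prop :=
  ∀ (s : ℕ) (d : Fin s → ℕ), (∀ r, d r = 1 ∨ d r = 2) → ∀ δ : ℝ, 0 < δ →
    ∃ n₀ : ℕ, ∀ n, n₀ ≤ n → ∀ 𝓕 : Finset (Finset (Σ r : Fin s, Fin (d r) → Fin n)),
      δ * 2 ^ Fintype.card (Σ r : Fin s, Fin (d r) → Fin n) ≤ 𝓕.card →
      ∃ S : Finset (Fin n), S.Nonempty ∧ ∃ A ∈ 𝓕,
        Disjoint A (Finset.univ.filter fun x => ∀ j, x.2 j ∈ S) ∧
        A ∪ (Finset.univ.filter fun x => ∀ j, x.2 j ∈ S) ∈ 𝓕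

end NE
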