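import Pool.Agent.Lib.MP_ecee09_co.NE.Cells
import Pool.Agent.Lib.MP_ecee09_co.NE.Stmts

/-! Second moments of planted densities, uniform embeddings, planting. -/

namespace NE

open SD

section indep
variable {J A O : Type} [Finite J] [Finite A] [Nonempty A] [Finite O] [Nonempty O]

/-- `f` depends only on the coordinates in `S` -/
def Dep {β : Type} (S : Set J) (f : (J → A) → β) : Prop :=
  ∀ x x', (∀ c ∈ S, x c = x' c) → f x = f x'

lemma pl_indep {S T : Set J} (h : Disjoint S T) {f g : (J → A) → ℝ} (hf : Dep S f)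
    (hg : Dep T g) : av (fun x => f x * g x) = av f * av g := by
  classical
  have i : Function.Involutive fun z : (J → A) × (J → A) =>
      (S.piecewise z.1 z.2, S.piecewise z.2 z.1) := fun z => by
    ext c <;> by_cases hc : c ∈ S <;> simp [hc]
  rw [av_mul_av, ← av_prod fun z : (J → A) × (J → A) => f z.1 * g z.2,
    ← av_const (α := J → A) (av fun x => f x * g x), av_comm,
    ← av_prod fun z : (J → A) × (J → A) => f z.1 * g z.1, ← av_equiv i.toPerm]
  refine av_congr fun z => ?_
  change f (S.piecewise z.1 z.2) * g (S.piecewise z.1 z.2) = _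
  rw [hf _ z.1 fun c hc => Set.piecewise_eq_of_mem _ _ _ hc,
    hg _ z.2 fun c hc => Set.piecewise_eq_of_notMem _ _ _ (Set.disjoint_right.1 h hc)]

/-- the second moment of centred functions -/
lemma pl00 (Cs : O → Set J) (g : (J → A) → O → ℝ) {C : ℝ} (hd : ∀ o, Dep (Cs o) fun x => g x o)
    (h0 : ∀ o, av (fun x => g x o) = 0) (hC : ∀ x o, |g x o| ≤ C) :
    av (fun x => av (g x) ^ 2) ≤
      C ^ 2 * av fun o => av fun o' => ind (¬ Disjoint (Cs o) (Cs o')) := by
  simp only [sq (av _), av_mul_av]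
  simp only [← av_mul_left]
  rw [av_comm]
  refine av_mono fun o => ?_
  rw [av_comm]
  refine av_mono fun o' => ?_
  by_cases h : Disjoint (Cs o) (Cs o')
  · rw [pl_indep h (hd o) (hd o'), h0, zero_mul, ind_neg (not_not.2 h), mul_zero]
  · rw [ind_pos h, mul_one]
    refine av_le_const fun x => (le_abs_self _).trans ?_
    rw [abs_mul, sq]
    exact mul_le_mul (hC x o) (hC x o') (abs_nonneg _) ((abs_nonneg _).trans (hC x o))

/-- the second moment of a planted density -/
lemma pl0 (Cs : O → Set J) (ψ : (J → A) → O → ℝ) {C : ℝ} (hd : ∀ o, Dep (Cs o) fun x => ψ x o)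
    (h1 : ∀ o, av (fun x => ψ x o) = 1) (hC : ∀ x o, |ψ x o| ≤ C) :
    av (fun x => (av (ψ x) - 1) ^ 2) ≤
      (C + 1) ^ 2 * av fun o => av fun o' => ind (¬ Disjoint (Cs o) (Cs o')) := by
  have := pl00 Cs (fun x o => ψ x o - 1) (C := C + 1)
    (fun o x x' h => congrArg (· - 1) (hd o x x' h))
    (fun o => by rw [av_sub, h1, av_const, sub_self])
    fun x o => (abs_sub _ _).trans (by simpa using hC x o)
  simpa only [av_sub, av_const] using this

lemma av_abs_le_sqrt {X : Type} [Finite X] (f : X → ℝ) :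
    av (fun x => |f x|) ≤ Real.sqrt (av fun x => f x ^ 2) :=
  Real.le_sqrt_of_sq_le (by simpa only [sq_abs] using av_sq_le fun x => |f x|)

/-- the first moment of a planted density -/
lemma pl1 (Cs : O → Set J) (ψ : (J → A) → O → ℝ) {C ε : ℝ} (hd : ∀ o, Dep (Cs o) fun x => ψ x o)
    (h1 : ∀ o, av (fun x => ψ x o) = 1) (hC : ∀ x o, |ψ x o| ≤ C) (hε : 0 ≤ ε)
    (h : av (fun o => av fun o' => ind (¬ Disjoint (Cs o) (Cs o'))) ≤ ε ^ 2) :
    av (fun x => |av (ψ x) - 1|) ≤ (C + 1) * ε := by
  have C0 : 0 ≤ C := (abs_nonneg _).trans (hC (Classical.arbitrary _) (Classical.arbitrary _))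
  refine (av_abs_le_sqrt _).trans (Real.sqrt_le_iff.2 ⟨by positivity, (pl0 Cs ψ hd h1 hC).trans ?_⟩)
  rw [mul_pow]
  exact mul_le_mul_of_nonneg_left h (sq_nonneg _)

/-- the probability of prescribed values -/
lemma pl_agree (S : Set J) (y : J → A) :
    av (fun x : J → A => ind (∀ c ∈ S, x c = y c)) = (1 / Nat.card A : ℝ) ^ S.ncard := by
  classical
  let _ := Fintype.ofFinite J
  simp only [ind_forall fun c => c ∈ S → _]
  rw [← prod_av fun c a => ind (c ∈ S → a = y c), Set.ncard_eq_toFinset_card' S,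
    ← Finset.prod_const, show S.toFinset = Finset.univ.filter (· ∈ S) by ext; simp,
    Finset.prod_filter]
  refine Finset.prod_congr rfl fun c _ => ?_
  split_ifs with h
  · simpa [h] using av_ind_eq (y c) fun _ => 1
  · simp [h, ind_pos, av_const]

end indep

section emb
variable {U U' I : Type} [Finite U] [Finite U'] [Finite I]

omit [Finite I] in
lemma exists_perm_emb (ι ι' : U ↪ I) : ∃ σ : Equiv.Perm I, ι.trans σ.toEmbedding = ι' :=
  let ⟨σ, h⟩ := Equiv.Perm.exists_extending_pair _ _ ι.injective ι'.injective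
  ⟨σ, Function.Embedding.ext h⟩

omit [Finite U] [Finite I] in
lemma av_emb_perm (σ : Equiv.Perm I) (f : (U ↪ I) → ℝ) :
    av (fun ι : U ↪ I => f (ι.trans σ.toEmbedding)) = av f :=
  av_equiv (Equiv.embeddingCongr (Equiv.refl U) σ) f

/-- a random permutation makes an embedding uniform -/
lemma av_perm (ι : U ↪ I) (f : (U ↪ I) → ℝ) :
    av (fun σ : Equiv.Perm I => f (ι.trans σ.toEmbedding)) = av f := by
  have : Nonempty (U ↪ I) := ⟨ι⟩
  rw [← av_const (α := Equiv.Perm I) (av f), ← av_const (α := U ↪ I) (av fun σ => f _),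
    ← av_congr fun σ => av_emb_perm σ f, av_comm fun σ : Equiv.Perm I => _]
  refine av_congr fun ι' => ?_
  obtain ⟨τ, rfl⟩ := exists_perm_emb ι ι'
  exact (av_equiv (Equiv.mulRight τ) _).symm

/-- the restriction of a uniform embedding is uniform -/
lemma av_restrict [Nonempty (U' ↪ I)] (j : U ↪ U') (f : (U ↪ I) → ℝ) :
    av (fun ι : U' ↪ I => f (j.trans ι)) = av f := by
  obtain ⟨ι⟩ := ‹Nonempty (U' ↪ I)›
  rw [← av_perm ι, ← av_perm (j.trans ι)]
  rfl

lemma nonempty_emb (h : Nat.card U ≤ Nat.card I) : Nonempty (U ↪ I) := by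
  let _ := Fintype.ofFinite U
  let _ := Fintype.ofFinite I
  exact Function.Embedding.nonempty_of_card_le (by simpa using h)

/-- averaging over the fibres of a map with uniform image -/
lemma av_fib {X Y : Type} [Finite X] [Finite Y] [Nonempty X] (g : X → Y)
    (h : ∀ f : Y → ℝ, av (fun x => f (g x)) = av f) (f : X → ℝ) :
    av f = av fun y => av fun x : {x // g x = y} => f x := by
  have : Nonempty Y := ⟨g (Classical.arbitrary X)⟩
  have hX := card_pos' (α := X)
  have hY := card_pos' (α := Y)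
  have e : ∀ y, (Nat.card {x // g x = y} : ℝ) = Nat.card X / Nat.card Y := fun y => by
    have := (h fun y' => ind (y' = y) * 1).trans (av_ind_eq y fun _ => 1)
    rw [av_def, ← sm_subtype (fun x => g x = y) fun _ => 1, sm_const] at this
    field_simp at this ⊢
    linarith
  simp only [av_def, e, sm_div, sm_subtype (fun x => g x = _) f]
  rw [← sm_fiber]
  field_simp

/-- the extensions of `ι` along `j` -/
abbrev Ext (j : U ↪ U') (ι : U ↪ I) : Type := {e : U' ↪ I // j.trans e = ι}

lemma av_ext [Nonempty (U' ↪ I)] (j : U ↪ U') (f : (U' ↪ I) → ℝ) :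
    av f = av fun ι : U ↪ I => av fun e : Ext j ι => f e :=
  av_fib (fun e : U' ↪ I => j.trans e) (av_restrict j) f

omit [Finite U'] [Finite I] in
lemma nonempty_ext [Nonempty (U' ↪ I)] (j : U ↪ U') (ι : U ↪ I) : Nonempty (Ext j ι) := by
  obtain ⟨e⟩ := ‹Nonempty (U' ↪ I)›
  obtain ⟨σ, h⟩ := exists_perm_emb (j.trans e) ι
  exact ⟨⟨e.trans σ.toEmbedding, h⟩⟩

lemma ext_val (j : U ↪ U') (ι : U ↪ I) {u : U'} (hu : u ∉ Set.range j) (i : I) :
    av (fun e : Ext j ι => ind (e.1 u = i)) ≤ 1 / (Nat.card I - Nat.card U : ℝ) := by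
  classical
  have hc : (Nat.card I - Nat.card U : ℝ) = cnt (Set.range ι)ᶜ := by
    rw [cnt_eq_ncard, sub_eq_iff_eq_add, ← Nat.cast_add, ← Set.ncard_add_ncard_compl (Set.range ι),
      Set.ncard_range_of_injective ι.injective, add_comm]
  rw [hc]
  by_cases hi : i ∈ Set.range ι
  · obtain ⟨k, rfl⟩ := hi
    refine le_trans (le_of_eq ((av_congr fun e => ind_neg fun h => hu ⟨k, e.1.injective ?_⟩).trans
      av_zero)) (div_nonneg zero_le_one (cnt_nonneg _))
    exact (DFunLike.congr_fun e.2 k).trans h.symm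
  · have e : ∀ i' ∉ Set.range ι, av (fun e : Ext j ι => ind (e.1 u = i')) =
        av fun e : Ext j ι => ind (e.1 u = i) := fun i' hi' => by
      have inv : Function.Involutive fun e : Ext j ι =>
          (⟨e.1.trans (Equiv.swap i i').toEmbedding, Function.Embedding.ext fun k => by
            have := DFunLike.congr_fun e.2 k
            exact (congrArg (Equiv.swap i i') this).trans (Equiv.swap_apply_of_ne_of_ne
              (fun h => hi ⟨k, h⟩) fun h => hi' ⟨k, h⟩)⟩ : Ext j ι) := fun e =>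
        Subtype.ext (Function.Embedding.ext fun k => Equiv.swap_apply_self _ _ _)
      rw [← av_equiv inv.toPerm]
      exact av_congr fun e => ind_congr (Equiv.swap_apply_eq_iff.trans (by simp))
    have h1 : 0 < cnt (Set.range ι)ᶜ := lt_of_lt_of_le (by rw [ind_pos]; exacts [one_pos, hi])
      (single_le_sm (f := fun x => ind (x ∈ (Set.range ι)ᶜ)) (fun _ => ind_nonneg _) i)
    rw [le_div_iff₀' h1, cnt, ← sm_mul_right]
    refine le_trans (sm_mono (g := fun i' => av fun e : Ext j ι => ind (e.1 u = i')) fun i' => ?_) ?_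
    · by_cases h : i' ∈ Set.range ι
      · rw [ind_neg (p := i' ∈ _) (not_not.2 h), zero_mul]
        exact av_ind_nonneg _
      · rw [ind_pos (p := i' ∈ _) h, one_mul, e i' h]
    · rw [← av_sm_comm]
      refine le_trans (le_of_eq (av_congr fun e => ?_)) av_one_le
      simpa using sm_ind_eq' (e.1 u) fun _ => 1

/-- a new value of a random extension rarely lies in a given set -/
lemma ext_hit (j : U ↪ U') (ι : U ↪ I) (S : Set I) :
    av (fun e : Ext j ι => ind (∃ u, u ∉ Set.range j ∧ e.1 u ∈ S)) ≤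
      Nat.card U' * S.ncard / (Nat.card I - Nat.card U : ℝ) := by
  have h0 : (0 : ℝ) ≤ 1 / (Nat.card I - Nat.card U : ℝ) := div_nonneg zero_le_one (sub_nonneg.2
    (by exact_mod_cast Nat.card_le_card_of_injective ι ι.injective))
  refine (av_mono fun e => ind_exists_le _).trans ?_
  rw [av_sm_comm, mul_div_assoc, ← sm_const]
  refine sm_mono fun u => ?_
  rw [← cnt_eq_ncard, div_eq_mul_one_div, cnt, ← sm_mul_right]
  by_cases hu : u ∈ Set.range j
  · rw [(av_congr fun e => ind_neg fun h => h.1 hu).trans av_zero]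
    exact sm_nonneg fun _ => mul_nonneg (ind_nonneg _) h0
  · refine le_trans (av_mono (g := fun e : Ext j ι => sm fun i => ind (i ∈ S) * ind (e.1 u = i))
      fun e => ?_) ?_
    · simp only [mul_comm (ind (_ ∈ S))]
      rw [sm_ind_eq' (e.1 u) fun i => ind (i ∈ S)]
      exact ind_mono And.right
    · rw [av_sm_comm]
      refine sm_mono fun i => ?_
      rw [av_mul_left]
      exact mul_le_mul_of_nonneg_left (ext_val j ι hu i) (ind_nonneg _)

/-- two random extensions rarely share a new value -/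
lemma ext_meet (j : U ↪ U') (ι : U ↪ I) :
    av (fun e : Ext j ι => av fun e' : Ext j ι =>
      ind (∃ u, u ∉ Set.range j ∧ e'.1 u ∈ Set.range e.1)) ≤
      (Nat.card U' : ℝ) ^ 2 / (Nat.card I - Nat.card U : ℝ) := by
  have h0 : (0 : ℝ) ≤ Nat.card I - Nat.card U := sub_nonneg.2
    (by exact_mod_cast Nat.card_le_card_of_injective ι ι.injective)
  refine (av_mono (g := fun _ => (Nat.card U' : ℝ) ^ 2 / (Nat.card I - Nat.card U : ℝ) * 1)
    fun e => ?_).trans ?_
  · refine (ext_hit j ι _).trans (le_of_eq ?_)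
    rw [Set.ncard_range_of_injective e.1.injective, sq, mul_one]
  · rw [av_mul_left]
    exact mul_le_of_le_one_right (by positivity) av_one_le

/-- a random embedding rarely meets a given set -/
lemma emb_hit (S : Set I) : av (fun ι : U ↪ I => ind (∃ u, ι u ∈ S)) ≤
    Nat.card U * S.ncard / (Nat.card I : ℝ) := by
  have := ext_hit (U := Empty) (U' := U) .ofIsEmpty .ofIsEmpty S
  rw [← av_equiv (Equiv.subtypeUnivEquiv
    (p := fun e : U ↪ I => Function.Embedding.ofIsEmpty.trans e = .ofIsEmpty (α := Empty))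
      fun e => Subsingleton.elim _ _)]
  simpa using this

lemma emb_mem (i : I) : av (fun ι : U ↪ I => ind (i ∈ Set.range ι)) ≤
    Nat.card U / (Nat.card I : ℝ) := by
  simpa using emb_hit (U := U) {i}

lemma emb_val (u : U) (i : I) : av (fun ι : U ↪ I => ind (ι u = i)) ≤ 1 / (Nat.card I : ℝ) := by
  have := ext_val (U := Empty) (U' := U) .ofIsEmpty .ofIsEmpty (u := u) (by simp) i
  rw [← av_equiv (Equiv.subtypeUnivEquiv
    (p := fun e : U ↪ I => Function.Embedding.ofIsEmpty.trans e = .ofIsEmpty (α := Empty))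
      fun e => Subsingleton.elim _ _)]
  simpa using this

/-- two random embeddings rarely meet -/
lemma emb_meet : av (fun ι : U ↪ I => av fun ι' : U' ↪ I =>
    ind (∃ i, i ∈ Set.range ι ∧ i ∈ Set.range ι')) ≤
      Nat.card U * Nat.card U' / (Nat.card I : ℝ) := by
  refine (av_mono (g := fun _ => Nat.card U * Nat.card U' / (Nat.card I : ℝ) * 1)
    fun ι => ?_).trans ?_
  · refine le_trans (av_mono fun ι' => ind_mono ?_) ((emb_hit (U := U') (Set.range ι)).trans
      (le_of_eq ?_))
    · rintro ⟨_, h, u, rfl⟩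
      exact ⟨u, h⟩
    · rw [Set.ncard_range_of_injective ι.injective, mul_comm, mul_one]
  · rw [av_mul_left]
    exact mul_le_of_le_one_right (by positivity) av_one_le

end emb

section plant
variable {I U : Type}

/-- the pairs inside the blocks -/
def ins (Φ : Lab I U) : Set (Sym2 I) := {c | lab2 Φ c ≠ none}

lemma ins_meet {U' : Type} {Φ : Lab I U} {Ψ : Lab I U'} (h : ¬ Disjoint (ins Φ) (ins Ψ)) :
    ∃ i, Φ i ≠ none ∧ Ψ i ≠ none := by
  obtain ⟨c, h1, h2⟩ := Set.not_disjoint_iff.1 h
  induction c using Sym2.ind with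
  | _ i j => exact ⟨i, fun e => h1 (lab2_none_left e j), fun e => h2 (lab2_none_left e j)⟩

lemma ins_card [Finite I] (Φ : Lab I U) : (ins Φ).ncard ≤ {i | Φ i ≠ none}.ncard ^ 2 := by
  rw [sq, ← Set.ncard_prod]
  refine le_trans (Set.ncard_le_ncard fun c h => ?_)
    (Set.ncard_image_le (f := fun p : I × I => s(p.1, p.2)))
  induction c using Sym2.ind with
  | _ i j =>
    exact ⟨(i, j), ⟨fun e => h (lab2_none_left e j), fun e => h (lab2_none_right i e)⟩, rfl⟩

lemma ow_eq_iff (x y : Om I) (Φ : Lab I U) (P : Om U) :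
    ow x Φ P = x ↔ ∀ c ∈ ins Φ, x c = ow y Φ P c := by
  refine ⟨fun h c hc => ?_, fun h => funext fun c => ?_⟩
  · obtain ⟨d, hd⟩ := Option.ne_none_iff_exists'.1 hc
    rw [← h, ow_of_some hd, ow_of_some hd]
  · cases hc : lab2 Φ c with
    | none => exact ow_of_none hc
    | some d => rw [h c (by simp [ins, hc]), ow_of_some hc, ow_of_some hc]

/-- a function that does not see the overwriting depends on the other pairs only -/
lemma dep_compl {β : Type} {Φ : Lab I U} {f : Om I → β} (P : Om U) (h : ∀ x, f (ow x Φ P) = f x) :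
    Dep (ins Φ)ᶜ f := fun x x' e => by
  rw [← h x, ← h x', ow_congr_base Φ P fun c hc => e c (not_not.2 hc)]

theorem plant_of (hM : MRF) : PLANT := fun B η hη => by
  obtain ⟨η0, h0, hM⟩ := hM (η / 2) (2 ^ B ^ 2) (by positivity)
  refine ⟨(η0 / (2 ^ B ^ 2 + 1)) ^ 2, by positivity, ?_⟩
  intro I U C O _ _ _ _ _ _ en Φ hen hg hB hm
  have hc : ∀ o, (ins (Φ o)).ncard ≤ B ^ 2 := fun o =>
    (ins_card _).trans (Nat.pow_le_pow_left (hB o) 2)
  let p : O → ℝ := fun o => av fun x : Om I => ind (∃ c, ow x (Φ o) (en c) = x)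
  have hp : ∀ o, (1 / 2 : ℝ) ^ B ^ 2 ≤ p o := fun o => by
    refine le_trans ?_ (av_mono fun x => ind_mono fun h =>
      ⟨Classical.arbitrary C, (ow_eq_iff x 0 _ _).2 h⟩)
    rw [pl_agree, Nat.card_zmod]
    exact pow_le_pow_of_le_one (by norm_num) (by norm_num) (hc o)
  have p0 : ∀ o, 0 < p o := fun o => lt_of_lt_of_le (by positivity) (hp o)
  let ψ : Om I → O → ℝ := fun x o => ind (∃ c, ow x (Φ o) (en c) = x) / p o
  have ψ0 : ∀ x o, 0 ≤ ψ x o := fun x o => div_nonneg (ind_nonneg _) (p0 o).le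
  have ψp : ∀ x o, 0 < ψ x o ↔ ∃ c, ow x (Φ o) (en c) = x := fun x o =>
    ⟨fun h => by_contra fun h' => by simp [ψ, ind_neg h'] at h,
      fun h => div_pos (by rw [ind_pos h]; exact one_pos) (p0 o)⟩
  have hd : ∀ o, Dep (ins (Φ o)) fun x => ψ x o := fun o x x' e =>
    congrArg (· / p o) (ind_congr (exists_congr fun c => by
      rw [ow_eq_iff x 0, ow_eq_iff x' 0]
      exact forall₂_congr fun d hd => by rw [e d hd]))
  have h1 : ∀ o, av (fun x => ψ x o) = 1 := fun o => (av_div _ _).trans (div_self (p0 o).ne')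
  obtain ⟨ψ', A, a1, a2, -, -, a3, a4, a5, a6⟩ := hM (Om I) C O (Lab I U)
    (fun x Ψ c => ow x Ψ (en c)) Φ (fun _ => none) (fun _ => True) ψ (fun x c => ow_none x _)
    (by
      have o := Classical.arbitrary O
      refine (Nat.card_le_card_of_injective (fun c (d : ins (Φ o)) => ow 0 (Φ o) (en c) d)
        fun c c' e => hen ((hg o).ow_inj 0 ?_)).trans ?_
      · rw [← ow_ow 0 _ (en c') (en c)]
        exact (ow_eq_iff _ 0 _ _).2 fun d hd => (congrFun e ⟨d, hd⟩).symm
      · rw [Nat.card_fun, Nat.card_zmod, Nat.card_coe_set_eq]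
        exact Nat.pow_le_pow_right two_pos (hc o)) ψ0
    (fun o _ x hx => ⟨((hg o).ow_inj x).comp hen, (ψp x o).1 hx, fun c =>
      ⟨(ψp _ o).2 ⟨c, ow_ow _ _ _ _⟩, by simp only [ow_ow]⟩⟩)
    (fun o _ x c hx => congrArg (· / p o)
      ((ind_pos ⟨c, ow_ow _ _ _ _⟩).trans (ind_pos ((ψp x o).1 hx)).symm))
    ((pl1 _ ψ (C := 2 ^ B ^ 2) (ε := η0 / (2 ^ B ^ 2 + 1)) hd h1 (fun x o => by
      rw [abs_of_nonneg (ψ0 x o), div_le_iff₀ (p0 o)]
      refine (ind_le_one _).trans (le_trans (le_of_eq ?_)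
        (mul_le_mul_of_nonneg_left (hp o) (by positivity)))
      rw [← mul_pow]; norm_num) (by positivity)
      ((av_mono fun o => av_mono fun o' => ind_mono ins_meet).trans hm)).trans
      (le_of_eq (by field_simp)))
    (by simp [ind_neg, av_zero, h0.le])
  refine ⟨A, ?_, fun f hf hf' => ?_⟩
  · rw [Fam.junk, a6]
    refine le_trans (av_mono fun x => ?_) (a5.trans (by linarith))
    simp only [ind_neg (not_not.2 (hg _)), mul_zero, av_zero, zero_add]
    exact mul_le_of_le_one_right (sub_nonneg.2 (a3 x)) (ind_le_one _)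
  · have e : (av fun o => av fun x => f x (Φ o)) = av fun x => av fun o => ψ x o * f x (Φ o) := by
      rw [av_comm fun x o => ψ x o * f x (Φ o)]
      exact av_congr fun o => by
        rw [pl_indep disjoint_compl_right (hd o) (dep_compl 0 fun x => hf' x _ 0), h1, one_mul]
    rw [a6, e, ← av_sub]
    refine (abs_av_le _).trans (le_trans (av_mono (g := fun x =>
      (av fun o => ψ x o - ψ' x o) + (1 - av (ψ' x))) fun x => ?_) ?_)
    · rw [add_sub_right_comm, ← av_sub]
      refine (abs_add_le _ _).trans (add_le_add ((abs_av_le _).trans (av_mono fun o => ?_)) ?_)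
      · rw [← sub_mul, abs_mul, abs_sub_comm, abs_of_nonneg (sub_nonneg.2 (a2 x o))]
        exact mul_le_of_le_one_right (sub_nonneg.2 (a2 x o)) (hf _ _)
      · rw [abs_mul, abs_of_nonneg (sub_nonneg.2 (a3 x))]
        exact mul_le_of_le_one_right (sub_nonneg.2 (a3 x)) (hf _ _)
    · rw [av_add]
      linarith

end plant

end NE
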