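import Pool.Agent.Lib.MP_ecee09_co.NE.ALd
import Pool.Agent.Lib.MP_ecee09_co.NE.LSc
import Pool.Agent.Lib.MP_ecee09_co.NE.PL

/-! The abstract lattice freeze: choice of the constants. -/

namespace NE

open SD

lemma al_qr {I : Type} {u u' : ℕ} {γ γ' : ℝ} {A : Om I} (h : QR u γ A) (hu : u' ≤ u)
    (hγ : γ ≤ γ') : QR u' γ' A :=
  ⟨h.bal, fun U _ a π g b => (h.prd U (a.trans hu) π g b).trans hγ,
    fun U _ a R π π' b f c d => (h.uni U (a.trans hu) R π π' b f c d).trans hγ⟩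

lemma al_bb0 {I EE : Type} [AddCommGroup EE] [Finite I] [Nonempty I] {L : LD I EE} {J : ℕ}
    {Cf : ℕ → ℕ} (h : L.Ok J Cf) (hJ : 0 < J) {A : Om I} (hb : Bal A) {R : ℕ}
    (hk : L.kap A ≤ R) (e e' : F) (t : ℕ) : 1 ≤ (Cf R : ℝ) ^ 2 * L.bb A 0 e e' t t := by
  have hI : 0 < Nat.card I := Nat.card_pos
  have ne : ∀ e, Nonempty (Lp A e) := fun e => (Nat.card_pos_iff.1 (by have := hb e; omega)).1
  have hi : (0 : ℝ) < (L.V A).index := by exact_mod_cast h.index_pos hJ A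
  have hc : ((L.V A).index : ℝ) ≤ Cf R := by exact_mod_cast h.idx A R hk
  have h1 : ∀ e y, 1 / ((L.V A).index : ℝ) ≤ L.bet A 0 e t y := fun e y => by
    have := ne e
    have := h.bet_of_nul hJ A e t (l := 0) (y := y) zero_le_one
      (by rw [AddMonoidHom.zero_comp]; exact LD.nul_zero)
    simpa using this
  have h2 : 1 / ((L.V A).index : ℝ) * (1 / (L.V A).index) ≤ L.bb A 0 e e' t t := by
    refine (mul_le_mul_of_nonneg_right (h1 e 0) (by positivity)).trans ?_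
    unfold LD.bb
    rw [LD.bet, ← av_mul_right]
    refine av_mono fun κ => ?_
    simpa using mul_le_mul_of_nonneg_left (h1 e' (df κ)) (ind_nonneg (df κ ∈ L.V A))
  have h3 : 1 ≤ (Cf R : ℝ) * (1 / (L.V A).index) := by
    rw [mul_one_div, le_div_iff₀ hi, one_mul]; exact hc
  calc (1 : ℝ) ≤ Cf R * (1 / (L.V A).index) * (Cf R * (1 / (L.V A).index)) :=
        one_le_mul_of_one_le_of_one_le h3 h3
    _ = (Cf R : ℝ) ^ 2 * (1 / (L.V A).index * (1 / (L.V A).index)) := by ring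
    _ ≤ _ := mul_le_mul_of_nonneg_left h2 (by positivity)

lemma al_core (hM : MRF) (hQ : QRT) (hV : MOVE) (hP : POS) (hB : BAD) (hO : ONE) (hL : JLOW)
    (hI : JINV) (EE : Type) [AddCommGroup EE] [Finite EE] (J : ℕ) (Cf : ℕ → ℕ) (hJ : 0 < J)
    (hE : ∀ e : EE, J • e = 0) (K : Type) [Finite K] (η : ℝ) (hη : 0 < η) :
    ∃ δ : ℝ, 0 < δ ∧ ∀ R : ℕ, ∃ Fn Q0 : ℕ, ∀ Q t1 : ℕ, ∃ n0 : ℕ, 1 ≤ R → Q0 ≤ Q → 1 ≤ t1 →
      ∀ (I : Type) [Finite I], n0 ≤ Nat.card I → ∀ L : LD I EE, L.Ok J Cf →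
        (av fun A => ind (¬ (Fn < L.kap A ∨ (L.kap A ≤ R ∧ ∀ z : Ch EE × F × F,
          1 ≤ R * L.bb A z.1 z.2.1 z.2.2 (Q * t1) (Q * t1) ∨
            Fn * L.bb A z.1 z.2.1 z.2.2 t1 t1 ≤ 1)))) ≤ δ →
        ∃ A : OFam I K, (A.E fun M Φ => ind (¬ (Good Φ ∧
          ((∃ P, L.Fp (ow M Φ P) Φ) ∨ ∀ P, R ≤ L.kap (ow M Φ P))))) ≤ η := by
  obtain ⟨η0, h0, hfam⟩ := AC.fam (K := K) hM η hη
  obtain ⟨δ, hδ, hδ', hδη⟩ : ∃ δ : ℝ, 0 < δ ∧ δ ≤ 1 ∧ 9 * δ ≤ η0 :=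
    ⟨min 1 (η0 / 9), by positivity, min_le_left _ _, by linarith [min_le_right 1 (η0 / 9)]⟩
  refine ⟨δ, hδ, fun R => ?_⟩
  obtain ⟨s, hs⟩ : ∃ s : ℝ, s = (Nat.card EE : ℝ) ^ Nat.card K := ⟨_, rfl⟩
  have hs1 : 1 ≤ s := hs ▸ one_le_pow₀ (by exact_mod_cast Nat.card_pos)
  obtain ⟨r, hr⟩ := hP EE J Cf hJ K
  obtain ⟨c, δ0', Qp, hc, hδ0', hp⟩ := hr R (2 * R * s)
  have hδ0 : 0 < min δ0' 1 := by positivity
  have nP : (0 : ℝ) < Nat.card (Om K) := card_pos'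
  have nL : (1 : ℝ) ≤ Nat.card (K → K → Ch EE) := by exact_mod_cast Nat.card_pos
  have nZ : (0 : ℝ) < Nat.card (Ch EE × F × F) := card_pos'
  obtain ⟨cN, hcN, e7⟩ : ∃ cN : ℝ, 0 < cN ∧
      cN * Nat.card (Om K) ≤ c * min δ0' 1 ^ Nat.card (K × F × Ch EE) :=
    ⟨c * min δ0' 1 ^ Nat.card (K × F × Ch EE) / Nat.card (Om K), by positivity,
      (div_mul_cancel₀ _ nP.ne').le⟩
  obtain ⟨δ1, hδ1, e5⟩ : ∃ δ1 : ℝ, 0 < δ1 ∧ 3 * δ1 * Nat.card (K → K → Ch EE) ≤ δ * cN / 4 :=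
    ⟨δ * cN / 12 / Nat.card (K → K → Ch EE), by positivity, by field_simp; norm_num⟩
  obtain ⟨F0, Qo, ho⟩ := hO EE J Cf hJ R (δ / Nat.card (Ch EE × F × F)) (by positivity)
  obtain ⟨Qj, hj⟩ := hL EE J Cf hJ hE K r δ1 δ1 hδ1 hδ1
  obtain ⟨F1, hF1⟩ := exists_nat_gt (2 * s * (Cf R : ℝ) ^ 2 + 4 * R * s ^ 2 +
    Nat.card (Om K) * (Nat.card (Om K × (K → K → Ch EE)) * (3 * s) / δ1 ^ 2) / (δ * cN))
  obtain ⟨Fn, f1, f2, f3⟩ : ∃ Fn : ℕ, F0 ≤ Fn ∧ J ^ Nat.card K * R ≤ Fn ∧ F1 ≤ Fn :=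
    ⟨F0 + J ^ Nat.card K * R + F1, by omega, by omega, by omega⟩
  have f1' : (F0 : ℝ) ≤ Fn := by exact_mod_cast f1
  have f3' := hF1.trans_le (show (F1 : ℝ) ≤ Fn by exact_mod_cast f3)
  have g1 : 0 ≤ 2 * s * (Cf R : ℝ) ^ 2 := by positivity
  have g2 : 0 ≤ 4 * R * s ^ 2 := by positivity
  have g3 : 0 ≤ Nat.card (Om K) * (Nat.card (Om K × (K → K → Ch EE)) * (3 * s) / δ1 ^ 2) /
    (δ * cN) := by positivity
  have hF : (0 : ℝ) < Fn := by linarith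
  refine ⟨Fn, 2 * Qp + 2 * Qj + Qo + 1, fun Q t1 => ?_⟩
  by_cases hh : 1 ≤ R ∧ 2 * Qp + 2 * Qj + Qo + 1 ≤ Q ∧ 1 ≤ t1
  swap
  · exact ⟨0, fun a b c => absurd ⟨a, b, c⟩ hh⟩
  obtain ⟨hR, hQ0, ht⟩ := hh
  have hR' : (0 : ℝ) < R := by exact_mod_cast hR
  obtain ⟨ε, hε, e1, e2, e4⟩ : ∃ ε : ℝ, 0 < ε ∧ 2 * R * ε ≤ 1 ∧ Fn * ε ≤ 1 ∧
      Nat.card (K × F × Ch EE) * ε ≤ δ * δ1 / 4 := by
    refine ⟨min (min (1 / (2 * R)) (1 / Fn)) (δ * δ1 / 4 / (Nat.card (K × F × Ch EE) + 1)),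
      by positivity, ?_, ?_, ?_⟩
    · rw [← le_div_iff₀' (by positivity)]
      exact (min_le_left _ _).trans (min_le_left _ _)
    · rw [← le_div_iff₀' hF]
      exact (min_le_left _ _).trans (min_le_right _ _)
    · refine le_trans (mul_le_mul_of_nonneg_right (le_add_of_nonneg_right zero_le_one)
        (by positivity)) ?_
      rw [← le_div_iff₀' (by positivity)]
      exact min_le_right _ _
  obtain ⟨u1, γ1, hγ1, hp⟩ := hp (2 * t1) (Q * t1) (by omega) (by nlinarith)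
  obtain ⟨u2, γ2, hγ2, hb⟩ := hB EE J Cf hJ K r (2 * t1) ε hε
  obtain ⟨u3, γ3, hγ3, hj⟩ := hj (2 * t1) (Q * t1) (by omega) (by nlinarith)
  obtain ⟨B, hBe⟩ : ∃ B, B = Nat.card (K × Fin r × Fin J × Fin (2 * t1)) := ⟨_, rfl⟩
  obtain ⟨n1, hm⟩ := hV EE J Cf hJ B (Q * t1) ε hε
  obtain ⟨n2, hi⟩ := hI EE J Cf hJ K r (2 * t1) (Q * t1) B δ1 hδ1
  obtain ⟨n3, ho⟩ := ho t1 (Q * t1) ht (by nlinarith)
  obtain ⟨q, hq, q1, q2⟩ : ∃ q : ℝ, 0 < q ∧ q ≤ δ ∧ Nat.card (Om K) * (2 ^ B ^ 2 * q) ≤ δ * cN :=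
    ⟨min δ (δ * cN / (Nat.card (Om K) * 2 ^ B ^ 2)), by positivity, min_le_left _ _, by
      rw [← mul_assoc, ← le_div_iff₀' (by positivity)]; exact min_le_right _ _⟩
  obtain ⟨n4, hqr⟩ := hQ (u1 + u2 + u3) (min γ1 (min γ2 γ3)) q (by positivity) hq
  refine ⟨n1 + n2 + n3 + n4 + B + Nat.card K + 1, fun _ _ _ I _ hn L ok hg => ?_⟩
  have : Nonempty I := (Nat.card_pos_iff.1 (by omega)).1
  have : Nonempty (K ↪ I) := nonempty_emb (by omega)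
  have : Nonempty (K × Fin r × Fin J × Fin (2 * t1) ↪ I) := nonempty_emb (by omega)
  have sp : ∀ o : LO K r J (2 * t1) I, {i | llab o i ≠ none}.ncard ≤ B := fun o =>
    hBe ▸ supp_lcomp_crd _ _
  have h12 : t1 ≤ Q * t1 := by nlinarith
  let X : AC L K :=
    { J := J, r := r, R := R, Fn := Fn, t1 := t1, t := 2 * t1, t2 := Q * t1, u := u1 + u2 + u3
      Cf := Cf, γ := min γ1 (min γ2 γ3), c := c, δ0 := min δ0' 1, δ := δ, δ1 := δ1, ε := ε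
      cN := cN, s := s, ok := ok, h12 := h12
      b0 := fun A _ l e y => ⟨ok.bet_nonneg hJ A e l _ y, ok.bet_le_one hJ A e l _ y⟩
      ba := fun A _ l e e' => ok.bb_anti hJ A e l e' h12 h12
      z0 := fun A hb hk e' => by
        have a := al_bb0 ok hJ hb hk 0 e' t1
        have b : 0 < L.bb A 0 0 e' t1 t1 := (ok.bb_nonneg hJ A 0 0 e' t1 t1).lt_of_ne fun e => by
          rw [← e] at a; norm_num at a
        have c := mul_lt_mul_of_pos_right (show 2 * s * (Cf R : ℝ) ^ 2 < Fn by linarith) b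
        nlinarith
      mv := fun o A P P' a b l e e' τ hτ =>
        hs ▸ hm I (by omega) L ok K (llab o) A P P' (sp o) a b l e e' τ τ hτ hτ
      pos := fun A a b Λ h => (hp I L A ok (al_qr a (by omega) (min_le_left _ _)) b 0 Λ h).trans
        (av_mono fun o => mul_le_mul_of_nonneg_left (ind_mono fun k => ⟨k.1, k.2.1,
          fun a e' l hl => (min_le_left _ _).trans (k.2.2 a e' l hl)⟩) (dens_nonneg _ _))
      bad := fun A a P a0 => (hb I L A ok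
        (al_qr a (by omega) ((min_le_right _ _).trans (min_le_left _ _))) P a0 t1 le_rfl).1
      jl := fun A a => hj I L A ok
        (al_qr a (by omega) ((min_le_right _ _).trans (min_le_right _ _)))
      ji := fun o A P0 P1 P Λ a b => hi I (by omega) L ok (llab o) A P0 P1 P Λ (sp o) a b
      hR := hR, hs := hs1, hδ := hδ, hδ' := hδ', hδ0 := hδ0, hδ0' := min_le_right _ _
      hδ1 := hδ1, hcN := hcN, hε := hε, e1 := e1, e2 := e2, e3 := by linarith, e4 := e4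
      e5 := e5, e6 := f2, e7 := e7 }
  refine hfam I EE L X B hBe.ge (le_trans ?_ hδη)
  have k1 := hqr I (by omega)
  have k2 : av (fun A => ind (¬ (X.G A ∨ X.Fn < L.kap A))) ≤ δ + q + δ := by
    have k3 : (sm fun z : Ch EE × F × F => av fun A : Om I => ind (L.kap A ≤ R ∧
        1 ≤ R * L.bb A z.1 z.2.1 z.2.2 (Q * t1) (Q * t1) ∧
          F0 * L.bb A z.1 (z.2.1 + 1) z.2.2 t1 t1 ≤ 1)) ≤ δ :=
      (sm_mono fun z : Ch EE × F × F => ho I (by omega) L ok z.1 z.2.1 z.2.2).trans_eq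
        (by rw [sm_const, mul_div_cancel₀ _ nZ.ne'])
    refine le_trans ?_ (add_le_add (add_le_add hg k1) k3)
    rw [← av_sm_comm, ← av_add, ← av_add]
    refine av_mono fun A => le_trans ?_ (add_le_add (ind_or_le _ _) (ind_exists_le _))
    refine le_trans (ind_mono fun h => ?_) (ind_or_le _ _)
    by_contra n
    rw [not_or, not_or, not_not, not_not] at n
    obtain ⟨⟨a | a, b⟩, c⟩ := n
    · exact h (Or.inr a)
    · exact h (Or.inl ⟨a.1, b, fun l e e' => a.2 (l, e, e'), fun l e e' d => c ⟨(l, e, e'), a.1,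
        d.1, (mul_le_mul_of_nonneg_right f1' (ok.bb_nonneg hJ A _ l e' t1 t1)).trans d.2⟩⟩)
  have k4 : Nat.card (Om K) * X.τ ≤ δ * cN := by
    have a : 2 * s / Fn + ε ≤ 3 * s / Fn := by
      rw [← le_sub_iff_add_le', ← sub_div, le_div_iff₀ hF]
      linarith
    have b : Nat.card (Om K) * (Nat.card (Om K × (K → K → Ch EE)) * (3 * s) / δ1 ^ 2) ≤
        Fn * (δ * cN) := (div_le_iff₀ (by positivity)).1 (by linarith)
    refine le_trans (mul_le_mul_of_nonneg_left (div_le_div_of_nonneg_right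
      (mul_le_mul_of_nonneg_left a (Nat.cast_nonneg _)) (sq_nonneg δ1)) nP.le) ?_
    rw [← div_le_iff₀' hF] at b
    refine le_trans (le_of_eq ?_) b
    ring
  have k5 : (2 * δ1 + Nat.card (Om K) * (2 ^ B ^ 2 *
      av (fun A : Om I => ind (¬ QR X.u X.γ A)) + X.τ)) / cN ≤ 3 * δ := by
    rw [div_le_iff₀ hcN, mul_add]
    have a := mul_le_mul_of_nonneg_left (mul_le_mul_of_nonneg_left k1
      (by positivity : (0 : ℝ) ≤ 2 ^ B ^ 2)) nP.le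
    have b := mul_le_mul_of_nonneg_left nL (by positivity : 0 ≤ 3 * δ1)
    have := mul_pos hδ hcN
    linarith
  exact (add_le_add (add_le_add le_rfl k2) k5).trans (by show 3 * δ + _ + _ ≤ _; linarith)

theorem alf_of (hM : MRF) (hQ : QRT) (hG : PIG) (hV : MOVE) (hP : POS) (hB : BAD) (hO : ONE)
    (hL : JLOW) (hI : JINV) : ALF := by
  intro EE _ _ J Cf hJ hE K _ R0 η hη
  obtain ⟨δ, hδ, h⟩ := al_core hM hQ hV hP hB hO hL hI EE J Cf hJ hE K η hη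
  choose Fn Q0 n0 h using h
  obtain ⟨R1, hG⟩ := hG (Nat.card (Ch EE × F × F)) (R0 + 1) Fn δ hδ
  obtain ⟨Q, hQ⟩ : ∃ Q, Q = (Finset.range (R1 + 1)).sup Q0 := ⟨_, rfl⟩
  obtain ⟨T, hG⟩ := hG Q
  refine ⟨(Finset.range (R1 + 1) ×ˢ Finset.range (T + 1)).sup fun z => n0 z.1 Q z.2,
    fun I _ hn L ok => ?_⟩
  obtain ⟨R, t1, a, b, c, d, e⟩ := hG (Om I) (Ch EE × F × F) le_rfl L.kap
    (fun z A t => L.bb A z.1 z.2.1 z.2.2 t t)
    (fun z A t => ⟨ok.bb_nonneg hJ A _ _ _ t t, ok.bb_le_one hJ A _ _ _ t t⟩)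
    fun z A t t' g => ok.bb_anti hJ A _ _ _ g g
  obtain ⟨A, hA⟩ := h R Q t1 (by omega)
    (hQ ▸ Finset.le_sup (f := Q0) (Finset.mem_range.2 (by omega))) c I
    (le_trans (Finset.le_sup (f := fun z : ℕ × ℕ => n0 z.1 Q z.2) (b := (R, t1))
      (Finset.mem_product.2 ⟨Finset.mem_range.2 (by omega), Finset.mem_range.2 (by omega)⟩)) hn)
    L ok e
  exact ⟨A, (A.mono fun M Φ => ind_mono fun g k =>
    g ⟨k.1, k.2.imp_right fun k P => le_trans (by omega) (k P)⟩).trans hA⟩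

end NE
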