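import Pool.Agent.Lib.MP_ecee09_co.NE.Defs

/-! Basic API for `csm`, `cav`, `ip`, `n2`, `ee`. -/

namespace NE

open SD
open ComplexConjugate

section sums
variable {α β : Type}

lemma csm_eq [Fintype α] (f : α → ℂ) : csm f = ∑ x, f x := finsum_eq_sum_of_fintype f

lemma cav_def (f : α → ℂ) : cav f = csm f / (Nat.card α : ℂ) := rfl

lemma cav_eq [Fintype α] (f : α → ℂ) : cav f = (∑ x, f x) / (Fintype.card α : ℂ) := by
  rw [cav_def, csm_eq, Nat.card_eq_fintype_card]

lemma ccard_ne [Finite α] [Nonempty α] : (Nat.card α : ℂ) ≠ 0 := by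
  exact_mod_cast Nat.card_pos.ne'

lemma csm_eq_card_mul_cav [Finite α] [Nonempty α] (f : α → ℂ) : csm f = Nat.card α * cav f := by
  rw [cav_def]; have := ccard_ne (α := α); field_simp

lemma csm_congr {f g : α → ℂ} (h : ∀ x, f x = g x) : csm f = csm g := by rw [funext h]

lemma cav_congr {f g : α → ℂ} (h : ∀ x, f x = g x) : cav f = cav g := by rw [funext h]

lemma csm_zero : csm (fun _ : α => (0 : ℂ)) = 0 := by simp [csm]

lemma cav_zero : cav (fun _ : α => (0 : ℂ)) = 0 := by simp [cav]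

lemma csm_equiv (e : α ≃ β) (f : β → ℂ) : csm (fun x => f (e x)) = csm f :=
  finsum_comp_equiv e

lemma cav_equiv (e : α ≃ β) (f : β → ℂ) : cav (fun x => f (e x)) = cav f := by
  simp only [cav_def, csm_equiv e f, Nat.card_congr e]

lemma cav_add_right [AddGroup α] (f : α → ℂ) (a : α) : cav (fun x => f (x + a)) = cav f :=
  cav_equiv (Equiv.addRight a) f

lemma cav_add_left [AddGroup α] (f : α → ℂ) (a : α) : cav (fun x => f (a + x)) = cav f :=
  cav_equiv (Equiv.addLeft a) f

lemma csm_add_right [AddGroup α] (f : α → ℂ) (a : α) : csm (fun x => f (x + a)) = csm f :=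
  csm_equiv (Equiv.addRight a) f

lemma csm_add_left [AddGroup α] (f : α → ℂ) (a : α) : csm (fun x => f (a + x)) = csm f :=
  csm_equiv (Equiv.addLeft a) f

variable [Finite α] [Finite β]

lemma csm_add (f g : α → ℂ) : csm (fun x => f x + g x) = csm f + csm g := by
  let _ := Fintype.ofFinite α; simp only [csm_eq, Finset.sum_add_distrib]

lemma csm_sub (f g : α → ℂ) : csm (fun x => f x - g x) = csm f - csm g := by
  let _ := Fintype.ofFinite α; simp only [csm_eq, Finset.sum_sub_distrib]

lemma csm_mul_left (c : ℂ) (f : α → ℂ) : csm (fun x => c * f x) = c * csm f := by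
  let _ := Fintype.ofFinite α; simp only [csm_eq, Finset.mul_sum]

lemma csm_mul_right (c : ℂ) (f : α → ℂ) : csm (fun x => f x * c) = csm f * c := by
  let _ := Fintype.ofFinite α; simp only [csm_eq, Finset.sum_mul]

lemma csm_div (c : ℂ) (f : α → ℂ) : csm (fun x => f x / c) = csm f / c := by
  simp only [div_eq_mul_inv, csm_mul_right]

lemma csm_neg (f : α → ℂ) : csm (fun x => - f x) = - csm f := by
  let _ := Fintype.ofFinite α; simp only [csm_eq, Finset.sum_neg_distrib]

lemma csm_const (c : ℂ) : csm (fun _ : α => c) = Nat.card α * c := by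
  let _ := Fintype.ofFinite α; simp [csm_eq]

lemma csm_comm (f : α → β → ℂ) :
    csm (fun x => csm fun y => f x y) = csm fun y => csm fun x => f x y := by
  let _ := Fintype.ofFinite α; let _ := Fintype.ofFinite β; simp only [csm_eq]
  exact Finset.sum_comm

lemma csm_prod (f : α × β → ℂ) : csm f = csm fun x => csm fun y => f (x, y) := by
  let _ := Fintype.ofFinite α; let _ := Fintype.ofFinite β; simp only [csm_eq]
  exact Fintype.sum_prod_type f

lemma csm_mul_csm (f : α → ℂ) (g : β → ℂ) :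
    csm f * csm g = csm fun x => csm fun y => f x * g y := by
  simp only [csm_mul_left, csm_mul_right]

lemma csm_sum {ι : Type} (s : Finset ι) (f : ι → α → ℂ) :
    csm (fun x => ∑ i ∈ s, f i x) = ∑ i ∈ s, csm (f i) := by
  let _ := Fintype.ofFinite α; simp only [csm_eq]; exact Finset.sum_comm

lemma prod_csm {ι : Type} [Fintype ι] (f : ι → α → ℂ) :
    ∏ i, csm (f i) = csm fun x : ι → α => ∏ i, f i (x i) := by
  classical
  let _ := Fintype.ofFinite α; simp only [csm_eq]
  rw [Finset.prod_univ_sum]; simp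

lemma norm_csm_le (f : α → ℂ) : ‖csm f‖ ≤ sm fun x => ‖f x‖ := by
  let _ := Fintype.ofFinite α; simp only [csm_eq, sm_eq]; exact norm_sum_le _ _

lemma csm_re (f : α → ℂ) : (csm f).re = sm fun x => (f x).re := by
  let _ := Fintype.ofFinite α; simp only [csm_eq, sm_eq, Complex.re_sum]

lemma csm_im (f : α → ℂ) : (csm f).im = sm fun x => (f x).im := by
  let _ := Fintype.ofFinite α; simp only [csm_eq, sm_eq, Complex.im_sum]

lemma conj_csm (f : α → ℂ) : conj (csm f) = csm fun x => conj (f x) := by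
  let _ := Fintype.ofFinite α; simp only [csm_eq, map_sum]

lemma csm_ofReal (f : α → ℝ) : csm (fun x => (f x : ℂ)) = (sm f : ℝ) := by
  let _ := Fintype.ofFinite α; simp only [csm_eq, sm_eq, Complex.ofReal_sum]

lemma csm_ind_eq (a : α) (f : α → ℂ) : csm (fun x => (ind (x = a) : ℂ) * f x) = f a := by
  classical
  let _ := Fintype.ofFinite α
  rw [csm_eq, Finset.sum_eq_single a (fun b _ h => by simp [ind_neg h]) (by simp)]
  simp [ind_pos]

lemma csm_ind_eq' (a : α) (f : α → ℂ) : csm (fun x => (ind (a = x) : ℂ) * f x) = f a := by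
  rw [← csm_ind_eq a f]; exact csm_congr fun x => by rw [ind_congr eq_comm]

lemma csm_subtype (p : α → Prop) (f : α → ℂ) :
    csm (fun x : {x // p x} => f x) = csm fun x => (ind (p x) : ℂ) * f x := by
  classical
  let _ := Fintype.ofFinite α
  rw [csm_eq, csm_eq, ← Finset.sum_subtype (Finset.univ.filter p) (by simp) f, Finset.sum_filter]
  exact Finset.sum_congr rfl fun x _ => by by_cases h : p x <;> simp [ind, h]

lemma csm_fiber (g : α → β) (f : α → ℂ) :
    csm f = csm fun y => csm fun x => (ind (g x = y) : ℂ) * f x := by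
  rw [csm_comm]
  exact csm_congr fun x => (csm_ind_eq' (g x) fun _ => f x).symm

lemma cav_add (f g : α → ℂ) : cav (fun x => f x + g x) = cav f + cav g := by
  simp only [cav_def, csm_add, add_div]

lemma cav_sub (f g : α → ℂ) : cav (fun x => f x - g x) = cav f - cav g := by
  simp only [cav_def, csm_sub, sub_div]

lemma cav_neg (f : α → ℂ) : cav (fun x => - f x) = - cav f := by
  simp only [cav_def, csm_neg, neg_div]

lemma cav_mul_left (c : ℂ) (f : α → ℂ) : cav (fun x => c * f x) = c * cav f := by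
  simp only [cav_def, csm_mul_left, mul_div_assoc]

lemma cav_mul_right (c : ℂ) (f : α → ℂ) : cav (fun x => f x * c) = cav f * c := by
  simp only [cav_def, csm_mul_right]; ring

lemma cav_div (c : ℂ) (f : α → ℂ) : cav (fun x => f x / c) = cav f / c := by
  simp only [div_eq_mul_inv, cav_mul_right]

lemma cav_const [Nonempty α] (c : ℂ) : cav (fun _ : α => c) = c := by
  rw [cav_def, csm_const]; have := ccard_ne (α := α); field_simp

lemma cav_csm_comm (f : α → β → ℂ) :
    cav (fun x => csm fun y => f x y) = csm fun y => cav fun x => f x y := by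
  simp only [cav_def, csm_div]; rw [csm_comm]

lemma cav_comm (f : α → β → ℂ) :
    cav (fun x => cav fun y => f x y) = cav fun y => cav fun x => f x y := by
  simp only [cav_def, csm_div]; rw [csm_comm]; ring

lemma cav_prod (f : α × β → ℂ) : cav f = cav fun x => cav fun y => f (x, y) := by
  simp only [cav_def, csm_div]; rw [csm_prod, Nat.card_prod]; push_cast; ring

lemma cav_mul_cav (f : α → ℂ) (g : β → ℂ) :
    cav f * cav g = cav fun x => cav fun y => f x * g y := by
  simp only [cav_mul_left, cav_mul_right]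

lemma cav_sum {ι : Type} (s : Finset ι) (f : ι → α → ℂ) :
    cav (fun x => ∑ i ∈ s, f i x) = ∑ i ∈ s, cav (f i) := by
  simp only [cav_def, csm_sum, Finset.sum_div]

lemma prod_cav {ι : Type} [Fintype ι] (f : ι → α → ℂ) :
    ∏ i, cav (f i) = cav fun x : ι → α => ∏ i, f i (x i) := by
  simp only [cav_def, Finset.prod_div_distrib, prod_csm, Finset.prod_const, Finset.card_univ]
  rw [Nat.card_fun, Nat.card_eq_fintype_card (α := ι)]; push_cast; rfl

lemma norm_cav_le (f : α → ℂ) : ‖cav f‖ ≤ av fun x => ‖f x‖ := by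
  rw [cav_def, av_def, norm_div, Complex.norm_natCast]
  exact div_le_div_of_nonneg_right (norm_csm_le f) (Nat.cast_nonneg _)

lemma norm_cav_le_const {f : α → ℂ} {c : ℝ} (hc : 0 ≤ c) (h : ∀ x, ‖f x‖ ≤ c) : ‖cav f‖ ≤ c := by
  cases isEmpty_or_nonempty α with
  | inl h' => simpa [cav] using hc
  | inr h' => exact (norm_cav_le f).trans (av_le_const h)

lemma cav_re (f : α → ℂ) : (cav f).re = av fun x => (f x).re := by
  rw [cav_def, av_def, Complex.div_natCast_re, csm_re]

lemma cav_im (f : α → ℂ) : (cav f).im = av fun x => (f x).im := by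
  rw [cav_def, av_def, Complex.div_natCast_im, csm_im]

lemma conj_cav (f : α → ℂ) : conj (cav f) = cav fun x => conj (f x) := by
  rw [cav_def, cav_def, map_div₀, conj_csm, map_natCast]

lemma cav_ofReal (f : α → ℝ) : cav (fun x => (f x : ℂ)) = (av f : ℝ) := by
  rw [cav_def, av_def, csm_ofReal]; push_cast; rfl

lemma cav_ind_eq (a : α) (f : α → ℂ) :
    cav (fun x => (ind (x = a) : ℂ) * f x) = f a / Nat.card α := by
  rw [cav_def, csm_ind_eq]

lemma norm_cav_sub_le {f g : α → ℂ} {c : ℝ} (hc : 0 ≤ c) (h : ∀ x, ‖f x - g x‖ ≤ c) :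
    ‖cav f - cav g‖ ≤ c := by
  rw [← cav_sub]; exact norm_cav_le_const hc h

/-- Jensen -/
lemma norm_cav_pow_le [Nonempty α] (f : α → ℂ) (p : ℕ) :
    ‖cav f‖ ^ p ≤ av fun x => ‖f x‖ ^ p := by
  refine (pow_le_pow_left₀ (norm_nonneg _) ((norm_cav_le f).trans (le_abs_self _)) p).trans ?_
  simpa only [abs_norm] using abs_av_pow_le (fun x => ‖f x‖) p

lemma norm_cav_sq_le (f : α → ℂ) : ‖cav f‖ ^ 2 ≤ n2 f :=
  (pow_le_pow_left₀ (norm_nonneg _) (norm_cav_le f) 2).trans (av_sq_le _)

lemma norm_csm_cs (f g : α → ℂ) :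
    ‖csm fun x => f x * g x‖ ^ 2 ≤ (sm fun x => ‖f x‖ ^ 2) * sm fun x => ‖g x‖ ^ 2 := by
  refine (pow_le_pow_left₀ (norm_nonneg _) (norm_csm_le _) 2).trans ?_
  simpa only [norm_mul] using sm_cs (fun x => ‖f x‖) fun x => ‖g x‖

lemma norm_cav_cs (f g : α → ℂ) : ‖cav fun x => f x * g x‖ ^ 2 ≤ n2 f * n2 g := by
  refine (pow_le_pow_left₀ (norm_nonneg _) (norm_cav_le _) 2).trans ?_
  simpa only [norm_mul, n2] using av_cs (fun x => ‖f x‖) fun x => ‖g x‖

/-- averaging is preserved by an onto additive map -/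
lemma cav_surj {X Y : Type} [AddCommGroup X] [Finite X] [AddCommGroup Y] [Finite Y] (L : X → Y)
    (h : ∀ a b, L (a + b) = L a + L b) (hs : Function.Surjective L) (f : Y → ℂ) :
    cav (fun x => f (L x)) = cav f :=
  Complex.ext (by rw [cav_re, cav_re, av_surj L h hs fun y => (f y).re])
    (by rw [cav_im, cav_im, av_surj L h hs fun y => (f y).im])

end sums

section inner
variable {α : Type} [Finite α]

lemma mul_conj'' (z : ℂ) : z * conj z = ((‖z‖ ^ 2 : ℝ) : ℂ) := by
  rw [Complex.mul_conj, Complex.normSq_eq_norm_sq]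

lemma n2_nonneg (f : α → ℂ) : 0 ≤ n2 f := av_nonneg fun _ => by positivity

lemma ip_self (f : α → ℂ) : ip f f = (n2 f : ℝ) := by
  rw [ip, n2, ← cav_ofReal]; exact cav_congr fun x => mul_conj'' _

lemma ip_self_re (f : α → ℂ) : (ip f f).re = n2 f := by rw [ip_self, Complex.ofReal_re]

lemma conj_ip (f g : α → ℂ) : conj (ip f g) = ip g f := by
  rw [ip, conj_cav]; exact cav_congr fun x => by rw [map_mul, Complex.conj_conj, mul_comm]

lemma ip_re_comm (f g : α → ℂ) : (ip f g).re = (ip g f).re := by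
  rw [← conj_ip, Complex.conj_re]

lemma ip_add_left (f g h : α → ℂ) : ip (fun x => f x + g x) h = ip f h + ip g h := by
  simp only [ip, add_mul, cav_add]

lemma ip_add_right (f g h : α → ℂ) : ip f (fun x => g x + h x) = ip f g + ip f h := by
  simp only [ip, map_add, mul_add, cav_add]

lemma ip_sub_left (f g h : α → ℂ) : ip (fun x => f x - g x) h = ip f h - ip g h := by
  simp only [ip, sub_mul, cav_sub]

lemma ip_sub_right (f g h : α → ℂ) : ip f (fun x => g x - h x) = ip f g - ip f h := by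
  simp only [ip, map_sub, mul_sub, cav_sub]

lemma ip_mul_left (c : ℂ) (f g : α → ℂ) : ip (fun x => c * f x) g = c * ip f g := by
  simp only [ip, mul_assoc, cav_mul_left]

lemma ip_mul_right (c : ℂ) (f g : α → ℂ) : ip f (fun x => c * g x) = conj c * ip f g := by
  simp only [ip, map_mul, mul_left_comm _ (conj c), cav_mul_left]

lemma ip_csm_left {β : Type} [Finite β] (f : β → α → ℂ) (g : α → ℂ) :
    ip (fun x => csm fun y => f y x) g = csm fun y => ip (f y) g := by
  simp only [ip, ← csm_mul_right]; rw [cav_csm_comm]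

lemma ip_csm_right {β : Type} [Finite β] (f : α → ℂ) (g : β → α → ℂ) :
    ip f (fun x => csm fun y => g y x) = csm fun y => ip f (g y) := by
  simp only [ip, conj_csm, ← csm_mul_left]; rw [cav_csm_comm]

omit [Finite α] in
lemma ip_zero_left (g : α → ℂ) : ip (fun _ => 0) g = 0 := by simp [ip, cav_zero]

omit [Finite α] in
lemma ip_zero_right (f : α → ℂ) : ip f (fun _ => 0) = 0 := by simp [ip, cav_zero]

omit [Finite α] in
lemma n2_zero : n2 (fun _ : α => (0 : ℂ)) = 0 := by simp [n2, av_zero]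

lemma norm_ip_sq_le (f g : α → ℂ) : ‖ip f g‖ ^ 2 ≤ n2 f * n2 g := by
  simpa only [n2, ip, Complex.norm_conj] using norm_cav_cs f fun x => conj (g x)

lemma norm_ip_le (f g : α → ℂ) : ‖ip f g‖ ≤ Real.sqrt (n2 f) * Real.sqrt (n2 g) := by
  rw [← Real.sqrt_mul (n2_nonneg f)]
  exact Real.le_sqrt_of_sq_le (norm_ip_sq_le f g)

lemma n2_sub (f g : α → ℂ) : n2 (fun x => f x - g x) = n2 f - 2 * (ip f g).re + n2 g := by
  rw [← ip_self_re, ip_sub_left, ip_sub_right, ip_sub_right]
  simp only [Complex.sub_re, ip_self_re, ip_re_comm g f]; ring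

lemma n2_add (f g : α → ℂ) : n2 (fun x => f x + g x) = n2 f + 2 * (ip f g).re + n2 g := by
  rw [← ip_self_re, ip_add_left, ip_add_right, ip_add_right]
  simp only [Complex.add_re, ip_self_re, ip_re_comm g f]; ring

lemma two_re_ip_le (f g : α → ℂ) : 2 * (ip f g).re ≤ n2 f + n2 g := by
  have := n2_nonneg fun x => f x - g x
  rw [n2_sub] at this; linarith

lemma n2_add_le (f g : α → ℂ) : n2 (fun x => f x + g x) ≤ 2 * n2 f + 2 * n2 g := by
  have := two_re_ip_le f g
  rw [n2_add]; linarith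

lemma n2_mul_left (c : ℂ) (f : α → ℂ) : n2 (fun x => c * f x) = ‖c‖ ^ 2 * n2 f := by
  simp only [n2, norm_mul, mul_pow, av_mul_left]

lemma n2_mono {f g : α → ℂ} (h : ∀ x, ‖f x‖ ≤ ‖g x‖) : n2 f ≤ n2 g :=
  av_mono fun x => pow_le_pow_left₀ (norm_nonneg _) (h x) 2

lemma n2_le_sq {f : α → ℂ} {c : ℝ} (h : ∀ x, ‖f x‖ ≤ c) : n2 f ≤ c ^ 2 := by
  cases isEmpty_or_nonempty α with
  | inl h' => simpa [n2, av] using sq_nonneg c
  | inr h' => exact av_le_const fun x => pow_le_pow_left₀ (norm_nonneg _) (h x) 2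

lemma n2_le_one {f : α → ℂ} (h : ∀ x, ‖f x‖ ≤ 1) : n2 f ≤ 1 := by simpa using n2_le_sq h

lemma eq_zero_of_n2 {f : α → ℂ} (h : n2 f = 0) (x : α) : f x = 0 := by
  have : Nonempty α := ⟨x⟩
  have h1 := single_le_sm (f := fun x => ‖f x‖ ^ 2) (fun _ => by positivity) x
  rw [sm_eq_card_mul_av, show (av fun x => ‖f x‖ ^ 2) = 0 from h, mul_zero] at h1
  exact norm_eq_zero.1 (pow_eq_zero_iff two_ne_zero |>.1 (le_antisymm h1 (by positivity)))

end inner

section circle

@[simp] lemma ee_zero : ee 0 = 1 := by simp [ee]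

lemma ee_add (x y : TT) : ee (x + y) = ee x * ee y := by simp [ee, AddCircle.toCircle_add]

@[simp] lemma norm_ee (x : TT) : ‖ee x‖ = 1 := Circle.norm_coe _

lemma ee_ne_zero (x : TT) : ee x ≠ 0 := Circle.coe_ne_zero _

lemma ee_mul_conj (x : TT) : ee x * conj (ee x) = 1 := by rw [mul_conj'', norm_ee]; simp

lemma conj_ee (x : TT) : conj (ee x) = ee (-x) :=
  mul_left_cancel₀ (ee_ne_zero x) (by rw [ee_mul_conj, ← ee_add, add_neg_cancel, ee_zero])

lemma ee_sub (x y : TT) : ee (x - y) = ee x * conj (ee y) := by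
  rw [conj_ee, ← ee_add, sub_eq_add_neg]

lemma ee_inj : Function.Injective ee := fun _ _ h =>
  AddCircle.injective_toCircle one_ne_zero (Circle.ext h)

lemma ee_eq_one {x : TT} : ee x = 1 ↔ x = 0 := by rw [← ee_zero, ee_inj.eq_iff]

lemma ee_sum {ι : Type} (s : Finset ι) (f : ι → TT) : ee (∑ i ∈ s, f i) = ∏ i ∈ s, ee (f i) := by
  classical
  induction s using Finset.induction_on with
  | empty => simp
  | insert a s ha ih => rw [Finset.sum_insert ha, Finset.prod_insert ha, ee_add, ih]

lemma ee_finsum {ι : Type} [Fintype ι] (f : ι → TT) : ee (∑ᶠ i, f i) = ∏ i, ee (f i) := by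
  rw [finsum_eq_sum_of_fintype, ee_sum]

lemma ee_nsmul (n : ℕ) (x : TT) : ee (n • x) = ee x ^ n := by
  induction n with
  | zero => simp
  | succ n ih => rw [succ_nsmul, ee_add, ih, pow_succ]

variable {E : Type} [AddCommGroup E] [Finite E]

/-- orthogonality for an additive map to the circle -/
lemma cav_ee_add (f : E → TT) (h : ∀ a b, f (a + b) = f a + f b) :
    cav (fun x => ee (f x)) = (ind (∀ x, f x = 0) : ℝ) := by
  by_cases h0 : ∀ x, f x = 0
  · rw [ind_pos h0]; simp [h0, cav_const]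
  · rw [ind_neg h0]; push Not at h0; obtain ⟨a, ha⟩ := h0
    have h1 := cav_add_right (fun x => ee (f x)) a
    simp only [h, ee_add, cav_mul_right] at h1
    have h2 : cav (fun x => ee (f x)) * (ee (f a) - 1) = 0 := by rw [mul_sub, h1]; ring
    simpa using (mul_eq_zero.1 h2).resolve_right (sub_ne_zero.2 (mt ee_eq_one.1 ha))

lemma cav_ee_hom (φ : E →+ TT) : cav (fun x => ee (φ x)) = (ind (φ = 0) : ℝ) := by
  rw [cav_ee_add φ φ.map_add, ind_congr (p := ∀ x, φ x = 0) (q := φ = 0)
    ⟨fun h => AddMonoidHom.ext h, fun h x => by simp [h]⟩]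

end circle

end NE
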