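import Pool.Agent.Lib.MP_ecee09_co.NE.Defs

/-! Labels, overwriting, cells, coordinate cells, exact tilings, independence. -/

namespace NE

open SD (F sm av ind cnt Tame)

section labels
variable {I K L M : Type}

lemma lab2_mk (Φ : Lab I K) (i j : I) :
    lab2 Φ s(i, j) = (Φ i).bind fun k => (Φ j).map fun l => s(k, l) := rfl

lemma lab2_some {Φ : Lab I K} {i j : I} {k l : K} (hi : Φ i = some k) (hj : Φ j = some l) :
    lab2 Φ s(i, j) = some s(k, l) := by rw [lab2_mk, hi, hj]; rfl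

lemma lab2_none_left {Φ : Lab I K} {i : I} (hi : Φ i = none) (j : I) :
    lab2 Φ s(i, j) = none := by rw [lab2_mk, hi]; rfl

lemma lab2_none_right {Φ : Lab I K} (i : I) {j : I} (hj : Φ j = none) :
    lab2 Φ s(i, j) = none := by rw [Sym2.eq_swap]; exact lab2_none_left hj i

lemma lab2_eq_none_iff (Φ : Lab I K) (i j : I) :
    lab2 Φ s(i, j) = none ↔ Φ i = none ∨ Φ j = none := by
  rw [lab2_mk]; cases Φ i <;> cases Φ j <;> simp

lemma lab2_eq_some_iff (Φ : Lab I K) (i j : I) (d : Sym2 K) :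
    lab2 Φ s(i, j) = some d ↔ ∃ k l, Φ i = some k ∧ Φ j = some l ∧ s(k, l) = d := by
  rw [lab2_mk]; cases Φ i <;> cases Φ j <;> simp

lemma lab2_lcomp (Φ : Lab I K) (Ψ : Lab K L) (c : Sym2 I) :
    lab2 (lcomp Φ Ψ) c = (lab2 Φ c).bind (lab2 Ψ) := by
  induction c using Sym2.ind with
  | _ i j =>
    rw [lab2_mk, lab2_mk]
    unfold lcomp
    cases Φ i with
    | none => rfl
    | some k =>
      cases Φ j with
      | none => cases h : Ψ k <;> simp [h]
      | some l => simp [lab2_mk]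

lemma lab2_comp (Φ : Lab I K) (e : M → I) (c : Sym2 M) :
    lab2 (Φ ∘ e) c = lab2 Φ (Sym2.map e c) := by
  induction c using Sym2.ind with
  | _ i j => rfl

lemma ow_of_none {A : Om I} {Φ : Lab I K} {P : Om K} {c : Sym2 I} (h : lab2 Φ c = none) :
    ow A Φ P c = A c := by unfold ow; rw [h]; rfl

lemma ow_of_some {A : Om I} {Φ : Lab I K} {P : Om K} {c : Sym2 I} {d : Sym2 K}
    (h : lab2 Φ c = some d) : ow A Φ P c = P d := by unfold ow; rw [h]; rfl

lemma ow_some (A : Om I) {Φ : Lab I K} (P : Om K) {i j : I} {k l : K} (hi : Φ i = some k)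
    (hj : Φ j = some l) : ow A Φ P s(i, j) = P s(k, l) := ow_of_some (lab2_some hi hj)

lemma ow_none_left (A : Om I) {Φ : Lab I K} (P : Om K) {i : I} (hi : Φ i = none) (j : I) :
    ow A Φ P s(i, j) = A s(i, j) := ow_of_none (lab2_none_left hi j)

lemma ow_none_right (A : Om I) {Φ : Lab I K} (P : Om K) (i : I) {j : I} (hj : Φ j = none) :
    ow A Φ P s(i, j) = A s(i, j) := ow_of_none (lab2_none_right i hj)

lemma ow_none (A : Om I) (P : Om K) : ow A (fun _ => none) P = A := by
  funext c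
  induction c using Sym2.ind with
  | _ i j => exact ow_none_left A P rfl j

lemma ow_id (A P : Om I) : ow A some P = P := by
  funext c
  induction c using Sym2.ind with
  | _ i j => exact ow_some A P rfl rfl

lemma ow_ow (A : Om I) (Φ : Lab I K) (P Q : Om K) : ow (ow A Φ P) Φ Q = ow A Φ Q := by
  funext c
  unfold ow
  cases lab2 Φ c <;> rfl

lemma ow_lcomp (A : Om I) (Φ : Lab I K) (Ψ : Lab K L) (P : Om K) (Q : Om L) :
    ow (ow A Φ P) (lcomp Φ Ψ) Q = ow A Φ (ow P Ψ Q) := by
  funext c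
  unfold ow
  rw [lab2_lcomp]
  cases lab2 Φ c <;> rfl

lemma ow_add (A A' : Om I) (Φ : Lab I K) (P P' : Om K) :
    ow (A + A') Φ (P + P') = ow A Φ P + ow A' Φ P' := by
  funext c
  simp only [ow, Pi.add_apply]
  cases lab2 Φ c <;> rfl

lemma ow_zero (Φ : Lab I K) : ow (0 : Om I) Φ (0 : Om K) = 0 := by
  funext c
  simp only [ow]
  cases lab2 Φ c <;> rfl

lemma ow_split (A : Om I) (Φ : Lab I K) (P : Om K) : ow A Φ P = ow A Φ 0 + ow 0 Φ P := by
  rw [← ow_add, add_zero, zero_add]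

/-- only the pairs outside the blocks of the base point matter -/
lemma ow_congr_base {A A' : Om I} (Φ : Lab I K) (P : Om K)
    (h : ∀ c, lab2 Φ c = none → A c = A' c) : ow A Φ P = ow A' Φ P := by
  funext c
  cases hc : lab2 Φ c with
  | none => rw [ow_of_none hc, ow_of_none hc, h c hc]
  | some d => rw [ow_of_some hc, ow_of_some hc]

/-- overwritings on pair sets that do not meet commute -/
lemma ow_comm (A : Om I) {Φ : Lab I K} {Ψ : Lab I L} (P : Om K) (Q : Om L)
    (h : ∀ c, lab2 Φ c = none ∨ lab2 Ψ c = none) :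
    ow (ow A Φ P) Ψ Q = ow (ow A Ψ Q) Φ P := by
  funext c
  unfold ow
  rcases h c with h | h <;> rw [h]
  · rfl
  · rfl

lemma lcomp_assoc (Φ : Lab I K) (Ψ : Lab K L) (Θ : Lab L M) :
    lcomp (lcomp Φ Ψ) Θ = lcomp Φ (lcomp Ψ Θ) := by
  funext i; unfold lcomp; cases Φ i <;> rfl

lemma lcomp_some (Φ : Lab I K) : lcomp Φ some = Φ := by
  funext i; unfold lcomp; cases Φ i <;> rfl

lemma some_lcomp (Φ : Lab I K) : lcomp some Φ = Φ := rfl

lemma lcomp_none (Φ : Lab I K) : lcomp Φ (fun _ => (none : Option L)) = fun _ => none := by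
  funext i; unfold lcomp; cases Φ i <;> rfl

lemma none_lcomp (Ψ : Lab K L) : lcomp (fun _ : I => none) Ψ = fun _ => none := rfl

lemma lcomp_eq_some {Φ : Lab I K} {Ψ : Lab K L} {i : I} {l : L} :
    lcomp Φ Ψ i = some l ↔ ∃ k, Φ i = some k ∧ Ψ k = some l := by
  unfold lcomp; cases Φ i <;> simp

lemma lcomp_of_some {Φ : Lab I K} (Ψ : Lab K L) {i : I} {k : K} (h : Φ i = some k) :
    lcomp Φ Ψ i = Ψ k := by unfold lcomp; rw [h]; rfl

lemma lcomp_of_none {Φ : Lab I K} (Ψ : Lab K L) {i : I} (h : Φ i = none) :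
    lcomp Φ Ψ i = none := by unfold lcomp; rw [h]; rfl

lemma Good.lcomp {Φ : Lab I K} {Ψ : Lab K L} (h : Good Φ) (h' : Good Ψ) : Good (lcomp Φ Ψ) := by
  intro l
  obtain ⟨k, hk⟩ := h' l
  obtain ⟨i, hi⟩ := h k
  exact ⟨i, lcomp_eq_some.2 ⟨k, hi, hk⟩⟩

lemma Good.of_lcomp {Φ : Lab I K} {Ψ : Lab K L} (h : Good (NE.lcomp Φ Ψ)) : Good Ψ := by
  intro l
  obtain ⟨i, hi⟩ := h l
  obtain ⟨k, -, hk⟩ := lcomp_eq_some.1 hi
  exact ⟨k, hk⟩

lemma good_some : Good (some : Lab I I) := fun k => ⟨k, rfl⟩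

lemma not_good_none [Nonempty K] : ¬ Good (fun _ : I => (none : Option K)) := fun h => by
  obtain ⟨i, hi⟩ := h (Classical.arbitrary K)
  cases hi

lemma Good.lab2_surj {Φ : Lab I K} (h : Good Φ) (d : Sym2 K) : ∃ c, lab2 Φ c = some d := by
  induction d using Sym2.ind with
  | _ k l =>
    obtain ⟨i, hi⟩ := h k
    obtain ⟨j, hj⟩ := h l
    exact ⟨_, lab2_some hi hj⟩

lemma Good.ow_inj {Φ : Lab I K} (h : Good Φ) (A : Om I) : Function.Injective (ow A Φ) := by
  intro P Q e
  funext d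
  obtain ⟨c, hc⟩ := h.lab2_surj d
  rw [← ow_of_some (A := A) (P := P) hc, e, ow_of_some hc]

lemma Good.ow_inj' {Φ : Lab I K} (h : Good Φ) {A A' : Om I} {P P' : Om K}
    (e : ow A Φ P = ow A' Φ P') : P = P' := by
  apply h.ow_inj A
  rw [← ow_ow A Φ P P', e, ow_ow]

lemma pb_mk (j : K → I) (P : Om I) (a b : K) : pb j P s(a, b) = P s(j a, j b) := rfl

lemma pb_pb (j : K → I) (j' : L → K) (P : Om I) : pb j' (pb j P) = pb (j ∘ j') P := by
  funext c; simp only [pb, Sym2.map_map]

lemma pb_id (P : Om I) : pb id P = P := by funext c; rw [pb, Sym2.map_id]; rfl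

lemma pb_add (j : K → I) (P Q : Om I) : pb j (P + Q) = pb j P + pb j Q := rfl

lemma pb_zero (j : K → I) : pb j (0 : Om I) = 0 := rfl

lemma pb_ow (e : M → I) (A : Om I) (Φ : Lab I K) (P : Om K) :
    pb e (ow A Φ P) = ow (pb e A) (Φ ∘ e) P := by
  funext c; simp only [pb, ow, lab2_comp]

/-- a pulled back pattern: rename the blocks -/
lemma ow_pb (A : Om I) (Φ : Lab I K) (e : K → L) (P : Om L) :
    ow A Φ (pb e P) = ow A (fun i => (Φ i).map e) P := by
  funext c
  induction c using Sym2.ind with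
  | _ i j =>
    unfold ow
    rw [lab2_mk, lab2_mk]
    cases Φ i <;> cases Φ j <;> rfl

/-- a section of the label recovers the pattern -/
lemma pb_ow_sec {Φ : Lab I K} {r : K → I} (hr : ∀ k, Φ (r k) = some k) (A : Om I) (P : Om K) :
    pb r (ow A Φ P) = P := by
  funext c
  induction c using Sym2.ind with
  | _ k l => exact ow_some A P (hr k) (hr l)

lemma good_comp_equiv (Φ : Lab I K) (e : M ≃ I) : Good (Φ ∘ e) ↔ Good Φ :=
  ⟨fun h k => (h k).elim fun i hi => ⟨e i, hi⟩,
    fun h k => (h k).elim fun i hi => ⟨e.symm i, by simpa using hi⟩⟩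

/-- transport of patterns along a bijection of indices -/
def pbE (e : K ≃ I) : Om I ≃ Om K where
  toFun := pb e
  invFun := pb e.symm
  left_inv P := by rw [pb_pb, e.self_comp_symm, pb_id]
  right_inv P := by rw [pb_pb, e.symm_comp_self, pb_id]

end labels

section crd
variable {I K L : Type} {ι : K → I}

lemma crd_eq_some (h : Function.Injective ι) {i : I} {k : K} : crd ι i = some k ↔ ι k = i :=
  h.isPartialInv k i

lemma crd_apply (h : Function.Injective ι) (k : K) : crd ι (ι k) = some k :=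
  (crd_eq_some h).2 rfl

lemma crd_eq_none (h : Function.Injective ι) {i : I} : crd ι i = none ↔ i ∉ Set.range ι := by
  rw [Option.eq_none_iff_forall_ne_some]
  exact ⟨fun H ⟨k, hk⟩ => H k ((crd_eq_some h).2 hk), fun H k hk => H ⟨k, (crd_eq_some h).1 hk⟩⟩

lemma crd_ne_none (h : Function.Injective ι) {i : I} : crd ι i ≠ none ↔ i ∈ Set.range ι := by
  rw [Ne, crd_eq_none h, not_not]

lemma good_crd (h : Function.Injective ι) : Good (crd ι) := fun k => ⟨ι k, crd_apply h k⟩

lemma crd_id : crd (id : I → I) = some := by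
  funext i; exact crd_apply Function.injective_id i

lemma crd_equiv (e : K ≃ I) : crd e = fun i => some (e.symm i) := by
  funext i; exact (crd_eq_some e.injective).2 (e.apply_symm_apply i)

lemma lcomp_crd (h : Function.Injective ι) {κ : L → K} (h' : Function.Injective κ) :
    lcomp (crd ι) (crd κ) = crd (ι ∘ κ) := by
  funext i
  refine Option.ext fun l => ?_
  rw [lcomp_eq_some, crd_eq_some (h.comp h')]
  constructor
  · rintro ⟨k, hk, hl⟩
    rw [crd_eq_some h] at hk
    rw [crd_eq_some h'] at hl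
    rw [Function.comp_apply, hl, hk]
  · rintro rfl
    exact ⟨κ l, crd_apply h _, crd_apply h' _⟩

lemma lcomp_crd_apply (h : Function.Injective ι) (Ψ : Lab K L) (k : K) :
    lcomp (crd ι) Ψ (ι k) = Ψ k := lcomp_of_some Ψ (crd_apply h k)

lemma crd_comp_comp (h : Function.Injective ι) {κ : L → K} (h' : Function.Injective κ) :
    crd (ι ∘ κ) ∘ ι = crd κ := by
  funext k
  rw [← lcomp_crd h h']
  exact lcomp_crd_apply h _ k

lemma lab2_crd_map (h : Function.Injective ι) (d : Sym2 K) :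
    lab2 (crd ι) (Sym2.map ι d) = some d := by
  induction d using Sym2.ind with
  | _ k l => exact lab2_some (crd_apply h k) (crd_apply h l)

lemma lab2_crd_eq_some (h : Function.Injective ι) {c : Sym2 I} {d : Sym2 K} :
    lab2 (crd ι) c = some d ↔ Sym2.map ι d = c := by
  refine ⟨fun e => ?_, fun e => e ▸ lab2_crd_map h d⟩
  induction c using Sym2.ind with
  | _ i j =>
    obtain ⟨k, l, hk, hl, rfl⟩ := (lab2_eq_some_iff _ _ _ _).1 e
    rw [Sym2.map_mk, (crd_eq_some h).1 hk, (crd_eq_some h).1 hl]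

lemma ow_crd_map (h : Function.Injective ι) (A : Om I) (P : Om K) (d : Sym2 K) :
    ow A (crd ι) P (Sym2.map ι d) = P d := ow_of_some (lab2_crd_map h d)

lemma ow_crd_mk (h : Function.Injective ι) (A : Om I) (P : Om K) (k l : K) :
    ow A (crd ι) P s(ι k, ι l) = P s(k, l) := ow_some A P (crd_apply h k) (crd_apply h l)

lemma pb_ow_crd (h : Function.Injective ι) (A : Om I) (P : Om K) :
    pb ι (ow A (crd ι) P) = P := pb_ow_sec (crd_apply h) A P

lemma ow_crd_pb (h : Function.Injective ι) (A : Om I) : ow A (crd ι) (pb ι A) = A := by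
  funext c
  cases hc : lab2 (crd ι) c with
  | none => exact ow_of_none hc
  | some d => rw [ow_of_some hc, ← (lab2_crd_eq_some h).1 hc]; rfl

lemma ow_crd_equiv (e : K ≃ I) (A : Om I) (P : Om K) : ow A (crd e) P = pb e.symm P := by
  funext c
  induction c using Sym2.ind with
  | _ i j => rw [crd_equiv]; exact ow_some A P rfl rfl

/-- overwrite inside a coordinate cell -/
lemma ow_lcomp_crd (h : Function.Injective ι) (A : Om I) (Ψ : Lab K L) (Q : Om L) :
    ow A (lcomp (crd ι) Ψ) Q = ow A (crd ι) (ow (pb ι A) Ψ Q) := by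
  rw [← ow_lcomp, ow_crd_pb h]

lemma pb_ow_lcomp_crd (h : Function.Injective ι) (A : Om I) (Ψ : Lab K L) (Q : Om L) :
    pb ι (ow A (lcomp (crd ι) Ψ) Q) = ow (pb ι A) Ψ Q := by
  rw [ow_lcomp_crd h, pb_ow_crd h]

end crd

section cells
variable {I K L M E : Type} [AddCommGroup E]

lemma spr_some (t : K → E) {Φ : Lab I K} {i : I} {k : K} (h : Φ i = some k) :
    spr t Φ i = t k := by unfold spr; rw [h]; rfl

lemma spr_of_none (t : K → E) {Φ : Lab I K} {i : I} (h : Φ i = none) : spr t Φ i = 0 := by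
  unfold spr; rw [h]; rfl

lemma spr_none (t : K → E) : spr t (fun _ : I => none) = 0 := rfl

lemma spr_id (t : I → E) : spr t some = t := rfl

lemma spr_add (t t' : K → E) (Φ : Lab I K) : spr (t + t') Φ = spr t Φ + spr t' Φ := by
  funext i; simp only [spr, Pi.add_apply]; cases Φ i <;> simp

lemma spr_zero (Φ : Lab I K) : spr (0 : K → E) Φ = 0 := by
  funext i; simp only [spr]; cases Φ i <;> rfl

lemma spr_neg (t : K → E) (Φ : Lab I K) : spr (-t) Φ = -spr t Φ := by
  funext i; simp only [spr, Pi.neg_apply]; cases Φ i <;> simp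

lemma spr_sub (t t' : K → E) (Φ : Lab I K) : spr (t - t') Φ = spr t Φ - spr t' Φ := by
  rw [sub_eq_add_neg, spr_add, spr_neg, sub_eq_add_neg]

lemma spr_lcomp (t : L → E) (Φ : Lab I K) (Ψ : Lab K L) :
    spr t (lcomp Φ Ψ) = spr (spr t Ψ) Φ := by
  funext i; unfold spr lcomp; cases Φ i <;> rfl

lemma spr_comp (t : K → E) (Φ : Lab I K) (e : M → I) : spr t (Φ ∘ e) = spr t Φ ∘ e := rfl

lemma spr_crd {ι : K → I} (h : Function.Injective ι) (t : K → E) (k : K) :
    spr t (crd ι) (ι k) = t k := spr_some t (crd_apply h k)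

lemma Good.spr_inj {Φ : Lab I K} (h : Good Φ) :
    Function.Injective fun t : K → E => spr t Φ := by
  intro t t' e
  funext k
  obtain ⟨i, hi⟩ := h k
  rw [← spr_some t hi, ← spr_some t' hi]
  exact congrFun e i

lemma cell_none (x : OmE E I) (y : OmE E K) : cell x (fun _ => none) y = x := by
  unfold cell; rw [spr_none, ow_none, add_zero]

lemma cell_cell (x : OmE E I) (Φ : Lab I K) (y z : OmE E K) :
    cell (cell x Φ y) Φ z = cell x Φ (y.1 + z.1, z.2) := by
  simp only [cell, spr_add, ow_ow, add_assoc]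

lemma cell_lcomp (x : OmE E I) (Φ : Lab I K) (Ψ : Lab K L) (y : OmE E K) (z : OmE E L) :
    cell (cell x Φ y) (lcomp Φ Ψ) z = cell x Φ (cell y Ψ z) := by
  simp only [cell, spr_add, ow_lcomp, spr_lcomp, add_assoc]

lemma Good.cell_inj {Φ : Lab I K} (h : Good Φ) (x : OmE E I) :
    Function.Injective (cell x Φ) := by
  intro y z e
  exact Prod.ext (h.spr_inj (add_left_cancel (congrArg Prod.fst e)))
    (h.ow_inj x.2 (congrArg Prod.snd e))

lemma cell_crd_self {ι : K → I} (h : Function.Injective ι) (x : OmE E I) :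
    cell x (crd ι) (0, pb ι x.2) = x := by
  simp only [cell, spr_zero, add_zero, ow_crd_pb h]

lemma cell_lcomp_crd {ι : K → I} (h : Function.Injective ι) (x : OmE E I) (Ψ : Lab K L)
    (z : OmE E L) : cell x (lcomp (crd ι) Ψ) z = cell x (crd ι) (cell (0, pb ι x.2) Ψ z) := by
  rw [← cell_lcomp, cell_crd_self h]

lemma res_lcomp {β : Type} (h : OmE E I → β) (x : OmE E I) (Φ : Lab I K) (Ψ : Lab K L)
    (y : OmE E K) : res h (cell x Φ y) (lcomp Φ Ψ) = res (res h x Φ) y Ψ := by
  funext z; simp only [res, cell_lcomp]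

lemma ores_lcomp {β : Type} (f : Om I → β) (A : Om I) (Φ : Lab I K) (Ψ : Lab K L) (P : Om K) :
    ores f (ow A Φ P) (lcomp Φ Ψ) = ores (ores f A Φ) P Ψ := by
  funext z; simp only [ores, ow_lcomp]

lemma ores_ow {β : Type} (f : Om I → β) (A : Om I) (Φ : Lab I K) (P : Om K) :
    ores f (ow A Φ P) Φ = ores f A Φ := by
  funext z; simp only [ores, ow_ow]

/-- transport of points along a bijection of indices -/
def pbEE (e : K ≃ I) : OmE E I ≃ OmE E K where
  toFun x := (x.1 ∘ e, pb e x.2)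
  invFun y := (y.1 ∘ e.symm, pb e.symm y.2)
  left_inv x := Prod.ext (by funext i; simp) ((pbE e).left_inv x.2)
  right_inv y := Prod.ext (by funext i; simp) ((pbE e).right_inv y.2)

lemma pbEE_cell (e : M ≃ I) (x : OmE E I) (Φ : Lab I K) (y : OmE E K) :
    pbEE e (cell x Φ y) = cell (pbEE e x) (Φ ∘ e) y :=
  Prod.ext rfl (pb_ow e x.2 Φ y.2)

end cells

end NE
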