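import Pool.Agent.Lib.MP_ecee09_co.NE.Stmts4
import Pool.Agent.Lib.MP_ecee09_co.NE.CBase
import Pool.Agent.Lib.MP_ecee09_co.NE.Cells

/-! The abstract lattice freeze: context and the deterministic part. -/

namespace NE

open SD

/-- both loop types are frequent -/
def Bal {I : Type} (A : Om I) : Prop := ∀ e : F, Nat.card I ≤ 4 * Nat.card (Lp A e)

/-- the parameters and the instantiated inputs -/
structure AC {I EE : Type} [AddCommGroup EE] (L : LD I EE) (K : Type) where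
  J : ℕ
  r : ℕ
  R : ℕ
  Fn : ℕ
  t1 : ℕ
  t : ℕ
  t2 : ℕ
  u : ℕ
  Cf : ℕ → ℕ
  γ : ℝ
  c : ℝ
  δ0 : ℝ
  δ : ℝ
  δ1 : ℝ
  ε : ℝ
  cN : ℝ
  s : ℝ
  ok : L.Ok J Cf
  h12 : t1 ≤ t2
  b0 : ∀ A, Bal A → ∀ l e y, 0 ≤ L.bet A l e t2 y ∧ L.bet A l e t2 y ≤ 1
  ba : ∀ A, Bal A → ∀ l e e', L.bb A l e e' t2 t2 ≤ L.bb A l e e' t1 t1
  z0 : ∀ A, Bal A → L.kap A ≤ R → ∀ e', 2 * s < Fn * L.bb A 0 0 e' t1 t1
  mv : ∀ (o : LO K r J t I) (A : Om I) (P P' : Om K), Bal (ow A (llab o) P) →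
    L.Fp (ow A (llab o) P) (llab o) → ∀ (l : Ch EE) (e e' : F) (τ : ℕ), τ ≤ t2 →
      (∀ y ∈ L.V (ow A (llab o) P), (∀ a, L.B (ow A (llab o) P) (yv (llab o) a) y = 0) →
        |L.bet (ow A (llab o) P') l e τ y - L.bet (ow A (llab o) P) l e τ y| ≤ ε) ∧
      L.bb (ow A (llab o) P) l e e' τ τ ≤ s * L.bb (ow A (llab o) P') l e e' τ τ + ε
  pos : ∀ A, QR u γ A → L.kap A ≤ R → ∀ Λ : F → Set (Ch EE),
    (∀ e', ∀ l ∈ Λ e', 1 ≤ 2 * R * s * L.bb A l 0 e' t2 t2) →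
      c ≤ av fun o : LO K r J t I => dens (bl (llab o) (ful fun _ => 0)) A *
        ind (Good (llab o) ∧ L.Fp A (llab o) ∧
          ∀ a e', ∀ l ∈ Λ e', δ0 ≤ L.bet A l e' t2 (yv (llab o) a))
  bad : ∀ A, QR u γ A → ∀ (P : Om K) (a0 : K) (P' : Om K) (l : K → K → Ch EE) (b0 : K)
    (φ : Lab I K → ℝ), (∀ Ψ, 0 ≤ φ Ψ ∧ φ Ψ ≤ ind (Good Ψ ∧ ∀ b, yv Ψ b ∈ L.V A)) →
      (av fun o : LO K r J t I => dens (bl (llab o) (ful P)) A *
        ind (Good (llab o) ∧ ∀ a, yv (llab o) a ∈ L.V A) * ‖L.trm r J t A φ P' (llab o) l‖ ^ 2) ≤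
        L.bb A (l a0 b0) (P s(a0, a0)) (P' s(b0, b0)) t1 t1 + ε
  jl : ∀ A, QR u γ A → ∀ (P : Om K) (Φ : Lab I K) (l : K → K → Ch EE) (φ : Lab I K → ℝ),
    (∀ a b, δ1 ≤ L.bet A (l a b) (P s(b, b)) t2 (yv Φ a)) →
    (∀ Ψ, 0 ≤ φ Ψ ∧ φ Ψ ≤ ind (∀ b, yv Ψ b ∈ L.V A)) →
      ‖L.trm r J t A φ P Φ l -
        ((av fun o : LO K r J t I => dens (bl (llab o) (ful P)) A * φ (llab o) : ℝ) : ℂ)‖ ≤ δ1
  ji : ∀ (o : LO K r J t I) (A : Om I) (P0 P1 P : Om K) (Λ : F → Set (Ch EE)),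
    Bal (ow A (llab o) P0) → L.Fp (ow A (llab o) P0) (llab o) →
      |L.JP r J t (ow A (llab o) P1) Λ t2 P (llab o) -
        L.JP r J t (ow A (llab o) P0) Λ t2 P (llab o)| ≤ δ1
  hR : 1 ≤ R
  hs : 1 ≤ s
  hδ : 0 < δ
  hδ' : δ ≤ 1
  hδ0 : 0 < δ0
  hδ0' : δ0 ≤ 1
  hδ1 : 0 < δ1
  hcN : 0 < cN
  hε : 0 < ε
  e1 : 2 * R * ε ≤ 1
  e2 : Fn * ε ≤ 1
  e3 : 4 * R * s ^ 2 < Fn
  e4 : Nat.card (K × F × Ch EE) * ε ≤ δ * δ1 / 4
  e5 : 3 * δ1 * Nat.card (K → K → Ch EE) ≤ δ * cN / 4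
  e6 : J ^ Nat.card K * R ≤ Fn
  e7 : cN * Nat.card (Om K) ≤ c * δ0 ^ Nat.card (K × F × Ch EE)

lemma al_prod_sub {ι : Type} (S : Finset ι) (a b : ι → ℝ) (ha : ∀ i, 0 ≤ a i ∧ a i ≤ 1)
    (hb : ∀ i, 0 ≤ b i ∧ b i ≤ 1) : |∏ i ∈ S, a i - ∏ i ∈ S, b i| ≤ ∑ i ∈ S, |a i - b i| := by
  classical
  induction S using Finset.induction_on with
  | empty => simp
  | insert i S hi ih =>
    rw [Finset.prod_insert hi, Finset.prod_insert hi, Finset.sum_insert hi]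
    have h1 : 0 ≤ ∏ j ∈ S, a j := Finset.prod_nonneg fun j _ => (ha j).1
    have h2 : ∏ j ∈ S, a j ≤ 1 := Finset.prod_le_one (fun j _ => (ha j).1) fun j _ => (ha j).2
    have e : a i * ∏ j ∈ S, a j - b i * ∏ j ∈ S, b j =
        (a i - b i) * ∏ j ∈ S, a j + b i * (∏ j ∈ S, a j - ∏ j ∈ S, b j) := by ring
    rw [e]
    refine (abs_add_le _ _).trans (add_le_add ?_ ?_)
    · rw [abs_mul, abs_of_nonneg h1]
      exact mul_le_of_le_one_right (abs_nonneg _) h2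
    · rw [abs_mul, abs_of_nonneg (hb i).1]
      exact (mul_le_of_le_one_left (abs_nonneg _) (hb i).2).trans ih

variable {I K EE : Type} [AddCommGroup EE] [Finite I] [Finite K] [Finite EE] {L : LD I EE}

omit [Finite I] [Finite EE] in
lemma al_fp {J : ℕ} {Cf : ℕ → ℕ} (h : L.Ok J Cf) {A : Om I} {Φ : Lab I K} {P : Om K}
    (hF : L.Fp (ow A Φ P) Φ) (P' : Om K) : L.Fp (ow A Φ P') Φ := by
  obtain ⟨-, hV, hB⟩ := h.inv K Φ A P P' hF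
  refine ⟨fun a => hV ▸ hF.1 a, fun a b => ?_⟩
  rw [(hB _ (hF.1 b) (fun a => hF.2 a b) _ (hF.1 a)).2, hF.2]

omit [Finite I] in
lemma al_gw {A : Om I} {t2 : ℕ} (hb : ∀ l e y, 0 ≤ L.bet A l e t2 y ∧ L.bet A l e t2 y ≤ 1)
    (Λ : F → Set (Ch EE)) (Φ : Lab I K) :
    0 ≤ L.gw A Λ t2 Φ ∧ L.gw A Λ t2 Φ ≤ ind (Good Φ ∧ L.Fp A Φ) ∧
      ∀ a e l, l ∈ Λ e → L.gw A Λ t2 Φ ≤ L.bet A l e t2 (yv Φ a) := by
  classical
  let _ := Fintype.ofFinite (K × F × Ch EE)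
  have h0 : ∀ z : K × F × Ch EE,
      0 ≤ (if z.2.2 ∈ Λ z.2.1 then L.bet A z.2.2 z.2.1 t2 (yv Φ z.1) else 1) ∧
      (if z.2.2 ∈ Λ z.2.1 then L.bet A z.2.2 z.2.1 t2 (yv Φ z.1) else 1) ≤ 1 := fun z => by
    split_ifs
    · exact hb _ _ _
    · exact ⟨zero_le_one, le_rfl⟩
  have h1 := Finset.prod_nonneg (s := Finset.univ) fun z _ => (h0 z).1
  have h2 := Finset.prod_le_one (s := Finset.univ) (fun z _ => (h0 z).1) fun z _ => (h0 z).2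
  unfold LD.gw
  rw [finprod_eq_prod_of_fintype]
  refine ⟨mul_nonneg (ind_nonneg _) h1, mul_le_of_le_one_right (ind_nonneg _) h2,
    fun a e l hl => (mul_le_of_le_one_left h1 (ind_le_one _)).trans ?_⟩
  rw [← Finset.mul_prod_erase _ _ (Finset.mem_univ (a, e, l)), if_pos hl]
  exact mul_le_of_le_one_right (hb _ _ _).1
    (Finset.prod_le_one (fun z _ => (h0 z).1) fun z _ => (h0 z).2)

namespace AC

variable (X : AC L K)

/-- the low forms -/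
def Lam (A : Om I) : F → Set (Ch EE) :=
  fun e' => {l | 1 ≤ 2 * X.R * X.s * L.bb A l 0 e' X.t2 X.t2}

/-- weak gap -/
def WG (A : Om I) : Prop :=
  L.kap A ≤ X.R ∧ QR X.u X.γ A ∧ ∀ e e' l,
    (l ∈ X.Lam A e' → 1 ≤ 2 * X.R * X.s * L.bb A l e e' X.t2 X.t2) ∧
    (l ∉ X.Lam A e' → X.Fn * L.bb A l e e' X.t1 X.t1 ≤ 2 * X.s)

noncomputable def w (A : Om I) (Φ : Lab I K) : ℝ := L.gw A (X.Lam A) X.t2 Φ

noncomputable def N (A : Om I) : ℝ := av fun P : Om K => L.NP X.r X.J X.t A (X.Lam A) X.t2 P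

def Bad (A : Om I) (Φ : Lab I K) : Prop :=
  ∃ (P' : Om K) (l : K → K → Ch EE), (∃ a b, l a b ∉ X.Lam A (P' s(b, b))) ∧
    X.δ1 ≤ ‖L.trm X.r X.J X.t A (X.w A) P' Φ l‖

def OKp (A : Om I) (Φ : Lab I K) : Prop :=
  X.WG A ∧ L.Fp A Φ ∧ ¬ X.Bad A Φ ∧ X.δ1 ≤ X.w A Φ

def OK (A : Om I) (Φ : Lab I K) : Prop :=
  Good Φ ∧ ∀ P, X.OKp (ow A Φ P) Φ ∧ X.Lam (ow A Φ P) = X.Lam (ow A Φ 0)

/-- strong gap, the same for both loop types -/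
def G (A : Om I) : Prop :=
  L.kap A ≤ X.R ∧ QR X.u X.γ A ∧
    (∀ l e e', 1 ≤ X.R * L.bb A l e e' X.t2 X.t2 ∨ X.Fn * L.bb A l e e' X.t1 X.t1 ≤ 1) ∧
    ∀ l e e', ¬ (1 ≤ X.R * L.bb A l e e' X.t2 X.t2 ∧ X.Fn * L.bb A l (e + 1) e' X.t1 X.t1 ≤ 1)

omit [Finite I] in
lemma w_bd {A : Om I} (h : Bal A) (Φ : Lab I K) :
    0 ≤ X.w A Φ ∧ X.w A Φ ≤ ind (Good Φ ∧ L.Fp A Φ) ∧
      ∀ a e l, l ∈ X.Lam A e → X.w A Φ ≤ L.bet A l e X.t2 (yv Φ a) := al_gw (X.b0 A h) _ Φ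

omit [Finite I] in
lemma w_move (o : LO K X.r X.J X.t I) (A : Om I) (P P' : Om K) (h : Bal (ow A (llab o) P))
    (h' : Bal (ow A (llab o) P')) (hF : L.Fp (ow A (llab o) P) (llab o))
    (hL : X.Lam (ow A (llab o) P') = X.Lam (ow A (llab o) P)) :
    |X.w (ow A (llab o) P') (llab o) - X.w (ow A (llab o) P) (llab o)| ≤ X.δ * X.δ1 / 4 := by
  classical
  let _ := Fintype.ofFinite (K × F × Ch EE)
  unfold w LD.gw
  rw [hL, finprod_eq_prod_of_fintype, finprod_eq_prod_of_fintype,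
    ind_congr (q := Good (llab o) ∧ L.Fp (ow A (llab o) P) (llab o))
      ⟨fun g => ⟨g.1, hF⟩, fun g => ⟨g.1, al_fp X.ok hF P'⟩⟩, ← mul_sub, abs_mul, abs_ind]
  refine (mul_le_of_le_one_left (abs_nonneg _) (ind_le_one _)).trans
    ((al_prod_sub _ _ _ (fun z => ?_) fun z => ?_).trans (le_trans ?_ X.e4))
  · split_ifs
    · exact X.b0 _ h' _ _ _
    · exact ⟨zero_le_one, le_rfl⟩
  · split_ifs
    · exact X.b0 _ h _ _ _
    · exact ⟨zero_le_one, le_rfl⟩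
  · rw [Nat.card_eq_fintype_card, ← Finset.card_univ, ← nsmul_eq_mul]
    refine Finset.sum_le_card_nsmul _ _ _ fun z _ => ?_
    split_ifs
    · exact (X.mv o A P P' h hF z.2.2 z.2.1 0 X.t2 le_rfl).1 _ (hF.1 _) fun a => hF.2 a _
    · simpa using X.hε.le

omit [Finite I] [Finite EE] in
/-- a strong gap gives a weak gap on the whole cell -/
lemma wg_move (o : LO K X.r X.J X.t I) (A : Om I) (P P' : Om K) (hG : X.G (ow A (llab o) P))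
    (hF : L.Fp (ow A (llab o) P) (llab o)) (hQ : QR X.u X.γ (ow A (llab o) P')) :
    X.WG (ow A (llab o) P') ∧ X.Lam (ow A (llab o) P') =
      fun e' => {l | 1 ≤ X.R * L.bb (ow A (llab o) P) l 0 e' X.t2 X.t2} := by
  obtain ⟨hk, hq, hgap, hone⟩ := hG
  have hR : (1 : ℝ) ≤ X.R := by exact_mod_cast X.hR
  have hs := X.hs
  have hF0 : (0 : ℝ) ≤ X.Fn := Nat.cast_nonneg _
  have low : ∀ l e e', 1 ≤ X.R * L.bb (ow A (llab o) P) l e e' X.t2 X.t2 →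
      1 ≤ 2 * X.R * X.s * L.bb (ow A (llab o) P') l e e' X.t2 X.t2 := fun l e e' h => by
    have h1 := (X.mv o A P P' hq.bal hF l e e' X.t2 le_rfl).2
    have h2 := mul_le_mul_of_nonneg_left h1 (by linarith : (0 : ℝ) ≤ X.R)
    have := X.e1
    nlinarith
  have high : ∀ l e e', X.Fn * L.bb (ow A (llab o) P) l e e' X.t1 X.t1 ≤ 1 →
      X.Fn * L.bb (ow A (llab o) P') l e e' X.t1 X.t1 ≤ 2 * X.s := fun l e e' h => by
    have h1 := (X.mv o A P' P hQ.bal (al_fp X.ok hF P') l e e' X.t1 X.h12).2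
    have h2 := mul_le_mul_of_nonneg_left h1 hF0
    have h3 := mul_le_mul_of_nonneg_left h (by linarith : (0 : ℝ) ≤ X.s)
    have := X.e2
    nlinarith
  have nl : ∀ l e', X.Fn * L.bb (ow A (llab o) P) l 0 e' X.t1 X.t1 ≤ 1 →
      l ∉ X.Lam (ow A (llab o) P') e' := fun l e' h hm => by
    have h1 := high l 0 e' h
    have h2 := X.ba _ hQ.bal l 0 e'
    have h3 : 1 ≤ 2 * X.R * X.s * L.bb (ow A (llab o) P') l 0 e' X.t2 X.t2 := hm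
    have h4 : 0 ≤ 2 * X.R * X.s := by positivity
    have h5 := h3.trans (mul_le_mul_of_nonneg_left h2 h4)
    have h6 := mul_le_mul_of_nonneg_left h5 hF0
    have h7 := mul_le_mul_of_nonneg_left h1 h4
    have := X.e3
    nlinarith
  have hL : X.Lam (ow A (llab o) P') =
      fun e' => {l | 1 ≤ X.R * L.bb (ow A (llab o) P) l 0 e' X.t2 X.t2} := by
    funext e'
    ext l
    exact ⟨fun h => (hgap l 0 e').resolve_right fun g => nl l e' g h, low l 0 e'⟩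
  refine ⟨⟨(X.ok.inv K _ A P P' hF).1 ▸ hk, hQ, fun e e' l => ?_⟩, hL⟩
  rw [hL]
  rcases F_cases e with rfl | rfl
  · exact ⟨low l 0 e', fun h => high l 0 e' ((hgap l 0 e').resolve_left h)⟩
  · refine ⟨fun h => low l 1 e' ((hgap l 1 e').resolve_right fun g => hone l 0 e' ⟨h, ?_⟩),
      fun h => high l 1 e' ((hgap l 1 e').resolve_left fun g => hone l 1 e' ⟨g, ?_⟩)⟩
    · rwa [zero_add]
    · rw [F_add_self]
      exact (hgap l 0 e').resolve_left h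

end AC

end NE
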