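import Pool.Agent.Lib.MP_ecee09_co.NE.Defs4
import Pool.Agent.Lib.MP_ecee09_co.NE.CQT

/-! Characters of abelian groups with values in the circle. -/

namespace NE

open SD
open ComplexConjugate

variable {X Y : Type} [AddCommGroup X] [AddCommGroup Y]

theorem ch_extend (f : X →+ Y) (hf : Function.Injective f) (l : Ch X) :
    ∃ l' : Ch Y, ∀ x, l' (f x) = l x := by
  obtain ⟨r, hr⟩ := (Module.Baer.of_divisible TT).extension_property_addMonoidHom f hf l
  exact ⟨r, DFunLike.congr_fun hr⟩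

theorem ch_extend_sub (S : AddSubgroup X) (l : Ch S) : ∃ l' : Ch X, ∀ s : S, l' s = l s :=
  ch_extend S.subtype S.subtype_injective l

theorem ch_sep0 {x : X} (hx : x ≠ 0) : ∃ l : Ch X, l x ≠ 0 := by
  obtain ⟨c, hc⟩ := CharacterModule.exists_character_apply_ne_zero_of_ne_zero hx
  let j : AddCircle (1 : ℚ) →+ TT := QuotientAddGroup.map _ _ (Rat.castHom ℝ).toAddMonoidHom (by
    rintro _ ⟨n, rfl⟩
    exact ⟨n, by simp⟩)
  refine ⟨j.comp c, fun h => hc ?_⟩
  obtain ⟨q, hq⟩ := QuotientAddGroup.mk_surjective (c x)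
  have h1 : j q = 0 := by rw [hq]; exact h
  obtain ⟨n, hn⟩ := (QuotientAddGroup.eq_zero_iff ((q : ℚ) : ℝ)).1 h1
  rw [← hq]
  refine (QuotientAddGroup.eq_zero_iff q).2 ⟨n, ?_⟩
  simp only [zsmul_eq_mul, mul_one] at hn ⊢
  exact_mod_cast hn

theorem ch_eq_zero {x : X} : (∀ l : Ch X, l x = 0) ↔ x = 0 :=
  ⟨fun h => by_contra fun hx => let ⟨l, hl⟩ := ch_sep0 hx; hl (h l), fun h l => by simp [h]⟩

theorem ch_sep {S : AddSubgroup X} {x : X} (hx : x ∉ S) :
    ∃ l : Ch X, (∀ s ∈ S, l s = 0) ∧ l x ≠ 0 := by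
  obtain ⟨l, hl⟩ := ch_sep0 (mt (QuotientAddGroup.eq_zero_iff x).1 hx)
  exact ⟨l.comp (QuotientAddGroup.mk' S), fun s hs => by
    simp [(QuotientAddGroup.eq_zero_iff s).2 hs], hl⟩

/-- a character that kills `S` comes from the quotient -/
theorem ch_lift {S : AddSubgroup X} (l : Ch X) (h : ∀ s ∈ S, l s = 0) :
    ∃ l' : Ch (X ⧸ S), ∀ x : X, l' (QuotientAddGroup.mk x) = l x :=
  ⟨QuotientAddGroup.lift S l h, fun _ => rfl⟩

theorem ch_tors (l : Ch X) (x : X) : Nat.card X • l x = 0 := by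
  rw [← map_nsmul, card_nsmul_eq_zero', map_zero]

theorem card_ch [Finite X] : Nat.card (Ch X) = Nat.card X := card_hom

theorem cav_ch [Finite X] (x : X) : cav (fun l : Ch X => ee (l x)) = (ind (x = 0) : ℝ) := by
  rw [cav_ee_add (fun l : Ch X => l x) fun _ _ => rfl, ind_congr ch_eq_zero]

theorem csm_ch [Finite X] (x : X) :
    csm (fun l : Ch X => ee (l x)) = Nat.card X * (ind (x = 0) : ℝ) := by
  rw [csm_eq_card_mul_cav, cav_ch, card_ch]

theorem av_ch [Finite X] (x : X) : av (fun l : Ch X => (ee (l x)).re) = ind (x = 0) := by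
  rw [← cav_re, cav_ch, Complex.ofReal_re]

theorem cav_ch_quot (S : AddSubgroup X) [Finite (X ⧸ S)] (x : X) :
    cav (fun l : Ch (X ⧸ S) => ee (l (QuotientAddGroup.mk x))) = (ind (x ∈ S) : ℝ) := by
  rw [cav_ch, ind_congr (QuotientAddGroup.eq_zero_iff x)]

/-- coordinatewise orthogonality -/
theorem cav_ch_pi [Finite X] {I : Type} [Finite I] (x : I → X) :
    cav (fun l : I → Ch X => ee (∑ᶠ i, l i (x i))) = (ind (x = 0) : ℝ) := by
  let _ := Fintype.ofFinite I
  simp only [ee_finsum]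
  rw [← prod_cav fun i (l : Ch X) => ee (l (x i))]
  simp only [cav_ch]
  rw [← Complex.ofReal_prod, ← ind_forall, ind_congr funext_iff.symm]
  rfl

theorem cav_pi_ch [Finite X] {I : Type} [Finite I] (l : I → Ch X) :
    cav (fun x : I → X => ee (∑ᶠ i, l i (x i))) = (ind (l = 0) : ℝ) := by
  let _ := Fintype.ofFinite I
  simp only [ee_finsum]
  rw [← prod_cav fun i (x : X) => ee (l i x)]
  simp only [cav_ee_hom]
  rw [← Complex.ofReal_prod, ← ind_forall, ind_congr funext_iff.symm]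
  rfl

/-- the annihilator of a subgroup -/
def chAnn (S : AddSubgroup X) : AddSubgroup (Ch X) where
  carrier := {l | ∀ s ∈ S, l s = 0}
  zero_mem' := fun _ _ => rfl
  add_mem' := fun ha hb s hs => by rw [AddMonoidHom.add_apply, ha s hs, hb s hs, add_zero]
  neg_mem' := fun ha s hs => by rw [AddMonoidHom.neg_apply, ha s hs, neg_zero]

theorem mem_chAnn {S : AddSubgroup X} {l : Ch X} : l ∈ chAnn S ↔ ∀ s ∈ S, l s = 0 := Iff.rfl

theorem mem_of_chAnn {S : AddSubgroup X} {x : X} : (∀ l ∈ chAnn S, l x = 0) ↔ x ∈ S :=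
  ⟨fun h => by_contra fun hx => let ⟨l, h1, h2⟩ := ch_sep hx; h2 (h l h1), fun h _ hl => hl x h⟩

/-- characters of the quotient are the annihilator -/
def chAnnEquiv (S : AddSubgroup X) : Ch (X ⧸ S) ≃ chAnn S where
  toFun l := ⟨l.comp (QuotientAddGroup.mk' S), fun s hs => by
    simp [(QuotientAddGroup.eq_zero_iff s).2 hs]⟩
  invFun l := QuotientAddGroup.lift S l.1 l.2
  left_inv l := by ext x; rfl
  right_inv l := by ext x; rfl

theorem card_chAnn (S : AddSubgroup X) [Finite (X ⧸ S)] : Nat.card (chAnn S) = S.index := by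
  rw [← Nat.card_congr (chAnnEquiv S), card_ch, AddSubgroup.index]

theorem card_chAnn_mul [Finite X] (S : AddSubgroup X) :
    Nat.card (chAnn S) * Nat.card S = Nat.card X := by
  rw [card_chAnn, S.index_mul_card]

theorem cav_chAnn (S : AddSubgroup X) [Finite (X ⧸ S)] (x : X) :
    cav (fun l : chAnn S => ee (l.1 x)) = (ind (x ∈ S) : ℝ) := by
  rw [← cav_equiv (chAnnEquiv S), ← cav_ch_quot]
  rfl

theorem csm_chAnn [Finite X] (S : AddSubgroup X) (x : X) :
    csm (fun l : Ch X => (ind (∀ s ∈ S, l s = 0) : ℂ) * ee (l x)) =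
      S.index * (ind (x ∈ S) : ℝ) := by
  rw [← cav_chAnn, ← card_chAnn, ← csm_eq_card_mul_cav]
  exact (csm_subtype (fun l : Ch X => ∀ s ∈ S, l s = 0) fun l => ee (l x)).symm

theorem cav_sub_ch [Finite X] (S : AddSubgroup X) (l : Ch X) :
    cav (fun s : S => ee (l s)) = (ind (∀ s ∈ S, l s = 0) : ℝ) := by
  rw [cav_ee_add (fun s : S => l s) fun a b => by simp, ind_congr Subtype.forall]

section pair
variable [Finite X] [Finite Y]

theorem av_ind_mem (S : AddSubgroup X) :
    av (fun x => ind (x ∈ S)) = Nat.card S / Nat.card X := by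
  rw [av_def]
  exact congrArg (· / _) (cnt_eq_card (S : Set X))

/-- the two radicals of a pairing have the same index -/
theorem pair_card (β : X →+ Ch Y) :
    Nat.card β.ker * Nat.card Y = Nat.card β.flip.ker * Nat.card X := by
  have h1 : cav (fun x => cav fun y => ee (β x y)) = ((Nat.card β.ker / Nat.card X : ℝ) : ℂ) := by
    simp only [cav_ee_hom]
    rw [cav_ofReal, ← av_ind_mem]
    rfl
  have h2 : cav (fun y => cav fun x => ee (β.flip y x)) =
      ((Nat.card β.flip.ker / Nat.card Y : ℝ) : ℂ) := by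
    simp only [cav_ee_hom]
    rw [cav_ofReal, ← av_ind_mem]
    rfl
  have h3 := Complex.ofReal_injective (h1.symm.trans ((cav_comm _).trans h2))
  rw [div_eq_div_iff card_pos'.ne' card_pos'.ne'] at h3
  exact_mod_cast h3

theorem pair_index (β : X →+ Ch Y) : β.ker.index = β.flip.ker.index := by
  have h := pair_card β
  rw [← β.ker.index_mul_card, ← β.flip.ker.index_mul_card] at h
  have h1 : 0 < Nat.card β.ker := Nat.card_pos
  have h2 : 0 < Nat.card β.flip.ker := Nat.card_pos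
  refine Nat.eq_of_mul_eq_mul_left (Nat.mul_pos h1 h2) ?_
  linarith

theorem pair_surj (β : X →+ Ch Y) (h : ∀ y, (∀ x, β x y = 0) → y = 0) : Function.Surjective β := by
  have h1 : β.flip.ker = ⊥ :=
    (AddSubgroup.eq_bot_iff_forall _).2 fun y hy => h y (DFunLike.congr_fun hy)
  have h2 := pair_index β
  rw [h1, AddSubgroup.index_bot, AddSubgroup.index_ker, ← card_ch (X := Y)] at h2
  exact AddMonoidHom.range_eq_top.1 (AddSubgroup.eq_top_of_card_eq _ h2)

theorem pair_card_eq (β : X →+ Ch Y) (h : ∀ x, (∀ y, β x y = 0) → x = 0)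
    (h' : ∀ y, (∀ x, β x y = 0) → y = 0) : Nat.card X = Nat.card Y := by
  rw [← card_ch (X := Y)]
  exact Nat.card_eq_of_bijective β ⟨(injective_iff_map_eq_zero _).2 fun x hx =>
    h x (DFunLike.congr_fun hx), pair_surj β h'⟩

/-- every character of the dual group is an evaluation -/
theorem ch_ch (φ : Ch (Ch X)) : ∃ x : X, ∀ l, φ l = l x := by
  obtain ⟨x, hx⟩ := pair_surj (AddMonoidHom.id (Ch X)).flip
    (fun l hl => AddMonoidHom.ext hl) φ
  exact ⟨x, fun l => (DFunLike.congr_fun hx l).symm⟩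

/-- Fourier coefficient -/
noncomputable def chF (f : X → ℂ) (l : Ch X) : ℂ := cav fun x => f x * conj (ee (l x))

theorem chF_inv (f : X → ℂ) (x : X) : csm (fun l => chF f l * ee (l x)) = f x := by
  have e : ∀ (l : Ch X) y, f y * conj (ee (l y)) * ee (l x) = f y * ee (l (x - y)) :=
    fun l y => by rw [map_sub, ee_sub]; ring
  simp only [chF, ← cav_mul_right, e]
  rw [← cav_csm_comm]
  simp only [csm_mul_left, csm_ch, sub_eq_zero, eq_comm (a := x)]
  rw [cav_congr (g := fun y => (ind (y = x) : ℂ) * (f y * Nat.card X)) fun y => by ring, cav_ind_eq,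
    mul_div_cancel_right₀ _ ccard_ne]

theorem chF_ip (f g : X → ℂ) : csm (fun l => chF f l * conj (chF g l)) = ip f g := by
  conv_rhs => rw [← funext (chF_inv f), ip_csm_left]
  refine csm_congr fun l => ?_
  rw [ip_mul_left, ← conj_ip]
  rfl

theorem chF_parseval (f : X → ℂ) : sm (fun l => ‖chF f l‖ ^ 2) = n2 f := by
  refine Complex.ofReal_injective ?_
  rw [← ip_self, ← chF_ip, ← csm_ofReal]
  exact csm_congr fun l => (mul_conj'' _).symm

end pair

theorem re_ee_le (x : TT) : (ee x).re ≤ 1 := (Complex.re_le_norm _).trans (norm_ee x).le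

theorem re_ee_lt {x : TT} (h : x ≠ 0) : (ee x).re < 1 := by
  refine lt_of_le_of_ne (re_ee_le x) fun e => h (ee_eq_one.1 ?_)
  have h1 := norm_ee x
  have h2 := Complex.sq_norm (ee x)
  rw [h1, Complex.normSq_apply, e] at h2
  exact Complex.ext e (by simpa using mul_self_eq_zero.1 (by linarith : (ee x).im * (ee x).im = 0))

theorem norm_ee_sub_sq (x y : TT) : ‖ee x - ee y‖ ^ 2 = 2 * (1 - (ee (x - y)).re) := by
  rw [Complex.sq_norm, Complex.normSq_sub, ← Complex.sq_norm, ← Complex.sq_norm, norm_ee, norm_ee,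
    ee_sub]
  ring

theorem norm_half_sq (x : TT) : ‖(1 + ee x) / 2‖ ^ 2 = (1 + (ee x).re) / 2 := by
  rw [norm_div, div_pow, Complex.sq_norm, Complex.normSq_add, ← Complex.sq_norm (ee x), norm_ee]
  simp
  ring

/-- torsion points of order at most `J` stay away from zero -/
theorem exists_gap (J : ℕ) : ∃ c : ℝ, 0 < c ∧ c ≤ 1 ∧
    ∀ (x : TT) (n : ℕ), 0 < n → n ≤ J → n • x = 0 → x ≠ 0 → c ≤ 1 - (ee x).re := by
  have hf : {u : TT | J.factorial • u = 0 ∧ u ≠ 0}.Finite :=
    (AddCircle.finite_torsion 1 J.factorial_pos).subset fun _ h => h.1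
  have key : ∀ (x : TT) (n : ℕ), 0 < n → n ≤ J → n • x = 0 → J.factorial • x = 0 := by
    intro x n h0 h1 h2
    obtain ⟨k, hk⟩ := Nat.dvd_factorial h0 h1
    rw [hk, mul_nsmul, h2, nsmul_zero]
  rcases Set.eq_empty_or_nonempty {u : TT | J.factorial • u = 0 ∧ u ≠ 0} with h | h
  · exact ⟨1, one_pos, le_rfl, fun x n h0 h1 h2 h3 =>
      absurd (h ▸ (⟨key x n h0 h1 h2, h3⟩ : x ∈ {u : TT | _ ∧ _})) (Set.notMem_empty x)⟩
  · obtain ⟨a, ha, hm⟩ := Set.exists_min_image _ (fun u => 1 - (ee u).re) hf h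
    exact ⟨min (1 - (ee a).re) 1, lt_min (sub_pos.2 (re_ee_lt ha.2)) one_pos, min_le_right _ _,
      fun x n h0 h1 h2 h3 => (min_le_left _ _).trans (hm x ⟨key x n h0 h1 h2, h3⟩)⟩

theorem exists_half (J : ℕ) : ∃ c : ℝ, 0 < c ∧ c < 1 ∧
    ∀ (x : TT) (n : ℕ), 0 < n → n ≤ J → n • x = 0 → x ≠ 0 → ‖(1 + ee x) / 2‖ ≤ c := by
  obtain ⟨c, h0, h1, h⟩ := exists_gap J
  refine ⟨1 - c / 4, by linarith, by linarith, fun x n a b d e => ?_⟩
  refine (pow_le_pow_iff_left₀ (norm_nonneg _) (by linarith) two_ne_zero).1 ?_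
  have := h x n a b d e
  rw [norm_half_sq]
  nlinarith

end NE
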