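import Pool.Agent.Lib.MP_ecee09_co.NE.ALa
import Pool.Agent.Lib.MP_ecee09_co.NE.Dual

/-! The abstract lattice freeze: the normalizing mean is nearly constant on good cells. -/

namespace NE

open SD

variable {I K EE : Type} [AddCommGroup EE] [Finite I] [Finite K] [Finite EE] {L : LD I EE}

omit [Finite I] in
lemma al_dens_nonneg (σ : PP I) (A : Om I) : 0 ≤ dens σ A :=
  mul_nonneg (by positivity) (ind_nonneg _)

lemma al_orth (x : K → K → EE) : (ind (∀ a b, x a b = 0) : ℂ) =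
    cav fun l : K → K → Ch EE => ee (∑ᶠ z : K × K, l z.1 z.2 (x z.1 z.2)) := by
  have h := cav_ch_pi (X := EE) fun z : K × K => x z.1 z.2
  rw [← cav_equiv (Equiv.curry K K (Ch EE)).symm] at h
  rw [ind_congr (p := ∀ a b, x a b = 0) (q := (fun z : K × K => x z.1 z.2) = 0)
    ⟨fun g => funext fun z => g z.1 z.2, fun g a b => congrFun g (a, b)⟩, ← h]
  rfl

lemma al_JP (r J t : ℕ) (A : Om I) (Λ : F → Set (Ch EE)) (t2 : ℕ) (P : Om K) (Φ : Lab I K) :
    (L.JP r J t A Λ t2 P Φ : ℂ) =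
      cav fun l : K → K → Ch EE => L.trm r J t A (L.gw A Λ t2) P Φ l := by
  unfold LD.JP LD.trm
  rw [cav_comm, ← cav_ofReal]
  refine cav_congr fun o => ?_
  rw [cav_mul_left, ← al_orth fun a b => L.B A (yv Φ a) (yv (llab o) b)]
  push_cast
  ring

namespace AC

variable (X : AC L K)

omit [Finite I] [Finite K] [Finite EE] in
lemma zero_mem {A : Om I} (h : X.WG A) (e' : F) : (0 : Ch EE) ∈ X.Lam A e' := by
  by_contra hn
  exact absurd ((h.2.2 0 e' 0).2 hn) (not_le.2 (X.z0 A h.2.1.bal h.1 e'))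

lemma NP_nonneg {A : Om I} (h : Bal A) (P : Om K) :
    0 ≤ L.NP X.r X.J X.t A (X.Lam A) X.t2 P :=
  av_nonneg fun _ => mul_nonneg (al_dens_nonneg _ _) (X.w_bd h _).1

lemma N_low {A : Om I} (hk : L.kap A ≤ X.R) (hq : QR X.u X.γ A) : X.cN ≤ X.N A := by
  classical
  let _ := Fintype.ofFinite (K × F × Ch EE)
  have hb : Bal A := hq.bal
  have h1 := X.pos A hq hk (X.Lam A) fun _ _ hl => hl
  have h2 : X.c * X.δ0 ^ Nat.card (K × F × Ch EE) ≤
      L.NP X.r X.J X.t A (X.Lam A) X.t2 (fun _ : Sym2 K => 0) := by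
    refine (mul_le_mul_of_nonneg_right h1 (pow_pos X.hδ0 _).le).trans ?_
    rw [← av_mul_right]
    refine av_mono fun o => ?_
    rw [mul_assoc]
    refine mul_le_mul_of_nonneg_left ?_ (al_dens_nonneg _ _)
    by_cases g : Good (llab o) ∧ L.Fp A (llab o) ∧
        ∀ a e', ∀ l ∈ X.Lam A e', X.δ0 ≤ L.bet A l e' X.t2 (yv (llab o) a)
    · unfold LD.gw
      rw [ind_pos g, ind_pos ⟨g.1, g.2.1⟩, one_mul, one_mul, finprod_eq_prod_of_fintype,
        Nat.card_eq_fintype_card, ← Finset.card_univ, ← Finset.prod_const]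
      refine Finset.prod_le_prod (fun _ _ => X.hδ0.le) fun z _ => ?_
      split_ifs with hz
      · exact g.2.2 _ _ _ hz
      · exact X.hδ0'
    · rw [ind_neg g, zero_mul]
      exact (X.w_bd hb _).1
  have h3 := single_le_sm (X.NP_nonneg hb) (fun _ : Sym2 K => 0)
  have h4 : (0 : ℝ) < Nat.card (Om K) := card_pos'
  unfold N
  rw [av_def, le_div_iff₀ h4]
  exact X.e7.trans (h2.trans h3)

/-- share of the tuples of low forms -/
noncomputable def th (Λ : F → Set (Ch EE)) (P : Om K) : ℝ :=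
  av fun l : K → K → Ch EE => ind (∀ a b, l a b ∈ Λ (P s(b, b)))

lemma jp_near {A : Om I} {Φ : Lab I K} (h : X.OKp A Φ) (P : Om K) :
    |L.JP X.r X.J X.t A (X.Lam A) X.t2 P Φ -
      th (X.Lam A) P * L.NP X.r X.J X.t A (X.Lam A) X.t2 P| ≤ X.δ1 := by
  obtain ⟨hw, -, hB, hw1⟩ := h
  have hb : Bal A := hw.2.1.bal
  rw [← Real.norm_eq_abs, ← Complex.norm_real]
  push_cast
  rw [al_JP, th, ← cav_ofReal, ← cav_mul_right, ← cav_sub]
  refine (norm_cav_le _).trans (av_le_const fun l => ?_)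
  by_cases g : ∀ a b, l a b ∈ X.Lam A (P s(b, b))
  · rw [ind_pos g, Complex.ofReal_one, one_mul]
    exact X.jl A hw.2.1 P Φ l (X.w A)
      (fun a b => hw1.trans ((X.w_bd hb Φ).2.2 a _ _ (g a b)))
      fun Ψ => ⟨(X.w_bd hb Ψ).1, (X.w_bd hb Ψ).2.1.trans (ind_mono fun q => q.2.1)⟩
  · rw [ind_neg g, Complex.ofReal_zero, zero_mul, sub_zero]
    by_contra hn
    refine hB ⟨P, l, ?_, (not_le.1 hn).le⟩
    by_contra hc
    exact g fun a b => by_contra fun q => hc ⟨a, b, q⟩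

lemma N_inv (o : LO K X.r X.J X.t I) {A : Om I} (h : X.OK A (llab o)) (P1 : Om K) :
    |X.N (ow A (llab o) P1) - X.N (ow A (llab o) 0)| ≤ X.δ * X.cN / 4 := by
  obtain ⟨h1, hL⟩ := h.2 P1
  obtain ⟨h0, -⟩ := h.2 0
  unfold N
  rw [← av_sub]
  refine (abs_av_le _).trans (av_le_const fun P => le_trans ?_ X.e5)
  have a1 := X.jp_near h1 P
  have a0 := X.jp_near h0 P
  have a2 := X.ji o A 0 P1 P (X.Lam (ow A (llab o) 0)) h0.1.2.1.bal h0.2.1
  rw [hL] at a1 ⊢
  have hc : (0 : ℝ) < Nat.card (K → K → Ch EE) := card_pos'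
  have ht : 1 ≤ th (X.Lam (ow A (llab o) 0)) P * Nat.card (K → K → Ch EE) := by
    rw [th, av_def, div_mul_cancel₀ _ hc.ne']
    refine le_trans ?_ (single_le_sm (fun _ => ind_nonneg _) (0 : K → K → Ch EE))
    exact (ind_pos fun _ _ => X.zero_mem h0.1 _).ge
  have ht0 : 0 ≤ th (X.Lam (ow A (llab o) 0)) P := av_nonneg fun _ => ind_nonneg _
  generalize th (X.Lam (ow A (llab o) 0)) P = θ at *
  generalize L.NP X.r X.J X.t (ow A (llab o) P1) (X.Lam (ow A (llab o) 0)) X.t2 P = n1 at *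
  generalize L.NP X.r X.J X.t (ow A (llab o) 0) (X.Lam (ow A (llab o) 0)) X.t2 P = n0 at *
  have h3 : θ * |n1 - n0| ≤ 3 * X.δ1 := by
    rw [← abs_of_nonneg ht0, ← abs_mul, abs_le]
    rw [abs_le] at a0 a1 a2
    constructor <;> nlinarith [a0.1, a0.2, a1.1, a1.2, a2.1, a2.2]
  calc |n1 - n0| ≤ θ * Nat.card (K → K → Ch EE) * |n1 - n0| :=
        le_mul_of_one_le_left (abs_nonneg _) ht
    _ = θ * |n1 - n0| * Nat.card (K → K → Ch EE) := by ring
    _ ≤ _ := mul_le_mul_of_nonneg_right h3 hc.le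

/-- the invariant ratio against the ratio at a point of the cell -/
lemma ratio (o : LO K X.r X.J X.t I) {A : Om I} (h : X.OK A (llab o)) (P : Om K) :
    X.w (ow A (llab o) 0) (llab o) / X.N (ow A (llab o) 0) ≤
      (1 + X.δ) * (X.w (ow A (llab o) P) (llab o) / X.N (ow A (llab o) P)) ∧
    (1 - X.δ) * (X.w (ow A (llab o) P) (llab o) / X.N (ow A (llab o) P)) ≤
      X.w (ow A (llab o) 0) (llab o) / X.N (ow A (llab o) 0) := by
  obtain ⟨h1, hL⟩ := h.2 P
  obtain ⟨h0, -⟩ := h.2 0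
  have a1 := abs_le.1 (X.N_inv o h P)
  have a2 := abs_le.1 (X.w_move o A 0 P h0.1.2.1.bal h1.1.2.1.bal h0.2.1 hL)
  have b0 := X.N_low h0.1.1 h0.1.2.1
  have b1 := X.N_low h1.1.1 h1.1.2.1
  have c0 := h0.2.2.2
  have c1 := h1.2.2.2
  have := X.hδ; have := X.hδ'; have := X.hδ1; have := X.hcN
  generalize X.w (ow A (llab o) 0) (llab o) = w0 at *
  generalize X.w (ow A (llab o) P) (llab o) = w1 at *
  generalize X.N (ow A (llab o) 0) = n0 at *
  generalize X.N (ow A (llab o) P) = n1 at *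
  have d : 0 ≤ X.δ / 4 := by positivity
  have k1 : w0 ≤ (1 + X.δ / 4) * w1 := by nlinarith [mul_le_mul_of_nonneg_left c1 d]
  have k2 : w1 ≤ (1 + X.δ / 4) * w0 := by nlinarith [mul_le_mul_of_nonneg_left c0 d]
  have k3 : n1 ≤ (1 + X.δ / 4) * n0 := by nlinarith [mul_le_mul_of_nonneg_left b0 d]
  have k4 : n0 ≤ (1 + X.δ / 4) * n1 := by nlinarith [mul_le_mul_of_nonneg_left b1 d]
  have k5 : (1 + X.δ / 4) * (1 + X.δ / 4) ≤ 1 + X.δ := by nlinarith
  have p0 : 0 < n0 := by linarith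
  have p1 : 0 < n1 := by linarith
  have q0 : 0 ≤ w0 := by linarith
  have q1 : 0 ≤ w1 := by linarith
  constructor
  · rw [← mul_div_assoc, div_le_div_iff₀ p0 p1]
    calc w0 * n1 ≤ (1 + X.δ / 4) * w1 * ((1 + X.δ / 4) * n0) :=
          mul_le_mul k1 k3 p1.le (by positivity)
      _ = (1 + X.δ / 4) * (1 + X.δ / 4) * (w1 * n0) := by ring
      _ ≤ (1 + X.δ) * (w1 * n0) := mul_le_mul_of_nonneg_right k5 (by positivity)
      _ = _ := by ring
  · rw [← mul_div_assoc, div_le_div_iff₀ p1 p0]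
    have k6 : w1 * n0 ≤ (1 + X.δ) * (w0 * n1) :=
      calc w1 * n0 ≤ (1 + X.δ / 4) * w0 * ((1 + X.δ / 4) * n1) :=
            mul_le_mul k2 k4 p0.le (by positivity)
        _ = (1 + X.δ / 4) * (1 + X.δ / 4) * (w0 * n1) := by ring
        _ ≤ _ := mul_le_mul_of_nonneg_right k5 (by positivity)
    have k7 := mul_le_mul_of_nonneg_left k6 (by linarith : 0 ≤ 1 - X.δ)
    have k8 : 0 ≤ X.δ * X.δ * (w0 * n1) := by positivity
    nlinarith

end AC

end NE
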