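import Pool.Agent.Lib.MP_ecee09_co.NE.Cells

/-! Exact tilings by coordinate cells, uniform pull-backs, independence. -/

namespace NE

open SD (F sm av ind cnt Tame)

section two
variable {X Y : Type}

private lemma cv_equiv (e : X ≃ Y) (f : Y → ℂ) : cav (fun x => f (e x)) = cav f := by
  simp only [cav, Nat.card_congr e]; rw [finsum_comp_equiv e]

variable [Finite X] [Finite Y]

private lemma cv_prod (f : X × Y → ℂ) : cav f = cav fun x => cav fun y => f (x, y) := by
  let _ := Fintype.ofFinite X; let _ := Fintype.ofFinite Y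
  simp only [cav, finsum_eq_sum_of_fintype, Nat.card_prod, Fintype.sum_prod_type,
    ← Finset.sum_div]
  push_cast; ring

private lemma cv_const [Nonempty X] (c : ℂ) : cav (fun _ : X => c) = c := by
  let _ := Fintype.ofFinite X
  have : (Nat.card X : ℂ) ≠ 0 := by exact_mod_cast Nat.card_pos.ne'
  simp only [cav, finsum_eq_sum_of_fintype, Finset.sum_const, Finset.card_univ,
    ← Nat.card_eq_fintype_card, nsmul_eq_mul]
  field_simp

private lemma cv_mul (f : X → ℂ) (g : Y → ℂ) :
    cav f * cav g = cav fun x => cav fun y => f x * g y := by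
  let _ := Fintype.ofFinite X; let _ := Fintype.ofFinite Y
  simp only [cav, finsum_eq_sum_of_fintype, ← Finset.mul_sum, mul_div_assoc,
    ← Finset.sum_mul]
  ring

/-- change of variables by an involution of a product -/
lemma av_invol (a : X → Y → X) (b : X → Y → Y) (ha : ∀ x y, a (a x y) (b x y) = x)
    (hb : ∀ x y, b (a x y) (b x y) = y) (G : X → Y → ℝ) :
    av (fun x => av fun y => G (a x y) (b x y)) = av fun x => av fun y => G x y := by
  have h := SD.av_equiv (Function.Involutive.toPerm (fun p : X × Y => (a p.1 p.2, b p.1 p.2))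
    fun p => Prod.ext (ha _ _) (hb _ _)) fun p => G p.1 p.2
  rw [SD.av_prod, SD.av_prod] at h
  exact h

lemma cav_invol (a : X → Y → X) (b : X → Y → Y) (ha : ∀ x y, a (a x y) (b x y) = x)
    (hb : ∀ x y, b (a x y) (b x y) = y) (G : X → Y → ℂ) :
    cav (fun x => cav fun y => G (a x y) (b x y)) = cav fun x => cav fun y => G x y := by
  have h := cv_equiv (Function.Involutive.toPerm (fun p : X × Y => (a p.1 p.2, b p.1 p.2))
    fun p => Prod.ext (ha _ _) (hb _ _)) fun p => G p.1 p.2
  rw [cv_prod, cv_prod] at h
  exact h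

/-- independence through a mixing map: `f` sees the first argument, `g` the second -/
lemma av_mul_of_mix [Nonempty X] (m : X → X → X) (hm : ∀ x y, m (m x y) (m y x) = x)
    {f g : X → ℝ} (hf : ∀ x y, f (m x y) = f x) (hg : ∀ x y, g (m x y) = g y) :
    av (fun x => f x * g x) = av f * av g := by
  have h := av_invol m (fun x y => m y x) hm (fun x y => hm y x) fun x _ => f x * g x
  simp only [hf, hg, SD.av_const] at h
  rw [SD.av_mul_av, h]

lemma cav_mul_of_mix [Nonempty X] (m : X → X → X) (hm : ∀ x y, m (m x y) (m y x) = x)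
    {f g : X → ℂ} (hf : ∀ x y, f (m x y) = f x) (hg : ∀ x y, g (m x y) = g y) :
    cav (fun x => f x * g x) = cav f * cav g := by
  have h := cav_invol m (fun x y => m y x) hm (fun x y => hm y x) fun x _ => f x * g x
  simp only [hf, hg, cv_const] at h
  rw [cv_mul, h]

/-- resampling through a mixing map keeps the uniform law -/
lemma av_mix [Nonempty X] (m : X → X → X) (hm : ∀ x y, m (m x y) (m y x) = x) (g : X → ℝ) :
    av (fun x => av fun y => g (m x y)) = av g := by
  have h := av_invol m (fun x y => m y x) hm (fun x y => hm y x) fun x _ => g x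
  simpa only [SD.av_const] using h

lemma cav_mix [Nonempty X] (m : X → X → X) (hm : ∀ x y, m (m x y) (m y x) = x) (g : X → ℂ) :
    cav (fun x => cav fun y => g (m x y)) = cav g := by
  have h := cav_invol m (fun x y => m y x) hm (fun x y => hm y x) fun x _ => g x
  simpa only [cv_const] using h

end two

section dep
variable {α β R : Type}

/-- `f` depends only on the coordinates in `S` -/
def DepOn (S : Set α) (f : (α → β) → R) : Prop := ∀ x y, (∀ c ∈ S, x c = y c) → f x = f y

lemma DepOn.mono {S T : Set α} {f : (α → β) → R} (h : DepOn S f) (hST : S ⊆ T) : DepOn T f :=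
  fun x y e => h x y fun c hc => e c (hST hc)

open Classical in
/-- take `x` on `S` and `y` elsewhere -/
noncomputable def mixS (S : Set α) (x y : α → β) : α → β := fun c => if c ∈ S then x c else y c

lemma mix_mem {S : Set α} (x y : α → β) {c : α} (h : c ∈ S) : mixS S x y c = x c := if_pos h

lemma mix_not_mem {S : Set α} (x y : α → β) {c : α} (h : c ∉ S) : mixS S x y c = y c := if_neg h

lemma mix_mix (S : Set α) (x y : α → β) : mixS S (mixS S x y) (mixS S y x) = x := by
  funext c
  by_cases h : c ∈ S
  · rw [mix_mem _ _ h, mix_mem _ _ h]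
  · rw [mix_not_mem _ _ h, mix_not_mem _ _ h]

lemma DepOn.mix_left {S : Set α} {f : (α → β) → R} (h : DepOn S f) (x y : α → β) :
    f (mixS S x y) = f x := h _ _ fun _ hc => mix_mem _ _ hc

lemma DepOn.mix_right {S T : Set α} {f : (α → β) → R} (h : DepOn T f) (hd : Disjoint S T)
    (x y : α → β) : f (mixS S x y) = f y :=
  h _ _ fun _ hc => mix_not_mem _ _ fun hs => Set.disjoint_left.1 hd hs hc

variable [Finite α] [Finite β] [Nonempty β]

/-- functions of disjoint sets of coordinates are independent -/
lemma av_mul_dep {S T : Set α} (hd : Disjoint S T) {f g : (α → β) → ℝ} (hf : DepOn S f)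
    (hg : DepOn T g) : av (fun x => f x * g x) = av f * av g :=
  av_mul_of_mix (mixS S) (mix_mix S) hf.mix_left (hg.mix_right hd)

lemma cav_mul_dep {S T : Set α} (hd : Disjoint S T) {f g : (α → β) → ℂ} (hf : DepOn S f)
    (hg : DepOn T g) : cav (fun x => f x * g x) = cav f * cav g :=
  cav_mul_of_mix (mixS S) (mix_mix S) hf.mix_left (hg.mix_right hd)

lemma av_prod_dep {ι : Type} (s : Finset ι) (S : ι → Set α) (f : ι → (α → β) → ℝ)
    (hd : ∀ i ∈ s, ∀ j ∈ s, i ≠ j → Disjoint (S i) (S j)) (hf : ∀ i ∈ s, DepOn (S i) (f i)) :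
    av (fun x => ∏ i ∈ s, f i x) = ∏ i ∈ s, av (f i) := by
  classical
  induction s using Finset.induction_on with
  | empty => simp [SD.av_const]
  | insert a s ha ih =>
    simp only [Finset.prod_insert ha]
    rw [← ih (fun i hi j hj => hd i (Finset.mem_insert_of_mem hi) j (Finset.mem_insert_of_mem hj))
      fun i hi => hf i (Finset.mem_insert_of_mem hi)]
    refine av_mul_dep (T := (S a)ᶜ) disjoint_compl_right (hf a (Finset.mem_insert_self _ _))
      fun x y e => Finset.prod_congr rfl fun i hi => hf i (Finset.mem_insert_of_mem hi) x y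
        fun c hc => e c fun hc' => Set.disjoint_left.1 (hd i (Finset.mem_insert_of_mem hi) a
          (Finset.mem_insert_self _ _) fun h => ha (h ▸ hi)) hc hc'

lemma cav_prod_dep {ι : Type} (s : Finset ι) (S : ι → Set α) (f : ι → (α → β) → ℂ)
    (hd : ∀ i ∈ s, ∀ j ∈ s, i ≠ j → Disjoint (S i) (S j)) (hf : ∀ i ∈ s, DepOn (S i) (f i)) :
    cav (fun x => ∏ i ∈ s, f i x) = ∏ i ∈ s, cav (f i) := by
  classical
  induction s using Finset.induction_on with
  | empty => simp [cv_const]
  | insert a s ha ih =>
    simp only [Finset.prod_insert ha]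
    rw [← ih (fun i hi j hj => hd i (Finset.mem_insert_of_mem hi) j (Finset.mem_insert_of_mem hj))
      fun i hi => hf i (Finset.mem_insert_of_mem hi)]
    refine cav_mul_dep (T := (S a)ᶜ) disjoint_compl_right (hf a (Finset.mem_insert_self _ _))
      fun x y e => Finset.prod_congr rfl fun i hi => hf i (Finset.mem_insert_of_mem hi) x y
        fun c hc => e c fun hc' => Set.disjoint_left.1 (hd i (Finset.mem_insert_of_mem hi) a
          (Finset.mem_insert_self _ _) fun h => ha (h ▸ hi)) hc hc'

/-- the probability that a uniform function agrees with `y` on `S` -/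
lemma av_agree (S : Set α) (y : α → β) :
    av (fun x : α → β => ind (∀ c ∈ S, x c = y c)) = ((Nat.card β : ℝ) ^ S.ncard)⁻¹ := by
  classical
  let _ := Fintype.ofFinite α
  have h1 : ∀ x : α → β, ind (∀ c ∈ S, x c = y c) = ∏ c, ind (c ∈ S → x c = y c) :=
    fun x => SD.ind_forall _
  simp only [h1]
  rw [← SD.prod_av fun c (b : β) => ind (c ∈ S → b = y c)]
  have h2 : ∀ c, av (fun b : β => ind (c ∈ S → b = y c)) =
      if c ∈ S then (Nat.card β : ℝ)⁻¹ else 1 := by
    intro c
    by_cases hc : c ∈ S
    · have := SD.av_ind_eq (y c) fun _ : β => (1 : ℝ)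
      simp only [mul_one, one_div] at this
      simp only [hc, true_imp_iff, if_true, this]
    · simp only [hc, false_imp_iff, if_false, SD.ind_pos trivial, SD.av_const]
  simp only [h2]
  rw [Finset.prod_ite, Finset.prod_const_one, mul_one, Finset.prod_const, inv_pow,
    Set.ncard_eq_toFinset_card' S, Set.toFinset, ← Set.toFinset]
  congr 2
  simp

end dep

section depE
variable {I E R : Type}

/-- `f` depends only on the group coordinates in `T` and on the pairs in `S` -/
def DepE (T : Set I) (S : Set (Sym2 I)) (f : OmE E I → R) : Prop :=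
  ∀ x y : OmE E I, (∀ i ∈ T, x.1 i = y.1 i) → (∀ c ∈ S, x.2 c = y.2 c) → f x = f y

noncomputable def mixE (T : Set I) (S : Set (Sym2 I)) (x y : OmE E I) : OmE E I :=
  (mixS T x.1 y.1, mixS S x.2 y.2)

lemma mixE_mixE (T : Set I) (S : Set (Sym2 I)) (x y : OmE E I) :
    mixE T S (mixE T S x y) (mixE T S y x) = x := Prod.ext (mix_mix _ _ _) (mix_mix _ _ _)

variable [Finite I] [Finite E] [Nonempty E]

lemma av_mul_depE {T T' : Set I} {S S' : Set (Sym2 I)} (hT : Disjoint T T') (hS : Disjoint S S')
    {f g : OmE E I → ℝ} (hf : DepE T S f) (hg : DepE T' S' g) :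
    av (fun x => f x * g x) = av f * av g :=
  av_mul_of_mix (mixE T S) (mixE_mixE T S)
    (fun _ _ => hf _ _ (fun _ h => mix_mem _ _ h) fun _ h => mix_mem _ _ h)
    fun _ _ => hg _ _ (fun _ h => mix_not_mem _ _ fun h' => Set.disjoint_left.1 hT h' h)
      fun _ h => mix_not_mem _ _ fun h' => Set.disjoint_left.1 hS h' h

lemma cav_mul_depE {T T' : Set I} {S S' : Set (Sym2 I)} (hT : Disjoint T T') (hS : Disjoint S S')
    {f g : OmE E I → ℂ} (hf : DepE T S f) (hg : DepE T' S' g) :
    cav (fun x => f x * g x) = cav f * cav g :=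
  cav_mul_of_mix (mixE T S) (mixE_mixE T S)
    (fun _ _ => hf _ _ (fun _ h => mix_mem _ _ h) fun _ h => mix_mem _ _ h)
    fun _ _ => hg _ _ (fun _ h => mix_not_mem _ _ fun h' => Set.disjoint_left.1 hT h' h)
      fun _ h => mix_not_mem _ _ fun h' => Set.disjoint_left.1 hS h' h

end depE

section tile
variable {I K E : Type} [Finite I] [Finite K] {ι : K → I}

/-- exchange the pattern on a coordinate cell with an independent one -/
lemma av_swap_crd (h : Function.Injective ι) (G : Om I → Om K → ℝ) :
    av (fun A => av fun P => G (ow A (crd ι) P) (pb ι A)) = av fun A => av fun P => G A P :=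
  av_invol (fun A P => ow A (crd ι) P) (fun A _ => pb ι A)
    (fun A P => by rw [ow_ow, ow_crd_pb h]) (fun A P => pb_ow_crd h A P) G

lemma cav_swap_crd (h : Function.Injective ι) (G : Om I → Om K → ℂ) :
    cav (fun A => cav fun P => G (ow A (crd ι) P) (pb ι A)) = cav fun A => cav fun P => G A P :=
  cav_invol (fun A P => ow A (crd ι) P) (fun A _ => pb ι A)
    (fun A P => by rw [ow_ow, ow_crd_pb h]) (fun A P => pb_ow_crd h A P) G

/-- exact tiling of `Om I` -/
lemma av_ow_crd (h : Function.Injective ι) (g : Om I → ℝ) :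
    av (fun A => av fun P => g (ow A (crd ι) P)) = av g := by
  simpa only [SD.av_const] using av_swap_crd h fun A _ => g A

lemma cav_ow_crd (h : Function.Injective ι) (g : Om I → ℂ) :
    cav (fun A => cav fun P => g (ow A (crd ι) P)) = cav g := by
  simpa only [cv_const] using cav_swap_crd h fun A _ => g A

/-- the pull-back of a uniform pattern is uniform -/
lemma av_pb (h : Function.Injective ι) (g : Om K → ℝ) : av (fun A : Om I => g (pb ι A)) = av g := by
  simpa only [SD.av_const] using av_swap_crd h fun _ P => g P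

lemma cav_pb (h : Function.Injective ι) (g : Om K → ℂ) :
    cav (fun A : Om I => g (pb ι A)) = cav g := by
  simpa only [cv_const] using cav_swap_crd h fun _ P => g P

/-- a function of the point and of its pattern on the cell -/
lemma av_ow_pb (h : Function.Injective ι) (G : Om I → Om K → ℝ) :
    av (fun A => av fun P => G (ow A (crd ι) P) P) = av fun A => G A (pb ι A) := by
  rw [← av_ow_crd h fun A => G A (pb ι A)]
  simp only [pb_ow_crd h]

lemma cav_ow_pb (h : Function.Injective ι) (G : Om I → Om K → ℂ) :
    cav (fun A => cav fun P => G (ow A (crd ι) P) P) = cav fun A => G A (pb ι A) := by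
  rw [← cav_ow_crd h fun A => G A (pb ι A)]
  simp only [pb_ow_crd h]

variable [AddCommGroup E] [Finite E]

lemma av_swap_cell (h : Function.Injective ι) (G : OmE E I → OmE E K → ℝ) :
    av (fun x => av fun y => G (cell x (crd ι) y) (-y.1, pb ι x.2)) =
      av fun x => av fun y => G x y :=
  av_invol (fun x y => cell x (crd ι) y) (fun x y => (-y.1, pb ι x.2))
    (fun x y => by rw [cell_cell, add_neg_cancel, cell_crd_self h])
    (fun x y => Prod.ext (neg_neg _) (pb_ow_crd h x.2 y.2)) G

lemma cav_swap_cell (h : Function.Injective ι) (G : OmE E I → OmE E K → ℂ) :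
    cav (fun x => cav fun y => G (cell x (crd ι) y) (-y.1, pb ι x.2)) =
      cav fun x => cav fun y => G x y :=
  cav_invol (fun x y => cell x (crd ι) y) (fun x y => (-y.1, pb ι x.2))
    (fun x y => by rw [cell_cell, add_neg_cancel, cell_crd_self h])
    (fun x y => Prod.ext (neg_neg _) (pb_ow_crd h x.2 y.2)) G

/-- exact tiling of `OmE E I` -/
lemma av_cell_crd (h : Function.Injective ι) (g : OmE E I → ℝ) :
    av (fun x => av fun y => g (cell x (crd ι) y)) = av g := by
  simpa only [SD.av_const] using av_swap_cell h fun x _ => g x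

lemma cav_cell_crd (h : Function.Injective ι) (g : OmE E I → ℂ) :
    cav (fun x => cav fun y => g (cell x (crd ι) y)) = cav g := by
  simpa only [cv_const] using cav_swap_cell h fun x _ => g x

omit [Finite K] in
/-- the shift of a cell is absorbed by the base point, for any label -/
lemma av_cell_shift (Φ : Lab I K) (y : OmE E K) (g : OmE E I → ℝ) :
    av (fun x => g (cell x Φ y)) = av fun x : OmE E I => g (x.1, ow x.2 Φ y.2) := by
  rw [SD.av_prod, SD.av_prod, SD.av_comm, SD.av_comm fun b A => g (b, ow A Φ y.2)]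
  exact SD.av_congr fun A => SD.av_add_right (fun b => g (b, ow A Φ y.2)) _

omit [Finite I] [Finite K] [Finite E] in
lemma cav_cell_shift (Φ : Lab I K) (y : OmE E K) (g : OmE E I → ℂ) :
    cav (fun x => g (cell x Φ y)) = cav fun x : OmE E I => g (x.1, ow x.2 Φ y.2) :=
  cv_equiv (Equiv.addRight ((spr y.1 Φ, 0) : OmE E I)) (fun x => g (x.1, ow x.2 Φ y.2)) ▸ by
    simp [cell]

end tile

end NE
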