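import Pool.Agent.Lib.MP_ecee09_co.NE.Stmts4
import Pool.Agent.Lib.MP_ecee09_co.NE.PL
import Pool.Agent.Lib.MP_ecee09_co.NE.CellT
import Pool.Agent.Lib.MP_ecee09_co.NE.CBase

/-! Worlds: part patterns, densities, planting. -/

namespace NE

open SD (F sm av ind cnt Tame)

section basic
variable {I K L U : Type}

/-- the planted pairs -/
def pdom (σ : PP I) : Set (Sym2 I) := {c | σ c ≠ none}

/-- union of two part patterns, the first one wins -/
def orP (σ σ' : PP I) : PP I := fun c => (σ c).or (σ' c)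

lemma ovr_some {A : Om I} {σ : PP I} {c : Sym2 I} {a : F} (h : σ c = some a) : ovr A σ c = a := by
  unfold ovr; rw [h]; rfl

lemma ovr_free {A : Om I} {σ : PP I} {c : Sym2 I} (h : σ c = none) : ovr A σ c = A c := by
  unfold ovr; rw [h]; rfl

lemma ovr_none (A : Om I) : ovr A (fun _ => none) = A := rfl

lemma ovr_ovr (A : Om I) (σ : PP I) : ovr (ovr A σ) σ = ovr A σ := by
  funext c
  cases h : σ c with
  | none => rw [ovr_free h]
  | some a => rw [ovr_some h, ovr_some h]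

lemma ovr_orP (A : Om I) (σ σ' : PP I) : ovr A (orP σ σ') = ovr (ovr A σ') σ := by
  funext c
  unfold ovr orP
  cases σ c <;> rfl

lemma ovr_ovr_of_le (A : Om I) {σ σ' : PP I} (h : pdom σ' ⊆ pdom σ) :
    ovr (ovr A σ') σ = ovr A σ := by
  funext c
  cases hc : σ c with
  | none =>
    rw [ovr_free hc, ovr_free hc, ovr_free]
    by_contra h'
    exact h h' hc
  | some a => rw [ovr_some hc, ovr_some hc]

lemma ovr_comm (A : Om I) {σ σ' : PP I} (h : Disjoint (pdom σ) (pdom σ')) :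
    ovr (ovr A σ') σ = ovr (ovr A σ) σ' := by
  funext c
  cases hc : σ c with
  | none =>
    cases hc' : σ' c with
    | none => rw [ovr_free hc, ovr_free hc', ovr_free hc', ovr_free hc]
    | some a => rw [ovr_free hc, ovr_some hc', ovr_some hc']
  | some a =>
    have hc' : σ' c = none := by
      by_contra h'
      exact Set.disjoint_left.1 h (show σ c ≠ none by simp [hc]) h'
    rw [ovr_some hc, ovr_free hc', ovr_some hc]

lemma ovr_eq_iff (A : Om I) (σ : PP I) : ovr A σ = A ↔ ∀ c a, σ c = some a → A c = a := by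
  refine ⟨fun h c a hc => ?_, fun h => funext fun c => ?_⟩
  · rw [← h, ovr_some hc]
  · cases hc : σ c with
    | none => exact ovr_free hc
    | some a => rw [ovr_some hc, h c a hc]

lemma ow_eq_ovr (A : Om I) (Φ : Lab I K) (P : Om K) : ow A Φ P = ovr A (bl Φ (ful P)) := by
  funext c
  unfold ow ovr bl ful
  cases lab2 Φ c <;> rfl

lemma bl_lcomp (Φ : Lab I K) (Ψ : Lab K L) (Q : PP L) : bl (lcomp Φ Ψ) Q = bl Φ (bl Ψ Q) := by
  funext c
  unfold bl
  rw [lab2_lcomp, Option.bind_assoc]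

lemma bl_some {Φ : Lab I K} (Q : PP K) {i j : I} {k l : K} (hi : Φ i = some k)
    (hj : Φ j = some l) : bl Φ Q s(i, j) = Q s(k, l) := by
  unfold bl; rw [lab2_some hi hj]; rfl

lemma bl_none_left {Φ : Lab I K} (Q : PP K) {i : I} (hi : Φ i = none) (j : I) :
    bl Φ Q s(i, j) = none := by
  unfold bl; rw [lab2_none_left hi]; rfl

lemma bl_none (Φ : Lab I K) : bl Φ (fun _ => none) = fun _ => none := by
  funext c
  unfold bl
  cases lab2 Φ c <;> rfl

lemma bl_crd_map {ι : U → I} (h : Function.Injective ι) (π : PP U) (d : Sym2 U) :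
    bl (crd ι) π (Sym2.map ι d) = π d := by
  unfold bl; rw [lab2_crd_map h]; rfl

lemma bl_crd_mk {ι : U → I} (h : Function.Injective ι) (π : PP U) (a b : U) :
    bl (crd ι) π s(ι a, ι b) = π s(a, b) := bl_crd_map h π s(a, b)

lemma bl_crd_off {ι : U → I} (h : Function.Injective ι) (π : PP U) {i : I}
    (hi : i ∉ Set.range ι) (j : I) : bl (crd ι) π s(i, j) = none := bl_none_left π ((crd_eq_none h).2 hi) j

lemma pdom_bl (Φ : Lab I K) (Q : PP K) : pdom (bl Φ Q) ⊆ ins Φ := fun c hc h => hc (by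
  unfold bl; rw [h]; rfl)

lemma pdom_bl_ful (Φ : Lab I K) (P : Om K) : pdom (bl Φ (ful P)) = ins Φ := by
  ext c
  change (lab2 Φ c).bind (ful P) ≠ none ↔ lab2 Φ c ≠ none
  cases lab2 Φ c <;> simp [ful]

lemma pdom_bl_crd {ι : U → I} (h : Function.Injective ι) (π : PP U) :
    pdom (bl (crd ι) π) = Sym2.map ι '' pdom π := by
  ext c
  constructor
  · intro hc
    obtain ⟨d, hd⟩ := Option.ne_none_iff_exists'.1 (pdom_bl _ _ hc)
    obtain rfl := (lab2_crd_eq_some h).1 hd
    exact ⟨d, by rw [pdom, Set.mem_ofPred_eq, bl_crd_map h] at hc; exact hc, rfl⟩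
  · rintro ⟨d, hd, rfl⟩
    rw [pdom, Set.mem_ofPred_eq, bl_crd_map h]
    exact hd

lemma disj_bl {Φ : Lab I K} {Ψ : Lab I L} (h : ∀ i, Φ i = none ∨ Ψ i = none) (Q : PP K)
    (Q' : PP L) : Disjoint (pdom (bl Φ Q)) (pdom (bl Ψ Q')) := by
  refine Disjoint.mono (pdom_bl _ _) (pdom_bl _ _) ?_
  by_contra h'
  obtain ⟨i, h1, h2⟩ := ins_meet h'
  exact (h i).elim h1 h2

/-- the blow-up of two patterns side by side -/
lemma bl_sumP {ι : K ⊕ L → I} (h : Function.Injective ι) (π : PP K) (π' : PP L) :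
    bl (crd ι) (sumP π π') =
      orP (bl (crd fun a => ι (.inl a)) π) (bl (crd fun a => ι (.inr a)) π') := by
  have h1 : Function.Injective fun a => ι (.inl a) := h.comp Sum.inl_injective
  have h2 : Function.Injective fun a => ι (.inr a) := h.comp Sum.inr_injective
  have n1 : ∀ b, ι (.inr b) ∉ Set.range fun a => ι (.inl a) := by
    rintro b ⟨a, ha⟩; cases h ha
  have n2 : ∀ a, ι (.inl a) ∉ Set.range fun b => ι (.inr b) := by
    rintro a ⟨b, hb⟩; cases h hb
  have off : ∀ i, i ∉ Set.range ι → ∀ j, bl (crd ι) (sumP π π') s(i, j) =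
      orP (bl (crd fun a => ι (.inl a)) π) (bl (crd fun a => ι (.inr a)) π') s(i, j) := by
    intro i hi j
    rw [orP, bl_crd_off h _ hi, bl_crd_off h1 _ (fun ⟨a, ha⟩ => hi ⟨_, ha⟩),
      bl_crd_off h2 _ (fun ⟨a, ha⟩ => hi ⟨_, ha⟩)]
    rfl
  funext c
  induction c using Sym2.ind with
  | _ i j =>
    by_cases hi : i ∈ Set.range ι
    swap
    · exact off i hi j
    by_cases hj : j ∈ Set.range ι
    swap
    · rw [Sym2.eq_swap]; exact off j hj i
    obtain ⟨a, rfl⟩ := hi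
    obtain ⟨b, rfl⟩ := hj
    rw [bl_crd_mk h, orP]
    rcases a with a | a <;> rcases b with b | b
    · rw [bl_crd_mk h1, bl_crd_off h2 _ (n2 a), Option.or_none]; rfl
    · rw [bl_crd_off h2 _ (n2 a), Sym2.eq_swap (a := ι (.inl a)), bl_crd_off h1 _ (n1 b)]; rfl
    · rw [bl_crd_off h1 _ (n1 a), Sym2.eq_swap (a := ι (.inr a)), bl_crd_off h2 _ (n2 b)]; rfl
    · rw [bl_crd_mk h2, bl_crd_off h1 _ (n1 a)]; rfl

/-- overwriting inside a cell -/
lemma ovr_ow (A : Om I) (Φ : Lab I K) (P : Om K) (Q : PP K) :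
    ovr (ow A Φ P) (bl Φ Q) = ow A Φ (ovr P Q) := by
  funext c
  unfold ovr ow bl
  cases lab2 Φ c <;> rfl

lemma pb_ovr_crd {ι : U → I} (h : Function.Injective ι) (A : Om I) (π : PP U) :
    pb ι (ovr A (bl (crd ι) π)) = ovr (pb ι A) π := by
  funext d
  unfold pb ovr
  rw [bl_crd_map h]

lemma jlab_eq {s : ℕ} {S : Type} (ι : (K × Fin s) ⊕ S ↪ I) (g : K × Fin s → Bool) :
    jlab ι g = lcomp (crd ι) (Sum.elim (tg g) fun _ => none) := by
  have h1 : Function.Injective fun a => ι (.inl a) := ι.injective.comp Sum.inl_injective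
  funext i
  by_cases hi : i ∈ Set.range ι
  · obtain ⟨a | b, rfl⟩ := hi
    · rw [lcomp_crd_apply ι.injective, jlab, lcomp_crd_apply h1]; rfl
    · rw [lcomp_crd_apply ι.injective, jlab, lcomp_of_none]
      · rfl
      · exact (crd_eq_none h1).2 fun ⟨a, ha⟩ => by cases ι.injective ha
  · rw [lcomp_of_none _ ((crd_eq_none ι.injective).2 hi), jlab,
      lcomp_of_none _ ((crd_eq_none h1).2 fun ⟨a, ha⟩ => hi ⟨_, ha⟩)]

lemma bl_jlab {s : ℕ} {S : Type} (ι : (K × Fin s) ⊕ S ↪ I) (g : K × Fin s → Bool) (Q : PP K) :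
    bl (jlab ι g) Q = bl (crd ι) (sumP (bl (tg g) Q) fun _ : Sym2 S => none) := by
  rw [bl_sumP ι.injective, bl_none, jlab, bl_lcomp]
  funext c
  exact Option.or_none.symm

lemma jlab_inr {s : ℕ} {S : Type} (ι : (K × Fin s) ⊕ S ↪ I) (g : K × Fin s → Bool) (b : S) :
    jlab ι g (ι (.inr b)) = none := by
  rw [jlab_eq, lcomp_crd_apply ι.injective]; rfl

lemma jlab_inl {s : ℕ} {S : Type} (ι : (K × Fin s) ⊕ S ↪ I) (g : K × Fin s → Bool)
    (u : K × Fin s) : jlab ι g (ι (.inl u)) = tg g u := by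
  rw [jlab_eq, lcomp_crd_apply ι.injective]; rfl

variable [Finite I]

lemma dens_nonneg (σ : PP I) (A : Om I) : 0 ≤ dens σ A := mul_nonneg (by positivity) (SD.ind_nonneg _)

lemma dens_le (σ : PP I) (A : Om I) : dens σ A ≤ 2 ^ (pdom σ).ncard := mul_le_of_le_one_right (by positivity) (SD.ind_le_one _)

lemma dens_bl_le {Φ : Lab I K} {B : ℕ} (h : {i | Φ i ≠ none}.ncard ≤ B) (Q : PP K) (A : Om I) :
    dens (bl Φ Q) A ≤ 2 ^ B ^ 2 := (dens_le _ A).trans (pow_le_pow_right₀ one_le_two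
    ((Set.ncard_le_ncard (pdom_bl Φ Q)).trans ((ins_card Φ).trans (Nat.pow_le_pow_left h 2))))

lemma dens_pos_iff (σ : PP I) (A : Om I) : 0 < dens σ A ↔ ovr A σ = A := by
  unfold dens
  by_cases h : ovr A σ = A
  · rw [SD.ind_pos h]; exact iff_of_true (by positivity) h
  · rw [SD.ind_neg h, mul_zero]; exact iff_of_false (lt_irrefl _) h

lemma dens_dep (σ : PP I) : Dep (pdom σ) (dens σ) := fun x x' h => by
  unfold dens
  congr 2
  rw [ovr_eq_iff, ovr_eq_iff]
  exact propext (forall₃_congr fun c a hc => by rw [h c (show σ c ≠ none by simp [hc])])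

lemma av_dens (σ : PP I) (f : Om I → ℝ) :
    av (fun A => dens σ A * f A) = av fun A => f (ovr A σ) := by
  have d1 : Dep (pdom σ)ᶜ fun A => f (ovr A σ) := fun x x' h => by
    refine congrArg f (funext fun c => ?_)
    cases hc : σ c with
    | none => rw [ovr_free hc, ovr_free hc, h c (not_not.2 hc)]
    | some a => rw [ovr_some hc, ovr_some hc]
  have h1 : av (dens σ) = 1 := by
    have : ∀ A : Om I, dens σ A = 2 ^ (pdom σ).ncard * ind (∀ c ∈ pdom σ, A c = ovr 0 σ c) := by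
      intro A
      unfold dens
      congr 2
      rw [ovr_eq_iff]
      refine propext ⟨fun h c hc => ?_, fun h c a hc => ?_⟩
      · obtain ⟨a, ha⟩ := Option.ne_none_iff_exists'.1 hc
        rw [h c a ha, ovr_some ha]
      · rw [h c (show σ c ≠ none by simp [hc]), ovr_some hc]
    rw [funext this, SD.av_mul_left, pl_agree, show Nat.card F = 2 from Nat.card_zmod 2,
      ← mul_pow]
    norm_num
  rw [← one_mul (av fun A => f (ovr A σ)), ← h1,
    ← pl_indep disjoint_compl_right (dens_dep σ) d1]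
  refine SD.av_congr fun A => ?_
  by_cases h : ovr A σ = A
  · rw [h]
  · simp only [dens, SD.ind_neg h, mul_zero, zero_mul]

lemma cav_dens (σ : PP I) (f : Om I → ℂ) :
    cav (fun A => (dens σ A : ℂ) * f A) = cav fun A => f (ovr A σ) := by
  apply Complex.ext
  · rw [cav_re, cav_re, ← av_dens σ fun A => (f A).re]
    simp only [Complex.re_ofReal_mul]
  · rw [cav_im, cav_im, ← av_dens σ fun A => (f A).im]
    simp only [Complex.im_ofReal_mul]

lemma av_densE {E : Type} [Finite E] (σ : PP I) (f : OmE E I → ℝ) :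
    av (fun x : OmE E I => dens σ x.2 * f x) = av fun x : OmE E I => f (x.1, ovr x.2 σ) := by
  rw [SD.av_prod, SD.av_prod]
  exact SD.av_congr fun b => av_dens σ fun A => f (b, A)

lemma av_dens_one (σ : PP I) : av (dens σ) = 1 := by
  simpa only [mul_one, SD.av_const] using av_dens σ fun _ => 1

lemma dens_orP {σ σ' : PP I} (h : Disjoint (pdom σ) (pdom σ')) (A : Om I) :
    dens (orP σ σ') A = dens σ A * dens σ' A := by
  have e : pdom (orP σ σ') = pdom σ ∪ pdom σ' := by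
    ext c
    simp only [pdom, orP, Set.mem_union, Set.mem_ofPred_eq]
    cases σ c <;> simp
  have e2 : ovr A (orP σ σ') = A ↔ ovr A σ = A ∧ ovr A σ' = A := by
    simp only [ovr_eq_iff]
    refine ⟨fun k => ⟨fun c a hc => k c a (by simp [orP, hc]), fun c a hc => k c a ?_⟩,
      fun k c a hc => ?_⟩
    · have : σ c = none := by
        by_contra h'
        exact Set.disjoint_left.1 h h' (show σ' c ≠ none by simp [hc])
      simp [orP, this, hc]
    · cases hs : σ c with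
      | none => exact k.2 c a (by simpa [orP, hs] using hc)
      | some b => exact k.1 c a (by simpa [orP, hs] using hc)
  change 2 ^ (pdom _).ncard * _ = 2 ^ (pdom _).ncard * _ * (2 ^ (pdom _).ncard * _)
  rw [e, Set.ncard_union_eq h, e2, SD.ind_and, pow_add]
  ring

lemma dens_ovr {σ σ' : PP I} (h : Disjoint (pdom σ) (pdom σ')) (A : Om I) :
    dens σ (ovr A σ') = dens σ A := dens_dep σ _ _ fun c hc => ovr_free (not_not.1 (Set.disjoint_left.1 h hc))

lemma dens_ow {σ : PP I} {Φ : Lab I K} (h : Disjoint (pdom σ) (ins Φ)) (A : Om I) (P : Om K) :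
    dens σ (ow A Φ P) = dens σ A := dens_dep σ _ _ fun c hc => ow_of_none (not_not.1 (Set.disjoint_left.1 h hc))

lemma supp_lcomp_crd [Finite U] (ι : U → I) (Ψ : Lab U K) :
    {i | lcomp (crd ι) Ψ i ≠ none}.ncard ≤ Nat.card U := by
  refine le_trans (Set.ncard_le_ncard (t := Set.range ι) fun i h => ?_) ?_
  · by_contra hi
    exact h (lcomp_of_none Ψ (dif_neg hi))
  · rw [← Set.image_univ, ← Set.ncard_univ]
    exact Set.ncard_image_le

lemma lcomp_crd_range {ι : U → I} {Ψ : Lab U K} {i : I} (h : lcomp (crd ι) Ψ i ≠ none) :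
    i ∈ Set.range ι := by
  by_contra hi
  exact h (lcomp_of_none Ψ (dif_neg hi))

variable [Finite K]

lemma plant_nonneg (Φ : Lab I K) (A : Om I) : 0 ≤ plant Φ A := SD.av_nonneg fun _ => dens_nonneg _ A

lemma plant_le {Φ : Lab I K} {B : ℕ} (h : {i | Φ i ≠ none}.ncard ≤ B) (A : Om I) :
    plant Φ A ≤ 2 ^ B ^ 2 := SD.av_le_const fun _ => dens_bl_le h _ A

lemma av_plant (Φ : Lab I K) (f : Om I → ℝ) :
    av (fun A => plant Φ A * f A) = av fun A => av fun P : Om K => f (ow A Φ P) := by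
  simp only [plant, ← SD.av_mul_right]
  rw [SD.av_comm, SD.av_comm fun A (P : Om K) => f (ow A Φ P)]
  exact SD.av_congr fun P => by simp only [av_dens, ow_eq_ovr]

lemma av_plantE {E : Type} [Finite E] (Φ : Lab I K) (f : OmE E I → ℝ) :
    av (fun x : OmE E I => plant Φ x.2 * f x) =
      av fun x : OmE E I => av fun P : Om K => f (x.1, ow x.2 Φ P) := by
  rw [SD.av_prod, SD.av_prod]
  exact SD.av_congr fun b => av_plant Φ fun A => f (b, A)

lemma av_plant_one (Φ : Lab I K) : av (plant Φ) = 1 := by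
  simpa only [mul_one, SD.av_const] using av_plant Φ fun _ => 1

lemma plant_pos_iff (Φ : Lab I K) (A : Om I) : 0 < plant Φ A ↔ ∃ P, ow A Φ P = A := by
  simp only [ow_eq_ovr, ← dens_pos_iff]
  refine ⟨fun h => (SD.exists_av_le fun P => dens (bl Φ (ful P)) A).imp fun P hP => h.trans_le hP,
    fun ⟨P, hP⟩ => div_pos (hP.trans_le ?_) SD.card_pos'⟩
  exact SD.single_le_sm (fun Q => dens_nonneg (bl Φ (ful Q)) A) P

lemma plant_dep (Φ : Lab I K) : Dep (ins Φ) (plant Φ) := fun x x' h =>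
  SD.av_congr fun P => dens_dep _ x x' (by rwa [pdom_bl_ful])

lemma plant_ow {Φ : Lab I K} (h : Good Φ) {A : Om I} (hA : 0 < plant Φ A) (P : Om K) :
    plant Φ (ow A Φ P) = plant Φ A := by
  have key : ∀ (A : Om I) (P : Om K),
      plant Φ (ow A Φ P) = 2 ^ (ins Φ).ncard / Nat.card (Om K) := fun A P => by
    rw [← SD.av_ind_eq P fun _ => (2 : ℝ) ^ (ins Φ).ncard]
    refine SD.av_congr fun Q => ?_
    change 2 ^ (pdom _).ncard * _ = _
    rw [pdom_bl_ful, ← ow_eq_ovr, mul_comm, SD.ind_congr ⟨h.ow_inj', fun e => by rw [e, ow_ow]⟩]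
  obtain ⟨Q, hQ⟩ := (plant_pos_iff Φ A).1 hA
  rw [key, ← hQ, key]

/-- on its support the density is the same for all points of all cells -/
lemma plant_ow_eq {Φ : Lab I K} (h : Good Φ) (A : Om I) (P : Om K) :
    plant Φ (ow A Φ P) = 2 ^ (ins Φ).ncard / Nat.card (Om K) := by
  rw [← SD.av_ind_eq P fun _ => (2 : ℝ) ^ (ins Φ).ncard]
  refine SD.av_congr fun Q => ?_
  change 2 ^ (pdom _).ncard * _ = _
  rw [pdom_bl_ful, ← ow_eq_ovr, mul_comm, SD.ind_congr ⟨h.ow_inj', fun e => by rw [e, ow_ow]⟩]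

lemma tile_ow {Φ : Lab I K} (h : Good Φ) {S : Om I → Prop} (h1 : ∀ A, S A → 0 < plant Φ A)
    (h2 : ∀ A P, S A → S (ow A Φ P)) : Tile (fun A (P : Om K) => ow A Φ P) S := fun A hA =>
  ⟨h.ow_inj A, (plant_pos_iff Φ A).1 (h1 A hA), fun P => ⟨h2 A P hA, by simp only [ow_ow]⟩⟩

lemma tile_cell {E : Type} [AddCommGroup E] {Φ : Lab I K} (h : Good Φ) {S : OmE E I → Prop}
    (h1 : ∀ x, S x → 0 < plant Φ x.2) (h2 : ∀ x y, S x → S (cell x Φ y)) :
    Tile (fun x (y : OmE E K) => cell x Φ y) S := by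
  intro x hx
  obtain ⟨P, hP⟩ := (plant_pos_iff Φ x.2).1 (h1 x hx)
  refine ⟨h.cell_inj x, ⟨(0, P), by simp only [cell, spr_zero, add_zero, hP]⟩,
    fun y => ⟨h2 x y hx, Set.ext fun w => ⟨?_, ?_⟩⟩⟩
  · rintro ⟨z, rfl⟩
    exact ⟨_, (cell_cell x Φ y z).symm⟩
  · rintro ⟨z, rfl⟩
    exact ⟨(z.1 - y.1, z.2), by simp only [cell_cell, add_sub_cancel]⟩

/-- second moment of the mean density -/
lemma plant_sq {O : Type} [Finite O] [Nonempty O] (Φ : O → Lab I K) {B : ℕ}
    (h : ∀ o, {i | Φ o i ≠ none}.ncard ≤ B) :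
    av (fun A => (av (fun o => plant (Φ o) A) - 1) ^ 2) ≤
      (2 ^ B ^ 2 + 1) ^ 2 * av fun o => av fun o' => ind (∃ i, Φ o i ≠ none ∧ Φ o' i ≠ none) := by
  refine (pl0 (fun o => ins (Φ o)) (fun A o => plant (Φ o) A) (C := 2 ^ B ^ 2)
    (fun o => plant_dep _) (fun o => av_plant_one _) fun A o => ?_).trans ?_
  · rw [abs_of_nonneg (plant_nonneg _ _)]; exact plant_le (h o) A
  · exact mul_le_mul_of_nonneg_left (SD.av_mono fun o => SD.av_mono fun o' =>
      SD.ind_mono ins_meet) (sq_nonneg _)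

lemma dens_sq {O : Type} [Finite O] [Nonempty O] (Φ : O → Lab I K) (Q : O → PP K) {B : ℕ}
    (h : ∀ o, {i | Φ o i ≠ none}.ncard ≤ B) :
    av (fun A => (av (fun o => dens (bl (Φ o) (Q o)) A) - 1) ^ 2) ≤
      (2 ^ B ^ 2 + 1) ^ 2 * av fun o => av fun o' => ind (∃ i, Φ o i ≠ none ∧ Φ o' i ≠ none) := by
  refine (pl0 (fun o => ins (Φ o)) (fun A o => dens (bl (Φ o) (Q o)) A) (C := 2 ^ B ^ 2)
    (fun o x x' e => dens_dep _ x x' fun c hc => e c (pdom_bl _ _ hc)) (fun o => av_dens_one _)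
    fun A o => ?_).trans ?_
  · rw [abs_of_nonneg (dens_nonneg _ _)]; exact dens_bl_le (h o) _ A
  · exact mul_le_mul_of_nonneg_left (SD.av_mono fun o => SD.av_mono fun o' =>
      SD.ind_mono ins_meet) (sq_nonneg _)

lemma av_fst_le {X G : Type} [Finite X] [Finite G] {f : X → ℝ} (h : ∀ x, 0 ≤ f x) :
    av (fun o : X × G => f o.1) ≤ av f := by
  rw [SD.av_prod]
  refine SD.av_mono fun x => ?_
  have := SD.av_mul_right (f x) fun _ : G => (1 : ℝ)
  simp only [one_mul] at this ⊢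
  rw [this]
  exact mul_le_of_le_one_left (h x) SD.av_one_le

/-- labels carried by independent embeddings rarely meet -/
lemma meet_le [Finite U] {G : Type} [Finite G] (Ψ : G → Lab U K) :
    (av fun o : (U ↪ I) × G => av fun o' : (U ↪ I) × G =>
      ind (∃ i, lcomp (crd o.1) (Ψ o.2) i ≠ none ∧ lcomp (crd o'.1) (Ψ o'.2) i ≠ none)) ≤
      (Nat.card U : ℝ) ^ 2 / Nat.card I := by
  rw [sq]
  refine le_trans ?_ (emb_meet (U := U) (U' := U) (I := I))
  refine le_trans (SD.av_mono fun o => ?_) (av_fst_le fun _ => SD.av_ind_nonneg _)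
  refine le_trans (SD.av_mono fun o' => SD.ind_mono ?_) (av_fst_le (G := G) fun _ => SD.ind_nonneg _)
  exact fun ⟨i, h1, h2⟩ => ⟨i, lcomp_crd_range h1, lcomp_crd_range h2⟩

/-- a random label rarely meets a given set -/
lemma hit_le [Finite U] {G : Type} [Finite G] (Ψ : G → Lab U K) (T : Set I) :
    (av fun o : (U ↪ I) × G => ind (∃ i ∈ T, lcomp (crd o.1) (Ψ o.2) i ≠ none)) ≤
      (Nat.card U : ℝ) * T.ncard / Nat.card I := by
  refine le_trans ?_ (emb_hit (U := U) T)
  refine le_trans (SD.av_mono fun o => SD.ind_mono ?_) (av_fst_le (G := G) fun _ => SD.ind_nonneg _)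
  rintro ⟨i, h1, h2⟩
  obtain ⟨u, rfl⟩ := lcomp_crd_range h2
  exact ⟨u, h1⟩

end basic

section worlds
variable {I K U U' S E : Type} [Finite I] [Finite U] [Finite U']

lemma EW_dens (π : PP U) (f : (U ↪ I) → Om I → ℝ) :
    EW π f = av fun ι : U ↪ I => av fun A => dens (bl (crd ι) π) A * f ι A :=
  SD.av_congr fun ι => (av_dens _ (f ι)).symm

omit [Finite I] [Finite U] in
lemma EW_none (f : (U ↪ I) → Om I → ℝ) :
    EW (fun _ => none) f = av fun ι : U ↪ I => av fun A => f ι A := by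
  simp only [EW, bl_none, ovr_none]

omit [Finite I] [Finite U] in
lemma EW_congr (π : PP U) {f g : (U ↪ I) → Om I → ℝ}
    (h : ∀ (ι : U ↪ I) A, ovr A (bl (crd ι) π) = A → f ι A = g ι A) : EW π f = EW π g :=
  SD.av_congr fun ι => SD.av_congr fun A => h ι _ (ovr_ovr A _)

lemma EW_mono (π : PP U) {f g : (U ↪ I) → Om I → ℝ}
    (h : ∀ (ι : U ↪ I) A, ovr A (bl (crd ι) π) = A → f ι A ≤ g ι A) : EW π f ≤ EW π g :=
  SD.av_mono fun ι => SD.av_mono fun A => h ι _ (ovr_ovr A _)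

lemma EW_add (π : PP U) (f g : (U ↪ I) → Om I → ℝ) :
    EW π (fun ι A => f ι A + g ι A) = EW π f + EW π g := by
  simp only [EW, SD.av_add]

lemma EW_mul_left (π : PP U) (c : ℝ) (f : (U ↪ I) → Om I → ℝ) :
    EW π (fun ι A => c * f ι A) = c * EW π f := by
  simp only [EW, SD.av_mul_left]

lemma EW_av {O : Type} [Finite O] (π : PP U) (f : O → (U ↪ I) → Om I → ℝ) :
    EW π (fun ι A => av fun o => f o ι A) = av fun o => EW π (f o) := by
  unfold EW
  rw [SD.av_comm fun (o : O) (ι : U ↪ I) => av fun A : Om I => f o ι (ovr A (bl (crd ι) π))]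
  exact SD.av_congr fun ι => SD.av_comm _

lemma EW_const (h : Nat.card U ≤ Nat.card I) (π : PP U) (c : ℝ) :
    EW π (fun (_ : U ↪ I) _ => c) = c := by
  have := nonempty_emb h
  simp only [EW, SD.av_const]

omit [Finite I] [Finite U] [Finite U'] in
lemma bl_crd_trans (j : U ↪ U') (ι : U' ↪ I) (π : PP U) :
    bl (crd (j.trans ι)) π = bl (crd ι) (bl (crd j) π) := by
  rw [← bl_lcomp, lcomp_crd ι.injective j.injective]
  rfl

omit [Finite U] [Finite U'] in
lemma bl_crd_equiv (e : U ≃ U') (π : PP U') : bl (crd e) (pbP e π) = π := by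
  funext c
  obtain ⟨d, rfl⟩ : ∃ d, Sym2.map e d = c :=
    ⟨Sym2.map e.symm c, by simp [Sym2.map_map]⟩
  exact bl_crd_map e.injective _ d

omit [Finite I] [Finite U] [Finite U'] in
/-- transport along a bijection of templates -/
lemma EW_equiv (e : U ≃ U') (π : PP U') (f : (U' ↪ I) → Om I → ℝ) :
    EW π f = EW (pbP e π) fun ι A => f (e.symm.toEmbedding.trans ι) A := by
  unfold EW
  rw [← SD.av_equiv (Equiv.embeddingCongr e.symm (Equiv.refl I))]
  refine SD.av_congr fun ι => SD.av_congr fun A => ?_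
  have e1 : Equiv.embeddingCongr e.symm (Equiv.refl I) ι = e.toEmbedding.trans ι :=
    Function.Embedding.ext fun _ => rfl
  have e2 : e.symm.toEmbedding.trans (e.toEmbedding.trans ι) = ι :=
    Function.Embedding.ext fun u => congrArg ι (e.apply_symm_apply u)
  beta_reduce
  rw [e1, e2, bl_crd_trans]
  exact congrArg (fun σ => f ι (ovr A (bl (crd ι) σ))) (bl_crd_equiv e π).symm

omit [Finite I] [Finite U] in
lemma EW_perm (e : Equiv.Perm U) (π : PP U) (h : pbP e π = π) (f : (U ↪ I) → Om I → ℝ) :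
    EW π f = EW π fun ι A => f (e.toEmbedding.trans ι) A := by
  have h' : pbP e.symm π = π := by
    funext c
    refine (congrFun h (Sym2.map e.symm c)).symm.trans (congrArg π ?_)
    simp [Sym2.map_map]
  have := EW_equiv e.symm π f
  rwa [h'] at this

/-- a world on a larger template in which nothing is planted at the new indices -/
lemma EW_ext (h : Nat.card U' ≤ Nat.card I) (j : U ↪ U') (π : PP U) (f : (U ↪ I) → Om I → ℝ) :
    EW (bl (crd j) π) (fun (ι : U' ↪ I) A => f (j.trans ι) A) = EW π f := by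
  have := nonempty_emb h
  unfold EW
  rw [← av_restrict j fun ι : U ↪ I => av fun A : Om I => f ι (ovr A (bl (crd ι) π))]
  simp only [bl_crd_trans]

lemma av_perm_meet (Z T : Set U) :
    (av fun e : Equiv.Perm U => ind (∃ z ∈ Z, e z ∈ T)) ≤
      (Z.ncard : ℝ) * T.ncard / Nat.card U := by
  have := emb_hit (U := Z) T
  rw [← av_perm (Function.Embedding.subtype _), Nat.card_coe_set_eq] at this
  refine le_trans (le_of_eq (SD.av_congr fun e => SD.ind_congr ?_)) this
  exact ⟨fun ⟨z, hz, h⟩ => ⟨⟨z, hz⟩, h⟩, fun ⟨z, h⟩ => ⟨z, z.2, h⟩⟩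

/-- two embeddings with disjoint ranges as one embedding of the sum -/
def joinE (ι : U ↪ I) (ι' : U' ↪ I) (h : ∀ a b, ι a ≠ ι' b) : U ⊕ U' ↪ I :=
  ⟨Sum.elim ι ι', ι.injective.sumElim ι'.injective h⟩

/-- two independent embeddings with disjoint ranges are one embedding of the sum -/
lemma join_eq (g : (U ↪ I) → (U' ↪ I) → ℝ) :
    (av fun ι : U ↪ I => av fun ι' : U' ↪ I => ind (∀ a b, ι a ≠ ι' b) * g ι ι') =
      (av fun ι : U ↪ I => av fun ι' : U' ↪ I => ind (∀ a b, ι a ≠ ι' b)) *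
        av fun ι : U ⊕ U' ↪ I =>
          g (Function.Embedding.inl.trans ι) (Function.Embedding.inr.trans ι) := by
  have key : ∀ G : (U ↪ I) → (U' ↪ I) → ℝ,
      (av fun ι : U ↪ I => av fun ι' : U' ↪ I => ind (∀ a b, ι a ≠ ι' b) * G ι ι') =
        (av fun ι : U ↪ I => av fun ι' : U' ↪ I => ind (∀ a b, ι a ≠ ι' b) *
          av fun σ : Equiv.Perm I => G (ι.trans σ.toEmbedding) (ι'.trans σ.toEmbedding)) := by
    intro G
    simp only [← SD.av_mul_left]
    symm
    rw [SD.av_congr fun ι : U ↪ I => SD.av_comm _, SD.av_comm,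
      ← SD.av_const (α := Equiv.Perm I) (av fun ι : U ↪ I => av fun ι' : U' ↪ I => _ * G ι ι')]
    refine SD.av_congr fun σ => ?_
    rw [← av_emb_perm σ fun ι : U ↪ I => av fun ι' : U' ↪ I => ind (∀ a b, ι a ≠ ι' b) * G ι ι']
    refine SD.av_congr fun ι => ?_
    rw [← av_emb_perm σ fun ι' : U' ↪ I =>
      ind (∀ a b, (ι.trans σ.toEmbedding) a ≠ ι' b) * G (ι.trans σ.toEmbedding) ι']
    refine SD.av_congr fun ι' => ?_
    congr 1
    exact SD.ind_congr (forall₂_congr fun a b => σ.injective.ne_iff.symm)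
  rw [key, ← SD.av_mul_right]
  refine SD.av_congr fun ι => ?_
  rw [← SD.av_mul_right]
  refine SD.av_congr fun ι' => ?_
  by_cases h : ∀ a b, ι a ≠ ι' b
  · rw [← av_perm (joinE ι ι' h)]
    rfl
  · rw [SD.ind_neg h, zero_mul, zero_mul]

lemma join_le (h : Nat.card U + Nat.card U' ≤ Nat.card I) (g : (U ↪ I) → (U' ↪ I) → ℝ) {C : ℝ}
    (hg : ∀ ι ι', |g ι ι'| ≤ C) :
    |(av fun ι : U ↪ I => av fun ι' : U' ↪ I => g ι ι') - av fun ι : U ⊕ U' ↪ I =>
      g (Function.Embedding.inl.trans ι) (Function.Embedding.inr.trans ι)| ≤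
      2 * C * (Nat.card U * Nat.card U' / Nat.card I) := by
  have n1 : Nonempty (U ↪ I) := nonempty_emb (by omega)
  have n2 : Nonempty (U' ↪ I) := nonempty_emb (by omega)
  have n3 : Nonempty (U ⊕ U' ↪ I) := nonempty_emb (by rwa [Nat.card_sum])
  have hC : 0 ≤ C := (abs_nonneg _).trans (hg (Classical.arbitrary _) (Classical.arbitrary _))
  set J := av fun ι : U ⊕ U' ↪ I =>
    g (Function.Embedding.inl.trans ι) (Function.Embedding.inr.trans ι) with hJ
  have hJC : |J| ≤ C := (SD.abs_av_le _).trans (SD.av_le_const fun _ => hg _ _)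
  have e : (av fun ι : U ↪ I => av fun ι' : U' ↪ I => g ι ι') - J =
      av fun ι : U ↪ I => av fun ι' : U' ↪ I =>
        (1 - ind (∀ a b, ι a ≠ ι' b)) * (g ι ι' - J) := by
    have := join_eq g
    rw [← hJ] at this
    simp only [sub_mul, mul_sub, one_mul, SD.av_sub, SD.av_const, SD.av_mul_right]
    linarith
  rw [e, mul_comm]
  refine (SD.abs_av_le _).trans (le_trans (SD.av_mono fun ι => (SD.abs_av_le _).trans
    (SD.av_mono (g := fun ι' : U' ↪ I => ind (∃ i, i ∈ Set.range ι ∧ i ∈ Set.range ι') * (2 * C))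
      fun ι' => ?_)) ?_)
  · by_cases h : ∀ a b, ι a ≠ ι' b
    · rw [SD.ind_pos h, sub_self, zero_mul, abs_zero]
      exact mul_nonneg (SD.ind_nonneg _) (by positivity)
    · rw [SD.ind_neg h, sub_zero, one_mul, SD.ind_pos, one_mul]
      · exact (abs_sub _ _).trans (by linarith [hg ι ι'])
      · push Not at h
        obtain ⟨a, b, h⟩ := h
        exact ⟨_, ⟨a, rfl⟩, b, h.symm⟩
  · simp only [SD.av_mul_right]
    exact mul_le_mul_of_nonneg_right emb_meet (by positivity)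

variable [Finite K] [Finite S] [Finite E] {s : ℕ}

lemma EP_eq (Q : PP K) (f : Lab I K → OmE E I → ℝ) :
    EP s Q f = av fun g : K × Fin s → Bool => EW (bl (tg g) Q) fun (ι : K × Fin s ↪ I) A =>
      av fun b : I → E => f (lcomp (crd ι) (tg g)) (b, A) := by
  unfold EP EW
  rw [SD.av_prod, SD.av_comm]
  refine SD.av_congr fun g => SD.av_congr fun ι => ?_
  rw [SD.av_prod, SD.av_comm, ← bl_lcomp]
  rfl

lemma EPS_eq (Q : PP K) (f : Lab I K → (S → I) → OmE E I → ℝ) :
    EPS s S Q f = av fun g : K × Fin s → Bool =>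
      EW (sumP (bl (tg g) Q) fun _ : Sym2 S => none) fun (ι : (K × Fin s) ⊕ S ↪ I) A =>
        av fun b : I → E => f (jlab ι g) (fun u => ι (.inr u)) (b, A) := by
  unfold EPS EW
  rw [SD.av_comm]
  refine SD.av_congr fun g => SD.av_congr fun ι => ?_
  rw [SD.av_prod, SD.av_comm, ← bl_jlab]

lemma EPM_eq (Q : PP K) (f : ((K × Fin s) ⊕ S ↪ I) → (K × Fin s → Bool) → OmE E I → ℝ) :
    EPM s S Q f = av fun g : K × Fin s → Bool =>
      EW (sumP (bl (tg fun _ : K × Fin s => true) Q) fun _ : Sym2 S => none)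
        fun (ι : (K × Fin s) ⊕ S ↪ I) A => av fun b : I → E => f ι g (b, A) := by
  unfold EPM EW
  rw [SD.av_comm]
  refine SD.av_congr fun g => SD.av_congr fun ι => ?_
  rw [SD.av_prod, SD.av_comm, ← bl_jlab]

lemma EP_dens (Q : PP K) (f : Lab I K → OmE E I → ℝ) :
    EP s Q f = av fun o : Pr K s I => av fun x : OmE E I =>
      dens (bl (prl o) Q) x.2 * f (prl o) x :=
  SD.av_congr fun o => (av_densE _ (f (prl o))).symm

lemma EP_mono (Q : PP K) {f g : Lab I K → OmE E I → ℝ} (h : ∀ Φ x, f Φ x ≤ g Φ x) :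
    EP s Q f ≤ EP s Q g :=
  SD.av_mono fun _ => SD.av_mono fun _ => h _ _

lemma EPS_mono (Q : PP K) {f g : Lab I K → (S → I) → OmE E I → ℝ}
    (h : ∀ Φ ι x, f Φ ι x ≤ g Φ ι x) : EPS s S Q f ≤ EPS s S Q g :=
  SD.av_mono fun _ => SD.av_mono fun _ => SD.av_mono fun _ => h _ _ _

lemma EPM_mono (Q : PP K) {f g : ((K × Fin s) ⊕ S ↪ I) → (K × Fin s → Bool) → OmE E I → ℝ}
    (h : ∀ ι z x, f ι z x ≤ g ι z x) : EPM s S Q f ≤ EPM s S Q g :=
  SD.av_mono fun _ => SD.av_mono fun _ => SD.av_mono fun _ => h _ _ _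

lemma eps_eq_ep (h : Nat.card K * s + Nat.card S ≤ Nat.card I) (Q : PP K)
    (f : Lab I K → OmE E I → ℝ) : EPS s S Q (fun Φ _ x => f Φ x) = EP s Q f := by
  have : Nonempty ((K × Fin s) ⊕ S ↪ I) := nonempty_emb (by simpa using h)
  unfold EP
  rw [SD.av_prod, ← av_restrict (U' := (K × Fin s) ⊕ S) Function.Embedding.inl]
  rfl

end worlds

end NE
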