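import Pool.Agent.Lib.MP_ecee09_co.NE.ALb
import Pool.Agent.Lib.MP_ecee09_co.NE.W0

/-! The abstract lattice freeze: the weight and its marginal. -/

namespace NE

open SD

variable {I K EE : Type} [AddCommGroup EE] [Finite I] [Finite K] [Finite EE] {L : LD I EE}

omit [AddCommGroup EE] [Finite EE] in
/-- an event at some point of the cell costs the size of the cell -/
lemma al_cell (Φ : Lab I K) (Z : Om I → Prop) :
    av (fun A => plant Φ A * ind (∃ P, Z (ow A Φ P))) ≤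
      Nat.card (Om K) * av fun A => plant Φ A * ind (Z A) := by
  rw [av_plant, av_plant, ← av_mul_left]
  refine av_mono fun A => ?_
  simp only [ow_ow]
  rw [av_const, ← sm_eq_card_mul_av]
  exact ind_exists_le _

namespace AC

variable (X : AC L K)

noncomputable def ψ1 (A : Om I) (o : LO K X.r X.J X.t I) : ℝ :=
  plant (llab o) A * ind (X.OK A (llab o)) *
    (X.w (ow A (llab o) 0) (llab o) / X.N (ow A (llab o) 0))

noncomputable def ψ2 (A : Om I) (ι : K ↪ I) : ℝ := ind (∀ P, X.R < L.kap (ow A (crd ι) P))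

/-- the bad events at one point -/
def Z (Φ : Lab I K) (A : Om I) : Prop :=
  ¬ QR X.u X.γ A ∨ (X.WG A ∧ (Good Φ ∧ L.Fp A Φ) ∧ X.Bad A Φ)

noncomputable def τ : ℝ :=
  Nat.card (Om K × (K → K → Ch EE)) * (2 * X.s / X.Fn + X.ε) / X.δ1 ^ 2

omit [Finite EE] in
lemma plant_w (A : Om I) :
    av (fun o : LO K X.r X.J X.t I => plant (llab o) A * X.w A (llab o)) = X.N A := by
  unfold N LD.NP plant
  rw [av_comm]
  exact av_congr fun o => (av_mul_right _ _).symm

lemma ψ1_nonneg (A : Om I) (o : LO K X.r X.J X.t I) : 0 ≤ X.ψ1 A o := by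
  unfold ψ1
  by_cases h : X.OK A (llab o)
  · have h0 := (h.2 0).1
    exact mul_nonneg (mul_nonneg (plant_nonneg _ _) (ind_nonneg _))
      (div_nonneg (X.hδ1.le.trans h0.2.2.2) (X.hcN.le.trans (X.N_low h0.1.1 h0.1.2.1)))
  · rw [ind_neg h, mul_zero, zero_mul]

omit [Finite EE] in
lemma ψ1_pos {A : Om I} {o : LO K X.r X.J X.t I} (h : X.ψ1 A o ≠ 0) :
    0 < plant (llab o) A ∧ X.OK A (llab o) := by
  unfold ψ1 at h
  refine ⟨(plant_nonneg _ _).lt_of_ne fun e => h (by rw [← e, zero_mul, zero_mul]), ?_⟩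
  by_contra g
  exact h (by rw [ind_neg g, mul_zero, zero_mul])

omit [Finite EE] in
lemma ψ1_ow {A : Om I} {o : LO K X.r X.J X.t I} (h : X.ψ1 A o ≠ 0) (P : Om K) :
    X.ψ1 (ow A (llab o) P) o = X.ψ1 A o := by
  obtain ⟨h1, h2⟩ := X.ψ1_pos h
  unfold ψ1
  rw [plant_ow h2.1 h1, ow_ow, ind_pos h2, ind_pos]
  exact ⟨h2.1, fun Q => by simpa only [ow_ow] using h2.2 Q⟩

lemma up [Nonempty (LO K X.r X.J X.t I)] (A : Om I) :
    av (X.ψ1 A) + av (X.ψ2 A) ≤ 1 + X.δ := by
  have hδ := X.hδ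
  by_cases h : ∃ o, X.ψ1 A o ≠ 0
  · obtain ⟨o0, ho⟩ := h
    obtain ⟨g1, g2⟩ := X.ψ1_pos ho
    obtain ⟨P0, e0⟩ := (plant_pos_iff _ _).1 g1
    have hw : X.WG A := e0 ▸ (g2.2 P0).1.1
    have hN := X.hcN.trans_le (X.N_low hw.1 hw.2.1)
    have h2 : av (X.ψ2 A) = 0 := by
      rw [← av_zero (α := K ↪ I)]
      refine av_congr fun ι => ind_neg fun g => ?_
      have := g (pb ι A)
      rw [ow_crd_pb ι.injective] at this
      exact absurd hw.1 (not_le.2 this)
    have h1 : av (X.ψ1 A) ≤ av fun o : LO K X.r X.J X.t I =>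
        (1 + X.δ) / X.N A * (plant (llab o) A * X.w A (llab o)) := av_mono fun o => by
      by_cases g : X.ψ1 A o = 0
      · rw [g]
        exact mul_nonneg (by positivity) (mul_nonneg (plant_nonneg _ _) (X.w_bd hw.2.1.bal _).1)
      · obtain ⟨g1, g2⟩ := X.ψ1_pos g
        obtain ⟨P, e⟩ := (plant_pos_iff _ _).1 g1
        have := (X.ratio o g2 P).1
        rw [e] at this
        unfold ψ1
        rw [ind_pos g2, mul_one]
        refine (mul_le_mul_of_nonneg_left this g1.le).trans_eq ?_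
        ring
    rw [av_mul_left, plant_w, div_mul_cancel₀ _ hN.ne'] at h1
    linarith
  · have h1 : av (X.ψ1 A) = 0 := by
      rw [← av_zero (α := LO K X.r X.J X.t I)]
      exact av_congr fun o => by_contra fun g => h ⟨o, g⟩
    have h2 : av (X.ψ2 A) ≤ 1 := av_ind_le_one _
    linarith

lemma bad_le [Nonempty (LO K X.r X.J X.t I)] (A : Om I) :
    av (fun o : LO K X.r X.J X.t I => plant (llab o) A *
      ind (X.WG A ∧ (Good (llab o) ∧ L.Fp A (llab o)) ∧ X.Bad A (llab o))) ≤ X.τ := by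
  have hF : (0 : ℝ) < X.Fn := lt_of_le_of_lt (by have := X.hs; positivity) X.e3
  have hd := pow_pos X.hδ1 2
  have hc : 0 ≤ 2 * X.s / X.Fn + X.ε := by have := X.hs; have := X.hε; positivity
  by_cases hw : X.WG A
  swap
  · rw [av_congr (g := fun _ => 0) fun o => by rw [ind_neg fun g => hw g.1, mul_zero], av_zero]
    unfold τ
    positivity
  have hb : Bal A := hw.2.1.bal
  have key : ∀ z : Om K × (K → K → Ch EE), av (fun o : LO K X.r X.J X.t I =>
      plant (llab o) A * ind (Good (llab o) ∧ ∀ a, yv (llab o) a ∈ L.V A) *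
        (ind (∃ a b, z.2 a b ∉ X.Lam A (z.1 s(b, b))) *
          ‖L.trm X.r X.J X.t A (X.w A) z.1 (llab o) z.2‖ ^ 2)) ≤ 2 * X.s / X.Fn + X.ε := by
    rintro ⟨P', l⟩
    by_cases g : ∃ a b, l a b ∉ X.Lam A (P' s(b, b))
    · obtain ⟨a, b, hab⟩ := id g
      simp only [ind_pos g, one_mul, plant, ← av_mul_right]
      rw [av_comm]
      refine av_le_const fun P => (X.bad A hw.2.1 P a P' l b (X.w A) fun Ψ =>
        ⟨(X.w_bd hb Ψ).1, (X.w_bd hb Ψ).2.1.trans (ind_mono fun q => ⟨q.1, q.2.1⟩)⟩).trans ?_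
      have := (hw.2.2 (P s(a, a)) _ _).2 hab
      rw [add_le_add_iff_right, le_div_iff₀ hF]
      linarith
    · simp only [ind_neg g, zero_mul, mul_zero, av_zero]
      exact hc
  unfold τ
  rw [le_div_iff₀ hd, ← av_mul_right, ← sm_const]
  refine le_trans ?_ (sm_mono key)
  rw [← av_sm_comm]
  refine av_mono fun o => ?_
  rw [sm_mul_left, mul_assoc, mul_assoc]
  refine mul_le_mul_of_nonneg_left ?_ (plant_nonneg _ _)
  have h0 : ∀ z : Om K × (K → K → Ch EE), 0 ≤ ind (∃ a b, z.2 a b ∉ X.Lam A (z.1 s(b, b))) *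
      ‖L.trm X.r X.J X.t A (X.w A) z.1 (llab o) z.2‖ ^ 2 := fun z =>
    mul_nonneg (ind_nonneg _) (sq_nonneg _)
  by_cases g : X.WG A ∧ (Good (llab o) ∧ L.Fp A (llab o)) ∧ X.Bad A (llab o)
  · obtain ⟨P', l, g1, g2⟩ := g.2.2
    rw [ind_pos g, ind_pos ⟨g.2.1.1, g.2.1.2.1⟩, one_mul, one_mul]
    refine le_trans ?_ (single_le_sm h0 (P', l))
    rw [ind_pos g1, one_mul]
    exact pow_le_pow_left₀ X.hδ1.le g2 2
  · rw [ind_neg g, zero_mul]
    exact mul_nonneg (ind_nonneg _) (sm_nonneg h0)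

lemma low_pt {A : Om I} (hG : X.G A) (o : LO K X.r X.J X.t I) :
    (1 - X.δ) / X.N A * (plant (llab o) A * X.w A (llab o)) -
      (2 * X.δ1 * plant (llab o) A +
        plant (llab o) A * ind (∃ P, X.Z (llab o) (ow A (llab o) P))) / X.cN ≤ X.ψ1 A o := by
  have hN := X.N_low hG.1 hG.2.1
  have hc := X.hcN
  have hd := X.hδ1
  have hw := X.w_bd hG.2.1.bal (llab o)
  rcases (plant_nonneg (llab o) A).eq_or_lt with e | hp
  · rw [← e]
    simpa using X.ψ1_nonneg A o
  obtain ⟨P0, e⟩ := (plant_pos_iff _ _).1 hp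
  have hi := ind_nonneg (∃ P, X.Z (llab o) (ow A (llab o) P))
  by_cases h : X.OK A (llab o)
  · have := (X.ratio o h P0).2
    rw [e] at this
    unfold ψ1
    rw [ind_pos h, mul_one]
    refine le_trans ?_ (mul_le_mul_of_nonneg_left this hp.le)
    refine (sub_le_self _ (by positivity)).trans_eq ?_
    ring
  refine le_trans ?_ (X.ψ1_nonneg A o)
  have h1 : X.w A (llab o) ≤ 2 * X.δ1 + ind (∃ P, X.Z (llab o) (ow A (llab o) P)) := by
    by_cases g : ∃ P, X.Z (llab o) (ow A (llab o) P)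
    · rw [ind_pos g]
      linarith [hw.2.1.trans (ind_le_one _)]
    rw [ind_neg g, add_zero]
    by_contra hn
    have hn := not_le.1 hn
    have hg : Good (llab o) ∧ L.Fp A (llab o) := by
      by_contra q
      have := hw.2.1
      rw [ind_neg q] at this
      linarith
    have hF : L.Fp (ow A (llab o) P0) (llab o) := e.symm ▸ hg.2
    have hG' : X.G (ow A (llab o) P0) := e.symm ▸ hG
    have hQ : ∀ P, QR X.u X.γ (ow A (llab o) P) := fun P =>
      by_contra fun q => g ⟨P, Or.inl q⟩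
    have hW := fun P => X.wg_move o A P0 P hG' hF (hQ P)
    refine h ⟨hg.1, fun P => ⟨⟨(hW P).1, al_fp X.ok hF P, fun q =>
      g ⟨P, Or.inr ⟨(hW P).1, ⟨hg.1, al_fp X.ok hF P⟩, q⟩⟩, ?_⟩, (hW P).2.trans (hW 0).2.symm⟩⟩
    have a := abs_le.1 (X.w_move o A P0 P (hQ P0).bal (hQ P).bal hF
      ((hW P).2.trans (hW P0).2.symm))
    rw [e] at a
    nlinarith [a.1, X.hδ', X.hδ]
  have h2 : (1 - X.δ) / X.N A ≤ 1 / X.cN :=
    div_le_div₀ zero_le_one (by linarith [X.hδ]) hc hN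
  rw [sub_nonpos]
  calc _ ≤ 1 / X.cN * (plant (llab o) A *
        (2 * X.δ1 + ind (∃ P, X.Z (llab o) (ow A (llab o) P)))) :=
        mul_le_mul h2 (mul_le_mul_of_nonneg_left h1 hp.le) (mul_nonneg hp.le hw.1) (by positivity)
    _ = _ := by ring

end AC

end NE
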