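import Pool.Agent.Lib.MP_ecee09_co.NE.Defs

/-! Families: algebra of the functionals `E` and `cE`. -/

namespace NE

open SD (F sm av ind cnt Tame sm_eq av_def av_mul_left av_add av_nonneg av_const ind_nonneg
  ind_le_one ind_pos ind_neg)
open ComplexConjugate

namespace Fam

section alg
variable {X C Λ : Type} {a : X → Λ → C → X} (A : Fam a)

lemma congr' {f g : X → Λ → ℝ} (h : ∀ x l, f x l = g x l) : A.E f = A.E g := by
  have : f = g := funext fun x => funext fun l => h x l
  rw [this]

lemma zero : A.E (fun _ _ => 0) = 0 := by simpa using A.smul 0 fun _ _ => 0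

lemma sub (f g : X → Λ → ℝ) : A.E (fun x l => f x l - g x l) = A.E f - A.E g := by
  have := A.add f fun x l => (-1) * g x l
  rw [A.smul] at this
  rw [A.congr' (g := fun x l => f x l + (-1) * g x l) fun x l => by ring, this]; ring

lemma mono {f g : X → Λ → ℝ} (h : ∀ x l, f x l ≤ g x l) : A.E f ≤ A.E g := by
  have := A.pos (fun x l => g x l - f x l) fun x l => sub_nonneg.2 (h x l)
  rw [A.sub] at this; linarith

lemma mul_right (c : ℝ) (f : X → Λ → ℝ) : A.E (fun x l => f x l * c) = A.E f * c := by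
  rw [A.congr' (g := fun x l => c * f x l) fun x l => mul_comm _ _, A.smul, mul_comm]

lemma div (c : ℝ) (f : X → Λ → ℝ) : A.E (fun x l => f x l / c) = A.E f / c := by
  simp only [div_eq_mul_inv, A.mul_right]

lemma sum {ι : Type} (s : Finset ι) (f : ι → X → Λ → ℝ) :
    A.E (fun x l => ∑ i ∈ s, f i x l) = ∑ i ∈ s, A.E (f i) := by
  classical
  induction s using Finset.induction_on with
  | empty => simpa using A.zero
  | insert i s hi ih => simp only [Finset.sum_insert hi]; rw [A.add, ih]

lemma sm {O : Type} [Finite O] (f : O → X → Λ → ℝ) :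
    A.E (fun x l => SD.sm fun o => f o x l) = SD.sm fun o => A.E (f o) := by
  let _ := Fintype.ofFinite O
  simp only [sm_eq]; exact A.sum _ f

lemma av {O : Type} [Finite O] (f : O → X → Λ → ℝ) :
    A.E (fun x l => SD.av fun o => f o x l) = SD.av fun o => A.E (f o) := by
  simp only [av_def]; rw [A.div, A.sm]

lemma abs_le (f : X → Λ → ℝ) : |A.E f| ≤ A.E fun x l => |f x l| := by
  rw [_root_.abs_le]
  refine ⟨?_, A.mono fun x l => le_abs_self _⟩
  have := A.mono (f := fun x l => (-1) * |f x l|) (g := f) fun x l => by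
    simpa using neg_abs_le (f x l)
  rw [A.smul] at this; linarith

lemma cs (f g : X → Λ → ℝ) :
    (A.E fun x l => f x l * g x l) ^ 2 ≤
      (A.E fun x l => f x l ^ 2) * A.E fun x l => g x l ^ 2 := by
  have h : ∀ t : ℝ, 0 ≤ (A.E fun x l => f x l ^ 2) * (t * t) +
      (2 * A.E fun x l => f x l * g x l) * t + A.E fun x l => g x l ^ 2 := by
    intro t
    have := A.pos (fun x l => (t * t) * f x l ^ 2 + ((2 * t) * (f x l * g x l) + g x l ^ 2))
      fun x l => by nlinarith [sq_nonneg (t * f x l + g x l)]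
    rw [A.add, A.add, A.smul, A.smul] at this
    linarith
  have := discrim_le_zero h
  rw [discrim] at this
  nlinarith

/-- Cauchy-Schwarz jointly over the family and an inner average -/
lemma cs_av {O : Type} [Finite O] (f g : X → Λ → O → ℝ) :
    (A.E fun x l => SD.av fun o => f x l o * g x l o) ^ 2 ≤
      (A.E fun x l => SD.av fun o => f x l o ^ 2) * A.E fun x l => SD.av fun o => g x l o ^ 2 := by
  have h : ∀ t : ℝ, 0 ≤ (A.E fun x l => SD.av fun o => f x l o ^ 2) * (t * t) +
      (2 * A.E fun x l => SD.av fun o => f x l o * g x l o) * t +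
        A.E fun x l => SD.av fun o => g x l o ^ 2 := by
    intro t
    have := A.pos (fun x l => (t * t) * (SD.av fun o => f x l o ^ 2) +
      ((2 * t) * (SD.av fun o => f x l o * g x l o) + SD.av fun o => g x l o ^ 2))
      fun x l => by
        rw [← av_mul_left, ← av_mul_left, ← av_add, ← av_add]
        exact av_nonneg fun o => by nlinarith [sq_nonneg (t * f x l o + g x l o)]
    rw [A.add, A.add, A.smul, A.smul] at this
    linarith
  have := discrim_le_zero h
  rw [discrim] at this
  nlinarith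

lemma abs_av_mul_le {O : Type} [Finite O] (f g : X → Λ → O → ℝ) :
    |A.E fun x l => SD.av fun o => f x l o * g x l o| ≤
      Real.sqrt (A.E fun x l => SD.av fun o => f x l o ^ 2) *
        Real.sqrt (A.E fun x l => SD.av fun o => g x l o ^ 2) := by
  rw [← Real.sqrt_mul (A.pos _ fun _ _ => av_nonneg fun _ => sq_nonneg _)]
  exact Real.abs_le_sqrt (A.cs_av f g)

lemma neg (f : X → Λ → ℝ) : A.E (fun x l => - f x l) = - A.E f := by
  simpa using A.smul (-1) f

/-- Markov -/
lemma markov {f : X → Λ → ℝ} (h : ∀ x l, 0 ≤ f x l) {t : ℝ} (ht : 0 < t) :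
    A.E (fun x l => ind (t ≤ f x l)) ≤ A.E f / t := by
  rw [← A.div]
  refine A.mono fun x l => ?_
  by_cases hx : t ≤ f x l
  · rw [ind_pos hx, le_div_iff₀ ht]; simpa using hx
  · rw [ind_neg hx]; exact div_nonneg (h x l) ht.le

/-- the marginal identity, written with the inner average -/
lemma marg' (g : X → ℝ) : A.E (fun x l => SD.av fun B => g (a x l B)) = SD.av g := A.marg g

lemma cE_re (f : X → Λ → ℂ) : (A.cE f).re = A.E fun x l => (f x l).re := by simp [cE]

lemma cE_im (f : X → Λ → ℂ) : (A.cE f).im = A.E fun x l => (f x l).im := by simp [cE]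

lemma cE_congr {f g : X → Λ → ℂ} (h : ∀ x l, f x l = g x l) : A.cE f = A.cE g := by
  rw [show f = g from funext fun x => funext fun l => h x l]

lemma cE_zero : A.cE (fun _ _ => 0) = 0 := by simp [cE, A.zero]

lemma cE_ofReal (f : X → Λ → ℝ) : A.cE (fun x l => (f x l : ℂ)) = A.E f := by simp [cE, A.zero]

lemma cE_add (f g : X → Λ → ℂ) : A.cE (fun x l => f x l + g x l) = A.cE f + A.cE g :=
  Complex.ext (by simp only [cE_re, Complex.add_re, A.add])
    (by simp only [cE_im, Complex.add_im, A.add])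

lemma cE_sub (f g : X → Λ → ℂ) : A.cE (fun x l => f x l - g x l) = A.cE f - A.cE g :=
  Complex.ext (by simp only [cE_re, Complex.sub_re, A.sub])
    (by simp only [cE_im, Complex.sub_im, A.sub])

lemma cE_neg (f : X → Λ → ℂ) : A.cE (fun x l => - f x l) = - A.cE f :=
  Complex.ext (by simp only [cE_re, Complex.neg_re, A.neg])
    (by simp only [cE_im, Complex.neg_im, A.neg])

lemma cE_mul_left (c : ℂ) (f : X → Λ → ℂ) : A.cE (fun x l => c * f x l) = c * A.cE f :=
  Complex.ext (by simp only [cE_re, cE_im, Complex.mul_re, A.sub, A.smul])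
    (by simp only [cE_re, cE_im, Complex.mul_im, A.add, A.smul])

lemma cE_mul_right (c : ℂ) (f : X → Λ → ℂ) : A.cE (fun x l => f x l * c) = A.cE f * c := by
  rw [mul_comm, ← A.cE_mul_left]; exact A.cE_congr fun _ _ => mul_comm _ _

lemma cE_div (c : ℂ) (f : X → Λ → ℂ) : A.cE (fun x l => f x l / c) = A.cE f / c := by
  simp only [div_eq_mul_inv, A.cE_mul_right]

lemma cE_conj (f : X → Λ → ℂ) : A.cE (fun x l => conj (f x l)) = conj (A.cE f) :=
  Complex.ext (by simp only [cE_re, Complex.conj_re]) (by simp only [cE_im, Complex.conj_im, A.neg])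

lemma cE_sum {ι : Type} (s : Finset ι) (f : ι → X → Λ → ℂ) :
    A.cE (fun x l => ∑ i ∈ s, f i x l) = ∑ i ∈ s, A.cE (f i) :=
  Complex.ext (by simp only [cE_re, Complex.re_sum, A.sum]) (by simp only [cE_im, Complex.im_sum, A.sum])

lemma cE_csm {O : Type} [Finite O] (f : O → X → Λ → ℂ) :
    A.cE (fun x l => csm fun o => f o x l) = csm fun o => A.cE (f o) := by
  let _ := Fintype.ofFinite O
  simp only [csm, finsum_eq_sum_of_fintype]; exact A.cE_sum _ f

lemma cE_cav {O : Type} [Finite O] (f : O → X → Λ → ℂ) :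
    A.cE (fun x l => cav fun o => f o x l) = cav fun o => A.cE (f o) := by
  simp only [cav]; rw [A.cE_div]; exact congrArg (· / _) (A.cE_csm f)

lemma norm_cE_le (f : X → Λ → ℂ) : ‖A.cE f‖ ≤ A.E fun x l => ‖f x l‖ := by
  obtain ⟨d, hd, e'⟩ := Complex.exists_norm_eq_mul_self (A.cE f)
  have := congrArg Complex.re e'
  rw [Complex.ofReal_re, ← A.cE_mul_left, A.cE_re] at this
  rw [this]
  exact A.mono fun x l => (Complex.re_le_norm _).trans (by rw [norm_mul, hd, one_mul])

lemma fb_cav_re {O : Type} [Finite O] (f : O → ℂ) : (cav f).re = SD.av fun o => (f o).re := by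
  let _ := Fintype.ofFinite O
  simp only [cav, SD.av, finsum_eq_sum_of_fintype, Complex.div_natCast_re, Complex.re_sum]

lemma fb_cav_im {O : Type} [Finite O] (f : O → ℂ) : (cav f).im = SD.av fun o => (f o).im := by
  let _ := Fintype.ofFinite O
  simp only [cav, SD.av, finsum_eq_sum_of_fintype, Complex.div_natCast_im, Complex.im_sum]

/-- the complex marginal identity -/
lemma cE_marg [Finite X] [Finite C] (g : X → ℂ) :
    A.cE (fun x l => cav fun B => g (a x l B)) = cav g :=
  Complex.ext (by simp only [cE_re, fb_cav_re]; exact A.marg fun x => (g x).re)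
    (by simp only [cE_im, fb_cav_im]; exact A.marg fun x => (g x).im)

/-- `cE` of a family given by an inner positive functional: two families with
`A'.E f = A.E (T f)` and `T` built from averages satisfy the same identity for `cE` -/
lemma cE_of_av {X' C' Λ' O : Type} [Finite O] {a' : X' → Λ' → C' → X'} (A' : Fam a')
    (b : X → Λ → O → X') (r : X → Λ → O → Λ')
    (h : ∀ f, A'.E f = A.E fun x l => SD.av fun o => f (b x l o) (r x l o)) (f : X' → Λ' → ℂ) :
    A'.cE f = A.cE fun x l => cav fun o => f (b x l o) (r x l o) :=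
  Complex.ext (by simp only [cE_re, fb_cav_re, h]) (by simp only [cE_im, fb_cav_im, h])

/-- `cE` of a composed family -/
lemma cE_of_comp {X' C' Λ' Y D M : Type} {a' : X' → Λ' → C' → X'} {a'' : Y → M → D → Y}
    (A' : Fam a') (S : X → Λ → Fam a'') (b : X → Λ → Y → M → X') (r : X → Λ → Y → M → Λ')
    (h : ∀ f, A'.E f = A.E fun x l => (S x l).E fun y m => f (b x l y m) (r x l y m))
    (f : X' → Λ' → ℂ) :
    A'.cE f = A.cE fun x l => (S x l).cE fun y m => f (b x l y m) (r x l y m) :=
  Complex.ext (by simp only [cE_re, h]) (by simp only [cE_im, h])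

/-- `cE` of a family that is a plain average -/
lemma cE_of_triv {O : Type} [Finite O] (b : O → X) (r : O → Λ)
    (h : ∀ f, A.E f = SD.av fun o => f (b o) (r o)) (f : X → Λ → ℂ) :
    A.cE f = cav fun o => f (b o) (r o) :=
  Complex.ext (by simp only [cE_re, fb_cav_re, h]) (by simp only [cE_im, fb_cav_im, h])

/-- most cells are tame -/
lemma tamef [Finite X] [Finite Λ] {Y : Type} [Finite Y] (K : X → Λ → Y → ℂ) {D : ℕ → ℝ} {L : ℝ}
    (hL : 0 < L) (h : ∀ p : ℕ, (A.E fun x l => SD.av fun y => ‖K x l y‖ ^ p) ≤ D p) :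
    (A.E fun x l => ind (¬ CT (fun p => L * 2 ^ (p + 1) * (D p + 1)) (K x l))) ≤ 1 / L := by
  have p0 : ∀ p x l, 0 ≤ SD.av fun y => ‖K x l y‖ ^ p := fun p x l =>
    av_nonneg fun _ => by positivity
  have D0 : ∀ p, 0 ≤ D p := fun p => (A.pos _ (p0 p)).trans (h p)
  have ex : ∀ z : X × Λ, ∃ p : ℕ, ¬ CT (fun p => L * 2 ^ (p + 1) * (D p + 1)) (K z.1 z.2) →
      L * 2 ^ (p + 1) * (D p + 1) ≤ SD.av fun y => ‖K z.1 z.2 y‖ ^ p := fun z => by
    by_cases hz : CT (fun p => L * 2 ^ (p + 1) * (D p + 1)) (K z.1 z.2)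
    · exact ⟨0, fun h' => absurd hz h'⟩
    · obtain ⟨p, hp⟩ := not_forall.1 hz
      exact ⟨p, fun _ => by simpa only [abs_norm] using (not_le.1 hp).le⟩
  choose q hq using ex
  obtain ⟨N, hN⟩ := (Set.finite_range q).bddAbove
  have w0 : ∀ p, 0 < L * 2 ^ (p + 1) * (D p + 1) := fun p => by have := D0 p; positivity
  calc _ ≤ A.E fun x l => ∑ p ∈ Finset.range (N + 1),
        (SD.av fun y => ‖K x l y‖ ^ p) / (L * 2 ^ (p + 1) * (D p + 1)) := A.mono fun x l => by
        by_cases hz : CT (fun p => L * 2 ^ (p + 1) * (D p + 1)) (K x l)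
        · rw [ind_neg (not_not.2 hz)]
          exact Finset.sum_nonneg fun p _ => div_nonneg (p0 p x l) (w0 p).le
        · rw [ind_pos hz]
          exact ((one_le_div (w0 _)).2 (hq (x, l) hz)).trans (Finset.single_le_sum
            (f := fun p => (SD.av fun y => ‖K x l y‖ ^ p) / (L * 2 ^ (p + 1) * (D p + 1)))
            (fun p _ => div_nonneg (p0 p x l) (w0 p).le)
            (Finset.mem_range.2 (Nat.lt_succ_of_le (hN ⟨(x, l), rfl⟩))))
    _ ≤ ∑ p ∈ Finset.range (N + 1), 1 / (2 * L) * (1 / 2 : ℝ) ^ p := by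
        rw [A.sum]
        refine Finset.sum_le_sum fun p _ => ?_
        rw [A.div, div_le_iff₀ (w0 p)]
        refine (h p).trans (le_trans (by linarith : D p ≤ D p + 1) (le_of_eq ?_))
        rw [one_div_pow]
        field_simp
        ring
    _ ≤ 1 / L := by
        rw [← Finset.mul_sum]
        refine (mul_le_mul_of_nonneg_left (sum_geometric_two_le _) (by positivity)).trans
          (le_of_eq ?_)
        field_simp

variable [Finite X] [Nonempty X] [Finite C] [Nonempty C]

lemma const (c : ℝ) : A.E (fun _ _ => c) = c := by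
  simpa only [av_const] using A.marg fun _ => c

lemma le_const {f : X → Λ → ℝ} {c : ℝ} (h : ∀ x l, f x l ≤ c) : A.E f ≤ c :=
  (A.mono h).trans (A.const c).le

lemma const_le {f : X → Λ → ℝ} {c : ℝ} (h : ∀ x l, c ≤ f x l) : c ≤ A.E f :=
  (A.const c).ge.trans (A.mono h)

lemma sq_le (f : X → Λ → ℝ) : A.E f ^ 2 ≤ A.E fun x l => f x l ^ 2 := by
  simpa only [mul_one, one_pow, A.const] using A.cs f fun _ _ => 1

lemma cE_const (c : ℂ) : A.cE (fun _ _ => c) = c :=
  Complex.ext (by rw [cE_re, A.const]) (by rw [cE_im, A.const])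

lemma norm_cE_le_const {f : X → Λ → ℂ} {c : ℝ} (h : ∀ x l, ‖f x l‖ ≤ c) : ‖A.cE f‖ ≤ c :=
  (A.norm_cE_le f).trans (A.le_const h)

lemma ind_le_one' (p : X → Λ → Prop) : A.E (fun x l => ind (p x l)) ≤ 1 :=
  A.le_const fun _ _ => ind_le_one _

lemma ind_not (p : X → Λ → Prop) :
    A.E (fun x l => ind (¬ p x l)) = 1 - A.E fun x l => ind (p x l) := by
  simp only [SD.ind_not, A.sub, A.const]

/-- reverse Markov: cells with `m / 2 ≤ f` have mass at least `m / (2 M)` -/
lemma rev_markov {f : X → Λ → ℝ} {m M : ℝ} (hm : 0 ≤ m) (hM : 0 < M) (h : ∀ x l, f x l ≤ M)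
    (h1 : m ≤ A.E f) : m / (2 * M) ≤ A.E fun x l => ind (m / 2 ≤ f x l) := by
  have := A.mono (f := f) (g := fun x l => M * ind (m / 2 ≤ f x l) + m / 2) fun x l => by
    by_cases hx : m / 2 ≤ f x l
    · rw [ind_pos hx]; linarith [h x l]
    · rw [ind_neg hx]; linarith [not_le.1 hx]
  rw [A.add, A.smul, A.const] at this
  rw [div_le_iff₀ (by positivity)]
  linarith

/-- some cell is at least as good as the mean -/
lemma exists_le [Finite Λ] (f : X → Λ → ℝ) : ∃ x l, A.E f ≤ f x l := by
  have : Nonempty Λ := not_isEmpty_iff.1 fun _ => zero_ne_one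
    (((A.const 0).symm.trans (A.congr' fun _ l => isEmptyElim l)).trans (A.const 1))
  obtain ⟨z, hz⟩ := Finite.exists_max fun z : X × Λ => f z.1 z.2
  exact ⟨z.1, z.2, A.le_const fun x l => hz (x, l)⟩

end alg

end Fam

end NE
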