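import Pool.Agent.Lib.MP_ecee09_co.NE.ALc
import Pool.Agent.Lib.MP_ecee09_co.NE.FamB

/-! The abstract lattice freeze: the family. -/

namespace NE

open SD

variable {I K EE : Type} [AddCommGroup EE] [Finite I] [Finite K] [Finite EE] {L : LD I EE}

namespace AC

variable (X : AC L K) [Nonempty (LO K X.r X.J X.t I)] [Nonempty (K ↪ I)]

/-- the total loss -/
noncomputable def loss (B : ℕ) : ℝ :=
  3 * X.δ + av (fun A => ind (¬ (X.G A ∨ X.Fn < L.kap A))) +
    (2 * X.δ1 + Nat.card (Om K) * (2 ^ B ^ 2 * av (fun A : Om I => ind (¬ QR X.u X.γ A)) + X.τ)) /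
      X.cN

omit [Nonempty (K ↪ I)] in
lemma Z_le {B : ℕ} (hB : Nat.card (K × Fin X.r × Fin X.J × Fin X.t) ≤ B) :
    av (fun A => av fun o : LO K X.r X.J X.t I =>
      plant (llab o) A * ind (∃ P, X.Z (llab o) (ow A (llab o) P))) ≤
      Nat.card (Om K) * (2 ^ B ^ 2 * av (fun A : Om I => ind (¬ QR X.u X.γ A)) + X.τ) := by
  rw [av_comm]
  refine (av_mono fun o => al_cell (llab o) (X.Z (llab o))).trans ?_
  rw [av_mul_left, av_comm]
  refine mul_le_mul_of_nonneg_left ?_ (Nat.cast_nonneg _)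
  rw [← av_mul_left, ← av_const (α := Om I) X.τ, ← av_add]
  refine av_mono fun A => le_trans ?_ (add_le_add le_rfl (X.bad_le A))
  rw [← av_const (α := LO K X.r X.J X.t I) (2 ^ B ^ 2 * ind (¬ QR X.u X.γ A)), ← av_add]
  refine av_mono fun o => (mul_le_mul_of_nonneg_left (ind_or_le _ _) (plant_nonneg _ _)).trans ?_
  rw [mul_add]
  exact add_le_add (mul_le_mul_of_nonneg_right
    (plant_le ((supp_lcomp_crd _ _).trans hB) A) (ind_nonneg _)) le_rfl

omit [Nonempty (LO K X.r X.J X.t I)] in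
lemma low_A (A : Om I) :
    1 - X.δ - ind (¬ (X.G A ∨ X.Fn < L.kap A)) -
      (2 * X.δ1 * av (fun o : LO K X.r X.J X.t I => plant (llab o) A) +
        av fun o : LO K X.r X.J X.t I =>
          plant (llab o) A * ind (∃ P, X.Z (llab o) (ow A (llab o) P))) / X.cN ≤
      av (X.ψ1 A) + av (X.ψ2 A) := by
  have h1 : 0 ≤ av (X.ψ1 A) := av_nonneg (X.ψ1_nonneg A)
  have h2 : 0 ≤ av (X.ψ2 A) := av_nonneg fun _ => ind_nonneg _
  have h3 : 0 ≤ (2 * X.δ1 * av (fun o : LO K X.r X.J X.t I => plant (llab o) A) +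
      av fun o : LO K X.r X.J X.t I =>
        plant (llab o) A * ind (∃ P, X.Z (llab o) (ow A (llab o) P))) / X.cN :=
    div_nonneg (add_nonneg (mul_nonneg (by linarith [X.hδ1]) (av_nonneg fun _ => plant_nonneg _ _))
      (av_nonneg fun _ => mul_nonneg (plant_nonneg _ _) (ind_nonneg _))) X.hcN.le
  have hδ := X.hδ
  by_cases g : X.G A ∨ X.Fn < L.kap A
  swap
  · rw [ind_pos g]
    linarith
  rw [ind_neg (not_not.2 g), sub_zero]
  rcases g with g | g
  · have := av_mono (X.low_pt g)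
    rw [av_sub, av_mul_left, plant_w, av_div, av_add, av_mul_left,
      div_mul_cancel₀ _ (X.hcN.trans_le (X.N_low g.1 g.2.1)).ne'] at this
    linarith
  · have : av (X.ψ2 A) = 1 := by
      rw [← av_const (α := K ↪ I) 1]
      refine av_congr fun ι => ind_pos fun P => not_le.1 fun q => ?_
      have k := X.ok.kp K (crd ι) A P (pb ι A)
      rw [ow_crd_pb ι.injective] at k
      exact absurd (k.trans ((Nat.mul_le_mul_left _ q).trans X.e6)) (not_le.2 g)
    linarith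

lemma marg_le {B : ℕ} (hB : Nat.card (K × Fin X.r × Fin X.J × Fin X.t) ≤ B) :
    av (fun A => |av (X.ψ1 A) + av (X.ψ2 A) - 1|) ≤ X.loss B := by
  have h1 : ∀ A, |av (X.ψ1 A) + av (X.ψ2 A) - 1| ≤ 3 * X.δ + ind (¬ (X.G A ∨ X.Fn < L.kap A)) +
      (2 * X.δ1 * av (fun o : LO K X.r X.J X.t I => plant (llab o) A) +
        av fun o : LO K X.r X.J X.t I =>
          plant (llab o) A * ind (∃ P, X.Z (llab o) (ow A (llab o) P))) / X.cN := fun A => by
    have a := X.low_A A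
    have b := X.up A
    have c := ind_nonneg (¬ (X.G A ∨ X.Fn < L.kap A))
    have h3 : 0 ≤ (2 * X.δ1 * av (fun o : LO K X.r X.J X.t I => plant (llab o) A) +
        av fun o : LO K X.r X.J X.t I =>
          plant (llab o) A * ind (∃ P, X.Z (llab o) (ow A (llab o) P))) / X.cN :=
      div_nonneg (add_nonneg (mul_nonneg (by linarith [X.hδ1])
        (av_nonneg fun _ => plant_nonneg _ _))
        (av_nonneg fun _ => mul_nonneg (plant_nonneg _ _) (ind_nonneg _))) X.hcN.le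
    have := X.hδ
    rw [abs_le]
    constructor <;> linarith
  refine (av_mono h1).trans ?_
  rw [av_add, av_add, av_const, av_div, av_add, av_mul_left, av_comm]
  simp only [av_plant_one]
  rw [av_const, mul_one]
  exact add_le_add le_rfl (div_le_div_of_nonneg_right (add_le_add le_rfl (X.Z_le hB)) X.hcN.le)

lemma fam (hM : MRF) (η : ℝ) (hη : 0 < η) : ∃ η0 : ℝ, 0 < η0 ∧
    ∀ (I EE : Type) [AddCommGroup EE] [Finite I] [Finite EE] (L : LD I EE) (X : AC L K)
      [Nonempty (LO K X.r X.J X.t I)] [Nonempty (K ↪ I)] (B : ℕ),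
      Nat.card (K × Fin X.r × Fin X.J × Fin X.t) ≤ B → X.loss B ≤ η0 →
      ∃ A : OFam I K, (A.E fun M Φ => ind (¬ (Good Φ ∧
        ((∃ P, L.Fp (ow M Φ P) Φ) ∨ ∀ P, X.R ≤ L.kap (ow M Φ P))))) ≤ η := by
  obtain ⟨η0, h0, h⟩ := hM η (Nat.card (Om K)) hη
  refine ⟨η0, h0, fun I EE _ _ _ L X _ _ B hB hl => ?_⟩
  let φ : LO K X.r X.J X.t I × (K ↪ I) × Bool → Lab I K :=
    fun z => if z.2.2 then llab z.1 else crd z.2.1
  let ψ : Om I → LO K X.r X.J X.t I × (K ↪ I) × Bool → ℝ :=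
    fun A z => if z.2.2 then 2 * X.ψ1 A z.1 else 2 * X.ψ2 A z.2.1
  have p0 : ∀ A z, 0 ≤ ψ A z := by
    rintro A ⟨o, ι, _ | _⟩
    · exact mul_nonneg zero_le_two (ind_nonneg _)
    · exact mul_nonneg zero_le_two (X.ψ1_nonneg A o)
  have inv : ∀ z A P, 0 < ψ A z → ψ (ow A (φ z) P) z = ψ A z := by
    rintro ⟨o, ι, _ | _⟩ A P g
    · show 2 * X.ψ2 (ow A (crd ι) P) ι = 2 * X.ψ2 A ι
      simp only [ψ2, ow_ow]
    · exact congrArg (2 * ·) (X.ψ1_ow (fun e => by simp [ψ, e] at g) P)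
  have sup : ∀ z A, 0 < ψ A z → 0 < plant (φ z) A ∧ Good (φ z) ∧
      ((∃ P, L.Fp (ow A (φ z) P) (φ z)) ∨ ∀ P, X.R ≤ L.kap (ow A (φ z) P)) := by
    rintro ⟨o, ι, _ | _⟩ A g
    · refine ⟨(plant_pos_iff _ _).2 ⟨_, ow_crd_pb ι.injective A⟩, good_crd ι.injective,
        Or.inr fun P => ?_⟩
      by_contra q
      have : X.ψ2 A ι = 0 := ind_neg fun k => q (k P).le
      simp [ψ, this] at g
    · obtain ⟨g1, g2⟩ := X.ψ1_pos (A := A) (o := o) fun e => by simp [ψ, e] at g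
      exact ⟨g1, g2.1, Or.inl ⟨0, (g2.2 0).1.2.1⟩⟩
  have hav : ∀ A, av (ψ A) = av (X.ψ1 A) + av (X.ψ2 A) := fun A => by
    have e : ∀ o ι, (av fun b : Bool => ψ A (o, ι, b)) = X.ψ1 A o + X.ψ2 A ι := fun o ι => by
      rw [av_eq, Fintype.sum_bool, Fintype.card_bool]
      show (2 * X.ψ1 A o + 2 * X.ψ2 A ι) / ((2 : ℕ) : ℝ) = _
      push_cast
      ring
    rw [av_prod]
    simp only [av_prod, e, av_add, av_const]
  obtain ⟨ψ', A, q0, q1, -, -, q5, -, q6, q7⟩ := h (Om I) (Om K) _ (Lab I K)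
    (fun A Φ P => ow A Φ P) φ (fun _ => none) (fun z => Good (φ z)) ψ ow_none le_rfl p0
    (fun z g => tile_ow g (fun A k => (sup z A k).1) fun A P k => (inv z A P k).symm ▸ k)
    (fun z _ A P k => inv z A P k)
    (by simp only [hav]; exact (X.marg_le hB).trans hl)
    (by
      refine le_trans (av_le_const fun A => av_le_const fun z => ?_) h0.le
      rcases (p0 A z).eq_or_lt with e | k
      · rw [← e, zero_mul]
      · rw [ind_neg (not_not.2 (sup z A k).2.1), mul_zero])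
  refine ⟨A, (q7 _).trans_le (le_trans (av_mono fun M => ?_) q6)⟩
  rw [av_congr (g := fun _ => 0) fun z => ?_, av_zero, zero_add]
  · exact mul_le_of_le_one_right (sub_nonneg.2 (q5 M)) (ind_le_one _)
  · rcases (q0 M z).eq_or_lt with e | k
    · rw [← e, zero_mul]
    · rw [ind_neg (not_not.2 (sup z M (k.trans_le (q1 M z))).2), mul_zero]

end AC

end NE
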