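import Pool.Agent.Lib.MP_ecee09_co.NE.AMa

/-! Assembly of the abstract moment lemma. -/

namespace NE

open SD
open ComplexConjugate

variable {E : Type} [AddCommGroup E] [Finite E] {τ : QT E}

/-- the statement for a fixed number of parties -/
def AMC (τ : QT E) (D : ℕ → ℝ) (R : ℕ) (δ v : ℝ) (κ : Type) (M N : ℕ) : Prop :=
  ∀ (Ω G : Type) [Finite Ω] [Nonempty Ω] [AddCommGroup G] [Finite G]
    (s : Ω → (Bl (N ^ 20) κ (M ^ 20) → E) →+ G) (k : Ω → G → ℂ) (σ : ℝ),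
    0 ≤ σ → σ ^ 2 ≤ D 2 → MomB D k → (∀ ω, Adm τ (k ω)) →
    (∀ J : Set (Fin (N ^ 20)), N ^ 20 ≤ 2 * J.ncard →
      BoxS τ s k {l | ∃ j ∈ J, ∃ g, l = Sum.inl (j, g)} ((1 / 2) ^ (N ^ 14))) →
    (∀ (a : κ) (J : Set (Fin (M ^ 20))), M ^ 20 ≤ 2 * J.ncard →
      BoxS τ s k {l | ∃ j ∈ J, ∃ g, l = Sum.inr (a, j, g)} ((1 / 2) ^ (M ^ 14))) →
    av (fun ω => av fun b => (av (fun h => ‖k ω (b + s ω h)‖ ^ 2) - σ ^ 2) ^ 2) ≤ v →
    ∀ (Q : Om κ) (t : Fin R → κ → E) (ε : Fin R → Bool),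
      ‖(cav fun ω => cav fun Ξ => cav fun z => cav fun b =>
          ∏ r, cj (ε r) (tk τ (s ω) (k ω) (mix3 z Q Ξ) (b + s ω (tt (t r) Ξ)))) -
        ((σ ^ R * pmx τ t ε : ℝ) : ℂ)‖ ≤ δ

lemma am_card_tg (n : ℕ) : Nat.card (Fin n × Tg) = 8 * n := by
  simp [Nat.card_eq_fintype_card, mul_comm]

theorem am_core (h1 : AM1 τ) (h2 : AM2 τ) (h3 : AM3 τ) (h4 : AM4 τ) (h5 : AM5 τ) (h7 : AM7 τ)
    (h8 : AM8 τ) (hP : AMP) (D : ℕ → ℝ) (R : ℕ) (δ : ℝ) (hδ : 0 < δ) :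
    ∃ v : ℝ, 0 < v ∧ ∀ (κ : Type) [Finite κ], ∃ M0 : ℕ, ∀ M, M0 ≤ M → ∃ N0 : ℕ, ∀ N, N0 ≤ N →
      AMC τ D R δ v κ M N := by
  obtain ⟨c0, hc⟩ := hP.1 (Nat.card E) Nat.card_pos
  obtain ⟨C3, hC3, H3⟩ := h3 R
  obtain ⟨C5, hC5, H5⟩ := h5 D R
  obtain ⟨C7, hC7, H7⟩ := h7 c0 hc D R
  obtain ⟨C8, hC8, H8⟩ := h8 c0 hc D R
  obtain ⟨Cb, hCb⟩ : ∃ Cb : ℝ, Cb = 1 + |D R| + C3 * (C5 + √C7) +
    Nat.card (Fin R → Fin R) * (C8 * 3) := ⟨_, rfl⟩
  have hCb0 : 0 < Cb := by rw [hCb]; positivity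
  obtain ⟨d, hd⟩ : ∃ d : ℝ, d = δ / Cb := ⟨_, rfl⟩
  have hd0 : 0 < d := by rw [hd]; positivity
  have hdδ : Cb * d = δ := by rw [hd]; field_simp
  refine ⟨d ^ 2, by positivity, fun κ _ => ?_⟩
  obtain ⟨l', M0, HM⟩ := (hP.2 c0 (d ^ 2) hc.1 hc.2.1 (by positivity)).1
  refine ⟨M0, fun M hM => ?_⟩
  obtain ⟨hM1, hM2⟩ := HM M hM
  obtain ⟨N0, HN⟩ := (hP.2 c0 d hc.1 hc.2.1 hd0).2 (Nat.card E ^ R)
    (Nat.card (κ × Fin (M ^ 20) × Tg))
  refine ⟨N0, fun N hN => ?_⟩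
  obtain ⟨hN1, hN2, hN3, hN4, hN5⟩ := HN N hN
  intro Ω G _ _ _ _ s k σ hσ0 hσ hmom hadm hY hZ hv Q t ε
  obtain ⟨co, hco1, hco2, hco3, hco4, H3'⟩ := H3 ε
  have hM11 : 1 ≤ N ^ 11 := Nat.one_le_pow _ _ hN1
  obtain ⟨H3a, H3b⟩ := H3' (Fin (N ^ 20) × Tg) (κ × Fin (M ^ 20) × Tg) (N ^ 11) hM11
  set θ : ℝ := (1 / 2) ^ (N ^ 13) with hθ
  set sb : ℝ := (1 / 2) ^ (N ^ 14) with hsb
  set eY : ℝ := amE c0 (8 * N ^ 20) (N ^ 12) sb with heY
  set Co : ℝ := (((8 * N ^ 20 : ℕ) + 1 : ℝ) * ((Nat.card E ^ R : ℕ) + 1)) ^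
    (Nat.card E ^ R * N ^ 11 + Nat.card (κ × Fin (M ^ 20) × Tg)) with hCo
  have hθ0 : 0 < θ := by positivity
  have hθ1 : θ ≤ 1 := pow_le_one₀ (by norm_num) (by norm_num)
  have hsb0 : 0 ≤ sb := by positivity
  have hCo1 : 1 ≤ Co := one_le_pow₀ (one_le_mul_of_one_le_of_one_le
    (le_add_of_nonneg_left (by positivity)) (le_add_of_nonneg_left (by positivity)))
  have hfi : Function.Injective
      (Sum.inl : Fin (N ^ 20) × Tg → Bl (N ^ 20) κ (M ^ 20)) := Sum.inl_injective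
  -- the terms
  set f : (Bl (N ^ 20) κ (M ^ 20) → Fin R → E) → ℂ := fun x => cav fun ω => cav fun Ξ =>
    cav fun z => ph (amT τ ε) x (mix3 z Q Ξ) * amM τ (s ω) (k ω) ε (fun r => tt (t r) Ξ) x with hf
  set g : AddSubgroup (Fin R → E) → (Bl (N ^ 20) κ (M ^ 20) → Option (Fin R → E)) → ℂ :=
    fun T ξ => cav fun ω => cav fun Ξ => cav fun z =>
      amA τ (s ω) (k ω) ε (fun r => tt (t r) Ξ) T ξ (mix3 z Q Ξ) with hg
  have e1 : (cav fun ω => cav fun Ξ => cav fun z => cav fun b =>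
      ∏ r, cj (ε r) (tk τ (s ω) (k ω) (mix3 z Q Ξ) (b + s ω (tt (t r) Ξ)))) = csm f := by
    rw [hf]
    simp only [← cav_csm_comm]
    exact cav_congr fun ω => cav_congr fun Ξ => cav_congr fun z =>
      (h1 _ G (s ω) (k ω) R ε fun r => tt (t r) Ξ).1 _
  have e2 : ∀ T ξ, g T ξ = csm fun x => (ind (amI T ξ x) : ℝ) * f x := by
    intro T ξ
    rw [hf, hg]
    simp only [amA, ← cav_mul_left, ← cav_csm_comm]
  have e3 : (csm fun x => (ind (amIso τ ε (amX (N ^ 11) x)) : ℝ) * f x) =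
      csm fun T => (co T : ℂ) * csm fun ξ => (ind (amD (N ^ 11) T ξ) : ℝ) * g T ξ := by
    simp only [e2, H3a, ← csm_ofReal, Complex.ofReal_mul, ← csm_mul_left, ← csm_mul_right]
    rw [csm_comm]
    refine csm_congr fun T => ?_
    rw [csm_comm]
    exact csm_congr fun ξ => csm_congr fun x => by ring
  -- the non isotropic part
  have b1 : ‖csm f - csm fun x => (ind (amIso τ ε (amX (N ^ 11) x)) : ℝ) * f x‖ ≤
      (1 + |D R|) * d := by
    have hx : ∀ x, ‖f x - (ind (amIso τ ε (amX (N ^ 11) x)) : ℝ) * f x‖ ≤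
        c0 ^ (N ^ 11 * (N ^ 11 - 1) / 2) * (1 + |D R|) := by
      intro x
      have hp : 0 ≤ c0 ^ (N ^ 11 * (N ^ 11 - 1) / 2) := pow_nonneg hc.1 _
      by_cases hi : amIso τ ε (amX (N ^ 11) x)
      · rw [ind_pos hi]
        simp only [Complex.ofReal_one, one_mul, sub_self, norm_zero]
        positivity
      rw [ind_neg hi]
      simp only [Complex.ofReal_zero, zero_mul, sub_zero]
      by_cases hj : ∀ a ∈ amX (N ^ 11) x, ∀ b ∈ amX (N ^ 11) x, sB τ ε a b = 0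
      · obtain ⟨l, e, hl⟩ := ama_row (τ := τ) hM11 ε x fun a => hi ⟨hj, a⟩
        have : f x = 0 := by
          rw [hf]
          simp only [(h1 _ G _ _ R ε _).2.2 x l e hl, mul_zero, cav_zero]
        rw [this, norm_zero]
        positivity
      · refine (norm_cav_le _).trans (le_trans (av_mono (g := fun ω =>
          c0 ^ (N ^ 11 * (N ^ 11 - 1) / 2) * (1 + av fun b => ‖k ω b‖ ^ R)) fun ω => ?_) ?_)
        · refine norm_cav_le_const (mul_nonneg hp (add_nonneg zero_le_one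
            (av_nonneg fun _ => by positivity))) fun Ξ => ?_
          rw [cav_mul_right, norm_mul]
          exact mul_le_mul (h2 c0 hc _ _ R _ ε x _ hj) ((h1 _ G _ _ R ε _).2.1 x)
            (norm_nonneg _) hp
        · rw [av_mul_left, av_add, av_const]
          exact mul_le_mul_of_nonneg_left
            (add_le_add le_rfl ((hmom R).trans (le_abs_self _))) hp
    rw [← csm_sub]
    refine (norm_csm_le _).trans ((sm_mono hx).trans ?_)
    rw [sm_const, ← mul_assoc, mul_comm]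
    refine mul_le_mul_of_nonneg_left (le_trans (le_of_eq ?_) hN3) (by positivity)
    congr 1
    rw [Nat.card_fun, Nat.card_fun, Nat.card_sum, am_card_tg, Nat.card_eq_fintype_card (α := Fin R),
      Fintype.card_fin, Nat.cast_pow]
  -- the exceptional terms
  have hit : ∀ T ξ, amD (N ^ 11) T ξ → {j : Fin (N ^ 20) | ∃ g : Tg,
      ξ (Sum.inl (j, g) : Bl (N ^ 20) κ (M ^ 20)) ≠ none}.ncard ≤ Nat.card E ^ R * N ^ 11 :=
    fun T ξ h => (ama_hit id Function.injective_id _).trans ((H3b T).1 ξ h)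
  have b2 : ∀ T ξ, co T ≠ 0 → amD (N ^ 11) T ξ →
      ¬ ((∃ m, amV E ε m ∧ T = amP E m) ∧ ξ = fun _ => none) →
      ‖g T ξ‖ ≤ (C5 + √C7) * (θ + √eY) := by
    intro T ξ hT hξ hn
    have hI : amIso τ ε T := by
      by_contra a
      exact hT (hco2 T a)
    have hL := ama_boxL Sum.inl hfi hY _ (hit T ξ hξ) hN2
    have hnone : ∀ j ∈ {l : Bl (N ^ 20) κ (M ^ 20) | ∃ j ∈ {j : Fin (N ^ 20) | ∃ g : Tg,
        ξ (Sum.inl (j, g)) ≠ none}ᶜ, ∃ g, l = Sum.inl (j, g)}, ξ j = none := by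
      rintro _ ⟨j, hj, g', rfl⟩
      by_contra a
      exact hj ⟨g', a⟩
    by_cases hp : ∃ m, amV E ε m ∧ T = amP E m
    · obtain ⟨m, hm, rfl⟩ := hp
      obtain ⟨i, hi⟩ := Function.ne_iff.1 fun a => hn ⟨⟨m, hm, rfl⟩, a⟩
      obtain ⟨y, hy⟩ := Option.ne_none_iff_exists'.1 hi
      have h9 : ‖g (amP E m) ξ‖ ≤ √C7 * √eY := by
        rw [hg]
        simp only
        rw [cav_comm]
        refine norm_cav_le_const (by positivity) fun Ξ => ?_
        rw [← Real.sqrt_mul hC7]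
        refine Real.le_sqrt_of_sq_le ((H7 Ω _ _ G s k hmom ε m hm ξ i y hy (hξ.1 i y hy) _ _ sb hsb0
          ?_ hnone hL _ _).trans (mul_le_mul_of_nonneg_left (amE_mono hsb0 ?_ _) hC7))
        · rintro _ ⟨j, -, g', rfl⟩
          exact ⟨_, rfl⟩
        · rw [← am_card_tg, ← Set.ncard_univ, ← Set.ncard_image_of_injective _ hfi]
          refine Set.ncard_le_ncard ?_ (Set.toFinite _)
          rintro _ ⟨j, -, g', rfl⟩
          exact ⟨_, trivial, rfl⟩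
      refine h9.trans ?_
      gcongr
      · exact le_add_of_nonneg_left hC5
      · exact le_add_of_nonneg_left hθ0.le
    · obtain ⟨J, hJ1, hJ2⟩ := hL ∅ (by simp)
      have h9 : ‖g T ξ‖ ≤ C5 * θ := by
        rw [hg]
        simp only
        rw [cav_comm]
        refine norm_cav_le_const (by positivity) fun Ξ => ?_
        rw [cav_comm]
        refine norm_cav_le_const (by positivity) fun z => ?_
        obtain ⟨c, γ, hγ⟩ := h4 _ G R ε T hI ξ (mix3 z Q Ξ)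
        simp only [hγ]
        rw [cav_mul_left, norm_mul, norm_ee, one_mul]
        exact H5 Ω _ G s k hmom ε T hI hp ξ J θ (fun l hl => hnone l (hJ1 hl).1) hθ0 hθ1
          (hJ2.mono hN4) _
      refine h9.trans ?_
      gcongr
      · exact le_add_of_nonneg_right (Real.sqrt_nonneg _)
      · exact le_add_of_nonneg_right (Real.sqrt_nonneg _)
  -- the main terms
  have hY' : BoxL τ s k (Set.range Sum.inl) (N ^ 12) sb := by
    have := ama_boxL (a := 0) (l := N ^ 12) Sum.inl hfi hY ∅ (by simp) (by omega)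
    convert this using 1
    ext l
    simp [eq_comm]
  have hZ' : ∀ a : κ, BoxL τ s k {j | ∃ p, j = Sum.inr (a, p)} l' ((1 / 2) ^ (M ^ 14)) := by
    intro a
    have := ama_boxL (a := 0) (l := l') (fun p => (Sum.inr (a, p) : Bl (N ^ 20) κ (M ^ 20)))
      (fun _ _ h => by simpa using h) (hZ a) ∅ (by simp) (by omega)
    convert this using 1
    ext l
    simp
  have heYd : √eY ≤ d := by
    refine le_trans ?_ hN5
    have := Real.sqrt_nonneg eY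
    nlinarith
  have b3 : ∀ m, amV E ε m → ‖g (amP E m) (fun _ => none) -
      ((σ ^ R * ind ((τ.Real ∨ ∀ r, ε (m r) = !ε r) ∧ ∀ r, t (m r) = t r) : ℝ) : ℂ)‖ ≤
      C8 * 3 * d := by
    intro m hm
    refine (H8 κ _ _ Ω G s k σ _ hmom hσ0 hσ hadm hv _ _ _ _ hsb0 (by positivity) hY' hZ' ε m hm
      Q t).trans ?_
    rw [mul_assoc]
    refine mul_le_mul_of_nonneg_left ?_ hC8
    have a1 : √(d ^ 2) = d := Real.sqrt_sq hd0.le
    have a2 : √(amE c0 (8 * M ^ 20) l' ((1 / 2) ^ (M ^ 14))) ≤ d := Real.sqrt_le_iff.2 ⟨hd0.le, hM2⟩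
    linarith
  have b4 := ama_sum co (amD (N ^ 11)) g (fun _ => none) (amV E ε) (amP E) _ (N := Co) hco1
    (fun T => by
      refine (H3b T).2.trans (le_of_eq ?_)
      rw [hCo, am_card_tg, Nat.cast_pow]) (by positivity) (by linarith) (by positivity)
    (fun T => ⟨fun _ _ a => by simp at a, fun y => by simpa using Nat.lt_of_lt_of_le Nat.zero_lt_one hM11⟩)
    (fun m hm => (hco3 m hm).2) hco4 b2 b3
  have e4 : (sm fun m => ind (amV E ε m) *
      (σ ^ R * ind ((τ.Real ∨ ∀ r, ε (m r) = !ε r) ∧ ∀ r, t (m r) = t r))) = σ ^ R * pmx τ t ε := by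
    rw [← ama_pmx, ← sm_mul_left]
    exact sm_congr fun m => by ring
  rw [e4, ← e3] at b4
  rw [e1]
  refine (norm_sub_le_norm_sub_add_norm_sub _ _ _).trans ((add_le_add b1 b4).trans ?_)
  have a3 : C3 * Co * ((C5 + √C7) * (θ + √eY)) ≤ C3 * (C5 + √C7) * d := by
    rw [show C3 * Co * ((C5 + √C7) * (θ + √eY)) = C3 * (C5 + √C7) * (Co * (θ + √eY)) by ring]
    exact mul_le_mul_of_nonneg_left hN5 (by positivity)
  rw [← hdδ, hCb]
  nlinarith

theorem amom_of (h1 : AM1 τ) (h2 : AM2 τ) (h3 : AM3 τ) (h4 : AM4 τ) (h5 : AM5 τ) (h7 : AM7 τ)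
    (h8 : AM8 τ) (hP : AMP) : AMOM τ := by
  intro D R δ hδ
  choose v hv H using fun R' => am_core h1 h2 h3 h4 h5 h7 h8 hP D R' δ hδ
  have hne : (Finset.range (R + 1)).Nonempty := by simp
  refine ⟨(Finset.range (R + 1)).inf' hne v, (Finset.lt_inf'_iff hne).2 fun i _ => hv i,
    fun κ _ N1 => ?_⟩
  choose M0 H1 using fun R' => H R' κ
  obtain ⟨M, hM⟩ : ∃ M, M = max N1 ((Finset.range (R + 1)).sup M0) := ⟨_, rfl⟩
  have hM' : ∀ R', R' ≤ R → M0 R' ≤ M := fun R' h => hM ▸ le_max_of_le_right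
    (Finset.le_sup (f := M0) (Finset.mem_range.2 (Nat.lt_succ_of_le h)))
  choose N0 H2 using fun R' : Fin (R + 1) => H1 R' M (hM' R' (Nat.le_of_lt_succ R'.2))
  refine ⟨M, max N1 (Finset.univ.sup N0), hM ▸ le_max_left _ _, le_max_left _ _, ?_⟩
  intro Ω G _ _ _ _ s k σ a1 a2 a3 a4 a5 a6 a7 Q R' hR' t ε
  exact H2 ⟨R', Nat.lt_succ_of_le hR'⟩ _
    (le_max_of_le_right (Finset.le_sup (f := N0) (Finset.mem_univ _))) Ω G s k σ a1 a2 a3 a4 a5 a6
    (a7.trans (Finset.inf'_le v (Finset.mem_range.2 (Nat.lt_succ_of_le hR')))) Q t ε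

end NE
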