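import Pool.Agent.Lib.MP_ecee09_co.NE.CQT

/-! Fields: orthogonality of the characters, components, energies. -/

namespace NE

open SD
open ComplexConjugate

variable {E I K : Type} [AddCommGroup E] [Finite E] [Finite I] [Finite K] {τ : QT E}

omit [Finite E] [Finite I] in
lemma chi_mul_conj (τ : QT E) (w : I → E) (x : OmE E I) : chi τ w x * conj (chi τ w x) = 1 :=
  ee_mul_conj _

omit [Finite E] [Finite I] in
lemma ph_mul_conj (τ : QT E) (w : I → E) (P : Om I) : ph τ w P * conj (ph τ w P) = 1 :=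
  ee_mul_conj _

/-- `brk` as a biadditive map -/
noncomputable def brkB (τ : QT E) (I : Type) [Finite I] : (I → E) →+ (I → E) →+ TT :=
  AddMonoidHom.mk' (fun w => AddMonoidHom.mk' (brk τ w) (brk_add_right τ w))
    fun w w' => AddMonoidHom.ext fun t => brk_add_left τ w w' t

omit [Finite E] in
lemma brkB_apply (τ : QT E) (w t : I → E) : brkB τ I w t = brk τ w t := rfl

omit [Finite E] in
lemma brk_nd (hτ : τ.ND) {w : I → E} (h : ∀ t, brk τ w t = 0) : w = 0 := by
  classical
  funext i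
  exact hτ _ (AddMonoidHom.ext fun t => by rw [← brk_single τ w i t]; exact h _)

lemma cav_brk (hτ : τ.ND) (w w' : I → E) :
    cav (fun t : I → E => ee (brk τ w t) * conj (ee (brk τ w' t))) = (ind (w = w') : ℝ) := by
  simp only [← ee_sub, ← brk_sub_left]
  rw [hτ.cav_brk', ind_congr sub_eq_zero]

lemma chi_orth (hτ : τ.ND) (w w' : I → E) (P P' : Om I) :
    cav (fun t : I → E => chi τ w (t, P) * conj (chi τ w' (t, P'))) =
      (ind (w = w') : ℝ) * (ph τ w P * conj (ph τ w P')) := by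
  have e : ∀ t : I → E, chi τ w (t, P) * conj (chi τ w' (t, P')) =
      ee (brk τ w t) * conj (ee (brk τ w' t)) * (ph τ w P * conj (ph τ w' P')) := fun t => by
    simp only [chi_eq, map_mul]; ring
  simp only [e]
  rw [cav_mul_right, cav_brk hτ]
  by_cases h : w = w'
  · rw [h]
  · simp [ind_neg h]

lemma ip_chi (hτ : τ.ND) (w w' : I → E) : ip (chi τ w) (chi τ w') = (ind (w = w') : ℝ) := by
  rw [ip, cav_prod, cav_comm]
  simp only [chi_orth hτ, ph_mul_conj, mul_one]
  exact cav_const _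

/-- the dual orthogonality -/
lemma csm_chi (hτ : τ.ND) (t t' : I → E) (P : Om I) :
    (csm fun w => chi τ w (t, P) * conj (chi τ w (t', P))) =
      Nat.card (I → E) * (ind (t' = t) : ℝ) := by
  have e : ∀ w : I → E, chi τ w (t, P) * conj (chi τ w (t', P)) = ee (brk τ w (t - t')) :=
    fun w => by
      have := ph_mul_conj τ w P
      simp only [chi_eq, map_mul, brk_sub_right, ee_sub]
      linear_combination (ee (brk τ w t) * conj (ee (brk τ w t'))) * this
  simp only [e]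
  rw [csm_eq_card_mul_cav, hτ.cav_brk, ind_congr (sub_eq_zero.trans eq_comm)]

/-- inversion -/
lemma tw_inv (hτ : τ.ND) (u : OmE E I → ℂ) (t : I → E) (P : Om I) :
    (csm fun w => chi τ w (t, P) * tw τ u w P) = u (t, P) := by
  have e : ∀ w : I → E, chi τ w (t, P) * tw τ u w P =
      cav fun t' => u (t', P) * (chi τ w (t, P) * conj (chi τ w (t', P))) := fun w => by
    rw [tw, ← cav_mul_left]; exact cav_congr fun t' => by ring
  simp only [e]
  rw [← cav_csm_comm]
  simp only [csm_mul_left, csm_chi hτ]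
  rw [cav_congr (g := fun t' => Nat.card (I → E) * ((ind (t' = t) : ℂ) * u (t', P)))
    fun t' => by ring, cav_mul_left, cav_ind_eq t fun t' => u (t', P)]
  have := ccard_ne (α := I → E)
  field_simp

/-- Parseval in the group coordinate, two functions -/
lemma tw_pars (hτ : τ.ND) (u u' : OmE E I → ℂ) (P : Om I) :
    (csm fun w => tw τ u w P * conj (tw τ u' w P)) =
      cav fun t : I → E => u (t, P) * conj (u' (t, P)) := by
  have e : ∀ w : I → E, tw τ u w P * conj (tw τ u' w P) =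
      cav fun t => u (t, P) * conj (chi τ w (t, P) * tw τ u' w P) := fun w => by
    rw [tw, ← cav_mul_right]; exact cav_congr fun t => by rw [map_mul]; ring
  simp only [e]
  rw [← cav_csm_comm]
  refine cav_congr fun t => ?_
  rw [csm_mul_left, ← conj_csm, tw_inv hτ]

lemma tw_parseval (hτ : τ.ND) (u : OmE E I → ℂ) (P : Om I) :
    (sm fun w => ‖tw τ u w P‖ ^ 2) = av fun t : I → E => ‖u (t, P)‖ ^ 2 := by
  have := tw_pars hτ u u P
  simp only [mul_conj'', csm_ofReal, cav_ofReal] at this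
  exact_mod_cast this

lemma ip_eq_tw (hτ : τ.ND) (u u' : OmE E I → ℂ) :
    ip u u' = csm fun w => ip (tw τ u w) (tw τ u' w) := by
  simp only [ip]
  rw [← cav_csm_comm, cav_prod, cav_comm]
  exact cav_congr fun P => (tw_pars hτ u u' P).symm

lemma n2_eq_tw (hτ : τ.ND) (u : OmE E I → ℂ) : n2 u = sm fun w => n2 (tw τ u w) := by
  have := ip_eq_tw hτ u u
  simp only [ip_self, csm_ofReal] at this
  exact_mod_cast this

lemma tw_add (τ : QT E) (u u' : OmE E I → ℂ) (w : I → E) (P : Om I) :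
    tw τ (fun x => u x + u' x) w P = tw τ u w P + tw τ u' w P := by
  simp only [tw, add_mul, cav_add]

lemma tw_sub (τ : QT E) (u u' : OmE E I → ℂ) (w : I → E) (P : Om I) :
    tw τ (fun x => u x - u' x) w P = tw τ u w P - tw τ u' w P := by
  simp only [tw, sub_mul, cav_sub]

lemma tw_mul_left (τ : QT E) (a : ℂ) (u : OmE E I → ℂ) (w : I → E) (P : Om I) :
    tw τ (fun x => a * u x) w P = a * tw τ u w P := by
  simp only [tw, mul_assoc, cav_mul_left]

lemma tw_csm {O : Type} [Finite O] (τ : QT E) (u : O → OmE E I → ℂ) (w : I → E) (P : Om I) :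
    tw τ (fun x => csm fun o => u o x) w P = csm fun o => tw τ (u o) w P := by
  simp only [tw, ← csm_mul_right, cav_csm_comm]

lemma tw_cav {O : Type} [Finite O] (τ : QT E) (u : O → OmE E I → ℂ) (w : I → E) (P : Om I) :
    tw τ (fun x => cav fun o => u o x) w P = cav fun o => tw τ (u o) w P := by
  simp only [tw, ← cav_mul_right]; rw [cav_comm]

lemma tw_shift (τ : QT E) (u : OmE E I → ℂ) (s w : I → E) (P : Om I) :
    tw τ (fun x => u (x.1 + s, x.2)) w P = ee (brk τ w s) * tw τ u w P := by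
  rw [tw, tw, ← cav_add_right (fun t => u (t, P) * conj (chi τ w (t, P))) s, ← cav_mul_left]
  refine cav_congr fun t => ?_
  have := ee_mul_conj (brk τ w s)
  rw [chi_shift, map_mul]
  linear_combination (-(u (t + s, P) * conj (chi τ w (t, P)))) * this

lemma norm_tw_le (τ : QT E) (u : OmE E I → ℂ) (w : I → E) (P : Om I) :
    ‖tw τ u w P‖ ≤ av fun t : I → E => ‖u (t, P)‖ := by
  simpa [tw] using norm_cav_le fun t : I → E => u (t, P) * conj (chi τ w (t, P))

lemma cf_eq_cav (τ : QT E) (u : OmE E I → ℂ) (w : I → E) : cf τ u w = cav (tw τ u w) := by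
  rw [cf, ip, cav_prod, cav_comm]; rfl

lemma cf_add (τ : QT E) (u u' : OmE E I → ℂ) (w : I → E) :
    cf τ (fun x => u x + u' x) w = cf τ u w + cf τ u' w := ip_add_left _ _ _

lemma cf_sub (τ : QT E) (u u' : OmE E I → ℂ) (w : I → E) :
    cf τ (fun x => u x - u' x) w = cf τ u w - cf τ u' w := ip_sub_left _ _ _

lemma cf_mul_left (τ : QT E) (a : ℂ) (u : OmE E I → ℂ) (w : I → E) :
    cf τ (fun x => a * u x) w = a * cf τ u w := ip_mul_left _ _ _

lemma cf_csm {O : Type} [Finite O] (τ : QT E) (u : O → OmE E I → ℂ) (w : I → E) :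
    cf τ (fun x => csm fun o => u o x) w = csm fun o => cf τ (u o) w := ip_csm_left _ _

lemma cf_cav {O : Type} [Finite O] (τ : QT E) (u : O → OmE E I → ℂ) (w : I → E) :
    cf τ (fun x => cav fun o => u o x) w = cav fun o => cf τ (u o) w := by
  simp only [cf, ip, ← cav_mul_right]; rw [cav_comm]

lemma cf_shift (τ : QT E) (u : OmE E I → ℂ) (s w : I → E) :
    cf τ (fun x => u (x.1 + s, x.2)) w = ee (brk τ w s) * cf τ u w := by
  rw [cf_eq_cav, cf_eq_cav, ← cav_mul_left]; exact cav_congr (tw_shift τ u s w)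

lemma norm_cf_le (τ : QT E) (u : OmE E I → ℂ) (w : I → E) :
    ‖cf τ u w‖ ≤ av fun x => ‖u x‖ := by
  simpa [cf, ip] using norm_cav_le fun x => u x * conj (chi τ w x)

lemma fen_eq_gram (τ : QT E) (u : OmE E I → ℂ) :
    (fen τ u : ℂ) = cav fun P => cav fun P' => gram τ u P P' := by
  simp only [gram, cav_csm_comm]
  rw [fen, ← csm_ofReal]
  refine csm_congr fun w => ?_
  rw [← mul_conj'', cf_eq_cav, conj_cav, cav_mul_cav]

lemma fen_eq_re (τ : QT E) (u : OmE E I → ℂ) :
    fen τ u = (cav fun P => cav fun P' => gram τ u P P').re := by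
  rw [← fen_eq_gram, Complex.ofReal_re]

lemma gram_self (hτ : τ.ND) (u : OmE E I → ℂ) (P : Om I) :
    gram τ u P P = (av (fun t : I → E => ‖u (t, P)‖ ^ 2) : ℝ) := by
  simp only [gram, mul_conj'', csm_ofReal, tw_parseval hτ]

lemma norm_gram_le (hτ : τ.ND) {u : OmE E I → ℂ} (hu : ∀ x, ‖u x‖ ≤ 1) (P P' : Om I) :
    ‖gram τ u P P'‖ ≤ 1 := by
  have h := norm_csm_cs (fun w => tw τ u w P) fun w => conj (tw τ u w P')
  simp only [Complex.norm_conj, tw_parseval hτ] at h
  have h1 : ∀ Q : Om I, (av fun t : I → E => ‖u (t, Q)‖ ^ 2) ≤ 1 := fun Q =>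
    n2_le_one (f := fun t : I → E => u (t, Q)) fun _ => hu _
  refine (sq_le_one_iff₀ (norm_nonneg _)).1 (h.trans ?_)
  exact mul_le_one₀ (h1 P) (av_nonneg fun _ => by positivity) (h1 P')

lemma gram_psd (τ : QT E) (u : OmE E I → ℂ) : PSD (gram τ u) := psd_gram τ u

lemma gram_shift (τ : QT E) (u : OmE E I → ℂ) (s : I → E) (P P' : Om I) :
    gram τ (fun x => u (x.1 + s, x.2)) P P' = gram τ u P P' := by
  refine csm_congr fun w => ?_
  have := ee_mul_conj (brk τ w s)
  rw [tw_shift, tw_shift, map_mul]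
  linear_combination (tw τ u w P * conj (tw τ u w P')) * this

lemma fld_add (τ : QT E) (c c' : (I → E) → ℂ) (x : OmE E I) :
    fld τ (fun w => c w + c' w) x = fld τ c x + fld τ c' x := by
  simp only [fld, add_mul, csm_add]

lemma fld_sub (τ : QT E) (c c' : (I → E) → ℂ) (x : OmE E I) :
    fld τ (fun w => c w - c' w) x = fld τ c x - fld τ c' x := by
  simp only [fld, sub_mul, csm_sub]

lemma fld_mul_left (τ : QT E) (a : ℂ) (c : (I → E) → ℂ) (x : OmE E I) :
    fld τ (fun w => a * c w) x = a * fld τ c x := by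
  simp only [fld, mul_assoc, csm_mul_left]

omit [Finite E] [Finite I] in
lemma fld_zero (τ : QT E) (x : OmE E I) : fld τ (fun _ => 0) x = 0 := by
  simp only [fld, zero_mul, csm_zero]

lemma fld_csm {O : Type} [Finite O] (τ : QT E) (c : O → (I → E) → ℂ) (x : OmE E I) :
    fld τ (fun w => csm fun o => c o w) x = csm fun o => fld τ (c o) x := by
  simp only [fld, ← csm_mul_right]; rw [csm_comm]

lemma fld_cav {O : Type} [Finite O] (τ : QT E) (c : O → (I → E) → ℂ) (x : OmE E I) :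
    fld τ (fun w => cav fun o => c o w) x = cav fun o => fld τ (c o) x := by
  simp only [fld, ← cav_mul_right, cav_csm_comm]

omit [Finite E] in
lemma fld_shift (τ : QT E) (c : (I → E) → ℂ) (s : I → E) (x : OmE E I) :
    fld τ c (x.1 + s, x.2) = fld τ (fun w => ee (brk τ w s) * c w) x :=
  csm_congr fun w => by rw [chi_shift]; ring

lemma norm_fld_le (τ : QT E) (c : (I → E) → ℂ) (x : OmE E I) :
    ‖fld τ c x‖ ≤ sm fun w => ‖c w‖ := by
  simpa [fld] using norm_csm_le fun w => c w * chi τ w x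

/-- the projection on fields is bounded by the `L1` norm -/
lemma norm_fld_cf_le (τ : QT E) (u : OmE E I → ℂ) (x : OmE E I) :
    ‖fld τ (cf τ u) x‖ ≤ (Nat.card E : ℝ) ^ Nat.card I * av fun y => ‖u y‖ := by
  refine (norm_fld_le _ _ _).trans ((sm_mono (norm_cf_le τ u)).trans (le_of_eq ?_))
  rw [sm_const, Nat.card_fun]; push_cast; rfl

lemma tw_fld (hτ : τ.ND) (c : (I → E) → ℂ) (w : I → E) (P : Om I) :
    tw τ (fld τ c) w P = c w := by
  simp only [tw, fld, ← csm_mul_right, cav_csm_comm, mul_assoc, cav_mul_left, chi_orth hτ,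
    ph_mul_conj, mul_one]
  rw [← csm_ind_eq w c]; exact csm_congr fun _ => mul_comm _ _

lemma cf_fld (hτ : τ.ND) (c : (I → E) → ℂ) : cf τ (fld τ c) = c := by
  funext w
  rw [cf_eq_cav, cav_congr (tw_fld hτ c w), cav_const]

lemma av_fld_sq (hτ : τ.ND) (c : (I → E) → ℂ) (P : Om I) :
    (av fun t : I → E => ‖fld τ c (t, P)‖ ^ 2) = sm fun w => ‖c w‖ ^ 2 := by
  simp only [← tw_parseval hτ, tw_fld hτ]

lemma n2_fld (hτ : τ.ND) (c : (I → E) → ℂ) : n2 (fld τ c) = sm fun w => ‖c w‖ ^ 2 := by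
  rw [n2, av_prod, av_comm]
  simp only [av_fld_sq hτ]
  exact av_const _

lemma fen_fld (hτ : τ.ND) (c : (I → E) → ℂ) : fen τ (fld τ c) = n2 (fld τ c) := by
  rw [fen, cf_fld hτ, n2_fld hτ]

lemma n2_fld_cf (hτ : τ.ND) (u : OmE E I → ℂ) : n2 (fld τ (cf τ u)) = fen τ u := n2_fld hτ _

lemma ip_fld (τ : QT E) (u : OmE E I → ℂ) (c : (I → E) → ℂ) :
    ip u (fld τ c) = csm fun w => cf τ u w * conj (c w) := by
  rw [show fld τ c = fun x => csm fun w => c w * chi τ w x from rfl, ip_csm_right]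
  exact csm_congr fun w => by rw [ip_mul_right, mul_comm]; rfl

lemma ip_fld_cf (τ : QT E) (u : OmE E I → ℂ) : ip u (fld τ (cf τ u)) = (fen τ u : ℝ) := by
  simp only [ip_fld, mul_conj'', csm_ofReal, fen]

/-- the inner product with the part of the projection on a set of labels -/
lemma ip_fld_ind (τ : QT E) (p : (I → E) → Prop) (u : OmE E I → ℂ) :
    ip u (fld τ fun w => (ind (p w) : ℝ) * cf τ u w) =
      (sm (fun w => ind (p w) * ‖cf τ u w‖ ^ 2) : ℝ) := by
  rw [ip_fld, ← csm_ofReal]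
  refine csm_congr fun w => ?_
  rw [map_mul, Complex.conj_ofReal, mul_left_comm, mul_conj'', Complex.ofReal_mul]

omit [AddCommGroup E] [Finite E] [Finite I] in
lemma sm_ind_sq (p : (I → E) → Prop) (c : (I → E) → ℂ) :
    (sm fun w => ‖((ind (p w) : ℝ) : ℂ) * c w‖ ^ 2) = sm fun w => ind (p w) * ‖c w‖ ^ 2 :=
  sm_congr fun w => by
    rw [norm_mul, Complex.norm_real, Real.norm_eq_abs, abs_ind, mul_pow, ind_sq]

lemma fen_nonneg (τ : QT E) (u : OmE E I → ℂ) : 0 ≤ fen τ u := sm_nonneg fun _ => by positivity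

lemma En_nonneg (τ : QT E) (u : OmE E I → ℂ) : 0 ≤ En τ u :=
  sm_nonneg fun _ => mul_nonneg (ind_nonneg _) (by positivity)

lemma ng_nonneg (τ : QT E) (u : OmE E I → ℂ) : 0 ≤ ng τ u :=
  sm_nonneg fun _ => mul_nonneg (ind_nonneg _) (by positivity)

lemma fen_eq_add (τ : QT E) (u : OmE E I → ℂ) : fen τ u = En τ u + ng τ u := by
  rw [fen, En, ng, ← sm_add]; exact sm_congr fun w => by rw [ind_not]; ring

lemma En_le_fen (τ : QT E) (u : OmE E I → ℂ) : En τ u ≤ fen τ u := by
  rw [fen_eq_add]; linarith [ng_nonneg τ u]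

lemma ng_le_fen (τ : QT E) (u : OmE E I → ℂ) : ng τ u ≤ fen τ u := by
  rw [fen_eq_add]; linarith [En_nonneg τ u]

lemma fen_shift (τ : QT E) (u : OmE E I → ℂ) (s : I → E) :
    fen τ (fun x => u (x.1 + s, x.2)) = fen τ u := by
  simp only [fen, cf_shift, norm_mul, norm_ee, one_mul]

lemma En_shift (τ : QT E) (u : OmE E I → ℂ) (s : I → E) :
    En τ (fun x => u (x.1 + s, x.2)) = En τ u := by
  simp only [En, cf_shift, norm_mul, norm_ee, one_mul]

lemma ng_shift (τ : QT E) (u : OmE E I → ℂ) (s : I → E) :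
    ng τ (fun x => u (x.1 + s, x.2)) = ng τ u := by
  simp only [ng, cf_shift, norm_mul, norm_ee, one_mul]

lemma fen_mul_left (τ : QT E) (a : ℂ) (u : OmE E I → ℂ) :
    fen τ (fun x => a * u x) = ‖a‖ ^ 2 * fen τ u := by
  simp only [fen, cf_mul_left, norm_mul, mul_pow, sm_mul_left]

lemma En_mul_left (τ : QT E) (a : ℂ) (u : OmE E I → ℂ) :
    En τ (fun x => a * u x) = ‖a‖ ^ 2 * En τ u := by
  simp only [En, cf_mul_left, norm_mul, mul_pow, ← sm_mul_left, mul_left_comm]

lemma ng_mul_left (τ : QT E) (a : ℂ) (u : OmE E I → ℂ) :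
    ng τ (fun x => a * u x) = ‖a‖ ^ 2 * ng τ u := by
  simp only [ng, cf_mul_left, norm_mul, mul_pow, ← sm_mul_left, mul_left_comm]

/-- energies on a set of labels are convex -/
lemma lab_cav_le {O : Type} [Finite O] (τ : QT E) (p : (I → E) → Prop) (u : O → OmE E I → ℂ) :
    (sm fun w => ind (p w) * ‖cf τ (fun x => cav fun o => u o x) w‖ ^ 2) ≤
      av fun o => sm fun w => ind (p w) * ‖cf τ (u o) w‖ ^ 2 := by
  rw [av_sm_comm]
  refine sm_mono fun w => ?_
  rw [av_mul_left, cf_cav]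
  exact mul_le_mul_of_nonneg_left (norm_cav_sq_le _) (ind_nonneg _)

lemma ng_cav_le {O : Type} [Finite O] (τ : QT E) (u : O → OmE E I → ℂ) :
    ng τ (fun x => cav fun o => u o x) ≤ av fun o => ng τ (u o) := lab_cav_le τ _ u

lemma En_cav_le {O : Type} [Finite O] (τ : QT E) (u : O → OmE E I → ℂ) :
    En τ (fun x => cav fun o => u o x) ≤ av fun o => En τ (u o) := lab_cav_le τ _ u

lemma fen_cav_le {O : Type} [Finite O] (τ : QT E) (u : O → OmE E I → ℂ) :
    fen τ (fun x => cav fun o => u o x) ≤ av fun o => fen τ (u o) := by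
  simpa only [fen, ind_pos trivial, one_mul] using lab_cav_le τ (fun _ => True) u

/-- energy on a set of labels dominates the quadratic functional -/
lemma lab_ge (τ : QT E) (p : (I → E) → Prop) (u : OmE E I → ℂ) (c : (I → E) → ℂ)
    (hc : ∀ w, ¬ p w → c w = 0) :
    2 * (ip u (fld τ c)).re - (sm fun w => ‖c w‖ ^ 2) ≤ sm fun w => ind (p w) * ‖cf τ u w‖ ^ 2 := by
  rw [ip_fld, csm_re, ← sm_mul_left, ← sm_sub]
  refine sm_mono fun w => ?_
  by_cases h : p w
  · have := Complex.normSq_nonneg (cf τ u w - c w)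
    rw [Complex.normSq_sub] at this
    rw [ind_pos h, Complex.sq_norm, Complex.sq_norm]; linarith
  · simp [hc w h, ind_neg h]

lemma fen_ge (τ : QT E) (u : OmE E I → ℂ) (c : (I → E) → ℂ) :
    2 * (ip u (fld τ c)).re - (sm fun w => ‖c w‖ ^ 2) ≤ fen τ u := by
  simpa only [fen, ind_pos trivial, one_mul] using
    lab_ge τ (fun _ => True) u c fun _ h => absurd trivial h

lemma ng_ge (τ : QT E) (u : OmE E I → ℂ) (c : (I → E) → ℂ) (hc : ∀ w, Gen w → c w = 0) :
    2 * (ip u (fld τ c)).re - (sm fun w => ‖c w‖ ^ 2) ≤ ng τ u :=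
  lab_ge τ _ u c fun w h => hc w (not_not.1 h)

lemma En_ge (τ : QT E) (u : OmE E I → ℂ) (c : (I → E) → ℂ) (hc : ∀ w, ¬ Gen w → c w = 0) :
    2 * (ip u (fld τ c)).re - (sm fun w => ‖c w‖ ^ 2) ≤ En τ u := lab_ge τ _ u c hc

/-- Pythagoras for the projection on fields -/
lemma n2_sub_fld (hτ : τ.ND) (u : OmE E I → ℂ) :
    n2 (fun x => u x - fld τ (cf τ u) x) = n2 u - fen τ u := by
  rw [n2_sub, ip_fld_cf, n2_fld_cf hτ, Complex.ofReal_re]; ring

lemma fen_le_n2 (hτ : τ.ND) (u : OmE E I → ℂ) : fen τ u ≤ n2 u := by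
  have := n2_nonneg fun x => u x - fld τ (cf τ u) x
  rw [n2_sub_fld hτ] at this; linarith

lemma En_fld (hτ : τ.ND) (c : (I → E) → ℂ) :
    En τ (fld τ c) = sm fun w => ind (Gen w) * ‖c w‖ ^ 2 := by rw [En, cf_fld hτ]

lemma ng_fld (hτ : τ.ND) (c : (I → E) → ℂ) :
    ng τ (fld τ c) = sm fun w => ind (¬ Gen w) * ‖c w‖ ^ 2 := by rw [ng, cf_fld hτ]

end NE
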