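import Pool.Agent.Lib.MP_ecee09_co.NE.AMD
import Pool.Agent.Lib.MP_ecee09_co.NE.Fld

/-! Expansion of the moment into row patterns, and the calculus of label projections. -/

namespace NE

open SD (F sm av ind cnt Tame pm)
open ComplexConjugate

section cjs

@[simp] lemma amS_true (a : TT) : amS true a = -a := rfl

@[simp] lemma amS_false (a : TT) : amS false a = a := rfl

lemma amS_add (b : Bool) (a a' : TT) : amS b (a + a') = amS b a + amS b a' := by
  cases b <;> simp [add_comm]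

@[simp] lemma amS_zero (b : Bool) : amS b 0 = 0 := by cases b <;> simp

lemma amS_neg (b : Bool) (a : TT) : amS b (-a) = -amS b a := by cases b <;> simp

lemma amS_sub (b : Bool) (a a' : TT) : amS b (a - a') = amS b a - amS b a' := by
  rw [sub_eq_add_neg, amS_add, amS_neg, ← sub_eq_add_neg]

lemma amS_nsmul (b : Bool) (n : ℕ) (a : TT) : amS b (n • a) = n • amS b a := by
  cases b <;> simp

lemma amS_sum {ι : Type} (b : Bool) (s : Finset ι) (f : ι → TT) :
    amS b (∑ i ∈ s, f i) = ∑ i ∈ s, amS b (f i) := by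
  cases b <;> simp

lemma amS_not (b : Bool) (a : TT) : amS (!b) a = -amS b a := by cases b <;> simp

lemma amS_eq_zero {b : Bool} {a : TT} : amS b a = 0 ↔ a = 0 := by cases b <;> simp

lemma cj_ee (b : Bool) (a : TT) : cj b (ee a) = ee (amS b a) := by
  cases b
  · rfl
  · exact conj_ee a

lemma cj_mul (b : Bool) (z z' : ℂ) : cj b (z * z') = cj b z * cj b z' := by
  cases b <;> simp

@[simp] lemma norm_cj (b : Bool) (z : ℂ) : ‖cj b z‖ = ‖z‖ := by cases b <;> simp

lemma cj_not (b : Bool) (z : ℂ) : cj (!b) z = conj (cj b z) := by cases b <;> simp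

lemma cj_conj (b : Bool) (z : ℂ) : cj b (conj z) = conj (cj b z) := by cases b <;> simp

lemma cj_ofReal (b : Bool) (x : ℝ) : cj b (x : ℂ) = x := by cases b <;> simp

lemma cj_csm {α : Type} [Finite α] (b : Bool) (f : α → ℂ) :
    cj b (csm f) = csm fun x => cj b (f x) := by
  cases b
  · rfl
  · exact conj_csm f

lemma cj_cav {α : Type} [Finite α] (b : Bool) (f : α → ℂ) :
    cj b (cav f) = cav fun x => cj b (f x) := by
  cases b
  · rfl
  · exact conj_cav f

/-- the product is at most the mean of the powers -/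
lemma am1_gm {R : ℕ} (hR : R ≠ 0) (a : Fin R → ℝ) (ha : ∀ r, 0 ≤ a r) :
    ∏ r, a r ≤ ∑ r, (R : ℝ)⁻¹ * a r ^ R := by
  have h := Real.geom_mean_le_arith_mean_weighted Finset.univ (fun _ : Fin R => (R : ℝ)⁻¹)
    (fun r => a r ^ R) (fun _ _ => by positivity)
    (by simp only [Finset.sum_const, Finset.card_univ, Fintype.card_fin, nsmul_eq_mul]
        exact mul_inv_cancel₀ (Nat.cast_ne_zero.2 hR))
    (fun r _ => pow_nonneg (ha r) _)
  simpa only [Real.pow_rpow_inv_natCast (ha _) hR] using h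

end cjs

section
variable {E B G : Type} [AddCommGroup E] [AddCommGroup G] {R : ℕ} {τ : QT E}

lemma sB_eq (τ : QT E) (ε : Fin R → Bool) (x y : Fin R → E) :
    sB τ ε x y = ∑ r, amS (ε r) (τ.be (x r) (y r)) := rfl

lemma amT_q (τ : QT E) (ε : Fin R → Bool) (y : Fin R → E) :
    (amT τ ε).q y = ∑ r, amS (ε r) (τ.q (y r)) := rfl

lemma sB_single (τ : QT E) (ε : Fin R → Bool) (x : Fin R → E) (r : Fin R) (e : E) :
    sB τ ε x (Pi.single r e) = amS (ε r) (τ.be (x r) e) := by
  rw [sB_eq, Finset.sum_eq_single r]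
  · rw [Pi.single_eq_same]
  · intro j _ hj
    rw [Pi.single_eq_of_ne hj, map_zero, amS_zero]
  · intro hr
    exact absurd (Finset.mem_univ r) hr

lemma amT_nd (h : τ.ND) (ε : Fin R → Bool) : (amT τ ε).ND := by
  intro x hx
  funext r
  refine h _ (AddMonoidHom.ext fun e => ?_)
  have h1 : sB τ ε x (Pi.single r e) = 0 := by
    rw [← amT_be, hx]; rfl
  rw [sB_single] at h1
  exact amS_eq_zero.1 h1

lemma amT_cz (τ : QT E) (ε : Fin R → Bool) (x : B → Fin R → E) (c : Sym2 B) :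
    cz (amT τ ε) x c = ∑ r, amS (ε r) (cz τ (fun l => x l r) c) := by
  induction c using Sym2.ind with
  | h i j =>
    by_cases hij : i = j
    · subst hij
      simp only [cz_self, amT_q]
    · simp only [cz_ne _ _ hij, amT_be, sB_eq]

variable [Finite B]

lemma amT_th (τ : QT E) (ε : Fin R → Bool) (x : B → Fin R → E) (P : Om B) :
    th (amT τ ε) x P = ∑ r, amS (ε r) (th τ (fun l => x l r) P) := by
  let _ := Fintype.ofFinite (Sym2 B)
  simp only [th_eq, amT_cz, amS_sum, amS_nsmul, Finset.smul_sum]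
  exact Finset.sum_comm

lemma amT_ph (τ : QT E) (ε : Fin R → Bool) (x : B → Fin R → E) (P : Om B) :
    ∏ r, cj (ε r) (ph τ (fun l => x l r) P) = ph (amT τ ε) x P := by
  simp only [ph, cj_ee, amT_th, ee_sum]

lemma amT_brk (τ : QT E) (ε : Fin R → Bool) (x y : B → Fin R → E) :
    brk (amT τ ε) x y = ∑ r, amS (ε r) (brk τ (fun l => x l r) fun l => y l r) := by
  let _ := Fintype.ofFinite B
  simp only [brk_eq, amT_be, sB_eq, amS_sum]
  exact Finset.sum_comm

variable [Finite E]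

omit [Finite E] [Finite B] in
lemma lp3_eq_tw (τ : QT E) (s : (B → E) →+ G) (k : G → ℂ) (w : B → E) (b : G) :
    lp3 τ s k w b = tw τ (fun x : OmE E B => k (b + s x.1)) w 0 := by
  simp only [lp3, tw, chi, th_zero_right, add_zero]

lemma lp3_shift (τ : QT E) (s : (B → E) →+ G) (k : G → ℂ) (w : B → E) (b : G) (h : B → E) :
    lp3 τ s k w (b + s h) = ee (brk τ w h) * lp3 τ s k w b := by
  rw [lp3_eq_tw, lp3_eq_tw, ← tw_shift]
  congr 1
  funext x
  rw [map_add, add_assoc, add_comm (s h)]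

lemma csm_lp3_ee (hτ : τ.ND) (s : (B → E) →+ G) (k : G → ℂ) (b : G) (h : B → E) :
    csm (fun w => ee (brk τ w h) * lp3 τ s k w b) = k (b + s h) := by
  have := tw_inv hτ (fun x : OmE E B => k (b + s x.1)) h 0
  simpa only [chi, th_zero_right, add_zero, ← lp3_eq_tw] using this

lemma csm_lp3 (hτ : τ.ND) (s : (B → E) →+ G) (k : G → ℂ) (b : G) :
    csm (fun w => lp3 τ s k w b) = k b := by
  have := csm_lp3_ee hτ s k b 0
  simpa only [brk_zero_right, ee_zero, one_mul, map_zero, add_zero] using this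

lemma lp3_pars (hτ : τ.ND) (s : (B → E) →+ G) (k k' : G → ℂ) (b b' : G) :
    csm (fun w => lp3 τ s k w b * conj (lp3 τ s k' w b')) =
      cav fun h => k (b + s h) * conj (k' (b' + s h)) := by
  simp only [lp3_eq_tw]
  exact tw_pars hτ _ _ 0

lemma lp3_parseval (hτ : τ.ND) (s : (B → E) →+ G) (k : G → ℂ) (b : G) :
    sm (fun w => ‖lp3 τ s k w b‖ ^ 2) = av fun h => ‖k (b + s h)‖ ^ 2 := by
  simp only [lp3_eq_tw]
  exact tw_parseval hτ _ 0

lemma norm_lp3_le (τ : QT E) (s : (B → E) →+ G) (k : G → ℂ) (w : B → E) (b : G) :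
    ‖lp3 τ s k w b‖ ≤ av fun h => ‖k (b + s h)‖ := by
  rw [lp3_eq_tw]
  exact norm_tw_le τ _ w 0

lemma norm_lp3_shift (τ : QT E) (s : (B → E) →+ G) (k : G → ℂ) (w : B → E) (b : G) (h : B → E) :
    ‖lp3 τ s k w (b + s h)‖ = ‖lp3 τ s k w b‖ := by
  rw [lp3_shift, norm_mul, norm_ee, one_mul]

lemma conj_lp3 (τ : QT E) (s : (B → E) →+ G) (k : G → ℂ) (w : B → E) (b : G) :
    conj (lp3 τ s k w b) = lp3 τ s (fun g => conj (k g)) (-w) b := by
  simp only [lp3, conj_cav, map_mul, brk_neg_left, conj_ee, neg_neg]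

lemma cj_lp3 (τ : QT E) (s : (B → E) →+ G) (k : G → ℂ) (e : Bool) (w : B → E) (b : G) :
    cj e (lp3 τ s k w b) =
      cav fun h : B → E => cj e (k (b + s h)) * ee (-amS e (brk τ w h)) := by
  simp only [lp3, cj_cav, cj_mul, conj_ee, cj_ee, amS_neg]

lemma norm_lp3_pow_le (τ : QT E) (s : (B → E) →+ G) (k : G → ℂ) (w : B → E) (b : G) (p : ℕ) :
    ‖lp3 τ s k w b‖ ^ p ≤ av fun h => ‖k (b + s h)‖ ^ p := by
  refine (norm_cav_pow_le _ p).trans (le_of_eq (SD.av_congr fun h => ?_))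
  rw [norm_mul, RCLike.norm_conj, norm_ee, mul_one]

variable [Finite G]

lemma av_lp3_pow_le (τ : QT E) (s : (B → E) →+ G) (k : G → ℂ) (w : B → E) (g : G) (p : ℕ) :
    av (fun b => ‖lp3 τ s k w (b + g)‖ ^ p) ≤ av fun b => ‖k b‖ ^ p := by
  rw [SD.av_add_right (fun b => ‖lp3 τ s k w b‖ ^ p) g,
    ← SD.av_shift (fun b => ‖k b‖ ^ p) fun h : B → E => s h]
  exact SD.av_mono fun b => norm_lp3_pow_le τ s k w b p

lemma amM_shift (τ : QT E) (s : (B → E) →+ G) (k : G → ℂ) (ε : Fin R → Bool)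
    (t γ : Fin R → B → E) (x : B → Fin R → E) :
    amM τ s k ε (t + γ) x =
      ee (∑ r, amS (ε r) (brk τ (fun l => x l r) (γ r))) * amM τ s k ε t x := by
  simp only [amM, ← cav_mul_left, ee_sum, ← Finset.prod_mul_distrib]
  refine cav_congr fun b => Finset.prod_congr rfl fun r _ => ?_
  rw [Pi.add_apply, map_add, ← add_assoc, lp3_shift, cj_mul, cj_ee]

lemma amM_shift' (τ : QT E) (s : (B → E) →+ G) (k : G → ℂ) (ε : Fin R → Bool)
    (t γ : Fin R → B → E) (x : B → Fin R → E) :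
    amM τ s k ε (t + γ) x = ee (brk (amT τ ε) x fun l r => γ r l) * amM τ s k ε t x := by
  rw [amM_shift, amT_brk]

omit [Finite E] [Finite B] [Finite G] in
lemma amM_diag (τ : QT E) (s : (B → E) →+ G) (k : G → ℂ) (ε : Fin R → Bool)
    (t : Fin R → B → E) (h : B → E) (x : B → Fin R → E) :
    amM τ s k ε (t + fun _ => h) x = amM τ s k ε t x := by
  unfold amM
  rw [← cav_add_right (fun b => ∏ r, cj (ε r) (lp3 τ s k (fun l => x l r) (b + s (t r)))) (s h)]
  refine cav_congr fun b => Finset.prod_congr rfl fun r _ => ?_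
  rw [Pi.add_apply, map_add, add_assoc, add_comm (s h)]

lemma amM_expand (τ : QT E) (s : (B → E) →+ G) (k : G → ℂ) (ε : Fin R → Bool)
    (t : Fin R → B → E) (P : Om B) :
    (cav fun b => ∏ r, cj (ε r) (tk τ s k P (b + s (t r)))) =
      csm fun x => ph (amT τ ε) x P * amM τ s k ε t x := by
  simp only [tk, cj_csm, prod_csm, amM, ← cav_mul_left]
  rw [cav_csm_comm, ← csm_equiv (Equiv.piComm fun (_ : B) (_ : Fin R) => E)]
  refine csm_congr fun x => cav_congr fun b => ?_
  simp only [cj_mul, Finset.prod_mul_distrib, ← amT_ph]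
  rfl

lemma norm_amM_le (τ : QT E) (s : (B → E) →+ G) (k : G → ℂ) (ε : Fin R → Bool)
    (t : Fin R → B → E) (x : B → Fin R → E) :
    ‖amM τ s k ε t x‖ ≤ 1 + av fun b => ‖k b‖ ^ R := by
  have h0 : 0 ≤ av fun b => ‖k b‖ ^ R := SD.av_nonneg fun b => by positivity
  refine (norm_cav_le _).trans ?_
  simp only [norm_prod, norm_cj]
  rcases Nat.eq_zero_or_pos R with hR | hR
  · subst hR
    simp only [Finset.univ_eq_empty, Finset.prod_empty]
    linarith [SD.av_one_le (α := G)]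
  · refine (SD.av_mono fun b => am1_gm hR.ne' _ fun r => norm_nonneg _).trans ?_
    rw [SD.av_sum]
    have h1 : ∀ r : Fin R, (av fun b => (R : ℝ)⁻¹ *
        ‖lp3 τ s k (fun l => x l r) (b + s (t r))‖ ^ R) ≤ (R : ℝ)⁻¹ * av fun b => ‖k b‖ ^ R :=
      fun r => by
        rw [SD.av_mul_left]
        exact mul_le_mul_of_nonneg_left (av_lp3_pow_le τ s k _ _ R) (by positivity)
    refine (Finset.sum_le_sum fun r _ => h1 r).trans ?_
    rw [Finset.sum_const, Finset.card_univ, Fintype.card_fin, nsmul_eq_mul, ← mul_assoc,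
      mul_inv_cancel₀ (Nat.cast_ne_zero.2 hR.ne'), one_mul]
    linarith

lemma amM_eq_zero (τ : QT E) (s : (B → E) →+ G) (k : G → ℂ) (ε : Fin R → Bool)
    (t : Fin R → B → E) (x : B → Fin R → E) (l : B) (e : E)
    (h : sB τ ε (x l) (fun _ => e) ≠ 0) : amM τ s k ε t x = 0 := by
  classical
  have h1 := amM_shift τ s k ε t (fun _ => Pi.single l e) x
  rw [amM_diag] at h1
  simp only [brk_single_right] at h1
  rw [← sB_eq τ ε (x l) fun _ => e] at h1
  by_contra h2
  exact h (ee_eq_one.1 (mul_right_cancel₀ h2 (h1.symm.trans (one_mul _).symm)))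

end

theorem am1 {E : Type} [AddCommGroup E] [Finite E] (τ : QT E) : AM1 τ :=
  fun _ _ _ _ _ s k _ ε t =>
    ⟨amM_expand τ s k ε t, norm_amM_le τ s k ε t, amM_eq_zero τ s k ε t⟩

end NE
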