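import Pool.Agent.Lib.MP_ecee09_co.NE.AMD

/-! Damping of row patterns whose popular group is not isotropic. -/

namespace NE

open SD (F sm av ind cnt Tame)

lemma am2_bit (e : ℂ) : cav (fun b : F => if b = 0 then 1 else e) = (1 + e) / 2 := by
  rw [cav_eq, ZMod.card]
  have : (Finset.univ : Finset F) = {0, 1} := by decide
  rw [this, Finset.sum_pair zero_ne_one, if_pos rfl, if_neg one_ne_zero]
  norm_num

/-- many free pairs with a damped factor -/
lemma am2_gen {E I K : Type} [AddCommGroup E] [Finite I] (σ : QT E) (x : I → E) (Φ : Lab I K)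
    (P0 : Om K) {c0 : ℝ} (S : Finset (Sym2 I))
    (hS : ∀ c ∈ S, lab2 Φ c = none ∧ ‖(1 + ee (cz σ x c)) / 2‖ ≤ c0) :
    ‖cav fun z : Om I => ph σ x (ow z Φ P0)‖ ≤ c0 ^ S.card := by
  classical
  let _ := Fintype.ofFinite I
  have e : ∀ z : Om I, ph σ x (ow z Φ P0) = ∏ c, (fun c (b : F) =>
      if (lab2 Φ c).elim b P0 = 0 then (1 : ℂ) else ee (cz σ x c)) c (z c) :=
    fun z => ph_eq_prod σ x _
  rw [cav_congr e, ← prod_cav (fun c (b : F) =>
      if (lab2 Φ c).elim b P0 = 0 then (1 : ℂ) else ee (cz σ x c)), norm_prod,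
    ← Finset.prod_mul_prod_compl S, ← Finset.prod_const]
  refine (mul_le_of_le_one_right (Finset.prod_nonneg fun _ _ => norm_nonneg _)
    (Finset.prod_le_one (fun _ _ => norm_nonneg _) fun c _ => ?_)).trans
    (Finset.prod_le_prod (fun _ _ => norm_nonneg _) fun c hc => ?_)
  · refine norm_cav_le_const zero_le_one fun b => ?_
    split_ifs
    · simp
    · exact (norm_ee _).le
  · simp only [(hS c hc).1, Option.elim_none]
    rw [am2_bit]
    exact (hS c hc).2

lemma am2_card {Y : Type} [DecidableEq Y] (A B : Finset Y) {M : ℕ} (hA : M ≤ A.card)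
    (hB : M ≤ B.card) :
    M * (M - 1) / 2 ≤ (((A ×ˢ B).filter fun p => p.1 ≠ p.2).image fun p => s(p.1, p.2)).card := by
  have h1 : M * (M - 1) ≤ ((A ×ˢ B).filter fun p => p.1 ≠ p.2).card := by
    rw [Finset.card_eq_sum_card_fiberwise (f := Prod.fst) (t := A) fun p hp =>
      (Finset.mem_product.1 (Finset.mem_filter.1 hp).1).1]
    refine (Nat.mul_le_mul_right _ hA).trans (Finset.card_nsmul_le_sum A _ _ fun a ha => ?_)
    refine ((Nat.sub_le_sub_right hB 1).trans (Finset.pred_card_le_card_erase (a := a))).trans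
      (Finset.card_le_card_of_injOn (fun b => (a, b)) (fun b hb => ?_)
        fun b _ b' _ e => congrArg Prod.snd e)
    have := Finset.mem_erase.1 hb
    simp [ha, this.2, this.1.symm]
  have h2 := Finset.card_le_mul_card_image (f := fun p : Y × Y => s(p.1, p.2))
    ((A ×ˢ B).filter fun p => p.1 ≠ p.2) 2 fun c _ => by
      induction c using Sym2.ind with
      | _ i j =>
        refine (Finset.card_le_card (t := {(i, j), (j, i)}) ?_).trans Finset.card_le_two
        rintro ⟨a, b⟩ hp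
        simpa using (Finset.mem_filter.1 hp).2
  omega

theorem am2 {E : Type} [AddCommGroup E] [Finite E] (τ : QT E) : AM2 τ := by
  classical
  intro c0 hc Y Z _ _ R M ε x P0 hn
  let _ := Fintype.ofFinite Y
  obtain ⟨y, hy, y', hy', hne⟩ : ∃ y, M ≤ {l : Y | x (Sum.inl l) = y}.ncard ∧
      ∃ y', M ≤ {l : Y | x (Sum.inl l) = y'}.ncard ∧ sB τ ε y y' ≠ 0 := by
    by_contra hc
    push Not at hc
    refine hn fun a ha b hb => ?_
    have h1 : ∀ y', M ≤ {l : Y | x (Sum.inl l) = y'}.ncard → (amT τ ε).be y' a = 0 := by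
      intro y' hy'
      exact (AddSubgroup.closure_le ((amT τ ε).be y').ker).2 (fun y hy => hc y' hy' y hy) ha
    exact (AddSubgroup.closure_le ((amT τ ε).be a).ker).2
      (fun y hy => ((amT τ ε).symm a y).trans (h1 y hy)) hb
  have hd : ‖(1 + ee (sB τ ε y y')) / 2‖ ≤ c0 := by
    refine hc.2.2 _ ?_ hne
    rw [sB, Finset.smul_sum]
    refine Finset.sum_eq_zero fun r _ => ?_
    split_ifs
    · rw [smul_neg, τ.card_be, neg_zero]
    · exact τ.card_be _ _
  let A : Finset (Y ⊕ Z) := ({l : Y | x (Sum.inl l) = y}.toFinset).map ⟨_, Sum.inl_injective⟩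
  let B : Finset (Y ⊕ Z) := ({l : Y | x (Sum.inl l) = y'}.toFinset).map ⟨_, Sum.inl_injective⟩
  have h := am2_card A B (M := M) (by rwa [Finset.card_map, ← Set.ncard_eq_toFinset_card'])
    (by rwa [Finset.card_map, ← Set.ncard_eq_toFinset_card'])
  refine (am2_gen _ x _ P0 _ fun c hc' => ?_).trans (pow_le_pow_of_le_one hc.1 hc.2.1.le h)
  obtain ⟨⟨a, b⟩, hp, rfl⟩ := Finset.mem_image.1 hc'
  obtain ⟨hp, hab⟩ := Finset.mem_filter.1 hp
  obtain ⟨ha, hb⟩ := Finset.mem_product.1 hp
  obtain ⟨a, ha1, rfl⟩ := Finset.mem_map.1 ha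
  obtain ⟨b, hb1, rfl⟩ := Finset.mem_map.1 hb
  refine ⟨lab2_none_left ((crd_eq_none Sum.inr_injective).2 (by simp)) _, ?_⟩
  rw [cz_ne _ _ hab]
  have ha' : x (Sum.inl a) = y := by simpa using ha1
  have hb' : x (Sum.inl b) = y' := by simpa using hb1
  simp only [Function.Embedding.coeFn_mk, ha', hb', amT_be]
  exact hd

end NE
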