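import Pool.Agent.Lib.MP_ecee09_co.NE.AMD
import Pool.Agent.Lib.MP_ecee09_co.SD.MOMa

/-! Inclusion and exclusion over isotropic groups; the number of exceptional patterns. -/

namespace NE

open SD

variable {E Y Z : Type} [AddCommGroup E] {τ : QT E} {R : ℕ} {ε : Fin R → Bool}
  {m m' : Fin R → Fin R}

lemma am3_iso (hm : amV E ε m) : amIso τ ε (amP E m) := by
  have k : ∀ a ∈ amP E m, ∀ b ∈ amP E m, sB τ ε a b = 0 := fun a ha b hb =>
    Finset.sum_involution (fun r _ => m r) (fun r _ => by
      rw [ha r, hb r]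
      by_cases h : ε (m r) = ε r
      · have : τ.be (a r) (b r) + τ.be (a r) (b r) = 0 := by
          rw [← map_add, ← two_nsmul, hm.2.2 r h, map_zero]
        rw [h]
        split_ifs
        · rw [← neg_add, this, neg_zero]
        · exact this
      · rw [Bool.eq_not_iff.2 h]
        cases ε r <;> simp) (fun r _ _ => hm.2.1 r) (fun _ _ => Finset.mem_univ _)
      fun r _ => hm.1 r
  exact ⟨k, fun a ha e => k a ha _ fun _ => rfl⟩

lemma am3_mem (hm : amV E ε m) (r : Fin R) (e : E) :
    (Pi.single r e + Pi.single (m r) e : Fin R → E) ∈ amP E m := fun j => by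
  have i : Function.Injective m := Function.Involutive.injective hm.1
  simp only [Pi.add_apply, Pi.single_apply, i.eq_iff, add_comm (ite (j = r) e 0)]
  congr 2
  exact propext ⟨fun h => by rw [← h, hm.1], fun h => by rw [h, hm.1]⟩

lemma am3_max (h : τ.ND) (hm : amV E ε m) {T : AddSubgroup (Fin R → E)} (hT : amIso τ ε T)
    (hle : amP E m ≤ T) : T = amP E m := by
  refine le_antisymm (fun x hx r => ?_) hle
  have s : ∀ j e, sB τ ε x (Pi.single j e) = if ε j then -τ.be (x j) e else τ.be (x j) e :=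
    fun j e => (Finset.sum_eq_single j (fun i _ hi => by simp [Pi.single_eq_of_ne hi])
      (by simp)).trans (by simp)
  have k : ∀ e, (if ε r then -τ.be (x r) e else τ.be (x r) e) +
      (if ε (m r) then -τ.be (x (m r)) e else τ.be (x (m r)) e) = 0 := fun e => by
    rw [← s, ← s, ← amT_be, ← amT_be, ← map_add]
    exact hT.1 x hx _ (hle (am3_mem hm r e))
  refine sub_eq_zero.1 (h _ (AddMonoidHom.ext fun e => ?_))
  have k := k e
  rw [map_sub, AddMonoidHom.sub_apply, AddMonoidHom.zero_apply, sub_eq_zero]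
  by_cases c : ε (m r) = ε r
  · have : τ.be (x r) e + τ.be (x r) e = 0 := by
      rw [← map_add, ← two_nsmul, hm.2.2 r c, map_zero]
    rw [c] at k
    refine add_left_cancel (a := τ.be (x r) e) (Eq.trans ?_ this.symm)
    split_ifs at k
    · rwa [← neg_add, neg_eq_zero] at k
    · exact k
  · rw [Bool.eq_not_iff.2 c] at k
    cases c' : ε r <;> simp only [c', Bool.not_false, Bool.not_true, if_true, Bool.false_eq_true,
      if_false] at k
    · exact (add_neg_eq_zero.1 k).symm
    · exact (neg_add_eq_zero.1 k).symm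

lemma am3_inj [Nontrivial E] (hm : amV E ε m) (hm' : amV E ε m') (h : amP E m = amP E m') :
    m = m' := funext fun r => by
  obtain ⟨e, he⟩ := exists_ne (0 : E)
  have := (h ▸ am3_mem hm r e : _ ∈ amP E m') r
  by_contra c
  simp [Pi.single_eq_of_ne (hm'.2.1 r), Pi.single_eq_of_ne (Ne.symm c),
    Pi.single_eq_of_ne (hm.2.1 r).symm, he.symm] at this

open Classical in
lemma am3_iff [Finite Y] {M : ℕ} (hM : 1 ≤ M) (T : AddSubgroup (Fin R → E)) (x : Y ⊕ Z → Fin R → E)
    (ξ : Y ⊕ Z → Option (Fin R → E)) : amD M T ξ ∧ amI T ξ x ↔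
      (ξ = fun l => if x l ∈ T then none else some (x l)) ∧ amX M x ≤ T := by
  have e : ∀ y, y ∉ T → {l : Y | (if x (.inl l) ∈ T then none else some (x (.inl l))) = some y} =
      {l : Y | x (.inl l) = y} := fun y hy => Set.ext fun l => by
    simp only [Set.mem_ofPred_eq]
    split_ifs with c
    · exact iff_of_false nofun fun h => hy (h ▸ c)
    · exact Option.some_inj
  constructor
  · rintro ⟨⟨h1, h2⟩, h3⟩
    have : ξ = fun l => if x l ∈ T then none else some (x l) := funext fun l => by
      have := h3 l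
      cases c : ξ l <;> rw [c] at this
      · exact (if_pos this).symm
      · obtain rfl : x l = _ := this
        exact (if_neg (h1 l _ c)).symm
    refine ⟨this, (AddSubgroup.closure_le _).2 fun y hy => by_contra fun c => ?_⟩
    have k := h2 y
    simp only [this, e y c] at k
    exact k.not_ge hy
  · rintro ⟨rfl, h⟩
    have h1 : ∀ l y, (if x l ∈ T then none else some (x l)) = some y → y ∉ T := fun l y c => by
      split_ifs at c with c'
      exact Option.some_inj.1 c ▸ c'
    refine ⟨⟨h1, fun y => ?_⟩, fun l => ?_⟩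
    · by_cases c : y ∈ T
      · exact ((Set.ncard_eq_zero (Set.toFinite _)).2
          (Set.eq_empty_of_forall_notMem fun l hl => h1 _ y hl c)).trans_lt hM
      · rw [e y c]
        exact not_le.1 fun k => c (h (AddSubgroup.subset_closure k))
    · dsimp only
      split_ifs with c
      exacts [c, rfl]

lemma am3_list {P : Type} [Finite P] (Γ : Set P) {n : ℕ} (h : Γ.ncard ≤ n) :
    ∃ g : Fin n → Option P, ∀ p, p ∈ Γ ↔ ∃ i, g i = some p := by
  let _ := Fintype.ofFinite Γ
  obtain ⟨ι⟩ : Nonempty (Γ ↪ Fin n) := Function.Embedding.nonempty_of_card_le (by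
    rwa [Fintype.card_fin, ← Nat.card_eq_fintype_card, Nat.card_coe_set_eq])
  refine ⟨fun i => (Function.partialInv ι i).map Subtype.val, fun p => ⟨fun hp =>
    ⟨ι ⟨p, hp⟩, congrArg _ (Function.partialInv_left ι.injective _)⟩, fun ⟨i, hi⟩ => ?_⟩⟩
  obtain ⟨q, -, rfl⟩ := Option.map_eq_some_iff.1 hi
  exact q.2

variable [Finite E] [Finite Y] [Finite Z]

omit [Finite Z] in
lemma am3_graph {M : ℕ} {T : AddSubgroup (Fin R → E)} {ξ : Y ⊕ Z → Option (Fin R → E)}
    (h : amD M T ξ) :
    {p : Y × (Fin R → E) | ξ (.inl p.1) = some p.2}.ncard ≤ Nat.card E ^ R * M := by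
  rw [← Nat.cast_le (α := ℝ), ← cnt_eq_ncard, cnt, sm_prod, sm_comm]
  refine (sm_mono (g := fun _ => (M : ℝ)) fun y => ?_).trans_eq ?_
  · exact (cnt_eq_ncard {l : Y | ξ (.inl l) = some y}).trans_le (Nat.cast_le.2 (h.2 y).le)
  · simp [sm_const, Nat.card_fun]

lemma am3_count (M : ℕ) (T : AddSubgroup (Fin R → E)) :
    sm (fun ξ : Y ⊕ Z → Option (Fin R → E) => ind (amD M T ξ)) ≤
      (((Nat.card Y : ℝ) + 1) * (Nat.card E ^ R + 1)) ^ (Nat.card E ^ R * M + Nat.card Z) := by
  refine (sm_ind_le_of_inj _ (fun _ : (Fin (Nat.card E ^ R * M) → Option (Y × (Fin R → E))) ×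
    (Z → Option (Fin R → E)) => True) (fun ξ g => (∀ l y, ξ (.inl l) = some y ↔
      ∃ i, g.1 i = some (l, y)) ∧ ∀ z, ξ (.inr z) = g.2 z) (fun ξ h => ?_)
    fun ξ ξ' g _ _ h h' => funext fun l => ?_).trans ?_
  · obtain ⟨g, hg⟩ := am3_list _ (am3_graph h)
    exact ⟨(g, fun z => ξ (.inr z)), trivial, fun l y => hg (l, y), fun _ => rfl⟩
  · rcases l with l | l
    · exact Option.ext fun y => (h.1 l y).trans (h'.1 l y).symm
    · exact (h.2 l).trans (h'.2 l).symm
  · simp only [ind_pos trivial, sm_const, mul_one, Nat.card_prod, Nat.card_fun, Nat.card_fin,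
      Finite.card_option, pow_add]
    push_cast
    have := (Nat.card Y).cast_nonneg (α := ℝ)
    have : (0 : ℝ) ≤ Nat.card E ^ R := by positivity
    gcongr <;> nlinarith

theorem am3 [Nontrivial E] (h : τ.ND) : AM3 τ := by
  classical
  intro R
  let _ := Fintype.ofFinite (AddSubgroup (Fin R → E))
  refine ⟨2 ^ Fintype.card (AddSubgroup (Fin R → E)), by positivity, fun ε => ?_⟩
  obtain ⟨a, ha, hb⟩ := Moa.exists_moebius (Finset.univ.filter (amIso τ ε))
  simp only [Finset.mem_filter, Finset.mem_univ, true_and, Finset.filter_filter] at ha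
  refine ⟨fun T => if amIso τ ε T then a T else 0, ?_, fun T hT => if_neg hT,
    fun m hm => ⟨am3_iso hm, ?_⟩, fun m m' => am3_inj, fun Y Z _ _ M hM =>
      ⟨fun x => ?_, fun T => ⟨fun ξ hξ => ?_, am3_count M T⟩⟩⟩
  · simp only [sm_eq, apply_ite abs, abs_zero, ← Finset.sum_filter]
    exact (le_add_of_nonneg_right zero_le_one).trans (hb.trans
      (pow_le_pow_right₀ one_le_two (Finset.card_le_univ _)))
  · rw [← ha _ (am3_iso hm), Finset.sum_eq_single_of_mem (amP E m) (by simp [am3_iso hm])
      fun T hT c => absurd (am3_max h hm (Finset.mem_filter.1 hT).2.1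
        (Finset.mem_filter.1 hT).2.2) c]
    exact if_pos (am3_iso hm)
  · simp only [← ind_and, am3_iff hM]
    simp only [ind_and, sm_ind_eq]
    simp only [sm_eq, ind_eq, mul_ite, mul_one, mul_zero, ← ite_and, ← Finset.sum_filter]
    split_ifs with c
    · rw [← ha _ c]
      exact Finset.sum_congr (Finset.filter_congr fun _ _ => and_comm) fun _ _ => rfl
    · exact (Finset.sum_eq_zero fun T hT => absurd ⟨fun p hp q hq =>
        (Finset.mem_filter.1 hT).2.2.1 p ((Finset.mem_filter.1 hT).2.1 hp) q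
          ((Finset.mem_filter.1 hT).2.1 hq), fun p hp =>
        (Finset.mem_filter.1 hT).2.2.2 p ((Finset.mem_filter.1 hT).2.1 hp)⟩ c).symm
  · refine le_trans (Set.ncard_le_ncard (fun l hl => ?_)) ((Set.ncard_image_le
      (f := Prod.fst)).trans (am3_graph hξ))
    obtain ⟨y, hy⟩ := Option.ne_none_iff_exists'.1 hl
    exact ⟨(l, y), hy, rfl⟩

end NE
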