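import Pool.Agent.Lib.MP_ecee09_co.NE.AMD

/-! On an isotropic group the pattern acts as a shift. -/

namespace NE

open SD (F sm av ind cnt Tame pm)
open ComplexConjugate

section gen
variable {V B : Type} [AddCommGroup V] {σ : QT V}

/-- on an isotropic subgroup the form is a pairing with a fixed vector -/
lemma am4_lin [Finite V] (h : σ.ND) (T : AddSubgroup V) (hT : ∀ a ∈ T, ∀ b ∈ T, σ.be a b = 0) :
    ∃ v, ∀ a ∈ T, σ.q a = σ.be a v := by
  let φ : T →+ TT := AddMonoidHom.mk' (fun a => σ.q a) fun a b => by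
    show σ.q (a + b) = _
    rw [σ.q_add, hT a a.2 b b.2, add_zero]
  obtain ⟨ψ, hψ⟩ := (Module.Baer.of_divisible TT).extension_property_addMonoidHom T.subtype
    Subtype.val_injective φ
  obtain ⟨v, hv⟩ := h.surj ψ
  refine ⟨v, fun a ha => ?_⟩
  rw [σ.symm, hv]
  exact (DFunLike.congr_fun hψ ⟨a, ha⟩).symm

variable [Finite B]

lemma am4_th {T : AddSubgroup V} (hT : ∀ a ∈ T, ∀ b ∈ T, σ.be a b = 0) {v : V}
    (hv : ∀ a ∈ T, σ.q a = σ.be a v) (P : Om B) (w : B → T) :
    th σ (fun l => (w l : V)) P = brk σ (fun l => (w l : V)) fun l => (P s(l, l)).val • v := by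
  classical
  let _ := Fintype.ofFinite B
  induction w using Pi.single_induction with
  | zero =>
    show th σ 0 P = brk σ 0 _
    rw [th_zero_left, brk_zero_left]
  | add w w' h h' =>
    have e : (fun l => ((w + w') l : V)) = (fun l => (w l : V)) + fun l => (w' l : V) := rfl
    have z : brk σ (fun l => (w l : V)) (adj P fun l => (w' l : V)) = 0 := by
      rw [brk_eq]
      refine Finset.sum_eq_zero fun l _ => hT _ (w l).2 _ ?_
      rw [adj_eq]
      exact T.sum_mem fun j _ => T.nsmul_mem (w' j).2 _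
    rw [e, th_add, brk_add_left, h, h', z, add_zero]
  | single i a =>
    have e : (fun l => ((Pi.single i a : B → T) l : V)) = Pi.single i (a : V) := by
      funext l
      by_cases hl : l = i
      · subst hl; simp
      · simp [hl]
    rw [e, th_single, brk_single_left, map_nsmul, hv a a.2]

/-- on prescribed rows and rows in `T` the phase is affine -/
lemma am4_aff [Finite V] (h : σ.ND) (T : AddSubgroup V) (hT : ∀ a ∈ T, ∀ b ∈ T, σ.be a b = 0)
    (ξ : B → Option V) (P : Om B) :
    ∃ (c : TT) (g : B → V), ∀ x : B → V, (∀ l, (ξ l).elim (x l ∈ T) fun y => x l = y) →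
      th σ x P = c + brk σ x g := by
  obtain ⟨v, hv⟩ := am4_lin h T hT
  let x0 : B → V := fun l => (ξ l).getD 0
  let g : B → V := (fun l => (P s(l, l)).val • v) + adj P x0
  refine ⟨th σ x0 P - brk σ x0 g, g, fun x hx => ?_⟩
  have hm : ∀ l, x l - x0 l ∈ T := fun l => by
    have := hx l
    cases hl : ξ l with
    | none => rw [hl] at this; simpa [x0, hl] using this
    | some y =>
      rw [hl] at this
      have e : x l = y := this
      simp [x0, hl, e]
  have k := am4_th hT hv P fun l => ⟨x l - x0 l, hm l⟩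
  have e : x = (fun l => x l - x0 l) + x0 := by funext l; simp
  have k1 : th σ x P = th σ x0 P + brk σ (fun l => x l - x0 l) g := by
    conv_lhs => rw [e]
    rw [th_add, k, brk_add_right]
    abel
  have k2 : brk σ (fun l => x l - x0 l) g = brk σ x g - brk σ x0 g := brk_sub_left σ x x0 g
  rw [k1, k2]
  abel

end gen

section sh
variable {E B G : Type} [AddCommGroup E] [AddCommGroup G] {R : ℕ} {τ : QT E}

lemma am4_nd (h : τ.ND) (ε : Fin R → Bool) : (amT τ ε).ND := by
  intro x hx
  funext r
  refine h _ (AddMonoidHom.ext fun e => ?_)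
  have k : sB τ ε x (Pi.single r e) = 0 := by
    rw [← amT_be, hx]; rfl
  rw [sB, Finset.sum_eq_single r] at k
  · rw [Pi.single_eq_same] at k
    cases hr : ε r <;> simpa [hr] using k
  · intro j _ hj
    simp [hj]
  · simp

lemma am4_cj (b : Bool) (a : TT) (z : ℂ) : cj b (ee a * z) = ee (amS b a) * cj b z := by
  cases b
  · rfl
  · simp only [cj_true, map_mul, conj_ee, amS, if_true]

variable [Finite E] [Finite B]

lemma am4_lp (s : (B → E) →+ G) (k : G → ℂ) (w g : B → E) (b : G) :
    lp3 τ s k w (b + s g) = ee (brk τ w g) * lp3 τ s k w b := by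
  unfold lp3
  rw [← cav_mul_left, ← cav_add_left (fun h => ee (brk τ w g) *
    (k (b + s h) * conj (ee (brk τ w h)))) g]
  refine cav_congr fun h => ?_
  rw [map_add, add_assoc, brk_add_right, ee_add, map_mul]
  linear_combination (-(k (b + (s g + s h)) * conj (ee (brk τ w h)))) * ee_mul_conj (brk τ w g)

omit [Finite E] in
lemma am4_brk (ε : Fin R → Bool) (x g : B → Fin R → E) :
    brk (amT τ ε) x g = ∑ r, amS (ε r) (brk τ (fun l => x l r) fun l => g l r) := by
  let _ := Fintype.ofFinite B
  simp only [brk_eq, amT_be, sB]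
  rw [Finset.sum_comm]
  refine Finset.sum_congr rfl fun r _ => ?_
  cases ε r <;> simp [amS]

lemma am4_shift [Finite G] (s : (B → E) →+ G) (k : G → ℂ) (ε : Fin R → Bool)
    (t : Fin R → B → E) (x g : B → Fin R → E) :
    amM τ s k ε (t + fun r l => g l r) x = ee (brk (amT τ ε) x g) * amM τ s k ε t x := by
  unfold amM
  rw [← cav_mul_left, am4_brk, ee_sum]
  refine cav_congr fun b => ?_
  rw [← Finset.prod_mul_distrib]
  refine Finset.prod_congr rfl fun r _ => ?_
  rw [Pi.add_apply, map_add, ← add_assoc, am4_lp, am4_cj]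

end sh

theorem am4 {E : Type} [AddCommGroup E] [Finite E] [Nontrivial E] {τ : QT E} (h : τ.ND) :
    AM4 τ := by
  intro B G _ _ _ R ε T hT ξ P
  obtain ⟨c, g, hg⟩ := am4_aff (am4_nd h ε) T hT.1 ξ P
  refine ⟨c, fun r l => g l r, fun s k t => ?_⟩
  unfold amA
  rw [← csm_mul_left]
  refine csm_congr fun x => ?_
  by_cases hx : amI T ξ x
  · rw [am4_shift, ph, ph, hg x hx, th_zero_right, ee_add, ee_zero]
    ring
  · rw [SD.ind_neg hx]
    simp

end NE
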