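import Pool.Agent.Lib.MP_ecee09_co.NE.AM5a

/-! Case (i) of the moment lemma. -/

namespace NE

open SD
open ComplexConjugate

set_option linter.unusedSectionVars false

section
variable {E B G : Type} [AddCommGroup E] [AddCommGroup G] {R : ℕ} {τ : QT E}

/-- members of `W` with value in `S` at `r` that vanish on `Q` -/
def am5W (W : AddSubgroup (Fin R → E)) (r : Fin R) (S : AddSubgroup E) (Q : Fin R → Prop) :
    AddSubgroup (Fin R → E) where
  carrier := {x | x ∈ W ∧ x r ∈ S ∧ ∀ j, Q j → x j = 0}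
  zero_mem' := ⟨zero_mem W, zero_mem S, fun _ _ => rfl⟩
  add_mem' := fun {a b} ha hb => ⟨add_mem ha.1 hb.1, add_mem ha.2.1 hb.2.1, fun j hj => by
    rw [Pi.add_apply, ha.2.2 j hj, hb.2.2 j hj, add_zero]⟩
  neg_mem' := fun {a} ha => ⟨neg_mem ha.1, neg_mem ha.2.1, fun j hj => by
    rw [Pi.neg_apply, ha.2.2 j hj, neg_zero]⟩

variable (W : AddSubgroup (Fin R → E)) (ξ : B → Option (Fin R → E)) (J : Set B) (r : Fin R)

/-- the shifts of the product group -/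
noncomputable def am5a (G : Type) [AddCommGroup G] (S : AddSubgroup E) (Q : Fin R → Prop)
    (u : B → am5W W r S Q) : G × am5H W ξ :=
  (0, ⟨sft J _ u, fun l _ => by
    unfold sft
    split_ifs
    exacts [(u l).2.1, zero_mem W]⟩)

theorem am5a_ad (S : AddSubgroup E) (Q : Fin R → Prop) : Ad (am5a W ξ J r G S Q) := fun x y =>
  Prod.ext (add_zero _).symm (Subtype.ext (ad_sft J _ x y))

/-- the point seen by party `j` -/
def am5p (s : (B → E) →+ G) (j : Fin R) (p : G × am5H W ξ) : G := p.1 + s fun l => p.2.1 l j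

theorem am5p_ad (s : (B → E) →+ G) (j : Fin R) : Ad (am5p W ξ s j) := fun x y => by
  show x.1 + y.1 + s ((fun l => x.2.1 l j) + fun l => y.2.1 l j) = _
  rw [map_add, add_add_add_comm]; rfl

theorem am5p_surj (s : (B → E) →+ G) (j : Fin R) : Function.Surjective (am5p W ξ s j) :=
  fun b => ⟨(b, 0), by
    show b + s 0 = b
    rw [map_zero, add_zero]⟩

theorem am5p_inv (s : (B → E) →+ G) {S : AddSubgroup E} {Q : Fin R → Prop} {j : Fin R} (hj : Q j)
    (p : G × am5H W ξ) (u : B → am5W W r S Q) :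
    am5p W ξ s j (p + am5a W ξ J r G S Q u) = am5p W ξ s j p := by
  have : (fun l => sft J _ u l j) = 0 := by
    funext l
    unfold sft
    split_ifs
    exacts [(u l).2.2.2 j hj, rfl]
  rw [am5p_ad, add_eq_left]
  show 0 + s (fun l => sft J _ u l j) = 0
  rw [this, map_zero, add_zero]

theorem am5_range (s : (B → E) →+ G) {S : AddSubgroup E} {Q : Fin R → Prop}
    (h : ∀ y ∈ S, ∃ x ∈ W, x r = y ∧ ∀ j, Q j → x j = 0) :
    Set.range (fun u => am5p W ξ s r (am5a W ξ J r G S Q u)) =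
      Set.range fun v => s (sft J S v) := by
  choose x h1 h2 h3 using h
  ext g
  constructor
  · rintro ⟨u, rfl⟩
    refine ⟨fun l => ⟨(u l).1 r, (u l).2.2.1⟩, ?_⟩
    refine (congrArg s (funext fun l => ?_)).trans (zero_add _).symm
    simp only [am5a, sft]
    split_ifs <;> rfl
  · rintro ⟨v, rfl⟩
    refine ⟨fun l => ⟨x (v l) (v l).2, h1 _ _, by rw [h2]; exact (v l).2, h3 _ _⟩, ?_⟩
    refine (zero_add _).trans (congrArg s (funext fun l => ?_))
    simp only [am5a, sft]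
    split_ifs
    exacts [h2 _ _, rfl]

/-- the factor of party `j` -/
def am5k (s : (B → E) →+ G) (k : G → ℂ) (ε : Fin R → Bool) (t : Fin R → B → E) (j : Fin R)
    (p : G × am5H W ξ) : ℂ := cj (ε j) (k (am5p W ξ s j p + s (t j)))

open Classical in
/-- the product over the parties in `Q` -/
noncomputable def am5f (s : (B → E) →+ G) (k : G → ℂ) (ε : Fin R → Bool) (t : Fin R → B → E)
    (Q : Fin R → Prop) (p : G × am5H W ξ) : ℂ :=
  ∏ j ∈ Finset.univ.filter Q, am5k W ξ s k ε t j p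

theorem am5f_inv (s : (B → E) →+ G) (k : G → ℂ) (ε : Fin R → Bool) (t : Fin R → B → E)
    {S : AddSubgroup E} {Q : Fin R → Prop} (p : G × am5H W ξ) (u : B → am5W W r S Q) :
    am5f W ξ s k ε t Q (p + am5a W ξ J r G S Q u) = am5f W ξ s k ε t Q p := by
  classical
  refine Finset.prod_congr rfl fun j hj => ?_
  rw [am5k, am5p_inv W ξ J r s (Finset.mem_filter.1 hj).2, am5k]

variable [Finite E] [Finite B] [Finite G]

theorem am5f_mom (s : (B → E) →+ G) (k : G → ℂ) (ε : Fin R → Bool) (t : Fin R → B → E)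
    (Q : Fin R → Prop) (n : ℕ) :
    av (fun p => ‖am5f W ξ s k ε t Q p‖ ^ n) ≤ 1 + R * av fun b => ‖k b‖ ^ (n * R) := by
  classical
  have h1 : ∀ j, av (fun p => ‖am5k W ξ s k ε t j p‖ ^ (n * R)) = av fun b => ‖k b‖ ^ (n * R) :=
    fun j => by
      simp only [am5k, am5_norm_cj]
      rw [av_surj _ (am5p_ad W ξ s j) (am5p_surj W ξ s j) fun b => ‖k (b + s (t j))‖ ^ (n * R),
        av_add_right (fun b => ‖k b‖ ^ (n * R))]
  have h2 : ∀ p, ‖am5f W ξ s k ε t Q p‖ ^ n ≤ 1 + ∑ j, ‖am5k W ξ s k ε t j p‖ ^ (n * R) := by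
    intro p
    rw [am5f, norm_prod, ← Finset.prod_pow]
    refine (Moa.prod_le_one_add_sum _ _ (fun _ => by positivity) R
      ((Finset.card_le_univ _).trans (by simp))).trans (add_le_add le_rfl ?_)
    simp only [← pow_mul]
    exact Finset.sum_le_sum_of_subset_of_nonneg (Finset.subset_univ _) fun _ _ _ => by positivity
  refine (av_mono h2).trans (le_of_eq ?_)
  rw [av_add, av_const, av_sum]
  simp [h1]

/-- the phase of the prescribed rows -/
noncomputable def am5c (τ : QT E) (ε : Fin R → Bool) (p : G × am5H W ξ) : ℂ :=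
  conj (ee (brk (amT τ ε) (fun l => (ξ l).getD 0) p.2.1))

theorem am5c_inv (ε : Fin R → Bool) (hJ : ∀ l ∈ J, ξ l = none) {S : AddSubgroup E}
    {Q : Fin R → Prop} (p : G × am5H W ξ) (u : B → am5W W r S Q) :
    am5c W ξ τ ε (p + am5a W ξ J r G S Q u) = am5c W ξ τ ε p := by
  let _ := Fintype.ofFinite B
  have : brk (amT τ ε) (fun l => (ξ l).getD 0) (sft J _ u) = 0 := by
    rw [brk_eq]
    refine Finset.sum_eq_zero fun l _ => ?_
    unfold sft
    split_ifs with h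
    · simp [hJ l h]
    · simp
  show conj (ee (brk _ _ (p.2.1 + sft J _ u))) = _
  rw [brk_add_right, this, add_zero, am5c]

theorem am5_n2 (s : (B → E) →+ G) (k : G → ℂ) (ε : Fin R → Bool) (t : Fin R → B → E)
    (Q : Fin R → Prop) : n2 (fun p => am5f W ξ s k ε t Q p * am5c W ξ τ ε p) ≤
      1 + R * av fun b => ‖k b‖ ^ (2 * R) := by
  simpa only [n2, norm_mul, am5c, Complex.norm_conj, norm_ee, mul_one] using
    am5f_mom W ξ s k ε t Q 2

theorem am5_g2 (s : (B → E) →+ G) (k : G → ℂ) (ε : Fin R → Bool) (t : Fin R → B → E)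
    {S S' : AddSubgroup E} {Q Q' : Fin R → Prop}
    (h : ∀ y ∈ S, ∃ x ∈ W, x r = y ∧ ∀ j, Q j → x j = 0)
    (h' : ∀ y ∈ S', ∃ x ∈ W, x r = y ∧ ∀ j, Q' j → x j = 0) :
    gb2 (am5k W ξ s k ε t r) (am5a W ξ J r G S Q) (am5a W ξ J r G S' Q') = bb2 s k J S S' := by
  have := am5_gb2 (am5p_ad W ξ s r) (am5p_surj W ξ s r) (fun b => cj (ε r) (k (b + s (t r))))
    (am5a W ξ J r G S Q) (am5a W ξ J r G S' Q')
  rw [gb2_range ((am5p_ad W ξ s r).comp (am5a_ad W ξ J r S Q))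
    ((am5p_ad W ξ s r).comp (am5a_ad W ξ J r S' Q')) (ad_hsft s J S) (ad_hsft s J S')
    (am5_range W ξ J r s h) (am5_range W ξ J r s h'), gb2_shift (fun b => cj (ε r) (k b))] at this
  refine this.trans ?_
  cases ε r
  · rfl
  · exact gb2_conj _ _ _

theorem am5_g3 (s : (B → E) →+ G) (k : G → ℂ) (ε : Fin R → Bool) (t : Fin R → B → E)
    {Q Q' Q'' : Fin R → Prop}
    (h : ∀ y ∈ (⊤ : AddSubgroup E), ∃ x ∈ W, x r = y ∧ ∀ j, Q j → x j = 0)
    (h' : ∀ y ∈ (⊤ : AddSubgroup E), ∃ x ∈ W, x r = y ∧ ∀ j, Q' j → x j = 0)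
    (h'' : ∀ y ∈ (⊤ : AddSubgroup E), ∃ x ∈ W, x r = y ∧ ∀ j, Q'' j → x j = 0) :
    gb3 (am5k W ξ s k ε t r) (am5a W ξ J r G ⊤ Q) (am5a W ξ J r G ⊤ Q') (am5a W ξ J r G ⊤ Q'') =
      bb3 s k J := by
  have := am5_gb3 (am5p_ad W ξ s r) (am5p_surj W ξ s r) (fun b => cj (ε r) (k (b + s (t r))))
    (am5a W ξ J r G ⊤ Q) (am5a W ξ J r G ⊤ Q') (am5a W ξ J r G ⊤ Q'')
  rw [gb3_range ((am5p_ad W ξ s r).comp (am5a_ad W ξ J r ⊤ Q))
    ((am5p_ad W ξ s r).comp (am5a_ad W ξ J r ⊤ Q')) ((am5p_ad W ξ s r).comp (am5a_ad W ξ J r ⊤ Q''))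
    (ad_hsft s J ⊤) (ad_hsft s J ⊤) (ad_hsft s J ⊤) (am5_range W ξ J r s h)
    (am5_range W ξ J r s h') (am5_range W ξ J r s h''),
    gb3_shift (fun b => cj (ε r) (k b))] at this
  refine this.trans ?_
  cases ε r
  · rfl
  · exact gb3_conj _ _ _ _

theorem am5_split (s : (B → E) →+ G) (k : G → ℂ) (ε : Fin R → Bool) (t : Fin R → B → E)
    (cl : Fin R → Fin 3) (p : G × am5H W ξ) :
    ∏ j, am5k W ξ s k ε t j p = am5k W ξ s k ε t r p *
      am5f W ξ s k ε t (fun j => j ≠ r ∧ cl j = 2) p *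
      am5f W ξ s k ε t (fun j => j ≠ r ∧ cl j = 1) p *
      am5f W ξ s k ε t (fun j => j ≠ r ∧ cl j = 0) p := by
  classical
  rw [← Finset.mul_prod_erase _ _ (Finset.mem_univ r),
    ← Finset.prod_fiberwise (Finset.univ.erase r) cl, Fin.prod_univ_three]
  have e : ∀ i, ∏ j ∈ Finset.univ.erase r with cl j = i, am5k W ξ s k ε t j p =
      am5f W ξ s k ε t (fun j => j ≠ r ∧ cl j = i) p := fun i =>
    Finset.prod_congr (by ext j; simp) fun _ _ => rfl
  rw [e, e, e]; ring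

/-- the common bound of the moments -/
noncomputable def am5m (R : ℕ) (k : G → ℂ) : ℝ :=
  (1 + R * av fun b => ‖k b‖ ^ (2 * R)) + (1 + R * av fun b => ‖k b‖ ^ (4 * R)) +
    (1 + R * av fun b => ‖k b‖ ^ (8 * R))

theorem am5m_ge (R : ℕ) (k : G → ℂ) : 0 < am5m R k ∧
    (1 + R * av fun b => ‖k b‖ ^ (2 * R)) ≤ am5m R k ∧
    (1 + R * av fun b => ‖k b‖ ^ (4 * R)) ≤ am5m R k ∧
    (1 + R * av fun b => ‖k b‖ ^ (8 * R)) ≤ am5m R k := by
  have h : ∀ n : ℕ, 0 ≤ R * av fun b => ‖k b‖ ^ n := fun n =>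
    mul_nonneg (Nat.cast_nonneg _) (av_nonneg fun _ => by positivity)
  have := h (2 * R); have := h (4 * R); have := h (8 * R)
  unfold am5m
  refine ⟨?_, ?_, ?_, ?_⟩ <;> linarith

end

section
variable {E B G : Type} [AddCommGroup E] [AddCommGroup G] {R : ℕ} {τ : QT E}
  [Finite E] [Finite B] [Finite G]

theorem am5_A' (h : τ.ND) (s : (B → E) →+ G) (k : G → ℂ) (ε : Fin R → Bool) (t : Fin R → B → E)
    (T : AddSubgroup (Fin R → E)) (ξ : B → Option (Fin R → E)) :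
    amA τ s k ε t T ξ 0 = cav fun p => (∏ j, am5k ((amT τ ε).perp T) ξ s k ε t j p) *
      am5c ((amT τ ε).perp T) ξ τ ε p := by
  rw [am5_A h]
  simp only [am5k, am5p, am5c, add_right_comm _ (s (t _))]

theorem am5_three (h : τ.ND) (s : (B → E) →+ G) (k : G → ℂ) (ε : Fin R → Bool)
    (t : Fin R → B → E) (T : AddSubgroup (Fin R → E)) (ξ : B → Option (Fin R → E)) {J : Set B}
    (hJ : ∀ l ∈ J, ξ l = none) {r : Fin R} {cl : Fin R → Fin 3}
    (H : ∀ (i : Fin 3) (y : E), ∃ x ∈ (amT τ ε).perp T, x r = y ∧ ∀ j, j ≠ r → cl j = i → x j = 0) :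
    ‖amA τ s k ε t T ξ 0‖ ^ (7 + 1) ≤ am5m R k ^ 7 * bb3 s k J := by
  rw [am5_A' h]
  generalize (amT τ ε).perp T = W at H ⊢
  have H' : ∀ i, ∀ y ∈ (⊤ : AddSubgroup E), ∃ x ∈ W, x r = y ∧
      ∀ j, (j ≠ r ∧ cl j = i) → x j = 0 := fun i y _ =>
    let ⟨x, h1, h2, h3⟩ := H i y; ⟨x, h1, h2, fun j hj => h3 j hj.1 hj.2⟩
  have h1 := cs_box3 (am5a_ad W ξ J r ⊤ fun j => j ≠ r ∧ cl j = 0)
    (am5a_ad W ξ J r ⊤ fun j => j ≠ r ∧ cl j = 1) (am5a_ad W ξ J r ⊤ fun j => j ≠ r ∧ cl j = 2)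
    (am5k W ξ s k ε t r)
    (f := fun p => am5f W ξ s k ε t (fun j => j ≠ r ∧ cl j = 0) p * am5c W ξ τ ε p)
    (fun p u => by rw [am5f_inv, am5c_inv W ξ J r ε hJ]) (am5f_inv W ξ J r s k ε t)
    (am5f_inv W ξ J r s k ε t)
  rw [am5_g3 W ξ J r s k ε t (H' 0) (H' 1) (H' 2)] at h1
  obtain ⟨m0, m1, m2, m3⟩ := am5m_ge R k
  simp only [am5_split W ξ r s k ε t cl, mul_assoc] at h1 ⊢
  refine h1.trans ?_
  have a1 := (am5_n2 (τ := τ) W ξ s k ε t fun j => j ≠ r ∧ cl j = 0).trans m1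
  have a2 := (am5f_mom W ξ s k ε t (fun j => j ≠ r ∧ cl j = 1) 4).trans m2
  have a3 := (am5f_mom W ξ s k ε t (fun j => j ≠ r ∧ cl j = 2) 8).trans m3
  have p : 0 ≤ bb3 s k J := gb3_nonneg (ad_hsft s J ⊤) _ _ _
  calc _ ≤ am5m R k ^ 4 * (am5m R k ^ 2 * (am5m R k * bb3 s k J)) := by
        gcongr
        · exact mul_nonneg (sq_nonneg _) (mul_nonneg (av_nonneg fun _ => by positivity) p)
        · exact n2_nonneg _
        · exact mul_nonneg (av_nonneg fun _ => by positivity) p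
        · exact av_nonneg fun _ => by positivity
    _ = _ := by ring

theorem am5_two (h : τ.ND) (s : (B → E) →+ G) (k : G → ℂ) (ε : Fin R → Bool)
    (t : Fin R → B → E) (T : AddSubgroup (Fin R → E)) (ξ : B → Option (Fin R → E)) {J : Set B}
    (hJ : ∀ l ∈ J, ξ l = none) {r : Fin R} {C : Set (Fin R)} {S S' : AddSubgroup E} (hr : r ∉ C)
    (H : ∀ y ∈ S, ∃ x ∈ (amT τ ε).perp T, x r = y ∧ ∀ j ∈ C, x j = 0)
    (H' : ∀ y ∈ S', ∃ x ∈ (amT τ ε).perp T, x r = y ∧ ∀ j, j ∉ C → j ≠ r → x j = 0) :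
    ‖amA τ s k ε t T ξ 0‖ ^ (3 + 1) ≤ am5m R k ^ 3 * bb2 s k J S S' := by
  classical
  rw [am5_A' h]
  generalize (amT τ ε).perp T = W at H H' ⊢
  let cl : Fin R → Fin 3 := fun j => if j ∈ C then 0 else 1
  have c0 : ∀ j, cl j = 0 → j ∈ C := fun j hj => by
    by_contra e; simp [cl, e] at hj
  have c1 : ∀ j, cl j = 1 → j ∉ C := fun j hj e => by simp [cl, e] at hj
  have c2 : ∀ p, am5f W ξ s k ε t (fun j => j ≠ r ∧ cl j = 2) p = 1 := fun p =>
    Finset.prod_eq_one fun j hj => by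
      simp only [Finset.mem_filter] at hj
      have := hj.2.2
      simp only [cl] at this
      split_ifs at this <;> exact absurd this (by decide)
  have h1 := cs_box2 (am5a_ad W ξ J r S fun j => j ≠ r ∧ cl j = 0)
    (am5a_ad W ξ J r S' fun j => j ≠ r ∧ cl j = 1) (am5k W ξ s k ε t r)
    (f := fun p => am5f W ξ s k ε t (fun j => j ≠ r ∧ cl j = 0) p * am5c W ξ τ ε p)
    (fun p u => by rw [am5f_inv, am5c_inv W ξ J r ε hJ]) (am5f_inv W ξ J r s k ε t)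
  rw [am5_g2 W ξ J r s k ε t
    (fun y hy => let ⟨x, h1, h2, h3⟩ := H y hy; ⟨x, h1, h2, fun j hj => h3 j (c0 j hj.2)⟩)
    (fun y hy => let ⟨x, h1, h2, h3⟩ := H' y hy;
      ⟨x, h1, h2, fun j hj => h3 j (c1 j hj.2) hj.1⟩)] at h1
  obtain ⟨m0, m1, m2, -⟩ := am5m_ge R k
  simp only [am5_split W ξ r s k ε t cl, c2, mul_one, one_mul, mul_assoc] at h1 ⊢
  refine h1.trans ?_
  have a1 := (am5_n2 (τ := τ) W ξ s k ε t fun j => j ≠ r ∧ cl j = 0).trans m1
  have a2 := (am5f_mom W ξ s k ε t (fun j => j ≠ r ∧ cl j = 1) 4).trans m2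
  have p : 0 ≤ bb2 s k J S S' := gb2_nonneg (ad_hsft s J S') _ _
  calc _ ≤ am5m R k ^ 2 * (am5m R k * bb2 s k J S S') := by
        gcongr
        · exact mul_nonneg (av_nonneg fun _ => by positivity) p
        · exact n2_nonneg _
    _ = _ := by ring

theorem am5_iso {ε : Fin R → Bool} {m : Fin R → Fin R} (hm : amV E ε m) {x y : Fin R → E}
    (hx : ∀ r, x (m r) = x r) (hy : ∀ r, y (m r) = y r) : sB τ ε x y = 0 := by
  refine Finset.sum_involution (fun r _ => m r) (fun r _ => ?_) (fun r _ _ => hm.2.1 r)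
    (fun _ _ => Finset.mem_univ _) fun r _ => hm.1 r
  rw [hx, hy]
  by_cases e : ε (m r) = ε r
  · have : τ.be (x r) (y r) + τ.be (x r) (y r) = 0 := by
      rw [← map_add, ← two_nsmul, hm.2.2 r e, map_zero]
    rw [e]
    split_ifs
    · rw [← neg_add, this, neg_zero]
    · exact this
  · revert e
    cases ε (m r) <;> cases ε r <;> simp

theorem am5_mean {Ω : Type} [Finite Ω] [Nonempty Ω] {D : ℕ → ℝ} {k : Ω → G → ℂ} (hk : MomB D k)
    {A : Ω → ℂ} {g : Ω → ℝ} {θ : ℝ} {n : ℕ} (hn : n ≤ 7) (h0 : 0 < θ) (h1 : θ ≤ 1)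
    (hg : ∀ ω, 0 ≤ g ω) (hb : av g ≤ θ ^ 8) (hA : ∀ ω, ‖A ω‖ ^ (n + 1) ≤ am5m R (k ω) ^ n * g ω) :
    ‖cav A‖ ≤ (|3 + R * (D (2 * R) + D (4 * R) + D (8 * R))| + 1) * θ := by
  refine (norm_cav_le _).trans ((av_mono fun ω =>
    am5_young (am5m_ge R (k ω)).1 (hg ω) h0 (hA ω)).trans ?_)
  rw [av_add, av_mul_left, av_div, add_mul, one_mul, mul_comm θ]
  refine add_le_add (mul_le_mul_of_nonneg_right (le_trans ?_ (le_abs_self _)) h0.le) ?_
  · simp only [am5m, av_add, av_const, av_mul_left]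
    have a := mul_le_mul_of_nonneg_left (hk (2 * R)) (Nat.cast_nonneg (α := ℝ) R)
    have b := mul_le_mul_of_nonneg_left (hk (4 * R)) (Nat.cast_nonneg (α := ℝ) R)
    have c := mul_le_mul_of_nonneg_left (hk (8 * R)) (Nat.cast_nonneg (α := ℝ) R)
    linarith
  · rw [div_le_iff₀ (by positivity), ← pow_succ']
    exact hb.trans (pow_le_pow_of_le_one h0.le h1 (by omega))

theorem am5 (h : τ.ND) (hC : CLP τ) : AM5 τ := by
  intro D R
  refine ⟨|3 + R * (D (2 * R) + D (4 * R) + D (8 * R))| + 1, by positivity, ?_⟩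
  intro Ω B G _ _ _ _ _ s k hk ε T hT hP ξ J θ hJ h0 h1 hB t
  have pp := (am5_nd h ε).perp_perp T
  have le : T ≤ (amT τ ε).perp T := fun a ha b hb => hT.1 b hb a ha
  rcases hC R ε ((amT τ ε).perp T) (fun x hx => le (by
      rw [← pp]; intro w hw; rw [(amT τ ε).symm]; exact hx w hw))
    (fun e a ha => hT.2 a ha e) with
    ⟨r, C, S, hr, s0, s1, H, H'⟩ | ⟨r, cl, H⟩ | ⟨m, m1, m2, m3, m4⟩
  · exact am5_mean hk (n := 3) (by norm_num) h0 h1 (fun ω => gb2_nonneg (ad_hsft _ J _) _ _)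
      (hB.1 S s0 s1) fun ω => am5_two h (s ω) (k ω) ε t T ξ hJ hr H H'
  · exact am5_mean hk (n := 7) le_rfl h0 h1 (fun ω => gb3_nonneg (ad_hsft _ J _) _ _ _)
      hB.2 fun ω => am5_three h (s ω) (k ω) ε t T ξ hJ H
  · refine absurd ⟨m, ⟨m1, m2, m4⟩, le_antisymm (fun x hx => (m3 x).1 (le hx)) fun x hx => ?_⟩ hP
    rw [← pp]
    exact fun w hw => am5_iso ⟨m1, m2, m4⟩ ((m3 w).1 hw) hx

end

end NE
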