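import Pool.Agent.Lib.MP_ecee09_co.NE.Defs3
import Pool.Agent.Lib.MP_ecee09_co.NE.CBase

/-! Boxes for shift maps in a finite abelian group. -/

set_option linter.unusedSectionVars false

namespace NE

open SD
open ComplexConjugate

/-- additive maps, unbundled -/
def Ad {H G : Type} [Add H] [Add G] (a : H → G) : Prop := ∀ x y, a (x + y) = a x + a y

section ad
variable {G G' H H' E B I K : Type} [AddCommGroup G] [AddCommGroup G'] [AddCommGroup H]
  [AddCommGroup H'] [AddCommGroup E]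

theorem ad_hom (a : H →+ G) : Ad a := a.map_add

theorem ad_id : Ad fun x : G => x := fun _ _ => rfl

theorem Ad.comp {s : G → G'} {a : H → G} (hs : Ad s) (ha : Ad a) : Ad fun h => s (a h) :=
  fun x y => (congrArg s (ha x y)).trans (hs _ _)

theorem ad_sft (J : Set B) (S : AddSubgroup E) : Ad (sft J S) := fun x y => by
  funext l; simp only [sft, Pi.add_apply]; split_ifs <;> simp

theorem ad_hsft (s : (B → E) →+ G) (J : Set B) (S : AddSubgroup E) : Ad fun h => s (sft J S h) :=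
  (ad_hom s).comp (ad_sft J S)

/-- the bundled form -/
def Ad.hom {a : H → G} (ha : Ad a) : H →+ G := AddMonoidHom.mk' a ha

theorem Ad.zero {a : H → G} (ha : Ad a) : a 0 = 0 := ha.hom.map_zero

theorem Ad.neg {a : H → G} (ha : Ad a) (x : H) : a (-x) = -a x := ha.hom.map_neg x

theorem Ad.sub {a : H → G} (ha : Ad a) (x y : H) : a (x - y) = a x - a y := ha.hom.map_sub x y

theorem mem_range_sft {J : Set B} {S : AddSubgroup E} {v : B → E} :
    v ∈ Set.range (sft J S) ↔ (∀ l, v l ∈ S) ∧ ∀ l, l ∉ J → v l = 0 := by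
  constructor
  · rintro ⟨h, rfl⟩
    refine ⟨fun l => ?_, fun l hl => by simp [sft, hl]⟩
    simp only [sft]; split_ifs
    exacts [(h l).2, S.zero_mem]
  · rintro ⟨h1, h2⟩
    exact ⟨fun l => ⟨v l, h1 l⟩, funext fun l => by by_cases hl : l ∈ J <;> simp [sft, hl, h2]⟩

theorem range_sft_mono {J J' : Set B} {S S' : AddSubgroup E} (h : J ⊆ J') (h' : S ≤ S') :
    Set.range (sft J S) ⊆ Set.range (sft J' S') := fun _ hv =>
  mem_range_sft.2 ⟨fun l => h' ((mem_range_sft.1 hv).1 l),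
    fun l hl => (mem_range_sft.1 hv).2 l fun x => hl (h x)⟩

theorem cav_range_sub [Finite H] [Finite H'] {a : H → G} {a' : H' → G} (ha : Ad a)
    (h : Set.range a' ⊆ Set.range a) (f : G → ℂ) :
    cav (fun x => f (a x)) = cav fun y => cav fun x => f (a x + a' y) := by
  rw [← cav_const (α := H') (cav fun x => f (a x))]
  refine cav_congr fun y => ?_
  obtain ⟨s, hs⟩ := h ⟨y, rfl⟩
  rw [← cav_add_right (fun x => f (a x)) s]
  exact cav_congr fun x => by rw [ha, hs]

/-- averages only see the range -/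
theorem cav_range [Finite H] [Finite H'] {a : H → G} {a' : H' → G} (ha : Ad a) (ha' : Ad a')
    (h : Set.range a = Set.range a') (f : G → ℂ) :
    cav (fun x => f (a x)) = cav fun x => f (a' x) := by
  rw [cav_range_sub ha h.ge, cav_range_sub ha' h.le, cav_comm]
  simp only [add_comm]

theorem av_range [Finite H] [Finite H'] {a : H → G} {a' : H' → G} (ha : Ad a) (ha' : Ad a')
    (h : Set.range a = Set.range a') (f : G → ℝ) :
    av (fun x => f (a x)) = av fun x => f (a' x) := by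
  have := cav_range ha ha' h fun y => (f y : ℂ)
  rw [cav_ofReal, cav_ofReal] at this
  exact_mod_cast this

end ad

section four
variable {G H : Type} [AddCommGroup G] [Finite G] [Finite H]

/-- Fourier coefficient -/
noncomputable def fc (g : G → ℂ) (ψ : AddChar G ℂ) : ℂ := cav fun x => g x * conj (ψ x)

theorem char_mul_conj (ψ : AddChar G ℂ) (x : G) : ψ x * conj (ψ x) = 1 := by
  rw [← ψ.map_neg_eq_conj, ← ψ.map_add_eq_mul, add_neg_cancel, ψ.map_zero_eq_one]

theorem csm_char (x y : G) :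
    csm (fun ψ : AddChar G ℂ => conj (ψ x) * ψ y) = (ind (y = x) : ℝ) * (Nat.card G : ℂ) := by
  classical
  let _ := Fintype.ofFinite G
  simp only [← AddChar.map_neg_eq_conj, ← AddChar.map_add_eq_mul, csm_eq, AddChar.sum_apply_eq_ite,
    neg_add_eq_zero, ind_eq, eq_comm (a := x), Nat.card_eq_fintype_card]
  split_ifs <;> simp

theorem ip_fc (f g : G → ℂ) : ip f g = csm fun ψ => fc f ψ * conj (fc g ψ) := by
  have e (ψ : AddChar G ℂ) : fc f ψ * conj (fc g ψ) =
      cav fun x => cav fun y => f x * conj (g y) * (conj (ψ x) * ψ y) := by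
    rw [fc, fc, conj_cav, cav_mul_cav]
    refine cav_congr fun x => cav_congr fun y => ?_
    rw [map_mul, Complex.conj_conj]; ring
  simp only [e, ← cav_csm_comm, csm_mul_left, csm_char]
  refine cav_congr fun x => ?_
  have := cav_ind_eq x fun y => f x * conj (g y) * (Nat.card G : ℂ)
  rw [mul_div_cancel_right₀ _ ccard_ne] at this
  rw [← this]
  exact cav_congr fun y => by ring

theorem parseval (g : G → ℂ) : n2 g = sm fun ψ => ‖fc g ψ‖ ^ 2 := by
  have := ip_fc g g
  simp only [ip_self, mul_conj'', csm_ofReal] at this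
  exact_mod_cast this

theorem fc_prS (a : H → G) (g : G → ℂ) (ψ : AddChar G ℂ) :
    fc (prS a g) ψ = (cav fun h => ψ (a h)) * fc g ψ := by
  simp only [fc, prS, ← cav_mul_right]
  rw [cav_comm]
  refine cav_congr fun h => ?_
  rw [← cav_add_right (fun x => g x * conj (ψ x)) (a h), ← cav_mul_left]
  refine cav_congr fun x => ?_
  rw [ψ.map_add_eq_mul, map_mul]
  linear_combination (-g (x + a h) * conj (ψ x)) * char_mul_conj ψ (a h)

theorem cav_char [AddCommGroup H] {a : H → G} (ha : Ad a) (ψ : AddChar G ℂ) :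
    (cav fun h => ψ (a h)) = (ind (∀ h, ψ (a h) = 1) : ℝ) := by
  by_cases h0 : ∀ h, ψ (a h) = 1
  · rw [ind_pos h0]; simp [h0, cav_const]
  · rw [ind_neg h0]; push Not at h0; obtain ⟨y, hy⟩ := h0
    have h1 := cav_add_right (fun x => ψ (a x)) y
    simp only [ha _ y, ψ.map_add_eq_mul, cav_mul_right] at h1
    have h2 : cav (fun x => ψ (a x)) * (ψ (a y) - 1) = 0 := by rw [mul_sub, h1]; ring
    simpa using (mul_eq_zero.1 h2).resolve_right (sub_ne_zero.2 hy)

theorem n2_prS_fc [AddCommGroup H] {a : H → G} (ha : Ad a) (g : G → ℂ) :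
    n2 (prS a g) = sm fun ψ : AddChar G ℂ => ind (∀ h, ψ (a h) = 1) * ‖fc g ψ‖ ^ 2 := by
  simp only [parseval (prS a g), fc_prS, cav_char ha, norm_mul, mul_pow, Complex.norm_real,
    Real.norm_eq_abs, abs_ind, ind_sq]

end four

section gb
variable {G H1 H2 H3 H1' H2' H3' : Type} [AddCommGroup G] [Finite G] [Finite H1] [Finite H2]
  [Finite H3] [Finite H1'] [Finite H2'] [Finite H3']

theorem av_le_c {α : Type} [Finite α] {f : α → ℝ} {c : ℝ} (hc : 0 ≤ c) (h : ∀ x, f x ≤ c) :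
    av f ≤ c := by
  cases isEmpty_or_nonempty α with
  | inl _ => simpa [av] using hc
  | inr _ => exact av_le_const h

omit [Finite G] in
theorem dd_comm (k : G → ℂ) (h h' : G) : dd (dd k h) h' = dd (dd k h') h := by
  funext x; simp only [dd, map_mul, Complex.conj_conj, add_right_comm x h']; ring

theorem av_dd_pow (k : G → ℂ) (h : G) (p : ℕ) :
    av (fun x => ‖dd k h x‖ ^ p) ≤ av fun x => ‖k x‖ ^ (2 * p) := by
  have h1 := av_cs (fun x => ‖k x‖ ^ p) fun x => ‖k (x + h)‖ ^ p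
  rw [av_add_right (fun x => (‖k x‖ ^ p) ^ 2) h, ← sq] at h1
  simp only [dd, norm_mul, Complex.norm_conj, mul_pow, mul_comm 2 p, pow_mul]
  exact (abs_le_of_sq_le_sq' h1 (av_nonneg fun _ => sq_nonneg _)).2

theorem n2_dd_le (k : G → ℂ) (h : G) : n2 (dd k h) ≤ av fun x => ‖k x‖ ^ 4 := av_dd_pow k h 2

theorem n2_prS_le (a : H1 → G) (g : G → ℂ) : n2 (prS a g) ≤ n2 g := by
  refine (av_mono fun x => norm_cav_sq_le fun h => g (x + a h)).trans ?_
  simp only [n2]
  rw [av_comm]
  exact av_le_c (n2_nonneg g) fun h => (av_add_right (fun x => ‖g x‖ ^ 2) (a h)).le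

theorem cav_prS [Nonempty H1] (a : H1 → G) (g : G → ℂ) : cav (prS a g) = cav g := by
  unfold prS
  rw [cav_comm]
  simp only [cav_add_right g, cav_const]

theorem gb2_comm (k : G → ℂ) (a : H1 → G) (b : H2 → G) : gb2 k a b = gb2 k b a := by
  simp only [gb2, dd_comm k (a _)]
  exact congrArg _ (cav_congr fun x => cav_comm _)

theorem gb3_eq2 (k : G → ℂ) (a : H1 → G) (b : H2 → G) (c : H3 → G) :
    gb3 k a b c = av fun h => gb2 (dd k (a h)) b c := by
  rw [gb3, cav_comm, cav_re]; rfl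

theorem gb3_comm12 (k : G → ℂ) (a : H1 → G) (b : H2 → G) (c : H3 → G) :
    gb3 k a b c = gb3 k b a c := by
  simp only [gb3, dd_comm k (a _)]
  exact congrArg _ (cav_congr fun x => cav_comm _)

theorem gb3_comm23 (k : G → ℂ) (a : H1 → G) (b : H2 → G) (c : H3 → G) :
    gb3 k a b c = gb3 k a c b := by
  simp only [gb3_eq2, gb2_comm _ b]

omit [Finite G] in
theorem dd_conj (k : G → ℂ) (h : G) : dd (fun x => conj (k x)) h = fun x => conj (dd k h x) := by
  funext x; simp only [dd, map_mul]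

omit [Finite G] in
theorem dd_shift (k : G → ℂ) (g h : G) : dd (fun x => k (x + g)) h = fun x => dd k h (x + g) := by
  funext x; simp only [dd, add_right_comm x h]

omit [Finite G] in
theorem dd_smul (z : ℂ) (k : G → ℂ) (h : G) :
    dd (fun x => z * k x) h = fun x => ((‖z‖ ^ 2 : ℝ) : ℂ) * dd k h x := by
  funext x; simp only [dd, map_mul, ← mul_conj'']; ring

omit [Finite G] in
theorem dd_mul (k g : G → ℂ) (h : G) :
    dd (fun x => k x * g x) h = fun x => dd k h x * dd g h x := by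
  funext x; simp only [dd, map_mul]; ring

omit [Finite G] in
theorem dd_phase {φ : G → TT} (hφ : Ad φ) (k : G → ℂ) (h : G) :
    dd (fun x => k x * ee (φ x)) h = fun x => conj (ee (φ h)) * dd k h x := by
  funext x
  simp only [dd, map_mul, hφ x, ee_add]
  linear_combination (k x * conj (k (x + h)) * conj (ee (φ h))) * ee_mul_conj (φ x)

theorem gb2_conj (k : G → ℂ) (a : H1 → G) (b : H2 → G) :
    gb2 (fun x => conj (k x)) a b = gb2 k a b := by
  simp only [gb2, dd_conj, ← conj_cav, Complex.conj_re]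

theorem gb3_conj (k : G → ℂ) (a : H1 → G) (b : H2 → G) (c : H3 → G) :
    gb3 (fun x => conj (k x)) a b c = gb3 k a b c := by
  simp only [gb3_eq2, dd_conj, gb2_conj]

theorem gb2_shift (k : G → ℂ) (g : G) (a : H1 → G) (b : H2 → G) :
    gb2 (fun x => k (x + g)) a b = gb2 k a b := by
  simp only [gb2, dd_shift]
  exact congrArg _ (cav_add_right (fun x => cav fun h1 => cav fun h2 => dd (dd k (a h1)) (b h2) x) g)

theorem gb3_shift (k : G → ℂ) (g : G) (a : H1 → G) (b : H2 → G) (c : H3 → G) :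
    gb3 (fun x => k (x + g)) a b c = gb3 k a b c := by
  simp only [gb3_eq2, dd_shift, gb2_shift]

theorem gb2_mul (z : ℂ) (k : G → ℂ) (a : H1 → G) (b : H2 → G) :
    gb2 (fun x => z * k x) a b = ‖z‖ ^ 4 * gb2 k a b := by
  simp only [gb2, dd_smul, cav_mul_left, Complex.re_ofReal_mul, Complex.norm_real, norm_pow,
    norm_norm, ← pow_mul]

theorem gb3_mul (z : ℂ) (k : G → ℂ) (a : H1 → G) (b : H2 → G) (c : H3 → G) :
    gb3 (fun x => z * k x) a b c = ‖z‖ ^ 8 * gb3 k a b c := by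
  simp only [gb3_eq2, dd_smul, gb2_mul, av_mul_left, Complex.norm_real, norm_pow, norm_norm,
    ← pow_mul]

/-- linear phases are invisible -/
theorem gb2_phase {φ : G → TT} (hφ : Ad φ) (k : G → ℂ) (a : H1 → G) (b : H2 → G) :
    gb2 (fun x => k x * ee (φ x)) a b = gb2 k a b := by
  simp only [gb2, dd_phase hφ, dd_smul, Complex.norm_conj, norm_ee, one_pow, Complex.ofReal_one,
    one_mul]

theorem gb3_phase {φ : G → TT} (hφ : Ad φ) (k : G → ℂ) (a : H1 → G) (b : H2 → G) (c : H3 → G) :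
    gb3 (fun x => k x * ee (φ x)) a b c = gb3 k a b c := by
  simp only [gb3_eq2, dd_phase hφ, gb2_mul, Complex.norm_conj, norm_ee, one_pow, one_mul]

theorem gb2_av (k : G → ℂ) (a : H1 → G) (b : H2 → G) :
    gb2 k a b = av fun h1 => av fun h2 => (cav (dd (dd k (a h1)) (b h2))).re := by
  rw [gb2, cav_comm, cav_re]
  exact av_congr fun h1 => by rw [cav_comm, cav_re]

theorem gb2_le (k : G → ℂ) (a : H1 → G) (b : H2 → G) : gb2 k a b ≤ av fun x => ‖k x‖ ^ 4 := by
  have p : 0 ≤ av fun x => ‖k x‖ ^ 4 := av_nonneg fun _ => by positivity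
  rw [gb2_av]
  refine av_le_c p fun h1 => av_le_c p fun h2 => ((Complex.re_le_norm _).trans
    (norm_cav_le _)).trans (le_trans ?_ (av_dd_pow k (a h1) 2))
  simpa using av_dd_pow (dd k (a h1)) (b h2) 1

theorem gb3_le (k : G → ℂ) (a : H1 → G) (b : H2 → G) (c : H3 → G) :
    gb3 k a b c ≤ av fun x => ‖k x‖ ^ 8 := by
  rw [gb3_eq2]
  exact av_le_c (av_nonneg fun _ => by positivity) fun h => (gb2_le ..).trans (av_dd_pow k _ 4)

variable [AddCommGroup H1] [AddCommGroup H2] [AddCommGroup H3] [AddCommGroup H1']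
  [AddCommGroup H2'] [AddCommGroup H3'] {a : H1 → G} {b : H2 → G} {c : H3 → G} {a' : H1' → G}
  {b' : H2' → G} {c' : H3' → G}

omit [Finite G] in
theorem prS_inv (ha : Ad a) (g : G → ℂ) (x : G) (h : H1) : prS a g (x + a h) = prS a g x := by
  rw [prS, prS, ← cav_add_left (fun h' => g (x + a h')) h]
  exact cav_congr fun h' => by rw [ha, add_assoc]

theorem n2_prS (ha : Ad a) (g : G → ℂ) :
    (cav fun x => cav fun h => dd g (a h) x) = (n2 (prS a g) : ℝ) := by
  have : (cav fun x => cav fun h => dd g (a h) x) = ip g (prS a g) := by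
    simp only [ip, prS, conj_cav, ← cav_mul_left, dd]
  rw [this, ip_fc, n2_prS_fc ha, ← csm_ofReal]
  refine csm_congr fun ψ => ?_
  rw [fc_prS, cav_char ha, map_mul, Complex.conj_ofReal, mul_left_comm, mul_conj'',
    Complex.ofReal_mul]

omit [Finite G] in
theorem prS_range (ha : Ad a) (ha' : Ad a') (h : Set.range a = Set.range a') (g : G → ℂ) :
    prS a g = prS a' g := funext fun x => cav_range ha ha' h fun y => g (x + y)

theorem n2_prS_anti (ha : Ad a) (ha' : Ad a') (h : Set.range a' ⊆ Set.range a) (g : G → ℂ) :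
    n2 (prS a g) ≤ n2 (prS a' g) := by
  rw [n2_prS_fc ha, n2_prS_fc ha']
  refine sm_mono fun ψ => mul_le_mul_of_nonneg_right (ind_mono fun k y => ?_) (sq_nonneg _)
  obtain ⟨s, hs⟩ := h ⟨y, rfl⟩
  exact hs ▸ k s

omit [AddCommGroup H1] in
theorem gb2_eq (hb : Ad b) (k : G → ℂ) (a : H1 → G) :
    gb2 k a b = av fun h => n2 (prS b (dd k (a h))) := by
  rw [gb2, cav_comm, cav_re]
  exact av_congr fun h => by rw [n2_prS hb, Complex.ofReal_re]

omit [AddCommGroup H1] [AddCommGroup H2] in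
theorem gb3_eq (hc : Ad c) (k : G → ℂ) (a : H1 → G) (b : H2 → G) :
    gb3 k a b c = av fun h1 => av fun h2 => n2 (prS c (dd (dd k (a h1)) (b h2))) := by
  simp only [gb3_eq2, gb2_eq hc]

omit [AddCommGroup H1] in
theorem gb2_nonneg (hb : Ad b) (k : G → ℂ) (a : H1 → G) : 0 ≤ gb2 k a b := by
  rw [gb2_eq hb]; exact av_nonneg fun _ => n2_nonneg _

omit [AddCommGroup H1] [AddCommGroup H2] in
theorem gb3_nonneg (hc : Ad c) (k : G → ℂ) (a : H1 → G) (b : H2 → G) : 0 ≤ gb3 k a b c := by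
  rw [gb3_eq2]; exact av_nonneg fun _ => gb2_nonneg hc _ _

theorem gb2_anti (ha : Ad a) (hb : Ad b) (ha' : Ad a') (hb' : Ad b')
    (h1 : Set.range a' ⊆ Set.range a) (h2 : Set.range b' ⊆ Set.range b) (k : G → ℂ) :
    gb2 k a b ≤ gb2 k a' b' := by
  rw [gb2_eq hb, gb2_comm k a', gb2_eq ha']
  refine (av_mono fun _ => n2_prS_anti hb hb' h2 _).trans ?_
  rw [← gb2_eq hb', gb2_comm, gb2_eq ha]
  exact av_mono fun _ => n2_prS_anti ha ha' h1 _

theorem gb3_anti (ha : Ad a) (hb : Ad b) (hc : Ad c) (ha' : Ad a') (hb' : Ad b') (hc' : Ad c')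
    (h1 : Set.range a' ⊆ Set.range a) (h2 : Set.range b' ⊆ Set.range b)
    (h3 : Set.range c' ⊆ Set.range c) (k : G → ℂ) : gb3 k a b c ≤ gb3 k a' b' c' := by
  rw [gb3_eq2, gb3_comm12 k a', gb3_eq2]
  refine (av_mono fun _ => gb2_anti hb hc hb' hc' h2 h3 _).trans ?_
  rw [← gb3_eq2, gb3_comm12, gb3_eq2]
  exact av_mono fun _ => gb2_anti ha hc' ha' hc' h1 subset_rfl _

theorem gb2_range (ha : Ad a) (hb : Ad b) (ha' : Ad a') (hb' : Ad b')
    (h1 : Set.range a = Set.range a') (h2 : Set.range b = Set.range b') (k : G → ℂ) :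
    gb2 k a b = gb2 k a' b' :=
  (gb2_anti ha hb ha' hb' h1.ge h2.ge k).antisymm (gb2_anti ha' hb' ha hb h1.le h2.le k)

theorem gb3_range (ha : Ad a) (hb : Ad b) (hc : Ad c) (ha' : Ad a') (hb' : Ad b') (hc' : Ad c')
    (h1 : Set.range a = Set.range a') (h2 : Set.range b = Set.range b')
    (h3 : Set.range c = Set.range c') (k : G → ℂ) : gb3 k a b c = gb3 k a' b' c' :=
  (gb3_anti ha hb hc ha' hb' hc' h1.ge h2.ge h3.ge k).antisymm
    (gb3_anti ha' hb' hc' ha hb hc h1.le h2.le h3.le k)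

theorem norm_cav_sq_le_prS (a : H1 → G) (g : G → ℂ) : ‖cav g‖ ^ 2 ≤ n2 (prS a g) := by
  rw [← cav_prS a g]; exact norm_cav_sq_le _

omit [AddCommGroup H1] [AddCommGroup H2] in
theorem gb2_sq_le (hc : Ad c) (k : G → ℂ) (a : H1 → G) (b : H2 → G) :
    gb2 k a b ^ 2 ≤ gb3 k a b c := by
  rw [gb2_av, gb3_eq hc]
  refine (av_sq_le _).trans (av_mono fun h1 => (av_sq_le _).trans (av_mono fun h2 => ?_))
  exact (sq_le_sq' (abs_le.1 (Complex.abs_re_le_norm _)).1 (Complex.re_le_norm _)).trans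
    (norm_cav_sq_le_prS ..)

theorem n2_prS_pow (ha : Ad a) (g : G → ℂ) (p : ℕ) :
    n2 (prS a g) ^ p ≤ av fun h => ‖cav (dd g (a h))‖ ^ p := by
  have := norm_cav_pow_le (fun h => cav (dd g (a h))) p
  rwa [← cav_comm fun x h => dd g (a h) x, n2_prS ha, Complex.norm_real,
    Real.norm_of_nonneg (n2_nonneg _)] at this

theorem n2_prS_sq_le (ha : Ad a) (hb : Ad b) (k : G → ℂ) : n2 (prS a k) ^ 2 ≤ gb2 k a b := by
  rw [gb2_eq hb]
  exact (n2_prS_pow ha k 2).trans (av_mono fun h => norm_cav_sq_le_prS ..)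

theorem cs_box1 (k : G → ℂ) {f : G → ℂ} (hf : ∀ x h, f (x + a h) = f x) :
    ‖cav fun x => k x * f x‖ ^ 2 ≤ n2 f * n2 (prS a k) := by
  have : prS a (fun x => k x * f x) = fun x => f x * prS a k x := by
    funext x; simp only [prS, hf, cav_mul_right]; ring
  rw [← cav_prS a, this]
  exact norm_cav_cs ..

theorem cs_box2 (ha : Ad a) (hb : Ad b) (k : G → ℂ) {f g : G → ℂ}
    (hf : ∀ x h, f (x + a h) = f x) (hg : ∀ x h, g (x + b h) = g x) :
    ‖cav fun x => k x * g x * f x‖ ^ 4 ≤ n2 f ^ 2 * av (fun x => ‖g x‖ ^ 4) * gb2 k a b := by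
  have h1 := pow_le_pow_left₀ (sq_nonneg _) (cs_box1 (fun x => k x * g x) hf) 2
  rw [← pow_mul, mul_pow] at h1
  rw [mul_assoc, gb2_eq hb, ← av_mul_left]
  refine h1.trans (mul_le_mul_of_nonneg_left ((n2_prS_pow ha _ 2).trans (av_mono fun h => ?_))
    (sq_nonneg _))
  rw [dd_mul]
  exact (cs_box1 (a := b) _ fun x h' => by simp only [dd, add_right_comm x (b h'), hg]).trans
    (mul_le_mul_of_nonneg_right (n2_dd_le ..) (n2_nonneg _))

theorem cs_box3 (ha : Ad a) (hb : Ad b) (hc : Ad c) (k : G → ℂ) {f g l : G → ℂ}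
    (hf : ∀ x h, f (x + a h) = f x) (hg : ∀ x h, g (x + b h) = g x)
    (hl : ∀ x h, l (x + c h) = l x) :
    ‖cav fun x => k x * l x * g x * f x‖ ^ 8 ≤
      n2 f ^ 4 * av (fun x => ‖g x‖ ^ 4) ^ 2 * av (fun x => ‖l x‖ ^ 8) * gb3 k a b c := by
  have h1 := pow_le_pow_left₀ (sq_nonneg _) (cs_box1 (fun x => k x * l x * g x) hf) 4
  rw [← pow_mul, mul_pow] at h1
  rw [mul_assoc, mul_assoc, ← mul_assoc (av _ ^ 2), gb3_eq2, ← av_mul_left]
  refine h1.trans (mul_le_mul_of_nonneg_left ((n2_prS_pow ha _ 4).trans (av_mono fun h => ?_))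
    (pow_nonneg (n2_nonneg _) _))
  rw [dd_mul, dd_mul]
  refine (cs_box2 hb hc _ (fun x h' => by simp only [dd, add_right_comm x (b h'), hg])
    fun x h' => by simp only [dd, add_right_comm x (c h'), hl]).trans
    (mul_le_mul_of_nonneg_right ?_ (gb2_nonneg hc ..))
  exact mul_le_mul (pow_le_pow_left₀ (n2_nonneg _) (n2_dd_le ..) 2) (av_dd_pow l _ 4)
    (av_nonneg fun _ => by positivity) (sq_nonneg _)

end gb

end NE
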