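import Pool.Agent.Lib.MP_ecee09_co.NE.AMD
import Pool.Agent.Lib.MP_ecee09_co.NE.GB
import Pool.Agent.Lib.MP_ecee09_co.SD.MOMa

/-! Case (i) of the moment lemma: the term as an average over a group of shifts. -/

namespace NE

open SD
open ComplexConjugate

set_option linter.unusedSectionVars false

theorem am5_young {u M g θ : ℝ} {n : ℕ} (hM : 0 < M) (hg : 0 ≤ g) (hθ : 0 < θ)
    (h : u ^ (n + 1) ≤ M ^ n * g) : u ≤ θ * M + g / θ ^ n := by
  by_cases h1 : u ≤ θ * M
  · exact h1.trans (le_add_of_nonneg_right (by positivity))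
  · have h2 : θ * M ≤ u := (not_le.1 h1).le
    have h3 : (θ * M) ^ n * u ≤ M ^ n * g := by
      refine le_trans ?_ h
      rw [pow_succ]
      exact mul_le_mul_of_nonneg_right (pow_le_pow_left₀ (by positivity) h2 n)
        (le_trans (by positivity) h2)
    rw [mul_pow, mul_comm (θ ^ n), mul_assoc] at h3
    have h4 := le_of_mul_le_mul_left h3 (by positivity)
    have h5 : u ≤ g / θ ^ n := by rw [le_div_iff₀ (by positivity), mul_comm]; exact h4
    exact h5.trans (le_add_of_nonneg_left (by positivity))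

theorem am5_cj_mul (b : Bool) (x y : ℂ) : cj b (x * y) = cj b x * cj b y := by
  cases b <;> simp

theorem am5_norm_cj (b : Bool) (x : ℂ) : ‖cj b x‖ = ‖x‖ := by cases b <;> simp

theorem am5_cj_cav {α : Type} [Finite α] (b : Bool) (f : α → ℂ) :
    cj b (cav f) = cav fun x => cj b (f x) := by
  cases b
  · rfl
  · exact conj_cav f

theorem am5_cj_ee (b : Bool) (a : TT) : cj b (conj (ee a)) = conj (ee (if b then -a else a)) := by
  cases b
  · rfl
  · simp [conj_ee]

/-- summing characters over a subgroup restricts the average to the annihilator -/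
theorem am5_dual {X : Type} [AddCommGroup X] [Finite X] (β : X → X → TT)
    (hβ : ∀ x y h, β (x + y) h = β x h + β y h)
    (nd : ∀ x, cav (fun h => ee (β x h)) = (ind (x = 0) : ℝ)) (T0 HW : AddSubgroup X)
    (hW : ∀ h, (∀ x : T0, β x h = 0) ↔ h ∈ HW) (K : X → ℂ) :
    (csm fun x : T0 => cav fun h => K h * conj (ee (β x h))) = cav fun h : HW => K h := by
  have e : ∀ K : X → ℂ, (csm fun x : T0 => cav fun h => K h * conj (ee (β x h))) =
      (Nat.card T0 * Nat.card HW / Nat.card X : ℂ) * cav fun h : HW => K h := by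
    intro K
    have h1 : ∀ h, (csm fun x : T0 => K h * conj (ee (β x h))) =
        Nat.card T0 * ((ind (h ∈ HW) : ℝ) * K h) := fun h => by
      rw [csm_mul_left, ← conj_csm, csm_eq_card_mul_cav,
        cav_ee_add (fun x : T0 => β x h) fun a b => hβ a b h, ind_congr (hW h), map_mul,
        Complex.conj_ofReal, map_natCast]
      ring
    rw [← cav_csm_comm]
    simp only [h1]
    rw [cav_mul_left, cav_def, ← csm_subtype (fun h => h ∈ HW) K,
      csm_eq_card_mul_cav (α := HW)]
    ring
  have h1 := e fun _ => 1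
  simp only [one_mul, ← conj_cav, nd, Complex.conj_ofReal, cav_const, mul_one,
    ZeroMemClass.coe_eq_zero] at h1
  have h2 := csm_ind_eq (0 : T0) fun _ => 1
  simp only [mul_one] at h2
  rw [e K, ← h1, h2, one_mul]

section
variable {E B G : Type} [AddCommGroup E] [AddCommGroup G] {R : ℕ} {τ : QT E}

theorem am5_nd (h : τ.ND) (ε : Fin R → Bool) : (amT τ ε).ND := by
  intro x hx
  funext r
  refine h _ (AddMonoidHom.ext fun y => ?_)
  have h1 : sB τ ε x (Pi.single r y) = 0 := by rw [← amT_be, hx]; rfl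
  rw [sB, Finset.sum_eq_single r (fun j _ hj => by simp [hj]) (by simp)] at h1
  split_ifs at h1 <;> simpa using h1

/-- the group of shifts: values in `W` where no row is prescribed -/
def am5H (W : AddSubgroup (Fin R → E)) (ξ : B → Option (Fin R → E)) :
    AddSubgroup (B → Fin R → E) where
  carrier := {h | ∀ l, ξ l = none → h l ∈ W}
  zero_mem' := fun _ _ => zero_mem W
  add_mem' := fun ha hb l hl => add_mem (ha l hl) (hb l hl)
  neg_mem' := fun ha l hl => neg_mem (ha l hl)

/-- rows in `T` where no row is prescribed, zero elsewhere -/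
def am5T (T : AddSubgroup (Fin R → E)) (ξ : B → Option (Fin R → E)) :
    AddSubgroup (B → Fin R → E) where
  carrier := {x | ∀ l, x l ∈ T ∧ (ξ l ≠ none → x l = 0)}
  zero_mem' := fun _ => ⟨zero_mem T, fun _ => rfl⟩
  add_mem' := fun {a b} ha hb l => ⟨add_mem (ha l).1 (hb l).1, fun h => by
    rw [Pi.add_apply, (ha l).2 h, (hb l).2 h, add_zero]⟩
  neg_mem' := fun {a} ha l => ⟨neg_mem (ha l).1, fun h => by rw [Pi.neg_apply, (ha l).2 h, neg_zero]⟩

theorem am5_I (T : AddSubgroup (Fin R → E)) (ξ : B → Option (Fin R → E)) (x : B → Fin R → E) :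
    amI T ξ (x + fun l => (ξ l).getD 0) ↔ x ∈ am5T T ξ := by
  refine forall_congr' fun l => ?_
  cases h : ξ l with
  | none => simp [h]
  | some y =>
    simp only [Option.elim_some, Pi.add_apply, h, Option.getD_some, add_eq_right, ne_eq,
      reduceCtorEq, not_false_eq_true, forall_const]
    exact ⟨fun e => ⟨e ▸ zero_mem T, e⟩, fun e => e.2⟩

variable [Finite E] [Finite B] [Finite G]

theorem am5_brk (ε : Fin R → Bool) (x h : B → Fin R → E) :
    brk (amT τ ε) x h = ∑ r, if ε r then -brk τ (fun l => x l r) (fun l => h l r)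
      else brk τ (fun l => x l r) (fun l => h l r) := by
  let _ := Fintype.ofFinite B
  simp only [brk_eq, amT_be, sB]
  rw [Finset.sum_comm]
  refine Finset.sum_congr rfl fun r _ => ?_
  split_ifs <;> simp

theorem am5_M (s : (B → E) →+ G) (k : G → ℂ) (ε : Fin R → Bool) (t : Fin R → B → E)
    (x : B → Fin R → E) : amM τ s k ε t x = cav fun b => cav fun h : B → Fin R → E =>
      (∏ r, cj (ε r) (k (b + s (t r) + s fun l => h l r))) * conj (ee (brk (amT τ ε) x h)) := by
  refine cav_congr fun b => ?_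
  simp only [lp3, am5_cj_cav, am5_cj_mul, am5_cj_ee]
  rw [prod_cav, ← cav_equiv (Equiv.piComm fun (_ : B) (_ : Fin R) => E)]
  refine cav_congr fun h => ?_
  rw [Finset.prod_mul_distrib, am5_brk, ee_sum, map_prod]
  rfl

theorem am5_A (h : τ.ND) (s : (B → E) →+ G) (k : G → ℂ) (ε : Fin R → Bool) (t : Fin R → B → E)
    (T : AddSubgroup (Fin R → E)) (ξ : B → Option (Fin R → E)) :
    amA τ s k ε t T ξ 0 = cav fun p : G × am5H ((amT τ ε).perp T) ξ =>
      (∏ r, cj (ε r) (k (p.1 + s (t r) + s fun l => p.2.1 l r))) *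
        conj (ee (brk (amT τ ε) (fun l => (ξ l).getD 0) p.2.1)) := by
  classical
  have hW : ∀ h, (∀ x : am5T T ξ, brk (amT τ ε) x h = 0) ↔ h ∈ am5H ((amT τ ε).perp T) ξ := by
    intro g
    constructor
    · intro H l hl y hy
      have := H ⟨Pi.single l y, fun l' => by
        by_cases e : l' = l
        · subst e; simp [hy, hl]
        · simp [e]⟩
      rwa [brk_single_left] at this
    · intro H x
      let _ := Fintype.ofFinite B
      rw [brk_eq]
      refine Finset.sum_eq_zero fun l _ => ?_
      by_cases e : ξ l = none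
      · exact H l e _ (x.2 l).1
      · rw [(x.2 l).2 e]; simp
  rw [amA, ← csm_add_right _ fun l => (ξ l).getD 0, cav_prod]
  simp only [ind_congr (am5_I T ξ _), ph, th_zero_right, ee_zero, one_mul, am5_M]
  rw [← csm_subtype (fun x => x ∈ am5T T ξ), ← cav_csm_comm]
  refine cav_congr fun b => ?_
  rw [← am5_dual (brk (amT τ ε)) (brk_add_left _) (am5_nd h ε).cav_brk' _ _ hW
    (fun g => (∏ r, cj (ε r) (k (b + s (t r) + s fun l => g l r))) *
      conj (ee (brk (amT τ ε) (fun l => (ξ l).getD 0) g)))]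
  refine csm_congr fun x => cav_congr fun g => ?_
  rw [brk_add_left, ee_add, map_mul]
  ring

end

section box
variable {G G' H1 H2 H3 : Type} [AddCommGroup G] [Finite G] [AddCommGroup G'] [Finite G']

theorem am5_gb2 {π : G' → G} (hπ : Ad π) (hs : Function.Surjective π) (k : G → ℂ) (a : H1 → G')
    (b : H2 → G') : gb2 (fun p => k (π p)) a b = gb2 k (fun h => π (a h)) fun h => π (b h) := by
  unfold gb2
  rw [← cav_surj π hπ hs]
  simp only [dd, hπ _ _]

theorem am5_gb3 {π : G' → G} (hπ : Ad π) (hs : Function.Surjective π) (k : G → ℂ) (a : H1 → G')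
    (b : H2 → G') (c : H3 → G') : gb3 (fun p => k (π p)) a b c =
      gb3 k (fun h => π (a h)) (fun h => π (b h)) fun h => π (c h) := by
  unfold gb3
  rw [← cav_surj π hπ hs]
  simp only [dd, hπ _ _]

end box

end NE
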