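import Pool.Agent.Lib.MP_ecee09_co.NE.AMD
import Pool.Agent.Lib.MP_ecee09_co.NE.GB

/-! The pair estimate of the abstract moment lemma. -/

namespace NE

open SD
open ComplexConjugate

lemma am6_norm_cj (b : Bool) (z : ℂ) : ‖cj b z‖ = ‖z‖ := by cases b <;> simp

/-- expanding the mean square of a sum -/
lemma am6_sq {U A : Type} [Finite U] [Finite A] (ν : U → ℂ) (χ : A → U → ℂ) :
    ((av fun a => ‖csm fun u => ν u * χ a u‖ ^ 2 : ℝ) : ℂ) =
      csm fun u => csm fun u' => ν u * conj (ν u') * cav fun a => χ a u * conj (χ a u') := by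
  rw [← cav_ofReal]
  simp only [← mul_conj'', conj_csm, csm_mul_csm, cav_csm_comm, ← cav_mul_left, map_mul]
  refine csm_congr fun u => csm_congr fun u' => cav_congr fun a => by ring

lemma am6_inj {U : Type} [Finite U] {Dm : Set U} {f : U → U} (hf : Set.InjOn f Dm) {g : U → ℝ}
    (hg : ∀ u, 0 ≤ g u) : (sm fun w => ind (w ∈ Dm) * g (f w)) ≤ sm g := by
  rw [sm_fiber f]
  refine sm_mono fun u => ?_
  by_cases h : ∃ w ∈ Dm, f w = u
  · obtain ⟨w0, h0, rfl⟩ := h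
    refine le_of_eq ((sm_congr fun w => ?_).trans (sm_ind_eq w0 fun _ => g (f w0)))
    by_cases e : w = w0
    · rw [e, ind_pos rfl, ind_pos h0, ind_pos rfl, one_mul]
    · rw [ind_neg e, zero_mul, ← mul_assoc, ← ind_and, ind_neg fun h => e (hf h.2 h0 h.1),
        zero_mul]
  · refine le_trans (le_of_eq ((sm_congr fun w => ?_).trans sm_zero)) (hg u)
    rw [← mul_assoc, ← ind_and, ind_neg fun h' => h ⟨w, h'.2, h'.1⟩, zero_mul]

lemma am6_inj2 {U : Type} [Finite U] {Dm : Set U} {f : U → U} (hf : Set.InjOn f Dm)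
    {g : U → U → ℝ} (hg : ∀ u u', 0 ≤ g u u') :
    (sm fun w => sm fun w' => ind (w ∈ Dm) * (ind (w' ∈ Dm) * g (f w) (f w'))) ≤
      sm fun u => sm fun u' => g u u' := by
  simp only [sm_mul_left]
  exact (sm_mono fun w => mul_le_mul_of_nonneg_left (am6_inj hf (hg (f w))) (ind_nonneg _)).trans
    (am6_inj hf (g := fun u => sm (g u)) fun u => sm_nonneg (hg u))

/-- the number of small subsets -/
lemma am6_count {B : Type} [Finite B] (L : Set B) (l : ℕ) :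
    (sm fun T : Set B => ind (T ⊆ L ∧ T.ncard ≤ l)) ≤ ((L.ncard : ℝ) + 1) ^ l := by
  refine (sm_ind_le_of_inj _ (fun _ : Fin l → Option L => True)
    (fun T f => T = {x | ∃ i h, f i = some ⟨x, h⟩}) ?_ ?_).trans (le_of_eq ?_)
  · rintro T ⟨h1, h2⟩
    let q := (Set.toFinite (Subtype.val ⁻¹' T : Set L)).toFinset.toList
    have hq : q.length ≤ l := by
      rw [Finset.length_toList, ← Set.ncard_eq_toFinset_card]
      exact (Set.ncard_le_ncard_of_injOn Subtype.val (fun _ h => h)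
        Subtype.val_injective.injOn).trans h2
    refine ⟨fun i => q[i.1]?, trivial, Set.ext fun x => ⟨fun hx => ?_, ?_⟩⟩
    · have h3 : (⟨x, h1 hx⟩ : L) ∈ q := by simpa [q] using hx
      obtain ⟨i, hi⟩ := List.mem_iff_getElem?.1 h3
      exact ⟨⟨i, lt_of_lt_of_le (List.getElem?_eq_some_iff.1 hi).1 hq⟩, _, hi⟩
    · rintro ⟨i, h, hi⟩
      simpa [q] using List.mem_iff_getElem?.2 ⟨_, hi⟩
  · rintro T T' f - - rfl rfl
    rfl
  · simp only [ind_pos trivial]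
    rw [sm_const, Nat.card_fun, Finite.card_option, Nat.card_fin, mul_one]
    push_cast
    rfl

section
variable {E B G : Type} [AddCommGroup E] [Finite E] [Finite B] [AddCommGroup G] {τ : QT E}

omit [Finite E] in
open Classical in
/-- damping by the fair bits -/
lemma am6_bits {c0 : ℝ} (hc : Damp (Nat.card E) c0) (L : Set B) (s1 : E) (w w' : B → E) :
    ‖cav fun a : B → Bool => ee (∑ᶠ j, if j ∈ L ∧ a j = true then τ.be s1 (w j) else 0) *
      conj (ee (∑ᶠ j, if j ∈ L ∧ a j = true then τ.be s1 (w' j) else 0))‖ ≤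
      c0 ^ {j | j ∈ L ∧ τ.be s1 (w j) ≠ τ.be s1 (w' j)}.ncard := by
  let _ := Fintype.ofFinite B
  simp only [ee_finsum, map_prod, ← Finset.prod_mul_distrib]
  rw [← prod_cav fun j (x : Bool) => ee (if j ∈ L ∧ x = true then τ.be s1 (w j) else 0) *
    conj (ee (if j ∈ L ∧ x = true then τ.be s1 (w' j) else 0)), norm_prod,
    Set.ncard_eq_toFinset_card', Set.toFinset_ofPred, ← Finset.prod_const, Finset.prod_filter]
  refine Finset.prod_le_prod (fun _ _ => norm_nonneg _) fun j _ => ?_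
  split_ifs with h
  · have h1 := hc.2.2 (τ.be s1 (w j - w' j)) (τ.card_be _ _) (by rw [map_sub, sub_ne_zero]; exact h.2)
    rw [cav_eq, Fintype.sum_bool]
    simpa [h.1, ee_sub, add_comm] using h1
  · exact norm_cav_le_const zero_le_one fun x => by simp

lemma am6_shift (s : (B → E) →+ G) (k : G → ℂ) (u g : B → E) (b : G) :
    lp3 τ s k u (b + s g) = ee (brk τ u g) * lp3 τ s k u b := by
  rw [lp3, lp3, ← cav_add_left (fun h => k (b + s h) * conj (ee (brk τ u h))) g, ← cav_mul_left]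
  refine cav_congr fun h => ?_
  rw [map_add, add_assoc, brk_add_right, ee_add, map_mul]
  linear_combination (-k (b + (s g + s h)) * conj (ee (brk τ u h))) * ee_mul_conj (brk τ u g)

lemma am6_pol (h : τ.ND) (s : (B → E) →+ G) (k : G → ℂ) (x y : G) :
    (csm fun u => lp3 τ s k u x * conj (lp3 τ s k u y)) =
      cav fun g => k (x + s g) * conj (k (y + s g)) := by
  simp only [lp3, conj_cav, cav_mul_cav, ← cav_csm_comm]
  refine cav_congr fun g => ?_
  have h1 : ∀ g', (csm fun u => k (x + s g) * conj (ee (brk τ u g)) *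
      conj (k (y + s g') * conj (ee (brk τ u g')))) =
      Nat.card (B → E) * ((ind (g' = g) : ℂ) * (k (x + s g) * conj (k (y + s g')))) := fun g' => by
    rw [ind_congr sub_eq_zero.symm, ← h.cav_brk, ← mul_assoc, ← csm_eq_card_mul_cav,
      ← csm_mul_right]
    refine csm_congr fun u => ?_
    rw [brk_sub_right, ee_sub, map_mul, Complex.conj_conj]
    ring
  simp only [h1]
  rw [cav_mul_left, cav_ind_eq g fun g' => k (x + s g) * conj (k (y + s g')),
    mul_div_cancel₀ _ ccard_ne]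

lemma am6_pars (h : τ.ND) (s : (B → E) →+ G) (k : G → ℂ) (b : G) :
    (sm fun u => ‖lp3 τ s k u b‖ ^ 2) = av fun g => ‖k (b + s g)‖ ^ 2 := by
  have h1 := am6_pol h s k b b
  simp only [mul_conj'', csm_ofReal, cav_ofReal] at h1
  exact_mod_cast h1

lemma am6_en (h : τ.ND) (s : (B → E) →+ G) (k : G → ℂ) (J : Set B) (s1 : E) (b : G) :
    (sm fun u => sm fun u' => ‖lp3 τ s k u b‖ ^ 2 * ‖lp3 τ s k u' b‖ ^ 2 *
      ind (∀ j ∈ J, τ.be s1 (u j) = τ.be s1 (u' j))) ≤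
      av fun g => ‖prS s (dd k (s (sft J (AddSubgroup.zmultiples s1) g))) b‖ ^ 2 := by
  have h1 : ∀ g, ‖prS s (dd k (s g)) b‖ =
      ‖csm fun u => ((‖lp3 τ s k u b‖ ^ 2 : ℝ) : ℂ) * ee (brk τ u g)‖ := fun g => by
    rw [← RCLike.norm_conj, prS, conj_cav]
    have h2 := am6_pol h s k (b + s g) b
    simp only [am6_shift, mul_assoc, mul_conj''] at h2
    simp only [mul_comm _ (ee _), h2, dd, map_mul, Complex.conj_conj, add_right_comm b, mul_comm]
  simp only [h1]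
  have h3 := congrArg Complex.re (am6_sq (fun u => ((‖lp3 τ s k u b‖ ^ 2 : ℝ) : ℂ))
    fun g u => ee (brk τ u (sft J (AddSubgroup.zmultiples s1) g)))
  rw [Complex.ofReal_re] at h3
  rw [h3, csm_re]
  refine sm_mono fun u => ?_
  rw [csm_re]
  refine sm_mono fun u' => ?_
  simp only [← ee_sub, ← brk_sub_left]
  rw [cav_ee_add _ fun g g' => by rw [ad_sft, brk_add_right], Complex.conj_ofReal,
    ← Complex.ofReal_mul, ← Complex.ofReal_mul, Complex.ofReal_re]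
  refine mul_le_mul_of_nonneg_left (ind_mono fun hj g => ?_) (by positivity)
  let _ := Fintype.ofFinite B
  rw [brk_eq]
  refine Finset.sum_eq_zero fun j _ => ?_
  rw [sft]
  split_ifs with hJ
  · obtain ⟨n, hn⟩ := AddSubgroup.mem_zmultiples_iff.1 (g j).2
    rw [← hn, map_zsmul, τ.symm, Pi.sub_apply, map_sub, hj j hJ, sub_self, smul_zero]
  · exact map_zero _

/-- the weight of a pair of labels -/
noncomputable def am6K (τ : QT E) (c0 : ℝ) (L : Set B) (l : ℕ) (s1 : E) (u u' : B → E) : ℝ :=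
  c0 ^ l + sm fun T : Set B =>
    ind (T ⊆ L ∧ T.ncard ≤ l) * ind (∀ j ∈ L \ T, τ.be s1 (u j) = τ.be s1 (u' j))

omit [Finite E] in
lemma am6K_nonneg {c0 : ℝ} (hc : 0 ≤ c0) (L : Set B) (l : ℕ) (s1 : E) (u u' : B → E) :
    0 ≤ am6K τ c0 L l s1 u u' :=
  add_nonneg (pow_nonneg hc _) (sm_nonneg fun _ => mul_nonneg (ind_nonneg _) (ind_nonneg _))

omit [Finite E] in
lemma am6K_ge {c0 : ℝ} (hc : 0 ≤ c0) (hc1 : c0 ≤ 1) (L : Set B) (l : ℕ) (s1 : E) (u u' : B → E) :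
    c0 ^ {j | j ∈ L ∧ τ.be s1 (u j) ≠ τ.be s1 (u' j)}.ncard ≤ am6K τ c0 L l s1 u u' := by
  have h0 : ∀ T : Set B, 0 ≤ ind (T ⊆ L ∧ T.ncard ≤ l) *
      ind (∀ j ∈ L \ T, τ.be s1 (u j) = τ.be s1 (u' j)) := fun _ =>
    mul_nonneg (ind_nonneg _) (ind_nonneg _)
  rcases le_total l {j | j ∈ L ∧ τ.be s1 (u j) ≠ τ.be s1 (u' j)}.ncard with h | h
  · exact le_add_of_le_of_nonneg (pow_le_pow_of_le_one hc hc1 h) (sm_nonneg h0)
  · refine le_add_of_nonneg_of_le (pow_nonneg hc _) ((pow_le_one₀ hc hc1).trans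
      (le_trans (le_of_eq ?_) (single_le_sm h0 {j | j ∈ L ∧ τ.be s1 (u j) ≠ τ.be s1 (u' j)})))
    rw [ind_pos ⟨fun _ h => h.1, h⟩, ind_pos fun j hj => by_contra fun h => hj.2 ⟨hj.1, h⟩, one_mul]

omit [Finite E] [Finite B] in
lemma am6K_congr (c0 : ℝ) (L : Set B) (l : ℕ) (s1 : E) {u u' v v' : B → E}
    (h : ∀ j ∈ L, v j = u j) (h' : ∀ j ∈ L, v' j = u' j) :
    am6K τ c0 L l s1 v v' = am6K τ c0 L l s1 u u' := by
  unfold am6K
  congr 1
  refine sm_congr fun T => ?_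
  congr 1
  exact ind_congr (forall₂_congr fun j hj => by rw [h j hj.1, h' j hj.1])

/-- the weighted energy at a point -/
noncomputable def am6Z (τ : QT E) (c0 : ℝ) (L : Set B) (l : ℕ) (s1 : E) (s : (B → E) →+ G)
    (k : G → ℂ) (b : G) : ℝ :=
  sm fun u => sm fun u' => ‖lp3 τ s k u b‖ ^ 2 * ‖lp3 τ s k u' b‖ ^ 2 * am6K τ c0 L l s1 u u'

open Classical in
lemma am6_pt {c0 : ℝ} (hc : Damp (Nat.card E) c0) (L : Set B) (l : ℕ) (s1 : E)
    (s : (B → E) →+ G) (k : G → ℂ) {Dm : Set (B → E)} {w1 w2 : (B → E) → B → E}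
    (h1 : Set.InjOn w1 Dm) (h2 : Set.InjOn w2 Dm)
    (h3 : ∀ w ∈ Dm, ∀ j ∈ L, w1 w j = w j ∧ w2 w j = w j) {φ : (B → E) → ℂ} (hφ : ∀ w, ‖φ w‖ ≤ 1)
    (e e' : Bool) (b1 b2 : G) :
    (av fun a : B → Bool => ‖csm fun w => (ind (w ∈ Dm) : ℝ) * (φ w *
      (cj e (lp3 τ s k (w1 w) b1) * cj e' (lp3 τ s k (w2 w) b2)) *
        ee (∑ᶠ j, if j ∈ L ∧ a j = true then τ.be s1 (w j) else 0))‖ ^ 2) ≤
      (am6Z τ c0 L l s1 s k b1 + am6Z τ c0 L l s1 s k b2) / 2 := by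
  have h4 := am6_sq (fun w => (ind (w ∈ Dm) : ℝ) * (φ w *
      (cj e (lp3 τ s k (w1 w) b1) * cj e' (lp3 τ s k (w2 w) b2))))
    fun (a : B → Bool) w => ee (∑ᶠ j, if j ∈ L ∧ a j = true then τ.be s1 (w j) else 0)
  simp only [mul_assoc ((ind _ : ℝ) : ℂ)] at h4
  have hK := am6K_nonneg (τ := τ) hc.1 L l s1
  refine (le_abs_self _).trans ((Complex.norm_real _).symm.le.trans ?_)
  rw [h4]
  refine (norm_csm_le _).trans ((sm_mono fun w => norm_csm_le _).trans ?_)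
  refine le_trans ?_ (div_le_div_of_nonneg_right (add_le_add
    (am6_inj2 h1 fun u u' => mul_nonneg (by positivity) (hK u u'))
    (am6_inj2 h2 fun u u' => mul_nonneg (by positivity) (hK u u'))) zero_le_two)
  rw [← sm_add, ← sm_div]
  refine sm_mono fun w => ?_
  rw [← sm_add, ← sm_div]
  refine sm_mono fun w' => ?_
  by_cases hw : w ∈ Dm
  swap
  · simp [ind_neg hw]
  by_cases hw' : w' ∈ Dm
  swap
  · simp [ind_neg hw']
  rw [am6K_congr c0 L l s1 (fun j hj => (h3 w hw j hj).1) fun j hj => (h3 w' hw' j hj).1,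
    am6K_congr c0 L l s1 (fun j hj => (h3 w hw j hj).2) fun j hj => (h3 w' hw' j hj).2]
  have h5 := (am6_bits hc L s1 w w').trans (am6K_ge (τ := τ) hc.1 hc.2.1.le L l s1 w w')
  simp only [ind_pos hw, ind_pos hw', Complex.ofReal_one, one_mul, norm_mul, RCLike.norm_conj,
    am6_norm_cj]
  generalize ‖lp3 τ s k (w1 w) b1‖ = x, ‖lp3 τ s k (w1 w') b1‖ = x', ‖lp3 τ s k (w2 w) b2‖ = y,
    ‖lp3 τ s k (w2 w') b2‖ = y'
  have h6 : ‖φ w‖ * (x * y) * (‖φ w'‖ * (x' * y')) ≤ (x ^ 2 * x' ^ 2 + y ^ 2 * y' ^ 2) / 2 := by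
    have h7 : |‖φ w‖ * ‖φ w'‖| ≤ 1 := by
      rw [abs_of_nonneg (by positivity)]
      exact mul_le_one₀ (hφ w) (norm_nonneg _) (hφ w')
    have h8 : |x * x' * (y * y')| ≤ (x ^ 2 * x' ^ 2 + y ^ 2 * y' ^ 2) / 2 :=
      abs_le.2 ⟨by nlinarith [sq_nonneg (x * x' + y * y')],
        by nlinarith [sq_nonneg (x * x' - y * y')]⟩
    calc _ = ‖φ w‖ * ‖φ w'‖ * (x * x' * (y * y')) := by ring
      _ ≤ |‖φ w‖ * ‖φ w'‖| * |x * x' * (y * y')| := (le_abs_self _).trans (abs_mul _ _).le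
      _ ≤ _ := (mul_le_of_le_one_left (abs_nonneg _) h7).trans h8
  refine (mul_le_mul h6 h5 (norm_nonneg _) (by positivity)).trans (le_of_eq (by ring))

variable [Finite G]

lemma am6_av (h : τ.ND) {c0 : ℝ} (hc : 0 ≤ c0) (L : Set B) (l : ℕ) (s1 : E) (s : (B → E) →+ G)
    (k : G → ℂ) : av (am6Z τ c0 L l s1 s k) ≤ c0 ^ l * (av fun b => ‖k b‖ ^ 4) +
      sm fun T : Set B => ind (T ⊆ L ∧ T.ncard ≤ l) *
        gb2 k (fun g => s (sft (L \ T) (AddSubgroup.zmultiples s1) g)) s := by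
  have h1 : ∀ b, am6Z τ c0 L l s1 s k b = c0 ^ l * (av fun g => ‖k (b + s g)‖ ^ 2) ^ 2 +
      sm fun T : Set B => ind (T ⊆ L ∧ T.ncard ≤ l) * sm fun u => sm fun u' =>
        ‖lp3 τ s k u b‖ ^ 2 * ‖lp3 τ s k u' b‖ ^ 2 *
          ind (∀ j ∈ L \ T, τ.be s1 (u j) = τ.be s1 (u' j)) := fun b => by
    rw [← am6_pars h, pow_two, sm_mul_sm]
    simp only [am6Z, am6K, mul_add, sm_add, ← sm_mul_left]
    congr 1
    · exact sm_congr fun u => sm_congr fun u' => by ring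
    · rw [sm_comm (α := Set B)]
      refine sm_congr fun u => ?_
      rw [sm_comm (α := Set B)]
      exact sm_congr fun u' => sm_congr fun T => by ring
  rw [av_congr h1, av_add, av_mul_left, av_sm_comm]
  refine add_le_add (mul_le_mul_of_nonneg_left ?_ (pow_nonneg hc _)) (sm_mono fun T => ?_)
  · refine (av_mono fun b => av_sq_le _).trans (le_of_eq ?_)
    rw [av_comm]
    simp only [← pow_mul, av_add_right fun b => ‖k b‖ ^ (2 * 2), av_const]
  · rw [av_mul_left, gb2_eq (ad_hom s)]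
    refine mul_le_mul_of_nonneg_left ((av_mono fun b => am6_en h s k _ s1 b).trans
      (le_of_eq (av_comm _))) (ind_nonneg _)

lemma am6_box {Ω : Type} [Finite Ω] (s : Ω → (B → E) →+ G) (k : Ω → G → ℂ) {J J' : Set B}
    (hJ : J ⊆ J') {sb : ℝ} (h0 : 0 ≤ sb) (hb : BoxS τ s k J sb) {s1 : E} (h1 : s1 ≠ 0) :
    (av fun ω => gb2 (k ω) (fun g => s ω (sft J' (AddSubgroup.zmultiples s1) g)) (s ω)) ≤
      sb + √sb := by
  have h2 : ∀ (ω : Ω) (S : AddSubgroup E),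
      gb2 (k ω) (fun g => s ω (sft J' (AddSubgroup.zmultiples s1) g)) (s ω) ≤
        bb2 (s ω) (k ω) J (AddSubgroup.zmultiples s1) S := fun ω S =>
    gb2_anti (ad_hsft _ _ _) (ad_hom _) (ad_hsft _ _ _) (ad_hsft _ _ _)
      (by
        rintro _ ⟨g, rfl⟩
        obtain ⟨g', hg⟩ := range_sft_mono hJ le_rfl ⟨g, rfl⟩
        exact ⟨g', congrArg (s ω) hg⟩)
      (by rintro _ ⟨g, rfl⟩; exact ⟨_, rfl⟩) _
  by_cases ht : AddSubgroup.zmultiples s1 = ⊤
  · refine le_add_of_nonneg_of_le h0 ((av_mono fun ω => h2 ω ⊤).trans ?_)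
    rw [ht]
    exact Real.le_sqrt_of_sq_le ((av_sq_le _).trans
      ((av_mono fun ω => gb2_sq_le (ad_hsft _ _ _) _ _ _).trans hb.2))
  · exact le_add_of_le_of_nonneg ((av_mono fun ω => h2 ω _).trans
      (hb.1 _ (by rwa [Ne, AddSubgroup.zmultiples_eq_bot]) ht)) (Real.sqrt_nonneg _)

end

theorem am6 {E : Type} [AddCommGroup E] [Finite E] {τ : QT E} (h : τ.ND) : AM6 τ := by
  intro c0 hc D Ω B G _ _ _ _ _ s k hD L l sb h0 hb s1 h1 Dm w1 w2 i1 i2 h3 φ hφ e e' t1 t2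
  have h4 : ∀ ω, _ ≤ av (am6Z τ c0 L l s1 (s ω) (k ω)) := fun ω =>
    ((av_comm _).le.trans (av_mono fun b => am6_pt hc L l s1 (s ω) (k ω) i1 i2 h3 hφ e e'
      (b + s ω t1) (b + s ω t2))).trans (le_of_eq (by
        rw [av_div, av_add, av_add_right, av_add_right]
        ring))
  refine (av_mono fun ω => (h4 ω).trans (am6_av h hc.1 L l s1 _ _)).trans ?_
  rw [av_add, av_mul_left, av_sm_comm]
  have h5 : 0 ≤ sb + √sb := by positivity
  have h6 : 0 ≤ D 4 := (av_nonneg fun ω => av_nonneg fun b => by positivity).trans (hD 4)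
  have h7 : (sm fun T : Set B => av fun ω => ind (T ⊆ L ∧ T.ncard ≤ l) * gb2 (k ω)
      (fun g => s ω (sft (L \ T) (AddSubgroup.zmultiples s1) g)) (s ω)) ≤
      ((L.ncard : ℝ) + 1) ^ l * (sb + √sb) := by
    refine le_trans (sm_mono fun T => ?_)
      ((sm_mul_right _ _).le.trans (mul_le_mul_of_nonneg_right (am6_count L l) h5))
    rw [av_mul_left]
    by_cases hT : T ⊆ L ∧ T.ncard ≤ l
    · obtain ⟨J, hJ, hS⟩ := hb T hT.2
      exact mul_le_mul_of_nonneg_left (am6_box s k hJ h0 hS h1) (ind_nonneg _)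
    · rw [ind_neg hT, zero_mul, zero_mul]
  have h8 := mul_le_mul_of_nonneg_left (hD 4) (pow_nonneg hc.1 l)
  have h9 : 0 ≤ D 4 * (((L.ncard : ℝ) + 1) ^ l * (sb + √sb)) := by positivity
  have h10 := pow_nonneg hc.1 l
  unfold amE
  nlinarith

end NE
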