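import Pool.Agent.Lib.MP_ecee09_co.NE.AM7a
import Pool.Agent.Lib.MP_ecee09_co.NE.CellT

/-! Case (ii) of the abstract moment lemma. -/

namespace NE

open SD
open ComplexConjugate

section star
variable {B : Type} {i : B} {L : Set B}

open Classical in
/-- overwrite the pairs between `i` and `L` by the bits `a` -/
noncomputable def am7St (i : B) (L : Set B) (a : B → Bool) (P : Om B) : Om B := fun c =>
  if ∃ l ∈ L, c = s(i, l) then (if ∃ l, c = s(i, l) ∧ a l = true then 1 else 0) else P c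

lemma am7St_mem (a : B → Bool) (P : Om B) {l : B} (hl : l ∈ L) :
    am7St i L a P s(i, l) = if a l = true then 1 else 0 := by
  rw [am7St, if_pos ⟨l, hl, rfl⟩]
  congr 1
  exact propext ⟨fun ⟨l', e, h⟩ => Sym2.congr_right.1 e ▸ h, fun h => ⟨l, rfl, h⟩⟩

lemma am7St_not (a : B → Bool) (P : Om B) {c : Sym2 B} (h : ¬ ∃ l ∈ L, c = s(i, l)) :
    am7St i L a P c = P c := if_neg h

lemma cav_am7St [Finite B] (g : Om B → ℂ) :
    cav (fun z => cav fun a => g (am7St i L a z)) = cav g := by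
  classical
  have := cav_invol (fun z a => am7St i L a z)
    (fun z a l => if l ∈ L then decide (z s(i, l) = 1) else a l) (fun z a => ?_) (fun z a => ?_)
    fun z _ => g z
  · simpa only [cav_const] using this
  · funext c
    by_cases h : ∃ l ∈ L, c = s(i, l)
    · obtain ⟨l, hl, rfl⟩ := h
      rw [am7St_mem _ _ hl, if_pos hl]
      rcases F_cases (z s(i, l)) with e | e <;> simp [e]
    · rw [am7St_not _ _ h, am7St_not _ _ h]
  · funext l
    by_cases hl : l ∈ L
    · rw [if_pos hl, am7St_mem _ _ hl]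
      cases a l <;> simp
    · simp only [if_neg hl]

open Classical in
lemma th_am7St {E : Type} [AddCommGroup E] [Finite B] (τ : QT E) (hi : i ∉ L) (w : B → E)
    (a : B → Bool) (P : Om B) : th τ w (am7St i L a P) = th τ w (am7St i L (fun _ => false) P) +
      ∑ᶠ j, if j ∈ L ∧ a j = true then τ.be (w i) (w j) else 0 := by
  let _ := Fintype.ofFinite B
  have e : ∀ j, (if j ∈ L ∧ a j = true then τ.be (w i) (w j) else 0) =
      ∑ c, if c = s(i, j) then (if j ∈ L ∧ a j = true then cz τ w c else 0) else 0 := fun j => by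
    rw [Finset.sum_ite_eq', if_pos (Finset.mem_univ _)]
    split_ifs with h
    · rw [cz_ne τ w fun e : i = j => hi (e ▸ h.1)]
    · rfl
  rw [finsum_eq_sum_of_fintype, th_eq, th_eq]
  simp only [e]
  rw [Finset.sum_comm, ← Finset.sum_add_distrib]
  refine Finset.sum_congr rfl fun c _ => ?_
  by_cases h : ∃ l ∈ L, c = s(i, l)
  · obtain ⟨l, hl, rfl⟩ := h
    rw [am7St_mem _ _ hl, am7St_mem _ _ hl, Finset.sum_eq_single l
      (fun j _ hj => if_neg fun e => hj (Sym2.congr_right.1 e).symm) (by simp)]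
    cases a l <;> simp [hl, ZMod.val_one]
  · rw [am7St_not _ _ h, am7St_not _ _ h, Finset.sum_eq_zero, add_zero]
    intro j _
    split_ifs with h1 h2
    · exact absurd ⟨j, h2.1, h1⟩ h
    · rfl
    · rfl

end star

lemma ow_am7St {Y Z : Type} {i : Y ⊕ Z} {L : Set (Y ⊕ Z)} (hL : L ⊆ Set.range Sum.inl)
    (a : Y ⊕ Z → Bool) (z : Om (Y ⊕ Z)) (P0 : Om Z) :
    ow (am7St i L a z) (crd Sum.inr) P0 = am7St i L a (ow z (crd Sum.inr) P0) := by
  funext c
  by_cases h : ∃ l ∈ L, c = s(i, l)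
  · obtain ⟨l, hl, rfl⟩ := h
    obtain ⟨y, rfl⟩ := hL hl
    rw [ow_none_right _ _ _ ((crd_eq_none Sum.inr_injective).2 (by simp)), am7St_mem _ _ hl,
      am7St_mem _ _ hl]
  · rw [am7St_not _ _ h, ow, ow, am7St_not _ _ h]

variable {E : Type} [AddCommGroup E]

/-- a signed element -/
def am7Sg (e : Bool) (x : E) : E := if e then -x else x

lemma am7Sg_be (τ : QT E) (e : Bool) (x y : E) : τ.be (am7Sg e x) y = amS e (τ.be x y) := by
  cases e <;> simp [am7Sg, amS]

lemma am7Sg_ne {e e' : Bool} {x x' : E} (h : x' ≠ x) (h2 : e' = e → ∀ x : E, 2 • x = 0) :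
    am7Sg e x + am7Sg e' x' ≠ 0 := by
  intro h0
  refine h ?_
  cases e <;> cases e' <;> simp only [am7Sg, if_true, Bool.false_eq_true, if_false] at h0
  · have := h2 rfl x
    rw [two_nsmul] at this
    exact add_left_cancel (h0.trans this.symm)
  · exact (add_neg_eq_zero.1 h0).symm
  · exact (neg_add_eq_zero.1 h0).symm
  · have := h2 rfl x
    rw [two_nsmul] at this
    rw [← neg_add, neg_eq_zero] at h0
    exact add_left_cancel (h0.trans this.symm)

open Classical in
lemma amPF_st {B G : Type} [Finite B] [AddCommGroup G] {R : ℕ} (τ : QT E) (s : (B → E) →+ G)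
    (k : G → ℂ) {ξ : B → Option (Fin R → E)} {i : B} {y : Fin R → E} (hi : ξ i = some y)
    {L : Set B} (hL : ∀ j ∈ L, ξ j = none) (r r' : Fin R) (e e' : Bool) (t1 t2 : B → E)
    (a : B → Bool) (P : Om B) (b : G) : amPF τ s k ξ r r' e e' t1 t2 (am7St i L a P) b =
      csm fun w => (ind (w ∈ amDm ξ r) : ℝ) * (cj e (ph τ w (am7St i L (fun _ => false) P)) *
        cj e' (ph τ (amW ξ r' w) (am7St i L (fun _ => false) P)) *
        (cj e (lp3 τ s k w (b + s t1)) * cj e' (lp3 τ s k (amW ξ r' w) (b + s t2))) *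
        ee (∑ᶠ j, if j ∈ L ∧ a j = true then τ.be (am7Sg e (y r) + am7Sg e' (y r')) (w j)
          else 0)) := by
  let _ := Fintype.ofFinite B
  have hiL : i ∉ L := fun h => by simp [hL i h] at hi
  refine csm_congr fun w => ?_
  by_cases hw : w ∈ amDm ξ r
  · rw [mul_right_comm _ _ (ee _)]
    refine congrArg₂ (· * ·) rfl (congrArg₂ (· * ·) ?_ rfl)
    simp only [ph, am7_cj_ee, ← ee_add]
    refine congrArg ee ?_
    rw [th_am7St τ hiL w a, th_am7St τ hiL (amW ξ r' w) a, hw i y hi, amW_of_some hi]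
    have k : ∀ (e : Bool) (u v : TT), amS e (u + v) = amS e u + amS e v := fun e u v => by
      cases e <;> simp [amS, add_comm]
    have k2 : ∀ (e : Bool) (x : E) (w : B → E),
        amS e (∑ᶠ j, if j ∈ L ∧ a j = true then τ.be x (w j) else 0) =
          ∑ j, if j ∈ L ∧ a j = true then τ.be (am7Sg e x) (w j) else 0 := fun e x w => by
      rw [finsum_eq_sum_of_fintype]
      cases e
      · rfl
      · simp only [amS, am7Sg, if_true, ← Finset.sum_neg_distrib]
        exact Finset.sum_congr rfl fun j _ => by split_ifs <;> simp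
    rw [k, k, k2, k2, add_add_add_comm, ← Finset.sum_add_distrib, finsum_eq_sum_of_fintype]
    congr 1
    refine Finset.sum_congr rfl fun j _ => ?_
    split_ifs with h
    · rw [amW_of_none (hL j h.1), map_add, AddMonoidHom.add_apply]
    · simp
  · simp [ind_neg hw]

theorem am7 [Finite E] {τ : QT E} (hτ : τ.ND) (h6 : AM6 τ) : AM7 τ := by
  classical
  intro c0 hc0 D R
  obtain ⟨C, hC, hO⟩ := am7_prod D R
  refine ⟨(1 + |D 4|) * C, by positivity, fun Ω Y Z G _ _ _ _ _ _ s k hk ε m hm ξ i y hi hy L l sb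
    hsb hL hξ hB t P0 => ?_⟩
  obtain ⟨h1, h2, h3⟩ := hm
  obtain ⟨r0, hr0⟩ : ∃ r : {r // r < m r}, y (m r) ≠ y r := by
    by_contra! h
    refine hy fun r => ?_
    by_cases hr : r < m r
    · exact h ⟨r, hr⟩
    · simpa only [h1] using (h ⟨m r, pair_lt h1 h2 hr⟩).symm
  have hE : 0 ≤ amE c0 L.ncard l sb := by
    have := hc0.1
    unfold amE; positivity
  let PF : {r // r < m r} → Ω → Om (Y ⊕ Z) → (Y ⊕ Z → Bool) → G → ℂ := fun r ω z a b =>
    amPF τ (s ω) (k ω) ξ r (m r) (ε r) (ε (m r)) (t r) (t (m r))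
      (am7St i L a (ow z (crd Sum.inr) P0)) b
  let u : Ω → G → {r // r < m r} → ℝ := fun ω b r => if r = r0 then 1 else
    (amEn (s ω) (k ω) (b + s ω (t r)) + amEn (s ω) (k ω) (b + s ω (t (m r)))) / 2
  have u0 : ∀ ω b r, 0 ≤ u ω b r := fun ω b r => by
    have := amEn_nonneg (s ω) (k ω) (b + s ω (t r))
    have := amEn_nonneg (s ω) (k ω) (b + s ω (t (m r)))
    simp only [u]; split_ifs <;> positivity
  have k1 : av (fun ω => av fun b => (∏ r, u ω b r) ^ 2) ≤ C :=
    hO Ω E (Y ⊕ Z) G _ s k hk ((Fintype.card_subtype_le _).trans_eq (Fintype.card_fin R))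
      (fun ω r => s ω (t r)) (fun ω r => s ω (t (m r))) u u0 fun r => by
        by_cases h : r = r0
        · exact Or.inl fun ω b => (if_pos h).le
        · exact Or.inr fun ω b => (if_neg h).le
  have k2 : av (fun ω => av fun z => av fun a => av fun b => ‖PF r0 ω z a b‖ ^ 2) ≤
      (1 + |D 4|) * amE c0 L.ncard l sb := by
    rw [av_comm]
    refine av_le_const fun z => le_trans ?_
      (mul_le_mul_of_nonneg_right (add_le_add le_rfl (le_abs_self (D 4))) hE)
    simp only [PF, amPF_st τ _ _ hi hξ]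
    exact h6 c0 hc0 D Ω _ G s k hk L l sb hsb hB _ (am7Sg_ne hr0 (h3 r0)) (amDm ξ r0) id
      (amW ξ (m r0)) (Set.injOn_id _) (amW_inj ξ _ _)
      (fun w _ j hj => ⟨rfl, amW_of_none (hξ j hj) _ _⟩) _
      (fun w => by rw [norm_mul, am7_norm_cj, am7_norm_cj, norm_ph, norm_ph, one_mul]) _ _ _ _
  have k3 : ∀ ω z a b, ‖∏ r, PF r ω z a b‖ ≤ ‖PF r0 ω z a b‖ * ∏ r, u ω b r := fun ω z a b => by
    rw [norm_prod, ← Finset.mul_prod_erase _ _ (Finset.mem_univ r0),
      ← Finset.mul_prod_erase _ (u ω b) (Finset.mem_univ r0), show u ω b r0 = 1 from if_pos rfl,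
      one_mul]
    refine mul_le_mul_of_nonneg_left (Finset.prod_le_prod (fun _ _ => norm_nonneg _) fun r hr => ?_)
      (norm_nonneg _)
    exact (norm_amPF_le hτ _ _ _ _ _ _ _ _ _ _ _).trans (if_neg (Finset.ne_of_mem_erase hr)).ge
  have k4 : ‖cav fun ω => cav fun z : Om (Y ⊕ Z) =>
      amA τ (s ω) (k ω) ε t (amP E m) ξ (ow z (crd Sum.inr) P0)‖ ≤
      av fun p : Ω × Om (Y ⊕ Z) × (Y ⊕ Z → Bool) × G =>
        ‖PF r0 p.1 p.2.1 p.2.2.1 p.2.2.2‖ * ∏ r, u p.1 p.2.2.2 r := by
    simp only [av_prod]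
    refine (norm_cav_le _).trans (av_mono fun ω => ?_)
    rw [← cav_am7St (i := i) (L := L)]
    refine (norm_cav_le _).trans (av_mono fun z => (norm_cav_le _).trans (av_mono fun a => ?_))
    rw [ow_am7St hL, amA_pair h1 h2]
    exact (norm_cav_le _).trans (av_mono (k3 ω z a))
  refine (pow_le_pow_left₀ (norm_nonneg _) k4 2).trans ((av_cs _ _).trans ?_)
  simp only [av_prod, av_const]
  rw [mul_right_comm]
  exact mul_le_mul k2 k1 (av_nonneg fun _ => av_nonneg fun _ => sq_nonneg _) (by positivity)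

end NE
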