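import Pool.Agent.Lib.MP_ecee09_co.NE.AMD
import Pool.Agent.Lib.MP_ecee09_co.NE.Fld

/-! The part of the moment on a pairing space factors over the pairs of the matching. -/

namespace NE

open SD
open ComplexConjugate

variable {E B G : Type} {R : ℕ}

lemma am7_cj_mul (e : Bool) (x y : ℂ) : cj e (x * y) = cj e x * cj e y := by cases e <;> simp

lemma am7_norm_cj (e : Bool) (x : ℂ) : ‖cj e x‖ = ‖x‖ := by cases e <;> simp

lemma am7_cj_ee (e : Bool) (a : TT) : cj e (ee a) = ee (amS e a) := by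
  cases e <;> simp [amS, conj_ee]

/-- labels with the prescribed values of party `r` -/
def amDm (ξ : B → Option (Fin R → E)) (r : Fin R) : Set (B → E) :=
  {w | ∀ l y, ξ l = some y → w l = y r}

/-- the label of the partner `r'` -/
def amW (ξ : B → Option (Fin R → E)) (r' : Fin R) (w : B → E) : B → E :=
  fun l => (ξ l).elim (w l) fun y => y r'

lemma amW_of_none {ξ : B → Option (Fin R → E)} {l : B} (h : ξ l = none) (r' : Fin R) (w : B → E) :
    amW ξ r' w l = w l := by simp [amW, h]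

lemma amW_of_some {ξ : B → Option (Fin R → E)} {l : B} {y : Fin R → E} (h : ξ l = some y)
    (r' : Fin R) (w : B → E) : amW ξ r' w l = y r' := by simp [amW, h]

lemma amW_none (r' : Fin R) (w : B → E) : amW (fun _ => none) r' w = w := rfl

lemma mem_amDm_none (r : Fin R) (w : B → E) : w ∈ amDm (fun _ => none) r := fun _ _ h => by
  cases h

lemma amW_inj (ξ : B → Option (Fin R → E)) (r r' : Fin R) : Set.InjOn (amW ξ r') (amDm ξ r) := by
  intro w hw w' hw' h
  funext l
  cases e : ξ l with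
  | none => simpa only [amW_of_none e] using congrFun h l
  | some y => rw [hw l y e, hw' l y e]

variable [AddCommGroup E] [AddCommGroup G]

/-- the factor of the pair of parties `r`, `r'` -/
noncomputable def amPF (τ : QT E) (s : (B → E) →+ G) (k : G → ℂ) (ξ : B → Option (Fin R → E))
    (r r' : Fin R) (e e' : Bool) (t1 t2 : B → E) (P : Om B) (b : G) : ℂ :=
  csm fun w => (ind (w ∈ amDm ξ r) : ℝ) * (cj e (ph τ w P) * cj e' (ph τ (amW ξ r' w) P) *
    (cj e (lp3 τ s k w (b + s t1)) * cj e' (lp3 τ s k (amW ξ r' w) (b + s t2))))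

/-- the local energy -/
noncomputable def amEn (s : (B → E) →+ G) (k : G → ℂ) (b : G) : ℝ :=
  av fun h : B → E => ‖k (b + s h)‖ ^ 2

variable [Finite B]

lemma am7_ph (τ : QT E) (ε : Fin R → Bool) (x : B → Fin R → E) (P : Om B) :
    ph (amT τ ε) x P = ∏ r, cj (ε r) (ph τ (fun l => x l r) P) := by
  classical
  let _ := Fintype.ofFinite B
  have e : ∀ c, cz (amT τ ε) x c = ∑ r, amS (ε r) (cz τ (fun l => x l r) c) := fun c => by
    induction c using Sym2.ind with
    | _ i j =>
      by_cases h : i = j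
      · subst h; simp only [cz_self]; rfl
      · simp only [cz_ne _ _ h]; rfl
  simp only [ph, am7_cj_ee, ← ee_sum, th_eq, e, Finset.smul_sum]
  rw [Finset.sum_comm]
  congr 1
  refine Finset.sum_congr rfl fun r _ => ?_
  cases ε r <;> simp [amS]

/-- rows and pairs of columns -/
def amEq {m : Fin R → Fin R} (h1 : ∀ r, m (m r) = r) (h2 : ∀ r, m r ≠ r) (B E : Type) :
    (B → Fin R → E) ≃ ({r // r < m r} → (B → E) × (B → E)) where
  toFun x r := (fun l => x l r, fun l => x l (m r))
  invFun W l r := if h : r < m r then (W ⟨r, h⟩).1 l else (W ⟨m r, pair_lt h1 h2 h⟩).2 l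
  left_inv x := by
    funext l r
    by_cases h : r < m r
    · simp only [dif_pos h]
    · simp only [dif_neg h, h1]
  right_inv W := by
    funext r
    refine Prod.ext (funext fun l => ?_) (funext fun l => ?_)
    · simp only [dif_pos r.2]
    · simp only [h1, dif_neg (not_lt.2 r.2.le)]

omit [Finite B] in
lemma am7_amI {m : Fin R → Fin R} (h1 : ∀ r, m (m r) = r) (h2 : ∀ r, m r ≠ r)
    (ξ : B → Option (Fin R → E)) (x : B → Fin R → E) : amI (amP E m) ξ x ↔ ∀ r : {r // r < m r},
      (fun l => x l (m r)) = amW ξ (m r) (fun l => x l r) ∧ (fun l => x l r) ∈ amDm ξ r := by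
  constructor
  · intro h r
    refine ⟨funext fun l => ?_, fun l y e => ?_⟩
    · have := h l
      cases e : ξ l with
      | none => rw [e] at this; rw [amW_of_none e]; exact this r
      | some y => rw [e] at this; rw [amW_of_some e]; exact congrFun this _
    · have := h l
      rw [e] at this
      exact congrFun this _
  · intro h l
    cases e : ξ l with
    | none =>
      intro r
      by_cases hr : r < m r
      · simpa only [amW_of_none e] using congrFun (h ⟨r, hr⟩).1 l
      · simpa only [amW_of_none e, h1] using (congrFun (h ⟨m r, pair_lt h1 h2 hr⟩).1 l).symm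
    | some y =>
      funext r
      by_cases hr : r < m r
      · exact (h ⟨r, hr⟩).2 l y e
      · simpa only [amW_of_some e, h1] using congrFun (h ⟨m r, pair_lt h1 h2 hr⟩).1 l

variable [Finite E] [Finite G]

/-- the pair factorization -/
theorem amA_pair {m : Fin R → Fin R} (h1 : ∀ r, m (m r) = r) (h2 : ∀ r, m r ≠ r) (τ : QT E)
    (s : (B → E) →+ G) (k : G → ℂ) (ε : Fin R → Bool) (t : Fin R → B → E)
    (ξ : B → Option (Fin R → E)) (P : Om B) : amA τ s k ε t (amP E m) ξ P = cav fun b =>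
      ∏ r : {r // r < m r}, amPF τ s k ξ r (m r) (ε r) (ε (m r)) (t r) (t (m r)) P b := by
  simp only [amA, amM, ← cav_mul_left]
  rw [← cav_csm_comm]
  refine cav_congr fun b => ?_
  let f : {r // r < m r} → (B → E) × (B → E) → ℂ := fun r W =>
    (ind (W.2 = amW ξ (m r) W.1) : ℝ) * ((ind (W.1 ∈ amDm ξ r) : ℝ) *
      (cj (ε r) (ph τ W.1 P) * cj (ε (m r)) (ph τ W.2 P) * (cj (ε r) (lp3 τ s k W.1 (b + s (t r))) *
        cj (ε (m r)) (lp3 τ s k W.2 (b + s (t (m r)))))))
  have e1 : ∀ r : {r // r < m r},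
      amPF τ s k ξ r (m r) (ε r) (ε (m r)) (t r) (t (m r)) P b = csm (f r) := fun r => by
    rw [csm_prod]
    exact csm_congr fun w => (csm_ind_eq (amW ξ (m r) w) fun w' => (ind (w ∈ amDm ξ r) : ℝ) *
      (cj (ε r) (ph τ w P) * cj (ε (m r)) (ph τ w' P) * (cj (ε r) (lp3 τ s k w (b + s (t r))) *
        cj (ε (m r)) (lp3 τ s k w' (b + s (t (m r))))))).symm
  simp only [e1]
  rw [prod_csm, ← csm_equiv (amEq h1 h2 B E)]
  refine csm_congr fun x => ?_
  rw [ind_congr (am7_amI h1 h2 ξ x), ind_forall, am7_ph, pair_prod h1 h2, pair_prod h1 h2,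
    Complex.ofReal_prod, ← Finset.prod_mul_distrib, ← Finset.prod_mul_distrib]
  refine Finset.prod_congr rfl fun r _ => ?_
  rw [ind_and, Complex.ofReal_mul, mul_assoc]
  rfl

omit [Finite G] in
lemma am7_pars {τ : QT E} (hτ : τ.ND) (s : (B → E) →+ G) (k : G → ℂ) (b : G) :
    (sm fun w => ‖lp3 τ s k w b‖ ^ 2) = amEn s k b := by
  have := tw_parseval hτ (fun x : OmE E B => k (b + s x.1)) 0
  simp only [tw, chi, th_zero_right, add_zero] at this
  exact this

omit [Finite G] in
lemma amEn_nonneg (s : (B → E) →+ G) (k : G → ℂ) (b : G) : 0 ≤ amEn s k b :=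
  av_nonneg fun _ => by positivity

omit [Finite G] in
/-- the trivial bound for a pair factor -/
lemma norm_amPF_le {τ : QT E} (hτ : τ.ND) (s : (B → E) →+ G) (k : G → ℂ)
    (ξ : B → Option (Fin R → E)) (r r' : Fin R) (e e' : Bool) (t1 t2 : B → E) (P : Om B) (b : G) :
    ‖amPF τ s k ξ r r' e e' t1 t2 P b‖ ≤ (amEn s k (b + s t1) + amEn s k (b + s t2)) / 2 := by
  have h2 : (sm fun w => ind (w ∈ amDm ξ r) * ‖lp3 τ s k (amW ξ r' w) (b + s t2)‖ ^ 2) ≤
      amEn s k (b + s t2) := by
    classical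
    let _ := Fintype.ofFinite (B → E)
    rw [← am7_pars hτ, sm_eq, sm_eq]
    simp only [ind_eq, ite_mul, one_mul, zero_mul, ← Finset.sum_filter]
    rw [← Finset.sum_image (f := fun w => ‖lp3 τ s k w (b + s t2)‖ ^ 2) fun w hw w' hw' =>
      amW_inj ξ r r' (Finset.mem_filter.1 hw).2 (Finset.mem_filter.1 hw').2]
    exact Finset.sum_le_sum_of_subset_of_nonneg (Finset.subset_univ _) fun _ _ _ => by positivity
  refine (norm_csm_le _).trans (le_trans (sm_mono (g := fun w => (‖lp3 τ s k w (b + s t1)‖ ^ 2 +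
    ind (w ∈ amDm ξ r) * ‖lp3 τ s k (amW ξ r' w) (b + s t2)‖ ^ 2) / 2) fun w => ?_) ?_)
  · simp only [norm_mul, am7_norm_cj, norm_ph, one_mul, Complex.norm_real, Real.norm_eq_abs, abs_ind]
    by_cases h : w ∈ amDm ξ r
    · rw [ind_pos h]
      nlinarith [sq_nonneg (‖lp3 τ s k w (b + s t1)‖ - ‖lp3 τ s k (amW ξ r' w) (b + s t2)‖)]
    · rw [ind_neg h, zero_mul, zero_mul, add_zero]; positivity
  · rw [sm_div, sm_add, am7_pars hτ]
    linarith

/-- moments of the local energy -/
lemma av_amEn_pow (s : (B → E) →+ G) (k : G → ℂ) (g : G) (p : ℕ) :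
    av (fun b => amEn s k (b + g) ^ p) ≤ av fun b => ‖k b‖ ^ (2 * p) := by
  rw [av_add_right (fun b => amEn s k b ^ p) g, ← av_shift (fun b => ‖k b‖ ^ (2 * p)) s]
  refine av_mono fun b => ?_
  have := abs_av_pow_le (fun h : B → E => ‖k (b + s h)‖ ^ 2) p
  simp only [abs_pow, abs_norm, ← pow_mul] at this
  exact (pow_le_pow_left₀ (amEn_nonneg s k b) (le_abs_self _) p).trans this

/-- second moment of a product of bounds of pair factors, one of them replaced by one -/
lemma am7_prod (D : ℕ → ℝ) (R : ℕ) : ∃ C : ℝ, 0 ≤ C ∧ ∀ (Ω E B G ι : Type) [Finite Ω] [Nonempty Ω]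
    [AddCommGroup E] [Finite E] [Finite B] [AddCommGroup G] [Finite G] [Fintype ι]
    (s : Ω → (B → E) →+ G) (k : Ω → G → ℂ), MomB D k → Fintype.card ι ≤ R →
    ∀ (g g' : Ω → ι → G) (a : Ω → G → ι → ℝ), (∀ ω b i, 0 ≤ a ω b i) →
      (∀ i, (∀ ω b, a ω b i ≤ 1) ∨ ∀ ω b, a ω b i ≤
        (amEn (s ω) (k ω) (b + g ω i) + amEn (s ω) (k ω) (b + g' ω i)) / 2) →
      av (fun ω => av fun b => (∏ i, a ω b i) ^ 2) ≤ C := by
  refine ⟨1 + R * (1 + ∑ n ∈ Finset.range (R + 1), |D (2 * (2 * n))|), by positivity,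
    fun Ω E B G ι _ _ _ _ _ _ _ _ s k hk hι g g' a h0 ha => ?_⟩
  set n := Fintype.card ι with hn
  have hD : D (2 * (2 * n)) ≤ ∑ n ∈ Finset.range (R + 1), |D (2 * (2 * n))| :=
    (le_abs_self _).trans (Finset.single_le_sum (f := fun n => |D (2 * (2 * n))|)
      (fun _ _ => abs_nonneg _) (Finset.mem_range.2 (Nat.lt_succ_of_le hι)))
  have hS : 0 ≤ ∑ n ∈ Finset.range (R + 1), |D (2 * (2 * n))| := by positivity
  have k1 : ∀ i, av (fun ω => av fun b => a ω b i ^ (2 * n)) ≤
      1 + ∑ n ∈ Finset.range (R + 1), |D (2 * (2 * n))| := fun i => by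
    rcases ha i with h | h
    · exact av_le_const fun ω => av_le_const fun b =>
        (pow_le_one₀ (h0 ω b i) (h ω b)).trans (le_add_of_nonneg_right hS)
    · have k2 : ∀ g : Ω → G, av (fun ω => av fun b => amEn (s ω) (k ω) (b + g ω) ^ (2 * n)) ≤
          D (2 * (2 * n)) := fun g => (av_mono fun ω => av_amEn_pow _ _ _ _).trans (hk _)
      have k3 : ∀ ω b, a ω b i ^ (2 * n) ≤ 1 / 2 * amEn (s ω) (k ω) (b + g ω i) ^ (2 * n) +
          1 / 2 * amEn (s ω) (k ω) (b + g' ω i) ^ (2 * n) := fun ω b => by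
        refine (pow_le_pow_left₀ (h0 ω b i) ((h ω b).trans_eq ?_) _).trans
          ((convexOn_pow (2 * n)).2 (amEn_nonneg (s ω) (k ω) (b + g ω i))
            (amEn_nonneg (s ω) (k ω) (b + g' ω i)) one_half_pos.le one_half_pos.le (add_halves 1))
        simp only [smul_eq_mul]; ring
      refine (av_mono fun ω => av_mono (k3 ω)).trans ?_
      simp only [av_add, av_mul_left]
      linarith [k2 fun ω => g ω i, k2 fun ω => g' ω i]
  have k4 : ∀ ω b, (∏ i, a ω b i) ^ 2 ≤ 1 + ∑ i, a ω b i ^ (2 * n) := fun ω b => by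
    have := abs_prod_le fun i => a ω b i ^ 2
    simp only [abs_pow, ← pow_mul, Finset.prod_pow, abs_of_nonneg (h0 ω b _)] at this
    exact (sq_abs _).ge.trans this
  refine (av_mono fun ω => av_mono (k4 ω)).trans ?_
  simp only [av_add, av_const, av_sum]
  refine add_le_add le_rfl ((Finset.sum_le_card_nsmul _ _ _ fun i _ => k1 i).trans ?_)
  rw [nsmul_eq_mul, Finset.card_univ]
  exact mul_le_mul_of_nonneg_right (by exact_mod_cast hι) (by positivity)

end NE
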