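import Pool.Agent.Lib.MP_ecee09_co.NE.AM8a

/-! Case (iii) of the abstract moment lemma. -/

namespace NE

open SD (F sm av ind cnt Tame)
open ComplexConjugate

variable {E : Type} [AddCommGroup E] [Finite E] {τ : QT E}

lemma am8_bits {B : Type} [Finite B] (H : (B → Bool) → ℝ) :
    av (fun z : Om B => H fun l => decide (z s(l, l) = 1)) = av H := by
  let e : F ≃ Bool := ⟨fun a => decide (a = 1), fun b => if b then 1 else 0, by decide, by decide⟩
  rw [← SD.av_equiv (Equiv.arrowCongr (Equiv.refl B) e) H]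
  exact SD.av_surj (fun (z : Om B) l => z s(l, l)) (fun _ _ => rfl)
    (fun a => ⟨Sym2.lift ⟨fun i j => a i * a j, fun _ _ => mul_comm _ _⟩,
      funext fun l => SD.F_mul_self _⟩) fun a => H (Equiv.arrowCongr (Equiv.refl B) e a)

open Classical in
lemma am8_mix {Y Z : Type} [Finite Y] [Finite Z] (p : Z → Prop) (H : (Z → Bool) → ℝ) :
    av H = av fun Ξ : Z → Bool => av fun α : Y ⊕ Z → Bool =>
      H fun j => if p j then α (.inr j) else Ξ j := by
  rw [av_invol (fun (Ξ : Z → Bool) (α : Y ⊕ Z → Bool) j => if p j then α (.inr j) else Ξ j)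
    (fun Ξ α => Sum.elim (fun i => α (.inl i)) fun j => if p j then Ξ j else α (.inr j))
    (fun Ξ α => funext fun j => by by_cases h : p j <;> simp [h])
    (fun Ξ α => funext fun l => by
      rcases l with i | j
      · rfl
      · by_cases h : p j <;> simp [h]) fun Ξ _ => H Ξ]
  simp only [SD.av_const]

theorem am8 (h : τ.ND) (h6 : AM6 τ) : AM8 τ := by
  classical
  intro c0 hc D R
  refine ⟨(R + √(1 + D 4)) * √(1 + D (2 * (2 * R)) + D 2 ^ (2 * R)), by positivity, ?_⟩
  intro κ _ k0 m Ω G _ _ _ _ s k σ v hD hσ hσ2 hk hv l l' sb sb' hsb hsb' hL hL' ε mm hm Q t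
  let _ := Fintype.ofFinite κ
  let X := Ω × (κ × Fin m × Tg → Bool) × Om (Bl k0 κ m) × G
  let f : {r // r < mm r} → X → ℂ := fun r x => am8P τ (s x.1) (k x.1) (ε r) (ε (mm r))
    (tt (t r) x.2.1) (tt (t (mm r)) x.2.1) (mix3 x.2.2.1 Q x.2.1) x.2.2.2
  let N : X → ℝ := fun x => am8N (s x.1) (k x.1) x.2.2.2
  let M : X → ℝ := fun x => max 1 (max (N x) (σ ^ 2))
  have N0 : ∀ x, 0 ≤ N x := fun x => am8N_nonneg _ _ _
  have card : Fintype.card {r // r < mm r} ≤ R :=
    (Fintype.card_subtype_le _).trans_eq (Fintype.card_fin R)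
  have hX : ∀ g : Ω → G → ℝ, av (fun x : X => g x.1 x.2.2.2) = av fun ω => av (g ω) := fun g => by
    simp only [X, SD.av_prod, SD.av_const]
  have hM : av (fun x => (M x ^ R) ^ 2) ≤ 1 + D (2 * (2 * R)) + D 2 ^ (2 * R) := by
    refine (SD.av_mono (g := fun x => 1 + N x ^ (2 * R) + D 2 ^ (2 * R)) fun x => ?_).trans ?_
    · have a := pow_nonneg (N0 x) (2 * R)
      have b := pow_le_pow_left₀ (sq_nonneg σ) hσ2 (2 * R)
      have c := pow_nonneg (sq_nonneg σ) (2 * R)
      rw [← pow_mul, mul_comm R]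
      rcases max_choice 1 (max (N x) (σ ^ 2)) with e | e
      · rw [show M x = 1 from e, one_pow]
        linarith
      · rcases max_choice (N x) (σ ^ 2) with e' | e' <;> rw [show M x = _ from e.trans e'] <;>
          linarith
    · rw [SD.av_add, SD.av_add, SD.av_const, SD.av_const,
        hX fun ω b => am8N (s ω) (k ω) b ^ (2 * R)]
      linarith [am8_mom (s := s) hD (2 * R)]
  have key : ∀ (c : ℂ) (u : X → ℝ) (a A : ℝ), 0 ≤ a → a ≤ R + √(1 + D 4) →
      A ≤ √v + √(amE c0 (8 * k0) l sb) + √(amE c0 (8 * m) l' sb') →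
      (∀ x, ‖∏ r, f r x - c‖ ≤ u x * M x ^ R) → √(av fun x => u x ^ 2) ≤ a * A → 0 ≤ A →
      ‖cav (fun x => ∏ r, f r x) - c‖ ≤ (R + √(1 + D 4)) *
        √(1 + D (2 * (2 * R)) + D 2 ^ (2 * R)) *
        (√v + √(amE c0 (8 * k0) l sb) + √(amE c0 (8 * m) l' sb')) := fun c u a A a0 a1 a2 a3 a4 a5 => by
    rw [← cav_const (α := X) c, ← cav_sub, mul_right_comm]
    exact (norm_cav_le _).trans ((SD.av_mono a3).trans ((le_abs_self _).trans
      ((SD.abs_av_mul_le _ _).trans (mul_le_mul (a4.trans (mul_le_mul a1 a2 a5 (a0.trans a1)))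
        (Real.sqrt_le_sqrt hM) (Real.sqrt_nonneg _) (by positivity)))))
  have one : ∀ (r : {r // r < mm r}) (A : ℝ), av (fun x => ‖f r x‖ ^ 2) ≤ (1 + D 4) * A →
      √A ≤ √v + √(amE c0 (8 * k0) l sb) + √(amE c0 (8 * m) l' sb') →
      ‖cav (fun x => ∏ r, f r x) - 0‖ ≤ (R + √(1 + D 4)) *
        √(1 + D (2 * (2 * R)) + D 2 ^ (2 * R)) *
        (√v + √(amE c0 (8 * k0) l sb) + √(amE c0 (8 * m) l' sb')) := fun r A a1 a2 => by
    have d4 : 0 ≤ D 4 := (SD.av_nonneg fun _ => SD.av_nonneg fun _ => by positivity).trans (hD 4)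
    refine key 0 (fun x => ‖f r x‖) √(1 + D 4) √A (Real.sqrt_nonneg _) (le_add_of_nonneg_left
      (Nat.cast_nonneg _)) a2 (fun x => ?_) ((Real.sqrt_le_sqrt a1).trans_eq
        (Real.sqrt_mul (by linarith) _)) (Real.sqrt_nonneg _)
    rw [sub_zero, ← Finset.mul_prod_erase _ _ (Finset.mem_univ r), norm_mul, norm_prod]
    refine mul_le_mul_of_nonneg_left ((Finset.prod_le_prod (g := fun _ => M x) ?_ ?_).trans
      ((Finset.prod_const _).trans_le (pow_le_pow_right₀ (le_max_left _ _)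
        ((Finset.card_le_univ _).trans card)))) (norm_nonneg _)
    · exact fun _ _ => norm_nonneg _
    · exact fun q _ => (am8P_le h _ _ _ _ _ _ _ _).trans
        ((le_max_left _ _).trans (le_max_right _ _))
  have main : (cav fun ω => cav fun Ξ => cav fun z => amA τ (s ω) (k ω) ε (fun r => tt (t r) Ξ)
      (amP E mm) (fun _ => none) (mix3 z Q Ξ)) = cav fun x : X => ∏ r, f r x := by
    simp only [X, cav_prod, am8_fact _ _ _ _ hm.1 hm.2.1, f]
  rw [main]
  by_cases c1 : τ.Real ∨ ∀ r, ε (mm r) = !ε r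
  · have fr : ∀ r x, f r x = _ := fun r x => am8P_free (s x.1) (hk x.1) (c1.imp_right fun e => e r)
      (tt (t r) x.2.1) (tt (t (mm r)) x.2.1) (mix3 x.2.2.1 Q x.2.1) x.2.2.2
    by_cases c2 : ∀ r, t (mm r) = t r
    · rw [SD.ind_pos ⟨c1, c2⟩, mul_one]
      refine key _ (fun x => |N x - σ ^ 2| * R) R √v (Nat.cast_nonneg _)
        (le_add_of_nonneg_right (Real.sqrt_nonneg _)) (by
          linarith [Real.sqrt_nonneg (amE c0 (8 * k0) l sb), Real.sqrt_nonneg (amE c0 (8 * m) l' sb')])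
        (fun x => ?_) ?_ (Real.sqrt_nonneg _)
      · have e : ∀ r, f r x = N x := fun r => by
          simp only [fr, c2, sub_self, ite_self, brk_zero_right, ee_zero, mul_one, mul_conj'',
            csm_ofReal, am8_pars h, N]
        have e2 : σ ^ R = (σ ^ 2) ^ Fintype.card {r // r < mm r} := by
          simpa [sq] using pair_prod hm.1 hm.2.1 fun _ => σ
        simp only [e, Finset.prod_const, Finset.card_univ, e2]
        rw [← Complex.ofReal_pow, ← Complex.ofReal_sub, Complex.norm_real, Real.norm_eq_abs]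
        refine (abs_pow_sub_pow_le _ _ _).trans (mul_le_mul (mul_le_mul_of_nonneg_left
          (Nat.cast_le.2 card) (abs_nonneg _)) ?_ (by positivity) (by positivity))
        rw [abs_of_nonneg (N0 x), abs_of_nonneg (sq_nonneg σ)]
        exact (pow_le_pow_left₀ (le_max_of_le_left (N0 x)) (le_max_right 1 _) _).trans
          (pow_le_pow_right₀ (le_max_left _ _) (by omega))
      · simp only [mul_pow, sq_abs, SD.av_mul_right]
        rw [Real.sqrt_mul' _ (sq_nonneg _), Real.sqrt_sq (Nat.cast_nonneg _), mul_comm]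
        refine mul_le_mul_of_nonneg_left (Real.sqrt_le_sqrt (le_trans (le_of_eq ?_) hv))
          (Nat.cast_nonneg _)
        exact hX fun ω b => (am8N (s ω) (k ω) b - σ ^ 2) ^ 2
    · rw [SD.ind_neg fun e => c2 e.2, mul_zero, Complex.ofReal_zero]
      obtain ⟨r, hr⟩ : ∃ r : {r // r < mm r}, t (mm r) ≠ t r := by
        obtain ⟨r, hr⟩ := not_forall.1 c2
        by_cases e : r < mm r
        · exact ⟨⟨r, e⟩, hr⟩
        · exact ⟨⟨mm r, pair_lt hm.1 hm.2.1 e⟩, fun q => hr (q.symm.trans (congrArg t (hm.1 r)))⟩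
      obtain ⟨a, ha⟩ := Function.ne_iff.1 hr
      let d : κ → E := if ε r then t (mm r) - t r else t r - t (mm r)
      have d0 : d a ≠ 0 := by
        simp only [d]
        split_ifs
        exacts [sub_ne_zero.2 ha, sub_ne_zero.2 ha.symm]
      have cL : {j : Bl k0 κ m | ∃ p, j = Sum.inr (a, p)}.ncard = 8 * m := by
        rw [show {j : Bl k0 κ m | ∃ p, j = Sum.inr (a, p)} = Set.range fun p => Sum.inr (a, p) from
          Set.ext fun j => exists_congr fun _ => eq_comm, Set.ncard_range_of_injective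
            fun p q e => (Prod.mk.inj (Sum.inr.inj e)).2]
        simp [mul_comm]
      refine one r (amE c0 (8 * m) l' sb') ?_ (by
        linarith [Real.sqrt_nonneg (amE c0 (8 * k0) l sb), Real.sqrt_nonneg v])
      have dd : ∀ Ξ : κ × Fin m × Tg → Bool, (if ε r then tt (k0 := k0) (t (mm r)) Ξ - tt (t r) Ξ
          else tt (t r) Ξ - tt (t (mm r)) Ξ) =
          Sum.elim (fun _ => 0) fun j => if Ξ j then d j.1 else 0 :=
        fun Ξ => funext fun j => by
          rcases j with j | j <;> cases e : ε r <;> simp [tt, d, e, spr, zl]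
          all_goals split_ifs <;> simp
      let g : Ω → (κ × Fin m × Tg → Bool) → G → ℝ := fun ω Ξ b => ‖csm fun w =>
        lp3 τ (s ω) (k ω) w b * conj (lp3 τ (s ω) (k ω) w b) * ee (brk τ w (Sum.elim (fun _ => 0)
          fun j => if Ξ j then d j.1 else 0))‖ ^ 2
      have fr2 : ∀ x, ‖f r x‖ ^ 2 = g x.1 x.2.1 x.2.2.2 := fun x => by rw [fr, dd]
      simp only [X, SD.av_prod, fr2, SD.av_const]
      rw [SD.av_congr fun ω => am8_mix (Y := Fin k0 × Tg) (fun j => j.1 = a) _, SD.av_comm]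
      refine SD.av_le_const fun Ξ => le_trans (le_of_eq ?_) (cL ▸ h6 c0 hc D Ω _ G s k hD _ l' sb'
        hsb' (hL' a) (d a) d0 Set.univ id id (Set.injOn_id _) (Set.injOn_id _)
        (fun _ _ _ _ => ⟨rfl, rfl⟩) (fun w => ee (∑ j : κ × Fin m × Tg, if j.1 ≠ a ∧ Ξ j then
          τ.be (w (.inr j)) (d j.1) else 0)) (fun _ => (norm_ee _).le) false true 0 0)
      refine SD.av_congr fun ω => SD.av_congr fun α => SD.av_congr fun b =>
        congrArg (‖·‖ ^ 2) (csm_congr fun w => ?_)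
      rw [SD.ind_pos (Set.mem_univ w), finsum_eq_sum_of_fintype, brk_eq, Fintype.sum_sum_type,
        Fintype.sum_sum_type]
      simp only [Sum.elim_inl, Sum.elim_inr, map_zero, Finset.sum_const_zero, add_zero, zero_add,
        Set.mem_ofPred_eq, reduceCtorEq, exists_false, false_and, if_false]
      rw [Complex.ofReal_one, one_mul, mul_right_comm (ee _), ← ee_add, ← Finset.sum_add_distrib,
        mul_comm]
      refine congrArg₂ _ (congrArg ee (Finset.sum_congr rfl fun j _ => ?_)) rfl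
      obtain ⟨j, p⟩ := j
      by_cases e : j = a
      · subst e
        by_cases e' : α (.inr (j, p)) = true <;> simp [e', τ.symm (d j)]
      · by_cases e' : Ξ (j, p) = true <;> simp [e, e']
  · rw [SD.ind_neg fun e => c1 e.1, mul_zero, Complex.ofReal_zero]
    rw [not_or] at c1
    obtain ⟨r, hr⟩ : ∃ r : {r // r < mm r}, ε (mm r) = ε r := by
      obtain ⟨r, hr⟩ := not_forall.1 c1.2
      rw [Bool.eq_not, not_not] at hr
      by_cases e : r < mm r
      · exact ⟨⟨r, e⟩, hr⟩
      · exact ⟨⟨mm r, pair_lt hm.1 hm.2.1 e⟩, (congrArg ε (hm.1 r)).trans hr.symm⟩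
    have h2 := hm.2.2 r hr
    obtain ⟨t0, h0⟩ := h.surj (AddMonoidHom.mk' (fun x => 2 • τ.q x) fun x y => by
      rw [τ.q_add, smul_add, smul_add, ← map_nsmul, h2, map_zero, add_zero])
    replace h0 : ∀ x, τ.be t0 x = 2 • τ.q x := DFunLike.congr_fun h0
    have d0 : t0 ≠ 0 := fun e => c1.1 ⟨h2, fun x => by rw [← h0, e, map_zero]; rfl⟩
    have cL : (Set.range (Sum.inl : _ → Bl k0 κ m)).ncard = 8 * k0 := by
      rw [Set.ncard_range_of_injective Sum.inl_injective]
      simp [mul_comm]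
    refine one r (amE c0 (8 * k0) l sb) ?_ (by
      linarith [Real.sqrt_nonneg (amE c0 (8 * m) l' sb'), Real.sqrt_nonneg v])
    simp only [X, SD.av_prod, f, hr, am8P_loop _ _ h2 h0]
    rw [SD.av_comm]
    refine SD.av_le_const fun Ξ => le_trans (le_of_eq ?_) (cL ▸ h6 c0 hc D Ω _ G s k hD _ l sb
      hsb hL t0 d0 Set.univ id id (Set.injOn_id _) (Set.injOn_id _)
      (fun _ _ _ _ => ⟨rfl, rfl⟩) (fun w => ee (∑ j, (ow 0 (zl Ξ) Q s(j, j)).val •
        τ.be t0 (w (.inr j)))) (fun _ => (norm_ee _).le) (ε r) (ε r) (tt (t r) Ξ) (tt (t (mm r)) Ξ))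
    refine SD.av_congr fun ω => ?_
    rw [← am8_bits]
    refine SD.av_congr fun z => SD.av_congr fun b => congrArg (‖·‖ ^ 2) (csm_congr fun w => ?_)
    rw [SD.ind_pos (Set.mem_univ w), finsum_eq_sum_of_fintype, Fintype.sum_sum_type,
      Fintype.sum_sum_type, Finset.sum_eq_zero (s := Finset.univ (α := κ × Fin m × Tg))
        (f := fun j => @ite _ _ (_) _ _) fun i _ => if_neg (by simp), add_zero, Complex.ofReal_one, one_mul, mul_right_comm (ee _),
      ← ee_add, mul_comm, add_comm]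
    refine congrArg₂ _ (congrArg ee (congrArg₂ _ (Finset.sum_congr rfl fun j _ => ?_)
      (Finset.sum_congr rfl fun i _ => ?_))) rfl
    · rw [mix3, ow_crd_mk Sum.inr_injective]
    · rw [mix3, ow_none_left _ _ ((crd_eq_none Sum.inr_injective).2 (by simp))]
      rcases SD.F_cases (z s(.inl i, .inl i)) with e | e <;> simp [e]
      exact one_nsmul _

end NE
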