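import Pool.Agent.Lib.MP_ecee09_co.NE.AMD
import Pool.Agent.Lib.MP_ecee09_co.NE.CellT

/-! Pair factors of the moment on a pairing space. -/

namespace NE

open SD (F sm av ind cnt Tame)
open ComplexConjugate

variable {E B G : Type} [AddCommGroup E] [Finite E] [Finite B] [AddCommGroup G] [Finite G]
  {τ : QT E} {R : ℕ}

lemma am8_cj_mul (e : Bool) (a b : ℂ) : cj e (a * b) = cj e a * cj e b := by
  cases e <;> simp

lemma am8_norm_cj (e : Bool) (a : ℂ) : ‖cj e a‖ = ‖a‖ := by cases e <;> simp

lemma am8_cj_ee (e : Bool) (a : TT) : cj e (ee a) = ee (amS e a) := by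
  cases e <;> simp [amS, conj_ee]

omit [Finite E] in
lemma am8_ph (τ : QT E) (ε : Fin R → Bool) (x : B → Fin R → E) (P : Om B) :
    ph (amT τ ε) x P = ∏ r, cj (ε r) (ph τ (fun l => x l r) P) := by
  classical
  let _ := Fintype.ofFinite B
  simp only [ph, am8_cj_ee, ← ee_sum, th_eq]
  congr 1
  have k : ∀ c, cz (amT τ ε) x c = ∑ r, amS (ε r) (cz τ (fun l => x l r) c) := fun c => by
    induction c using Sym2.ind with
    | _ i j =>
      by_cases e : i = j
      · subst e
        simp only [cz_self]
        rfl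
      · simp only [cz_ne _ _ e]
        rfl
  simp only [k, Finset.smul_sum]
  rw [Finset.sum_comm]
  refine Finset.sum_congr rfl fun r _ => ?_
  cases ε r <;> simp [amS]

omit [Finite G] in
lemma am8_shift (τ : QT E) (s : (B → E) →+ G) (k : G → ℂ) (w h : B → E) (b : G) :
    lp3 τ s k w (b + s h) = ee (brk τ w h) * lp3 τ s k w b := by
  rw [lp3, lp3, ← cav_mul_left, ← cav_add_left (fun h' => ee (brk τ w h) *
    (k (b + s h') * conj (ee (brk τ w h')))) h]
  refine cav_congr fun h' => ?_
  rw [map_add, add_assoc, brk_add_right, ee_add, map_mul]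
  linear_combination (-k (b + (s h + s h')) * conj (ee (brk τ w h'))) * ee_mul_conj (brk τ w h)

/-- the energy seen through the shifts -/
noncomputable def am8N (s : (B → E) →+ G) (k : G → ℂ) (b : G) : ℝ := av fun h => ‖k (b + s h)‖ ^ 2

omit [Finite G] in
lemma am8N_nonneg (s : (B → E) →+ G) (k : G → ℂ) (b : G) : 0 ≤ am8N s k b :=
  SD.av_nonneg fun _ => by positivity

omit [Finite G] in
lemma am8_pars (h : τ.ND) (s : (B → E) →+ G) (k : G → ℂ) (b : G) :
    sm (fun w => ‖lp3 τ s k w b‖ ^ 2) = am8N s k b := by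
  have e : ∀ h', csm (fun w => ee (brk τ w h') * lp3 τ s k w b) = k (b + s h') := fun h' => by
    simp only [lp3, ← cav_mul_left]
    rw [← cav_csm_comm, cav_congr (g := fun x => (Nat.card (B → E) : ℂ) *
      ((ind (x = h') : ℂ) * k (b + s x))) fun x => ?_, cav_mul_left, cav_ind_eq,
      mul_div_cancel₀ _ ccard_ne]
    rw [csm_congr (g := fun w => k (b + s x) * ee (brk τ w (h' - x))) fun w => by
      rw [brk_sub_right, ee_sub]; ring, csm_mul_left, csm_eq_card_mul_cav, h.cav_brk,
      SD.ind_congr (sub_eq_zero.trans eq_comm)]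
    ring
  refine Complex.ofReal_injective ?_
  rw [← csm_ofReal, am8N, ← cav_ofReal]
  simp only [← mul_conj'']
  rw [cav_congr fun x => congrArg (fun z => k (b + s x) * conj z) (e x).symm]
  simp only [conj_csm, map_mul, ← csm_mul_left, ← mul_assoc, cav_csm_comm, cav_mul_right]
  rfl

lemma am8_mom {Ω : Type} [Finite Ω] {D : ℕ → ℝ} {s : Ω → (B → E) →+ G} {k : Ω → G → ℂ}
    (hD : MomB D k) (j : ℕ) : av (fun ω => av fun b => am8N (s ω) (k ω) b ^ j) ≤ D (2 * j) := by
  refine le_trans (SD.av_mono fun ω => ?_) (hD _)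
  refine (SD.av_mono fun b => (pow_le_pow_left₀ (am8N_nonneg _ _ _) (le_abs_self _) j).trans
    (SD.abs_av_pow_le _ j)).trans ?_
  rw [SD.av_comm]
  refine SD.av_le_const fun h => le_of_eq ?_
  simp only [abs_pow, abs_norm, ← pow_mul]
  exact SD.av_add_right (fun b => ‖k ω b‖ ^ (2 * j)) _

/-- the factor of a pair -/
noncomputable def am8P (τ : QT E) (s : (B → E) →+ G) (k : G → ℂ) (e e' : Bool) (t t' : B → E)
    (P : Om B) (b : G) : ℂ :=
  csm fun w => cj e (ph τ w P * lp3 τ s k w (b + s t)) * cj e' (ph τ w P * lp3 τ s k w (b + s t'))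

omit [Finite G] in
lemma am8P_le (h : τ.ND) (s : (B → E) →+ G) (k : G → ℂ) (e e' : Bool) (t t' : B → E)
    (P : Om B) (b : G) : ‖am8P τ s k e e' t t' P b‖ ≤ am8N s k b := by
  refine (norm_csm_le _).trans_eq (Eq.trans (SD.sm_congr fun w => ?_) (am8_pars h s k b))
  simp only [norm_mul, am8_norm_cj, am8_shift, norm_ph, norm_ee, one_mul, sq]

lemma am8_fact (s : (B → E) →+ G) (k : G → ℂ) (ε : Fin R → Bool) (t : Fin R → B → E)
    {m : Fin R → Fin R} (h1 : ∀ r, m (m r) = r) (h2 : ∀ r, m r ≠ r) (P : Om B) :
    amA τ s k ε t (amP E m) (fun _ => none) P = cav fun b => ∏ r : {r // r < m r},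
      am8P τ s k (ε r) (ε (m r)) (t r) (t (m r)) P b := by
  let e : ({r // r < m r} → B → E) ≃ {x : B → Fin R → E // amI (amP E m) (fun _ => none) x} :=
    { toFun := fun W => ⟨fun l r => if h : r < m r then W ⟨r, h⟩ l else W ⟨m r, pair_lt h1 h2 h⟩ l,
        fun l r => by
          by_cases h : r < m r
          · have h' : ¬ m r < m (m r) := by rw [h1]; exact not_lt.2 h.le
            simp only [dif_pos h, dif_neg h']
            exact congrFun (congrArg W (Subtype.ext (h1 r))) l
          · simp only [dif_neg h, dif_pos (pair_lt h1 h2 h)]⟩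
      invFun := fun x r l => x.1 l r
      left_inv := fun W => funext fun r => funext fun l => dif_pos r.2
      right_inv := fun x => Subtype.ext (funext fun l => funext fun r => by
        by_cases h : r < m r
        · exact dif_pos h
        · exact (dif_neg h).trans (x.2 l r)) }
  simp only [am8P, prod_csm]
  rw [amA, ← csm_subtype, ← csm_equiv e, cav_csm_comm]
  refine csm_congr fun W => ?_
  rw [amM, ← cav_mul_left]
  refine cav_congr fun b => ?_
  rw [am8_ph, ← Finset.prod_mul_distrib, pair_prod h1 h2]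
  refine Finset.prod_congr rfl fun r _ => ?_
  have a1 : (fun l => (e W).1 l r) = W r := funext fun l => dif_pos r.2
  have a2 : (fun l => (e W).1 l (m r)) = W r := funext fun l => ((e W).2 l r).trans (dif_pos r.2)
  rw [a1, a2, am8_cj_mul, am8_cj_mul]

omit [Finite G] in
/-- the pattern drops out -/
lemma am8P_free (s : (B → E) →+ G) {k : G → ℂ} (hk : Adm τ k) {e e' : Bool}
    (h : τ.Real ∨ e' = !e) (t t' : B → E) (P : Om B) (b : G) :
    am8P τ s k e e' t t' P b = csm fun w => lp3 τ s k w b * conj (lp3 τ s k w b) *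
      ee (brk τ w (if e then t' - t else t - t')) := by
  refine csm_congr fun w => ?_
  have p := ee_mul_conj (th τ w P)
  by_cases q : e' = !e
  · subst q
    cases e
    · simp only [Bool.not_false, cj_true, cj_false, am8_shift, map_mul, ph, Bool.false_eq_true,
        if_false, brk_sub_right, ee_sub]
      linear_combination (ee (brk τ w t) * conj (ee (brk τ w t')) * lp3 τ s k w b *
        conj (lp3 τ s k w b)) * p
    · simp only [Bool.not_true, cj_true, cj_false, am8_shift, map_mul, ph, if_true, brk_sub_right,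
        ee_sub]
      linear_combination (ee (brk τ w t') * conj (ee (brk τ w t)) * lp3 τ s k w b *
        conj (lp3 τ s k w b)) * p
  · have hr := h.resolve_right q
    let _ := Fintype.ofFinite B
    have r0 : ∀ a : TT, 2 • a = 0 → conj (ee a) = ee a := fun a ha => by
      rw [conj_ee, neg_eq_of_add_eq_zero_left ((two_nsmul a).symm.trans ha)]
    have r1 : ∀ u, conj (ee (brk τ w u)) = ee (brk τ w u) := fun u => r0 _ (by
      rw [two_nsmul, ← brk_add_right, show u + u = 0 from funext fun i =>
        (two_nsmul _).symm.trans (hr.1 _), brk_zero_right])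
    have r2 : conj (ee (th τ w P)) = ee (th τ w P) := r0 _ (by
      classical
      rw [th_eq, Finset.smul_sum]
      refine Finset.sum_eq_zero fun c _ => ?_
      rw [smul_comm, show 2 • cz τ w c = 0 from ?_, smul_zero]
      induction c using Sym2.ind with
      | _ i j =>
        by_cases e : i = j
        · rw [e, cz_self, hr.2]
        · rw [cz_ne _ _ e, ← map_nsmul, hr.1, map_zero])
    have r3 : conj (lp3 τ s k w b) = lp3 τ s k w b := by
      rw [lp3, conj_cav]
      exact cav_congr fun x => by rw [map_mul, r1, r1, Complex.conj_eq_iff_im.2 (hk hr _)]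
    have r4 : ∀ (c : Bool) u, cj c (ph τ w P * lp3 τ s k w (b + s u)) =
        ee (th τ w P) * (ee (brk τ w u) * lp3 τ s k w b) := fun c u => by
      cases c <;> simp only [cj_true, cj_false, am8_shift, map_mul, ph, r1, r2, r3]
    rw [r2] at p
    rw [r4, r4, r3, show ee (brk τ w (if e then t' - t else t - t')) =
      ee (brk τ w t) * ee (brk τ w t') by
        split_ifs <;> simp only [brk_sub_right, ee_sub, r1, mul_comm]]
    linear_combination (ee (brk τ w t) * ee (brk τ w t') * lp3 τ s k w b * lp3 τ s k w b) * p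

omit [Finite G] [Finite E] [Finite B] in
/-- equal signs: only the loops are seen -/
lemma am8P_loop [Fintype B] (s : (B → E) →+ G) (k : G → ℂ) (h2 : ∀ x : E, 2 • x = 0) {t0 : E}
    (h0 : ∀ x, τ.be t0 x = 2 • τ.q x) (e : Bool) (t t' : B → E) (P : Om B) (b : G) :
    am8P τ s k e e t t' P b = csm fun w => cj e (lp3 τ s k w (b + s t)) *
      cj e (lp3 τ s k w (b + s t')) * ee (∑ l, (P s(l, l)).val • τ.be t0 (w l)) := by
  classical
  refine csm_congr fun w => ?_
  have a : th τ w P + th τ w P = ∑ l, (P s(l, l)).val • τ.be t0 (w l) := by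
    rw [← two_nsmul, th_eq, Finset.smul_sum]
    refine (Fintype.sum_of_injective Sym2.diag Sym2.diag_injective _ _ (fun c hc => ?_)
      fun l => ?_).symm
    · induction c using Sym2.ind with
      | _ i j =>
        rw [smul_comm, cz_ne _ _ fun e => hc ⟨i, by rw [← e]; rfl⟩, ← map_nsmul, h2, map_zero,
          smul_zero]
    · rw [smul_comm, h0]
      exact congrArg (fun y => _ • 2 • y) (cz_self τ w l).symm
  have a2 : amS e (th τ w P + th τ w P) = th τ w P + th τ w P := by
    cases e
    · rfl
    · refine neg_eq_of_add_eq_zero_left ?_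
      rw [a, ← two_nsmul, Finset.smul_sum]
      exact Finset.sum_eq_zero fun l _ => by rw [smul_comm, ← map_nsmul, h2, map_zero, smul_zero]
  rw [← a, ← a2, ← am8_cj_ee, ee_add, am8_cj_mul, am8_cj_mul, am8_cj_mul, ph]
  ring

end NE
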