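import Pool.Agent.Lib.MP_ecee09_co.NE.Defs3
import Pool.Agent.Lib.MP_ecee09_co.NE.CQT

/-! Definitions and sub-statements for the abstract moment lemma. -/

namespace NE

open SD (F sm av ind cnt Tame pm)
open ComplexConjugate

/-- a sign on the circle group -/
def amS (b : Bool) (a : TT) : TT := if b then -a else a

section
variable {E B G Y Z : Type} [AddCommGroup E] [AddCommGroup G] {R : ℕ}

/-- the signed sum of `R` copies of a type -/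
noncomputable def amT (τ : QT E) (ε : Fin R → Bool) : QT (Fin R → E) where
  q y := ∑ r, amS (ε r) (τ.q (y r))
  be := AddMonoidHom.mk' (fun x => AddMonoidHom.mk' (fun y => sB τ ε x y) (by
      intro y y'
      simp only [sB, Pi.add_apply, map_add, ← Finset.sum_add_distrib]
      refine Finset.sum_congr rfl fun r _ => ?_
      cases ε r <;> simp [add_comm])) (by
      intro x x'
      refine AddMonoidHom.ext fun y => ?_
      show sB τ ε (x + x') y = sB τ ε x y + sB τ ε x' y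
      simp only [sB, Pi.add_apply, map_add, AddMonoidHom.add_apply, ← Finset.sum_add_distrib]
      refine Finset.sum_congr rfl fun r _ => ?_
      cases ε r <;> simp [add_comm])
  q_add x y := by
    simp only [sB, Pi.add_apply, τ.q_add, AddMonoidHom.mk'_apply, ← Finset.sum_add_distrib]
    refine Finset.sum_congr rfl fun r _ => ?_
    cases ε r <;> simp [amS]
    abel

lemma amT_be (τ : QT E) (ε : Fin R → Bool) (x y : Fin R → E) :
    (amT τ ε).be x y = sB τ ε x y := rfl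

/-- the term of a row pattern -/
noncomputable def amM (τ : QT E) (s : (B → E) →+ G) (k : G → ℂ) (ε : Fin R → Bool)
    (t : Fin R → B → E) (x : B → Fin R → E) : ℂ :=
  cav fun b => ∏ r, cj (ε r) (lp3 τ s k (fun l => x l r) (b + s (t r)))

/-- rows are prescribed where `xi` is defined and lie in `T` elsewhere -/
def amI (T : AddSubgroup (Fin R → E)) (ξ : B → Option (Fin R → E)) (x : B → Fin R → E) : Prop :=
  ∀ l, (ξ l).elim (x l ∈ T) fun y => x l = y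

/-- the part of the moment with rows given by `T` and `xi`, at the pattern `P` -/
noncomputable def amA (τ : QT E) (s : (B → E) →+ G) (k : G → ℂ) (ε : Fin R → Bool)
    (t : Fin R → B → E) (T : AddSubgroup (Fin R → E)) (ξ : B → Option (Fin R → E)) (P : Om B) :
    ℂ := csm fun x => (ind (amI T ξ x) : ℝ) * (ph (amT τ ε) x P * amM τ s k ε t x)

/-- isotropic and orthogonal to the diagonal -/
def amIso (τ : QT E) (ε : Fin R → Bool) (T : AddSubgroup (Fin R → E)) : Prop :=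
  (∀ a ∈ T, ∀ b ∈ T, sB τ ε a b = 0) ∧ ∀ a ∈ T, ∀ e : E, sB τ ε a (fun _ => e) = 0

/-- the pairing space of a matching -/
def amP (E : Type) [AddCommGroup E] (m : Fin R → Fin R) : AddSubgroup (Fin R → E) where
  carrier := {x | ∀ r, x (m r) = x r}
  zero_mem' := fun _ => rfl
  add_mem' := fun ha hb r => by simp only [Pi.add_apply, ha r, hb r]
  neg_mem' := fun ha r => by simp only [Pi.neg_apply, ha r]

/-- a perfect matching whose pairing space is isotropic -/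
def amV (E : Type) [AddCommGroup E] (ε : Fin R → Bool) (m : Fin R → Fin R) : Prop :=
  (∀ r, m (m r) = r) ∧ (∀ r, m r ≠ r) ∧ ∀ r, ε (m r) = ε r → ∀ x : E, 2 • x = 0

/-- the group generated by the rows that occur at least `M` times in the sample -/
def amX (M : ℕ) (x : Y ⊕ Z → Fin R → E) : AddSubgroup (Fin R → E) :=
  AddSubgroup.closure {y | M ≤ {l : Y | x (Sum.inl l) = y}.ncard}

/-- exceptional rows: outside `T`, each value less than `M` times in the sample -/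
def amD (M : ℕ) (T : AddSubgroup (Fin R → E)) (ξ : Y ⊕ Z → Option (Fin R → E)) : Prop :=
  (∀ l y, ξ l = some y → y ∉ T) ∧ ∀ y, {l : Y | ξ (Sum.inl l) = some y}.ncard < M

/-- boxes with free shifts on the blocks of `J` are small in the mean -/
def BoxS {Ω : Type} (τ : QT E) (s : Ω → (B → E) →+ G) (k : Ω → G → ℂ) (J : Set B) (sb : ℝ) :
    Prop :=
  (∀ S : AddSubgroup E, S ≠ ⊥ → S ≠ ⊤ → av (fun ω => bb2 (s ω) (k ω) J S (τ.perp S)) ≤ sb) ∧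
    av (fun ω => bb3 (s ω) (k ω) J) ≤ sb

/-- the same after removing any `l` blocks from `L` -/
def BoxL {Ω : Type} (τ : QT E) (s : Ω → (B → E) →+ G) (k : Ω → G → ℂ) (L : Set B) (l : ℕ)
    (sb : ℝ) : Prop :=
  ∀ T : Set B, T.ncard ≤ l → ∃ J, J ⊆ L \ T ∧ BoxS τ s k J sb

/-- all moments are bounded in the mean -/
def MomB {Ω : Type} (D : ℕ → ℝ) (k : Ω → G → ℂ) : Prop :=
  ∀ p : ℕ, av (fun ω => av fun b => ‖k ω b‖ ^ p) ≤ D p

end

/-- damping constant for elements of order dividing `J` -/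
def Damp (J : ℕ) (c0 : ℝ) : Prop :=
  0 ≤ c0 ∧ c0 < 1 ∧ ∀ a : TT, J • a = 0 → a ≠ 0 → ‖(1 + ee a) / 2‖ ≤ c0

/-- the error of a pair factor -/
noncomputable def amE (c0 : ℝ) (n l : ℕ) (sb : ℝ) : ℝ := c0 ^ l + ((n : ℝ) + 1) ^ l * (sb + √sb)

section stmts
variable {E : Type} [AddCommGroup E]

/-- expansion, trivial bound, rows are orthogonal to the diagonal -/
def AM1 (τ : QT E) : Prop :=
  ∀ (B G : Type) [Finite B] [AddCommGroup G] [Finite G] (s : (B → E) →+ G) (k : G → ℂ) (R : ℕ)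
    (ε : Fin R → Bool) (t : Fin R → B → E),
    (∀ P : Om B, (cav fun b => ∏ r, cj (ε r) (tk τ s k P (b + s (t r)))) =
      csm fun x => ph (amT τ ε) x P * amM τ s k ε t x) ∧
    (∀ x, ‖amM τ s k ε t x‖ ≤ 1 + av fun b => ‖k b‖ ^ R) ∧
    ∀ x l e, sB τ ε (x l) (fun _ => e) ≠ 0 → amM τ s k ε t x = 0

/-- damping of patterns with a non isotropic popular group -/
def AM2 (τ : QT E) : Prop :=
  ∀ c0, Damp (Nat.card E) c0 → ∀ (Y Z : Type) [Finite Y] [Finite Z] (R M : ℕ) (ε : Fin R → Bool)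
    (x : Y ⊕ Z → Fin R → E) (P0 : Om Z),
    (¬ ∀ a ∈ amX M x, ∀ b ∈ amX M x, sB τ ε a b = 0) →
    ‖cav fun z : Om (Y ⊕ Z) => ph (amT τ ε) x (ow z (crd Sum.inr) P0)‖ ≤ c0 ^ (M * (M - 1) / 2)

/-- inclusion and exclusion over isotropic groups, and the number of exceptional patterns -/
def AM3 (τ : QT E) : Prop :=
  ∀ R : ℕ, ∃ C : ℝ, 0 ≤ C ∧ ∀ ε : Fin R → Bool, ∃ co : AddSubgroup (Fin R → E) → ℝ,
    sm (fun T => |co T|) ≤ C ∧ (∀ T, ¬ amIso τ ε T → co T = 0) ∧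
    (∀ m, amV E ε m → amIso τ ε (amP E m) ∧ co (amP E m) = 1) ∧
    (∀ m m', amV E ε m → amV E ε m' → amP E m = amP E m' → m = m') ∧
    ∀ (Y Z : Type) [Finite Y] [Finite Z] (M : ℕ), 1 ≤ M →
      (∀ x : Y ⊕ Z → Fin R → E, ind (amIso τ ε (amX M x)) =
        sm fun T => co T * sm fun ξ => ind (amD M T ξ) * ind (amI T ξ x)) ∧
      ∀ T : AddSubgroup (Fin R → E),
        (∀ ξ : Y ⊕ Z → Option (Fin R → E), amD M T ξ →
          {l : Y | ξ (Sum.inl l) ≠ none}.ncard ≤ Nat.card E ^ R * M) ∧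
        sm (fun ξ : Y ⊕ Z → Option (Fin R → E) => ind (amD M T ξ)) ≤
          (((Nat.card Y : ℝ) + 1) * (Nat.card E ^ R + 1)) ^ (Nat.card E ^ R * M + Nat.card Z)

/-- on an isotropic group the pattern acts as a shift -/
def AM4 (τ : QT E) : Prop :=
  ∀ (B G : Type) [Finite B] [AddCommGroup G] [Finite G] (R : ℕ) (ε : Fin R → Bool)
    (T : AddSubgroup (Fin R → E)), amIso τ ε T → ∀ (ξ : B → Option (Fin R → E)) (P : Om B),
    ∃ (c : TT) (γ : Fin R → B → E), ∀ (s : (B → E) →+ G) (k : G → ℂ) (t : Fin R → B → E),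
      amA τ s k ε t T ξ P = ee c * amA τ s k ε (t + γ) T ξ 0

/-- case (i) -/
def AM5 (τ : QT E) : Prop :=
  ∀ (D : ℕ → ℝ) (R : ℕ), ∃ C : ℝ, 0 ≤ C ∧
    ∀ (Ω B G : Type) [Finite Ω] [Nonempty Ω] [Finite B] [AddCommGroup G] [Finite G]
      (s : Ω → (B → E) →+ G) (k : Ω → G → ℂ), MomB D k →
      ∀ (ε : Fin R → Bool) (T : AddSubgroup (Fin R → E)), amIso τ ε T →
      (¬ ∃ m, amV E ε m ∧ T = amP E m) →
      ∀ (ξ : B → Option (Fin R → E)) (J : Set B) (θ : ℝ), (∀ l ∈ J, ξ l = none) → 0 < θ → θ ≤ 1 →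
      BoxS τ s k J (θ ^ 8) → ∀ t : Fin R → B → E,
        ‖cav fun ω => amA τ (s ω) (k ω) ε t T ξ 0‖ ≤ C * θ

open Classical in
/-- the pair estimate -/
def AM6 (τ : QT E) : Prop :=
  ∀ c0, Damp (Nat.card E) c0 → ∀ (D : ℕ → ℝ)
    (Ω B G : Type) [Finite Ω] [Nonempty Ω] [Finite B] [AddCommGroup G] [Finite G]
    (s : Ω → (B → E) →+ G) (k : Ω → G → ℂ), MomB D k →
    ∀ (L : Set B) (l : ℕ) (sb : ℝ), 0 ≤ sb → BoxL τ s k L l sb →
    ∀ (s1 : E), s1 ≠ 0 → ∀ (Dm : Set (B → E)) (w1 w2 : (B → E) → B → E),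
      Set.InjOn w1 Dm → Set.InjOn w2 Dm → (∀ w ∈ Dm, ∀ j ∈ L, w1 w j = w j ∧ w2 w j = w j) →
      ∀ (φ : (B → E) → ℂ), (∀ w, ‖φ w‖ ≤ 1) → ∀ (e e' : Bool) (t1 t2 : B → E),
        av (fun ω => av fun a : B → Bool => av fun b =>
          ‖csm fun w => (ind (w ∈ Dm) : ℝ) * (φ w *
            (cj e (lp3 τ (s ω) (k ω) (w1 w) (b + s ω t1)) *
              cj e' (lp3 τ (s ω) (k ω) (w2 w) (b + s ω t2))) *
            ee (∑ᶠ j, if j ∈ L ∧ a j = true then τ.be s1 (w j) else 0))‖ ^ 2) ≤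
          (1 + D 4) * amE c0 L.ncard l sb

/-- case (ii) -/
def AM7 (τ : QT E) : Prop :=
  ∀ c0, Damp (Nat.card E) c0 → ∀ (D : ℕ → ℝ) (R : ℕ), ∃ C : ℝ, 0 ≤ C ∧
    ∀ (Ω Y Z G : Type) [Finite Ω] [Nonempty Ω] [Finite Y] [Finite Z] [AddCommGroup G] [Finite G]
      (s : Ω → (Y ⊕ Z → E) →+ G) (k : Ω → G → ℂ), MomB D k →
      ∀ (ε : Fin R → Bool) (m : Fin R → Fin R), amV E ε m →
      ∀ (ξ : Y ⊕ Z → Option (Fin R → E)) (i : Y ⊕ Z) (y : Fin R → E), ξ i = some y →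
      y ∉ amP E m → ∀ (L : Set (Y ⊕ Z)) (l : ℕ) (sb : ℝ), 0 ≤ sb → L ⊆ Set.range Sum.inl →
      (∀ j ∈ L, ξ j = none) → BoxL τ s k L l sb → ∀ (t : Fin R → Y ⊕ Z → E) (P0 : Om Z),
        ‖cav fun ω => cav fun z : Om (Y ⊕ Z) =>
          amA τ (s ω) (k ω) ε t (amP E m) ξ (ow z (crd Sum.inr) P0)‖ ^ 2 ≤
          C * amE c0 L.ncard l sb

/-- case (iii) -/
def AM8 (τ : QT E) : Prop :=
  ∀ c0, Damp (Nat.card E) c0 → ∀ (D : ℕ → ℝ) (R : ℕ), ∃ C : ℝ, 0 ≤ C ∧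
    ∀ (κ : Type) [Finite κ] (k0 m : ℕ) (Ω G : Type) [Finite Ω] [Nonempty Ω] [AddCommGroup G]
      [Finite G] (s : Ω → (Bl k0 κ m → E) →+ G) (k : Ω → G → ℂ) (σ v : ℝ), MomB D k →
      0 ≤ σ → σ ^ 2 ≤ D 2 → (∀ ω, Adm τ (k ω)) →
      av (fun ω => av fun b => (av (fun h => ‖k ω (b + s ω h)‖ ^ 2) - σ ^ 2) ^ 2) ≤ v →
      ∀ (l l' : ℕ) (sb sb' : ℝ), 0 ≤ sb → 0 ≤ sb' → BoxL τ s k (Set.range Sum.inl) l sb →
      (∀ a : κ, BoxL τ s k {j | ∃ p, j = Sum.inr (a, p)} l' sb') →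
      ∀ (ε : Fin R → Bool) (mm : Fin R → Fin R), amV E ε mm → ∀ (Q : Om κ) (t : Fin R → κ → E),
        ‖(cav fun ω => cav fun Ξ => cav fun z =>
            amA τ (s ω) (k ω) ε (fun r => tt (t r) Ξ) (amP E mm) (fun _ => none) (mix3 z Q Ξ)) -
          ((σ ^ R * ind ((τ.Real ∨ ∀ r, ε (mm r) = !ε r) ∧ ∀ r, t (mm r) = t r) : ℝ) : ℂ)‖ ≤
          C * (√v + √(amE c0 (8 * k0) l sb) + √(amE c0 (8 * m) l' sb'))

end stmts

/-- the choice of parameters -/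
def AMP : Prop :=
  (∀ J : ℕ, 0 < J → ∃ c0, Damp J c0) ∧
  ∀ (c0 δ : ℝ), 0 ≤ c0 → c0 < 1 → 0 < δ →
    (∃ l' M0 : ℕ, ∀ M, M0 ≤ M →
      2 * l' ≤ M ^ 20 ∧ amE c0 (8 * M ^ 20) l' ((1 / 2) ^ (M ^ 14)) ≤ δ) ∧
    ∀ a z0 : ℕ, ∃ N0 : ℕ, ∀ N, N0 ≤ N →
      1 ≤ N ∧ 2 * (a * N ^ 11 + N ^ 12) ≤ N ^ 20 ∧
      (a : ℝ) ^ (8 * N ^ 20 + z0) * c0 ^ (N ^ 11 * (N ^ 11 - 1) / 2) ≤ δ ∧
      (1 / 2 : ℝ) ^ (N ^ 14) ≤ ((1 / 2) ^ (N ^ 13)) ^ 8 ∧
      (((8 * N ^ 20 : ℕ) + 1 : ℝ) * (a + 1)) ^ (a * N ^ 11 + z0) *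
        ((1 / 2) ^ (N ^ 13) + √(amE c0 (8 * N ^ 20) (N ^ 12) ((1 / 2) ^ (N ^ 14)))) ≤ δ

end NE
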