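import Pool.Agent.Lib.MP_ecee09_co.NE.AMD

/-! The choice of parameters for the abstract moment lemma. -/

namespace NE

open Filter Topology

lemma amp_damp {J : ℕ} (hJ : 0 < J) : ∃ c0, Damp J c0 := by
  have h1 : ∀ᶠ c in 𝓝[<] (1 : ℝ), ∀ a ∈ {a : TT | J • a = 0}, a ≠ 0 → ‖(1 + ee a) / 2‖ ≤ c :=
    (eventually_all_finite (AddCircle.finite_torsion 1 hJ)).2 fun a _ => by
      by_cases h : a = 0
      · exact .of_forall fun _ k => (k h).elim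
      have h2 := (norm_midpoint_lt_iff (x := (1 : ℂ)) (y := ee a) (by simp)).2
        fun e => h (ee_eq_one.1 e.symm)
      rw [norm_one, show (1 / 2 : ℝ) • (1 + ee a) = (1 + ee a) / 2 by simp; ring] at h2
      exact mem_of_superset (Ico_mem_nhdsLT h2) fun c hc _ => hc.1
  obtain ⟨c, h2, h3⟩ := (h1.and (Ico_mem_nhdsLT zero_lt_one)).exists
  exact ⟨c, h3.1, h3.2, h2⟩

lemma amp_key {c δ : ℝ} (hc : c < 1) (hδ : 0 < δ) (T A : ℕ) : ∃ r : ℝ, 0 < r ∧ r ≤ 1 ∧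
    c ≤ r ^ T ∧ 1 / 2 ≤ r ∧ ∀ᶠ N : ℕ in atTop,
      ((8 * N ^ 20 : ℕ) + 1 : ℝ) * (A + 1) * r ^ N ≤ 1 ∧ 3 * r ^ N ≤ δ := by
  have h1 : ∀ᶠ r in 𝓝[<] (1 : ℝ), c < r ^ T :=
    (((continuous_pow T).tendsto' 1 1 (one_pow T)).eventually (lt_mem_nhds hc)).filter_mono
      nhdsWithin_le_nhds
  obtain ⟨r, h2, h3⟩ := (h1.and (Ico_mem_nhdsLT one_half_lt_one)).exists
  have r0 : 0 < r := one_half_pos.trans_le h3.1
  have h4 := tendsto_pow_atTop_nhds_zero_of_lt_one r0.le h3.2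
  have h5 := (((tendsto_pow_const_mul_const_pow_of_abs_lt_one 20
    (abs_lt.2 ⟨by linarith, h3.2⟩)).const_mul 8).add h4).mul_const ((A : ℝ) + 1)
  have h6 := h4.const_mul 3
  simp only [mul_zero, add_zero, zero_mul] at h5 h6
  refine ⟨r, r0, h3.2.le, h2.le, h3.1, (h5.eventually (ge_mem_nhds one_pos)).and
    (h6.eventually (ge_mem_nhds hδ)) |>.mono fun N h => ⟨le_of_eq_of_le ?_ h.1, h.2⟩⟩
  push_cast
  ring

lemma amp_mul {B r Y C : ℝ} {N e n : ℕ} (hB : 0 ≤ B) (r0 : 0 < r) (r1 : r ≤ 1) (hC : 0 ≤ C)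
    (h : B * r ^ N ≤ 1) (hY : Y ≤ C * r ^ n) {m : ℕ} (hn : N * e + m ≤ n) :
    B ^ e * Y ≤ C * r ^ m := by
  have h1 : (B * r ^ N) ^ e ≤ 1 := pow_le_one₀ (by positivity) h
  calc B ^ e * Y ≤ B ^ e * (C * r ^ (N * e + m)) := mul_le_mul_of_nonneg_left
        (hY.trans (mul_le_mul_of_nonneg_left (pow_le_pow_of_le_one r0.le r1 hn) hC)) (by positivity)
    _ = (B * r ^ N) ^ e * (C * r ^ m) := by ring
    _ ≤ C * r ^ m := mul_le_of_le_one_left (by positivity) h1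

lemma amp_sb {r : ℝ} (r1 : r ≤ 1) (h : 1 / 2 ≤ r) {N : ℕ} (hN : 4 ≤ N) :
    (1 / 2 : ℝ) ^ N ^ 14 + √((1 / 2) ^ N ^ 14) ≤ 2 * r ^ (2 * N ^ 13) := by
  have r0 : 0 ≤ r := le_trans (by norm_num) h
  have h1 : (1 / 2 : ℝ) ^ N ^ 14 ≤ (r ^ (2 * N ^ 13)) ^ 2 := by
    rw [← pow_mul]
    exact (pow_le_pow_left₀ (by norm_num) h _).trans (pow_le_pow_of_le_one r0 r1
      (by rw [pow_succ N 13]; nlinarith [Nat.zero_le (N ^ 13)]))
  have h2 := Real.sqrt_le_sqrt h1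
  rw [Real.sqrt_sq (by positivity)] at h2
  have h3 : r ^ (2 * N ^ 13) ≤ 1 := pow_le_one₀ r0 r1
  nlinarith [pow_nonneg r0 (2 * N ^ 13)]

theorem amp : AMP := by
  refine ⟨fun J => amp_damp, fun c0 δ c1 c2 hδ => ⟨?_, fun a z0 => ?_⟩⟩
  · obtain ⟨l, hl⟩ := exists_pow_lt_of_lt_one (half_pos hδ) c2
    obtain ⟨r, r0, r1, -, r2, h⟩ := amp_key c2 (half_pos hδ) 0 0
    obtain ⟨M0, hM⟩ := eventually_atTop.1 (h.and (eventually_ge_atTop (2 * l + 4)))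
    refine ⟨l, M0, fun M k => ?_⟩
    obtain ⟨⟨h1, h2⟩, h3⟩ := hM M k
    have h4 : M ≤ M ^ 12 := Nat.le_self_pow (by norm_num) M
    refine ⟨le_trans (by omega) (Nat.le_self_pow (by norm_num) M), ?_⟩
    rw [Nat.cast_zero, zero_add, mul_one] at h1
    have h5 := amp_mul (e := l) (m := M) (by positivity) r0 r1 zero_le_two h1
      (amp_sb r1 r2 (show 4 ≤ M by omega)) (by rw [pow_succ M 12]; nlinarith)
    rw [amE]
    linarith [pow_pos r0 M]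
  obtain ⟨r, r0, r1, r2, r3, h⟩ := amp_key c2 hδ (2 * (a + z0 + 1)) a
  obtain ⟨N0, hN⟩ := eventually_atTop.1 (h.and (eventually_ge_atTop (2 * (a + z0) + 19)))
  refine ⟨N0, fun N k => ?_⟩
  obtain ⟨⟨h1, h2⟩, h3⟩ := hN N k
  have n1 : 1 ≤ N := by omega
  have p : ∀ {i j : ℕ}, i ≤ j → N ^ i ≤ N ^ j := fun e => Nat.pow_le_pow_right n1 e
  have q : ∀ (i : ℕ) {c : ℕ}, c ≤ N → c * N ^ i ≤ N ^ (i + 1) := fun i c e => by
    rw [pow_succ']
    exact Nat.mul_le_mul_right _ e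
  have a0 : (0 : ℝ) ≤ a := Nat.cast_nonneg a
  have b0 : (0 : ℝ) ≤ (8 * N ^ 20 : ℕ) := Nat.cast_nonneg _
  have b1 := pow_pos r0 N
  refine ⟨n1, ?_, ?_, ?_, ?_⟩
  · have : a * N ^ 11 ≤ N ^ 12 := q 11 (by omega)
    have : 4 * N ^ 12 ≤ N ^ 13 := q 12 (by omega)
    have := p (show 13 ≤ 20 by norm_num)
    omega
  · have e1 : N * (8 * N ^ 20 + z0) + N ≤ N ^ 11 * (N ^ 11 - 1) / 2 := by
      have e2 := q 10 (show 2 * (9 + z0) + 1 ≤ N by omega)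
      have e3 : 1 ≤ N ^ 10 := Nat.one_le_pow _ _ n1
      have e4 : N ^ 11 * (2 * (9 + z0) * N ^ 10) ≤ N ^ 11 * (N ^ 11 - 1) :=
        Nat.mul_le_mul_left _ (Nat.le_sub_one_of_lt (by nlinarith))
      have e5 : N ≤ N ^ 21 := Nat.le_self_pow (by norm_num) N
      refine (Nat.le_div_iff_mul_le two_pos).2 (le_trans ?_ e4)
      have e6 := Nat.mul_le_mul_left z0 e5
      nlinarith
    have e2 : c0 ≤ r := r2.trans (pow_le_of_le_one r0.le r1 (by omega))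
    refine (amp_mul a0 r0 r1 zero_le_one (le_trans ?_ h1)
      ((pow_le_pow_left₀ c1 e2 _).trans_eq (one_mul _).symm) e1).trans (by linarith)
    exact mul_le_mul_of_nonneg_right (by nlinarith) b1.le
  · rw [← pow_mul, mul_comm]
    exact pow_le_pow_of_le_one (by norm_num) (by norm_num) (q 13 (by omega))
  have e1 := amp_mul (B := (8 * N ^ 20 : ℕ) + 1) (e := N ^ 12) (m := 2 * (a + z0 + 1) * N ^ 12)
    (by positivity) r0 r1 zero_le_two (le_trans (mul_le_mul_of_nonneg_right (by nlinarith) b1.le) h1)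
    (amp_sb r1 r3 (show 4 ≤ N by omega)) (by
      rw [← pow_succ', two_mul (N ^ 13)]
      exact Nat.add_le_add_left (q 12 (by omega)) _)
  have e2 : c0 ^ N ^ 12 ≤ r ^ (2 * (a + z0 + 1) * N ^ 12) := by
    rw [pow_mul]
    exact pow_le_pow_left₀ c1 r2 _
  have e3 : √(amE c0 (8 * N ^ 20) (N ^ 12) ((1 / 2) ^ N ^ 14)) ≤
      2 * r ^ ((a + z0 + 1) * N ^ 12) := by
    refine Real.sqrt_le_iff.2 ⟨by positivity, ?_⟩
    rw [amE, mul_pow, ← pow_mul, mul_comm _ 2, ← mul_assoc]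
    linarith [pow_pos r0 (2 * (a + z0 + 1) * N ^ 12)]
  have e4 : (1 / 2 : ℝ) ^ N ^ 13 ≤ r ^ ((a + z0 + 1) * N ^ 12) :=
    (pow_le_pow_left₀ (by norm_num) r3 _).trans (pow_le_pow_of_le_one r0.le r1 (q 12 (by omega)))
  refine (amp_mul (C := 3) (n := (a + z0 + 1) * N ^ 12) (m := N) (by positivity) r0 r1
    (by norm_num) h1 (by linarith) ?_).trans h2
  have e5 : N ≤ N ^ 12 := Nat.le_self_pow (by norm_num) N
  have e6 := Nat.mul_le_mul_left z0 e5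
  nlinarith

end NE
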