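import Pool.Agent.Lib.MP_ecee09_co.NE.AM
import Pool.Agent.Lib.MP_ecee09_co.NE.AM1
import Pool.Agent.Lib.MP_ecee09_co.NE.AM2
import Pool.Agent.Lib.MP_ecee09_co.NE.AM3
import Pool.Agent.Lib.MP_ecee09_co.NE.AM4
import Pool.Agent.Lib.MP_ecee09_co.NE.AM5
import Pool.Agent.Lib.MP_ecee09_co.NE.AM6
import Pool.Agent.Lib.MP_ecee09_co.NE.AM7
import Pool.Agent.Lib.MP_ecee09_co.NE.AM8
import Pool.Agent.Lib.MP_ecee09_co.NE.AMP

/-! The abstract moment lemma from the classification. -/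

namespace NE

theorem amom {E : Type} [AddCommGroup E] [Finite E] [Nontrivial E] {τ : QT E} (h : τ.ND)
    (hC : CLP τ) : AMOM τ :=
  amom_of (am1 τ) (am2 τ) (am3 h) (am4 h) (am5 h hC) (am7 h (am6 h)) (am8 h (am6 h)) amp

end NE
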