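import Pool.Agent.Lib.MP_ecee09_co.NE.AMD

/-! Helper lemmas for the assembly of the abstract moment lemma. -/

namespace NE

open SD
open ComplexConjugate

variable {E B G Ω : Type} [AddCommGroup E] [AddCommGroup G] {τ : QT E}

lemma ama_hit {k : ℕ} [Finite B] (f : Fin k × Tg → B) (hf : Function.Injective f) (T : Set B) :
    {j | ∃ g, f (j, g) ∈ T}.ncard ≤ T.ncard := by
  have h1 : {j | ∃ g, f (j, g) ∈ T} = Prod.fst '' (f ⁻¹' T) := by
    ext j
    simp
  rw [h1]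
  exact (Set.ncard_image_le (Set.toFinite _)).trans
    (Set.ncard_le_ncard_of_injOn f (fun _ ha => ha) hf.injOn (Set.toFinite _))

lemma ama_compl {k : ℕ} (A A' : Set (Fin k)) : k ≤ (A ∪ A')ᶜ.ncard + A.ncard + A'.ncard := by
  have h1 := Set.ncard_add_ncard_compl (A ∪ A')
  have h2 := Set.ncard_union_le A A'
  rw [Nat.card_eq_fintype_card, Fintype.card_fin] at h1
  omega

lemma BoxS.mono [Finite Ω] {s : Ω → (B → E) →+ G} {k : Ω → G → ℂ} {J : Set B} {a b : ℝ}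
    (h : BoxS τ s k J a) (hab : a ≤ b) : BoxS τ s k J b :=
  ⟨fun S h1 h2 => (h.1 S h1 h2).trans hab, h.2.trans hab⟩

lemma ama_boxL {k0 : ℕ} [Finite B] {s : Ω → (B → E) →+ G} {k : Ω → G → ℂ} {sb : ℝ}
    (f : Fin k0 × Tg → B) (hf : Function.Injective f)
    (h : ∀ J : Set (Fin k0), k0 ≤ 2 * J.ncard → BoxS τ s k {l | ∃ j ∈ J, ∃ g, l = f (j, g)} sb)
    (A : Set (Fin k0)) {a l : ℕ} (hA : A.ncard ≤ a) (hl : 2 * (a + l) ≤ k0) :
    BoxL τ s k {l | ∃ j ∈ Aᶜ, ∃ g, l = f (j, g)} l sb := by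
  intro T hT
  have h1 := ama_hit f hf T
  have h2 := ama_compl A {j | ∃ g, f (j, g) ∈ T}
  refine ⟨_, ?_, h (A ∪ {j | ∃ g, f (j, g) ∈ T})ᶜ (by omega)⟩
  rintro _ ⟨j, hj, g, rfl⟩
  simp only [Set.compl_union, Set.mem_inter_iff, Set.mem_compl_iff, Set.mem_ofPred_eq,
    not_exists] at hj
  exact ⟨⟨j, hj.1, g, rfl⟩, hj.2 g⟩

lemma amE_nonneg {c0 sb : ℝ} (h0 : 0 ≤ c0) (hs : 0 ≤ sb) (n l : ℕ) : 0 ≤ amE c0 n l sb := by
  unfold amE
  positivity

lemma amE_mono {c0 sb : ℝ} (hs : 0 ≤ sb) {n n' : ℕ} (h : n ≤ n') (l : ℕ) :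
    amE c0 n l sb ≤ amE c0 n' l sb := by
  unfold amE
  have : (n : ℝ) ≤ n' := by exact_mod_cast h
  gcongr

lemma ama_pmx [Finite E] {L : Type} {R : ℕ} (t : Fin R → L) (ε : Fin R → Bool) :
    sm (fun m => ind (amV E ε m) *
      ind ((τ.Real ∨ ∀ r, ε (m r) = !ε r) ∧ ∀ r, t (m r) = t r)) = pmx τ t ε := by
  unfold pmx
  by_cases h : τ.Real
  · rw [if_pos h, pm, cnt]
    refine sm_congr fun m => ?_
    rw [← ind_and]
    refine ind_congr ⟨fun ⟨a, b⟩ => ⟨a.1, a.2.1, b.2⟩, fun ⟨a, b, c⟩ =>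
      ⟨⟨a, b, fun _ _ => h.1⟩, Or.inl h, c⟩⟩
  · rw [if_neg h, pms, cnt]
    refine sm_congr fun m => ?_
    rw [← ind_and]
    refine ind_congr ⟨fun ⟨a, b⟩ => ⟨a.1, b.1.resolve_left h, b.2⟩, fun ⟨a, b, c⟩ =>
      ⟨⟨a, fun r hr => ?_, fun r hr => ?_⟩, Or.inr b, c⟩⟩
    · have := b r
      rw [hr] at this
      simp at this
    · have := b r
      rw [hr] at this
      simp at this

/-- a popular row detects the failure of orthogonality to the diagonal -/
lemma ama_row {Y Z : Type} {R M : ℕ} (hM : 1 ≤ M) (ε : Fin R → Bool) (x : Y ⊕ Z → Fin R → E)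
    (h : ¬ ∀ a ∈ amX M x, ∀ e : E, sB τ ε a (fun _ => e) = 0) :
    ∃ l e, sB τ ε (x l) (fun _ => e) ≠ 0 := by
  by_contra hc
  push Not at hc
  refine h fun a ha e => ?_
  rw [← amT_be]
  refine AddSubgroup.closure_induction (p := fun a _ => (amT τ ε).be a (fun _ => e) = 0)
    ?_ (by simp) ?_ ?_ ha
  · intro y hy
    have h1 : {l : Y | x (Sum.inl l) = y}.ncard ≠ 0 := by
      have : M ≤ {l : Y | x (Sum.inl l) = y}.ncard := hy
      omega
    obtain ⟨l, hl⟩ := Set.nonempty_of_ncard_ne_zero h1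
    rw [← show x (Sum.inl l) = y from hl]
    exact hc _ _
  · intro a b _ _ ha hb
    rw [map_add, AddMonoidHom.add_apply, ha, hb, add_zero]
  · intro a _ ha
    rw [map_neg, AddMonoidHom.neg_apply, ha, neg_zero]

/-- the abstract bookkeeping of the main terms -/
lemma ama_sum {P X Mt : Type} [Finite P] [Finite X] [Finite Mt] (co : P → ℝ) (adm : P → X → Prop)
    (g : P → X → ℂ) (x0 : X) (V : Mt → Prop) (p : Mt → P) (w : Mt → ℝ) {C N e e' : ℝ}
    (hC : sm (fun T => |co T|) ≤ C) (hN : ∀ T, sm (fun ξ => ind (adm T ξ)) ≤ N) (he : 0 ≤ e)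
    (hN1 : 0 ≤ N) (he' : 0 ≤ e') (h0 : ∀ T, adm T x0) (h1 : ∀ m, V m → co (p m) = 1)
    (hu : ∀ m m', V m → V m' → p m = p m' → m = m')
    (hg : ∀ T ξ, co T ≠ 0 → adm T ξ → ¬ ((∃ m, V m ∧ T = p m) ∧ ξ = x0) → ‖g T ξ‖ ≤ e)
    (hm : ∀ m, V m → ‖g (p m) x0 - (w m : ℝ)‖ ≤ e') :
    ‖(csm fun T => (co T : ℂ) * csm fun ξ => (ind (adm T ξ) : ℝ) * g T ξ) -
      ((sm fun m => ind (V m) * w m : ℝ) : ℂ)‖ ≤ C * N * e + Nat.card Mt * e' := by
  set mn : P → ℂ := fun T => (ind (∃ m, V m ∧ T = p m) : ℝ) * g T x0 with hmn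
  have hA : ∀ T, ‖(co T : ℂ) * ((csm fun ξ => (ind (adm T ξ) : ℝ) * g T ξ) - mn T)‖ ≤
      |co T| * (N * e) := by
    intro T
    by_cases hc : co T = 0
    · simp [hc]
    rw [norm_mul, Complex.norm_real, Real.norm_eq_abs]
    refine mul_le_mul_of_nonneg_left ?_ (abs_nonneg _)
    have h2 : mn T = csm fun ξ => (ind (ξ = x0) : ℝ) *
        ((ind (∃ m, V m ∧ T = p m) : ℝ) * g T ξ) := by rw [csm_ind_eq]
    rw [h2, ← csm_sub]
    refine (norm_csm_le _).trans (le_trans (sm_mono (g := fun ξ => ind (adm T ξ) * e) fun ξ => ?_) ?_)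
    · by_cases h3 : (∃ m, V m ∧ T = p m) ∧ ξ = x0
      · obtain ⟨h4, rfl⟩ := h3
        rw [ind_pos h4, ind_pos (h0 T), ind_pos rfl]
        simpa using he
      · have h5 : ((ind (ξ = x0) : ℝ) : ℂ) * ((ind (∃ m, V m ∧ T = p m) : ℝ) * g T ξ) = 0 := by
          by_cases h6 : ξ = x0
          · rw [ind_neg (fun h7 => h3 ⟨h7, h6⟩)]
            simp
          · rw [ind_neg h6]
            simp
        rw [h5, sub_zero]
        by_cases h8 : adm T ξ
        · rw [ind_pos h8]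
          simpa using hg T ξ hc h8 h3
        · rw [ind_neg h8]
          simp
    · rw [sm_mul_right]
      exact mul_le_mul_of_nonneg_right (hN T) he
  have hB : (csm fun T => (co T : ℂ) * mn T) = csm fun m => (ind (V m) : ℝ) * g (p m) x0 := by
    have h2 : ∀ T, (co T : ℂ) * mn T =
        csm fun m => (ind (T = p m) : ℝ) * ((ind (V m) : ℝ) * g T x0) := by
      intro T
      by_cases h3 : ∃ m, V m ∧ T = p m
      · obtain ⟨m, hv, rfl⟩ := h3
        have h4 : ∀ m', ((ind (p m = p m') : ℝ) : ℂ) * ((ind (V m') : ℝ) * g (p m) x0) =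
            (ind (m' = m) : ℝ) * g (p m) x0 := by
          intro m'
          rw [← mul_assoc, ← Complex.ofReal_mul, ← ind_and]
          congr 2
          exact ind_congr ⟨fun a => (hu m m' hv a.2 a.1).symm, fun a => by
            subst a
            exact ⟨rfl, hv⟩⟩
        rw [csm_congr h4, csm_ind_eq m fun _ => g (p m) x0, h1 m hv, hmn]
        simp only
        rw [ind_pos ⟨m, hv, rfl⟩]
        simp
      · have h4 : ∀ m', ((ind (T = p m') : ℝ) : ℂ) * ((ind (V m') : ℝ) * g T x0) = 0 := by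
          intro m'
          rw [← mul_assoc, ← Complex.ofReal_mul, ← ind_and, ind_neg fun a => h3 ⟨m', a.2, a.1⟩]
          simp
        rw [csm_congr h4, csm_zero, hmn]
        simp only
        rw [ind_neg h3]
        simp
    rw [csm_congr h2, csm_comm]
    exact csm_congr fun m => csm_ind_eq (p m) fun T => (ind (V m) : ℝ) * g T x0
  have hD : ‖(csm fun m => (ind (V m) : ℝ) * g (p m) x0) -
      ((sm fun m => ind (V m) * w m : ℝ) : ℂ)‖ ≤ Nat.card Mt * e' := by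
    rw [← csm_ofReal, ← csm_sub, ← sm_const]
    refine (norm_csm_le _).trans (sm_mono fun m => ?_)
    by_cases hv : V m
    · rw [ind_pos hv]
      simpa using hm m hv
    · rw [ind_neg hv]
      simpa using he'
  have hE : ‖(csm fun T => (co T : ℂ) * csm fun ξ => (ind (adm T ξ) : ℝ) * g T ξ) -
      csm fun T => (co T : ℂ) * mn T‖ ≤ C * N * e := by
    rw [← csm_sub]
    simp only [← mul_sub]
    refine (norm_csm_le _).trans ((sm_mono hA).trans ?_)
    rw [sm_mul_right, mul_assoc]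
    exact mul_le_mul_of_nonneg_right hC (mul_nonneg hN1 he)
  rw [hB] at hE
  exact (norm_sub_le_norm_sub_add_norm_sub _ _ _).trans (add_le_add hE hD)

end NE
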