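import Pool.Agent.Lib.MP_ecee09_co.NE.BEb

/-! Splitting an atom according to the phases of rectangles. -/

set_option linter.deprecated false

namespace NE

open ComplexConjugate Filter Topology
open scoped InnerProductSpace

theorem be_fact {R : Type} [CommRing R] [Algebra ℂ R] {J : ℕ} (hJ : 0 < J) {ζ : ℂ}
    (hζ : IsPrimitiveRoot ζ J) (b p : R) :
    ∏ k ∈ Finset.range J, (b - ζ ^ k • p) = b ^ J - p ^ J := by
  have h1 : IsPrimitiveRoot (Polynomial.C ζ) J := hζ.map_of_injective Polynomial.C_injective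
  have h2 := congrArg (Polynomial.eval₂RingHom (Polynomial.aeval p).toRingHom b)
    (X_pow_sub_C_eq_prod h1 hJ (α := Polynomial.X) rfl)
  simpa only [map_prod, map_sub, map_pow, map_mul, Polynomial.coe_eval₂RingHom, Polynomial.eval₂_X,
    Polynomial.eval₂_C, AlgHom.toRingHom_eq_coe, RingHom.coe_coe, Polynomial.aeval_X,
    Polynomial.aeval_C, Algebra.smul_def] using h2.symm

theorem be_alg {R : Type} [CommRing R] [Algebra ℂ R] (I : Ideal R) (b p P : ℕ → R) {J : ℕ}
    (hJ : 0 < J) {ζ : ℂ} (hζ : IsPrimitiveRoot ζ J)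
    (full : ∀ y, (∀ t, p t * y ∈ I) → y ∈ I) (h1 : ∀ t r, b t * p r - b r * p t ∈ I)
    (h2 : ∀ r, b r ^ J - p r ^ J ∈ I) (hpow : ∀ y m n, y ^ (n + 1) * m ∈ I → y * m ∈ I)
    (hk : ∀ k m, (∀ t, (b t - ζ ^ k • p t) * m ∈ I) → P k * m - m ∈ I)
    (hk' : ∀ k t, (b t - ζ ^ k • p t) * P k = 0) :
    (∀ k < J, ∀ k' < J, k ≠ k' → P k * P k' ∈ I) ∧ 1 - ∑ k ∈ Finset.range J, P k ∈ I := by
  have hO : ∀ k < J, ∀ k' < J, k ≠ k' → P k * P k' ∈ I := fun k hk1 k' hk2 hne => by
    refine full _ fun t => ?_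
    have hz : ζ ^ k - ζ ^ k' ≠ 0 := sub_ne_zero.2 fun e => hne (hζ.pow_inj hk1 hk2 e)
    have e1 := hk' k t
    have e2 := hk' k' t
    have : (ζ ^ k - ζ ^ k') • (p t * (P k * P k')) = 0 := by
      simp only [Algebra.smul_def, map_sub] at e1 e2 ⊢
      linear_combination P k * e2 - P k' * e1
    rw [(smul_eq_zero.1 this).resolve_left hz]
    exact I.zero_mem
  refine ⟨hO, ?_⟩
  generalize hN : 1 - ∑ k ∈ Finset.range J, P k = N
  have hP : ∀ k < J, P k * N ∈ I := fun k hk1 => by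
    have e1 := hk k (P k) fun t => (hk' k t).symm ▸ I.zero_mem
    have e2 : ∑ k' ∈ (Finset.range J).erase k, P k * P k' ∈ I := I.sum_mem fun k' h =>
      hO k hk1 k' (Finset.mem_range.1 (Finset.mem_of_mem_erase h)) (Finset.ne_of_mem_erase h).symm
    rw [← hN, ← Finset.add_sum_erase _ _ (Finset.mem_range.2 hk1)]
    convert I.neg_mem (I.add_mem e1 e2) using 1
    rw [← Finset.mul_sum]
    ring
  have step : ∀ k < J, ∀ r m, (b r - ζ ^ k • p r) * (m * N) ∈ I → p r * (m * N) ∈ I :=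
    fun k hk1 r m h => by
      have e1 := hk k (p r * (m * N)) fun t => by
        convert I.add_mem (I.mul_mem_left (p t) h) (I.mul_mem_left (m * N) (h1 t r)) using 1
        simp only [Algebra.smul_def]
        ring
      convert I.sub_mem (I.mul_mem_left (p r * m) (hP k hk1)) e1 using 1
      ring
  have ind : ∀ r, ∀ n ≤ J, ∀ m, (∏ k ∈ Finset.range n, (b r - ζ ^ k • p r)) * (m * N) ∈ I →
      p r ^ n * (m * N) ∈ I := fun r n => by
    induction n with
    | zero => exact fun _ m h => by simpa using h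
    | succ n ih =>
      intro hn m h
      rw [Finset.prod_range_succ] at h
      have e1 := step n hn r ((∏ k ∈ Finset.range n, (b r - ζ ^ k • p r)) * m)
        (by convert h using 1; ring)
      convert ih (by omega) (p r * m) (by convert e1 using 1; ring) using 1
      ring
  refine full _ fun r => ?_
  have e1 := ind r J le_rfl 1 (by rw [be_fact hJ hζ]; exact I.mul_mem_right _ (h2 r))
  obtain ⟨n, rfl⟩ := Nat.exists_eq_succ_of_ne_zero hJ.ne'
  rw [one_mul] at e1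
  exact hpow _ _ n e1

theorem be_root {J : ℕ} (hJ : 0 < J) : ∃ x : TT, IsPrimitiveRoot (ee x) J := by
  refine ⟨((1 / J : ℝ) : TT), ?_⟩
  convert Complex.isPrimitiveRoot_exp J hJ.ne' using 1
  rw [ee, AddCircle.toCircle_apply_mk, Circle.coe_exp]
  congr 1
  push_cast
  ring

variable {κ : Ker} {H : Type} [NormedAddCommGroup H] [InnerProductSpace ℂ H] [CompleteSpace H]

/-- the annihilator of a vector -/
def Sys.ann (S : Sys κ H) (w : H) : Ideal (Alg S.V Aa) where
  carrier := {Y | Y.1 w = 0}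
  zero_mem' := rfl
  add_mem' := fun {a b} ha hb => show a.1 w + b.1 w = 0 by
    rw [show a.1 w = 0 from ha, show b.1 w = 0 from hb, add_zero]
  smul_mem' := fun c Y hY => show c.1 (Y.1 w) = 0 by rw [show Y.1 w = 0 from hY, map_zero]

theorem Sys.ann_sub (S : Sys κ H) {w : H} {a b : Alg S.V Aa} (h : a.1 w = b.1 w) :
    a - b ∈ S.ann w := show a.1 w - b.1 w = 0 from sub_eq_zero.2 h

theorem Sys.mul_ap (S : Sys κ H) (a b : Alg S.V Aa) (w : H) : (a * b).1 w = a.1 (b.1 w) := rfl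

theorem Sys.ann_La (S : Sys κ H) {w : H} {a : Alg S.V Aa} {L : H →L[ℂ] H} (hL : L ∈ Alg S.V Aa)
    (h : a ∈ S.ann w) : a ∈ S.ann (L w) := show a.1 (L w) = 0 by
  rw [S.alg_apply_comm a.2 hL, show a.1 w = 0 from h, map_zero]

namespace Atom
variable {S : Sys κ H} {E : Type} [AddCommGroup E] [Fintype E] (A : Atom S E)

/-- a smaller event -/
noncomputable def cut {Y : H →L[ℂ] H} (hp : IsStarProjection Y) (hY : Y ∈ Alg S.V Aa) :
    Atom S E where
  La := A.La * Y
  proj := A.proj.mul hp (S.alg_comm A.mem hY)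
  mem := mul_mem A.mem hY
  x := A.x
  sub := A.sub
  disj := A.disj
  same := fun r r' e => by rw [← mul_assoc, A.same]
  diff := fun r r' e e' h => by rw [← mul_assoc, A.diff r r' e e' h, zero_mul]
  zero := by rw [← mul_assoc, A.zero]
  add := fun r r' r'' e e' h => by rw [← mul_assoc, A.add r r' r'' e e' h]
  cover := fun a ha => A.cover_pat ha (be_noLoop_empty _) (S.mem_univ hY)

noncomputable def bB (p : E × E) (t : ℕ) : Alg S.V Aa :=
  ⟨S.Bk t (A.x 0 p.1) (A.x 2 p.2), S.Bk_mem t (A.sub _ _) (A.sub _ _)⟩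

noncomputable def bp (p : E × E) (t : ℕ) : Alg S.V Aa :=
  ⟨S.Bk t (A.x 0 p.1) ∅, S.Bk_mem t (A.sub _ _) (by simp)⟩

/-- the event that the phase is `z` -/
noncomputable def bP (p : E × E) (z : ℂ) : Alg S.V Aa :=
  ⟨kp (Set.range fun t => (A.bB p t - z • A.bp p t).1), S.kp_mem (by
    rintro _ ⟨t, rfl⟩
    exact (A.bB p t - z • A.bp p t).2)⟩

theorem bP_zero (p : E × E) (z : ℂ) (t : ℕ) : (A.bB p t - z • A.bp p t) * A.bP p z = 0 :=
  Subtype.ext (mul_kp (N := Set.range fun t => (A.bB p t - z • A.bp p t).1) ⟨t, rfl⟩)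

theorem split (hf : A.Full) (p : E × E) {ζ : ℂ} (hζ : IsPrimitiveRoot ζ (Fintype.card E)) :
    (∀ k < Fintype.card E, ∀ k' < Fintype.card E, k ≠ k' →
      A.bP p (ζ ^ k) * A.bP p (ζ ^ k') ∈ S.ann (A.La (S.v ∅))) ∧
    1 - ∑ k ∈ Finset.range (Fintype.card E), A.bP p (ζ ^ k) ∈ S.ann (A.La (S.v ∅)) := by
  have full : ∀ y, (∀ t, A.bp p t * y ∈ S.ann (A.La (S.v ∅))) → y ∈ S.ann (A.La (S.v ∅)) :=
    fun y h => hf p.1 y.1 (S.mem_univ y.2) h
  refine be_alg (S.ann (A.La (S.v ∅))) (A.bB p) (A.bp p) (fun k => A.bP p (ζ ^ k))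
    Fintype.card_pos hζ full (fun t r => full _ fun s => ?_) (fun r => ?_) (fun y m n h => ?_)
    (fun k m h => ?_) fun k t => A.bP_zero p _ t
  · have e : ∀ t, A.bB p t * star (A.bB p s) - A.bp p t * A.bp p s ∈ S.ann (S.v ∅) := fun t =>
      S.ann_sub (by rw [S.mul_ap, S.mul_ap]; exact S.Bk_star t s (A.sub _ _) (A.sub _ _))
    have e1 : A.bp p s * (A.bB p t * A.bp p r - A.bB p r * A.bp p t) ∈ S.ann (S.v ∅) := by
      convert Ideal.sub_mem _ (Ideal.mul_mem_left _ (A.bB p r) (e t))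
        (Ideal.mul_mem_left _ (A.bB p t) (e r)) using 1
      ring
    exact S.ann_La A.mem e1
  · exact S.ann_sub (A.Bk_pow r p.1 (A.sub 2 p.2))
  · exact S.be_pow (S.mem_univ y.2) n h
  · exact S.ann_sub ((kp_apply_eq_iff _ (m.1 (A.La (S.v ∅)))).2 (by rintro _ ⟨t, rfl⟩; exact h t))

end Atom

theorem be_of (hP : PIB) : BE := by
  intro κ H _ _ _ S E _ _ A
  classical
  obtain ⟨x, hx⟩ := be_root (Fintype.card_pos (α := E))
  let R : (E × E → Fin (Fintype.card E)) → Alg S.V Aa := fun φ => ∏ p, A.bP p (ee x ^ (φ p : ℕ))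
  let B : (E × E → Fin (Fintype.card E)) → Atom S E := fun φ =>
    A.cut (S.prod_proj Finset.univ (fun p => A.bP p (ee x ^ (φ p : ℕ))) fun p _ => kp_proj _) (R φ).2
  have hB : ∀ φ u, (B φ).La u = (R φ).1 (A.La u) := fun φ u => S.alg_apply_comm A.mem (R φ).2 u
  have hs := fun p => A.split (A.full hP) p hx
  have hR : ∀ φ p, ∃ M, R φ = A.bP p (ee x ^ (φ p : ℕ)) * M := fun φ p =>
    Finset.dvd_prod_of_mem (fun p => A.bP p (ee x ^ (φ p : ℕ))) (Finset.mem_univ p)
  have hpr : ∀ φ, (B φ).Prop' fun e e' => (φ (e, e') : ℕ) • x := fun φ e e' t => by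
    obtain ⟨M, hM⟩ := hR φ (e, e')
    have e1 : (A.bB (e, e') t - ee x ^ (φ (e, e') : ℕ) • A.bp (e, e') t) * R φ = 0 := by
      rw [hM, ← mul_assoc, A.bP_zero, zero_mul]
    rw [hB, ee_nsmul, ← sub_eq_zero]
    exact congrArg (fun T : Alg S.V Aa => T.1 (A.La (S.v ∅))) e1
  let s := Finset.univ.filter fun φ => (B φ).La (S.v ∅) ≠ 0
  have hbe := fun j : Fin s.card => (hpr (s.equivFin.symm j).1).form ((B _).full hP)
    (Finset.mem_filter.1 (s.equivFin.symm j).2).2
  choose be hbe using hbe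
  refine ⟨s.card, fun j => B (s.equivFin.symm j).1, be, fun j => ?_, fun j j' hj => ?_, ?_, hbe⟩
  · ext u
    rw [ContinuousLinearMap.mul_apply, hB, hB, A.La_La]
  · obtain ⟨p, hp⟩ := Function.ne_iff.1 fun e => hj (s.equivFin.symm.injective (Subtype.ext e))
    obtain ⟨M, hM⟩ := hR (s.equivFin.symm j).1 p
    obtain ⟨M', hM'⟩ := hR (s.equivFin.symm j').1 p
    have e1 : R (s.equivFin.symm j).1 * R (s.equivFin.symm j').1 ∈ S.ann (A.La (S.v ∅)) := by
      convert Ideal.mul_mem_left _ (M * M')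
        ((hs p).1 _ (Fin.is_lt _) _ (Fin.is_lt _) fun e => hp (Fin.ext e)) using 1
      rw [hM, hM']
      ring
    rw [hB, hB, S.alg_apply_comm A.mem (R _).2, A.La_La]
    exact e1
  · rw [s.equivFin.symm.sum_comp fun φ => (B φ.1).La (S.v ∅),
      Finset.sum_coe_sort s fun φ => (B φ).La (S.v ∅), Finset.sum_filter_ne_zero]
    have e1 : ∑ φ, R φ = ∏ p, ∑ k : Fin (Fintype.card E), A.bP p (ee x ^ (k : ℕ)) := by
      rw [Finset.prod_univ_sum, Fintype.piFinset_univ]
    have e2 := S.prod_fix Finset.univ (fun p => ∑ k : Fin (Fintype.card E), A.bP p (ee x ^ (k : ℕ)))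
      (A.La (S.v ∅)) fun p _ => by
        rw [Fin.sum_univ_eq_sum_range fun k => A.bP p (ee x ^ k)]
        exact (sub_eq_zero.1 (hs p).2).symm
    rw [← e1] at e2
    simpa only [hB, AddSubmonoidClass.coe_finset_sum, ContinuousLinearMap.sum_apply] using e2

end NE
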