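import Pool.Agent.Lib.MP_ecee09_co.NE.CA

/-! The phases of rectangles: relations between the block operators. -/

set_option linter.deprecated false

namespace NE

open ComplexConjugate Filter Topology
open scoped InnerProductSpace

variable {κ : Ker} {H : Type} [NormedAddCommGroup H] [InnerProductSpace ℂ H] [CompleteSpace H]

theorem be_rect_empty (a : Finset ℕ) : rect a ∅ = ∅ := by simp [rect]

theorem be_rect_union (a a' z : Finset ℕ) : rect (a ∪ a') z = rect a z ∪ rect a' z :=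
  Finset.image₂_union_left

theorem be_supp_empty (R : Set ℕ) : Supp ∅ R := fun _ h => absurd h (Finset.notMem_empty _)

theorem be_noLoop_empty (R : Set ℕ) : NoLoop ∅ R := fun _ _ => Finset.notMem_empty _

theorem be_supp_rect {a z : Finset ℕ} {R : Set ℕ} (ha : (a : Set ℕ) ⊆ R) (hz : (z : Set ℕ) ⊆ R) :
    Supp (rect a z) R := fun c hc i hi => by
  obtain ⟨x, hx, y, hy, rfl⟩ := mem_rect.1 hc
  rcases Sym2.mem_iff.1 hi with rfl | rfl
  · exact ha hx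
  · exact hz hy

theorem be_loop_rect {a z : Finset ℕ} (h : Disjoint a z) (i : ℕ) : s(i, i) ∉ rect a z := fun hc => by
  obtain ⟨x, hx, y, hy, e⟩ := mem_rect.1 hc
  have : x = i ∧ y = i := by simpa using e
  exact Finset.disjoint_left.1 h (this.1 ▸ hx) (this.2 ▸ hy)

theorem be_off {a W : Finset ℕ} (h1 : Disjoint (a : Set ℕ) Aa) (h2 : Disjoint a W) :
    Disjoint (a : Set ℕ) (Aa ∪ W) := Set.disjoint_union_right.2 ⟨h1, Finset.disjoint_coe.2 h2⟩

namespace Sys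
variable (S : Sys κ H)

/-- a fresh block with the label `c` and the rectangle against `z` -/
noncomputable def Bk (t : ℕ) (c z : Finset ℕ) : H →L[ℂ] H := S.EQ t ∅ c false z

variable {c z : Finset ℕ}

theorem Bk_mem (t : ℕ) (hc : (c : Set ℕ) ⊆ Aa) (hz : (z : Set ℕ) ⊆ Aa) :
    S.Bk t c z ∈ Alg S.V Aa :=
  S.alg_mono (Set.union_subset (Set.union_subset (by simp) hc) hz) (S.EQ_mem t ∅ c false z)

theorem Bk_univ (t : ℕ) (c z : Finset ℕ) : S.Bk t c z ∈ Alg S.V Set.univ :=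
  S.mem_univ (S.EQ_mem t ∅ c false z)

theorem be_up {Y : H →L[ℂ] H} (h : Y ∈ Alg S.V Aa) (W : Finset ℕ) : Y ∈ Alg S.V (Aa ∪ W) :=
  S.alg_mono Set.subset_union_left h

theorem be_up' {Y : H →L[ℂ] H} {W W' : Finset ℕ} (h : Y ∈ Alg S.V (Aa ∪ W)) (h' : W ⊆ W') :
    Y ∈ Alg S.V (Aa ∪ W') := S.alg_mono (Set.union_subset_union_right _ h') h

theorem be_Q {a W : Finset ℕ} (h : a ⊆ W) (hc : (c : Set ℕ) ⊆ Aa) : S.Q a c ∈ Alg S.V (Aa ∪ W) :=
  S.alg_mono (Set.union_subset ((Finset.coe_subset.2 h).trans Set.subset_union_right)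
    (hc.trans Set.subset_union_left)) (S.Q_mem _ _)

theorem integ {W a : Finset ℕ} (h1 : Disjoint (a : Set ℕ) Aa) (h2 : Disjoint a W)
    (hc : (c : Set ℕ) ⊆ Aa) (hz : (z : Set ℕ) ⊆ Aa) {Y : H →L[ℂ] H} (hY : Y ∈ Alg S.V (Aa ∪ W))
    {P P' : Pat} (hP : Supp P (Aa ∪ W)) (hP' : Supp P' (Aa ∪ W)) :
    ⟪S.v P', S.Q a c (Y (S.v (P ∪ rect a z)))⟫_ℂ = ⟪S.v P', S.Bk a.card c z (Y (S.v P))⟫_ℂ := by
  have := S.inner_EQ (y := ∅) (compl_Aa_infinite W) (be_off h1 h2) (by simp)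
    (hc.trans Set.subset_union_left) (hz.trans Set.subset_union_left) hY hP hP' false
  simpa [Bk] using this

theorem integ0 {W a : Finset ℕ} (h1 : Disjoint (a : Set ℕ) Aa) (h2 : Disjoint a W)
    (hc : (c : Set ℕ) ⊆ Aa) {Y : H →L[ℂ] H} (hY : Y ∈ Alg S.V (Aa ∪ W)) :
    ⟪S.v ∅, S.Q a c (Y (S.v ∅))⟫_ℂ = ⟪S.v ∅, S.Bk a.card c ∅ (Y (S.v ∅))⟫_ℂ := by
  have := S.integ (z := ∅) h1 h2 hc (by simp) hY (be_supp_empty _) (be_supp_empty _)
  simpa [be_rect_empty] using this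

theorem integ' {W a : Finset ℕ} (h1 : Disjoint (a : Set ℕ) Aa) (h2 : Disjoint a W)
    (hc : (c : Set ℕ) ⊆ Aa) (hz : (z : Set ℕ) ⊆ Aa) {Y : H →L[ℂ] H} (hY : Y ∈ Alg S.V (Aa ∪ W))
    {P P' : Pat} (hP : Supp P (Aa ∪ W)) (hP' : Supp P' (Aa ∪ W)) :
    ⟪S.v (P' ∪ rect a z), S.Q a c (Y (S.v P))⟫_ℂ =
      ⟪S.v P', star (S.Bk a.card c z) (Y (S.v P))⟫_ℂ := by
  have h := S.integ h1 h2 hc hz (star_mem hY) hP' hP
  have e1 : ∀ (T : H →L[ℂ] H) (u w : H), ⟪u, star T w⟫_ℂ = ⟪T u, w⟫_ℂ := fun T u w =>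
    ContinuousLinearMap.adjoint_inner_right T u w
  rw [S.alg_apply_comm (S.Q_mem _ _) (star_mem hY), S.alg_apply_comm (S.Bk_univ _ _ _) (star_mem hY),
    e1, e1] at h
  rw [e1, ← inner_conj_symm (S.Bk _ _ _ _), ← h, inner_conj_symm, ← e1,
    (S.Q_proj a c).isSelfAdjoint.star_eq]

/-- (I1) -/
theorem Bk_star (t s : ℕ) (hc : (c : Set ℕ) ⊆ Aa) (hz : (z : Set ℕ) ⊆ Aa) :
    S.Bk t c z (star (S.Bk s c z) (S.v ∅)) = S.Bk t c ∅ (S.Bk s c ∅ (S.v ∅)) := by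
  obtain ⟨a, rfl, ha, -⟩ := exists_block t ∅
  obtain ⟨a', rfl, ha', hd⟩ := exists_block s a
  have h0 : ((∅ : Finset ℕ) : Set ℕ) ⊆ Aa := by simp
  have m1 := S.Bk_mem a.card hc hz
  have m2 := star_mem (S.Bk_mem a'.card hc hz)
  have m3 := S.Bk_mem a.card hc h0
  have m4 := S.Bk_mem a'.card hc h0
  rw [← sub_eq_zero]
  refine S.alg_ext0 (sub_mem (mul_mem m1 m2) (mul_mem m3 m4)) (S.v ∅) fun Z hZ => ?_
  have hq : S.Q a c * Z ∈ Alg S.V (Aa ∪ a) := mul_mem (S.be_Q subset_rfl hc) (S.be_up hZ a)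
  have hr : Supp (rect a z) (Aa ∪ a) :=
    be_supp_rect Set.subset_union_right (hz.trans Set.subset_union_left)
  have e1 := S.integ ha (Finset.disjoint_empty_right a) hc hz (S.be_up (mul_mem m2 hZ) ∅)
    (be_supp_empty _) (be_supp_empty _)
  have e2 := S.integ' ha' hd hc hz hq hr (be_supp_empty _)
  have e3 := S.Q_rect (P := ∅) (disj_of_Aa ha hz).symm (disj_of_Aa ha' hz).symm
    (Finset.disjoint_empty_left _) (be_noLoop_empty _)
  have e4 := S.sd_union (compl_Aa_infinite (a ∪ a'))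
    (mul_mem (S.be_Q Finset.subset_union_right hc) (S.be_up' hq Finset.subset_union_left)) ∅ ∅
    (rect a' z) (Finset.disjoint_empty_right _) (Finset.disjoint_empty_right _)
    (fun i _ => be_loop_rect (disj_of_Aa ha' hz) i)
    fun i hi => absurd hi (be_loop_rect (disj_of_Aa ha' hz) i)
  have e5 := S.integ0 ha' hd hc hq
  have e6 := S.integ0 ha (Finset.disjoint_empty_right a) hc (S.be_up (mul_mem m4 hZ) ∅)
  have e7 : ∀ u, S.Q a' c (S.Q a c (Z u)) = S.Q a' c (S.Q a c (Z (S.Q a a' u))) := fun u => by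
    rw [S.alg_apply_comm hZ (S.Q_mem a a'), S.Q_comm a c a a', S.Q_comm a' c a a']
    refine (S.Q_fix_trans (y := c) ?_ (S.Q_fix_symm (S.Q_Q _ _ _))).symm
    rw [S.Q_comm a' c, S.Q_Q]
  simp only [ContinuousLinearMap.mul_apply, Finset.empty_union, rect_comm z] at e1 e2 e3 e4 e5 e6
  simp only [ContinuousLinearMap.sub_apply, ContinuousLinearMap.mul_apply, inner_sub_right]
  rw [← e1, S.alg_apply_comm (S.Q_mem a c) m2, ← e2, e7, e3, ← e7, e4, e5, ← e6,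
    S.alg_apply_comm (S.Q_mem a c) m4, sub_self]

theorem be_sq {Y : H →L[ℂ] H} (hY : Y ∈ Alg S.V Set.univ) {u : H} (h : Y (Y u) = 0) : Y u = 0 := by
  have h1 : star Y (Y u) = 0 := by rw [← norm_eq_zero, S.norm_star_alg hY, h, norm_zero]
  rw [← inner_self_eq_zero (𝕜 := ℂ), ← ContinuousLinearMap.adjoint_inner_right]
  exact (congrArg (fun w => ⟪u, w⟫_ℂ) h1).trans (inner_zero_right _)

theorem be_pow {Y : H →L[ℂ] H} (hY : Y ∈ Alg S.V Set.univ) {u : H} (n : ℕ)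
    (h : (Y ^ (n + 1)) u = 0) : Y u = 0 := by
  induction n with
  | zero => simpa using h
  | succ n ih =>
    refine ih ?_
    rw [pow_succ', pow_succ'] at h
    rw [pow_succ']
    exact S.be_sq hY h

end Sys

namespace Atom
variable {S : Sys κ H} {E : Type} [AddCommGroup E] [Fintype E] (A : Atom S E)

/-- `n` blocks of size `r` with the label `e` -/
theorem blocks (r : ℕ) (e : E) (n : ℕ) : ∃ (a : Finset ℕ) (Y : H →L[ℂ] H),
    Disjoint (a : Set ℕ) Aa ∧ Y ∈ Alg S.V (Aa ∪ a) ∧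
    (∀ u, S.Q a (A.x 0 (n • e)) (Y (A.La u)) = Y (A.La u)) ∧
    ∀ z : Finset ℕ, (z : Set ℕ) ⊆ Aa → ∀ Z ∈ Alg S.V Aa,
      ⟪S.v ∅, Y (Z (S.v (rect a z)))⟫_ℂ = ⟪S.v ∅, (S.Bk r (A.x 0 e) z ^ n) (Z (S.v ∅))⟫_ℂ := by
  induction n with
  | zero =>
    refine ⟨∅, 1, by simp, one_mem _, fun u => ?_, fun z _ Z _ => by simp [rect]⟩
    rw [zero_smul]
    exact S.Q_fix_symm (A.zero_fix (A.La_La u))
  | succ n ih =>
    obtain ⟨a, Y, ha, hY, h1, h2⟩ := ih
    obtain ⟨a', rfl, ha', hd⟩ := exists_block r a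
    refine ⟨a ∪ a', S.Q a' (A.x 0 e) * Y, by simp [ha, ha'],
      mul_mem (S.be_Q Finset.subset_union_right (A.sub 0 e)) (S.be_up' hY Finset.subset_union_left),
      fun u => ?_, fun z hz Z hZ => ?_⟩
    · rw [succ_nsmul]
      refine A.label_add ?_ ha ha' hd.symm ?_ (S.Q_Q _ _ _)
      · rw [ContinuousLinearMap.mul_apply, A.La_Q, S.alg_apply_comm A.mem hY, A.La_La]
      · rw [ContinuousLinearMap.mul_apply, S.Q_comm, h1]
    · have m := S.Bk_mem a'.card (A.sub 0 e) hz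
      have e1 := S.integ ha' hd (A.sub 0 e) hz (mul_mem hY (S.be_up hZ a))
        (be_supp_rect Set.subset_union_right (hz.trans Set.subset_union_left)) (be_supp_empty _)
      have e2 := h2 z hz _ (mul_mem m hZ)
      simp only [ContinuousLinearMap.mul_apply] at e1 e2 ⊢
      rw [be_rect_union, e1, S.alg_apply_comm m hY, e2, pow_succ]
      rfl

/-- (I2) -/
theorem Bk_pow (r : ℕ) (e : E) {z : Finset ℕ} (hz : (z : Set ℕ) ⊆ Aa) :
    (S.Bk r (A.x 0 e) z ^ Fintype.card E) (A.La (S.v ∅)) =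
      (S.Bk r (A.x 0 e) ∅ ^ Fintype.card E) (A.La (S.v ∅)) := by
  obtain ⟨a, Y, ha, hY, h1, h2⟩ := A.blocks r e (Fintype.card E)
  have h0 : ((∅ : Finset ℕ) : Set ℕ) ⊆ Aa := by simp
  rw [card_nsmul_eq_zero] at h1
  rw [← sub_eq_zero]
  refine S.alg_ext0 (mul_mem (sub_mem (pow_mem (S.Bk_mem r (A.sub 0 e) hz) _)
    (pow_mem (S.Bk_mem r (A.sub 0 e) h0) _)) A.mem) (S.v ∅) fun Z hZ => ?_
  have e1 := h2 z hz _ (mul_mem A.mem hZ)
  have e2 := h2 ∅ h0 _ (mul_mem A.mem hZ)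
  have e3 := S.Q_rect (P := ∅) (disj_of_Aa ha hz).symm (Finset.disjoint_empty_right z)
    (Finset.disjoint_empty_left _) (be_noLoop_empty _)
  have e4 : ∀ u, Y (A.La (Z u)) = Y (A.La (Z (S.Q a ∅ u))) := fun u => by
    rw [S.alg_apply_comm hZ (S.Q_mem _ _), A.La_Q, S.alg_apply_comm hY (S.Q_mem _ _)]
    refine (S.Q_fix_trans (h1 _) (A.zero_fix ?_)).symm
    rw [S.alg_apply_comm A.mem hY, A.La_La]
  simp only [ContinuousLinearMap.mul_apply, Finset.empty_union, be_rect_empty, rect_comm z a]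
    at e1 e2 e3
  simp only [ContinuousLinearMap.sub_apply, ContinuousLinearMap.mul_apply, inner_sub_right]
  rw [← e1, ← e2, e4, e3, ← e4, sub_self]

/-- blocks of every label exist on every nonzero vector -/
def Full : Prop := ∀ (e : E), ∀ Y ∈ Alg S.V Set.univ,
  (∀ t, S.Bk t (A.x 0 e) ∅ (Y (A.La (S.v ∅))) = 0) → Y (A.La (S.v ∅)) = 0

theorem full (h : PIB) : A.Full := fun e Y hY h0 => by
  have h1 := (Y.continuous.tendsto _).comp (h κ H S E A e)
  have h2 : (Y ∘ fun n => S.Pib n ∅ (A.x 0 e) (A.La (S.v ∅))) = fun _ => 0 := funext fun n => by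
    simp only [Function.comp, Sys.Pib, Sys.avs, ContinuousLinearMap.smul_apply,
      ContinuousLinearMap.sum_apply, map_smul, map_sum]
    rw [Finset.sum_eq_zero, smul_zero]
    exact fun t _ => (S.alg_apply_comm hY (S.Bk_univ _ _ _) _).trans (h0 _)
  rw [h2] at h1
  have h3 := tendsto_nhds_unique h1 tendsto_const_nhds
  rw [map_smul, smul_eq_zero] at h3
  exact h3.resolve_left (inv_ne_zero (Nat.cast_ne_zero.2 Fintype.card_ne_zero))

end Atom

end NE
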