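import Pool.Agent.Lib.MP_ecee09_co.NE.BEa

/-! The phases of rectangles on an atom where the block operators are proportional. -/

set_option linter.deprecated false

namespace NE

open ComplexConjugate Filter Topology
open scoped InnerProductSpace

variable {κ : Ker} {H : Type} [NormedAddCommGroup H] [InnerProductSpace ℂ H] [CompleteSpace H]

theorem Sys.be_phase (S : Sys κ H) {R : Set ℕ} (hR : Rᶜ.Infinite) {Y : H →L[ℂ] H}
    (hp : IsStarProjection Y) (hY : Y ∈ Alg S.V R) {W P : Pat} {z : ℂ} (hz : ‖z‖ = 1)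
    (hW : Supp W R) (hW' : ∀ i, s(i, i) ∉ W) (hP : NoLoop P R) (hd : Disjoint P W)
    (h : ⟪S.v ∅, Y (S.v W)⟫_ℂ = z * ⟪S.v ∅, Y (S.v ∅)⟫_ℂ) :
    Y (S.v (P ∪ W)) = z • Y (S.v P) := by
  have n1 : ‖Y (S.v (P ∪ W))‖ = ‖Y (S.v ∅)‖ := S.norm_alg_v hR hY fun i hi h =>
    (Finset.mem_union.1 h).elim (hP i hi) (hW' i)
  have n2 := S.norm_alg_v hR hY hP
  refine eq_of_inner hz (n1.trans n2.symm).le ?_
  have := S.sd_union hR hY W ∅ P hd (Finset.disjoint_empty_right _) hP fun i hi =>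
    ⟨fun c hc hi' => hP i (hW c hc i hi') hi, fun c hc => absurd hc (Finset.notMem_empty _)⟩
  rw [Finset.empty_union, Finset.union_comm] at this
  rw [← proj_inner hp, this, h, proj_inner_self hp, n2]

namespace Atom
variable {S : Sys κ H} {E : Type} [AddCommGroup E] [Fintype E] (A : Atom S E)

/-- the block operators are proportional -/
def Prop' (g : E → E → TT) : Prop := ∀ e e' t,
  S.Bk t (A.x 0 e) (A.x 2 e') (A.La (S.v ∅)) = ee (g e e') • S.Bk t (A.x 0 e) ∅ (A.La (S.v ∅))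

variable {A} {g : E → E → TT}

theorem LQ_proj (a : Finset ℕ) (e : E) : IsStarProjection (A.La * S.Q a (A.x 0 e)) :=
  A.proj.mul (S.Q_proj _ _) (S.alg_comm A.mem (S.Q_mem _ _))

/-- (b1) -/
theorem Prop'.b1 (h : A.Prop' g) {a : Finset ℕ} (ha : Disjoint (a : Set ℕ) Aa) (e e' : E) :
    A.La (S.Q a (A.x 0 e) (S.v (rect a (A.x 2 e')))) =
      ee (g e e') • A.La (S.Q a (A.x 0 e) (S.v ∅)) := by
  have := S.be_phase (compl_Aa_infinite a) (LQ_proj (A := A) a e)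
    (mul_mem (A.La_mem _) (A.Qx_mem a 0 e)) (W := rect a (A.x 2 e')) (P := ∅) (norm_ee (g e e'))
    (be_supp_rect Set.subset_union_right ((A.sub 2 e').trans Set.subset_union_left))
    (be_loop_rect (disj_of_Aa ha (A.sub 2 e'))) (be_noLoop_empty _) (Finset.disjoint_empty_left _)
    (by
      have e1 := S.integ ha (Finset.disjoint_empty_right a) (A.sub 0 e) (A.sub 2 e')
        (S.be_up A.mem ∅) (be_supp_empty _) (be_supp_empty _)
      have e2 := S.integ0 ha (Finset.disjoint_empty_right a) (A.sub 0 e) (S.be_up A.mem ∅)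
      rw [Finset.empty_union] at e1
      simp only [ContinuousLinearMap.mul_apply, A.La_Q]
      rw [e1, e2, h, inner_smul_right])
  simpa only [Finset.empty_union, ContinuousLinearMap.mul_apply] using this

theorem Prop'.rct (h : A.Prop' g) (a b : Finset ℕ) (e e' : E) (P : Pat)
    (ha : Disjoint (a : Set ℕ) Aa) (_hb : Disjoint (b : Set ℕ) Aa) (hab : Disjoint a b)
    (hP : Disjoint P (rect a b)) (hl : NoLoop P (Aa ∪ a ∪ b)) :
    A.La (S.Q a (A.x 0 e) (S.Q b (A.x 0 e') (S.v (P ∪ rect a b)))) =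
      ee (g e e') • A.La (S.Q a (A.x 0 e) (S.Q b (A.x 0 e') (S.v P))) := by
  have hm : A.La * S.Q a (A.x 0 e) ∈ Alg S.V (Aa ∪ a) := mul_mem (A.La_mem _) (A.Qx_mem a 0 e)
  rw [Set.union_assoc, ← Finset.coe_union] at hl
  refine S.be_phase (compl_Aa_infinite (a ∪ b))
    ((LQ_proj (A := A) a e).mul (S.Q_proj b (A.x 0 e')) (S.alg_comm hm (S.Q_mem _ _)))
    (mul_mem (S.be_up' hm Finset.subset_union_left) (S.be_Q Finset.subset_union_right (A.sub 0 e')))
    (norm_ee (g e e')) (be_supp_rect (by intro i hi; simp [Finset.mem_coe.1 hi])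
      (by intro i hi; simp [Finset.mem_coe.1 hi])) (be_loop_rect hab) hl hP ?_
  have e3 := S.Q_rect (P := ∅) hab (disj_of_Aa ha (A.sub 2 e'))
    (Finset.disjoint_empty_left _) (be_noLoop_empty _)
  have e4 : ∀ u, A.La (S.Q a (A.x 0 e) (S.Q b (A.x 0 e') u)) =
      A.La (S.Q a (A.x 0 e) (S.Q b (A.x 0 e') (S.Q b (A.x 2 e') u))) := fun u => by
    rw [S.Q_comm b (A.x 0 e') b, S.Q_comm a _ b (A.x 2 e'), A.La_Q b]
    refine (S.Q_fix_trans ?_ (A.same_fix (A.La_La _) 0 2 e')).symm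
    rw [← A.La_Q, S.Q_comm b _ a, S.Q_Q]
  simp only [Finset.empty_union] at e3
  simp only [ContinuousLinearMap.mul_apply]
  rw [e4, e3, ← e4, S.Q_comm a, A.La_Q b, h.b1 ha, map_smul, inner_smul_right, ← A.La_Q b,
    S.Q_comm b]

/-- one more labelled block -/
theorem Full.block (h : A.Full) {W : Finset ℕ} {Y : H →L[ℂ] H} (hY : Y ∈ Alg S.V (Aa ∪ W))
    (h0 : Y (A.La (S.v ∅)) ≠ 0) (e : E) : ∃ a : Finset ℕ, Disjoint (a : Set ℕ) Aa ∧ Disjoint a W ∧
      S.Q a (A.x 0 e) (Y (A.La (S.v ∅))) ≠ 0 := by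
  obtain ⟨t, ht⟩ := not_forall.1 (mt (h e Y (S.mem_univ hY)) h0)
  obtain ⟨a, rfl, ha, hd⟩ := exists_block t W
  refine ⟨a, ha, hd, fun h1 => ht ?_⟩
  have hm := mul_mem hY (S.be_up A.mem W)
  refine S.alg_ext0 (mul_mem (S.be_up (S.Bk_mem a.card (A.sub 0 e) (z := ∅) (by simp)) W) hm)
    (S.v ∅) fun Z hZ => ?_
  have e1 := S.integ0 ha hd (A.sub 0 e) (mul_mem hm hZ)
  have e2 := S.alg_apply_comm (mul_mem (S.mem_univ (S.Q_mem a (A.x 0 e))) (S.mem_univ hm)) hZ (S.v ∅)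
  simp only [ContinuousLinearMap.mul_apply] at e1 e2 ⊢
  rw [← e1, e2, h1, map_zero, inner_zero_right]

theorem Prop'.symm (h : A.Prop' g) (hf : A.Full) (h0 : A.La (S.v ∅) ≠ 0) (e e' : E) :
    g e e' = g e' e := by
  obtain ⟨b, hb, -, h1⟩ := hf.block (W := ∅) (one_mem _) h0 e'
  obtain ⟨a, ha, hab, h2⟩ := hf.block (W := b) (A.Qx_mem b 0 e') h1 e
  have e1 := h.rct a b e e' ∅ ha hb hab (Finset.disjoint_empty_left _) (be_noLoop_empty _)
  have e2 := h.rct b a e' e ∅ hb ha hab.symm (Finset.disjoint_empty_left _) (be_noLoop_empty _)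
  rw [rect_comm b, S.Q_comm b, S.Q_comm b, e1, A.La_Q, A.La_Q] at e2
  exact ee_inj (smul_left_injective ℂ h2 e2)

theorem Prop'.add (h : A.Prop' g) (hf : A.Full) (h0 : A.La (S.v ∅) ≠ 0) (e e' f : E) :
    g (e + e') f = g e f + g e' f := by
  obtain ⟨b, hb, -, h1⟩ := hf.block (W := ∅) (one_mem _) h0 f
  obtain ⟨a', ha', hab', h2⟩ := hf.block (W := b) (A.Qx_mem b 0 f) h1 e'
  obtain ⟨a, ha, hd, h3⟩ := hf.block (W := a' ∪ b)
    (mul_mem (S.be_Q Finset.subset_union_left (A.sub 0 e'))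
      (S.be_Q Finset.subset_union_right (A.sub 0 f))) h2 e
  obtain ⟨haa, hab⟩ := Finset.disjoint_union_right.1 hd
  have e1 := h.rct (a ∪ a') b (e + e') f ∅ (by simp [ha, ha']) hb (by simp [hab, hab'])
    (Finset.disjoint_empty_left _) (be_noLoop_empty _)
  have e2 := h.rct a' b e' f ∅ ha' hb hab' (Finset.disjoint_empty_left _) (be_noLoop_empty _)
  have e3 := h.rct a b e f (rect a' b) ha hb hab (Finset.disjoint_left.2 fun c h1 h2 => by
    obtain ⟨x, hx, y, hy, rfl⟩ := mem_rect.1 h1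
    obtain ⟨x', hx', y', hy', e⟩ := mem_rect.1 h2
    rcases Sym2.eq_iff.1 e with ⟨rfl, -⟩ | ⟨rfl, -⟩
    · exact Finset.disjoint_left.1 haa hx' hx
    · exact Finset.disjoint_left.1 hab hx' hy) fun i _ => be_loop_rect hab' i
  have e4 : ∀ u, S.Q a (A.x 0 e) (S.Q a' (A.x 0 e') (A.La (S.Q (a ∪ a') (A.x 0 (e + e')) u))) =
      S.Q a (A.x 0 e) (S.Q a' (A.x 0 e') (A.La u)) := fun u => by
    rw [A.La_Q, S.Q_comm a' _ (a ∪ a'), S.Q_comm a _ (a ∪ a')]
    refine A.label_add ?_ ha ha' haa (S.Q_Q _ _ _) ?_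
    · rw [A.La_Q, A.La_Q, A.La_La]
    · rw [S.Q_comm a' _ a, S.Q_Q]
  have e5 := congrArg (fun u => S.Q a (A.x 0 e) (S.Q a' (A.x 0 e') u)) e1
  have e6 := congrArg (fun u => S.Q a' (A.x 0 e') u) e3
  have e7 := congrArg (fun u => S.Q a (A.x 0 e) u) e2
  simp only [map_smul, e4] at e5
  simp only [map_smul, Finset.empty_union, A.La_Q, S.Q_comm a' _ a] at e5 e6 e7
  rw [be_rect_union, Finset.union_comm, e6, e7, smul_smul, ← ee_add] at e5
  exact (ee_inj (smul_left_injective ℂ h3 e5)).symm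

theorem Prop'.nd (h : A.Prop' g) (h0 : A.La (S.v ∅) ≠ 0) {e : E} (he : ∀ e', g e' e = 0) :
    e = 0 := by
  obtain ⟨a, hc, ha, -⟩ := exists_block 1 ∅
  obtain ⟨i, rfl⟩ := Finset.card_eq_one.1 hc
  have hx := A.sub 2 e
  have e1 := A.cover_pat ha (P := rect {i} (A.x 2 e)) (fun j _ => be_loop_rect (disj_of_Aa ha hx) j)
    (one_mem _)
  have e2 : A.La (S.v (rect {i} (A.x 2 e))) = A.La (S.v ∅) := by
    rw [← A.cover _ ha]
    refine e1.symm.trans (Finset.sum_congr rfl fun e' _ => ?_)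
    have := h.b1 ha e' e
    rw [he, ee_zero, one_smul, A.La_Q, A.La_Q] at this
    exact this
  obtain ⟨f, hf, hi⟩ := exists_fix compl_Aa_inf {i} ha
  have hm : (A.x 2 e).map f = A.x 2 e := by
    ext j
    simp only [Finset.mem_map]
    exact ⟨fun ⟨k, hk, e⟩ => e ▸ (hf k (hx hk)).symm ▸ hk, fun hj => ⟨j, hj, hf j (hx hj)⟩⟩
  have ho := off_rect hi (A.x 2 e)
  have e3 : S.G (A.x 2 e) ∅ (A.La (S.v ∅)) = A.La (S.v ∅) := by
    have c1 := congrArg (fun T : H →L[ℂ] H => T (S.v ∅)) (S.alg_V A.mem hf ho)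
    have c2 := congrArg (fun T : H →L[ℂ] H => T (S.v ∅)) (S.alg_V A.mem hf (off_empty f))
    have c3 := congrArg (fun T : H →L[ℂ] H => T (A.La (S.v ∅))) (S.V_iso f ∅ (off_empty f))
    simp only [ContinuousLinearMap.mul_apply, S.V_v0, S.V_v f _ _ ho] at c1 c2 c3
    rw [S.G_eq (i := i) (f := f) fun j => by simpa using hi j, hm, Finset.map_empty, be_rect_empty,
      ContinuousLinearMap.mul_apply, ← c1, show pmap f ∅ = ∅ from rfl, Finset.empty_union, e2]
    conv_lhs => rw [c2]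
    exact c3
  have e4 : S.Q (A.x 2 e) ∅ (A.La (S.v ∅)) = A.La (S.v ∅) :=
    (kp_apply_eq_iff _ _).2 fun n hn => by
      rw [Set.mem_singleton_iff.1 hn, ContinuousLinearMap.sub_apply, e3]; simp
  by_contra hne
  exact h0 (A.eq_zero_of_labels (A.La_La _) hne (S.Q_fix_symm e4)
    (S.Q_fix_symm (A.zero_fix (A.La_La _))))

theorem Prop'.form (h : A.Prop' g) (hf : A.Full) (h0 : A.La (S.v ∅) ≠ 0) :
    ∃ be : E →+ E →+ TT, (∀ x y, be x y = be y x) ∧ (∀ x, be x = 0 → x = 0) ∧ A.Rect be :=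
  ⟨AddMonoidHom.mk' (fun e => AddMonoidHom.mk' (g e) fun f f' => by
      rw [h.symm hf h0, h.add hf h0, h.symm hf h0 f, h.symm hf h0 f'])
    fun e e' => AddMonoidHom.ext (h.add hf h0 e e'), h.symm hf h0,
    fun x hx => h.nd h0 fun e' => (h.symm hf h0 e' x).trans (DFunLike.congr_fun hx e'), h.rct⟩

end Atom

end NE
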