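import Pool.Agent.Lib.MP_ecee09_co.SD.BSG
import Pool.Agent.Lib.MP_ecee09_co.SD.Base

/-! Freiman-Ruzsa theorem in abelian groups of bounded exponent (Ruzsa's covering argument), and
its combination with the Balog-Szemeredi-Gowers theorem. -/

namespace NE

open SD Finset
open scoped Pointwise

section grp
variable {X : Type} [AddCommGroup X] {J : ℕ}

lemma card_closure_le (hJ : 0 < J) (hX : ∀ x : X, J • x = 0) (F : Finset X) :
    Nat.card (AddSubgroup.closure (F : Set X)) ≤ J ^ F.card := by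
  have hs : Function.Surjective fun c : F → Fin J =>
      (⟨∑ f : F, (c f : ℕ) • (f : X), AddSubgroup.sum_mem _ fun f _ =>
        AddSubgroup.nsmul_mem _ (AddSubgroup.subset_closure f.2) _⟩ :
          AddSubgroup.closure (F : Set X)) := by
    rintro ⟨x, hx⟩
    have hx' : x ∈ Submodule.span ℤ (F : Set X) := by
      rw [← Submodule.mem_toAddSubgroup, Submodule.span_int_eq_addSubgroupClosure]
      exact hx
    obtain ⟨a, rfl⟩ := Submodule.mem_span_finset'.1 hx'
    have hJ' : (0 : ℤ) < J := by exact_mod_cast hJ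
    refine ⟨fun f => ⟨(a f % J).toNat, ?_⟩, Subtype.ext (Finset.sum_congr rfl fun f _ => ?_)⟩
    · have := Int.emod_lt_of_pos (a f) hJ'
      have := Int.emod_nonneg (a f) hJ'.ne'
      omega
    · change (a f % J).toNat • (f : X) = a f • (f : X)
      rw [← natCast_zsmul, Int.toNat_of_nonneg (Int.emod_nonneg _ hJ'.ne'), Int.emod_def,
        sub_smul, mul_comm, mul_smul, natCast_zsmul, hX, smul_zero, sub_zero]
  have h := Nat.card_le_card_of_surjective _ hs
  rwa [Nat.card_fun, Nat.card_fin, Nat.card_eq_finsetCard] at h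

/-- Ruzsa: a small difference set generates a small subgroup. -/
theorem ruzsa_closure [Finite X] [DecidableEq X] (hJ : 0 < J) (hX : ∀ x : X, J • x = 0)
    (B : Finset X) (hB : B.Nonempty) (K : ℝ) (hK : ((B - B).card : ℝ) ≤ K * B.card) :
    (Nat.card (AddSubgroup.closure (B : Set X)) : ℝ) ≤ J ^ (⌊K ^ 4⌋₊) * K * B.card := by
  classical
  have hBpos : (0 : ℝ) < B.card := by exact_mod_cast hB.card_pos
  have hP := Finset.pluennecke_ruzsa_inequality_nsmul_sub_nsmul_sub hB B 3 1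
  have hP' : ((3 • B - 1 • B).card : ℝ) ≤ K ^ 4 * B.card := by
    have h1 : ((3 • B - 1 • B).card : ℝ) ≤ (((B - B).card : ℝ) / B.card) ^ (3 + 1) * B.card := by
      have := (NNRat.cast_le (K := ℝ)).2 hP
      push_cast at this
      exact this
    refine h1.trans ?_
    have h2 : ((B - B).card : ℝ) / B.card ≤ K := by
      rw [div_le_iff₀ hBpos]; exact hK
    have h3 : (((B - B).card : ℝ) / B.card) ^ (3 + 1) ≤ K ^ 4 :=
      pow_le_pow_left₀ (by positivity) h2 _
    exact mul_le_mul_of_nonneg_right h3 hBpos.le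
  have hE : (B + B - B) + B = 3 • B - 1 • B := by
    rw [show (3 : ℕ) = 1 + 1 + 1 from rfl, succ_nsmul, succ_nsmul, one_nsmul, sub_eq_add_neg,
      sub_eq_add_neg, add_right_comm]
  obtain ⟨F, -, hF, hcov⟩ := Finset.ruzsa_covering_add (A := B + B - B) (K := K ^ 4) hB
    (by rw [hE]; exact hP')
  set W := AddSubgroup.closure (F : Set X) with hW
  have hWfin : (W : Set X).Finite := Set.toFinite _
  set S : Finset X := hWfin.toFinset + (B - B) with hS
  have hmemS : ∀ x, x ∈ S ↔ ∃ w ∈ W, ∃ d ∈ B - B, w + d = x := by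
    intro x
    simp [hS, Finset.mem_add]
  have hstep : ∀ x ∈ AddSubgroup.closure (B : Set X), ∀ s ∈ S, s + x ∈ S := by
    intro x hx
    induction hx using AddSubgroup.closure_induction with
    | mem b hb =>
      intro s hs
      obtain ⟨w, hw, d, hd, rfl⟩ := (hmemS s).1 hs
      obtain ⟨b1, hb1, b2, hb2, rfl⟩ := Finset.mem_sub.1 hd
      have h1 : b + b1 - b2 ∈ B + B - B :=
        Finset.sub_mem_sub (Finset.add_mem_add hb hb1) hb2
      obtain ⟨f, hf, d', hd', he⟩ := Finset.mem_add.1 (hcov h1)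
      refine (hmemS _).2 ⟨w + f, W.add_mem hw (AddSubgroup.subset_closure hf), d', hd', ?_⟩
      rw [add_assoc, he]; abel
    | zero => intro s hs; simpa using hs
    | add x y _ _ hx hy =>
      intro s hs
      rw [← add_assoc]; exact hy _ (hx _ hs)
    | neg x _ hx =>
      intro s hs
      have h1 : ∀ n : ℕ, s + n • x ∈ S := fun n => by
        induction n with
        | zero => simpa using hs
        | succ n ih => rw [succ_nsmul, ← add_assoc]; exact hx _ ih
      have h2 : -x = (J - 1) • x := by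
        rw [neg_eq_iff_add_eq_zero, add_comm, ← succ_nsmul, Nat.sub_add_cancel hJ, hX]
      rw [h2]
      exact h1 _
  obtain ⟨b0, hb0⟩ := hB
  have h0 : (0 : X) ∈ S :=
    (hmemS _).2 ⟨0, W.zero_mem, b0 - b0, Finset.sub_mem_sub hb0 hb0, by simp⟩
  have hsub : ((AddSubgroup.closure (B : Set X) : AddSubgroup X) : Set X) ⊆ (S : Set X) := by
    intro x hx
    simpa using hstep x hx 0 h0
  have h1 : Nat.card (AddSubgroup.closure (B : Set X)) ≤ S.card := by
    have := Set.ncard_le_ncard hsub S.finite_toSet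
    rw [Set.ncard_coe_finset] at this
    exact this
  have h2 : S.card ≤ hWfin.toFinset.card * (B - B).card := Finset.card_add_le
  have h3 : hWfin.toFinset.card ≤ J ^ (⌊K ^ 4⌋₊) := by
    have h4 : hWfin.toFinset.card = Nat.card W := by
      rw [← Set.ncard_eq_toFinset_card _ hWfin]; rfl
    rw [h4]
    exact (card_closure_le hJ hX F).trans (Nat.pow_le_pow_right hJ (Nat.le_floor hF))
  have h5 : (Nat.card (AddSubgroup.closure (B : Set X)) : ℝ)
      ≤ (J : ℝ) ^ (⌊K ^ 4⌋₊) * (B - B).card := by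
    exact_mod_cast (h1.trans h2).trans (Nat.mul_le_mul_right _ h3)
  refine h5.trans ?_
  rw [mul_assoc]
  exact mul_le_mul_of_nonneg_left hK (by positivity)

end grp

/-- Large additive energy gives a subgroup of comparable size holding a positive part of the
set. -/
theorem bf_grp (J : ℕ) (hJ : 0 < J) (c : ℝ) (hc : 0 < c) : ∃ C : ℝ, 1 ≤ C ∧
    ∀ (X : Type) [AddCommGroup X] [Finite X] [DecidableEq X], (∀ x : X, J • x = 0) →
      ∀ A : Finset X, A.Nonempty → c * (A.card : ℝ) ^ 3 ≤ Finset.addEnergy A A →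
        ∃ (H : AddSubgroup X) (B : Finset X), B ⊆ A ∧ (∀ b ∈ B, b ∈ H) ∧
          (Nat.card H : ℝ) ≤ C * A.card ∧ (A.card : ℝ) ≤ C * B.card := by
  set K : ℝ := 2 ^ 12 / c ^ 6 with hK
  have hKpos : 0 < K := by positivity
  have e1 : (0 : ℝ) ≤ J ^ (⌊K ^ 4⌋₊) * K := by positivity
  have e2 : (0 : ℝ) ≤ 3 / c := by positivity
  refine ⟨1 + J ^ (⌊K ^ 4⌋₊) * K + 3 / c, by linarith, ?_⟩
  intro X _ _ _ hX A hA hE
  obtain ⟨B, hBA, hB, h1, h2⟩ := bsg' A hA c hc hE
  have h3 := ruzsa_closure hJ hX B hB K h2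
  have hBA' : (B.card : ℝ) ≤ A.card := by exact_mod_cast Finset.card_le_card hBA
  have hB0 : (0 : ℝ) ≤ B.card := by positivity
  have hA0 : (0 : ℝ) ≤ A.card := by positivity
  refine ⟨AddSubgroup.closure (B : Set X), B, hBA, fun b hb => AddSubgroup.subset_closure hb,
    ?_, ?_⟩
  · refine h3.trans ?_
    calc J ^ (⌊K ^ 4⌋₊) * K * (B.card : ℝ) ≤ J ^ (⌊K ^ 4⌋₊) * K * A.card :=
          mul_le_mul_of_nonneg_left hBA' e1
      _ ≤ _ := mul_le_mul_of_nonneg_right (by linarith) hA0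
  · have h4 : (A.card : ℝ) ≤ 3 / c * B.card := by
      rw [div_mul_eq_mul_div, le_div_iff₀ hc]
      rw [div_le_iff₀ (by norm_num : (0 : ℝ) < 3)] at h1
      linarith
    exact h4.trans (mul_le_mul_of_nonneg_right (by linarith) hB0)

/-- additive energy of a set: solutions of `a + b = c + d` -/
noncomputable def energy {X : Type} [AddCommGroup X] (A : Set X) : ℝ :=
  sm fun a => sm fun b => sm fun c => ind (a ∈ A ∧ b ∈ A ∧ c ∈ A ∧ a + b - c ∈ A)

lemma energy_nonneg {X : Type} [AddCommGroup X] [Finite X] (A : Set X) : 0 ≤ energy A :=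
  sm_nonneg fun _ => sm_nonneg fun _ => sm_nonneg fun _ => ind_nonneg _

lemma energy_le_cube {X : Type} [AddCommGroup X] [Finite X] (A : Set X) :
    energy A ≤ cnt A ^ 3 := by
  have h : cnt A ^ 3 = sm fun a => sm fun b => sm fun c =>
      ind (a ∈ A) * (ind (b ∈ A) * ind (c ∈ A)) := by
    simp only [sm_mul_left, sm_mul_right, cnt]
    ring
  rw [h]
  refine sm_mono fun a => sm_mono fun b => sm_mono fun c => ?_
  rw [← ind_and, ← ind_and]
  exact ind_mono fun h => ⟨h.1, h.2.1, h.2.2.1⟩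

lemma energy_le_addEnergy {X : Type} [AddCommGroup X] [Finite X] [DecidableEq X]
    (A : Finset X) : energy (A : Set X) ≤ Finset.addEnergy A A := by
  have h1 : energy (A : Set X) = sm fun t : X × X × X =>
      ind (t.1 ∈ A ∧ t.2.1 ∈ A ∧ t.2.2 ∈ A ∧ t.1 + t.2.1 - t.2.2 ∈ A) := by
    rw [sm_prod, energy]
    refine sm_congr fun a => ?_
    rw [sm_prod]
    simp only [Finset.mem_coe]
  rw [h1, Finset.addEnergy, ← cnt_finset, cnt]
  refine sm_ind_le_of_inj _ _
    (fun t y => y = ((t.1, t.2.2), (t.2.1, t.1 + t.2.1 - t.2.2))) ?_ ?_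
  · rintro ⟨a, b, c⟩ ⟨ha, hb, hc, hd⟩
    refine ⟨_, ?_, rfl⟩
    simp only [Finset.coe_filter, Finset.mem_product, Set.mem_ofPred_eq]
    exact ⟨⟨⟨ha, hc⟩, hb, hd⟩, by abel⟩
  · rintro ⟨a, b, c⟩ ⟨a', b', c'⟩ y _ _ h h'
    rw [h] at h'
    simp only [Prod.mk.injEq] at h' ⊢
    exact ⟨h'.1.1, h'.2.1, h'.1.2⟩

/-- Balog-Szemeredi-Gowers and Freiman-Ruzsa for groups of exponent dividing `J` -/
def BFJ (J : ℕ) : Prop :=
  ∀ c : ℝ, 0 < c → ∃ C : ℝ, 0 < C ∧
    ∀ (X : Type) [AddCommGroup X] [Finite X], (∀ x : X, J • x = 0) → ∀ A : Set X, A.Nonempty →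
      c * cnt A ^ 3 ≤ energy A →
        ∃ H : AddSubgroup X, (Nat.card H : ℝ) ≤ C * cnt A ∧ cnt A ≤ C * cnt (A ∩ (H : Set X))

theorem bfj (J : ℕ) (hJ : 0 < J) : BFJ J := by
  intro c hc
  obtain ⟨C, hC, h⟩ := bf_grp J hJ c hc
  refine ⟨C, by linarith, ?_⟩
  intro X _ _ hX A hA hE
  classical
  lift A to Finset X using A.toFinite
  rw [cnt_finset] at hE ⊢
  obtain ⟨H, B, hBA, hBH, h1, h2⟩ :=
    h X hX A (by simpa using hA) (hE.trans (energy_le_addEnergy A))
  refine ⟨H, h1, h2.trans (mul_le_mul_of_nonneg_left ?_ (by linarith))⟩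
  rw [← cnt_finset]
  exact cnt_mono fun b hb => ⟨hBA hb, hBH b hb⟩

end NE
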