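import Pool.Agent.Lib.MP_ecee09_co.NE.Defs4

/-! Interface statements of part III-b. Each module proves one of them from others given as
hypotheses. -/

namespace NE

open SD (F sm av ind cnt Tame)

/-! ## worlds -/

/-- planting at uninvolved indices does not matter -/
def UNI : Prop :=
  ∀ (u : ℕ) (C ε : ℝ), 0 < ε → ∃ n0 : ℕ, ∀ (I : Type) [Finite I], n0 ≤ Nat.card I →
    ∀ (U : Type) [Finite U], Nat.card U ≤ u → ∀ (R : Set U) (π π' : PP U),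
      (∀ a ∈ R, ∀ b ∈ R, π s(a, b) = π' s(a, b)) → ∀ f : (U ↪ I) → Om I → ℝ,
      (∀ ι ι' : U ↪ I, (∀ a ∈ R, ι a = ι' a) → f ι = f ι') →
      (av fun ι => av fun A => f ι A ^ 2) ≤ C → |EW π f - EW π' f| ≤ ε

/-- a statistic of a set off the pools does not see the planting or the shift -/
def SH : Prop :=
  ∀ (u : ℕ) (C ε : ℝ), 0 < ε → ∃ n0 : ℕ, ∀ (I : Type) [Finite I], n0 ≤ Nat.card I →
    ∀ (E K S : Type) [AddCommGroup E] [Finite E] [Finite K] [Finite S] (s : ℕ),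
      Nat.card K * s + Nat.card S ≤ u → ∀ (Q : PP K) (t : K → E) (Y : (S → I) → OmE E I → ℝ),
      (av fun ι : S ↪ I => av fun x => Y ι x ^ 2) ≤ C →
      |EPS s S Q (fun Φ ι x => Y ι (x.1 - spr t Φ, x.2)) -
          av fun ι : S ↪ I => av fun x => Y ι x| ≤ ε ∧
      |EPM s S Q (fun ι g x => Y (fun a => ι (.inr a)) (x.1 - spr t (jlab ι g), x.2)) -
          av fun ι : S ↪ I => av fun x => Y ι x| ≤ ε

/-- almost all patterns are quasirandom -/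
def QRT : Prop :=
  ∀ (u : ℕ) (γ η : ℝ), 0 < γ → 0 < η → ∃ n0 : ℕ, ∀ (I : Type) [Finite I], n0 ≤ Nat.card I →
    (av fun A : Om I => ind (¬ QR u γ A)) ≤ η

/-- a family that kills the block sums of one vector -/
def ZS : Prop :=
  ∀ (X : Type) [AddCommGroup X] [Finite X] (K : Type) [Finite K] (η : ℝ), 0 < η → ∃ n0 : ℕ,
    ∀ (I : Type) [Finite I], n0 ≤ Nat.card I → ∀ w : I → X,
      ∃ A : OFam I K, A.junk ≤ η ∧ (A.E fun _ Φ => ind (wl w Φ ≠ 0)) ≤ η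

/-! ## particles -/

def RP (Γ : Type) [AddCommGroup Γ] : Prop :=
  ∀ (ε : Γ) (D : ℕ → ℝ) (K : Type) [Finite K] (η : ℝ), 0 < η → ∃ n0 : ℕ,
    ∀ (I : Type) [Finite I], n0 ≤ Nat.card I →
      ∀ P : Set (Pt Γ I), Tame D (NN ε (si P)) → Solve ε P K η

/-- reduction of particles for all groups -/
def RPA : Prop := ∀ (Γ : Type) [AddCommGroup Γ] [Finite Γ] [Nontrivial Γ], RP Γ

def PSTEP (Γ : Type) [AddCommGroup Γ] : Prop :=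
  ∀ (ε : Γ) (D : ℕ → ℝ) (K : Type) [Finite K] (η : ℝ), 0 < η → ∃ c : ℝ, 0 < c ∧
    ∀ (K' : Type) [Finite K'] (η' : ℝ), 0 < η' → ∃ n0 : ℕ,
      ∀ (I : Type) [Finite I], n0 ≤ Nat.card I →
        ∀ P : Set (Pt Γ I), Tame D (NN ε (si P)) → Solve ε P K η ∨ PDrop ε P K' η' c

/-- hierarchy case -/
def HH (Γ : Type) [AddCommGroup Γ] : Prop :=
  ∀ (ε : Γ) (D : ℕ → ℝ) (η1 : ℝ), 0 < η1 → ∃ c : ℝ, 0 < c ∧
    ∀ (K : Type) [Finite K] (η : ℝ), 0 < η → ∃ n0 : ℕ,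
      ∀ (I : Type) [Finite I], n0 ≤ Nat.card I → ∀ P : Set (Pt Γ I), Tame D (NN ε (si P)) →
        ∀ G : AddSubgroup Γ, G ≠ ⊥ → G ≠ ⊤ → η1 ≤ coll (si P) G → PDrop ε P K η c

/-- lattice case -/
def LG (Γ : Type) [AddCommGroup Γ] : Prop :=
  ∀ (ε : Γ) (D : ℕ → ℝ) (η1 : ℝ), 0 < η1 → ∃ c : ℝ, 0 < c ∧
    ∀ (K : Type) [Finite K] (η : ℝ), 0 < η → ∃ n0 : ℕ,
      ∀ (I : Type) [Finite I], n0 ≤ Nat.card I → ∀ P : Set (Pt Γ I), Tame D (NN ε (si P)) →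
        η1 ≤ en (si P) → PDrop ε P K η c

def PURE : Prop :=
  ∀ (Γ : Type) [AddCommGroup Γ] [Finite Γ] [Nontrivial Γ] (ε : Γ) (D : ℕ → ℝ) (K : Type)
    [Finite K] (η : ℝ), 0 < η → ∃ η1 : ℝ, 0 < η1 ∧ ∀ s1 : ℕ, ∃ n0 : ℕ,
    ∀ (I : Type) [Finite I], n0 ≤ Nat.card I →
      ∀ P : Set (Pt Γ I), Tame D (NN ε (si P)) → PuU ε P s1 η1 → Solve ε P K η

def LZ : Prop :=
  ∀ (Γ : Type) [AddCommGroup Γ] [Finite Γ] (ε : Γ) (C : ℝ) (K : Type) [Finite K] (η : ℝ),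
    0 < η → ∃ n0 : ℕ, ∀ (I : Type) [Finite I], n0 ≤ Nat.card I →
      ∀ H : AddSubgroup (Pt Γ I), (Nat.card H : ℝ) ≤ C * DD Γ I →
        ∃ A : GFam Γ I K, A.junk ≤ η ∧ (A.E fun x Φ => av fun y : OmE Γ K =>
          ind (∃ p ∈ H, rs ε p (cell x Φ y) = 0 ∧ wl p.1 Φ ≠ 0)) ≤ η

def LF : Prop :=
  ∀ (Γ : Type) [AddCommGroup Γ] [Finite Γ] (C : ℝ) (K : Type) [Finite K] (R0 : ℕ) (η : ℝ),
    0 < η → ∃ n0 : ℕ, ∀ (I : Type) [Finite I], n0 ≤ Nat.card I →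
      ∀ H : AddSubgroup (Pt Γ I), (Nat.card H : ℝ) ≤ C * DD Γ I →
        ∃ A : OFam I K, (A.E fun M Φ => ind (¬ (Good Φ ∧ (Frz H M Φ ∨ High H R0 M Φ)))) ≤ η

/-! ## the pure case -/

/-- the derived statistics -/
def PUH : Prop :=
  ∀ η : ℝ, 0 < η → ∃ η1 : ℝ, 0 < η1 ∧
    ∀ (Γ I : Type) [AddCommGroup Γ] [Finite Γ] [Finite I] (ε : Γ) (P : Set (Pt Γ I))
      (D : ℕ → ℝ) (s1 : ℕ), Tame D (NN ε (si P)) → PuU ε P s1 η1 → PuH ε P D s1 η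

/-- local limit for `A x = z` -/
def P1 : Prop :=
  ∀ (J u : ℕ) (γ θ : ℝ), 0 < γ → 0 < θ → ∃ s0 : ℕ,
    ∀ (X : Type) [AddCommGroup X] [Finite X], Nat.card X ≤ J →
      ∀ (I : Type) [Finite I], s0 ≤ Nat.card I → ∀ (x z : I → X) (σ : PP I) (U : Set I),
        U.ncard ≤ u → (∀ i j, σ s(i, j) ≠ none → i ∈ U) →
        (∀ W : AddSubgroup X, W ≠ ⊤ → γ * Nat.card I ≤ cnt {i | x i ∉ W}) →
        ‖((DD X I * av fun A : Om I => ind (adj (ovr A σ) x = z) : ℝ) : ℂ) -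
          csm fun μ : X →+ Ch X => (ind (∀ a, μ a a = 0) : ℂ) * ee (∑ᶠ i, μ (x i) (z i))‖ ≤ θ

/-- the local limit for robust tuples -/
def P1T : Prop :=
  ∀ (Γ M : Type) [AddCommGroup Γ] [Finite Γ] [Finite M] [Nonempty M] (u : ℕ) (γ θ : ℝ),
    0 < γ → 0 < θ → ∃ s0 : ℕ, ∀ (I : Type) [Finite I], s0 ≤ Nat.card I →
      ∀ (ε : Γ) (p : M → Pt Γ I) (w : M → I → Γ) (σ : PP I) (U : Set I),
        U.ncard ≤ u → (∀ i j, σ s(i, j) ≠ none → i ∈ U) → Rob γ ⊤ (row p) →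
        ‖((DD Γ I ^ Nat.card M *
            av fun x : OmE Γ I => ind (∀ r, rs ε (p r) (x.1, ovr x.2 σ) = w r) : ℝ) : ℂ) -
          csm fun μ : (M → Γ) →+ Ch (M → Γ) =>
            (ind ((∀ a, μ a a = 0) ∧ ∀ d ∈ Dg M Γ, μ d = 0) : ℂ) *
              ee (∑ᶠ i, μ (row p i) fun r => w r i - (p r).2 i)‖ ≤ θ

/-- upper bound for tuples that are robust in a subgroup -/
def P1U : Prop :=
  ∀ (Γ M : Type) [AddCommGroup Γ] [Finite Γ] [Finite M] [Nonempty M], ∃ C : ℝ, 0 < C ∧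
    ∀ γ : ℝ, 0 < γ → ∃ s0 : ℕ, ∀ (S : Type) [Finite S], s0 ≤ Nat.card S →
      ∀ (ε : Γ) (q : M → Pt Γ S) (W : AddSubgroup (M → Γ)), Dg M Γ ≤ W → (∀ i, row q i ∈ W) →
        Rob γ W (row q) →
        (av fun x : OmE Γ S => ind (∀ r, rs ε (q r) x = 0)) ≤
          C * ind (∀ i, (fun r => (q r).2 i) ∈ W) / DD W S

/-- counting tuples with a minimal relation -/
def CNT : Prop :=
  ∀ (Γ M S : Type) [AddCommGroup Γ] [Finite Γ] [Finite M] [Finite S] (ε : Γ)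
    (W : AddSubgroup (M → Γ)) (m : M → Pt Γ S → ℝ) (β Λ : ℝ), (∀ r q, 0 ≤ m r q) →
    Dg M Γ ≤ W → W ≠ ⊤ → Onto W → ¬ (Nat.card M = 2 ∧ W = Dg M Γ) → 0 ≤ β → 1 ≤ Λ →
    (∀ r (G : AddSubgroup Γ), G ≠ ⊥ → G ≠ ⊤ → coll (m r) G ≤ β) → (∀ r, en (m r) ≤ β ^ 2) →
    (∀ r, (av fun x => NN ε (m r) x ^ 2) ≤ Λ ^ 2) →
    (sm fun q : M → Pt Γ S => (∏ᶠ r, m r (q r)) *
      ind (∀ i, row q i ∈ W ∧ (fun r => (q r).2 i) ∈ W)) ≤ β * Λ ^ Nat.card M * DD W S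

/-- matched tuples with a robust minimal relation on a set off the pools are rare -/
def TUP : Prop :=
  ∀ (Γ M : Type) [AddCommGroup Γ] [Finite Γ] [Finite M] [Nonempty M] (D : ℕ → ℝ) (δ : ℝ),
    0 < δ → ∃ η : ℝ, 0 < η ∧ ∀ γ : ℝ, 0 < γ → ∃ s0 : ℕ, ∀ σ : ℕ, s0 ≤ σ → ∀ κ s : ℕ, ∃ n0 : ℕ,
      ∀ (I K : Type) [Finite I] [Finite K], n0 ≤ Nat.card I → Nat.card K ≤ κ →
        ∀ (ε : Γ) (P : Set (Pt Γ I)) (Q : PP K) (t : M → K → Γ) (s1 : ℕ), s1 ≤ σ →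
          PuH ε P D s1 η → ∀ W : AddSubgroup (M → Γ), Dg M Γ ≤ W → W ≠ ⊤ → Onto W →
          ¬ (Nat.card M = 2 ∧ W = Dg M Γ) →
          EPS s (Fin σ) Q (fun Φ ι x => sm fun p : M → Pt Γ I =>
            ind (Mat ε P t Φ x p ∧ (∀ a, row p (ι a) ∈ W) ∧ Rob γ W fun a => row p (ι a))) ≤ δ

/-- pairs with equal labels off the pools and many different labels on a pool -/
def PAIRa : Prop :=
  ∀ (Γ : Type) [AddCommGroup Γ] [Finite Γ] (D : ℕ → ℝ) (δ : ℝ), 0 < δ → ∃ η : ℝ, 0 < η ∧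
    ∀ σ : ℕ, ∃ l : ℕ, ∀ κ s : ℕ, ∃ n0 : ℕ,
      ∀ (I K : Type) [Finite I] [Finite K], n0 ≤ Nat.card I → Nat.card K ≤ κ →
        ∀ (ε : Γ) (P : Set (Pt Γ I)) (Q : PP K) (t t' : K → Γ) (a : K) (s1 : ℕ), s1 ≤ σ →
          PuH ε P D s1 η →
          EPM s (Fin σ) Q (fun ι g x => sm fun p : Pt Γ I => sm fun p' : Pt Γ I =>
            ind (p ∈ P ∧ p' ∈ P ∧ rs ε p x = spr t (jlab ι g) ∧ rs ε p' x = spr t' (jlab ι g) ∧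
              (∀ b, p.1 (ι (.inr b)) = p'.1 (ι (.inr b))) ∧
              l ≤ {i : Fin s | p.1 (ι (.inl (a, i))) ≠ p'.1 (ι (.inl (a, i)))}.ncard)) ≤ δ

/-- pairs with different targets and few different labels on the pool -/
def PAIRb : Prop :=
  ∀ (Γ : Type) [AddCommGroup Γ] [Finite Γ] (D : ℕ → ℝ) (δ : ℝ), 0 < δ → ∃ η : ℝ, 0 < η ∧
    ∀ s1 l : ℕ, ∃ s0 : ℕ, ∀ s : ℕ, s0 ≤ s → ∀ κ σ : ℕ, ∃ n0 : ℕ,
      ∀ (I K : Type) [Finite I] [Finite K], n0 ≤ Nat.card I → Nat.card K ≤ κ →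
        ∀ (ε : Γ) (P : Set (Pt Γ I)) (Q : PP K) (t t' : K → Γ) (a : K), t a ≠ t' a →
          PuH ε P D s1 η →
          EPM s (Fin σ) Q (fun ι g x => sm fun p : Pt Γ I => sm fun p' : Pt Γ I =>
            ind (p ∈ P ∧ p' ∈ P ∧ rs ε p x = spr t (jlab ι g) ∧ rs ε p' x = spr t' (jlab ι g) ∧
              {i : Fin s | p.1 (ι (.inl (a, i))) ≠ p'.1 (ι (.inl (a, i)))}.ncard < l)) ≤ δ

/-- two different matched particles with equal labels off the pools are rare -/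
def PAIR : Prop :=
  ∀ (Γ : Type) [AddCommGroup Γ] [Finite Γ] (D : ℕ → ℝ) (δ : ℝ), 0 < δ → ∃ η : ℝ, 0 < η ∧
    ∀ s1 σ : ℕ, s1 ≤ σ → ∃ s0 : ℕ, ∀ s : ℕ, s0 ≤ s → ∀ κ : ℕ, ∃ n0 : ℕ,
      ∀ (I K : Type) [Finite I] [Finite K], n0 ≤ Nat.card I → Nat.card K ≤ κ →
        ∀ (ε : Γ) (P : Set (Pt Γ I)) (Q : PP K) (t t' : K → Γ), PuH ε P D s1 η →
          EPS s (Fin σ) Q (fun Φ ι x => ind (∃ p ∈ P, ∃ p' ∈ P, p ≠ p' ∧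
            rs ε p x = spr t Φ ∧ rs ε p' x = spr t' Φ ∧ ∀ b, p.1 (ι b) = p'.1 (ι b))) ≤ δ

/-- matched injective tuples that are not robust are rare -/
def PU2 : Prop :=
  ∀ (Γ : Type) [AddCommGroup Γ] [Finite Γ] (m : ℕ) (D : ℕ → ℝ) (δ : ℝ), 0 < δ →
    ∃ η : ℝ, 0 < η ∧ ∀ s1 : ℕ, ∃ γ : ℝ, 0 < γ ∧ ∃ s0 : ℕ, ∀ s : ℕ, s0 ≤ s → ∀ κ : ℕ, ∃ n0 : ℕ,
      ∀ (I K : Type) [Finite I] [Finite K], n0 ≤ Nat.card I → Nat.card K ≤ κ →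
        ∀ (ε : Γ) (P : Set (Pt Γ I)) (Q : PP K) (t : Fin m → K → Γ), PuH ε P D s1 η →
          EP s Q (fun Φ x => sm fun p : Fin m → Pt Γ I =>
            ind (Mat ε P t Φ x p ∧ Function.Injective p ∧ ¬ Rob γ ⊤ (row p))) ≤ δ

/-- few tuples are not robust -/
def PU0 : Prop :=
  ∀ (Γ : Type) [AddCommGroup Γ] [Finite Γ] (m : ℕ), ∃ C : ℝ, 0 < C ∧
    ∀ (I : Type) [Finite I] (ε : Γ) (P : Set (Pt Γ I)) (D : ℕ → ℝ) (s1 : ℕ) (η γ : ℝ),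
      PuH ε P D s1 η → s1 ≤ Nat.card I → 0 < γ → 2 * γ * s1 ≤ 1 →
      (sm fun p : Fin m → Pt Γ I => ind ((∀ r, p r ∈ P) ∧ ¬ Rob γ ⊤ (row p))) ≤
        C * η * (D 1 + 1) ^ m * DD Γ I ^ m

/-- a non trivial pairing cancels -/
def PU3 : Prop :=
  ∀ (Γ I : Type) [AddCommGroup Γ] [Finite Γ] [Finite I] (a : Γ →+ Ch Γ), a ≠ 0 →
    ∀ (P : Set (Pt Γ I)) (f f' : Pt Γ I → ℂ) (β Λ : ℝ), (∀ p, ‖f p‖ ≤ 1) → (∀ p, ‖f' p‖ ≤ 1) →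
      0 ≤ β → β ≤ 1 → 1 ≤ Λ → lam (si P) ≤ Λ →
      (∀ G : AddSubgroup Γ, G ≠ ⊥ → G ≠ ⊤ → coll (si P) G ≤ β ^ 4) → en (si P) ≤ β ^ 4 →
      ‖csm fun p : Pt Γ I => csm fun p' : Pt Γ I => (si P p : ℂ) * (si P p' : ℂ) * f p * f' p' *
        ee (∑ᶠ i, (a (p.1 i) (p'.2 i) - a (p.2 i) (p'.1 i)))‖ ≤ β * Λ * DD Γ I ^ 2

/-- weights of mean zero cancel over the probe -/
def PUN : Prop :=
  ∀ (Γ : Type) [AddCommGroup Γ] [Finite Γ] (D : ℕ → ℝ) (κ : ℕ) (δ : ℝ), 0 < δ →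
    ∃ η : ℝ, 0 < η ∧ ∀ s1 : ℕ, ∃ s0 : ℕ, ∀ s : ℕ, s0 ≤ s → ∃ n0 : ℕ,
      ∀ (I K : Type) [Finite I] [Finite K], n0 ≤ Nat.card I → Nat.card K ≤ κ →
        ∀ (ε : Γ) (P : Set (Pt Γ I)) (a : (K → Γ) → ℝ), PuH ε P D s1 η → (∀ w, |a w| ≤ 1) →
          av a = 0 → (av fun o : Pr K s I => nu P a (prl o) ^ 2) ≤ δ

/-- factorial moments factorize -/
def PU4 : Prop :=
  ∀ (Γ : Type) [AddCommGroup Γ] [Finite Γ] (m : ℕ) (D : ℕ → ℝ) (δ : ℝ), 0 < δ →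
    ∃ η : ℝ, 0 < η ∧ ∀ s1 : ℕ, ∃ s0 : ℕ, ∀ s : ℕ, s0 ≤ s → ∀ κ : ℕ, ∃ n0 : ℕ,
      ∀ (I K : Type) [Finite I] [Finite K], n0 ≤ Nat.card I → Nat.card K ≤ κ →
        ∀ (ε : Γ) (P : Set (Pt Γ I)) (Q : PP K) (t : Fin m → K → Γ)
          (a : Fin m → (K → Γ) → ℝ), PuH ε P D s1 η → (∀ r w, |a r w| ≤ 1) →
          |EP s Q (fun Φ x => ind (Good Φ) * sm fun p : Fin m → Pt Γ I =>
              ind (Mat ε P t Φ x p ∧ Function.Injective p) * ∏ r, a r (wl (p r).1 Φ)) -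
            av fun o : Pr K s I => ind (Good (prl o)) * ∏ r, nu P (a r) (prl o)| ≤ δ

/-- the truncated product has mean close to one -/
def PU5 : Prop :=
  ∀ (Γ : Type) [AddCommGroup Γ] [Finite Γ] (D : ℕ → ℝ) (κ : ℕ) (B δ : ℝ), 0 < δ →
    ∃ L0 : ℕ, ∀ L : ℕ, L0 ≤ L → ∃ η : ℝ, 0 < η ∧ ∀ s1 : ℕ, ∃ s0 : ℕ, ∀ s : ℕ, s0 ≤ s →
      ∃ n0 : ℕ, ∀ (I K : Type) [Finite I] [Finite K], n0 ≤ Nat.card I → Nat.card K ≤ κ →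
        ∀ (ε : Γ) (P : Set (Pt Γ I)) (Q : PP K) (LL : Set (K → Γ))
          (f : (K → Γ) → (K → Γ) → ℝ), PuH ε P D s1 η → (∀ t w, |f t w| ≤ B) →
          (∀ t, av (f t) = 0) → |EP s Q (puPi ε P LL f L) - 1| ≤ δ

/-! ## the lattice freeze -/

/-- the lattice data of a subgroup -/
def LALG : Prop :=
  ∀ (Γ : Type) [AddCommGroup Γ] [Finite Γ] (C : ℝ), ∃ Cf : ℕ → ℕ,
    ∀ (I : Type) [Finite I] (H : AddSubgroup (Pt Γ I)), (Nat.card H : ℝ) ≤ C * DD Γ I →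
      ∃ L : LD I ((Γ → Γ) × (Γ → Γ)), L.Ok (Nat.card Γ) Cf ∧
        (∀ (K : Type) [Finite K] (Φ : Lab I K) (A : Om I) (P : Om K),
          L.Fp (ow A Φ P) Φ → Frz H A Φ) ∧
        ∀ A, cnt (TM A '' (H : Set (Pt Γ I))) * L.kap A = DD Γ I

/-- the abstract lattice freeze -/
def ALF : Prop :=
  ∀ (EE : Type) [AddCommGroup EE] [Finite EE] (J : ℕ) (Cf : ℕ → ℕ), 0 < J →
    (∀ e : EE, J • e = 0) → ∀ (K : Type) [Finite K] (R0 : ℕ) (η : ℝ), 0 < η → ∃ n0 : ℕ,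
    ∀ (I : Type) [Finite I], n0 ≤ Nat.card I → ∀ L : LD I EE, L.Ok J Cf →
      ∃ A : OFam I K, (A.E fun M Φ => ind (¬ (Good Φ ∧
        ((∃ P, L.Fp (ow M Φ P) Φ) ∨ ∀ P, R0 ≤ L.kap (ow M Φ P))))) ≤ η

/-- isotropic sub-sums -/
def ISO : Prop :=
  ∀ (EE K : Type) [AddCommGroup EE] [Finite EE] [Finite K], ∃ r : ℕ,
    ∀ (V : Type) [AddCommGroup V] (B : V →+ V →+ EE) (z : K × Fin r → V),
      ∃ Ξ : K × Fin r → Bool, (∀ a, ∃ j, Ξ (a, j) = true) ∧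
        ∀ a b, B (∑ j, if Ξ (a, j) then z (a, j) else 0) (∑ j, if Ξ (b, j) then z (b, j) else 0) = 0

/-- moving along a frozen cell -/
def MOVE : Prop :=
  ∀ (EE : Type) [AddCommGroup EE] [Finite EE] (J : ℕ) (Cf : ℕ → ℕ), 0 < J →
    ∀ (B T : ℕ) (ε : ℝ), 0 < ε → ∃ n0 : ℕ, ∀ (I : Type) [Finite I], n0 ≤ Nat.card I →
      ∀ L : LD I EE, L.Ok J Cf → ∀ (K : Type) [Finite K] (Φ : Lab I K) (A : Om I) (P P' : Om K),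
        {i | Φ i ≠ none}.ncard ≤ B → (∀ e, Nat.card I ≤ 4 * Nat.card (Lp (ow A Φ P) e)) →
        L.Fp (ow A Φ P) Φ → ∀ (l : Ch EE) (e e' : F) (t t' : ℕ), t ≤ T → t' ≤ T →
          (∀ y ∈ L.V (ow A Φ P), (∀ a, L.B (ow A Φ P) (yv Φ a) y = 0) →
            |L.bet (ow A Φ P') l e t y - L.bet (ow A Φ P) l e t y| ≤ ε) ∧
          L.bb (ow A Φ P) l e e' t t' ≤
            (Nat.card EE : ℝ) ^ Nat.card K * L.bb (ow A Φ P') l e e' t t' + ε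

/-- frozen probes with null blocks have positive planted mass -/
def POS : Prop :=
  ∀ (EE : Type) [AddCommGroup EE] [Finite EE] (J : ℕ) (Cf : ℕ → ℕ), 0 < J →
    ∀ (K : Type) [Finite K], ∃ r : ℕ, ∀ (R : ℕ) (R' : ℝ), ∃ (c δ0 : ℝ) (Q : ℕ), 0 < c ∧ 0 < δ0 ∧
      ∀ t t2 : ℕ, 1 ≤ t → Q * t ≤ t2 → ∃ (u : ℕ) (γ : ℝ), 0 < γ ∧
        ∀ (I : Type) [Finite I] [Nonempty I] (L : LD I EE) (A : Om I), L.Ok J Cf → QR u γ A →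
          L.kap A ≤ R → ∀ (e : F) (Λ : F → Set (Ch EE)),
            (∀ e', ∀ l ∈ Λ e', 1 ≤ R' * L.bb A l e e' t2 t2) →
            c ≤ av fun o : LO K r J t I => dens (bl (llab o) (ful fun _ => e)) A *
              ind (Good (llab o) ∧ L.Fp A (llab o) ∧
                ∀ a e', ∀ l ∈ Λ e', δ0 ≤ L.bet A l e' t2 (yv (llab o) a))

/-- phases of high forms cancel in mean square; planted mean of `bet` -/
def BAD : Prop :=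
  ∀ (EE : Type) [AddCommGroup EE] [Finite EE] (J : ℕ) (Cf : ℕ → ℕ), 0 < J →
    ∀ (K : Type) [Finite K] (r t : ℕ) (ε : ℝ), 0 < ε → ∃ (u : ℕ) (γ : ℝ), 0 < γ ∧
      ∀ (I : Type) [Finite I] (L : LD I EE) (A : Om I), L.Ok J Cf → QR u γ A →
        ∀ (P : Om K) (a0 : K) (t1 : ℕ), 2 * t1 ≤ t →
          (∀ (P' : Om K) (l : K → K → Ch EE) (b0 : K) (φ : Lab I K → ℝ),
            (∀ Ψ, 0 ≤ φ Ψ ∧ φ Ψ ≤ ind (Good Ψ ∧ ∀ b, yv Ψ b ∈ L.V A)) →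
            (av fun o : LO K r J t I => dens (bl (llab o) (ful P)) A *
              ind (Good (llab o) ∧ ∀ a, yv (llab o) a ∈ L.V A) *
                ‖L.trm r J t A φ P' (llab o) l‖ ^ 2) ≤
              L.bb A (l a0 b0) (P s(a0, a0)) (P' s(b0, b0)) t1 t1 + ε) ∧
          ∀ (l : Ch EE) (e' : F) (t2 : ℕ),
            (av fun o : LO K r J t I => dens (bl (llab o) (ful P)) A *
              ind (Good (llab o) ∧ yv (llab o) a0 ∈ L.V A) * L.bet A l e' t2 (yv (llab o) a0)) ≤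
              L.bb A l (P s(a0, a0)) e' t1 t2 + ε

/-- a form is not low for one loop type and high for the other -/
def ONE : Prop :=
  ∀ (EE : Type) [AddCommGroup EE] [Finite EE] (J : ℕ) (Cf : ℕ → ℕ), 0 < J →
    ∀ (R : ℕ) (η : ℝ), 0 < η → ∃ F0 Q : ℕ, ∀ t1 t2 : ℕ, 1 ≤ t1 → Q * t1 ≤ t2 → ∃ n0 : ℕ,
      ∀ (I : Type) [Finite I], n0 ≤ Nat.card I → ∀ L : LD I EE, L.Ok J Cf →
        ∀ (l : Ch EE) (e e' : F),
          (av fun A : Om I => ind (L.kap A ≤ R ∧ 1 ≤ R * L.bb A l e e' t2 t2 ∧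
            F0 * L.bb A l (e + 1) e' t1 t1 ≤ 1)) ≤ η

/-- phases of low forms are trivial -/
def JLOW : Prop :=
  ∀ (EE : Type) [AddCommGroup EE] [Finite EE] (J : ℕ) (Cf : ℕ → ℕ), 0 < J →
    (∀ e : EE, J • e = 0) → ∀ (K : Type) [Finite K] (r : ℕ) (δ2 δ3 : ℝ), 0 < δ2 → 0 < δ3 →
    ∃ Q : ℕ, ∀ t t2 : ℕ, 1 ≤ t → Q * t ≤ t2 → ∃ (u : ℕ) (γ : ℝ), 0 < γ ∧
      ∀ (I : Type) [Finite I] (L : LD I EE) (A : Om I), L.Ok J Cf → QR u γ A →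
        ∀ (P : Om K) (Φ : Lab I K) (l : K → K → Ch EE) (φ : Lab I K → ℝ),
          (∀ a b, δ2 ≤ L.bet A (l a b) (P s(b, b)) t2 (yv Φ a)) →
          (∀ Ψ, 0 ≤ φ Ψ ∧ φ Ψ ≤ ind (∀ b, yv Ψ b ∈ L.V A)) →
          ‖L.trm r J t A φ P Φ l -
            ((av fun o : LO K r J t I => dens (bl (llab o) (ful P)) A * φ (llab o) : ℝ) : ℂ)‖ ≤ δ3

/-- the restricted mean is invariant along a frozen cell -/
def JINV : Prop :=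
  ∀ (EE : Type) [AddCommGroup EE] [Finite EE] (J : ℕ) (Cf : ℕ → ℕ), 0 < J →
    ∀ (K : Type) [Finite K] (r t t2 B : ℕ) (ε : ℝ), 0 < ε → ∃ n0 : ℕ,
      ∀ (I : Type) [Finite I], n0 ≤ Nat.card I → ∀ L : LD I EE, L.Ok J Cf →
        ∀ (Φ : Lab I K) (A : Om I) (P0 P1 P : Om K) (Λ : F → Set (Ch EE)),
          {i | Φ i ≠ none}.ncard ≤ B → (∀ e, Nat.card I ≤ 4 * Nat.card (Lp (ow A Φ P0) e)) →
          L.Fp (ow A Φ P0) Φ →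
          |L.JP r J t (ow A Φ P1) Λ t2 P Φ - L.JP r J t (ow A Φ P0) Λ t2 P Φ| ≤ ε

/-- the two pigeonholes: a threshold, then a pair of scales -/
def PIG : Prop :=
  ∀ (N R0 : ℕ) (Ff : ℕ → ℕ) (η : ℝ), 0 < η → ∃ R1 : ℕ, ∀ Q : ℕ, ∃ T : ℕ,
    ∀ (X Z : Type) [Finite X] [Finite Z], Nat.card Z ≤ N → ∀ (k : X → ℕ) (b : Z → X → ℕ → ℝ),
      (∀ z x t, 0 ≤ b z x t ∧ b z x t ≤ 1) → (∀ z x, Antitone (b z x)) →
      ∃ R t1 : ℕ, R0 ≤ R ∧ R ≤ R1 ∧ 1 ≤ t1 ∧ t1 ≤ T ∧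
        (av fun x => ind (¬ (Ff R < k x ∨
          (k x ≤ R ∧ ∀ z, 1 ≤ R * b z x (Q * t1) ∨ Ff R * b z x t1 ≤ 1)))) ≤ η

end NE
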