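import Pool.Agent.Lib.MP_ecee09_co.NE.Dual
import Pool.Agent.Lib.MP_ecee09_co.NE.Stmts4

/-! Phases of high forms cancel in mean square. -/

namespace NE

open SD hiding cond
open ComplexConjugate

variable {I K U : Type} [Finite I]

/-- the unit vector -/
noncomputable def badE (i : I) : I → ℤ := smp fun _ : Unit => i

open Classical in
omit [Finite I] in
lemma badE_apply (i j : I) : badE i j = if i = j then 1 else 0 := finsum_unique _

omit [Finite I] in
lemma bad_smp {T : Type} [Fintype T] (κ : T → I) : smp κ = ∑ t, badE (κ t) := by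
  funext j
  simp only [smp, finsum_eq_sum_of_fintype, Finset.sum_apply, badE_apply]

/-- mean of a character over the indices with loop `e` -/
noncomputable def badM (A : Om I) (e : F) (ψ : (I → ℤ) →+ TT) : ℂ :=
  cav fun i : Lp A e => ee (ψ (badE (i : I)))

lemma norm_badM_le (A : Om I) (e : F) (ψ : (I → ℤ) →+ TT) : ‖badM A e ψ‖ ≤ 1 :=
  norm_cav_le_const zero_le_one fun _ => (norm_ee _).le

lemma bad_cav_df (A : Om I) (e : F) (t : ℕ) (ψ : (I → ℤ) →+ TT) :
    cav (fun κ : (Fin t → Lp A e) × (Fin t → Lp A e) => ee (ψ (df κ))) =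
      ((‖badM A e ψ‖ ^ (2 * t) : ℝ) : ℂ) := by
  have h : cav (fun κ : Fin t → Lp A e => ee (ψ (smp fun a => (κ a : I)))) = badM A e ψ ^ t := by
    simp only [bad_smp, map_sum, ee_sum]
    rw [← prod_cav fun (_ : Fin t) (i : Lp A e) => ee (ψ (badE (i : I))), Finset.prod_const,
      Finset.card_fin, badM]
  simp only [df, map_sub, ee_sub]
  rw [cav_prod, ← cav_mul_cav (fun κ : Fin t → Lp A e => ee (ψ (smp fun a => (κ a : I))))
    fun κ : Fin t → Lp A e => conj (ee (ψ (smp fun a => (κ a : I)))), ← conj_cav, h, mul_conj'',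
    norm_pow, ← pow_mul, mul_comm]

/-- mean of a character over differences of samples that lie in `V` -/
noncomputable def badS (V : AddSubgroup (I → ℤ)) (A : Om I) (e : F) (t : ℕ)
    (φ : (I → ℤ) →+ TT) : ℂ :=
  cav fun κ : (Fin t → Lp A e) × (Fin t → Lp A e) => (ind (df κ ∈ V) : ℝ) * ee (φ (df κ))

lemma badS_eq (V : AddSubgroup (I → ℤ)) [Finite ((I → ℤ) ⧸ V)] (A : Om I) (e : F) (t : ℕ)
    (φ : (I → ℤ) →+ TT) : badS V A e t φ = ((av fun χ : Ch ((I → ℤ) ⧸ V) =>
      ‖badM A e (φ + χ.comp (QuotientAddGroup.mk' V))‖ ^ (2 * t) : ℝ) : ℂ) := by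
  simp only [badS, ← cav_ch_quot V, ← cav_mul_right, ← ee_add]
  rw [cav_comm, ← cav_ofReal]
  refine cav_congr fun χ => ?_
  rw [← bad_cav_df]
  exact cav_congr fun κ => by rw [add_comm]; rfl

lemma badS_re_mem (V : AddSubgroup (I → ℤ)) [Finite ((I → ℤ) ⧸ V)] (A : Om I) (e : F) (t : ℕ)
    (φ : (I → ℤ) →+ TT) : 0 ≤ (badS V A e t φ).re ∧ (badS V A e t φ).re ≤ 1 := by
  rw [badS_eq, Complex.ofReal_re]
  exact ⟨av_nonneg fun _ => by positivity,
    av_le_const fun _ => pow_le_one₀ (norm_nonneg _) (norm_badM_le _ _ _)⟩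

lemma bad_bet {EE : Type} [AddCommGroup EE] (L : LD I EE) (A : Om I) (l : Ch EE) (e : F) (t : ℕ)
    (y : I → ℤ) : L.bet A l e t y = (badS (L.V A) A e t (l.comp (L.B A y))).re := by
  rw [badS, cav_re]
  exact av_congr fun κ => (Complex.re_ofReal_mul _ _).symm

lemma bad_fin {V : AddSubgroup (I → ℤ)} {J : ℕ} (hJ : 0 < J) (h : ∀ u : I → ℤ, J • u ∈ V) :
    Finite ((I → ℤ) ⧸ V) := by
  refine Finite.of_surjective (fun u : I → Fin J =>
    (QuotientAddGroup.mk (fun i => ((u i : ℕ) : ℤ)) : (I → ℤ) ⧸ V)) fun q => ?_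
  obtain ⟨v, rfl⟩ := QuotientAddGroup.mk_surjective q
  have h0 : (J : ℤ) ≠ 0 := by exact_mod_cast hJ.ne'
  refine ⟨fun i => ⟨(v i % J).toNat, ?_⟩, QuotientAddGroup.eq.2 ?_⟩
  · have := Int.emod_lt_of_pos (v i) (show (0 : ℤ) < J by exact_mod_cast hJ)
    omega
  · convert h fun i => v i / J using 1
    funext i
    have := Int.emod_add_mul_ediv (v i) J
    simp only [Pi.add_apply, Pi.neg_apply, Pi.smul_apply, nsmul_eq_mul,
      Int.toNat_of_nonneg (Int.emod_nonneg _ h0)]
    linarith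

open Classical in
omit [Finite I] in
lemma bad_yv [Fintype U] (ι : U ↪ I) (Ψ : Lab U K) (a : K) :
    yv (lcomp (crd ι) Ψ) a = ∑ u, if Ψ u = some a then badE (ι u) else 0 := by
  funext i
  rw [yv, Finset.sum_apply]
  by_cases hi : i ∈ Set.range ι
  · obtain ⟨u, rfl⟩ := hi
    rw [lcomp_crd_apply ι.injective, Finset.sum_eq_single u]
    · split_ifs <;> simp [badE_apply]
    · intro v _ hv
      split_ifs <;> simp [badE_apply, hv]
    · simp
  · rw [lcomp_of_none _ ((crd_eq_none ι.injective).2 hi), if_neg (by simp)]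
    refine (Finset.sum_eq_zero fun u _ => ?_).symm
    have : ι u ≠ i := fun k => hi ⟨u, k⟩
    split_ifs <;> simp [badE_apply, this]

omit [Finite I] in
lemma bad_bl (Φ : Lab I U) (Ψ : Lab U K) (Q : PP K) : bl (lcomp Φ Ψ) Q = bl Φ (bl Ψ Q) := by
  funext c
  simp only [bl, lab2_lcomp, Option.bind_assoc]

omit [Finite I] in
lemma bad_dens_nonneg (σ : PP I) (A : Om I) : 0 ≤ dens σ A :=
  mul_nonneg (by positivity) (ind_nonneg _)

variable [Finite K] [Finite U] {u : ℕ} {γ : ℝ} {A : Om I}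

omit [Finite I] in
lemma bad_gam (h : QR u γ A) : 0 ≤ γ :=
  (norm_nonneg _).trans (h.prd Empty (by simp) (fun _ => none) (fun _ _ => 1) fun _ _ => by simp)

omit [Finite K] in
lemma bad_av_dens (h : QR u γ A) (hU : Nat.card U ≤ u) (π : PP U) :
    (av fun ι : U ↪ I => dens (bl (crd ι) π) A) ≤ 1 + γ := by
  let _ := Fintype.ofFinite U
  have h1 := h.prd U hU π (fun _ _ => 1) fun _ _ => by simp
  simp only [finprod_one, mul_one, cav_ofReal] at h1
  have h2 : ‖∏ᶠ a : U, lav A (π s(a, a)) fun _ => 1‖ ≤ 1 := by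
    rw [finprod_eq_prod_of_fintype, norm_prod]
    refine Finset.prod_le_one (fun _ _ => norm_nonneg _) fun a _ => ?_
    cases π s(a, a) <;> exact norm_cav_le_const zero_le_one fun _ => by simp
  have h3 := (norm_le_norm_add_norm_sub' _ _).trans (add_le_add h2 h1)
  rw [Complex.norm_real] at h3
  exact (le_abs_self _).trans h3

/-- planting is invisible to a character of the blocks -/
lemma bad_qr0 (h : QR u γ A) (hU : Nat.card U ≤ u) (Ψ : Lab U K) (P : Om K)
    (ψ : K → (I → ℤ) →+ TT) (a0 : K) {n : ℕ} (hn : n ≤ {v | Ψ v = some a0}.ncard) :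
    ‖cav fun ι : U ↪ I => (dens (bl (lcomp (crd ι) Ψ) (ful P)) A : ℂ) *
      ee (∑ᶠ a, ψ a (yv (lcomp (crd ι) Ψ) a))‖ ≤ γ + ‖badM A (P s(a0, a0)) (ψ a0)‖ ^ n := by
  classical
  let _ := Fintype.ofFinite U
  let _ := Fintype.ofFinite K
  let g : U → I → ℂ := fun v i => ee ((Ψ v).elim 0 fun a => ψ a (badE i))
  have h1 := h.prd U hU (bl Ψ (ful P)) g fun _ _ => (norm_ee _).le
  have e : ∀ ι : U ↪ I, ee (∑ᶠ a, ψ a (yv (lcomp (crd ι) Ψ) a)) = ∏ᶠ v, g v (ι v) := fun ι => by
    rw [finprod_eq_prod_of_fintype, ← ee_sum, finsum_eq_sum_of_fintype]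
    simp only [bad_yv, map_sum]
    rw [Finset.sum_comm]
    refine congrArg ee (Finset.sum_congr rfl fun v _ => ?_)
    cases hv : Ψ v with
    | none => simp
    | some b => simp [apply_ite, eq_comm (a := b)]
  simp only [e, bad_bl]
  refine (norm_le_norm_add_norm_sub' _ _).trans ((add_le_add ?_ h1).trans (add_comm _ _).le)
  rw [finprod_eq_prod_of_fintype, norm_prod,
    ← Finset.prod_mul_prod_compl {v | Ψ v = some a0}.toFinset]
  refine (mul_le_of_le_one_right (Finset.prod_nonneg fun _ _ => norm_nonneg _)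
    (Finset.prod_le_one (fun _ _ => norm_nonneg _) fun v _ => ?_)).trans ?_
  · cases bl Ψ (ful P) s(v, v) <;> exact norm_cav_le_const zero_le_one fun _ => (norm_ee _).le
  · rw [Finset.prod_congr rfl (g := fun _ => ‖badM A (P s(a0, a0)) (ψ a0)‖) fun v hv => by
      have hv' : Ψ v = some a0 := by simpa using hv
      simp only [bl, lab2_some hv' hv', g, hv']; rfl, Finset.prod_const,
      ← Set.ncard_eq_toFinset_card']
    exact pow_le_pow_of_le_one (norm_nonneg _) (norm_badM_le _ _ _) hn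

/-- the same with membership in `V` on the blocks in `T` -/
lemma bad_qr1 (h : QR u γ A) (hU : Nat.card U ≤ u) (V : AddSubgroup (I → ℤ))
    [Finite ((I → ℤ) ⧸ V)] (Ψ : Lab U K) (P : Om K) (φ : K → (I → ℤ) →+ TT) (T : Set K) {a0 : K}
    (h0 : a0 ∈ T) {n : ℕ} (hn : 2 * n ≤ {v | Ψ v = some a0}.ncard) :
    ‖cav fun ι : U ↪ I => ((dens (bl (lcomp (crd ι) Ψ) (ful P)) A *
      ind (∀ a ∈ T, yv (lcomp (crd ι) Ψ) a ∈ V) : ℝ) : ℂ) *
      ee (∑ᶠ a, φ a (yv (lcomp (crd ι) Ψ) a))‖ ≤ γ + (badS V A (P s(a0, a0)) n (φ a0)).re := by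
  classical
  let _ := Fintype.ofFinite K
  let m : K → (I → ℤ) →+ (I → ℤ) ⧸ V := fun a => if a ∈ T then QuotientAddGroup.mk' V else 0
  have e : ∀ y : K → I → ℤ, ((ind (∀ a ∈ T, y a ∈ V) : ℝ) : ℂ) * ee (∑ᶠ a, φ a (y a)) =
      cav fun χ : K → Ch ((I → ℤ) ⧸ V) => ee (∑ᶠ a, (φ a + (χ a).comp (m a)) (y a)) := fun y => by
    rw [ind_congr (q := (fun a => m a (y a)) = 0) (funext_iff.trans (forall_congr' fun a => by
      by_cases ha : a ∈ T <;> simp [m, ha])).symm, ← cav_ch_pi, ← cav_mul_right]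
    refine cav_congr fun χ => ?_
    simp only [← ee_add, finsum_eq_sum_of_fintype, ← Finset.sum_add_distrib, add_comm (φ _ _),
      AddMonoidHom.add_apply, AddMonoidHom.comp_apply]
  simp only [Complex.ofReal_mul, mul_assoc, e, ← cav_mul_left]
  rw [cav_comm, badS_eq, Complex.ofReal_re, ← av_surj (fun χ : K → Ch ((I → ℤ) ⧸ V) => χ a0)
    (fun _ _ => rfl) (fun x => ⟨fun _ => x, rfl⟩)]
  refine (norm_cav_le _).trans ((av_mono fun χ => bad_qr0 h hU Ψ P _ a0 hn).trans (le_of_eq ?_))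
  rw [av_add, av_const]
  simp only [m, if_pos h0]

/-- the same for the probes -/
lemma bad_qr2 {r J t n : ℕ} (h : QR u γ A) (hU : Nat.card (K × Fin r × Fin J × Fin t) ≤ u)
    (hJ : 0 < J) (hn : 2 * n ≤ t) (V : AddSubgroup (I → ℤ)) [Finite ((I → ℤ) ⧸ V)] (P : Om K)
    (φ : K → (I → ℤ) →+ TT) (T : Set K) {a0 : K} (h0 : a0 ∈ T) :
    ‖cav fun o : LO K r J t I => ((dens (bl (llab o) (ful P)) A *
      ind (Good (llab o) ∧ ∀ a ∈ T, yv (llab o) a ∈ V) : ℝ) : ℂ) *
      ee (∑ᶠ a, φ a (yv (llab o) a))‖ ≤ γ + (badS V A (P s(a0, a0)) n (φ a0)).re := by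
  have hc := add_nonneg (bad_gam h) (badS_re_mem V A (P s(a0, a0)) n (φ a0)).1
  rw [cav_prod, cav_comm]
  refine norm_cav_le_const hc fun Ξ => ?_
  by_cases hΞ : Good (tg fun v : K × Fin r × Fin J × Fin t => Ξ (v.1, v.2.1))
  · obtain ⟨v, hv⟩ := hΞ a0
    refine le_trans (le_of_eq (congrArg _ (cav_congr fun ι => ?_)))
      (bad_qr1 h hU V (tg fun v : K × Fin r × Fin J × Fin t => Ξ (v.1, v.2.1)) P φ T h0 ?_)
    · rw [ind_congr (and_iff_right (show Good (llab (ι, Ξ)) from
        Good.lcomp (fun k => ⟨ι k, crd_apply ι.injective k⟩) hΞ))]; rfl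
    · refine hn.trans (le_trans (le_of_eq ?_) (Set.ncard_le_ncard (s := Set.range
        fun x : Fin t => ((v.1, v.2.1, ⟨0, hJ⟩, x) : K × Fin r × Fin J × Fin t)) ?_))
      · rw [Set.ncard_range_of_injective fun x y k => by simpa using k, Nat.card_fin]
      · rintro _ ⟨x, rfl⟩; exact hv
  · rw [cav_congr (g := fun _ => 0) fun ι => by
      rw [ind_neg fun k => hΞ k.1.of_lcomp]; simp, cav_zero, norm_zero]
    exact hc

theorem bad_of : BAD := by
  intro EE _ _ J Cf hJ K _ r t ε hε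
  refine ⟨Nat.card (K × Fin r × Fin J × Fin t), min 1 (ε / 7), by positivity,
    fun I _ L A hL h P a0 t1 ht => ?_⟩
  have := bad_fin hJ (hL.jv A)
  have g1 := min_le_left 1 (ε / 7)
  have g2 := min_le_right 1 (ε / 7)
  have g0 := bad_gam h
  generalize min 1 (ε / 7) = γ at h g0 g1 g2
  let _ := Fintype.ofFinite K
  refine ⟨fun P' l b0 φ hφ => ?_, fun l e' t2 => ?_⟩
  · let w : LO K r J t I → ℝ := fun o => dens (bl (llab o) (ful P')) A * φ (llab o)
    let w' : LO K r J t I → ℝ := fun o => dens (bl (llab o) (ful P')) A *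
      ind (Good (llab o) ∧ ∀ b ∈ Set.univ, yv (llab o) b ∈ L.V A)
    have w0 : ∀ o, 0 ≤ w o := fun o => mul_nonneg (bad_dens_nonneg _ _) (hφ _).1
    have w1 : ∀ o, w o ≤ w' o := fun o => mul_le_mul_of_nonneg_left
      (by simpa using (hφ _).2) (bad_dens_nonneg _ _)
    have w2 : av w' ≤ 2 := by
      refine (av_mono fun o => mul_le_of_le_one_right (bad_dens_nonneg _ _)
        (ind_le_one _)).trans ?_
      rw [av_prod, av_comm]
      refine av_le_const fun Ξ => le_trans ?_ (show 1 + γ ≤ 2 by linarith)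
      simpa only [llab, bad_bl] using bad_av_dens h le_rfl _
    let G : LO K r J t I → K → (I → ℤ) →+ TT := fun o a =>
      ∑ b, (l a b).comp ((L.B A).flip (yv (llab o) b))
    have e1 : ∀ Φ : Lab I K, ((‖L.trm r J t A φ P' Φ l‖ ^ 2 : ℝ) : ℂ) = cav fun o => cav fun o' =>
        ((w o * w o' : ℝ) : ℂ) * ee (∑ᶠ a, (G o a - G o' a) (yv Φ a)) := fun Φ => by
      rw [← mul_conj'', LD.trm, conj_cav, cav_mul_cav]
      refine cav_congr fun o => cav_congr fun o' => ?_
      simp only [finsum_eq_sum_of_fintype, Fintype.sum_prod_type, AddMonoidHom.sub_apply,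
        Finset.sum_sub_distrib, ee_sub, G, w, AddMonoidHom.finsetSum_apply, map_mul,
        Complex.conj_ofReal, AddMonoidHom.comp_apply, AddMonoidHom.flip_apply, Complex.ofReal_mul]
      ring
    have e2 : ∀ y : I → ℤ, ‖cav fun o => (w' o : ℂ) * ee (G o a0 y)‖ ≤
        γ + L.bet A (l a0 b0) (P' s(b0, b0)) t1 y := fun y => by
      rw [bad_bet]
      refine le_trans (le_of_eq (congrArg _ (cav_congr fun o => ?_))) (bad_qr2 h le_rfl hJ ht
        (L.V A) P' (fun b => (l a0 b).comp (L.B A y)) Set.univ (Set.mem_univ b0))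
      simp only [finsum_eq_sum_of_fintype, G, w', AddMonoidHom.finsetSum_apply,
        AddMonoidHom.comp_apply, AddMonoidHom.flip_apply]
    have e3 : (av fun o => av fun o' => w' o * w' o' *
        (badS (L.V A) A (P s(a0, a0)) t1 (G o a0 - G o' a0)).re) ≤
        L.bb A (l a0 b0) (P s(a0, a0)) (P' s(b0, b0)) t1 t1 + 3 * γ := by
      have e4 : (av fun o => av fun o' => w' o * w' o' *
          (badS (L.V A) A (P s(a0, a0)) t1 (G o a0 - G o' a0)).re) =
          av fun κ : (Fin t1 → Lp A (P s(a0, a0))) × (Fin t1 → Lp A (P s(a0, a0))) =>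
            ind (df κ ∈ L.V A) * ‖cav fun o => (w' o : ℂ) * ee (G o a0 (df κ))‖ ^ 2 := by
        simp only [← Complex.re_ofReal_mul, ← cav_re, badS, ← cav_mul_left]
        rw [← Complex.ofReal_re (av _), ← cav_ofReal]
        refine congrArg _ ((cav_congr fun o => cav_comm _).trans ((cav_comm _).trans
          (cav_congr fun κ => ?_)))
        rw [Complex.ofReal_mul, ← mul_conj'', conj_cav, cav_mul_cav, ← cav_mul_left]
        refine cav_congr fun o => ?_
        rw [← cav_mul_left]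
        refine cav_congr fun o' => ?_
        simp only [AddMonoidHom.sub_apply, ee_sub, map_mul, Complex.conj_ofReal, Complex.ofReal_mul]
        ring
      rw [e4]
      refine le_trans (av_mono (g := fun κ => ind (df κ ∈ L.V A) *
        L.bet A (l a0 b0) (P' s(b0, b0)) t1 (df κ) + 3 * γ * 1) fun κ => ?_) ?_
      · have b1 := badS_re_mem (L.V A) A (P' s(b0, b0)) t1 ((l a0 b0).comp (L.B A (df κ)))
        rw [← bad_bet] at b1
        have b2 := pow_le_pow_left₀ (norm_nonneg _) (e2 (df κ)) 2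
        by_cases k : df κ ∈ L.V A
        · rw [ind_pos k]; nlinarith [b1.1, b1.2]
        · rw [ind_neg k]; linarith
      · rw [av_add, av_mul_left]
        exact add_le_add le_rfl (mul_le_of_le_one_right (by linarith) av_one_le)
    have e5 : ((av fun o : LO K r J t I => dens (bl (llab o) (ful P)) A *
        ind (Good (llab o) ∧ ∀ a, yv (llab o) a ∈ L.V A) *
          ‖L.trm r J t A φ P' (llab o) l‖ ^ 2 : ℝ) : ℂ) = cav fun o1 => cav fun o2 =>
        ((w o1 * w o2 : ℝ) : ℂ) * cav fun o : LO K r J t I => ((dens (bl (llab o) (ful P)) A *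
          ind (Good (llab o) ∧ ∀ a ∈ Set.univ, yv (llab o) a ∈ L.V A) : ℝ) : ℂ) *
          ee (∑ᶠ a, (G o1 a - G o2 a) (yv (llab o) a)) := by
      rw [← cav_ofReal]
      simp only [Complex.ofReal_mul _ (_ ^ 2), e1, ← cav_mul_left, Set.mem_univ, true_imp_iff]
      refine (cav_comm _).trans (cav_congr fun o1 => (cav_comm _).trans
        (cav_congr fun o2 => cav_congr fun o => by ring))
    refine (le_abs_self _).trans ?_
    rw [← Real.norm_eq_abs, ← Complex.norm_real, e5]
    refine (norm_cav_le _).trans ((av_mono fun o1 => (norm_cav_le _).trans (av_mono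
      (g := fun o2 => γ * (w' o1 * w' o2) + w' o1 * w' o2 *
        (badS (L.V A) A (P s(a0, a0)) t1 (G o1 a0 - G o2 a0)).re) fun o2 => ?_)).trans ?_)
    · rw [norm_mul, Complex.norm_real, Real.norm_of_nonneg (mul_nonneg (w0 _) (w0 _)),
        mul_comm γ, ← mul_add]
      exact mul_le_mul (mul_le_mul (w1 _) (w1 _) (w0 _) ((w0 _).trans (w1 _)))
        (bad_qr2 h le_rfl hJ ht (L.V A) P (fun a => G o1 a - G o2 a) Set.univ (Set.mem_univ a0))
        (norm_nonneg _) (mul_nonneg ((w0 _).trans (w1 _)) ((w0 _).trans (w1 _)))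
    · simp only [av_add, av_mul_left γ, ← av_mul_av]
      have w3 : 0 ≤ av w' := av_nonneg fun o => (w0 o).trans (w1 o)
      have : av w' * av w' ≤ 4 := by nlinarith
      nlinarith
  · classical
    have e1 : ∀ y : I → ℤ, ‖cav fun o : LO K r J t I => ((dens (bl (llab o) (ful P)) A *
        ind (Good (llab o) ∧ yv (llab o) a0 ∈ L.V A) : ℝ) : ℂ) *
          ee (l (L.B A (yv (llab o) a0) y))‖ ≤
        γ + (badS (L.V A) A (P s(a0, a0)) t1 (l.comp ((L.B A).flip y))).re := fun y => by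
      have := bad_qr2 h le_rfl hJ ht (L.V A) P (Pi.single a0 (l.comp ((L.B A).flip y))) {a0} rfl
      simp only [Set.mem_singleton_iff, forall_eq, Pi.single_eq_same] at this
      refine le_trans (le_of_eq (congrArg _ (cav_congr fun o => ?_))) this
      rw [finsum_eq_single _ a0 fun a ha => by simp [ha], Pi.single_eq_same]; rfl
    simp only [LD.bet, LD.bb, ← av_mul_left]
    rw [av_comm, av_comm fun κ κ' => ind (df κ ∈ L.V A) * _]
    refine le_trans (av_mono (g := fun κ' => ε * 1 + av fun κ :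
      (Fin t1 → Lp A (P s(a0, a0))) × (Fin t1 → Lp A (P s(a0, a0))) => ind (df κ ∈ L.V A) *
      (ind (df κ' ∈ L.V A) * (ee (l (L.B A (df κ) (df κ')))).re)) fun κ' => ?_) ?_
    · by_cases k : df κ' ∈ L.V A
      · have := (Complex.re_le_norm _).trans (e1 (df κ'))
        simp only [badS, cav_re, Complex.re_ofReal_mul] at this
        simp only [ind_pos k, one_mul]
        exact this.trans (add_le_add (by linarith) le_rfl)
      · simp only [ind_neg k, zero_mul, mul_zero, av_zero]; linarith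
    · rw [av_add, av_mul_left, add_comm]
      exact add_le_add le_rfl (mul_le_of_le_one_right hε.le av_one_le)

end NE
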