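import Pool.Agent.Lib.MP_ecee09_co.NE.GA
import Pool.Agent.Lib.MP_ecee09_co.NE.CQT

/-! The commutative ring `Alg S.V R`, and first lemmas on atoms. -/

namespace NE

open ComplexConjugate Filter Topology
open scoped InnerProductSpace

variable {κ : Ker} {H : Type} [NormedAddCommGroup H] [InnerProductSpace ℂ H] [CompleteSpace H]

noncomputable instance algCommRing (S : Sys κ H) (R : Set ℕ) : CommRing (Alg S.V R) :=
  { (inferInstance : Ring (Alg S.V R)) with
    mul_comm := fun a b => Subtype.ext (S.alg_comm a.2 b.2).eq }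

namespace Sys
variable (S : Sys κ H)

theorem mem_univ {R : Set ℕ} {Y : H →L[ℂ] H} (h : Y ∈ Alg S.V R) : Y ∈ Alg S.V Set.univ :=
  S.alg_mono (Set.subset_univ R) h

/-- an element of the algebra of all roots -/
def U {R : Set ℕ} {Y : H →L[ℂ] H} (h : Y ∈ Alg S.V R) : Alg S.V Set.univ := ⟨Y, S.mem_univ h⟩

theorem prod_fix {ι : Type} {R : Set ℕ} (s : Finset ι) (y : ι → Alg S.V R) (u : H)
    (h : ∀ i ∈ s, (y i).1 u = u) : (∏ i ∈ s, y i).1 u = u := by
  classical
  induction s using Finset.induction_on with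
  | empty => simp
  | insert i s hi ih =>
    rw [Finset.prod_insert hi]
    show (y i).1 ((∏ i ∈ s, y i).1 u) = u
    rw [ih fun j hj => h j (Finset.mem_insert_of_mem hj), h i (Finset.mem_insert_self _ _)]

theorem prod_mem {ι : Type} {R R' : Set ℕ} (s : Finset ι) (y : ι → Alg S.V R)
    (h : ∀ i ∈ s, (y i).1 ∈ Alg S.V R') : (∏ i ∈ s, y i).1 ∈ Alg S.V R' := by
  classical
  induction s using Finset.induction_on with
  | empty => simpa using one_mem _
  | insert i s hi ih =>
    rw [Finset.prod_insert hi]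
    exact mul_mem (h i (Finset.mem_insert_self _ _))
      (ih fun j hj => h j (Finset.mem_insert_of_mem hj))

theorem prod_proj {ι : Type} {R : Set ℕ} (s : Finset ι) (y : ι → Alg S.V R)
    (h : ∀ i ∈ s, IsStarProjection (y i).1) : IsStarProjection (∏ i ∈ s, y i).1 := by
  classical
  induction s using Finset.induction_on with
  | empty => simpa using IsStarProjection.one _
  | insert i s hi ih =>
    rw [Finset.prod_insert hi]
    exact (h i (Finset.mem_insert_self _ _)).mul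
      (ih fun j hj => h j (Finset.mem_insert_of_mem hj)) (S.alg_comm (y i).2 (∏ i ∈ s, y i).2)

theorem norm_prod_le {ι : Type} {R : Set ℕ} (s : Finset ι) (y : ι → Alg S.V R)
    (h : ∀ i ∈ s, ‖(y i).1‖ ≤ 1) (u : H) : ‖(∏ i ∈ s, y i).1 u‖ ≤ ‖u‖ := by
  classical
  induction s using Finset.induction_on with
  | empty => simp
  | insert i s hi ih =>
    rw [Finset.prod_insert hi]
    show ‖(y i).1 ((∏ i ∈ s, y i).1 u)‖ ≤ ‖u‖
    refine ((y i).1.le_of_opNorm_le (h i (Finset.mem_insert_self _ _)) _).trans ?_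
    rw [one_mul]
    exact ih fun j hj => h j (Finset.mem_insert_of_mem hj)

/-- an identity on the vacuum passes to patterns without loops at the roots -/
theorem zero_of_v0 {R : Set ℕ} (hR : Rᶜ.Infinite) {Y : H →L[ℂ] H} (hY : Y ∈ Alg S.V R)
    (h0 : Y (S.v ∅) = 0) {P : Pat} (hP : NoLoop P R) : Y (S.v P) = 0 := by
  rw [← norm_eq_zero, S.norm_alg_v hR hY hP, h0, norm_zero]

theorem Q_Q (x y : Finset ℕ) (u : H) : S.Q x y (S.Q x y u) = S.Q x y u := by
  have := (S.Q_proj x y).isIdempotentElem.eq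
  exact congrArg (fun T : H →L[ℂ] H => T u) this

theorem Q_comm (x y x' y' : Finset ℕ) (u : H) :
    S.Q x y (S.Q x' y' u) = S.Q x' y' (S.Q x y u) :=
  S.alg_apply_comm (S.Q_mem x y) (S.Q_mem x' y') u

theorem Q_fix_trans {x y z : Finset ℕ} {u : H} (h1 : S.Q x y u = u) (h2 : S.Q y z u = u) :
    S.Q x z u = u := by
  have := congrArg (fun T : H →L[ℂ] H => T u) (S.Q_trans x y z)
  simpa only [ContinuousLinearMap.mul_apply, h1, h2] using this

theorem Q_fix_symm {x y : Finset ℕ} {u : H} (h : S.Q x y u = u) : S.Q y x u = u := by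
  rwa [S.Q_symm]

end Sys

theorem disj_of_Aa {a x : Finset ℕ} (ha : Disjoint (a : Set ℕ) Aa) (hx : (x : Set ℕ) ⊆ Aa) :
    Disjoint a x := by
  rw [← Finset.disjoint_coe]; exact ha.mono_right hx

theorem compl_Aa_inf : (Aa)ᶜ.Infinite := by simpa using compl_Aa_infinite ∅

namespace Atom
variable {S : Sys κ H} {E : Type} [AddCommGroup E] [Fintype E] (A : Atom S E)

theorem La_La (u : H) : A.La (A.La u) = A.La u :=
  congrArg (fun T : H →L[ℂ] H => T u) A.proj.isIdempotentElem.eq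

theorem La_Q (x y : Finset ℕ) (u : H) : A.La (S.Q x y u) = S.Q x y (A.La u) :=
  S.alg_apply_comm A.mem (S.Q_mem x y) u

theorem same_fix {u : H} (hu : A.La u = u) (r r' : Fin 3) (e : E) :
    S.Q (A.x r e) (A.x r' e) u = u := by
  have := congrArg (fun T : H →L[ℂ] H => T u) (A.same r r' e)
  simpa only [ContinuousLinearMap.mul_apply, hu] using this

theorem add_fix {u : H} (hu : A.La u = u) {r r' : Fin 3} (r'' : Fin 3) (e e' : E) (h : r ≠ r') :
    S.Q (A.x r e ∪ A.x r' e') (A.x r'' (e + e')) u = u := by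
  have := congrArg (fun T : H →L[ℂ] H => T u) (A.add r r' r'' e e' h)
  simpa only [ContinuousLinearMap.mul_apply, hu] using this

theorem zero_fix {u : H} (hu : A.La u = u) : S.Q (A.x 0 0) ∅ u = u := by
  have := congrArg (fun T : H →L[ℂ] H => T u) A.zero
  simpa only [ContinuousLinearMap.mul_apply, hu] using this

/-- a vector with two different labels vanishes -/
theorem eq_zero_of_labels {u : H} (hu : A.La u = u) {a : Finset ℕ} {r r' : Fin 3} {e e' : E}
    (h : e ≠ e') (h1 : S.Q a (A.x r e) u = u) (h2 : S.Q a (A.x r' e') u = u) : u = 0 := by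
  have h3 := S.Q_fix_trans (S.Q_fix_symm h1) h2
  have := congrArg (fun T : H →L[ℂ] H => T u) (A.diff r r' e e' h)
  simp only [ContinuousLinearMap.mul_apply, hu, h3] at this
  simpa using this

/-- (L0) labels are orthogonal -/
theorem orth {u : H} (hu : A.La u = u) (a : Finset ℕ) {e e' : E} (h : e ≠ e') :
    S.Q a (A.x 0 e) (S.Q a (A.x 0 e') u) = 0 := by
  refine A.eq_zero_of_labels (a := a) (r := 0) (r' := 0) ?_ h (S.Q_Q _ _ _) ?_
  · rw [A.La_Q, A.La_Q, hu]
  · rw [S.Q_comm, S.Q_Q]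

theorem orth_ite [DecidableEq E] {u : H} (hu : A.La u = u) (a : Finset ℕ) (e e' : E) :
    S.Q a (A.x 0 e) (S.Q a (A.x 0 e') u) = if e = e' then S.Q a (A.x 0 e) u else 0 := by
  split_ifs with h
  · subst h; exact S.Q_Q _ _ _
  · exact A.orth hu a h

/-- (L1) labels add -/
theorem label_add {u : H} (hu : A.La u = u) {a a' : Finset ℕ} (ha : Disjoint (a : Set ℕ) Aa)
    (ha' : Disjoint (a' : Set ℕ) Aa) (h : Disjoint a a') {e e' : E}
    (h1 : S.Q a (A.x 0 e) u = u) (h2 : S.Q a' (A.x 0 e') u = u) :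
    S.Q (a ∪ a') (A.x 0 (e + e')) u = u := by
  have d1 : Disjoint (A.x 0 e) a' := (disj_of_Aa ha' (A.sub 0 e)).symm
  have s1 : S.Q (a ∪ a') (A.x 0 e ∪ a') u = u := by rw [S.Q_union h d1, h1]
  have h2' := S.Q_fix_trans h2 (A.same_fix hu 0 1 e')
  have s2 : S.Q (A.x 0 e ∪ a') (A.x 0 e ∪ A.x 1 e') u = u := by
    rw [Finset.union_comm _ a', Finset.union_comm _ (A.x 1 e'),
      S.Q_union d1.symm (A.disj 1 0 e' e (by decide)), h2']
  exact S.Q_fix_trans (S.Q_fix_trans s1 s2) (A.add_fix hu 0 e e' (by decide))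

theorem Qx_mem (a : Finset ℕ) (r : Fin 3) (e : E) : S.Q a (A.x r e) ∈ Alg S.V (Aa ∪ a) :=
  S.alg_mono (Set.union_subset Set.subset_union_right
    ((A.sub r e).trans Set.subset_union_left)) (S.Q_mem _ _)

theorem La_mem (a : Set ℕ) : A.La ∈ Alg S.V (Aa ∪ a) := S.alg_mono Set.subset_union_left A.mem

/-- (L2) cover on patterns -/
theorem cover_pat {a : Finset ℕ} (ha : Disjoint (a : Set ℕ) Aa) {P : Pat}
    (hP : NoLoop P (Aa ∪ a)) {Z : H →L[ℂ] H} (hZ : Z ∈ Alg S.V Set.univ) :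
    ∑ e, S.Q a (A.x 0 e) (A.La (Z (S.v P))) = A.La (Z (S.v P)) := by
  have hY : (∑ e, S.Q a (A.x 0 e) * A.La - A.La) ∈ Alg S.V (Aa ∪ a) :=
    sub_mem (sum_mem fun e _ => mul_mem (A.Qx_mem a 0 e) (A.La_mem _)) (A.La_mem _)
  have h0 : (∑ e, S.Q a (A.x 0 e) * A.La - A.La) (S.v ∅) = 0 := by
    simp only [ContinuousLinearMap.sub_apply, ContinuousLinearMap.sum_apply,
      ContinuousLinearMap.mul_apply, A.cover a ha, sub_self]
  have h1 := S.zero_of_v0 (compl_Aa_infinite a) hY h0 hP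
  have h2 := S.alg_apply_comm hY hZ (S.v P)
  rw [h1, map_zero] at h2
  simpa only [ContinuousLinearMap.sub_apply, ContinuousLinearMap.sum_apply,
    ContinuousLinearMap.mul_apply, sub_eq_zero] using h2

end Atom

/-- `t` odd numbers that miss a finite set -/
theorem exists_block (t : ℕ) (b : Finset ℕ) :
    ∃ a : Finset ℕ, a.card = t ∧ Disjoint (a : Set ℕ) Aa ∧ Disjoint a b := by
  obtain ⟨a, h1, h2⟩ := (compl_Aa_infinite b).exists_subset_card_eq t
  refine ⟨a, h2, ?_, ?_⟩
  · exact Set.disjoint_left.2 fun i hi h => h1 hi (Or.inl h)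
  · exact Finset.disjoint_left.2 fun i hi h => h1 hi (Or.inr h)

end NE
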