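import Pool.Agent.Lib.MP_ecee09_co.NE.TL0

/-! A bounded set does not change the label law of a fresh block of random size. -/

namespace NE

open ComplexConjugate Filter Topology
open scoped InnerProductSpace

namespace Sys
variable {κ : Ker} {H : Type} [NormedAddCommGroup H] [InnerProductSpace ℂ H] [CompleteSpace H]
  (S : Sys κ H)

theorem cd_eq {f : ℕ ↪ ℕ} {a : Finset ℕ} (ha : ∀ i, f i ∉ a) (y c : Finset ℕ) :
    S.EQ a.card y c false ∅ = star (S.V f ∅) * S.Q (a ∪ y.map f) (c.map f) * S.V f ∅ := by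
  simpa [rect] using S.EQ_eq ha y c false ∅

theorem cd_VV (f g : ℕ ↪ ℕ) : S.V g ∅ * S.V f ∅ = S.V (f.trans g) ∅ := by
  simpa [pmap] using S.V_comp f g ∅ ∅ (off_empty _) (off_empty _)

theorem cd_step {f : ℕ ↪ ℕ} {y c : Finset ℕ} {i : ℕ} (hf : ∀ j ∈ (y : Set ℕ) ∪ c, f j = j)
    (hi : ∀ j, f j ≠ i) (t : ℕ) :
    star (S.V f ∅) * S.EQ t (insert i y) c false ∅ * S.V f ∅ = S.EQ (t + 1) y c false ∅ := by
  have h1 := S.cd_eq (tl_sht t) (insert i y) c
  have h2 := S.cd_eq (f := f.trans (sht t)) (a := insert (sht t i) (Finset.range t)) (fun j h => by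
    rcases Finset.mem_insert.1 h with h | h
    exacts [hi j ((sht t).injective h), tl_sht t _ h]) y c
  rw [Finset.card_insert_of_notMem (tl_sht t i), ← Finset.map_map, ← Finset.map_map,
    tl_map_fix hf Set.subset_union_left, tl_map_fix hf Set.subset_union_right] at h2
  rw [Finset.card_range] at h1 h2
  rw [h1, h2, ← S.cd_VV, star_mul, Finset.map_insert, Finset.union_insert, Finset.insert_union]
  simp only [mul_assoc]

/-- the vector of `y` -/
noncomputable def cdu (n : ℕ) (c y : Finset ℕ) : H := S.Pib n y c (S.v ∅)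

theorem cdu_le (n : ℕ) (c y : Finset ℕ) : ‖S.cdu n c y‖ ≤ 1 :=
  ((S.Pib n y c).le_opNorm _).trans (mul_le_one₀
    (avs_norm_le (fun t => S.norm_EQ_le t y c false ∅) n) (norm_nonneg _) (S.norm_v_le _))

theorem cdu_map (n : ℕ) (c y : Finset ℕ) (f : ℕ ↪ ℕ) :
    S.cdu n (c.map f) (y.map f) = S.V f ∅ (S.cdu n c y) := by
  have h : ∀ t, S.EQ t (y.map f) (c.map f) false ∅ (S.v ∅) =
      S.V f ∅ (S.EQ t y c false ∅ (S.v ∅)) := fun t => by
    have := congrArg (fun T : H →L[ℂ] H => T (S.v ∅)) (S.EQ_V (off_empty f) t y c false ∅)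
    simpa only [mul_apply_eq_comp, S.V_v0, Finset.map_empty] using this
  simp only [cdu, Pib, avs, smul_apply, sum_apply, h, map_smul, map_sum]

theorem cdu_star {f : ℕ ↪ ℕ} {y c : Finset ℕ} {i : ℕ} (hf : ∀ j ∈ (y : Set ℕ) ∪ c, f j = j)
    (hi : ∀ j, f j ≠ i) (n : ℕ) :
    ‖S.cdu n c y - star (S.V f ∅) (S.cdu n c (insert i y))‖ ≤ 2 / (n + 1) := by
  have h : ∀ t, star (S.V f ∅) (S.EQ t (insert i y) c false ∅ (S.v ∅)) =
      S.EQ (t + 1) y c false ∅ (S.v ∅) := fun t => by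
    have := congrArg (fun T : H →L[ℂ] H => T (S.v ∅)) (S.cd_step hf hi t)
    simpa only [mul_apply_eq_comp, S.V_v0] using this
  have e : star (S.V f ∅) (S.cdu n c (insert i y)) =
      avs n (fun t => S.EQ (t + 1) y c false ∅) (S.v ∅) := by
    simp only [cdu, Pib, avs, smul_apply, sum_apply, h, map_smul, map_sum]
  rw [e, cdu, Pib, ← sub_apply]
  refine ((ContinuousLinearMap.le_opNorm _ _).trans
    (mul_le_of_le_one_right (norm_nonneg _) (S.norm_v_le _))).trans
    ((tl_shift (fun t => S.norm_EQ_le t y c false ∅) n 1).trans (le_of_eq ?_))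
  simp

theorem cd_star_le (f : ℕ ↪ ℕ) (u : H) : ‖star (S.V f ∅) u‖ ≤ ‖u‖ := by
  have h := tl_re_le u (S.V f ∅ (star (S.V f ∅) u))
  rw [← tl_inner_star, tl_re_self, S.norm_V (off_empty f), sq] at h
  rcases (norm_nonneg (star (S.V f ∅) u)).eq_or_lt with h0 | h0
  · rw [← h0]; exact norm_nonneg _
  · exact le_of_mul_le_mul_right h h0

theorem cd_fix (y c : Finset ℕ) {i : ℕ} (hy : i ∉ y) (hc : i ∉ c) :
    ∃ f : ℕ ↪ ℕ, (∀ j ∈ (y : Set ℕ) ∪ c, f j = j) ∧ ∀ j, f j ≠ i := by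
  obtain ⟨f, h1, h2⟩ := exists_fix (R := (y : Set ℕ) ∪ c)
    ((y.finite_toSet.union c.finite_toSet).infinite_compl) {i} (by simp [hy, hc])
  exact ⟨f, h1, fun j e => h2 j (by simp [e])⟩

theorem cd_one (n : ℕ) {y c : Finset ℕ} {i : ℕ} (hy : i ∉ y) (hc : i ∉ c) :
    ‖S.cdu n c (insert i y) - S.cdu n c y‖ ^ 2 ≤
      ‖S.cdu n c (insert i y)‖ ^ 2 - ‖S.cdu n c y‖ ^ 2 + 2 * (2 / (n + 1)) := by
  obtain ⟨f, hf, hi⟩ := cd_fix y c hy hc
  have h1 := S.cdu_map n c y f
  rw [tl_map_fix hf Set.subset_union_left, tl_map_fix hf Set.subset_union_right] at h1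
  have h2 := tl_re_le (S.cdu n c y) (S.cdu n c y - star (S.V f ∅) (S.cdu n c (insert i y)))
  rw [inner_sub_right, Complex.sub_re, tl_re_self, tl_star_inner, ← h1, tl_re_symm] at h2
  have h3 := mul_le_mul (S.cdu_le n c y) (S.cdu_star hf hi n) (norm_nonneg _) zero_le_one
  have h4 := @norm_sub_sq ℂ _ _ _ _ (S.cdu n c (insert i y)) (S.cdu n c y)
  simp only [RCLike.re_to_complex] at h4
  linarith

theorem cd_two (n : ℕ) {y c : Finset ℕ} {i i' : ℕ} (hy : i ∉ y) (hc : i ∉ c) (hy' : i' ∉ y)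
    (hc' : i' ∉ c) (h : i ≠ i') :
    ‖S.cdu n c (insert i y) - S.cdu n c y‖ ≤
      ‖S.cdu n c (insert i' (insert i y)) - S.cdu n c (insert i y)‖ + 2 * (2 / (n + 1)) := by
  have hs : ∀ j ∈ (y : Set ℕ) ∪ c, (Equiv.swap i i').toEmbedding j = j := fun j hj =>
    Equiv.swap_apply_of_ne_of_ne (by rintro rfl; exact hj.elim hy hc)
      (by rintro rfl; exact hj.elim hy' hc')
  have h1 := S.cdu_map n c y (Equiv.swap i i').toEmbedding
  have h2 := S.cdu_map n c (insert i y) (Equiv.swap i i').toEmbedding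
  rw [Finset.map_insert] at h2
  rw [tl_map_fix hs Set.subset_union_left, tl_map_fix hs Set.subset_union_right] at h1 h2
  have h3 : ‖S.cdu n c (insert i' y) - S.cdu n c y‖ = ‖S.cdu n c (insert i y) - S.cdu n c y‖ := by
    rw [← S.norm_V (off_empty (Equiv.swap i i').toEmbedding) (S.cdu n c (insert i y) - _),
      map_sub, ← h1, ← h2]
    simp
  obtain ⟨f, hf, hi⟩ := cd_fix (insert i' y) c (i := i) (by simp [h, hy]) hc
  have h4 := S.cdu_star hf hi n
  have h5 := S.cdu_star (y := y) (fun j hj => hf j (hj.elim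
    (fun hj => Or.inl (Finset.mem_insert_of_mem hj)) Or.inr)) hi n
  have h6 := S.cd_star_le f (S.cdu n c (insert i (insert i' y)) - S.cdu n c (insert i y))
  have e : S.cdu n c (insert i' y) - S.cdu n c y =
      star (S.V f ∅) (S.cdu n c (insert i (insert i' y)) - S.cdu n c (insert i y)) +
      ((S.cdu n c (insert i' y) - star (S.V f ∅) (S.cdu n c (insert i (insert i' y)))) -
        (S.cdu n c y - star (S.V f ∅) (S.cdu n c (insert i y)))) := by
    rw [map_sub]; abel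
  rw [← h3, e, Finset.insert_comm i' i]
  refine (norm_add_le _ _).trans (add_le_add h6 ((norm_sub_le _ _).trans ?_))
  linarith

theorem cd_chain (n : ℕ) (c : Finset ℕ) {r : ℝ} (hr : 0 ≤ r) (L : ℕ) :
    ∀ (y : Finset ℕ) (i : ℕ), i ∉ y → i ∉ c →
      r + L * (2 * (2 / (n + 1))) ≤ ‖S.cdu n c (insert i y) - S.cdu n c y‖ →
      L * r ^ 2 ≤ 1 - ‖S.cdu n c y‖ ^ 2 + L * (2 * (2 / (n + 1))) := by
  induction L with
  | zero =>
    intro y i _ _ _
    have := pow_le_one₀ (n := 2) (norm_nonneg _) (S.cdu_le n c y)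
    simpa using this
  | succ L ih =>
    intro y i hy hc h
    obtain ⟨i', hi'⟩ := Infinite.exists_notMem_finset (insert i (y ∪ c))
    simp only [Finset.mem_insert, Finset.mem_union, not_or] at hi'
    have h1 := S.cd_one n hy hc
    have h2 := S.cd_two n hy hc hi'.2.1 hi'.2.2 (Ne.symm hi'.1)
    have p : (0 : ℝ) ≤ 2 * (2 / (n + 1)) := by positivity
    push_cast at h ⊢
    have h3 := ih (insert i y) i' (by simp [hi'.1, hi'.2.1]) hi'.2.2 (by linarith)
    have h4 : r ^ 2 ≤ ‖S.cdu n c (insert i y) - S.cdu n c y‖ ^ 2 :=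
      pow_le_pow_left₀ hr (by nlinarith [mul_nonneg (Nat.cast_nonneg (α := ℝ) L) p]) 2
    linarith

theorem cd_small {δ : ℝ} (hδ : 0 < δ) : ∀ᶠ n in atTop, ∀ (c y : Finset ℕ) (i : ℕ), i ∉ y → i ∉ c →
    ‖S.cdu n c (insert i y) - S.cdu n c y‖ ≤ δ := by
  obtain ⟨L, hL⟩ := exists_nat_gt (2 / (δ / 2) ^ 2)
  rw [div_lt_iff₀ (by positivity)] at hL
  have h1 : Tendsto (fun n : ℕ => (L : ℝ) * (2 * (2 / (n + 1)))) atTop (𝓝 (L * (2 * 0))) :=
    ((tendsto_const_nhds.div_atTop (tendsto_natCast_atTop_atTop.atTop_add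
      tendsto_const_nhds)).const_mul 2).const_mul _
  rw [mul_zero, mul_zero] at h1
  filter_upwards [h1.eventually (gt_mem_nhds (half_pos hδ)), h1.eventually (gt_mem_nhds one_pos)]
    with n a1 a2 c y i hy hc
  by_contra h
  have := S.cd_chain n c (half_pos hδ).le L y i hy hc (by linarith [not_le.1 h])
  nlinarith [sq_nonneg ‖S.cdu n c y‖]

end Sys

theorem cd : CD := by
  intro κ H _ _ _ S y δ hδ
  have hδ' : 0 < δ / (y.card + 1) := by positivity
  filter_upwards [S.cd_small hδ'] with n hn c hc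
  have key : ∀ z : Finset ℕ, Disjoint z c →
      ‖S.cdu n c z - S.cdu n c ∅‖ ≤ z.card * (δ / (y.card + 1)) := by
    intro z
    induction z using Finset.induction_on with
    | empty => simp
    | insert i z hi ih =>
      intro hd
      rw [Finset.disjoint_insert_left] at hd
      have h1 := hn c z i hi hd.1
      have h2 := ih hd.2
      have h3 := norm_sub_le_norm_sub_add_norm_sub (S.cdu n c (insert i z)) (S.cdu n c z)
        (S.cdu n c ∅)
      rw [Finset.card_insert_of_notMem hi]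
      push_cast
      linarith
  refine (key y hc).trans ?_
  rw [← mul_div_assoc, div_le_iff₀ (by positivity)]
  nlinarith

end NE
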