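import Pool.Agent.Lib.MP_ecee09_co.NE.Defs3
import Pool.Agent.Lib.MP_ecee09_co.NE.CQT

/-! Classification of the coisotropic subgroups that contain the diagonal. -/

namespace NE

variable {E : Type} [AddCommGroup E] {τ : QT E} {R : ℕ} {ε : Fin R → Bool}
  {W : AddSubgroup (Fin R → E)}

/-- the signed sum of copies of a type -/
noncomputable def clpT (τ : QT E) (ε : Fin R → Bool) : QT (Fin R → E) where
  q x := ∑ r, if ε r then -τ.q (x r) else τ.q (x r)
  be := AddMonoidHom.mk' (fun x => AddMonoidHom.mk' (sB τ ε x) fun a b => by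
      simp only [sB, ← Finset.sum_add_distrib]
      refine Finset.sum_congr rfl fun r _ => ?_
      split_ifs <;> simp [add_comm]) fun a b => AddMonoidHom.ext fun y => by
    simp only [sB, AddMonoidHom.mk'_apply, AddMonoidHom.add_apply, ← Finset.sum_add_distrib]
    refine Finset.sum_congr rfl fun r _ => ?_
    split_ifs <;> simp [add_comm]
  q_add x y := by
    simp only [sB, AddMonoidHom.mk'_apply, ← Finset.sum_add_distrib]
    refine Finset.sum_congr rfl fun r _ => ?_
    split_ifs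
    · rw [Pi.add_apply, τ.q_add]
      abel
    · rw [Pi.add_apply, τ.q_add]

lemma clpT_be (x y : Fin R → E) : (clpT τ ε).be x y = sB τ ε x y := rfl

lemma clp_single (r : Fin R) (y : E) (x : Fin R → E) :
    (clpT τ ε).be (Pi.single r y) x = if ε r then -τ.be y (x r) else τ.be y (x r) := by
  rw [clpT_be, sB, Finset.sum_eq_single r (fun j _ hj => by simp [hj]) (by simp)]
  simp

lemma clp_single_zero {r : Fin R} {y : E} {x : Fin R → E} :
    (clpT τ ε).be (Pi.single r y) x = 0 ↔ τ.be y (x r) = 0 := by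
  rw [clp_single]
  split_ifs <;> simp

lemma clpT_nd (h : τ.ND) : (clpT τ ε).ND := fun x hx => funext fun r =>
  h.eq_zero fun y => clp_single_zero.1 (by rw [(clpT τ ε).symm, hx]; rfl)

/-- the values at `r` of the elements of `W` that vanish on `C` -/
def clpS (W : AddSubgroup (Fin R → E)) (r : Fin R) (C : Finset (Fin R)) : AddSubgroup E where
  carrier := {y | ∃ x ∈ W, x r = y ∧ ∀ i ∈ C, x i = 0}
  add_mem' := by
    rintro _ _ ⟨x, hx, rfl, h1⟩ ⟨y, hy, rfl, h2⟩
    exact ⟨x + y, W.add_mem hx hy, rfl, fun i hi => by simp [h1 i hi, h2 i hi]⟩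
  zero_mem' := ⟨0, W.zero_mem, rfl, fun _ _ => rfl⟩
  neg_mem' := by
    rintro _ ⟨x, hx, rfl, h1⟩
    exact ⟨-x, W.neg_mem hx, rfl, fun i hi => by simp [h1 i hi]⟩

/-- the complement of `C` in the set of parties other than `r` -/
def clpC (r : Fin R) (C : Finset (Fin R)) : Finset (Fin R) :=
  Finset.univ.filter fun i => i ∉ C ∧ i ≠ r

lemma mem_clpC {r i : Fin R} {C : Finset (Fin R)} : i ∈ clpC r C ↔ i ∉ C ∧ i ≠ r := by simp [clpC]

lemma clpC_clpC {r : Fin R} {C : Finset (Fin R)} (h : r ∉ C) : clpC r (clpC r C) = C := by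
  ext i
  simp only [mem_clpC, not_and, not_not, ne_eq]
  exact ⟨fun a => by_contra fun b => a.2 (a.1 b), fun a => ⟨fun b => absurd a b,
    fun b => h (b ▸ a)⟩⟩

variable [Finite E]

lemma clp_perp (h : τ.ND) (hp : ∀ x, (∀ w ∈ W, sB τ ε x w = 0) → x ∈ W) {r : Fin R}
    {C : Finset (Fin R)} (hr : r ∉ C) : τ.perp (clpS W r C) ≤ clpS W r (clpC r C) := by
  intro y hy
  have n := clpT_nd (ε := ε) h
  let K : AddSubgroup (Fin R → E) := AddSubgroup.pi (Cᶜ : Set (Fin R)) fun _ => ⊥
  have hK : ∀ {x}, x ∈ K ↔ ∀ i, i ∉ C → x i = 0 := Iff.rfl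
  have : (Pi.single r y : Fin R → E) ∈ (clpT τ ε).perp W ⊔ K := by
    rw [← n.perp_perp (_ ⊔ K)]
    intro x hx
    rw [(clpT τ ε).symm, clp_single_zero, τ.symm]
    refine hy _ ⟨x, ?_, rfl, fun i hi => h.eq_zero fun v => clp_single_zero.1
      (hx _ (AddSubgroup.mem_sup_right (hK.2 fun j hj => ?_)))⟩
    · rw [← n.perp_perp W]
      exact fun s hs => hx s (AddSubgroup.mem_sup_left hs)
    · exact Pi.single_eq_of_ne (fun e : j = i => hj (e ▸ hi)) _
  obtain ⟨a, ha, b, hb, e⟩ := AddSubgroup.mem_sup.1 this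
  refine ⟨a, hp a fun w hw => ((clpT τ ε).symm a w).trans (ha w hw), ?_, fun i hi => ?_⟩
  · simpa [hK.1 hb r hr] using congrFun e r
  · simpa [hK.1 hb i (mem_clpC.1 hi).1, (mem_clpC.1 hi).2] using congrFun e i

theorem clp [Nontrivial E] (h : τ.ND) : CLP τ := by
  classical
  intro R ε W hp hdiag
  by_contra hc
  rw [not_or, not_or] at hc
  obtain ⟨ha, hb, hc⟩ := hc
  obtain ⟨e0, he0⟩ := exists_ne (0 : E)
  have h1 : ∀ (r : Fin R) (C : Finset (Fin R)), r ∉ C → clpS W r C ≠ ⊤ → clpS W r C = ⊥ := by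
    intro r C hr q
    by_contra q'
    refine ha ⟨r, C, _, hr, q', q, fun s hs => hs, fun s hs => ?_⟩
    obtain ⟨x, hx, a, b⟩ := clp_perp h hp hr hs
    exact ⟨x, hx, a, fun i c d => b i (mem_clpC.2 ⟨c, d⟩)⟩
  have h4 : ∀ r : Fin R, clpS W r ∅ = ⊤ := fun r =>
    eq_top_iff.2 fun y _ => ⟨_, hdiag y, rfl, by simp⟩
  have h5 : ∀ (r : Fin R) (cl : Fin R → Fin 3),
      ¬∀ j, clpS W r (Finset.univ.filter fun i => i ≠ r ∧ cl i = j) = ⊤ := fun r cl q =>
    hb ⟨r, cl, fun j s => by
      obtain ⟨x, hx, a, b⟩ := (q j ▸ AddSubgroup.mem_top s : s ∈ clpS W r _)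
      exact ⟨x, hx, a, fun i c d => b i (by simp [c, d])⟩⟩
  have h6 : ∀ {r : Fin R} {C D : Finset (Fin R)}, clpS W r C = ⊤ → D ⊆ C → clpS W r D = ⊤ :=
    fun {r C D} q s => eq_top_iff.2 fun y _ => by
      obtain ⟨x, hx, a, b⟩ := (q ▸ AddSubgroup.mem_top y : y ∈ clpS W r _)
      exact ⟨x, hx, a, fun i hi => b i (s hi)⟩
  have h2 : ∀ (r : Fin R) (C : Finset (Fin R)), r ∉ C → clpS W r C = ⊤ →
      clpS W r (clpC r C) = ⊥ := by
    intro r C hr q
    refine h1 r _ (fun q => (mem_clpC.1 q).2 rfl) fun q' => h5 r (fun i => if i ∈ C then 0 else 1)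
      fun j => ?_
    obtain rfl | rfl | rfl : j = 0 ∨ j = 1 ∨ j = 2 := by revert j; decide
    · exact h6 q fun i hi => by_contra fun n =>
        absurd ((if_neg n).symm.trans (Finset.mem_filter.1 hi).2.2) (by decide)
    · exact h6 q' fun i hi => mem_clpC.2 ⟨fun n =>
        absurd ((if_pos n).symm.trans (Finset.mem_filter.1 hi).2.2) (by decide),
        (Finset.mem_filter.1 hi).2.1⟩
    · refine h6 (h4 r) fun i hi => ?_
      have := (Finset.mem_filter.1 hi).2.2
      split_ifs at this <;> exact absurd this (by decide)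
  have h3 : ∀ (r : Fin R) (C : Finset (Fin R)), r ∉ C → clpS W r C ≠ ⊤ →
      clpS W r (clpC r C) = ⊤ := by
    intro r C hr q
    refine eq_top_iff.2 fun y _ => clp_perp h hp hr fun t ht => ?_
    rw [h1 r C hr q, AddSubgroup.mem_bot] at ht
    simp [ht]
  have key : ∀ r : Fin R, ∃ r', r' ≠ r ∧ (∀ x ∈ W, x r' = x r) ∧
      ∃ x ∈ W, x r = e0 ∧ ∀ i, i ≠ r → i ≠ r' → x i = 0 := by
    intro r
    obtain ⟨C, hC, hmax⟩ := Finset.exists_max_image
      (Finset.univ.filter fun C : Finset (Fin R) => r ∉ C ∧ clpS W r C = ⊤) Finset.card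
      ⟨∅, by simp [h4]⟩
    simp only [Finset.mem_filter, Finset.mem_univ, true_and] at hC hmax
    obtain ⟨hr, hC⟩ := hC
    have hB := h2 r C hr hC
    obtain ⟨a, ha'⟩ : (clpC r C).Nonempty := Finset.nonempty_iff_ne_empty.2 fun q => by
      rw [q, h4] at hB
      exact top_ne_bot hB
    have hbig : ∀ D : Finset (Fin R), r ∉ D → C ⊆ D → (∃ b ∈ D, b ∉ C) →
        clpS W r (clpC r D) = ⊤ := by
      rintro D hD hCD ⟨b, hb1, hb2⟩
      refine h3 r D hD fun q => ?_
      have := hmax D ⟨hD, q⟩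
      have h5 : C.card < D.card := Finset.card_lt_card ⟨hCD, fun q' => hb2 (q' hb1)⟩
      omega
    rw [mem_clpC] at ha'
    by_cases hone : ∀ b, b ∉ C → b ≠ r → b = a
    · refine ⟨a, ha'.2, fun x hx => ?_, ?_⟩
      · have : x r - x a ∈ clpS W r (clpC r C) := ⟨_, W.sub_mem hx (hdiag (x a)), rfl,
          fun i hi => by simp [hone i (mem_clpC.1 hi).1 (mem_clpC.1 hi).2]⟩
        rw [hB, AddSubgroup.mem_bot] at this
        exact (sub_eq_zero.1 this).symm
      · obtain ⟨x, hx, q1, q2⟩ := (hC ▸ AddSubgroup.mem_top e0 : e0 ∈ clpS W r C)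
        exact ⟨x, hx, q1, fun i hi hi' => q2 i (by_contra fun q => hi' (hone i q hi))⟩
    · exfalso
      push Not at hone
      obtain ⟨b, hb1, hb2, hb3⟩ := hone
      have t1 := hbig (insert a C) (by simp [hr, ha'.2.symm]) (Finset.subset_insert _ _)
        ⟨a, by simp, ha'.1⟩
      have t2 := hbig (clpC r {a}) (fun q => (mem_clpC.1 q).2 rfl)
        (fun i hi => mem_clpC.2 ⟨fun q => ha'.1 (Finset.mem_singleton.1 q ▸ hi),
          fun q => hr (q ▸ hi)⟩) ⟨b, mem_clpC.2 ⟨by simpa using hb3, hb2⟩, hb1⟩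
      rw [clpC_clpC (by simpa using ha'.2.symm)] at t2
      refine h5 r (fun i => if i ∈ C then 0 else if i = a then 1 else 2) fun j => ?_
      obtain rfl | rfl | rfl : j = 0 ∨ j = 1 ∨ j = 2 := by revert j; decide
      · refine h6 hC fun i hi => by_contra fun q => ?_
        have := (Finset.mem_filter.1 hi).2.2
        split_ifs at this <;> exact absurd this (by decide)
      · refine h6 t2 fun i hi => by_contra fun q => ?_
        have := (Finset.mem_filter.1 hi).2.2
        rw [Finset.mem_singleton] at q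
        split_ifs at this <;> exact absurd this (by decide)
      · refine h6 t1 fun i hi => mem_clpC.2 ⟨fun q => ?_, (Finset.mem_filter.1 hi).2.1⟩
        have := (Finset.mem_filter.1 hi).2.2
        rcases Finset.mem_insert.1 q with q | q
        · rw [if_neg (q ▸ ha'.1), if_pos q] at this
          exact absurd this (by decide)
        · rw [if_pos q] at this
          exact absurd this (by decide)
  choose m hm1 hm2 hm3 using key
  have hinv : ∀ r, m (m r) = r := fun r => by_contra fun q => by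
    obtain ⟨x, hx, q1, q2⟩ := hm3 (m r)
    have := q2 r (hm1 r).symm fun q' => q q'.symm
    rw [← hm2 r x hx, q1] at this
    exact he0 this
  have two : ∀ r, ε (m r) = ε r → ∀ y : E, 2 • y = 0 := fun r q y => by
    have := hm2 r _ (hp (Pi.single r y - Pi.single (m r) y) fun w hw => by
      rw [← clpT_be, map_sub, AddMonoidHom.sub_apply, clp_single, clp_single, q, hm2 r w hw,
        sub_self])
    simp only [Pi.sub_apply, Pi.single_eq_same, Pi.single_eq_of_ne (hm1 r),
      Pi.single_eq_of_ne (hm1 r).symm, zero_sub, sub_zero] at this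
    rw [two_nsmul, ← neg_eq_iff_add_eq_zero, this]
  refine hc ⟨m, hinv, hm1, fun x => ⟨fun hx r => hm2 r x hx, fun hx => hp x fun w hw => ?_⟩, two⟩
  refine Finset.sum_involution (fun r _ => m r) (fun r _ => ?_) (fun r _ _ => hm1 r)
    (fun _ _ => Finset.mem_univ _) fun r _ => hinv r
  rw [hx r, hm2 r w hw]
  by_cases q : ε (m r) = ε r
  · have : τ.be (x r) (w r) + τ.be (x r) (w r) = 0 := by
      rw [← map_add, ← two_nsmul, two r q, map_zero]
    rw [q]
    split_ifs
    · rw [← neg_add, this, neg_zero]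
    · exact this
  · revert q
    cases ε r <;> cases ε (m r) <;> simp

end NE
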