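import Pool.Agent.Lib.MP_ecee09_co.NE.FamB

/-! Families: constructions. -/

namespace NE

open SD (F sm av ind cnt Tame av_add av_mul_left av_nonneg av_const av_congr av_comm av_prod
  av_equiv av_add_right av_surj ind_nonneg ind_le_one ind_pos ind_neg ind_mono ind_or_le
  cond_add cond_mul_left cond_nonneg cond_av cond_shift av_cond av_mono av_le_const)

namespace Fam

section gen
variable {X X' C C' Λ Λ' Λ'' O : Type}

/-- all base points, one label -/
lemma triv [Finite X] (a : X → Λ → C → X) (l0 : Λ)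
    (h : ∀ g : X → ℝ, (SD.av fun x => SD.av fun c => g (a x l0 c)) = SD.av g) :
    ∃ A : Fam a, ∀ f, A.E f = SD.av fun x => f x l0 :=
  ⟨⟨fun f => SD.av fun x => f x l0, fun _ _ => av_add _ _, fun _ _ => av_mul_left _ _,
    fun _ h => av_nonneg fun x => h x l0, h⟩, fun _ => rfl⟩

/-- the uniform mixture of finitely many families -/
lemma mix [Finite O] [Nonempty O] {a : X → Λ → C → X} (S : O → Fam a) :
    ∃ A : Fam a, ∀ f, A.E f = SD.av fun o => (S o).E f :=
  ⟨⟨fun f => SD.av fun o => (S o).E f, fun _ _ => by simp only [Fam.add, av_add],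
    fun _ _ => by simp only [Fam.smul, av_mul_left],
    fun _ h => av_nonneg fun o => (S o).pos _ h,
    fun g => by simp only [Fam.marg, av_const]⟩, fun _ => rfl⟩

/-- composition; the family on the cell may depend on the cell -/
lemma comp {a : X → Λ → C → X} {a' : X → Λ' → C' → X} {a'' : C' → Λ'' → C → C'} (A : Fam a')
    (S : X → Λ' → Fam a'') (r : Λ' → Λ'' → Λ)
    (hr : ∀ x l y m z, a (a' x l y) (r l m) z = a' x l (a'' y m z)) :
    ∃ A' : Fam a, ∀ f, A'.E f = A.E fun x l => (S x l).E fun y m => f (a' x l y) (r l m) := by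
  refine ⟨⟨fun f => A.E fun x l => (S x l).E fun y m => f (a' x l y) (r l m), ?_, ?_, ?_, ?_⟩,
    fun _ => rfl⟩
  · intro f g; simp only [Fam.add]
  · intro c f; simp only [Fam.smul]
  · intro f h; exact A.pos _ fun x l => (S x l).pos _ fun _ _ => h _ _
  · intro g
    rw [← A.marg g]
    refine A.congr' fun x l => ?_
    simp only [hr]
    exact (S x l).marg fun y => g (a' x l y)

/-- transport: each cell of `A` is replaced by a random cell `(b x l o, r x l o)` on another
space; the marginal identity is the only thing to check -/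
lemma transport [Finite O] {a : X → Λ → C → X} {a' : X' → Λ' → C' → X'} (A : Fam a')
    (b : X' → Λ' → O → X) (r : X' → Λ' → O → Λ)
    (h : ∀ g : X → ℝ, (A.E fun x l => SD.av fun o => SD.av fun c =>
      g (a (b x l o) (r x l o) c)) = SD.av g) :
    ∃ A' : Fam a, ∀ f, A'.E f = A.E fun x l => SD.av fun o => f (b x l o) (r x l o) :=
  ⟨⟨fun f => A.E fun x l => SD.av fun o => f (b x l o) (r x l o),
    fun _ _ => by simp only [av_add, Fam.add], fun _ _ => by simp only [av_mul_left, Fam.smul],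
    fun _ h => A.pos _ fun _ _ => av_nonneg fun _ => h _ _, h⟩, fun _ => rfl⟩

/-- smaller cells inside the cells of `A` -/
lemma refine [Finite O] {a : X → Λ → C → X} {a' : X → Λ' → C' → X} (A : Fam a')
    (b : X → Λ' → O → X) (r : X → Λ' → O → Λ)
    (h : ∀ x l (g : X → ℝ), (SD.av fun o => SD.av fun c => g (a (b x l o) (r x l o) c)) =
      SD.av fun c => g (a' x l c)) :
    ∃ A' : Fam a, ∀ f, A'.E f = A.E fun x l => SD.av fun o => f (b x l o) (r x l o) :=
  A.transport b r fun g => by simp only [h]; exact A.marg g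

/-- push a family along maps of base points and labels -/
lemma push {a : X → Λ → C → X} {a' : X' → Λ' → C' → X'} (A : Fam a') (b : X' → Λ' → X)
    (r : X' → Λ' → Λ)
    (h : ∀ g : X → ℝ, (A.E fun x l => SD.av fun c => g (a (b x l) (r x l) c)) = SD.av g) :
    ∃ A' : Fam a, ∀ f, A'.E f = A.E fun x l => f (b x l) (r x l) :=
  ⟨⟨fun f => A.E fun x l => f (b x l) (r x l), fun _ _ => A.add _ _, fun _ _ => A.smul _ _,
    fun _ h => A.pos _ fun _ _ => h _ _, h⟩, fun _ => rfl⟩

/-- choose a family for each cell: a good one where it exists, a default one elsewhere -/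
lemma choose_cell {β : Type} (p : X → Λ → Prop) (R : β → Prop) (Q : X → Λ → β → Prop)
    (h : ∀ x l, p x l → ∃ B, R B ∧ Q x l B) (B0 : β) (h0 : R B0) :
    ∃ S : X → Λ → β, (∀ x l, R (S x l)) ∧ (∀ x l, p x l → Q x l (S x l)) ∧
      ∀ x l, ¬ p x l → S x l = B0 := by
  have : ∀ x l, ∃ B, R B ∧ (p x l → Q x l B) ∧ (¬ p x l → B = B0) := fun x l => by
    by_cases hp : p x l
    · obtain ⟨B, h1, h2⟩ := h x l hp
      exact ⟨B, h1, fun _ => h2, fun h' => absurd hp h'⟩
    · exact ⟨B0, h0, fun h' => absurd h' hp, fun _ => rfl⟩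
  choose S h1 h2 h3 using this
  exact ⟨S, h1, h2, h3⟩

end gen

section cells
variable {E E' I K L X C : Type}

lemma junk_nonneg {a : X → Lab I K → C → X} (A : Fam a) : 0 ≤ A.junk :=
  A.pos _ fun _ _ => ind_nonneg _

lemma junk_le_one [Finite X] [Nonempty X] [Finite C] [Nonempty C] {a : X → Lab I K → C → X}
    (A : Fam a) : A.junk ≤ 1 := A.le_const fun _ _ => ind_le_one _

/-- a bound valid on good cells, with a crude bound on the others -/
lemma le_of_good {a : X → Lab I K → C → X} (A : Fam a) {f g : X → Lab I K → ℝ} {M : ℝ}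
    (h : ∀ x Φ, Good Φ → f x Φ ≤ g x Φ) (h' : ∀ x Φ, f x Φ ≤ g x Φ + M) :
    A.E f ≤ A.E g + M * A.junk := by
  rw [junk, ← A.smul, ← A.add]
  refine A.mono fun x Φ => ?_
  by_cases hg : Good Φ
  · rw [ind_neg (not_not.2 hg), mul_zero, add_zero]; exact h x Φ hg
  · rw [ind_pos hg, mul_one]; exact h' x Φ

lemma fc_ow_lcomp (x : Om I) (Φ : Lab I K) (y : Om K) (Ψ : Lab K L) (z : Om L) :
    ow (ow x Φ y) (lcomp Φ Ψ) z = ow x Φ (ow y Ψ z) := by
  funext c
  induction c using Sym2.ind with | _ i j => ?_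
  simp only [ow, lab2, lcomp, Sym2.lift_mk]
  rcases Φ i with _ | k <;> rcases Φ j with _ | l <;> simp
  rcases hk : Ψ k with _ | k' <;> rcases hl : Ψ l with _ | l' <;> simp [ow, lab2, hk, hl]

lemma fc_cell_lcomp [AddCommGroup E] (x : OmE E I) (Φ : Lab I K) (y : OmE E K) (Ψ : Lab K L)
    (z : OmE E L) : cell (cell x Φ y) (lcomp Φ Ψ) z = cell x Φ (cell y Ψ z) := by
  refine Prod.ext (funext fun i => ?_) (fc_ow_lcomp _ _ _ _ _)
  simp only [cell, spr, lcomp, Pi.add_apply]
  rcases Φ i with _ | k <;> simp [add_assoc, spr]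

lemma ind_lcomp_le (Φ : Lab I K) (Ψ : Lab K L) :
    ind (¬ Good (lcomp Φ Ψ)) ≤ ind (¬ Good Φ) + ind (¬ Good Ψ) :=
  (ind_mono fun h => not_and_or.1 fun hc => h fun l => by
    obtain ⟨k, hk⟩ := hc.2 l
    obtain ⟨i, hi⟩ := hc.1 k
    exact ⟨i, by simp [lcomp, hi, hk]⟩).trans (ind_or_le _ _)

lemma fc_ow_none (x : Om I) (P : Om K) : ow x (fun _ => none) P = x := by
  funext c
  induction c using Sym2.ind with | _ i j => rfl

lemma fc_cell_none [AddCommGroup E] (x : OmE E I) (y : OmE E K) : cell x (fun _ => none) y = x :=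
  Prod.ext (funext fun _ => add_zero _) (fc_ow_none _ _)

lemma fc_good_crd {ι : K → I} (h : Function.Injective ι) : Good (crd ι) :=
  fun k => ⟨ι k, Function.partialInv_left h k⟩

/-- junk of a composition along `lcomp` -/
lemma junk_comp {C' C'' : Type} [Finite C'] [Nonempty C'] [Finite C''] [Nonempty C'']
    {a : X → Lab I L → C → X} {a' : X → Lab I K → C' → X} {a'' : C' → Lab K L → C'' → C'}
    (A : Fam a') (S : X → Lab I K → Fam a'') (A' : Fam a)
    (h : ∀ f, A'.E f = A.E fun x Φ => (S x Φ).E fun y Ψ => f (a' x Φ y) (lcomp Φ Ψ)) :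
    A'.junk ≤ A.junk + A.E fun x Φ => (S x Φ).junk := by
  rw [junk, h, junk, ← A.add]
  refine A.mono fun x Φ => ?_
  rw [junk, ← (S x Φ).const (ind (¬ Good Φ)), ← (S x Φ).add]
  exact (S x Φ).mono fun _ Ψ => ind_lcomp_le Φ Ψ

variable [Finite I] [Finite K] [Finite L]

omit [Finite I] in
/-- composition of families on `Om` -/
lemma ocomp (A : OFam I K) (S : Om I → Lab I K → OFam K L) :
    ∃ A' : OFam I L, (∀ f, A'.E f = A.E fun x Φ => (S x Φ).E fun y Ψ => f (ow x Φ y) (lcomp Φ Ψ)) ∧
      A'.junk ≤ A.junk + A.E fun x Φ => (S x Φ).junk := by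
  obtain ⟨A', h⟩ := comp (a := fun (x : Om I) (Φ : Lab I L) (P : Om L) => ow x Φ P) A S lcomp
    fc_ow_lcomp
  exact ⟨A', h, A.junk_comp S A' h⟩

lemma fc_tile {ι : K → I} (h : Function.Injective ι) (g : Om I → ℝ) :
    (SD.av fun x => SD.av fun P : Om K => g (ow x (crd ι) P)) = SD.av g := by
  have e1 : ∀ (x : Om I) (P : Om K), pb ι (ow x (crd ι) P) = P := fun x P => funext fun c => by
    induction c using Sym2.ind with | _ i j => ?_
    simp [pb, ow, lab2, crd, Function.partialInv_left h]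
  have e2 : ∀ (x : Om I) (P : Om K), ow (ow x (crd ι) P) (crd ι) (pb ι x) = x := fun x P =>
    funext fun c => by
      induction c using Sym2.ind with | _ i j => ?_
      simp only [ow, lab2, Sym2.lift_mk]
      rcases hi : crd ι i with _ | k <;> rcases hj : crd ι j with _ | l <;> simp
      rw [← (h.isPartialInv _ _).1 hi,
        ← (h.isPartialInv _ _).1 hj]
      rfl
  have inv : Function.Involutive fun z : Om I × Om K => (ow z.1 (crd ι) z.2, pb ι z.1) :=
    fun z => Prod.ext (e2 _ _) (e1 _ _)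
  rw [← av_prod fun z : Om I × Om K => g (ow z.1 (crd ι) z.2)]
  refine (av_equiv inv.toPerm fun z => g z.1).trans ?_
  rw [av_prod]
  simp only [av_const]

/-- the coordinate family on `Om` -/
lemma ocrd {ι : K → I} (h : Function.Injective ι) :
    ∃ A : OFam I K, (∀ f, A.E f = SD.av fun x => f x (crd ι)) ∧ A.junk = 0 := by
  obtain ⟨A, hA⟩ := triv (fun (x : Om I) (Φ : Lab I K) (P : Om K) => ow x Φ P) (crd ι) (fc_tile h)
  exact ⟨A, hA, by rw [junk, hA, ind_neg (not_not.2 (fc_good_crd h)), av_const]⟩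

lemma fc_emb (h : Nat.card K ≤ Nat.card I) : Nonempty (K ↪ I) := by
  let _ := Fintype.ofFinite I
  let _ := Fintype.ofFinite K
  exact Function.Embedding.nonempty_of_card_le (by simpa using h)

/-- a family without junk exists as soon as `K` is not larger than `I` -/
lemma ocrd' (h : Nat.card K ≤ Nat.card I) : ∃ A : OFam I K, A.junk = 0 := by
  obtain ⟨ι⟩ := fc_emb h
  exact (ocrd ι.injective).imp fun _ h => h.2

/-- the junk family on `Om` -/
lemma ojunk : ∃ A : OFam I K, ∀ f, A.E f = SD.av fun x => f x fun _ => none :=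
  triv _ _ fun g => by simp only [fc_ow_none, av_const]

variable [AddCommGroup E] [Finite E] [AddCommGroup E'] [Finite E']

omit [Finite I] in
/-- composition of families on `OmE` -/
lemma gcomp (A : GFam E I K) (S : OmE E I → Lab I K → GFam E K L) :
    ∃ A' : GFam E I L,
      (∀ f, A'.E f = A.E fun x Φ => (S x Φ).E fun y Ψ => f (cell x Φ y) (lcomp Φ Ψ)) ∧
      A'.junk ≤ A.junk + A.E fun x Φ => (S x Φ).junk := by
  obtain ⟨A', h⟩ := comp (a := fun (x : OmE E I) (Φ : Lab I L) (y : OmE E L) => cell x Φ y) A S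
    lcomp fc_cell_lcomp
  exact ⟨A', h, A.junk_comp S A' h⟩

/-- a uniform base shift absorbs the block shift -/
lemma fc_shift (x : Om I) (Φ : Lab I K) (g : OmE E I → ℝ) :
    (SD.av fun b : I → E => SD.av fun y : OmE E K => g (cell (b, x) Φ y)) =
      SD.av fun P : Om K => SD.av fun b : I → E => g (b, ow x Φ P) := by
  rw [av_comm, av_prod]
  refine (av_congr fun t => av_congr fun P =>
    av_add_right (fun b : I → E => g (b, ow x Φ P)) (spr t Φ)).trans (av_const _)

/-- lift a family on `Om` to `OmE`, the group part of the base point being uniform -/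
lemma olift (A : OFam I K) :
    ∃ A' : GFam E I K, (∀ f, A'.E f = A.E fun x Φ => SD.av fun b : I → E => f (b, x) Φ) ∧
      A'.junk = A.junk := by
  obtain ⟨A', h⟩ := A.transport (a := fun (x : OmE E I) (Φ : Lab I K) (y : OmE E K) => cell x Φ y)
    (fun x _ (b : I → E) => (b, x)) (fun _ Φ _ => Φ) fun g => by
      simp only [fc_shift]
      rw [A.marg fun x => SD.av fun b : I → E => g (b, x), av_comm, ← av_prod]
  exact ⟨A', h, by simp only [junk, h, av_const]⟩

/-- forget the group part -/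
lemma forget (A : GFam E I K) :
    ∃ A' : OFam I K, (∀ f, A'.E f = A.E fun x Φ => f x.2 Φ) ∧ A'.junk = A.junk := by
  obtain ⟨A', h⟩ := A.push (a := fun (x : Om I) (Φ : Lab I K) (P : Om K) => ow x Φ P)
    (fun x _ => x.2) (fun _ Φ => Φ) fun g => by
      have := A.marg fun x => g x.2
      simp only [av_prod, cell, av_const] at this
      exact this
  exact ⟨A', h, by simp only [junk, h]⟩

/-- the coordinate family on `OmE` -/
lemma gcrd {ι : K → I} (h : Function.Injective ι) :
    ∃ A : GFam E I K, (∀ f, A.E f = SD.av fun x => f x (crd ι)) ∧ A.junk = 0 := by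
  obtain ⟨A, hA, h0⟩ := ocrd h
  obtain ⟨A', hA', h1⟩ := A.olift (E := E)
  exact ⟨A', fun f => by rw [hA', hA, av_comm, ← av_prod fun x : OmE E I => f x (crd ι)],
    h1.trans h0⟩

lemma gcrd' (h : Nat.card K ≤ Nat.card I) : ∃ A : GFam E I K, A.junk = 0 := by
  obtain ⟨ι⟩ := fc_emb h
  exact (gcrd ι.injective).imp fun _ h => h.2

/-- the junk family on `OmE` -/
lemma gjunk : ∃ A : GFam E I K, ∀ f, A.E f = SD.av fun x => f x fun _ => none :=
  triv _ _ fun g => by simp only [fc_cell_none, av_const]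

omit [Finite I] in
/-- fix the shift: the cells of a `GFam` are cut into cells with a constant group part -/
lemma fixShift (A : GFam E I K) :
    ∃ A' : Fam fun (x : OmE E I) (Φ : Lab I K) (P : Om K) => ((x.1, ow x.2 Φ P) : OmE E I),
      (∀ f, A'.E f = A.E fun x Φ => SD.av fun t : K → E => f (x.1 + spr t Φ, x.2) Φ) ∧
      A'.junk = A.junk := by
  obtain ⟨A', h⟩ := A.refine
    (a := fun (x : OmE E I) (Φ : Lab I K) (P : Om K) => ((x.1, ow x.2 Φ P) : OmE E I))
    (fun x Φ (t : K → E) => (x.1 + spr t Φ, x.2)) (fun _ Φ _ => Φ) fun x Φ g => by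
      rw [av_prod]; rfl
  exact ⟨A', h, by simp only [junk, h, av_const]⟩

/-- lift along an onto homomorphism of the groups: the group part of the base point is uniform in
the fibre -/
lemma glift (A : GFam E' I K) (π : E →+ E') (hπ : Function.Surjective π) :
    ∃ A' : GFam E I K, (∀ f, A'.E f = A.E fun x Φ =>
      SD.cond (fun b : I → E => π ∘ b) (fun b => f (b, x.2) Φ) x.1) ∧ A'.junk = A.junk := by
  have hL : ∀ {J : Type} (b b' : J → E), π ∘ (b + b') = π ∘ b + π ∘ b' := fun b b' =>
    funext fun _ => map_add _ _ _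
  have hS : ∀ {J : Type}, Function.Surjective fun b : J → E => π ∘ b := hπ.comp_left
  refine ⟨⟨fun f => A.E fun x Φ => SD.cond (fun b : I → E => π ∘ b) (fun b => f (b, x.2) Φ) x.1,
    ?_, ?_, ?_, ?_⟩, fun _ => rfl, ?_⟩
  · intro f g; simp only [cond_add, Fam.add]
  · intro c f; simp only [cond_mul_left, Fam.smul]
  · intro f h; exact A.pos _ fun x Φ => cond_nonneg _ (fun b => h _ _) _
  · intro g
    have m := A.marg fun x => SD.cond (fun b : I → E => π ∘ b) (fun b => g (b, x.2)) x.1
    rw [av_prod, av_comm] at m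
    simp only [av_cond] at m
    rw [av_prod g, av_comm, ← m]
    refine A.congr' fun x Φ => ?_
    rw [cond_av _ fun b (y : OmE E K) => g (cell (b, x.2) Φ y), av_prod, av_prod,
      ← av_surj (fun t : K → E => π ∘ t) hL hS]
    refine av_congr fun t => av_congr fun P => ?_
    refine (cond_shift _ hL (fun b => g (b, ow x.2 Φ P)) (spr t Φ) x.1).trans ?_
    refine congrArg (fun s => SD.cond _ _ (x.1 + s)) (funext fun i => ?_)
    simp only [spr, Function.comp]
    rcases Φ i with _ | k <;> simp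
  · exact A.congr' fun x Φ => SD.cond_comp _ hL hS (fun _ => ind (¬ Good Φ)) x.1

omit [Finite I] [Finite K] [Finite E] in
lemma res_marg (A : GFam E I K) (g : OmE E I → ℝ) :
    (A.E fun x Φ => SD.av (res g x Φ)) = SD.av g := A.marg g

omit [Finite I] [Finite K] in
lemma ores_marg (A : OFam I K) (g : Om I → ℝ) :
    (A.E fun x Φ => SD.av (ores g x Φ)) = SD.av g := A.marg g

omit [Finite I] [Finite K] [Finite E] in
lemma res_n2 (A : GFam E I K) (h : OmE E I → ℂ) : (A.E fun x Φ => n2 (res h x Φ)) = n2 h :=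
  A.marg fun x => ‖h x‖ ^ 2

omit [Finite I] [Finite K] in
lemma ores_n2 (A : OFam I K) (h : Om I → ℂ) : (A.E fun x Φ => n2 (ores h x Φ)) = n2 h :=
  A.marg fun x => ‖h x‖ ^ 2

lemma res_ip (A : GFam E I K) (f g : OmE E I → ℂ) :
    (A.cE fun x Φ => ip (res f x Φ) (res g x Φ)) = ip f g :=
  A.cE_marg fun x => f x * (starRingEnd ℂ) (g x)

lemma ores_ip (A : OFam I K) (f g : Om I → ℂ) :
    (A.cE fun x Φ => ip (ores f x Φ) (ores g x Φ)) = ip f g :=
  A.cE_marg fun x => f x * (starRingEnd ℂ) (g x)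

end cells

end Fam

end NE
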