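import Pool.Agent.Lib.MP_ecee09_co.NE.Defs4
import Pool.Agent.Lib.MP_ecee09_co.NE.FamC

/-! Particles: `rs`, `Sub`, `NN`, `mm`, `subP`, `bad`. -/

namespace NE

open SD

section basic
variable {α : Type}

lemma si_nonneg (P : Set α) (p : α) : 0 ≤ si P p := ind_nonneg _

lemma si_le_one (P : Set α) (p : α) : si P p ≤ 1 := ind_le_one _

lemma si_mono {P P' : Set α} (h : P ⊆ P') (p : α) : si P p ≤ si P' p := ind_mono fun hp => h hp

lemma si_mul_ind (P : Set α) (p : α) (q : Prop) : si P p * ind q = ind (p ∈ P ∧ q) :=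
  (ind_and _ _).symm

lemma sm_si (P : Set α) : sm (si P) = cnt P := rfl

/-- a sum of indicators of a condition with at most one solution -/
lemma sm_ind_uniq [Finite α] (p : α → Prop) (h : ∀ a b, p a → p b → a = b) :
    sm (fun a => ind (p a)) = ind (∃ a, p a) := by
  by_cases e : ∃ a, p a
  · obtain ⟨a, ha⟩ := e
    rw [ind_pos ⟨a, ha⟩, ← sm_ind_one a]
    exact sm_congr fun b => ind_congr ⟨fun hb => h b a hb ha, fun hb => hb ▸ ha⟩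
  · rw [ind_neg e, ← sm_zero (α := α)]
    exact sm_congr fun b => ind_neg fun hb => e ⟨b, hb⟩

end basic

variable {Γ I K L : Type}

lemma DD_eq [Finite Γ] [Finite I] : DD Γ I = Nat.card (I → Γ) := by
  rw [DD, Nat.card_fun]; push_cast; rfl

lemma DD_nonneg : 0 ≤ DD Γ I := by rw [DD]; positivity

lemma DD_pos [Finite Γ] [Nonempty Γ] : 0 < DD Γ I := pow_pos card_pos' _

lemma one_le_DD [Finite Γ] [Nonempty Γ] : 1 ≤ DD Γ I :=
  one_le_pow₀ (Nat.one_le_cast.2 Nat.card_pos)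

variable [AddCommGroup Γ] {ε : Γ} {p p' : Pt Γ I} {x : OmE Γ I} {Φ : Lab I K} {Ψ : Lab K L}
  {q q' : Pt Γ K} {y : OmE Γ K}

lemma rs_add (ε : Γ) (p : Pt Γ I) (b c : I → Γ) (A : Om I) :
    rs ε p (b + c, A) = rs ε p (b, A) + c := by
  funext i; simp only [rs, Pi.add_apply]; abel

lemma rs_sub (ε : Γ) (p : Pt Γ I) (b c : I → Γ) (A : Om I) :
    rs ε p (b - c, A) = rs ε p (b, A) - c := by
  funext i; simp only [rs, Pi.sub_apply]; abel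

/-- the shift by a block vector -/
lemma rs_shift_eq_zero (ε : Γ) (p : Pt Γ I) (x : OmE Γ I) (c : I → Γ) :
    rs ε p (x.1 - c, x.2) = 0 ↔ rs ε p x = c := by rw [rs_sub, sub_eq_zero]

lemma rs_snd (ε : Γ) (v ξ : I → Γ) (x : OmE Γ I) : rs ε (v, ξ) x = rs ε (v, 0) x + ξ := by
  funext i; simp only [rs, Pi.add_apply, Pi.zero_apply, add_zero]

lemma rs_eq_TM (ε : Γ) (p : Pt Γ I) (x : OmE Γ I) :
    rs ε p x = TM x.2 p + (x.1 + fun i => (x.2 s(i, i)).val • ε) := by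
  funext i; simp only [rs, TM, Pi.add_apply]; abel

/-- at a given point a particle is determined by its label and its residue -/
lemma rs_unique (h : rs ε p x = rs ε p' x) (e : p.1 = p'.1) : p = p' := by
  refine Prod.ext e (funext fun i => ?_)
  have h1 := congrFun h i
  simp only [rs, e] at h1
  exact add_left_cancel h1

lemma present_unique (h : rs ε p x = 0) (h' : rs ε p' x = 0) (e : p.1 = p'.1) : p = p' :=
  rs_unique (h.trans h'.symm) e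

lemma Sub.unique (hΦ : Good Φ) (h : Sub ε p x Φ q) (h' : Sub ε p x Φ q') : q = q' :=
  Prod.ext (h.1.trans h'.1.symm) (hΦ.spr_inj (h.2.symm.trans h'.2))

lemma subP_mono {P P' : Set (Pt Γ I)} (h : P ⊆ P') (x : OmE Γ I) (Φ : Lab I K) :
    subP ε P x Φ ⊆ subP ε P' x Φ := fun _ ⟨h1, p, hp, h2⟩ => ⟨h1, p, h hp, h2⟩

variable [Finite I]

lemma TM_add (A : Om I) (h h' : Pt Γ I) : TM A (h + h') = TM A h + TM A h' := by
  simp only [TM, Prod.fst_add, Prod.snd_add, adj_add]; abel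

/-- `T_A` as a homomorphism -/
noncomputable def TMH (A : Om I) : Pt Γ I →+ (I → Γ) := AddMonoidHom.mk' (TM A) (TM_add A)

lemma TMH_apply (A : Om I) (h : Pt Γ I) : TMH A h = TM A h := rfl

lemma TM_sub (A : Om I) (h h' : Pt Γ I) : TM A (h - h') = TM A h - TM A h' := map_sub (TMH A) _ _

lemma rs_sub_rs (ε : Γ) (p p' : Pt Γ I) (x : OmE Γ I) : rs ε p x - rs ε p' x = TM x.2 (p - p') := by
  rw [rs_eq_TM, rs_eq_TM, TM_sub, add_sub_add_right_eq_sub]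

lemma rs_add_pt (ε : Γ) (p h : Pt Γ I) (x : OmE Γ I) : rs ε (p + h) x = rs ε p x + TM x.2 h := by
  rw [rs_eq_TM, rs_eq_TM, TM_add]; abel

variable [Finite K]

lemma TM_ow (A : Om I) (Φ : Lab I K) (P : Om K) (h : Pt Γ I) :
    TM (ow A Φ P) h = TM (ow A Φ 0) h + spr (adj P (wl h.1 Φ)) Φ := by
  rw [TM, TM, adj_ow]; abel

lemma rs_cell (ε : Γ) (p : Pt Γ I) (x : OmE Γ I) (Φ : Lab I K) (y : OmE Γ K) :
    rs ε p (cell x Φ y) = rs ε p (cell x Φ 0) + spr (rs ε (wl p.1 Φ, 0) y) Φ := by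
  funext i
  simp only [rs, cell, Pi.add_apply, adj_ow x.2 Φ y.2, Prod.snd_zero, Prod.fst_zero, spr_zero,
    Pi.zero_apply]
  rcases h : Φ i with _ | k
  · simp only [spr_of_none _ h, ow_none_left _ _ h, add_zero]
  · simp only [spr_some _ h, ow_some _ _ h h, rs, Pi.zero_apply, ZMod.val_zero, zero_smul]
    abel

lemma Sub.rs_cell (h : Sub ε p x Φ q) (y : OmE Γ K) :
    rs ε p (cell x Φ y) = spr (rs ε q y) Φ := by
  rw [NE.rs_cell, h.2, ← spr_add, ← h.1, add_comm, ← rs_snd]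

lemma rs_cell_iff {t : K → Γ} :
    rs ε p (cell x Φ y) = spr t Φ ↔ ∃ q, Sub ε p x Φ q ∧ rs ε q y = t := by
  refine ⟨fun h => ⟨(wl p.1 Φ, t - rs ε (wl p.1 Φ, 0) y), ⟨rfl, ?_⟩, ?_⟩,
    fun ⟨q, h1, h2⟩ => h2 ▸ h1.rs_cell y⟩
  · rw [spr_sub, ← h, rs_cell ε p x Φ y, add_sub_cancel_right]
  · rw [rs_snd, add_sub_cancel]

/-- present on the cell iff the sub-particle is present -/
lemma present_iff : rs ε p (cell x Φ y) = 0 ↔ ∃ q, Sub ε p x Φ q ∧ rs ε q y = 0 := by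
  rw [← rs_cell_iff, spr_zero]

lemma Sub.present_iff (hΦ : Good Φ) (h : Sub ε p x Φ q) :
    rs ε p (cell x Φ y) = 0 ↔ rs ε q y = 0 := by
  rw [h.rs_cell, ← spr_zero Φ]; exact hΦ.spr_inj.eq_iff

omit [Finite I] [Finite K] in
lemma cand_iff : (∃ q, Sub ε p x Φ q) ↔ ∃ t, rs ε p (cell x Φ 0) = spr t Φ :=
  ⟨fun ⟨q, h⟩ => ⟨q.2, h.2⟩, fun ⟨t, h⟩ => ⟨(_, t), rfl, h⟩⟩

/-- sub-particles of a composite -/
lemma sub_lcomp [Finite L] {r : Pt Γ L} :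
    Sub ε p (cell x Φ y) (lcomp Φ Ψ) r ↔ ∃ q, Sub ε p x Φ q ∧ Sub ε q y Ψ r := by
  rw [Sub, cell_lcomp, spr_lcomp, wl_lcomp, rs_cell_iff]
  exact ⟨fun ⟨h1, q, h2, h3⟩ => ⟨q, h2, h2.1 ▸ h1, h3⟩,
    fun ⟨q, h1, h2, h3⟩ => ⟨h1.1 ▸ h2, q, h1, h3⟩⟩

lemma subP_lcomp [Finite L] (ε : Γ) (P : Set (Pt Γ I)) (x : OmE Γ I) (Φ : Lab I K) (y : OmE Γ K)
    (Ψ : Lab K L) : subP ε P (cell x Φ y) (lcomp Φ Ψ) = subP ε (subP ε P x Φ) y Ψ := by
  ext r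
  simp only [subP, Set.mem_ofPred_eq, sub_lcomp]
  exact and_congr_right fun h => ⟨fun ⟨p, hp, q, h1, h2⟩ =>
    ⟨q, ⟨Gen.of_wl (h2.1 ▸ h), p, hp, h1⟩, h2⟩, fun ⟨q, ⟨_, p, hp, h1⟩, h2⟩ => ⟨p, hp, q, h1, h2⟩⟩

/-- an unreduced present particle is a present member of `subP` -/
lemma exists_unred {P : Set (Pt Γ I)} :
    (∃ p ∈ P, rs ε p (cell x Φ y) = 0 ∧ Gen (wl p.1 Φ)) ↔ ∃ q ∈ subP ε P x Φ, rs ε q y = 0 := by
  simp only [present_iff]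
  exact ⟨fun ⟨p, hp, ⟨q, h1, h2⟩, h3⟩ => ⟨q, ⟨h1.1 ▸ h3, p, hp, h1⟩, h2⟩,
    fun ⟨q, ⟨h3, p, hp, h1⟩, h2⟩ => ⟨p, hp, ⟨q, h1, h2⟩, h1.1 ▸ h3⟩⟩

lemma bad_lcomp [Finite L] (ε : Γ) (P : Set (Pt Γ I)) (x : OmE Γ I) (Φ : Lab I K) (y : OmE Γ K)
    (Ψ : Lab K L) : bad ε P (cell x Φ y) (lcomp Φ Ψ) = bad ε (subP ε P x Φ) y Ψ := by
  simp only [bad, exists_unred, subP_lcomp]

variable [Finite Γ]

omit [Finite I] in
lemma bad_nonneg (ε : Γ) (P : Set (Pt Γ I)) (x : OmE Γ I) (Φ : Lab I K) : 0 ≤ bad ε P x Φ :=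
  av_ind_nonneg _

omit [Finite I] in
lemma bad_le_one (ε : Γ) (P : Set (Pt Γ I)) (x : OmE Γ I) (Φ : Lab I K) : bad ε P x Φ ≤ 1 :=
  av_ind_le_one _

omit [Finite I] in
lemma bad_mono (ε : Γ) {P P' : Set (Pt Γ I)} (h : P ⊆ P') (x : OmE Γ I) (Φ : Lab I K) :
    bad ε P x Φ ≤ bad ε P' x Φ := av_mono fun _ => ind_mono fun ⟨p, hp, h'⟩ => ⟨p, h hp, h'⟩

section counts
variable {m m' : Pt Γ I → ℝ}
omit [Finite K]

lemma NN_nonneg (h : ∀ p, 0 ≤ m p) (x : OmE Γ I) : 0 ≤ NN ε m x :=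
  sm_nonneg fun p => mul_nonneg (h p) (ind_nonneg _)

lemma NN_mono (h : ∀ p, m p ≤ m' p) (x : OmE Γ I) : NN ε m x ≤ NN ε m' x :=
  sm_mono fun p => mul_le_mul_of_nonneg_right (h p) (ind_nonneg _)

lemma NN_add (m m' : Pt Γ I → ℝ) (x : OmE Γ I) :
    NN ε (fun p => m p + m' p) x = NN ε m x + NN ε m' x := by simp only [NN, add_mul, sm_add]

lemma NN_sub (m m' : Pt Γ I → ℝ) (x : OmE Γ I) :
    NN ε (fun p => m p - m' p) x = NN ε m x - NN ε m' x := by simp only [NN, sub_mul, sm_sub]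

omit [Finite I] [Finite Γ] in
lemma NN_si (ε : Γ) (P : Set (Pt Γ I)) (x : OmE Γ I) :
    NN ε (si P) x = sm fun p => ind (p ∈ P ∧ rs ε p x = 0) := sm_congr fun _ => si_mul_ind _ _ _

lemma NN_si_eq (ε : Γ) (P : Set (Pt Γ I)) (x : OmE Γ I) :
    NN ε (si P) x = {p | p ∈ P ∧ rs ε p x = 0}.ncard := (NN_si ε P x).trans (cnt_eq_ncard _)

lemma ind_le_NN (ε : Γ) (P : Set (Pt Γ I)) (x : OmE Γ I) :
    ind (∃ p ∈ P, rs ε p x = 0) ≤ NN ε (si P) x := (ind_exists_le _).trans_eq (NN_si ε P x).symm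

/-- the residue is uniform -/
lemma av_rs (ε : Γ) (p : Pt Γ I) (f : (I → Γ) → ℝ) : av (fun x => f (rs ε p x)) = av f := by
  rw [av_prod, av_comm]
  refine (av_congr fun A => ?_).trans (av_const _)
  simp only [rs_eq_TM, add_comm (TM _ _), add_assoc]
  exact av_add_right f _

lemma av_rs_eq (ε : Γ) (p : Pt Γ I) (w : I → Γ) :
    av (fun x => ind (rs ε p x = w)) = 1 / DD Γ I := by
  rw [av_rs ε p fun u => ind (u = w), DD_eq]
  simpa using av_ind_eq w fun _ => 1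

lemma av_NN (ε : Γ) (m : Pt Γ I → ℝ) : av (NN ε m) = lam m := by
  change av (fun x => sm fun p => m p * ind (rs ε p x = 0)) = _
  rw [av_sm_comm, lam, ← sm_div]
  exact sm_congr fun p => by rw [av_mul_left, av_rs_eq, mul_one_div]

omit [AddCommGroup Γ] in
lemma lam_nonneg (h : ∀ p, 0 ≤ m p) : 0 ≤ lam m := div_nonneg (sm_nonneg h) DD_nonneg

omit [AddCommGroup Γ] in
lemma lam_mono (h : ∀ p, m p ≤ m' p) : lam m ≤ lam m' :=
  div_le_div_of_nonneg_right (sm_mono h) DD_nonneg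

omit [AddCommGroup Γ] in
lemma lam_sub (m m' : Pt Γ I → ℝ) : lam (fun p => m p - m' p) = lam m - lam m' := by
  rw [lam, sm_sub, sub_div]; rfl

omit [AddCommGroup Γ] in
lemma lam_add (m m' : Pt Γ I → ℝ) : lam (fun p => m p + m' p) = lam m + lam m' := by
  rw [lam, sm_add, add_div]; rfl

lemma lam_le_of_tame {D : ℕ → ℝ} (h : Tame D (NN ε m)) : lam m ≤ D 1 :=
  (av_NN ε m).ge.trans ((av_mono fun _ => (le_abs_self _).trans_eq (pow_one _).symm).trans (h 1))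

lemma mm_nonneg (h : ∀ p, 0 ≤ m p) (x : OmE Γ I) (Φ : Lab I K) (q : Pt Γ K) : 0 ≤ mm ε m x Φ q :=
  sm_nonneg fun p => mul_nonneg (h p) (ind_nonneg _)

lemma mm_mono (h : ∀ p, m p ≤ m' p) (x : OmE Γ I) (Φ : Lab I K) (q : Pt Γ K) :
    mm ε m x Φ q ≤ mm ε m' x Φ q :=
  sm_mono fun p => mul_le_mul_of_nonneg_right (h p) (ind_nonneg _)

lemma mm_si (ε : Γ) (P : Set (Pt Γ I)) (x : OmE Γ I) (Φ : Lab I K) (q : Pt Γ K) :
    mm ε (si P) x Φ q = {p | p ∈ P ∧ Sub ε p x Φ q}.ncard :=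
  (sm_congr fun _ => si_mul_ind _ _ _).trans (cnt_eq_ncard _)

lemma si_subP_le (ε : Γ) (P : Set (Pt Γ I)) (x : OmE Γ I) (Φ : Lab I K) (q : Pt Γ K) :
    si (subP ε P x Φ) q ≤ mm ε (si P) x Φ q :=
  ((ind_mono fun h => h.2).trans (ind_exists_le _)).trans_eq
    (sm_congr fun _ => (si_mul_ind _ _ _).symm)

end counts

lemma NN_mm (ε : Γ) (m : Pt Γ I → ℝ) (x : OmE Γ I) (Φ : Lab I K) (y : OmE Γ K) :
    NN ε (mm ε m x Φ) y = NN ε m (cell x Φ y) := by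
  simp only [NN, mm, ← sm_mul_right]
  rw [sm_comm]
  refine sm_congr fun p => ?_
  simp only [mul_assoc, ← ind_and, sm_mul_left, present_iff]
  rw [sm_ind_uniq _ fun _ _ h h' => present_unique h.2 h'.2 (h.1.1.trans h'.1.1.symm)]

lemma mm_lcomp [Finite L] (ε : Γ) (m : Pt Γ I → ℝ) (x : OmE Γ I) (Φ : Lab I K) (y : OmE Γ K)
    (Ψ : Lab K L) : mm ε m (cell x Φ y) (lcomp Φ Ψ) = mm ε (mm ε m x Φ) y Ψ := by
  funext r
  simp only [mm, ← sm_mul_right]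
  rw [sm_comm]
  refine sm_congr fun p => ?_
  simp only [mul_assoc, ← ind_and, sm_mul_left, sub_lcomp]
  rw [sm_ind_uniq _ fun _ _ h h' => rs_unique (h.2.2.trans h'.2.2.symm) (h.1.1.trans h'.1.1.symm)]

lemma lam_mm (ε : Γ) (m : Pt Γ I → ℝ) (x : OmE Γ I) (Φ : Lab I K) :
    lam (mm ε m x Φ) = av fun y => NN ε m (cell x Φ y) :=
  (av_NN ε _).symm.trans (av_congr (NN_mm ε m x Φ))

lemma E_lam_mm (A : GFam Γ I K) (ε : Γ) (m : Pt Γ I → ℝ) :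
    (A.E fun x Φ => lam (mm ε m x Φ)) = lam m := by
  simp only [lam_mm ε]
  exact (A.marg _).trans (av_NN ε m)

lemma NN_subP_le (ε : Γ) (P : Set (Pt Γ I)) (x : OmE Γ I) (Φ : Lab I K) (y : OmE Γ K) :
    NN ε (si (subP ε P x Φ)) y ≤
      sm fun p => ind (p ∈ P ∧ rs ε p (cell x Φ y) = 0 ∧ Gen (wl p.1 Φ)) := by
  rw [NN_si]
  exact sm_ind_le_of_inj _ _ (fun q p => q.1 = wl p.1 Φ)
    (fun q ⟨⟨h1, p, hp, h2⟩, h3⟩ => ⟨p, ⟨hp, present_iff.2 ⟨q, h2, h3⟩, h2.1 ▸ h1⟩, h2.1⟩)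
    fun _ _ _ h h' e e' => present_unique h.2 h'.2 (e.trans e'.symm)

lemma NN_subP_le' (ε : Γ) (P : Set (Pt Γ I)) (x : OmE Γ I) (Φ : Lab I K) (y : OmE Γ K) :
    NN ε (si (subP ε P x Φ)) y ≤ NN ε (si P) (cell x Φ y) :=
  (NN_mono (si_subP_le ε P x Φ) y).trans_eq (NN_mm ε _ x Φ y)

lemma lam_subP_le (ε : Γ) (P : Set (Pt Γ I)) (x : OmE Γ I) (Φ : Lab I K) :
    lam (si (subP ε P x Φ)) ≤ av fun y : OmE Γ K =>
      sm fun p => ind (p ∈ P ∧ rs ε p (cell x Φ y) = 0 ∧ Gen (wl p.1 Φ)) :=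
  (av_NN ε _).ge.trans (av_mono (NN_subP_le ε P x Φ))

lemma lam_subP_le' (ε : Γ) (P : Set (Pt Γ I)) (x : OmE Γ I) (Φ : Lab I K) :
    lam (si (subP ε P x Φ)) ≤ lam (mm ε (si P) x Φ) := lam_mono (si_subP_le ε P x Φ)

/-- the sub-particles do not gain mass along a family -/
lemma E_lam_subP_le (A : GFam Γ I K) (ε : Γ) (P : Set (Pt Γ I)) :
    (A.E fun x Φ => lam (si (subP ε P x Φ))) ≤ lam (si P) :=
  (A.mono (lam_subP_le' ε P)).trans_eq (E_lam_mm A ε _)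

lemma bad_eq (ε : Γ) (P : Set (Pt Γ I)) (x : OmE Γ I) (Φ : Lab I K) :
    bad ε P x Φ = av fun y => ind (∃ q ∈ subP ε P x Φ, rs ε q y = 0) := by
  simp only [bad, exists_unred]

lemma bad_le_lam (ε : Γ) (P : Set (Pt Γ I)) (x : OmE Γ I) (Φ : Lab I K) :
    bad ε P x Φ ≤ lam (si (subP ε P x Φ)) :=
  (bad_eq ε P x Φ).trans_le ((av_mono (ind_le_NN ε _)).trans_eq (av_NN ε _))

omit [Finite K] in
/-- the residue at a fixed point of a random cell is uniform -/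
lemma av_rs_cell (ε : Γ) (p : Pt Γ I) (Φ : Lab I K) (y : OmE Γ K) (f : (I → Γ) → ℝ) :
    av (fun x => f (rs ε p (cell x Φ y))) = av f := by
  rw [av_prod, av_comm]
  refine (av_congr fun A => ?_).trans (av_const _)
  simp only [rs_eq_TM, cell, add_comm (TM _ _), add_assoc]
  exact av_add_right f _

omit [Finite K] in
lemma av_sub_pt (ε : Γ) (p : Pt Γ I) (Φ : Lab I K) (q : Pt Γ K) :
    av (fun x => ind (Sub ε p x Φ q)) = ind (q.1 = wl p.1 Φ) / DD Γ I := by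
  simp only [Sub, ind_and, av_mul_left]
  rw [av_rs_cell ε p Φ 0 fun u => ind (u = spr q.2 Φ), DD_eq, div_eq_mul_one_div]
  congr 1
  simpa using av_ind_eq (spr q.2 Φ) fun _ => 1

/-- the probability of being a candidate -/
lemma av_cand (ε : Γ) (p : Pt Γ I) (hΦ : Good Φ) :
    av (fun x => ind (∃ q, Sub ε p x Φ q)) = DD Γ K / DD Γ I := by
  simp only [← sm_ind_uniq _ fun _ _ => Sub.unique hΦ]
  rw [av_sm_comm]
  simp only [av_sub_pt]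
  rw [sm_div, sm_prod, sm_comm]
  simp only [sm_ind_one, sm_const, mul_one, DD_eq]

end NE
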