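import Pool.Agent.Lib.MP_ecee09_co.NE.Stat
import Pool.Agent.Lib.MP_ecee09_co.NE.Part4

/-! Counting tuples with a minimal relation. -/

namespace NE

open SD

section cv
variable {X Y M : Type} [AddCommGroup X] [Finite X] [AddCommGroup Y] [Finite Y]

omit [AddCommGroup X] [AddCommGroup Y] in
lemma cn_psh (f : X → Y) (m : X → ℝ) (g : Y → ℝ) :
    sm (fun x => m x * g (f x)) = sm fun c => psh f m c * g c := by
  simp only [psh, ← sm_mul_right]
  rw [sm_comm]
  refine sm_congr fun x => ?_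
  rw [← sm_ind_eq' (f x) fun c => m x * g c]
  exact sm_congr fun c => by ring

omit [AddCommGroup X] [AddCommGroup Y] in
lemma cn_psh_sq (f : X → Y) (m : X → ℝ) :
    sm (fun c => psh f m c ^ 2) = sm fun p => sm fun p' => m p * m p' * ind (f p = f p') := by
  simp only [sq]
  rw [← cn_psh]
  refine sm_congr fun p => ?_
  rw [psh, ← sm_mul_left]
  exact sm_congr fun p' => by rw [ind_congr eq_comm, mul_assoc]

omit [AddCommGroup X] [AddCommGroup Y] in
lemma cn_psh_sm (f : X → Y) (m : X → ℝ) : sm (psh f m) = sm m := by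
  simpa using (cn_psh f m fun _ => 1).symm

omit [AddCommGroup X] [AddCommGroup Y] [Finite Y] in
lemma cn_psh_nonneg (f : X → Y) {m : X → ℝ} (h : ∀ x, 0 ≤ m x) (c : Y) : 0 ≤ psh f m c :=
  sm_nonneg fun x => mul_nonneg (h x) (ind_nonneg _)

omit [AddCommGroup X] [AddCommGroup Y] [Finite Y] in
lemma cn_psh_inj {f : X → Y} (hf : Function.Injective f) (m : X → ℝ) (x : X) :
    psh f m (f x) = m x := by
  rw [psh, ← sm_ind_eq x m]
  exact sm_congr fun p => by rw [ind_congr hf.eq_iff, mul_comm]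

omit [Finite Y] in
lemma cn_ead_psh (T : X →+ Y) (hT : Function.Bijective T) (m : X → ℝ) :
    ead (psh T m) (psh T m) (psh T m) (psh T m) = ead m m m m := by
  let e := Equiv.ofBijective T hT
  have he : ∀ x, e x = T x := fun _ => rfl
  rw [ead, ← sm_equiv e]
  refine sm_congr fun a => ?_
  rw [← sm_equiv e]
  refine sm_congr fun b => ?_
  rw [← sm_equiv e]
  refine sm_congr fun c => ?_
  simp only [he, ← map_add, ← map_sub, cn_psh_inj hT.1]

/-- weighted number of tuples with a given sum of images -/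
noncomputable def cvt (T : M → X →+ Y) (m : M → X → ℝ) (y : Y) : ℝ :=
  sm fun q : M → X => (∏ᶠ r, m r (q r)) * ind (∑ᶠ r, T r (q r) = y)

omit [Finite X] [Finite Y] in
lemma cvt_equiv {M' : Type} (e : M' ≃ M) (T : M → X →+ Y) (m : M → X → ℝ) (y : Y) :
    cvt (fun r => T (e r)) (fun r => m (e r)) y = cvt T m y := by
  rw [cvt, cvt, ← sm_equiv (Equiv.arrowCongr e.symm (Equiv.refl X))]
  refine sm_congr fun q => ?_
  rw [← finprod_comp_equiv e, ← finsum_comp_equiv e]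
  rfl

lemma cvt_succ {n : ℕ} (T : Fin (n + 1) → X →+ Y) (m : Fin (n + 1) → X → ℝ) (y : Y) :
    cvt T m y = sm fun c => psh (T 0) (m 0) c *
      cvt (fun r : Fin n => T r.succ) (fun r => m r.succ) (y - c) := by
  rw [← cn_psh (T 0) (m 0) fun c => cvt (fun r : Fin n => T r.succ) (fun r => m r.succ) (y - c),
    cvt, ← sm_equiv (Fin.consEquiv fun _ => X), sm_prod]
  refine sm_congr fun x => ?_
  rw [cvt, ← sm_mul_left]
  refine sm_congr fun q => ?_
  simp only [finprod_eq_prod_of_fintype, finsum_eq_sum_of_fintype, Fin.prod_univ_succ,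
    Fin.sum_univ_succ, Fin.consEquiv_apply, Fin.cons_zero, Fin.cons_succ]
  rw [mul_assoc, ind_congr eq_sub_iff_add_eq'.symm]

omit [Finite X] [Finite Y] in
lemma cvt_one (T : Fin 1 → X →+ Y) (m : Fin 1 → X → ℝ) (y : Y) :
    cvt T m y = psh (T 0) (m 0) y := by
  rw [cvt, psh, ← sm_equiv (Equiv.funUnique (Fin 1) X)]
  refine sm_congr fun q => ?_
  simp only [finprod_eq_prod_of_fintype, finsum_eq_sum_of_fintype, Fin.prod_univ_one,
    Fin.sum_univ_one]
  rfl

lemma cvt_two (T : Fin 2 → X →+ Y) (m : Fin 2 → X → ℝ) (y : Y) :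
    cvt T m y = cnv (psh (T 0) (m 0)) (psh (T 1) (m 1)) y := by
  rw [cvt_succ]
  simp only [cvt_one]
  rfl

lemma cvt_three (T : Fin 3 → X →+ Y) (m : Fin 3 → X → ℝ) (y : Y) :
    cvt T m y = sm fun c => psh (T 0) (m 0) c *
      cnv (psh (T 1) (m 1)) (psh (T 2) (m 2)) (y - c) := by
  rw [cvt_succ]
  simp only [cvt_two]
  rfl

/-- the other members cost their total weight -/
lemma cvt_le (P : (X →+ Y) → (X → ℝ) → Prop) {j : ℕ} {B L : ℝ} (hB : 0 ≤ B) (hL : 0 ≤ L)
    (h0 : ∀ T m, P T m → (∀ x, 0 ≤ m x) ∧ sm m ≤ L)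
    (hj : ∀ (T : Fin j → X →+ Y) (m : Fin j → X → ℝ), (∀ r, P (T r) (m r)) → ∀ y, cvt T m y ≤ B)
    [Finite M] (hM : j ≤ Nat.card M) (T : M → X →+ Y) (m : M → X → ℝ) (h : ∀ r, P (T r) (m r))
    (y : Y) : cvt T m y ≤ B * L ^ (Nat.card M - j) := by
  have key : ∀ (k : ℕ) (T : Fin (j + k) → X →+ Y) (m : Fin (j + k) → X → ℝ),
      (∀ r, P (T r) (m r)) → ∀ y, cvt T m y ≤ B * L ^ k := by
    intro k
    induction k with
    | zero => intro T m h y; simpa using hj T m h y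
    | succ k ih =>
      intro T m h y
      rw [cvt_succ (n := j + k)]
      obtain ⟨h1, h2⟩ := h0 _ _ (h 0)
      refine (sm_mono fun c => mul_le_mul_of_nonneg_left
        (ih _ _ (fun r => h r.succ) (y - c)) (cn_psh_nonneg _ h1 c)).trans ?_
      rw [sm_mul_right, cn_psh_sm, pow_succ, mul_comm, ← mul_assoc]
      exact mul_le_mul_of_nonneg_left h2 (by positivity)
  rw [← cvt_equiv (Finite.equivFinOfCardEq (Nat.add_sub_cancel' hM).symm).symm]
  exact key _ _ _ (fun r => h _) y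

omit [Finite Y] in
lemma cn_sq_sub (g : Y → ℝ) (y : Y) : sm (fun c => g (y - c) ^ 2) = sm fun c => g c ^ 2 :=
  sm_equiv (Equiv.subLeft y) fun c => g c ^ 2

lemma cn_two {f g : Y → ℝ} {A : ℝ} (hf : sm (fun c => f c ^ 2) ≤ A)
    (hg : sm (fun c => g c ^ 2) ≤ A) (y : Y) : cnv f g y ≤ A := by
  have h : cnv f g y ≤ sm fun c => (f c ^ 2 + g (y - c) ^ 2) / 2 :=
    sm_mono fun c => by nlinarith [sq_nonneg (f c - g (y - c))]
  rw [sm_div, sm_add, cn_sq_sub] at h
  linarith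

lemma cn_three {f g k : Y → ℝ} {A E : ℝ} (hE : 0 ≤ E) (hf : sm (fun c => f c ^ 2) ≤ A)
    (hg : ead g g g g ≤ E) (hk : ead k k k k ≤ E) (y : Y) :
    (sm fun c => f c * cnv g k (y - c)) ^ 2 ≤ A * E := by
  refine (sm_cs _ _).trans (mul_le_mul hf ?_ (sm_nonneg fun _ => sq_nonneg _)
    ((sm_nonneg fun _ => sq_nonneg _).trans hf))
  rw [cn_sq_sub]
  simp only [sq]
  rw [← ead_eq_cnv]
  refine (abs_le_of_sq_le_sq' ((ead_mixed_sq g k).trans ?_) hE).2
  rw [sq]
  exact mul_le_mul hg hk (ead_self_nonneg k k) hE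

end cv

section quo
variable {Γ M S : Type} [AddCommGroup Γ] [Finite Γ] [Finite M] [Finite S]

open Classical in
/-- the map of one coordinate to the quotient -/
noncomputable def cpi (W : AddSubgroup (M → Γ)) (r : M) : Γ →+ (M → Γ) ⧸ W :=
  (QuotientAddGroup.mk' W).comp (AddMonoidHom.single (fun _ => Γ) r)

omit [Finite Γ] in
lemma cpi_sum (W : AddSubgroup (M → Γ)) (z : M → Γ) : ∑ᶠ r, cpi W r (z r) = 0 ↔ z ∈ W := by
  classical
  let _ := Fintype.ofFinite M
  rw [finsum_eq_sum_of_fintype, ← QuotientAddGroup.eq_zero_iff, ← QuotientAddGroup.mk'_apply]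
  conv_rhs => rw [← Finset.univ_sum_single z, map_sum]
  rfl

omit [Finite Γ] [Finite M] in
lemma cpi_surj {W : AddSubgroup (M → Γ)} (h : Onto W) (r : M) :
    Function.Surjective (cpi W r) := by
  classical
  intro c
  obtain ⟨z, rfl⟩ := QuotientAddGroup.mk_surjective c
  obtain ⟨w, hw, h1⟩ := h r z
  refine ⟨z r - w r, QuotientAddGroup.eq.2 ?_⟩
  convert hw using 1
  funext r'
  by_cases e : r' = r
  · subst e; simp
  · simp [e, h1 r' e]

/-- the pointwise map of particles -/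
def cT {Q : Type} [AddCommGroup Q] (S : Type) (π : Γ →+ Q) : Pt Γ S →+ Pt Q S :=
  (π.compLeft S).prodMap (π.compLeft S)

omit [Finite Γ] [Finite S] in
lemma cn_cond (W : AddSubgroup (M → Γ)) (q : M → Pt Γ S) :
    (∀ i, row q i ∈ W ∧ (fun r => (q r).2 i) ∈ W) ↔ ∑ᶠ r, cT S (cpi W r) (q r) = 0 := by
  let _ := Fintype.ofFinite M
  simp only [← cpi_sum, finsum_eq_sum_of_fintype, Prod.ext_iff, funext_iff, Prod.fst_sum,
    Prod.snd_sum, Finset.sum_apply, forall_and]
  rfl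

lemma cn_coll {Q : Type} [AddCommGroup Q] [Finite Q] (π : Γ →+ Q) (m : Pt Γ S → ℝ) :
    sm (fun c => psh (cT S π) m c ^ 2) = coll m π.ker * (DD π.ker S * DD Γ S) := by
  rw [coll, div_mul_cancel₀ _ (mul_pos DD_pos DD_pos).ne', cn_psh_sq]
  refine sm_congr fun p => sm_congr fun p' => congrArg _ (ind_congr ?_)
  simp only [Prod.ext_iff, funext_iff, AddMonoidHom.mem_ker, map_sub, sub_eq_zero, forall_and]
  rfl

lemma cn_card {W : AddSubgroup (M → Γ)} (h : Onto W) (r : M) {k : ℕ} (hk : Nat.card M = k + 1) :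
    Nat.card (cpi W r).ker * Nat.card Γ ^ k = Nat.card W := by
  have h1 := (cpi W r).ker.index_mul_card
  rw [AddSubgroup.index_ker, AddMonoidHom.range_eq_top.2 (cpi_surj h r),
    AddSubgroup.card_top] at h1
  have h2 := W.index_mul_card
  rw [Nat.card_fun, hk, pow_succ', ← h1, mul_assoc, h1] at h2
  exact (Nat.eq_of_mul_eq_mul_left Nat.card_pos h2).symm

omit [Finite S] in
lemma cn_DD {W : AddSubgroup (M → Γ)} (h : Onto W) (r : M) {k : ℕ} (hk : Nat.card M = k + 1) :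
    DD W S = DD (cpi W r).ker S * DD Γ S ^ k := by
  simp only [DD, ← cn_card h r hk]
  push_cast
  rw [mul_pow, ← pow_mul, ← pow_mul, mul_comm k]

omit [Finite Γ] [Finite M] in
lemma cn_ne_top {W : AddSubgroup (M → Γ)} (h : Onto W) (h' : W ≠ ⊤) (r : M) :
    (cpi W r).ker ≠ ⊤ := fun e => h' ((AddSubgroup.eq_top_iff' W).2 fun z => by
  obtain ⟨c, hc⟩ := cpi_surj h r (QuotientAddGroup.mk z)
  exact (QuotientAddGroup.eq_zero_iff z).1 (hc.symm.trans ((AddSubgroup.eq_top_iff' _).1 e c)))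

omit [Finite Γ] in
lemma cn_two_le {W : AddSubgroup (M → Γ)} (h : Dg M Γ ≤ W) (h' : W ≠ ⊤) : 2 ≤ Nat.card M := by
  by_contra hc
  have : Subsingleton M := Finite.card_le_one_iff_subsingleton.1 (by omega)
  refine h' ((AddSubgroup.eq_top_iff' W).2 fun z => h ?_)
  cases isEmpty_or_nonempty M with
  | inl _ => rw [Subsingleton.elim z 0]; exact zero_mem _
  | inr hM =>
    obtain ⟨r⟩ := hM
    exact AddSubgroup.subset_closure ⟨z r, funext fun r' => congrArg z (Subsingleton.elim _ _)⟩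

omit [Finite Γ] in
lemma cn_dg {W : AddSubgroup (M → Γ)} (h : Dg M Γ ≤ W) (h2 : Nat.card M = 2)
    (hi : ∀ r, Function.Injective (cpi W r)) : W = Dg M Γ := by
  refine le_antisymm (fun z hz => ?_) h
  obtain ⟨a, b, hab, hu⟩ := Nat.card_eq_two_iff.1 h2
  have hd : (fun _ : M => z a) ∈ Dg M Γ := AddSubgroup.subset_closure ⟨z a, rfl⟩
  have h3 := (cpi_sum W _).2 (W.sub_mem hz (h hd))
  have hm : ∀ r, r = a ∨ r = b := fun r => by simpa using (hu ▸ Set.mem_univ r : r ∈ ({a, b} : Set M))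
  rw [finsum_eq_single _ b fun r hr => by
    rw [(hm r).resolve_right hr, Pi.sub_apply, sub_self, map_zero]] at h3
  have h4 : z b = z a := sub_eq_zero.1 ((injective_iff_map_eq_zero _).1 (hi b) _ h3)
  convert hd using 1
  funext r
  rcases hm r with rfl | rfl
  · rfl
  · exact h4

end quo

theorem cnt_of : CNT := by
  intro Γ M S _ _ _ _ ε W m β Λ h0 hD hW hO h2 hβ hΛ hc he hN
  simp only [cn_cond]
  change cvt (fun r => cT S (cpi W r)) m 0 ≤ _
  have hM := cn_two_le hD hW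
  have hp : 0 < DD Γ S := DD_pos
  have hΛ0 : 0 ≤ Λ := zero_le_one.trans hΛ
  have hl : ∀ r, sm (m r) ≤ Λ * DD Γ S := fun r => by
    rw [← div_le_iff₀ hp]
    refine (abs_le_of_sq_le_sq' ?_ hΛ0).2
    exact (congrArg (· ^ 2) (av_NN ε (m r))).ge.trans ((av_sq_le _).trans (hN r))
  obtain ⟨r0⟩ : Nonempty M := (Nat.card_pos_iff.1 (by omega)).1
  have hk : ∀ r, Nat.card (cpi W r).ker = Nat.card (cpi W r0).ker := fun r =>
    Nat.eq_of_mul_eq_mul_right (pow_pos Nat.card_pos _)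
      ((cn_card hO r (Nat.sub_add_cancel (by omega)).symm).trans
        (cn_card hO r0 (Nat.sub_add_cancel (by omega)).symm).symm)
  have hb : ∀ r, (cpi W r).ker = ⊥ ↔ (cpi W r0).ker = ⊥ := fun r => by
    rw [← AddSubgroup.card_eq_one, ← AddSubgroup.card_eq_one, hk]
  have hK : ∀ r, DD (cpi W r).ker S = DD (cpi W r0).ker S := fun r => by rw [DD, DD, hk]
  by_cases hi : (cpi W r0).ker = ⊥
  · have hj : ∀ r, Function.Injective (cpi W r) := fun r =>
      (AddMonoidHom.ker_eq_bot_iff _).1 ((hb r).2 hi)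
    have h3 : 3 ≤ Nat.card M := by
      by_contra h3
      exact h2 ⟨by omega, cn_dg hD (by omega) hj⟩
    have h1 : DD (cpi W r0).ker S = 1 := by rw [DD, AddSubgroup.card_eq_one.2 hi]; simp
    refine (cvt_le (fun T f => ((∀ x, 0 ≤ f x) ∧ sm f ≤ Λ * DD Γ S) ∧
      sm (fun c => psh T f c ^ 2) ≤ Λ ^ 2 * DD Γ S ∧
      ead (psh T f) (psh T f) (psh T f) (psh T f) ≤ β ^ 2 * DD Γ S ^ 3)
      (B := β * Λ * DD Γ S ^ 2) (by positivity) (by positivity) (fun _ _ h => h.1)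
      (fun T f h y => ?_) h3 _ m (fun r => ⟨⟨h0 r, hl r⟩, ?_, ?_⟩) 0).trans ?_
    · rw [cvt_three]
      refine (abs_le_of_sq_le_sq' ((cn_three (by positivity) (h 0).2.1 (h 1).2.2 (h 2).2.2 y).trans_eq
        (by ring)) (by positivity)).2
    · rw [cn_coll, hK, h1, one_mul]
      exact mul_le_mul_of_nonneg_right ((coll_le_NN ε (h0 r) _).trans (hN r)) hp.le
    · have hb : Function.Bijective ((cpi W r).compLeft S) :=
        Function.Bijective.comp_left ⟨hj r, cpi_surj hO r⟩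
      rw [cn_ead_psh _ (hb.prodMap hb), ← div_le_iff₀ (pow_pos hp 3)]
      exact he r
    · obtain ⟨k, hk⟩ := Nat.exists_eq_add_of_le' h3
      rw [cn_DD hO r0 hk, h1, hk, Nat.add_sub_cancel]
      calc _ = β * Λ ^ k * DD Γ S ^ (k + 2) * Λ ^ 1 := by ring
        _ ≤ β * Λ ^ k * DD Γ S ^ (k + 2) * Λ ^ 3 := by gcongr; omega
        _ = _ := by ring
  · have hq : 0 < DD (cpi W r0).ker S := DD_pos
    refine (cvt_le (fun T f => ((∀ x, 0 ≤ f x) ∧ sm f ≤ Λ * DD Γ S) ∧
      sm (fun c => psh T f c ^ 2) ≤ β * (DD (cpi W r0).ker S * DD Γ S))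
      (B := β * (DD (cpi W r0).ker S * DD Γ S)) (by positivity) (by positivity)
      (fun _ _ h => h.1) (fun T f h y => ?_) hM _ m (fun r => ⟨⟨h0 r, hl r⟩, ?_⟩) 0).trans ?_
    · rw [cvt_two]
      exact cn_two (h 0).2 (h 1).2 y
    · rw [cn_coll, hK]
      exact mul_le_mul_of_nonneg_right (hc r _ (mt (hb r).1 hi) (cn_ne_top hO hW r))
        (by positivity)
    · obtain ⟨k, hk⟩ := Nat.exists_eq_add_of_le' hM
      rw [cn_DD hO r0 hk, hk, Nat.add_sub_cancel]
      calc _ = β * Λ ^ k * (DD (cpi W r0).ker S * DD Γ S ^ (k + 1)) * Λ ^ 0 := by ring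
        _ ≤ β * Λ ^ k * (DD (cpi W r0).ker S * DD Γ S ^ (k + 1)) * Λ ^ 2 := by gcongr; omega
        _ = _ := by ring

end NE
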