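import Pool.Agent.Lib.MP_ecee09_co.NE.CellT
import Pool.Agent.Lib.MP_ecee09_co.NE.Stmts

/-! From the main theorem on `Om` to families of sets. -/

namespace NE

open SD

/-- planting on disjoint sets of coordinates of bounded size keeps half of the density -/
lemma cor_plant {X O C : Type} [Finite X] [Finite O] [Nonempty O] [Finite C] [Nonempty C]
    (S : O → Set X) (y : O → C → X → F) {M : ℕ} {δ : ℝ} (hδ : 0 < δ)
    (hS : ∀ o, (S o).ncard ≤ M) (hd : ∀ o o', o ≠ o' → Disjoint (S o) (S o'))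
    (hO : 2 ^ M / (δ / 2) ^ 2 ≤ Nat.card O) (p : (X → F) → Prop)
    (hp : δ ≤ av fun v => ind (p v)) :
    ∃ o w, δ / 2 ≤ av fun c => ind (p (mixS (S o) (y o c) w)) := by
  have h2 : (Nat.card F : ℝ) = 2 := by simp
  obtain ⟨ψ, hψ⟩ : ∃ ψ : O → (X → F) → ℝ, ∀ o v,
    ψ o v = 2 ^ (S o).ncard * av fun c => ind (∀ x ∈ S o, v x = y o c x) := ⟨_, fun _ _ => rfl⟩
  have dep : ∀ o, DepOn (S o) fun v => ψ o v - 1 := fun o v v' h => by
    simp only [hψ]
    congr 3
    exact funext fun c => ind_congr (forall₂_congr fun x hx => by rw [h x hx])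
  have one : ∀ o, av (ψ o) = 1 := fun o => by
    rw [funext (hψ o), av_mul_left, av_comm]
    simp only [av_agree, av_const, h2]
    exact mul_inv_cancel₀ (by positivity)
  have zero : ∀ o, av (fun v => ψ o v - 1) = 0 := fun o => by rw [av_sub, one, av_const, sub_self]
  have p0 : ∀ o v, 0 ≤ ψ o v := fun o v =>
    hψ o v ▸ mul_nonneg (by positivity) (av_ind_nonneg _)
  have p1 : ∀ o v, ψ o v ≤ 2 ^ M := fun o v => hψ o v ▸ (mul_le_of_le_one_right (by positivity)
    (av_ind_le_one _)).trans (pow_le_pow_right₀ one_le_two (hS o))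
  have var : (av fun v => (av fun o => ψ o v - 1) ^ 2) ≤ (δ / 2) ^ 2 := by
    simp only [sq (av _), av_mul_av]
    rw [av_comm]
    refine av_le_const fun o => ?_
    rw [av_comm]
    refine le_trans (av_mono (g := fun o' => ind (o' = o) * 2 ^ M) fun o' => ?_) ?_
    · by_cases h : o' = o
      · rw [h, ind_pos rfl, one_mul]
        refine le_trans (av_mono (g := fun v => 2 ^ M * ψ o v - (ψ o v - 1) - ψ o v)
          fun v => by nlinarith [p0 o v, p1 o v]) ?_
        rw [av_sub, av_sub, av_mul_left, zero, one]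
        linarith
      · rw [av_mul_dep (hd o o' (Ne.symm h)) (dep o) (dep o'), zero, zero_mul, ind_neg h, zero_mul]
    · rw [av_ind_eq o fun _ => 2 ^ M, div_le_iff₀ card_pos', mul_comm]
      exact (div_le_iff₀ (by positivity)).1 hO
  have cs := (av_cs (fun v => ind (p v)) fun v => av fun o => ψ o v - 1).trans
    (mul_le_mul (av_le_const fun v => (ind_sq (p v)).trans_le (ind_le_one _)) var
      (av_nonneg fun _ => sq_nonneg _) zero_le_one)
  rw [one_mul] at cs
  have lo := (abs_le_of_sq_le_sq' cs (by positivity)).1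
  have e : ∀ o, (av fun v => ind (p v) * ψ o v) =
      av fun w => av fun c => ind (p (mixS (S o) (y o c) w)) := fun o => by
    simp only [hψ, ← av_mul_left]
    rw [av_comm, av_comm fun w c => ind (p (mixS (S o) (y o c) w))]
    refine av_congr fun c => ?_
    have k := av_mul_dep (S := (S o)ᶜ) (T := S o) disjoint_compl_left
      (f := fun w : X → F => ind (p (mixS (S o) (y o c) w)))
      (g := fun v => ind (∀ x ∈ S o, v x = y o c x))
      (fun v v' h => congrArg (fun z => ind (p z)) (funext fun x => by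
        by_cases hx : x ∈ S o
        · rw [mix_mem _ _ hx, mix_mem _ _ hx]
        · rw [mix_not_mem _ _ hx, mix_not_mem _ _ hx, h x hx]))
      fun v v' h => ind_congr (forall₂_congr fun x hx => by rw [h x hx])
    rw [av_agree, h2, eq_mul_inv_iff_mul_eq₀ (by positivity)] at k
    rw [← k, ← av_mul_right]
    refine av_congr fun v => ?_
    by_cases hv : ∀ x ∈ S o, v x = y o c x
    · rw [show mixS (S o) (y o c) v = v from funext fun x => by
        by_cases hx : x ∈ S o
        · rw [mix_mem _ _ hx, hv x hx]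
        · rw [mix_not_mem _ _ hx]]
      ring
    · rw [ind_neg hv]; ring
  simp only [← av_mul_left, mul_sub, mul_one, av_sub, av_const] at lo
  rw [av_comm] at lo
  simp only [e] at lo
  obtain ⟨o, ho⟩ := exists_av_le fun o => av fun w => av fun c => ind (p (mixS (S o) (y o c) w))
  obtain ⟨w, hw⟩ := exists_av_le fun w => av fun c => ind (p (mixS (S o) (y o c) w))
  exact ⟨o, w, by linarith⟩

open Finset in
/-- the general form: the added set is the set of points whose two labels lie in `S` -/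
theorem cor_ab (h : MAIN) (δ : ℝ) (hδ : 0 < δ) : ∃ k : ℕ, ∀ M : ℕ, ∃ n₀ : ℕ, ∀ n, n₀ ≤ n →
    ∀ (X : Type) [Fintype X] [DecidableEq X] (a b : X → Fin n),
      (∀ ι : Fin k → Fin n, {x | a x ∈ Set.range ι ∧ b x ∈ Set.range ι}.ncard ≤ M) →
      ∀ 𝓕 : Finset (Finset X), δ * 2 ^ Fintype.card X ≤ 𝓕.card →
      ∃ S : Finset (Fin n), S.Nonempty ∧ ∃ A ∈ 𝓕,
        Disjoint A (univ.filter fun x => a x ∈ S ∧ b x ∈ S) ∧
        A ∪ (univ.filter fun x => a x ∈ S ∧ b x ∈ S) ∈ 𝓕 := by
  classical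
  obtain ⟨k, hk⟩ := h (δ / 2) (by positivity)
  refine ⟨k, fun M => ?_⟩
  obtain ⟨m, hm⟩ := exists_nat_ge (2 ^ M / (δ / 2) ^ 2)
  refine ⟨(m + 1) * k, fun n hn X _ _ a b hM 𝓕 hF => ?_⟩
  obtain ⟨e⟩ : Nonempty (Fin (m + 1) × Fin k ↪ Fin n) :=
    Function.Embedding.nonempty_of_card_le (by simpa using hn)
  have inj : ∀ o, Function.Injective fun j => e (o, j) := fun o j j' h =>
    (Prod.ext_iff.1 (e.injective h)).2
  let φ : (X → F) → Finset X := fun w => univ.filter fun p => w p = 1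
  have hφ : ∀ A : Finset X, φ (fun p => if p ∈ A then 1 else 0) = A := fun A => by
    ext p
    simp [φ]
  have h1 : δ ≤ av fun w : X → F => ind (φ w ∈ 𝓕) := by
    have c := sm_ind_le_of_inj (fun A : Finset X => A ∈ (𝓕 : Set (Finset X)))
      (fun w : X → F => φ w ∈ 𝓕) (fun A w => φ w = A)
      (fun A hA => ⟨_, (hφ A).symm ▸ hA, hφ A⟩) fun _ _ _ _ _ e e' => e.symm.trans e'
    rw [av_def, le_div_iff₀ card_pos', Nat.card_fun, Nat.card_zmod, Nat.card_eq_fintype_card]
    push_cast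
    exact hF.trans ((cnt_finset 𝓕).ge.trans c)
  obtain ⟨o, w, hw⟩ := cor_plant
    (fun o => {x | a x ∈ Set.range (fun j => e (o, j)) ∧ b x ∈ Set.range fun j => e (o, j)})
    (fun o (P : Om (Fin k)) x => ow 0 (crd fun j => e (o, j)) P s(a x, b x)) hδ (fun o => hM _)
    (fun o o' ho => Set.disjoint_left.2 fun x ⟨⟨j, hj⟩, _⟩ ⟨⟨j', hj'⟩, _⟩ =>
      ho (Prod.ext_iff.1 (e.injective (hj.trans hj'.symm))).1)
    (hm.trans (by simp)) _ h1
  have := hk (Fin k) (by simp) {P | _ ∈ 𝓕} hw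
  simp only [Indep, not_forall, not_not, Set.mem_setOf_eq, ← ow_lcomp] at this
  obtain ⟨P, Ψ, hΨ, h0, h1⟩ := this
  have hΘ := (good_crd (inj o)).lcomp hΨ
  have hr : ∀ i, lcomp (crd fun j => e (o, j)) Ψ i = some () → i ∈ Set.range fun j => e (o, j) :=
    fun i hi => (lcomp_eq_some.1 hi).elim fun j hj => ⟨j, (crd_eq_some (inj o)).1 hj.1⟩
  generalize lcomp (crd fun j => e (o, j)) Ψ = Θ at h0 h1 hΘ hr
  generalize ow 0 (crd fun j => e (o, j)) P = Q at h0 h1
  refine ⟨univ.filter fun i => Θ i = some (), (hΘ ()).imp fun i hi => by simpa using hi, _, h0,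
    disjoint_left.2 fun x hx hx' => ?_, (congrArg (· ∈ 𝓕) (Finset.ext fun x => ?_)).mpr h1⟩
  · simp only [φ, mem_filter, mem_univ, true_and] at hx hx'
    rw [mix_mem _ _ (by exact ⟨hr _ hx'.1, hr _ hx'.2⟩), ow_some _ _ hx'.1 hx'.2] at hx
    exact zero_ne_one hx
  · simp only [φ, mem_union, mem_filter, mem_univ, true_and]
    by_cases hx : Θ (a x) = some () ∧ Θ (b x) = some ()
    · rw [mix_mem _ w (by exact ⟨hr _ hx.1, hr _ hx.2⟩),
        mix_mem _ w (by exact ⟨hr _ hx.1, hr _ hx.2⟩), ow_some _ _ hx.1 hx.2, ow_some _ _ hx.1 hx.2]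
      exact iff_of_true (.inr hx) rfl
    · have : lab2 Θ s(a x, b x) = none := (lab2_eq_none_iff _ _ _).2
        ((not_and_or.1 hx).imp (fun h => Option.eq_none_iff_forall_ne_some.2 fun _ => h)
          fun h => Option.eq_none_iff_forall_ne_some.2 fun _ => h)
      simp only [hx, or_false, mixS, ow_of_none this]

theorem cor_of (h : MAIN) : COR := by
  intro s d hd δ hδ
  obtain ⟨k, hk⟩ := cor_ab h δ hδ
  obtain ⟨n₀, hn⟩ := hk (Nat.card (Σ r : Fin s, Fin (d r) → Fin k))
  refine ⟨n₀, fun n hn' 𝓕 hF => ?_⟩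
  have p : ∀ r, 0 < d r := fun r => by rcases hd r with e | e <;> omega
  have key : ∀ (q : Fin n → Prop) (x : Σ r : Fin s, Fin (d r) → Fin n),
      q (x.2 ⟨0, p _⟩) ∧ q (x.2 ⟨d x.1 - 1, Nat.sub_lt (p _) one_pos⟩) ↔ ∀ j, q (x.2 j) :=
    fun q x => ⟨fun k i => by
      by_cases c : i.1 = 0
      · rw [show i = ⟨0, p _⟩ from Fin.ext c]
        exact k.1
      · rw [show i = ⟨d x.1 - 1, Nat.sub_lt (p _) one_pos⟩ from Fin.ext (by
          have := i.2
          have := hd x.1
          simp only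
          omega)]
        exact k.2, fun k => ⟨k _, k _⟩⟩
  obtain ⟨S, hS, A, hA, e⟩ := hn n hn' _ (fun x => x.2 ⟨0, p _⟩)
    (fun x => x.2 ⟨d x.1 - 1, Nat.sub_lt (p _) one_pos⟩) (fun ι => by
      rw [← Set.ncard_univ]
      refine (Set.ncard_le_ncard (t := (fun z : Σ r : Fin s, Fin (d r) → Fin k =>
        (⟨z.1, ι ∘ z.2⟩ : Σ r : Fin s, Fin (d r) → Fin n)) '' Set.univ) fun x hx => ?_).trans
        (Set.ncard_image_le)
      choose f hf using (key (· ∈ Set.range ι) x).1 hx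
      exact ⟨⟨x.1, f⟩, trivial, congrArg (Sigma.mk x.1) (funext hf)⟩) 𝓕 hF
  rw [Finset.filter_congr fun x _ => key (· ∈ S) x] at e
  exact ⟨S, hS, A, hA, e⟩

end NE
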