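import Pool.Agent.Lib.MP_ecee09_co.NE.GA
import Pool.Agent.Lib.MP_ecee09_co.NE.CQT

/-! Assembly of the decomposition theorem. -/

namespace NE

open SD
open ComplexConjugate Filter Topology
open scoped InnerProductSpace

lemma cav_update {K A : Type} [Finite K] [Finite A] [Nonempty A] [DecidableEq K] (i : K)
    (f : (K → A) → ℂ) : cav f = cav fun s => cav fun t => f (Function.update s i t) := by
  let e : (K → A) × A ≃ (K → A) × A := Function.Involutive.toPerm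
    (fun z => (Function.update z.1 i z.2, z.1 i)) fun z => by simp
  have h := cav_equiv e fun z => f z.1
  rw [cav_prod, cav_prod] at h
  simp only [cav_const] at h
  exact h.symm

lemma psd_inner {X H : Type} [Finite X] [NormedAddCommGroup H] [InnerProductSpace ℂ H]
    (u : X → H) : PSD fun x y => ⟪u y, u x⟫_ℂ := by
  let _ := Fintype.ofFinite X
  refine ⟨fun x y => (inner_conj_symm _ _).symm, fun a => ?_⟩
  have : (csm fun x => csm fun y => a x * conj (a y) * ⟪u y, u x⟫_ℂ) =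
      ⟪∑ y, a y • u y, ∑ x, a x • u x⟫_ℂ := by
    simp only [csm_eq, inner_sum, sum_inner, inner_smul_left, inner_smul_right, Finset.mul_sum]
    exact Finset.sum_congr rfl fun x _ => Finset.sum_congr rfl fun y _ => by ring
  rw [this]
  exact inner_self_nonneg (𝕜 := ℂ)

lemma mem_pat {U : Type} [Finite U] (j : U → ℕ) (P : Om U) (c : Sym2 ℕ) :
    c ∈ pat j P ↔ ∃ p q, P s(p, q) = 1 ∧ s(j p, j q) = c := by
  simp only [pat, Set.Finite.mem_toFinset, Set.mem_image, Set.mem_ofPred_eq]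
  constructor
  · rintro ⟨d, h1, h2⟩
    induction d using Sym2.ind with
    | _ p q => exact ⟨p, q, h1, h2⟩
  · rintro ⟨p, q, h1, h2⟩
    exact ⟨s(p, q), h1, h2⟩

lemma ow_blk_eq_one {K : Type} {n : ℕ} (s : K → Fin (n + 1)) (P : Om K)
    (p q : K × Fin (n + 1)) :
    ow 0 (blk s) P s(p, q) = 1 ↔ p.2 ≤ s p.1 ∧ q.2 ≤ s q.1 ∧ P s(p.1, q.1) = 1 := by
  show ((blk s p).bind fun k => (blk s q).map fun l => s(k, l)).elim 0 P = 1 ↔ _
  unfold blk
  by_cases hp : p.2 ≤ s p.1 <;> by_cases hq : q.2 ≤ s q.1 <;> simp [hp, hq]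

lemma mem_pat_blk {K : Type} [Finite K] {n : ℕ} (j : K × Fin (n + 1) → ℕ)
    (s : K → Fin (n + 1)) (P : Om K) (c : Sym2 ℕ) :
    c ∈ pat j (ow 0 (blk s) P) ↔
      ∃ p q, (p.2 ≤ s p.1 ∧ q.2 ≤ s q.1 ∧ P s(p.1, q.1) = 1) ∧ s(j p, j q) = c := by
  simp only [mem_pat, ow_blk_eq_one]

lemma noLoop_pat {U : Type} [Finite U] {j : U → ℕ} {R : Set ℕ} (hj : ∀ p, j p ∉ R) (P : Om U) :
    NoLoop (pat j P) R := fun i hi h => by
  obtain ⟨p, q, -, h⟩ := (mem_pat j P _).1 h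
  rcases Sym2.eq_iff.1 h with h | h <;> exact hj p (h.1 ▸ hi)

lemma Aa_compl_infinite : Aaᶜ.Infinite := by simpa using compl_Aa_infinite ∅

section
variable {κ : Ker} {H : Type} [NormedAddCommGroup H] [InnerProductSpace ℂ H] [CompleteSpace H]
  (S : Sys κ H)

open Classical in
/-- a filled block against an empty block -/
lemma inner_fill {K : Type} [Finite K] {n : ℕ} {j : K × Fin (n + 1) → ℕ}
    (hj : Function.Injective j) (hA : ∀ p, j p ∉ Aa) {Y : H →L[ℂ] H} (hY : Y ∈ Alg S.V Aa)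
    (i : K) (P P' : Om K) (h1 : P s(i, i) = 1) (h0 : P' s(i, i) = 0)
    (hr : ∀ l, l ≠ i → P s(i, l) = P' s(i, l)) (s : K → Fin (n + 1)) :
    ⟪S.v (pat j (ow 0 (blk s) P')), Y (S.v (pat j (ow 0 (blk s) P)))⟫_ℂ =
      ⟪S.v (pat j (ow 0 (blk s) fun c => if i ∈ c then 0 else P' c)),
        S.Tf (s i + 1) (Y (S.v (pat j (ow 0 (blk s) fun c => if i ∈ c then 0 else P c))))⟫_ℂ := by
  let _ := Fintype.ofFinite K
  let a : Finset ℕ := (Finset.Iic (s i)).image fun r => j (i, r)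
  have hac : a.card = s i + 1 := by
    rw [Finset.card_image_of_injective _ fun r r' h => (Prod.mk.inj (hj h)).2, Fin.card_Iic]
  have ha : ∀ x, x ∈ a ↔ ∃ r, r ≤ s i ∧ j (i, r) = x := fun x => by
    simp only [a, Finset.mem_image, Finset.mem_Iic]
  let b : Finset ℕ := (Finset.univ.filter fun p : K × Fin (n + 1) => p.1 ≠ i).image j
  let z : Om K → Pat := fun Q => pat j (ow 0 (blk s) fun c => if i ∈ c then 0 else Q c)
  let W : Pat := pat j (ow 0 (blk s) fun c => if i ∈ c ∧ ¬ c.IsDiag then P c else 0)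
  have hz : ∀ Q c, c ∈ z Q ↔ ∃ p q, (p.2 ≤ s p.1 ∧ q.2 ≤ s q.1 ∧ p.1 ≠ i ∧ q.1 ≠ i ∧
      Q s(p.1, q.1) = 1) ∧ s(j p, j q) = c := fun Q c => by
    rw [mem_pat_blk]
    refine exists₂_congr fun p q => and_congr_left' (and_congr_right' (and_congr_right' ?_))
    by_cases hp : p.1 = i <;> by_cases hq : q.1 = i <;> simp [hp, hq, eq_comm (a := i)]
  have hW : ∀ c, c ∈ W ↔ ∃ p q, (p.2 ≤ s p.1 ∧ q.2 ≤ s q.1 ∧ (p.1 = i ∨ q.1 = i) ∧ p.1 ≠ q.1 ∧
      P s(p.1, q.1) = 1) ∧ s(j p, j q) = c := fun c => by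
    rw [mem_pat_blk]
    refine exists₂_congr fun p q => and_congr_left' (and_congr_right' (and_congr_right' ?_))
    simp only [Sym2.mem_iff, Sym2.mk_isDiag_iff, eq_comm (a := i)]
    split_ifs with h
    · exact ⟨fun h' => ⟨h.1, h.2, h'⟩, fun h' => h'.2.2⟩
    · exact ⟨fun h' => absurd h' (by decide), fun h' => absurd ⟨h'.1, h'.2.1⟩ h⟩
  have hF : ∀ c, c ∈ fill a ↔ ∃ p q, (p.2 ≤ s p.1 ∧ q.2 ≤ s q.1 ∧ p.1 = i ∧ q.1 = i) ∧
      s(j p, j q) = c := fun c => by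
    simp only [fill, mem_rect, ha]
    constructor
    · rintro ⟨_, ⟨r, hr, rfl⟩, _, ⟨r', hr', rfl⟩, h⟩
      exact ⟨(i, r), (i, r'), ⟨hr, hr', rfl, rfl⟩, h⟩
    · rintro ⟨p, q, ⟨g1, g2, g3, g4⟩, h⟩
      exact ⟨_, ⟨p.2, g3 ▸ g1, by rw [← g3]⟩, _, ⟨q.2, g4 ▸ g2, by rw [← g4]⟩, h⟩
  have hPP : ∀ k l, k = i ∨ l = i → k ≠ l → P s(k, l) = P' s(k, l) := by
    rintro k l (rfl | rfl) h
    · exact hr l h.symm
    · rw [Sym2.eq_swap]; exact hr k h
  have e1 : pat j (ow 0 (blk s) P) = (z P ∪ fill a) ∪ W := by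
    ext c
    simp only [Finset.mem_union, hz, hW, hF, mem_pat_blk, ← exists_or, ← or_and_right]
    refine exists₂_congr fun p q => and_congr_left' ?_
    by_cases hp : p.1 = i <;> by_cases hq : q.1 = i
    · simp [hp, hq, h1]
    · simp [hp, hq, Ne.symm hq]
    · simp [hp, hq]
    · simp [hp, hq]
  have e2 : pat j (ow 0 (blk s) P') = z P' ∪ W := by
    ext c
    simp only [Finset.mem_union, hz, hW, mem_pat_blk, ← exists_or, ← or_and_right]
    refine exists₂_congr fun p q => and_congr_left' ?_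
    by_cases hp : p.1 = i <;> by_cases hq : q.1 = i
    · simp [hp, hq, h0]
    · simp [hp, hq, Ne.symm hq, hr _ hq]
    · rw [← hPP _ _ (Or.inr hq) (hq ▸ hp)]; simp [hp, hq]
    · simp [hp, hq]
  have hinj : ∀ p q p' q' : K × Fin (n + 1), s(j p, j q) = s(j p', j q') →
      p = p' ∧ q = q' ∨ p = q' ∧ q = p' := fun p q p' q' h => by
    simpa only [hj.eq_iff] using Sym2.eq_iff.1 h
  have d1 : ∀ Q, Disjoint W (z Q) := fun Q => Finset.disjoint_left.2 fun c h h' => by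
    obtain ⟨p, q, ⟨-, -, h, -⟩, rfl⟩ := (hW c).1 h
    obtain ⟨p', q', ⟨-, -, hp, hq, -⟩, e⟩ := (hz Q _).1 h'
    rcases hinj _ _ _ _ e with ⟨rfl, rfl⟩ | ⟨rfl, rfl⟩ <;> tauto
  have d2 : Disjoint W (fill a) := Finset.disjoint_left.2 fun c h h' => by
    obtain ⟨p, q, ⟨-, -, -, g, -⟩, rfl⟩ := (hW c).1 h
    obtain ⟨p', q', ⟨-, -, hp, hq⟩, e⟩ := (hF _).1 h'
    rcases hinj _ _ _ _ e with ⟨rfl, rfl⟩ | ⟨rfl, rfl⟩
    · exact g (hp.trans hq.symm)
    · exact g (hq.trans hp.symm)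
  have nl : ∀ x, s(x, x) ∉ W := fun x h => by
    obtain ⟨p, q, ⟨-, -, -, h, -⟩, e⟩ := (hW _).1 h
    have : j p = j q := by
      rcases Sym2.eq_iff.1 e with e | e <;> exact e.1.trans e.2.symm
    exact h (congrArg Prod.fst (hj this))
  have sp : ∀ Q, Supp (z Q) (Aa ∪ b) := fun Q c h x hx => by
    obtain ⟨p, q, ⟨-, -, hp, hq, -⟩, rfl⟩ := (hz Q c).1 h
    rcases Sym2.mem_iff.1 hx with rfl | rfl
    · exact Or.inr (Finset.mem_image_of_mem j (by simpa using hp))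
    · exact Or.inr (Finset.mem_image_of_mem j (by simpa using hq))
  have dab : Disjoint (a : Set ℕ) (Aa ∪ b) := Set.disjoint_left.2 fun x hx hx' => by
    obtain ⟨r, -, rfl⟩ := (ha x).1 hx
    rcases hx' with h | h
    · exact hA _ h
    · obtain ⟨p, hp, e⟩ := Finset.mem_image.1 h
      rw [hj e] at hp
      simp at hp
  rw [e1, e2, S.sd_union Aa_compl_infinite hY _ _ W (Finset.disjoint_union_right.2 ⟨d1 P, d2⟩)
    (d1 P') (fun x _ => nl x) (fun x h => absurd h (nl x)),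
    S.inner_Tf (compl_Aa_infinite b) dab (S.alg_mono Set.subset_union_left hY) (sp P) (sp P'),
    hac]

/-- the rest has small fill -/
lemma fill_le {K : Type} [Finite K] {n : ℕ} {j : K × Fin (n + 1) → ℕ}
    (hj : Function.Injective j) (hA : ∀ p, j p ∉ Aa) {Y : H →L[ℂ] H} (hY : Y ∈ Alg S.V Aa) :
    FillS ‖S.Tb n (Y (S.v ∅))‖ fun P P' : Om K => cav fun s : K → Fin (n + 1) =>
      ⟪S.v (pat j (ow 0 (blk s) P')), Y (S.v (pat j (ow 0 (blk s) P)))⟫_ℂ := by
  classical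
  intro i P P' h1 h0 hr
  have hu : ∀ (Q : Om K) (s : K → Fin (n + 1)) (t : Fin (n + 1)),
      ow 0 (blk (Function.update s i t)) (fun c => if i ∈ c then 0 else Q c) =
        ow 0 (blk s) fun c => if i ∈ c then 0 else Q c := fun Q s t => by
    funext d
    induction d using Sym2.ind with
    | _ p q =>
    have h2 : ∀ x y : F, (x = 1 ↔ y = 1) → x = y := by decide
    refine h2 _ _ ?_
    rw [ow_blk_eq_one, ow_blk_eq_one]
    by_cases hp : p.1 = i
    · simp [hp]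
    · by_cases hq : q.1 = i
      · simp [hq]
      · rw [Function.update_of_ne hp, Function.update_of_ne hq]
  simp only [inner_fill S hj hA hY i P P' h1 h0 hr]
  rw [cav_update i]
  refine norm_cav_le_const (norm_nonneg _) fun s => ?_
  simp only [hu, Function.update_self]
  have hT : ∀ u w : H, (cav fun t : Fin (n + 1) => ⟪u, S.Tf (t + 1) w⟫_ℂ) = ⟪u, S.Tb n w⟫_ℂ :=
    fun u w => by
      rw [cav_eq, Fintype.card_fin, Sys.Tb, Sys.avs, smul_apply,
        inner_smul_right, sum_apply, inner_sum, Finset.sum_range,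
        div_eq_inv_mul]
  rw [hT]
  refine (norm_inner_le_norm _ _).trans ?_
  have := S.norm_alg_v Aa_compl_infinite
    (mul_mem (S.alg_mono (Set.empty_subset _) (S.Tb_mem n)) hY)
    (noLoop_pat hA (ow 0 (blk s) fun c => if i ∈ c then 0 else P c))
  rw [mul_apply_eq_comp, mul_apply_eq_comp] at this
  rw [this]
  exact mul_le_of_le_one_left (norm_nonneg _) (S.norm_v_le _)

/-- the decomposition from an orthogonal family of events -/
lemma dec_core {Λ : Type} [Fintype Λ] (σ : Λ → Ty) (R : Λ → H →L[ℂ] H)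
    (hnd : ∀ l, (σ l).τ.ND) (hp : ∀ l, IsStarProjection (R l)) (hm : ∀ l, R l ∈ Alg S.V Aa)
    (ho : ∀ l l', l ≠ l' → R l (R l' (S.v ∅)) = 0) {K : Type} [Finite K] {ε : ℝ} (hε : 0 < ε)
    (hT : ∀ᶠ n in atTop, ‖S.Tb n (S.v ∅ - ∑ l, R l (S.v ∅))‖ ≤ ε)
    (jj : ∀ n : ℕ, K × Fin (n + 1) → ℕ) (hj : ∀ n, Function.Injective (jj n))
    (hA : ∀ n p, jj n p ∉ Aa)
    (hl : ∀ l (P P' : Om K), Tendsto (fun n => cav fun s : K → Fin (n + 1) =>
        ⟪S.v (pat (jj n) (ow 0 (blk s) P')), R l (S.v (pat (jj n) (ow 0 (blk s) P)))⟫_ℂ)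
      atTop (𝓝 (((‖R l (S.v ∅)‖ ^ 2 : ℝ) : ℂ) * model (σ l).τ P P'))) :
    ∃ n, Dec ε (κ.blow K n) := by
  classical
  let Y := kp (Set.range R)
  have hYm : Y ∈ Alg S.V Aa := S.kp_mem (by rintro _ ⟨l, rfl⟩; exact hm l)
  have hYR : ∀ l u, Y (R l u) = 0 := fun l u => by
    rw [S.alg_apply_comm hYm (hm l), ← mul_apply_eq_comp, mul_kp (Set.mem_range_self l)]; rfl
  have hY0 : Y (S.v ∅) = S.v ∅ - ∑ l, R l (S.v ∅) := by
    have : Y (S.v ∅ - ∑ l, R l (S.v ∅)) = S.v ∅ - ∑ l, R l (S.v ∅) := by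
      refine (kp_apply_eq_iff _ _).2 ?_
      rintro _ ⟨l, rfl⟩
      rw [map_sub, map_sum, Finset.sum_eq_single l (fun l' _ h => ho l l' h.symm) (by simp),
        ← mul_apply_eq_comp, (hp l).isIdempotentElem.eq, sub_self]
    rw [← this, map_sub, map_sum]
    simp only [hYR, Finset.sum_const_zero, sub_zero]
  have hYP : ∀ P, NoLoop P Aa → S.v P = Y (S.v P) + ∑ l, R l (S.v P) := fun P hP => by
    have := S.norm_alg_v Aa_compl_infinite
      (sub_mem (add_mem hYm (sum_mem fun l (_ : l ∈ Finset.univ) => hm l)) (one_mem _)) hP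
    simp only [sub_apply, add_apply,
      sum_apply, one_apply_eq_self, hY0, sub_add_cancel, sub_self,
      norm_zero, norm_eq_zero] at this
    exact (sub_eq_zero.1 this).symm
  have hev : ∀ᶠ n in atTop, ∀ P P' : Om K, ‖(∑ l, cav fun s : K → Fin (n + 1) =>
        ⟪S.v (pat (jj n) (ow 0 (blk s) P')), R l (S.v (pat (jj n) (ow 0 (blk s) P)))⟫_ℂ) -
      ∑ l, ((‖R l (S.v ∅)‖ ^ 2 : ℝ) : ℂ) * model (σ l).τ P P'‖ ≤ ε := by
    refine eventually_all.2 fun P => eventually_all.2 fun P' => ?_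
    have := tendsto_finsetSum Finset.univ fun l _ => hl l P P'
    exact ((tendsto_iff_norm_sub_tendsto_zero.1 this).eventually (gt_mem_nhds hε)).mono
      fun n h => h.le
  obtain ⟨n, h1, h2⟩ := (hT.and hev).exists
  let e := Fintype.equivFin Λ
  refine ⟨n, Fintype.card Λ, fun i => σ (e.symm i), fun i => ‖R (e.symm i) (S.v ∅)‖ ^ 2,
    fun P P' => cav fun s : K → Fin (n + 1) =>
      ⟪S.v (pat (jj n) (ow 0 (blk s) P')), Y (S.v (pat (jj n) (ow 0 (blk s) P)))⟫_ℂ,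
    fun i => hnd _, fun i => by positivity, ?_, fun i P P' a b c => ?_, fun P P' => ?_⟩
  · refine PSD.cav fun s => ?_
    have := psd_inner fun P : Om K => Y (S.v (pat (jj n) (ow 0 (blk s) P)))
    simpa only [Y, ← proj_inner (kp_proj (Set.range R))] using this
  · exact (fill_le S (hj n) (hA n) hYm i P P' a b c).trans (hY0 ▸ h1)
  · refine le_of_eq_of_le (congrArg norm ?_) (h2 P P')
    rw [Equiv.sum_comp e.symm fun l => ((‖R l (S.v ∅)‖ ^ 2 : ℝ) : ℂ) * model (σ l).τ P P',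
      sub_right_comm, Ker.blow, ← cav_sub, ← cav_sum]
    congr 1
    refine cav_congr fun s => ?_
    rw [← S.link _ (jj n) (hj n), sub_eq_iff_eq_add', ← inner_sum, ← inner_add_right,
      ← hYP _ (noLoop_pat (hA n) _)]

end

theorem dec_of (hG : GNS) (hS : SPLIT) (hB : BE) (hQ : QQ) : DEC := by
  classical
  intro κ K _ ε hε
  obtain ⟨H, _, _, _, ⟨S⟩⟩ := hG κ
  obtain ⟨m, E, _, _, A, hA, hT⟩ := hS κ H S (ε / 2) (half_pos hε)
  choose m' A' be b1 b2 b3 b4 using fun i => hB κ H S (E i) (A i)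
  choose m'' R τ q1 q2 q3 q4 using fun i j =>
    hQ κ H S (E i) (A' i j) (be i j) (b4 i j).1 (b4 i j).2.1 (b4 i j).2.2
  obtain ⟨e, he⟩ := exists_injective_nat K
  let jj : ∀ n : ℕ, K × Fin (n + 1) → ℕ := fun n p => 2 * Nat.pair (e p.1) p.2 + 1
  have hj : ∀ n, Function.Injective (jj n) := fun n p q h => by
    have h' : Nat.pair (e p.1) p.2 = Nat.pair (e q.1) q.2 := by
      simp only [jj] at h; omega
    rw [Nat.pair_eq_pair] at h'
    exact Prod.ext (he h'.1) (Fin.ext h'.2)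
  have hO : ∀ n p, jj n p ∉ Aa := fun n p => Nat.not_even_iff_odd.2 ⟨_, rfl⟩
  refine dec_core S (Λ := Σ i, Σ j, Fin (m'' i j)) (fun l => ⟨E l.1, τ l.1 l.2.1 l.2.2⟩)
    (fun l => R l.1 l.2.1 l.2.2) (fun l => (q1 _ _ _).1) (fun l => (q1 _ _ _).2.1)
    (fun l => (q1 _ _ _).2.2.1) ?_ hε ?_ jj hj hO fun l => q4 _ _ _ K jj hj hO
  · have hRL : ∀ i j k u, R i j k u = R i j k ((A' i j).La u) := fun i j k u => by
      rw [← mul_apply_eq_comp, (q1 i j k).2.2.2]
    have hLL : ∀ i j u, (A' i j).La u = (A' i j).La ((A i).La u) := fun i j u => by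
      rw [← mul_apply_eq_comp, b1]
    have key : ∀ i j k i' j' k', (A' i j).La ((A' i' j').La (S.v ∅)) = 0 →
        R i j k (R i' j' k' (S.v ∅)) = 0 := fun i j k i' j' k' h => by
      rw [hRL, hRL i', S.alg_apply_comm (A' i j).mem (q1 i' j' k').2.2.1, h, map_zero, map_zero]
    rintro ⟨i, j, k⟩ ⟨i', j', k'⟩ h
    by_cases hi : i = i'
    · subst hi
      by_cases hj : j = j'
      · subst hj
        exact q2 i j k k' fun hk => h (by rw [hk])
      · exact key _ _ _ _ _ _ (b2 i j j' hj)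
    · refine key _ _ _ _ _ _ ?_
      rw [hLL, hLL i', S.alg_apply_comm (A i).mem (A' i' j').mem,
        ← mul_apply_eq_comp (A i).La, hA i i' hi]
      simp
  · have h0 : Tendsto (fun n => ∑ i, ∑ j,
        S.Tb n ((A' i j).La (S.v ∅) - ∑ k, R i j k (S.v ∅))) atTop (𝓝 0) := by
      simpa using tendsto_finsetSum Finset.univ fun i _ =>
        tendsto_finsetSum Finset.univ fun j _ => q3 i j
    filter_upwards [hT, (tendsto_zero_iff_norm_tendsto_zero.1 h0).eventually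
      (gt_mem_nhds (half_pos hε))] with n h1 h2
    have : S.Tb n (S.v ∅ - ∑ l : Σ i, Σ j, Fin (m'' i j), R l.1 l.2.1 l.2.2 (S.v ∅)) =
        S.Tb n (S.v ∅ - ∑ i, (A i).La (S.v ∅)) +
          ∑ i, ∑ j, S.Tb n ((A' i j).La (S.v ∅) - ∑ k, R i j k (S.v ∅)) := by
      simp only [← map_sum, ← map_add, Finset.sum_sub_distrib, b3, Fintype.sum_sigma,
        sub_add_sub_cancel]
    rw [this]
    exact (norm_add_le _ _).trans (by linarith)

end NE
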