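import Pool.Agent.Lib.MP_ecee09_co.SD.Base

/-! Definitions for the nested square theorem (papers: team store, ecee09 nested). -/

namespace NE

open SD (F sm av ind cnt Tame)
open ComplexConjugate

/-- the circle `R / Z`, written additively -/
abbrev TT : Type := UnitAddCircle

/-- `exp (2 pi i x)` -/
noncomputable def ee (x : TT) : ℂ := (AddCircle.toCircle x : ℂ)

/-- complex sum over a finite type -/
noncomputable def csm {α : Type} (f : α → ℂ) : ℂ := ∑ᶠ x, f x

/-- complex average over a finite type -/
noncomputable def cav {α : Type} (f : α → ℂ) : ℂ := (∑ᶠ x, f x) / (Nat.card α : ℂ)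

/-- `av f conj g` -/
noncomputable def ip {α : Type} (f g : α → ℂ) : ℂ := cav fun x => f x * conj (g x)

/-- squared `L2` norm -/
noncomputable def n2 {α : Type} (f : α → ℂ) : ℝ := av fun x => ‖f x‖ ^ 2

/-- all moments of the modulus are bounded by the profile `D` -/
def CT {α : Type} (D : ℕ → ℝ) (f : α → ℂ) : Prop := Tame D fun x => ‖f x‖

/-- zero-one patterns on unordered pairs, loops included -/
abbrev Om (I : Type) : Type := Sym2 I → F

/-- patterns with a vector of group elements -/
abbrev OmE (E I : Type) : Type := (I → E) × Om I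

/-- a label: index `i` lies in block `k` if the label of `i` is `some k` -/
abbrev Lab (I K : Type) : Type := I → Option K

section cells
variable {I K L E : Type}

/-- no block is empty -/
def Good (Φ : Lab I K) : Prop := ∀ k, ∃ i, Φ i = some k

/-- the pair of blocks of a pair of indices -/
def lab2 (Φ : Lab I K) : Sym2 I → Option (Sym2 K) :=
  Sym2.lift ⟨fun i j => (Φ i).bind fun k => (Φ j).map fun l => s(k, l), by
    intro i j
    show ((Φ i).bind fun k => (Φ j).map fun l => s(k, l)) =
      (Φ j).bind fun k => (Φ i).map fun l => s(k, l)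
    cases Φ i <;> cases Φ j <;> simp [Sym2.eq_swap]⟩

/-- overwrite `A` on the union of the blocks by the blow-up of `P` -/
def ow (A : Om I) (Φ : Lab I K) (P : Om K) : Om I := fun c => (lab2 Φ c).elim (A c) P

/-- composition of labels -/
def lcomp (Φ : Lab I K) (Ψ : Lab K L) : Lab I L := fun i => (Φ i).bind Ψ

/-- the label with singleton blocks `ι k` -/
noncomputable def crd (ι : K → I) : Lab I K := Function.partialInv ι

/-- pull a pattern back along a map of indices -/
def pb (j : K → I) (P : Om I) : Om K := fun c => P (Sym2.map j c)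

variable [AddCommGroup E]

/-- the block shift `t Phi` -/
def spr (t : K → E) (Φ : Lab I K) : I → E := fun i => (Φ i).elim 0 t

/-- the cell through `x` with label `Phi` -/
def cell (x : OmE E I) (Φ : Lab I K) (y : OmE E K) : OmE E I := (x.1 + spr y.1 Φ, ow x.2 Φ y.2)

open Classical in
/-- block sums `w Phi` -/
noncomputable def wl (w : I → E) (Φ : Lab I K) : K → E :=
  fun k => ∑ᶠ i, if Φ i = some k then w i else 0

/-- restriction to a cell -/
def res {β : Type} (h : OmE E I → β) (x : OmE E I) (Φ : Lab I K) : OmE E K → β :=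
  fun y => h (cell x Φ y)

/-- restriction to a cell of `Om` -/
def ores {β : Type} (f : Om I → β) (A : Om I) (Φ : Lab I K) : Om K → β := fun P => f (ow A Φ P)

end cells

/-- A family of cells `a x l : C -> X`: a positive functional on functions of (base point,
label) whose random point of the random cell is uniform on `X`. -/
structure Fam {X C Λ : Type} (a : X → Λ → C → X) where
  E : (X → Λ → ℝ) → ℝ
  add : ∀ f g, E (fun x l => f x l + g x l) = E f + E g
  smul : ∀ (c : ℝ) f, E (fun x l => c * f x l) = c * E f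
  pos : ∀ f, (∀ x l, 0 ≤ f x l) → 0 ≤ E f
  marg : ∀ g : X → ℝ, E (fun x l => av fun B => g (a x l B)) = av g

/-- expectation of a complex function -/
noncomputable def Fam.cE {X C Λ : Type} {a : X → Λ → C → X} (A : Fam a) (f : X → Λ → ℂ) : ℂ :=
  (A.E fun x l => (f x l).re) + (A.E fun x l => (f x l).im) * Complex.I

/-- mass of the cells with an empty block -/
noncomputable def Fam.junk {X C I K : Type} {a : X → Lab I K → C → X} (A : Fam a) : ℝ :=
  A.E fun _ Φ => ind (¬ Good Φ)

abbrev OFam (I K : Type) : Type := Fam fun (A : Om I) (Φ : Lab I K) (P : Om K) => ow A Φ P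

abbrev GFam (E I K : Type) [AddCommGroup E] : Type :=
  Fam fun (x : OmE E I) (Φ : Lab I K) (y : OmE E K) => cell x Φ y

/-- a type: a quadratic function on `E` with its polar form -/
structure QT (E : Type) [AddCommGroup E] where
  q : E → TT
  be : E →+ E →+ TT
  q_add : ∀ x y, q (x + y) = q x + q y + be x y

section types
variable {E I K : Type} [AddCommGroup E]

theorem QT.symm (τ : QT E) (x y : E) : τ.be x y = τ.be y x := by
  have h1 := τ.q_add x y
  have h2 := τ.q_add y x
  rw [add_comm y x, h1, add_comm (τ.q y)] at h2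
  exact add_left_cancel h2

/-- nondegenerate polar form -/
def QT.ND (τ : QT E) : Prop := ∀ x, τ.be x = 0 → x = 0

/-- restriction to a subgroup -/
def QT.sub (τ : QT E) (S : AddSubgroup E) : QT S where
  q x := τ.q x
  be := (τ.be.comp S.subtype).compr₂ (AddMonoidHom.id _) |>.compl₂ S.subtype
  q_add x y := τ.q_add x y

/-- orthogonal complement -/
def QT.perp (τ : QT E) (S : AddSubgroup E) : AddSubgroup E where
  carrier := {x | ∀ s ∈ S, τ.be s x = 0}
  zero_mem' := fun _ _ => map_zero _
  add_mem' := fun ha hb s hs => by rw [map_add, ha s hs, hb s hs, add_zero]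
  neg_mem' := fun ha s hs => by rw [map_neg, ha s hs, neg_zero]

open Classical in
/-- the phase of one pair of indices -/
noncomputable def cz (τ : QT E) (w : I → E) : Sym2 I → TT :=
  Sym2.lift ⟨fun i j => if i = j then τ.q (w i) else τ.be (w i) (w j), by
    intro i j
    by_cases h : i = j
    · subst h; rfl
    · simp only [if_neg h, if_neg (Ne.symm h), τ.symm (w i)]⟩

/-- `theta_w . P` -/
noncomputable def th (τ : QT E) (w : I → E) (P : Om I) : TT := ∑ᶠ c, (P c).val • cz τ w c

/-- `be (w, b)` summed over the indices -/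
noncomputable def brk (τ : QT E) (w b : I → E) : TT := ∑ᶠ i, τ.be (w i) (b i)

noncomputable def ph (τ : QT E) (w : I → E) (P : Om I) : ℂ := ee (th τ w P)

noncomputable def chi (τ : QT E) (w : I → E) (x : OmE E I) : ℂ := ee (brk τ w x.1 + th τ w x.2)

/-- the field with coefficients `c` -/
noncomputable def fld (τ : QT E) (c : (I → E) → ℂ) (x : OmE E I) : ℂ :=
  csm fun w => c w * chi τ w x

noncomputable def cf (τ : QT E) (u : OmE E I → ℂ) (w : I → E) : ℂ := ip u (chi τ w)

/-- energy of the projection on fields -/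
noncomputable def fen (τ : QT E) (u : OmE E I → ℂ) : ℝ := sm fun w => ‖cf τ u w‖ ^ 2

/-- the values of `w` generate the group -/
def Gen (w : I → E) : Prop := AddSubgroup.closure (Set.range w) = ⊤

/-- energy on generating labels -/
noncomputable def En (τ : QT E) (u : OmE E I → ℂ) : ℝ := sm fun w => ind (Gen w) * ‖cf τ u w‖ ^ 2

/-- energy on non generating labels -/
noncomputable def ng (τ : QT E) (u : OmE E I → ℂ) : ℝ :=
  sm fun w => ind (¬ Gen w) * ‖cf τ u w‖ ^ 2

/-- the untwisted component `g_w` of `u = sum_w chi_w g_w` -/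
noncomputable def tw (τ : QT E) (u : OmE E I → ℂ) (w : I → E) (P : Om I) : ℂ :=
  cav fun t : I → E => u (t, P) * conj (chi τ w (t, P))

/-- the twisted Gram matrix -/
noncomputable def gram (τ : QT E) (u : OmE E I → ℂ) (P P' : Om I) : ℂ :=
  csm fun w => tw τ u w P * conj (tw τ u w P')

/-- the model kernel of a type -/
noncomputable def model (τ : QT E) (P P' : Om I) : ℂ :=
  cav fun w : I → E => ph τ w P * conj (ph τ w P')

open Classical in
/-- the special pattern: `P` on `K`, `[b i = e]` between `i` and the reference index `e` -/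
noncomputable def enc (y : OmE E K) : Om (K ⊕ E) :=
  Sym2.lift ⟨fun i j => match i, j with
    | .inl i, .inl j => y.2 s(i, j)
    | .inl i, .inr e => if y.1 i = e then 1 else 0
    | .inr e, .inl i => if y.1 i = e then 1 else 0
    | .inr _, .inr _ => 0, by
    rintro (i | i) (j | j) <;> simp [Sym2.eq_swap]⟩

end types

/-- a finite abelian group with a type -/
structure Ty : Type 1 where
  E : Type
  [grp : AddCommGroup E]
  [fin : Finite E]
  τ : QT E

instance (σ : Ty) : AddCommGroup σ.E := σ.grp
instance (σ : Ty) : Finite σ.E := σ.fin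

/-- span of the phases of all types of order below `J` (degenerate ones allowed) -/
def Low (J : ℕ) (I : Type) : Submodule ℂ (Om I → ℂ) :=
  Submodule.span ℂ {φ | ∃ (σ : Ty) (w : I → σ.E), Nat.card σ.E < J ∧ φ = ph σ.τ w}

/-- energy of the orthogonal projection on `S` -/
noncomputable def pen {X : Type} (S : Submodule ℂ (X → ℂ)) (f : X → ℂ) : ℝ :=
  ⨆ g : S, 2 * (ip f g).re - n2 (g : X → ℂ)

/-- Hermitian and positive semidefinite -/
def PSD {X : Type} (M : X → X → ℂ) : Prop :=
  (∀ x y, M y x = conj (M x y)) ∧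
    ∀ a : X → ℂ, 0 ≤ (csm fun x => csm fun y => a x * conj (a y) * M x y).re

/-- entries with loop one against loop zero at an index whose other pairs agree are small -/
def FillS {K : Type} (ε : ℝ) (M : Om K → Om K → ℂ) : Prop :=
  ∀ (i : K) (P P' : Om K), P s(i, i) = 1 → P' s(i, i) = 0 →
    (∀ j, j ≠ i → P s(i, j) = P' s(i, j)) → ‖M P P'‖ ≤ ε

/-- `M` is close to a sum of nondegenerate models and a positive rest with small fill -/
def Dec {K : Type} (ε : ℝ) (M : Om K → Om K → ℂ) : Prop :=
  ∃ (m : ℕ) (σ : Fin m → Ty) (μ : Fin m → ℝ) (M' : Om K → Om K → ℂ),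
    (∀ i, (σ i).τ.ND) ∧ (∀ i, 0 ≤ μ i) ∧ PSD M' ∧ FillS ε M' ∧
      ∀ P P', ‖M P P' - (∑ i, (μ i : ℂ) * model (σ i).τ P P') - M' P P'‖ ≤ ε

/-- a kernel -/
structure Ker : Type 1 where
  ρ : ∀ (U : Type) [Finite U], Om U → Om U → ℂ
  psd : ∀ (U : Type) [Finite U], PSD (ρ U)
  le_one : ∀ (U : Type) [Finite U] (P : Om U), ‖ρ U P P‖ ≤ 1
  drop : ∀ (U U' : Type) [Finite U] [Finite U'] (j : U → U'), Function.Injective j →
    ∀ P P' : Om U', (∀ i l, i ∉ Set.range j → P s(i, l) = P' s(i, l)) →
      ρ U' P P' = ρ U (pb j P) (pb j P')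

/-- blocks of sizes `s k + 1` inside `K x Fin (S + 1)` -/
def blk {K : Type} {S : ℕ} (s : K → Fin (S + 1)) : Lab (K × Fin (S + 1)) K :=
  fun p => if p.2 ≤ s p.1 then some p.1 else none

/-- the kernel averaged over blow-ups with sizes uniform in `[1, S + 1]` -/
noncomputable def Ker.blow (κ : Ker) (K : Type) [Finite K] (S : ℕ) (P P' : Om K) : ℂ :=
  cav fun s : K → Fin (S + 1) => κ.ρ (K × Fin (S + 1)) (ow 0 (blk s) P) (ow 0 (blk s) P')

/-- no two members differ by filling an empty square -/
def Indep {I : Type} (A : Set (Om I)) : Prop :=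
  ∀ (x : Om I) (Φ : Lab I Unit), Good Φ → ow x Φ (fun _ => 0) ∈ A → ow x Φ (fun _ => 1) ∉ A

/-- test indices: one for each group element, one for each ordered pair -/
abbrev Tst (E : Type) : Type := E ⊕ E × E

section ann
variable {E K : Type}

open Classical in
/-- for the pairs `p` in `S`, exchange the pairs of indices `(p.1, p)` and `(p.2, p)` -/
noncomputable def sw (S : Set (E × E)) (P : Om (Tst E ⊕ K)) : Om (Tst E ⊕ K) :=
  Sym2.lift ⟨fun i j => match i, j with
    | .inl (.inl e), .inl (.inr p) =>
        if p ∈ S then P s(.inl (.inl (Equiv.swap p.1 p.2 e)), .inl (.inr p)) else P s(i, j)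
    | .inl (.inr p), .inl (.inl e) =>
        if p ∈ S then P s(.inl (.inl (Equiv.swap p.1 p.2 e)), .inl (.inr p)) else P s(i, j)
    | _, _ => P s(i, j), by
    rintro ((i | i) | i) ((j | j) | j) <;> simp [Sym2.eq_swap]⟩

/-- the annihilator: alternating sum over sets of pairs of different elements -/
noncomputable def ann (f : Om (Tst E ⊕ K) → ℂ) (P : Om (Tst E ⊕ K)) : ℂ :=
  csm fun S : Set (E × E) => (ind (∀ p ∈ S, p.1 ≠ p.2) : ℂ) * (-1) ^ S.ncard * f (sw S P)

/-- field energy of the annihilated function on special cells with singleton blocks -/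
noncomputable def SE [AddCommGroup E] (τ : QT E) (N : Type) (f : Om (Tst E ⊕ K) → ℂ) : ℝ :=
  av fun ι : N ⊕ E ↪ K => av fun x : Om (Tst E ⊕ K) =>
    fen τ fun y : OmE E N => ann f (ow x (crd fun u => Sum.inr (ι u)) (enc y))

end ann

/-- part III: tame fields lose their generating energy -/
def FULL {E : Type} [AddCommGroup E] (τ : QT E) : Prop :=
  ∀ (D : ℕ → ℝ) (K : Type) [Finite K] (η : ℝ), 0 < η → ∃ n0 : ℕ,
    ∀ (I : Type) [Finite I], n0 ≤ Nat.card I → ∀ c : (I → E) → ℂ, CT D (fld τ c) →
      ∃ A : GFam E I K, A.junk ≤ η ∧ (A.E fun x Φ => En τ (res (fld τ c) x Φ)) ≤ η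

/-- the main theorem on `Om` -/
def MAIN : Prop :=
  ∀ δ : ℝ, 0 < δ → ∃ n0 : ℕ, ∀ (I : Type) [Finite I], n0 ≤ Nat.card I →
    ∀ A : Set (Om I), δ ≤ av (fun x => ind (x ∈ A)) → ¬ Indep A

end NE
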