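import Pool.Agent.Lib.MP_ecee09_co.NE.GTW

/-! The Gaussian test functions for complex fields. -/

namespace NE

open SD MeasureTheory ProbabilityTheory Finset

/-- `z` or its conjugate -/
def cj (b : Bool) (z : ℂ) : ℂ := if b then (starRingEnd ℂ) z else z

@[simp] lemma cj_true (z : ℂ) : cj true z = (starRingEnd ℂ) z := rfl

@[simp] lemma cj_false (z : ℂ) : cj false z = z := rfl

/-- number of perfect matchings that pair equal labels and opposite signs -/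
noncomputable def pms {L : Type} {R : ℕ} (t : Fin R → L) (ε : Fin R → Bool) : ℝ :=
  cnt {m : Fin R → Fin R | (∀ r, m (m r) = r) ∧ (∀ r, ε (m r) = !ε r) ∧ ∀ r, t (m r) = t r}

/-- depends only on the sum and on the sum of the squared norms -/
def InvC {T : Type} [Fintype T] (Ψ : (T → ℂ) → ℝ) : Prop :=
  ∀ Y Y' : T → ℂ, ∑ t, Y t = ∑ t, Y' t → ∑ t, ‖Y t‖ ^ 2 = ∑ t, ‖Y' t‖ ^ 2 → Ψ Y = Ψ Y'

section pair
variable {R : ℕ} {m : Fin R → Fin R}

lemma pair_lt (h1 : ∀ r, m (m r) = r) (h2 : ∀ r, m r ≠ r) {r : Fin R} (h : ¬ r < m r) :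
    m r < m (m r) := by
  rw [h1]
  exact lt_of_le_of_ne (not_lt.1 h) (h2 r)

lemma pair_prod {M : Type} [CommMonoid M] (h1 : ∀ r, m (m r) = r) (h2 : ∀ r, m r ≠ r)
    (f : Fin R → M) : ∏ r, f r = ∏ r : {r // r < m r}, f r * f (m r) := by
  rw [← Finset.prod_subtype (Finset.univ.filter fun r => r < m r) (by simp)
    fun r => f r * f (m r), Finset.prod_mul_distrib,
    ← Finset.prod_filter_mul_prod_filter_not Finset.univ (fun r => r < m r) f]
  congr 1
  refine Finset.prod_nbij' m m ?_ ?_ (fun r _ => h1 r) (fun r _ => h1 r)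
    (fun r _ => by rw [h1])
  · intro r hr
    simp only [Finset.mem_filter, Finset.mem_univ, true_and] at hr ⊢
    exact pair_lt h1 h2 hr
  · intro r hr
    simp only [Finset.mem_filter, Finset.mem_univ, true_and] at hr ⊢
    rw [h1]
    exact not_lt.2 hr.le

lemma pair_sum (h1 : ∀ r, m (m r) = r) (h2 : ∀ r, m r ≠ r) (g : Fin R → Bool → ℂ) :
    ∑ ε ∈ univ.filter (fun ε : Fin R → Bool => ∀ r, ε (m r) = !ε r), ∏ r, g r (ε r) =
      ∏ r : {r // r < m r}, (g r false * g (m r) true + g r true * g (m r) false) := by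
  classical
  have h3 : ∀ r : {r // r < m r}, ¬ m r < m (m r) := fun r => by
    rw [h1]; exact not_lt.2 r.2.le
  have h4 : ∀ r : {r // r < m r}, g r false * g (m r) true + g r true * g (m r) false =
      ∑ b : Bool, g r b * g (m r) (!b) := fun r => by simp [add_comm]
  simp only [h4]
  rw [Fintype.prod_sum]
  symm
  refine Finset.sum_nbij'
    (fun Z r => if h : r < m r then Z ⟨r, h⟩ else !Z ⟨m r, pair_lt h1 h2 h⟩)
    (fun ε r => ε r.1) ?_ (fun _ _ => Finset.mem_univ _) ?_ ?_ ?_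
  · intro Z _
    simp only [Finset.mem_filter, Finset.mem_univ, true_and]
    intro r
    by_cases h : r < m r
    · rw [dif_pos h, dif_neg (h3 ⟨r, h⟩)]
      simp only [h1]
    · rw [dif_neg h, dif_pos (pair_lt h1 h2 h), Bool.not_not]
  · intro Z _
    funext r
    simp only [dif_pos r.2]
  · intro ε hε
    simp only [Finset.mem_filter, Finset.mem_univ, true_and] at hε
    funext r
    by_cases h : r < m r
    · simp only [dif_pos h]
    · simp only [dif_neg h, hε, Bool.not_not]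
  · intro Z _
    rw [pair_prod h1 h2]
    refine Finset.prod_congr rfl fun r _ => ?_
    simp only [dif_pos r.2]
    simp only [dif_neg (h3 r)]
    simp only [h1]

end pair

/-- the coefficients of the two real coordinates -/
noncomputable def cf2 {I : Type} : I ⊕ I → Bool → ℂ
  | .inl _, _ => (√2 / 2 : ℝ)
  | .inr _, b => (√2 / 2 : ℝ) * if b then Complex.I else -Complex.I

/-- the two real coordinates -/
noncomputable def xc {I : Type} (Y : I → ℂ) : I ⊕ I → ℝ :=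
  Sum.elim (fun i => √2 * (Y i).re) fun i => √2 * (Y i).im

lemma xc_eq {I : Type} (Y : I → ℂ) (i : I ⊕ I) :
    (xc Y i : ℂ) = ∑ b : Bool, cf2 i b * cj b (Y (Sum.elim id id i)) := by
  rcases i with i | i <;> apply Complex.ext <;> simp [xc, cf2] <;> ring

lemma cf2_norm {I : Type} (i : I ⊕ I) (b : Bool) : ‖cf2 i b‖ ≤ 1 := by
  have h : |√2 / 2| ≤ (1 : ℝ) := by
    rw [abs_of_nonneg (by positivity), div_le_one (by norm_num), Real.sqrt_le_left (by norm_num)]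
    norm_num
  rcases i with i | i
  · rw [cf2, Complex.norm_real]; exact h
  · rw [cf2, norm_mul, Complex.norm_real]
    refine mul_le_one₀ h (norm_nonneg _) ?_
    cases b <;> simp

lemma cf2_pair {I : Type} (i i' : I ⊕ I) :
    cf2 i false * cf2 i' true + cf2 i true * cf2 i' false =
      if i.isLeft = i'.isLeft then 1 else 0 := by
  have h : ((√2 / 2 : ℝ) : ℂ) * ((√2 / 2 : ℝ) : ℂ) = 1 / 2 := by
    rw [← Complex.ofReal_mul, div_mul_div_comm, Real.mul_self_sqrt (by norm_num)]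
    push_cast
    ring
  have hI := Complex.I_mul_I
  rcases i with i | i <;> rcases i' with i' | i' <;>
    simp only [cf2, Sum.isLeft_inl, Sum.isLeft_inr, if_true, Bool.true_eq_false,
      Bool.false_eq_true, if_false]
  · rw [h]; norm_num
  · ring
  · ring
  · linear_combination (-2 * Complex.I * Complex.I) * h - hI

lemma pm_cx {I : Type} {R : ℕ} (l : Fin R → I ⊕ I) :
    ∑ ε : Fin R → Bool, (∏ r, cf2 (l r) (ε r)) * (pms (fun r => Sum.elim id id (l r)) ε : ℝ) =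
      (pm l : ℝ) := by
  classical
  simp only [pms, pm, cnt, sm_eq, Set.mem_ofPred_eq, Complex.ofReal_sum, Finset.mul_sum]
  rw [Finset.sum_comm]
  refine Finset.sum_congr rfl fun m _ => ?_
  by_cases h : (∀ r, m (m r) = r) ∧ (∀ r, m r ≠ r) ∧
      ∀ r, Sum.elim id id (l (m r)) = Sum.elim id id (l r)
  · obtain ⟨h1, h2, h3⟩ := h
    have h4 := pair_sum h1 h2 fun r b => cf2 (l r) b
    rw [Finset.sum_filter] at h4
    have h5 : ∀ ε : Fin R → Bool, (∏ r, cf2 (l r) (ε r)) *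
        (ind ((∀ r, m (m r) = r) ∧ (∀ r, ε (m r) = !ε r) ∧
          ∀ r, Sum.elim id id (l (m r)) = Sum.elim id id (l r)) : ℝ) =
        if ∀ r, ε (m r) = !ε r then ∏ r, cf2 (l r) (ε r) else 0 := fun ε => by
      split_ifs with h
      · rw [ind_pos ⟨h1, h, h3⟩]; simp
      · rw [ind_neg fun h' => h h'.2.1]; simp
    simp only [h5, h4, cf2_pair]
    by_cases h6 : ∀ r, l (m r) = l r
    · rw [ind_pos ⟨h1, h2, h6⟩]
      simp [h6]
    · rw [ind_neg fun h' => h6 h'.2.2]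
      have h7 : ∃ r : {r // r < m r}, (l r).isLeft ≠ (l (m r)).isLeft := by
        by_contra h7
        push Not at h7
        refine h6 fun r => ?_
        have h8 : (l r).isLeft = (l (m r)).isLeft := by
          by_cases h : r < m r
          · exact h7 ⟨r, h⟩
          · have := h7 ⟨m r, pair_lt h1 h2 h⟩
            simp only [h1] at this
            exact this.symm
        have h9 := h3 r
        generalize l (m r) = u at h8 h9 ⊢
        generalize l r = v at h8 h9 ⊢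
        rcases u with u | u <;> rcases v with v | v <;> simp_all
      obtain ⟨r, hr⟩ := h7
      rw [Finset.prod_eq_zero (Finset.mem_univ r) (if_neg hr)]
      simp
  · rw [ind_neg fun h' => h ⟨h'.1, h'.2.1, fun r => by rw [h'.2.2]⟩]
    simp only [Complex.ofReal_zero]
    refine Finset.sum_eq_zero fun ε _ => ?_
    rw [ind_neg fun h' => h ⟨h'.1, fun r hr => ?_, h'.2.2⟩]
    · simp
    · have := h'.2.1 r
      rw [hr] at this
      simp at this

lemma pms_comp {I L : Type} {R : ℕ} (j : I → L) (hj : Function.Injective j) (l : Fin R → I)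
    (ε : Fin R → Bool) : pms (fun r => j (l r)) ε = pms l ε := by
  unfold pms
  congr 1
  ext m
  simp only [Set.mem_ofPred_eq, hj.eq_iff]

/-- real moments from complex moments -/
lemma xc_mom {Ω I : Type} [Finite Ω] (p : Ω → ℝ) (Y : Ω → I → ℂ) {R : ℕ} {δ : ℝ}
    (h : ∀ (l : Fin R → I) (ε : Fin R → Bool),
      |(av fun w => p w * (∏ r, cj (ε r) (Y w (l r))).re) - pms l ε| ≤ δ ∧
        |av fun w => p w * (∏ r, cj (ε r) (Y w (l r))).im| ≤ δ) (l : Fin R → I ⊕ I) :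
    |(av fun w => p w * ∏ r, xc (Y w) (l r)) - pm l| ≤ 2 ^ (R + 1) * δ := by
  classical
  have h1 : ∀ w, p w * ∏ r, xc (Y w) (l r) = ∑ ε : Fin R → Bool,
      ((∏ r, cf2 (l r) (ε r)).re * (p w * (∏ r, cj (ε r) (Y w (Sum.elim id id (l r)))).re) -
        (∏ r, cf2 (l r) (ε r)).im *
          (p w * (∏ r, cj (ε r) (Y w (Sum.elim id id (l r)))).im)) := fun w => by
    have h2 : ((∏ r, xc (Y w) (l r) : ℝ) : ℂ) = ∑ ε : Fin R → Bool,
        (∏ r, cf2 (l r) (ε r)) * ∏ r, cj (ε r) (Y w (Sum.elim id id (l r))) := by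
      rw [Complex.ofReal_prod]
      simp only [xc_eq]
      rw [Fintype.prod_sum]
      simp only [Finset.prod_mul_distrib]
    have h3 := congrArg Complex.re h2
    rw [Complex.ofReal_re, Complex.re_sum] at h3
    rw [h3, Finset.mul_sum]
    refine Finset.sum_congr rfl fun ε _ => ?_
    rw [Complex.mul_re]
    ring
  have h4 := congrArg Complex.re (pm_cx l)
  rw [Complex.ofReal_re, Complex.re_sum] at h4
  rw [av_congr h1, av_sum, ← h4, ← Finset.sum_sub_distrib]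
  refine (Finset.abs_sum_le_sum_abs _ _).trans ?_
  refine (Finset.sum_le_card_nsmul _ _ (2 * δ) fun ε _ => ?_).trans (le_of_eq ?_)
  · obtain ⟨a, b⟩ := h (fun r => Sum.elim id id (l r)) ε
    have hn : ‖∏ r, cf2 (l r) (ε r)‖ ≤ 1 := by
      rw [norm_prod]
      exact Finset.prod_le_one (fun _ _ => norm_nonneg _) fun _ _ => cf2_norm _ _
    have c1 := (Complex.abs_re_le_norm _).trans hn
    have c2 := (Complex.abs_im_le_norm _).trans hn
    rw [av_sub, av_mul_left, av_mul_left, Complex.re_mul_ofReal, sub_right_comm, ← mul_sub]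
    refine (abs_sub _ _).trans ?_
    rw [abs_mul, abs_mul, two_mul]
    exact add_le_add ((mul_le_of_le_one_left (abs_nonneg _) c1).trans a)
      ((mul_le_of_le_one_left (abs_nonneg _) c2).trans b)
  · simp only [Finset.card_univ, Fintype.card_fun, Fintype.card_bool, Fintype.card_fin,
      nsmul_eq_mul]
    push_cast
    ring

/-- independence of the two halves -/
lemma gt_sum {I : Type} [Fintype I] (f g : (I → ℝ) → ℝ) :
    ∫ y, f (y ∘ Sum.inl) * g (y ∘ Sum.inr) ∂gtP (I ⊕ I) =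
      (∫ y, f y ∂gtP I) * ∫ y, g y ∂gtP I := by
  rw [← integral_prod_mul, ← (measurePreserving_sumPiEquivProdPi
    (fun _ : I ⊕ I => gtG)).integral_comp' (fun z => f z.1 * g z.2)]
  rfl

lemma gb_sum {I : Type} {f g : (I → ℝ) → ℝ} (hf : GB f) (hg : GB g) :
    GB fun y : I ⊕ I → ℝ => f (y ∘ Sum.inl) * g (y ∘ Sum.inr) := by
  obtain ⟨h1, C, hC⟩ := hf
  obtain ⟨h2, D, hD⟩ := hg
  exact GB.mul (f := fun y : I ⊕ I → ℝ => f (y ∘ Sum.inl))
    (g := fun y : I ⊕ I → ℝ => g (y ∘ Sum.inr))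
    ⟨h1.comp (by fun_prop), C, fun _ => hC _⟩ ⟨h2.comp (by fun_prop), D, fun _ => hD _⟩

/-- the complex test functions -/
noncomputable def gtC {T : Type} [Fintype T] (r : ℝ) (j : ℕ) (Y : T → ℂ) : ℝ :=
  gtS r j (fun t => √2 * (Y t).re) * gtS r 0 fun t => √2 * (Y t).im

lemma gtS_fac {T : Type} [Fintype T] (r : ℝ) (j : ℕ) : ∃ H : ℝ → ℝ, ∀ X : T → ℝ,
    gtS r j X = Real.exp (-((∑ i, X i ^ 2) / 2)) * H (∑ i, X i) := by
  refine ⟨fun s => ∫ t, t ^ j * (√2 ^ Fintype.card T *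
    Real.exp (2 * s * t - Fintype.card T * t ^ 2)) ∂gtU r, fun X => ?_⟩
  have h : ∀ t : ℝ, ∏ i, gtf t (X i) = √2 ^ Fintype.card T *
      Real.exp (2 * (∑ i, X i) * t - Fintype.card T * t ^ 2 - (∑ i, X i ^ 2) / 2) := by
    intro t
    simp only [gtf, Finset.prod_mul_distrib, Finset.prod_const, Finset.card_univ, ← Real.exp_sum,
      Finset.sum_sub_distrib, Finset.sum_const, nsmul_eq_mul, Finset.mul_sum, Finset.sum_mul,
      Finset.sum_div]
  simp only [gtS, h, ← integral_const_mul]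
  congr 1
  funext t
  rw [sub_eq_add_neg _ (_ / 2), Real.exp_add]
  ring

lemma gtC_inv {T : Type} [Fintype T] (r : ℝ) (j : ℕ) : InvC (gtC (T := T) r j) := by
  obtain ⟨H, hH⟩ := gtS_fac (T := T) r j
  obtain ⟨K, hK⟩ := gtS_fac (T := T) r 0
  have h : ∀ Y : T → ℂ, gtC r j Y = Real.exp (-∑ t, ‖Y t‖ ^ 2) *
      (H (√2 * (∑ t, Y t).re) * K (√2 * (∑ t, Y t).im)) := fun Y => by
    have h2 : √2 ^ 2 = (2 : ℝ) := Real.sq_sqrt (by norm_num)
    rw [gtC, hH, hK, mul_mul_mul_comm, ← Real.exp_add, Complex.re_sum, Complex.im_sum,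
      Finset.mul_sum, Finset.mul_sum]
    congr 2
    simp only [mul_pow, h2, Complex.sq_norm, Complex.normSq_apply, Finset.sum_add_distrib,
      ← Finset.mul_sum, ← pow_two]
    ring
  intro Y Y' h1 h2
  rw [h, h, h1, h2]

section two
variable {T I : Type} [Fintype T] [Fintype I] (o : T) {a b : T → I}

lemma gtU_le (r : ℝ) : ∫ t, t ^ 0 ∂gtU r ≤ 1 := by
  simp only [pow_zero, integral_const, smul_eq_mul, mul_one]
  rw [measureReal_restrict_apply_univ]
  exact measureReal_le_one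

lemma gtp_sq0 (r : ℝ) : ∫ x, gtp r 0 x * gtp r 0 x ∂gtG ≤ 1 := by
  have h2 := integral_mono (((gb_p r 0).mul (gb_p r 0)).int gtG) (integrable_const 1) (gtp_zero r)
  simpa using h2

lemma gtp_sq1 (r : ℝ) : ∫ x, gtp r 1 x * gtp r 1 x ∂gtG ≤ ∫ t, t ^ 2 ∂gtU r := by
  rw [← gt_f0]
  refine integral_mono (((gb_p r 1).mul (gb_p r 1)).int gtG) ((gb_p r 2).int gtG) fun x => ?_
  have h1 := gt_cs (gtU r) (fun t => gtf t x) (fun t => (gtf_pos t x).le)
    fun j => ((gk_pow r j).mul (gk_f r)).int x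
  have h2 : 0 ≤ gtp r 2 x := integral_nonneg fun t => mul_nonneg (sq_nonneg t) (gtf_pos t x).le
  have h3 : gtp r 0 x ≤ 1 := by nlinarith [gtp_zero r x]
  change gtp r 1 x ^ 2 ≤ gtp r 0 x * gtp r 2 x at h1
  change gtp r 1 x * gtp r 1 x ≤ gtp r 2 x
  nlinarith

lemma gtp_gap (r : ℝ) : ∫ x, gtp r 1 x * gtp r 1 x ∂gtG - ∫ x, x * gtp r 1 x ∂gtG ≤
    1 / 4 - ∫ t, t ^ 2 ∂gtU r := by
  have D := (gb_p r 1).mul (gb_p r 1)
  have h2 := integral_mono ((D.sub (gb_xp r 1)).int gtG)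
    (((GB.const (1 / 4)).sub (gb_p r 2)).int gtG) (gtp_one r)
  rw [integral_sub (D.int _) ((gb_xp r 1).int _),
    integral_sub (integrable_const _) ((gb_p r 2).int _), gt_f0] at h2
  simpa using h2

/-- first model function -/
noncomputable def mf1 (a b : T → I) (r : ℝ) (y : I ⊕ I → ℝ) : ℝ :=
  gtS r 0 (y ∘ Sum.inl ∘ a) * gtS r 0 (y ∘ Sum.inl ∘ b) *
    (gtS r 0 (y ∘ Sum.inr ∘ a) * gtS r 0 (y ∘ Sum.inr ∘ b)) -
  gtS r 0 (y ∘ Sum.inl ∘ a) * gtS r 0 (y ∘ Sum.inr ∘ a) -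
  (gtS r 0 (y ∘ Sum.inl ∘ b) * gtS r 0 (y ∘ Sum.inr ∘ b) - 1)

/-- second model function -/
noncomputable def mf2 (o : T) (a b : T → I) (r : ℝ) (y : I ⊕ I → ℝ) : ℝ :=
  gtS r 1 (y ∘ Sum.inl ∘ a) * gtS r 1 (y ∘ Sum.inl ∘ b) *
    (gtS r 0 (y ∘ Sum.inr ∘ a) * gtS r 0 (y ∘ Sum.inr ∘ b)) -
  1 / 2 * (y (Sum.inl (a o)) * gtS r 1 (y ∘ Sum.inl ∘ a) * gtS r 0 (y ∘ Sum.inr ∘ a)) -
  1 / 2 * (y (Sum.inl (b o)) * gtS r 1 (y ∘ Sum.inl ∘ b) * gtS r 0 (y ∘ Sum.inr ∘ b))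

lemma mf1_spec (ha : Function.Injective a) (hb : Function.Injective b) (ho : a o = b o)
    (hab : ∀ t t', a t = b t' → t = o) (r : ℝ) :
    GB (mf1 a b r) ∧ ∫ y, mf1 a b r y ∂gtP (I ⊕ I) ≤ 2 - 2 * (∫ t, t ^ 0 ∂gtU r) ^ 2 := by
  have A := gb_sum ((gb_S a r 0).mul (gb_S b r 0)) ((gb_S a r 0).mul (gb_S b r 0))
  have B := gb_sum (gb_S a r 0) (gb_S a r 0)
  have C := gb_sum (gb_S b r 0) (gb_S b r 0)
  refine ⟨(A.sub B).sub (C.sub (GB.const 1)), ?_⟩
  have e1 := gt_sum (fun y => gtS r 0 (y ∘ a) * gtS r 0 (y ∘ b))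
    (fun y => gtS r 0 (y ∘ a) * gtS r 0 (y ∘ b))
  have e2 := gt_sum (fun y => gtS r 0 (y ∘ a)) (fun y => gtS r 0 (y ∘ a))
  have e3 := gt_sum (fun y => gtS r 0 (y ∘ b)) (fun y => gtS r 0 (y ∘ b))
  have e4 := integral_sub ((A.sub B).int (gtP (I ⊕ I))) ((C.sub (GB.const 1)).int _)
  rw [integral_sub (A.int _) (B.int _), integral_sub (C.int _) (integrable_const _), e1, e2, e3,
    gt_f2 o ha hb ho hab, gt_f1 o ha, gt_f1 o hb] at e4
  refine (le_of_eq e4).trans ?_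
  have h1 := gtp_sq0 r
  have h2 : 0 ≤ ∫ x, gtp r 0 x * gtp r 0 x ∂gtG := integral_nonneg fun x => mul_self_nonneg _
  rw [integral_const, probReal_univ, smul_eq_mul]
  nlinarith

lemma mf2_spec (ha : Function.Injective a) (hb : Function.Injective b) (ho : a o = b o)
    (hab : ∀ t t', a t = b t' → t = o) (r η : ℝ) (r0 : 1 - η ≤ ∫ t, t ^ 0 ∂gtU r)
    (r2 : 1 / 2 - η ≤ ∫ t, t ^ 2 ∂gtU r) (r2' : ∫ t, t ^ 2 ∂gtU r ≤ 1 / 2) :
    GB (mf2 o a b r) ∧ ∫ y, mf2 o a b r y ∂gtP (I ⊕ I) ≤ -1 / 4 + 2 * η := by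
  have A := gb_sum ((gb_S a r 1).mul (gb_S b r 1)) ((gb_S a r 0).mul (gb_S b r 0))
  have B := (GB.const (1 / 2)).mul (gb_sum (gb_xS o a r 1) (gb_S a r 0))
  have C := (GB.const (1 / 2)).mul (gb_sum (gb_xS o b r 1) (gb_S b r 0))
  refine ⟨(A.sub B).sub C, ?_⟩
  have e1 := gt_sum (fun y => gtS r 1 (y ∘ a) * gtS r 1 (y ∘ b))
    (fun y => gtS r 0 (y ∘ a) * gtS r 0 (y ∘ b))
  have e2 := gt_sum (fun y => y (a o) * gtS r 1 (y ∘ a)) (fun y => gtS r 0 (y ∘ a))
  have e3 := gt_sum (fun y => y (b o) * gtS r 1 (y ∘ b)) (fun y => gtS r 0 (y ∘ b))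
  have e4 := integral_sub ((A.sub B).int (gtP (I ⊕ I))) (C.int _)
  rw [integral_sub (A.int _) (B.int _), integral_const_mul, integral_const_mul, e1, e2, e3,
    gt_f2 o ha hb ho hab, gt_f2 o ha hb ho hab, gt_f1 o ha, gt_f1 o hb, gt_fx o ha,
    gt_fx o hb] at e4
  refine (le_of_eq e4).trans ?_
  have h1 := gtp_sq0 r
  have h2 : 0 ≤ ∫ x, gtp r 1 x * gtp r 1 x ∂gtG := integral_nonneg fun x => mul_self_nonneg _
  have h3 := gtp_sq1 r
  have h4 := gtp_gap r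
  have h5 := gtU_le r
  have h6 : 0 ≤ ∫ t, t ^ 0 ∂gtU r := integral_nonneg fun t => by simp
  generalize ∫ x, gtp r 1 x * gtp r 1 x ∂gtG = F1 at *
  generalize ∫ x, gtp r 0 x * gtp r 0 x ∂gtG = F0 at *
  generalize ∫ x, x * gtp r 1 x ∂gtG = G at *
  generalize ∫ t, t ^ 0 ∂gtU r = m0 at *
  generalize ∫ t, t ^ 2 ∂gtU r = m2 at *
  have h7 : F1 * F0 ≤ F1 := mul_le_of_le_one_right h2 h1
  have h8 : (F1 - G) * m0 ≤ (-1 / 4 + η) * m0 := mul_le_mul_of_nonneg_right (by linarith) h6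
  have h9 : F1 * (1 - m0) ≤ 1 / 2 * (1 - m0) :=
    mul_le_mul_of_nonneg_right (by linarith) (by linarith)
  have h10 : η * m0 ≤ η := mul_le_of_le_one_right (by linarith) h5
  nlinarith

end two

/-- the Gaussian test for complex fields and a weight `p` -/
def GT2 : Prop :=
  ∃ τ : ℝ, 0 < τ ∧ ∀ (T : Type) [Fintype T] (o : T) (η : ℝ), 0 < η →
    ∃ (Ψ Ψ1 Ψ2 : (T → ℂ) → ℝ) (C : ℝ) (R : ℕ) (δ : ℝ), 0 < δ ∧
      InvC Ψ ∧ InvC Ψ1 ∧ InvC Ψ2 ∧ (∀ X, 0 ≤ Ψ X) ∧ (∀ X, Ψ X ≤ C) ∧ (∀ X, |Ψ1 X| ≤ C) ∧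
      (∀ X, 0 ≤ Ψ2 X) ∧ (∀ X, Ψ2 X ≤ C) ∧ (∀ X, Ψ1 X ^ 2 ≤ Ψ X * Ψ2 X) ∧
      ∀ (Ω L : Type) [Finite Ω] (p : Ω → ℝ) (Y : Ω → L → ℂ) (e1 e2 : T → L),
        (∀ w, 0 ≤ p w) → Function.Injective e1 → Function.Injective e2 → e1 o = e2 o →
        (∀ t t', e1 t = e2 t' → t = o) →
        (∀ R' : ℕ, R' ≤ R → ∀ (l : Fin R' → L) (ε : Fin R' → Bool),
          |(av fun w => p w * (∏ r, cj (ε r) (Y w (l r))).re) - pms l ε| ≤ δ ∧
            |av fun w => p w * (∏ r, cj (ε r) (Y w (l r))).im| ≤ δ) →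
        av (fun w => p w * ((Ψ (Y w ∘ e1) - 1) * (Ψ (Y w ∘ e2) - 1))) ≤ η ∧
        av (fun w => p w * ((Ψ1 (Y w ∘ e1) - τ * (Y w (e1 o)).re) *
          (Ψ1 (Y w ∘ e2) - τ * (Y w (e1 o)).re))) ≤ η ∧
        av (fun w => p w * Ψ2 (Y w ∘ e1)) ≤ 1

theorem gt2 : GT2 := by
  classical
  refine ⟨1 / 2 * √2, by positivity, fun T _ o η hη => ?_⟩
  obtain ⟨r, r0, r2, r2'⟩ := gt_cut (η / 8) (by linarith)
  obtain ⟨a, b, ha, hb, ho, hab, hj⟩ := gt_glue o
  obtain ⟨C, hC1, hC⟩ := gtS_bdd T r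
  obtain ⟨B1, g1⟩ := mf1_spec o ha hb ho hab r
  obtain ⟨B2, g2⟩ := mf2_spec o ha hb ho hab r _ r0 r2 r2'
  obtain ⟨R1, δ1, p1, t1⟩ := gw_trans _ B1 (η / 2) (by linarith)
  obtain ⟨R2, δ2, p2, t2⟩ := gw_trans _ B2 (η / 2) (by linarith)
  obtain ⟨R3, δ3, p3, t3⟩ := gw_trans _ (gb_sum (gb_S a r 2) (gb_S a r 0)) (1 / 2) (by linarith)
  have hB : ∀ (j : ℕ) (X : T → ℂ), (∀ X : T → ℝ, |gtS r j X| ≤ C) → |gtC r j X| ≤ C * C :=
    fun j X h => by
      rw [gtC, abs_mul]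
      exact mul_le_mul (h _) (hC _).1 (abs_nonneg _) (by linarith)
  have h0 := gtS_nonneg (T := T) r 0 (by simp)
  refine ⟨gtC r 0, gtC r 1, gtC r 2, C * C, R1 + R2 + R3 + 2,
    min (min δ1 δ2) (min δ3 η) / 2 ^ (R1 + R2 + R3 + 2 + 1),
    by positivity, gtC_inv r 0, gtC_inv r 1, gtC_inv r 2, fun X => mul_nonneg (h0 _) (h0 _),
    fun X => (le_abs_self _).trans (hB 0 X fun X => (hC X).1), fun X => hB 1 X fun X => (hC X).2.1,
    fun X => mul_nonneg (gtS_nonneg r 2 (by simp) _) (h0 _),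
    fun X => (le_abs_self _).trans (hB 2 X fun X => (hC X).2.2), fun X => ?_, ?_⟩
  · rw [gtC, gtC, gtC, mul_pow, mul_mul_mul_comm, ← pow_two]
    exact mul_le_mul_of_nonneg_right (gtS_cs r _) (sq_nonneg _)
  intro Ω L _ p Y e1 e2 hp i1 i2 eo e12 hm
  obtain ⟨j, hj, ja, jb⟩ := hj L e1 e2 i1 i2 eo e12
  have hm' : ∀ R' : ℕ, R' ≤ R1 + R2 + R3 + 2 → ∀ l : Fin R' → _,
      |(av fun w => p w * ∏ r, xc (fun i => Y w (j i)) (l r)) - pm l| ≤
        min (min δ1 δ2) (min δ3 η) := fun R' h l => by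
    refine (xc_mom p (fun w i => Y w (j i)) (fun l ε => ?_) l).trans
      (b := 2 ^ (R' + 1) * (min (min δ1 δ2) (min δ3 η) / 2 ^ (R1 + R2 + R3 + 2 + 1))) ?_
    · rw [← pms_comp j hj l]
      exact hm R' h _ ε
    · rw [mul_div_assoc', div_le_iff₀ (by positivity), mul_comm]
      exact mul_le_mul_of_nonneg_left (pow_le_pow_right₀ (by norm_num) (by omega))
        (by positivity)
  have s1 := t1 Ω p (fun w => xc fun i => Y w (j i)) hp fun R' h l =>
    (hm' R' (by omega) l).trans ((min_le_left _ _).trans (min_le_left _ _))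
  have s2 := t2 Ω p (fun w => xc fun i => Y w (j i)) hp fun R' h l =>
    (hm' R' (by omega) l).trans ((min_le_left _ _).trans (min_le_right _ _))
  have s3 := t3 Ω p (fun w => xc fun i => Y w (j i)) hp fun R' h l =>
    (hm' R' (by omega) l).trans ((min_le_right _ _).trans (min_le_left _ _))
  have s4 := (hm' 2 (by omega) fun _ => Sum.inl (a o)).trans
    ((min_le_right _ _).trans (min_le_right _ _))
  rw [pm_two] at s4
  have la : ∀ w, (xc fun i => Y w (j i)) ∘ Sum.inl ∘ a = fun t => √2 * ((Y w ∘ e1) t).re :=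
    fun w => funext fun t => by simp [xc, ja]
  have lb : ∀ w, (xc fun i => Y w (j i)) ∘ Sum.inl ∘ b = fun t => √2 * ((Y w ∘ e2) t).re :=
    fun w => funext fun t => by simp [xc, jb]
  have ra : ∀ w, (xc fun i => Y w (j i)) ∘ Sum.inr ∘ a = fun t => √2 * ((Y w ∘ e1) t).im :=
    fun w => funext fun t => by simp [xc, ja]
  have rb : ∀ w, (xc fun i => Y w (j i)) ∘ Sum.inr ∘ b = fun t => √2 * ((Y w ∘ e2) t).im :=
    fun w => funext fun t => by simp [xc, jb]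
  have xo : ∀ w, (xc fun i => Y w (j i)) (Sum.inl (a o)) = √2 * (Y w (e1 o)).re :=
    fun w => by simp [xc, ja]
  have e3 := gt_sum (fun y => gtS r 2 (y ∘ a)) (fun y => gtS r 0 (y ∘ a))
  rw [gt_f1 o ha, gt_f1 o ha] at e3
  rw [e3] at s3
  replace s1 := s1.trans (add_le_add g1 le_rfl)
  replace s2 := s2.trans (add_le_add g2 le_rfl)
  simp only [Function.comp_assoc, la, ra] at s3
  simp only [mf1, la, lb, ra, rb] at s1
  simp only [mf2, la, lb, ra, rb, ← ho, xo] at s2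
  simp only [xo] at s4
  have u1 := gtU_le r
  have u0 : 0 ≤ ∫ t, t ^ 0 ∂gtU r := integral_nonneg fun t => by simp
  refine ⟨(le_of_eq (av_congr fun w => ?_)).trans (s1.trans ?_), ?_, s3.trans ?_⟩
  · simp only [gtC]
    ring
  · nlinarith [sq_nonneg (1 - ∫ t, t ^ 0 ∂gtU r)]
  · have h5 := add_le_add s2 (mul_le_mul_of_nonneg_left (abs_le.1 s4).2
      (show (0 : ℝ) ≤ 1 / 4 by norm_num))
    rw [mul_sub, ← av_mul_left, ← add_sub_assoc, ← av_add] at h5
    refine (le_of_eq (av_congr fun w => ?_)).trans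
      ((sub_le_iff_le_add.1 h5).trans (by linarith))
    simp only [gtC, Fin.prod_univ_two]
    ring
  · nlinarith [mul_le_mul r2' u1 u0 (by norm_num)]

end NE
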