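import Pool.Agent.Lib.MP_ecee09_co.NE.Stmts
import Pool.Agent.Lib.MP_ecee09_co.NE.GT2

/-! Definitions and interface statements of part III-a (fields lose their generating energy). -/

namespace NE

open SD (F sm av ind cnt Tame pm)
open ComplexConjugate

section boxes
variable {G H1 H2 H3 : Type} [AddCommGroup G]

/-- multiplicative derivative -/
noncomputable def dd (k : G → ℂ) (h : G) (x : G) : ℂ := k x * conj (k (x + h))

/-- the box with shifts `a h1`, `b h2` -/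
noncomputable def gb2 (k : G → ℂ) (a : H1 → G) (b : H2 → G) : ℝ :=
  (cav fun x => cav fun h1 => cav fun h2 => dd (dd k (a h1)) (b h2) x).re

/-- the box with three shifts -/
noncomputable def gb3 (k : G → ℂ) (a : H1 → G) (b : H2 → G) (c : H3 → G) : ℝ :=
  (cav fun x => cav fun h1 => cav fun h2 => cav fun h3 => dd (dd (dd k (a h1)) (b h2)) (c h3) x).re

/-- average over the shifts `a h` -/
noncomputable def prS (a : H1 → G) (k : G → ℂ) (x : G) : ℂ := cav fun h => k (x + a h)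

end boxes

section
variable {E I K B G : Type} [AddCommGroup E]

open Classical in
/-- a vector with values in `S`, cut to zero off `J` -/
noncomputable def sft (J : Set B) (S : AddSubgroup E) (h : B → S) : B → E :=
  fun l => if l ∈ J then (h l : E) else 0

/-- exact box of a function of the vector, shifts supported in `J` -/
noncomputable def xb2 (k : (I → E) → ℂ) (J : Set I) (S1 S2 : AddSubgroup E) : ℝ :=
  gb2 k (sft J S1) (sft J S2)

noncomputable def xb3 (k : (I → E) → ℂ) (J : Set I) : ℝ :=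
  gb3 k (sft J (⊤ : AddSubgroup E)) (sft J (⊤ : AddSubgroup E)) (sft J (⊤ : AddSubgroup E))

noncomputable def box (u : OmE E I → ℂ) (S1 S2 : AddSubgroup E) : ℝ :=
  av fun P : Om I => xb2 (fun b => u (b, P)) Set.univ S1 S2

noncomputable def box3 (u : OmE E I → ℂ) : ℝ :=
  av fun P : Om I => xb3 (fun b => u (b, P)) Set.univ

/-- mean of a statistic over coordinate cells of size `s` -/
noncomputable def cm (u : OmE E I → ℂ) (s : ℕ) (Y : (OmE E (Fin s) → ℂ) → ℝ) : ℝ :=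
  av fun ι : Fin s ↪ I => av fun x : OmE E I => Y (res u x (crd ι))

/-- all boxes of coordinate cells of size `s` are small in the mean -/
def SmallB (τ : QT E) (u : OmE E I → ℂ) (s : ℕ) (η : ℝ) : Prop :=
  (∀ S : AddSubgroup E, S ≠ ⊥ → S ≠ ⊤ → cm u s (fun g => box g S (τ.perp S)) ≤ η) ∧
    cm u s box3 ≤ η

/-- mean of the squared energy of coordinate cells -/
noncomputable def vr (u : OmE E I → ℂ) (s : ℕ) : ℝ := cm u s fun g => n2 g ^ 2

/-- all characters of the type are real -/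
def QT.Real (τ : QT E) : Prop := (∀ x : E, 2 • x = 0) ∧ ∀ x : E, 2 • τ.q x = 0

/-- in the real case only real functions are admitted -/
def Adm {X : Type} (τ : QT E) (u : X → ℂ) : Prop := τ.Real → ∀ x, (u x).im = 0

open Classical in
/-- the number of matchings that enter the moments -/
noncomputable def pmx {L : Type} {R : ℕ} (τ : QT E) (t : Fin R → L) (ε : Fin R → Bool) : ℝ :=
  if τ.Real then pm t else pms t ε

/-- some family has mean generating energy at most `b` -/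
def Drop (τ : QT E) (u : OmE E I → ℂ) (K : Type) (η b : ℝ) : Prop :=
  ∃ A : GFam E I K, A.junk ≤ η ∧ (A.E fun x Φ => En τ (res u x Φ)) ≤ b

/-- some family has mean non generating energy at least `c` -/
def Gain (τ : QT E) (u : OmE E I → ℂ) (K : Type) (η c : ℝ) : Prop :=
  ∃ A : GFam E I K, A.junk ≤ η ∧ c ≤ A.E fun x Φ => ng τ (res u x Φ)

variable [AddCommGroup G]

/-- label projection for a homomorphism of block shifts -/
noncomputable def lp3 (τ : QT E) (s : (B → E) →+ G) (k : G → ℂ) (w : B → E) (b : G) : ℂ :=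
  cav fun h : B → E => k (b + s h) * conj (ee (brk τ w h))

/-- the function seen after adding the block constant pattern `P` -/
noncomputable def tk (τ : QT E) (s : (B → E) →+ G) (k : G → ℂ) (P : Om B) (b : G) : ℂ :=
  csm fun w : B → E => ph τ w P * lp3 τ s k w b

/-- box with free shifts on the blocks in `J` -/
noncomputable def bb2 (s : (B → E) →+ G) (k : G → ℂ) (J : Set B) (S1 S2 : AddSubgroup E) : ℝ :=
  gb2 k (fun h => s (sft J S1 h)) fun h => s (sft J S2 h)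

noncomputable def bb3 (s : (B → E) →+ G) (k : G → ℂ) (J : Set B) : ℝ :=
  gb3 k (fun h => s (sft J (⊤ : AddSubgroup E) h)) (fun h => s (sft J (⊤ : AddSubgroup E) h))
    fun h => s (sft J (⊤ : AddSubgroup E) h)

/-- the block shift as a homomorphism -/
def sprH (Φ : Lab I K) : (K → E) →+ (I → E) where
  toFun t := spr t Φ
  map_zero' := by funext i; simp only [spr]; cases Φ i <;> rfl
  map_add' t t' := by funext i; simp only [spr, Pi.add_apply]; cases Φ i <;> simp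

end

/-- tags -/
abbrev Tg : Type := Bool × Bool × Bool

/-- blocks of the sample and blocks of the probe -/
abbrev Bl (k0 : ℕ) (κ : Type) (m : ℕ) : Type := (Fin k0 × Tg) ⊕ (κ × Fin m × Tg)

/-- the chosen blocks of the probe -/
def zl {κ : Type} {m : ℕ} (Ξ : κ × Fin m × Tg → Bool) : Lab (κ × Fin m × Tg) κ :=
  fun l => if Ξ l then some l.1 else none

/-- tags cut the pools of the probe into blocks -/
def tl3 {κ : Type} {m s : ℕ} (tg : κ × Fin m × Fin s → Tg) :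
    Lab (κ × Fin m × Fin s) (κ × Fin m × Tg) := fun u => some (u.1, u.2.1, tg u)

/-- the label of the probe on `I` -/
noncomputable def plab {I κ : Type} {m s : ℕ} (ι : κ × Fin m × Fin s → I)
    (tg : κ × Fin m × Fin s → Tg) (Ξ : κ × Fin m × Tg → Bool) : Lab I κ :=
  lcomp (crd ι) (lcomp (tl3 tg) (zl Ξ))

/-- left half of a joint label -/
def lft {I K L : Type} (Φ : Lab I (K ⊕ L)) : Lab I K := fun i => (Φ i).bind Sum.getLeft?

/-- right half of a joint label -/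
def rgt {I K L : Type} (Φ : Lab I (K ⊕ L)) : Lab I L := fun i => (Φ i).bind Sum.getRight?

/-- tags cut pools `e (j, .)` into blocks -/
noncomputable def yl {I : Type} {k s : ℕ} (e : Fin k × Fin s → I) (tg : I → Tg) :
    Lab I (Fin k × Tg) := fun i => (crd e i).map fun u => (u.1, tg i)

section stmts
variable {E : Type} [AddCommGroup E]

def RSTEP (τ : QT E) : Prop :=
  ∀ (D : ℕ → ℝ) (m : ℝ), 0 < m → ∃ cG : ℝ, 0 < cG ∧ ∀ (K : Type) [Finite K] (η : ℝ), 0 < η →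
    ∃ cS : ℝ, 0 < cS ∧ ∀ (K' : Type) [Finite K'] (η' : ℝ), 0 < η' → ∃ n0 : ℕ,
      ∀ (I : Type) [Finite I], n0 ≤ Nat.card I → ∀ c : (I → E) → ℂ, CT D (fld τ c) →
        m ≤ En τ (fld τ c) →
          Drop τ (fld τ c) K η (En τ (fld τ c) - cG) ∨ Drop τ (fld τ c) K' η' (En τ (fld τ c) - cS)

/-- the step under the variance condition -/
def RSP (τ : QT E) : Prop :=
  ∀ (D : ℕ → ℝ) (m : ℝ), 0 < m → ∃ cG : ℝ, 0 < cG ∧ ∀ (K : Type) [Finite K] (η : ℝ), 0 < η →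
    ∃ cS v : ℝ, 0 < cS ∧ 0 < v ∧ ∀ (K' : Type) [Finite K'] (η' : ℝ), 0 < η' → ∃ s0 : ℕ,
      ∀ s, s0 ≤ s → ∃ n0 : ℕ, ∀ (I : Type) [Finite I], n0 ≤ Nat.card I → ∀ c : (I → E) → ℂ,
        CT D (fld τ c) → Adm τ (fld τ c) → m ≤ n2 (fld τ c) →
        vr (fld τ c) s ≤ n2 (fld τ c) ^ 2 + v →
          Gain τ (fld τ c) K η cG ∨ Gain τ (fld τ c) K' η' cS

/-- the Gaussian step -/
def GG (τ : QT E) : Prop :=
  ∀ (D : ℕ → ℝ) (m : ℝ), 0 < m → ∃ cG : ℝ, 0 < cG ∧ ∀ (K : Type) [Finite K] (η : ℝ), 0 < η →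
    ∃ ηS v : ℝ, 0 < ηS ∧ 0 < v ∧ ∀ s : ℕ, 1 ≤ s → ∃ n0 : ℕ,
      ∀ (I : Type) [Finite I], n0 ≤ Nat.card I → ∀ c : (I → E) → ℂ,
        CT D (fld τ c) → Adm τ (fld τ c) → m ≤ n2 (fld τ c) →
        vr (fld τ c) s ≤ n2 (fld τ c) ^ 2 + v → SmallB τ (fld τ c) s ηS → Gain τ (fld τ c) K η cG

/-- structured case, nondegenerate subgroup -/
def PR (τ : QT E) : Prop :=
  ∀ (D : ℕ → ℝ) (ηS : ℝ), 0 < ηS → ∃ cS : ℝ, 0 < cS ∧ ∀ (K : Type) [Finite K] (η : ℝ), 0 < η →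
    ∃ n0 : ℕ, ∀ (I : Type) [Finite I], n0 ≤ Nat.card I → ∀ c : (I → E) → ℂ, CT D (fld τ c) →
      ∀ S : AddSubgroup E, S ≠ ⊥ → S ≠ ⊤ → S ⊓ τ.perp S = ⊥ →
        ηS ≤ box (fld τ c) S (τ.perp S) → Gain τ (fld τ c) K η cS

/-- structured case, degenerate subgroup -/
def PA (τ : QT E) : Prop :=
  ∀ (D : ℕ → ℝ) (ηS : ℝ), 0 < ηS → ∃ cS : ℝ, 0 < cS ∧ ∀ (K : Type) [Finite K] (η : ℝ), 0 < η →
    ∃ n0 : ℕ, ∀ (I : Type) [Finite I], n0 ≤ Nat.card I → ∀ c : (I → E) → ℂ, CT D (fld τ c) →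
      ∀ S : AddSubgroup E, S ⊓ τ.perp S ≠ ⊥ →
        ηS ≤ box (fld τ c) S (τ.perp S) → Gain τ (fld τ c) K η cS

/-- structured case, large third box -/
def U3 (τ : QT E) : Prop :=
  ∀ (D : ℕ → ℝ) (ηS : ℝ), 0 < ηS → ∃ cS : ℝ, 0 < cS ∧ ∀ (K : Type) [Finite K] (η : ℝ), 0 < η →
    ∃ n0 : ℕ, ∀ (I : Type) [Finite I], n0 ≤ Nat.card I → ∀ c : (I → E) → ℂ, CT D (fld τ c) →
      ηS ≤ box3 (fld τ c) → Gain τ (fld τ c) K η cS

/-- the signed sum of polar forms -/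
noncomputable def sB {R : ℕ} (τ : QT E) (ε : Fin R → Bool) (x y : Fin R → E) : TT :=
  ∑ r, if ε r then -τ.be (x r) (y r) else τ.be (x r) (y r)

/-- classification of coisotropic subgroups that contain the diagonal -/
def CLP (τ : QT E) : Prop :=
  ∀ (R : ℕ) (ε : Fin R → Bool) (W : AddSubgroup (Fin R → E)),
    (∀ x, (∀ w ∈ W, sB τ ε x w = 0) → x ∈ W) → (∀ e : E, (fun _ => e) ∈ W) →
    (∃ (r : Fin R) (C : Set (Fin R)) (S : AddSubgroup E), r ∉ C ∧ S ≠ ⊥ ∧ S ≠ ⊤ ∧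
      (∀ s ∈ S, ∃ x ∈ W, x r = s ∧ ∀ j ∈ C, x j = 0) ∧
      (∀ s ∈ τ.perp S, ∃ x ∈ W, x r = s ∧ ∀ j, j ∉ C → j ≠ r → x j = 0)) ∨
    (∃ (r : Fin R) (cl : Fin R → Fin 3), ∀ (i : Fin 3) (s : E),
      ∃ x ∈ W, x r = s ∧ ∀ j, j ≠ r → cl j = i → x j = 0) ∨
    (∃ m : Fin R → Fin R, (∀ r, m (m r) = r) ∧ (∀ r, m r ≠ r) ∧
      (∀ x, x ∈ W ↔ ∀ r, x (m r) = x r) ∧ ∀ r, ε (m r) = ε r → ∀ x : E, 2 • x = 0)

/-- the exact boxes of a field do not depend on the pattern -/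
def PIND (τ : QT E) : Prop :=
  ∀ (I : Type) [Finite I] (c : (I → E) → ℂ) (P P' : Om I),
    (∀ S : AddSubgroup E, xb2 (fun b => fld τ c (b, P)) Set.univ S (τ.perp S) =
      xb2 (fun b => fld τ c (b, P')) Set.univ S (τ.perp S)) ∧
    xb3 (fun b => fld τ c (b, P)) Set.univ = xb3 (fun b => fld τ c (b, P')) Set.univ

/-- boxes with tagged blocks are controlled by exact boxes of single pools -/
def ASB (τ : QT E) : Prop :=
  ∃ N1 : ℕ, ∀ N, N1 ≤ N → ∃ C : ℝ, 0 ≤ C ∧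
    ∀ (I : Type) [Finite I] (s : ℕ) (e : Fin (N ^ 20) × Fin s → I), Function.Injective e →
      ∀ (k : (I → E) → ℂ) (J : Set (Fin (N ^ 20))), N ^ 20 ≤ 2 * J.ncard →
        (∀ S : AddSubgroup E,
          av (fun tg : I → Tg => bb2 (sprH (yl e tg)) k {l | l.1 ∈ J} S (τ.perp S)) ≤
            (1 / 2) ^ (N ^ 14 + N) * av (fun b => ‖k b‖ ^ 4) +
              C * sm fun j => xb2 k (Set.range fun i => e (j, i)) S (τ.perp S)) ∧
        av (fun tg : I → Tg => bb3 (sprH (yl e tg)) k {l | l.1 ∈ J}) ≤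
            (1 / 2) ^ (N ^ 14 + N) * av (fun b => ‖k b‖ ^ 8) +
              C * sm fun j => xb3 k (Set.range fun i => e (j, i))

/-- the energy seen through tagged blocks is controlled by the energy of single pools -/
def AVAR (E : Type) [AddCommGroup E] : Prop :=
  ∀ δ : ℝ, 0 < δ → ∃ k1 : ℕ, ∀ k0, k1 ≤ k0 →
    ∀ (I : Type) [Finite I] (s : ℕ) (e : Fin k0 × Fin s → I), Function.Injective e →
      ∀ g : (I → E) → ℂ,
        av (fun tg : I → Tg => n2 (prS (sprH (yl e tg)) g)) ≤ δ * n2 g +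
          (1 + δ) * av fun j : Fin k0 =>
            n2 (prS (sft (Set.range fun i => e (j, i)) (⊤ : AddSubgroup E)) g)

/-- the shift of party `r` on the blocks -/
def tt {k0 m : ℕ} {κ : Type} (t : κ → E) (Ξ : κ × Fin m × Tg → Bool) : Bl k0 κ m → E :=
  Sum.elim 0 (spr t (zl Ξ))

/-- fair bits on the pairs that touch the sample, the pattern `Q` on the chosen probe blocks -/
noncomputable def mix3 {k0 m : ℕ} {κ : Type} (z : Om (Bl k0 κ m)) (Q : Om κ)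
    (Ξ : κ × Fin m × Tg → Bool) : Om (Bl k0 κ m) := ow z (crd Sum.inr) (ow 0 (zl Ξ) Q)

/-- abstract moment lemma -/
def AMOM (τ : QT E) : Prop :=
  ∀ (D : ℕ → ℝ) (R : ℕ) (δ : ℝ), 0 < δ → ∃ v : ℝ, 0 < v ∧
    ∀ (κ : Type) [Finite κ] (N1 : ℕ), ∃ M N : ℕ, N1 ≤ M ∧ N1 ≤ N ∧
      ∀ (Ω G : Type) [Finite Ω] [Nonempty Ω] [AddCommGroup G] [Finite G]
        (s : Ω → (Bl (N ^ 20) κ (M ^ 20) → E) →+ G) (k : Ω → G → ℂ) (σ : ℝ),
        0 ≤ σ → σ ^ 2 ≤ D 2 → (∀ p : ℕ, av (fun ω => av fun b => ‖k ω b‖ ^ p) ≤ D p) →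
        (∀ ω, Adm τ (k ω)) →
        (∀ J : Set (Fin (N ^ 20)), N ^ 20 ≤ 2 * J.ncard →
          (∀ S : AddSubgroup E, S ≠ ⊥ → S ≠ ⊤ → av (fun ω => bb2 (s ω) (k ω)
            {l | ∃ j ∈ J, ∃ g, l = Sum.inl (j, g)} S (τ.perp S)) ≤ (1 / 2) ^ (N ^ 14)) ∧
          av (fun ω => bb3 (s ω) (k ω) {l | ∃ j ∈ J, ∃ g, l = Sum.inl (j, g)}) ≤
            (1 / 2) ^ (N ^ 14)) →
        (∀ (a : κ) (J : Set (Fin (M ^ 20))), M ^ 20 ≤ 2 * J.ncard →
          (∀ S : AddSubgroup E, S ≠ ⊥ → S ≠ ⊤ → av (fun ω => bb2 (s ω) (k ω)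
            {l | ∃ j ∈ J, ∃ g, l = Sum.inr (a, j, g)} S (τ.perp S)) ≤ (1 / 2) ^ (M ^ 14)) ∧
          av (fun ω => bb3 (s ω) (k ω) {l | ∃ j ∈ J, ∃ g, l = Sum.inr (a, j, g)}) ≤
            (1 / 2) ^ (M ^ 14)) →
        av (fun ω => av fun b => (av (fun h => ‖k ω (b + s ω h)‖ ^ 2) - σ ^ 2) ^ 2) ≤ v →
        ∀ (Q : Om κ) (R' : ℕ), R' ≤ R → ∀ (t : Fin R' → κ → E) (ε : Fin R' → Bool),
          ‖(cav fun ω => cav fun Ξ => cav fun z => cav fun b =>
              ∏ r, cj (ε r) (tk τ (s ω) (k ω) (mix3 z Q Ξ) (b + s ω (tt (t r) Ξ)))) -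
            ((σ ^ R' * pmx τ t ε : ℝ) : ℂ)‖ ≤ δ

/-- moments of a field along the joint probe -/
def MOM (τ : QT E) : Prop :=
  ∀ (D : ℕ → ℝ) (R : ℕ) (K : Type) [Finite K] (δ : ℝ) (m1 : ℕ), 0 < δ →
    ∃ (m : ℕ) (η v : ℝ), m1 ≤ m ∧ 0 < η ∧ 0 < v ∧ ∀ s : ℕ, ∃ n0 : ℕ,
      ∀ (I : Type) [Finite I], n0 ≤ Nat.card I → ∀ c : (I → E) → ℂ,
        CT D (fld τ c) → Adm τ (fld τ c) → vr (fld τ c) s ≤ n2 (fld τ c) ^ 2 + v →
        SmallB τ (fld τ c) s η →
        ∀ (P P' : Om K) (R' : ℕ), R' ≤ R → ∀ (t : Fin R' → K ⊕ K → E) (ε : Fin R' → Bool),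
          ‖(cav fun tg => cav fun Ξ => cav fun ι : (K ⊕ K) × Fin m × Fin s ↪ I =>
              cav fun x : OmE E I => ∏ r, cj (ε r) (fld τ c (x.1 + spr (t r) (plab ι tg Ξ),
                ow (ow x.2 (lft (plab ι tg Ξ)) P) (rgt (plab ι tg Ξ)) P'))) -
            ((√(n2 (fld τ c)) ^ R' * pmx τ t ε : ℝ) : ℂ)‖ ≤ δ

end stmts

end NE
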