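import Pool.Agent.Lib.MP_ecee09_co.NE.Stmts
import Pool.Agent.Lib.MP_ecee09_co.NE.CellP

/-! Definitions for part III-b: worlds, particles, statistics, tuples, lattice data. -/

namespace NE

open SD (F sm av ind cnt Tame)

/-- characters of an abelian group -/
abbrev Ch (X : Type) [AddCommGroup X] : Type := X →+ TT

instance finCh (X : Type) [AddCommGroup X] [Finite X] : Finite (Ch X) := by
  have hn : 0 < Nat.card X := Nat.card_pos
  have hf : Finite {u : TT | Nat.card X • u = 0} := (AddCircle.finite_torsion 1 hn).to_subtype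
  refine Finite.of_injective
    (fun (φ : Ch X) (x : X) => (⟨φ x, ?_⟩ : {u : TT | Nat.card X • u = 0})) ?_
  · show Nat.card X • φ x = 0
    rw [← map_nsmul, card_nsmul_eq_zero', map_zero]
  · intro φ ψ h
    ext x
    exact congrArg Subtype.val (congrFun h x)

instance finBi (X : Type) [AddCommGroup X] [Finite X] : Finite (X →+ Ch X) := DFunLike.finite _

/-- part patterns: `none` is a free pair -/
abbrev PP (I : Type) : Type := Sym2 I → Option F

section worlds
variable {I K U : Type}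

/-- overwrite `A` by a part pattern -/
def ovr (A : Om I) (σ : PP I) : Om I := fun c => (σ c).getD (A c)

/-- blow-up of a part pattern along a label -/
def bl (Φ : Lab I K) (Q : PP K) : PP I := fun c => (lab2 Φ c).bind Q

/-- a pattern as a part pattern -/
def ful (P : Om K) : PP K := fun c => some (P c)

/-- pull a part pattern back -/
def pbP (j : K → I) (π : PP I) : PP K := fun c => π (Sym2.map j c)

/-- two part patterns side by side, cross pairs free -/
def sumP (π : PP I) (π' : PP K) : PP (I ⊕ K) :=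
  Sym2.lift ⟨fun i j => match i, j with
    | .inl i, .inl j => π s(i, j)
    | .inr i, .inr j => π' s(i, j)
    | .inl _, .inr _ => none
    | .inr _, .inl _ => none, by
    rintro (i | i) (j | j) <;> simp [Sym2.eq_swap]⟩

/-- the density of the overwritten pattern -/
noncomputable def dens (σ : PP I) (A : Om I) : ℝ :=
  2 ^ {c | σ c ≠ none}.ncard * ind (ovr A σ = A)

/-- the density of the block-constant patterns -/
noncomputable def plant (Φ : Lab I K) (A : Om I) : ℝ :=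
  av fun P : Om K => dens (bl Φ (ful P)) A

/-- expectation in the world with template `U` and planted pattern `π` -/
noncomputable def EW (π : PP U) (f : (U ↪ I) → Om I → ℝ) : ℝ :=
  av fun ι : U ↪ I => av fun A : Om I => f ι (ovr A (bl (crd ι) π))

/-- the label given by tags on pools -/
def tg {S : Type} (g : K × S → Bool) : Lab (K × S) K := fun u => if g u then some u.1 else none

/-- probes: pools of size `s` with tags -/
abbrev Pr (K : Type) (s : ℕ) (I : Type) : Type := (K × Fin s ↪ I) × (K × Fin s → Bool)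

noncomputable def prl {s : ℕ} (o : Pr K s I) : Lab I K := lcomp (crd o.1) (tg o.2)

/-- planted expectation over probes -/
noncomputable def EP {E : Type} (s : ℕ) (Q : PP K) (f : Lab I K → OmE E I → ℝ) : ℝ :=
  av fun o : Pr K s I => av fun x : OmE E I => f (prl o) (x.1, ovr x.2 (bl (prl o) Q))

/-- the label of the tagged pools of a joint embedding -/
noncomputable def jlab {s : ℕ} {S : Type} (ι : (K × Fin s) ⊕ S ↪ I) (g : K × Fin s → Bool) :
    Lab I K := lcomp (crd fun u => ι (.inl u)) (tg g)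

/-- planted expectation with one more set of indices off the pools -/
noncomputable def EPS {E : Type} (s : ℕ) (S : Type) (Q : PP K)
    (f : Lab I K → (S → I) → OmE E I → ℝ) : ℝ :=
  av fun ι : (K × Fin s) ⊕ S ↪ I => av fun g : K × Fin s → Bool => av fun x : OmE E I =>
    f (jlab ι g) (fun u => ι (.inr u)) (x.1, ovr x.2 (bl (jlab ι g) Q))

/-- the coarse world: the pattern is planted on the whole pools -/
noncomputable def EPM {E : Type} (s : ℕ) (S : Type) (Q : PP K)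
    (f : ((K × Fin s) ⊕ S ↪ I) → (K × Fin s → Bool) → OmE E I → ℝ) : ℝ :=
  av fun ι : (K × Fin s) ⊕ S ↪ I => av fun g : K × Fin s → Bool => av fun x : OmE E I =>
    f ι g (x.1, ovr x.2 (bl (jlab ι fun _ => true) Q))

/-- indices with a given loop -/
abbrev Lp (A : Om I) (e : F) : Type := {i : I // A s(i, i) = e}

/-- mean over the indices with the planted loop (all indices if the loop is free) -/
noncomputable def lav (A : Om I) (e : Option F) (g : I → ℂ) : ℂ :=
  e.elim (cav g) fun e => cav fun i : Lp A e => g i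

/-- quasirandomness: planting is invisible to products and to functions of the other indices -/
structure QR (u : ℕ) (γ : ℝ) (A : Om I) : Prop where
  bal : ∀ e : F, Nat.card I ≤ 4 * Nat.card (Lp A e)
  prd : ∀ (U : Type) [Finite U], Nat.card U ≤ u → ∀ (π : PP U) (g : U → I → ℂ),
    (∀ a i, ‖g a i‖ ≤ 1) →
    ‖(cav fun ι : U ↪ I => (dens (bl (crd ι) π) A : ℂ) * ∏ᶠ a, g a (ι a)) -
      ∏ᶠ a, lav A (π s(a, a)) (g a)‖ ≤ γ
  uni : ∀ (U : Type) [Finite U], Nat.card U ≤ u → ∀ (R : Set U) (π π' : PP U),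
    (∀ a ∈ R, ∀ b ∈ R, π s(a, b) = π' s(a, b)) → ∀ f : (U ↪ I) → ℝ, (∀ ι, |f ι| ≤ 1) →
    (∀ ι ι' : U ↪ I, (∀ a ∈ R, ι a = ι' a) → f ι = f ι') →
    |(av fun ι : U ↪ I => dens (bl (crd ι) π) A * f ι) -
      av fun ι : U ↪ I => dens (bl (crd ι) π') A * f ι| ≤ γ

end worlds

/-- particles `(v, xi)` -/
abbrev Pt (Γ I : Type) : Type := (I → Γ) × (I → Γ)

/-- `|Γ|^|I|` -/
noncomputable def DD (Γ I : Type) : ℝ := (Nat.card Γ : ℝ) ^ Nat.card I

/-- indicator function of a set -/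
noncomputable def si {α : Type} (P : Set α) : α → ℝ := fun p => ind (p ∈ P)

section particles
variable {Γ I K M : Type} [AddCommGroup Γ]

/-- the residue of a particle -/
noncomputable def rs (ε : Γ) (p : Pt Γ I) (x : OmE Γ I) : I → Γ :=
  fun i => x.1 i + adj x.2 p.1 i + (x.2 s(i, i)).val • ε + p.2 i

/-- weighted number of present particles -/
noncomputable def NN (ε : Γ) (m : Pt Γ I → ℝ) (x : OmE Γ I) : ℝ :=
  sm fun p => m p * ind (rs ε p x = 0)

noncomputable def lam (m : Pt Γ I → ℝ) : ℝ := sm m / DD Γ I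

/-- `q` is the sub-particle of the candidate `p` -/
def Sub (ε : Γ) (p : Pt Γ I) (x : OmE Γ I) (Φ : Lab I K) (q : Pt Γ K) : Prop :=
  q.1 = wl p.1 Φ ∧ rs ε p (cell x Φ 0) = spr q.2 Φ

/-- multiplicities of the sub-particles -/
noncomputable def mm (ε : Γ) (m : Pt Γ I → ℝ) (x : OmE Γ I) (Φ : Lab I K) : Pt Γ K → ℝ :=
  fun q => sm fun p => m p * ind (Sub ε p x Φ q)

/-- the set of the generating sub-particles -/
def subP (ε : Γ) (P : Set (Pt Γ I)) (x : OmE Γ I) (Φ : Lab I K) : Set (Pt Γ K) :=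
  {q | Gen q.1 ∧ ∃ p ∈ P, Sub ε p x Φ q}

/-- probability, over the cell, that an unreduced particle is present -/
noncomputable def bad (ε : Γ) (P : Set (Pt Γ I)) (x : OmE Γ I) (Φ : Lab I K) : ℝ :=
  av fun y : OmE Γ K => ind (∃ p ∈ P, rs ε p (cell x Φ y) = 0 ∧ Gen (wl p.1 Φ))

def Solve (ε : Γ) (P : Set (Pt Γ I)) (K : Type) (η : ℝ) : Prop :=
  ∃ A : GFam Γ I K, A.junk ≤ η ∧ (A.E fun x Φ => bad ε P x Φ) ≤ η

def PDrop (ε : Γ) (P : Set (Pt Γ I)) (K : Type) (η c : ℝ) : Prop :=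
  ∃ A : GFam Γ I K, A.junk ≤ η ∧
    (A.E fun x Φ => ind (Good Φ) * lam (si (subP ε P x Φ))) ≤ lam (si P) - c

noncomputable def coll (m : Pt Γ I → ℝ) (G : AddSubgroup Γ) : ℝ :=
  (sm fun p => sm fun p' => m p * m p' * ind (∀ i, p.1 i - p'.1 i ∈ G ∧ p.2 i - p'.2 i ∈ G)) /
    (DD G I * DD Γ I)

noncomputable def co (m : Pt Γ I → ℝ) (G : AddSubgroup Γ) : ℝ :=
  (sm fun p => sm fun p' => m p * m p' * ind (p.1 = p'.1 ∧ ∀ i, p.2 i - p'.2 i ∈ G)) /
    (DD G I * DD Γ I)

noncomputable def att (m : Pt Γ I → ℝ) (G : AddSubgroup Γ) : ℝ :=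
  (sm fun p => sm fun p' => m p * m p' * ind (∀ i, p.1 i - p'.1 i ∈ G)) / DD Γ I ^ 2

noncomputable def en (m : Pt Γ I → ℝ) : ℝ :=
  (sm fun a => sm fun b => sm fun c => m a * m b * m c * m (a + b - c)) / DD Γ I ^ 3

/-- mean of a statistic of the multiplicities over coordinate cells of size `s` -/
noncomputable def cst (ε : Γ) (P : Set (Pt Γ I)) (s : ℕ) (T : (Pt Γ (Fin s) → ℝ) → ℝ) : ℝ :=
  av fun ι : Fin s ↪ I => av fun x : OmE Γ I => T (mm ε (si P) x (crd ι))

/-- probability of a merge on a coordinate cell -/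
noncomputable def mg (ε : Γ) (P : Set (Pt Γ I)) (s : ℕ) : ℝ :=
  av fun ι : Fin s ↪ I => av fun x : OmE Γ I => ind (∃ p ∈ P, ∃ p' ∈ P, p ≠ p' ∧
    rs ε p x = 0 ∧ rs ε p' x = 0 ∧ ∀ a, p.1 (ι a) = p'.1 (ι a))

/-- the hypothesis of the pure case, as the step gives it -/
structure PuU (ε : Γ) (P : Set (Pt Γ I)) (s1 : ℕ) (η : ℝ) : Prop where
  gc : ∀ G : AddSubgroup Γ, G ≠ ⊥ → G ≠ ⊤ → coll (si P) G ≤ η
  ge : en (si P) ≤ η
  cc : ∀ s, s1 ≤ s → s ≤ Nat.card I → ∀ G : AddSubgroup Γ, G ≠ ⊥ → G ≠ ⊤ →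
    cst ε P s (fun m => coll m G) ≤ η
  ce : ∀ s, s1 ≤ s → s ≤ Nat.card I → cst ε P s en ≤ η
  cm : ∀ s, s1 ≤ s → s ≤ Nat.card I → mg ε P s ≤ η

/-- the same with tameness and the derived statistics -/
structure PuH (ε : Γ) (P : Set (Pt Γ I)) (D : ℕ → ℝ) (s1 : ℕ) (η : ℝ) : Prop
    extends PuU ε P s1 η where
  tm : Tame D (NN ε (si P))
  ch : ∀ s, s1 ≤ s → s ≤ Nat.card I → ∀ G : AddSubgroup Γ, G ≠ ⊥ →
    cst ε P s (fun m => co m G) ≤ η
  ca : ∀ s, s1 ≤ s → s ≤ Nat.card I → ∀ G : AddSubgroup Γ, G ≠ ⊤ →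
    (av fun ι : Fin s ↪ I => (sm fun p => sm fun p' =>
      si P p * si P p' * ind (∀ a, p.1 (ι a) - p'.1 (ι a) ∈ G)) / DD Γ I ^ 2) ≤ η

/-- the row of labels of a tuple -/
def row (p : M → Pt Γ I) (i : I) : M → Γ := fun r => (p r).1 i

/-- the diagonal subgroup -/
def Dg (M Γ : Type) [AddCommGroup Γ] : AddSubgroup (M → Γ) :=
  AddSubgroup.closure (Set.range fun (γ : Γ) (_ : M) => γ)

/-- the group generated by the diagonal and the rows `x` -/
def Wg {S : Type} (x : S → M → Γ) : AddSubgroup (M → Γ) :=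
  Dg M Γ ⊔ AddSubgroup.closure (Set.range x)

/-- a share `γ` of the rows misses every subgroup over the diagonal that does not contain `W` -/
def Rob {S : Type} (γ : ℝ) (W : AddSubgroup (M → Γ)) (x : S → M → Γ) : Prop :=
  ∀ W' : AddSubgroup (M → Γ), Dg M Γ ≤ W' → ¬ W ≤ W' → γ * Nat.card S ≤ cnt {i | x i ∉ W'}

/-- every coordinate maps onto the quotient by `W` -/
def Onto (W : AddSubgroup (M → Γ)) : Prop :=
  ∀ (r : M) (z : M → Γ), ∃ w ∈ W, ∀ r', r' ≠ r → w r' = z r'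

/-- the tuple lies in `P` and has the residues `t Phi` -/
def Mat (ε : Γ) (P : Set (Pt Γ I)) (t : M → K → Γ) (Φ : Lab I K) (x : OmE Γ I)
    (p : M → Pt Γ I) : Prop :=
  ∀ r, p r ∈ P ∧ rs ε (p r) x = spr (t r) Φ

/-- normalized weighted count -/
noncomputable def nu (P : Set (Pt Γ I)) (a : (K → Γ) → ℝ) (Φ : Lab I K) : ℝ :=
  (sm fun p => si P p * a (wl p.1 Φ)) / DD Γ I

/-- the candidates with labels in `LL` -/
def cand (ε : Γ) (P : Set (Pt Γ I)) (LL : Set (K → Γ)) (Φ : Lab I K) (x : OmE Γ I) :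
    Set (Pt Γ I × (K → Γ)) :=
  {c | c.1 ∈ P ∧ c.2 ∈ LL ∧ rs ε c.1 x = spr c.2 Φ}

/-- the truncated product over the candidates -/
noncomputable def puPi (ε : Γ) (P : Set (Pt Γ I)) (LL : Set (K → Γ))
    (f : (K → Γ) → (K → Γ) → ℝ) (L : ℕ) (Φ : Lab I K) (x : OmE Γ I) : ℝ :=
  ind (Good Φ) * ind ((cand ε P LL Φ x).ncard ≤ L) *
    ∏ᶠ z ∈ cand ε P LL Φ x, (1 + f z.2 (wl z.1.1 Φ))

/-- `T_A h = A v + xi` -/
noncomputable def TM (A : Om I) (h : Pt Γ I) : I → Γ := adj A h.1 + h.2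

def Frz (H : AddSubgroup (Pt Γ I)) (A : Om I) (Φ : Lab I K) : Prop :=
  ∀ h ∈ H, (∃ t, TM (ow A Φ 0) h = spr t Φ) → wl h.1 Φ = 0

def High (H : AddSubgroup (Pt Γ I)) (R : ℕ) (A : Om I) (Φ : Lab I K) : Prop :=
  ∀ P : Om K, cnt (TM (ow A Φ P) '' (H : Set (Pt Γ I))) * R ≤ DD Γ I

end particles

/-- lattice data: an index, a subgroup and a biadditive map for each pattern -/
structure LD (I EE : Type) [AddCommGroup EE] where
  kap : Om I → ℕ
  V : Om I → AddSubgroup (I → ℤ)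
  B : Om I → (I → ℤ) →+ (I → ℤ) →+ EE

section lattice
variable {I K EE : Type} [AddCommGroup EE]

open Classical in
/-- the indicator vector of a block -/
noncomputable def yv (Φ : Lab I K) (a : K) : I → ℤ := fun i => if Φ i = some a then 1 else 0

open Classical in
/-- the sum of the unit vectors at `κ t` -/
noncomputable def smp {T : Type} (κ : T → I) : I → ℤ := fun i => ∑ᶠ t, if κ t = i then 1 else 0

def LD.Fp (L : LD I EE) (A : Om I) (Φ : Lab I K) : Prop :=
  (∀ a, yv Φ a ∈ L.V A) ∧ ∀ a b, L.B A (yv Φ a) (yv Φ b) = 0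

structure LD.Ok (L : LD I EE) (J : ℕ) (Cf : ℕ → ℕ) : Prop where
  jv : ∀ (A : Om I) (u : I → ℤ), J • u ∈ L.V A
  idx : ∀ (A : Om I) (r : ℕ), L.kap A ≤ r → (L.V A).index ≤ Cf r
  kp : ∀ (K : Type) [Finite K] (Φ : Lab I K) (A : Om I) (P P' : Om K),
    L.kap (ow A Φ P') ≤ J ^ Nat.card K * L.kap (ow A Φ P)
  inv : ∀ (K : Type) [Finite K] (Φ : Lab I K) (A : Om I) (P P' : Om K), L.Fp (ow A Φ P) Φ →
    L.kap (ow A Φ P') = L.kap (ow A Φ P) ∧ L.V (ow A Φ P') = L.V (ow A Φ P) ∧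
    ∀ u ∈ L.V (ow A Φ P), (∀ a, L.B (ow A Φ P) (yv Φ a) u = 0) → ∀ w ∈ L.V (ow A Φ P),
      L.B (ow A Φ P') u w = L.B (ow A Φ P) u w ∧ L.B (ow A Φ P') w u = L.B (ow A Φ P) w u

/-- difference of two samples of size `t` from the indices with loop `e` -/
noncomputable def df {A : Om I} {e : F} {t : ℕ} (κ : (Fin t → Lp A e) × (Fin t → Lp A e)) :
    I → ℤ := (smp fun a => (κ.1 a : I)) - smp fun a => (κ.2 a : I)

noncomputable def LD.bet (L : LD I EE) (A : Om I) (l : Ch EE) (e : F) (t : ℕ) (y : I → ℤ) : ℝ :=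
  av fun κ : (Fin t → Lp A e) × (Fin t → Lp A e) =>
    ind (df κ ∈ L.V A) * (ee (l (L.B A y (df κ)))).re

noncomputable def LD.bb (L : LD I EE) (A : Om I) (l : Ch EE) (e e' : F) (t t' : ℕ) : ℝ :=
  av fun κ : (Fin t → Lp A e) × (Fin t → Lp A e) => ind (df κ ∈ L.V A) * L.bet A l e' t' (df κ)

/-- one minus the squared modulus of the mean of a character over the indices with loop `e` -/
noncomputable def dch (A : Om I) (e : F) (χ : (I → ℤ) →+ TT) : ℝ :=
  1 - ‖cav fun i : Lp A e => ee (χ (smp fun _ : Unit => (i : I)))‖ ^ 2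

/-- some character that agrees with `φ` on `V` is nearly constant -/
def LD.Nul (L : LD I EE) (A : Om I) (e : F) (φ : (I → ℤ) →+ TT) (θ : ℝ) : Prop :=
  ∃ χ : (I → ℤ) →+ TT, (∀ u ∈ L.V A, χ u = φ u) ∧ dch A e χ ≤ θ

/-- probes: `r` atoms of size `J t` for each block, and a choice of atoms -/
abbrev LO (K : Type) (r J t : ℕ) (I : Type) : Type :=
  (K × Fin r × Fin J × Fin t ↪ I) × (K × Fin r → Bool)

noncomputable def llab {r J t : ℕ} (o : LO K r J t I) : Lab I K :=
  lcomp (crd o.1) (tg fun u => o.2 (u.1, u.2.1))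

open Classical in
/-- the weight of a probe -/
noncomputable def LD.gw (L : LD I EE) (A : Om I) (Λ : F → Set (Ch EE)) (t2 : ℕ) (Φ : Lab I K) :
    ℝ :=
  ind (Good Φ ∧ L.Fp A Φ) *
    ∏ᶠ z : K × F × Ch EE, if z.2.2 ∈ Λ z.2.1 then L.bet A z.2.2 z.2.1 t2 (yv Φ z.1) else 1

/-- the planted mean of the weight -/
noncomputable def LD.NP (L : LD I EE) (r J t : ℕ) (A : Om I) (Λ : F → Set (Ch EE)) (t2 : ℕ)
    (P : Om K) : ℝ :=
  av fun o : LO K r J t I => dens (bl (llab o) (ful P)) A * L.gw A Λ t2 (llab o)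

/-- the same with a phase against the blocks of `Φ` -/
noncomputable def LD.trm (L : LD I EE) (r J t : ℕ) (A : Om I) (φ : Lab I K → ℝ) (P : Om K)
    (Φ : Lab I K) (l : K → K → Ch EE) : ℂ :=
  cav fun o : LO K r J t I => (dens (bl (llab o) (ful P)) A * φ (llab o) : ℝ) *
    ee (∑ᶠ z : K × K, l z.1 z.2 (L.B A (yv Φ z.1) (yv (llab o) z.2)))

/-- the same restricted to probes orthogonal to the blocks of `Φ` -/
noncomputable def LD.JP (L : LD I EE) (r J t : ℕ) (A : Om I) (Λ : F → Set (Ch EE)) (t2 : ℕ)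
    (P : Om K) (Φ : Lab I K) : ℝ :=
  av fun o : LO K r J t I => dens (bl (llab o) (ful P)) A * L.gw A Λ t2 (llab o) *
    ind (∀ a b, L.B A (yv Φ a) (yv (llab o) b) = 0)

end lattice

end NE
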