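import Pool.Agent.Lib.MP_ecee09_co.NE.CBase
import Pool.Agent.Lib.MP_ecee09_co.NE.FamB
import Pool.Agent.Lib.MP_ecee09_co.NE.Fld

/-! Tame extraction, analytic tools: conditioning, polynomials in an operator, moments. -/

namespace NE

open SD
open ComplexConjugate Polynomial
open scoped Nat

/-- a positive linear functional -/
structure PosF {Z : Type} (EE : (Z → ℝ) → ℝ) : Prop where
  add : ∀ f g, EE (fun z => f z + g z) = EE f + EE g
  smul : ∀ (c : ℝ) f, EE (fun z => c * f z) = c * EE f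
  pos : ∀ f, (∀ z, 0 ≤ f z) → 0 ≤ EE f

lemma Fam.posF {X C Λ : Type} {a : X → Λ → C → X} (A : Fam a) (Y : Type) [Finite Y] :
    PosF fun f : X × Λ × Y → ℝ => A.E fun x l => SD.av fun y => f (x, l, y) :=
  ⟨fun f g => by simp only [av_add, A.add], fun c f => by simp only [av_mul_left, A.smul],
    fun f h => A.pos _ fun _ _ => av_nonneg fun _ => h _⟩

namespace PosF
variable {Z : Type} {EE : (Z → ℝ) → ℝ} (h : PosF EE)
include h

lemma zero : EE (fun _ => 0) = 0 := by simpa using h.smul 0 fun _ => 0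

lemma mono {f g : Z → ℝ} (hfg : ∀ z, f z ≤ g z) : EE f ≤ EE g := by
  have h1 := h.add f fun z => g z - f z
  have h2 := h.pos (fun z => g z - f z) fun z => sub_nonneg.2 (hfg z)
  simp only [add_sub_cancel] at h1
  change EE g = _ at h1
  linarith

lemma sum {ι : Type} (s : Finset ι) (f : ι → Z → ℝ) :
    EE (fun z => ∑ i ∈ s, f i z) = ∑ i ∈ s, EE (f i) := by
  classical
  induction s using Finset.induction_on with
  | empty => simpa using h.zero
  | insert a s ha ih => simp only [Finset.sum_insert ha, h.add, ih]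

lemma const_le (h1 : EE (fun _ => 1) ≤ 1) {c : ℝ} (hc : 0 ≤ c) : EE (fun _ => c) ≤ c := by
  have := h.smul c fun _ => 1
  simp only [mul_one] at this
  rw [this]
  exact mul_le_of_le_one_right hc h1

/-- conditioning on the value of `π` does not increase convex functionals -/
lemma cond [Finite Z] {W V : Type} [AddCommGroup V] [Module ℝ V] (π : Z → W) (c : Z → V) :
    ∃ c' : W → V, ∀ Fn : W → V → ℝ, (∀ w, ConvexOn ℝ Set.univ (Fn w)) →
      EE (fun z => Fn (π z) (c' (π z))) ≤ EE fun z => Fn (π z) (c z) := by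
  classical
  let _ := Fintype.ofFinite Z
  let m : Z → ℝ := fun z => EE fun z' => if z' = z then 1 else 0
  have m0 : ∀ z, 0 ≤ m z := fun z => h.pos _ fun z' => by split_ifs <;> norm_num
  have rep : ∀ f : Z → ℝ, EE f = ∑ z, m z * f z := fun f => by
    have e : f = fun z' => ∑ z, f z * if z' = z then 1 else 0 := by
      funext z'; simp
    conv_lhs => rw [e]
    rw [h.sum]
    exact Finset.sum_congr rfl fun z _ => by rw [h.smul, mul_comm]
  refine ⟨fun w => (Finset.univ.filter fun z => π z = w).centerMass m c, fun Fn hF => ?_⟩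
  rw [rep, rep, ← Finset.sum_fiberwise_of_maps_to (t := Finset.univ.image π) (g := π)
    (fun z _ => Finset.mem_image_of_mem π (Finset.mem_univ z)),
    ← Finset.sum_fiberwise_of_maps_to (t := Finset.univ.image π) (g := π)
    (fun z _ => Finset.mem_image_of_mem π (Finset.mem_univ z))]
  refine Finset.sum_le_sum fun w _ => ?_
  set s := Finset.univ.filter fun z => π z = w with hs
  have e1 : ∀ z ∈ s, π z = w := fun z hz => (Finset.mem_filter.1 hz).2
  rw [Finset.sum_congr rfl fun z hz => by rw [e1 z hz],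
    Finset.sum_congr (s₂ := s) (f := fun z => m z * Fn (π z) (c z)) rfl
      fun z hz => by rw [e1 z hz], ← Finset.sum_mul]
  rcases (Finset.sum_nonneg fun z (_ : z ∈ s) => m0 z).eq_or_lt with e | e
  · have : ∀ z ∈ s, m z = 0 := (Finset.sum_eq_zero_iff_of_nonneg fun z _ => m0 z).1 e.symm
    rw [← e, zero_mul, Finset.sum_eq_zero fun z hz => by rw [this z hz, zero_mul]]
  · have := (hF w).map_centerMass_le (t := s) (w := m) (p := c) (fun z _ => m0 z) e
      fun _ _ => Set.mem_univ _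
    conv at this => rhs; rw [Finset.centerMass, smul_eq_mul]
    exact (le_inv_mul_iff₀ e).1 this

end PosF

section cond
variable {X C Λ Y W : Type} [Finite X] [Finite Λ] [Finite Y] {a : X → Λ → C → X}

/-- conditioning on the value of `π` does not increase convex functionals -/
lemma Fam.cond {V : Type} [AddCommGroup V] [Module ℝ V] (A : Fam a) (π : X → Λ → Y → W)
    (c : X → Λ → Y → V) : ∃ c' : W → V, ∀ Fn : W → V → ℝ, (∀ w, ConvexOn ℝ Set.univ (Fn w)) →
      (A.E fun x l => SD.av fun y => Fn (π x l y) (c' (π x l y))) ≤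
        A.E fun x l => SD.av fun y => Fn (π x l y) (c x l y) :=
  (A.posF Y).cond (fun z => π z.1 z.2.1 z.2.2) fun z => c z.1 z.2.1 z.2.2

variable {E K : Type} [AddCommGroup E] [Finite E] [Finite K] (τ : QT E)

lemma fld_comb (c c' : (K → E) → ℂ) (s t : ℝ) (z : OmE E K) :
    fld τ (s • c + t • c') z = s * fld τ c z + t * fld τ c' z := by
  rw [← fld_mul_left, ← fld_mul_left, ← fld_add]
  rfl

lemma convex_fld_pow (p : ℕ) :
    ConvexOn ℝ Set.univ fun c : (K → E) → ℂ => SD.av fun z => ‖fld τ c z‖ ^ p := by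
  refine ⟨convex_univ, fun c _ c' _ s t hs ht hst => ?_⟩
  simp only [smul_eq_mul, ← av_mul_left, ← av_add]
  refine av_mono fun z => le_trans (pow_le_pow_left₀ (norm_nonneg _) ?_ p)
    ((convexOn_pow p).2 (norm_nonneg (fld τ c z)) (norm_nonneg (fld τ c' z)) hs ht hst)
  rw [fld_comb]
  refine (norm_add_le _ _).trans (le_of_eq ?_)
  simp only [norm_mul, Complex.norm_real, Real.norm_of_nonneg hs, Real.norm_of_nonneg ht,
    smul_eq_mul]

lemma convex_neg_ip (u : OmE E K → ℂ) :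
    ConvexOn ℝ Set.univ fun c : (K → E) → ℂ => -(ip u (fld τ c)).re := by
  refine ⟨convex_univ, fun c _ c' _ s t _ _ _ => le_of_eq ?_⟩
  have e : fld τ (s • c + t • c') = fun z => s * fld τ c z + t * fld τ c' z :=
    funext (fld_comb τ c c' s t)
  simp only [e, ip_add_right, ip_mul_right, Complex.conj_ofReal, Complex.add_re,
    Complex.re_ofReal_mul, smul_eq_mul]
  ring

lemma Fam.cond_fld (A : Fam a)
    (π : X → Λ → Y → W) (c : X → Λ → Y → (K → E) → ℂ) (u : W → OmE E K → ℂ) :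
    ∃ c' : W → (K → E) → ℂ,
      (∀ p : ℕ, (A.E fun x l => SD.av fun y => SD.av fun z => ‖fld τ (c' (π x l y)) z‖ ^ p) ≤
        A.E fun x l => SD.av fun y => SD.av fun z => ‖fld τ (c x l y) z‖ ^ p) ∧
      (A.E fun x l => SD.av fun y => (ip (u (π x l y)) (fld τ (c x l y))).re) ≤
        A.E fun x l => SD.av fun y => (ip (u (π x l y)) (fld τ (c' (π x l y)))).re := by
  obtain ⟨c', h⟩ := A.cond π c
  refine ⟨c', fun p => h (fun _ c => SD.av fun z => ‖fld τ c z‖ ^ p) fun _ => convex_fld_pow τ p, ?_⟩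
  have := h (fun w c => -(ip (u w) (fld τ c)).re) fun w => convex_neg_ip τ (u w)
  simpa only [av_neg, A.neg, neg_le_neg_iff] using this

end cond

/-- an approximate eigenvector of `Z` is one of `p (Z)` -/
lemma poly (p : ℂ[X]) (b : ℝ) : ∃ C : ℝ, 0 ≤ C ∧ ∀ (Y : Type) [Finite Y]
    (Z : Module.End ℂ (Y → ℂ)), (∀ g, n2 (Z g) ≤ b * n2 g) → ∀ lam : ℂ, ‖lam‖ ≤ 1 → ∀ g,
      n2 (aeval Z p g - p.eval lam • g) ≤ C * n2 (Z g - lam • g) := by
  induction p using Polynomial.induction_on' with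
  | add p q hp hq =>
    obtain ⟨C, hC, h⟩ := hp
    obtain ⟨C', hC', h'⟩ := hq
    refine ⟨2 * C + 2 * C', by positivity, fun Y _ Z hZ lam hl g => ?_⟩
    have e : aeval Z (p + q) g - (p + q).eval lam • g =
        fun y => (aeval Z p g - p.eval lam • g) y + (aeval Z q g - q.eval lam • g) y := by
      funext y
      simp only [map_add, eval_add, LinearMap.add_apply, Pi.sub_apply, Pi.add_apply, add_smul]
      ring
    rw [e]
    have := n2_add_le (aeval Z p g - p.eval lam • g) (aeval Z q g - q.eval lam • g)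
    have := h Y Z hZ lam hl g
    have := h' Y Z hZ lam hl g
    linarith
  | monomial n a =>
    induction n with
    | zero =>
      refine ⟨0, le_rfl, fun Y _ Z _ lam _ g => ?_⟩
      have e : aeval Z (monomial 0 a) g - (monomial 0 a).eval lam • g = fun _ => 0 := by
        funext y; simp [Module.algebraMap_end_apply]
      rw [e, n2_zero, zero_mul]
    | succ n ih =>
      obtain ⟨C, hC, h⟩ := ih
      refine ⟨2 * (|b| * C) + 2 * ‖a‖ ^ 2, by positivity, fun Y _ Z hZ lam hl g => ?_⟩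
      have e : aeval Z (monomial (n + 1) a) g - (monomial (n + 1) a).eval lam • g =
          fun y => Z (aeval Z (monomial n a) g - (monomial n a).eval lam • g) y +
            (a * lam ^ n) * (Z g - lam • g) y := by
        rw [← X_mul_monomial, map_mul, aeval_X, Module.End.mul_apply, map_sub, map_smul]
        funext y
        simp only [eval_mul, eval_X, eval_monomial, Pi.sub_apply, Pi.smul_apply, smul_eq_mul]
        ring
      rw [e]
      have h1 := n2_add_le (Z (aeval Z (monomial n a) g - (monomial n a).eval lam • g))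
        fun y => (a * lam ^ n) * (Z g - lam • g) y
      have h2 := (hZ (aeval Z (monomial n a) g - (monomial n a).eval lam • g)).trans
        ((mul_le_mul_of_nonneg_right (le_abs_self b) (n2_nonneg _)).trans
          (mul_le_mul_of_nonneg_left (h Y Z hZ lam hl g) (abs_nonneg b)))
      have h3 : n2 (fun y => (a * lam ^ n) * (Z g - lam • g) y) ≤ ‖a‖ ^ 2 * n2 (Z g - lam • g) := by
        rw [n2_mul_left]
        refine mul_le_mul_of_nonneg_right (pow_le_pow_left₀ (norm_nonneg _) ?_ 2) (n2_nonneg _)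
        rw [norm_mul, norm_pow]
        exact mul_le_of_le_one_right (norm_nonneg _) (pow_le_one₀ (norm_nonneg _) hl)
      nlinarith

lemma poly_n2 (p : ℂ[X]) (β : ℝ) : ∃ C : ℝ, 0 ≤ C ∧ ∀ (α : Type) [Finite α]
    (Z : Module.End ℂ (α → ℂ)), (∀ g, n2 (Z g) ≤ β * n2 g) → ∀ lam : ℂ, ‖lam‖ ≤ 1 → ∀ g,
      n2 (fun x => aeval Z p g x - p.eval lam * g x) ≤ C * n2 fun x => Z g x - lam * g x :=
  poly p β

/-- polynomials that are one at one and small at zero and at the inverses of integers -/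
noncomputable def gp : ℕ → ℂ[X]
  | 0 => 1
  | j + 1 => C (((j : ℂ) + 2) / (j + 1)) * (X * (X - C (1 / ((j : ℂ) + 2)))) * gp j

/-- zero or the inverse of an integer at least two -/
def Eig (lam : ℂ) : Prop := lam = 0 ∨ ∃ m : ℕ, 2 ≤ m ∧ lam = 1 / (m : ℂ)

lemma Eig.norm_le {lam : ℂ} (h : Eig lam) : ‖lam‖ ≤ 1 := by
  rcases h with rfl | ⟨m, hm, rfl⟩
  · simp
  · have : (2 : ℝ) ≤ m := by exact_mod_cast hm
    simpa using inv_le_one_of_one_le₀ (by linarith)

lemma gp_succ_eval (j : ℕ) (x : ℂ) : (gp (j + 1)).eval x =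
    ((j : ℂ) + 2) / (j + 1) * (x * (x - 1 / ((j : ℂ) + 2))) * (gp j).eval x := by
  simp only [gp, eval_mul, eval_C, eval_X, eval_sub]

lemma gp_one (j : ℕ) : (gp j).eval 1 = 1 := by
  induction j with
  | zero => simp [gp]
  | succ j ih =>
    have h1 : (j : ℂ) + 1 ≠ 0 := by exact_mod_cast Nat.succ_ne_zero j
    have h2 : (j : ℂ) + 2 ≠ 0 := by exact_mod_cast Nat.succ_ne_zero (j + 1)
    rw [gp_succ_eval, ih]
    field_simp
    ring

lemma gp_inv_zero (j : ℕ) {m : ℕ} (hm : 2 ≤ m) (hj : m ≤ j + 1) : (gp j).eval (1 / (m : ℂ)) = 0 := by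
  induction j with
  | zero => omega
  | succ j ih =>
    rw [gp_succ_eval]
    rcases hj.eq_or_lt with e | e
    · simp [e, add_assoc, one_add_one_eq_two]
    · rw [ih (by omega), mul_zero]

lemma gp_inv (j : ℕ) {m : ℕ} (hm : j + 2 ≤ m) : ‖(gp j).eval (1 / (m : ℂ))‖ ≤ (1 / (m : ℝ)) ^ j := by
  induction j with
  | zero => simp [gp]
  | succ j ih =>
    have h3 : (j : ℝ) + 3 ≤ m := by exact_mod_cast hm
    have hj0 : (0 : ℝ) ≤ j := Nat.cast_nonneg j
    have e : ((j : ℂ) + 2) / (j + 1) * (1 / (m : ℂ) * (1 / (m : ℂ) - 1 / ((j : ℂ) + 2))) =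
        ((1 / (m : ℝ) * (((j : ℝ) + 2) / (j + 1) * (1 / (m : ℝ) - 1 / ((j : ℝ) + 2))) : ℝ) : ℂ) := by
      push_cast; ring
    have k1 : 1 / (m : ℝ) ≤ 1 / ((j : ℝ) + 2) := one_div_le_one_div_of_le (by linarith) (by linarith)
    have k3 : 0 ≤ 1 / (m : ℝ) := by positivity
    have k : |((j : ℝ) + 2) / (j + 1) * (1 / (m : ℝ) - 1 / ((j : ℝ) + 2))| ≤ 1 := by
      rw [abs_mul, abs_of_nonneg (by positivity), abs_of_nonpos (by linarith)]
      calc _ ≤ ((j : ℝ) + 2) / (j + 1) * (1 / ((j : ℝ) + 2)) :=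
            mul_le_mul_of_nonneg_left (by linarith) (by positivity)
        _ ≤ _ := by
            rw [div_mul_div_comm, div_le_one (by positivity)]
            nlinarith
    rw [gp_succ_eval, norm_mul, e, Complex.norm_real, Real.norm_eq_abs, abs_mul, abs_of_nonneg k3,
      pow_succ']
    exact mul_le_mul (mul_le_of_le_one_right k3 k) (ih (by omega)) (norm_nonneg _) k3

lemma gp_eig (j : ℕ) {lam : ℂ} (h : Eig lam) : ‖(gp j).eval lam‖ ≤ 1 / ((j : ℝ) + 2) ^ j := by
  rcases h with rfl | ⟨m, hm, rfl⟩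
  · cases j with
    | zero => simp [gp]
    | succ j => rw [gp_succ_eval, zero_mul, mul_zero, zero_mul, norm_zero]; positivity
  · by_cases hj : m ≤ j + 1
    · rw [gp_inv_zero j hm hj, norm_zero]; positivity
    · refine (gp_inv j (by omega)).trans ?_
      rw [← one_div_pow]
      exact pow_le_pow_left₀ (by positivity) (one_div_le_one_div_of_le (by positivity)
        (by exact_mod_cast (show j + 2 ≤ m by omega))) j

lemma gp_bd_le_one (j : ℕ) : 1 / ((j : ℝ) + 2) ^ j ≤ 1 := by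
  have : (0 : ℝ) ≤ j := Nat.cast_nonneg j
  rw [div_le_one (by positivity)]
  exact one_le_pow₀ (by linarith)

lemma gp_eig_sq (j : ℕ) {lam : ℂ} (h : Eig lam) :
    ‖(gp j).eval lam‖ ^ 2 ≤ 1 / ((j : ℝ) + 2) ^ j := by
  have h1 := gp_eig j h
  have h2 := h1.trans (gp_bd_le_one j)
  nlinarith [norm_nonneg ((gp j).eval lam)]

lemma gp_step (j : ℕ) {lam : ℂ} (h : lam = 1 ∨ Eig lam) :
    ‖(gp (j + 1) - gp j).eval lam‖ ^ 2 ≤ 4 / ((j : ℝ) + 2) ^ j := by
  have hj : (0 : ℝ) ≤ j := Nat.cast_nonneg j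
  rcases h with rfl | h
  · rw [eval_sub, gp_one, gp_one, sub_self, norm_zero, zero_pow two_ne_zero]; positivity
  · have h1 := gp_eig j h
    have h2 : ‖(gp (j + 1)).eval lam‖ ≤ 1 / ((j : ℝ) + 2) ^ j := by
      refine (gp_eig _ h).trans (one_div_le_one_div_of_le (by positivity) ?_)
      push_cast
      exact (pow_le_pow_left₀ (by positivity) (by linarith) j).trans
        (pow_le_pow_right₀ (by linarith) (Nat.le_succ j))
    have h3 := (norm_sub_le _ _).trans (add_le_add h2 h1)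
    have h4 := gp_bd_le_one j
    have h5 : 0 ≤ 1 / ((j : ℝ) + 2) ^ j := by positivity
    rw [eval_sub, show 4 / ((j : ℝ) + 2) ^ j = 4 * (1 / ((j : ℝ) + 2) ^ j) by ring]
    nlinarith [norm_nonneg ((gp (j + 1)).eval lam - (gp j).eval lam)]

lemma gp_compl (j : ℕ) {lam : ℂ} (h : Eig lam) : ‖(1 - gp j).eval lam‖ ^ 2 ≤ 4 := by
  have h1 := (gp_eig j h).trans (gp_bd_le_one j)
  have h2 := norm_sub_le 1 ((gp j).eval lam)
  rw [norm_one] at h2
  rw [eval_sub, eval_one]
  nlinarith [norm_nonneg (1 - (gp j).eval lam)]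

lemma exists_gp_small {δ : ℝ} (hδ : 0 < δ) : ∃ M : ℕ, 1 / ((M : ℝ) + 2) ^ M ≤ δ := by
  obtain ⟨M, hM⟩ := exists_pow_lt_of_lt_one hδ (one_half_lt_one (α := ℝ))
  refine ⟨M, le_trans ?_ hM.le⟩
  rw [← one_div_pow]
  exact pow_le_pow_left₀ (by positivity) (one_div_le_one_div_of_le two_pos
    (le_add_of_nonneg_left (Nat.cast_nonneg M))) M

lemma add_pow_le' {a b : ℝ} (ha : 0 ≤ a) (hb : 0 ≤ b) (q : ℕ) :
    (a + b) ^ q ≤ 2 ^ q * (a ^ q + b ^ q) :=
  (add_pow_le ha hb q).trans (mul_le_mul_of_nonneg_right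
    (pow_le_pow_right₀ one_le_two (Nat.sub_le _ _)) (by positivity))

lemma norm_sum_pow_le (q n : ℕ) (x : ℕ → ℂ) : ‖∑ j ∈ Finset.range (n + 1), x j‖ ^ q ≤
    ∑ j ∈ Finset.range (n + 1), (2 ^ q) ^ (j + 1) * ‖x j‖ ^ q := by
  induction n generalizing x with
  | zero =>
    simp only [zero_add, Finset.sum_range_one, pow_one]
    exact le_mul_of_one_le_left (by positivity) (one_le_pow₀ one_le_two)
  | succ n ih =>
    rw [Finset.sum_range_succ', Finset.sum_range_succ' _ (n + 1)]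
    refine (pow_le_pow_left₀ (norm_nonneg _) (norm_add_le _ _) q).trans
      ((add_pow_le' (norm_nonneg _) (norm_nonneg _) q).trans ?_)
    rw [mul_add, zero_add, pow_one]
    refine add_le_add ((mul_le_mul_of_nonneg_left (ih fun j => x (j + 1)) (by positivity)).trans
      (le_of_eq ?_)) le_rfl
    rw [Finset.mul_sum]
    exact Finset.sum_congr rfl fun j _ => by ring

lemma pow_le_one_add {x : ℝ} (hx : 0 ≤ x) {p q : ℕ} (h : p ≤ q) : x ^ p ≤ 1 + x ^ q := by
  rcases le_total x 1 with h1 | h1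
  · exact (pow_le_one₀ hx h1).trans (le_add_of_nonneg_right (by positivity))
  · exact (pow_le_pow_right₀ h1 h).trans (le_add_of_nonneg_left zero_le_one)

/-- telescoping: all moments are bounded, uniformly in the length -/
lemma mom (C c : ℝ) (hC : 1 ≤ C) (hc : 0 ≤ c) : ∃ D : ℕ → ℝ, (∀ p, 1 ≤ D p) ∧
    ∀ (Z : Type) (EE : (Z → ℝ) → ℝ), PosF EE → EE (fun _ => 1) ≤ 1 →
      ∀ (a : ℕ → Z → ℂ) (M : ℕ), (∀ j z, ‖a j z‖ ≤ C ^ (j + 1)) →
      (∀ j < M, EE (fun z => ‖a (j + 1) z - a j z‖ ^ 2) ≤ c / (j ! : ℝ)) →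
      ∀ p : ℕ, EE (fun z => ‖a M z‖ ^ p) ≤ D p := by
  let R : ℕ → ℝ := fun p => 2 ^ (p + 2) * (2 * C) ^ p
  have hR : ∀ p, 0 ≤ R p := fun p => by positivity
  refine ⟨fun p => 1 + (2 ^ (p + 2) * C ^ (p + 2) + c * R p ^ 2 * Real.exp (R p)),
    fun p => le_add_of_nonneg_right (by have := hR p; positivity),
    fun Z EE h h1 a M ha hs p => ?_⟩
  have key : ∀ z, ‖a M z‖ ^ p ≤ 1 + (2 ^ (p + 2) * C ^ (p + 2) +
      ∑ j ∈ Finset.range M, R p ^ (j + 2) * ‖a (j + 1) z - a j z‖ ^ 2) := fun z => by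
    refine (pow_le_one_add (norm_nonneg _) (Nat.le_add_right p 2)).trans (add_le_add le_rfl ?_)
    have := norm_sum_pow_le (p + 2) M fun j => Nat.casesOn j (a 0 z) fun j => a (j + 1) z - a j z
    rw [Finset.sum_range_succ', Finset.sum_range_succ'] at this
    simp only [Nat.rec_zero, zero_add, pow_one] at this
    rw [Finset.sum_range_sub (fun j => a j z), sub_add_cancel] at this
    refine (this.trans_eq (add_comm _ _)).trans (add_le_add (mul_le_mul_of_nonneg_left (pow_le_pow_left₀ (norm_nonneg _)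
      (by simpa using ha 0 z) _) (by positivity)) (Finset.sum_le_sum fun j _ => ?_))
    have e : ‖a (j + 1) z - a j z‖ ≤ (2 * C) ^ (j + 2) := by
      have h2 := (ha j z).trans (pow_le_pow_right₀ hC (Nat.le_succ _))
      have h3 : (2 : ℝ) ≤ 2 ^ (j + 2) := le_self_pow₀ one_le_two (by omega)
      have h4 : 0 ≤ C ^ (j + 2) := by positivity
      refine (norm_sub_le _ _).trans ((add_le_add (ha (j + 1) z) h2).trans ?_)
      rw [mul_pow]
      exact (two_mul _).ge.trans (mul_le_mul_of_nonneg_right h3 h4)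
    rw [pow_add ‖_‖ p 2, ← mul_assoc]
    refine mul_le_mul_of_nonneg_right ?_ (by positivity)
    rw [mul_pow, ← pow_mul (2 * C), mul_comm p, pow_mul]
    exact mul_le_mul_of_nonneg_left (pow_le_pow_left₀ (norm_nonneg _) e p) (by positivity)
  refine (h.mono key).trans ?_
  rw [h.add, h.add, h.sum]
  refine add_le_add h1 (add_le_add (h.const_le h1 (by positivity)) ?_)
  refine le_trans (Finset.sum_le_sum (g := fun j => c * R p ^ 2 * (R p ^ j / j !))
    fun j hj => ?_) ?_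
  · rw [h.smul]
    refine (mul_le_mul_of_nonneg_left (hs j (Finset.mem_range.1 hj))
      (pow_nonneg (hR p) _)).trans (le_of_eq ?_)
    ring
  · rw [← Finset.mul_sum]
    exact mul_le_mul_of_nonneg_left (Real.sum_le_exp_of_nonneg (hR p) M) (by positivity)

lemma Fam.posF_one {X C Λ : Type} [Finite X] [Nonempty X] [Finite C] [Nonempty C]
    {a : X → Λ → C → X} (A : Fam a) (Y : Type) [Finite Y] :
    (A.E fun _ _ => SD.av fun _ : Y => 1) ≤ 1 := A.le_const fun _ _ => av_one_le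

lemma moments (R c : ℝ) : ∃ D : ℕ → ℝ, (∀ p, 1 ≤ D p) ∧
    ∀ (X C Λ Y : Type) [Finite X] [Nonempty X] [Finite C] [Nonempty C] [Finite Y]
      (a : X → Λ → C → X) (A : Fam a) (M : ℕ) (u : ℕ → X → Λ → Y → ℂ),
      (∀ j x l y, ‖u j x l y‖ ≤ R ^ j) →
      (∀ j < M, (A.E fun x l => n2 fun y => u (j + 1) x l y - u j x l y) ≤ c / ((j : ℝ) + 2) ^ j) →
      ∀ p : ℕ, (A.E fun x l => SD.av fun y => ‖u M x l y‖ ^ p) ≤ D p := by
  have hR : 1 ≤ 1 + |R| := le_add_of_nonneg_right (abs_nonneg R)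
  obtain ⟨D, hD, h⟩ := mom (1 + |R|) |c| hR (abs_nonneg c)
  refine ⟨D, hD, fun X C Λ Y _ _ _ _ _ a A M u h1 h2 => h _ _ (A.posF Y) (A.posF_one Y)
    (fun j z => u j z.1 z.2.1 z.2.2) M (fun j z => (h1 j _ _ _).trans ?_)
    fun j hj => (h2 j hj).trans ?_⟩
  · refine (le_abs_self _).trans ?_
    rw [abs_pow]
    exact (pow_le_pow_left₀ (abs_nonneg R) (le_add_of_nonneg_left zero_le_one) j).trans
      (pow_le_pow_right₀ hR (Nat.le_succ j))
  · refine (div_le_div_of_nonneg_right (le_abs_self c) (by positivity)).trans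
      (div_le_div_of_nonneg_left (abs_nonneg c) (by exact_mod_cast j.factorial_pos) ?_)
    exact_mod_cast j.factorial_le_pow.trans (Nat.pow_le_pow_left (Nat.le_add_right j 2) j)

/-- interpolation: a profile that does not depend on the loss `B` -/
lemma prof (D : ℕ → ℝ) (hD : ∀ p, 1 ≤ D p) : ∃ D' : ℕ → ℝ, ∀ B : ℝ, 0 ≤ B → ∃ δ : ℝ, 0 < δ ∧
    ∀ (Z : Type) (EE : (Z → ℝ) → ℝ), PosF EE → EE (fun _ => 1) ≤ 1 → ∀ u v : Z → ℂ,
      (∀ p : ℕ, EE (fun z => ‖u z‖ ^ p) ≤ D p) →
      (∀ p : ℕ, EE (fun z => ‖v z‖ ^ p) ≤ B ^ p * D p) →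
      EE (fun z => ‖u z - v z‖ ^ 2) ≤ δ → ∀ p : ℕ, EE (fun z => ‖v z‖ ^ p) ≤ D' p := by
  refine ⟨fun p => 2 ^ p * (D p + 3) + p ^ p * D p, fun B hB => ?_⟩
  let l : ℕ → ℝ := fun p => 2 ^ (2 * p) * (D (2 * p) + B ^ (2 * p) * D (2 * p))
  have D0 : ∀ p, 0 ≤ D p := fun p => zero_le_one.trans (hD p)
  have l0 : ∀ p, 0 ≤ l p := fun p => by have := D0 (2 * p); positivity
  obtain ⟨N, hN⟩ := exists_nat_ge B
  set L := 1 + ∑ p ∈ Finset.range N, l p with hL
  have L0 : 0 < L := add_pos_of_pos_of_nonneg one_pos (Finset.sum_nonneg fun p _ => l0 p)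
  refine ⟨1 / L, by positivity, fun Z EE h h1 u v hu hv he p => ?_⟩
  have := D0 p
  by_cases hp : p < N
  · refine le_trans ?_ (le_add_of_nonneg_right (by positivity))
    have k1 : ∀ z, ‖v z‖ ^ p ≤ 2 ^ p * (‖u z‖ ^ p + (1 + (L * ‖u z - v z‖ ^ 2 +
        1 / L * (2 ^ (2 * p) * (‖u z‖ ^ (2 * p) + ‖v z‖ ^ (2 * p)))))) := fun z => by
      have a1 : ‖v z‖ ≤ ‖u z‖ + ‖u z - v z‖ := by
        simpa using norm_sub_le (u z) (u z - v z)
      have a2 := (pow_le_pow_left₀ (norm_nonneg _) (norm_sub_le (u z) (v z)) (2 * p)).trans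
        (add_pow_le' (norm_nonneg _) (norm_nonneg _) _)
      refine (pow_le_pow_left₀ (norm_nonneg _) a1 p).trans
        ((add_pow_le' (norm_nonneg _) (norm_nonneg _) p).trans (mul_le_mul_of_nonneg_left
          (add_le_add le_rfl ((pow_le_one_add (norm_nonneg _) (Nat.le_succ p)).trans
            (add_le_add le_rfl (le_trans ?_ (add_le_add le_rfl
              (mul_le_mul_of_nonneg_left a2 (by positivity))))))) (by positivity)))
      generalize ‖u z - v z‖ = x
      rw [mul_comm 2 p, pow_mul, Nat.succ_eq_add_one, pow_succ]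
      generalize x ^ p = y
      rw [← mul_le_mul_iff_right₀ L0, mul_add, ← mul_assoc L (1 / L), mul_one_div_cancel L0.ne']
      nlinarith [sq_nonneg (L * x - y), sq_nonneg (L * x), sq_nonneg y]
    refine (h.mono k1).trans ?_
    rw [h.smul, h.add, h.add, h.add, h.smul, h.smul, h.smul, h.add]
    refine mul_le_mul_of_nonneg_left (add_le_add (hu p) ?_) (by positivity)
    have k2 : L * EE (fun z => ‖u z - v z‖ ^ 2) ≤ 1 :=
      (mul_le_mul_of_nonneg_left he L0.le).trans (mul_one_div_cancel L0.ne').le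
    have k3 : l p ≤ L := (Finset.single_le_sum (fun p _ => l0 p) (Finset.mem_range.2 hp)).trans
      (le_add_of_nonneg_left zero_le_one)
    have k4 := (mul_le_mul_of_nonneg_left (add_le_add (hu (2 * p)) (hv (2 * p)))
      (by positivity : (0 : ℝ) ≤ 2 ^ (2 * p))).trans k3
    have k5 := (mul_le_mul_of_nonneg_left k4 (by positivity : 0 ≤ 1 / L)).trans
      (one_div_mul_cancel L0.ne').le
    linarith
  · refine (hv p).trans (le_trans ?_ (le_add_of_nonneg_left (by positivity)))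
    exact mul_le_mul_of_nonneg_right (pow_le_pow_left₀ hB
      (hN.trans (by exact_mod_cast not_lt.1 hp)) p) this

lemma profile (D : ℕ → ℝ) (hD : ∀ p, 1 ≤ D p) : ∃ D' : ℕ → ℝ, ∀ B : ℝ, ∃ δ : ℝ, 0 < δ ∧
    ∀ (X C Λ Y : Type) [Finite X] [Nonempty X] [Finite C] [Nonempty C] [Finite Y]
      (a : X → Λ → C → X) (A : Fam a) (u v : X → Λ → Y → ℂ),
      (∀ p : ℕ, (A.E fun x l => SD.av fun y => ‖u x l y‖ ^ p) ≤ D p) →
      (∀ p : ℕ, (A.E fun x l => SD.av fun y => ‖v x l y‖ ^ p) ≤ B ^ p * D p) →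
      (A.E fun x l => n2 fun y => u x l y - v x l y) ≤ δ →
      ∀ p : ℕ, (A.E fun x l => SD.av fun y => ‖v x l y‖ ^ p) ≤ D' p := by
  obtain ⟨D', h⟩ := prof D hD
  refine ⟨D', fun B => ?_⟩
  obtain ⟨δ, hδ, h⟩ := h |B| (abs_nonneg B)
  refine ⟨δ, hδ, fun X C Λ Y _ _ _ _ _ a A u v h1 h2 h3 => h _ _ (A.posF Y) (A.posF_one Y)
    (fun z => u z.1 z.2.1 z.2.2) (fun z => v z.1 z.2.1 z.2.2) h1 (fun p => (h2 p).trans ?_) h3⟩
  rw [← abs_pow]
  exact mul_le_mul_of_nonneg_right (le_abs_self _) (zero_le_one.trans (hD p))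

end NE
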