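import Pool.Agent.Lib.MP_ecee09_co.NE.ExD
import Pool.Agent.Lib.MP_ecee09_co.NE.ExA

/-! Tame extraction: the lifted operators and their sup norms. -/

namespace NE

open SD
open ComplexConjugate Polynomial

variable {E K L : Type} [AddCommGroup E] [Finite E] [Finite K] [Finite L] {τ : QT E}

lemma tw_Lf (hτ : τ.ND) (A : Op K) (u : OmE E K → ℂ) (w : K → E) :
    tw τ (Lf τ A u) w = A (tw τ u w) := by
  funext P
  have e : ∀ w' : K → E, tw τ (fun x => chi τ w' x * A (tw τ u w') x.2) w P =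
      (ind (w' = w) : ℝ) * A (tw τ u w') P := fun w' => by
    have := chi_orth hτ w' w P P
    by_cases h : w' = w
    · subst h
      rw [tw, ind_pos rfl, ← cav_const (α := K → E) (_ * _)]
      exact cav_congr fun t => by rw [mul_right_comm, chi_mul_conj]; simp
    · rw [ind_neg h] at this ⊢
      simp only [tw, mul_right_comm _ (A (tw τ u w') P), cav_mul_right, this]
      simp
  exact (tw_csm τ (fun w' x => chi τ w' x * A (tw τ u w') x.2) w P).trans
    ((csm_congr e).trans (csm_ind_eq w _))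

lemma Lf_one (hτ : τ.ND) (u : OmE E K → ℂ) : Lf τ 1 u = u := funext fun x => tw_inv hτ u x.1 x.2

lemma Lf_mul (hτ : τ.ND) (A B : Op K) (u : OmE E K → ℂ) :
    Lf τ (A * B) u = Lf τ A (Lf τ B u) := by
  funext x
  simp only [Lf.eq_1 τ A, tw_Lf hτ]
  rfl

lemma Lf_add (A B : Op K) (u : OmE E K → ℂ) (x : OmE E K) :
    Lf τ (A + B) u x = Lf τ A u x + Lf τ B u x := by
  simp only [Lf, LinearMap.add_apply, Pi.add_apply, mul_add, csm_add]

lemma Lf_sub (A B : Op K) (u : OmE E K → ℂ) (x : OmE E K) :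
    Lf τ (A - B) u x = Lf τ A u x - Lf τ B u x := by
  simp only [Lf, LinearMap.sub_apply, Pi.sub_apply, mul_sub, csm_sub]

lemma Lf_smul (a : ℂ) (A : Op K) (u : OmE E K → ℂ) (x : OmE E K) :
    Lf τ (a • A) u x = a * Lf τ A u x := by
  simp only [Lf, LinearMap.smul_apply, Pi.smul_apply, smul_eq_mul, mul_left_comm _ a, csm_mul_left]

/-- linearity in the function -/
lemma Lf_sub' (A : Op K) (u v : OmE E K → ℂ) (x : OmE E K) :
    Lf τ A (fun y => u y - v y) x = Lf τ A u x - Lf τ A v x := by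
  have e : ∀ w, tw τ (fun y => u y - v y) w = tw τ u w - tw τ v w :=
    fun w => funext (tw_sub τ u v w)
  simp only [Lf, e, map_sub, Pi.sub_apply, mul_sub, csm_sub]

lemma n2_Lf (hτ : τ.ND) (A : Op K) (u : OmE E K → ℂ) :
    n2 (Lf τ A u) = sm fun w => n2 (A (tw τ u w)) := by
  simp only [n2_eq_tw hτ (Lf τ A u), tw_Lf hτ]

lemma SUP.one (hτ : τ.ND) : SUP τ (1 : Op K) 1 := fun u c h x => by
  rw [Lf_one hτ, one_mul]; exact h x

lemma SUP.mul (hτ : τ.ND) {A A' : Op K} {B B' : ℝ} (h : SUP τ A B) (h' : SUP τ A' B') :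
    SUP τ (A * A') (B * B') := fun u c hu x => by
  rw [Lf_mul hτ, mul_assoc]; exact h _ _ (h' u c hu) x

lemma SUP.add {A A' : Op K} {B B' : ℝ} (h : SUP τ A B) (h' : SUP τ A' B') :
    SUP τ (A + A') (B + B') := fun u c hu x => by
  rw [Lf_add, add_mul]; exact (norm_add_le _ _).trans (add_le_add (h u c hu x) (h' u c hu x))

lemma SUP.sub {A A' : Op K} {B B' : ℝ} (h : SUP τ A B) (h' : SUP τ A' B') :
    SUP τ (A - A') (B + B') := fun u c hu x => by
  rw [Lf_sub, add_mul]; exact (norm_sub_le _ _).trans (add_le_add (h u c hu x) (h' u c hu x))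

lemma SUP.smul {A : Op K} {B : ℝ} (h : SUP τ A B) (a : ℂ) : SUP τ (a • A) (‖a‖ * B) :=
  fun u c hu x => by
    rw [Lf_smul, norm_mul, mul_assoc]
    exact mul_le_mul_of_nonneg_left (h u c hu x) (norm_nonneg a)

omit [Finite E] [Finite K] in
lemma SUP.mono {A : Op K} {B B' : ℝ} (h : SUP τ A B) (hB : B ≤ B') : SUP τ A B' :=
  fun u c hu x => (h u c hu x).trans
    (mul_le_mul_of_nonneg_right hB ((norm_nonneg _).trans (hu x)))

/-- Fourier expansion on the group -/
lemma fourier_be (hτ : τ.ND) (f : E → ℂ) (v : E) :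
    (csm fun s => (cav fun v' => f v' * conj (ee (τ.be v' s))) * ee (τ.be v s)) = f v := by
  have e : ∀ v', (csm fun s => f v' * conj (ee (τ.be v' s)) * ee (τ.be v s)) =
      Nat.card E * ((ind (v' = v) : ℝ) * f v') := fun v' => by
    have : ∀ s, f v' * conj (ee (τ.be v' s)) * ee (τ.be v s) = f v' * ee (τ.be (v - v') s) :=
      fun s => by rw [map_sub, AddMonoidHom.sub_apply, ee_sub]; ring
    simp only [this]
    rw [csm_mul_left, csm_eq_card_mul_cav, hτ.cav_be', ind_congr (sub_eq_zero.trans eq_comm)]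
    ring
  simp only [← cav_mul_right]
  rw [← cav_csm_comm]
  simp only [e]
  rw [cav_mul_left, cav_ind_eq, mul_div_cancel₀ _ ccard_ne]

/-- a multiplier in one coordinate of the label -/
lemma norm_mulp_le (hτ : τ.ND) {f : E → ℂ} (hf : ∀ v, ‖f v‖ ≤ 1) {u : OmE E K → ℂ} {c : ℝ}
    (hu : ∀ x, ‖u x‖ ≤ c) (i : K) (t : K → E) (P : Om K) :
    ‖csm fun w => chi τ w (t, P) * f (w i) * tw τ u w P‖ ≤ Nat.card E * c := by
  classical
  have e : ∀ w : K → E, chi τ w (t, P) * f (w i) * tw τ u w P = csm fun s =>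
      (cav fun v' => f v' * conj (ee (τ.be v' s))) *
        (chi τ w (t + Pi.single i s, P) * tw τ u w P) := fun w => by
    rw [← fourier_be hτ f (w i), ← csm_mul_left, ← csm_mul_right]
    exact csm_congr fun s => by rw [chi_shift, brk_single]; ring
  simp only [e]
  rw [csm_comm, ← sm_const]
  refine (norm_csm_le _).trans (sm_mono fun s => ?_)
  rw [csm_mul_left, tw_inv hτ, norm_mul]
  exact (mul_le_of_le_one_left (norm_nonneg _) (norm_cav_le_const zero_le_one fun v => by
    simpa using hf v)).trans (hu _)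

omit [Finite E] in
/-- flipping a loop -/
lemma th_lp (τ : QT E) (w : K → E) (P : Om K) (i : K) : th τ w P =
    th τ w (P + xlp i) + ((P s(i, i)).val • τ.q (w i) - (P s(i, i) + 1).val • τ.q (w i)) := by
  classical
  have e : P + xlp i = Function.update P s(i, i) (P s(i, i) + 1) := by
    funext c
    by_cases h : c = s(i, i)
    · subst h; simp [xlp]
    · simp [xlp, h]
  have := th_update τ w P s(i, i) (P s(i, i) + 1)
  rw [cz_self] at this
  rw [e, ← add_sub_assoc, this, add_sub_cancel_right]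

lemma sup_Tf (hτ : τ.ND) (s : F) (ι : L → K) : SUP τ (Tf s ι) (2 * Nat.card E) := by
  rintro u c hu ⟨t, P⟩
  have hc : 0 ≤ c := (norm_nonneg _).trans (hu 0)
  obtain ⟨f, hf, e⟩ : ∃ f : K → E → ℂ, (∀ i v, ‖f i v‖ ≤ 1) ∧
      ∀ w i, chi τ w (t, P) = chi τ w (t, P + xlp i) * f i (w i) :=
    ⟨fun i v => ee ((P s(i, i)).val • τ.q v - (P s(i, i) + 1).val • τ.q v),
      fun _ _ => (norm_ee _).le, fun w i => by
        simp only [chi]
        rw [th_lp τ w P i, ← add_assoc, ee_add]⟩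
  have e1 : Lf τ (Tf s ι) u (t, P) = cav fun i => ((2 * ind (P s(ι i, ι i) = s) : ℝ) : ℂ) *
      csm fun w => chi τ w (t, P + xlp (ι i)) * f (ι i) (w (ι i)) * tw τ u w (P + xlp (ι i)) := by
    simp only [← csm_mul_left]
    rw [cav_csm_comm]
    refine csm_congr fun w => ?_
    rw [Tf_apply, ← cav_mul_left]
    exact cav_congr fun i => by rw [e w (ι i)]; ring
  rw [e1]
  refine norm_cav_le_const (by positivity) fun i => ?_
  rw [norm_mul, mul_assoc]
  refine mul_le_mul ?_ (norm_mulp_le hτ (hf (ι i)) hu _ _ _) (norm_nonneg _) zero_le_two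
  rw [Complex.norm_real, Real.norm_of_nonneg (mul_nonneg zero_le_two (ind_nonneg _))]
  exact mul_le_of_le_one_right zero_le_two (ind_le_one _)

lemma sup_XX (hτ : τ.ND) : SUP τ (XX K) (2 * Nat.card E * (2 * Nat.card E)) :=
  (sup_Tf hτ 1 id).mul hτ (sup_Tf hτ 0 id)

omit [Finite K] in
lemma sup_gp (hτ : τ.ND) : ∃ R : ℝ, 1 ≤ R ∧ ∀ (K : Type) [Finite K] (j : ℕ),
    SUP τ (aeval (XX K) (gp j)) (R ^ j) := by
  set B : ℝ := 2 * Nat.card E * (2 * Nat.card E) with hB
  have B0 : 0 ≤ B := by positivity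
  refine ⟨1 + 2 * (B * (B + 1)), le_add_of_nonneg_right (by positivity), fun K _ j => ?_⟩
  induction j with
  | zero => simpa [gp] using SUP.one hτ
  | succ j ih =>
    have hj : (0 : ℝ) ≤ j := Nat.cast_nonneg j
    have n1 : ‖((j : ℂ) + 2) / (j + 1)‖ ≤ 2 := by
      rw [show ((j : ℂ) + 2) / (j + 1) = ((((j : ℝ) + 2) / (j + 1) : ℝ) : ℂ) by push_cast; rfl,
        Complex.norm_real, Real.norm_of_nonneg (by positivity), div_le_iff₀ (by positivity)]
      linarith
    have n2 : ‖1 / ((j : ℂ) + 2)‖ ≤ 1 := by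
      rw [show 1 / ((j : ℂ) + 2) = ((1 / ((j : ℝ) + 2) : ℝ) : ℂ) by push_cast; rfl,
        Complex.norm_real, Real.norm_of_nonneg (by positivity), div_le_one (by positivity)]
      linarith
    have h1 := ((sup_XX (K := K) hτ).mul hτ (((sup_XX hτ).sub ((SUP.one hτ).smul
      (1 / ((j : ℂ) + 2)))).mono (B' := B + 1) (by rw [mul_one]; linarith))).smul
        (((j : ℂ) + 2) / (j + 1))
    rw [gp, map_mul, map_mul, map_mul, map_sub, aeval_X, aeval_C, aeval_C,
      Algebra.algebraMap_eq_smul_one, Algebra.algebraMap_eq_smul_one, smul_mul_assoc, one_mul,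
      pow_succ']
    refine (h1.mono ?_).mul hτ ih
    exact (mul_le_mul_of_nonneg_right n1 (by positivity)).trans
      (le_add_of_nonneg_left zero_le_one)

end NE
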