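import Pool.Agent.Lib.MP_ecee09_co.NE.Stmts
import Pool.Agent.Lib.MP_ecee09_co.NE.Cells

/-! Orthogonal projections, the energy `pen`, the spaces `Low`, gain on cells, the potential. -/

namespace NE

open SD (F sm av ind cnt Tame)
open ComplexConjugate

section pen
variable {X : Type} [Finite X] (S : Submodule ℂ (X → ℂ))

theorem pn_ip_re (f g : X → ℂ) : (ip f g).re = av fun x => (f x * conj (g x)).re := by
  let _ := Fintype.ofFinite X
  rw [ip, cav, av, finsum_eq_sum_of_fintype, finsum_eq_sum_of_fintype, Complex.div_natCast_re,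
    Complex.re_sum]

theorem pn_n2_nonneg (f : X → ℂ) : 0 ≤ n2 f := SD.av_nonneg fun _ => sq_nonneg _

theorem pn_n2_add (f g : X → ℂ) : n2 (fun x => f x + g x) = n2 f + 2 * (ip f g).re + n2 g := by
  rw [pn_ip_re, n2, n2, n2, ← SD.av_mul_left, ← SD.av_add, ← SD.av_add]
  refine SD.av_congr fun x => ?_
  simp only [Complex.sq_norm, Complex.normSq_add]
  ring

theorem pn_n2_sub (f g : X → ℂ) : n2 (fun x => f x - g x) = n2 f - 2 * (ip f g).re + n2 g := by
  rw [pn_ip_re, n2, n2, n2, ← SD.av_mul_left, ← SD.av_sub, ← SD.av_add]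
  refine SD.av_congr fun x => ?_
  simp only [Complex.sq_norm, Complex.normSq_sub]
  ring

theorem pn_ip_self (f : X → ℂ) : (ip f f).re = n2 f := by
  rw [pn_ip_re, n2]
  refine SD.av_congr fun x => ?_
  rw [Complex.mul_conj, Complex.ofReal_re, Complex.sq_norm]

theorem pn_ip_sub_left (f g h : X → ℂ) :
    (ip (fun x => f x - g x) h).re = (ip f h).re - (ip g h).re := by
  simp only [pn_ip_re, ← SD.av_sub, sub_mul, Complex.sub_re]

theorem pn_ip_add_right (f g h : X → ℂ) :
    (ip f fun x => g x + h x).re = (ip f g).re + (ip f h).re := by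
  simp only [pn_ip_re, ← SD.av_add, map_add, mul_add, Complex.add_re]

theorem exists_prj (f : X → ℂ) : ∃ g ∈ S, ∀ h ∈ S, ip (fun x => f x - g x) h = 0 := by
  let _ := Fintype.ofFinite X
  let T : Submodule ℂ (EuclideanSpace ℂ X) := S.comap (WithLp.linearEquiv 2 ℂ (X → ℂ)).toLinearMap
  obtain ⟨y, hy, z, hz, hyz⟩ := T.exists_add_mem_mem_orthogonal (WithLp.toLp 2 f)
  refine ⟨y.ofLp, hy, fun h hh => ?_⟩
  have h0 : inner ℂ (WithLp.toLp 2 h : EuclideanSpace ℂ X) z = 0 := hz _ hh
  have h1 : ∀ x, f x - y.ofLp x = z.ofLp x := fun x => by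
    have := congrArg (fun v : EuclideanSpace ℂ X => v.ofLp x) hyz
    simp only [PiLp.add_apply] at this
    rw [sub_eq_iff_eq_add', ← this]
  rw [PiLp.inner_apply] at h0
  simp only [RCLike.inner_apply] at h0
  rw [ip, cav, finsum_eq_sum_of_fintype]
  simp only [h1]
  rw [h0, zero_div]

/-- the orthogonal projection of `f` on `S` -/
noncomputable def prj (f : X → ℂ) : X → ℂ := (exists_prj S f).choose

theorem prj_mem (f : X → ℂ) : prj S f ∈ S := (exists_prj S f).choose_spec.1

theorem ip_sub_prj (f : X → ℂ) {h : X → ℂ} (hh : h ∈ S) :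
    ip (fun x => f x - prj S f x) h = 0 := (exists_prj S f).choose_spec.2 h hh

theorem ip_prj_re (f : X → ℂ) {h : X → ℂ} (hh : h ∈ S) : (ip f h).re = (ip (prj S f) h).re := by
  have h1 := pn_ip_sub_left f (prj S f) h
  rw [ip_sub_prj S f hh, Complex.zero_re] at h1
  linarith

theorem pn_le (f : X → ℂ) {g : X → ℂ} (hg : g ∈ S) :
    2 * (ip f g).re - n2 g ≤ n2 (prj S f) := by
  have h1 := pn_n2_nonneg fun x => prj S f x - g x
  rw [pn_n2_sub] at h1
  rw [ip_prj_re S f hg]
  linarith

theorem pn_eq (f : X → ℂ) : 2 * (ip f (prj S f)).re - n2 (prj S f) = n2 (prj S f) := by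
  rw [ip_prj_re S f (prj_mem S f), pn_ip_self]
  ring

theorem pen_eq (f : X → ℂ) : pen S f = n2 (prj S f) := by
  refine le_antisymm (ciSup_le fun g => pn_le S f g.2) ?_
  rw [← pn_eq S f]
  exact le_ciSup (f := fun g : S => 2 * (ip f g).re - n2 (g : X → ℂ))
    ⟨n2 (prj S f), by rintro _ ⟨g, rfl⟩; exact pn_le S f g.2⟩ ⟨prj S f, prj_mem S f⟩

theorem le_pen (f : X → ℂ) {g : X → ℂ} (hg : g ∈ S) : 2 * (ip f g).re - n2 g ≤ pen S f :=
  (pn_le S f hg).trans (pen_eq S f).ge

theorem pen_nonneg (f : X → ℂ) : 0 ≤ pen S f := (pn_n2_nonneg _).trans (pen_eq S f).ge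

theorem n2_sub_prj (f : X → ℂ) : n2 (fun x => f x - prj S f x) = n2 f - pen S f := by
  have := pn_eq S f
  rw [pn_n2_sub, pen_eq]
  linarith

theorem pen_le_n2 (f : X → ℂ) : pen S f ≤ n2 f := by
  have := pn_n2_nonneg fun x => f x - prj S f x
  rw [n2_sub_prj] at this
  linarith

theorem sub_pen_le (f : X → ℂ) {g : X → ℂ} (hg : g ∈ S) :
    n2 f - pen S f ≤ n2 fun x => f x - g x := by
  have := le_pen S f hg
  rw [pn_n2_sub]
  linarith

theorem pen_mono {S S' : Submodule ℂ (X → ℂ)} (h : S ≤ S') (f : X → ℂ) :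
    pen S f ≤ pen S' f := by
  have := le_pen S' f (h (prj_mem S f))
  rw [pn_eq] at this
  rw [pen_eq S]
  exact this

end pen

section gc
variable {X C Λ : Type} [Finite X] [Finite C] {a : X → Λ → C → X} (A : Fam a)

omit [Finite X] [Finite C] in
theorem Fam.pn_mono {f g : X → Λ → ℝ} (h : ∀ x l, f x l ≤ g x l) : A.E f ≤ A.E g := by
  have h1 := A.add f fun x l => g x l - f x l
  have h2 := A.pos (fun x l => g x l - f x l) fun x l => sub_nonneg.2 (h x l)
  simp only [add_sub_cancel] at h1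
  exact (le_add_of_nonneg_right h2).trans h1.ge

omit [Finite X] [Finite C] in
theorem Fam.pn_sub (f g : X → Λ → ℝ) : A.E (fun x l => f x l - g x l) = A.E f - A.E g := by
  have h1 := A.add (fun x l => f x l - g x l) g
  simp only [sub_add_cancel] at h1
  exact eq_sub_of_add_eq h1.symm

omit [Finite X] [Finite C] in
theorem Fam.pn_sum {ι : Type} (s : Finset ι) (f : ι → X → Λ → ℝ) :
    A.E (fun x l => ∑ i ∈ s, f i x l) = ∑ i ∈ s, A.E (f i) := by
  classical
  induction s using Finset.induction_on with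
  | empty => simpa using A.smul 0 fun _ _ => 0
  | insert i s hi ih => simp only [Finset.sum_insert hi, A.add, ih]

theorem Fam.pn_const [Nonempty X] [Nonempty C] (c : ℝ) : A.E (fun _ _ => c) = c := by
  simpa only [SD.av_const] using A.marg fun _ => c

omit [Finite X] [Finite C] in
/-- the marginal for squared norms -/
theorem Fam.E_n2 (f : X → ℂ) : (A.E fun x l => n2 fun c => f (a x l c)) = n2 f :=
  A.marg fun x => ‖f x‖ ^ 2

/-- the marginal for inner products -/
theorem Fam.E_ip_re (f g : X → ℂ) :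
    (A.E fun x l => (ip (fun c => f (a x l c)) fun c => g (a x l c)).re) = (ip f g).re := by
  simp only [pn_ip_re]
  exact A.marg fun x => (f x * conj (g x)).re

/-- gain on cells, general form -/
theorem Fam.gc (S : Submodule ℂ (X → ℂ)) (T : Submodule ℂ (C → ℂ))
    (hST : ∀ g ∈ S, ∀ x l, (fun c => g (a x l c)) ∈ T) (f : X → ℂ) (G : X → Λ → C → ℂ)
    (hG : ∀ x l, G x l ∈ T) :
    pen S f + 2 * (A.E fun x l => (ip (fun c => f (a x l c) - prj S f (a x l c)) (G x l)).re) -
      (A.E fun x l => n2 (G x l)) ≤ A.E fun x l => pen T fun c => f (a x l c) := by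
  have h := A.pn_mono (f := fun x l =>
      (2 * (ip (fun c => f (a x l c)) fun c => prj S f (a x l c)).re -
        n2 fun c => prj S f (a x l c)) +
      2 * (ip (fun c => f (a x l c) - prj S f (a x l c)) (G x l)).re - n2 (G x l))
    (g := fun x l => pen T fun c => f (a x l c)) fun x l => by
      have h1 := le_pen T (fun c => f (a x l c)) (T.add_mem (hST _ (prj_mem S f) x l) (hG x l))
      have h2 := pn_n2_add (fun c => prj S f (a x l c)) (G x l)
      have h3 := pn_ip_add_right (fun c => f (a x l c)) (fun c => prj S f (a x l c)) (G x l)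
      have h4 := pn_ip_sub_left (fun c => f (a x l c)) (fun c => prj S f (a x l c)) (G x l)
      have e : ((fun c => prj S f (a x l c)) + G x l) = fun c => prj S f (a x l c) + G x l c := rfl
      rw [e, h2, h3] at h1
      rw [h4]
      linarith
  rw [A.pn_sub, A.add, A.pn_sub, A.smul, A.smul, A.E_n2, A.E_ip_re, pn_eq, ← pen_eq] at h
  exact h

end gc

section cz
variable {E I K : Type} [AddCommGroup E]
open Finset

lemma pn_cz_mk [DecidableEq I] (τ : QT E) (w : I → E) (i j : I) :
    cz τ w s(i, j) = if i = j then τ.q (w i) else τ.be (w i) (w j) := by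
  by_cases e : i = j
  · rw [if_pos e]
    exact if_pos e
  · rw [if_neg e]
    exact if_neg e

lemma pn_q_sum [DecidableEq I] (τ : QT E) (w : I → E) (B : Finset I) :
    ∑ c ∈ B.sym2, cz τ w c = τ.q (∑ i ∈ B, w i) := by
  induction B using Finset.cons_induction with
  | empty => simpa [eq_comm] using τ.q_add 0 0
  | cons a B ha ih =>
    rw [sym2_cons, sum_disjUnion, sum_map, sum_cons, sum_cons, ih, τ.q_add, map_sum, add_right_comm]
    refine congrArg₂ _ (congrArg₂ _ ((pn_cz_mk τ w a a).trans (if_pos rfl)) rfl) (sum_congr rfl fun i hi =>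
      (pn_cz_mk τ w a i).trans (if_neg fun e : a = i => ha (e ▸ hi)))

lemma pn_cz_sum [Fintype I] [DecidableEq I] [DecidableEq K] (τ : QT E) (w : I → E) (Φ : Lab I K)
    (d : Sym2 K) : ∑ c with lab2 Φ c = some d, cz τ w c = cz τ (wl w Φ) d := by
  have hw : ∀ k, wl w Φ k = ∑ i with Φ i = some k, w i := fun k => by
    rw [wl, finsum_eq_sum_of_fintype, sum_filter]
    exact sum_congr rfl fun i _ => by congr
  induction d using Sym2.ind with
  | _ k l =>
    rw [pn_cz_mk, hw, hw]
    split_ifs with e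
    · rw [← pn_q_sum, ← e]
      refine sum_congr (Finset.ext fun c => ?_) fun _ _ => rfl
      induction c using Sym2.ind with
      | _ i j => simp [lab2_eq_some_iff]
    · simp only [map_sum, AddMonoidHom.finsetSum_apply]
      rw [sum_comm (f := fun j i => τ.be (w i) (w j)), ← sum_product']
      refine (sum_nbij (fun p : I × I => s(p.1, p.2)) (fun p hp => ?_) (fun p hp p' hp' q => ?_)
        (fun c hc => ?_) fun p hp => ?_).symm
      · simp only [mem_product, mem_filter, mem_univ, true_and] at hp ⊢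
        exact lab2_some hp.1 hp.2
      · simp only [coe_product, coe_filter, mem_univ, true_and, Set.mem_prod, Set.mem_ofPred_eq]
          at hp hp'
        rcases Sym2.eq_iff.1 q with q | q
        · exact Prod.ext q.1 q.2
        · exact absurd (Option.some.inj (hp.1.symm.trans (q.1 ▸ hp'.2))) e
      · induction c using Sym2.ind with
        | _ i j =>
          obtain ⟨a, b, h1, h2, h3⟩ := (lab2_eq_some_iff _ _ _ _).1 (mem_filter.1 hc).2
          rcases Sym2.eq_iff.1 h3 with ⟨rfl, rfl⟩ | ⟨rfl, rfl⟩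
          · exact ⟨(i, j), by simp [h1, h2], rfl⟩
          · exact ⟨(j, i), by simp [h1, h2], Sym2.eq_swap⟩
      · simp only [mem_product, mem_filter, mem_univ, true_and] at hp
        rw [pn_cz_mk, if_neg fun q : p.1 = p.2 => e (Option.some.inj (hp.1.symm.trans (q ▸ hp.2)))]

end cz

section low
variable {I K : Type} [Finite I] [Finite K]

theorem Low_mono {J J' : ℕ} (h : J ≤ J') (I : Type) : Low J I ≤ Low J' I :=
  Submodule.span_mono fun _ ⟨σ, w, h1, h2⟩ => ⟨σ, w, h1.trans_le h, h2⟩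

omit [Finite I] in
theorem ph_mem_Low {J : ℕ} {E : Type} [AddCommGroup E] [Finite E] (τ : QT E) (w : I → E)
    (h : Nat.card E < J) : ph τ w ∈ Low J I :=
  Submodule.subset_span ⟨⟨E, τ⟩, w, h, rfl⟩

theorem pn_ph_ow {E : Type} [AddCommGroup E] (τ : QT E) (w : I → E) (x : Om I) (Φ : Lab I K)
    (P : Om K) : ph τ w (ow x Φ P) = ph τ w (ow x Φ 0) * ph τ (wl w Φ) P := by
  classical
  let _ := Fintype.ofFinite I
  let _ := Fintype.ofFinite K
  have h2 : th τ w (ow x Φ P) = th τ w (ow x Φ 0) + th τ (wl w Φ) P := by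
    simp only [th, finsum_eq_sum_of_fintype, ← pn_cz_sum, Finset.smul_sum, Finset.sum_filter]
    rw [Finset.sum_comm, ← Finset.sum_add_distrib]
    refine Finset.sum_congr rfl fun c _ => ?_
    cases e : lab2 Φ c <;> simp [ow, e]
  rw [ph, ph, ph, h2, ee, ee, ee, AddCircle.toCircle_add, Circle.coe_mul]

theorem ores_mem_Low {J : ℕ} {f : Om I → ℂ} (hf : f ∈ Low J I) (x : Om I) (Φ : Lab I K) :
    ores f x Φ ∈ Low J K := by
  induction hf using Submodule.span_induction with
  | mem φ hφ =>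
    obtain ⟨σ, w, h1, rfl⟩ := hφ
    have e : ores (ph σ.τ w) x Φ = ph σ.τ w (ow x Φ 0) • ph σ.τ (wl w Φ) :=
      funext fun P => pn_ph_ow σ.τ w x Φ P
    rw [e]
    exact Submodule.smul_mem _ _ (ph_mem_Low σ.τ _ h1)
  | zero => exact Submodule.zero_mem _
  | add f g _ _ hf hg => exact Submodule.add_mem _ hf hg
  | smul c f _ hf => exact Submodule.smul_mem _ c hf

/-- gain on cells -/
theorem gc (B : OFam I K) (J : ℕ) (f : Om I → ℂ) (G : Om I → Lab I K → Om K → ℂ)
    (hG : ∀ x Φ, G x Φ ∈ Low J K) :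
    pen (Low J I) f +
      2 * (B.E fun x Φ => (ip (ores (fun P => f P - prj (Low J I) f P) x Φ) (G x Φ)).re) -
      (B.E fun x Φ => n2 (G x Φ)) ≤ B.E fun x Φ => pen (Low J K) (ores f x Φ) :=
  Fam.gc B (Low J I) (Low J K) (fun _ hg x Φ => ores_mem_Low hg x Φ) f G hG

theorem pen_le_E (B : OFam I K) (J : ℕ) (f : Om I → ℂ) :
    pen (Low J I) f ≤ B.E fun x Φ => pen (Low J K) (ores f x Φ) := by
  have h := Fam.pn_mono B (f := fun x Φ => 2 * (ip (ores f x Φ) (ores (prj (Low J I) f) x Φ)).re -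
      n2 (ores (prj (Low J I) f) x Φ)) (g := fun x Φ => pen (Low J K) (ores f x Φ))
    fun x Φ => le_pen _ _ (ores_mem_Low (prj_mem _ f) x Φ)
  have h1 := Fam.E_ip_re B f (prj (Low J I) f)
  have h2 := Fam.E_n2 B (prj (Low J I) f)
  have h3 := pn_eq (Low J I) f
  rw [Fam.pn_sub, B.smul] at h
  rw [pen_eq]
  exact (h3.symm.trans (by rw [← h1, ← h2]; rfl)).le.trans h

theorem pot_nonneg (J0 : ℕ) (f : Om I → ℂ) : 0 ≤ pot J0 f :=
  Finset.sum_nonneg fun _ _ => sub_nonneg.2 (pen_le_n2 _ f)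

theorem pot_le (J0 : ℕ) (f : Om I → ℂ) : pot J0 f ≤ (J0 + 1) * n2 f := by
  have := Finset.sum_le_card_nsmul (Finset.range (J0 + 1)) (fun J => n2 f - pen (Low J I) f) (n2 f)
    fun J _ => sub_le_self _ (pen_nonneg _ f)
  simpa [pot] using this

/-- a gain at one level lowers the potential -/
theorem E_pot_le (B : OFam I K) {J J0 : ℕ} (hJ : J ≤ J0) (f : Om I → ℂ) {c : ℝ}
    (h : pen (Low J I) f + c ≤ B.E fun x Φ => pen (Low J K) (ores f x Φ)) :
    (B.E fun x Φ => pot J0 (ores f x Φ)) ≤ pot J0 f - c := by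
  have h1 := Finset.single_le_sum
    (f := fun J => (B.E fun x Φ => pen (Low J K) (ores f x Φ)) - pen (Low J I) f)
    (fun J _ => sub_nonneg.2 (pen_le_E B J f)) (Finset.mem_range.2 (Nat.lt_succ_of_le hJ))
  have h2 : (B.E fun x Φ => n2 (ores f x Φ)) = n2 f := Fam.E_n2 B f
  simp only [pot]
  rw [Fam.pn_sum B _ fun J x Φ => n2 (ores f x Φ) - pen (Low J K) (ores f x Φ)]
  simp only [Fam.pn_sub, h2, Finset.sum_sub_distrib] at h1 ⊢
  linarith

/-- the potential does not increase -/
theorem E_pot_mono (B : OFam I K) (J0 : ℕ) (f : Om I → ℂ) :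
    (B.E fun x Φ => pot J0 (ores f x Φ)) ≤ pot J0 f := by
  simpa using E_pot_le B (Nat.zero_le J0) f (c := 0) (by simpa using pen_le_E B 0 f)

end low

end NE
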