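import Pool.Agent.Lib.MP_ecee09_co.NE.Fld
import Pool.Agent.Lib.MP_ecee09_co.NE.FamC
import Pool.Agent.Lib.MP_ecee09_co.NE.Pen

/-! Fields: restriction to cells, label projections, generating part, low part. -/

namespace NE

open SD
open ComplexConjugate

variable {E I K : Type} [AddCommGroup E] [Finite E] [Finite I] [Finite K] {τ : QT E}

/-- coefficients of the restriction of a field to a cell -/
noncomputable def rc (τ : QT E) (c : (I → E) → ℂ) (x : OmE E I) (Φ : Lab I K) (v : K → E) : ℂ :=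
  csm fun w => (ind (wl w Φ = v) : ℝ) * (c w * chi τ w (cell x Φ 0))

lemma res_fld (τ : QT E) (c : (I → E) → ℂ) (x : OmE E I) (Φ : Lab I K) :
    res (fld τ c) x Φ = fld τ (rc τ c x Φ) := by
  funext y
  rw [res, fld, fld, csm_fiber fun w => wl w Φ]
  refine csm_congr fun v => ?_
  rw [rc, ← csm_mul_right]
  refine csm_congr fun w => ?_
  by_cases h : wl w Φ = v
  · rw [chi_cell, h]; ring
  · simp [ind_neg h]

omit [Finite E] [Finite K] in
lemma not_gen_wl {w : I → E} (h : ¬ Gen w) (Φ : Lab I K) : ¬ Gen (wl w Φ) :=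
  fun h' => h h'.of_wl

omit [Finite E] [Finite K] in
lemma rc_eq_zero (τ : QT E) {c : (I → E) → ℂ} (hc : ∀ w, Gen w → c w = 0) (x : OmE E I)
    (Φ : Lab I K) (v : K → E) (hv : Gen v) : rc τ c x Φ v = 0 := by
  rw [rc, ← csm_zero (α := I → E)]
  refine csm_congr fun w => ?_
  by_cases h : wl w Φ = v
  · rw [hc w (Gen.of_wl (h ▸ hv))]; simp
  · simp [ind_neg h]

/-- the quadratic functional of a field along a family -/
lemma E_fld_quad (hτ : τ.ND) (A : GFam E I K) (h : OmE E I → ℂ) (c : (I → E) → ℂ) :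
    (A.E fun x Φ => 2 * (ip (res h x Φ) (fld τ (rc τ c x Φ))).re -
      sm fun v => ‖rc τ c x Φ v‖ ^ 2) = 2 * (ip h (fld τ c)).re - n2 (fld τ c) := by
  simp only [← n2_fld hτ, ← res_fld]
  rw [A.sub, A.smul, A.res_n2, ← A.cE_re, A.res_ip]

lemma fen_mono (hτ : τ.ND) (A : GFam E I K) (h : OmE E I → ℂ) :
    fen τ h ≤ A.E fun x Φ => fen τ (res h x Φ) := by
  refine le_trans ?_ (A.mono fun x Φ => fen_ge τ _ (rc τ (cf τ h) x Φ))
  rw [E_fld_quad hτ, ip_fld_cf, n2_fld_cf hτ, Complex.ofReal_re]; linarith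

lemma ng_mono (hτ : τ.ND) (A : GFam E I K) (h : OmE E I → ℂ) :
    ng τ h ≤ A.E fun x Φ => ng τ (res h x Φ) := by
  refine le_trans ?_ (A.mono fun x Φ => ng_ge τ _
    (rc τ (fun w => (ind (¬ Gen w) : ℝ) * cf τ h w) x Φ)
    (rc_eq_zero τ (fun w hw => by simp [ind_neg (not_not.2 hw)]) x Φ))
  rw [E_fld_quad hτ, ip_fld_ind τ fun w => ¬ Gen w, n2_fld hτ, sm_ind_sq fun w => ¬ Gen w,
    Complex.ofReal_re, ng]
  linarith

/-- for a field the generating energy does not grow along a family -/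
lemma En_fld_anti (hτ : τ.ND) (A : GFam E I K) (c : (I → E) → ℂ) :
    (A.E fun x Φ => En τ (res (fld τ c) x Φ)) ≤ En τ (fld τ c) := by
  have e : ∀ x (Φ : Lab I K), En τ (res (fld τ c) x Φ) =
      n2 (res (fld τ c) x Φ) - ng τ (res (fld τ c) x Φ) := fun x Φ => by
    rw [res_fld, ← fen_fld hτ, fen_eq_add]; ring
  have h1 := ng_mono hτ A (fld τ c)
  have h2 := fen_eq_add τ (fld τ c)
  rw [fen_fld hτ] at h2
  simp only [e]
  rw [A.sub, A.res_n2]; linarith

/-- a multiplier given by a group of shifts and a character -/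
lemma fld_mulp {T : Type} [AddCommGroup T] [Finite T] (τ : QT E) (s : T →+ (I → E))
    (φ : T →+ TT) (c : (I → E) → ℂ) (x : OmE E I) :
    fld τ (fun w => (ind (∀ t, brk τ w (s t) = φ t) : ℝ) * c w) x =
      cav fun t => fld τ c (x.1 + s t, x.2) * conj (ee (φ t)) := by
  have e : ∀ w, ((ind (∀ t, brk τ w (s t) = φ t) : ℝ) : ℂ) * c w =
      cav fun t => conj (ee (φ t)) * (ee (brk τ w (s t)) * c w) := fun w => by
    rw [cav_congr (g := fun t => ee (brk τ w (s t) - φ t) * c w) fun t => by rw [ee_sub]; ring,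
      cav_mul_right, cav_ee_add _ fun a b => by rw [map_add, map_add, brk_add_right]; abel]
    simp only [sub_eq_zero]
  simp only [e]
  rw [fld_cav]
  exact cav_congr fun t => by rw [fld_mul_left, fld_shift, mul_comm]

lemma av_mulp_le {T : Type} [AddCommGroup T] [Finite T] (τ : QT E) (s : T →+ (I → E))
    (φ : T →+ TT) (c : (I → E) → ℂ) (p : ℕ) :
    (av fun x => ‖fld τ (fun w => (ind (∀ t, brk τ w (s t) = φ t) : ℝ) * c w) x‖ ^ p) ≤
      av fun x => ‖fld τ c x‖ ^ p := by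
  rw [← av_shift (fun x => ‖fld τ c x‖ ^ p) fun t => ((s t, 0) : OmE E I)]
  refine av_mono fun x => ?_
  rw [fld_mulp]
  refine (norm_cav_pow_le _ p).trans (le_of_eq (av_congr fun t => ?_))
  rw [norm_mul, Complex.norm_conj, norm_ee, mul_one,
    show x + ((s t, 0) : OmE E I) = (x.1 + s t, x.2) from Prod.ext rfl (add_zero _)]

/-- labels in prescribed cosets: contraction in `L^p` -/
lemma av_coset_le (hτ : τ.ND) (S : I → AddSubgroup E) (w0 : I → E) (c : (I → E) → ℂ) (p : ℕ) :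
    (av fun x => ‖fld τ (fun w => (ind (∀ i, w i - w0 i ∈ S i) : ℝ) * c w) x‖ ^ p) ≤
      av fun x => ‖fld τ c x‖ ^ p := by
  classical
  let T : AddSubgroup (I → E) := AddSubgroup.pi Set.univ fun i => τ.perp (S i)
  have e : ∀ w : I → E, (∀ i, w i - w0 i ∈ S i) ↔
      ∀ t : T, brk τ w (T.subtype t) = ((brkH τ w0).comp T.subtype) t := fun w => by
    have e1 : ∀ t : T, brk τ w (T.subtype t) = ((brkH τ w0).comp T.subtype) t ↔
        brk τ (w - w0) t = 0 := fun t => by rw [brk_sub_left, sub_eq_zero]; rfl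
    simp only [e1]
    refine ⟨fun h t => ?_, fun h i => ?_⟩
    · exact finsum_eq_zero_of_forall_eq_zero fun i => t.2 i trivial _ (h i)
    · rw [← hτ.perp_perp (S i)]
      intro u hu
      have := h ⟨Pi.single i u, fun j _ => by
        by_cases hj : j = i
        · subst hj; simpa using hu
        · simp [hj]⟩
      rw [brk_single] at this
      rw [τ.symm]; exact this
  simp only [e]
  exact av_mulp_le τ _ _ c p

/-- prescribed block sums: contraction in `L^p` -/
lemma av_wl_le (hτ : τ.ND) (Φ : Lab I K) (v : K → E) (c : (I → E) → ℂ) (p : ℕ) :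
    (av fun x => ‖fld τ (fun w => (ind (wl w Φ = v) : ℝ) * c w) x‖ ^ p) ≤
      av fun x => ‖fld τ c x‖ ^ p := by
  have e : ∀ w : I → E, wl w Φ = v ↔ ∀ t : K → E,
      brk τ w (AddMonoidHom.mk' (fun t => spr t Φ) (fun a b => spr_add a b Φ) t) = brkH τ v t :=
    fun w => ⟨fun h t => h ▸ brk_spr τ w t Φ, fun h => sub_eq_zero.1 (brk_nd hτ fun t => by
      rw [brk_sub_left, sub_eq_zero, ← brk_spr]; exact h t)⟩
  simp only [e]
  exact av_mulp_le τ _ _ c p

/-- prescribed values on the range of a map of indices: contraction in `L^p` -/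
lemma av_comp_le (hτ : τ.ND) (ι : K → I) (v : K → E) (c : (I → E) → ℂ) (p : ℕ) :
    (av fun x => ‖fld τ (fun w => (ind (w ∘ ι = v) : ℝ) * c w) x‖ ^ p) ≤
      av fun x => ‖fld τ c x‖ ^ p := by
  have e0 : ∀ (w : I → E) (t : K → E), brk τ w (wlH (fun k => some (ι k)) t) = brk τ (w ∘ ι) t :=
    fun w t => by rw [brk_comm, brk_comm τ (w ∘ ι)]; exact (brk_spr τ t w _).symm
  have e : ∀ w : I → E, w ∘ ι = v ↔ ∀ t : K → E,
      brk τ w (wlH (fun k => some (ι k)) t) = brkH τ v t :=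
    fun w => ⟨fun h t => h ▸ e0 w t, fun h => sub_eq_zero.1 (brk_nd hτ fun t => by
      rw [brk_sub_left, sub_eq_zero, ← e0]; exact h t)⟩
  simp only [e]
  exact av_mulp_le τ _ _ c p

omit [Finite E] [Finite I] [Finite K] [AddCommGroup E] in
lemma ct_iff {X : Type} {D : ℕ → ℝ} {f : X → ℂ} :
    CT D f ↔ ∀ p : ℕ, (av fun x => ‖f x‖ ^ p) ≤ D p := by
  simp only [CT, Tame, abs_norm]

lemma CT.coset (hτ : τ.ND) {D : ℕ → ℝ} {c : (I → E) → ℂ} (h : CT D (fld τ c))
    (S : I → AddSubgroup E) (w0 : I → E) :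
    CT D (fld τ fun w => (ind (∀ i, w i - w0 i ∈ S i) : ℝ) * c w) :=
  ct_iff.2 fun p => (av_coset_le hτ S w0 c p).trans (ct_iff.1 h p)

lemma CT.wl (hτ : τ.ND) {D : ℕ → ℝ} {c : (I → E) → ℂ} (h : CT D (fld τ c))
    (Φ : Lab I K) (v : K → E) : CT D (fld τ fun w => (ind (wl w Φ = v) : ℝ) * c w) :=
  ct_iff.2 fun p => (av_wl_le hτ Φ v c p).trans (ct_iff.1 h p)

lemma CT.comp (hτ : τ.ND) {D : ℕ → ℝ} {c : (I → E) → ℂ} (h : CT D (fld τ c))
    (ι : K → I) (v : K → E) : CT D (fld τ fun w => (ind (w ∘ ι = v) : ℝ) * c w) :=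
  ct_iff.2 fun p => (av_comp_le hτ ι v c p).trans (ct_iff.1 h p)

omit [Finite E] [Finite I] [Finite K] [AddCommGroup E] in
lemma av_sub_pow_le {X : Type} [Finite X] {f g : X → ℂ} {p : ℕ} {M : ℝ}
    (hf : (av fun x => ‖f x‖ ^ p) ≤ M) (hg : (av fun x => ‖g x‖ ^ p) ≤ M) :
    (av fun x => ‖f x - g x‖ ^ p) ≤ 2 ^ p * M := by
  cases p with
  | zero => simpa using hf
  | succ q =>
    refine (av_mono (g := fun x => 2 ^ q * (‖f x‖ ^ (q + 1) + ‖g x‖ ^ (q + 1))) fun x =>
      (pow_le_pow_left₀ (norm_nonneg _) (norm_sub_le _ _) _).trans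
        (add_pow_le (norm_nonneg _) (norm_nonneg _) _)).trans ?_
    rw [av_mul_left, av_add, pow_succ, mul_assoc]
    exact mul_le_mul_of_nonneg_left (by linarith) (by positivity)

/-- the complement of a set of labels -/
lemma fld_ind_not (τ : QT E) (q : (I → E) → Prop) (c : (I → E) → ℂ) (x : OmE E I) :
    fld τ (fun w => (ind (¬ q w) : ℝ) * c w) x =
      fld τ c x - fld τ (fun w => (ind (q w) : ℝ) * c w) x := by
  rw [← fld_sub]; congr 1; funext w; rw [ind_not]; push_cast; ring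

lemma av_avoid_le (hτ : τ.ND) (s : Finset (AddSubgroup E)) (c : (I → E) → ℂ) (p : ℕ) :
    (av fun x => ‖fld τ (fun w => (ind (∀ S ∈ s, ¬ ∀ i, w i ∈ S) : ℝ) * c w) x‖ ^ p) ≤
      (2 ^ s.card) ^ p * av fun x => ‖fld τ c x‖ ^ p := by
  classical
  induction s using Finset.induction_on with
  | empty => simp [ind_pos trivial]
  | insert S s hS ih =>
    have h1 := av_coset_le hτ (fun _ => S) 0
      (fun w => (ind (∀ S ∈ s, ¬ ∀ i, w i ∈ S) : ℝ) * c w) p
    simp only [Pi.zero_apply, sub_zero] at h1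
    simp only [Finset.forall_mem_insert, ind_and, Complex.ofReal_mul, mul_assoc,
      fld_ind_not τ fun w => ∀ i, w i ∈ S]
    refine (av_sub_pow_le ih (h1.trans ih)).trans (le_of_eq ?_)
    rw [Finset.card_insert_of_notMem hS]; ring

/-- the generating part -/
lemma av_gen_le (hτ : τ.ND) (c : (I → E) → ℂ) (p : ℕ) :
    (av fun x => ‖fld τ (fun w => (ind (Gen w) : ℝ) * c w) x‖ ^ p) ≤
      (2 ^ Nat.card (AddSubgroup E)) ^ p * av fun x => ‖fld τ c x‖ ^ p := by
  classical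
  let _ := Fintype.ofFinite (AddSubgroup E)
  have e : ∀ w : I → E, Gen w ↔ ∀ S ∈ (Finset.univ : Finset (AddSubgroup E)).erase ⊤,
      ¬ ∀ i, w i ∈ S := fun w => by
    refine ⟨fun h S hS hw => Finset.ne_of_mem_erase hS ?_, fun h => by_contra fun hn =>
      h _ (Finset.mem_erase.2 ⟨hn, Finset.mem_univ _⟩) fun i =>
        AddSubgroup.subset_closure (Set.mem_range_self i)⟩
    rw [eq_top_iff, ← h, AddSubgroup.closure_le]
    rintro _ ⟨i, rfl⟩; exact hw i
  simp only [e]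
  refine (av_avoid_le hτ _ c p).trans (mul_le_mul_of_nonneg_right (pow_le_pow_left₀
    (by positivity) (pow_le_pow_right₀ one_le_two ?_) p) (av_nonneg fun _ => by positivity))
  rw [Nat.card_eq_fintype_card]; exact Finset.card_le_univ _

lemma av_ngen_le (hτ : τ.ND) (c : (I → E) → ℂ) (p : ℕ) :
    (av fun x => ‖fld τ (fun w => (ind (¬ Gen w) : ℝ) * c w) x‖ ^ p) ≤
      (2 ^ (Nat.card (AddSubgroup E) + 1)) ^ p * av fun x => ‖fld τ c x‖ ^ p := by
  simp only [fld_ind_not τ Gen]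
  refine (av_sub_pow_le (le_mul_of_one_le_left (av_nonneg fun _ => by positivity)
    (one_le_pow₀ (one_le_pow₀ one_le_two))) (av_gen_le hτ c p)).trans (le_of_eq ?_)
  ring

lemma CT.gen (hτ : τ.ND) {D : ℕ → ℝ} {c : (I → E) → ℂ} (h : CT D (fld τ c)) :
    CT (fun p => (2 ^ Nat.card (AddSubgroup E)) ^ p * D p)
      (fld τ fun w => (ind (Gen w) : ℝ) * c w) :=
  ct_iff.2 fun p => (av_gen_le hτ c p).trans
    (mul_le_mul_of_nonneg_left (ct_iff.1 h p) (by positivity))

lemma CT.ngen (hτ : τ.ND) {D : ℕ → ℝ} {c : (I → E) → ℂ} (h : CT D (fld τ c)) :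
    CT (fun p => (2 ^ (Nat.card (AddSubgroup E) + 1)) ^ p * D p)
      (fld τ fun w => (ind (¬ Gen w) : ℝ) * c w) :=
  ct_iff.2 fun p => (av_ngen_le hτ c p).trans
    (mul_le_mul_of_nonneg_left (ct_iff.1 h p) (by positivity))

omit [Finite I] in
lemma ph_mem_low (τ : QT E) {w : I → E} (h : ¬ Gen w) : ph τ w ∈ Low (Nat.card E) I :=
  ph_mem_Low (τ.sub (AddSubgroup.closure (Set.range w)))
    (fun i => ⟨w i, AddSubgroup.subset_closure (Set.mem_range_self i)⟩)
    (lt_of_le_of_ne (AddSubgroup.card_le_card_addGroup _)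
      fun e => h (AddSubgroup.eq_top_of_card_eq _ e))

/-- a field without generating labels is low at every fixed shift -/
lemma fld_mem_low (τ : QT E) {c : (I → E) → ℂ} (hc : ∀ w, Gen w → c w = 0) (t : I → E) :
    (fun P => fld τ c (t, P)) ∈ Low (Nat.card E) I := by
  let _ := Fintype.ofFinite (I → E)
  have e : (fun P => fld τ c (t, P)) = ∑ w, (c w * ee (brk τ w t)) • ph τ w := funext fun P => by
    simp only [fld, csm_eq, chi_eq, Finset.sum_apply, Pi.smul_apply, smul_eq_mul, mul_assoc]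
  rw [e]
  refine Submodule.sum_mem _ fun w _ => ?_
  by_cases h : Gen w
  · rw [hc w h, zero_mul, zero_smul]; exact Submodule.zero_mem _
  · exact Submodule.smul_mem _ _ (ph_mem_low τ h)

/-- the non generating energy is seen by the low space at fixed shifts -/
lemma ng_le_pen (hτ : τ.ND) (u : OmE E I → ℂ) :
    ng τ u ≤ av fun t : I → E => pen (Low (Nat.card E) I) fun P => u (t, P) := by
  refine le_trans ?_ (av_mono fun t => le_pen _ _ (fld_mem_low τ
    (c := fun w => (ind (¬ Gen w) : ℝ) * cf τ u w) (fun w hw => by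
      simp [ind_neg (not_not.2 hw)]) t))
  have h1 := ip_fld_ind τ (fun w => ¬ Gen w) u
  rw [ip, cav_prod] at h1
  simp only [n2]
  rw [av_sub, av_mul_left, ← cav_re, av_comm]
  simp only [av_fld_sq hτ, ip]
  rw [h1, av_const, sm_ind_sq fun w => ¬ Gen w, Complex.ofReal_re, ng]
  linarith

end NE
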