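import Pool.Agent.Lib.MP_ecee09_co.NE.ExT
import Pool.Agent.Lib.MP_ecee09_co.NE.ExA
import Pool.Agent.Lib.MP_ecee09_co.NE.FldR

/-! Tame extraction: the average over the coordinate cell, and the operator `XX`. -/

namespace NE

open SD
open ComplexConjugate Polynomial

variable {K L : Type} {ι : L → K}

lemma ow_lp (hι : Function.Injective ι) (P : Om K) (Q : Om L) (i : L) :
    ow P (crd ι) (Q + xlp i) = ow P (crd ι) Q + xlp (ι i) := by
  funext c
  rw [Pi.add_apply]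
  cases hc : lab2 (crd ι) c with
  | none =>
    have : c ≠ s(ι i, ι i) := fun e => by
      rw [e, lab2_some (crd_apply hι i) (crd_apply hι i)] at hc; cases hc
    rw [ow_of_none hc, ow_of_none hc, xlp_of_ne this, add_zero]
  | some d =>
    rw [ow_of_some hc, ow_of_some hc, Pi.add_apply, ← (lab2_crd_eq_some hι).1 hc]
    by_cases h : d = s(i, i)
    · rw [h, xlp_self, Sym2.map_mk, xlp_self]
    · rw [xlp_of_ne h, xlp_of_ne fun e => h (Sym2.map.injective hι (e.trans (Sym2.map_mk ι i i).symm))]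

variable [Finite L]

/-- flip a random loop -/
noncomputable def YY (ι : L → K) : Op K := (1 / 2 : ℂ) • (Tf 0 ι + Tf 1 ι)

lemma YY_apply' (g : Om K → ℂ) (P : Om K) : YY ι g P = 1 / 2 * (Tf 0 ι g P + Tf 1 ι g P) := rfl

lemma YY_apply (g : Om K → ℂ) (P : Om K) : YY ι g P = cav fun i => g (P + xlp (ι i)) := by
  rw [YY_apply', Tf_apply, Tf_apply, ← cav_add, ← cav_mul_left]
  refine cav_congr fun i => ?_
  rcases F_cases (P s(ι i, ι i)) with h | h
  · rw [ind_pos h, ind_neg (by rw [h]; decide)]; push_cast; ring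
  · rw [ind_pos h, ind_neg (by rw [h]; decide)]; push_cast; ring

lemma AK_ow (g : Om K → ℂ) (P : Om K) (Q : Om L) : AK ι g (ow P (crd ι) Q) = AK ι g P := by
  simp only [AK_apply, ow_ow]

lemma AK_const (c : ℂ) : AK ι (fun _ => c) = fun _ => c := funext fun _ => cav_const c

lemma AK_YY [Nonempty L] (hι : Function.Injective ι) (g : Om K → ℂ) : AK ι (YY ι g) = AK ι g := by
  funext P
  simp only [AK_apply, YY_apply, ← ow_lp hι]
  rw [cav_comm, cav_congr fun i => cav_add_right (fun Q => g (ow P (crd ι) Q)) (xlp i), cav_const]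

lemma AK_YY_pow [Nonempty L] (hι : Function.Injective ι) (r : ℕ) (g : Om K → ℂ) :
    AK ι ((YY ι ^ r) g) = AK ι g := by
  induction r with
  | zero => rfl
  | succ r ih => rw [pow_succ', Module.End.mul_apply, AK_YY hι, ih]

variable [Finite K]

lemma n2_AK (hι : Function.Injective ι) (g : Om K → ℂ) : n2 (AK ι g) ≤ n2 g := by
  refine le_trans (av_mono fun P => norm_cav_sq_le _) ?_
  exact (av_ow_crd hι fun P => ‖g P‖ ^ 2).le

lemma n2_sub_le {α : Type} [Finite α] (f g : α → ℂ) :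
    n2 (fun x => f x - g x) ≤ 2 * n2 f + 2 * n2 g := by
  have := n2_add_le f fun x => (-1) * g x
  rw [n2_mul_left] at this
  simpa [sub_eq_add_neg] using this

lemma n2_one_sub_AK (hι : Function.Injective ι) (g : Om K → ℂ) :
    n2 ((1 - AK ι) g) ≤ 4 * n2 g := by
  have := n2_sub_le g (AK ι g)
  have h : n2 ((1 - AK ι) g) = n2 fun x => g x - AK ι g x := rfl
  linarith [n2_AK hι g]

lemma n2_YY_sub (g : Om K → ℂ) (a b : ℂ) : n2 (fun P => YY ι g P - (a + b) / 2 * g P) ≤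
    (n2 (fun P => Tf 0 ι g P - a * g P) + n2 fun P => Tf 1 ι g P - b * g P) / 2 := by
  have h := n2_add_le (fun P => Tf 0 ι g P - a * g P) fun P => Tf 1 ι g P - b * g P
  have e : (fun P => YY ι g P - (a + b) / 2 * g P) =
      fun P => 1 / 2 * ((Tf 0 ι g P - a * g P) + (Tf 1 ι g P - b * g P)) := by
    funext P; rw [YY_apply']; ring
  rw [e, n2_mul_left]
  norm_num
  linarith

lemma n2_YY_le (g : Om K → ℂ) : n2 (YY ι g) ≤ (n2 (Tf 0 ι g) + n2 (Tf 1 ι g)) / 2 := by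
  simpa using n2_YY_sub (ι := ι) g 0 0

lemma n2_YY (g : Om K → ℂ) : n2 (YY ι g) ≤ 4 * n2 g := by
  linarith [n2_YY_le (ι := ι) g, n2_Tf 0 ι g, n2_Tf 1 ι g]

lemma AK_rest [Nonempty L] (hι : Function.Injective ι) {J : Type} [Finite J]
    (φ : J → Om K → ℂ) {ε : ℝ} (hε : 0 ≤ ε)
    (hF : FillS ε fun P P' => csm fun j => φ j P * conj (φ j P'))
    (hd : ∀ P, sm (fun j => ‖φ j P‖ ^ 2) ≤ 2) :
    sm (fun j => n2 (AK ι (φ j))) ≤ 4 * ε + 8 / Nat.card L := by
  have h : sm (fun j => n2 (AK ι (φ j))) ≤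
      sm fun j => (n2 (Tf 0 ι (φ j)) + n2 (Tf 1 ι (φ j))) / 2 := sm_mono fun j => by
    rw [← AK_YY hι]; exact (n2_AK hι _).trans (n2_YY_le _)
  rw [sm_div, sm_add] at h
  linarith [rest 0 hι φ hε hF hd, rest 1 hι φ hε hF hd]

lemma n2_XX_le (g : Om K → ℂ) : n2 (XX K g) ≤ 4 * n2 (Tf 0 (id : K → K) g) := n2_Tf 1 id _

lemma n2_XX (g : Om K → ℂ) : n2 (XX K g) ≤ 16 * n2 g := by
  linarith [n2_XX_le g, n2_Tf 0 (id : K → K) g]

lemma XX_rest [Nonempty K] {J : Type} [Finite J] (φ : J → Om K → ℂ) {ε : ℝ} (hε : 0 ≤ ε)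
    (hF : FillS ε fun P P' => csm fun j => φ j P * conj (φ j P'))
    (hd : ∀ P, sm (fun j => ‖φ j P‖ ^ 2) ≤ 2) :
    sm (fun j => n2 (XX K (φ j))) ≤ 16 * ε + 32 * (1 / Nat.card K) := by
  have h := sm_mono fun j => n2_XX_le (φ j)
  rw [sm_mul_left] at h
  have h2 := rest 0 (ι := (id : K → K)) Function.injective_id φ hε hF hd
  rw [div_eq_mul_one_div] at h2
  linarith

variable {E : Type} [AddCommGroup E] [Finite E] {τ : QT E}

lemma gv_zero (τ : QT E) : gv τ 0 = gs τ := if_pos rfl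

lemma gv_one (τ : QT E) : gv τ 1 = conj (gs τ) := by
  rw [gs, conj_cav]; exact if_neg (by decide)

lemma n2_ph (τ : QT E) (w : K → E) : n2 (ph τ w) = 1 := by simp [n2, norm_ph, av_const]

lemma XX_eig [Nonempty K] (hτ : τ.ND) :
    av (fun w : K → E => n2 fun P => XX K (ph τ w) P - 1 / (Nat.card E : ℂ) * ph τ w P) ≤
      90 * (1 / Nat.card K) := by
  have e : (1 / (Nat.card E : ℂ)) = gv τ 0 * gv τ 1 := by
    rw [gv_zero, gv_one, mul_conj'', hτ.norm_gs]; simp
  have h : ∀ g : Om K → ℂ, n2 (fun P => XX K g P - gv τ 0 * gv τ 1 * g P) ≤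
      8 * n2 (fun P => Tf 0 (id : K → K) g P - gv τ 0 * g P) +
        2 * n2 fun P => Tf 1 (id : K → K) g P - gv τ 1 * g P := fun g => by
    have h1 := n2_add_le (Tf 1 (id : K → K) (Tf 0 (id : K → K) g - gv τ 0 • g))
      fun P => gv τ 0 * (Tf 1 (id : K → K) g P - gv τ 1 * g P)
    have h2 : n2 (Tf 1 (id : K → K) (Tf 0 (id : K → K) g - gv τ 0 • g)) ≤
      4 * n2 fun P => Tf 0 (id : K → K) g P - gv τ 0 * g P := n2_Tf 1 id _
    have h3 := mul_le_of_le_one_left (n2_nonneg fun P => Tf 1 (id : K → K) g P - gv τ 1 * g P)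
      (pow_le_one₀ (n := 2) (norm_nonneg _) (norm_gv_le τ 0))
    rw [n2_mul_left] at h1
    have e2 : (fun P => XX K g P - gv τ 0 * gv τ 1 * g P) = fun P =>
        Tf 1 (id : K → K) (Tf 0 (id : K → K) g - gv τ 0 • g) P +
          gv τ 0 * (Tf 1 (id : K → K) g P - gv τ 1 * g P) := by
      funext P
      simp only [XX, Module.End.mul_apply, map_sub, map_smul, Pi.sub_apply, Pi.smul_apply,
        smul_eq_mul]
      ring
    rw [e2]; linarith
  rw [e]
  refine (av_mono fun w => h _).trans ?_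
  rw [av_add, av_mul_left, av_mul_left]
  have h0 := eig τ 0 (ι := (id : K → K)) Function.injective_id
  have h1 := eig τ 1 (ι := (id : K → K)) Function.injective_id
  rw [div_eq_mul_one_div] at h0 h1
  linarith

lemma ph_triv (τ : QT E) (h : Nat.card E = 1) (w : K → E) : ph τ w = fun _ => 1 := by
  have : Subsingleton E := (Nat.card_eq_one_iff_unique.1 h).1
  funext P
  rw [Subsingleton.elim w 0, ph, th_zero_left, ee_zero]

omit [Finite K] [Finite L] in
lemma AK_eig (r : ℕ) : ∃ C : ℝ, 0 ≤ C ∧ ∀ (K L : Type) [Finite K] [Finite L] [Nonempty L]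
    (ι : L → K), Function.Injective ι → ∀ σ : Ty, σ.τ.ND → 2 ≤ Nat.card σ.E →
      av (fun w : K → σ.E => n2 (AK ι (ph σ.τ w))) ≤ 2 * (1 / 2) ^ r + C * (1 / Nat.card L) := by
  obtain ⟨C, hC, h⟩ := poly_n2 (X ^ r) 4
  refine ⟨18 * C, by positivity, fun K L _ _ _ ι hι σ hσ h2 => ?_⟩
  set lam := (gv σ.τ 0 + gv σ.τ 1) / 2 with hl
  have l1 : ‖lam‖ ≤ ‖gs σ.τ‖ := by
    rw [hl, norm_div, gv_zero, gv_one]
    have := norm_add_le (gs σ.τ) (conj (gs σ.τ))
    rw [Complex.norm_conj] at this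
    norm_num; linarith
  have l2 : ‖lam‖ ^ 2 ≤ 1 / 2 := by
    refine (pow_le_pow_left₀ (norm_nonneg _) l1 2).trans ?_
    rw [hσ.norm_gs]
    exact one_div_le_one_div_of_le two_pos (by exact_mod_cast h2)
  have l3 : ‖lam ^ r‖ ^ 2 ≤ (1 / 2) ^ r := by
    rw [norm_pow, ← pow_mul, mul_comm, pow_mul]
    exact pow_le_pow_left₀ (by positivity) l2 r
  have hw : ∀ w : K → σ.E, n2 (AK ι (ph σ.τ w)) ≤ 2 * (1 / 2) ^ r +
      C * (n2 (fun P => Tf 0 ι (ph σ.τ w) P - gv σ.τ 0 * ph σ.τ w P) +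
        n2 fun P => Tf 1 ι (ph σ.τ w) P - gv σ.τ 1 * ph σ.τ w P) := fun w => by
    have h3 := h _ (YY ι) n2_YY lam (l1.trans (norm_gs_le _)) (ph σ.τ w)
    simp only [map_pow, aeval_X, eval_pow, eval_X] at h3
    have h4 := mul_le_mul_of_nonneg_left (n2_YY_sub (ι := ι) (ph σ.τ w) (gv σ.τ 0) (gv σ.τ 1)) hC
    have h5 := n2_add_le (fun P => lam ^ r * ph σ.τ w P)
      fun P => (YY ι ^ r) (ph σ.τ w) P - lam ^ r * ph σ.τ w P
    simp only [add_sub_cancel] at h5
    rw [n2_mul_left, n2_ph] at h5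
    have h6 := n2_AK hι ((YY ι ^ r) (ph σ.τ w))
    rw [AK_YY_pow hι] at h6
    have h7 : n2 ((YY ι ^ r) (ph σ.τ w)) = n2 fun P => (YY ι ^ r) (ph σ.τ w) P := rfl
    rw [← hl] at h4
    linarith
  refine (av_mono hw).trans ?_
  rw [av_add, av_const, av_mul_left, av_add]
  have h0 := eig σ.τ 0 hι
  have h1 := eig σ.τ 1 hι
  rw [div_eq_mul_one_div] at h0 h1
  have := mul_le_mul_of_nonneg_left (add_le_add h0 h1) hC
  linarith

/-- the projection on fields in a coordinate cell -/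
lemma fld_cf_res (hτ : τ.ND) (hι : Function.Injective ι) (u : OmE E K → ℂ) (y : OmE E K) :
    fld τ (cf τ (res u y (crd ι))) = res (Lf τ (AK ι) u) y (crd ι) := by
  have e1 : res (Lf τ (AK ι) u) y (crd ι) =
      res (fld τ fun w => AK ι (tw τ u w) y.2) y (crd ι) := by
    funext z
    simp only [res, Lf, fld, cell, AK_ow, mul_comm]
  rw [e1, res_fld]
  congr 1
  funext v
  have e2 : ∀ (t : L → E) (Q : Om L), res u y (crd ι) (t, Q) = csm fun w =>
      chi τ w (cell y (crd ι) 0) * tw τ u w (ow y.2 (crd ι) Q) * chi τ (wl w (crd ι)) (t, Q) :=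
    fun t Q => by
      have := tw_inv hτ u (cell y (crd ι) (t, Q)).1 (cell y (crd ι) (t, Q)).2
      rw [res, ← this]
      refine csm_congr fun w => ?_
      rw [show ((cell y (crd ι) (t, Q)).1, (cell y (crd ι) (t, Q)).2) = cell y (crd ι) (t, Q)
        from rfl, chi_cell, show (cell y (crd ι) (t, Q)).2 = ow y.2 (crd ι) Q from rfl]
      ring
  rw [cf, ip, cav_prod, cav_comm, rc]
  simp only [e2, ← csm_mul_right, cav_csm_comm, mul_assoc, cav_mul_left, chi_orth hτ,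
    ph_mul_conj, mul_one, cav_mul_right]
  refine csm_congr fun w => ?_
  rw [AK_apply]; ring

end NE
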