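import Pool.Agent.Lib.MP_ecee09_co.NE.CBase

/-! Tame extraction: the operators. -/

namespace NE

open SD (F sm av ind cnt Tame)
open ComplexConjugate

/-- linear operators on functions of a pattern -/
abbrev Op (K : Type) : Type := Module.End ℂ (Om K → ℂ)

section ops
variable {K L : Type}

open Classical in
/-- the pattern with a single loop -/
noncomputable def xlp (i : K) : Om K := Pi.single s(i, i) 1

variable [Finite L]

/-- flip a random loop among the indices `ι i`, seen from the value `s` -/
noncomputable def Tf (s : F) (ι : L → K) : Op K where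
  toFun g P := cav fun i => ((2 * ind (P s(ι i, ι i) = s) : ℝ) : ℂ) * g (P + xlp (ι i))
  map_add' f g := by
    funext P
    simp only [Pi.add_apply, mul_add, cav_add]
  map_smul' c f := by
    funext P
    simp only [Pi.smul_apply, smul_eq_mul, RingHom.id_apply, mul_left_comm _ c, cav_mul_left]

lemma Tf_apply (s : F) (ι : L → K) (g : Om K → ℂ) (P : Om K) : Tf s ι g P =
    cav fun i => ((2 * ind (P s(ι i, ι i) = s) : ℝ) : ℂ) * g (P + xlp (ι i)) := rfl

/-- average over the coordinate cell -/
noncomputable def AK (ι : L → K) : Op K where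
  toFun g P := cav fun Q : Om L => g (ow P (crd ι) Q)
  map_add' f g := by
    funext P
    simp only [Pi.add_apply, cav_add]
  map_smul' c f := by
    funext P
    simp only [Pi.smul_apply, smul_eq_mul, RingHom.id_apply, cav_mul_left]

lemma AK_apply (ι : L → K) (g : Om K → ℂ) (P : Om K) :
    AK ι g P = cav fun Q : Om L => g (ow P (crd ι) Q) := rfl

/-- empty after fill -/
noncomputable def XX (K : Type) [Finite K] : Op K := Tf 1 (id : K → K) * Tf 0 (id : K → K)

/-- the eigenvalue of `Tf s` on the phases of a type -/
noncomputable def gv {E : Type} [AddCommGroup E] (τ : QT E) (s : F) : ℂ :=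
  if s = 0 then cav fun x => ee (τ.q x) else cav fun x => conj (ee (τ.q x))

variable {E : Type} [AddCommGroup E]

/-- an operator acting on all components -/
noncomputable def Lf (τ : QT E) (A : Op K) (u : OmE E K → ℂ) (x : OmE E K) : ℂ :=
  csm fun w => chi τ w x * A (tw τ u w) x.2

/-- sup norm bound for the lifted operator -/
def SUP (τ : QT E) (A : Op K) (B : ℝ) : Prop :=
  ∀ (u : OmE E K → ℂ) (c : ℝ), (∀ x, ‖u x‖ ≤ c) → ∀ x, ‖Lf τ A u x‖ ≤ B * c

end ops

end NE
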