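import Pool.Agent.Lib.MP_ecee09_co.NE.ExD
import Pool.Agent.Lib.MP_ecee09_co.NE.CQT
import Pool.Agent.Lib.MP_ecee09_co.NE.FamB

/-! Tame extraction: quadratic quantities of an operator read off the decomposition. -/

namespace NE

open SD (F sm av ind cnt Tame)
open SD
open ComplexConjugate

variable {K : Type} [Finite K]

/-- the point mass -/
noncomputable def dl (P : Om K) : Om K → ℂ := fun Q => (ind (P = Q) : ℝ)

/-- the quadratic quantity of an operator on a kernel -/
noncomputable def qf (B : Op K) (M : Om K → Om K → ℂ) : ℂ :=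
  cav fun y => csm fun P => csm fun P' => B (dl P) y * conj (B (dl P') y) * M P P'

/-- the size of the matrix of an operator -/
noncomputable def cB (B : Op K) : ℝ := av fun y => (sm fun P => ‖B (dl P) y‖) ^ 2

lemma cB_nonneg (B : Op K) : 0 ≤ cB B := av_nonneg fun _ => sq_nonneg _

lemma op_expand (B : Op K) (g : Om K → ℂ) (y : Om K) :
    B g y = csm fun P => g P * B (dl P) y := by
  let _ := Fintype.ofFinite (Om K)
  have : g = ∑ P, g P • dl P := by
    funext Q
    rw [Finset.sum_apply, ← csm_ind_eq Q g, csm_eq]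
    exact Finset.sum_congr rfl fun P _ => by simp [dl, mul_comm]
  conv_lhs => rw [this]
  rw [map_sum, Finset.sum_apply, csm_eq]
  exact Finset.sum_congr rfl fun P _ => by simp

omit [Finite K] in
lemma qf_congr (B : Op K) {M N : Om K → Om K → ℂ} (h : ∀ P P', M P P' = N P P') :
    qf B M = qf B N := by rw [show M = N from funext fun P => funext (h P)]

lemma qf_one (B : Op K) (g : Om K → ℂ) :
    qf B (fun P P' => g P * conj (g P')) = (n2 (B g) : ℝ) := by
  rw [← ip_self, qf, ip]
  refine cav_congr fun y => ?_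
  rw [op_expand B g y, conj_csm, csm_mul_csm]
  exact csm_congr fun P => csm_congr fun P' => by rw [map_mul]; ring

lemma qf_add (B : Op K) (M N : Om K → Om K → ℂ) :
    qf B (fun P P' => M P P' + N P P') = qf B M + qf B N := by
  simp only [qf, mul_add, csm_add, cav_add]

lemma qf_mul_left (B : Op K) (c : ℂ) (M : Om K → Om K → ℂ) :
    qf B (fun P P' => c * M P P') = c * qf B M := by
  simp only [qf, mul_left_comm _ c, csm_mul_left, cav_mul_left]

lemma qf_sum (B : Op K) {ι : Type} (s : Finset ι) (M : ι → Om K → Om K → ℂ) :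
    qf B (fun P P' => ∑ i ∈ s, M i P P') = ∑ i ∈ s, qf B (M i) := by
  simp only [qf, Finset.mul_sum, csm_sum, cav_sum]

lemma qf_csm (B : Op K) {J : Type} [Finite J] (M : J → Om K → Om K → ℂ) :
    qf B (fun P P' => csm fun j => M j P P') = csm fun j => qf B (M j) := by
  let _ := Fintype.ofFinite J
  simp only [csm_eq (α := J), qf_sum]

lemma qf_cav (B : Op K) {J : Type} [Finite J] (M : J → Om K → Om K → ℂ) :
    qf B (fun P P' => cav fun j => M j P P') = cav fun j => qf B (M j) := by
  simp only [cav_def (α := J), div_eq_inv_mul, qf_mul_left, qf_csm]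

lemma qf_cE {X C Λ : Type} {a : X → Λ → C → X} (A : Fam a) (B : Op K)
    (M : X → Λ → Om K → Om K → ℂ) :
    qf B (fun P P' => A.cE fun x l => M x l P P') = A.cE fun x l => qf B (M x l) := by
  simp only [qf, A.cE_cav, A.cE_csm, A.cE_mul_left]

lemma norm_qf_le (B : Op K) {M : Om K → Om K → ℂ} {ε : ℝ} (h : ∀ P P', ‖M P P'‖ ≤ ε) :
    ‖qf B M‖ ≤ cB B * ε := by
  refine (norm_cav_le _).trans ?_
  rw [cB, ← av_mul_right]
  refine av_mono fun y => (norm_csm_le _).trans ?_
  rw [sq, sm_mul_sm, ← sm_mul_right]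
  refine sm_mono fun P => (norm_csm_le _).trans ?_
  rw [← sm_mul_right]
  refine sm_mono fun P' => ?_
  rw [norm_mul, norm_mul, Complex.norm_conj]
  exact mul_le_mul_of_nonneg_left (h P P') (by positivity)

lemma qf_gram_re (B : Op K) {J : Type} [Finite J] (φ : J → Om K → ℂ) :
    (qf B fun P P' => csm fun j => φ j P * conj (φ j P')).re = sm fun j => n2 (B (φ j)) := by
  rw [qf_csm B fun j P P' => φ j P * conj (φ j P')]
  simp only [qf_one, csm_ofReal, Complex.ofReal_re]

lemma qf_model_re {E : Type} [AddCommGroup E] [Finite E] (B : Op K) (τ : QT E) :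
    qf B (model τ) = (av (fun w : K → E => n2 (B (ph τ w))) : ℝ) := by
  have := qf_cav B fun (w : K → E) P P' => ph τ w P * conj (ph τ w P')
  simp only [qf_one, cav_ofReal] at this
  exact this

lemma model_self {E : Type} [AddCommGroup E] [Finite E] (τ : QT E) (P : Om K) :
    model τ P P = 1 := by
  exact (cav_congr (g := fun _ => 1) fun w : K → E => ee_mul_conj (th τ w P)).trans (cav_const 1)

/-- the quadratic quantity on a decomposed kernel -/
lemma Dec.key {ε : ℝ} {M : Om K → Om K → ℂ} (h : Dec ε M) (h1 : ∀ P, ‖M P P‖ ≤ 1) (hε : ε ≤ 1)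
    (B : Op K) {α β : ℝ} (hα : 0 ≤ α)
    (ha : ∀ σ : Ty, σ.τ.ND → av (fun w : K → σ.E => n2 (B (ph σ.τ w))) ≤ α)
    (hb : ∀ φ : Om K → Om K → ℂ, FillS ε (fun P P' => csm fun j => φ j P * conj (φ j P')) →
      (∀ P, sm (fun j => ‖φ j P‖ ^ 2) ≤ 2) → sm (fun j => n2 (B (φ j))) ≤ β) :
    (qf B M).re ≤ 2 * α + β + cB B * ε := by
  obtain ⟨m, σ, μ, M', hσ, hμ, hM', hF, hR⟩ := h
  obtain ⟨φ, hφ⟩ := hM'.gram
  have hM : M' = fun P P' => csm fun j => φ j P * conj (φ j P') := funext fun P => funext (hφ P)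
  have hd : ∀ P, (M' P P).re = sm fun j => ‖φ j P‖ ^ 2 := fun P => by
    rw [hφ]; simp only [mul_conj'', csm_ofReal, Complex.ofReal_re]
  have hs : ∀ P, ∑ i, μ i + sm (fun j => ‖φ j P‖ ^ 2) ≤ 2 := fun P => by
    have h2 := (Complex.abs_re_le_norm _).trans (hR P P)
    have h3 := (Complex.re_le_norm _).trans (h1 P)
    simp only [model_self, mul_one, ← Complex.ofReal_sum, Complex.sub_re, Complex.ofReal_re,
      hd] at h2
    linarith [(abs_le.1 h2).1]
  have hμ2 : ∑ i, μ i ≤ 2 := by
    have := hs 0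
    linarith [sm_nonneg (f := fun j => ‖φ j 0‖ ^ 2) fun j => by positivity]
  have hβ := hb φ (hM ▸ hF) fun P => by
    linarith [hs P, Finset.sum_nonneg (s := Finset.univ) fun i _ => hμ i]
  have e : qf B M = (∑ i, (μ i : ℂ) * qf B (model (σ i).τ)) + qf B M' +
      qf B fun P P' => M P P' - (∑ i, (μ i : ℂ) * model (σ i).τ P P') - M' P P' := by
    simp only [← qf_mul_left]
    rw [← qf_sum, ← qf_add, ← qf_add]
    exact qf_congr B fun P P' => by ring
  have h4 := (Complex.re_le_norm _).trans (norm_qf_le B hR)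
  have h5 : (qf B M').re ≤ β := by rw [hM, qf_gram_re]; exact hβ
  have h6 : (∑ i, (μ i : ℂ) * qf B (model (σ i).τ)).re ≤ 2 * α := by
    simp only [qf_model_re, ← Complex.ofReal_mul, ← Complex.ofReal_sum, Complex.ofReal_re]
    calc _ ≤ ∑ i, μ i * α :=
          Finset.sum_le_sum fun i _ => mul_le_mul_of_nonneg_left (ha _ (hσ i)) (hμ i)
      _ ≤ 2 * α := by rw [← Finset.sum_mul]; exact mul_le_mul_of_nonneg_right hμ2 hα
  rw [e, Complex.add_re, Complex.add_re]
  linarith

lemma qf_fam {X C Λ E : Type} [AddCommGroup E] [Finite E] {a : X → Λ → C → X} (A : Fam a)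
    (τ : QT E) (u : X → Λ → OmE E K → ℂ) (B : Op K) :
    (qf B fun P P' => A.cE fun x l => gram τ (u x l) P P').re =
      A.E fun x l => sm fun w => n2 (B (tw τ (u x l) w)) := by
  rw [qf_cE A B fun x l => gram τ (u x l), A.cE_re]
  exact A.congr' fun x l => qf_gram_re B _

end NE
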