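import Pool.Agent.Lib.MP_ecee09_co.NE.ExC
import Pool.Agent.Lib.MP_ecee09_co.NE.ExK

/-! Tame extraction: the three quadratic estimates. -/

namespace NE

open SD
open ComplexConjugate Polynomial

lemma ex_key (p : ℂ[X]) : ∃ C : ℝ, 0 ≤ C ∧ ∀ (K : Type) [Finite K] [Nonempty K] (B : Op K),
    (∀ g, n2 (B g) ≤ 4 * n2 g) → ∀ (ε s : ℝ) (M : Om K → Om K → ℂ), 0 ≤ ε → ε ≤ 1 → 0 ≤ s →
    Dec ε M → (∀ P, ‖M P P‖ ≤ 1) →
    (∀ σ : Ty, σ.τ.ND → ‖p.eval (1 / (Nat.card σ.E : ℂ))‖ ^ 2 *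
      av (fun w : K → σ.E => n2 (B (ph σ.τ w))) ≤ s) →
    (∀ φ : Om K → Om K → ℂ, FillS ε (fun P P' => csm fun j => φ j P * conj (φ j P')) →
      (∀ P, sm (fun j => ‖φ j P‖ ^ 2) ≤ 2) →
      ‖p.eval 0‖ ^ 2 * sm (fun j => n2 (B (φ j))) ≤ s) →
    (qf (B * aeval (XX K) p) M).re ≤
      6 * s + C * (1 / Nat.card K + ε) + cB (B * aeval (XX K) p) * ε := by
  obtain ⟨C, hC, h⟩ := poly p 16
  refine ⟨1696 * C, by positivity, fun K _ _ B hB ε s M h0 h1 hs hD hM ha hb => ?_⟩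
  have hk : (0 : ℝ) ≤ 1 / Nat.card K := by positivity
  have pt : ∀ lam : ℂ, ‖lam‖ ≤ 1 → ∀ g, n2 ((B * aeval (XX K) p) g) ≤
      2 * (‖p.eval lam‖ ^ 2 * n2 (B g)) + 8 * C * n2 fun P => XX K g P - lam * g P :=
    fun lam hl g => by
      have h2 : n2 (aeval (XX K) p g - p.eval lam • g) ≤ C * n2 fun P => XX K g P - lam * g P :=
        h _ (XX K) n2_XX lam hl g
      have h3 := hB (aeval (XX K) p g - p.eval lam • g)
      have h4 := n2_add_le (fun P => p.eval lam * B g P) (B (aeval (XX K) p g - p.eval lam • g))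
      have e : (B * aeval (XX K) p) g =
          fun P => p.eval lam * B g P + B (aeval (XX K) p g - p.eval lam • g) P := by
        funext P
        simp only [Module.End.mul_apply, map_sub, map_smul, Pi.sub_apply, Pi.smul_apply,
          smul_eq_mul]
        ring
      rw [n2_mul_left] at h4
      rw [e]; linarith
  have := hD.key hM h1 (B * aeval (XX K) p) (α := 2 * s + 8 * C * (90 * (1 / Nat.card K)))
    (β := 2 * s + 8 * C * (16 * ε + 32 * (1 / Nat.card K))) (by positivity)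
    (fun σ hσ => by
      have hl : ‖(1 / (Nat.card σ.E : ℂ))‖ ≤ 1 := by
        rw [norm_div, norm_one, Complex.norm_natCast, div_le_one card_pos']
        exact_mod_cast Nat.card_pos
      refine (av_mono fun w => pt _ hl _).trans ?_
      rw [av_add, av_mul_left, av_mul_left, av_mul_left]
      have := mul_le_mul_of_nonneg_left (XX_eig (K := K) hσ) (show 0 ≤ 8 * C by positivity)
      linarith [ha σ hσ])
    (fun φ hF hd => by
      refine (sm_mono fun j => pt 0 (by simp) _).trans ?_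
      simp only [zero_mul, sub_zero]
      rw [sm_add, sm_mul_left, sm_mul_left, sm_mul_left]
      have := mul_le_mul_of_nonneg_left (XX_rest φ h0 hF hd) (show 0 ≤ 8 * C by positivity)
      linarith [hb φ hF hd])
  have h5 := mul_nonneg hC h0
  linarith

/-- the quadratic quantity is at most `s` on every well decomposed kernel -/
def ExSmall {K : Type} (B : Op K) (ε0 s : ℝ) : Prop :=
  ∀ (ε : ℝ) (M : Om K → Om K → ℂ), 0 ≤ ε → ε ≤ ε0 → Dec ε M → (∀ P, ‖M P P‖ ≤ 1) →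
    (qf B M).re ≤ s

lemma exists_inv_le (C : ℝ) {δ : ℝ} (hδ : 0 < δ) :
    ∃ k : ℕ, 0 < k ∧ ∀ n : ℕ, k ≤ n → C * (1 / (n : ℝ)) ≤ δ := by
  obtain ⟨k, hk⟩ := exists_nat_ge (C / δ)
  refine ⟨k + 1, k.succ_pos, fun n hn => ?_⟩
  have h1 : (k : ℝ) + 1 ≤ n := by exact_mod_cast hn
  have h0 : (0 : ℝ) ≤ k := Nat.cast_nonneg k
  rw [mul_one_div, div_le_iff₀ (by linarith)]
  rw [div_le_iff₀ hδ] at hk
  nlinarith

lemma ex_lim (p : ℂ[X]) {δ : ℝ} (hδ : 0 < δ) : ∃ k1 : ℕ, ∀ (K : Type) [Finite K],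
    k1 ≤ Nat.card K → ∀ B : Op K, (∀ g, n2 (B g) ≤ 4 * n2 g) → ∀ s ε1 : ℝ, 0 ≤ s → 0 < ε1 →
    (∀ σ : Ty, σ.τ.ND → ‖p.eval (1 / (Nat.card σ.E : ℂ))‖ ^ 2 *
      av (fun w : K → σ.E => n2 (B (ph σ.τ w))) ≤ s) →
    (∀ φ : Om K → Om K → ℂ, FillS ε1 (fun P P' => csm fun j => φ j P * conj (φ j P')) →
      (∀ P, sm (fun j => ‖φ j P‖ ^ 2) ≤ 2) →
      ‖p.eval 0‖ ^ 2 * sm (fun j => n2 (B (φ j))) ≤ s) →
    ∃ ε0 : ℝ, 0 < ε0 ∧ ExSmall (B * aeval (XX K) p) ε0 (6 * s + δ) := by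
  obtain ⟨C, hC, h⟩ := ex_key p
  obtain ⟨k1, hk0, hk⟩ := exists_inv_le C (half_pos hδ)
  refine ⟨k1, fun K _ hK B hB s ε1 hs hε1 ha hb => ?_⟩
  have : Nonempty K := (Nat.card_pos_iff.1 (hk0.trans_le hK)).1
  have hc := cB_nonneg (B * aeval (XX K) p)
  set c := cB (B * aeval (XX K) p) with hcd
  refine ⟨min (min 1 ε1) (δ / 2 / (C + c + 1)), by positivity, fun ε M h0 h1 hD hM => ?_⟩
  simp only [le_min_iff] at h1
  obtain ⟨⟨h1, h2⟩, h3⟩ := h1
  have h4 := h K B hB ε s M h0 h1 hs hD hM ha fun φ hF hd =>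
    hb φ (fun i P P' a b c => (hF i P P' a b c).trans h2) hd
  rw [le_div_iff₀ (by positivity)] at h3
  have h5 := hk _ hK
  rw [← hcd] at h4
  nlinarith

lemma eig_card (σ : Ty) : (1 / (Nat.card σ.E : ℂ) = 1 ∧ Nat.card σ.E = 1) ∨
    (Eig (1 / (Nat.card σ.E : ℂ)) ∧ 2 ≤ Nat.card σ.E) := by
  have h : 0 < Nat.card σ.E := Nat.card_pos
  by_cases h1 : Nat.card σ.E = 1
  · exact Or.inl ⟨by simp [h1], h1⟩
  · exact Or.inr ⟨Or.inr ⟨_, by omega, rfl⟩, by omega⟩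

lemma sm_n2_le {K J : Type} [Finite K] [Finite J] {φ : J → Om K → ℂ} {B : Op K} {b : ℝ}
    (hb : 0 ≤ b) (hB : ∀ g, n2 (B g) ≤ b * n2 g) (hd : ∀ P, sm (fun j => ‖φ j P‖ ^ 2) ≤ 2) :
    sm (fun j => n2 (B (φ j))) ≤ b * 2 := by
  refine (sm_mono fun j => hB _).trans ?_
  rw [sm_mul_left]
  refine mul_le_mul_of_nonneg_left ?_ hb
  simp only [n2]
  rw [← av_sm_comm fun P j => ‖φ j P‖ ^ 2]
  exact av_le_const hd

lemma est_step (j : ℕ) : ∃ k1 : ℕ, ∀ (K : Type) [Finite K], k1 ≤ Nat.card K → ∃ ε0 : ℝ, 0 < ε0 ∧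
    ExSmall (aeval (XX K) (gp (j + 1) - gp j)) ε0 (49 / ((j : ℝ) + 2) ^ j) := by
  have hp : (0 : ℝ) < 1 / ((j : ℝ) + 2) ^ j := by positivity
  obtain ⟨k1, h⟩ := ex_lim (gp (j + 1) - gp j) hp
  refine ⟨k1, fun K _ hK => ?_⟩
  have h4 : (4 : ℝ) / ((j : ℝ) + 2) ^ j = 4 * (1 / ((j : ℝ) + 2) ^ j) := by ring
  obtain ⟨ε0, h0, h1⟩ := h K hK 1 (fun g => by
      have : n2 ((1 : Op K) g) = n2 g := rfl
      linarith [n2_nonneg g]) (8 * (1 / ((j : ℝ) + 2) ^ j)) 1 (by positivity) one_pos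
    (fun σ _ => by
      have := gp_step j ((eig_card σ).imp And.left And.left)
      simp only [Module.End.one_apply, n2_ph, av_const]
      linarith)
    (fun φ _ hd => by
      have h2 := gp_step j (lam := 0) (Or.inr (Or.inl rfl))
      have h3 := sm_n2_le (B := 1) zero_le_one (fun g => (one_mul _).ge) hd
      refine (mul_le_mul h2 h3 (sm_nonneg fun _ => n2_nonneg _) (by positivity)).trans ?_
      linarith)
  rw [one_mul] at h1
  exact ⟨ε0, h0, fun ε M a b c d => (h1 ε M a b c d).trans (le_of_eq (by ring))⟩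

lemma est_out {δ : ℝ} (hδ : 0 < δ) : ∃ M k1 : ℕ, ∀ (K L : Type) [Finite K] [Finite L]
    (ι : L → K), Function.Injective ι → k1 ≤ Nat.card K → ∃ ε0 : ℝ, 0 < ε0 ∧
    ExSmall ((1 - AK ι) * aeval (XX K) (gp M)) ε0 δ := by
  obtain ⟨M, hM⟩ := exists_gp_small (δ := δ / 96) (by positivity)
  obtain ⟨k1, h⟩ := ex_lim (gp M) (half_pos hδ)
  refine ⟨M, k1, fun K L _ _ ι hι hK => ?_⟩
  obtain ⟨ε0, h0, h1⟩ := h K hK (1 - AK ι) (n2_one_sub_AK hι) (δ / 12) 1 (by positivity) one_pos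
    (fun σ _ => by
      rcases eig_card σ with ⟨-, h2⟩ | ⟨h2, -⟩
      · have : ∀ w : K → σ.E, n2 ((1 - AK ι) (ph σ.τ w)) = 0 := fun w => by
          rw [ph_triv _ h2, LinearMap.sub_apply, AK_const, Module.End.one_apply, sub_self]
          exact n2_zero
        simp only [this, av_zero, mul_zero]; positivity
      · have h3 : av (fun w : K → σ.E => n2 ((1 - AK ι) (ph σ.τ w))) ≤ 4 :=
          av_le_const fun w => by simpa only [n2_ph, mul_one] using n2_one_sub_AK hι (ph σ.τ w)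
        refine (mul_le_mul ((gp_eig_sq M h2).trans hM) h3 (av_nonneg fun _ => n2_nonneg _)
          (by positivity)).trans ?_
        linarith)
    (fun φ _ hd => by
      refine (mul_le_mul ((gp_eig_sq M (Or.inl rfl)).trans hM)
        (sm_n2_le (by norm_num) (n2_one_sub_AK hι) hd) (sm_nonneg fun _ => n2_nonneg _)
        (by positivity)).trans ?_
      linarith)
  exact ⟨ε0, h0, fun ε M a b c d => (h1 ε M a b c d).trans (le_of_eq (by ring))⟩

lemma est_in {δ : ℝ} (hδ : 0 < δ) : ∃ k0 : ℕ, ∀ (L : Type) [Finite L], k0 ≤ Nat.card L →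
    ∀ M : ℕ, ∃ k1 : ℕ, ∀ (K : Type) [Finite K] (ι : L → K), Function.Injective ι →
    k1 ≤ Nat.card K → ∃ ε0 : ℝ, 0 < ε0 ∧ ExSmall (AK ι * aeval (XX K) (1 - gp M)) ε0 δ := by
  obtain ⟨r, hr⟩ := exists_pow_lt_of_lt_one (show 0 < δ / 192 by positivity)
    (one_half_lt_one (α := ℝ))
  obtain ⟨C, hC, hA⟩ := AK_eig r
  obtain ⟨k0, hk0, hk⟩ := exists_inv_le (C + 8) (show 0 < δ / 96 by positivity)
  refine ⟨k0, fun L _ hL M => ?_⟩
  have : Nonempty L := (Nat.card_pos_iff.1 (hk0.trans_le hL)).1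
  have hl := hk _ hL
  have hl0 : (0 : ℝ) ≤ 1 / Nat.card L := by positivity
  have hl1 := mul_nonneg hC hl0
  obtain ⟨k1, h⟩ := ex_lim (1 - gp M) (half_pos hδ)
  refine ⟨k1, fun K _ ι hι hK => ?_⟩
  obtain ⟨ε0, h0, h1⟩ := h K hK (AK ι) (fun g => by linarith [n2_AK hι g, n2_nonneg g]) (δ / 12)
    (δ / 384) (by positivity) (by positivity)
    (fun σ hσ => by
      rcases eig_card σ with ⟨h2, -⟩ | ⟨h2, h3⟩
      · rw [h2, eval_sub, gp_one, eval_one, sub_self, norm_zero, zero_pow two_ne_zero, zero_mul]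
        positivity
      · refine (mul_le_mul (gp_compl M h2) (hA K L ι hι σ hσ h3) (av_nonneg fun _ => n2_nonneg _)
          (by norm_num)).trans ?_
        linarith)
    (fun φ hF hd => by
      refine (mul_le_mul (gp_compl M (Or.inl rfl)) (AK_rest hι φ (by positivity) hF hd)
        (sm_nonneg fun _ => n2_nonneg _) (by norm_num)).trans ?_
      rw [div_eq_mul_one_div (8 : ℝ)]
      linarith)
  exact ⟨ε0, h0, fun ε M a b c d => (h1 ε M a b c d).trans (le_of_eq (by ring))⟩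

end NE
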