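import Pool.Agent.Lib.MP_ecee09_co.NE.ExE
import Pool.Agent.Lib.MP_ecee09_co.NE.ExB
import Pool.Agent.Lib.MP_ecee09_co.NE.Stmts

/-! Tame extraction from the inverse step. -/

namespace NE

open SD
open ComplexConjugate Polynomial

lemma exists_pos_le_all (f : ℕ → ℝ) (h : ∀ j, 0 < f j) (M : ℕ) :
    ∃ ε : ℝ, 0 < ε ∧ ∀ j < M, ε ≤ f j := by
  induction M with
  | zero => exact ⟨1, one_pos, fun _ h => absurd h (Nat.not_lt_zero _)⟩
  | succ M ih =>
    obtain ⟨ε, h0, h1⟩ := ih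
    refine ⟨min ε (f M), lt_min h0 (h M), fun j hj => ?_⟩
    rcases Nat.lt_succ_iff_lt_or_eq.1 hj with e | rfl
    · exact (min_le_left _ _).trans (h1 j e)
    · exact min_le_right _ _

lemma est_steps (M : ℕ) : ∃ k1 : ℕ, ∀ (K : Type) [Finite K], k1 ≤ Nat.card K →
    ∃ ε0 : ℝ, 0 < ε0 ∧ ∀ j < M,
      ExSmall (aeval (XX K) (gp (j + 1) - gp j)) ε0 (49 / ((j : ℝ) + 2) ^ j) := by
  choose k hk using est_step
  refine ⟨(Finset.range M).sup k, fun K _ hK => ?_⟩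
  have : ∀ j, ∃ ε0 : ℝ, 0 < ε0 ∧ (j < M →
      ExSmall (aeval (XX K) (gp (j + 1) - gp j)) ε0 (49 / ((j : ℝ) + 2) ^ j)) := fun j => by
    by_cases hj : j < M
    · exact (hk j K ((Finset.le_sup (Finset.mem_range.2 hj)).trans hK)).imp
        fun _ h => ⟨h.1, fun _ => h.2⟩
    · exact ⟨1, one_pos, fun h => absurd h hj⟩
  choose f f0 hf using this
  obtain ⟨ε0, h0, h1⟩ := exists_pos_le_all f f0 M
  exact ⟨ε0, h0, fun j hj ε N a b c d => hf j hj ε N a (b.trans (h1 j hj)) c d⟩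

section
variable {E K L : Type} [AddCommGroup E] [Finite E] [Finite K] [Finite L] {τ : QT E} {ι : L → K}

lemma av_pow_AK (hτ : τ.ND) (hι : Function.Injective ι) (g : OmE E K → ℂ) (p : ℕ) :
    (av fun y => av fun z => ‖fld τ (cf τ (res g y (crd ι))) z‖ ^ p) =
      av fun y => ‖Lf τ (AK ι) g y‖ ^ p := by
  simp only [fld_cf_res hτ hι]
  exact av_cell_crd hι fun y => ‖Lf τ (AK ι) g y‖ ^ p

lemma av_pow_AK_le (hτ : τ.ND) (hι : Function.Injective ι) (g : OmE E K → ℂ) (p : ℕ) :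
    (av fun y => ‖Lf τ (AK ι) g y‖ ^ p) ≤
      ((Nat.card E : ℝ) ^ Nat.card L) ^ p * av fun y => ‖g y‖ ^ p := by
  rw [← av_pow_AK hτ hι, ← av_cell_crd hι fun y => ‖g y‖ ^ p, ← av_mul_left]
  refine av_mono fun y => av_le_const fun z => ?_
  refine (pow_le_pow_left₀ (norm_nonneg _) (norm_fld_cf_le τ _ z) p).trans ?_
  rw [mul_pow]
  refine mul_le_mul_of_nonneg_left ?_ (by positivity)
  refine (pow_le_pow_left₀ (av_nonneg fun _ => norm_nonneg _) (le_abs_self _) p).trans ?_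
  exact (abs_av_pow_le (fun z => ‖res g y (crd ι) z‖) p).trans
    (av_congr fun z => by rw [abs_norm]; rfl).le

lemma av_ip_AK (hτ : τ.ND) (hι : Function.Injective ι) (u g : OmE E K → ℂ) :
    (av fun y => (ip (res u y (crd ι)) (fld τ (cf τ (res g y (crd ι))))).re) =
      (ip u (Lf τ (AK ι) g)).re := by
  simp only [fld_cf_res hτ hι]
  rw [← cav_re]
  exact congrArg _ (cav_cell_crd hι fun y => u y * conj (Lf τ (AK ι) g y))

lemma av_fen_le (hτ : τ.ND) (hι : Function.Injective ι) {u : OmE E K → ℂ} (hu : ∀ x, ‖u x‖ ≤ 1)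
    (A : Op K) {η : ℝ} (hη : 0 < η) :
    (av fun y => fen τ (res u y (crd ι))) ≤
      (av fun y => (ip (res u y (crd ι)) (fld τ (cf τ (res (Lf τ A u) y (crd ι))))).re) +
        (η / 2 + 1 / (2 * η) * n2 (Lf τ (AK ι * (1 - A)) u)) := by
  have e : ∀ y, fen τ (res u y (crd ι)) =
      (ip (res u y (crd ι)) (fld τ (cf τ (res u y (crd ι))))).re := fun y => by
    rw [ip_fld_cf, Complex.ofReal_re]
  have e2 : Lf τ (AK ι * (1 - A)) u = fun y => Lf τ (AK ι) u y - Lf τ (AK ι) (Lf τ A u) y := by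
    funext y; rw [mul_sub, mul_one, Lf_sub, Lf_mul hτ]
  have h1 := two_re_ip_le (fun y => (η : ℂ) * u y) (Lf τ (AK ι * (1 - A)) u)
  rw [ip_mul_left, n2_mul_left, Complex.re_ofReal_mul, Complex.norm_real, Real.norm_eq_abs,
    sq_abs] at h1
  have h2 := mul_le_of_le_one_right (sq_nonneg η) (n2_le_one hu)
  have h3 : (ip u (Lf τ (AK ι * (1 - A)) u)).re =
      (ip u (Lf τ (AK ι) u)).re - (ip u (Lf τ (AK ι) (Lf τ A u))).re := by
    rw [e2, ip_sub_right, Complex.sub_re]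
  simp only [e]
  rw [av_ip_AK hτ hι, av_ip_AK hτ hι, ← sub_le_iff_le_add', ← h3]
  refine le_of_mul_le_mul_left ?_ (show 0 < 2 * η by positivity)
  rw [show 2 * η * (η / 2 + 1 / (2 * η) * n2 (Lf τ (AK ι * (1 - A)) u)) =
    η ^ 2 + n2 (Lf τ (AK ι * (1 - A)) u) by field_simp]
  linarith

end

theorem ext_of (hI : INV) : EXT := by
  intro E _ _ τ hτ
  obtain ⟨R, -, hR⟩ := sup_gp hτ
  obtain ⟨D, hD1, hD⟩ := moments R 49
  obtain ⟨D', hD'⟩ := profile D hD1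
  refine ⟨D', fun η hη => ?_⟩
  obtain ⟨k0, hk0⟩ := est_in (δ := η ^ 2) (by positivity)
  refine ⟨k0, fun K _ hK => ?_⟩
  obtain ⟨δ, hδ, hP⟩ := hD' ((Nat.card E : ℝ) ^ Nat.card K)
  obtain ⟨M, k1, h1⟩ := est_out hδ
  obtain ⟨k2, h2⟩ := hk0 K hK M
  obtain ⟨k3, h3⟩ := est_steps M
  have hc : k1 + k2 + k3 ≤ Nat.card (K ⊕ Fin (k1 + k2 + k3)) := by
    rw [Nat.card_sum, Nat.card_fin]; omega
  have hι : Function.Injective (Sum.inl : K → K ⊕ Fin (k1 + k2 + k3)) := Sum.inl_injective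
  generalize (Sum.inl : K → K ⊕ Fin (k1 + k2 + k3)) = ι at hι
  obtain ⟨ε1, e1, h1⟩ := h1 _ K ι hι (by omega)
  obtain ⟨ε2, e2, h2⟩ := h2 _ ι hι (by omega)
  obtain ⟨ε3, e3, h3⟩ := h3 (K ⊕ Fin (k1 + k2 + k3)) (by omega)
  have e0 : 0 < min (min ε1 ε2) (min ε3 η) := by positivity
  obtain ⟨n0, hn⟩ := hI E τ hτ (K ⊕ Fin (k1 + k2 + k3)) _ e0
  refine ⟨n0, fun I _ hI h hh => ?_⟩
  obtain ⟨A, hj, hDec⟩ := hn I hI h hh
  have hu : ∀ x Φ (y : OmE E (K ⊕ Fin (k1 + k2 + k3))), ‖res h x Φ y‖ ≤ 1 := fun _ _ _ => hh _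
  have tr : ∀ (B : Op (K ⊕ Fin (k1 + k2 + k3))) (ε0 s : ℝ), min (min ε1 ε2) (min ε3 η) ≤ ε0 →
      ExSmall B ε0 s → (A.E fun x Φ => n2 (Lf τ B (res h x Φ))) ≤ s := fun B ε0 s hε hB => by
    have := hB _ _ e0.le hε hDec fun P =>
      A.norm_cE_le_const fun x Φ => norm_gram_le hτ (hu x Φ) P P
    rw [qf_fam] at this
    simpa only [n2_Lf hτ] using this
  have m1 := hD _ _ _ _ _ A M (fun j x Φ => Lf τ (aeval (XX _) (gp j)) (res h x Φ))
    (fun j x Φ y => by simpa only [mul_one] using hR _ j _ 1 (hu x Φ) y)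
    (fun j hj => by
      have := tr _ _ _ ((min_le_right _ _).trans (min_le_left _ _)) (h3 j hj)
      simp only [map_sub] at this
      simpa only [← Lf_sub] using this)
  have m2 := hP _ _ _ _ _ A (fun x Φ => Lf τ (aeval (XX _) (gp M)) (res h x Φ))
    (fun x Φ => Lf τ (AK ι) (Lf τ (aeval (XX _) (gp M)) (res h x Φ))) m1
    (fun p => by
      refine (A.mono fun x Φ => av_pow_AK_le hτ hι _ p).trans ?_
      rw [A.smul]
      exact mul_le_mul_of_nonneg_left (m1 p) (by positivity))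
    (by
      have := tr _ _ _ ((min_le_left _ _).trans (min_le_left _ _)) h1
      simp only [sub_mul, one_mul] at this
      simpa only [← Lf_mul hτ, ← Lf_sub] using this)
  have m3 := tr _ _ _ ((min_le_left _ _).trans (min_le_right _ _)) h2
  obtain ⟨G, hG, g0⟩ := Fam.gcrd (E := E) hι
  obtain ⟨A', hA', j'⟩ := A.gcomp fun _ _ => G
  obtain ⟨c', c1, c2⟩ := Fam.cond_fld τ A (fun x Φ y => (cell x Φ y, lcomp Φ (crd ι)))
    (fun x Φ y => cf τ (res (Lf τ (aeval (XX _) (gp M)) (res h x Φ)) y (crd ι)))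
    fun w => res h w.1 w.2
  refine ⟨A', fun x Φ => c' (x, Φ), ?_, fun p => ?_, ?_⟩
  · rw [g0, A.zero, add_zero] at j'
    exact j'.trans (hj.trans ((min_le_right _ _).trans (min_le_right _ _)))
  · rw [hA']
    simp only [hG]
    refine (c1 p).trans ?_
    simp only [av_pow_AK hτ hι]
    exact m2 p
  · have f1 := fen_mono hτ A' h
    rw [hA'] at f1 ⊢
    simp only [hG, res_lcomp] at f1 c2 ⊢
    have f2 := A.mono fun x Φ => av_fen_le hτ hι (hu x Φ) (aeval (XX _) (gp M)) hη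
    rw [A.add, A.add, A.const, A.smul] at f2
    simp only [map_sub, map_one] at m3
    have f3 := mul_le_mul_of_nonneg_left m3 (show 0 ≤ 1 / (2 * η) by positivity)
    rw [show 1 / (2 * η) * η ^ 2 = η / 2 by field_simp] at f3
    linarith

end NE
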