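import Pool.Agent.Lib.MP_ecee09_co.NE.ExD
import Pool.Agent.Lib.MP_ecee09_co.NE.CQT
import Pool.Agent.Lib.MP_ecee09_co.NE.CellT

/-! Tame extraction: the loop operators on phases and on the rest. -/

namespace NE

open SD
open ComplexConjugate

variable {K L : Type}

lemma xlp_self (i : K) : xlp i s(i, i) = 1 := by simp [xlp]

lemma xlp_of_ne {i : K} {c : Sym2 K} (h : c ≠ s(i, i)) : xlp i c = 0 := by
  simp [xlp, h]

lemma xlp_loop {i j : K} (h : j ≠ i) : xlp i s(j, j) = 0 := xlp_of_ne (by simpa using h)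

lemma xlp_pair (i : K) {k j : K} (h : j ≠ k) : xlp i s(k, j) = 0 :=
  xlp_of_ne fun e => h (by
    rcases Sym2.eq_iff.1 e with ⟨h1, h2⟩ | ⟨h1, h2⟩ <;> exact h2.trans h1.symm)

lemma av_le_of {α : Type} [Finite α] {f : α → ℝ} {c : ℝ} (hc : 0 ≤ c) (h : ∀ x, f x ≤ c) :
    av f ≤ c := by
  cases isEmpty_or_nonempty α with
  | inl h' => simpa [av] using hc
  | inr h' => exact av_le_const h

lemma norm_two_ind (p : Prop) : ‖((2 * ind p : ℝ) : ℂ)‖ ≤ 2 := by
  rw [Complex.norm_real, Real.norm_eq_abs, abs_of_nonneg (by linarith [ind_nonneg p])]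
  linarith [ind_le_one p]

variable [Finite L]

/-- a double average with small entries off the diagonal -/
lemma norm_cav2_le [Nonempty L] (G : L → L → ℂ) {ε c : ℝ} (hε : 0 ≤ ε)
    (h : ∀ i j, i ≠ j → ‖G i j‖ ≤ ε) (hd : ∀ i, ‖G i i‖ ≤ c) :
    ‖cav fun i => cav fun j => G i j‖ ≤ ε + c / Nat.card L := by
  refine (norm_cav_le _).trans (av_le_const fun i => (norm_cav_le _).trans ?_)
  rw [← av_ind_eq i fun _ => c, ← av_const (α := L) ε, ← av_add]
  refine av_mono fun j => ?_
  by_cases e : j = i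
  · rw [ind_pos e, e]; linarith [hd i]
  · rw [ind_neg e]; linarith [h i j (Ne.symm e)]

lemma sq_cav {f : L → ℂ} :
    ((‖cav f‖ ^ 2 : ℝ) : ℂ) = cav fun i => cav fun j => f i * conj (f j) := by
  rw [← mul_conj'', conj_cav, cav_mul_cav]

variable [Finite K]

lemma n2_Tf (s : F) (ι : L → K) (g : Om K → ℂ) : n2 (Tf s ι g) ≤ 4 * n2 g := by
  have h1 : n2 (Tf s ι g) ≤ av fun P => av fun i => 4 * ‖g (P + xlp (ι i))‖ ^ 2 := by
    refine av_mono fun P => (norm_cav_sq_le _).trans (av_mono fun i => ?_)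
    rw [norm_mul, mul_pow]
    refine mul_le_mul_of_nonneg_right ?_ (by positivity)
    have := pow_le_pow_left₀ (norm_nonneg _) (norm_two_ind (P s(ι i, ι i) = s)) 2
    linarith
  refine h1.trans ?_
  rw [av_comm]
  refine av_le_of (by linarith [n2_nonneg g]) fun i => ?_
  rw [av_mul_left, av_add_right (fun P => ‖g P‖ ^ 2)]
  exact le_rfl

lemma rest [Nonempty L] (s : F) {ι : L → K} (hι : Function.Injective ι) {J : Type} [Finite J]
    (φ : J → Om K → ℂ) {ε : ℝ} (hε : 0 ≤ ε)
    (hF : FillS ε fun P P' => csm fun j => φ j P * conj (φ j P'))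
    (hd : ∀ P, sm (fun j => ‖φ j P‖ ^ 2) ≤ 2) :
    sm (fun j => n2 (Tf s ι (φ j))) ≤ 4 * ε + 8 / Nat.card L := by
  simp only [n2]
  rw [← av_sm_comm fun P j => ‖Tf s ι (φ j) P‖ ^ 2]
  refine av_le_const fun P => ?_
  have e : ((sm fun j => ‖Tf s ι (φ j) P‖ ^ 2 : ℝ) : ℂ) = cav fun i => cav fun i' =>
      (((2 * ind (P s(ι i, ι i) = s) : ℝ) : ℂ) * ((2 * ind (P s(ι i', ι i') = s) : ℝ) : ℂ)) *
        csm fun j => φ j (P + xlp (ι i)) * conj (φ j (P + xlp (ι i'))) := by
    rw [← csm_ofReal]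
    simp only [Tf_apply, sq_cav, ← cav_csm_comm, ← csm_mul_left]
    refine cav_congr fun i => cav_congr fun i' => csm_congr fun j => ?_
    rw [map_mul, Complex.conj_ofReal]; ring
  have hb : ∀ (p q : Prop) (z : ℂ) (c : ℝ), 0 ≤ c → (p → q → ‖z‖ ≤ c) →
      ‖(((2 * ind p : ℝ) : ℂ) * ((2 * ind q : ℝ) : ℂ)) * z‖ ≤ 4 * c := fun p q z c hc h => by
    by_cases hp : p
    · by_cases hq : q
      · rw [ind_pos hp, ind_pos hq, norm_mul]
        have := h hp hq
        norm_num; linarith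
      · rw [ind_neg hq]; simpa using hc
    · rw [ind_neg hp]; simpa using hc
  refine (le_abs_self _).trans ?_
  rw [← Real.norm_eq_abs, ← Complex.norm_real, e, show (8 : ℝ) = 4 * 2 by norm_num]
  refine norm_cav2_le _ (by linarith) (fun i i' hi => hb _ _ _ _ hε fun h1 h2 => ?_)
    fun i => hb _ _ _ _ (by norm_num) fun _ _ => ?_
  · have hne : ι i ≠ ι i' := fun e => hi (hι e)
    rcases F_cases s with rfl | rfl
    · refine hF (ι i) _ _ ?_ ?_ fun j hj => ?_
      · rw [Pi.add_apply, h1, xlp_self, zero_add]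
      · rw [Pi.add_apply, h1, xlp_loop hne, add_zero]
      · rw [Pi.add_apply, Pi.add_apply, xlp_pair _ hj, xlp_pair _ hj]
    · refine hF (ι i') _ _ ?_ ?_ fun j hj => ?_
      · rw [Pi.add_apply, h2, xlp_loop hne.symm, add_zero]
      · rw [Pi.add_apply, h2, xlp_self, F_add_self]
      · rw [Pi.add_apply, Pi.add_apply, xlp_pair _ hj, xlp_pair _ hj]
  · simp only [mul_conj'', csm_ofReal, Complex.norm_real, Real.norm_eq_abs]
    rw [abs_of_nonneg (sm_nonneg fun j => by positivity)]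
    exact hd _

variable {E : Type} [AddCommGroup E] (τ : QT E)

/-- the factor picked up by a phase when a loop of value `s` is flipped -/
noncomputable def fv (s : F) (v : E) : ℂ := if s = 0 then ee (τ.q v) else conj (ee (τ.q v))

lemma norm_fv (s : F) (v : E) : ‖fv τ s v‖ = 1 := by unfold fv; split_ifs <;> simp

lemma gv_eq (s : F) : gv τ s = cav (fv τ s) := by
  unfold gv fv; split_ifs <;> rfl

lemma ph_lp (w : K → E) (P : Om K) (i : K) :
    ph τ w (P + xlp i) = ph τ w P * fv τ (P s(i, i)) (w i) := by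
  classical
  have e : P + xlp i = Function.update P s(i, i) (P s(i, i) + 1) := by
    funext c
    by_cases h : c = s(i, i)
    · rw [h, Function.update_self, Pi.add_apply, xlp_self]
    · rw [Function.update_of_ne h, Pi.add_apply, xlp_of_ne h, add_zero]
  have h := th_update τ w P s(i, i) (P s(i, i) + 1)
  rw [← e, cz_self] at h
  have v1 : (1 : F).val = 1 := rfl
  unfold ph fv
  rcases F_cases (P s(i, i)) with h0 | h0
  · rw [h0, zero_add, ZMod.val_zero, v1, zero_smul, add_zero, one_smul] at h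
    rw [if_pos h0, h, ee_add]
  · rw [h0, F_add_self, ZMod.val_zero, v1, zero_smul, add_zero, one_smul] at h
    rw [if_neg (by rw [h0]; decide), ← h, ← ee_sub, add_sub_cancel_right]

variable [Finite E]

lemma norm_gv_le (s : F) : ‖gv τ s‖ ≤ 1 := by
  rw [gv_eq]; exact norm_cav_le_const zero_le_one fun v => (norm_fv τ s v).le

lemma cav_loop (s : F) (i : K) : cav (fun x : OmE E K =>
    ((2 * ind (x.2 s(i, i) = s) : ℝ) : ℂ) * fv τ s (x.1 i) - gv τ s) = 0 := by
  have h1 : cav (fun P : Om K => ((2 * ind (P s(i, i) = s) : ℝ) : ℂ)) = 1 := by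
    rw [cav_surj (fun P : Om K => P s(i, i)) (fun _ _ => rfl) (fun a => ⟨fun _ => a, rfl⟩)
      fun a => ((2 * ind (a = s) : ℝ) : ℂ), cav_ofReal]
    simp only [mul_comm (2 : ℝ)]
    rw [av_ind_eq s fun _ => 2, Nat.card_zmod]; norm_num
  have h2 : cav (fun w : K → E => fv τ s (w i)) = gv τ s := by
    rw [gv_eq]
    exact cav_surj (fun w : K → E => w i) (fun _ _ => rfl) (fun a => ⟨fun _ => a, rfl⟩) _
  rw [cav_sub, cav_const, cav_prod]
  simp only [cav_mul_right, h1, one_mul, h2, sub_self]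

lemma eig [Nonempty L] (s : F) {ι : L → K} (hι : Function.Injective ι) :
    av (fun w : K → E => n2 fun P => Tf s ι (ph τ w) P - gv τ s * ph τ w P) ≤ 9 / Nat.card L := by
  set Z : L → OmE E K → ℂ := fun i x =>
    ((2 * ind (x.2 s(ι i, ι i) = s) : ℝ) : ℂ) * fv τ s (x.1 (ι i)) - gv τ s with hZ
  have e : ∀ (w : K → E) (P : Om K), Tf s ι (ph τ w) P - gv τ s * ph τ w P =
      ph τ w P * cav fun i => Z i (w, P) := fun w P => by
    rw [hZ, cav_sub, cav_const, mul_sub, mul_comm (gv τ s), Tf_apply, ← cav_mul_left]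
    congr 1
    refine cav_congr fun i => ?_
    by_cases h : P s(ι i, ι i) = s
    · simp only [ph_lp, h]; ring
    · simp [ind_neg h]
  have hd : ∀ i, DepE {ι i} {s(ι i, ι i)} (Z i) := fun i x y h1 h2 => by
    simp only [hZ, h1 _ rfl, h2 _ rfl]
  have hn : ∀ i x, ‖Z i x‖ ≤ 3 := fun i x => by
    refine (norm_sub_le _ _).trans ?_
    rw [norm_mul, norm_fv, mul_one]
    linarith [norm_two_ind (x.2 s(ι i, ι i) = s), norm_gv_le τ s]
  simp only [n2, e, norm_mul, norm_ph, one_mul]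
  rw [← av_prod fun x : OmE E K => ‖cav fun i => Z i x‖ ^ 2]
  refine (le_abs_self _).trans ?_
  rw [← Real.norm_eq_abs, ← Complex.norm_real, ← cav_ofReal]
  simp only [sq_cav]
  rw [cav_comm, cav_congr fun i => cav_comm _, ← zero_add ((9 : ℝ) / _)]
  refine norm_cav2_le _ le_rfl (fun i j hij => ?_) fun i => ?_
  · have hne : ι i ≠ ι j := fun e => hij (hι e)
    rw [cav_mul_depE (T := {ι i}) (T' := {ι j}) (S := {s(ι i, ι i)}) (S' := {s(ι j, ι j)})
      (by simpa using hne) (by simpa using hne) (hd i)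
      (g := fun x => conj (Z j x)) fun x y h1 h2 => congrArg _ (hd j x y h1 h2)]
    rw [show cav (Z i) = 0 from cav_loop τ s (ι i), zero_mul, norm_zero]
  · refine norm_cav_le_const (by norm_num) fun x => ?_
    rw [norm_mul, Complex.norm_conj]
    nlinarith [hn i x, norm_nonneg (Z i x)]

end NE
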