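import Pool.Agent.Lib.MP_ecee09_co.NE.Stmts

/-! Finitely many models of bounded order. -/

namespace NE

open ComplexConjugate

section
variable {E : Type} [AddCommGroup E]

theorem fin_q_zero (τ : QT E) : τ.q 0 = 0 := by
  have h := τ.q_add 0 0
  rw [add_zero, map_zero, add_zero] at h
  exact left_eq_add.mp h

theorem fin_q_nsmul (τ : QT E) (x : E) (k : ℕ) :
    2 • τ.q (k • x) + k • τ.be x x = (2 * k) • τ.q x + (k * k) • τ.be x x := by
  induction k with
  | zero => simp [fin_q_zero]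
  | succ k ih =>
    rw [succ_nsmul x, τ.q_add, map_nsmul, AddMonoidHom.nsmul_apply]
    have e : 2 • τ.q (k • x) = (2 * k) • τ.q x + (k * k) • τ.be x x - k • τ.be x x :=
      eq_sub_of_add_eq ih
    rw [nsmul_add, nsmul_add, e]
    generalize τ.q x = a
    generalize τ.be x x = b
    module

theorem fin_be_tors (τ : QT E) (x y : E) : Nat.card E • τ.be x y = 0 := by
  rw [← map_nsmul, card_nsmul_eq_zero', map_zero]

theorem fin_q_tors (τ : QT E) (x : E) : (2 * Nat.card E) • τ.q x = 0 := by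
  have h := fin_q_nsmul τ x (Nat.card E)
  rw [card_nsmul_eq_zero', fin_q_zero, mul_nsmul (τ.be x x), fin_be_tors] at h
  simpa using h.symm

end

theorem fin_cav_equiv {α β : Type} (e : α ≃ β) (f : β → ℂ) : cav (fun x => f (e x)) = cav f := by
  unfold cav
  rw [Nat.card_congr e, finsum_comp_equiv e (f := f)]

theorem fin_model {E E' : Type} [AddCommGroup E] [AddCommGroup E'] (τ : QT E) (τ' : QT E')
    (e : E ≃ E') (hq : ∀ x, τ'.q (e x) = τ.q x) (hb : ∀ x y, τ'.be (e x) (e y) = τ.be x y)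
    {K : Type} (P P' : Om K) : model τ P P' = model τ' P P' := by
  have hc : ∀ (w : K → E) (c : Sym2 K), cz τ' (fun k => e (w k)) c = cz τ w c := by
    intro w c
    induction c using Sym2.ind with
    | _ i j => simp only [cz, Sym2.lift_mk, hq, hb]
  have hp : ∀ (w : K → E) (Q : Om K), ph τ' (fun k => e (w k)) Q = ph τ w Q := by
    intro w Q
    simp only [ph, th, hc]
  unfold model
  rw [← fin_cav_equiv (Equiv.piCongrRight fun _ : K => e)]
  congr 1
  funext w
  exact (congrArg₂ (fun a b => a * conj b) (hp w P) (hp w P')).symm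

/-- the `2 n` torsion of the circle -/
def FinT (n : ℕ) : Type := {x : TT // (2 * (n + 1)) • x = 0}

instance (n : ℕ) : Finite (FinT n) :=
  (AddCircle.finite_torsion (1 : ℝ) (n := 2 * (n + 1)) (by omega)).to_subtype

/-- tables of values -/
def FinD (J : ℕ) : Type :=
  Σ n : Fin J, (Fin (n + 1) → FinT n) × (Fin (n + 1) → Fin (n + 1) → FinT n)

instance (J : ℕ) : Finite (FinD J) := by unfold FinD; infer_instance

def FinR {J : ℕ} (d : FinD J) (σ : Ty) : Prop :=
  σ.τ.ND ∧ ∃ e : Fin (d.1 + 1) ≃ σ.E, (∀ i, σ.τ.q (e i) = (d.2.1 i).1) ∧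
    ∀ i j, σ.τ.be (e i) (e j) = (d.2.2 i j).1

theorem fin_exists (J : ℕ) (σ : Ty) (h : σ.τ.ND) (hJ : Nat.card σ.E ≤ J) :
    ∃ d : FinD J, FinR d σ := by
  have hp : 0 < Nat.card σ.E := Nat.card_pos
  obtain ⟨n, hn⟩ : ∃ n, Nat.card σ.E = n + 1 := ⟨Nat.card σ.E - 1, by omega⟩
  let e : Fin (n + 1) ≃ σ.E := (Finite.equivFinOfCardEq hn).symm
  refine ⟨⟨⟨n, by omega⟩, fun i => ⟨σ.τ.q (e i), ?_⟩, fun i j => ⟨σ.τ.be (e i) (e j), ?_⟩⟩,
    h, e, fun _ => rfl, fun _ _ => rfl⟩
  · have := fin_q_tors σ.τ (e i)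
    rwa [hn] at this
  · have := fin_be_tors σ.τ (e i) (e j)
    rw [hn] at this
    show (2 * (n + 1)) • _ = _
    rw [mul_nsmul', this, nsmul_zero]

theorem fin : FIN := by
  classical
  intro J
  let T : Type := {d : FinD J // ∃ σ, FinR d σ}
  let f : Fin (Nat.card T) ≃ T := (Finite.equivFin T).symm
  refine ⟨Nat.card T, fun i => (f i).2.choose, fun σ' h hJ => ?_⟩
  obtain ⟨d, hd⟩ := fin_exists J σ' h hJ
  refine ⟨f.symm ⟨d, σ', hd⟩, ?_⟩
  have hs := (f (f.symm ⟨d, σ', hd⟩)).2.choose_spec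
  beta_reduce
  generalize (f (f.symm ⟨d, σ', hd⟩)).2.choose = σ at hs ⊢
  rw [Equiv.apply_symm_apply] at hs
  obtain ⟨h1, e, hq, hb⟩ : FinR d σ := hs
  obtain ⟨_, e', hq', hb'⟩ := id hd
  refine ⟨h1, Nat.card_congr (e.symm.trans e'), fun K _ P P' => ?_⟩
  refine fin_model σ.τ σ'.τ (e.symm.trans e') (fun x => ?_) (fun x y => ?_) P P'
  · obtain ⟨i, rfl⟩ := e.surjective x
    simp only [Equiv.trans_apply, Equiv.symm_apply_apply]
    exact (hq' i).trans (hq i).symm
  · obtain ⟨i, rfl⟩ := e.surjective x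
    obtain ⟨j, rfl⟩ := e.surjective y
    simp only [Equiv.trans_apply, Equiv.symm_apply_apply]
    exact (hb' i j).trans (hb i j).symm

end NE
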