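import Pool.Agent.Lib.MP_ecee09_co.NE.GA

/-! A finite part of the reservoir represents all classes. -/

namespace NE

open ComplexConjugate Filter Topology
open scoped InnerProductSpace

section kp
variable {H : Type} [NormedAddCommGroup H] [InnerProductSpace ℂ H] [CompleteSpace H]

theorem bb_kp_mul_kp {N N' : Set (H →L[ℂ] H)} (h : N ⊆ N') : kp N' * kp N = kp N' := by
  have := congrArg star (kp_mul_kp h)
  rwa [star_mul, (kp_proj N).isSelfAdjoint.star_eq, (kp_proj N').isSelfAdjoint.star_eq] at this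

theorem bb_kp_mid {N₀ N₁ N : Set (H →L[ℂ] H)} (h0 : N₀ ⊆ N₁) (h1 : N₁ ⊆ N) (u : H) :
    ‖kp N₁ u - kp N u‖ ≤ ‖kp N₀ u - kp N u‖ := by
  have e : kp N₁ (kp N₀ u - kp N u) = kp N₁ u - kp N u := by
    rw [map_sub]
    show (kp N₁ * kp N₀) u - (kp N₁ * kp N) u = _
    rw [bb_kp_mul_kp h0, kp_mul_kp h1]
  rw [← e]
  exact proj_norm_le (kp_proj _) _

end kp

namespace Sys
variable {κ : Ker} {H : Type} [NormedAddCommGroup H] [InnerProductSpace ℂ H] [CompleteSpace H]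
  (S : Sys κ H)

/-- the sets `y i` are pairwise inequivalent -/
noncomputable def Bt {j : ℕ} (y : Fin j → Finset ℕ) : H →L[ℂ] H :=
  kp {q | ∃ i i', i ≠ i' ∧ q = S.Q (y i) (y i')}

/-- fewer than `j` classes among the finite subsets of `W` -/
noncomputable def Cj (W : Set ℕ) (j : ℕ) : H →L[ℂ] H :=
  kp {B | ∃ y : Fin j → Finset ℕ, (∀ i, (y i : Set ℕ) ⊆ W) ∧ B = S.Bt y}

/-- `y` has no representative inside `R` -/
noncomputable def Ny (y R : Finset ℕ) : H →L[ℂ] H := kp {q | ∃ x, x ⊆ R ∧ q = S.Q y x}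

theorem Cm_eq (m : ℕ) : S.Cm m = S.Cj Aa (m + 1) := rfl

theorem Rep_eq (W : Set ℕ) (R : Finset ℕ) :
    S.Rep W R = kp {B | ∃ y : Finset ℕ, (y : Set ℕ) ⊆ W ∧ B = S.Ny y R} := rfl

theorem Q_mem' {W : Set ℕ} {x y : Finset ℕ} (hx : (x : Set ℕ) ⊆ W) (hy : (y : Set ℕ) ⊆ W) :
    S.Q x y ∈ Alg S.V W := S.alg_mono (Set.union_subset hx hy) (S.Q_mem x y)

theorem Bt_mem {W : Set ℕ} {j : ℕ} {y : Fin j → Finset ℕ} (hy : ∀ i, (y i : Set ℕ) ⊆ W) :
    S.Bt y ∈ Alg S.V W :=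
  S.kp_mem fun _ ⟨i, i', _, e⟩ => e ▸ S.Q_mem' (hy i) (hy i')

theorem Cj_mem (W : Set ℕ) (j : ℕ) : S.Cj W j ∈ Alg S.V W :=
  S.kp_mem fun _ ⟨_, hy, e⟩ => e ▸ S.Bt_mem hy

theorem Ny_mem {W : Set ℕ} {y R : Finset ℕ} (hy : (y : Set ℕ) ⊆ W) (hR : (R : Set ℕ) ⊆ W) :
    S.Ny y R ∈ Alg S.V W :=
  S.kp_mem fun _ ⟨_, hx, e⟩ => e ▸ S.Q_mem' hy ((Finset.coe_subset.2 hx).trans hR)

theorem Rep_mem {W W' : Set ℕ} {R : Finset ℕ} (hW : W ⊆ W') (hR : (R : Set ℕ) ⊆ W') :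
    S.Rep W R ∈ Alg S.V W' :=
  S.kp_mem fun _ ⟨_, hy, e⟩ => e ▸ S.Ny_mem (hy.trans hW) hR

theorem Cm_mem (m : ℕ) : S.Cm m ∈ Alg S.V Aa := S.Cj_mem Aa (m + 1)

theorem Cm_proj (m : ℕ) : IsStarProjection (S.Cm m) := kp_proj _

theorem Rep_proj (W : Set ℕ) (R : Finset ℕ) : IsStarProjection (S.Rep W R) := kp_proj _

theorem Cj_zero (W : Set ℕ) : S.Cj W 0 = 0 := by
  have h1 : S.Bt (fun i : Fin 0 => i.elim0) = 1 := by
    have := kp_mul_eq (N := {q | ∃ i i' : Fin 0, i ≠ i' ∧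
      q = S.Q ((fun i : Fin 0 => (i.elim0 : Finset ℕ)) i)
        ((fun i : Fin 0 => (i.elim0 : Finset ℕ)) i')}) (Y := 1) fun _ ⟨i, _⟩ => i.elim0
    rwa [mul_one] at this
  have h2 : S.Bt (fun i : Fin 0 => i.elim0) * S.Cj W 0 = 0 :=
    mul_kp ⟨_, fun i => i.elim0, rfl⟩
  rwa [h1, one_mul] at h2

theorem Bt_cons {j : ℕ} {x : Fin j → Finset ℕ} {R : Finset ℕ} (hx : ∀ i, x i ⊆ R)
    (y : Finset ℕ) :
    S.Bt (Fin.cons y x : Fin (j + 1) → Finset ℕ) * (S.Ny y R * S.Bt x) = S.Ny y R * S.Bt x := by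
  refine kp_mul_eq ?_
  rintro _ ⟨i, i', hne, rfl⟩
  have a0 : ∀ k, S.Q y (x k) * (S.Ny y R * S.Bt x) = 0 := fun k => by
    rw [← mul_assoc, show S.Q y (x k) * S.Ny y R = 0 from mul_kp ⟨x k, hx k, rfl⟩, zero_mul]
  refine Fin.cases (motive := fun i => i ≠ i' → S.Q ((Fin.cons y x : Fin (j + 1) → Finset ℕ) i)
    ((Fin.cons y x : Fin (j + 1) → Finset ℕ) i') * (S.Ny y R * S.Bt x) = 0) ?_ ?_ i hne
  · refine Fin.cases ?_ ?_ i'
    · intro h; exact absurd rfl h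
    · intro k _
      simpa only [Fin.cons_zero, Fin.cons_succ] using a0 k
  · intro k
    refine Fin.cases ?_ ?_ i'
    · intro _
      simp only [Fin.cons_zero, Fin.cons_succ]
      rw [S.Q_symm]; exact a0 k
    · intro k' h
      simp only [Fin.cons_succ]
      have c : Commute (S.Q (x k) (x k')) (S.Ny y R) :=
        S.alg_comm (S.Q_mem _ _) (S.Ny_mem (W := Set.univ) (Set.subset_univ _) (Set.subset_univ _))
      rw [← mul_assoc, c.eq, mul_assoc, show S.Q (x k) (x k') * S.Bt x = 0 from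
        mul_kp ⟨k, k', fun e => h (e ▸ rfl), rfl⟩, mul_zero]

theorem Cj_key {R : Finset ℕ} (hR : (R : Set ℕ) ⊆ Aa) (j : ℕ) :
    S.Cj R j * (S.Cj Aa (j + 1) * (1 - S.Rep Aa R)) = S.Cj Aa (j + 1) * (1 - S.Rep Aa R) := by
  refine kp_mul_eq ?_
  rintro _ ⟨x, hx, rfl⟩
  have hxA : ∀ i, (x i : Set ℕ) ⊆ Aa := fun i => (hx i).trans hR
  have mB := S.Bt_mem hxA
  have mC := S.Cj_mem Aa (j + 1)
  have h1 : S.Rep Aa R * (S.Bt x * S.Cj Aa (j + 1)) = S.Bt x * S.Cj Aa (j + 1) := by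
    refine kp_mul_eq ?_
    rintro _ ⟨y, hy, rfl⟩
    have hz : ∀ i, (((Fin.cons y x : Fin (j + 1) → Finset ℕ) i : Finset ℕ) : Set ℕ) ⊆ Aa := by
      intro i
      refine Fin.cases ?_ ?_ i
      · simpa only [Fin.cons_zero] using hy
      · intro k; simpa only [Fin.cons_succ] using hxA k
    have c : Commute (S.Bt (Fin.cons y x : Fin (j + 1) → Finset ℕ)) (S.Ny y R * S.Bt x) :=
      S.alg_comm (S.Bt_mem hz) (mul_mem (S.Ny_mem hy hR) mB)
    have h0 : S.Bt (Fin.cons y x : Fin (j + 1) → Finset ℕ) * S.Cj Aa (j + 1) = 0 :=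
      mul_kp ⟨_, hz, rfl⟩
    show S.Ny y R * (S.Bt x * S.Cj Aa (j + 1)) = 0
    rw [← mul_assoc, ← S.Bt_cons (fun i => Finset.coe_subset.1 (hx i)) y, c.eq, mul_assoc, h0,
      mul_zero]
  have c : Commute (S.Bt x * S.Cj Aa (j + 1)) (S.Rep Aa R) :=
    S.alg_comm (mul_mem mB mC) (S.Rep_mem le_rfl hR)
  rw [← mul_assoc, mul_sub, mul_one, c.eq, h1, sub_self]

theorem Cj_fin (j : ℕ) (u : H) {δ : ℝ} (hδ : 0 < δ) :
    ∃ R : Finset ℕ, (R : Set ℕ) ⊆ Aa ∧ ∀ R' : Finset ℕ, R ⊆ R' → (R' : Set ℕ) ⊆ Aa →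
      ‖S.Cj R' j u - S.Cj Aa j u‖ ≤ δ := by
  classical
  obtain ⟨N', h1, h2, h3⟩ := kp_finite
    {B | ∃ y : Fin j → Finset ℕ, (∀ i, (y i : Set ℕ) ⊆ Aa) ∧ B = S.Bt y} u hδ
  have h1' : ∀ B, B ∈ N' → ∃ y : Fin j → Finset ℕ, (∀ i, (y i : Set ℕ) ⊆ Aa) ∧ B = S.Bt y :=
    fun B hB => h1 hB
  choose! y hy hB using h1'
  refine ⟨h2.toFinset.biUnion fun B => Finset.univ.biUnion (y B), ?_, fun R' hR hA => ?_⟩
  · intro a ha
    simp only [Finset.coe_biUnion, Set.mem_iUnion, Set.Finite.coe_toFinset, Finset.mem_coe] at ha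
    obtain ⟨B, hB', i, _, hi⟩ := ha
    exact hy B hB' i hi
  · refine (bb_kp_mid (N₀ := N') ?_ ?_ u).trans h3
    · intro B hB'
      refine ⟨y B, fun i a ha => hR ?_, hB B hB'⟩
      simp only [Finset.mem_biUnion, Set.Finite.mem_toFinset]
      exact ⟨B, hB', i, Finset.mem_univ _, ha⟩
    · rintro _ ⟨z, hz, rfl⟩
      exact ⟨z, fun i => (hz i).trans hA, rfl⟩

end Sys

theorem bb : BB := by
  classical
  intro κ H _ _ _ S m δ hδ
  have hd : 0 < δ / (m + 1) := by positivity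
  choose R h1 h2 using fun j => S.Cj_fin j (S.v ∅) hd
  have hA : (((Finset.range (m + 1)).biUnion R : Finset ℕ) : Set ℕ) ⊆ Aa := by
    intro a ha
    simp only [Finset.coe_biUnion, Set.mem_iUnion] at ha
    obtain ⟨j, _, hj⟩ := ha
    exact h1 j hj
  have h3 : ∀ j < m + 1, ‖S.Cj ((Finset.range (m + 1)).biUnion R : Finset ℕ) j (S.v ∅) -
      S.Cj Aa j (S.v ∅)‖ ≤ δ / (m + 1) := fun j hj =>
    h2 j _ (Finset.subset_biUnion_of_mem R (Finset.mem_range.2 hj)) hA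
  generalize (Finset.range (m + 1)).biUnion R = T at hA h3
  refine ⟨T, hA, ?_⟩
  have hP : IsStarProjection (1 - S.Rep Aa T) := (S.Rep_proj _ _).one_sub
  have mP : 1 - S.Rep Aa T ∈ Alg S.V Aa := sub_mem (one_mem _) (S.Rep_mem le_rfl hA)
  generalize hPe : 1 - S.Rep Aa T = P at hP mP
  have key : ∀ j, j ≤ m + 1 → ‖S.Cj Aa j (P (S.v ∅))‖ ≤ j * (δ / (m + 1)) := by
    intro j
    induction j with
    | zero => intro _; simp [S.Cj_zero]
    | succ j ih =>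
      intro hj
      have k1 : S.Cj T j (S.Cj Aa (j + 1) (P (S.v ∅))) = S.Cj Aa (j + 1) (P (S.v ∅)) := by
        have := congrArg (fun Y : H →L[ℂ] H => Y (S.v ∅)) (S.Cj_key hA j)
        rw [hPe] at this
        exact this
      rw [← k1, S.alg_apply_comm (S.Cj_mem _ _) (S.Cj_mem _ _)]
      refine (proj_norm_le (kp_proj _) _).trans ?_
      have k2 : S.Cj T j (P (S.v ∅)) =
          S.Cj Aa j (P (S.v ∅)) + P (S.Cj T j (S.v ∅) - S.Cj Aa j (S.v ∅)) := by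
        rw [map_sub, S.alg_apply_comm mP (S.Cj_mem _ _), S.alg_apply_comm mP (S.Cj_mem _ _)]
        abel
      rw [k2]
      refine (norm_add_le _ _).trans ?_
      have k3 := (proj_norm_le hP _).trans (h3 j (by omega))
      have k4 := ih (by omega)
      push_cast
      linarith
  have k := key (m + 1) le_rfl
  have e : S.Cm m (S.v ∅) - S.Rep Aa T (S.Cm m (S.v ∅)) = S.Cj Aa (m + 1) (P (S.v ∅)) := by
    rw [← S.alg_apply_comm mP (S.Cj_mem _ _), ← hPe, S.Cm_eq]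
    rfl
  rw [e]
  refine k.trans (le_of_eq ?_)
  push_cast
  field_simp

end NE
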