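import Pool.Agent.Lib.MP_ecee09_co.NE.GNd

/-! The Hilbert space of a kernel. -/

namespace NE

open ComplexConjugate GN
open scoped InnerProductSpace

theorem gns_of (hK : KSD) : GNS := by
  classical
  intro κ
  obtain ⟨H, i1, i2, i3, e, he, tot⟩ := exists_hilbert (K κ) (fun x y => K_conj κ x y) (K_psd κ)
  refine ⟨H, i1, i2, i3, ?_⟩
  have vext : ∀ u w : H, (∀ a, ⟪e a, u⟫_ℂ = ⟪e a, w⟫_ℂ) → u = w := fun u w h =>
    sub_eq_zero.mp (tot _ fun a => by rw [inner_sub_right, h, sub_self])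
  have oext : ∀ A B : H →L[ℂ] H, (∀ a, A (e a) = B (e a)) → A = B := fun A B h =>
    ext_sp e h fun w hw => by rw [tot w hw, map_zero, map_zero]
  have hV : ∀ (f : ℕ ↪ ℕ) (x : Pat), ∃ W : H →L[ℂ] H, Off f x → ∀ a, W (e a) = e (Vs f x a) := by
    intro f x
    by_cases h : Off f x
    · obtain ⟨W, hW, -⟩ := exists_op e (fun a => e (Vs f x a)) fun a b => by
        rw [he, he, K_Vs κ h]
      exact ⟨W, fun _ => hW⟩
    · exact ⟨0, fun h' => absurd h' h⟩
  choose V hV using hV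
  have adj : ∀ (A : H →L[ℂ] H) (u w : H), ⟪u, star A w⟫_ℂ = ⟪A u, w⟫_ℂ := fun A u w => by
    rw [ContinuousLinearMap.star_eq_adjoint, ContinuousLinearMap.adjoint_inner_right]
  have hVt : ∀ {f : ℕ ↪ ℕ} {x : Pat} (h : Off f x) (a : Sy), star (V f x) (e a) = e (Vt h a) :=
    fun h a => vext _ _ fun b => by rw [adj, hV _ _ h, he, he, K_adj κ h]
  have hrel : ∀ (σ : ℕ ↪ ℕ) (a : Sy), e (rel (low σ) a) = e a := fun σ a =>
    vext _ _ fun b => by rw [he, he, K_rel κ (low_inj σ)]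
  have hT : ∀ {f : ℕ ↪ ℕ} {s t : Pat} (hs : Off f s) (_ : Off f t) (a : Sy),
      (star (V f s) * V f t) (e a) = e (Vt hs (Vs f t a)) := fun hs ht a => by
    rw [mul_apply_eq_comp, hV _ _ ht, hVt hs]
  refine ⟨⟨fun P => e (sy P), V, fun U _ j hj P P' => by rw [he, K_sy κ hj],
    fun f x P h => by rw [hV f x h, Vs_sy], fun f x h => ?_, ?_, fun f g x y hx hy => ?_,
    fun f g f' σ s y h1 h2 hs hy => ?_, fun f s t c hs ht hc h1 h2 => ?_,
    fun Y hY c P P' hc h1 h2 => ?_⟩⟩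
  · refine oext _ _ fun a => vext _ _ fun b => ?_
    rw [mul_apply_eq_comp, adj, hV f x h, hV f x h, he, K_Vs κ h,
      one_apply_eq_self, he]
  · refine oext _ _ fun a => ?_
    rw [hV _ _ fun _ h => absurd h (Finset.notMem_empty _), Vs_one, one_apply_eq_self]
  · refine oext _ _ fun a => ?_
    rw [mul_apply_eq_comp, hV f x hx, hV g y hy, hV _ _ (off_comp hx hy), Vs_comp]
  · have hs' : Off f' (pmap σ s) := off_sq (fun i j h => (h2 i j h).imp fun _ => And.left) hs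
    have hy' : Off σ (pmap f' y) := off_sq (fun j i h => (h2 i j h.symm).imp fun _ => And.right) hy
    refine oext _ _ fun a => ?_
    rw [mul_apply_eq_comp, mul_apply_eq_comp, hV _ _ hy', hVt hs', hVt hs,
      hV g y hy, sq_sym h1 h2 hs hs', hrel]
  · have hc' := hs c (Finset.mem_insert_self c s)
    have hs0 : Off f s := fun d hd => hs d (Finset.mem_insert_of_mem hd)
    have ht1 : Off f (insert c t) := fun d hd =>
      (Finset.mem_insert.mp hd).elim (fun h => h ▸ hc') (ht d)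
    refine oext _ _ fun a => vext _ _ fun b => ?_
    rw [mul_apply_eq_comp, mul_apply_eq_comp, adj, adj, hV _ _ hs,
      hV _ _ ht1, hV _ _ hs0, hV _ _ ht, he, he, Vs_insert, Vs_insert,
      K_ins hK κ hc (not_mem_Vs hc' h2 a) (not_mem_Vs hc' h1 b)]
  · let S := {a : Sy // Sym2.map Sum.inl c ∉ a.t}
    have hi : ∀ a b : S, ⟪e (ins c b.1), e (ins c a.1)⟫_ℂ = ⟪e b.1, e a.1⟫_ℂ := fun a b => by
      rw [he, he, K_ins hK κ hc a.2 b.2]
    obtain ⟨W, w1, w2⟩ := exists_op (fun a : S => e a.1) (fun a => e (ins c a.1)) hi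
    have hg : ∀ {f : ℕ ↪ ℕ} {s t : Pat}, Off f s → Off f t →
        star (V f s) * V f t * W = W * (star (V f s) * V f t) := by
      intro f s t hs ht
      refine comm_op w1 w2 (fun a => ⟨⟨_, gen_not_mem hs ht a.2⟩, hT hs ht _, ?_⟩)
        fun a => ⟨⟨_, gen_not_mem ht hs a.2⟩, ?_⟩
      · rw [hT hs ht, gen_ins]
      · rw [star_mul, star_star, hT ht hs]
    have hW : W ∈ StarSubalgebra.centralizer ℂ (Gens V Set.univ) := by
      rw [StarSubalgebra.mem_centralizer_iff]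
      rintro _ ⟨f, s, t, hs, ht, -, rfl⟩
      exact ⟨hg hs ht, by rw [star_mul, star_star]; exact hg ht hs⟩
    have hc := ((StarSubalgebra.mem_centralizer_iff ℂ).mp hY W hW).1
    have e1 := w1 ⟨sy P, fun h => h1 (mem_rt.mp h)⟩
    have e2 := inner_op hi w1 w2 ⟨sy P', fun h => h2 (mem_rt.mp h)⟩ (Y (e (sy P)))
    simp only [ins_sy] at e1 e2
    rw [← e1, ← mul_apply_eq_comp, ← hc, mul_apply_eq_comp, e2]

end NE
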