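import Pool.Agent.Lib.MP_ecee09_co.NE.GBB

/-! Splitting the space into atoms on which the classes form a group. -/

namespace NE

open ComplexConjugate Filter Topology
open scoped InnerProductSpace

/-- an injection with prescribed values on a finite set and prescribed image of an infinite set -/
theorem sp_ext {A B : Set ℕ} (hA : A.Infinite) (hB : B.Infinite) (hB' : Bᶜ.Infinite)
    (R : Finset ℕ) (hR : (R : Set ℕ) ⊆ A) (g : ℕ → ℕ) (hg : Function.Injective g)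
    (hgB : ∀ i ∈ R, g i ∈ B) :
    ∃ f : ℕ ↪ ℕ, (∀ i ∈ R, f i = g i) ∧ f '' A = B := by
  classical
  have i1 : Infinite (A \ (R : Set ℕ) : Set ℕ) := (hA.sdiff R.finite_toSet).to_subtype
  have i2 : Infinite (B \ (R.image g : Finset ℕ) : Set ℕ) :=
    (hB.sdiff (R.image g).finite_toSet).to_subtype
  obtain ⟨e⟩ : Nonempty ((A \ (R : Set ℕ) : Set ℕ) ≃ (B \ (R.image g : Finset ℕ) : Set ℕ)) :=
    nonempty_equiv_of_countable
  let c := hB'.natEmbedding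
  let F : ℕ → ℕ := fun i =>
    if h : i ∈ R then g i else if h' : i ∈ A then (e ⟨i, h', h⟩ : ℕ) else (c i : ℕ)
  have F1 : ∀ i ∈ R, F i = g i := fun i h => dif_pos h
  have F2 : ∀ i (h : i ∉ R) (h' : i ∈ A), F i = (e ⟨i, h', h⟩ : ℕ) := fun i h h' => by
    simp only [F, dif_neg h, dif_pos h']
  have F3 : ∀ i, i ∉ A → F i = (c i : ℕ) := fun i h' => by
    simp only [F, dif_neg (fun h : i ∈ R => h' (hR h)), dif_neg h']
  have G1 : ∀ i ∈ R, F i ∈ B ∧ F i ∈ R.image g := fun i h => by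
    rw [F1 i h]; exact ⟨hgB i h, Finset.mem_image_of_mem g h⟩
  have G2 : ∀ i, i ∉ R → i ∈ A → F i ∈ B ∧ F i ∉ R.image g := fun i h h' => by
    rw [F2 i h h']; exact (e ⟨i, h', h⟩).2
  have G3 : ∀ i, i ∉ A → F i ∉ B := fun i h' => by
    rw [F3 i h']; exact (c i).2
  have GA : ∀ i ∈ A, F i ∈ B := fun i h' => by
    by_cases h : i ∈ R
    · exact (G1 i h).1
    · exact (G2 i h h').1
  refine ⟨⟨F, fun i j hij => ?_⟩, F1, Set.Subset.antisymm ?_ ?_⟩
  · by_cases a : i ∈ A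
    · by_cases b : j ∈ A
      · by_cases a' : i ∈ R
        · by_cases b' : j ∈ R
          · rw [F1 i a', F1 j b'] at hij; exact hg hij
          · exact absurd (hij ▸ (G1 i a').2) (G2 j b' b).2
        · by_cases b' : j ∈ R
          · exact absurd (hij ▸ (G1 j b').2) (G2 i a' a).2
          · rw [F2 i a' a, F2 j b' b] at hij
            exact congrArg Subtype.val (e.injective (Subtype.ext hij))
      · exact absurd (hij ▸ GA i a) (G3 j b)
    · by_cases b : j ∈ A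
      · exact absurd (hij ▸ GA j b) (G3 i a)
      · rw [F3 i a, F3 j b] at hij
        exact c.injective (Subtype.ext hij)
  · rintro _ ⟨i, hi, rfl⟩
    exact GA i hi
  · intro b hb
    by_cases h : b ∈ R.image g
    · obtain ⟨i, hi, rfl⟩ := Finset.mem_image.1 h
      exact ⟨i, hR hi, F1 i hi⟩
    · obtain ⟨⟨i, h1, h2⟩, hi⟩ := e.surjective ⟨b, hb, h⟩
      exact ⟨i, h1, (F2 i h2 h1).trans (congrArg Subtype.val hi)⟩

section kp
variable {H : Type} [NormedAddCommGroup H] [InnerProductSpace ℂ H] [CompleteSpace H]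

/-- intertwining for self-adjoint families given as sets -/
theorem sp_inter {ι : Type} (n n' : ι → H →L[ℂ] H) (W : H →L[ℂ] H) {N N' : Set (H →L[ℂ] H)}
    (hN : N = Set.range n) (hN' : N' = Set.range n') (hn : ∀ i, IsStarProjection (n i))
    (hn' : ∀ i, IsStarProjection (n' i)) (h : ∀ i, n' i * W = W * n i) :
    kp N' * W = W * kp N := by
  subst hN hN'
  refine kp_inter n n' W h fun i => ?_
  have := congrArg star (h i)
  rw [star_mul, star_mul, (hn i).isSelfAdjoint.star_eq, (hn' i).isSelfAdjoint.star_eq] at this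
  exact this.symm

theorem sp_fix {p : H →L[ℂ] H} (hp : IsStarProjection p) {w : H} (h : ‖p w‖ = ‖w‖) : p w = w := by
  have := eq_of_inner (u := p w) (w := w) (z := 1) norm_one h.le
    (by rw [proj_inner_self hp, h, one_mul])
  rwa [one_smul] at this

end kp

namespace Sys
variable {κ : Ker} {H : Type} [NormedAddCommGroup H] [InnerProductSpace ℂ H] [CompleteSpace H]
  (S : Sys κ H)

theorem sp_sub {f : ℕ ↪ ℕ} {W : Set ℕ} {y' : Finset ℕ} (h : (y' : Set ℕ) ⊆ f '' W) :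
    ∃ y : Finset ℕ, (y : Set ℕ) ⊆ W ∧ y.map f = y' := by
  obtain ⟨y, h1, h2⟩ := Finset.subset_set_image_iff.1 h
  exact ⟨y, h1, by rw [Finset.map_eq_image]; exact h2⟩

theorem sp_sub' {f : ℕ ↪ ℕ} {W : Set ℕ} {y : Finset ℕ} (h : (y : Set ℕ) ⊆ W) :
    ((y.map f : Finset ℕ) : Set ℕ) ⊆ f '' W := by
  rw [Finset.coe_map]; exact Set.image_mono h

theorem Ny_V (f : ℕ ↪ ℕ) (y R : Finset ℕ) :
    S.Ny (y.map f) (R.map f) * S.V f ∅ = S.V f ∅ * S.Ny y R := by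
  refine sp_inter (ι := {x : Finset ℕ // x ⊆ R}) (fun x => S.Q y x.1)
    (fun x => S.Q (y.map f) (x.1.map f)) _ ?_ ?_ (fun _ => S.Q_proj _ _) (fun _ => S.Q_proj _ _)
    fun x => S.Q_V (off_empty f) _ _
  · ext q
    exact ⟨fun ⟨x, h, e⟩ => ⟨⟨x, h⟩, e.symm⟩, fun ⟨x, e⟩ => ⟨x.1, x.2, e.symm⟩⟩
  · ext q
    refine ⟨fun ⟨x, h, e⟩ => ?_, fun ⟨x, e⟩ => ⟨_, Finset.map_subset_map.2 x.2, e.symm⟩⟩
    obtain ⟨x', h', rfl⟩ := Finset.subset_map_iff.1 h
    exact ⟨⟨x', h'⟩, e.symm⟩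

theorem Rep_V (f : ℕ ↪ ℕ) (W : Set ℕ) (R : Finset ℕ) :
    S.Rep (f '' W) (R.map f) * S.V f ∅ = S.V f ∅ * S.Rep W R := by
  refine sp_inter (ι := {y : Finset ℕ // (y : Set ℕ) ⊆ W}) (fun y => S.Ny y.1 R)
    (fun y => S.Ny (y.1.map f) (R.map f)) _ ?_ ?_ (fun _ => kp_proj _) (fun _ => kp_proj _)
    fun y => S.Ny_V f _ _
  · ext q
    exact ⟨fun ⟨x, h, e⟩ => ⟨⟨x, h⟩, e.symm⟩, fun ⟨x, e⟩ => ⟨x.1, x.2, e.symm⟩⟩
  · ext q
    refine ⟨fun ⟨x, h, e⟩ => ?_, fun ⟨x, e⟩ => ⟨_, sp_sub' x.2, e.symm⟩⟩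
    obtain ⟨x', h', rfl⟩ := sp_sub h
    exact ⟨⟨x', h'⟩, e.symm⟩

theorem Bt_V (f : ℕ ↪ ℕ) {j : ℕ} (y : Fin j → Finset ℕ) :
    S.Bt (fun i => (y i).map f) * S.V f ∅ = S.V f ∅ * S.Bt y := by
  refine sp_inter (ι := {p : Fin j × Fin j // p.1 ≠ p.2}) (fun p => S.Q (y p.1.1) (y p.1.2))
    (fun p => S.Q ((y p.1.1).map f) ((y p.1.2).map f)) _ ?_ ?_ (fun _ => S.Q_proj _ _)
    (fun _ => S.Q_proj _ _) fun x => S.Q_V (off_empty f) _ _
  · ext q
    exact ⟨fun ⟨i, i', h, e⟩ => ⟨⟨(i, i'), h⟩, e.symm⟩, fun ⟨x, e⟩ => ⟨_, _, x.2, e.symm⟩⟩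
  · ext q
    exact ⟨fun ⟨i, i', h, e⟩ => ⟨⟨(i, i'), h⟩, e.symm⟩, fun ⟨x, e⟩ => ⟨_, _, x.2, e.symm⟩⟩

theorem Cj_V (f : ℕ ↪ ℕ) (W : Set ℕ) (j : ℕ) :
    S.Cj (f '' W) j * S.V f ∅ = S.V f ∅ * S.Cj W j := by
  refine sp_inter (ι := {y : Fin j → Finset ℕ // ∀ i, (y i : Set ℕ) ⊆ W}) (fun y => S.Bt y.1)
    (fun y => S.Bt fun i => (y.1 i).map f) _ ?_ ?_ (fun _ => kp_proj _) (fun _ => kp_proj _)
    fun y => S.Bt_V f _
  · ext q
    exact ⟨fun ⟨x, h, e⟩ => ⟨⟨x, h⟩, e.symm⟩, fun ⟨x, e⟩ => ⟨x.1, x.2, e.symm⟩⟩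
  · ext q
    refine ⟨fun ⟨x, h, e⟩ => ?_, fun ⟨x, e⟩ => ⟨_, fun i => sp_sub' (x.2 i), e.symm⟩⟩
    choose x' h1 h2 using fun i => sp_sub (h i)
    obtain rfl : (fun i => (x' i).map f) = x := funext h2
    exact ⟨⟨x', h1⟩, e.symm⟩

/-- a representative system for the reservoir also represents one more finite set -/
theorem Rep_add {R : Finset ℕ} (hR : (R : Set ℕ) ⊆ Aa) (a : Finset ℕ) :
    S.Ny a R (S.Rep Aa R (S.v ∅)) = 0 := by
  obtain ⟨f, h1, h2⟩ := sp_ext Aa_infinite (Aa_infinite.mono Set.subset_union_left)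
    (compl_Aa_infinite a) R hR id Function.injective_id fun i hi => Or.inl (hR hi)
  have e : R.map f = R := by
    ext i
    simp only [Finset.mem_map]
    refine ⟨fun ⟨j, hj, e⟩ => ?_, fun hi => ⟨i, hi, h1 i hi⟩⟩
    rw [h1 j hj] at e
    exact e ▸ hj
  have k := congrArg (fun Y : H →L[ℂ] H => Y (S.v ∅)) (S.Rep_V f Aa R)
  rw [h2, e] at k
  have k1 : S.Rep (Aa ∪ a) R (S.v ∅) = S.V f ∅ (S.Rep Aa R (S.v ∅)) := by
    have k0 : S.Rep (Aa ∪ a) R (S.V f ∅ (S.v ∅)) = S.V f ∅ (S.Rep Aa R (S.v ∅)) := k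
    rwa [S.V_v0] at k0
  have k2 : S.Rep (Aa ∪ a) R * S.Rep Aa R = S.Rep (Aa ∪ a) R :=
    bb_kp_mul_kp fun _ ⟨y, hy, e⟩ => ⟨y, hy.trans Set.subset_union_left, e⟩
  have k3 : S.Rep (Aa ∪ a) R (S.Rep Aa R (S.v ∅)) = S.Rep Aa R (S.v ∅) := by
    refine sp_fix (S.Rep_proj _ _) ?_
    show ‖(S.Rep (Aa ∪ a) R * S.Rep Aa R) (S.v ∅)‖ = _
    rw [k2, k1, S.norm_V (off_empty f)]
  rw [← k3]
  show (S.Ny a R * S.Rep (Aa ∪ a) R) _ = 0
  rw [show S.Ny a R * S.Rep (Aa ∪ a) R = 0 from mul_kp ⟨a, Set.subset_union_right, rfl⟩]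
  rfl

/-- four disjoint copies -/
theorem sp_copies (m : ℕ) {R : Finset ℕ} (hR : (R : Set ℕ) ⊆ Aa) :
    ∃ T : Fin 4 → Finset ℕ, (∀ l, (T l : Set ℕ) ⊆ Aa) ∧ (∀ l l', l ≠ l' → Disjoint (T l) (T l')) ∧
      ∀ l, ‖S.Cm m (S.v ∅) - S.Rep Aa (T l) (S.Cm m (S.v ∅))‖ =
        ‖S.Cm m (S.v ∅) - S.Rep Aa R (S.Cm m (S.v ∅))‖ := by
  obtain ⟨K, hK⟩ := R.bddAbove
  have hc : Aaᶜ.Infinite := by simpa using compl_Aa_infinite ∅
  have h : ∀ l : Fin 4, ∃ f : ℕ ↪ ℕ, (∀ i ∈ R, f i = i + 2 * (K + 1) * l) ∧ f '' Aa = Aa :=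
    fun l => sp_ext Aa_infinite Aa_infinite hc R hR (fun i => i + 2 * (K + 1) * l)
      (add_left_injective _) fun i hi =>
        Even.add (hR hi) ((even_two_mul _).mul_right _)
  choose f h1 h2 using h
  refine ⟨fun l => R.map (f l), fun l => ?_, fun l l' hl => ?_, fun l => ?_⟩
  · have := sp_sub' (f := f l) hR
    rwa [h2] at this
  · rw [Finset.disjoint_left]
    intro a ha ha'
    obtain ⟨i, hi, e⟩ := Finset.mem_map.1 ha
    obtain ⟨j, hj, e'⟩ := Finset.mem_map.1 ha'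
    rw [h1 l i hi] at e
    rw [h1 l' j hj] at e'
    have bi : i ≤ K := hK hi
    have bj : j ≤ K := hK hj
    apply hl
    apply Fin.ext
    rcases lt_trichotomy (l : ℕ) l' with q | q | q
    · have := Nat.mul_le_mul_left (2 * (K + 1)) (Nat.succ_le_of_lt q)
      rw [Nat.mul_succ] at this
      omega
    · exact q
    · have := Nat.mul_le_mul_left (2 * (K + 1)) (Nat.succ_le_of_lt q)
      rw [Nat.mul_succ] at this
      omega
  · have k1 := S.Cj_V (f l) Aa (m + 1)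
    have k2 := S.Rep_V (f l) Aa R
    rw [h2] at k1 k2
    have k3 : S.V (f l) ∅ (S.Cm m (S.v ∅)) = S.Cm m (S.v ∅) := by
      show (S.V (f l) ∅ * S.Cj Aa (m + 1)) _ = _
      rw [← k1]
      show S.Cj Aa (m + 1) (S.V (f l) ∅ (S.v ∅)) = _
      rw [S.V_v0]; rfl
    have k4 : S.V (f l) ∅ (S.Rep Aa R (S.Cm m (S.v ∅))) =
        S.Rep Aa (R.map (f l)) (S.Cm m (S.v ∅)) := by
      show (S.V (f l) ∅ * S.Rep Aa R) _ = _
      rw [← k2]
      show S.Rep Aa (R.map (f l)) (S.V (f l) ∅ (S.Cm m (S.v ∅))) = _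
      rw [k3]
    rw [← S.norm_V (off_empty (f l)) (S.Cm m (S.v ∅) - S.Rep Aa R (S.Cm m (S.v ∅))), map_sub,
      k3, k4]

/-- an event deciding all relations inside `W` and below the four representative events -/
theorem sp_atom (hG : GRP) {T : Fin 4 → Finset ℕ} {W : Finset ℕ} (hW : (W : Set ℕ) ⊆ Aa)
    (hT : ∀ l, T l ⊆ W) (hd : ∀ l l', l ≠ l' → Disjoint (T l) (T l')) {La : H →L[ℂ] H}
    (hp : IsStarProjection La) (hm : La ∈ Alg S.V Aa) (h0 : La ≠ 0)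
    (hq : ∀ x y, x ⊆ W → y ⊆ W → S.Q x y * La = La ∨ S.Q x y * La = 0)
    (hr : ∀ l, S.Rep Aa (T l) * La = La) :
    ∃ (E : Type) (_ : AddCommGroup E) (_ : Fintype E) (A : Atom S E), A.La = La := by
  have tr : ∀ x y z, S.Q x y * La = La → S.Q y z * La = La → S.Q x z * La = La := by
    intro x y z h1 h2
    have e : S.Q x y * S.Q y z * La = La := by rw [mul_assoc, h2, h1]
    rw [← e, ← mul_assoc, S.Q_trans]
  obtain ⟨E, i1, i2, cl, c1, c2, c3, c4⟩ := hG T W (fun x y => S.Q x y * La = La) hd hT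
    (fun x _ => by rw [S.Q_refl, one_mul]) (fun x y _ _ h => by rw [S.Q_symm]; exact h)
    (fun x y z _ _ _ => tr x y z) (fun x y z _ _ _ h1 h2 => by rw [S.Q_union h1 h2])
    (fun l y hy => by
      by_contra hc
      apply h0
      have a1 : S.Ny y (T l) * La = La := by
        refine kp_mul_eq ?_
        rintro _ ⟨x, hx, rfl⟩
        exact (hq y x hy (hx.trans (hT l))).resolve_left fun h => hc ⟨x, hx, h⟩
      have a2 : S.Ny y (T l) * S.Rep Aa (T l) = 0 :=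
        mul_kp ⟨y, (Finset.coe_subset.2 hy).trans hW, rfl⟩
      rw [← a1, ← hr l, ← mul_assoc, a2, zero_mul])
  choose x x1 x2 using c4
  have xW : ∀ l e, x l e ⊆ W := fun l e => (x1 l e).trans (hT l)
  have cs : ∀ r r' : Fin 3, r ≠ r' → r.castSucc ≠ r'.castSucc := fun r r' h e =>
    h (Fin.castSucc_injective _ e)
  have df : ∀ l l' e e', e ≠ e' → S.Q (x l e) (x l' e') * La = 0 := fun l l' e e' h =>
    (hq _ _ (xW _ _) (xW _ _)).resolve_left fun k =>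
      h (by rw [← x2 l e, ← x2 l' e']; exact (c1 _ _ (xW _ _) (xW _ _)).2 k)
  refine ⟨E, i1, i2, ⟨La, hp, hm, fun r e => x r.castSucc e,
    fun r e => (Finset.coe_subset.2 (xW _ _)).trans hW,
    fun r r' e e' h => (hd _ _ (cs r r' h)).mono (x1 _ _) (x1 _ _),
    fun r r' e => (c1 _ _ (xW _ _) (xW _ _)).1 (by rw [x2, x2]),
    fun r r' e e' h => df _ _ _ _ h,
    (c1 _ _ (xW _ _) (Finset.empty_subset _)).1 (by rw [x2, c2]),
    fun r r' r'' e e' h => (c1 _ _ (Finset.union_subset (xW _ _) (xW _ _)) (xW _ _)).1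
      (by rw [c3 _ _ _ _ (cs r r' h) (x1 _ _) (x1 _ _), x2, x2, x2]),
    fun a _ => ?_⟩, rfl⟩
  show ∑ e, S.Q a (x 0 e) (La (S.v ∅)) = La (S.v ∅)
  have hT0 : (T 0 : Set ℕ) ⊆ Aa := (Finset.coe_subset.2 (hT 0)).trans hW
  have mN := S.Ny_mem (W := Set.univ) (y := a) (R := T 0) (Set.subset_univ _) (Set.subset_univ _)
  have b1 : S.Ny a (T 0) (La (S.v ∅)) = 0 := by
    have e : La (S.v ∅) = La (S.Rep Aa (T 0) (S.v ∅)) := by
      rw [S.alg_apply_comm hm (S.Rep_mem le_rfl hT0)]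
      exact (congrArg (fun Y : H →L[ℂ] H => Y (S.v ∅)) (hr 0)).symm
    rw [e, S.alg_apply_comm mN hm, S.Rep_add hT0, map_zero]
  have b2 : ∀ y z, S.Q y z * La = La → S.Q a y * La = S.Q a z * La := by
    intro y z h
    have c : Commute (S.Q a y) (S.Q a z) := S.alg_comm (S.Q_mem _ _) (S.Q_mem _ _)
    have e1 : S.Q a z * (S.Q a y * La) = S.Q a y * La := by
      rw [← h, ← mul_assoc (S.Q a y), ← mul_assoc, S.Q_trans]
    have e2 : S.Q a y * (S.Q a z * La) = S.Q a z * La := by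
      rw [← h, S.Q_symm y z, ← mul_assoc (S.Q a z), ← mul_assoc, S.Q_trans]
    rw [← e1, ← mul_assoc, ← c.eq, mul_assoc, e2]
  have b3 : ∀ y z, S.Q y z * La = 0 → S.Q a y * (S.Q a z * La) = 0 := by
    intro y z h
    have c : Commute (S.Q y z) (S.Q y a * S.Q a z) :=
      S.alg_comm (R := Set.univ) (R' := Set.univ)
        (S.Q_mem' (Set.subset_univ _) (Set.subset_univ _))
        (mul_mem (S.Q_mem' (Set.subset_univ _) (Set.subset_univ _))
          (S.Q_mem' (Set.subset_univ _) (Set.subset_univ _)))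
    rw [← mul_assoc, S.Q_symm a y, ← S.Q_trans y a z, c.eq, mul_assoc, h, mul_zero]
  have b4 : S.Ny a (T 0) * (La - ∑ e, S.Q a (x 0 e) * La) = La - ∑ e, S.Q a (x 0 e) * La := by
    refine kp_mul_eq ?_
    rintro _ ⟨y, hy, rfl⟩
    have yW := hy.trans (hT 0)
    rw [mul_sub, Finset.mul_sum, Finset.sum_eq_single (cl y), sub_eq_zero]
    · rw [← b2 y _ ((c1 _ _ yW (xW _ _)).1 (x2 _ _).symm), ← mul_assoc,
        (S.Q_proj a y).isIdempotentElem.eq]
    · intro e _ he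
      exact b3 _ _ ((hq _ _ yW (xW _ _)).resolve_left fun k =>
        he (by rw [← x2 0 e]; exact ((c1 _ _ yW (xW _ _)).2 k).symm))
    · intro h; exact absurd (Finset.mem_univ _) h
  have b5 := congrArg (fun Y : H →L[ℂ] H => Y (S.v ∅)) b4
  simp only [ContinuousLinearMap.mul_apply, ContinuousLinearMap.sub_apply,
    ContinuousLinearMap.sum_apply, map_sub, map_sum, b1] at b5
  have b6 : ∀ e, S.Ny a (T 0) (S.Q a (x 0 e) (La (S.v ∅))) = 0 := fun e => by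
    rw [S.alg_apply_comm mN (S.Q_mem _ _), b1, map_zero]
  simp only [b6, Finset.sum_const_zero, sub_self] at b5
  exact (sub_eq_zero.1 b5.symm).symm

end Sys

theorem split_of (hA : AA) (hL : TL) (hB : BB) (hG : GRP) : SPLIT := by
  classical
  intro κ H _ _ _ S ε hε
  have hη : 0 < (ε / 2) ^ 16 / 3 := by positivity
  obtain ⟨m, hm⟩ := exists_nat_one_div_lt hη
  obtain ⟨n', hn'⟩ := (hA κ H S m _ hη).exists
  have hC : IsStarProjection (1 - S.Cm m) := (S.Cm_proj m).one_sub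
  have mC : 1 - S.Cm m ∈ Alg S.V Aa := sub_mem (one_mem _) (S.Cm_mem m)
  have hev := hL κ H S _ hC mC n' _ hη
  obtain ⟨R, hR, hR'⟩ := hB κ H S m (ε / 8) (by positivity)
  obtain ⟨T, t1, t2, t3⟩ := S.sp_copies m hR
  have hW : ((Finset.univ.biUnion T : Finset ℕ) : Set ℕ) ⊆ Aa := by
    intro a ha
    simp only [Finset.coe_biUnion, Set.mem_iUnion] at ha
    obtain ⟨l, _, hl⟩ := ha
    exact t1 l hl
  have hT : ∀ l, T l ⊆ Finset.univ.biUnion T := fun l =>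
    Finset.subset_biUnion_of_mem T (Finset.mem_univ l)
  generalize Finset.univ.biUnion T = W at hW hT
  have mR : ∀ l, S.Rep Aa (T l) ∈ Alg S.V Aa := fun l => S.Rep_mem le_rfl (t1 l)
  have pR : ∀ l, IsStarProjection (S.Rep Aa (T l)) := fun l => S.Rep_proj _ _
  let Z : H →L[ℂ] H := kp (Set.range fun l => 1 - S.Rep Aa (T l))
  have pZ : IsStarProjection Z := kp_proj _
  have mZ : Z ∈ Alg S.V Aa := S.kp_mem fun _ ⟨l, e⟩ => e ▸ sub_mem (one_mem _) (mR l)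
  have rZ : ∀ l, S.Rep Aa (T l) * Z = Z := fun l => by
    have : (1 - S.Rep Aa (T l)) * Z = 0 := mul_kp ⟨l, rfl⟩
    rw [sub_mul, one_mul, sub_eq_zero] at this
    exact this.symm
  have nZ : ∀ u : H, ‖u - Z u‖ ≤ ∑ l, ‖u - S.Rep Aa (T l) u‖ := by
    intro u
    have c : ∀ l l' w, S.Rep Aa (T l) (S.Rep Aa (T l') w) = S.Rep Aa (T l') (S.Rep Aa (T l) w) :=
      fun l l' w => S.alg_apply_comm (mR l) (mR l') w
    have id : ∀ l w, S.Rep Aa (T l) (S.Rep Aa (T l) w) = S.Rep Aa (T l) w := fun l w =>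
      congrArg (fun Y : H →L[ℂ] H => Y w) (pR l).isIdempotentElem.eq
    set w := S.Rep Aa (T 0) (S.Rep Aa (T 1) (S.Rep Aa (T 2) (S.Rep Aa (T 3) u))) with hw
    have fx : Z w = w := by
      refine (kp_apply_eq_iff _ _).2 ?_
      rintro _ ⟨l, rfl⟩
      show w - S.Rep Aa (T l) w = 0
      rw [sub_eq_zero, hw]
      fin_cases l
      · exact (id 0 _).symm
      · show _ = S.Rep Aa (T 1) _
        rw [c 1 0, id]
      · show _ = S.Rep Aa (T 2) _
        rw [c 2 0, c 2 1, id]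
      · show _ = S.Rep Aa (T 3) _
        rw [c 3 0, c 3 1, c 3 2, id]
    have e1 : u - Z u = (1 - Z) (u - w) := by
      show _ = (u - w) - Z (u - w)
      rw [map_sub, fx]; abel
    have e2 : u - w = (u - S.Rep Aa (T 0) u) + S.Rep Aa (T 0) ((u - S.Rep Aa (T 1) u) +
        S.Rep Aa (T 1) ((u - S.Rep Aa (T 2) u) + S.Rep Aa (T 2) (u - S.Rep Aa (T 3) u))) := by
      simp only [hw, map_add, map_sub]; abel
    have st : ∀ (l : Fin 4) (a b : H), ‖a + S.Rep Aa (T l) b‖ ≤ ‖a‖ + ‖b‖ := fun l a b =>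
      (norm_add_le _ _).trans (add_le_add le_rfl (proj_norm_le (pR l) b))
    rw [e1, Fin.sum_univ_four]
    refine (proj_norm_le pZ.one_sub _).trans ?_
    rw [e2]
    have s1 := st 0 (u - S.Rep Aa (T 0) u) ((u - S.Rep Aa (T 1) u) +
        S.Rep Aa (T 1) ((u - S.Rep Aa (T 2) u) + S.Rep Aa (T 2) (u - S.Rep Aa (T 3) u)))
    have s2 := st 1 (u - S.Rep Aa (T 1) u)
      ((u - S.Rep Aa (T 2) u) + S.Rep Aa (T 2) (u - S.Rep Aa (T 3) u))
    have s3 := st 2 (u - S.Rep Aa (T 2) u) (u - S.Rep Aa (T 3) u)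
    linarith
  let p : {x // x ∈ W.powerset} × {x // x ∈ W.powerset} → H →L[ℂ] H := fun i => S.Q i.1.1 i.2.1
  have mp : ∀ i, p i ∈ Alg S.V Aa := fun i =>
    S.Q_mem' ((Finset.coe_subset.2 (Finset.mem_powerset.1 i.1.2)).trans hW)
      ((Finset.coe_subset.2 (Finset.mem_powerset.1 i.2.2)).trans hW)
  have pp : ∀ i, IsStarProjection (p i) := fun i => S.Q_proj _ _
  have ma : ∀ σ, atm p σ ∈ Alg S.V Aa := fun σ => S.kp_mem fun _ ⟨i, e⟩ => by
    rw [← e]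
    show (if σ i then 1 - p i else p i) ∈ _
    split_ifs
    · exact sub_mem (one_mem _) (mp i)
    · exact mp i
  have at1 : ∀ σ : {σ // atm p σ * Z ≠ 0}, ∃ (E : Type) (_ : AddCommGroup E) (_ : Fintype E)
      (A : Atom S E), A.La = atm p σ.1 * Z := by
    intro σ
    refine S.sp_atom hG hW hT t2 ((kp_proj _).mul pZ (S.alg_comm (ma _) mZ))
      (mul_mem (ma _) mZ) σ.2 (fun x y hx hy => ?_) fun l => ?_
    · have k := mul_atm p σ.1 (⟨x, Finset.mem_powerset.2 hx⟩, ⟨y, Finset.mem_powerset.2 hy⟩)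
      rw [← mul_assoc]
      change p (⟨x, Finset.mem_powerset.2 hx⟩, ⟨y, Finset.mem_powerset.2 hy⟩) * _ * Z = _ ∨
        p (⟨x, Finset.mem_powerset.2 hx⟩, ⟨y, Finset.mem_powerset.2 hy⟩) * _ * Z = 0
      rw [k]
      split_ifs
      · exact Or.inl rfl
      · exact Or.inr (zero_mul _)
    · rw [← mul_assoc, (S.alg_comm (mR l) (ma _)).eq, mul_assoc, rZ]
  choose E i1 i2 A hA' using at1
  let q := (Fintype.equivFin {σ // atm p σ * Z ≠ 0}).symm
  refine ⟨_, fun i => E (q i), fun i => i1 (q i), fun i => i2 (q i), fun i => A (q i),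
    fun i j hij => ?_, ?_⟩
  · rw [hA', hA', mul_assoc, ← mul_assoc Z, (S.alg_comm mZ (ma _)).eq, ← mul_assoc, ← mul_assoc,
      atm_mul_atm p pp fun e => hij (q.injective (Subtype.ext e)), zero_mul, zero_mul]
  have e : ∑ i, (A (q i)).La (S.v ∅) = Z (S.v ∅) := by
    simp only [hA']
    rw [Equiv.sum_comp q fun σ => (atm p σ.1 * Z) (S.v ∅),
      ← Finset.sum_subtype (Finset.univ.filter fun σ => atm p σ * Z ≠ 0) (by simp)
        fun σ => (atm p σ * Z) (S.v ∅), Finset.sum_filter_of_ne, ← ContinuousLinearMap.sum_apply,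
      ← Finset.sum_mul, sum_atm p pp fun i j => S.alg_comm (mp i) (mp j), one_mul]
    intro σ _ h h'
    exact h (by rw [h']; rfl)
  rw [e]
  filter_upwards [hev] with n hn
  have mY : 1 - Z ∈ Alg S.V Aa := sub_mem (one_mem _) mZ
  have k1 : ‖S.Tb n ((1 - S.Cm m) (S.v ∅))‖ ≤ ε / 2 := by
    refine le_of_pow_le_pow_left₀ (n := 16) (by norm_num) (by positivity) ?_
    linarith
  have k2 : S.v ∅ - Z (S.v ∅) =
      (1 - Z) ((1 - S.Cm m) (S.v ∅)) + (S.Cm m (S.v ∅) - Z (S.Cm m (S.v ∅))) := by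
    show _ = (S.v ∅ - S.Cm m (S.v ∅)) - Z (S.v ∅ - S.Cm m (S.v ∅)) + _
    rw [map_sub]; abel
  have k3 : ‖S.Cm m (S.v ∅) - Z (S.Cm m (S.v ∅))‖ ≤ ε / 2 := by
    refine (nZ _).trans ?_
    simp only [t3, Finset.sum_const, Finset.card_univ, Fintype.card_fin, nsmul_eq_mul]
    push_cast
    linarith
  rw [k2, map_add, S.alg_apply_comm (S.Tb_mem n) mY]
  refine (norm_add_le _ _).trans ?_
  have k4 := (proj_norm_le pZ.one_sub _).trans k1
  have k5 := ((S.Tb n).le_of_opNorm_le (S.norm_Tb_le n)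
    (S.Cm m (S.v ∅) - Z (S.Cm m (S.v ∅))))
  linarith

end NE
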