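import Pool.Agent.Lib.MP_ecee09_co.NE.InvA
import Pool.Agent.Lib.MP_ecee09_co.NE.Cells
import Pool.Agent.Lib.MP_ecee09_co.NE.FamB

/-! The inverse step. -/

namespace NE.IV

open SD (F sm av ind cnt Tame)
open ComplexConjugate

variable {E I K U : Type} [AddCommGroup E] {τ : QT E}

lemma cav_equiv {α β : Type} [Finite α] [Finite β] (e : α ≃ β) (f : β → ℂ) :
    cav (fun x => f (e x)) = cav f :=
  Complex.ext (by simp only [cav_re]; exact SD.av_equiv e fun y => (f y).re)
    (by simp only [cav_im]; exact SD.av_equiv e fun y => (f y).im)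

lemma tile [Finite E] [Finite I] [Finite K] {ι : K → I} (h : Function.Injective ι)
    (g : OmE E I → ℂ) : cav (fun x => cav fun y => g (cell x (crd ι) y)) = cav g := by
  have k : ∀ x : OmE E I, (cav fun y => g (cell x (crd ι) y)) =
      cav fun y => g (x + cell 0 (crd ι) y) := fun x => by
    rw [← cav_equiv (Equiv.addLeft (0, pb ι x.2))]
    refine congrArg cav (funext fun y => congrArg g (Prod.ext (by simp [cell]) ?_))
    change ow x.2 (crd ι) (pb ι x.2 + y.2) = x.2 + ow 0 (crd ι) y.2
    rw [← add_zero x.2, ow_add, add_zero, ow_crd_pb h]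
  simp only [k]
  rw [cav_comm]
  exact (congrArg cav (funext fun y => cav_equiv (Equiv.addRight (cell 0 (crd ι) y)) g)).trans
    (cav_const _)

lemma av_hit [Finite U] [Finite I] [Nonempty (U ↪ I)] (u : U) (i : I) :
    av (fun ι : U ↪ I => ind (i = ι u)) = 1 / Nat.card I := by
  classical
  have : Nonempty I := ⟨i⟩
  have h1 : ∀ j, av (fun ι : U ↪ I => ind (j = ι u)) = av fun ι : U ↪ I => ind (i = ι u) := fun j => by
    rw [← SD.av_equiv (Equiv.embeddingCongr (Equiv.refl U) (Equiv.swap i j))]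
    refine SD.av_congr fun ι => SD.ind_congr ?_
    change j = Equiv.swap i j (ι u) ↔ _
    rw [eq_comm, Equiv.swap_apply_eq_iff, Equiv.swap_apply_right, eq_comm]
  have h2 := SD.av_sm_comm fun (ι : U ↪ I) (j : I) => ind (j = ι u)
  simp only [SD.sm_ind_one, SD.av_const, h1, SD.sm_const] at h2
  rw [eq_div_iff (SD.card_pos' (α := I)).ne', mul_comm, ← h2]

lemma meet [Finite U] [Finite I] [Nonempty (U ↪ I)] (ι : U ↪ I) :
    av (fun ι' : U ↪ I => ind (∃ i, i ∈ Set.range ι ∧ i ∈ Set.range ι')) ≤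
      Nat.card U ^ 2 / Nat.card I := by
  refine (SD.av_mono (g := fun ι' : U ↪ I => sm fun p : U × U => ind (ι p.1 = ι' p.2))
    fun ι' => (SD.ind_mono ?_).trans (SD.ind_exists_le _)).trans_eq ?_
  · rintro ⟨_, ⟨a, rfl⟩, b, e⟩
    exact ⟨(a, b), e.symm⟩
  · rw [SD.av_sm_comm]
    simp only [av_hit, SD.sm_const, Nat.card_prod]
    push_cast
    ring

lemma Dec.close {ε δ : ℝ} {M M' : Om K → Om K → ℂ} (h : Dec ε M) (hδ : 0 ≤ δ)
    (k : ∀ P P', ‖M' P P' - M P P'‖ ≤ δ) : Dec (ε + δ) M' := by
  obtain ⟨m, σ, μ, R, a, b, c, d, e⟩ := h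
  refine ⟨m, σ, μ, R, a, b, c, fun i P P' x y z => (d i P P' x y z).trans (by linarith),
    fun P P' => ?_⟩
  have := norm_add_le (M P P' - (∑ i, (μ i : ℂ) * model (σ i).τ P P') - R P P') (M' P P' - M P P')
  rw [show ∀ a b c d : ℂ, a - b - c + (d - a) = d - b - c from fun _ _ _ _ => by ring] at this
  linarith [e P P', k P P']

/-- The kernel does not see the pattern outside of the blocks. -/
lemma ker_base (κ : Ker) [Finite U] (G : Lab U K) (z z' : Om U) (P P' : Om K) :
    κ.ρ U (ow z G P) (ow z G P') = κ.ρ U (ow z' G P) (ow z' G P') := by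
  have k : ∀ z : Om U, κ.ρ U (ow z G P) (ow z G P') =
      κ.ρ {u // G u ≠ none} (pb Subtype.val (ow z G P)) (pb Subtype.val (ow z G P')) := fun z =>
    κ.drop _ _ _ Subtype.val_injective _ _ fun i l hi => by
      have e : G i = none := by_contra fun e => hi ⟨⟨i, e⟩, rfl⟩
      rw [ow_none_left _ _ e, ow_none_left _ _ e]
  have k2 : ∀ Q : Om K, pb (Subtype.val : {u // G u ≠ none} → U) (ow z G Q) =
      pb Subtype.val (ow z' G Q) := fun Q => funext fun c => by
    induction c using Sym2.ind with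
    | _ a b =>
      obtain ⟨k, hk⟩ := Option.ne_none_iff_exists'.1 a.2
      obtain ⟨l, hl⟩ := Option.ne_none_iff_exists'.1 b.2
      rw [pb_mk, pb_mk, ow_some _ _ hk hl, ow_some _ _ hk hl]
  rw [k, k, k2, k2]

/-- Blocks inside random coordinate cells. -/
lemma kv_blk [Finite E] [Finite I] [Finite K] [Finite U] (hτ : τ.ND) (h : OmE E I → ℂ)
    (G : Lab U K) (P P' : Om K) :
    (cav fun ι : U ↪ I => cav fun x => gram τ (res h x (lcomp (crd ι) G)) P P') =
      cav fun z => kv τ h U (ow z G P) (ow z G P') := by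
  simp only [kv]
  rw [cav_comm (α := Om U)]
  refine congrArg cav (funext fun ι => ?_)
  rw [← tile ι.injective, cav_comm (α := Om U)]
  refine congrArg cav (funext fun x => ?_)
  simp only [res_lcomp]
  rw [cav_prod, cav_comm]
  exact congrArg cav (funext fun z => gram_res hτ _ z G P P')

/-- Lifting a family by a uniform base shift. -/
noncomputable def lift [Finite E] [Finite I] [Finite K] (A : OFam I K) : GFam E I K where
  E f := A.E fun x Φ => av fun b => f (b, x) Φ
  add f g := by simp only [SD.av_add, A.add]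
  smul c f := by simp only [SD.av_mul_left, A.smul]
  pos f h := A.pos _ fun _ _ => SD.av_nonneg fun _ => h _ _
  marg g := by
    rw [SD.av_prod g, SD.av_comm, ← A.marg fun x => av fun b => g (b, x)]
    refine A.congr' fun x Φ => ?_
    simp only [SD.av_prod (α := K → E)]
    rw [SD.av_comm]
    refine (SD.av_congr fun t => ?_).trans (SD.av_const _)
    rw [SD.av_comm]
    exact SD.av_congr fun P => SD.av_add_right (fun b => g (b, ow x Φ P)) (spr t Φ)

end NE.IV

namespace NE

open SD (F sm av ind cnt Tame)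
open ComplexConjugate IV

theorem inv_of (hK : KLIM) (hD : DEC) (hP : PLANT) : INV := by
  intro E _ _ τ hτ K _ ε hε
  by_contra hn
  push Not at hn
  choose I fI cI h h1 h2 using hn
  obtain ⟨κ, hκ⟩ := hK E τ hτ I h cI h1
  obtain ⟨S, hS⟩ := hD κ K (ε / 4) (by positivity)
  obtain ⟨η, hη, hA⟩ := hP (Nat.card (K × Fin (S + 1))) (ε / 4) (by positivity)
  obtain ⟨n1, hn1⟩ := exists_nat_ge ((Nat.card (K × Fin (S + 1)) : ℝ) ^ 2 / η)
  obtain ⟨n, hn, hc⟩ := hκ (K × Fin (S + 1)) (ε / 4) (n1 + 1 + Nat.card (K × Fin (S + 1)))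
    (by positivity)
  have c1 := hn.trans (cI n)
  have : Nonempty (K × Fin (S + 1) ↪ I n) := by
    let _ := Fintype.ofFinite (K × Fin (S + 1))
    let _ := Fintype.ofFinite (I n)
    exact Function.Embedding.nonempty_of_card_le (by
      rw [← Nat.card_eq_fintype_card, ← Nat.card_eq_fintype_card]
      omega)
  obtain ⟨A, a1, a2⟩ := hA (I n) K (Om K) ((K → Fin (S + 1)) × (K × Fin (S + 1) ↪ I n)) id
    (fun o => lcomp (crd o.2) (blk o.1)) Function.injective_id
    (fun o => (good_crd o.2.injective).lcomp fun k => ⟨(k, 0), if_pos (Fin.zero_le _)⟩)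
    (fun o => by
      rw [← Set.ncard_univ, ← Set.ncard_image_of_injective _ o.2.injective]
      refine Set.ncard_le_ncard fun i hi => ?_
      rw [Set.image_univ, ← crd_ne_none o.2.injective]
      exact fun e => hi (lcomp_of_none _ e))
    (SD.av_le_const fun o => by
      rw [SD.av_prod]
      refine SD.av_le_const fun s => ((SD.av_mono fun ι => SD.ind_mono ?_).trans (meet o.2)).trans ?_
      · exact fun ⟨i, a, b⟩ => ⟨i, (crd_ne_none o.2.injective).1 fun e => a (lcomp_of_none _ e),
          (crd_ne_none ι.injective).1 fun e => b (lcomp_of_none _ e)⟩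
      · have c2 : (n1 : ℝ) + 1 ≤ Nat.card (I n) := by exact_mod_cast (by omega)
        rw [div_le_iff₀ hη] at hn1
        rw [div_le_iff₀ (by linarith [Nat.cast_nonneg (α := ℝ) n1])]
        nlinarith)
  refine h2 n (lift A) ((A.congr' fun x Φ => SD.av_const _).le.trans (a1.trans (by linarith))) ?_
  rw [show ε = ε / 4 + (ε / 4 + ε / 4 + ε / 4) by ring]
  refine Dec.close hS (by positivity) fun P P' => ?_
  let g : Om (I n) → Lab (I n) K → ℂ := fun x Φ => cav fun b => gram τ (res (h n) (b, x) Φ) P P'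
  have g1 : ∀ x Φ, ‖g x Φ‖ ≤ 1 := fun x Φ => by
    rw [← sub_zero (g x Φ)]
    exact cav_close fun b => by
      rw [sub_zero]
      exact norm_gram hτ (fun _ => h1 n _) P P'
  have g2 : ∀ x Φ Q, g (ow x Φ Q) Φ = g x Φ := fun x Φ Q => congrArg cav (funext fun b =>
    congrArg (fun u => gram τ u P P') (funext fun y => by simp only [res, cell, ow_ow]))
  have g3 := a2 _ (fun x Φ => (Complex.abs_re_le_norm _).trans (g1 x Φ)) fun x Φ Q => by rw [g2]
  have g4 := a2 _ (fun x Φ => (Complex.abs_im_le_norm _).trans (g1 x Φ)) fun x Φ Q => by rw [g2]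
  let c : ℂ := cav fun o : (K → Fin (S + 1)) × (K × Fin (S + 1) ↪ I n) =>
    cav fun x => g x (lcomp (crd o.2) (blk o.1))
  have g5 : ‖c - κ.blow K S P P'‖ ≤ ε / 4 := by
    rw [Ker.blow, show c = _ from cav_prod _]
    refine cav_close2 fun s => ?_
    refine le_of_eq_of_le (congrArg (fun y => ‖y - _‖) ((congrArg cav (funext fun ι => ?_)).trans
      (kv_blk hτ (h n) (blk s) P P'))) (cav_close fun z => ?_)
    · rw [cav_prod (α := I n → E), cav_comm]
    · rw [ker_base κ _ 0 z]
      exact hc _ _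
  refine (norm_sub_le_norm_sub_add_norm_sub _ c _).trans (add_le_add
    ((Complex.norm_le_abs_re_add_abs_im _).trans (add_le_add ?_ ?_)) g5)
  · simpa only [Complex.sub_re, Fam.cE_re, c, g, cav_re, lift] using g3
  · simpa only [Complex.sub_im, Fam.cE_im, c, g, cav_im, lift] using g4

theorem inv0_of (h : INV) : INV0 := by
  intro K _ ε hε
  let τ : QT PUnit := ⟨0, 0, fun _ _ => by simp⟩
  obtain ⟨n, hn⟩ := h PUnit τ (fun _ _ => rfl) K ε hε
  refine ⟨n, fun I _ hI f hf => ?_⟩
  obtain ⟨A, a1, a2⟩ := hn I hI (fun x => f x.2) fun x => hf _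
  let B : OFam I K := ⟨fun g => A.E fun x Φ => g x.2 Φ, fun _ _ => A.add _ _, fun _ _ => A.smul _ _,
    fun _ k => A.pos _ fun _ _ => k _ _, fun g => by
      rw [← SD.av_const (α := I → PUnit) (av g), ← SD.av_prod fun x : OmE PUnit I => g x.2,
        ← A.marg]
      exact A.congr' fun x Φ => by
        rw [SD.av_prod]
        exact (SD.av_const _).symm⟩
  refine ⟨B, a1, ?_⟩
  have k : ∀ (J : Type) (w : J → PUnit) (y : OmE PUnit J), chi τ w y = 1 := fun J w y => by
    have e : ∀ c, cz τ w c = 0 := fun c => by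
      induction c using Sym2.ind with
      | _ a b => exact ite_self _
    simp only [chi, brk, th, e, smul_zero, finsum_zero, add_zero]
    exact (congrArg ee finsum_zero).trans ee_zero
  convert a2 using 3 with P P'
  change A.cE (fun x Φ => f (ow x.2 Φ P) * conj (f (ow x.2 Φ P'))) = _
  refine A.cE_congr fun x Φ => ?_
  simp only [gram, tw, k, map_one, mul_one, res, cell, cav_const]
  rw [csm, finsum_unique]

end NE
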