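import Pool.Agent.Lib.MP_ecee09_co.NE.Stmts
import Pool.Agent.Lib.MP_ecee09_co.NE.Cells

/-! The twisted Gram matrix of a restriction, averaged over the base shift. -/

namespace NE.IV

open SD (F sm av ind cnt Tame)
open ComplexConjugate Finset
open scoped BigOperators

variable {α β : Type}

lemma cav_eq [Fintype α] (f : α → ℂ) : cav f = univ.expect f := by
  rw [cav, finsum_eq_sum_of_fintype, Fintype.expect_eq_sum_div_card, Nat.card_eq_fintype_card]

lemma csm_eq [Fintype α] (f : α → ℂ) : csm f = ∑ x, f x := finsum_eq_sum_of_fintype f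

lemma cav_re [Finite α] (f : α → ℂ) : (cav f).re = av fun x => (f x).re := by
  let _ := Fintype.ofFinite α
  rw [cav, finsum_eq_sum_of_fintype, Complex.div_natCast_re, Complex.re_sum, SD.av_def, SD.sm_eq]

lemma cav_im [Finite α] (f : α → ℂ) : (cav f).im = av fun x => (f x).im := by
  let _ := Fintype.ofFinite α
  rw [cav, finsum_eq_sum_of_fintype, Complex.div_natCast_im, Complex.im_sum, SD.av_def, SD.sm_eq]

lemma cav_comm [Finite α] [Finite β] (f : α → β → ℂ) :
    cav (fun x => cav fun y => f x y) = cav fun y => cav fun x => f x y :=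
  Complex.ext (by simp only [cav_re]; exact SD.av_comm _) (by simp only [cav_im]; exact SD.av_comm _)

lemma cav_prod [Finite α] [Finite β] (f : α × β → ℂ) :
    cav f = cav fun x => cav fun y => f (x, y) :=
  Complex.ext (by simp only [cav_re]; exact SD.av_prod _) (by simp only [cav_im]; exact SD.av_prod _)

lemma cav_const [Finite α] [Nonempty α] (c : ℂ) : cav (fun _ : α => c) = c :=
  Complex.ext (by simp only [cav_re]; exact SD.av_const _) (by simp only [cav_im]; exact SD.av_const _)

lemma cav_close [Finite α] [Nonempty α] {f : α → ℂ} {c : ℂ} {δ : ℝ} (h : ∀ x, ‖f x - c‖ ≤ δ) :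
    ‖cav f - c‖ ≤ δ := by
  let _ := Fintype.ofFinite α
  rw [cav_eq, ← Fintype.expect_const (ι := α) c, ← expect_sub_distrib]
  refine (RCLike.norm_expect_le (K := ℝ)).trans (expect_le univ_nonempty fun x _ => ?_)
  simpa using h x

lemma cav_close2 [Finite α] [Nonempty α] {f g : α → ℂ} {δ : ℝ} (h : ∀ x, ‖f x - g x‖ ≤ δ) :
    ‖cav f - cav g‖ ≤ δ := by
  let _ := Fintype.ofFinite α
  rw [cav_eq, cav_eq, ← expect_sub_distrib, ← cav_eq, ← sub_zero (cav _)]
  exact cav_close fun x => by simpa using h x

lemma ee_add (x y : TT) : ee (x + y) = ee x * ee y := by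
  rw [ee, AddCircle.toCircle_add, Circle.coe_mul]; rfl

lemma ee_zero : ee 0 = 1 := by rw [ee, AddCircle.toCircle_zero, Circle.coe_one]

lemma norm_ee (x : TT) : ‖ee x‖ = 1 := Circle.norm_coe _

lemma ee_conj (x : TT) : ee x * conj (ee x) = 1 := by
  rw [Complex.mul_conj, Complex.normSq_eq_norm_sq, norm_ee]; simp

lemma conj_ee (x : TT) : conj (ee x) = ee (-x) := by
  have h : ee x * ee (-x) = 1 := by rw [← ee_add, add_neg_cancel, ee_zero]
  exact mul_left_cancel₀ (left_ne_zero_of_mul_eq_one h) ((ee_conj x).trans h.symm)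

lemma ee_eq_one {x : TT} (h : ee x = 1) : x = 0 :=
  AddCircle.injective_toCircle one_ne_zero (Circle.ext (h.trans ee_zero.symm))

lemma expect_ee {G : Type} [AddCommGroup G] [Fintype G] {φ : G → TT}
    (hφ : ∀ x y, φ (x + y) = φ x + φ y) {a : G} (ha : φ a ≠ 0) :
    (univ.expect fun x => ee (φ x)) = 0 := by
  have h : (univ.expect fun x => ee (φ x)) = ee (φ a) * univ.expect fun x => ee (φ x) := by
    rw [mul_expect]
    exact (Fintype.expect_equiv (Equiv.addLeft a) _ _ fun x => by
      rw [← ee_add, ← hφ]; rfl).symm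
  by_contra k
  exact ha (ee_eq_one (mul_right_cancel₀ k (h.symm.trans (one_mul _).symm)))

variable {E I K : Type} [AddCommGroup E] (τ : QT E)

section
variable [Fintype I]

lemma brk_eq (w b : I → E) : brk τ w b = ∑ i, τ.be (w i) (b i) := finsum_eq_sum_of_fintype _

lemma brk_add (w b b' : I → E) : brk τ w (b + b') = brk τ w b + brk τ w b' := by
  simp only [brk_eq, Pi.add_apply, map_add, sum_add_distrib]

lemma brk_sub (w b b' : I → E) : brk τ w (b - b') = brk τ w b - brk τ w b' := by
  simp only [brk_eq, Pi.sub_apply, map_sub, sum_sub_distrib]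

lemma brk_comm (w b : I → E) : brk τ w b = brk τ b w := by
  simp only [brk_eq, τ.symm (w _)]

variable {τ} [Fintype E] [DecidableEq I] [DecidableEq E]

lemma orth (h : τ.ND) (w w' : I → E) :
    (univ.expect fun t => ee (brk τ w t) * conj (ee (brk τ w' t))) = if w = w' then 1 else 0 := by
  split_ifs with e
  · simp only [e, ee_conj, Fintype.expect_const]
  · obtain ⟨i, hi⟩ := Function.ne_iff.1 e
    obtain ⟨a, ha⟩ := DFunLike.ne_iff.1 fun k => hi (sub_eq_zero.1 (h _ k))
    simp only [conj_ee, ← ee_add, ← sub_eq_add_neg, brk_comm τ w, brk_comm τ w', ← brk_sub]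
    refine expect_ee (a := Pi.single i a) (fun x y => by
      simp only [brk_comm τ _ (w - w'), brk_add]) ?_
    rw [brk_comm, brk_eq, sum_eq_single i (fun j _ k => by rw [Pi.single_eq_of_ne k, map_zero])
      (by simp), Pi.single_eq_same]
    exact ha

lemma chi_orth (h : τ.ND) (w w' : I → E) (P : Om I) :
    (univ.expect fun t => chi τ w (t, P) * conj (chi τ w' (t, P))) = if w = w' then 1 else 0 := by
  rw [expect_congr rfl fun t _ => show _ = ee (brk τ w t) * conj (ee (brk τ w' t)) *
    (ee (th τ w P) * conj (ee (th τ w' P))) by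
      simp only [chi, ee_add, map_mul]
      ring, ← expect_mul, orth h]
  split_ifs with e
  · rw [e, ee_conj, one_mul]
  · exact zero_mul _

lemma expand (h : τ.ND) (u : OmE E I → ℂ) (t : I → E) (P : Om I) :
    u (t, P) = ∑ w, chi τ w (t, P) * tw τ u w P := by
  have k : ∀ t', ∑ w, chi τ w (t, P) * (u (t', P) * conj (chi τ w (t', P))) =
      Fintype.card (I → E) • (if t = t' then u (t', P) else 0) := fun t' => by
    rw [← Fintype.card_smul_expect, ← one_mul (u _), ← ite_zero_mul, ← orth h, expect_mul]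
    refine congrArg _ (expect_congr rfl fun w _ => ?_)
    simp only [chi, ee_add, map_mul, brk_comm τ w]
    linear_combination ee (brk τ t w) * conj (ee (brk τ t' w)) * u (t', P) * ee_conj (th τ w P)
  simp only [tw, cav_eq, mul_expect]
  rw [← expect_sum_comm, expect_congr rfl fun t' _ => k t', ← smul_expect,
    Fintype.card_smul_expect, sum_ite_eq, if_pos (mem_univ _)]

lemma parseval (h : τ.ND) (u : OmE E I → ℂ) (P : Om I) :
    ∑ w, tw τ u w P * conj (tw τ u w P) = univ.expect fun t => u (t, P) * conj (u (t, P)) := by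
  rw [expect_congr rfl fun t _ => congrArg (fun z => u (t, P) * conj z) (expand h u t P)]
  simp only [map_sum, map_mul, mul_sum, ← mul_assoc, expect_sum_comm, ← expect_mul, ← cav_eq]
  rfl

lemma sum_sq_le (h : τ.ND) {u : OmE E I → ℂ} (hu : ∀ x, ‖u x‖ ≤ 1) (P : Om I) :
    ∑ w, ‖tw τ u w P‖ ^ 2 ≤ 1 := by
  have k := congrArg (‖·‖) (parseval h u P)
  simp only [Complex.mul_conj' (tw _ _ _ _), ← Complex.ofReal_pow, ← Complex.ofReal_sum,
    Complex.norm_real] at k
  refine (le_abs_self _).trans (k.trans_le ((RCLike.norm_expect_le (K := ℝ)).trans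
    (expect_le univ_nonempty fun t _ => ?_)))
  rw [norm_mul, Complex.norm_conj]
  exact mul_le_one₀ (hu _) (norm_nonneg _) (hu _)

end

variable {τ}

lemma norm_gram [Finite I] [Finite E] (h : τ.ND) {u : OmE E I → ℂ} (hu : ∀ x, ‖u x‖ ≤ 1)
    (P P' : Om I) : ‖gram τ u P P'‖ ≤ 1 := by
  classical
  let _ := Fintype.ofFinite I
  let _ := Fintype.ofFinite E
  rw [gram, csm_eq]
  refine (norm_sum_le _ _).trans ((sum_le_sum (g := fun w =>
    (‖tw τ u w P‖ ^ 2 + ‖tw τ u w P'‖ ^ 2) / 2) fun w _ => ?_).trans ?_)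
  · rw [norm_mul, Complex.norm_conj]
    nlinarith [sq_nonneg (‖tw τ u w P‖ - ‖tw τ u w P'‖)]
  · rw [← sum_div, sum_add_distrib]
    linarith [sum_sq_le h hu P, sum_sq_le h hu P']

lemma cz_mk [DecidableEq I] (τ : QT E) (w : I → E) (i j : I) :
    cz τ w s(i, j) = if i = j then τ.q (w i) else τ.be (w i) (w j) := by
  by_cases e : i = j
  · rw [if_pos e]
    exact if_pos e
  · rw [if_neg e]
    exact if_neg e

lemma q_sum [DecidableEq I] (τ : QT E) (w : I → E) (B : Finset I) :
    ∑ c ∈ B.sym2, cz τ w c = τ.q (∑ i ∈ B, w i) := by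
  induction B using Finset.cons_induction with
  | empty => simpa [eq_comm] using τ.q_add 0 0
  | cons a B ha ih =>
    rw [sym2_cons, sum_disjUnion, sum_map, sum_cons, sum_cons, ih, τ.q_add, map_sum, add_right_comm]
    refine congrArg₂ _ (congrArg₂ _ ((cz_mk τ w a a).trans (if_pos rfl)) rfl) (sum_congr rfl fun i hi =>
      (cz_mk τ w a i).trans (if_neg fun e : a = i => ha (e ▸ hi)))

lemma cz_sum [Fintype I] [DecidableEq I] [DecidableEq K] (τ : QT E) (w : I → E) (Φ : Lab I K)
    (d : Sym2 K) : ∑ c with lab2 Φ c = some d, cz τ w c = cz τ (wl w Φ) d := by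
  have hw : ∀ k, wl w Φ k = ∑ i with Φ i = some k, w i := fun k => by
    rw [wl, finsum_eq_sum_of_fintype, sum_filter]
    exact sum_congr rfl fun i _ => by congr
  induction d using Sym2.ind with
  | _ k l =>
    rw [cz_mk, hw, hw]
    split_ifs with e
    · rw [← q_sum, ← e]
      refine sum_congr (Finset.ext fun c => ?_) fun _ _ => rfl
      induction c using Sym2.ind with
      | _ i j => simp [lab2_eq_some_iff]
    · simp only [map_sum, AddMonoidHom.finsetSum_apply]
      rw [sum_comm (f := fun j i => τ.be (w i) (w j)), ← sum_product']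
      refine (sum_nbij (fun p : I × I => s(p.1, p.2)) (fun p hp => ?_) (fun p hp p' hp' q => ?_)
        (fun c hc => ?_) fun p hp => ?_).symm
      · simp only [mem_product, mem_filter, mem_univ, true_and] at hp ⊢
        exact lab2_some hp.1 hp.2
      · simp only [coe_product, coe_filter, mem_univ, true_and, Set.mem_prod, Set.mem_ofPred_eq]
          at hp hp'
        rcases Sym2.eq_iff.1 q with q | q
        · exact Prod.ext q.1 q.2
        · exact absurd (Option.some.inj (hp.1.symm.trans (q.1 ▸ hp'.2))) e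
      · induction c using Sym2.ind with
        | _ i j =>
          obtain ⟨a, b, h1, h2, h3⟩ := (lab2_eq_some_iff _ _ _ _).1 (mem_filter.1 hc).2
          rcases Sym2.eq_iff.1 h3 with ⟨rfl, rfl⟩ | ⟨rfl, rfl⟩
          · exact ⟨(i, j), by simp [h1, h2], rfl⟩
          · exact ⟨(j, i), by simp [h1, h2], Sym2.eq_swap⟩
      · simp only [mem_product, mem_filter, mem_univ, true_and] at hp
        rw [cz_mk, if_neg fun q : p.1 = p.2 => e (Option.some.inj (hp.1.symm.trans (q ▸ hp.2)))]

theorem chi_cell [Finite I] [Finite K] (τ : QT E) (w : I → E) (x : OmE E I) (Φ : Lab I K)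
    (y : OmE E K) : chi τ w (cell x Φ y) = chi τ w (cell x Φ 0) * chi τ (wl w Φ) y := by
  classical
  let _ := Fintype.ofFinite I
  let _ := Fintype.ofFinite K
  have h1 : brk τ w (spr y.1 Φ) = brk τ (wl w Φ) y.1 := by
    simp only [brk_eq, wl, finsum_eq_sum_of_fintype, map_sum, AddMonoidHom.finsetSum_apply]
    rw [sum_comm]
    refine sum_congr rfl fun i _ => ?_
    cases e : Φ i <;> simp [spr, e, apply_ite, ite_apply]
  have h2 : th τ w (ow x.2 Φ y.2) = th τ w (ow x.2 Φ 0) + th τ (wl w Φ) y.2 := by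
    simp only [th, finsum_eq_sum_of_fintype, ← cz_sum, smul_sum, sum_filter]
    rw [sum_comm, ← sum_add_distrib]
    refine sum_congr rfl fun c _ => ?_
    cases e : lab2 Φ c <;> simp [ow, e]
  simp only [chi, cell, ← ee_add, brk_add, h1, h2, Prod.fst_zero, Prod.snd_zero, spr_zero, add_zero]
  congr 1
  abel

/-- Averaging over the base shift. -/
theorem gram_res [Finite I] [Finite K] [Finite E] (h : τ.ND) (u : OmE E I → ℂ) (z : Om I)
    (G : Lab I K) (P P' : Om K) :
    (cav fun b => gram τ (res u (b, z) G) P P') = gram τ u (ow z G P) (ow z G P') := by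
  classical
  let _ := Fintype.ofFinite I
  let _ := Fintype.ofFinite K
  let _ := Fintype.ofFinite E
  have k : ∀ b w Q, tw τ (res u (b, z) G) w Q = ∑ W, if wl W G = w then
      chi τ W (cell (b, z) G 0) * tw τ u W (ow z G Q) else 0 := fun b w Q => by
    rw [tw, cav_eq]
    refine (expect_congr rfl fun t _ => congrArg (· * conj (chi τ w (t, Q)))
      (expand h u (b + spr t G) (ow z G Q))).trans ?_
    simp only [sum_mul, expect_sum_comm]
    refine sum_congr rfl fun W _ => ?_
    rw [← mul_one (chi _ _ _ * _), ← mul_ite_zero, ← chi_orth h _ _ Q, mul_expect]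
    refine expect_congr rfl fun t _ => ?_
    rw [show chi τ W (b + spr t G, ow z G Q) = _ from chi_cell τ W (b, z) G (t, Q)]
    ring
  have k2 : ∀ W W', (univ.expect fun b => chi τ W (cell (b, z) G 0) *
      conj (chi τ W' (cell (b, z) G 0))) = if W = W' then 1 else 0 := fun W W' => by
    rw [← chi_orth h W W' (ow z G 0)]
    exact Fintype.expect_equiv (Equiv.addRight (spr 0 G)) _ _ fun b => rfl
  have k3 : ∀ W W' (a a' : ℂ), (univ.expect fun b => chi τ W (cell (b, z) G 0) * a *
      conj (chi τ W' (cell (b, z) G 0) * a')) = if W = W' then a * conj a' else 0 :=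
    fun W W' a a' => by
      rw [← one_mul (a * _), ← ite_zero_mul, ← k2, expect_mul]
      exact expect_congr rfl fun b _ => by rw [map_mul, mul_mul_mul_comm]
  simp only [gram, csm_eq, cav_eq, k, map_sum, sum_mul_sum, expect_sum_comm]
  rw [sum_comm]
  refine sum_congr rfl fun W _ => ?_
  rw [sum_eq_single (wl W G) (fun w _ e => by simp [e.symm]) (by simp), sum_eq_single W
    (fun W' _ e => ?_) (by simp)]
  · simp only [if_true, k3]
  · by_cases e1 : wl W' G = wl W G
    · simp only [if_true, if_pos e1, k3, if_neg e.symm]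
    · simp [e1]

end NE.IV
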