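import Pool.Agent.Lib.MP_ecee09_co.NE.KLa
import Pool.Agent.Lib.MP_ecee09_co.NE.InvA
import Pool.Agent.Lib.MP_ecee09_co.NE.CQT

/-! The limit kernel. -/

namespace NE

open SD Filter Topology

variable {E I U U' : Type} [AddCommGroup E] [Finite E] [Finite I] [Finite U] [Finite U'] {τ : QT E}

lemma norm_kv (hτ : τ.ND) {h : OmE E I → ℂ} (hh : ∀ x, ‖h x‖ ≤ 1) (P P' : Om U) :
    ‖kv τ h U P P'‖ ≤ 1 :=
  norm_cav_le_const zero_le_one fun _ => norm_cav_le_const zero_le_one fun _ =>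
    IV.norm_gram hτ (fun _ => hh _) P P'

lemma psd_kv (h : OmE E I → ℂ) : PSD (kv τ h U) :=
  PSD.cav fun _ => PSD.cav fun _ => psd_gram τ _

lemma kv_drop (hτ : τ.ND) (j : U ↪ U') {P P' : Om U'} (hP : Agr j P P') {δ : ℝ} (hδ : 0 < δ) :
    ∃ n0 : ℕ, ∀ (I : Type) [Finite I], n0 ≤ Nat.card I → ∀ h : OmE E I → ℂ, (∀ x, ‖h x‖ ≤ 1) →
      ‖kv τ h U' P P' - kv τ h U (pb j P) (pb j P')‖ ≤ δ := by
  obtain ⟨n0, hn⟩ := kl_plant j P (half_pos hδ)
  refine ⟨n0, fun I _ hI h hh => ?_⟩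
  let G : (U ↪ I) → Om I → ℂ := fun ι A =>
    cav fun b => gram τ (res h (b, A) (crd ι)) (pb j P) (pb j P')
  have g1 : ∀ ι A, ‖G ι A‖ ≤ 1 := fun ι A =>
    norm_cav_le_const zero_le_one fun _ => IV.norm_gram hτ (fun _ => hh _) _ _
  have g2 : ∀ ι A R, G ι (ow A (crd ι) R) = G ι A := fun ι A R =>
    cav_congr fun b => congrArg (gram τ · _ _) (funext fun y => by simp only [res, cell, ow_ow])
  have e1 : kv τ h U (pb j P) (pb j P') = cav fun ι => cav (G ι) :=
    cav_congr fun ι => by rw [cav_prod, cav_comm]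
  have e2 : kv τ h U' P P' = cav fun ι : U' ↪ I => cav fun A => G (j.trans ι) (ow A (crd ι) P) :=
    cav_congr fun ι => by
      conv_lhs => rw [← hP.ow j.injective, ← ow_crd_pb j.injective P]
      rw [ow_ow]
      simp only [← IV.gram_res hτ, ← res_lcomp, lcomp_crd ι.injective j.injective]
      rw [cav_prod, cav_comm]
      refine cav_congr fun A => ?_
      rw [cav_comm]
      exact (cav_congr fun s => cav_add_right (fun b => gram τ (res h (b, ow A (crd ι) P)
        (crd (ι ∘ j))) (pb j P) (pb j P')) (spr s (crd ι))).trans (cav_const _)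
  have k1 := hn I hI (fun ι A => (G ι A).re)
    (fun ι A => (Complex.abs_re_le_norm _).trans (g1 ι A)) fun ι A R => by rw [g2]
  have k2 := hn I hI (fun ι A => (G ι A).im)
    (fun ι A => (Complex.abs_im_le_norm _).trans (g1 ι A)) fun ι A R => by rw [g2]
  rw [e1, e2]
  refine (Complex.norm_le_abs_re_add_abs_im _).trans ?_
  simp only [Complex.sub_re, Complex.sub_im, cav_re, cav_im]
  linarith

theorem klim : KLIM := by
  intro E _ _ τ hτ I _ h hI hh
  have hu : (hyperfilter ℕ : Filter ℕ) ≤ atTop := Nat.hyperfilter_le_atTop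
  have h1 : ∀ (U : Type) [Finite U] (P P' : Om U), ∃ z : ℂ,
      Tendsto (fun n => kv τ (h n) U P P') (hyperfilter ℕ) (𝓝 z) := fun U _ P P' => by
    obtain ⟨z, -, hz⟩ := (isCompact_closedBall (0 : ℂ) 1).ultrafilter_le_nhds
      ((hyperfilter ℕ).map fun n => kv τ (h n) U P P') (le_principal_iff.2 (mem_map.2
        (univ_mem' fun n => mem_closedBall_zero_iff.2 (norm_kv hτ (hh n) P P'))))
    exact ⟨z, hz⟩
  choose ρ hρ using h1
  refine ⟨⟨ρ, fun U _ => psd_lim (fun n => psd_kv (h n)) (hρ U), fun U _ P =>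
    le_of_tendsto' (hρ U P P).norm fun n => norm_kv hτ (hh n) P P, fun U U' _ _ j hj P P' hP => ?_⟩,
    fun U _ δ n1 hδ => ?_⟩
  · refine sub_eq_zero.1 (norm_le_zero_iff.1 (le_of_forall_pos_le_add fun δ hδ => ?_))
    obtain ⟨n0, hn⟩ := kv_drop hτ ⟨j, hj⟩ (fun i l k => (hP i l k).symm) hδ
    rw [zero_add]
    exact le_of_tendsto ((hρ U' P P').sub (hρ U _ _)).norm (((eventually_ge_atTop n0).filter_mono
      hu).mono fun n k => hn _ (k.trans (hI n)) _ (hh n))
  · exact (Eventually.and (hu (eventually_ge_atTop n1)) (eventually_all.2 fun P => eventually_all.2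
      fun P' => ((hρ U P P').eventually (Metric.closedBall_mem_nhds _ hδ)).mono fun n k =>
        mem_closedBall_iff_norm.1 k)).exists

end NE
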