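import Pool.Agent.Lib.MP_ecee09_co.NE.GDefs
import Pool.Agent.Lib.MP_ecee09_co.NE.CQT

/-! A common value on a pair that is not a loop does not change a kernel. -/

namespace NE

open SD
open ComplexConjugate

/-- two families of vectors with one common inner product have almost equal averages -/
lemma psd_two {m : ℕ} {M : Option (Fin m × Bool) → Option (Fin m × Bool) → ℂ} (hM : PSD M)
    (h1 : ∀ x, ‖M x x‖ ≤ 1) {γ : ℂ} (hγ : ∀ x y, x ≠ y → M (some x) (some y) = γ)
    {a : Bool → ℂ} (ha : ∀ x, M (some x) none = a x.2) :
    (m : ℝ) * ‖a true - a false‖ ^ 2 ≤ 2 + 2 * ‖γ‖ := by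
  classical
  rcases Nat.eq_zero_or_pos m with rfl | hm
  · simp only [Nat.cast_zero, zero_mul]; positivity
  set δ := a true - a false with hδ
  let e : Fin m × Bool → ℂ := fun x => if x.2 then 1 else -1
  have he : ∀ x, conj (e x) = e x := fun x => by
    simp only [e]; split_ifs <;> simp
  have he2 : ∀ x, e x * e x = 1 := fun x => by
    simp only [e]; split_ifs <;> simp
  have he0 : ∑ x, e x = 0 := by
    simp [e, Fintype.sum_prod_type]
  have hD : ∑ x, e x * a x.2 = m * δ := by
    simp [e, Fintype.sum_prod_type, hδ, sub_eq_add_neg, mul_add]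
  have key := hM.2 fun o => o.elim (-(m * δ)) e
  simp only [csm_eq, Fintype.sum_option, Option.elim, he] at key
  have hrow : ∀ x, ∑ y, e x * e y * M (some x) (some y) = M (some x) (some x) - γ := fun x => by
    have : ∀ y, e x * e y * M (some x) (some y) =
        e x * γ * e y + if y = x then M (some x) (some x) - γ else 0 := fun y => by
      split_ifs with h
      · subst h; linear_combination (M (some y) (some y) - γ) * he2 y
      · rw [hγ x y (Ne.symm h)]; ring
    simp only [this, Finset.sum_add_distrib, ← Finset.mul_sum, he0, mul_zero, zero_add,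
      Finset.sum_ite_eq', Finset.mem_univ, if_true]
  have hA : ∑ y, -(m * δ) * e y * M none (some y) = -(m * δ) * conj (m * δ) := by
    rw [← hD, map_sum, hD, Finset.mul_sum]
    exact Finset.sum_congr rfl fun y _ => by rw [hM.1 (some y) none, ha, map_mul, he]; ring
  have hB : ∑ x, e x * conj (-(m * δ)) * M (some x) none = -(m * δ) * conj (m * δ) := by
    have : ∀ x, e x * conj (-(m * δ)) * M (some x) none =
        -conj (m * δ) * (e x * a x.2) := fun x => by rw [ha, map_neg]; ring
    simp only [this, ← Finset.mul_sum, hD]; ring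
  simp only [hrow, Finset.sum_add_distrib, hA, hB] at key
  have hn : ((m : ℂ) * δ) * conj ((m : ℂ) * δ) = ((m * ‖δ‖) ^ 2 : ℝ) := by
    rw [mul_conj'', norm_mul, Complex.norm_natCast]
  have k1 : (-((m : ℂ) * δ) * conj (-((m : ℂ) * δ)) * M none none).re ≤ (m * ‖δ‖) ^ 2 := by
    rw [map_neg, neg_mul_neg, hn, Complex.re_ofReal_mul]
    exact mul_le_of_le_one_right (by positivity) ((Complex.re_le_norm _).trans (h1 _))
  have k2 : (-((m : ℂ) * δ) * conj ((m : ℂ) * δ)).re = -(m * ‖δ‖) ^ 2 := by
    rw [neg_mul, hn, Complex.neg_re, Complex.ofReal_re]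
  have k3 : (∑ x : Fin m × Bool, (M (some x) (some x) - γ)).re ≤ m * (2 + 2 * ‖γ‖) := by
    refine (Complex.re_le_norm _).trans ((norm_sum_le _ _).trans ?_)
    refine (Finset.sum_le_sum fun x _ => (norm_sub_le _ _).trans
      (add_le_add_left (h1 (some x)) ‖γ‖)).trans (le_of_eq ?_)
    simp; ring
  simp only [Complex.add_re, k2] at key
  have hm' : (0 : ℝ) < m := by exact_mod_cast hm
  have : (m : ℝ) * (m * ‖δ‖ ^ 2) ≤ m * (2 + 2 * ‖γ‖) := by nlinarith
  exact le_of_mul_le_mul_left this hm'

open Classical in
/-- the index `i` is replaced by copies; the copy `x` carries the row of `row x` at `i` -/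
noncomputable def cpy {U ι : Type} (i : U) (B : Om U) (row : ι → Om U) : Om (U ⊕ ι) :=
  Sym2.lift ⟨fun p q => match p, q with
    | .inl a, .inl b => if a = i ∨ b = i then 0 else B s(a, b)
    | .inl a, .inr x => if a = i then 0 else row x s(i, a)
    | .inr x, .inl a => if a = i then 0 else row x s(i, a)
    | .inr x, .inr y => if x = y then row x s(i, i) else 0, by
    rintro (a | x) (b | y)
    · simp only [or_comm, Sym2.eq_swap]
    · rfl
    · rfl
    · by_cases h : x = y
      · subst h; rfl
      · simp only [if_neg h, if_neg (Ne.symm h)]⟩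

section
variable {U ι : Type} (i : U) (B : Om U) (row : ι → Om U)

open Classical in
lemma cpy_ll (a b : U) :
    cpy i B row s(.inl a, .inl b) = if a = i ∨ b = i then 0 else B s(a, b) := rfl

open Classical in
lemma cpy_lr (a : U) (x : ι) :
    cpy i B row s(.inl a, .inr x) = if a = i then 0 else row x s(i, a) := rfl

open Classical in
lemma cpy_rl (a : U) (x : ι) :
    cpy i B row s(.inr x, .inl a) = if a = i then 0 else row x s(i, a) := rfl

open Classical in
lemma cpy_rr (x y : ι) :
    cpy i B row s(.inr x, .inr y) = if x = y then row x s(i, i) else 0 := rfl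

end

theorem ksd : KSD := by
  classical
  intro κ U _ P P' Q Q' c hc hP hQ hQP hQP'
  induction c using Sym2.ind with
  | _ i j =>
  have hij : i ≠ j := fun h => hc (Sym2.mk_isDiag_iff.2 h)
  let Pb : Bool → Om U := fun b => if b then Q else P
  let Pb' : Bool → Om U := fun b => if b then Q' else P'
  have hb : ∀ b d, d ≠ s(i, j) → Pb b d = P d := fun b d h => by
    cases b
    · rfl
    · exact hQP d h
  have hb' : ∀ b d, d ≠ s(i, j) → Pb' b d = P' d := fun b d h => by
    cases b
    · rfl
    · exact hQP' d h
  have hbb : ∀ b, Pb b s(i, j) = Pb' b s(i, j) := fun b => by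
    cases b
    · exact hP
    · exact hQ
  have n1 : ∀ a b, a ≠ i → b ≠ i → s(a, b) ≠ s(i, j) := fun a b ha hb h => by
    rcases Sym2.eq_iff.1 h with h | h
    · exact ha h.1
    · exact hb h.2
  have n2 : ∀ a, a ≠ j → s(i, a) ≠ s(i, j) := fun a ha h => ha (Sym2.congr_right.1 h)
  let T := {a : U // a ≠ j} ⊕ Bool
  let k0 : T → U ⊕ Bool := Sum.map Subtype.val id
  let γ := κ.ρ T (pb k0 (cpy i P fun b => if b then P else P'))
    (pb k0 (cpy i P fun b => if b then P' else P))
  have main : ∀ m : ℕ, (m : ℝ) * ‖κ.ρ U Q Q' - κ.ρ U P P'‖ ^ 2 ≤ 2 + 2 * ‖γ‖ := fun m => by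
    let u : Option (Fin m × Bool) → Om (U ⊕ Fin m × Bool) := fun o =>
      o.elim (cpy i P' fun y => Pb' y.2) fun x => cpy i P fun y => if y = x then Pb y.2 else Pb' y.2
    refine psd_two (M := fun o o' => κ.ρ _ (u o) (u o')) ((κ.psd _).comp u)
      (fun o => κ.le_one _ _) (γ := γ) (fun x y hxy => ?_)
      (a := fun b => κ.ρ U (Pb b) (Pb' b)) (fun x => ?_)
    · let k : T → U ⊕ Fin m × Bool := Sum.map Subtype.val fun b => if b then x else y
      have hk : Function.Injective k := by
        refine Function.Injective.sumMap Subtype.val_injective ?_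
        rintro (_ | _) (_ | _) h
        · rfl
        · exact absurd h.symm hxy
        · exact absurd h hxy
        · rfl
      have e1 : ∀ (r : Fin m × Bool → Om U) (r' : Bool → Om U),
          (∀ b d, d ≠ s(i, j) → r (if b then x else y) d = r' b d) →
          pb k (cpy i P r) = pb k0 (cpy i P r') := fun r r' h => by
        funext d
        induction d using Sym2.ind with
        | _ p q =>
        rcases p with a | b <;> rcases q with a' | b'
        · rfl
        · show cpy i P r s(.inl a, .inr _) = cpy i P r' s(.inl a, .inr b')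
          rw [cpy_lr, cpy_lr, h _ _ (n2 _ a.2)]
        · show cpy i P r s(.inr _, .inl a') = cpy i P r' s(.inr b, .inl a')
          rw [cpy_rl, cpy_rl, h _ _ (n2 _ a'.2)]
        · show cpy i P r s(.inr _, .inr _) = cpy i P r' s(.inr b, .inr b')
          rw [cpy_rr, cpy_rr, h _ _ (n2 _ hij)]
          cases b <;> cases b' <;> simp [hxy, hxy.symm]
      show κ.ρ _ (u (some x)) (u (some y)) = γ
      rw [κ.drop T _ k hk]
      · simp only [u, Option.elim, γ]
        rw [e1 _ fun b => if b then P else P', e1 _ fun b => if b then P' else P]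
        · rintro (_ | _) d hd
          · simpa using hb _ d hd
          · simpa [hxy] using hb' _ d hd
        · rintro (_ | _) d hd
          · simpa [hxy.symm] using hb' _ d hd
          · simpa using hb _ d hd
      · rintro (a | z) l hr
        · have haj : a = j := by
            by_contra h
            exact hr ⟨.inl ⟨a, h⟩, rfl⟩
          subst haj
          rcases l with b | z
          · rfl
          · simp only [u, Option.elim, cpy_lr]
            split_ifs <;> simp only [hbb]
        · have hx : z ≠ x := fun h => hr ⟨.inr true, by rw [h]; rfl⟩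
          have hy : z ≠ y := fun h => hr ⟨.inr false, by rw [h]; rfl⟩
          rcases l with b | z'
          · simp only [u, Option.elim, cpy_rl, if_neg hx, if_neg hy]
          · simp only [u, Option.elim, cpy_rr, if_neg hx, if_neg hy]
    · let k : U → U ⊕ Fin m × Bool := fun a => if a = i then .inr x else .inl a
      have hk : Function.Injective k := fun a b h => by
        simp only [k] at h
        split_ifs at h with h1 h2 h2
        · rw [h1, h2]
        · exact Sum.inl_injective h
      have e1 : ∀ (B : Om U) (r : Fin m × Bool → Om U), (∀ d, d ≠ s(i, j) → r x d = B d) →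
          pb k (cpy i B r) = r x := fun B r h => by
        funext d
        induction d using Sym2.ind with
        | _ a b =>
        show cpy i B r s(k a, k b) = _
        by_cases ha : a = i <;> by_cases hb : b = i
        · simp only [k, ha, hb, if_true, cpy_rr]
        · simp only [k, ha, if_true, if_neg hb, cpy_rl]
        · simp only [k, hb, if_true, if_neg ha, cpy_lr, Sym2.eq_swap]
        · simp only [k, if_neg ha, if_neg hb, cpy_ll, ha, hb, or_self, if_false, h _ (n1 a b ha hb)]
      show κ.ρ _ (u (some x)) (u none) = κ.ρ U (Pb x.2) (Pb' x.2)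
      rw [κ.drop U _ k hk]
      · simp only [u, Option.elim]
        rw [e1 _ _ fun d hd => by simpa using hb _ d hd, e1 _ _ fun d hd => hb' _ d hd, if_pos rfl]
      · rintro (a | z) l hr
        · have hai : a = i := by
            by_contra h
            exact hr ⟨a, if_neg h⟩
          rcases l with b | z
          · simp only [u, Option.elim, cpy_ll, hai, true_or, if_true]
          · simp only [u, Option.elim, cpy_lr, hai, if_true]
        · have hx : z ≠ x := fun h => hr ⟨i, by rw [h]; exact if_pos rfl⟩
          rcases l with b | z'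
          · simp only [u, Option.elim, cpy_rl, if_neg hx]
          · simp only [u, Option.elim, cpy_rr, if_neg hx]
            split_ifs <;> rfl
  by_contra hne
  have hpos : 0 < ‖κ.ρ U Q Q' - κ.ρ U P P'‖ ^ 2 := by
    have := norm_pos_iff.2 (sub_ne_zero.2 hne); positivity
  obtain ⟨m, hm⟩ := exists_nat_gt ((2 + 2 * ‖γ‖) / ‖κ.ρ U Q Q' - κ.ρ U P P'‖ ^ 2)
  rw [div_lt_iff₀ hpos] at hm
  exact absurd (main m) (not_le.2 hm)

end NE
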