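import Pool.Agent.Lib.MP_ecee09_co.NE.FamB
import Pool.Agent.Lib.MP_ecee09_co.NE.Stmts

/-! (MRF): marginal repair and the family it gives. -/

namespace NE

open SD

section
variable {X C O Λ : Type} [Finite X] [Finite C] [Nonempty C]

/-- double counting on a tiling: a weight that is constant on the tiles is preserved by moving to
a random point of the tile -/
lemma Tile.av_eq {b : X → C → X} {S : X → Prop} (hT : Tile b S) {w : X → ℝ}
    (hw : ∀ x, w x ≠ 0 → S x) (hi : ∀ x c, w x ≠ 0 → w (b x c) = w x) (g : X → ℝ) :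
    av (fun x => w x * av fun c => g (b x c)) = av fun x => w x * g x := by
  have k1 : ∀ x (h : X → ℝ), w x * sm (fun c => h (b x c)) =
      sm fun y => w x * ind (y ∈ Set.range (b x)) * h y := fun x h => by
    by_cases hx : w x = 0
    · simp only [hx, zero_mul, sm_zero]
    simp only [mul_assoc]
    rw [sm_mul_left, sm_fiber (b x)]
    refine congrArg _ (sm_congr fun y => ?_)
    by_cases hy : y ∈ Set.range (b x)
    · obtain ⟨c, rfl⟩ := hy
      simp only [(hT x (hw x hx)).1.eq_iff]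
      rw [sm_ind_eq c fun c => h (b x c), ind_pos ⟨c, rfl⟩, one_mul]
    · rw [ind_neg hy, zero_mul, ← sm_zero (α := C)]
      exact sm_congr fun c => by rw [ind_neg fun e => hy ⟨c, e⟩, zero_mul]
  have k2 : ∀ x y, w x ≠ 0 → y ∈ Set.range (b x) → w y = w x ∧ x ∈ Set.range (b y) := by
    rintro x _ hx ⟨c, rfl⟩
    exact ⟨hi x c hx, ((hT x (hw x hx)).2.2 c).2 ▸ (hT x (hw x hx)).2.1⟩
  have k3 : ∀ x y, w x * ind (y ∈ Set.range (b x)) = w y * ind (x ∈ Set.range (b y)) := by
    intro x y
    by_cases h : w x ≠ 0 ∧ y ∈ Set.range (b x)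
    · rw [ind_pos h.2, ind_pos (k2 x y h.1 h.2).2, (k2 x y h.1 h.2).1]
    by_cases h' : w y ≠ 0 ∧ x ∈ Set.range (b y)
    · rw [ind_pos h'.2, ind_pos (k2 y x h'.1 h'.2).2, (k2 y x h'.1 h'.2).1]
    rw [not_and_or, not_not] at h h'
    rw [h.elim (fun e => mul_eq_zero_of_left e _) fun e => mul_eq_zero_of_right _ (ind_neg e),
      h'.elim (fun e => mul_eq_zero_of_left e _) fun e => mul_eq_zero_of_right _ (ind_neg e)]
  have hc := card_pos' (α := C)
  have e : (sm fun x => w x * sm fun c => g (b x c)) = Nat.card C * sm fun x => w x * g x := by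
    simp only [k1]
    rw [sm_comm, ← sm_mul_left]
    refine sm_congr fun y => ?_
    have := k1 y fun _ => g y
    rw [sm_const] at this
    simp only [k3 _ y]
    rw [← this]; ring
  simp only [av_def, ← mul_div_assoc, sm_div, e]
  field_simp

/-- a density that is preserved along its cells, completed by junk cells with label `z` -/
lemma ofDens [Finite O] (a : X → Λ → C → X) (φ : O → Λ) (z : Λ) (hz : ∀ x c, a x z c = x)
    (ψ : X → O → ℝ) (h0 : ∀ x o, 0 ≤ ψ x o) (h1 : ∀ x, av (ψ x) ≤ 1)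
    (hm : ∀ o (g : X → ℝ), av (fun x => ψ x o * av fun c => g (a x (φ o) c)) =
      av fun x => ψ x o * g x) :
    ∃ A : Fam a, ∀ f, A.E f =
      av fun x => (av fun o => ψ x o * f x (φ o)) + (1 - av (ψ x)) * f x z := by
  refine ⟨⟨fun f => av fun x => (av fun o => ψ x o * f x (φ o)) + (1 - av (ψ x)) * f x z,
    ?_, ?_, ?_, ?_⟩, fun _ => rfl⟩
  · intro f g
    rw [← av_add]
    refine av_congr fun x => ?_
    simp only [mul_add, av_add]; ring
  · intro c f
    rw [← av_mul_left]
    refine av_congr fun x => ?_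
    simp only [mul_left_comm _ c, av_mul_left]; ring
  · intro f h
    exact av_nonneg fun x => add_nonneg (av_nonneg fun o => mul_nonneg (h0 x o) (h _ _))
      (mul_nonneg (sub_nonneg.2 (h1 x)) (h _ _))
  · intro g
    simp only [hz, av_const]
    rw [av_add, av_comm]
    simp only [hm]
    rw [av_comm, ← av_add]
    exact av_congr fun x => by rw [av_mul_right]; ring

end

theorem mrf : MRF := by
  intro η N hη
  set s : ℝ := η / 4 with hs
  have hs0 : 0 < s := by positivity
  set K : ℝ := 2 + N * (1 + 1 / s) with hK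
  have hK0 : 0 < K := by positivity
  refine ⟨min 1 (η / 2 / K), lt_min one_pos (by positivity), ?_⟩
  intro X C O Λ _ _ _ _ _ _ a φ z good ψ hz hN h0 hT hinv h1 h2
  have e1 : min 1 (η / 2 / K) ≤ 1 := min_le_left _ _
  have e2 : min 1 (η / 2 / K) * K ≤ η / 2 := (le_div_iff₀ hK0).1 (min_le_right _ _)
  have e0 : 0 ≤ min 1 (η / 2 / K) := (lt_min one_pos (by positivity)).le
  generalize min 1 (η / 2 / K) = η0 at h1 h2 e1 e2 e0
  have h1s : 0 < 1 + s := by linarith
  obtain ⟨ψ', hψ⟩ : ∃ ψ' : X → O → ℝ, ∀ x o, ψ' x o =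
    ψ x o * ind (good o ∧ ∀ y ∈ Set.range (a x (φ o)), av (ψ y) ≤ 1 + s) / (1 + s) :=
    ⟨_, fun _ _ => rfl⟩
  have p0 : ∀ x o, 0 ≤ ψ' x o := fun x o =>
    hψ x o ▸ div_nonneg (mul_nonneg (h0 x o) (ind_nonneg _)) h1s.le
  have ne : ∀ x o, ψ' x o ≠ 0 →
      0 < ψ x o ∧ good o ∧ ∀ y ∈ Set.range (a x (φ o)), av (ψ y) ≤ 1 + s := fun x o h =>
    ⟨(h0 x o).lt_of_ne fun e => h (by rw [hψ, ← e, zero_mul, zero_div]),
      by_contra fun e => h (by rw [hψ, ind_neg e, mul_zero, zero_div])⟩
  have inv : ∀ x o c, ψ' x o ≠ 0 → ψ' (a x (φ o) c) o = ψ' x o := fun x o c h => by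
    obtain ⟨n1, n2, -⟩ := ne x o h
    have := ((hT o n2 x n1).2.2 c).2
    rw [hψ, hψ, hinv o n2 x c n1, this]
  have bad : ∀ x o, ¬ good o → ψ' x o = 0 := fun x o h => by_contra fun e => h (ne x o e).2.1
  have one : ∀ x, av (ψ' x) ≤ 1 := fun x => by
    by_cases hx : av (ψ x) ≤ 1 + s
    · refine le_trans (av_mono (g := fun o => ψ x o / (1 + s)) fun o => ?_)
        (by rwa [av_div, div_le_one h1s])
      rw [hψ]
      exact div_le_div_of_nonneg_right (mul_le_of_le_one_right (h0 x o) (ind_le_one _)) h1s.le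
    · exact av_le_const fun o => (by_contra fun e => hx ((ne x o e).2.2 x
        (hT o (ne x o e).2.1 x (ne x o e).1).2.1) : ψ' x o = 0).le.trans zero_le_one
  obtain ⟨A, hA⟩ := ofDens a φ z hz ψ' p0 one fun o g => by
    by_cases hg : good o
    · exact (hT o hg).av_eq (fun x h => (ne x o h).1) (fun x c => inv x o c) g
    · simp only [bad _ o hg, zero_mul]
  have hpt : ∀ x o, ψ x o - ψ' x o ≤ s * ψ x o + ψ x o * ind (¬ good o) +
      N * (ψ x o * ind (good o) * av fun c => ind (¬ av (ψ (a x (φ o) c)) ≤ 1 + s)) := by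
    intro x o
    have p1 : 0 ≤ ψ x o * ind (¬ good o) := mul_nonneg (h0 x o) (ind_nonneg _)
    have p2 := av_ind_nonneg fun c => ¬ av (ψ (a x (φ o) c)) ≤ 1 + s
    have p3 := mul_nonneg N.cast_nonneg (mul_nonneg (mul_nonneg (h0 x o) (ind_nonneg (good o))) p2)
    have p4 : 0 ≤ s * ψ x o := mul_nonneg hs0.le (h0 x o)
    rw [hψ]
    by_cases h : good o ∧ ∀ y ∈ Set.range (a x (φ o)), av (ψ y) ≤ 1 + s
    · rw [ind_pos h, mul_one]
      have : ψ x o - ψ x o / (1 + s) ≤ s * ψ x o := by
        rw [sub_le_comm, le_div_iff₀ h1s]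
        nlinarith [mul_nonneg hs0.le p4]
      linarith
    · rw [ind_neg h, mul_zero, zero_div, sub_zero]
      by_cases hg : good o
      · obtain ⟨c, hc⟩ := not_forall.1 fun h' => h ⟨hg, Set.forall_mem_range.2 h'⟩
        have := single_le_sm (fun c => ind_nonneg (¬ av (ψ (a x (φ o) c)) ≤ 1 + s)) c
        rw [ind_pos hc, sm_eq_card_mul_av] at this
        have := mul_le_mul_of_nonneg_left (this.trans
          (mul_le_mul_of_nonneg_right (Nat.cast_le.2 hN) p2)) (h0 x o)
        rw [ind_pos hg]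
        linarith
      · rw [ind_pos hg, mul_one]; linarith
  have hc : (av fun x => av fun o =>
      ψ x o * ind (good o) * av fun c => ind (¬ av (ψ (a x (φ o) c)) ≤ 1 + s)) ≤
      (1 + 1 / s) * η0 := by
    have e : ∀ o, (av fun x => ψ x o * ind (good o) *
        av fun c => ind (¬ av (ψ (a x (φ o) c)) ≤ 1 + s)) ≤
        av fun x => ψ x o * ind (¬ av (ψ x) ≤ 1 + s) := fun o => by
      by_cases hg : good o
      · simp only [ind_pos hg, mul_one]
        exact ((hT o hg).av_eq (fun x h => (h0 x o).lt_of_ne' h)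
          (fun x c h => hinv o hg x c ((h0 x o).lt_of_ne' h))
          fun y => ind (¬ av (ψ y) ≤ 1 + s)).le
      · simp only [ind_neg hg, mul_zero, zero_mul, av_zero]
        exact av_nonneg fun x => mul_nonneg (h0 x o) (ind_nonneg _)
    rw [av_comm]
    refine (av_mono e).trans ?_
    rw [av_comm]
    simp only [av_mul_right]
    refine le_trans ?_ (mul_le_mul_of_nonneg_left h1 (by positivity))
    rw [← av_mul_left]
    refine av_mono fun x => ?_
    by_cases hx : av (ψ x) ≤ 1 + s
    · rw [ind_neg (not_not.2 hx), mul_zero]; positivity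
    · rw [ind_pos hx, mul_one]
      push Not at hx
      rw [abs_of_nonneg (by linarith)]
      have : 1 ≤ 1 / s * (av (ψ x) - 1) := by
        rw [one_div_mul_eq_div, le_div_iff₀ hs0]; linarith
      change av (ψ x) ≤ _
      linarith
  have hρ : |(av fun x => av (ψ x)) - 1| ≤ η0 := by
    rw [← av_const (α := X) (1 : ℝ), ← av_sub]
    exact (abs_av_le _).trans h1
  rw [abs_le] at hρ
  have loss : av (fun x => av fun o => ψ x o - ψ' x o) ≤ η - η0 := by
    refine (av_mono fun x => av_mono (hpt x)).trans ?_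
    simp only [av_add, av_mul_left]
    have hρ' : s * (av fun x => av fun o => ψ x o) ≤ s * 2 :=
      mul_le_mul_of_nonneg_left (by linarith [hρ.2]) hs0.le
    have := mul_le_mul_of_nonneg_left hc (N.cast_nonneg (α := ℝ))
    rw [hK] at e2
    linarith
  refine ⟨ψ', A, p0, fun x o => ?_, fun x o c h => inv x o c h.ne', bad, one, by linarith, ?_, hA⟩
  · rw [hψ, div_le_iff₀ h1s]
    exact mul_le_mul_of_nonneg_left ((ind_le_one _).trans (by linarith)) (h0 x o)
  · simp only [av_sub, av_const] at loss ⊢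
    linarith [hρ.1]

end NE
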