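import Pool.Agent.Lib.MP_ecee09_co.NE.GA

/-! Averages over block sizes and integrating out blocks. -/

namespace NE

open SD (av)
open ComplexConjugate Filter Topology
open scoped InnerProductSpace

set_option linter.unusedSectionVars false

section gen
variable {H : Type} [NormedAddCommGroup H] [InnerProductSpace ℂ H] [CompleteSpace H]

theorem tl_re_avs (n : ℕ) (Y : ℕ → H →L[ℂ] H) (z h : H) :
    (⟪z, Sys.avs n Y h⟫_ℂ).re = av fun t : Fin (n + 1) => (⟪z, Y (t + 1) h⟫_ℂ).re := by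
  have e : ((n + 1 : ℕ) : ℂ)⁻¹ = ((((n + 1 : ℕ) : ℝ)⁻¹ : ℝ) : ℂ) := by push_cast; rfl
  rw [SD.av_eq, Sys.avs, smul_apply, sum_apply,
    inner_smul_right, inner_sum, Finset.sum_range (fun t => ⟪z, Y (t + 1) h⟫_ℂ),
    Fintype.card_fin, e, Complex.re_ofReal_mul, Complex.re_sum, div_eq_inv_mul]

theorem tl_re_symm (u w : H) : (⟪u, w⟫_ℂ).re = (⟪w, u⟫_ℂ).re := by
  rw [← inner_conj_symm u w, Complex.conj_re]

theorem tl_re_self (u : H) : (⟪u, u⟫_ℂ).re = ‖u‖ ^ 2 := by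
  rw [inner_self_eq_norm_sq_to_K]; norm_cast

theorem tl_re_le (u w : H) : (⟪u, w⟫_ℂ).re ≤ ‖u‖ * ‖w‖ :=
  (Complex.re_le_norm _).trans (norm_inner_le_norm u w)

theorem tl_sq_avs (n : ℕ) (Y : ℕ → H →L[ℂ] H) (h : H) :
    ‖Sys.avs n Y h‖ ^ 2 = av fun t : Fin (n + 1) => av fun t' : Fin (n + 1) =>
      (⟪Y (t + 1) h, Y (t' + 1) h⟫_ℂ).re := by
  rw [← tl_re_self, tl_re_avs]
  refine SD.av_congr fun t => ?_
  rw [tl_re_symm, tl_re_avs]

theorem tl_star_inner (T : H →L[ℂ] H) (u w : H) : ⟪u, star T w⟫_ℂ = ⟪T u, w⟫_ℂ := by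
  rw [ContinuousLinearMap.star_eq_adjoint, ContinuousLinearMap.adjoint_inner_right]

theorem tl_inner_star (T : H →L[ℂ] H) (u w : H) : ⟪star T u, w⟫_ℂ = ⟪u, T w⟫_ℂ := by
  rw [ContinuousLinearMap.star_eq_adjoint, ContinuousLinearMap.adjoint_inner_left]

theorem tl_proj_move {p : H →L[ℂ] H} (hp : IsStarProjection p) (u w : H) :
    ⟪p u, w⟫_ℂ = ⟪u, p w⟫_ℂ := by
  rw [← tl_inner_star, hp.isSelfAdjoint.star_eq]

theorem tl_proj_idem {p : H →L[ℂ] H} (hp : IsStarProjection p) (u : H) : p (p u) = p u := by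
  rw [← mul_apply_eq_comp, hp.isIdempotentElem.eq]

theorem tl_proj_re {p : H →L[ℂ] H} (hp : IsStarProjection p) (u : H) :
    (⟪u, p u⟫_ℂ).re = ‖p u‖ ^ 2 := by
  rw [proj_inner_self hp, Complex.ofReal_re]

theorem tl_shift {Y : ℕ → H →L[ℂ] H} {C : ℝ} (h : ∀ t, ‖Y t‖ ≤ C) (n t : ℕ) :
    ‖Sys.avs n Y - Sys.avs n (fun s => Y (s + t))‖ ≤ 2 * t * C / (n + 1) := by
  have e1 := Finset.sum_range_add (fun s => Y (s + 1)) t (n + 1)
  have e2 := Finset.sum_range_add (fun s => Y (s + 1)) (n + 1) t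
  rw [add_comm (n + 1) t, e1] at e2
  have e3 : ∑ s ∈ Finset.range (n + 1), Y (s + 1) - ∑ s ∈ Finset.range (n + 1), Y (s + 1 + t) =
      ∑ s ∈ Finset.range t, Y (s + 1) - ∑ s ∈ Finset.range t, Y (n + 1 + s + 1) := by
    have e4 : ∑ s ∈ Finset.range (n + 1), Y (s + 1 + t) =
        ∑ s ∈ Finset.range (n + 1), Y (t + s + 1) :=
      Finset.sum_congr rfl fun s _ => by congr 1; omega
    rw [e4, sub_eq_sub_iff_add_eq_add, ← e2]
  have b : ∀ g : ℕ → ℕ, ‖∑ s ∈ Finset.range t, Y (g s)‖ ≤ t * C := fun g =>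
    (norm_sum_le _ _).trans ((Finset.sum_le_sum fun s _ => h (g s)).trans (by simp))
  rw [Sys.avs, Sys.avs, ← smul_sub, e3, norm_smul, norm_inv, Complex.norm_natCast,
    div_eq_inv_mul]
  push_cast
  refine mul_le_mul_of_nonneg_left ((norm_sub_le _ _).trans ?_) (by positivity)
  have := b (fun s => s + 1)
  have := b (fun s => n + 1 + s + 1)
  linarith

end gen

theorem tl_pi (f : ℕ ↪ ℕ) (b : Finset ℕ) (hb : ∀ i, f i ∉ b) (g : ℕ → ℕ)
    (hg : Set.InjOn g b) :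
    ∃ π : ℕ ↪ ℕ, (∀ j, π (f j) = 2 * j) ∧ ∀ i ∈ b, π i = 4 * g i + 1 := by
  classical
  refine ⟨⟨fun i => if h : ∃ j, f j = i then 2 * h.choose else
    if i ∈ b then 4 * g i + 1 else 4 * i + 3, fun i i' hi => ?_⟩, fun j => ?_, fun i hi => ?_⟩
  · simp only at hi
    split_ifs at hi with h1 h2 h3 h4 h5 h6 h7 h8
    · have : h1.choose = h2.choose := by omega
      rw [← h1.choose_spec, ← h2.choose_spec, this]
    all_goals first | omega | exact hg ‹_› ‹_› (by omega)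
  · have h : ∃ j', f j' = f j := ⟨j, rfl⟩
    show (if h : ∃ j', f j' = f j then 2 * h.choose else _) = _
    rw [dif_pos h, f.injective h.choose_spec]
  · have h : ¬ ∃ j, f j = i := fun ⟨j, hj⟩ => hb j (hj ▸ hi)
    show (if h : ∃ j', f j' = i then 2 * h.choose else _) = _
    rw [dif_neg h, if_pos hi]

theorem tl_refine {f f' : ℕ ↪ ℕ} {b b' : Finset ℕ} (hb : ∀ i, f i ∉ b) (hb' : ∀ i, f' i ∉ b')
    (hc : b.card = b'.card) :
    ∃ π π' : ℕ ↪ ℕ, f.trans π = f'.trans π' ∧ b.map π = b'.map π' := by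
  classical
  let e := Finset.equivOfCardEq hc
  let g : ℕ → ℕ := fun i => if h : i ∈ b then (e ⟨i, h⟩ : ℕ) else 0
  have hg : ∀ i (h : i ∈ b), g i = e ⟨i, h⟩ := fun i h => dif_pos h
  obtain ⟨π, h1, h2⟩ := tl_pi f b hb g fun i hi j hj hij => by
    rw [hg i hi, hg j hj] at hij
    exact congrArg Subtype.val (e.injective (Subtype.ext hij))
  obtain ⟨π', h1', h2'⟩ := tl_pi f' b' hb' id fun _ _ _ _ h => h
  refine ⟨π, π', ?_, ?_⟩
  · ext j; exact (h1 j).trans (h1' j).symm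
  · ext k
    simp only [Finset.mem_map]
    constructor
    · rintro ⟨i, hi, rfl⟩
      exact ⟨e ⟨i, hi⟩, (e ⟨i, hi⟩).2, by rw [h2' _ (e ⟨i, hi⟩).2, h2 i hi, hg i hi]; rfl⟩
    · rintro ⟨i, hi, rfl⟩
      refine ⟨e.symm ⟨i, hi⟩, (e.symm ⟨i, hi⟩).2, ?_⟩
      rw [h2 _ (e.symm ⟨i, hi⟩).2, h2' i hi, hg _ (e.symm ⟨i, hi⟩).2]
      simp

theorem tl_off_union {f : ℕ ↪ ℕ} {x y : Pat} (hx : Off f x) (hy : Off f y) : Off f (x ∪ y) :=
  fun c hc => (Finset.mem_union.1 hc).elim (hx c) (hy c)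

theorem tl_off_fr {f : ℕ ↪ ℕ} {b : Finset ℕ} (hb : ∀ i, f i ∉ b) (z : Finset ℕ) :
    Off f (fill b ∪ rect b z) := tl_off_union (off_rect hb _) (off_rect hb _)

theorem tl_sht (t i : ℕ) : sht t i ∉ Finset.range t := by
  simp [sht]

theorem tl_map_fix {f : ℕ ↪ ℕ} {R : Set ℕ} (hf : ∀ i ∈ R, f i = i) {a : Finset ℕ}
    (ha : (a : Set ℕ) ⊆ R) : a.map f = a := by
  ext k
  simp only [Finset.mem_map]
  exact ⟨fun ⟨i, hi, e⟩ => by rw [← e, hf i (ha hi)]; exact hi, fun h => ⟨k, h, hf k (ha h)⟩⟩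

theorem tl_supp_rect {a b : Finset ℕ} {R : Set ℕ} (ha : (a : Set ℕ) ⊆ R) (hb : (b : Set ℕ) ⊆ R) :
    Supp (rect a b) R := by
  intro c hc i hi
  obtain ⟨j, hj, k, hk, rfl⟩ := mem_rect.1 hc
  rcases Sym2.mem_iff.1 hi with rfl | rfl
  exacts [ha hj, hb hk]

theorem tl_supp_union {P P' : Pat} {R : Set ℕ} (h : Supp P R) (h' : Supp P' R) :
    Supp (P ∪ P') R := fun c hc => (Finset.mem_union.1 hc).elim (h c) (h' c)

theorem tl_supp_empty (R : Set ℕ) : Supp ∅ R := fun c hc => absurd hc (Finset.notMem_empty c)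

theorem tl_supp_mono {P : Pat} {R R' : Set ℕ} (h : Supp P R) (hR : R ⊆ R') : Supp P R' :=
  fun c hc i hi => hR (h c hc i hi)

theorem tl_rect_union (a b c : Finset ℕ) : rect (a ∪ b) c = rect a c ∪ rect b c :=
  Finset.image₂_union_left

theorem tl_fill_union (a b : Finset ℕ) : fill (a ∪ b) = fill a ∪ (fill b ∪ rect b a) := by
  rw [fill, tl_rect_union, rect_comm a, rect_comm b, tl_rect_union, tl_rect_union, fill, fill,
    rect_comm a b]
  ext c; simp only [Finset.mem_union]; tauto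

theorem tl_coinf {R : Set ℕ} (hR : Rᶜ.Infinite) (a : Finset ℕ) : (R ∪ (a : Set ℕ))ᶜ.Infinite := by
  rw [Set.compl_union]
  exact hR.sdiff a.finite_toSet

namespace Sys
variable {κ : Ker} {H : Type} [NormedAddCommGroup H] [InnerProductSpace ℂ H] [CompleteSpace H]
  (S : Sys κ H)

/-- a fresh block of size `t`, filled and joined to `a` -/
noncomputable def tlD (a : Finset ℕ) (t : ℕ) : H →L[ℂ] H :=
  star (S.V (sht t) ∅) *
    S.V (sht t) (fill (Finset.range t) ∪ rect (Finset.range t) (a.map (sht t)))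

theorem tlD_eq {f : ℕ ↪ ℕ} {b : Finset ℕ} (hb : ∀ i, f i ∉ b) (a : Finset ℕ) :
    S.tlD a b.card = star (S.V f ∅) * S.V f (fill b ∪ rect b (a.map f)) := by
  obtain ⟨π, π', h1, h2⟩ := tl_refine (tl_sht b.card) hb (Finset.card_range _)
  rw [tlD, ← S.rel (π := π) rfl (off_empty _) (tl_off_fr (tl_sht _) _),
    ← S.rel (π := π') rfl (off_empty _) (tl_off_fr hb _)]
  simp only [pmap, Finset.image_union, Finset.image_empty]
  have e : ∀ (g : ℕ ↪ ℕ) (x y : Finset ℕ),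
      Finset.image (Sym2.map g) (rect x y) = rect (x.map g) (y.map g) := pmap_rect
  simp only [fill, e, Finset.map_map, h1, h2]

theorem tlD_mem (a : Finset ℕ) (t : ℕ) : S.tlD a t ∈ Alg S.V (a : Set ℕ) := by
  refine S.gens_mem ⟨sht t, ∅, _, off_empty _,
    tl_off_union (off_rect (tl_sht _) _) (off_rect (tl_sht _) _), ?_, rfl⟩
  rintro c (hc | hc) i hi
  · exact absurd hc (Finset.notMem_empty c)
  · rcases Finset.mem_union.1 hc with hc | hc
    · obtain ⟨j, hj, k, hk, rfl⟩ := mem_rect.1 hc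
      rcases Sym2.mem_iff.1 hi with e | e
      exacts [absurd (e ▸ hj) (tl_sht t i), absurd (e ▸ hk) (tl_sht t i)]
    · obtain ⟨j, hj, k, hk, rfl⟩ := mem_rect.1 hc
      rcases Sym2.mem_iff.1 hi with e | e
      · exact absurd (e ▸ hj) (tl_sht t i)
      · rw [← e] at hk
        exact (Finset.mem_map' _).1 hk

theorem tl_fresh {R : Set ℕ} {f : ℕ ↪ ℕ} (hf : ∀ i ∈ R, f i = i) {Z : H →L[ℂ] H}
    (hZ : Z ∈ Alg S.V R) {P P' x x' : Pat} (hP : Supp P R) (hP' : Supp P' R) (hx : Off f x)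
    (hx' : Off f x') :
    ⟪S.v (P' ∪ x'), Z (S.v (P ∪ x))⟫_ℂ =
      ⟪S.v P', (star (S.V f x') * S.V f x) (Z (S.v P))⟫_ℂ := by
  rw [mul_apply_eq_comp, tl_star_inner, S.V_v f x' P' hx', pmap_fix hf hP',
    ← mul_apply_eq_comp (S.V f x), ← S.alg_V hZ hf hx, mul_apply_eq_comp,
    S.V_v f x P hx, pmap_fix hf hP]

theorem inner_tlD {R : Set ℕ} (hR : Rᶜ.Infinite) {a b : Finset ℕ} (hb : Disjoint (b : Set ℕ) R)
    (ha : (a : Set ℕ) ⊆ R) {Z : H →L[ℂ] H} (hZ : Z ∈ Alg S.V R) {P P' : Pat} (hP : Supp P R)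
    (hP' : Supp P' R) :
    ⟪S.v P', Z (S.v (P ∪ (fill b ∪ rect b a)))⟫_ℂ = ⟪S.v P', S.tlD a b.card (Z (S.v P))⟫_ℂ := by
  obtain ⟨f, hf, hfb⟩ := exists_fix hR b hb
  rw [S.tlD_eq hfb, tl_map_fix hf ha, ← S.tl_fresh hf hZ hP hP' (tl_off_fr hfb _) (off_empty _),
    Finset.union_empty]

theorem inner_Gpow {R : Set ℕ} (hR : Rᶜ.Infinite) {x y : Finset ℕ} (hx : (x : Set ℕ) ⊆ R)
    (hy : (y : Set ℕ) ⊆ R) {P P' : Pat} (hP : Supp P R) (hP' : Supp P' R) (a : Finset ℕ) :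
    Disjoint (a : Set ℕ) R → ∀ {Z : H →L[ℂ] H}, Z ∈ Alg S.V R →
    ⟪S.v (P' ∪ rect a y), Z (S.v (P ∪ rect a x))⟫_ℂ =
      ⟪S.v P', (S.G x y ^ a.card) (Z (S.v P))⟫_ℂ := by
  induction a using Finset.induction_on with
  | empty => intro _ Z _; simp [rect]
  | insert i a hi ih =>
    intro hd Z hZ
    rw [Finset.coe_insert, Set.disjoint_insert_left] at hd
    have hd' : Disjoint (({i} : Finset ℕ) : Set ℕ) (R ∪ a) := by
      rw [Finset.coe_singleton, Set.disjoint_singleton_left]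
      rintro (h | h)
      exacts [hd.1 h, hi h]
    obtain ⟨f, hf, hfi⟩ := exists_fix (tl_coinf hR a) {i} hd'
    have l : R ⊆ R ∪ a := Set.subset_union_left
    have r : (a : Set ℕ) ⊆ R ∪ a := Set.subset_union_right
    have hG : S.G x y = star (S.V f (rect {i} y)) * S.V f (rect {i} x) := by
      rw [S.G_eq (f := f) (i := i) (fun j e => hfi j (by simp [e])), tl_map_fix hf (hx.trans l),
        tl_map_fix hf (hy.trans l)]
    rw [Finset.card_insert_of_notMem hi, Finset.insert_eq, Finset.union_comm {i} a, tl_rect_union,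
      tl_rect_union, ← Finset.union_assoc, ← Finset.union_assoc, S.tl_fresh hf (S.alg_mono l hZ)
        (tl_supp_union (tl_supp_mono hP l) (tl_supp_rect r (hx.trans l)))
        (tl_supp_union (tl_supp_mono hP' l) (tl_supp_rect r (hy.trans l)))
        (off_rect hfi _) (off_rect hfi _), ← hG, ← mul_apply_eq_comp,
      ih hd.2 (mul_mem (S.alg_mono (Set.union_subset hx hy) (S.G_mem x y)) hZ), pow_succ]
    rfl

theorem inner_EQ0 {R : Set ℕ} (hR : Rᶜ.Infinite) {a y c : Finset ℕ}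
    (ha : Disjoint (a : Set ℕ) R) (hy : (y : Set ℕ) ⊆ R) (hc : (c : Set ℕ) ⊆ R)
    {Y : H →L[ℂ] H} (hY : Y ∈ Alg S.V R) {P P' : Pat} (hP : Supp P R) (hP' : Supp P' R) :
    ⟪S.v P', S.Q (a ∪ y) c (Y (S.v P))⟫_ℂ = ⟪S.v P', S.EQ a.card y c false ∅ (Y (S.v P))⟫_ℂ := by
  have := S.inner_EQ hR ha hy hc (z := ∅) (by simp) hY hP hP' false
  simpa [rect] using this

end Sys

end NE
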