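import Pool.Agent.Lib.MP_ecee09_co.NE.QQa
import Pool.Agent.Lib.MP_ecee09_co.NE.TL0

/-! A fresh block of random size has a uniform label. -/

namespace NE

open ComplexConjugate Filter Topology
open scoped InnerProductSpace

variable {κ : Ker} {H : Type} [NormedAddCommGroup H] [InnerProductSpace ℂ H] [CompleteSpace H]

theorem pib_avs_apply (n : ℕ) (Y : ℕ → H →L[ℂ] H) (u : H) :
    Sys.avs n Y u = ((n + 1 : ℕ) : ℂ)⁻¹ • ∑ t ∈ Finset.range (n + 1), Y (t + 1) u := by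
  simp only [Sys.avs, ContinuousLinearMap.smul_apply, ContinuousLinearMap.sum_apply]

namespace Sys
variable (S : Sys κ H)

theorem Pib_mem' (n : ℕ) (y c : Finset ℕ) : S.Pib n y c ∈ Alg S.V ((y : Set ℕ) ∪ c) :=
  SMulMemClass.smul_mem _ (sum_mem fun t _ => by simpa using S.EQ_mem (t + 1) y c false ∅)

end Sys

namespace Atom
variable {S : Sys κ H} {E : Type} [AddCommGroup E] [Fintype E] (A : Atom S E)

theorem Q_eq_of_fix {x y x' y' : Finset ℕ} {u : H}
    (h1 : ∀ w, A.La w = w → S.Q x y w = w → S.Q x' y' w = w)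
    (h2 : ∀ w, A.La w = w → S.Q x' y' w = w → S.Q x y w = w) (hu : A.La u = u) :
    S.Q x y u = S.Q x' y' u := by
  rw [← h1 (S.Q x y u) (by rw [A.La_Q, hu]) (S.Q_Q _ _ _), S.Q_comm,
    h2 (S.Q x' y' u) (by rw [A.La_Q, hu]) (S.Q_Q _ _ _)]

theorem EQ_shift (t : ℕ) (e e' : E) :
    S.EQ t (A.x 0 e') (A.x 2 (e + e')) false ∅ (A.La (S.v ∅)) =
      S.EQ t ∅ (A.x 1 e) false ∅ (A.La (S.v ∅)) := by
  obtain ⟨a, rfl, ha, -⟩ := exists_block t ∅
  have m1 : S.EQ a.card (A.x 0 e') (A.x 2 (e + e')) false ∅ ∈ Alg S.V Aa :=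
    S.alg_mono (by simpa using ⟨A.sub 0 e', A.sub 2 _⟩) (S.EQ_mem _ _ _ _ _)
  have m2 : S.EQ a.card ∅ (A.x 1 e) false ∅ ∈ Alg S.V Aa :=
    S.alg_mono (by simpa using A.sub 1 e) (S.EQ_mem _ _ _ _ _)
  rw [← sub_eq_zero]
  refine S.alg_ext0 (sub_mem (mul_mem m1 A.mem) (mul_mem m2 A.mem)) (S.v ∅) fun Z hZ => ?_
  have e1 := S.inner_EQ0 compl_Aa_inf ha (A.sub 0 e') (A.sub 2 (e + e')) (mul_mem A.mem hZ)
    (supp_empty _) (supp_empty _)
  have e2 := S.inner_EQ0 compl_Aa_inf (y := ∅) ha (by simp) (A.sub 1 e) (mul_mem A.mem hZ)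
    (supp_empty _) (supp_empty _)
  simp only [ContinuousLinearMap.mul_apply, ContinuousLinearMap.sub_apply, inner_sub_right,
    Finset.union_empty] at e1 e2 ⊢
  rw [← e1, ← e2, sub_eq_zero]
  congr 1
  have hq := S.Q_union (disj_of_Aa ha (A.sub 0 e')) (A.disj 1 0 e e' (by decide))
  refine A.Q_eq_of_fix (fun w hw h => ?_) (fun w hw h => ?_) (A.La_La _)
  · rw [← hq]
    exact S.Q_fix_trans h (S.Q_fix_symm (A.add_fix hw 2 e e' (by decide)))
  · rw [← hq] at h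
    exact S.Q_fix_trans h (A.add_fix hw 2 e e' (by decide))

theorem EQ_piece (t : ℕ) (r r' : Fin 3) (e : E) :
    S.EQ t ∅ (A.x r e) false ∅ (A.La (S.v ∅)) = S.EQ t ∅ (A.x r' e) false ∅ (A.La (S.v ∅)) := by
  obtain ⟨a, rfl, ha, -⟩ := exists_block t ∅
  have m : ∀ r, S.EQ a.card ∅ (A.x r e) false ∅ ∈ Alg S.V Aa := fun r =>
    S.alg_mono (by simpa using A.sub r e) (S.EQ_mem _ _ _ _ _)
  rw [← sub_eq_zero]
  refine S.alg_ext0 (sub_mem (mul_mem (m r) A.mem) (mul_mem (m r') A.mem)) (S.v ∅) fun Z hZ => ?_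
  have e1 := fun r => S.inner_EQ0 compl_Aa_inf (y := ∅) ha (by simp) (A.sub r e)
    (mul_mem A.mem hZ) (supp_empty _) (supp_empty _)
  simp only [ContinuousLinearMap.mul_apply, ContinuousLinearMap.sub_apply, inner_sub_right,
    Finset.union_empty] at e1 ⊢
  rw [← e1, ← e1, sub_eq_zero]
  congr 1
  exact A.Q_eq_of_fix (fun w hw h => S.Q_fix_trans h (A.same_fix hw r r' e))
    (fun w hw h => S.Q_fix_trans h (A.same_fix hw r' r e)) (A.La_La _)

theorem EQ_cover (t : ℕ) :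
    ∑ e, S.EQ t ∅ (A.x 0 e) false ∅ (A.La (S.v ∅)) = A.La (S.v ∅) := by
  obtain ⟨a, rfl, ha, -⟩ := exists_block t ∅
  rw [← sub_eq_zero]
  have hm : (∑ e, S.EQ a.card ∅ (A.x 0 e) false ∅ * A.La - A.La) ∈ Alg S.V Aa :=
    sub_mem (sum_mem fun e _ => mul_mem (A.EQx_mem a.card e false) A.mem) A.mem
  have := S.alg_ext0 hm (S.v ∅) fun Z hZ => by
    have e1 := fun e => S.inner_EQ0 compl_Aa_inf (y := ∅) ha (by simp) (A.sub 0 e)
      (mul_mem A.mem hZ) (supp_empty _) (supp_empty _)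
    simp only [ContinuousLinearMap.mul_apply, ContinuousLinearMap.sub_apply, inner_sub_right,
      ContinuousLinearMap.sum_apply, inner_sum, Finset.union_empty] at e1 ⊢
    simp only [← e1]
    rw [← inner_sum, A.cover_pat ha (noLoop_empty _) (S.mem_univ hZ), sub_self]
  simpa only [ContinuousLinearMap.mul_apply, ContinuousLinearMap.sub_apply,
    ContinuousLinearMap.sum_apply] using this

end Atom

theorem pib_of (hC : CD) : PIB := by
  intro κ H _ _ _ S E _ _ A e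
  have key : ∀ e' : E, Tendsto (fun n => S.Pib n ∅ (A.x 0 e) (A.La (S.v ∅)) -
      S.Pib n ∅ (A.x 0 e') (A.La (S.v ∅))) atTop (𝓝 0) := by
    intro e'
    rw [NormedAddGroup.tendsto_nhds_zero]
    intro δ hδ
    filter_upwards [hC κ H S (A.x 0 (e' - e)) _ (half_pos hδ)] with n h
    have h1 := h (A.x 2 e') (A.disj 0 2 _ _ (by decide))
    have e1 : S.Pib n ∅ (A.x 0 e) (A.La (S.v ∅)) =
        S.Pib n (A.x 0 (e' - e)) (A.x 2 e') (A.La (S.v ∅)) := by
      have := fun t => A.EQ_shift t e (e' - e)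
      simp only [add_sub_cancel] at this
      simp only [Sys.Pib, pib_avs_apply, this, A.EQ_piece _ 0 1]
    have e2 : S.Pib n ∅ (A.x 0 e') (A.La (S.v ∅)) = S.Pib n ∅ (A.x 2 e') (A.La (S.v ∅)) := by
      simp only [Sys.Pib, pib_avs_apply, A.EQ_piece _ 0 2]
    rw [e1, e2, S.alg_apply_comm (S.Pib_mem' _ _ _) A.mem, S.alg_apply_comm (S.Pib_mem' _ _ _) A.mem,
      ← map_sub]
    linarith [proj_norm_le A.proj (S.Pib n (A.x 0 (e' - e)) (A.x 2 e') (S.v ∅) -
      S.Pib n ∅ (A.x 2 e') (S.v ∅))]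
  have hs : ∀ n, ∑ e', S.Pib n ∅ (A.x 0 e') (A.La (S.v ∅)) = A.La (S.v ∅) := by
    intro n
    simp only [Sys.Pib, pib_avs_apply, ← Finset.smul_sum]
    rw [Finset.sum_comm]
    simp only [A.EQ_cover, Finset.sum_const, Finset.card_range, ← Nat.cast_smul_eq_nsmul ℂ,
      smul_smul]
    rw [inv_mul_cancel₀ (by exact_mod_cast Nat.succ_ne_zero n), one_smul]
  have t := ((tendsto_finsetSum Finset.univ fun e' _ => key e').add_const
    (A.La (S.v ∅))).const_smul (Fintype.card E : ℂ)⁻¹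
  simp only [Finset.sum_const_zero, zero_add, Finset.sum_sub_distrib, hs, sub_add_cancel,
    Finset.sum_const, Finset.card_univ, ← Nat.cast_smul_eq_nsmul ℂ, smul_smul] at t
  rw [inv_mul_cancel₀ (by exact_mod_cast Fintype.card_ne_zero)] at t
  simpa only [one_smul] using t

end NE
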