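import Pool.Agent.Lib.MP_ecee09_co.NE.QQc

/-! Decomposition of an atom along the quadratic functions with a given polar form. -/

namespace NE

open ComplexConjugate Filter Topology
open scoped InnerProductSpace

variable {κ : Ker} {H : Type} [NormedAddCommGroup H] [InnerProductSpace ℂ H] [CompleteSpace H]

theorem avs_apply (n : ℕ) (Y : ℕ → H →L[ℂ] H) (u : H) :
    Sys.avs n Y u = ((n + 1 : ℕ) : ℂ)⁻¹ • ∑ t ∈ Finset.range (n + 1), Y (t + 1) u := by
  simp only [Sys.avs, ContinuousLinearMap.smul_apply, ContinuousLinearMap.sum_apply]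

namespace Atom
variable {S : Sys κ H} {E : Type} [AddCommGroup E] [Fintype E] (A : Atom S E)

/-- the event on which fills act by the phase of `tau` -/
noncomputable def Rq (τ : QT E) : H →L[ℂ] H := kp {A.Wh (cq τ) 1 - 1}

theorem Rq_mem (τ : QT E) : A.Rq τ ∈ Alg S.V Aa :=
  S.kp_mem fun n hn => by
    rw [Set.mem_singleton_iff.1 hn]; exact sub_mem (A.Wh_mem _ _) (one_mem _)

theorem Rq_proj (τ : QT E) : IsStarProjection (A.Rq τ) := kp_proj _

theorem Wh_Rq (τ : QT E) (u : H) : A.Wh (cq τ) 1 (A.Rq τ u) = A.Rq τ u := by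
  have := congrArg (fun T : H →L[ℂ] H => T u)
    (mul_kp (N := {A.Wh (cq τ) 1 - 1}) (Set.mem_singleton _))
  simpa only [ContinuousLinearMap.mul_apply, ContinuousLinearMap.sub_apply,
    ContinuousLinearMap.one_apply, ContinuousLinearMap.zero_apply, sub_eq_zero, Rq] using this

theorem La_Rq (τ : QT E) (u : H) : A.La (A.Rq τ u) = A.Rq τ u := by
  rw [← A.Wh_Rq τ u, A.La_Wh]

theorem Rq_La (τ : QT E) : A.Rq τ * A.La = A.Rq τ := by
  ext u
  rw [ContinuousLinearMap.mul_apply, S.alg_apply_comm (A.Rq_mem τ) A.mem, A.La_Rq]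

theorem Wh_Rq0 (τ : QT E) (hR : A.Rect τ.be) (t : ℕ) :
    A.Wh (cq τ) (t + 1) (A.Rq τ (S.v ∅)) = A.Rq τ (S.v ∅) := by
  rw [S.alg_apply_comm (A.Wh_mem _ _) (A.Rq_mem τ), A.Wh_pow τ hR,
    ← S.alg_apply_comm (pow_mem (A.Wh_mem _ _) _) (A.Rq_mem τ)]
  induction t with
  | zero => simpa using A.Wh_Rq τ _
  | succ t ih => rw [pow_succ', ContinuousLinearMap.mul_apply, ih, A.Wh_Rq]

theorem avs_Wh (τ : QT E) (hR : A.Rect τ.be) :
    Tendsto (fun n => Sys.avs n (A.Wh (cq τ)) (S.v ∅)) atTop (𝓝 (A.Rq τ (S.v ∅))) := by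
  refine (avs_pow_tendsto (A.norm_Wh_le (norm_cq τ) 1) (S.v ∅)).congr fun n => ?_
  simp only [avs_apply, A.Wh_pow τ hR]

/-- (q1) -/
theorem Rq_fill (τ : QT E) (hR : A.Rect τ.be) (a : Finset ℕ) (P : Pat) (hne : a.Nonempty)
    (ha : Disjoint (a : Set ℕ) Aa) (hd : Disjoint P (fill a)) (hl : NoLoop P (Aa ∪ a)) :
    A.Rq τ (S.v (P ∪ fill a)) = A.Dd (fun e => ee (τ.q e)) a (A.Rq τ (S.v P)) := by
  have n1 : ‖A.Rq τ (S.v P)‖ = ‖A.Rq τ (S.v ∅)‖ :=
    S.norm_alg_v compl_Aa_inf (A.Rq_mem τ) fun i hi => hl i (Or.inl hi)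
  have n2 : ‖A.Rq τ (S.v (P ∪ fill a))‖ = ‖A.Rq τ (S.v ∅)‖ :=
    S.norm_alg_v compl_Aa_inf (A.Rq_mem τ) fun i hi h => by
      rcases Finset.mem_union.1 h with h | h
      · exact hl i (Or.inl hi) h
      · exact Set.disjoint_left.1 ha (loop_mem_rect.1 h).1 hi
  symm
  rw [← one_smul ℂ (A.Rq τ (S.v (P ∪ fill a)))]
  refine eq_of_inner (by simp) ?_ ?_
  · rw [n2, ← n1]; exact A.norm_Dd_le (fun e => by simp) a _
  · rw [A.inner_Dd, ← inner_conj_symm, S.alg_apply_comm (A.Dd_mem _ a) (A.Rq_mem τ),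
      ← proj_inner (A.Rq_proj τ) (S.v P), n2]
    have m : A.Rq τ * A.Dd (cq τ) a ∈ Alg S.V (Aa ∪ (a : Set ℕ)) :=
      mul_mem (S.alg_mono Set.subset_union_left (A.Rq_mem τ)) (A.Dd_mem _ a)
    have e1 := S.sd_union (compl_Aa_infinite a) m (fill a) ∅ P hd (Finset.disjoint_empty_right _)
      hl fun i hi => ⟨fun c hc h => hl i (Or.inr (supp_fill a subset_rfl c hc i h)) hi,
        fun c hc => absurd hc (Finset.notMem_empty _)⟩
    simp only [ContinuousLinearMap.mul_apply, Finset.empty_union, Finset.union_comm (fill a)] at e1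
    have e2 := A.inner_Wh (cq τ) compl_Aa_inf subset_rfl ha (A.Rq_mem τ) (supp_empty _)
      (supp_empty _)
    obtain ⟨t, ht⟩ := Nat.exists_eq_succ_of_ne_zero hne.card_pos.ne'
    rw [Finset.empty_union, S.alg_apply_comm (A.Dd_mem _ a) (A.Rq_mem τ), ht, A.Wh_Rq0 τ hR] at e2
    show conj ⟪S.v P, A.Rq τ (A.Dd (cq τ) a (S.v (P ∪ fill a)))⟫_ℂ = _
    rw [e1, e2, proj_inner_self (A.Rq_proj τ), Complex.conj_ofReal, one_mul]

theorem Rq_orth (hP : PIB) (τ τ' : QT E) (hR : A.Rect τ.be) (hR' : A.Rect τ'.be) {e : E}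
    (he : τ.q e ≠ τ'.q e) : A.Rq τ (A.Rq τ' (S.v ∅)) = 0 := by
  set u := A.Rq τ (A.Rq τ' (S.v ∅)) with hu
  have cm : ∀ w, A.Rq τ (A.Rq τ' w) = A.Rq τ' (A.Rq τ w) :=
    S.alg_apply_comm (A.Rq_mem τ) (A.Rq_mem τ')
  have hY : A.Rq τ * A.Rq τ' ∈ Alg S.V Aa := mul_mem (A.Rq_mem τ) (A.Rq_mem τ')
  have hL : A.La u = u := A.La_Rq τ _
  have h0 : ∀ t, ⟪S.v ∅, S.EQ (t + 1) ∅ (A.x 0 e) false ∅ u⟫_ℂ = 0 := by
    intro t
    obtain ⟨a, hc, ha, -⟩ := exists_block (t + 1) ∅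
    have hne : a.Nonempty := Finset.card_pos.1 (by omega)
    have q1 := A.Rq_fill τ hR a ∅ hne ha (Finset.disjoint_empty_left _) (noLoop_empty _)
    have q2 := A.Rq_fill τ' hR' a ∅ hne ha (Finset.disjoint_empty_left _) (noLoop_empty _)
    have e1 : A.Dd (fun e => ee (τ.q e)) a u = A.Dd (fun e => ee (τ'.q e)) a u := by
      rw [hu, S.alg_apply_comm (A.Dd_mem (fun e => ee (τ'.q e)) a) (A.Rq_mem τ), ← q2, cm, cm,
        S.alg_apply_comm (A.Dd_mem (fun e => ee (τ.q e)) a) (A.Rq_mem τ'), ← q1]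
    have e2 := congrArg (S.Q a (A.x 0 e)) e1
    rw [A.Q_Dd, A.Q_Dd, hL, ← sub_eq_zero, ← sub_smul, smul_eq_zero] at e2
    have e3 := e2.resolve_left fun h => he (ee_inj (sub_eq_zero.1 h))
    have := S.inner_EQ compl_Aa_inf (a := a) (y := ∅) (c := A.x 0 e) (z := ∅) ha (by simp)
      (A.sub 0 e) (by simp) hY (supp_empty _) (supp_empty _) false
    simp only [Finset.union_empty, rect, Finset.image₂_empty_right,
      ContinuousLinearMap.mul_apply, Bool.false_eq_true, if_false, ← hu, e3, hc,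
      inner_zero_right] at this
    exact this.symm
  have hp : IsStarProjection (A.Rq τ * A.Rq τ') :=
    (kp_proj _).mul (kp_proj _) (S.alg_comm (A.Rq_mem τ) (A.Rq_mem τ'))
  have t1 := ((A.Rq τ * A.Rq τ').continuous.tendsto _).comp (hP κ H S E A e)
  have t2 := (tendsto_const_nhds (x := S.v ∅)).inner (𝕜 := ℂ) t1
  have hYL : (A.Rq τ * A.Rq τ') (A.La (S.v ∅)) = u := by
    rw [S.alg_apply_comm hY A.mem]; exact hL
  have z : (fun n => ⟪S.v ∅, ((A.Rq τ * A.Rq τ') ∘ fun n =>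
      S.Pib n ∅ (A.x 0 e) (A.La (S.v ∅))) n⟫_ℂ) = fun _ => 0 := by
    funext n
    simp only [Function.comp, Sys.Pib, avs_apply, map_smul, map_sum, inner_smul_right, inner_sum,
      S.alg_apply_comm hY (A.EQx_mem _ e false), hYL, h0, Finset.sum_const_zero, mul_zero]
  rw [z] at t2
  have t3 := tendsto_nhds_unique t2 tendsto_const_nhds
  rw [map_smul, hYL, inner_smul_right] at t3
  have t4 := (mul_eq_zero.1 t3).resolve_left (inv_ne_zero (by exact_mod_cast Fintype.card_ne_zero))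
  have t5 := proj_inner_self hp (S.v ∅)
  rw [ContinuousLinearMap.mul_apply, ← hu, t4] at t5
  have : ‖u‖ ^ 2 = 0 := by exact_mod_cast t5.symm
  simpa using this

theorem Tf_La (t : ℕ) : S.Tf t (A.La (S.v ∅)) = A.Wh (fun _ => 1) t (S.v ∅) := by
  obtain ⟨a, rfl, ha, -⟩ := exists_block t ∅
  rw [← sub_eq_zero]
  have hm := sub_mem (mul_mem (S.alg_mono (Set.empty_subset Aa) (S.Tf_mem a.card)) A.mem)
    (A.Wh_mem (fun _ => 1) a.card)
  refine S.alg_ext0 hm (S.v ∅) fun Z hZ => ?_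
  rw [ContinuousLinearMap.sub_apply, inner_sub_right, sub_eq_zero, ContinuousLinearMap.mul_apply,
    ← A.inner_Wh _ compl_Aa_inf subset_rfl ha hZ (supp_empty _) (supp_empty _), A.inner_Dd]
  have e1 := S.inner_Tf compl_Aa_inf ha (mul_mem A.mem hZ) (supp_empty _) (supp_empty _)
  simp only [ContinuousLinearMap.mul_apply] at e1
  rw [← e1, Dd_apply]
  simp only [map_one, one_smul, A.cover a ha]
  rw [← ContinuousLinearMap.adjoint_inner_left, ← ContinuousLinearMap.star_eq_adjoint,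
    A.proj.isSelfAdjoint.star_eq]

end Atom

/-- the types with the polar form of `tau` -/
def QT.tws {E : Type} [AddCommGroup E] (τ : QT E) (u : E) : QT E where
  q x := τ.q x + τ.be u x
  be := τ.be
  q_add x y := by rw [τ.q_add, map_add]; abel

theorem sum_gs {E : Type} [AddCommGroup E] [Fintype E] {τ : QT E} (h : τ.ND) (e : E) :
    ∑ u, gs (τ.tws u) * Atom.cq (τ.tws u) e = 1 := by
  have : ∀ u, gs (τ.tws u) * Atom.cq (τ.tws u) e =
      cav fun x => ee (τ.q x - τ.q e) * ee (τ.be u (x - e)) := by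
    intro u
    rw [gs, ← cav_mul_right]
    refine cav_congr fun x => ?_
    rw [Atom.cq, ← ee_sub, ← ee_add, map_sub]
    congr 1
    show τ.q x + τ.be u x - (τ.q e + τ.be u e) = _
    abel
  simp only [this]
  rw [← csm_eq, csm_eq_card_mul_cav, cav_comm]
  simp only [cav_mul_left, h.cav_be, sub_eq_zero]
  simp only [mul_comm (ee _), cav_ind_eq, sub_self, ee_zero]
  have : (Nat.card E : ℂ) ≠ 0 := by exact_mod_cast Nat.card_pos.ne'
  field_simp

theorem qq_of (hP : PIB) (hQ : QEX) : QQ := by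
  intro κ H _ _ _ S E _ _ A be hs hn hR
  obtain ⟨τ, rfl⟩ := hQ E be hs
  have hn : τ.ND := hn
  let φ := (Fintype.equivFin E).symm
  have ho : ∀ u u', u ≠ u' → A.Rq (τ.tws u) (A.Rq (τ.tws u') (S.v ∅)) = 0 := by
    intro u u' h
    have : ∃ e, τ.be u e ≠ τ.be u' e := by
      by_contra hc
      push Not at hc
      exact h (hn.inj (AddMonoidHom.ext hc))
    obtain ⟨e, he⟩ := this
    exact A.Rq_orth hP (τ.tws u) (τ.tws u') hR hR (e := e) fun h => he (add_left_cancel h)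
  refine ⟨_, fun j => A.Rq (τ.tws (φ j)), fun j => τ.tws (φ j),
    fun j => ⟨hn, kp_proj _, A.Rq_mem _, A.Rq_La _⟩,
    fun j j' h => ho _ _ (φ.injective.ne h), ?_, fun j K _ jj hj hj' P P' =>
      A.blow_tendsto hP (τ.tws (φ j)) hR (kp_proj _) (A.Rq_mem _) (A.Rq_La _)
        (A.Rq_fill (τ.tws (φ j)) hR) K jj hj hj' P P'⟩
  rw [φ.sum_comp fun u => A.Rq (τ.tws u) (S.v ∅)]
  have e1 : ∀ n, S.Tb n (A.La (S.v ∅)) =
      ∑ u, gs (τ.tws u) • Sys.avs n (A.Wh (Atom.cq (τ.tws u))) (S.v ∅) := by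
    intro n
    simp only [Sys.Tb, avs_apply, A.Tf_La, A.Wh_apply, smul_comm (gs _) (((n + 1 : ℕ) : ℂ)⁻¹),
      ← Finset.smul_sum]
    congr 1
    simp only [Finset.smul_sum, smul_smul]
    rw [Finset.sum_comm (s := Finset.univ)]
    refine Finset.sum_congr rfl fun t _ => ?_
    rw [Finset.sum_comm]
    simp only [← Finset.sum_smul, sum_gs hn]
  have t1 : Tendsto (fun n => S.Tb n (A.La (S.v ∅))) atTop
      (𝓝 (∑ u, gs (τ.tws u) • A.Rq (τ.tws u) (S.v ∅))) := by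
    simp only [e1]
    exact tendsto_finsetSum _ fun u _ => (A.avs_Wh (τ.tws u) hR).const_smul _
  have t2 : ∀ u, Tendsto (fun n => S.Tb n (A.Rq (τ.tws u) (S.v ∅))) atTop
      (𝓝 (gs (τ.tws u) • A.Rq (τ.tws u) (S.v ∅))) := by
    intro u
    have := ((A.Rq (τ.tws u)).continuous.tendsto _).comp t1
    rw [map_sum, Finset.sum_eq_single u (fun u' _ h => by rw [map_smul, ho _ _ h.symm, smul_zero])
      (by simp), map_smul] at this
    have id : A.Rq (τ.tws u) (A.Rq (τ.tws u) (S.v ∅)) = A.Rq (τ.tws u) (S.v ∅) :=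
      congrArg (fun T : H →L[ℂ] H => T (S.v ∅)) (kp_proj _).isIdempotentElem.eq
    rw [id] at this
    refine this.congr fun n => ?_
    simp only [Function.comp]
    rw [S.alg_apply_comm (A.Rq_mem _) (S.Tb_mem n), S.alg_apply_comm (A.Rq_mem _) A.mem, A.La_Rq]
  have t3 := t1.sub (tendsto_finsetSum Finset.univ fun u _ => t2 u)
  rw [sub_self] at t3
  refine t3.congr fun n => ?_
  rw [map_sub, map_sum]

end NE
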