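import Pool.Agent.Lib.MP_ecee09_co.NE.Main
import Pool.Agent.Lib.MP_ecee09_co.NE.FamC
import Pool.Agent.Lib.MP_ecee09_co.NE.Fld

/-! The potential drops: `STEP` from `TOPA` and `TOPG`. -/

namespace NE

open SD (F sm av ind cnt Tame ind_nonneg ind_le_one ind_pos ind_neg)

theorem st_av_le {α : Type} [Finite α] {f : α → ℝ} {M : ℝ} (hM : 0 ≤ M) (h : ∀ x, f x ≤ M) :
    av f ≤ M := by
  cases isEmpty_or_nonempty α with
  | inl _ => simpa [av] using hM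
  | inr _ => exact SD.av_le_const h

theorem norm_ann_le {E K : Type} [Finite E] {f : Om (Tst E ⊕ K) → ℂ} (hf : ∀ P, ‖f P‖ ≤ 1)
    (P : Om (Tst E ⊕ K)) : ‖ann f P‖ ≤ Nat.card (Set (E × E)) := by
  let _ := Fintype.ofFinite (Set (E × E))
  rw [ann, csm, finsum_eq_sum_of_fintype, Nat.card_eq_fintype_card]
  refine (norm_sum_le _ _).trans ((Finset.sum_le_card_nsmul _ _ 1 fun S _ => ?_).trans (by simp))
  rw [norm_mul, norm_mul, norm_pow, norm_neg, norm_one, one_pow, mul_one, Complex.norm_real,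
    Real.norm_eq_abs, SD.abs_ind]
  exact mul_le_one₀ (ind_le_one _) (norm_nonneg _) (hf _)

theorem SE_le {E K N : Type} [AddCommGroup E] [Finite E] [Finite K] [Finite N] {τ : QT E}
    (hτ : τ.ND) {f : Om (Tst E ⊕ K) → ℂ} (hf : ∀ P, ‖f P‖ ≤ 1) :
    SE τ N f ≤ (Nat.card (Set (E × E)) : ℝ) ^ 2 :=
  st_av_le (sq_nonneg _) fun _ => st_av_le (sq_nonneg _) fun _ => (fen_le_n2 hτ _).trans
    (st_av_le (sq_nonneg _) fun _ => pow_le_pow_left₀ (norm_nonneg _) (norm_ann_le hf _) 2)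

theorem st_pos {m : ℕ} (g : Fin m → ℝ) (hg : ∀ i, 0 < g i) : ∃ c, 0 < c ∧ ∀ i, c ≤ g i := by
  cases isEmpty_or_nonempty (Fin m) with
  | inl _ => exact ⟨1, one_pos, fun i => isEmptyElim i⟩
  | inr _ =>
    obtain ⟨i, hi⟩ := Finite.exists_min g
    exact ⟨g i, hg i, hi⟩

/-- cells with a gain and cells without: the composed family -/
theorem st_comp {I L K : Type} [Finite I] [Finite L] [Finite K] (B : OFam I L) {J J0 : ℕ}
    (hJ : J ≤ J0) (f : Om I → ℂ) (s : Om I → Lab I L → ℝ) {μ M c η : ℝ} (hμ : 0 < μ) (hM : 0 < M)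
    (hc : 0 ≤ c) (hs : ∀ x Φ, s x Φ ≤ M) (h1 : μ ≤ B.E s)
    (h2 : ∀ x Φ, μ / 2 ≤ s x Φ → ∃ S : OFam L K, S.junk ≤ η ∧ pen (Low J L) (ores f x Φ) + c ≤
      S.E fun y Ψ => pen (Low J K) (ores (ores f x Φ) y Ψ)) :
    ∃ B' : OFam I K, B'.junk ≤ B.junk + η ∧
      (B'.E fun x Φ => pot J0 (ores f x Φ)) ≤ pot J0 f - c * (μ / (2 * M)) := by
  obtain ⟨x0, Φ0, h0⟩ := Fam.exists_le B s
  obtain ⟨S0, hS0, -⟩ := h2 x0 Φ0 (by linarith)
  have h3 : ∀ x Φ, ∃ S : OFam L K, S.junk ≤ η ∧ (S.E fun y Ψ => pot J0 (ores (ores f x Φ) y Ψ)) ≤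
      pot J0 (ores f x Φ) - c * ind (μ / 2 ≤ s x Φ) := fun x Φ => by
    by_cases q : μ / 2 ≤ s x Φ
    · obtain ⟨S, a1, a2⟩ := h2 x Φ q
      exact ⟨S, a1, by rw [ind_pos q, mul_one]; exact E_pot_le S hJ _ a2⟩
    · exact ⟨S0, hS0, by rw [ind_neg q, mul_zero, sub_zero]; exact E_pot_mono S0 J0 _⟩
  choose S a1 a2 using h3
  obtain ⟨B', b1, b2⟩ := Fam.ocomp B S
  refine ⟨B', b2.trans (by linarith [Fam.le_const B a1]), ?_⟩
  have e : ∀ x Φ y Ψ, ores f (ow x Φ y) (lcomp Φ Ψ) = ores (ores f x Φ) y (Ψ : Lab L K) :=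
    fun x Φ y Ψ => funext fun P => congrArg f (ow_lcomp x Φ Ψ y P)
  have b3 := Fam.mono B a2
  have b4 := mul_le_mul_of_nonneg_left (Fam.rev_markov B hμ.le hM hs h1) hc
  have b5 := E_pot_mono B J0 f
  rw [Fam.sub, B.smul] at b3
  rw [b1]
  simp only [e]
  linarith

theorem step_of (hA : TOPA) (hG : ∀ σ : Ty, σ.τ.ND → Nontrivial σ.E → TOPG σ.τ) : STEP := by
  intro θ hθ
  obtain ⟨J0, m, σ, μ, hμ, hσ, hA⟩ := hA θ hθ
  choose c c0 hc using fun i => hG (σ i) (hσ i).1 (hσ i).2.1 (μ / 2) (half_pos hμ)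
  have M0 : ∀ i, (0 : ℝ) < (Nat.card (Set ((σ i).E × (σ i).E)) : ℝ) ^ 2 := fun i =>
    pow_pos SD.card_pos' 2
  obtain ⟨d, d0, hd⟩ := st_pos
    (fun i => c i * (μ / (2 * (Nat.card (Set ((σ i).E × (σ i).E)) : ℝ) ^ 2)))
    fun i => mul_pos (c0 i) (div_pos hμ (mul_pos two_pos (M0 i)))
  refine ⟨J0, d, d0, fun K _ η hη => ?_⟩
  choose N K' hN hK using fun i => hc i K (η / 2) (half_pos hη)
  obtain ⟨n0, hn⟩ := hA N K' hN (η / 2) (half_pos hη)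
  refine ⟨n0, fun I _ hI A hi hθA => ?_⟩
  obtain ⟨i, B, b1, b2⟩ := hn I hI A hi hθA
  obtain ⟨B', a1, a2⟩ := st_comp (K := K) B (hσ i).2.2 (cind A) _ hμ (M0 i) (c0 i).le
    (fun x Φ => SE_le (hσ i).1 fun P => norm_cind_le A _) b2
    fun x Φ q => hK i _ (fun P => norm_cind_le A _) q
  exact ⟨B', by linarith, by linarith [hd i]⟩

end NE
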