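import Pool.Agent.Lib.MP_ecee09_co.NE.TL0

/-! The fill bound by the collision probability. -/

namespace NE

open SD (av)
open ComplexConjugate Filter Topology
open scoped InnerProductSpace

/-- a block of size `t` of odd numbers with offset `o` -/
def tlB (o t : ℕ) : Finset ℕ := (Finset.range t).image fun i => 4 * (i + o) + 1

/-- the second kind of block -/
def tlC (t : ℕ) : Finset ℕ := (Finset.range t).image fun i => 4 * i + 3

theorem mem_tlB {o t j : ℕ} : j ∈ tlB o t ↔ ∃ i < t, 4 * (i + o) + 1 = j := by simp [tlB]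

theorem mem_tlC {t j : ℕ} : j ∈ tlC t ↔ ∃ i < t, 4 * i + 3 = j := by simp [tlC]

theorem card_tlB (o t : ℕ) : (tlB o t).card = t := by
  rw [tlB, Finset.card_image_of_injective _ fun i j h => by omega,
    Finset.card_range]

theorem card_tlC (t : ℕ) : (tlC t).card = t := by
  rw [tlC, Finset.card_image_of_injective _ fun i j h => by omega,
    Finset.card_range]

theorem tlB_Aa (o t : ℕ) : Disjoint (tlB o t : Set ℕ) Aa := by
  rw [Set.disjoint_left]
  intro j hj h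
  obtain ⟨i, _, rfl⟩ := mem_tlB.1 hj
  obtain ⟨k, hk⟩ := h
  omega

theorem tlC_Aa (t : ℕ) : Disjoint (tlC t : Set ℕ) Aa := by
  rw [Set.disjoint_left]
  intro j hj h
  obtain ⟨i, _, rfl⟩ := mem_tlC.1 hj
  obtain ⟨k, hk⟩ := h
  omega

theorem tlB_B {o t o' t' : ℕ} (h : o + t ≤ o') : Disjoint (tlB o t : Set ℕ) (tlB o' t') := by
  rw [Set.disjoint_left]
  intro j hj h
  obtain ⟨i, _, rfl⟩ := mem_tlB.1 hj
  obtain ⟨k, _, hk⟩ := mem_tlB.1 h
  omega

theorem tlC_B (t o' t' : ℕ) : Disjoint (tlC t : Set ℕ) (tlB o' t') := by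
  rw [Set.disjoint_left]
  intro j hj h
  obtain ⟨i, _, rfl⟩ := mem_tlC.1 hj
  obtain ⟨k, _, hk⟩ := mem_tlB.1 h
  omega

theorem tl_noloop {c : Finset ℕ} {R : Set ℕ} (h : Disjoint (c : Set ℕ) R) : NoLoop (fill c) R := by
  intro i hi hc
  obtain ⟨j, hj, k, hk, e⟩ := mem_rect.1 hc
  have : j = i := by
    rcases Sym2.eq_iff.1 e with e | e
    exacts [e.1, e.1]
  exact Set.disjoint_left.1 h (this ▸ hj) hi

namespace Sys
variable {κ : Ker} {H : Type} [NormedAddCommGroup H] [InnerProductSpace ℂ H] [CompleteSpace H]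
  (S : Sys κ H) {Y : H →L[ℂ] H}

/-- splitting a filled block in two -/
theorem tl_one {Z : H →L[ℂ] H} (hZ : Z ∈ Alg S.V Aa) {a b : Finset ℕ}
    (ha : Disjoint (a : Set ℕ) Aa) (hb : Disjoint (b : Set ℕ) Aa)
    (hab : Disjoint (b : Set ℕ) a) :
    ⟪Z (S.v ∅), S.Tf (a.card + b.card) (S.v ∅)⟫_ℂ =
      ⟪Z (star (S.tlD a b.card) (S.v ∅)), S.v (fill a)⟫_ℂ := by
  have hZ' : star Z ∈ Alg S.V Aa := star_mem hZ
  have hc : (a ∪ b).card = a.card + b.card :=
    Finset.card_union_of_disjoint (Finset.disjoint_coe.1 hab.symm)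
  have h1 := S.inner_Tf (R := Aa) (by simpa using compl_Aa_infinite ∅) (a := a ∪ b)
    (by rw [Finset.coe_union]; exact Set.disjoint_union_left.2 ⟨ha, hb⟩) hZ'
    (tl_supp_empty _) (tl_supp_empty _)
  have h2 := S.inner_tlD (compl_Aa_infinite a) (a := a) (b := b)
    (Set.disjoint_union_right.2 ⟨hb, hab⟩) Set.subset_union_right
    (S.alg_mono Set.subset_union_left hZ') (P := fill a) (P' := ∅)
    (tl_supp_rect Set.subset_union_right Set.subset_union_right) (tl_supp_empty _)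
  rw [Finset.empty_union, tl_fill_union, h2, hc, S.alg_apply_comm (S.Tf_mem _) hZ',
    tl_star_inner] at h1
  rw [← h1, ← tl_inner_star, tl_star_inner]

theorem tl_two (hY : IsStarProjection Y) (hm : Y ∈ Alg S.V Aa) {a b c : Finset ℕ}
    (ha : Disjoint (a : Set ℕ) Aa) (hb : Disjoint (b : Set ℕ) Aa) (hc : Disjoint (c : Set ℕ) Aa)
    (hba : Disjoint (b : Set ℕ) a) (hca : Disjoint (c : Set ℕ) a)
    (hcb : Disjoint (c : Set ℕ) b) :
    ⟪(Y * star (S.tlD a c.card)) (S.v ∅), (Y * star (S.tlD a b.card)) (S.v ∅)⟫_ℂ =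
      ⟪S.v (fill b), (S.G c b ^ a.card) (Y (S.v (fill c)))⟫_ℂ := by
  have l := @Set.subset_union_left ℕ
  have r := @Set.subset_union_right ℕ
  have h1 := S.inner_Gpow (tl_coinf (compl_Aa_infinite b) c) (x := c) (y := b) r (r.trans l)
    (P := fill c) (P' := fill b) (tl_supp_rect r r) (tl_supp_rect (r.trans l) (r.trans l)) a
    (Set.disjoint_union_right.2 ⟨Set.disjoint_union_right.2 ⟨ha, hba.symm⟩, hca.symm⟩)
    (S.alg_mono (l.trans l) hm)
  have h2 := S.inner_tlD (tl_coinf (compl_Aa_infinite a) b) (a := a) (b := c)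
    (Set.disjoint_union_right.2 ⟨Set.disjoint_union_right.2 ⟨hc, hca⟩, hcb⟩) (r.trans l)
    (S.alg_mono (l.trans l) hm) (P := ∅) (P' := fill b ∪ rect b a) (tl_supp_empty _)
    (tl_supp_union (tl_supp_rect r r) (tl_supp_rect r (r.trans l)))
  have m1 : S.tlD a c.card * Y ∈ Alg S.V (Aa ∪ a) :=
    mul_mem (S.alg_mono r (S.tlD_mem _ _)) (S.alg_mono l hm)
  have h3 := S.inner_tlD (compl_Aa_infinite a) (a := a) (b := b)
    (Set.disjoint_union_right.2 ⟨hb, hba⟩) r (star_mem m1) (P := ∅) (P' := ∅)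
    (tl_supp_empty _) (tl_supp_empty _)
  rw [Finset.empty_union] at h2 h3
  rw [S.alg_apply_comm (S.tlD_mem _ _) (star_mem m1), tl_star_inner, tl_star_inner] at h3
  have h4 := congrArg conj h3
  rw [inner_conj_symm, inner_conj_symm] at h4
  rw [← h1, rect_comm a b, rect_comm a c, h2, ← mul_apply_eq_comp, h4, mul_apply_eq_comp,
    mul_apply_eq_comp, mul_apply_eq_comp, tl_proj_move hY, tl_proj_idem hY, tl_inner_star,
    S.alg_apply_comm hm (star_mem (S.tlD_mem _ _)),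
    S.alg_apply_comm (S.tlD_mem _ _) (star_mem (S.tlD_mem _ _)), tl_star_inner]

theorem tl_three (hY : IsStarProjection Y) (hm : Y ∈ Alg S.V Aa) {b b' c : Finset ℕ}
    (hb : Disjoint (b : Set ℕ) Aa) (hb' : Disjoint (b' : Set ℕ) Aa)
    (hc : Disjoint (c : Set ℕ) Aa) (hbc : Disjoint (b : Set ℕ) c)
    (hbc' : Disjoint (b' : Set ℕ) c) (hbb : Disjoint (b' : Set ℕ) b) :
    (⟪S.EQ b.card ∅ c false ∅ (Y (S.v (fill c))), S.EQ b'.card ∅ c false ∅ (Y (S.v (fill c)))⟫_ℂ).re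
      ≤ ‖S.Q b b' (Y (S.v ∅))‖ ^ 2 := by
  have l := @Set.subset_union_left ℕ
  have r := @Set.subset_union_right ℕ
  have mE : S.EQ b'.card ∅ c false ∅ ∈ Alg S.V (Aa ∪ c) :=
    S.alg_mono (by simp) (S.EQ_mem _ _ _ _ _)
  have h1 := S.inner_EQ0 (compl_Aa_infinite c) (a := b) (y := ∅) (c := c)
    (Set.disjoint_union_right.2 ⟨hb, hbc⟩) (by simp) r (mul_mem mE (S.alg_mono l hm))
    (P := fill c) (P' := fill c) (tl_supp_rect r r) (tl_supp_rect r r)
  have mQ : S.Q b c * Y ∈ Alg S.V (Aa ∪ c ∪ b) :=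
    mul_mem (S.alg_mono (Set.union_subset r (r.trans l)) (S.Q_mem _ _)) (S.alg_mono (l.trans l) hm)
  have h2 := S.inner_EQ0 (tl_coinf (compl_Aa_infinite c) b) (a := b') (y := ∅) (c := c)
    (Set.disjoint_union_right.2 ⟨Set.disjoint_union_right.2 ⟨hb', hbc'⟩, hbb⟩) (by simp)
    (r.trans l) mQ (P := fill c) (P' := fill c) (tl_supp_rect (r.trans l) (r.trans l))
    (tl_supp_rect (r.trans l) (r.trans l))
  rw [Finset.union_empty, mul_apply_eq_comp] at h1 h2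
  have pp : IsStarProjection (S.Q b c * S.Q c b') :=
    (S.Q_proj _ _).mul (S.Q_proj _ _) (S.alg_comm (S.Q_mem _ _) (S.Q_mem _ _))
  have mp : S.Q b c * S.Q c b' ∈ Alg S.V Set.univ :=
    mul_mem (S.alg_mono (Set.subset_univ _) (S.Q_mem _ _))
      (S.alg_mono (Set.subset_univ _) (S.Q_mem _ _))
  have pY : IsStarProjection (S.Q b c * S.Q c b' * Y) := pp.mul hY (S.alg_comm mp hm)
  have h3 : ⟪S.EQ b.card ∅ c false ∅ (Y (S.v (fill c))),
      S.EQ b'.card ∅ c false ∅ (Y (S.v (fill c)))⟫_ℂ =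
      ⟪S.v (fill c), (S.Q b c * S.Q c b' * Y) (S.v (fill c))⟫_ℂ := by
    rw [← tl_star_inner, S.star_EQ0, tl_proj_move hY, S.alg_apply_comm hm (S.EQ_mem _ _ _ _ _),
      S.alg_apply_comm hm (S.EQ_mem _ _ _ _ _), tl_proj_idem hY, ← h1,
      S.alg_apply_comm (S.Q_mem _ _) (S.EQ_mem _ _ _ _ _), ← h2,
      S.alg_apply_comm (S.Q_mem _ _) (S.Q_mem _ _), S.Q_symm b' c]
    rfl
  have h4 : ‖(S.Q b b' * Y) (S.v (fill c))‖ = ‖(S.Q b b' * Y) (S.v ∅)‖ :=
    S.norm_alg_v (tl_coinf (compl_Aa_infinite b) b')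
      (mul_mem (S.alg_mono (Set.union_subset (r.trans l) r) (S.Q_mem _ _))
        (S.alg_mono (l.trans l) hm))
      (tl_noloop (Set.disjoint_union_right.2 ⟨Set.disjoint_union_right.2 ⟨hc, hbc.symm⟩,
        hbc'.symm⟩))
  rw [h3, tl_proj_re pY, ← mul_apply_eq_comp (S.Q b b'), ← h4]
  refine pow_le_pow_left₀ (norm_nonneg _) ?_ 2
  rw [← S.Q_trans b c b', (S.alg_comm (S.Q_mem b b') mp).eq, mul_assoc, mul_apply_eq_comp]
  exact proj_norm_le pp _

/-- the middle quantity -/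
noncomputable def tlb (Y : H →L[ℂ] H) (n : ℕ) : ℝ :=
  av fun t : Fin (n + 1) => av fun t' : Fin (n + 1) =>
    ‖S.Q (tlB (n + 1) (t + 1)) (tlB 0 (t' + 1)) (Y (S.v (fill (tlB (n + 1) (t + 1)))))‖

theorem tlb_le (hY : IsStarProjection Y) (hm : Y ∈ Alg S.V Aa) (n : ℕ) :
    S.tlb Y n ^ 4 ≤ S.col n Y := by
  have l := @Set.subset_union_left ℕ
  have r := @Set.subset_union_right ℕ
  have key : ∀ t : ℕ, (av fun t' : Fin (n + 1) =>
      ‖S.Q (tlB (n + 1) t) (tlB 0 (t' + 1)) (Y (S.v (fill (tlB (n + 1) t))))‖ ^ 2) ^ 2 ≤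
      S.col n Y := by
    intro t
    set c := tlB (n + 1) t with hc
    have d : ∀ t' : Fin (n + 1), Disjoint (tlB 0 (t' + 1) : Set ℕ) c := fun t' =>
      tlB_B (by have := t'.2; omega)
    have e1 : (av fun t' : Fin (n + 1) => ‖S.Q c (tlB 0 (t' + 1)) (Y (S.v (fill c)))‖ ^ 2) =
        (⟪S.v (fill c), S.Pib n ∅ c (Y (S.v (fill c)))⟫_ℂ).re := by
      rw [Pib, tl_re_avs]
      refine SD.av_congr fun t' => ?_
      have h1 := S.inner_EQ0 (compl_Aa_infinite c) (a := tlB 0 (t' + 1)) (y := ∅) (c := c)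
        (Set.disjoint_union_right.2 ⟨tlB_Aa _ _, d t'⟩) (by simp) r (S.alg_mono l hm)
        (P := fill c) (P' := fill c) (tl_supp_rect r r) (tl_supp_rect r r)
      rw [Finset.union_empty, card_tlB] at h1
      rw [← h1, ← mul_apply_eq_comp, ← mul_apply_eq_comp,
        tl_proj_re ((S.Q_proj _ _).mul hY (S.alg_comm (S.Q_mem _ _) hm)), S.Q_symm c]
    have e2 : ‖S.Pib n ∅ c (Y (S.v (fill c)))‖ ^ 2 ≤ S.col n Y := by
      rw [Pib, tl_sq_avs]
      refine SD.av_mono fun t1 => SD.av_mono fun t2 => ?_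
      have := S.tl_three hY hm (b := tlB 0 (t1 + 1)) (b' := tlC (t2 + 1)) (c := c) (tlB_Aa _ _)
        (tlC_Aa _) (tlB_Aa _ _) (d t1) (tlC_B _ _ _) (tlC_B _ _ _)
      rwa [card_tlB, card_tlC] at this
    refine le_trans (pow_le_pow_left₀ (SD.av_nonneg fun _ => sq_nonneg _) ?_ 2) e2
    rw [e1]
    exact (tl_re_le _ _).trans (mul_le_of_le_one_left (norm_nonneg _) (S.norm_v_le _))
  have h1 : S.tlb Y n ^ 2 ≤ av fun t : Fin (n + 1) => av fun t' : Fin (n + 1) =>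
      ‖S.Q (tlB (n + 1) (t + 1)) (tlB 0 (t' + 1)) (Y (S.v (fill (tlB (n + 1) (t + 1)))))‖ ^ 2 :=
    (SD.av_sq_le _).trans (SD.av_mono fun _ => SD.av_sq_le _)
  calc S.tlb Y n ^ 4 = (S.tlb Y n ^ 2) ^ 2 := by ring
    _ ≤ _ := pow_le_pow_left₀ (sq_nonneg _) h1 2
    _ ≤ _ := SD.av_sq_le _
    _ ≤ _ := SD.av_le_const fun t => key _

theorem tl_main (hY : IsStarProjection Y) (hm : Y ∈ Alg S.V Aa) (m n : ℕ) :
    ‖S.Tb n (Y (S.v ∅))‖ ^ 2 ≤ 2 * (m + 1) / (n + 1) +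
      √(av fun t : Fin (m + 1) => av fun t' : Fin (m + 1) =>
        ‖avs n (fun s => S.G (tlB (m + 1) (t + 1)) (tlB 0 (t' + 1)) ^ s)
          (Y (S.v (fill (tlB (m + 1) (t + 1)))))‖) := by
  have mT : S.Tb n ∈ Alg S.V Aa := S.alg_mono (Set.empty_subset _) (S.Tb_mem n)
  have mZ : S.Tb n * Y ∈ Alg S.V Aa := mul_mem mT hm
  have nZ : ∀ u, ‖(S.Tb n * Y) u‖ ≤ ‖Y u‖ := fun u =>
    ((S.Tb n).le_opNorm _).trans (mul_le_of_le_one_left (norm_nonneg _) (S.norm_Tb_le n))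
  have n0 : ‖(S.Tb n * Y) (S.v ∅)‖ ≤ 1 := (nZ _).trans ((proj_norm_le hY _).trans (S.norm_v_le _))
  let a : ℕ → Finset ℕ := fun s => tlB (2 * (m + 1)) s
  let g : ℕ → ℝ := fun s => ‖avs m (fun t => Y * star (S.tlD (a s) t)) (S.v ∅)‖
  have e0 : ‖S.Tb n (Y (S.v ∅))‖ ^ 2 = (⟪(S.Tb n * Y) (S.v ∅), S.Tb n (S.v ∅)⟫_ℂ).re := by
    rw [← tl_re_self, S.alg_apply_comm mT hm, ← tl_proj_move hY, tl_proj_idem hY,
      mul_apply_eq_comp, S.alg_apply_comm mT hm]
  have e1 : ∀ t : Fin (m + 1), (⟪(S.Tb n * Y) (S.v ∅), S.Tb n (S.v ∅)⟫_ℂ).re ≤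
      2 * (m + 1) / (n + 1) + av fun s : Fin (n + 1) =>
        (⟪(S.Tb n * Y) (S.v ∅), S.Tf (s + 1 + (t + 1)) (S.v ∅)⟫_ℂ).re := by
    intro t
    rw [← tl_re_avs n (fun s => S.Tf (s + (t + 1))), ← sub_le_iff_le_add, ← Complex.sub_re,
      ← inner_sub_right, ← sub_apply]
    refine (tl_re_le _ _).trans ((mul_le_of_le_one_left (norm_nonneg _) n0).trans
      (((ContinuousLinearMap.le_opNorm _ _).trans
        (mul_le_of_le_one_right (norm_nonneg _) (S.norm_v_le _))).trans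
        ((tl_shift S.norm_Tf_le n (t + 1)).trans ?_)))
    have : ((t : ℕ) : ℝ) ≤ m := by exact_mod_cast Nat.lt_succ_iff.1 t.2
    push_cast
    exact div_le_div_of_nonneg_right (by linarith) (by positivity)
  have e2 : ∀ s : ℕ, (av fun t : Fin (m + 1) =>
      (⟪(S.Tb n * Y) (S.v ∅), S.Tf (s + (t + 1)) (S.v ∅)⟫_ℂ).re) ≤ g s := by
    intro s
    have h1 : (av fun t : Fin (m + 1) =>
        (⟪(S.Tb n * Y) (S.v ∅), S.Tf (s + (t + 1)) (S.v ∅)⟫_ℂ).re) =
        (⟪star (S.Tb n) (S.v (fill (a s))),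
          avs m (fun t => Y * star (S.tlD (a s) t)) (S.v ∅)⟫_ℂ).re := by
      rw [tl_re_avs]
      refine SD.av_congr fun t => ?_
      have := S.tl_one mZ (a := a s) (b := tlB 0 (t + 1)) (tlB_Aa _ _) (tlB_Aa _ _)
        (tlB_B (by have := t.2; omega))
      rw [card_tlB, card_tlB] at this
      rw [this, tl_inner_star, tl_re_symm]
      rfl
    rw [h1]
    refine (tl_re_le _ _).trans (mul_le_of_le_one_left (norm_nonneg _) ?_)
    rw [S.norm_star_alg mT]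
    exact ((S.Tb n).le_opNorm _).trans
      ((mul_le_of_le_one_left (norm_nonneg _) (S.norm_Tb_le n)).trans (S.norm_v_le _))
  have e3 : ∀ s : ℕ, g s ^ 2 = av fun t : Fin (m + 1) => av fun t' : Fin (m + 1) =>
      (⟪S.v (fill (tlB 0 (t' + 1))), (S.G (tlB (m + 1) (t + 1)) (tlB 0 (t' + 1)) ^ s)
        (Y (S.v (fill (tlB (m + 1) (t + 1)))))⟫_ℂ).re := by
    intro s
    rw [tl_sq_avs]
    refine SD.av_congr fun t => SD.av_congr fun t' => ?_
    have := S.tl_two hY hm (a := a s) (b := tlB 0 (t' + 1)) (c := tlB (m + 1) (t + 1))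
      (tlB_Aa _ _) (tlB_Aa _ _) (tlB_Aa _ _) (tlB_B (by have := t'.2; omega))
      (tlB_B (by have := t.2; omega)) (tlB_B (by have := t'.2; omega)).symm
    rw [card_tlB, card_tlB, card_tlB] at this
    rw [this]
  rw [e0]
  refine (SD.const_le_av e1).trans ?_
  rw [SD.av_add, SD.av_const, SD.av_comm]
  refine add_le_add le_rfl ((SD.av_mono fun s : Fin (n + 1) => e2 (s + 1)).trans (Real.le_sqrt_of_sq_le
    ((SD.av_sq_le _).trans ?_)))
  simp only [e3]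
  rw [SD.av_comm]
  refine SD.av_mono fun t => ?_
  rw [SD.av_comm]
  refine SD.av_mono fun t' => ?_
  rw [← tl_re_avs n (fun s => S.G (tlB (m + 1) (t + 1)) (tlB 0 (t' + 1)) ^ s)]
  exact (tl_re_le _ _).trans (mul_le_of_le_one_left (norm_nonneg _) (S.norm_v_le _))

end Sys

theorem tl_av_tendsto {α : Type} [Finite α] {f : ℕ → α → ℝ} {g : α → ℝ}
    (h : ∀ x, Tendsto (fun n => f n x) atTop (𝓝 (g x))) :
    Tendsto (fun n => av (f n)) atTop (𝓝 (av g)) := by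
  let _ := Fintype.ofFinite α
  simp only [SD.av_eq]
  exact (tendsto_finsetSum _ fun x _ => h x).div_const _

theorem tl_of : TL := by
  intro κ H _ _ _ S Y hY hm m δ hδ
  have h1 : Tendsto (fun n : ℕ => 2 * ((m : ℝ) + 1) / (n + 1)) atTop (𝓝 0) :=
    tendsto_const_nhds.div_atTop (tendsto_natCast_atTop_atTop.atTop_add tendsto_const_nhds)
  have h2 := (h1.add (tl_av_tendsto fun t : Fin (m + 1) => tl_av_tendsto fun t' : Fin (m + 1) =>
    (avs_pow_tendsto (S.norm_G_le (tlB (m + 1) (t + 1)) (tlB 0 (t' + 1)))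
      (Y (S.v (fill (tlB (m + 1) (t + 1)))))).norm).sqrt).pow 8
  have h3 : (0 + √(S.tlb Y m)) ^ 8 < S.col m Y + δ := by
    have h0 : 0 ≤ S.tlb Y m := SD.av_nonneg fun _ => SD.av_nonneg fun _ => norm_nonneg _
    have : (0 + √(S.tlb Y m)) ^ 8 = S.tlb Y m ^ 4 := by
      rw [zero_add, show 8 = 2 * 4 from rfl, pow_mul, Real.sq_sqrt h0]
    have := S.tlb_le hY hm m
    linarith
  filter_upwards [h2.eventually (gt_mem_nhds h3)] with n hn
  refine le_trans ?_ hn.le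
  rw [show 16 = 2 * 8 from rfl, pow_mul]
  exact pow_le_pow_left₀ (sq_nonneg _) (S.tl_main hY hm m n) 8

end NE
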