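import Pool.Agent.Lib.MP_ecee09_co.NE.FldR
import Pool.Agent.Lib.MP_ecee09_co.NE.FamC
import Pool.Agent.Lib.MP_ecee09_co.NE.Cells
import Pool.Agent.Lib.MP_ecee09_co.NE.Pen

/-! Field energy gives energy on non generating labels. -/

namespace NE.TG

open SD (F sm av ind cnt Tame ind_pos ind_neg ind_congr ind_nonneg ind_le_one sm_mono sm_congr
  sm_mul_left av_prod av_congr av_mono av_sub av_mul_left)
open ComplexConjugate

variable {E I K : Type} [AddCommGroup E] [Finite E] [Finite I] [Finite K] {τ : QT E}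

lemma two_re_le {X : Type} [Finite X] (u v : X → ℂ) {a : ℝ} (ha : 0 < a) :
    2 * (ip u v).re ≤ a * n2 u + n2 v / a := by
  have h := two_re_ip_le (fun x => (a : ℂ) * u x) v
  rw [ip_mul_left, n2_mul_left, Complex.re_ofReal_mul, Complex.norm_real, Real.norm_eq_abs,
    sq_abs] at h
  rw [← mul_le_mul_iff_right₀ ha, mul_add, mul_div_cancel₀ _ ha.ne']
  nlinarith

lemma quad_le {X : Type} [Finite X] {u : X → ℂ} (hu : ∀ x, ‖u x‖ ≤ 1) (v : X → ℂ) (s : ℝ) :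
    2 * s * (ip u v).re - s ^ 2 * n2 v ≤ 1 := by
  have h := two_re_ip_le u fun x => (s : ℂ) * v x
  rw [ip_mul_right, n2_mul_left, Complex.conj_ofReal, Complex.re_ofReal_mul, Complex.norm_real,
    Real.norm_eq_abs, sq_abs] at h
  linarith [n2_le_one hu]

/-- one cell -/
lemma ng_cell (hτ : τ.ND) {u : OmE E K → ℂ} (hu : ∀ x, ‖u x‖ ≤ 1) (r : (K → E) → ℂ) {s a : ℝ}
    (hs : 0 ≤ s) (ha : 0 < a) :
    2 * s * (ip u (fld τ r)).re - s ^ 2 * n2 (fld τ r) - s * (a + En τ (fld τ r) / a) ≤ ng τ u := by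
  have h1 := ng_ge τ u (fun w => (s : ℂ) * ((ind (¬ Gen w) : ℝ) * r w)) fun w hw => by
    rw [ind_neg (not_not.2 hw)]; simp
  have e1 : fld τ (fun w => (s : ℂ) * ((ind (¬ Gen w) : ℝ) * r w)) =
      fun x => (s : ℂ) * (fld τ r x - fld τ (fun w => (ind (Gen w) : ℝ) * r w) x) := by
    funext x
    rw [fld_mul_left, ← fld_sub]
    refine congrArg (fun c => (s : ℂ) * fld τ c x) (funext fun w => ?_)
    rw [SD.ind_not]; push_cast; ring
  have e2 : (sm fun w => ‖(s : ℂ) * ((ind (¬ Gen w) : ℝ) * r w)‖ ^ 2) ≤ s ^ 2 * n2 (fld τ r) := by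
    rw [n2_fld hτ, ← sm_mul_left]
    refine sm_mono fun w => ?_
    rw [norm_mul, mul_pow, Complex.norm_real, Real.norm_eq_abs, sq_abs, norm_mul,
      Complex.norm_real, Real.norm_eq_abs, SD.abs_ind, mul_pow, SD.ind_sq]
    exact mul_le_mul_of_nonneg_left (mul_le_of_le_one_left (sq_nonneg _) (ind_le_one _))
      (sq_nonneg _)
  have h2 := two_re_le u (fld τ fun w => (ind (Gen w) : ℝ) * r w) ha
  have e3 : n2 (fld τ fun w => (ind (Gen w) : ℝ) * r w) = En τ (fld τ r) := by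
    rw [n2_fld hτ, sm_ind_sq, En, cf_fld hτ]
  rw [e1, ip_mul_right, Complex.conj_ofReal, Complex.re_ofReal_mul, ip_sub_right,
    Complex.sub_re] at h1
  rw [e3] at h2
  have h3 := mul_le_mul_of_nonneg_left (h2.trans (add_le_add_left
    (mul_le_of_le_one_right ha.le (n2_le_one hu)) _)) hs
  linarith

/-- a family on which the field loses its generating energy -/
lemma ng_fam (hτ : τ.ND) (S : GFam E I K) {u : OmE E I → ℂ} (hu : ∀ x, ‖u x‖ ≤ 1)
    (c : (I → E) → ℂ) {s a : ℝ} (hs : 0 ≤ s) (ha : 0 < a)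
    (h : (S.E fun x Φ => En τ (res (fld τ c) x Φ)) ≤ a ^ 2) :
    2 * s * (ip u (fld τ c)).re - s ^ 2 * n2 (fld τ c) - 2 * s * a ≤
      S.E fun x Φ => ng τ (res u x Φ) := by
  have h1 := S.mono (g := fun x Φ => ng τ (res u x Φ)) fun x Φ =>
    ng_cell hτ (u := res u x Φ) (fun _ => hu _) (rc τ c x Φ) hs ha
  simp only [← res_fld] at h1
  rw [S.sub, S.sub, S.smul, S.smul, S.smul, S.add, S.div, S.const, S.res_n2, ← S.cE_re,
    S.res_ip] at h1
  have h2 : (S.E fun x Φ => En τ (res (fld τ c) x Φ)) / a ≤ a := by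
    rw [div_le_iff₀ ha, ← sq]; exact h
  nlinarith

/-- field energy gives energy on non generating labels -/
theorem ngain (hX : EXT) (hτ : τ.ND) (hF : FULL τ) : ∃ D : ℝ, 0 ≤ D ∧ ∀ s : ℝ, 0 ≤ s →
    ∀ (K : Type) [Finite K] (η : ℝ), 0 < η → ∃ N : ℕ, ∀ h : OmE E (Fin N) → ℂ, (∀ x, ‖h x‖ ≤ 1) →
      ∃ A : GFam E (Fin N) K, A.junk ≤ η ∧
        2 * s * fen τ h - s ^ 2 * D - η ≤ A.E fun x Φ => ng τ (res h x Φ) := by
  obtain ⟨D, hD⟩ := hX E τ hτ
  refine ⟨|D 2|, abs_nonneg _, fun s hs K _ η hη => ?_⟩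
  obtain ⟨a, a0, a1, a2⟩ : ∃ a : ℝ, 0 < a ∧ a ≤ 1 ∧ (4 * s + 2) * a ≤ η :=
    ⟨min 1 (η / (4 * s + 2)), by positivity, min_le_left _ _, by
      rw [mul_comm, ← le_div_iff₀ (by positivity)]; exact min_le_right _ _⟩
  obtain ⟨k0, hk⟩ := hD a a0
  obtain ⟨k1, hk1⟩ := hF (fun p => 1 / a * 2 ^ (p + 1) * (D p + 1)) K (a ^ 2) (by positivity)
  obtain ⟨N, hN⟩ := hk (Fin (k0 + k1 + Nat.card K)) (by simp; omega)
  refine ⟨N, fun h h1 => ?_⟩
  obtain ⟨A, c, b1, b2, b3⟩ := hN (Fin N) (by simp) h h1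
  obtain ⟨S0, hS0⟩ := Fam.gcrd' (E := E) (K := K) (I := Fin (k0 + k1 + Nat.card K)) (by simp)
  have k : ∀ x Φ, ∃ S : GFam E (Fin (k0 + k1 + Nat.card K)) K, S.junk ≤ a ^ 2 ∧
      2 * s * (ip (res h x Φ) (fld τ (c x Φ))).re - s ^ 2 * n2 (fld τ (c x Φ)) - 2 * s * a -
        ind (¬ CT (fun p => 1 / a * 2 ^ (p + 1) * (D p + 1)) (fld τ (c x Φ))) ≤
      S.E fun y Ψ => ng τ (res (res h x Φ) y Ψ) := fun x Φ => by
    by_cases q : CT (fun p => 1 / a * 2 ^ (p + 1) * (D p + 1)) (fld τ (c x Φ))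
    · obtain ⟨S, s1, s2⟩ := hk1 _ (by simp; omega) _ q
      exact ⟨S, s1, by
        rw [ind_neg (not_not.2 q), sub_zero]; exact ng_fam hτ S (fun _ => h1 _) _ hs a0 s2⟩
    · refine ⟨S0, hS0.trans_le (sq_nonneg _), le_trans ?_ (S0.pos _ fun _ _ => ng_nonneg _ _)⟩
      rw [ind_pos q]
      have := quad_le (u := res h x Φ) (fun _ => h1 _) (fld τ (c x Φ)) s
      nlinarith
  choose S s1 s2 using k
  obtain ⟨A', d1, d2⟩ := A.gcomp S
  refine ⟨A', d2.trans (by nlinarith [A.le_const s1]), ?_⟩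
  have t := A.tamef (fun x Φ => fld τ (c x Φ)) (L := 1 / a) (by positivity) b2
  have m := A.mono s2
  rw [A.sub, A.sub, A.sub, A.smul, A.smul, A.const] at m
  rw [d1]
  simp only [res_lcomp]
  have n : (A.E fun x Φ => n2 (fld τ (c x Φ))) ≤ |D 2| := (b2 2).trans (le_abs_self _)
  rw [one_div_one_div] at t
  nlinarith [mul_le_mul_of_nonneg_left b3 hs, mul_le_mul_of_nonneg_left n (sq_nonneg s)]

/-- energy on non generating labels is low energy at a fixed shift -/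
lemma ng_le_pen (hτ : τ.ND) (u : OmE E K → ℂ) :
    ng τ u ≤ av fun t : K → E => pen (Low (Nat.card E) K) fun P => u (t, P) := by
  have h := av_mono fun t : K → E => le_pen (Low (Nat.card E) K) (fun P => u (t, P))
    (fld_mem_low τ (c := fun w => (ind (¬ Gen w) : ℝ) * cf τ u w)
      (fun w hw => by rw [ind_neg (not_not.2 hw)]; simp) t)
  refine le_trans (le_of_eq ?_) h
  rw [av_sub, av_mul_left]
  have e1 : (av fun t : K → E => (ip (fun P => u (t, P))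
      fun P => fld τ (fun w => (ind (¬ Gen w) : ℝ) * cf τ u w) (t, P)).re) = ng τ u := by
    rw [← cav_re, ← Complex.ofReal_re (ng τ u), ng, ← ip_fld_ind, ip, cav_prod]; rfl
  have e2 : (av fun t : K → E => n2
      fun P => fld τ (fun w => (ind (¬ Gen w) : ℝ) * cf τ u w) (t, P)) = ng τ u := by
    rw [ng, ← sm_ind_sq, ← n2_fld hτ, n2, av_prod]; rfl
  rw [e1, e2]; ring

end NE.TG
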