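import Pool.Agent.Lib.MP_ecee09_co.NE.TgA
import Pool.Agent.Lib.MP_ecee09_co.NE.TgB
import Pool.Agent.Lib.MP_ecee09_co.NE.PL
import Pool.Agent.Lib.MP_ecee09_co.NE.Step

/-! Special energy gives a gain of low energy. -/

namespace NE.TG

open SD (F sm av ind cnt Tame ind_pos ind_neg ind_congr ind_nonneg ind_le_one av_prod av_congr
  av_mono av_sub av_mul_left av_add av_nonneg av_const av_comm av_equiv av_le_const)

variable {E N K L : Type} [AddCommGroup E]

/-- the point of the special cell -/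
noncomputable def pt (y : Om (Tst E ⊕ L)) (z : Om L) (Ψ : Lab L (N ⊕ E)) (v : OmE E N) :
    Om (Tst E ⊕ L) := ow y (crd Sum.inr) (ow z Ψ (enc v))

lemma pt_ow (y : Om (Tst E ⊕ L)) (z : Om L) (Ψ : Lab L (N ⊕ E)) (x : OmE E N) (Φ : Lab N K)
    (t : K → E) (Q : Om K) :
    ow (pt y z Ψ (x.1 + spr t Φ, x.2)) (lcomp (crd Sum.inr) (lcomp Ψ (ext E Φ))) Q =
      pt y z Ψ (cell x Φ (t, Q)) := by
  rw [pt, ow_lcomp, ow_lcomp, ow_enc]; rfl

variable [Finite E] [Finite N] [Finite K] [Finite L]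

/-- the family of the final cells -/
lemma fam (S : Set (E × E)) {η η' : ℝ}
    (A : Fam fun (z : Om L) (Ψ : Lab L (N ⊕ E)) (v : OmE E N) => ow z Ψ (enc v))
    (hA : A.junk ≤ η) (G : Om (Tst E ⊕ L) → Om L → Lab L (N ⊕ E) → GFam E N K)
    (hG : ∀ y z Ψ, (G y z Ψ).junk ≤ η') :
    ∃ B : OFam (Tst E ⊕ L) K, B.junk ≤ η + η' ∧ ∀ f, B.E f = av fun y => A.E fun z Ψ =>
      (G y z Ψ).E fun x Φ => av fun t : K → E => f (pt (sw S y) z Ψ (x.1 + spr t Φ, x.2))
        (lcomp (crd Sum.inr) (lcomp Ψ (ext E Φ))) := by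
  refine ⟨⟨fun f => av fun y => A.E fun z Ψ =>
      (G y z Ψ).E fun x Φ => av fun t : K → E => f (pt (sw S y) z Ψ (x.1 + spr t Φ, x.2))
        (lcomp (crd Sum.inr) (lcomp Ψ (ext E Φ))), ?_, ?_, ?_, ?_⟩, ?_, fun _ => rfl⟩
  · intro f g; simp only [av_add, Fam.add]
  · intro c f; simp only [av_mul_left, Fam.smul]
  · intro f h
    exact av_nonneg fun y => A.pos _ fun z Ψ => (G y z Ψ).pos _ fun x Φ => av_nonneg fun t => h _ _
  · intro g
    simp only [pt_ow]
    rw [← Fam.fc_tile (K := L) Sum.inr_injective g,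
      ← av_equiv (sw_inv (K := L) S).toPerm fun y => av fun P => g (ow y (crd Sum.inr) P)]
    refine av_congr fun y => ?_
    refine Eq.trans (A.congr' fun z Ψ => ?_) (A.marg fun z => g (ow (sw S y) (crd Sum.inr) z))
    refine Eq.trans ?_ ((G y z Ψ).marg fun v => g (pt (sw S y) z Ψ v))
    exact (G y z Ψ).congr' fun x Φ => (av_prod fun v => g (pt (sw S y) z Ψ (cell x Φ v))).symm
  · refine av_le_const fun y => ?_
    refine le_trans (A.mono (g := fun z Ψ => ind (¬ Good Ψ) + η') fun z Ψ => ?_) ?_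
    · refine le_trans ((G y z Ψ).mono (g := fun x Φ => ind (¬ Good Ψ) + ind (¬ Good Φ))
        fun x Φ => ?_) ?_
      · rw [av_const]
        exact (SD.ind_mono fun h => not_and_or.1 fun q =>
          h ((good_crd Sum.inr_injective).lcomp (q.1.lcomp (good_ext q.2)))).trans
          (SD.ind_or_le _ _)
      · rw [Fam.add, Fam.const]
        exact add_le_add_right (hG y z Ψ) _
    · rw [A.add, A.const]
      exact add_le_add_left hA _

variable {τ : QT E}

/-- the normalized annihilated function on a special cell -/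
noncomputable def hh (f : Om (Tst E ⊕ L) → ℂ) (y : Om (Tst E ⊕ L)) (z : Om L)
    (Ψ : Lab L (N ⊕ E)) (v : OmE E N) : ℂ :=
  ((Nat.card (Set (E × E)) : ℂ))⁻¹ * ann f (pt y z Ψ v)

omit [AddCommGroup E] [Finite N] [Finite L] in
lemma norm_hh {f : Om (Tst E ⊕ L) → ℂ} (hf : ∀ P, ‖f P‖ ≤ 1) (y : Om (Tst E ⊕ L)) (z : Om L)
    (Ψ : Lab L (N ⊕ E)) (v : OmE E N) : ‖hh f y z Ψ v‖ ≤ 1 := by
  rw [hh, norm_mul, norm_inv, Complex.norm_natCast]
  exact inv_mul_le_one_of_le₀ (norm_ann_le hf _) (Nat.cast_nonneg _)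

lemma SE_eq (f : Om (Tst E ⊕ L) → ℂ) :
    (av fun ι : N ⊕ E ↪ L => av fun z => av fun y => fen τ (hh f y z (crd ι))) =
      SE τ N f / (Nat.card (Set (E × E)) : ℝ) ^ 2 := by
  rw [SE, ← SD.av_div]
  refine av_congr fun ι => ?_
  rw [av_comm, ← SD.av_div]
  refine Eq.trans (av_congr fun y => av_congr fun z => ?_)
    (Fam.fc_tile (K := L) Sum.inr_injective _)
  unfold hh
  rw [fen_mul_left, norm_inv, Complex.norm_natCast, inv_pow, div_eq_inv_mul]
  refine congrArg (fun u => _ * fen τ u) (funext fun v => congrArg (ann f) ?_)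
  rw [pt, ← ow_lcomp, lcomp_crd Sum.inr_injective ι.injective]; rfl

omit [Finite N] in
/-- convexity: one exchange is as good as the annihilator -/
lemma ng_hh (hτ : τ.ND) (f : Om (Tst E ⊕ L) → ℂ) (y : Om (Tst E ⊕ L)) (z : Om L)
    (Ψ : Lab L (N ⊕ E)) (x : OmE E N) (Φ : Lab N K) :
    ng τ (res (hh f y z Ψ) x Φ) ≤ av fun S : Set (E × E) => av fun t : K → E =>
      pen (Low (Nat.card E) K) (ores (fun P => f P - prj (Low (Nat.card E) _) f P)
        (pt (sw S y) z Ψ (x.1 + spr t Φ, x.2)) (lcomp (crd Sum.inr) (lcomp Ψ (ext E Φ)))) := by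
  have e : res (hh f y z Ψ) x Φ = fun v => cav fun S : Set (E × E) => eps S *
      (fun P => f P - prj (Low (Nat.card E) _) f P) (pt (sw S y) z Ψ (cell x Φ v)) := by
    funext v
    simp only [pt, ← sw_ow]
    rw [← ann_div (fun P => f P - prj (Low (Nat.card E) _) f P), ann_sub,
      ann_low (prj_mem _ f), sub_zero]
    rfl
  rw [e]
  refine (ng_cav_le τ _).trans (av_mono fun S => ?_)
  rw [ng_mul_left]
  refine (mul_le_of_le_one_left (ng_nonneg _ _) (pow_le_one₀ (norm_nonneg _) (norm_eps S))).trans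
    ((ng_le_pen hτ _).trans (le_of_eq (av_congr fun t => congrArg _ (funext fun Q => ?_))))
  simp only [ores, pt_ow]

omit [AddCommGroup E] [Finite E] [Finite N] in
lemma gain (B : OFam L K) (J : ℕ) (f : Om L → ℂ) :
    pen (Low J L) f + (B.E fun x Φ => pen (Low J K) (ores (fun P => f P - prj (Low J L) f P) x Φ))
      ≤ B.E fun x Φ => pen (Low J K) (ores f x Φ) := by
  have h := gc B J f (fun x Φ => prj (Low J K) (ores (fun P => f P - prj (Low J L) f P) x Φ))
    fun x Φ => prj_mem _ _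
  rw [add_sub_assoc, ← B.smul, ← B.sub] at h
  simp only [pn_eq] at h
  simpa only [← pen_eq] using h

end NE.TG

namespace NE

open SD (F sm av ind cnt Tame av_congr av_mono av_nonneg av_le_const av_const av_sub av_mul_left)
open TG

theorem topg_of (hP : PLANT) (hX : EXT) {E : Type} [AddCommGroup E] [Finite E] {τ : QT E}
    (hτ : τ.ND) (hF : FULL τ) : TOPG τ := by
  intro μ hμ
  obtain ⟨D, D0, hD⟩ := ngain hX hτ hF
  have M0 : (0 : ℝ) < (Nat.card (Set (E × E)) : ℝ) ^ 2 := pow_pos SD.card_pos' 2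
  obtain ⟨m, hm⟩ : ∃ m, m = μ / (Nat.card (Set (E × E)) : ℝ) ^ 2 := ⟨_, rfl⟩
  have m0 : 0 < m := hm ▸ div_pos hμ M0
  obtain ⟨s, s0, hs⟩ : ∃ s : ℝ, 0 < s ∧ s * D ≤ m := ⟨m / (D + 1), by positivity, by
    rw [div_mul_eq_mul_div, div_le_iff₀ (by positivity)]; nlinarith⟩
  refine ⟨s * m / 2, by positivity, fun K _ η hη => ?_⟩
  obtain ⟨N, hN⟩ := hD s s0.le K (min (η / 2) (s * m / 4)) (by positivity)
  obtain ⟨η0, h0, hA⟩ := hP (Nat.card (Fin N ⊕ E)) (min (η / 2) (m / 8)) (by positivity)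
  obtain ⟨n, hn⟩ := exists_nat_ge ((Nat.card (Fin N ⊕ E) : ℝ) * Nat.card (Fin N ⊕ E) / η0)
  refine ⟨N, N + Nat.card E + n + 1, by omega, fun f hf hSE => ?_⟩
  have : Nonempty (Fin N ⊕ E ↪ Fin (N + Nat.card E + n + 1)) := nonempty_emb (by simp; omega)
  obtain ⟨A, a1, a2⟩ := hA (Fin (N + Nat.card E + n + 1)) (Fin N ⊕ E) (OmE E (Fin N))
    (Fin N ⊕ E ↪ Fin (N + Nat.card E + n + 1)) enc (fun ι => crd ι) enc_inj
    (fun ι => good_crd ι.injective)
    (fun ι => by
      simp only [crd_ne_none ι.injective]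
      exact (Set.ncard_range_of_injective ι.injective).le)
    (by
      refine le_trans (le_of_eq (av_congr fun ι => av_congr fun ι' => ?_)) (emb_meet.trans ?_)
      · simp only [crd_ne_none ι.injective, crd_ne_none ι'.injective]
      · rw [div_le_iff₀ h0] at hn
        rw [Nat.card_fin, div_le_iff₀ (by positivity)]
        refine hn.trans ?_
        rw [mul_comm]
        exact mul_le_mul_of_nonneg_left (by exact_mod_cast (by omega)) h0.le)
  choose G g1 g2 using fun y z Ψ => hN (hh f y z Ψ) (norm_hh hf y z Ψ)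
  have b := a2 (fun z Ψ => av fun y => fen τ (hh f y z Ψ))
    (fun z Ψ => by
      rw [abs_of_nonneg (av_nonneg fun y => fen_nonneg _ _)]
      exact av_le_const fun y => (fen_le_n2 hτ _).trans (n2_le_one (norm_hh hf y z Ψ)))
    (fun z Ψ P => by unfold hh pt; simp only [ow_ow])
  rw [SE_eq, A.av fun y z Ψ => fen τ (hh f y z Ψ)] at b
  have b1 : m ≤ SE τ (Fin N) f / (Nat.card (Set (E × E)) : ℝ) ^ 2 :=
    hm ▸ div_le_div_of_nonneg_right hSE M0.le
  have c1 := av_mono fun y => A.mono fun z Ψ => (g2 y z Ψ).trans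
    ((G y z Ψ).mono fun x Φ => ng_hh hτ f y z Ψ x Φ)
  simp only [A.sub, A.smul, A.const, av_sub, av_mul_left, av_const] at c1
  simp only [Fam.av _ fun (S : Set (E × E)) x Φ => _] at c1
  rw [SD.av_comm fun y (S : Set (E × E)) => _] at c1
  obtain ⟨S, hS⟩ := SD.exists_av_le fun S : Set (E × E) => av fun y => A.E fun z Ψ =>
    (G y z Ψ).E fun x Φ => av fun t : K → E =>
      pen (Low (Nat.card E) K) (ores (fun P => f P - prj (Low (Nat.card E) _) f P)
        (pt (sw S y) z Ψ (x.1 + spr t Φ, x.2)) (lcomp (crd Sum.inr) (lcomp Ψ (ext E Φ))))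
  obtain ⟨B, d1, d2⟩ := fam S A a1 G g1
  refine ⟨B, d1.trans (by linarith [min_le_left (η / 2) (m / 8), min_le_left (η / 2) (s * m / 4)]),
    le_trans ?_ (gain B _ f)⟩
  rw [d2]
  have c2 := c1.trans hS
  have c3 := (abs_le.1 b).1
  nlinarith [min_le_right (η / 2) (m / 8), min_le_right (η / 2) (s * m / 4),
    mul_le_mul_of_nonneg_left hs s0.le]

end NE
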