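import Pool.Agent.Lib.MP_ecee09_co.NE.AA
import Pool.Agent.Lib.MP_ecee09_co.NE.BE
import Pool.Agent.Lib.MP_ecee09_co.NE.CD
import Pool.Agent.Lib.MP_ecee09_co.NE.Cor
import Pool.Agent.Lib.MP_ecee09_co.NE.DecF
import Pool.Agent.Lib.MP_ecee09_co.NE.ExF
import Pool.Agent.Lib.MP_ecee09_co.NE.Fin
import Pool.Agent.Lib.MP_ecee09_co.NE.GBB
import Pool.Agent.Lib.MP_ecee09_co.NE.GNS
import Pool.Agent.Lib.MP_ecee09_co.NE.GSplit
import Pool.Agent.Lib.MP_ecee09_co.NE.Grp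
import Pool.Agent.Lib.MP_ecee09_co.NE.InvB
import Pool.Agent.Lib.MP_ecee09_co.NE.KL
import Pool.Agent.Lib.MP_ecee09_co.NE.Ksd
import Pool.Agent.Lib.MP_ecee09_co.NE.MRF
import Pool.Agent.Lib.MP_ecee09_co.NE.PIB
import Pool.Agent.Lib.MP_ecee09_co.NE.PL
import Pool.Agent.Lib.MP_ecee09_co.NE.QQb
import Pool.Agent.Lib.MP_ecee09_co.NE.TL
import Pool.Agent.Lib.MP_ecee09_co.NE.TopG
import Pool.Agent.Lib.MP_ecee09_co.NE.Step

/-! Assembly of parts I and II. -/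

namespace NE

theorem dec : DEC :=
  dec_of (gns_of ksd) (split_of (aa_of cd) tl_of bb grp) (be_of (pib_of cd))
    (qq_of (pib_of cd) qex)

theorem inv : INV := inv_of klim dec (plant_of mrf)

theorem cor_of_full (hA : INV0 → FIN → TOPA)
    (hF : ∀ σ : Ty, σ.τ.ND → Nontrivial σ.E → FULL σ.τ) : COR :=
  cor_of (main_of (step_of (hA (inv0_of inv) fin) fun σ h1 h2 =>
    topg_of (plant_of mrf) (ext_of inv) h1 (hF σ h1 h2)))

end NE
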