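import Pool.Agent.Lib.MP_ecee09_co.NE.RSa

/-! `RSTEP` from `RSP`. -/

namespace NE

open SD
open ComplexConjugate

variable {E I K : Type} [AddCommGroup E] [Finite E] [Finite I] [Finite K] {τ : QT E}

omit [Finite E] in
/-- the characters of a real type are real -/
lemma QT.Real.chi_im (h : τ.Real) (w : I → E) (x : OmE E I) : (chi τ w x).im = 0 := by
  let _ := Fintype.ofFinite I
  let _ := Fintype.ofFinite (Sym2 I)
  have b : ∀ x y, 2 • τ.be x y = 0 := fun x y => by rw [← map_nsmul, h.1, map_zero]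
  have c : ∀ c, 2 • cz τ w c = 0 := fun c => by
    induction c using Sym2.ind with | _ i j => ?_
    simp only [cz, Sym2.lift_mk]
    split_ifs
    exacts [h.2 _, b _ _]
  have : 2 • (brk τ w x.1 + th τ w x.2) = 0 := by
    simp only [brk, th, finsum_eq_sum_of_fintype, smul_add, Finset.smul_sum, b, smul_comm 2, c,
      smul_zero, Finset.sum_const_zero, add_zero]
  rw [← Complex.conj_eq_iff_im, chi, conj_ee,
    neg_eq_of_add_eq_zero_left ((two_nsmul _).symm.trans this)]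

lemma QT.Real.fld_re (h : τ.Real) (c : (I → E) → ℂ) (x : OmE E I) :
    fld τ (fun w => ((c w).re : ℂ)) x = (fld τ c x).re :=
  Complex.ext (by simp [fld, csm_re, h.chi_im]) (by simp [fld, csm_im, h.chi_im, sm_zero])

lemma QT.Real.ng_re (h : τ.Real) (u : OmE E I → ℂ) : ng τ (fun x => ((u x).re : ℂ)) ≤ ng τ u :=
  sm_mono fun w => mul_le_mul_of_nonneg_left (pow_le_pow_left₀ (norm_nonneg _) (by
    have : cf τ (fun x => ((u x).re : ℂ)) w = (cf τ u w).re :=
      Complex.ext (by simp [cf, ip, cav_re, h.chi_im]) (by simp [cf, ip, cav_im, h.chi_im, av_zero])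
    rw [this, Complex.norm_real]
    exact Complex.abs_re_le_norm _) 2) (ind_nonneg _)

/-- an admissible part that keeps half of the energy -/
lemma rs_adm (τ : QT E) (c : (I → E) → ℂ) : ∃ c', Adm τ (fld τ c') ∧
    (∀ x, ‖fld τ c' x‖ ≤ ‖fld τ c x‖) ∧ n2 (fld τ c) / 2 ≤ n2 (fld τ c') ∧
    ∀ (K : Type) [Finite K] x (Φ : Lab I K),
      ng τ (res (fld τ c') x Φ) ≤ ng τ (res (fld τ c) x Φ) := by
  by_cases h : τ.Real
  swap
  · exact ⟨c, fun h' => absurd h' h, fun _ => le_rfl, half_le_self (n2_nonneg _),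
      fun _ _ _ _ => le_rfl⟩
  have key : ∀ a : ℂ, ‖a‖ = 1 → n2 (fld τ c) / 2 ≤ (av fun x => (a * fld τ c x).re ^ 2) →
      ∃ c', Adm τ (fld τ c') ∧ (∀ x, ‖fld τ c' x‖ ≤ ‖fld τ c x‖) ∧
        n2 (fld τ c) / 2 ≤ n2 (fld τ c') ∧ ∀ (K : Type) [Finite K] x (Φ : Lab I K),
          ng τ (res (fld τ c') x Φ) ≤ ng τ (res (fld τ c) x Φ) := fun a ha h2 => by
    have e : fld τ (fun w => ((a * c w).re : ℂ)) = fun x => ((a * fld τ c x).re : ℂ) :=
      funext fun x => by rw [h.fld_re, fld_mul_left]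
    refine ⟨fun w => ((a * c w).re : ℂ), ?_⟩
    rw [e]
    refine ⟨fun _ _ => Complex.ofReal_im _, fun x => ?_, h2.trans_eq (av_congr fun x => ?_),
      fun K _ x Φ => (h.ng_re fun y => a * res (fld τ c) x Φ y).trans_eq ?_⟩
    · rw [Complex.norm_real]
      exact (Complex.abs_re_le_norm _).trans_eq (by rw [norm_mul, ha, one_mul])
    · rw [Complex.norm_real, Real.norm_eq_abs, sq_abs]
    · rw [ng_mul_left, ha, one_pow, one_mul]
  have e : n2 (fld τ c) = (av fun x => (1 * fld τ c x).re ^ 2) +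
      av fun x => (Complex.I * fld τ c x).re ^ 2 := by
    rw [← av_add]
    exact av_congr fun x => by rw [Complex.sq_norm]; simp [Complex.normSq_apply, sq]
  by_cases h1 : n2 (fld τ c) / 2 ≤ av fun x => (1 * fld τ c x).re ^ 2
  · exact key 1 norm_one h1
  · exact key Complex.I Complex.norm_I (by linarith [not_le.1 h1])

/-- a gain for the generating part is a drop for the field -/
lemma rs_drop (hτ : τ.ND) (c : (I → E) → ℂ) {η g : ℝ}
    (h : Gain τ (fld τ fun w => (ind (Gen w) : ℝ) * c w) K η g) :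
    Drop τ (fld τ c) K η (En τ (fld τ c) - g) := by
  obtain ⟨A, h1, h2⟩ := h
  refine ⟨A, h1, le_trans (A.mono (g := fun x Φ =>
    n2 (res (fld τ fun w => (ind (Gen w) : ℝ) * c w) x Φ) -
      ng τ (res (fld τ fun w => (ind (Gen w) : ℝ) * c w) x Φ)) fun x Φ => ?_) ?_⟩
  · have e : res (fld τ c) x Φ = fun y => res (fld τ fun w => (ind (Gen w) : ℝ) * c w) x Φ y +
        res (fld τ fun w => (ind (¬ Gen w) : ℝ) * c w) x Φ y := funext fun y => by
      simp only [res]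
      rw [← fld_add]
      congr 1
      funext w
      rw [ind_not]; push_cast; ring
    rw [le_sub_iff_add_le, e]
    refine le_trans (add_le_add (le_of_eq (sm_congr fun v => ?_)) le_rfl)
      ((fen_eq_add τ _).ge.trans (fen_le_n2 hτ _))
    by_cases hv : Gen v
    · rw [cf_add, res_fld τ fun w => (ind (¬ Gen w) : ℝ) * c w, cf_fld hτ, rc_eq_zero τ
        (fun w hw => by rw [ind_neg (not_not.2 hw)]; simp) x Φ v hv, add_zero]
    · rw [ind_neg hv, zero_mul, zero_mul]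
  · rw [A.sub, A.res_n2, n2_fld hτ, sm_ind_sq, En_fld hτ]
    linarith

lemma sq_le_vr (u : OmE E I → ℂ) {s : ℕ} (hs : s ≤ Nat.card I) : n2 u ^ 2 ≤ vr u s := by
  obtain ⟨A, hA, -⟩ := gcm (E := E) hs
  rw [← A.res_n2 u]
  exact (A.sq_le _).trans_eq (hA _)

theorem rstep_of (hτ : τ.ND) (h : RSP τ) : RSTEP τ := by
  intro D m hm
  obtain ⟨D1, hD⟩ : ∃ D1 : ℕ → ℝ, D1 = fun p => (2 ^ Nat.card (AddSubgroup E)) ^ p * D p :=
    ⟨_, rfl⟩
  obtain ⟨B, hB⟩ : ∃ B, B = |D1 4| + 1 := ⟨_, rfl⟩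
  have B0 : 0 < B := by rw [hB]; positivity
  have B1 : D1 (2 * 2) ≤ B := by linarith [le_abs_self (D1 4)]
  obtain ⟨q, hq⟩ : ∃ q, q = (m / 2) ^ 2 / (4 * B) := ⟨_, rfl⟩
  have q0 : 0 < q := by rw [hq]; positivity
  obtain ⟨cG, hcG, h⟩ := h (fun p => 4 / q * 2 ^ (p + 1) * (D1 p + 1)) (m / 2 / 2) (by positivity)
  refine ⟨q / 4 * cG, by positivity, fun K _ η hη => ?_⟩
  obtain ⟨cS, v, hcS, hv, h⟩ := h K η hη
  refine ⟨q / 4 * cS, by positivity, fun K' _ η' hη' => ?_⟩
  obtain ⟨s0, h⟩ := h K' η' hη'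
  choose! N h using h
  obtain ⟨T, hT⟩ := exists_nat_gt (B / (v * (q / 4)))
  have T0 : (0 : ℝ) < T := lt_trans (by positivity) hT
  obtain ⟨s, s1, s2⟩ : ∃ s : ℕ → ℕ, s 0 = s0 + Nat.card K + Nat.card K' ∧
      ∀ i, s (i + 1) = s i + N (s i) :=
    ⟨fun i => Nat.rec (s0 + Nat.card K + Nat.card K') (fun _ t => t + N t) i, rfl, fun _ => rfl⟩
  have sm : Monotone s := monotone_nat_of_le_succ fun i => by rw [s2]; omega
  refine ⟨s T, fun I _ hI c hc hmc => ?_⟩
  obtain ⟨c', ha, hle, hn, hng⟩ := rs_adm τ fun w => (ind (Gen w) : ℝ) * c w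
  rw [n2_fld hτ, sm_ind_sq, ← En_fld hτ] at hn
  have ht : CT D1 (fld τ c') := Tame.mono (hD ▸ hc.gen hτ) fun x => by
    simpa only [abs_norm] using hle x
  refine Or.imp (fun h => rs_drop hτ c (h.imp fun A h => ⟨h.1, h.2.trans (A.mono (hng K))⟩))
    (fun h => rs_drop hτ c (h.imp fun A h => ⟨h.1, h.2.trans (A.mono (hng K'))⟩))
    (?_ : Gain τ (fld τ c') K η (q / 4 * cG) ∨ Gain τ (fld τ c') K' η' (q / 4 * cS))
  obtain ⟨i, hi, hg⟩ := Finset.exists_le_of_sum_le (f := fun i => vr (fld τ c') (s i) -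
      vr (fld τ c') (s (i + 1))) (g := fun _ => B / T)
      (Finset.nonempty_range_iff.2 (Nat.cast_pos.1 T0).ne') (by
    obtain ⟨A, hA, -⟩ := gcm (E := E) ((sm T.zero_le).trans hI)
    have := (hA _).symm.trans_le ((rs_mom A ht 2).trans B1)
    rw [Finset.sum_range_sub' fun i => vr (fld τ c') (s i), Finset.sum_const, Finset.card_range,
      nsmul_eq_mul, mul_div_cancel₀ _ T0.ne']
    exact (sub_le_self _ ((sq_nonneg _).trans (sq_le_vr _ hI))).trans this)
  have i1 : s (i + 1) ≤ Nat.card I := (sm (Finset.mem_range.1 hi)).trans hI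
  have i2 := sm i.zero_le
  have i3 := s2 i
  obtain ⟨A, hA, h0⟩ := gcm (E := E) i1
  have cs : Nat.card (Fin (s (i + 1))) = s (i + 1) := by simp
  have m1 := rs_pz A (Y := fun x Φ => n2 (res (fld τ c') x Φ)) (m := m / 2) (by positivity) B0
    (fun _ _ => le_rfl) (by rw [A.res_n2]; linarith) ((rs_mom A ht 2).trans B1)
  have m2 := rs_tame A ht (M := 4 / q) (by positivity)
  have m3 := A.markov (f := fun x Φ => vr (res (fld τ c') x Φ) (s i) - n2 (res (fld τ c') x Φ) ^ 2)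
    (fun x Φ => sub_nonneg.2 (sq_le_vr _ (by omega))) hv
  rw [A.sub, hA fun x Φ => vr (res (fld τ c') x Φ) (s i), hA fun x Φ => n2 (res (fld τ c') x Φ) ^ 2]
    at m3
  have m4 : (A.E fun x Φ => ind (¬ vr (res (fld τ c') x Φ) (s i) ≤
      n2 (res (fld τ c') x Φ) ^ 2 + v)) ≤ q / 4 := by
    refine (A.mono fun x Φ => ind_mono fun h => ?_).trans (m3.trans ?_)
    · linarith [not_le.1 h]
    · rw [div_le_iff₀ hv]
      refine ((sub_le_sub_right (cm_cm _ (by omega) i1 _).le _).trans hg).trans ?_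
      rw [div_lt_iff₀ (by positivity)] at hT
      rw [div_le_iff₀ T0]
      linarith
  rw [one_div_div] at m2
  have m5 := (sub_le_sub ((sub_le_sub m1 m2).trans (rs_and A _ _)) m4).trans (rs_and A _ _)
  have m6 := m5.trans ((A.mono fun x Φ => (ind_mono fun hx => ?_).trans
    (ind_or_le (Gain τ (res (fld τ c') x Φ) K η cG)
      (Gain τ (res (fld τ c') x Φ) K' η' cS))).trans_eq (A.add _ _))
  · by_cases m7 : q / 4 ≤ A.E fun x Φ => ind (Gain τ (res (fld τ c') x Φ) K η cG)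
    · exact .inl (rs_gain A h0 (by omega) hη.le hcG.le _ m7 fun _ _ h => h)
    · exact .inr (rs_gain A h0 (by omega) hη'.le hcS.le _ (by linarith [not_le.1 m7])
        fun _ _ h => h)
  · have ad : Adm τ (res (fld τ c') x Φ) := fun h y => ha h _
    rw [res_fld] at hx ad ⊢
    exact h (s i) (by omega) _ (by omega) _ hx.1.2 ad hx.1.1 hx.2

end NE
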