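import Pool.Agent.Lib.MP_ecee09_co.NE.Loop
import Pool.Agent.Lib.MP_ecee09_co.NE.RS
import Pool.Agent.Lib.MP_ecee09_co.SD.TH

/-! Induction on the order of the group. -/

namespace NE

theorem full_ind
    (hG : ∀ (E : Type) [AddCommGroup E] [Finite E] [Nontrivial E] (τ : QT E), τ.ND → GG τ)
    (hA : ∀ (E : Type) [AddCommGroup E] [Finite E] [Nontrivial E] (τ : QT E), τ.ND → PA τ)
    (hU : ∀ (E : Type) [AddCommGroup E] [Finite E] [Nontrivial E] (τ : QT E), τ.ND → U3 τ)
    (hR : ∀ (E : Type) [AddCommGroup E] [Finite E] [Nontrivial E] (τ : QT E), τ.ND →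
      (∀ S : AddSubgroup E, S ≠ ⊤ → (τ.sub S).ND → Nontrivial S → FULL (τ.sub S)) → PR τ)
    (E : Type) [AddCommGroup E] [Finite E] [Nontrivial E] (τ : QT E) (h : τ.ND) : FULL τ := by
  induction hn : Nat.card E using Nat.strong_induction_on generalizing E with
  | _ n ih =>
    refine full_of h SD.th (rstep_of h (rsp_of (hG E τ h) (hR E τ h fun S hS h1 h2 => ?_)
      (hA E τ h) (hU E τ h)))
    refine ih (Nat.card S) ?_ S (τ.sub S) h1 rfl
    rw [← hn]
    exact lt_of_le_of_ne S.card_le_card_addGroup fun a => hS (S.eq_top_of_card_eq a)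

end NE
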