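import Pool.Agent.Lib.MP_ecee09_co.NE.GGc

/-! The Gaussian step (G). -/

namespace NE

open SD
open ComplexConjugate

variable {E : Type} [AddCommGroup E] [Finite E] [Nontrivial E] {τ : QT E}

section
variable {I K : Type} [Finite I] [Finite K] {M s : ℕ}

/-- the point seen after planting on both halves -/
noncomputable def gqX (w : Prb I (K ⊕ K) M s × OmE E I × Om K × Om K) : OmE E I :=
  (w.2.1.1, ow (ow w.2.1.2 (lft (gprl w.1)) w.2.2.1) (rgt (gprl w.1)) w.2.2.2)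

omit [AddCommGroup E] [Nontrivial E] in
lemma gq_av (f : OmE E I → Lab I (K ⊕ K) → ℝ) :
    av (fun w : Prb I (K ⊕ K) M s × OmE E I × Om K × Om K => f (gqX w) (gprl w.1)) =
      av fun ω : Prb I (K ⊕ K) M s => av fun x : OmE E I => av fun P => av fun P' =>
        f (x.1, ow (ow x.2 (lft (gprl ω)) P) (rgt (gprl ω)) P') (gprl ω) := by
  rw [av_prod]
  refine av_congr fun ω => ?_
  rw [av_prod]
  refine av_congr fun x => ?_
  rw [av_prod]
  rfl

omit [Nontrivial E] in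
lemma gq_mom (u : OmE E I → ℂ) {σ r δ p : ℝ} {R R' : ℕ} (hr : 0 < r) (hσ : r ≤ σ) (hδ : 0 < δ)
    (hR : R' ≤ R) (t : Fin R' → K ⊕ K → E) (ε : Fin R' → Bool)
    (h : ∀ P P' : Om K, ‖(cav fun tg => cav fun Ξ => cav fun ι : (K ⊕ K) × Fin M × Fin s ↪ I =>
      cav fun x : OmE E I => ∏ r, cj (ε r) (u (x.1 + spr (t r) (plab ι tg Ξ),
        ow (ow x.2 (lft (plab ι tg Ξ)) P) (rgt (plab ι tg Ξ)) P'))) - ((σ ^ R' * p : ℝ) : ℂ)‖ ≤
      δ * min 1 r ^ R) :
    ‖(cav fun w : Prb I (K ⊕ K) M s × OmE E I × Om K × Om K =>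
      ∏ r, cj (ε r) (gqY u σ (gqX w) (gprl w.1) (t r))) - p‖ ≤ δ := by
  simp only [gqY, gq_cj, Finset.prod_div_distrib, Finset.prod_const, Finset.card_univ,
    Fintype.card_fin]
  rw [cav_div]
  refine gq_norm hr hσ hδ hR ?_
  have e : (cav fun w : Prb I (K ⊕ K) M s × OmE E I × Om K × Om K =>
      ∏ r, cj (ε r) (u ((gqX w).1 + spr (t r) (gprl w.1), (gqX w).2))) =
      cav fun P : Om K × Om K => cav fun tg => cav fun Ξ =>
        cav fun ι : (K ⊕ K) × Fin M × Fin s ↪ I => cav fun x : OmE E I =>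
          ∏ r, cj (ε r) (u (x.1 + spr (t r) (plab ι tg Ξ),
            ow (ow x.2 (lft (plab ι tg Ξ)) P.1) (rgt (plab ι tg Ξ)) P.2)) := by
    rw [cav_prod, cav_congr fun ω => (cav_prod _).trans (cav_comm _), cav_comm]
    refine cav_congr fun P => ?_
    rw [cav_prod, cav_prod]
    rfl
  rw [e, ← cav_const (α := Om K × Om K) ((σ ^ R' * p : ℝ) : ℂ)]
  exact norm_cav_sub_le (mul_nonneg hδ.le (pow_nonneg (le_min zero_le_one hr.le) _))
    fun P => h P.1 P.2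

end

theorem gg_core (h : τ.ND) (hM : MRF) (hT : GTU τ) (hO : MOM τ) (D : ℕ → ℝ) (m : ℝ) (hm : 0 < m) :
    ∃ cG : ℝ, 0 < cG ∧ ∀ (K : Type) [Finite K] (η : ℝ), 0 < η →
      ∃ ηS v : ℝ, 0 < ηS ∧ 0 < v ∧ ∀ s : ℕ, 1 ≤ s → ∃ n0 : ℕ,
        ∀ (I : Type) [Finite I], n0 ≤ Nat.card I → ∀ c : (I → E) → ℂ,
          CT D (fld τ c) → Adm τ (fld τ c) → m ≤ n2 (fld τ c) →
          vr (fld τ c) s ≤ n2 (fld τ c) ^ 2 + v → SmallB τ (fld τ c) s ηS →
          n2 (fld τ c) ≤ 2 * av (fun x => (fld τ c x).re ^ 2) → Gain τ (fld τ c) K η cG := by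
  obtain ⟨τ0, hτ, hT⟩ := hT
  set r := √m with hr
  have hr0 : 0 < r := Real.sqrt_pos.2 hm
  obtain ⟨t, ht⟩ : ∃ t, t = τ0 * r := ⟨_, rfl⟩
  have ht0 : 0 < t := ht ▸ mul_pos hτ hr0
  refine ⟨t ^ 2 / 32, by positivity, fun K _ η hη => ?_⟩
  obtain ⟨B, hB, hB5⟩ : ∃ B : ℝ, 0 < B ∧ 4 + D 8 ≤ 2 * B * (t ^ 2 / 64) := by
    refine ⟨(4 + |D 8|) / (2 * (t ^ 2 / 64)), by positivity, ?_⟩
    have : 2 * ((4 + |D 8|) / (2 * (t ^ 2 / 64))) * (t ^ 2 / 64) = 4 + |D 8| := by field_simp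
    rw [this]; linarith [le_abs_self (D 8)]
  obtain ⟨e4, he4, he4B, he4η⟩ : ∃ e4 : ℝ, 0 < e4 ∧ B * e4 ≤ t ^ 2 / 64 ∧ e4 ≤ η := by
    refine ⟨min (t ^ 2 / 64 / B) η, lt_min (by positivity) hη, ?_, min_le_right _ _⟩
    rw [← le_div_iff₀' hB]; exact min_le_left _ _
  obtain ⟨η0, hη0, hM⟩ := hM e4 (Nat.card (OmE E K)) he4
  obtain ⟨μ, hμ, -, -, hμ1⟩ := gq_small_const (Q := D 2) (ε := t / 16) (by positivity)
  obtain ⟨e, he, k1, k2, k4⟩ : ∃ e : ℝ, 0 < e ∧ 6 * e ≤ η0 ^ 2 ∧ 6 * e ≤ 1 ∧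
      6 * e ≤ μ * (t / 16) := by
    refine ⟨min (min (η0 ^ 2) 1) (μ * (t / 16)) / 6, by positivity, ?_, ?_, ?_⟩ <;>
      rw [mul_div_cancel₀ _ (by norm_num)]
    exacts [(min_le_left _ _).trans (min_le_left _ _), (min_le_left _ _).trans (min_le_right _ _),
      min_le_right _ _]
  let _ := Fintype.ofFinite (K → E)
  obtain ⟨Ψ, Ψ1, Ψ2, C, R, δ, hδ, j0, j1, p0, pC, p1, p2, p2C, p12, hT⟩ := hT (K → E) 0 e he
  have hC : 0 ≤ C := (p0 0).trans (pC 0)
  obtain ⟨m1, hm1⟩ := exists_pow_lt_of_lt_one (x := η0 / (C * Nat.card K + 1)) (y := 1 / 2)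
    (by positivity) (by norm_num)
  obtain ⟨M, ηS, v, hM1, hηS, hv, hO⟩ := hO D R K (δ * min 1 r ^ R) m1
    (mul_pos hδ (pow_pos (lt_min one_pos hr0) _))
  obtain ⟨ζ, hζ, z1, z2, z3⟩ := gq_small_const
    (Q := (C + 1) ^ 2 + (2 * C ^ 2 + 2 * τ0 ^ 2) + 2 * C + ((τ0 / r) ^ 2 * |D 4| + 1))
    (ε := min (min e 1) (t / 8)) (by positivity)
  have z4 : 0 ≤ ζ * (C + 1) ^ 2 := by positivity
  have z5 : 0 ≤ ζ * (2 * C ^ 2 + 2 * τ0 ^ 2) := by positivity
  have z6 : 0 ≤ ζ * (2 * C) := by positivity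
  have z7 : 0 ≤ ζ * ((τ0 / r) ^ 2 * |D 4| + 1) := by positivity
  have z8 := (min_le_left _ (t / 8)).trans (min_le_left e 1)
  have z9 := (min_le_left _ (t / 8)).trans (min_le_right e 1)
  have z10 := min_le_right (min e 1) (t / 8)
  refine ⟨ηS, v, hηS, hv, fun s hs => ?_⟩
  obtain ⟨n1, hO⟩ := hO s
  obtain ⟨n3, hn3⟩ := exists_nat_ge (4 ^ Nat.card (K × Fin M × Fin s) ^ 2 *
    (Nat.card (K × Fin M × Fin s) : ℝ) ^ 2 / ζ ^ 2)
  refine ⟨max (max n1 n3) (Nat.card ((K ⊕ K) × Fin M × Fin s)),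
    fun I _ hI c hc ha hm' hvr hS hre => ?_⟩
  have hN : Nonempty ((K ⊕ K) × Fin M × Fin s ↪ I) := nonempty_emb ((le_max_right _ _).trans hI)
  have hN1 : Nonempty (K × Fin M × Fin s ↪ I) := ⟨(prr Function.Embedding.inl
    (Classical.arbitrary (Prb I (K ⊕ K) M s))).2⟩
  have hξ : 4 ^ Nat.card (K × Fin M × Fin s) ^ 2 * (Nat.card (K × Fin M × Fin s) : ℝ) ^ 2 /
      Nat.card I ≤ ζ * ζ := by
    refine div_le_of_le_mul₀ (Nat.cast_nonneg _) (by positivity) ?_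
    rw [div_le_iff₀' (by positivity), sq ζ] at hn3
    exact hn3.trans (mul_le_mul_of_nonneg_left (Nat.cast_le.2
      (((le_max_right _ _).trans (le_max_left _ _)).trans hI)) (by positivity))
  set σ := √(n2 (fld τ c)) with hσ
  have hrσ : r ≤ σ := Real.sqrt_le_sqrt hm'
  have hσ0 : 0 < σ := hr0.trans_le hrσ
  have hσ2 : σ ^ 2 = n2 (fld τ c) := Real.sq_sqrt (hm.le.trans hm')
  obtain ⟨l1, l2, l3⟩ := gg_labels (Equiv.refl (K → E))
  obtain ⟨g1, g2, g3⟩ := hT (Prb I (K ⊕ K) M s × OmE E I × Om K × Om K) (K ⊕ K → E)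
    (fun w => gqY (fld τ c) σ (gqX w) (gprl w.1)) (fun t => Sum.elim t 0) (fun t => Sum.elim 0 t)
    (fun w => gqY_adm ha _ _ _) l1 l2 rfl l3 fun R' hR l ε => gq_mom _ hr0 hrσ hδ hR l ε
      fun P P' => hO I (((le_max_left _ _).trans (le_max_left _ _)).trans hI) c hc ha hvr hS
        P P' R' hR l ε
  clear hT hO
  have hD := ct_iff.1 hc
  have hle : ∀ x p, |(fld τ c x).re| ^ p ≤ ‖fld τ c x‖ ^ p := fun x p =>
    pow_le_pow_left₀ (abs_nonneg _) (Complex.abs_re_le_norm _) p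
  have hD2 : av (fun x => (fld τ c x).re ^ 2) ≤ n2 (fld τ c) :=
    av_mono fun x => (sq_abs _).symm.trans_le (hle x 2)
  have y1 : ∀ (x : OmE E I) (Φ : Lab I (K ⊕ K)), (gqY (fld τ c) σ x Φ ∘ fun t => Sum.elim t 0) =
      gqY (fld τ c) σ x (lft Φ) := fun x Φ => funext fun t => by
    simp only [Function.comp, gqY, gq_spr_inl]
  have y2 : ∀ (x : OmE E I) (Φ : Lab I (K ⊕ K)), (gqY (fld τ c) σ x Φ ∘ fun t => Sum.elim 0 t) =
      gqY (fld τ c) σ x (rgt Φ) := fun x Φ => funext fun t => by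
    simp only [Function.comp, gqY, gq_spr_inr]
  have y3 : ∀ (x : OmE E I) (Φ : Lab I (K ⊕ K)), (gqY (fld τ c) σ x Φ (Sum.elim 0 0)).re =
      (fld τ c x).re / σ := fun x Φ => by
    rw [gqY, gq_spr_inl, spr_zero, add_zero, Complex.div_ofReal_re]
  simp only [y1, y2, y3] at g1 g2 g3
  have i0 := fun Φ x => gq_inv h ha σ j0 x Φ
  have i1 := fun Φ x => gq_inv h ha σ j1 x Φ
  generalize fld τ c = u at *
  set a : OmE E I → Lab I K → ℝ := fun x Φ => Ψ (gqY u σ x Φ) with ha0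
  set a1 : OmE E I → Lab I K → ℝ := fun x Φ => Ψ1 (gqY u σ x Φ) with ha1
  set a2 : OmE E I → Lab I K → ℝ := fun x Φ => Ψ2 (gqY u σ x Φ) with ha2
  set κ : OmE E I → ℝ := fun x => τ0 * ((u x).re / σ) with hκ
  set ρ : OmE E I → ℝ := fun x => av fun o : Prb I K M s => pld x.2 (gprl o) with hρ
  have r1 : ∀ o : Prb I K M s, av (fun x : OmE E I => pld x.2 (gprl o)) = 1 := fun o => by
    rw [av_prod]; simp only [pld_one, av_const]
  have f0 : av (fun x => (ρ x - 1) ^ 2) ≤ ζ * ζ := by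
    refine gq_rho ((av_comm _).trans (by simp only [r1, av_const])) ?_
    have := gq_probe (m := M) (s := s) (K := K) (X := I → E) (I := I) (fun _ _ => 1) (fun _ _ => 1)
      (fun _ => 1) (M := 1) zero_le_one (fun _ _ _ => by norm_num) (fun _ => zero_le_one)
      av_one_le (by simp only [mul_one, av_const, le_refl])
    simp only [mul_one, one_mul] at this
    linarith
  have f0' : av (fun x => |ρ x - 1|) ≤ ζ := gg_abs_le _ hζ.le (f0.trans_eq (sq ζ).symm)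
  have w0 : ∀ y : ℝ, 0 ≤ y → y * (4 ^ Nat.card (K × Fin M × Fin s) ^ 2 *
      (Nat.card (K × Fin M × Fin s) : ℝ) ^ 2 / Nat.card I) ≤ ζ * y := fun y hy => by
    refine (mul_le_mul_of_nonneg_left (hξ.trans (mul_le_of_le_one_right hζ.le z1)) hy).trans_eq
      (mul_comm _ _)
  have f1 : av (fun x => (av (fun o : Prb I K M s => pld x.2 (gprl o) * a x (gprl o)) - 1) ^ 2) ≤
      6 * e := by
    have b := gq_probe (m := M) (s := s) (fun x Φ => a x Φ - 1) (fun x Φ => a x Φ - 1)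
      (fun _ => (C + 1) ^ 2) he.le (fun x Φ Φ' => by
        nlinarith [p0 (gqY u σ x Φ), pC (gqY u σ x Φ), p0 (gqY u σ x Φ'), pC (gqY u σ x Φ'),
          mul_le_mul (pC (gqY u σ x Φ)) (pC (gqY u σ x Φ')) (p0 _) hC])
      (fun _ => sq_nonneg _) (av_const _).le
      ((gq_av fun x Φ => (a x (lft Φ) - 1) * (a x (rgt Φ) - 1)).symm.trans_le g1)
    have := gq_f1 (fun (x : OmE E I) (o : Prb I K M s) => pld x.2 (gprl o)) fun x o => a x (gprl o)
    have := w0 _ (sq_nonneg (C + 1))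
    have := mul_le_of_le_one_right hζ.le z1
    linarith
  have hκ2 : av (fun x => κ x ^ 2) ≤ τ0 ^ 2 := by
    simp only [hκ, mul_pow, div_pow]
    rw [av_mul_left, av_div]
    exact mul_le_of_le_one_right (sq_nonneg _) ((div_le_one (by positivity)).2 (hσ2 ▸ hD2))
  have f2 : av (fun x => (av (fun o : Prb I K M s => pld x.2 (gprl o) * a1 x (gprl o)) -
      κ x * ρ x) ^ 2) ≤ 6 * e := by
    have b := gq_probe (m := M) (s := s) (fun x Φ => a1 x Φ - κ x) (fun x Φ => a1 x Φ - κ x)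
      (fun x => 2 * C ^ 2 + 2 * κ x ^ 2) (M := 2 * C ^ 2 + 2 * τ0 ^ 2) he.le (fun x Φ Φ' => by
        have b1 := sq_le_sq' (abs_le.1 (p1 (gqY u σ x Φ))).1 (abs_le.1 (p1 (gqY u σ x Φ))).2
        have b2 := sq_le_sq' (abs_le.1 (p1 (gqY u σ x Φ'))).1 (abs_le.1 (p1 (gqY u σ x Φ'))).2
        change a1 x Φ ^ 2 ≤ _ at b1
        change a1 x Φ' ^ 2 ≤ _ at b2
        nlinarith [sq_nonneg (a1 x Φ - a1 x Φ'), sq_nonneg (a1 x Φ + κ x),
          sq_nonneg (a1 x Φ' + κ x)])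
      (fun _ => by positivity) (by rw [av_add, av_const, av_mul_left]; linarith)
      ((gq_av fun x Φ => (a1 x (lft Φ) - κ x) * (a1 x (rgt Φ) - κ x)).symm.trans_le g2)
    have := w0 (2 * C ^ 2 + 2 * τ0 ^ 2) (by positivity)
    rw [gq_f2 (fun (x : OmE E I) (o : Prb I K M s) => pld x.2 (gprl o)) (fun x o => a1 x (gprl o)) κ]
    linarith
  have f3 : av (fun x => av fun o : Prb I K M s => pld x.2 (gprl o) * a2 x (gprl o)) ≤ 2 := by
    have b := gq_probe (m := M) (s := s) a2 (fun _ _ => 1) (fun _ => C) zero_le_one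
      (fun x Φ _ => (mul_one _).trans_le (p2C _)) (fun _ => hC) (av_const _).le
      ((gq_av fun x Φ => a2 x (lft Φ) * 1).symm.trans_le (by simpa only [mul_one] using g3))
    have := gq_f3 (fun (x : OmE E I) (o : Prb I K M s) => pld x.2 (gprl o)) (fun x o => a2 x (gprl o))
      hC (fun _ _ => pld_nonneg _ _) (fun _ _ => p2 _) fun _ _ => p2C _
    have := w0 C hC
    have := mul_le_mul_of_nonneg_left f0' hC
    simp only [mul_one] at b
    linarith
  have f4 : 7 * t / 16 ≤ av fun x => (u x).re * (κ x * ρ x) := by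
    have b := gq_f4 (fun x => (u x).re * κ x) ρ hζ
    have b1 : t / 2 ≤ av fun x => (u x).re * κ x := by
      rw [av_congr (g := fun x => τ0 / σ * (u x).re ^ 2) fun x => by simp only [hκ]; ring,
        av_mul_left, div_mul_eq_mul_div, le_div_iff₀ hσ0, ht]
      nlinarith [mul_le_mul_of_nonneg_left hre hτ.le,
        mul_le_mul_of_nonneg_left hrσ (mul_pos hτ hσ0).le]
    have b2 : av (fun x => ((u x).re * κ x) ^ 2) ≤ (τ0 / r) ^ 2 * |D 4| := by
      rw [av_congr (g := fun x => (τ0 / σ) ^ 2 * |(u x).re| ^ 4) fun x => by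
        rw [Even.pow_abs (by norm_num)]; simp only [hκ]; ring, av_mul_left]
      exact mul_le_mul (pow_le_pow_left₀ (by positivity) (div_le_div_of_nonneg_left hτ.le hr0 hrσ) 2)
        (((av_mono fun x => hle x 4).trans (hD 4)).trans (le_abs_self _))
        (av_nonneg fun _ => by positivity) (sq_nonneg _)
    have b3 : av (fun x => (ρ x - 1) ^ 2) / ζ ≤ ζ := (div_le_iff₀ hζ).2 f0
    have b4 := mul_le_mul_of_nonneg_left b2 hζ.le
    simp only [mul_assoc] at b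
    linarith only [b, b1, b3, b4, z3, z4, z5, z6, z10]
  obtain ⟨ψ', A, q0, q1, q2, q3, q4, q5, q6, hA⟩ := hM (OmE E I) (OmE E K) (Prb I K M s) (Lab I K)
    cell gprl (fun _ => none) (fun o => Good (gprl o)) (fun x o => pld x.2 (gprl o) * a x (gprl o))
    cell_none le_rfl (fun _ _ => mul_nonneg (pld_nonneg _ _) (p0 _))
    (fun o ho => gq_tile (a := fun x => a x (gprl o)) ho (i0 _))
    (fun o ho x y hx => gq_cell (a := fun x => a x (gprl o)) ho (i0 _)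
      (left_ne_zero_of_mul hx.ne') y) (gg_abs_le _ hη0.le (f1.trans k1)) (by
      rw [av_comm]
      refine le_trans (av_mono (g := fun o : Prb I K M s => C * ind (¬ Good (gprl o))) fun o => ?_) ?_
      · rw [av_mul_right]
        refine mul_le_mul_of_nonneg_right ?_ (ind_nonneg _)
        refine (av_mono fun x => mul_le_mul_of_nonneg_left (pC _) (pld_nonneg _ _)).trans_eq ?_
        rw [av_mul_right, r1, one_mul]
      · rw [av_mul_left]
        refine (mul_le_mul_of_nonneg_left (prl_bad hs) hC).trans ?_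
        rw [lt_div_iff₀' (by positivity)] at hm1
        have b := pow_le_pow_of_le_one (a := (1 / 2 : ℝ)) (by norm_num) (by norm_num) hM1
        have b0 : (0 : ℝ) ≤ (1 / 2) ^ m1 := by positivity
        linarith only [hm1, b0,
          mul_le_mul_of_nonneg_left b (mul_nonneg hC (Nat.cast_nonneg (Nat.card K)))])
  obtain ⟨A', c1, c2⟩ := gq_final (τ := τ) u gprl a a1 a2 (fun x => κ x * ρ x) ψ' A
    (s := t / 4) (by positivity) hμ hB (fun _ _ => p2 _) (fun _ _ => p12 _) i0 i1 q0 q1 q2 q3 q4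
    q5 q6 hA f1 f2 f3 (hD2.trans (hD 2)) ((av_mono fun x => hle x 8).trans (hD 8))
  exact ⟨A', c1.trans he4η, (gq_arith ht0 f4 hμ hB hμ1 k4 k2 he4B hB5).trans c2⟩

theorem gg_of (h : τ.ND) (hM : MRF) (h1 : GTW) (h2 : GT2) (hO : MOM τ) : GG τ := by
  intro D m hm
  obtain ⟨cG, hc, H⟩ := gg_core h hM (gtu_of h1 h2 τ) hO D m hm
  refine ⟨cG, hc, fun K _ η hη => ?_⟩
  obtain ⟨ηS, v, a1, a2, H⟩ := H K η hη
  refine ⟨ηS, v, a1, a2, fun s hs => ?_⟩
  obtain ⟨n0, H⟩ := H s hs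
  refine ⟨n0, fun I _ hI c b1 b2 b3 b4 b5 => ?_⟩
  by_cases hre : n2 (fld τ c) ≤ 2 * av (fun x => (fld τ c x).re ^ 2)
  · exact H I hI c b1 b2 b3 b4 b5 hre
  have hr : ¬ τ.Real := fun hr => hre (by
    simp only [gq_sq (b2 hr _)]
    change _ ≤ 2 * n2 _
    linarith [n2_nonneg (fld τ c)])
  have e : fld τ (fun w => Complex.I * c w) = fun x => Complex.I * fld τ c x :=
    funext fun x => fld_mul_left τ _ c x
  have e2 : n2 (fun x => Complex.I * fld τ c x) = n2 (fld τ c) := by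
    rw [n2_mul_left, Complex.norm_I, one_pow, one_mul]
  have k := H I hI fun w => Complex.I * c w
  rw [e, e2, gq_vr Complex.norm_I] at k
  obtain ⟨A, k1, k2⟩ := k (by simpa only [CT, norm_mul, Complex.norm_I, one_mul] using b1)
    (fun h' => absurd h' hr) b3 b4 (gq_small Complex.norm_I b5) (by
      have : n2 (fld τ c) = av (fun x => (fld τ c x).re ^ 2) +
          av fun x => (Complex.I * fld τ c x).re ^ 2 := by
        rw [← av_add]
        refine av_congr fun x => ?_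
        rw [Complex.sq_norm, Complex.normSq_apply, Complex.I_mul_re]
        ring
      linarith)
  refine ⟨A, k1, k2.trans_eq (congrArg _ (funext fun x => funext fun Φ => ?_))⟩
  have := ng_mul_left τ Complex.I (res (fld τ c) x Φ)
  rw [Complex.norm_I, one_pow, one_mul] at this
  exact this

end NE
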