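import Pool.Agent.Lib.MP_ecee09_co.SD.GT

/-! The Gaussian test functions against a weighted finite family (real fields). -/

namespace NE

open SD MeasureTheory ProbabilityTheory Finset Filter Topology

/-- the weighted empirical law of a finite family -/
noncomputable def gtW {Ω Z : Type} [Finite Ω] [MeasurableSpace Z] (p : Ω → ℝ) (y : Ω → Z) :
    Measure Z :=
  ∑ w ∈ @Finset.univ Ω (Fintype.ofFinite Ω),
    ENNReal.ofReal (p w / Nat.card Ω) • Measure.dirac (y w)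

section emp
variable {Ω Z : Type} [Finite Ω] [MeasurableSpace Z] [MeasurableSingletonClass Z]
  (p : Ω → ℝ) (y : Ω → Z)

lemma gtW_int (f : Z → ℝ) : Integrable f (gtW p y) :=
  integrable_finsetSum_measure.2 fun _ _ =>
    (integrable_dirac (by simp)).smul_measure ENNReal.ofReal_ne_top

lemma gtW_eq (hp : ∀ w, 0 ≤ p w) (f : Z → ℝ) :
    ∫ z, f z ∂gtW p y = av fun w => p w * f (y w) := by
  let _ := Fintype.ofFinite Ω
  rw [gtW, integral_finsetSum_measure fun w _ =>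
    (integrable_dirac (by simp)).smul_measure ENNReal.ofReal_ne_top, av_def, sm_eq,
    Finset.sum_div]
  refine Finset.sum_congr rfl fun w _ => ?_
  rw [integral_smul_measure, integral_dirac,
    ENNReal.toReal_ofReal (div_nonneg (hp w) (Nat.cast_nonneg _)), smul_eq_mul]
  ring

lemma gtW_prob (hp : ∀ w, 0 ≤ p w) (h1 : av p = 1) : IsProbabilityMeasure (gtW p y) := by
  have h := gtW_eq p y hp fun _ => 1
  simp only [integral_const, smul_eq_mul, mul_one, h1] at h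
  exact ⟨(ENNReal.toReal_eq_one_iff _).1 h⟩

end emp

lemma pm_zero {L : Type} (l : Fin 0 → L) : pm l = 1 := by
  have h : pm l = pm (fun r : Fin 0 => (r.elim0 : Unit)) := by
    unfold pm
    congr 1
    ext m
    simp
  rw [h, gt_pm_eq]
  simp

theorem gw_trans {I : Type} [Fintype I] (f : (I → ℝ) → ℝ) (hf : GB f)
    (ε : ℝ) (hε : 0 < ε) : ∃ (R : ℕ) (δ : ℝ), 0 < δ ∧
      ∀ (Ω : Type) [Finite Ω] (p : Ω → ℝ) (y : Ω → I → ℝ), (∀ w, 0 ≤ p w) →
        (∀ R' : ℕ, R' ≤ R → ∀ l : Fin R' → I,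
          |(av fun w => p w * ∏ r, y w (l r)) - pm l| ≤ δ) →
        av (fun w => p w * f (y w)) ≤ ∫ z, f z ∂gtP I + ε := by
  obtain ⟨hc, C, hb⟩ := hf
  by_contra hcon
  push Not at hcon
  choose Ω hf p y hp h1 h2 using fun n : ℕ => hcon n (1 / 2 * (1 / ((n : ℝ) + 1))) (by positivity)
  have hlim : ∀ (R : ℕ) (l : Fin R → I),
      Tendsto (fun n => av fun w => p n w * ∏ r, y n w (l r)) atTop (𝓝 (pm l)) := fun R l => by
    rw [tendsto_iff_dist_tendsto_zero]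
    refine squeeze_zero' (g := fun n : ℕ => 1 / 2 * (1 / ((n : ℝ) + 1)))
      (Eventually.of_forall fun n => dist_nonneg) ?_
      (by simpa using tendsto_one_div_add_atTop_nhds_zero_nat.const_mul (1 / 2 : ℝ))
    filter_upwards [eventually_ge_atTop R] with n hn using h1 n R hn l
  have h0 : Tendsto (fun n => av (p n)) atTop (𝓝 1) := by
    simpa [pm_zero] using hlim 0 Fin.elim0
  have hpos : ∀ n, 0 < av (p n) := fun n => by
    have h := (abs_le.1 (h1 n 0 (Nat.zero_le _) Fin.elim0)).1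
    have h' : 1 / ((n : ℝ) + 1) ≤ 1 := by
      rw [div_le_one (by positivity)]; linarith [(Nat.cast_nonneg n : (0 : ℝ) ≤ n)]
    simp only [Finset.univ_eq_empty, Finset.prod_empty, mul_one, pm_zero] at h
    linarith
  have hq : ∀ n w, 0 ≤ p n w / av (p n) := fun n w => div_nonneg (hp n w) (hpos n).le
  have he : ∀ n (g : (I → ℝ) → ℝ), ∫ z, g z ∂gtW (fun w => p n w / av (p n)) (y n) =
      (av fun w => p n w * g (y n w)) / av (p n) := fun n g => by
    rw [gtW_eq _ _ (hq n), ← av_div]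
    exact av_congr fun w => by ring
  have hP : ∀ n, IsProbabilityMeasure (gtW (fun w => p n w / av (p n)) (y n)) := fun n =>
    gtW_prob _ _ (hq n) (by rw [av_div, div_self (hpos n).ne'])
  have h3 := gt_weak (fun n => gtW (fun w => p n w / av (p n)) (y n))
    (fun n g => gtW_int _ (y n) g) (fun R l => by
      simp only [he, ← gt_pm_eq]
      have h := (hlim R l).div h0 one_ne_zero
      rwa [div_one] at h) f hc C hb
  have h4 := h3.mul h0
  simp only [he, div_mul_cancel₀ _ (hpos _).ne', mul_one] at h4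
  obtain ⟨n, hn⟩ := (h4.eventually (gt_mem_nhds (lt_add_of_pos_right _ hε))).exists
  exact lt_asymm hn (h2 n)

/-- two copies of `T` that share one point, and their joint embedding -/
lemma gt_glue {T : Type} (o : T) : ∃ (a b : T → T ⊕ {t : T // t ≠ o}),
    Function.Injective a ∧ Function.Injective b ∧ a o = b o ∧ (∀ t t', a t = b t' → t = o) ∧
      ∀ (L : Type) (e1 e2 : T → L), Function.Injective e1 → Function.Injective e2 →
        e1 o = e2 o → (∀ t t', e1 t = e2 t' → t = o) →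
          ∃ j : T ⊕ {t : T // t ≠ o} → L, Function.Injective j ∧ (∀ t, j (a t) = e1 t) ∧
            ∀ t, j (b t) = e2 t := by
  classical
  refine ⟨Sum.inl, fun t => if h : t = o then Sum.inl o else Sum.inr ⟨t, h⟩, Sum.inl_injective,
    ?_, by simp, ?_, fun L e1 e2 i1 i2 eo e12 => ⟨Sum.elim e1 fun t => e2 t.1, ?_, fun _ => rfl,
      fun t => ?_⟩⟩
  · intro t t' h
    by_cases h1 : t = o <;> by_cases h2 : t' = o
    · rw [h1, h2]
    · simp [h1, h2] at h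
    · simp [h1, h2] at h
    · simpa [h1, h2] using h
  · intro t t' h
    by_cases h2 : t' = o
    · simpa [h2] using h
    · simp [h2] at h
  · rintro (t | t) (t' | t') h
    · exact congrArg _ (i1 h)
    · have h1 := e12 _ _ h
      subst h1
      exact absurd (i2 (eo.symm.trans h)).symm t'.2
    · have h1 := e12 _ _ h.symm
      subst h1
      exact absurd (i2 (eo.symm.trans h.symm)).symm t.2
    · exact congrArg _ (Subtype.ext (i2 h))
  · by_cases h : t = o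
    · simp [h, eo]
    · simp [h]

lemma pm_two {I : Type} [Fintype I] (c : I) : pm (fun _ : Fin 2 => c) = 1 := by
  have h := gt_split c ∅ ∅ (by simp) (by simp) (by simp) (fun x => x ^ 2) (gtf 0) (gtf 0)
    (gtf_one 0) (gtf_one 0)
  rw [gt_sq] at h
  rw [gt_pm_eq]
  simpa using h

lemma gtS_nonneg {T : Type} [Fintype T] (r : ℝ) (j : ℕ) (hj : Even j) (X : T → ℝ) :
    0 ≤ gtS r j X :=
  integral_nonneg fun t => mul_nonneg (hj.pow_nonneg t)
    (Finset.prod_nonneg fun _ _ => (gtf_pos _ _).le)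

lemma gtS_cs {T : Type} [Fintype T] (r : ℝ) (X : T → ℝ) :
    gtS r 1 X ^ 2 ≤ gtS r 0 X * gtS r 2 X :=
  gt_cs _ _ (fun _ => Finset.prod_nonneg fun _ _ => (gtf_pos _ _).le)
    fun j => (gk_S (id : T → T) r j).int X

lemma gtS_bdd (T : Type) [Fintype T] (r : ℝ) :
    ∃ C : ℝ, 1 ≤ C ∧ ∀ X : T → ℝ, |gtS r 0 X| ≤ C ∧ |gtS r 1 X| ≤ C ∧ |gtS r 2 X| ≤ C := by
  obtain ⟨-, C0, b0⟩ := gb_S (id : T → T) r 0
  obtain ⟨-, C1, b1⟩ := gb_S (id : T → T) r 1
  obtain ⟨-, C2, b2⟩ := gb_S (id : T → T) r 2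
  refine ⟨max (max C0 C1) (max C2 1), le_max_of_le_right (le_max_right _ _), fun X =>
    ⟨(b0 X).trans (le_max_of_le_left (le_max_left _ _)),
      (b1 X).trans (le_max_of_le_left (le_max_right _ _)),
      (b2 X).trans (le_max_of_le_right (le_max_left _ _))⟩⟩

/-- the Gaussian test for real fields and a weight `p` -/
def GTW : Prop :=
  ∃ τ : ℝ, 0 < τ ∧ ∀ (T : Type) [Fintype T] (o : T) (η : ℝ), 0 < η →
    ∃ (Ψ Ψ1 Ψ2 : (T → ℝ) → ℝ) (C : ℝ) (R : ℕ) (δ : ℝ), 0 < δ ∧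
      Inv2 Ψ ∧ Inv2 Ψ1 ∧ Inv2 Ψ2 ∧ (∀ X, 0 ≤ Ψ X) ∧ (∀ X, Ψ X ≤ C) ∧ (∀ X, |Ψ1 X| ≤ C) ∧
      (∀ X, 0 ≤ Ψ2 X) ∧ (∀ X, Ψ2 X ≤ C) ∧ (∀ X, Ψ1 X ^ 2 ≤ Ψ X * Ψ2 X) ∧
      ∀ (Ω L : Type) [Finite Ω] (p : Ω → ℝ) (Y : Ω → L → ℝ) (e1 e2 : T → L),
        (∀ w, 0 ≤ p w) → Function.Injective e1 → Function.Injective e2 → e1 o = e2 o →
        (∀ t t', e1 t = e2 t' → t = o) →
        (∀ R' : ℕ, R' ≤ R → ∀ l : Fin R' → L,
          |(av fun w => p w * ∏ r, Y w (l r)) - pm l| ≤ δ) →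
        av (fun w => p w * ((Ψ (Y w ∘ e1) - 1) * (Ψ (Y w ∘ e2) - 1))) ≤ η ∧
        av (fun w => p w *
          ((Ψ1 (Y w ∘ e1) - τ * Y w (e1 o)) * (Ψ1 (Y w ∘ e2) - τ * Y w (e1 o)))) ≤ η ∧
        av (fun w => p w * Ψ2 (Y w ∘ e1)) ≤ 1

theorem gtw : GTW := by
  classical
  refine ⟨1 / 2, by norm_num, fun T _ o η hη => ?_⟩
  obtain ⟨r, r0, r2, r2'⟩ := gt_cut (η / 4) (by linarith)
  obtain ⟨a, b, ha, hb, ho, hab, hj⟩ := gt_glue o
  obtain ⟨C, -, hC⟩ := gtS_bdd T r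
  obtain ⟨R1, δ1, p1, t1⟩ := gw_trans _
    (((gb_S a r 0).sub (GB.const 1)).mul ((gb_S b r 0).sub (GB.const 1))) (η / 2) (by linarith)
  obtain ⟨R2, δ2, p2, t2⟩ := gw_trans _ ((((gb_S a r 1).mul (gb_S b r 1)).sub
    ((GB.const (1 / 2)).mul (gb_xS o a r 1))).sub ((GB.const (1 / 2)).mul (gb_xS o b r 1)))
    (η / 4) (by linarith)
  obtain ⟨R3, δ3, p3, t3⟩ := gw_trans _ (gb_S a r 2) (1 / 2) (by linarith)
  refine ⟨gtS r 0, gtS r 1, gtS r 2, C, R1 + R2 + R3 + 2, min (min δ1 δ2) (min δ3 η),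
    by positivity, gt_inv r 0, gt_inv r 1, gt_inv r 2, gtS_nonneg r 0 (by simp),
    fun X => (le_abs_self _).trans (hC X).1, fun X => (hC X).2.1, gtS_nonneg r 2 (by simp),
    fun X => (le_abs_self _).trans (hC X).2.2, gtS_cs r, ?_⟩
  intro Ω L _ p Y e1 e2 hp i1 i2 eo e12 hm
  obtain ⟨j, hj, ja, jb⟩ := hj L e1 e2 i1 i2 eo e12
  have ja' : ∀ w, (fun i => Y w (j i)) ∘ a = Y w ∘ e1 := fun w => funext fun t => by simp [ja]
  have jb' : ∀ w, (fun i => Y w (j i)) ∘ b = Y w ∘ e2 := fun w => funext fun t => by simp [jb]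
  have hm' : ∀ R' : ℕ, R' ≤ R1 + R2 + R3 + 2 → ∀ l : Fin R' → T ⊕ {t : T // t ≠ o},
      |(av fun w => p w * ∏ r, Y w (j (l r))) - pm l| ≤ min (min δ1 δ2) (min δ3 η) :=
    fun R' h l => by rw [← gt_pm_comp j hj l]; exact hm R' h _
  have s1 := t1 Ω p (fun w i => Y w (j i)) hp fun R' h l =>
    (hm' R' (by omega) l).trans ((min_le_left _ _).trans (min_le_left _ _))
  have s2 := t2 Ω p (fun w i => Y w (j i)) hp fun R' h l =>
    (hm' R' (by omega) l).trans ((min_le_left _ _).trans (min_le_right _ _))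
  have s3 := t3 Ω p (fun w i => Y w (j i)) hp fun R' h l =>
    (hm' R' (by omega) l).trans ((min_le_right _ _).trans (min_le_left _ _))
  have s4 := (hm' 2 (by omega) fun _ => a o).trans ((min_le_right _ _).trans (min_le_right _ _))
  rw [pm_two] at s4
  simp only [ja', jb', ← ho] at s1 s2 s3
  have g1 := gt_g1 o ha hb ho hab r
  have g2 := gt_g2 o ha hb ho hab r
  rw [gt_f1 o ha] at s3
  simp only [← ho] at g2
  refine ⟨by linarith, ?_, by linarith⟩
  have h5 : ∀ w, p w * ((gtS r 1 (Y w ∘ e1) - 1 / 2 * Y w (e1 o)) *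
      (gtS r 1 (Y w ∘ e2) - 1 / 2 * Y w (e1 o))) =
      p w * (gtS r 1 (Y w ∘ e1) * gtS r 1 (Y w ∘ e2) -
        1 / 2 * (Y w (j (a o)) * gtS r 1 (Y w ∘ e1)) -
        1 / 2 * (Y w (j (a o)) * gtS r 1 (Y w ∘ e2))) +
        1 / 4 * (p w * ∏ _r : Fin 2, Y w (j (a o))) := fun w => by
    rw [ja, Fin.prod_univ_two]; ring
  rw [av_congr h5, av_add, av_mul_left]
  linarith [(abs_le.1 s4).2]

end NE
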