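import Pool.Agent.Lib.MP_ecee09_co.NE.MoD

/-! The moments of a field along the joint probe. -/

namespace NE

open SD

lemma mo_num {N N2 : ℕ} {C η x d W : ℝ} (hN : N2 ≤ N) (hW : (1 / 2 : ℝ) ^ N2 * W ≤ 1 / 2)
    (hd0 : 0 ≤ d) (hd : d ≤ W) (hC : 0 ≤ C) (hx : x ≤ η) (hη0 : 0 ≤ η)
    (hη : η ≤ (1 / 2) ^ (N ^ 14) / (4 * (C * N ^ 20 + 1))) :
    (1 / 2 : ℝ) ^ (N ^ 14 + N) * d + C * ((N ^ 20 : ℕ) * (η + x)) ≤ (1 / 2) ^ (N ^ 14) := by
  have h1 : (1 / 2 : ℝ) ^ N * d ≤ 1 / 2 :=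
    (mul_le_mul (pow_le_pow_of_le_one (by norm_num) (by norm_num) hN) hd hd0
      (by positivity)).trans hW
  have h2 : 0 < (1 / 2 : ℝ) ^ (N ^ 14) := by positivity
  have h3 : 0 ≤ C * N ^ 20 := by positivity
  rw [le_div_iff₀ (by positivity)] at hη
  have h4 := mul_le_mul_of_nonneg_left h1 h2.le
  have h5 := mul_le_mul_of_nonneg_left hx h3
  rw [pow_add]
  push_cast
  nlinarith

lemma mo_le_pow (N : ℕ) : N ≤ N ^ 20 := Nat.le_self_pow (by norm_num) N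

theorem mom_of {E : Type} [AddCommGroup E] [Finite E] {τ : QT E} (hτ : τ.ND) (hP : PIND τ)
    (hS : ASB τ) (hV : AVAR E) (hM : AMOM τ) : MOM τ := by
  intro D R K _ δ m1 hδ
  obtain ⟨v1, v10, hM⟩ := hM (dw D) R (δ / 2) (by positivity)
  obtain ⟨N1, hS⟩ := hS
  obtain ⟨W, hW0, hW1, hW2⟩ : ∃ W : ℝ, 0 < W ∧ (∀ p ≤ 16, dw D p ≤ W) ∧ D 2 ^ 2 ≤ W := by
    have s0 : 0 ≤ ∑ p ∈ Finset.range 17, |dw D p| := Finset.sum_nonneg fun _ _ => abs_nonneg _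
    refine ⟨1 + D 2 ^ 2 + ∑ p ∈ Finset.range 17, |dw D p|, by positivity, fun p hp => ?_,
      by linarith⟩
    have := Finset.single_le_sum (f := fun p => |dw D p|) (fun _ _ => abs_nonneg _)
      (Finset.mem_range.2 (Nat.lt_succ_of_le hp))
    have := le_abs_self (dw D p)
    have := sq_nonneg (D 2)
    linarith
  obtain ⟨B, hB0, hB⟩ : ∃ B : ℝ, 0 < B ∧ ∀ p ≤ R, 1 + p * dw D (2 * p) ≤ B := by
    have s0 : 0 ≤ ∑ p ∈ Finset.range (R + 1), |p * dw D (2 * p)| :=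
      Finset.sum_nonneg fun _ _ => abs_nonneg _
    refine ⟨1 + ∑ p ∈ Finset.range (R + 1), |p * dw D (2 * p)|, by positivity, fun p hp => ?_⟩
    have := Finset.single_le_sum (f := fun p : ℕ => |p * dw D (2 * p)|) (fun _ _ => abs_nonneg _)
      (Finset.mem_range.2 (Nat.lt_succ_of_le hp))
    have := le_abs_self (p * dw D (2 * p))
    linarith
  obtain ⟨δ1, d0, d1, d2⟩ : ∃ δ1 : ℝ, 0 < δ1 ∧ δ1 ≤ 1 ∧ δ1 * W ≤ v1 / 4 :=
    ⟨min 1 (v1 / 4 / W), by positivity, min_le_left _ _,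
      (le_div_iff₀ hW0).1 (min_le_right _ _)⟩
  obtain ⟨k1, hV⟩ := hV δ1 d0
  obtain ⟨N2, hN2⟩ := exists_pow_lt_of_lt_one (show 0 < 1 / 2 / W by positivity)
    (show (1 / 2 : ℝ) < 1 by norm_num)
  have hN2' : (1 / 2 : ℝ) ^ N2 * W ≤ 1 / 2 := ((lt_div_iff₀ hW0).1 hN2).le
  obtain ⟨M, N, hM1, hN1, hM⟩ := hM (K ⊕ K) (N1 + k1 + m1 + N2 + 1)
  obtain ⟨CN, cN0, hSN⟩ := hS N (by omega)
  obtain ⟨CM, cM0, hSM⟩ := hS M (by omega)
  obtain ⟨η, η0, η1, η2⟩ : ∃ η : ℝ, 0 < η ∧ η ≤ (1 / 2) ^ (N ^ 14) / (4 * (CN * N ^ 20 + 1)) ∧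
      η ≤ (1 / 2) ^ (M ^ 14) / (4 * (CM * M ^ 20 + 1)) :=
    ⟨min _ _, lt_min (by positivity) (by positivity), min_le_left _ _, min_le_right _ _⟩
  have pM := mo_le_pow M
  have pN := mo_le_pow N
  refine ⟨M ^ 20, η, v1 / 8, by omega, η0, by positivity, fun s => ?_⟩
  have sW : 0 < √W := Real.sqrt_pos.2 hW0
  have sB : 0 < √B := Real.sqrt_pos.2 hB0
  obtain ⟨ε, ε0, ε1, ε2, ε3, ε4⟩ : ∃ ε : ℝ, 0 < ε ∧ ε ≤ 1 ∧ ε * √W ≤ η ∧ ε * √W ≤ v1 / 8 ∧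
      ε * √B ≤ δ / 8 :=
    ⟨min (min 1 (η / √W)) (min (v1 / 8 / √W) (δ / 8 / √B)), by positivity,
      (min_le_left _ _).trans (min_le_left _ _),
      (le_div_iff₀ sW).1 ((min_le_left _ _).trans (min_le_right _ _)),
      (le_div_iff₀ sW).1 ((min_le_right _ _).trans (min_le_left _ _)),
      (le_div_iff₀ sB).1 ((min_le_right _ _).trans (min_le_right _ _))⟩
  obtain ⟨n0, hn0, hD⟩ := mw_drop (Nat.card (Uu (N ^ 20) (K ⊕ K) (M ^ 20) s)) ε0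
  refine ⟨n0, fun I _ hI c hu hA hv hb P P' R' hR t σ => ?_⟩
  have h := hD I hI
  have := nonempty_emb (hn0.trans hI)
  have dn : ∀ p, 0 ≤ dw D p := fun p => by
    have := hu.nn p
    have := hu.nn (2 * p)
    unfold dw
    linarith
  have sq : ∀ p ≤ 16, ε * √(dw D p) ≤ ε * √W := fun p hp =>
    mul_le_mul_of_nonneg_left (Real.sqrt_le_sqrt (hW1 p hp)) ε0.le
  have n2D : n2 (fld τ c) ≤ D 2 := hu.av_le 2
  have k := hM (Ow I K (N ^ 20) (M ^ 20) s) (I → E) (fun ω => sprH (uPs ω.1 ω.2.1))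
    (kw (fld τ c)) (√(n2 (fld τ c))) (Real.sqrt_nonneg _) ?_ ?_ (fun ω hr b => hA hr _)
    ?_ ?_ ?_ (jq P P') R' hR t σ
  · have k' := mo_main hτ h ε0.le ε1 hu le_rfl (hn0.trans hI) P P' t σ (hB R' hR)
    refine (norm_sub_le_norm_sub_add_norm_sub _ _ _).trans ((add_le_add k' k).trans ?_)
    linarith
  · rw [Real.sq_sqrt (n2_nonneg _)]
    have := hu.nn (2 * 2)
    unfold dw
    linarith
  · intro p
    rw [av_Ow]
    simp only [kw, av_const]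
    exact mo_mom h ε1 hu le_rfl _ _ p
  · intro J hJ
    have q := mo_sb hP h ε0.le ε1 hu le_rfl Function.Embedding.inl (fun j x x' => uC0_inl _ _)
      Sum.inl_injective ubl_inl hb (J := J)
      (Jb := {l | ∃ j ∈ J, ∃ g, l = Sum.inl (j, g)}) (fun l hl => ⟨l.1, hl, l.2, rfl⟩)
      (by positivity) cN0 fun e he g => hSN I s e he g J hJ
    exact ⟨fun S h1 h2 => (q.1 S h1 h2).trans (mo_num (by omega) hN2' (dn _) (hW1 _ (by norm_num))
      cN0 ((sq _ (by norm_num)).trans ε2) η0.le η1),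
      q.2.trans (mo_num (by omega) hN2' (dn _) (hW1 _ (by norm_num))
      cN0 ((sq _ (by norm_num)).trans ε2) η0.le η1)⟩
  · intro a J hJ
    have q := mo_sb hP h ε0.le ε1 hu le_rfl
      ((Function.Embedding.sectR a (Fin (M ^ 20) × Fin s)).trans Function.Embedding.inr)
      (fun j x x' => uC0_inr a _ _) (i := fun l => Sum.inr (a, l))
      (Sum.inr_injective.comp (Prod.mk_right_injective a)) (fun tu => ubl_inr tu a) hb (J := J)
      (Jb := {l | ∃ j ∈ J, ∃ g, l = Sum.inr (a, j, g)}) (fun l hl => ⟨l.1, hl, l.2, rfl⟩)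
      (by positivity) cM0 fun e he g => hSM I s e he g J hJ
    exact ⟨fun S h1 h2 => (q.1 S h1 h2).trans (mo_num (by omega) hN2' (dn _) (hW1 _ (by norm_num))
      cM0 ((sq _ (by norm_num)).trans ε2) η0.le η2),
      q.2.trans (mo_num (by omega) hN2' (dn _) (hW1 _ (by norm_num))
      cM0 ((sq _ (by norm_num)).trans ε2) η0.le η2)⟩
  · refine (mo_vr hτ h ε0.le ε1 hu le_rfl (by omega) d0.le
      fun e he g => hV _ (by omega) I s e he g).trans ?_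
    have a1 := mul_le_mul_of_nonneg_left (hW1 4 (by norm_num)) d0.le
    have a2 : n2 (fld τ c) ^ 2 ≤ W := (pow_le_pow_left₀ (n2_nonneg _) n2D 2).trans hW2
    have a3 := mul_le_mul_of_nonneg_left a2 d0.le
    have a4 := (sq 8 (by norm_num)).trans ε3
    have a5 := mul_le_mul_of_nonneg_left (add_le_add hv a4) (show 0 ≤ 1 + δ1 by positivity)
    have a6 := mul_le_mul_of_nonneg_right d1 v10.le
    nlinarith

end NE
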