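import Pool.Agent.Lib.MP_ecee09_co.NE.PAc
import Pool.Agent.Lib.MP_ecee09_co.NE.Stmts4

/-! The degenerate case (PA) from the reduction of particles. -/

namespace NE

open SD (ind ind_and)

theorem pa_of {E : Type} [AddCommGroup E] [Finite E] {τ : QT E} (hτ : τ.ND) (h : RPA) : PA τ := by
  refine pa_of' hτ fun G _ _ _ e D K _ η hη => ?_
  obtain ⟨n0, hn⟩ := h G e D K η hη
  refine ⟨n0, fun I _ hI P hP => hn I hI P ?_⟩
  simp only [ind_and] at hP
  exact hP

end NE
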