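import Pool.Agent.Lib.MP_ecee09_co.NE.Defs3
import Pool.Agent.Lib.MP_ecee09_co.NE.Fld

/-! The exact boxes of a field do not depend on the pattern. -/

namespace NE

open SD
open ComplexConjugate

variable {E I : Type} [AddCommGroup E] [Finite E] [Finite I] {τ : QT E}

/-- Fourier coefficient of a function of the vector -/
noncomputable def fo (τ : QT E) (g : (I → E) → ℂ) (ζ : I → E) : ℂ :=
  cav fun b => g b * ee (brk τ ζ b)

lemma fo_pars (h : τ.ND) (g g' : (I → E) → ℂ) :
    (csm fun ζ => fo τ g ζ * conj (fo τ g' ζ)) = cav fun b => g b * conj (g' b) := by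
  have e : ∀ (k : (I → E) → ℂ) (w : I → E), tw τ (fun x => k x.1) w 0 = fo τ k (-w) :=
    fun k w => cav_congr fun t => by
      simp only [chi, th_zero_right, add_zero, conj_ee, brk_neg_left]
  have := tw_pars h (fun x => g x.1) (fun x => g' x.1) 0
  simp only [e] at this
  rw [← this]
  exact (csm_equiv (Equiv.neg (I → E)) fun ζ => fo τ g ζ * conj (fo τ g' ζ)).symm

lemma fo_parseval (h : τ.ND) (g : (I → E) → ℂ) : (sm fun ζ => ‖fo τ g ζ‖ ^ 2) = n2 g := by
  have := fo_pars h g g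
  simp only [mul_conj'', csm_ofReal, cav_ofReal] at this
  exact_mod_cast this

lemma fo_shift (τ : QT E) (g : (I → E) → ℂ) (y ζ : I → E) :
    fo τ (fun b => g (b + y)) ζ = conj (ee (brk τ ζ y)) * fo τ g ζ := by
  rw [fo, fo, ← cav_add_right (fun b => g b * ee (brk τ ζ b)) y, ← cav_mul_left]
  refine cav_congr fun b => ?_
  have := ee_mul_conj (brk τ ζ y)
  rw [brk_add_right, ee_add]
  linear_combination (-(g (b + y) * ee (brk τ ζ b))) * this

/-- the autocorrelation in terms of the coefficients -/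
lemma cav_dd (h : τ.ND) (g : (I → E) → ℂ) (y : I → E) :
    cav (dd g y) = csm fun ζ => ((‖fo τ g ζ‖ ^ 2 : ℝ) : ℂ) * ee (brk τ ζ y) := by
  rw [show dd g y = fun b => g b * conj (g (b + y)) from rfl, ← fo_pars h]
  refine csm_congr fun ζ => ?_
  rw [fo_shift, map_mul, Complex.conj_conj, ← mul_conj'']; ring

/-- the weight of the pair `(v, xi)` -/
noncomputable def W0 (τ : QT E) (c : (I → E) → ℂ) (p : (I → E) × (I → E)) : ℂ :=
  csm fun w => c w * conj (c (w + p.1)) * ee (brk τ w p.2)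

/-- coefficients of the derivative of a field -/
lemma fo_dd_fld (h : τ.ND) (c : (I → E) → ℂ) (P : Om I) (y ζ : I → E) :
    fo τ (dd (fun b => fld τ c (b, P)) y) ζ =
      conj (chi τ ζ (y, P)) * W0 τ c (ζ, -(y + adj P ζ)) := by
  have e : ∀ b : I → E, dd (fun b => fld τ c (b, P)) y b * ee (brk τ ζ b) =
      csm fun w => csm fun w' => c w * ph τ w P * conj (c w' * chi τ w' (y, P)) *
        (ee (brk τ (w + ζ) b) * conj (ee (brk τ w' b))) := fun b => by
    simp only [dd, fld, conj_csm]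
    rw [csm_mul_csm, ← csm_mul_right]
    refine csm_congr fun w => ?_
    rw [← csm_mul_right]
    refine csm_congr fun w' => ?_
    simp only [chi_eq, brk_add_left, brk_add_right, ee_add, map_mul]; ring
  simp only [fo, e, cav_csm_comm, cav_mul_left, cav_brk h]
  rw [W0, ← csm_mul_left]
  refine csm_congr fun w => ?_
  rw [csm_congr (g := fun w' => (ind (w + ζ = w') : ℂ) *
    (c w * ph τ w P * conj (c w' * chi τ w' (y, P)))) fun w' => mul_comm _ _, csm_ind_eq']
  have h1 := ph_mul_conj τ w P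
  simp only [chi_eq, ph, th_add, brk_add_left, brk_neg_right, brk_add_right, ← conj_ee, ee_add,
    map_mul] at h1 ⊢
  linear_combination (c w * conj (c (w + ζ)) * conj (ee (brk τ w y)) * conj (ee (brk τ ζ y)) *
    conj (ee (th τ ζ P)) * conj (ee (brk τ w (adj P ζ)))) * h1

lemma norm_fo_dd_fld (h : τ.ND) (c : (I → E) → ℂ) (P : Om I) (y ζ : I → E) :
    ‖fo τ (dd (fun b => fld τ c (b, P)) y) ζ‖ = ‖W0 τ c (ζ, -(y + adj P ζ))‖ := by
  rw [fo_dd_fld h, norm_mul, Complex.norm_conj, chi, norm_ee, one_mul]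

omit [Finite E] [Finite I] in
lemma sft_univ (S : AddSubgroup E) (y : I → S) : sft Set.univ S y = fun i => (y i : E) :=
  funext fun i => if_pos (Set.mem_univ i)

lemma cav_brk_sub (τ : QT E) (S : AddSubgroup E) (ζ : I → E) :
    cav (fun y : I → S => ee (brk τ ζ fun i => (y i : E))) = (ind (∀ i, ζ i ∈ τ.perp S) : ℝ) := by
  classical
  rw [cav_ee_add (fun y : I → S => brk τ ζ fun i => (y i : E))
    fun a b => by rw [← brk_add_right]; rfl]
  congr 1
  refine ind_congr ⟨fun hz i s hs => ?_, fun hz y => ?_⟩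
  · have := hz (Pi.single i ⟨s, hs⟩)
    rw [show (fun j => ((Pi.single i ⟨s, hs⟩ : I → S) j : E)) = Pi.single i s from
      funext fun j => by by_cases e : j = i <;> simp [e], brk_single_right] at this
    rw [τ.symm]; exact this
  · let _ := Fintype.ofFinite I
    rw [brk_eq]
    exact Finset.sum_eq_zero fun i _ => by rw [τ.symm]; exact hz i _ (y i).2

/-- the box through the coefficients of the derivative -/
lemma xb2_fo (h : τ.ND) (k : (I → E) → ℂ) (S S' : AddSubgroup E) :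
    xb2 k Set.univ S S' = av fun y : I → S => sm fun ζ =>
      ind (∀ i, ζ i ∈ τ.perp S') * ‖fo τ (dd k fun i => (y i : E)) ζ‖ ^ 2 := by
  rw [xb2, gb2, cav_comm, cav_re]
  refine av_congr fun y => ?_
  rw [cav_comm]
  simp only [sft_univ]
  have e : ∀ y' : I → S', (cav fun x => dd (dd k fun i => (y i : E)) (fun i => (y' i : E)) x) =
      csm fun ζ => ((‖fo τ (dd k fun i => (y i : E)) ζ‖ ^ 2 : ℝ) : ℂ) *
        ee (brk τ ζ fun i => (y' i : E)) := fun y' => cav_dd h _ _
  simp only [e, cav_csm_comm, cav_mul_left, cav_brk_sub, ← Complex.ofReal_mul, csm_ofReal,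
    Complex.ofReal_re]
  exact sm_congr fun ζ => mul_comm _ _

omit [Finite E] in
lemma adj_mem {S : AddSubgroup E} (P : Om I) {ζ : I → E} (hζ : ∀ i, ζ i ∈ S) (i : I) :
    adj P ζ i ∈ S := by
  let _ := Fintype.ofFinite I
  rw [adj_eq]
  exact S.sum_mem fun j _ => S.nsmul_mem (hζ j) _

lemma xb2_eq (h : τ.ND) (c : (I → E) → ℂ) (P : Om I) (S : AddSubgroup E) :
    xb2 (fun b => fld τ c (b, P)) Set.univ S (τ.perp S) = sm fun ζ => ind (∀ i, ζ i ∈ S) *
      av fun y : I → S => ‖W0 τ c (ζ, -fun i => (y i : E))‖ ^ 2 := by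
  rw [xb2_fo h, av_sm_comm, h.perp_perp]
  refine sm_congr fun ζ => ?_
  rw [av_mul_left]
  by_cases hζ : ∀ i, ζ i ∈ S
  · congr 1
    rw [← av_add_right (fun y : I → S => ‖W0 τ c (ζ, -fun i => (y i : E))‖ ^ 2)
      fun i => ⟨adj P ζ i, adj_mem P hζ i⟩]
    exact av_congr fun y => by rw [norm_fo_dd_fld h]; rfl
  · rw [ind_neg hζ, zero_mul, zero_mul]

omit [Finite E] [Finite I] in
/-- averages over vectors with values in the whole group -/
lemma cav_top (f : (I → E) → ℂ) :
    (cav fun y : I → (⊤ : AddSubgroup E) => f (sft Set.univ ⊤ y)) = cav f := by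
  simp only [sft_univ]
  exact cav_equiv (Equiv.piCongrRight fun _ => AddSubgroup.topEquiv.toEquiv) f

/-- the second uniformity norm -/
lemma u2_fo (h : τ.ND) (g : (I → E) → ℂ) :
    (cav fun x => cav fun y => cav fun z => dd (dd g y) z x) =
      (sm (fun ζ => ‖fo τ g ζ‖ ^ 4) : ℝ) := by
  have e1 : ∀ y, (cav fun x => cav fun z => dd (dd g y) z x) =
      cav (dd g y) * conj (cav (dd g y)) := fun y => by
    rw [conj_cav, cav_mul_cav]
    exact cav_congr fun x => cav_add_left (fun z => dd g y x * conj (dd g y z)) x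
  rw [cav_comm]
  simp only [e1, cav_dd h, conj_csm, csm_mul_csm, cav_csm_comm]
  rw [← csm_ofReal]
  refine csm_congr fun ζ => ?_
  have e2 : ∀ ζ' : I → E, (cav fun y => ((‖fo τ g ζ‖ ^ 2 : ℝ) : ℂ) * ee (brk τ ζ y) *
      conj (((‖fo τ g ζ'‖ ^ 2 : ℝ) : ℂ) * ee (brk τ ζ' y))) =
      (ind (ζ = ζ') : ℂ) * ((‖fo τ g ζ‖ ^ 2 * ‖fo τ g ζ'‖ ^ 2 : ℝ) : ℂ) := fun ζ' => by
    rw [← cav_brk h, ← cav_mul_right]
    refine cav_congr fun y => ?_
    rw [map_mul, Complex.conj_ofReal]; push_cast; ring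
  simp only [e2]
  rw [csm_ind_eq']; congr 1; ring

lemma xb3_fo (h : τ.ND) (k : (I → E) → ℂ) :
    xb3 k Set.univ = av fun y => sm fun ζ => ‖fo τ (dd k y) ζ‖ ^ 4 := by
  rw [xb3, gb3]
  have e : ∀ x, (cav fun h1 : I → (⊤ : AddSubgroup E) => cav fun h2 : I → (⊤ : AddSubgroup E) =>
      cav fun h3 : I → (⊤ : AddSubgroup E) =>
        dd (dd (dd k (sft Set.univ ⊤ h1)) (sft Set.univ ⊤ h2)) (sft Set.univ ⊤ h3) x) =
      cav fun h1 => cav fun h2 => cav fun h3 => dd (dd (dd k h1) h2) h3 x := fun x => by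
    rw [← cav_top fun h1 => cav fun h2 => cav fun h3 => dd (dd (dd k h1) h2) h3 x]
    refine cav_congr fun h1 => ?_
    rw [← cav_top fun h2 => cav fun h3 => dd (dd (dd k (sft Set.univ ⊤ h1)) h2) h3 x]
    exact cav_congr fun h2 => cav_top fun h3 =>
      dd (dd (dd k (sft Set.univ ⊤ h1)) (sft Set.univ ⊤ h2)) h3 x
  simp only [e]
  rw [cav_comm, cav_re]
  exact av_congr fun y => by rw [u2_fo h, Complex.ofReal_re]

/-- the third box is the fourth moment of the weight -/
lemma xb3_eq (h : τ.ND) (c : (I → E) → ℂ) (P : Om I) :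
    xb3 (fun b => fld τ c (b, P)) Set.univ =
      (sm fun p => ‖W0 τ c p‖ ^ 4) / Nat.card (I → E) := by
  rw [xb3_fo h, av_sm_comm, sm_prod, ← sm_div]
  refine sm_congr fun ζ => ?_
  simp only [norm_fo_dd_fld h]
  rw [← av_def]
  exact av_equiv ((Equiv.addRight (adj P ζ)).trans (Equiv.neg _)) fun ξ => ‖W0 τ c (ζ, ξ)‖ ^ 4

lemma box3_eq (h : τ.ND) (c : (I → E) → ℂ) :
    box3 (fld τ c) = (sm fun p => ‖W0 τ c p‖ ^ 4) / Nat.card (I → E) := by
  simp only [box3, xb3_eq h]
  exact av_const _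

theorem pind (h : τ.ND) : PIND τ := fun _ _ c P P' =>
  ⟨fun S => by rw [xb2_eq h, xb2_eq h], by rw [xb3_eq h, xb3_eq h]⟩

end NE
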