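import Pool.Agent.Lib.MP_ecee09_co.NE.Free
import Pool.Agent.Lib.MP_ecee09_co.NE.Cells

/-! Boxes and energies seen through tagged blocks are controlled by single pools. -/

namespace NE

open SD

namespace SB

theorem rot3 {G H1 H2 H3 : Type} [AddCommGroup G] [Finite G] [Finite H1] [Finite H2] [Finite H3]
    (k : G → ℂ) (a : H1 → G) (b : H2 → G) (c : H3 → G) : gb3 k c a b = gb3 k a b c := by
  rw [gb3_comm12, gb3_comm23]

section count
variable {Pl O : Type} [Finite Pl] [Finite O] [Nonempty O]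

theorem cnt_small (l : ℕ) :
    (sm fun T : Set Pl => ind (T.ncard ≤ l)) ≤ ((Nat.card Pl + 1 : ℕ) : ℝ) ^ l := by
  refine (sm_ind_le_of_inj _ (fun _ : Fin l → Option Pl => True)
    (fun T f => T = {p | ∃ i, f i = some p}) (fun T hT => ?_)
    fun _ _ _ _ _ h h' => h.trans h'.symm).trans_eq ?_
  · have := Fintype.ofFinite T
    obtain ⟨ι⟩ := Function.Embedding.nonempty_of_card_le (α := T) (β := Fin l) (by
      rwa [Fintype.card_fin, ← Nat.card_eq_fintype_card, Nat.card_coe_set_eq])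
    refine ⟨fun i => (crd ι i).map Subtype.val, trivial, Set.ext fun p => ⟨fun hp =>
      ⟨ι ⟨p, hp⟩, congrArg (Option.map Subtype.val) (crd_apply ι.injective _)⟩, fun ⟨i, hi⟩ => ?_⟩⟩
    obtain ⟨q, -, rfl⟩ := Option.map_eq_some_iff.1 hi
    exact q.2
  · simp [ind_pos, sm_const, Nat.card_fun]

theorem sm_le {l : ℕ} {u : Set Pl → ℝ} {y : ℝ} (hy : 0 ≤ y) (h : ∀ T, T.ncard ≤ l → u T ≤ y) :
    (sm fun T : Set Pl => ind (T.ncard ≤ l) * u T) ≤ ((Nat.card Pl + 1 : ℕ) : ℝ) ^ l * y := by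
  refine le_trans (sm_mono fun T => ?_) ((sm_mul_right y _).trans_le
    (mul_le_mul_of_nonneg_right (cnt_small l) hy))
  by_cases e : T.ncard ≤ l
  · simpa only [ind_pos e, one_mul] using h T e
  · simp only [ind_neg e, zero_mul, le_refl]

theorem av_sm (l : ℕ) (ε : ℝ) (u : O → Set Pl → ℝ) :
    (av fun o => ε + sm fun T : Set Pl => ind (T.ncard ≤ l) * u o T) =
      ε + sm fun T : Set Pl => ind (T.ncard ≤ l) * av fun o => u o T := by
  simp only [av_add, av_const, av_sm_comm, av_mul_left]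

end count

variable {E I Pl : Type} [AddCommGroup E] [Finite E] [Finite I] [Finite Pl]

/-- free shifts on the pools outside of `T` -/
noncomputable def Fr (pool : Lab I Pl) (S : AddSubgroup E) (T : Set Pl) : (I → S) → I → E :=
  sft {i | ∃ p, p ∉ T ∧ pool i = some p} S

omit [Finite E] [Finite I] [Finite Pl] in
theorem ad_Fr (pool : Lab I Pl) (S : AddSubgroup E) (T : Set Pl) : Ad (Fr pool S T) := ad_sft _ _

section step
variable {H1 H2 : Type} [AddCommGroup H1] [Finite H1] [AddCommGroup H2] [Finite H2]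
  (k : (I → E) → ℂ) (pool : Lab I Pl) (S : AddSubgroup E) (l : ℕ)

theorem step2 (a : H1 → I → E) : (av fun z => gb2 k (azS S pool z) a) ≤
    (1 / 2) ^ l * av (fun x => ‖k x‖ ^ 4) +
      sm fun T : Set Pl => ind (T.ncard ≤ l) * gb2 k a (Fr pool S T) := by
  simp only [gb2_comm k _ a, fun z => gb2_eq (ad_azS S pool z) k a,
    fun T => gb2_eq (ad_Fr pool S T) k a]
  rw [av_comm, ← av_sm]
  exact av_mono fun h => (free1 S pool _ l).trans (add_le_add
    (mul_le_mul_of_nonneg_left (n2_dd_le _ _) (by positivity)) le_rfl)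

theorem step3 (a : H1 → I → E) (b : H2 → I → E) : (av fun z => gb3 k (azS S pool z) a b) ≤
    (1 / 2) ^ l * av (fun x => ‖k x‖ ^ 8) +
      sm fun T : Set Pl => ind (T.ncard ≤ l) * gb3 k a b (Fr pool S T) := by
  simp only [rot3 k a b, fun z => gb3_eq (ad_azS S pool z) k a b,
    fun T => gb3_eq (ad_Fr pool S T) k a b]
  rw [av_comm, ← av_sm]
  refine av_mono fun h => ?_
  rw [av_comm, ← av_sm]
  exact av_mono fun h => (free1 S pool _ l).trans (add_le_add
    (mul_le_mul_of_nonneg_left ((n2_dd_le _ _).trans (av_dd_pow _ _ 4)) (by positivity)) le_rfl)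

end step

omit [AddCommGroup E] [Finite E] in
theorem av_tags (f : (I → Bool) → (I → Bool) → (I → Bool) → ℝ) :
    (av fun tg : I → Tg => f (fun i => (tg i).1) (fun i => (tg i).2.1) fun i => (tg i).2.2) =
      av fun t3 => av fun t2 => av fun t1 => f t1 t2 t3 := by
  have h := av_equiv (Equiv.arrowProdEquivProdArrow I (fun _ => Bool) fun _ => Bool × Bool)
    fun x => f x.1 (fun i => (x.2 i).1) fun i => (x.2 i).2
  refine h.trans ?_
  rw [av_prod, av_comm]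
  have h' := av_equiv (Equiv.arrowProdEquivProdArrow I (fun _ => Bool) fun _ => Bool)
    fun x => av fun t1 => f t1 x.1 x.2
  refine h'.trans ?_
  rw [av_prod, av_comm]

variable {k0 s : ℕ} {e : Fin k0 × Fin s → I}

open Classical in
/-- the pools with index in `J` -/
noncomputable def pl (e : Fin k0 × Fin s → I) (J : Set (Fin k0)) : Lab I (Fin k0) :=
  fun i => (crd e i).bind fun u => if u.1 ∈ J then some u.1 else none

omit [Finite E] [Finite I] in
theorem sh_tag (J : Set (Fin k0)) (S : AddSubgroup E) (tg : I → Tg) (π : Tg → Bool) :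
    Set.range (azS S (pl e J) fun i => π (tg i)) ⊆
      Set.range fun h => sprH (yl e tg) (sft {l | l.1 ∈ J} S h) := by
  rintro _ ⟨h, rfl⟩
  refine ⟨fun u => if π u.2 then 0 else h u.1, funext fun i => ?_⟩
  simp only [sprH, AddMonoidHom.coe_mk, ZeroHom.coe_mk, spr, azS, lz, yl, pl]
  cases crd e i with
  | none => simp
  | some u => by_cases e1 : u.1 ∈ J <;> cases e2 : π (tg i) <;> simp [sft, e1, e2]

omit [Finite E] [Finite I] in
theorem sh_pool (he : Function.Injective e) {J T : Set (Fin k0)} {j : Fin k0} (h1 : j ∈ J)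
    (h2 : j ∉ T) (S : AddSubgroup E) :
    Set.range (sft (Set.range fun i => e (j, i)) S) ⊆ Set.range (Fr (pl e J) S T) := by
  refine range_sft_mono ?_ le_rfl
  rintro _ ⟨i, rfl⟩
  exact ⟨j, h2, by simp [pl, crd_apply he, h1]⟩

theorem exists_off {J T1 T2 T3 : Set (Fin k0)} (h : T1.ncard + T2.ncard + T3.ncard < J.ncard) :
    ∃ j ∈ J, j ∉ T1 ∧ j ∉ T2 ∧ j ∉ T3 := by
  obtain ⟨j, h1, h2⟩ := Set.exists_mem_notMem_of_ncard_lt_ncard (s := T1 ∪ T2 ∪ T3) (t := J)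
    (((Set.ncard_union_le _ _).trans (Nat.add_le_add_right (Set.ncard_union_le _ _) _)).trans_lt h)
  exact ⟨j, h1, by simpa only [Set.mem_union, not_or, and_assoc] using h2⟩

theorem num {N : ℕ} (hN : 50 ≤ N) {c : ℝ} (hc : c = ((N ^ 20 + 1 : ℕ) : ℝ)) :
    (1 / 2 : ℝ) ^ N ^ 15 + c ^ N ^ 15 * ((1 / 2) ^ N ^ 17 + c ^ N ^ 17 * (1 / 2) ^ N ^ 19) ≤
      (1 / 2) ^ (N ^ 14 + N) := by
  have h1 : c ≤ 2 ^ (20 * N) := by
    rw [hc, mul_comm, pow_mul]
    exact_mod_cast Nat.pow_lt_pow_left Nat.lt_two_pow_self (by norm_num)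
  have key : ∀ a b : ℕ, 20 * N * a + (N ^ 14 + N + 2) ≤ b →
      c ^ a * (1 / 2) ^ b ≤ (1 / 2 : ℝ) ^ (N ^ 14 + N) / 4 := fun a b h => by
    refine (mul_le_mul (pow_le_pow_left₀ (hc ▸ Nat.cast_nonneg _) h1 a) (pow_le_pow_of_le_one (by norm_num)
      (by norm_num) h) (by positivity) (by positivity)).trans_eq ?_
    rw [← pow_mul, pow_add, ← mul_assoc, ← mul_pow, pow_add _ _ 2]
    norm_num
    ring
  have p : ∀ n, 50 * N ^ n ≤ N ^ (n + 1) := fun n => by
    rw [pow_succ']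
    exact Nat.mul_le_mul_right _ hN
  have p0 : N ≤ N ^ 14 := Nat.le_self_pow (by norm_num) N
  have p1 : 50 * N ^ 14 ≤ N ^ 15 := p 14
  have p2 : 50 * N ^ 15 ≤ N ^ 16 := p 15
  have p3 : 50 * N ^ 16 ≤ N ^ 17 := p 16
  have p4 : 50 * N ^ 17 ≤ N ^ 18 := p 17
  have p5 : 50 * N ^ 18 ≤ N ^ 19 := p 18
  have q1 : N * N ^ 15 = N ^ 16 := (pow_succ' N 15).symm
  have q2 : N * N ^ 17 = N ^ 18 := (pow_succ' N 17).symm
  have k1 := key 0 (N ^ 15) (by omega)
  have k2 := key (N ^ 15) (N ^ 17) (by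
    rw [mul_assoc, q1]
    omega)
  have k3 := key (N ^ 15 + N ^ 17) (N ^ 19) (by
    rw [mul_add, mul_assoc, mul_assoc, q1, q2]
    omega)
  rw [pow_add c] at k3
  have : (0 : ℝ) ≤ (1 / 2) ^ (N ^ 14 + N) := by positivity
  linarith

end SB

open SB

variable {E : Type} [AddCommGroup E] [Finite E]

theorem asb (τ : QT E) : ASB τ := by
  refine ⟨50, fun N hN => ?_⟩
  obtain ⟨c, hc⟩ : ∃ c : ℝ, c = ((N ^ 20 + 1 : ℕ) : ℝ) := ⟨_, rfl⟩
  have c1 : 1 ≤ c := by rw [hc]; exact_mod_cast Nat.le_add_left _ _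
  have hc' : ((Nat.card (Fin (N ^ 20)) + 1 : ℕ) : ℝ) = c := by rw [hc, Nat.card_fin]
  have hn := num hN hc
  refine ⟨c ^ N ^ 15 * (c ^ N ^ 17 * c ^ N ^ 19), by positivity, fun I _ s e he k J hJ => ?_⟩
  have off : ∀ {T1 T2 T3 : Set (Fin (N ^ 20))}, T1.ncard ≤ N ^ 15 → T2.ncard ≤ N ^ 17 →
      T3.ncard ≤ N ^ 19 → ∃ j ∈ J, j ∉ T1 ∧ j ∉ T2 ∧ j ∉ T3 := fun h1 h2 h3 => exists_off (by
    have p1 : N ^ 15 ≤ N ^ 19 := Nat.pow_le_pow_right (by omega) (by norm_num)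
    have p2 : N ^ 17 ≤ N ^ 19 := Nat.pow_le_pow_right (by omega) (by norm_num)
    have p3 : 50 * N ^ 19 ≤ N ^ 20 := by
      rw [pow_succ' N 19]
      exact Nat.mul_le_mul_right _ hN
    have p4 : 0 < N ^ 19 := by positivity
    omega)
  generalize N ^ 15 = l1, N ^ 17 = l2, N ^ 19 = l3, N ^ 14 + N = l0 at off hn ⊢
  generalize N ^ 20 = k0 at *
  refine ⟨fun S => ?_, ?_⟩
  · have x0 : ∀ j, 0 ≤ xb2 k (Set.range fun i => e (j, i)) S (τ.perp S) := fun j =>
      gb2_nonneg (ad_sft _ _) _ _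
    have y0 := sm_nonneg x0
    have m0 : 0 ≤ av fun b => ‖k b‖ ^ 4 := av_nonneg fun _ => by positivity
    refine (av_mono fun tg => gb2_anti (ad_hsft _ _ _) (ad_hsft _ _ _) (ad_azS _ _ _) (ad_azS _ _ _)
      (sh_tag J S tg (·.1)) (sh_tag J _ tg (·.2.1)) k).trans ?_
    refine (av_tags fun t1 t2 _ =>
      gb2 k (azS S (pl e J) t1) (azS (τ.perp S) (pl e J) t2)).trans_le ?_
    rw [av_const]
    refine (av_mono fun t2 => step2 k _ _ l1 _).trans ((av_sm _ _ _).trans_le ?_)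
    refine (add_le_add le_rfl (sm_le (by positivity) fun T1 h1 => (step2 k _ _ l2 _).trans
      (add_le_add le_rfl (sm_le y0 fun T2 h2 => ?_)))).trans ?_
    · obtain ⟨j, j0, j1, j2, -⟩ := off h1 h2 (T3 := ∅) (by simp)
      exact (gb2_anti (ad_Fr _ _ _) (ad_Fr _ _ _) (ad_sft _ _) (ad_sft _ _) (sh_pool he j0 j1 _)
        (sh_pool he j0 j2 _) k).trans (single_le_sm x0 j)
    · rw [hc']
      have k1 := mul_le_mul_of_nonneg_right hn m0
      have k2 := mul_le_mul_of_nonneg_left (one_le_pow₀ c1 (n := l3)) (show 0 ≤ c ^ l1 *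
        c ^ l2 * sm fun j => xb2 k (Set.range fun i => e (j, i)) S (τ.perp S) by positivity)
      have k3 : 0 ≤ c ^ l1 * c ^ l2 * (1 / 2) ^ l3 * av fun b => ‖k b‖ ^ 4 := by positivity
      linarith
  · have x0 : ∀ j, 0 ≤ xb3 k (Set.range fun i => e (j, i)) := fun j =>
      gb3_nonneg (ad_sft _ _) _ _ _
    have y0 := sm_nonneg x0
    have m0 : 0 ≤ av fun b => ‖k b‖ ^ 8 := av_nonneg fun _ => by positivity
    refine (av_mono fun tg => gb3_anti (ad_hsft _ _ _) (ad_hsft _ _ _) (ad_hsft _ _ _)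
      (ad_azS _ _ _) (ad_azS _ _ _) (ad_azS _ _ _) (sh_tag J ⊤ tg (·.1)) (sh_tag J ⊤ tg (·.2.1))
      (sh_tag J ⊤ tg (·.2.2)) k).trans ?_
    refine (av_tags fun t1 t2 t3 => gb3 k (azS ⊤ (pl e J) t1) (azS ⊤ (pl e J) t2)
      (azS ⊤ (pl e J) t3)).trans_le ?_
    refine (av_mono fun t3 => (av_mono fun t2 => step3 k _ _ l1 _ _).trans_eq
      (av_sm _ _ _)).trans ((av_sm _ _ _).trans_le ?_)
    refine (add_le_add le_rfl (sm_le (y := (1 / 2) ^ l2 * av (fun b => ‖k b‖ ^ 8) + c ^ l2 *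
      ((1 / 2) ^ l3 * av (fun b => ‖k b‖ ^ 8) + c ^ l3 * sm fun j => xb3 k
        (Set.range fun i => e (j, i)))) (by positivity) fun T1 h1 => ?_)).trans ?_
    · refine (av_mono fun t3 => step3 k _ _ l2 _ _).trans ((av_sm _ _ _).trans_le
        (add_le_add le_rfl (hc' ▸ sm_le (by positivity) fun T2 h2 => (step3 k _ _ l3 _ _).trans
          (add_le_add le_rfl (sm_le y0 fun T3 h3 => ?_)))))
      obtain ⟨j, j0, j1, j2, j3⟩ := off h1 h2 h3
      exact (gb3_anti (ad_Fr _ _ _) (ad_Fr _ _ _) (ad_Fr _ _ _) (ad_sft _ _) (ad_sft _ _)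
        (ad_sft _ _) (sh_pool he j0 j1 _) (sh_pool he j0 j2 _) (sh_pool he j0 j3 _) k).trans
        (single_le_sm x0 j)
    · rw [hc']
      linarith [mul_le_mul_of_nonneg_right hn m0]

theorem avar : AVAR E := fun δ hδ => by
  obtain ⟨l, hl⟩ := exists_pow_lt_of_lt_one hδ (show (1 / 2 : ℝ) < 1 by norm_num)
  obtain ⟨k1, hk⟩ := exists_nat_gt (l * (1 + δ) / δ)
  refine ⟨k1, fun k0 h0 I _ s e he g => ?_⟩
  have h1 : l * (1 + δ) < k0 * δ := (div_lt_iff₀ hδ).1 (hk.trans_le (Nat.cast_le.2 h0))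
  have l0 : (0 : ℝ) ≤ l := Nat.cast_nonneg _
  have h2 : (l : ℝ) < k0 := lt_of_mul_lt_mul_right (by nlinarith) hδ.le
  have k0' : (0 : ℝ) < k0 := l0.trans_lt h2
  have h3 : ∀ tg : I → Tg, n2 (prS (sprH (yl e tg)) g) ≤
      n2 (prS (azS ⊤ (pl e Set.univ) fun i => (tg i).1) g) := fun tg =>
    n2_prS_anti (ad_hom _) (ad_azS _ _ _) ((sh_tag Set.univ ⊤ tg (·.1)).trans
      (Set.range_comp_subset_range _ _)) g
  refine (av_mono h3).trans ((av_tags fun t _ _ => n2 (prS (azS ⊤ (pl e Set.univ) t) g)).trans_le ?_)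
  rw [av_const, av_const]
  refine (free2 ⊤ (pl e Set.univ) g (l := l) (by rw [Nat.card_fin]; exact_mod_cast h2)).trans ?_
  have h4 : ∀ j, {i | pl e Set.univ i = some j} = Set.range fun i => e (j, i) := fun j =>
    Set.ext fun i => by
      simp only [pl, Set.mem_univ, if_true, Set.mem_ofPred_eq, Option.bind_eq_some_iff,
        crd_eq_some he, Option.some.injEq, Set.mem_range, Prod.exists]
      exact ⟨fun ⟨_, b, h, h'⟩ => ⟨b, h' ▸ h⟩, fun ⟨b, h⟩ => ⟨j, b, h, rfl⟩⟩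
  simp only [h4, Nat.card_fin]
  refine add_le_add (mul_le_mul_of_nonneg_right hl.le (n2_nonneg g))
    (mul_le_mul_of_nonneg_right ?_ (av_nonneg fun _ => n2_nonneg _))
  rw [one_sub_div k0'.ne', inv_div, div_le_iff₀ (sub_pos.2 h2)]
  linarith

end NE
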