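import Pool.Agent.Lib.MP_ecee09_co.NE.TpB
import Pool.Agent.Lib.MP_ecee09_co.NE.ExT
import Pool.Agent.Lib.MP_ecee09_co.NE.FamC
import Pool.Agent.Lib.MP_ecee09_co.NE.Stmts

/-! An independent dense set has special energy for one of finitely many types. -/

namespace NE.TA

open SD
open ComplexConjugate

section fill
variable {K : Type} [Finite K] (i : K)

/-- a kernel between a pattern with an empty loop and its filling -/
noncomputable def lam (M : Om K → Om K → ℂ) : ℂ :=
  cav fun P => ((2 * ind (P s(i, i) = 0) : ℝ) : ℂ) * M (P + xlp i) P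

lemma norm_lam_le {M : Om K → Om K → ℂ} {ε : ℝ} (hε : 0 ≤ ε)
    (h : ∀ P, P s(i, i) = 0 → ‖M (P + xlp i) P‖ ≤ ε) : ‖lam i M‖ ≤ 2 * ε := by
  refine norm_cav_le_const (by positivity) fun P => ?_
  by_cases h0 : P s(i, i) = 0
  · rw [norm_mul]
    exact mul_le_mul (norm_two_ind _) (h P h0) (norm_nonneg _) (by norm_num)
  · simp [ind_neg h0, hε]

omit [Finite K] in
lemma ind_flip (P : Om K) : ind ((P + xlp i) s(i, i) = 0) + ind (P s(i, i) = 0) = 1 := by
  rw [Pi.add_apply, xlp_self]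
  rcases F_cases (P s(i, i)) with h | h
  · rw [h, ind_neg (by decide), ind_pos rfl, zero_add]
  · rw [h, ind_pos (by decide), ind_neg (by decide), add_zero]

lemma av_flip (a : Om K → ℝ) :
    av (fun P => ind (P s(i, i) = 0) * (a (P + xlp i) + a P)) = av a := by
  have h := av_add_right (fun P : Om K => ind (P s(i, i) = 0) * a (P + xlp i)) (xlp i)
  simp only [add_assoc, add_self2, add_zero] at h
  simp only [mul_add, av_add]
  rw [← h, ← av_add]
  exact av_congr fun P => by rw [← add_mul, ind_flip, one_mul]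

lemma lam_model {E : Type} [AddCommGroup E] [Finite E] (τ : QT E) : lam i (model τ) = gs τ := by
  classical
  have h1 : ∀ P : Om K, ((2 * ind (P s(i, i) = 0) : ℝ) : ℂ) * model τ (P + xlp i) P =
      ((2 * ind (P s(i, i) = 0) : ℝ) : ℂ) * gs τ := fun P => by
    by_cases h0 : P s(i, i) = 0
    · congr 1
      simp only [model, ph_lp, h0, fv, if_true, mul_right_comm _ (ee _), ph_mul_conj, one_mul]
      exact cav_surj (fun w : K → E => w i) (fun _ _ => rfl)
        (fun e => ⟨fun _ => e, rfl⟩) fun e => ee (τ.q e)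
    · simp [ind_neg h0]
  have h2 := av_flip i fun _ => 1
  rw [av_const] at h2
  simp only [lam, h1]
  rw [cav_mul_right, cav_ofReal, show (av fun P : Om K => 2 * ind (P s(i, i) = 0)) = 1 from
    (av_congr fun P => by ring).trans h2]
  simp

lemma lam_cell (a : Om K → ℝ) (μ : ℝ) :
    lam i (fun P P' => ((a P : ℂ) - μ) * conj ((a P' : ℂ) - μ)) =
      ((av fun P => 2 * ind (P s(i, i) = 0) * (a (P + xlp i) * a P)) - 2 * μ * av a + μ ^ 2 : ℝ) := by
  have h2 := av_flip i fun _ => μ ^ 2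
  rw [av_const] at h2
  rw [← av_flip i a, ← h2, ← av_mul_left, ← av_sub, ← av_add, ← cav_ofReal]
  refine cav_congr fun P => ?_
  simp only [map_sub, Complex.conj_ofReal]
  push_cast; ring

omit [Finite K] in
lemma indep_flip {I : Type} {A : Set (Om I)} (hA : Indep A) (x : Om I) {Φ : Lab I K} (hΦ : Good Φ)
    {P : Om K} (h0 : P s(i, i) = 0) (h : ow x Φ P ∈ A) : ow x Φ (P + xlp i) ∉ A := by
  classical
  have hi : Function.Injective fun _ : Unit => i := fun _ _ _ => rfl
  have k : ∀ (t : F) (c : Sym2 K), ow P (crd fun _ : Unit => i) (fun _ => t) c =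
      if c = s(i, i) then t else P c := fun t c => by
    split_ifs with hc
    · rw [hc]; exact ow_crd_mk hi P _ () ()
    · refine ow_of_none ?_
      cases hd : lab2 (crd fun _ : Unit => i) c with
      | none => rfl
      | some d =>
        induction d using Sym2.ind with
        | _ u v => exact absurd ((lab2_crd_eq_some hi).1 hd).symm hc
  have := hA (ow x Φ P) _ (hΦ.lcomp (good_crd hi))
  rw [ow_lcomp, ow_lcomp, show ow P (crd fun _ : Unit => i) (fun _ => 0) = P from ?_,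
    show ow P (crd fun _ : Unit => i) (fun _ => 1) = P + xlp i from ?_] at this
  · exact this h
  · funext c
    rw [k, Pi.add_apply]
    split_ifs with hc
    · rw [hc, h0, xlp_self, zero_add]
    · rw [xlp_of_ne hc, add_zero]
  · funext c
    rw [k]
    split_ifs with hc
    · rw [hc, h0]
    · rfl

include i in
/-- the Gauss sums, weighted by the masses, are negative -/
lemma gauss_le {I : Type} [Finite I] {A : Set (Om I)} (hA : Indep A) (B : OFam I K) {ε : ℝ}
    (hε : 0 ≤ ε) (hB : B.junk ≤ ε) {m : ℕ} (σ : Fin m → Ty) (μ : Fin m → ℝ)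
    {M' : Om K → Om K → ℂ} (hF : FillS ε M') {d : ℝ} (hd : d = av fun x => ind (x ∈ A))
    (h : ∀ P P', ‖(B.cE fun x Φ => (cind A (ow x Φ P) - d) * conj (cind A (ow x Φ P') - d)) -
      (∑ j, (μ j : ℂ) * model (σ j).τ P P') - M' P P'‖ ≤ ε) :
    ∑ j, μ j * (gs (σ j).τ).re ≤ 6 * ε - d ^ 2 := by
  have e1 := norm_lam_le i (M := fun P P' =>
    (B.cE fun x Φ => (cind A (ow x Φ P) - d) * conj (cind A (ow x Φ P') - d)) -
      (∑ j, (μ j : ℂ) * model (σ j).τ P P') - M' P P') hε fun P _ => h (P + xlp i) P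
  have e2 : ‖lam i M'‖ ≤ 2 * ε := norm_lam_le i hε fun P h0 => hF i _ _
    (by rw [Pi.add_apply, h0, xlp_self, zero_add]) h0 fun j hj => by
      rw [Pi.add_apply, xlp_pair _ hj, add_zero]
  have e3 : lam i (fun P P' => B.cE fun x Φ =>
      (cind A (ow x Φ P) - d) * conj (cind A (ow x Φ P') - d)) = (B.E fun x Φ =>
        (av fun P => 2 * ind (P s(i, i) = 0) * (ind (ow x Φ (P + xlp i) ∈ A) * ind (ow x Φ P ∈ A))) -
          2 * d * (av fun P => ind (ow x Φ P ∈ A)) + d ^ 2 : ℝ) := by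
    rw [← B.cE_ofReal]
    refine Eq.trans ?_ (B.cE_congr fun x Φ => lam_cell i (fun P => ind (ow x Φ P ∈ A)) d)
    simp only [lam, B.cE_cav, B.cE_mul_left, cind]
  have e4 : (B.E fun x Φ => av fun P => 2 * ind (P s(i, i) = 0) *
      (ind (ow x Φ (P + xlp i) ∈ A) * ind (ow x Φ P ∈ A))) ≤ 2 * ε := by
    have := B.le_of_good (g := fun _ _ => 0) (M := 2) (f := fun x Φ => av fun P =>
      2 * ind (P s(i, i) = 0) * (ind (ow x Φ (P + xlp i) ∈ A) * ind (ow x Φ P ∈ A)))
      (fun x Φ hΦ => av_le_const fun P => by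
        by_cases h0 : P s(i, i) = 0
        · by_cases h1 : ow x Φ P ∈ A
          · simp [ind_neg (indep_flip i hA x hΦ h0 h1)]
          · simp [ind_neg h1]
        · simp [ind_neg h0])
      fun x Φ => av_le_const fun P => by
        rw [mul_assoc, ← ind_and, ← ind_and]
        linarith [ind_le_one (P s(i, i) = 0 ∧ ow x Φ (P + xlp i) ∈ A ∧ ow x Φ P ∈ A)]
    rw [B.zero] at this
    linarith
  rw [B.add, B.sub, B.smul, B.const, B.marg (fun x => ind (x ∈ A)), ← hd] at e3
  simp only [lam, mul_sub, cav_sub, Finset.mul_sum, cav_sum, mul_left_comm _ (μ _ : ℂ),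
    cav_mul_left] at e1
  have e5 := (abs_le.1 ((Complex.abs_re_le_norm _).trans e1)).1
  have e6 := (abs_le.1 ((Complex.abs_re_le_norm _).trans e2)).1
  have e7 := congrArg Complex.re e3
  have e8 := fun j => lam_model i (σ j).τ
  simp only [lam] at e6 e7 e8
  simp only [e8, Complex.sub_re, Complex.re_sum, Complex.re_ofReal_mul] at e5
  rw [Complex.ofReal_re] at e7
  nlinarith

end fill

lemma gs_re_ge (σ : Ty) (h : σ.τ.ND) {J : ℕ} {t : ℝ} (ht : 0 < t) (hJ : 1 / t ^ 2 ≤ J) :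
    -t - ind (Nontrivial σ.E ∧ Nat.card σ.E ≤ J) ≤ (gs σ.τ).re := by
  have h1 := (abs_le.1 (Complex.abs_re_le_norm (gs σ.τ))).1
  by_cases c : Nontrivial σ.E ∧ Nat.card σ.E ≤ J
  · rw [ind_pos c]; linarith [norm_gs_le σ.τ]
  rw [ind_neg c, sub_zero]
  by_cases n : Nontrivial σ.E
  · have h2 : (J : ℝ) ≤ Nat.card σ.E := by exact_mod_cast (not_le.1 fun q => c ⟨n, q⟩).le
    have h3 : ‖gs σ.τ‖ ^ 2 ≤ t ^ 2 := by
      rw [h.norm_gs, one_div_le card_pos' (by positivity)]; linarith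
    linarith [(abs_le_of_sq_le_sq' h3 ht.le).2]
  · rw [not_nontrivial_iff_subsingleton] at n
    rw [show gs σ.τ = 1 from (cav_congr fun x => by
      rw [Subsingleton.elim x 0, QT.q_zero, ee_zero]).trans (cav_const 1), Complex.one_re]
    linarith

section se
variable {E K N K1 : Type} [AddCommGroup E] [Finite E] [Finite K] [Finite N] [Finite K1] (τ : QT E)

/-- special energy on the coordinate cells of `j` -/
noncomputable def QS (N : Type) (j : Tst E ⊕ K → K1) (g : Om K1 → ℂ) : ℝ :=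
  av fun y => SE τ N (ores g y (crd j))

lemma isQ_QS (j : Tst E ⊕ K → K1) : IsQ (QS τ N j) :=
  isQ_av fun _ => isQ_av fun _ => isQ_av fun _ => isQ_sm fun _ => IsL.isQ <|
    isL_cav fun _ => IsL.mul_right (isL_csm fun _ => (isL_ev _).mul_left _) _

omit [Finite K] [Finite N] [Finite K1] in
lemma QS_sub [Nontrivial E] (j : Tst E ⊕ K → K1) (g : Om K1 → ℂ) (d : ℂ) :
    QS τ N j (fun P => g P - d) = QS τ N j g := by
  obtain ⟨a, b, h⟩ := exists_pair_ne E
  have : ∀ y P, ann (ores (fun P => g P - d) y (crd j)) P = ann (ores g y (crd j)) P := fun y P => by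
    rw [← sub_zero (ann (ores g y (crd j)) P), ← TG.ann_zero (φ := fun _ => d) (p := (a, b)) h
      (fun _ => rfl) P, ← TG.ann_sub]
    rfl
  simp only [QS, SE, this]

lemma QS_ph {j : Tst E ⊕ K → K1} (hj : Function.Injective j) :
    av (fun w : K1 → E => QS τ N j (ph τ w)) = av fun v : Tst E ⊕ K → E => SE τ N (ph τ v) := by
  rw [← av_surj (fun w : K1 → E => w ∘ j) (fun _ _ => rfl)
    (fun v => ⟨Function.extend j v 0, funext fun k => hj.extend_apply v 0 k⟩)]
  refine av_congr fun w => (av_congr fun y => ?_).trans (av_const _)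
  have : ∀ P, ann (ores (ph τ w) y (crd j)) P = ph τ w (ow y (crd j) 0) * ann (ph τ (w ∘ j)) P :=
    fun P => by
      simp only [ann, ores, ← csm_mul_left]
      exact csm_congr fun S => by rw [ph_ow, wl_crd hj]; ring
  simp only [SE, this, fen_mul_left, norm_ph, one_pow, one_mul]

end se

end NE.TA

namespace NE

open SD TA
open ComplexConjugate

theorem topa_of (hI : INV0) (hF : FIN) : TOPA := by
  classical
  intro θ hθ
  obtain ⟨J, hJ⟩ := exists_nat_ge (1 / (θ / 8) ^ 2)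
  obtain ⟨m0, σ0, h0⟩ := hF J
  let T := {i : Fin m0 // (σ0 i).τ.ND ∧ Nontrivial (σ0 i).E ∧ Nat.card (σ0 i).E ≤ J}
  let e := Finite.equivFin T
  let σ : Fin (Nat.card T) → Ty := fun i => σ0 (e.symm i).1
  have hσ : ∀ i, (σ i).τ.ND ∧ Nontrivial (σ i).E ∧ Nat.card (σ i).E ≤ J := fun i => (e.symm i).2
  have h1 : ∀ σ' : Ty, σ'.τ.ND → Nontrivial σ'.E ∧ Nat.card σ'.E ≤ J → ∃ i,
      ∀ (K : Type) [Finite K] (P P' : Om K), model (σ i).τ P P' = model σ'.τ P P' := by
    intro σ' a b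
    obtain ⟨i, c1, c2, c3⟩ := h0 σ' a b.2
    have c4 : Nontrivial (σ0 i).E := by
      rw [← Finite.one_lt_card_iff_nontrivial, c2, Finite.one_lt_card_iff_nontrivial]; exact b.1
    obtain ⟨k, hk⟩ := e.symm.surjective ⟨i, c1, c4, c2 ▸ b.2⟩
    obtain rfl : (e.symm k).1 = i := congrArg Subtype.val hk
    exact ⟨k, c3⟩
  clear_value σ
  generalize Nat.card T = m at σ hσ h1
  choose c c0 hc using fun i => se_ph (σ i).τ (hσ i).1
  obtain ⟨c1, c10, c11⟩ : ∃ c1 : ℝ, 0 < c1 ∧ ∀ i, c1 ≤ c i := by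
    rcases isEmpty_or_nonempty (Fin m) with h | h
    · exact ⟨1, one_pos, fun i => h.elim i⟩
    · obtain ⟨i, hi⟩ := Finite.exists_min c
      exact ⟨c i, c0 i, hi⟩
  refine ⟨J, m, σ, θ / (2 * (m + 1)) * c1 / 2, by positivity, hσ, fun N K' hN η hη => ?_⟩
  let K1 := Option (Σ i, Tst (σ i).E ⊕ Fin (K' i))
  let j : ∀ i, Tst (σ i).E ⊕ Fin (K' i) → K1 := fun i t => some ⟨i, t⟩
  have hj : ∀ i, Function.Injective (j i) := fun i =>
    (Option.some_injective _).comp sigma_mk_injective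
  choose C C0 hC using fun i => (isQ_QS (N := Fin (N i)) (σ i).τ (j i)).key
  have S0 : 0 ≤ ∑ i, C i := Finset.sum_nonneg fun i _ => C0 i
  obtain ⟨ε, ε0, ε1, ε2, ε3, ε4⟩ : ∃ ε : ℝ, 0 < ε ∧ ε ≤ η ∧ ε ≤ 1 ∧ ε ≤ θ / 24 ∧
      ε ≤ θ / (2 * (m + 1)) * c1 / 2 / (∑ i, C i + 1) :=
    ⟨min η (min 1 (min (θ / 24) (θ / (2 * (m + 1)) * c1 / 2 / (∑ i, C i + 1)))), by positivity,
      min_le_left _ _, by simp, by simp, by simp⟩
  obtain ⟨n0, hn⟩ := hI K1 ε ε0
  refine ⟨n0, fun I _ hI A hA hd => ?_⟩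
  obtain ⟨d, e⟩ : ∃ d, d = av fun x => ind (x ∈ A) := ⟨_, rfl⟩
  have d0 : 0 ≤ d := e ▸ av_ind_nonneg _
  have d1 : d ≤ 1 := e ▸ av_ind_le_one _
  have hf : ∀ x, ‖cind A x - d‖ ≤ 1 := fun x => by
    rw [cind, ← Complex.ofReal_sub, Complex.norm_real, Real.norm_eq_abs, abs_le]
    constructor <;> linarith [ind_nonneg (x ∈ A), ind_le_one (x ∈ A)]
  obtain ⟨B, hB, n, ρ, μ, M', nd, μ0, psd, fill, dec⟩ := hn I hI (fun x => cind A x - d) hf
  have g1 := gauss_le (none : K1) hA B ε0.le hB ρ μ fill e dec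
  have g2 : ∑ k, μ k ≤ 2 := by
    have a1 := (abs_le.1 ((Complex.abs_re_le_norm _).trans (dec 0 0))).1
    have a2 := (Complex.re_le_norm _).trans (B.norm_cE_le_const (c := 1) (f := fun x Φ =>
      (cind A (ow x Φ 0) - d) * conj (cind A (ow x Φ 0) - d)) fun x Φ => by
        rw [norm_mul, Complex.norm_conj]
        exact mul_le_one₀ (hf _) (norm_nonneg _) (hf _))
    have a3 : ∀ k, model (ρ k).τ (0 : Om K1) 0 = 1 := fun k =>
      (cav_congr fun w => ph_mul_conj _ w _).trans (cav_const 1)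
    simp only [a3, mul_one, Complex.sub_re, Complex.re_sum, Complex.ofReal_re] at a1
    linarith [psd.diag_nonneg 0]
  let G : Fin n → Prop := fun k => Nontrivial (ρ k).E ∧ Nat.card (ρ k).E ≤ J
  have g3 : θ / 2 ≤ ∑ k, μ k * ind (G k) := by
    have a1 := Finset.sum_le_sum fun k (_ : k ∈ Finset.univ) => mul_le_mul_of_nonneg_left
      (gs_re_ge (ρ k) (nd k) (by positivity : 0 < θ / 8) hJ) (μ0 k)
    simp only [mul_sub, Finset.sum_sub_distrib, ← Finset.sum_mul] at a1
    rw [← e] at hd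
    nlinarith
  choose t ht using fun k (h : G k) => h1 (ρ k) (nd k) h
  let w : Fin m → ℝ := fun i => ∑ k, μ k * ind (∃ h : G k, t k h = i)
  obtain ⟨i, hi⟩ : ∃ i, θ / (2 * (m + 1)) ≤ w i := by
    by_contra q
    push Not at q
    have a1 : ∑ k, μ k * ind (G k) ≤ ∑ i, w i := by
      rw [Finset.sum_comm]
      refine Finset.sum_le_sum fun k _ => ?_
      rw [← Finset.mul_sum]
      refine mul_le_mul_of_nonneg_left ?_ (μ0 k)
      by_cases h : G k
      · rw [ind_pos h, ← ind_pos (⟨h, rfl⟩ : ∃ h' : G k, t k h' = t k h)]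
        exact Finset.single_le_sum (f := fun i => ind (∃ h' : G k, t k h' = i))
          (fun _ _ => ind_nonneg _) (Finset.mem_univ _)
      · rw [ind_neg h]; exact Finset.sum_nonneg fun _ _ => ind_nonneg _
    have a2 : ∑ i, w i ≤ m * (θ / (2 * (m + 1))) := by
      simpa using Finset.sum_le_card_nsmul Finset.univ w _ fun i _ => (q i).le
    have a3 : (m + 1) * (θ / (2 * (m + 1))) = θ / 2 := by field_simp
    have a4 : 0 < θ / (2 * ((m : ℝ) + 1)) := by positivity
    linarith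
  obtain ⟨S, hS, S1⟩ := Fam.ocrd (hj i)
  obtain ⟨B', hB', B1⟩ := Fam.ocomp B fun _ _ => S
  refine ⟨i, B', by rw [S1, B.zero] at B1; linarith, ?_⟩
  have nt := (hσ i).2.1
  have k1 := hC i _ _ _ _ B (fun x Φ P => cind A (ow x Φ P) - d) ε 1 (fun _ => σ i) (fun _ => w i)
    (fun P P' => (∑ k, ((μ k * ind (¬ ∃ h : G k, t k h = i) : ℝ) : ℂ) * model (ρ k).τ P P') +
      M' P P')
    ((PSD.sum _ fun k _ => (psd_model _).smul (mul_nonneg (μ0 k) (ind_nonneg _))).add psd)
    fun P P' => by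
      refine le_of_eq_of_le ?_ (dec P P')
      congr 1
      rw [sub_add_eq_sub_sub, sub_sub _ (∑ _ : Fin 1, _), Fin.sum_univ_one]
      congr 2
      simp only [w, Complex.ofReal_sum, Finset.sum_mul, ← Finset.sum_add_distrib]
      refine Finset.sum_congr rfl fun k _ => ?_
      by_cases h : ∃ h : G k, t k h = i
      · obtain ⟨h, rfl⟩ := h
        rw [ht k h, ind_pos ⟨h, rfl⟩, ind_neg (not_not.2 ⟨h, rfl⟩)]; simp
      · rw [ind_neg h, ind_pos h]; simp
  rw [Fin.sum_univ_one, QS_ph _ (hj i)] at k1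
  simp only [QS_sub] at k1
  have k2 := hc i (Fin (K' i)) (Fin (N i)) (Fam.fc_emb (by simpa [Nat.card_sum] using hN i))
  have k3 : C i * ε ≤ θ / (2 * (m + 1)) * c1 / 2 := by
    rw [le_div_iff₀ (by positivity)] at ε4
    have := Finset.single_le_sum (fun i _ => C0 i) (Finset.mem_univ i)
    nlinarith
  have k4 := mul_le_mul hi ((c11 i).trans k2) c10.le ((by positivity : (0 : ℝ) ≤ _).trans hi)
  rw [hB']
  simp only [hS, ores_lcomp]
  exact le_trans (by linarith) k1

end NE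

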