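import Pool.Agent.Lib.MP_ecee09_co.NE.U3b
import Pool.Agent.Lib.MP_ecee09_co.NE.Stmts4

/-! The structured case with large third box. -/

namespace NE

open SD
open ComplexConjugate

variable {E I K L : Type} [AddCommGroup E] [Finite E] [Finite I] [Finite K] [Finite L] {τ : QT E}

omit [Finite E] [Finite L] in
lemma u3_not_gen [Nontrivial E] : ¬ Gen (0 : L → E) := fun h => by
  have : AddSubgroup.closure (Set.range (0 : L → E)) ≤ ⊥ := by
    rw [AddSubgroup.closure_le]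
    rintro _ ⟨i, rfl⟩
    exact AddSubgroup.zero_mem _
  rw [show AddSubgroup.closure (Set.range (0 : L → E)) = ⊤ from h] at this
  exact absurd (top_le_iff.1 this) bot_ne_top

/-- a family that kills the block sums of `w` sees the coefficient at `w` as non generating
energy -/
lemma u3_zs [Nontrivial E] (h : τ.ND) (w : K → E) (A : OFam K L) {η : ℝ} (h1 : A.junk ≤ η)
    (h2 : (A.E fun _ Ψ => ind (wl w Ψ ≠ 0)) ≤ η) :
    ∃ S : GFam E K L, S.junk ≤ 2 * η ∧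
      ∀ r : (K → E) → ℂ, ‖r w‖ ^ 2 ≤ S.E fun y Ψ => ng τ (res (fld τ r) y Ψ) := by
  classical
  obtain ⟨A1, e1, j1⟩ := A.olift (E := E)
  obtain ⟨S, hS⟩ := A1.refine (a := fun (y : OmE E K) (Ψ : Lab K L) (z : OmE E L) => cell y Ψ z)
    (fun y Ψ (o : OmE E L) => if wl w Ψ = 0 then y else cell y Ψ o)
    (fun _ Ψ _ => if wl w Ψ = 0 then Ψ else fun _ => none) fun y Ψ g => by
      by_cases hw : wl w Ψ = 0
      · simp only [if_pos hw, av_const]
      · simp only [if_neg hw, cell_none, av_const]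
  refine ⟨S, ?_, fun r => ?_⟩
  · have h3 : (A1.E fun _ Ψ => ind (wl w Ψ ≠ 0)) ≤ η := by rw [e1]; simpa only [av_const] using h2
    have h4 : S.junk ≤ A1.junk + A1.E fun _ Ψ => ind (wl w Ψ ≠ 0) := by
      rw [Fam.junk, Fam.junk, hS, ← A1.add]
      refine A1.mono fun y Ψ => ?_
      rw [av_const]
      by_cases hw : wl w Ψ = 0
      · rw [if_pos hw]; exact le_add_of_nonneg_right (ind_nonneg _)
      · rw [ind_pos (p := wl w Ψ ≠ 0) hw]
        exact (ind_le_one _).trans (le_add_of_nonneg_left (ind_nonneg _))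
    linarith
  · rw [← u3_quad h S r w, hS, hS]
    refine A1.mono fun y Ψ => av_mono fun o => u3_quad_le τ _ r w _ ?_
    by_cases hw : wl w Ψ = 0
    · rw [if_pos hw, hw]; exact u3_not_gen
    · rw [if_neg hw, wl_none]; exact u3_not_gen

/-- a large fourth moment of the class sums gives a gain -/
lemma u3_gain (h : τ.ND) (c : (I → E) → ℂ) (A : GFam E I K) {η γ M d : ℝ} (hM : 0 < M)
    (hj : A.junk ≤ η) (hγ : γ ≤ A.E fun x Φ => u3Psi τ c x Φ)
    (h6 : (av fun x => ‖fld τ c x‖ ^ 6) ≤ d)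
    (hS : ∀ w : K → E, ∃ S : GFam E K L, S.junk ≤ η ∧
      ∀ r : (K → E) → ℂ, ‖r w‖ ^ 2 ≤ S.E fun y Ψ => ng τ (res (fld τ r) y Ψ)) :
    Gain τ (fld τ c) L (2 * η) ((γ - d / M) / M) := by
  choose S hS1 hS2 using hS
  choose w0 hw0 using fun (x : OmE E I) (Φ : Lab I K) =>
    Finite.exists_max fun w => ‖rc τ c x Φ w‖ ^ 2
  obtain ⟨A', e1, j1⟩ := A.gcomp fun x Φ => S (w0 x Φ)
  refine ⟨A', j1.trans ?_, ?_⟩
  · linarith [A.le_const fun x Φ => hS1 (w0 x Φ)]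
  rw [e1]
  simp only [res_lcomp]
  simp only [res_fld τ c]
  refine le_trans ?_ (A.mono fun x Φ => hS2 (w0 x Φ) (rc τ c x Φ))
  have h2 := A.mono fun x Φ => u3Psi_le τ c x Φ hM (hw0 x Φ)
  rw [A.add, A.smul, A.div] at h2
  have h4 := div_le_div_of_nonneg_right ((u3_sigma h c A).trans h6) hM.le
  rw [div_le_iff₀ hM]
  linarith

omit [Finite E] [Finite I] in
lemma u3_rs (p : Pt E I) (x : OmE E I) : rs 0 p x = x.1 + adj x.2 p.1 + p.2 :=
  funext fun i => by simp only [rs, smul_zero, add_zero, Pi.add_apply]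

theorem u3_of [Nontrivial E] (h : τ.ND) (hLZ : LZ) (hZS : ZS) : U3 τ := by
  intro D ηS hηS
  obtain ⟨th, C, lam, hth, hlam, hst⟩ := u3_struct (bfj (Nat.card E) Nat.card_pos) ηS
    (max (D 2) 1) hηS (lt_max_of_lt_right one_pos)
  have hd : (0 : ℝ) < max (D 8) 1 := lt_max_of_lt_right one_pos
  obtain ⟨c2, hc2⟩ : ∃ c2, c2 = lam ^ 2 * th ^ 2 / max (D 8) 1 := ⟨_, rfl⟩
  have c0 : 0 < c2 := by rw [hc2]; positivity
  obtain ⟨γ, hγ⟩ : ∃ γ, γ = th * (c2 / 2) := ⟨_, rfl⟩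
  have γ0 : 0 < γ := by rw [hγ]; positivity
  have h6 : (0 : ℝ) < max (D 6) 1 := lt_max_of_lt_right one_pos
  obtain ⟨M, hM⟩ : ∃ M, M = 2 * max (D 6) 1 / γ := ⟨_, rfl⟩
  have M0 : 0 < M := by rw [hM]; positivity
  refine ⟨γ / 2 / M, by positivity, fun L _ η hη => ?_⟩
  obtain ⟨k, hk⟩ := hZS E L (η / 4) (by positivity)
  obtain ⟨n0, hn0⟩ := hLZ E 0 C (Fin k) (min (η / 2) (c2 / 2))
    (lt_min (by positivity) (by positivity))
  refine ⟨n0, fun I _ hn c hc hbox => ?_⟩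
  have hD := ct_iff.1 hc
  have hN := card_pos' (α := I → E)
  have hs : (sm fun w => ‖c w‖ ^ 2) ≤ max (D 2) 1 := by
    rw [← n2_fld h]; exact (hD 2).trans (le_max_left _ _)
  obtain ⟨H, hH1, hH2⟩ := hst _ (u3om τ I) _ _
    (fun x => Prod.ext (funext fun _ => card_nsmul_eq_zero') (funext fun _ => card_nsmul_eq_zero'))
    (W0_sdw h c)
    (fun x => (W0_le τ c x).trans (pow_le_pow_left₀ (sm_nonneg fun _ => sq_nonneg _) hs 2))
    (by rw [box3_eq h, le_div_iff₀ hN] at hbox; simpa only [← pow_mul] using hbox)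
  obtain ⟨A, hA1, hA2⟩ := hn0 I hn H (by
    rw [DD, ← Nat.cast_pow, ← Nat.card_fun]; exact hH1)
  obtain ⟨A1, e1, j1⟩ := A.forget
  obtain ⟨A', e2, j2⟩ := A1.olift (E := E)
  have hp := u3_present h c hth.le hlam.le hd {x | th ≤ ‖W0 τ c x‖ ^ 2 ∧ x ∈ H}
    (fun _ hx => hx.1) hH2 ((hD 8).trans (le_max_left _ _))
  rw [← hc2, ← A.marg] at hp
  have hsplit := A.mono (f := fun x Φ => av fun y : OmE E (Fin k) =>
      ind (∃ p ∈ {x | th ≤ ‖W0 τ c x‖ ^ 2 ∧ x ∈ H},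
        (cell x Φ y).1 + adj (cell x Φ y).2 p.1 + p.2 = 0))
    (g := fun x Φ => (av fun y : OmE E (Fin k) => ind (u3Ev τ c th Φ (cell x Φ y))) +
      av fun y : OmE E (Fin k) => ind (∃ p ∈ H, rs 0 p (cell x Φ y) = 0 ∧ wl p.1 Φ ≠ 0))
    fun x Φ => by
      rw [← av_add]
      refine av_mono fun y => le_trans (ind_mono ?_) (ind_or_le _ _)
      rintro ⟨p, ⟨h1, h2⟩, h3⟩
      by_cases h4 : wl p.1 Φ = 0
      · exact Or.inl ⟨p, h1, h3, h4⟩
      · exact Or.inr ⟨p, h2, by rw [u3_rs]; exact h3, h4⟩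
  rw [A.add] at hsplit
  have hm := min_le_right (η / 2) (c2 / 2)
  have hγ' : γ ≤ A'.E fun x Φ => u3Psi τ c x Φ := by
    rw [e2, e1]
    refine le_trans ?_ (A.mono fun x Φ => u3_key h c th Φ x)
    rw [A.smul, hγ]
    exact mul_le_mul_of_nonneg_left (by linarith) hth.le
  obtain ⟨B, hB1, hB2⟩ := u3_gain (L := L) (η := η / 2) h c A' M0
    ((j2.trans j1).trans_le (hA1.trans (min_le_left _ _))) hγ' ((hD 6).trans (le_max_left _ 1))
    fun w => by
      obtain ⟨Z, z1, z2⟩ := hk (Fin k) (by simp) w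
      obtain ⟨S, s1, s2⟩ := u3_zs h w Z z1 z2
      exact ⟨S, by linarith, s2⟩
  refine ⟨B, by linarith, le_trans (le_of_eq ?_) hB2⟩
  congr 1
  rw [hM]; field_simp; ring

end NE
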