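import Pool.Agent.Lib.MP_ecee09_co.NE.Stmts4
import Pool.Agent.Lib.MP_ecee09_co.NE.PL
import Pool.Agent.Lib.MP_ecee09_co.NE.FamC

/-! A family that kills the block sums of one vector. -/

namespace NE

open SD

/-- some value is taken on a share `1 / |X|` of the indices -/
lemma zs_big {X I : Type} [Finite X] [Nonempty X] [Finite I] (w : I → X) :
    ∃ x0, (Nat.card I : ℝ) ≤ Nat.card X * Nat.card {i // w i = x0} := by
  obtain ⟨x0, h⟩ := exists_av_le fun x : X => (Nat.card {i // w i = x} : ℝ)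
  refine ⟨x0, ?_⟩
  have e : (sm fun x : X => (Nat.card {i // w i = x} : ℝ)) = Nat.card I := by
    have h1 := sm_fiber w fun _ => (1 : ℝ)
    rw [sm_const, mul_one] at h1
    rw [h1]
    refine sm_congr fun x => ?_
    have h2 := sm_subtype (fun i => w i = x) fun _ => (1 : ℝ)
    rw [sm_const, mul_one] at h2
    exact h2
  rwa [av_def, e, div_le_iff₀' card_pos'] at h

/-- blocks of `|X|` equal values have sum zero -/
lemma zs_wl {X K : Type} [AddCommGroup X] [Finite X] [Finite K] (x0 : X) :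
    wl (fun _ : K × Fin (Nat.card X) => x0) (fun u => some u.1) = 0 := by
  classical
  let _ := Fintype.ofFinite K
  funext k
  rw [wl_eq, Fintype.sum_prod_type, Finset.sum_eq_single k]
  · simp
  · intro b _ hb
    simp [hb]
  · simp

theorem zs_of (hP : PLANT) : ZS := by
  intro X _ _ K _ η hη
  obtain ⟨η0, h0, hP⟩ := hP (Nat.card (K × Fin (Nat.card X))) η hη
  set B := Nat.card (K × Fin (Nat.card X)) with hB
  have hX := card_pos' (α := X)
  obtain ⟨m, hm⟩ := exists_nat_ge ((B : ℝ) * B / η0)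
  refine ⟨Nat.card X * (m + B + 1), fun I _ hI w => ?_⟩
  obtain ⟨x0, hx⟩ := zs_big w
  have hS : ((m + B + 1 : ℕ) : ℝ) ≤ Nat.card {i // w i = x0} := by
    refine le_of_mul_le_mul_left (le_trans ?_ hx) hX
    exact_mod_cast hI
  have : Nonempty (K × Fin (Nat.card X) ↪ {i // w i = x0}) :=
    nonempty_emb (le_trans (by omega) (Nat.cast_le.1 hS))
  have hi : ∀ o : K × Fin (Nat.card X) ↪ {i // w i = x0},
      Function.Injective fun u => (o u : I) := fun o => Subtype.val_injective.comp o.injective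
  have hn : ∀ (o : K × Fin (Nat.card X) ↪ {i // w i = x0}) (i : I),
      lcomp (crd fun u => (o u : I)) (fun u => some u.1) i ≠ none → ∃ u, (o u : I) = i :=
    fun o i h => (crd_ne_none (hi o)).1 fun e => h (lcomp_of_none _ e)
  obtain ⟨A, hj, hA⟩ := hP I K (Om K) (K × Fin (Nat.card X) ↪ {i // w i = x0}) (fun c => c)
    (fun o => lcomp (crd fun u => (o u : I)) fun u => some u.1) (fun _ _ h => h)
    (fun o => (good_crd (hi o)).lcomp fun k => ⟨(k, ⟨0, Nat.card_pos⟩), rfl⟩)
    (fun o => (Set.ncard_le_ncard (hn o)).trans (Set.ncard_range_of_injective (hi o)).le)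
    (by
      refine le_trans (av_mono fun o => av_mono fun o' => ind_mono ?_) (emb_meet.trans ?_)
      · rintro ⟨i, h1, h2⟩
        obtain ⟨u, hu⟩ := hn o i h1
        obtain ⟨u', hu'⟩ := hn o' i h2
        exact ⟨o u, ⟨u, rfl⟩, u', Subtype.ext (hu'.trans hu.symm)⟩
      · push_cast at hS
        have hB0 : (0 : ℝ) ≤ B := Nat.cast_nonneg _
        have hm0 : (0 : ℝ) ≤ m := Nat.cast_nonneg _
        rw [div_le_iff₀ h0] at hm
        rw [← hB, div_le_iff₀ (by linarith)]
        nlinarith)
  refine ⟨A, hj, ?_⟩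
  have h := hA (fun _ Ψ => ind (wl w Ψ ≠ 0)) (fun _ _ => (abs_ind _).trans_le (ind_le_one _))
    fun _ _ _ => rfl
  have e : ∀ o : K × Fin (Nat.card X) ↪ {i // w i = x0},
      wl w (lcomp (crd fun u => (o u : I)) fun u => some u.1) = 0 := fun o => by
    rw [wl_lcomp, wl_crd (hi o), ← zs_wl x0]
    exact congrArg (wl · _) (funext fun u => (o u).2)
  simp only [e, ne_eq, not_true_eq_false, ind_neg not_false, av_zero, sub_zero] at h
  exact (le_abs_self _).trans h

end NE
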