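import Pool.Agent.Lib.MP_ecee09_co.NE.Final
import Pool.Agent.Lib.MP_ecee09_co.NE.TopA
import Pool.Agent.Lib.MP_ecee09_co.NE.FullA
import Pool.Agent.Lib.MP_ecee09_co.NE.AMF
import Pool.Agent.Lib.MP_ecee09_co.NE.CLP
import Pool.Agent.Lib.MP_ecee09_co.NE.GG
import Pool.Agent.Lib.MP_ecee09_co.NE.GTW
import Pool.Agent.Lib.MP_ecee09_co.NE.Mom
import Pool.Agent.Lib.MP_ecee09_co.NE.PInd
import Pool.Agent.Lib.MP_ecee09_co.NE.SB
import Pool.Agent.Lib.MP_ecee09_co.NE.PR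
import Pool.Agent.Lib.MP_ecee09_co.NE.PA
import Pool.Agent.Lib.MP_ecee09_co.NE.U3
import Pool.Agent.Lib.MP_ecee09_co.NE.Zs

/-! Assembly of part III-a. -/

namespace NE

theorem zs : ZS := zs_of (plant_of mrf)

theorem gg {E : Type} [AddCommGroup E] [Finite E] [Nontrivial E] {τ : QT E} (h : τ.ND) : GG τ :=
  gg_of h mrf gtw gt2 (mom_of h (pind h) (asb τ) avar (amom h (clp h)))

theorem cor_of_parts (hR : RPA) (hL : LZ) : COR :=
  cor_of_full topa_of fun σ h1 _ => full_ind (fun _ _ _ _ _ h => gg h) (fun _ _ _ _ _ h => pa_of h hR)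
    (fun _ _ _ _ _ h => u3_of h hL zs) (fun _ _ _ _ _ h => pr_of h) σ.E σ.τ h1

end NE
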