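import Pool.Agent.Lib.MP_ecee09_co.NE.Stmts4

/-! Isotropic sub-sums. -/

namespace NE

open Finset

/-- A long family in a finite group has a nonempty subfamily with sum zero. -/
theorem iso_zero {G : Type} [AddCommGroup G] [Finite G] {n : ℕ} (hn : Nat.card G ≤ n)
    (f : Fin n → G) : ∃ S : Finset (Fin n), S.Nonempty ∧ ∑ i ∈ S, f i = 0 := by
  classical
  have := Fintype.ofFinite G
  have key : ∀ k l : ℕ, k < l → l ≤ n → ∑ i : Fin n with i.val < k, f i =
      ∑ i : Fin n with i.val < l, f i → ∃ S : Finset (Fin n), S.Nonempty ∧ ∑ i ∈ S, f i = 0 := by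
    intro k l h hl e
    have s : (univ.filter fun i : Fin n => i.val < k) ⊆ univ.filter fun i : Fin n => i.val < l :=
      fun i hi => mem_filter.2 ⟨mem_univ _, (mem_filter.1 hi).2.trans h⟩
    refine ⟨(univ.filter fun i : Fin n => i.val < l) \ univ.filter fun i : Fin n => i.val < k,
      ⟨⟨k, h.trans_le hl⟩, mem_sdiff.2 ⟨mem_filter.2 ⟨mem_univ _, h⟩,
      fun t => lt_irrefl _ (mem_filter.1 t).2⟩⟩, ?_⟩
    rw [sum_sdiff_eq_sub s, e, sub_self]
  obtain ⟨k, l, ne, e⟩ := Fintype.exists_ne_map_eq_of_card_lt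
    (fun k : Fin (n + 1) => ∑ i : Fin n with i.val < k.val, f i)
    (by rw [Fintype.card_fin, ← Nat.card_eq_fintype_card]; omega)
  rcases lt_or_gt_of_ne ne with h | h
  exacts [key k l h (Nat.lt_succ_iff.1 l.2) e, key l k h (Nat.lt_succ_iff.1 k.2) e.symm]

/-- Pairwise orthogonal sub-sums. -/
theorem iso_orth {EE U V : Type} [AddCommGroup EE] [Finite EE] [Finite U] [AddCommGroup V]
    (B : V →+ V →+ EE) {n : ℕ} (hn : Nat.card (U → EE × EE) ≤ n) (z : U → Fin n → V) :
    ∃ S : U → Finset (Fin n), (∀ u, (S u).Nonempty) ∧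
      ∀ u v, u ≠ v → B (∑ i ∈ S u, z u i) (∑ i ∈ S v, z v i) = 0 := by
  classical
  have := Fintype.ofFinite U
  suffices h : ∀ T : Finset U, ∃ S : U → Finset (Fin n), (∀ u ∈ T, (S u).Nonempty) ∧
      ∀ u ∈ T, ∀ v ∈ T, u ≠ v → B (∑ i ∈ S u, z u i) (∑ i ∈ S v, z v i) = 0 by
    obtain ⟨S, h1, h2⟩ := h univ
    exact ⟨S, fun u => h1 u (mem_univ _), fun u v => h2 u (mem_univ _) v (mem_univ _)⟩
  intro T
  induction T using Finset.induction_on with
  | empty => exact ⟨fun _ => ∅, by simp, by simp⟩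
  | insert a T ha ih =>
    obtain ⟨S, h1, h2⟩ := ih
    obtain ⟨S0, k1, k2⟩ := iso_zero hn fun i (v : U) =>
      (B (z a i) (∑ j ∈ S v, z v j), B (∑ j ∈ S v, z v j) (z a i))
    have e : ∀ u ∈ T, Function.update S a S0 u = S u := fun u hu =>
      Function.update_of_ne (ne_of_mem_of_not_mem hu ha) _ _
    have k3 := fun v => congrFun k2 v
    simp only [Finset.sum_apply, Prod.ext_iff, Prod.fst_sum, Prod.snd_sum, Pi.zero_apply,
      Prod.fst_zero, Prod.snd_zero] at k3
    refine ⟨Function.update S a S0, fun u hu => ?_, fun u hu v hv ne => ?_⟩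
    · rcases mem_insert.1 hu with rfl | hu
      · rwa [Function.update_self]
      · rw [e u hu]
        exact h1 u hu
    · rcases mem_insert.1 hu with p | p <;> rcases mem_insert.1 hv with q | q
      · exact absurd (p.trans q.symm) ne
      · rw [p, Function.update_self, e v q, map_sum B, AddMonoidHom.finsetSum_apply]
        exact (k3 v).1
      · rw [q, Function.update_self, e u p, map_sum]
        exact (k3 u).2
      · rw [e u p, e v q]
        exact h2 u p v q ne

theorem iso : ISO := by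
  classical
  intro EE K _ _ _
  refine ⟨Nat.card EE * Nat.card (K × Fin (Nat.card EE) → EE × EE), fun V _ B z => ?_⟩
  obtain ⟨S, h1, h2⟩ := iso_orth B le_rfl fun (u : K × Fin (Nat.card EE)) i =>
    z (u.1, finProdFinEquiv (u.2, i))
  choose T t1 t2 using fun a : K => iso_zero (G := EE) le_rfl fun i =>
    B (∑ j ∈ S (a, i), z (a, finProdFinEquiv (i, j))) (∑ j ∈ S (a, i), z (a, finProdFinEquiv (i, j)))
  refine ⟨fun u => decide ((finProdFinEquiv.symm u.2).1 ∈ T u.1 ∧
    (finProdFinEquiv.symm u.2).2 ∈ S (u.1, (finProdFinEquiv.symm u.2).1)), fun a => ?_,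
      fun a b => ?_⟩
  · obtain ⟨i, hi⟩ := t1 a
    obtain ⟨j, hj⟩ := h1 (a, i)
    exact ⟨finProdFinEquiv (i, j), by simpa only [Equiv.symm_apply_apply, decide_eq_true_eq]
      using ⟨hi, hj⟩⟩
  · have e : ∀ a, (∑ j, if decide ((finProdFinEquiv.symm j).1 ∈ T a ∧
        (finProdFinEquiv.symm j).2 ∈ S (a, (finProdFinEquiv.symm j).1)) then z (a, j) else 0) =
        ∑ i ∈ T a, ∑ j ∈ S (a, i), z (a, finProdFinEquiv (i, j)) := fun a => by
      rw [← finProdFinEquiv.sum_comp, Fintype.sum_prod_type]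
      simp only [Equiv.symm_apply_apply, decide_eq_true_eq, ite_and, sum_ite_irrel, sum_const_zero,
        sum_ite_mem_eq]
    rw [e, e, map_sum B, AddMonoidHom.finsetSum_apply]
    by_cases t : a = b
    · subst t
      rw [← t2 a]
      refine sum_congr rfl fun i hi => ?_
      rw [map_sum, sum_eq_single_of_mem i hi fun j _ ne =>
        h2 (a, i) (a, j) fun s => ne (Prod.mk.inj s).2.symm]
    · refine sum_eq_zero fun i _ => ?_
      rw [map_sum]
      exact sum_eq_zero fun j _ => h2 (a, i) (b, j) fun s => t (Prod.mk.inj s).1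

end NE
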