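import Pool.Agent.Lib.MP_ecee09_co.NE.LSc
import Pool.Agent.Lib.MP_ecee09_co.NE.Dual

/-! Phases of low forms are trivial. -/

namespace NE

open SD Finset

theorem jl_ee_sum {ι : Type} (s : Finset ι) (f : ι → TT) :
    ‖ee (∑ i ∈ s, f i) - 1‖ ≤ ∑ i ∈ s, ‖ee (f i) - 1‖ := by
  classical
  induction s using Finset.induction_on with
  | empty => simp
  | insert a s ha ih =>
    rw [sum_insert ha, sum_insert ha, ee_add]
    have e : ee (f a) * ee (∑ i ∈ s, f i) - 1 =
        (ee (f a) - 1) + ee (f a) * (ee (∑ i ∈ s, f i) - 1) := by ring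
    rw [e]
    refine (norm_add_le _ _).trans (add_le_add le_rfl ?_)
    rwa [norm_mul, norm_ee, one_mul]

theorem jl_two (x : TT) : ‖ee x - 1‖ ≤ 2 := by
  have := norm_sub_le (ee x) 1
  rw [norm_ee, norm_one] at this
  linarith

theorem jl_gap {J : ℕ} (hJ : 0 < J) :
    ∃ C : ℝ, 0 < C ∧ ∀ x : TT, J • x = 0 → ‖ee x - 1‖ ≤ C * (1 - (ee x).re) := by
  obtain ⟨c, c0, -, hc⟩ := exists_gap J
  refine ⟨2 / c, by positivity, fun x hx => ?_⟩
  by_cases h : x = 0
  · simp [h]
  · refine (jl_two x).trans ?_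
    rw [div_mul_eq_mul_div, le_div_iff₀ c0]
    exact mul_le_mul_of_nonneg_left (hc x J hJ le_rfl hx h) zero_le_two

theorem jl_const {α : Type} [Finite α] [Nonempty α] (f : α → TT) :
    ∃ j, (av fun i => 1 - (ee (f i - f j)).re) ≤ 1 - ‖cav fun i => ee (f i)‖ ^ 2 := by
  obtain ⟨j, hj⟩ := exists_le_av fun j => av fun i => 1 - (ee (f i - f j)).re
  refine ⟨j, hj.trans (le_of_eq ?_)⟩
  have e : ((‖cav fun i => ee (f i)‖ ^ 2 : ℝ) : ℂ) = cav fun j => cav fun i => ee (f i - f j) := by
    rw [← mul_conj'', conj_cav, mul_comm, cav_mul_cav]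
    exact cav_congr fun j => cav_congr fun i => by rw [ee_sub, mul_comm]
  have e2 := congrArg Complex.re e
  rw [Complex.ofReal_re, cav_re] at e2
  simp only [cav_re] at e2
  simp only [av_sub, av_const, e2]

/-- the planted mean of a function of one template point -/
theorem jl_prd {I U : Type} [Finite I] [Finite U] {u : ℕ} {γ : ℝ} {A : Om I} (h : QR u γ A)
    (hU : Nat.card U ≤ u) (π : PP U) (a : U) {e : F} (he : π s(a, a) = some e) (g : I → ℝ)
    (g0 : ∀ i, 0 ≤ g i) (g1 : ∀ i, g i ≤ 1) :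
    (av fun ι : U ↪ I => dens (bl (crd ι) π) A * g (ι a)) ≤ (av fun i : Lp A e => g i) + γ := by
  classical
  have := Fintype.ofFinite U
  have n1 : ∀ b i, ‖(if b = a then (g i : ℂ) else 1)‖ ≤ 1 := fun b i => by
    split_ifs
    · rw [Complex.norm_real, Real.norm_of_nonneg (g0 i)]
      exact g1 i
    · exact norm_one.le
  have k := h.prd U hU π (fun b i => if b = a then (g i : ℂ) else 1) n1
  have e1 : (cav fun ι : U ↪ I => (dens (bl (crd ι) π) A : ℂ) *
      ∏ᶠ b, if b = a then (g (ι b) : ℂ) else 1) =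
      ((av fun ι : U ↪ I => dens (bl (crd ι) π) A * g (ι a) : ℝ) : ℂ) := by
    rw [← cav_ofReal]
    refine cav_congr fun ι => ?_
    rw [finprod_eq_single _ a fun b hb => if_neg hb, if_pos rfl, Complex.ofReal_mul]
  have e2 : ‖∏ᶠ b, lav A (π s(b, b)) fun i => if b = a then (g i : ℂ) else 1‖ ≤
      av fun i : Lp A e => g i := by
    rw [finprod_eq_prod_of_fintype, norm_prod, ← mul_prod_erase _ _ (mem_univ a), he]
    refine (mul_le_of_le_one_right (norm_nonneg _)
      (prod_le_one (fun _ _ => norm_nonneg _) fun b _ => ?_)).trans (le_of_eq ?_)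
    · cases π s(b, b) with
      | none => exact norm_cav_le_const zero_le_one (n1 b)
      | some e => exact norm_cav_le_const zero_le_one fun i => n1 b _
    · show ‖cav fun i : Lp A e => if a = a then (g i : ℂ) else 1‖ = _
      simp only [if_true]
      rw [cav_ofReal, Complex.norm_real, Real.norm_of_nonneg (av_nonneg fun i => g0 _)]
  rw [e1] at k
  have k2 := (norm_le_norm_add_norm_sub' _ _).trans (add_le_add e2 k)
  rw [Complex.norm_real] at k2
  exact (le_abs_self _).trans k2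

theorem jl_kill {K : Type} [Fintype K] {r J t : ℕ} {c : TT} (hc : J • c = 0)
    (p : K × Fin r × Fin J × Fin t → Prop) [DecidablePred p]
    (hp : ∀ u v, u.1 = v.1 → u.2.1 = v.2.1 → p u → p v) : (∑ u, if p u then c else 0) = 0 := by
  simp only [Fintype.sum_prod_type]
  refine sum_eq_zero fun a _ => sum_eq_zero fun j _ => ?_
  rw [sum_comm]
  refine sum_eq_zero fun s _ => ?_
  by_cases h : ∃ x, p (a, j, x, s)
  · obtain ⟨x, hx⟩ := h
    rw [sum_congr rfl fun y _ => if_pos (hp (a, j, x, s) (a, j, y, s) rfl rfl hx), sum_const, card_fin, hc]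
  · exact sum_eq_zero fun y _ => if_neg fun t => h ⟨y, t⟩

theorem jl_bl {I U K : Type} (Φ : Lab I U) (Ψ : Lab U K) (Q : PP K) :
    bl (lcomp Φ Ψ) Q = bl Φ (bl Ψ Q) := by
  funext c
  simp only [bl, lab2_lcomp, Option.bind_assoc]

theorem jl_dens {I : Type} (σ : PP I) (A : Om I) : 0 ≤ dens σ A :=
  mul_nonneg (by positivity) (ind_nonneg _)

theorem jlow : JLOW := by
  classical
  intro EE _ _ J Cf hJ hE K _ r δ2 δ3 h2 h3
  have := Fintype.ofFinite K
  obtain ⟨C, C0, hC⟩ := jl_gap hJ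
  set k : ℝ := (Nat.card K : ℝ) * Nat.card K * (Nat.card K * (r * J)) with hk
  have k0 : 0 ≤ k := by positivity
  obtain ⟨Q, hQ⟩ := exists_nat_gt (2 * (k * C * |Real.log (1 / δ2)|) / δ3)
  have Q0 : (0 : ℝ) < Q := lt_of_le_of_lt (by positivity) hQ
  refine ⟨Q, fun t t2 ht ht2 => ⟨Nat.card (K × Fin r × Fin J × Fin t), δ3 / (4 * (k * t + 1)),
    by positivity, fun I _ L A ok qr P Φ l φ hb hφ => ?_⟩⟩
  have t0 : (0 : ℝ) < t := by exact_mod_cast ht
  have t1 : (Q : ℝ) * t ≤ t2 := by exact_mod_cast ht2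
  have t20 : (0 : ℝ) < t2 := (mul_pos Q0 t0).trans_le t1
  have key : ∀ z : K × K, ∃ (χ : (I → ℤ) →+ TT) (c : TT), J • c = 0 ∧
      (∀ w ∈ L.V A, χ w = l z.1 z.2 (L.B A (yv Φ z.1) w)) ∧
      (av fun i : Lp A (P s(z.2, z.2)) => ‖ee (χ (ei (i : I)) - c) - 1‖) ≤
        C * (|Real.log (1 / δ2)| / (Q * t)) := fun z => by
    obtain ⟨χ, c1, c2⟩ := ok.nul_of_bet hJ A _ (by exact_mod_cast t20) h2 (hb z.1 z.2)
    have tor : ∀ w, J • χ w = 0 := fun w => by
      rw [← map_nsmul, c1 _ (ok.jv A w), AddMonoidHom.comp_apply, map_nsmul, hE, map_zero]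
    cases isEmpty_or_nonempty (Lp A (P s(z.2, z.2))) with
    | inl _ =>
      refine ⟨χ, 0, smul_zero _, c1, ?_⟩
      simp only [av_def, Nat.card_of_isEmpty, Nat.cast_zero, div_zero]
      positivity
    | inr _ =>
      obtain ⟨j, hj⟩ := jl_const fun i : Lp A (P s(z.2, z.2)) => χ (ei (i : I))
      refine ⟨χ, _, tor (ei (j : I)), c1, (av_mono fun i => hC _ ?_).trans ?_⟩
      · rw [smul_sub, tor, tor, sub_zero]
      · rw [av_mul_left]
        refine mul_le_mul_of_nonneg_left ((hj.trans c2).trans ?_) C0.le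
        exact (div_le_div_of_nonneg_right (le_abs_self _) t20.le).trans
          (div_le_div_of_nonneg_left (abs_nonneg _) (mul_pos Q0 t0) t1)
  choose χ c hc hχ hav using key
  let T : (K × Fin r → Bool) → Lab (K × Fin r × Fin J × Fin t) K := fun τ =>
    tg fun u => τ (u.1, u.2.1)
  have pt : ∀ o : LO K r J t I, ‖((dens (bl (llab o) (ful P)) A * φ (llab o) : ℝ) : ℂ) *
      ee (∑ᶠ z : K × K, l z.1 z.2 (L.B A (yv Φ z.1) (yv (llab o) z.2))) -
      ((dens (bl (llab o) (ful P)) A * φ (llab o) : ℝ) : ℂ)‖ ≤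
      ∑ z : K × K, ∑ u, ind (T o.2 u = some z.2) * (dens (bl (crd o.1) (bl (T o.2) (ful P))) A *
        ‖ee (χ z (ei (o.1 u)) - c z) - 1‖) := fun o => by
    by_cases hv : ∀ b, yv (llab o) b ∈ L.V A
    · rw [← mul_sub_one, norm_mul, Complex.norm_real,
        Real.norm_of_nonneg (mul_nonneg (jl_dens _ _) (hφ _).1), ← jl_bl]
      simp only [mul_left_comm (ind _), ← mul_sum]
      refine mul_le_mul (mul_le_of_le_one_right (jl_dens _ _) ((hφ _).2.trans (ind_le_one _))) ?_
        (norm_nonneg _) (jl_dens _ _)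
      rw [finsum_eq_sum_of_fintype]
      refine (jl_ee_sum _ _).trans (sum_le_sum fun z _ => ?_)
      have e : l z.1 z.2 (L.B A (yv Φ z.1) (yv (llab o) z.2)) = ∑ u,
          if T o.2 u = some z.2 then χ z (ei (o.1 u)) - c z else 0 := by
        have kl := jl_kill (hc z) (fun u => T o.2 u = some z.2)
          fun u v h1 h2 h => by simpa only [T, tg, ← h1, ← h2] using h
        refine (hχ z _ (hv _)).symm.trans ((sub_zero _).symm.trans ?_)
        rw [llab, yv_lcomp o.1.injective, map_sum]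
        refine (congrArg _ kl.symm).trans ?_
        rw [← sum_sub_distrib]
        refine sum_congr rfl fun u _ => ?_
        by_cases s : T o.2 u = some z.2
        · rw [if_pos s, if_pos s, if_pos s]
        · rw [if_neg s, if_neg s, if_neg s, map_zero, sub_zero]
      rw [e]
      refine (jl_ee_sum _ _).trans (sum_le_sum fun u _ => le_of_eq ?_)
      by_cases s : T o.2 u = some z.2
      · rw [if_pos s, ind_pos s, one_mul]
      · rw [if_neg s, ind_neg s, ee_zero, sub_self, norm_zero, zero_mul]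
    · rw [le_antisymm ((hφ _).2.trans_eq (ind_neg hv)) (hφ _).1, mul_zero, Complex.ofReal_zero,
        zero_mul, sub_zero, norm_zero]
      exact sum_nonneg fun _ _ => sum_nonneg fun _ _ =>
        mul_nonneg (ind_nonneg _) (mul_nonneg (jl_dens _ _) (norm_nonneg _))
  rw [LD.trm, ← cav_ofReal, ← cav_sub]
  refine (norm_cav_le _).trans ((av_mono pt).trans ?_)
  have one : ∀ (z : K × K) (u : K × Fin r × Fin J × Fin t), (av fun o : LO K r J t I =>
      ind (T o.2 u = some z.2) * (dens (bl (crd o.1) (bl (T o.2) (ful P))) A *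
        ‖ee (χ z (ei (o.1 u)) - c z) - 1‖)) ≤
      C * (|Real.log (1 / δ2)| / (Q * t)) + 2 * (δ3 / (4 * (k * t + 1))) := fun z u => by
    rw [av_prod, av_comm]
    refine av_le_const fun τ => ?_
    by_cases s : T τ u = some z.2
    · have w := jl_prd qr le_rfl (bl (T τ) (ful P)) u (e := P s(z.2, z.2))
        (by rw [bl, lab2_some s s]; rfl)
        (fun i => ‖ee (χ z (ei i) - c z) - 1‖ / 2) (fun _ => by positivity)
        fun _ => by rw [div_le_one two_pos]; exact jl_two _
      simp only [← mul_div_assoc, av_div] at w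
      simp only [ind_pos s, one_mul]
      linarith [hav z]
    · simp only [ind_neg s, zero_mul, av_zero]
      positivity
  rw [av_sum]
  simp only [av_sum]
  refine (sum_le_sum fun z _ => sum_le_sum fun u _ => one z u).trans ?_
  simp only [sum_const, card_univ, nsmul_eq_mul, ← Nat.card_eq_fintype_card, Nat.card_prod,
    Nat.card_fin, Nat.cast_mul]
  have e : (Nat.card K : ℝ) * Nat.card K * (Nat.card K * (r * (J * t)) *
      (C * (|Real.log (1 / δ2)| / (Q * t)) + 2 * (δ3 / (4 * (k * t + 1))))) =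
      k * C * |Real.log (1 / δ2)| / Q + δ3 / 2 * (k * t / (k * t + 1)) := by
    rw [hk]
    field_simp
    ring
  rw [e]
  have a1 : k * C * |Real.log (1 / δ2)| / Q ≤ δ3 / 2 := by
    rw [div_lt_iff₀ h3] at hQ
    rw [div_le_iff₀ Q0]
    linarith
  have a2 : k * t / (k * t + 1) ≤ 1 := by
    rw [div_le_one (by positivity)]
    linarith
  nlinarith

end NE
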