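import Pool.Agent.Lib.MP_ecee09_co.NE.W0
import Pool.Agent.Lib.MP_ecee09_co.NE.GB

/-! The restricted mean is invariant along a frozen cell. -/

namespace NE

open SD

theorem jinv_prod {ι : Type} (s : Finset ι) {x y : ι → ℝ} {ε : ℝ} (hx : ∀ i, |x i| ≤ 1)
    (hy : ∀ i, |y i| ≤ 1) (h : ∀ i, |x i - y i| ≤ ε) :
    |∏ i ∈ s, x i - ∏ i ∈ s, y i| ≤ s.card * ε ∧ |∏ i ∈ s, x i| ≤ 1 := by
  refine ⟨?_, (Finset.abs_prod ..).trans_le (Finset.prod_le_one (fun _ _ => abs_nonneg _)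
    fun i _ => hx i)⟩
  induction s using Finset.cons_induction with
  | empty => simp
  | cons a s ha ih =>
    have h1 : |∏ i ∈ s, x i| ≤ 1 := (Finset.abs_prod ..).trans_le
      (Finset.prod_le_one (fun _ _ => abs_nonneg _) fun i _ => hx i)
    rw [Finset.prod_cons, Finset.prod_cons, Finset.card_cons,
      show x a * ∏ i ∈ s, x i - y a * ∏ i ∈ s, y i =
        (x a - y a) * ∏ i ∈ s, x i + y a * (∏ i ∈ s, x i - ∏ i ∈ s, y i) by ring]
    refine (abs_add_le _ _).trans ?_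
    rw [abs_mul, abs_mul]
    have := mul_le_mul (h a) h1 (abs_nonneg _) ((abs_nonneg _).trans (h a))
    have := mul_le_mul (hy a) ih (abs_nonneg _) zero_le_one
    push_cast; linarith

variable {I K EE : Type} [AddCommGroup EE] [Finite I] [Finite K] {L : LD I EE} {J : ℕ} {Cf : ℕ → ℕ}

theorem jinv_bet (A : Om I) (l : Ch EE) (e : F) (t : ℕ) (y : I → ℤ) : |L.bet A l e t y| ≤ 1 :=
  (abs_av_le _).trans (av_le_c zero_le_one fun κ => by
    rw [abs_mul, abs_ind]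
    exact mul_le_one₀ (ind_le_one _) (abs_nonneg _)
      ((Complex.abs_re_le_norm _).trans (norm_ee _).le))

omit [Finite I] in
theorem jinv_fp (h : L.Ok J Cf) {Φ Ψ : Lab I K} {A : Om I} {P : Om K} (P' : Om K)
    (h1 : L.Fp (ow A Φ P) Φ) (h2 : L.Fp (ow A Φ P) Ψ)
    (h3 : ∀ a b, L.B (ow A Φ P) (yv Φ a) (yv Ψ b) = 0) :
    L.Fp (ow A Φ P') Ψ ∧ ∀ a b, L.B (ow A Φ P') (yv Φ a) (yv Ψ b) = 0 := by
  obtain ⟨-, e, k⟩ := h.inv K Φ A P P' h1
  have k (b) := k _ (h2.1 b) fun a => h3 a b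
  exact ⟨⟨fun a => e ▸ h2.1 a, fun a b => (k b _ (h2.1 a)).2.trans (h2.2 a b)⟩,
    fun a b => (k b _ (h1.1 a)).2.trans (h3 a b)⟩

theorem jinv_of (hM : MOVE) : JINV := by
  intro EE _ _ J Cf hJ K _ r t t2 B ε hε
  classical
  let _ := Fintype.ofFinite (K × F × Ch EE)
  set u := Nat.card (K × Fin r × Fin J × Fin t)
  set N : ℝ := ((Finset.univ : Finset (K × F × Ch EE)).card : ℝ)
  set D : ℝ := 2 ^ u ^ 2
  have D0 : 0 < D := by positivity
  have N0 : 0 ≤ N := Nat.cast_nonneg _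
  obtain ⟨n1, h1⟩ := hM EE J Cf hJ B t2 (ε / (2 * D * (N + 1))) (by positivity)
  obtain ⟨n2, h2⟩ := exists_nat_gt (4 * D * u * B / ε)
  refine ⟨max n1 n2, fun I _ hn L hL Φ A P0 P1 P Λ hB hb hF => ?_⟩
  have h1 := h1 I (le_of_max_le_left hn) L hL K Φ A P0 P1 hB hb hF
  have n0 : 4 * D * u * B / ε < Nat.card I := h2.trans_le (by exact_mod_cast le_of_max_le_right hn)
  have np : (0 : ℝ) < Nat.card I := lt_of_le_of_lt (by positivity) n0
  let Pi (A : Om I) (Ψ : Lab I K) : ℝ := ∏ z : K × F × Ch EE,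
    if z.2.2 ∈ Λ z.2.1 then L.bet A z.2.2 z.2.1 t2 (yv Ψ z.1) else 1
  let C (A : Om I) (Ψ : Lab I K) : Prop :=
    (Good Ψ ∧ L.Fp A Ψ) ∧ ∀ a b, L.B A (yv Φ a) (yv Ψ b) = 0
  have e (A : Om I) : L.JP r J t A Λ t2 P Φ = av fun o : LO K r J t I =>
      dens (bl (llab o) (ful P)) A * (ind (C A (llab o)) * Pi A (llab o)) := av_congr fun o => by
    rw [LD.gw, finprod_eq_prod_of_fintype, ind_and (_ ∧ _)]; ring
  have b1 (A : Om I) (Ψ : Lab I K) (z : K × F × Ch EE) :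
      |if z.2.2 ∈ Λ z.2.1 then L.bet A z.2.2 z.2.1 t2 (yv Ψ z.1) else 1| ≤ 1 := by
    split_ifs
    exacts [jinv_bet .., abs_one.le]
  have bD (A : Om I) (o : LO K r J t I) : |dens (bl (llab o) (ful P)) A| ≤ D :=
    (abs_of_nonneg (dens_nonneg ..)).trans_le (dens_bl_le (supp_lcomp_crd ..) ..)
  have b2 (A : Om I) (o : LO K r J t I) :
      |dens (bl (llab o) (ful P)) A * (ind (C A (llab o)) * Pi A (llab o))| ≤ D := by
    rw [abs_mul, abs_mul, abs_ind]
    exact (mul_le_of_le_one_right (abs_nonneg _) (mul_le_one₀ (ind_le_one _) (abs_nonneg _)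
      (jinv_prod _ (b1 A _) (b1 A (llab o)) (ε := 0) (by simp)).2)).trans (bD A o)
  rw [e, e, ← av_sub]
  refine ((abs_av_le _).trans (av_mono (g := fun o => ε / 2 * 1 + 2 * D *
    ind (∃ i ∈ {i | Φ i ≠ none}, llab o i ≠ none)) fun o => ?_)).trans ?_
  · by_cases hm : ∃ i ∈ {i | Φ i ≠ none}, llab o i ≠ none
    · rw [ind_pos hm]
      refine (abs_sub _ _).trans ?_
      linarith [b2 (ow A Φ P1) o, b2 (ow A Φ P0) o]
    have d : Disjoint (pdom (bl (llab o) (ful P))) (ins Φ) := pdom_bl_ful Φ P ▸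
      disj_bl (fun i => by_contra fun k => hm ⟨i, (not_or.1 k).2, (not_or.1 k).1⟩) _ _
    rw [ind_neg hm, dens_ow d, dens_ow d, ← mul_sub, abs_mul, mul_zero, add_zero, mul_one]
    by_cases hc : C (ow A Φ P0) (llab o)
    · have := jinv_fp hL P1 hF hc.1.2 hc.2
      rw [ind_pos hc, ind_pos (show C (ow A Φ P1) (llab o) from ⟨⟨hc.1.1, this.1⟩, this.2⟩),
        one_mul, one_mul]
      refine (mul_le_mul (bD A o) (jinv_prod _ (b1 _ _) (b1 _ _) (ε := ε / (2 * D * (N + 1)))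
        fun z => ?_).1 (abs_nonneg _) D0.le).trans ?_
      · split_ifs
        · exact (h1 _ _ 0 _ _ le_rfl le_rfl).1 _ (hc.1.2.1 _) fun a => hc.2 a _
        · rw [sub_self, abs_zero]; positivity
      · calc D * (N * (ε / (2 * D * (N + 1)))) = ε / 2 * (N / (N + 1)) := by field_simp
          _ ≤ ε / 2 := mul_le_of_le_one_right (by positivity)
            (div_le_one_of_le₀ (by linarith) (by positivity))
    · rw [ind_neg hc, ind_neg fun k : C (ow A Φ P1) (llab o) => by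
        have := jinv_fp hL P0 (jinv_fp hL P1 hF hF hF.2).1 k.1.2 k.2
        exact hc ⟨⟨k.1.1, this.1⟩, this.2⟩]
      simpa using half_pos hε |>.le
  · rw [av_add, av_mul_left, av_mul_left]
    have k1 := av_one_le (α := LO K r J t I)
    have k2 := hit_le (fun g : K × Fin r → Bool =>
      tg fun u : K × Fin r × Fin J × Fin t => g (u.1, u.2.1)) {i | Φ i ≠ none}
    have k3 : (u : ℝ) * {i | Φ i ≠ none}.ncard / Nat.card I ≤ u * B / Nat.card I := by gcongr
    have k4 : 2 * D * (u * B / Nat.card I) ≤ ε / 2 := by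
      rw [div_lt_iff₀ hε] at n0
      rw [← mul_div_assoc, div_le_iff₀ np]; linarith
    have := mul_le_mul_of_nonneg_left (k2.trans k3) (by positivity : 0 ≤ 2 * D)
    have := mul_le_mul_of_nonneg_left k1 (by positivity : 0 ≤ ε / 2)
    exact (add_le_add ‹_› (‹_ ≤ 2 * D * _›.trans k4)).trans_eq (by ring)

end NE
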