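import Pool.Agent.Lib.MP_ecee09_co.NE.LAa
import Pool.Agent.Lib.MP_ecee09_co.NE.Stmts4

/-! The lattice data of a subgroup. -/

namespace NE

open SD (F sm av ind cnt Tame)

section
variable {Γ I K : Type} [AddCommGroup Γ] [Finite I] {H : AddSubgroup (Pt Γ I)}

/-- block vectors are values, and their preimages have zero block sums -/
def lFz (H : AddSubgroup (Pt Γ I)) (A : Om I) (Φ : Lab I K) : Prop :=
  (∀ t, ∃ h ∈ H, TM A h = spr t Φ) ∧ ∀ h ∈ H, ∀ t, TM A h = spr t Φ → wl h.1 Φ = 0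

variable [Finite K] {A : Om I} {Φ : Lab I K}

lemma lFz_of (hy : ∀ a, yv Φ a ∈ lV H A) (h0 : ∀ a b, lA H A (yv Φ a) (yv Φ b) = 0) :
    lFz H A Φ :=
  ⟨fun t => by obtain ⟨h, hh, e, _⟩ := lA_blk hy t; exact ⟨h, hh, e⟩, fun h hh t e => by
    funext b
    rw [← ldot_yv]
    exact lA_orth hy (hy b) (fun a => h0 a b) hh e⟩

lemma la_tm_same (P P' : Om K) {h : Pt Γ I} (e : wl h.1 Φ = 0) :
    TM (ow A Φ P') h = TM (ow A Φ P) h := by
  rw [tm_ow A Φ P P', e, adj_zero, adj_zero, sub_zero, spr_zero, add_zero]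

lemma lFz.move {P : Om K} (hf : lFz H (ow A Φ P) Φ) (P' : Om K) : lFz H (ow A Φ P') Φ := by
  refine ⟨fun t => ?_, fun h hh t e => ?_⟩
  · obtain ⟨h, hh, e⟩ := hf.1 t
    exact ⟨h, hh, by rw [la_tm_same P P' (hf.2 h hh t e), e]⟩
  · refine hf.2 h hh (t - (adj P' (wl h.1 Φ) - adj P (wl h.1 Φ))) ?_
    rw [spr_sub, ← e, tm_ow A Φ P P', add_sub_cancel_right]

lemma lFz.map_le {P : Om K} (hf : lFz H (ow A Φ P) Φ) (P' : Om K) :
    H.map (laTM (ow A Φ P')) ≤ H.map (laTM (ow A Φ P)) := by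
  rintro _ ⟨h, hh, rfl⟩
  obtain ⟨h', hh', e⟩ := hf.1 (adj P' (wl h.1 Φ) - adj P (wl h.1 Φ))
  refine ⟨h + h', H.add_mem hh hh', ?_⟩
  show TM _ _ = TM _ _
  rw [tm_add, e, tm_ow A Φ P P']

lemma lFz.map_eq {P : Om K} (hf : lFz H (ow A Φ P) Φ) (P' : Om K) :
    H.map (laTM (ow A Φ P')) = H.map (laTM (ow A Φ P)) :=
  le_antisymm (hf.map_le P') ((hf.move P').map_le P)

lemma lFz.lV_le {P : Om K} (hf : lFz H (ow A Φ P) Φ) (P' : Om K) :
    lV H (ow A Φ P) ≤ lV H (ow A Φ P') := fun u hu =>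
  ⟨fun γ => by rw [hf.map_eq P']; exact hu.1 γ, fun h hh e => hu.2 h hh (by
    rw [la_tm_same P' P ((hf.move P').2 h hh 0 (by rw [e, spr_zero])), e])⟩

lemma lFz.lV_eq {P : Om K} (hf : lFz H (ow A Φ P) Φ) (P' : Om K) :
    lV H (ow A Φ P') = lV H (ow A Φ P) :=
  le_antisymm ((hf.move P').lV_le P) (hf.lV_le P')

lemma lA_move {P : Om K} (hy : ∀ a, yv Φ a ∈ lV H (ow A Φ P))
    (h0 : ∀ a b, lA H (ow A Φ P) (yv Φ a) (yv Φ b) = 0) (P' : Om K) {u w : I → ℤ}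
    (hu : u ∈ lV H (ow A Φ P)) (hw : w ∈ lV H (ow A Φ P))
    (h1 : ∀ a, lA H (ow A Φ P) (yv Φ a) u = 0) (h2 : ∀ a, lA H (ow A Φ P) u (yv Φ a) = 0) :
    lA H (ow A Φ P') u w = lA H (ow A Φ P) u w ∧ lA H (ow A Φ P') w u = lA H (ow A Φ P) w u := by
  have hf := lFz_of hy h0
  refine ⟨funext fun γ => ?_, funext fun γ => ?_⟩
  · obtain ⟨h, hh, e⟩ := lV_ex hu γ
    have z : wl h.1 Φ = 0 := by
      funext b
      rw [← ldot_yv, ← lA_eq hh e (hy b), h2]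
      rfl
    rw [lA_eq hh e hw, lA_eq hh ((la_tm_same P P' z).trans e) (hf.lV_le P' hw)]
  · obtain ⟨h, hh, e⟩ := lV_ex hw γ
    obtain ⟨h', hh', e'⟩ := hf.1 (adj P' (wl h.1 Φ) - adj P (wl h.1 Φ))
    have e2 : TM (ow A Φ P') (h - h') = lsc w γ := by
      rw [tm_sub, la_tm_same P P' (hf.2 h' hh' _ e'), e', tm_ow A Φ P P', add_sub_cancel_right, e]
    rw [lA_eq hh e hu, lA_eq (H.sub_mem hh hh') e2 (hf.lV_le P' hu), Prod.fst_sub, ldot_sub_left,
      lA_orth hy hu h1 hh' e', sub_zero]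

variable [Finite Γ]

lemma la_kp (H : AddSubgroup (Pt Γ I)) (A : Om I) (Φ : Lab I K) (P P' : Om K) :
    (H.map (laTM (ow A Φ P'))).index ≤
      Nat.card Γ ^ Nat.card K * (H.map (laTM (ow A Φ P))).index := by
  have h1 := (H.map (laTM (ow A Φ P'))).card_mul_index
  have h2 := (H.map (laTM (ow A Φ P))).card_mul_index
  have h3 : Nat.card (H.map (laTM (ow A Φ P))) ≤
      Nat.card (H.map (laTM (ow A Φ P'))) * Nat.card Γ ^ Nat.card K := by
    rw [← Nat.card_fun, ← Nat.card_prod]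
    have k : ∀ y : H.map (laTM (ow A Φ P)), ∃ z : ↥(H.map (laTM (ow A Φ P'))) × (K → Γ),
        (y : I → Γ) = (z.1 : I → Γ) + spr z.2 Φ := by
      rintro ⟨_, h, hh, rfl⟩
      exact ⟨(⟨_, h, hh, rfl⟩, _), tm_ow A Φ P' P h⟩
    choose z hz using k
    exact Nat.card_le_card_of_injective z fun y y' e => Subtype.ext (by rw [hz y, hz y', e])
  have h4 : 0 < Nat.card (H.map (laTM (ow A Φ P'))) := Nat.card_pos
  refine Nat.le_of_mul_le_mul_left ?_ h4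
  rw [h1, ← h2, ← mul_assoc]
  exact Nat.mul_le_mul_right _ h3

lemma la_ker {C : ℝ} (hC : (Nat.card H : ℝ) ≤ C * DD Γ I) (A : Om I) :
    Nat.card ((laTM A).comp H.subtype).ker ≤ ⌈C⌉₊ * (H.map (laTM A)).index := by
  have h1 := ((laTM A).comp H.subtype).ker.card_mul_index
  rw [AddSubgroup.index_ker, AddMonoidHom.range_comp, AddSubgroup.range_subtype] at h1
  have h2 := (H.map (laTM A)).card_mul_index
  have h4 : 0 < Nat.card (H.map (laTM A)) := Nat.card_pos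
  have h5 : Nat.card H ≤ ⌈C⌉₊ * Nat.card (I → Γ) := by
    have : (Nat.card H : ℝ) ≤ (⌈C⌉₊ : ℝ) * DD Γ I :=
      hC.trans (mul_le_mul_of_nonneg_right (Nat.le_ceil C) (by unfold DD; positivity))
    rw [Nat.card_fun]
    unfold DD at this
    exact_mod_cast this
  refine Nat.le_of_mul_le_mul_right ?_ h4
  rw [h1, mul_assoc, mul_comm (AddSubgroup.index _), h2]
  exact h5

lemma la_idx {C : ℝ} (hC : (Nat.card H : ℝ) ≤ C * DD Γ I) (A : Om I) {r : ℕ}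
    (hr : (H.map (laTM A)).index ≤ r) :
    (lV H A).index ≠ 0 ∧ (lV H A).index ≤ r ^ Nat.card Γ * Nat.card Γ ^ (⌈C⌉₊ * r) := by
  let κ : (I → ℤ) →+ (Γ → (I → Γ) ⧸ H.map (laTM A)) × (((laTM A).comp H.subtype).ker → Γ) :=
    AddMonoidHom.mk' (fun u => (fun γ => QuotientAddGroup.mk (lsc u γ), fun h => ldot h.1.1.1 u))
      fun u u' => Prod.ext (funext fun γ => by simp only [lsc_add]; rfl)
        (funext fun h => ldot_add_right _ _ _)
  have e : lV H A = κ.ker := by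
    ext u
    rw [AddMonoidHom.mem_ker, Prod.ext_iff, funext_iff, funext_iff]
    refine and_congr (forall_congr' fun γ => (QuotientAddGroup.eq_zero_iff _).symm) ?_
    exact ⟨fun k h => k h.1.1 h.1.2 h.2, fun k h hh h0 => k ⟨⟨h, hh⟩, h0⟩⟩
  rw [e, AddSubgroup.index_ker]
  refine ⟨Nat.card_pos.ne', (AddSubgroup.card_le_card_addGroup _).trans ?_⟩
  rw [Nat.card_prod, Nat.card_fun, Nat.card_fun]
  exact Nat.mul_le_mul (Nat.pow_le_pow_left hr _) (Nat.pow_le_pow_right Nat.card_pos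
    ((la_ker hC A).trans (Nat.mul_le_mul_left _ hr)))

end

theorem lalg : LALG := by
  intro Γ _ _ C
  have hJ : 0 < Nat.card Γ := Nat.card_pos
  refine ⟨fun r => Nat.card Γ ^ (r ^ Nat.card Γ * Nat.card Γ ^ (⌈C⌉₊ * r)), fun I _ H hC => ?_⟩
  choose V π hπ using la_proj (I := I) hJ
  have hp := fun A => hπ (lV H A) (la_idx hC A le_rfl).1
  let B : Om I → (I → ℤ) →+ (I → ℤ) →+ (Γ → Γ) × (Γ → Γ) := fun A =>
    AddMonoidHom.mk' (fun u => AddMonoidHom.mk'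
      (fun w => (lA H A (π (lV H A) u) (π (lV H A) w), lA H A (π (lV H A) w) (π (lV H A) u)))
      fun w w' => by
        rw [map_add, lA_add_right, lA_add_left ((hp A).1 _) ((hp A).1 _) ((hp A).1 _)]; rfl)
      fun u u' => AddMonoidHom.ext fun w => by
        show (lA H A (π (lV H A) (u + u')) _, lA H A _ (π (lV H A) (u + u'))) = _
        rw [map_add, lA_add_right, lA_add_left ((hp A).1 _) ((hp A).1 _) ((hp A).1 _)]; rfl
  have hV : ∀ A, ∀ u ∈ V (lV H A), u ∈ lV H A := fun A u hu => by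
    obtain ⟨x, e⟩ := (hp A).2.2.2 u hu
    have := (lV H A).add_mem ((hp A).1 u) (lV_card H A x)
    rwa [e, sub_add_cancel] at this
  have hB : ∀ A, ∀ u ∈ V (lV H A), ∀ w ∈ V (lV H A), B A u w = (lA H A u w, lA H A w u) :=
    fun A u hu w hw => by
      obtain ⟨x, e⟩ := (hp A).2.2.2 u hu
      obtain ⟨x', e'⟩ := (hp A).2.2.2 w hw
      show (lA H A (π (lV H A) u) (π (lV H A) w), lA H A (π (lV H A) w) (π (lV H A) u)) = _
      rw [e, e', lA_sub_card, lA_sub_card]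
  let L : LD I ((Γ → Γ) × (Γ → Γ)) := ⟨fun A => (H.map (laTM A)).index, fun A => V (lV H A), B⟩
  have hF : ∀ (K : Type) (Φ : Lab I K) (A : Om I), L.Fp A Φ →
      (∀ a, yv Φ a ∈ lV H A) ∧ ∀ a b, lA H A (yv Φ a) (yv Φ b) = 0 := fun K Φ A h =>
    ⟨fun a => hV A _ (h.1 a), fun a b =>
      congrArg Prod.fst ((hB A _ (h.1 a) _ (h.1 b)).symm.trans (h.2 a b))⟩
  refine ⟨L, ⟨fun A => (hp A).2.1, fun A r hr => ?_, fun K _ Φ A P P' => la_kp H A Φ P P',
    fun K _ Φ A P P' h => ?_⟩, fun K _ Φ A P h g hg ⟨t, e⟩ => ?_, fun A => ?_⟩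
  · exact (hp A).2.2.1.trans (Nat.pow_le_pow_right hJ (la_idx hC A hr).2)
  · obtain ⟨hy, h0⟩ := hF K Φ _ h
    have hf := lFz_of hy h0
    have e : V (lV H (ow A Φ P')) = V (lV H (ow A Φ P)) := by rw [hf.lV_eq P']
    refine ⟨congrArg AddSubgroup.index (hf.map_eq P'), e, fun u hu h1 w hw => ?_⟩
    have h2 := fun a => (hB _ _ (h.1 a) _ hu).symm.trans (h1 a)
    obtain ⟨k1, k2⟩ := lA_move hy h0 P' (hV _ u hu) (hV _ w hw)
      (fun a => congrArg Prod.fst (h2 a)) fun a => congrArg Prod.snd (h2 a)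
    have hu' : u ∈ V (lV H (ow A Φ P')) := e ▸ hu
    have hw' : w ∈ V (lV H (ow A Φ P')) := e ▸ hw
    show B _ u w = B _ u w ∧ B _ w u = B _ w u
    rw [hB _ u hu' w hw', hB _ w hw' u hu', hB _ u hu w hw, hB _ w hw u hu, k1, k2]
    exact ⟨rfl, rfl⟩
  · obtain ⟨hy, h0⟩ := hF K Φ _ h
    exact ((lFz_of hy h0).move 0).2 g hg t e
  · have := (H.map (laTM A)).card_mul_index
    rw [Nat.card_fun] at this
    rw [SD.cnt_eq_card]
    unfold DD
    exact_mod_cast this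

end NE
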