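import Pool.Agent.Lib.MP_ecee09_co.NE.Stmts4
import Pool.Agent.Lib.MP_ecee09_co.NE.Part4

/-! From the lattice freeze to the vanishing of the labels of a subgroup of particles. -/

namespace NE

open SD

section
variable {Γ I K : Type} [AddCommGroup Γ] [Finite I] [Finite K]

/-- on a frozen cell the present members of `H` share their block sums -/
lemma lz_share (ε : Γ) (H : AddSubgroup (Pt Γ I)) (x : OmE Γ I) (Φ : Lab I K) :
    ∃ w : K → Γ, Frz H x.2 Φ → ∀ p ∈ H, ∀ y, rs ε p (cell x Φ y) = 0 → wl p.1 Φ = w := by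
  by_cases h : ∃ p0 ∈ H, ∃ y0, rs ε p0 (cell x Φ y0) = 0
  · obtain ⟨p0, hp0, y0, h0⟩ := h
    refine ⟨wl p0.1 Φ, fun hF p hp y h1 => ?_⟩
    obtain ⟨q0, s0, -⟩ := present_iff.1 h0
    obtain ⟨q, s, -⟩ := present_iff.1 h1
    have := hF (p - p0) (H.sub_mem hp hp0) ⟨q.2 - q0.2, by
      rw [spr_sub, ← s.2, ← s0.2, rs_sub_rs]; rfl⟩
    rwa [Prod.fst_sub, wl_sub, sub_eq_zero] at this
  · exact ⟨0, fun _ p hp y h1 => absurd ⟨p, hp, y, h1⟩ h⟩

variable [Finite Γ]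

omit [Finite K] in
lemma lz_present (ε : Γ) (H : Set (Pt Γ I)) (A : Om I) :
    (av fun b : I → Γ => ind (∃ p ∈ H, rs ε p (b, A) = 0)) = cnt (TM A '' H) / DD Γ I := by
  rw [DD_eq, cnt, ← av_def, ← av_equiv ((Equiv.addRight fun i => (A s(i, i)).val • ε).trans
    (Equiv.neg _)) fun u => ind (u ∈ TM A '' H)]
  refine av_congr fun b => ind_congr (exists_congr fun p => and_congr_right fun _ => ?_)
  rw [rs_eq_TM, add_eq_zero_iff_eq_neg]; rfl

lemma lz_high (ε : Γ) (H : AddSubgroup (Pt Γ I)) {R : ℕ} (hR : 0 < R) (M : Om I) (Φ : Lab I K) :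
    (av fun b : I → Γ => ind (High H R M Φ) *
      av fun y : OmE Γ K => ind (∃ p ∈ H, rs ε p (cell (b, M) Φ y) = 0)) ≤ 1 / R := by
  have hR' : (0 : ℝ) < R := by exact_mod_cast hR
  rw [av_mul_left]
  by_cases h : High H R M Φ
  · rw [ind_pos h, one_mul, Fam.fc_shift M Φ fun x => ind (∃ p ∈ H, rs ε p x = 0)]
    refine av_le_const fun P => (lz_present ε (H : Set (Pt Γ I)) _).trans_le ?_
    rw [div_le_div_iff₀ DD_pos hR', one_mul]
    exact h P
  · rw [ind_neg h, zero_mul]; positivity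

end

theorem lz_of (hLF : LF) (hZS : ZS) : LZ := by
  intro Γ _ _ ε C K _ η hη
  obtain ⟨k, hk⟩ := hZS Γ K (η / 3) (by positivity)
  obtain ⟨R, hR⟩ := exists_nat_gt (3 / η)
  have hR0 : (0 : ℝ) < R := lt_trans (by positivity) hR
  have hR1 : 1 / (R : ℝ) ≤ η / 3 := by
    rw [div_lt_iff₀ hη] at hR
    rw [div_le_div_iff₀ hR0 (by norm_num)]; linarith
  obtain ⟨n0, hn0⟩ := hLF Γ C (Fin k) R (η / 3) (by positivity)
  refine ⟨n0, fun I _ hn H hH => ?_⟩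
  obtain ⟨A0, hA0⟩ := hn0 I hn H hH
  obtain ⟨A1, e1, j1⟩ := A0.olift (E := Γ)
  choose w hw using fun (x : OmE Γ I) (Φ : Lab I (Fin k)) => lz_share ε H x Φ
  have hS : ∀ v : Fin k → Γ, ∃ S : GFam Γ (Fin k) K, S.junk ≤ η / 3 ∧
      (S.E fun _ Ψ => ind (wl v Ψ ≠ 0)) ≤ η / 3 := fun v => by
    obtain ⟨Z, z1, z2⟩ := hk (Fin k) (by simp) v
    obtain ⟨S, s1, s2⟩ := Z.olift (E := Γ)
    exact ⟨S, s2.trans_le z1, by rw [s1]; simpa only [av_const] using z2⟩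
  choose S hS1 hS2 using hS
  obtain ⟨A', e2, j2⟩ := A1.gcomp fun x Φ => S (w x Φ)
  refine ⟨A', j2.trans ?_, ?_⟩
  · have h1 : A0.junk ≤ η / 3 := le_trans (A0.mono fun M Φ => ind_mono fun h => mt And.left h) hA0
    linarith [A1.le_const fun x Φ => hS1 (w x Φ)]
  rw [e2]
  simp only [cell_lcomp, wl_lcomp]
  have key := A1.mono (f := fun x Φ => (S (w x Φ)).E fun y Ψ => av fun z : OmE Γ K =>
      ind (∃ p ∈ H, rs ε p (cell x Φ (cell y Ψ z)) = 0 ∧ wl (wl p.1 Φ) Ψ ≠ 0))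
    (g := fun x Φ => ind (¬ (Good Φ ∧ (Frz H x.2 Φ ∨ High H R x.2 Φ))) + η / 3 +
      ind (High H R x.2 Φ) * av fun y : OmE Γ (Fin k) => ind (∃ p ∈ H, rs ε p (cell x Φ y) = 0))
    fun x Φ => by
      have t1 := ind_nonneg (¬ (Good Φ ∧ (Frz H x.2 Φ ∨ High H R x.2 Φ)))
      have t2 : 0 ≤ ind (High H R x.2 Φ) * av fun y : OmE Γ (Fin k) =>
          ind (∃ p ∈ H, rs ε p (cell x Φ y) = 0) := mul_nonneg (ind_nonneg _) (av_ind_nonneg _)
      by_cases hF : Frz H x.2 Φ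
      · refine le_trans ((S (w x Φ)).mono fun y Ψ => av_le_const fun z => ind_mono ?_)
          ((hS2 (w x Φ)).trans (by linarith))
        rintro ⟨p, hp, h1, h2⟩
        rwa [hw x Φ hF p hp _ h1] at h2
      · by_cases hH : High H R x.2 Φ
        · rw [ind_pos hH, one_mul,
            ← (S (w x Φ)).marg fun y => ind (∃ p ∈ H, rs ε p (cell x Φ y) = 0)]
          refine le_trans ((S (w x Φ)).mono fun y Ψ => av_mono fun z => ind_mono ?_)
            (le_add_of_nonneg_left (by positivity))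
          exact fun ⟨p, hp, h1, _⟩ => ⟨p, hp, h1⟩
        · rw [ind_pos (p := ¬ (Good Φ ∧ (Frz H x.2 Φ ∨ High H R x.2 Φ))) fun h => h.2.elim hF hH]
          refine ((S (w x Φ)).le_const fun y Ψ => av_ind_le_one _).trans (by linarith)
  refine key.trans ?_
  rw [A1.add, A1.add, A1.const, e1, e1]
  simp only [av_const]
  have h3 := A0.le_const fun M Φ => lz_high ε H (by exact_mod_cast hR0 : 0 < R) M Φ
  linarith

theorem lf_of (h1 : LALG) (h2 : ALF) : LF := by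
  intro Γ _ _ C K _ R0 η hη
  obtain ⟨Cf, hCf⟩ := h1 Γ C
  obtain ⟨n0, hn0⟩ := h2 ((Γ → Γ) × (Γ → Γ)) (Nat.card Γ) Cf Nat.card_pos
    (fun e => Prod.ext (funext fun _ => card_nsmul_eq_zero') (funext fun _ => card_nsmul_eq_zero'))
    K R0 η hη
  refine ⟨n0, fun I _ hn H hH => ?_⟩
  obtain ⟨L, l1, l2, l3⟩ := hCf I H hH
  obtain ⟨A, hA⟩ := hn0 I hn L l1
  refine ⟨A, le_trans (A.mono fun M Φ => ind_mono (mt fun h' => ⟨h'.1, ?_⟩)) hA⟩
  refine h'.2.imp (fun ⟨P, hP⟩ => l2 K Φ M P hP) fun hk P => ?_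
  rw [← l3 (ow M Φ P)]
  exact mul_le_mul_of_nonneg_left (by exact_mod_cast hk P) (cnt_nonneg _)

end NE
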