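import Pool.Agent.Lib.MP_ecee09_co.NE.Stmts4
import Pool.Agent.Lib.MP_ecee09_co.NE.Dual

/-! Moving along a frozen cell. -/

namespace NE

open SD

/-- two random elements of `Z` are close in total variation -/
def MvCl {X Y Z : Type} (f : X → Z) (f' : Y → Z) (δ : ℝ) : Prop :=
  ∀ g : Z → ℝ, (∀ z, |g z| ≤ 1) → |(av fun x => g (f x)) - av fun y => g (f' y)| ≤ δ

section close
variable {X Y Z X' Y' Z' : Type} [Finite X] [Finite Y] [Finite X'] [Finite Y']

theorem mv_abs_av {g : X → ℝ} (h : ∀ x, |g x| ≤ 1) : |av g| ≤ 1 :=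
  (abs_av_le g).trans ((av_mono h).trans av_one_le)

theorem mv_abs_sub {f g : X → ℝ} {c : ℝ} (hc : 0 ≤ c) (h : ∀ x, |f x - g x| ≤ c) :
    |av f - av g| ≤ c := by
  rw [← av_sub]
  refine (abs_av_le _).trans ((av_mono h).trans ?_)
  have := av_mul_left c fun _ : X => (1 : ℝ)
  simp only [mul_one] at this
  rw [this]
  exact mul_le_of_le_one_right hc av_one_le

theorem MvCl.prod {f : X → Z} {f' : Y → Z} {h : X' → Z'} {h' : Y' → Z'} {δ δ' : ℝ}
    (H : MvCl f f' δ) (H' : MvCl h h' δ') :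
    MvCl (Prod.map f h) (Prod.map f' h') (δ + δ') := by
  intro g hg
  have h0 : 0 ≤ δ' := (abs_nonneg _).trans (H' (fun _ => 0) (by simp))
  rw [av_prod, av_prod]
  simp only [Prod.map]
  have h1 := mv_abs_sub (X := X) h0 fun x => H' (fun z => g (f x, z)) fun z => hg _
  have h2 := H (fun z => av fun y => g (z, h' y)) fun z => mv_abs_av fun y => hg _
  rw [abs_le] at h1 h2 ⊢
  constructor <;> linarith [h1.1, h1.2, h2.1, h2.2]

omit [Finite X] [Finite Y] in
theorem MvCl.comp {f : X → Z} {f' : Y → Z} {δ : ℝ} (H : MvCl f f' δ) (u : Z → Z') :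
    MvCl (fun x => u (f x)) (fun y => u (f' y)) δ :=
  fun g hg => H (fun z => g (u z)) fun _ => hg _

theorem MvCl.pi {f : X → Z} {f' : Y → Z} {δ : ℝ} (H : MvCl f f' δ) (t : ℕ) :
    MvCl (fun (x : Fin t → X) a => f (x a)) (fun (y : Fin t → Y) a => f' (y a)) (t * δ) := by
  induction t with
  | zero =>
    intro g _
    have e1 : (fun x : Fin 0 → X => g fun a => f (x a)) = fun _ => g Fin.elim0 :=
      funext fun _ => congrArg g (Subsingleton.elim _ _)
    have e2 : (fun y : Fin 0 → Y => g fun a => f' (y a)) = fun _ => g Fin.elim0 :=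
      funext fun _ => congrArg g (Subsingleton.elim _ _)
    rw [e1, e2, av_const, av_const]
    simp
  | succ t ih =>
    intro g hg
    have h := (H.prod ih).comp (fun z : Z × (Fin t → Z) => (Fin.cons z.1 z.2 : Fin (t + 1) → Z))
      g hg
    rw [← av_equiv (Fin.consEquiv fun _ => X), ← av_equiv (Fin.consEquiv fun _ => Y)]
    have e1 : ∀ x : X × (Fin t → X), (fun a => f (Fin.consEquiv (fun _ => X) x a)) =
        Fin.cons (f x.1) fun a => f (x.2 a) := fun x => funext fun a => by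
      refine Fin.cases ?_ (fun a => ?_) a <;> simp [Fin.consEquiv]
    have e2 : ∀ y : Y × (Fin t → Y), (fun a => f' (Fin.consEquiv (fun _ => Y) y a)) =
        Fin.cons (f' y.1) fun a => f' (y.2 a) := fun y => funext fun a => by
      refine Fin.cases ?_ (fun a => ?_) a <;> simp [Fin.consEquiv]
    simp only [e1, e2]
    push_cast
    rw [add_mul, one_mul, add_comm _ δ]
    exact h

theorem mv_sub {p q : X → Prop} {U : Set X} (h : ∀ x, x ∉ U → (p x ↔ q x))
    (hp : 0 < Nat.card {x // p x}) :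
    MvCl (fun x : {x // p x} => (x : X)) (fun x : {x // q x} => (x : X))
      (2 * U.ncard / Nat.card {x // p x}) := by
  intro g hg
  have key : ∀ u : X → ℝ, (∀ x, |u x| ≤ 1) →
      |(sm fun x : {x // p x} => u x) - sm fun x : {x // q x} => u x| ≤ U.ncard := by
    intro u hu
    rw [sm_subtype, sm_subtype, ← sm_sub, ← cnt_eq_ncard]
    refine (abs_sm_le _).trans (sm_mono fun x => ?_)
    by_cases hx : x ∈ U
    · rw [ind_pos hx]
      have := hu x
      by_cases h1 : p x <;> by_cases h2 : q x <;> simp [ind, h1, h2, this]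
    · rw [ind_congr (h x hx), sub_self, abs_zero]
      exact ind_nonneg _
  have k1 := key g hg
  have k2 := key (fun _ => 1) (by simp)
  rw [sm_const, sm_const, mul_one, mul_one] at k2
  have k3 : |av fun x : {x // q x} => g x| ≤ 1 := mv_abs_av fun x => hg _
  have k4 : (sm fun x : {x // q x} => g x) =
      Nat.card {x // q x} * av fun x : {x // q x} => g x := by
    cases isEmpty_or_nonempty {x // q x} with
    | inl _ => simp [sm, finsum_of_isEmpty]
    | inr _ => exact sm_eq_card_mul_av _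
  have ha : (0 : ℝ) < Nat.card {x // p x} := by exact_mod_cast hp
  rw [k4] at k1
  rw [av_def fun x : {x // p x} => g x, le_div_iff₀ ha]
  generalize (sm fun x : {x // p x} => g x) = S at *
  generalize (av fun x : {x // q x} => g x) = v at *
  generalize (Nat.card {x // p x} : ℝ) = a at *
  generalize (Nat.card {x // q x} : ℝ) = b at *
  have e : |S / a - v| * a = |(S - b * v) - (a - b) * v| := by
    rw [← abs_of_pos ha, ← abs_mul, abs_of_pos ha]
    congr 1
    field_simp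
    ring
  rw [e]
  refine (abs_sub _ _).trans ?_
  rw [abs_mul]
  nlinarith [abs_nonneg (a - b), abs_nonneg v]

theorem mv_pos {G : Type} [AddCommGroup G] (V : AddSubgroup G) (s : X → G) (χ : G →+ TT) :
    0 ≤ av fun κ : X × X => ind (s κ.1 - s κ.2 ∈ V) * (ee (χ (s κ.1 - s κ.2))).re := by
  let m : X → G ⧸ V := fun x => QuotientAddGroup.mk (s x)
  have : Finite (Set.range m) := (Set.finite_range m).to_subtype
  let c : X → Set.range m := fun x => ⟨m x, x, rfl⟩
  have hc : ∀ x y, ind (s x - s y ∈ V) = sm fun z => ind (c x = z) * ind (c y = z) := by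
    intro x y
    rw [sm_ind_eq' (c x) fun z => ind (c y = z)]
    refine ind_congr ?_
    rw [Subtype.ext_iff, eq_comm]
    exact QuotientAddGroup.eq_iff_sub_mem.symm
  rw [av_def, sm_prod]
  refine div_nonneg ?_ (Nat.cast_nonneg _)
  simp only [hc, map_sub, ee_sub, ← sm_mul_right]
  have e : ∀ z, (sm fun x => sm fun y =>
      ind (c x = z) * ind (c y = z) * (ee (χ (s x)) * (starRingEnd ℂ) (ee (χ (s y)))).re) =
      (sm fun x => ind (c x = z) * (ee (χ (s x))).re) ^ 2 +
        (sm fun x => ind (c x = z) * (ee (χ (s x))).im) ^ 2 := by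
    intro z
    rw [sq, sq, sm_mul_sm, sm_mul_sm, ← sm_add]
    refine sm_congr fun x => ?_
    rw [← sm_add]
    refine sm_congr fun y => ?_
    simp only [Complex.mul_re, Complex.conj_re, Complex.conj_im]
    ring
  rw [sm_congr fun x => sm_comm _, sm_comm]
  refine sm_nonneg fun z => ?_
  rw [e]
  positivity

end close

section lat
variable {I K EE : Type} [AddCommGroup EE] [Finite I]

theorem mv_abs_re (x : TT) : |(ee x).re| ≤ 1 := (Complex.abs_re_le_norm _).trans (norm_ee x).le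

theorem mv_abs_ind_mul (p : Prop) {x : ℝ} (h : |x| ≤ 1) : |ind p * x| ≤ 1 := by
  rw [abs_mul, abs_ind]
  exact mul_le_one₀ (ind_le_one p) (abs_nonneg _) h

theorem mv_df_pos (A : Om I) (e : F) (t : ℕ) (V : AddSubgroup (I → ℤ)) (χ : (I → ℤ) →+ TT) :
    0 ≤ av fun κ : (Fin t → Lp A e) × (Fin t → Lp A e) =>
      ind (df κ ∈ V) * (ee (χ (df κ))).re :=
  mv_pos V (fun κ : Fin t → Lp A e => smp fun a => (κ a : I)) χ

theorem mv_bet_nonneg (L : LD I EE) (A : Om I) (l : Ch EE) (e : F) (t : ℕ) (y : I → ℤ) :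
    0 ≤ L.bet A l e t y := mv_df_pos A e t (L.V A) (l.comp (L.B A y))

theorem mv_bet_abs (L : LD I EE) (A : Om I) (l : Ch EE) (e : F) (t : ℕ) (y : I → ℤ) :
    |L.bet A l e t y| ≤ 1 := mv_abs_av fun _ => mv_abs_ind_mul _ (mv_abs_re _)

theorem mv_df_cl (Φ : Lab I K) (A : Om I) (P P' : Om K) (e : F) (t : ℕ)
    (h : 0 < Nat.card (Lp (ow A Φ P) e)) :
    MvCl (df : (Fin t → Lp (ow A Φ P) e) × (Fin t → Lp (ow A Φ P) e) → I → ℤ)
      (df : (Fin t → Lp (ow A Φ P') e) × (Fin t → Lp (ow A Φ P') e) → I → ℤ)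
      (2 * t * (2 * {i | Φ i ≠ none}.ncard / Nat.card (Lp (ow A Φ P) e))) := by
  have h1 := (mv_sub (p := fun i => ow A Φ P s(i, i) = e) (q := fun i => ow A Φ P' s(i, i) = e)
    (U := {i | Φ i ≠ none}) (fun i hi => by
      have : Φ i = none := by simpa using hi
      simp [ow, lab2, this]) h).pi t
  have h2 := (h1.prod h1).comp fun z => smp z.1 - smp z.2
  rw [mul_assoc, two_mul]
  exact h2

/-- restriction to the orthogonal of finitely many vectors -/
theorem mv_restrict [Finite EE] [Finite K] (L : LD I EE) (A : Om I) (y : K → I → ℤ) (l : Ch EE)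
    (e e' : F) (t t' : ℕ) :
    L.bb A l e e' t t' ≤ (Nat.card EE : ℝ) ^ Nat.card K *
      av fun κ : (Fin t → Lp A e) × (Fin t → Lp A e) =>
        ind (df κ ∈ L.V A ∧ ∀ a, L.B A (y a) (df κ) = 0) * L.bet A l e' t' (df κ) := by
  let _ := Fintype.ofFinite K
  let χ : (K → Ch EE) → (I → ℤ) →+ TT := fun m => ∑ a, (m a).comp (L.B A (y a))
  let T : (K → Ch EE) → ℝ := fun m => av fun κ : (Fin t → Lp A e) × (Fin t → Lp A e) =>
    ind (df κ ∈ L.V A) * (ee (χ m (df κ))).re * L.bet A l e' t' (df κ)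
  have h1 : ∀ w, ind (∀ a, L.B A (y a) w = 0) = av fun m => (ee (χ m w)).re := by
    intro w
    have := congrArg Complex.re (cav_ch_pi fun a => L.B A (y a) w)
    rw [cav_re, Complex.ofReal_re, ind_congr funext_iff] at this
    refine this.symm.trans (av_congr fun m => ?_)
    simp [χ, finsum_eq_sum_of_fintype, AddMonoidHom.finsetSum_apply]
  have h2 : ∀ m, 0 ≤ T m := by
    intro m
    simp only [T, LD.bet, ← av_mul_left]
    rw [av_comm]
    refine av_nonneg fun κ' => ?_
    have a1 := mv_df_pos A e t (L.V A) (χ m + l.comp ((L.B A).flip (df κ')))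
    have a2 := mv_df_pos A e t (L.V A) (χ m - l.comp ((L.B A).flip (df κ')))
    have a3 := mul_nonneg (ind_nonneg (df κ' ∈ L.V A)) (div_nonneg (add_nonneg a1 a2) zero_le_two)
    rw [← av_add, ← av_div, ← av_mul_left] at a3
    refine a3.trans_eq (av_congr fun κ => ?_)
    simp only [AddMonoidHom.add_apply, AddMonoidHom.sub_apply, AddMonoidHom.comp_apply,
      AddMonoidHom.flip_apply, ee_add, ee_sub, Complex.mul_re, Complex.conj_re, Complex.conj_im]
    ring
  have h3 : T 0 = L.bb A l e e' t t' := av_congr fun κ => by simp [χ]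
  have h4 : (av fun κ : (Fin t → Lp A e) × (Fin t → Lp A e) =>
      ind (df κ ∈ L.V A ∧ ∀ a, L.B A (y a) (df κ) = 0) * L.bet A l e' t' (df κ)) = av T := by
    simp only [T]
    rw [av_comm]
    refine av_congr fun κ => ?_
    rw [ind_and, h1, av_mul_right, av_mul_left]
  rw [h4, ← h3]
  refine (single_le_sm h2 0).trans_eq ?_
  rw [sm_eq_card_mul_av, Nat.card_fun, card_ch]
  push_cast
  rfl

end lat

theorem move : MOVE := by
  intro EE _ _ J Cf _ B T ε hε
  have hE : (1 : ℝ) ≤ Nat.card EE := by exact_mod_cast Nat.card_pos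
  have hS : (1 : ℝ) ≤ (Nat.card EE : ℝ) ^ B := one_le_pow₀ hE
  obtain ⟨n0, hn0⟩ := exists_nat_gt ((Nat.card EE : ℝ) ^ B * (32 * T * B) / ε)
  refine ⟨n0 + 1, fun I _ hI L hL K _ Φ A P P' hB hb hF l e e' t t' ht ht' => ?_⟩
  obtain ⟨-, hV, hinv⟩ := hL.inv K Φ A P P' hF
  have hpos : ∀ e, 0 < Nat.card (Lp (ow A Φ P) e) := fun e => by have := hb e; omega
  obtain ⟨δ, hδ0, hδ, hcl⟩ : ∃ δ : ℝ, 0 ≤ δ ∧ (Nat.card EE : ℝ) ^ B * (2 * δ) ≤ ε ∧
      ∀ (e : F) (t : ℕ), t ≤ T →
      MvCl (df : (Fin t → Lp (ow A Φ P) e) × (Fin t → Lp (ow A Φ P) e) → I → ℤ)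
        (df : (Fin t → Lp (ow A Φ P') e) × (Fin t → Lp (ow A Φ P') e) → I → ℤ) δ := by
    have hn : (0 : ℝ) < Nat.card I := by exact_mod_cast (by omega : 0 < Nat.card I)
    refine ⟨16 * T * B / Nat.card I, by positivity, ?_, fun e t ht g hg =>
      (mv_df_cl Φ A P P' e t (hpos e) g hg).trans ?_⟩
    · rw [div_lt_iff₀ hε] at hn0
      have : (n0 : ℝ) ≤ Nat.card I := by exact_mod_cast (by omega : n0 ≤ Nat.card I)
      rw [← mul_div_assoc, ← mul_div_assoc, div_le_iff₀ hn]
      nlinarith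
    · have h1 : (0 : ℝ) < Nat.card (Lp (ow A Φ P) e) := by exact_mod_cast hpos e
      have h2 : (Nat.card I : ℝ) ≤ 4 * Nat.card (Lp (ow A Φ P) e) := by exact_mod_cast hb e
      have h3 : ({i | Φ i ≠ none}.ncard : ℝ) ≤ B := by exact_mod_cast hB
      have h4 : (t : ℝ) ≤ T := by exact_mod_cast ht
      rw [← mul_div_assoc, div_le_div_iff₀ h1 hn]
      calc 2 * t * (2 * ({i | Φ i ≠ none}.ncard : ℝ)) * Nat.card I
          ≤ 2 * T * (2 * B) * (4 * Nat.card (Lp (ow A Φ P) e)) := by gcongr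
        _ = _ := by ring
  have part1 : ∀ (e : F) (t : ℕ), t ≤ T → ∀ y ∈ L.V (ow A Φ P),
      (∀ a, L.B (ow A Φ P) (yv Φ a) y = 0) →
      |L.bet (ow A Φ P') l e t y - L.bet (ow A Φ P) l e t y| ≤ δ := by
    intro e t ht y hy hy'
    have h := hcl e t ht
      (fun w => ind (w ∈ L.V (ow A Φ P)) * (ee (l (L.B (ow A Φ P) y w))).re)
      fun w => mv_abs_ind_mul _ (mv_abs_re _)
    rw [abs_sub_comm] at h
    refine le_of_eq_of_le (congrArg (fun x => |x - _|) (av_congr fun κ => ?_)) h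
    rw [hV]
    by_cases hw : df κ ∈ L.V (ow A Φ P)
    · rw [(hinv y hy hy' _ hw).1]
    · rw [ind_neg hw, zero_mul, zero_mul]
  refine ⟨fun y hy hy' => (part1 e t ht y hy hy').trans (by nlinarith), ?_⟩
  let K' := {a : K // ∃ i, Φ i = some a}
  have hK : Nat.card K' ≤ Nat.card K := Finite.card_subtype_le _
  have hK' : Nat.card K' ≤ B := by
    refine le_trans ?_ hB
    rw [← Nat.card_coe_set_eq]
    refine Nat.card_le_card_of_injective
      (fun a : K' => (⟨a.2.choose, by simp [a.2.choose_spec]⟩ : {i | Φ i ≠ none})) ?_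
    intro a b hab
    have h := congrArg (fun i : {i | Φ i ≠ none} => Φ i) hab
    simp only [a.2.choose_spec, b.2.choose_spec, Option.some.injEq] at h
    exact Subtype.ext h
  have r1 := mv_restrict L (ow A Φ P) (fun a : K' => yv Φ a) l e e' t t'
  have r2 := hcl e t ht (fun w => ind (w ∈ L.V (ow A Φ P) ∧
    ∀ a : K', L.B (ow A Φ P) (yv Φ a) w = 0) * L.bet (ow A Φ P) l e' t' w)
    fun w => mv_abs_ind_mul _ (mv_bet_abs ..)
  have r3 : (av fun κ : (Fin t → Lp (ow A Φ P') e) × (Fin t → Lp (ow A Φ P') e) =>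
      ind (df κ ∈ L.V (ow A Φ P) ∧ ∀ a : K', L.B (ow A Φ P) (yv Φ a) (df κ) = 0) *
        L.bet (ow A Φ P) l e' t' (df κ)) ≤ L.bb (ow A Φ P') l e e' t t' + δ := by
    have a1 : (av fun _ : (Fin t → Lp (ow A Φ P') e) × (Fin t → Lp (ow A Φ P') e) => δ) ≤ δ := by
      have := av_mul_left δ
        fun _ : (Fin t → Lp (ow A Φ P') e) × (Fin t → Lp (ow A Φ P') e) => (1 : ℝ)
      simp only [mul_one] at this
      rw [this]
      exact mul_le_of_le_one_right hδ0 av_one_le
    refine le_trans ?_ (add_le_add_right a1 _)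
    rw [LD.bb, ← av_add]
    refine av_mono fun κ => ?_
    have b0 := mv_bet_nonneg L (ow A Φ P') l e' t' (df κ)
    by_cases hw : df κ ∈ L.V (ow A Φ P) ∧ ∀ a : K', L.B (ow A Φ P) (yv Φ a) (df κ) = 0
    · have b1 := part1 e' t' ht' _ hw.1 fun a => by
        by_cases ha : ∃ i, Φ i = some a
        · exact hw.2 ⟨a, ha⟩
        · have : yv Φ a = 0 := funext fun i => if_neg fun h => ha ⟨i, h⟩
          simp [this]
      rw [ind_pos hw, hV, ind_pos hw.1]
      linarith [(abs_le.1 b1).1]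
    · rw [ind_neg hw, zero_mul]
      exact add_nonneg (mul_nonneg (ind_nonneg _) b0) hδ0
  have r4 : 0 ≤ L.bb (ow A Φ P') l e e' t t' :=
    av_nonneg fun κ => mul_nonneg (ind_nonneg _) (mv_bet_nonneg ..)
  have s1 : (Nat.card EE : ℝ) ^ Nat.card K' ≤ (Nat.card EE : ℝ) ^ Nat.card K :=
    pow_le_pow_right₀ hE hK
  have s2 : (Nat.card EE : ℝ) ^ Nat.card K' ≤ (Nat.card EE : ℝ) ^ B := pow_le_pow_right₀ hE hK'
  have s0 : (0 : ℝ) ≤ (Nat.card EE : ℝ) ^ Nat.card K' := by positivity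
  calc _ ≤ _ := r1
    _ ≤ (Nat.card EE : ℝ) ^ Nat.card K' * (L.bb (ow A Φ P') l e e' t t' + 2 * δ) :=
        mul_le_mul_of_nonneg_left (by linarith [(abs_le.1 r2).2]) s0
    _ ≤ _ := by
        rw [mul_add]
        exact add_le_add (mul_le_mul_of_nonneg_right s1 r4)
          ((mul_le_mul_of_nonneg_right s2 (by positivity)).trans hδ)

end NE
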