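import Pool.Agent.Lib.MP_ecee09_co.NE.Stmts4
import Pool.Agent.Lib.MP_ecee09_co.NE.W0
import Pool.Agent.Lib.MP_ecee09_co.NE.LSc

/-! A form is not low for one loop type and high for the other. -/

namespace NE

open SD

lemma one_qr_mono {I : Type} {u u' : ℕ} {γ γ' : ℝ} {A : Om I} (h : QR u γ A) (hu : u' ≤ u)
    (hγ : γ ≤ γ') : QR u' γ' A :=
  ⟨h.bal, fun U _ hU π g hg => (h.prd U (hU.trans hu) π g hg).trans hγ,
    fun U _ hU R π π' h1 f h2 h3 => (h.uni U (hU.trans hu) R π π' h1 f h2 h3).trans hγ⟩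

lemma one_fp {I K EE : Type} [Finite K] [AddCommGroup EE] {L : LD I EE} {J : ℕ} {Cf : ℕ → ℕ}
    (h : L.Ok J Cf) {A : Om I} {Φ : Lab I K} {P : Om K} (hF : L.Fp (ow A Φ P) Φ) (P' : Om K) :
    L.Fp (ow A Φ P') Φ := by
  obtain ⟨-, hV, hB⟩ := h.inv K Φ A P P' hF
  refine ⟨fun a => hV ▸ hF.1 a, fun a b => ?_⟩
  rw [(hB _ (hF.1 a) (fun c => hF.2 c a) _ (hF.1 b)).1, hF.2]

lemma one_av_le {α : Type} [Finite α] {f : α → ℝ} {c : ℝ} (hc : 0 ≤ c) (h : ∀ x, f x ≤ c) :
    av f ≤ c := by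
  have := av_mono (f := f) (g := fun _ => c * 1) fun x => by simpa using h x
  rw [av_mul_left] at this
  exact this.trans (mul_le_of_le_one_right hc av_one_le)

/-- the flip of a block -/
lemma one_flip {I K O : Type} [Finite I] [Finite O] (Φ : O → Lab I K) (P P' : Om K) {B : ℕ}
    (hB : ∀ o, {i | Φ o i ≠ none}.ncard ≤ B) (G Q H : Om I → Prop) (E : Om I → O → Prop)
    (w : Om I → O → ℝ) {c d β : ℝ} (hd : 0 < d) (hβ : 0 ≤ β) (hw : ∀ A o, 0 ≤ w A o)
    (h1 : ∀ A, G A → c ≤ av fun o => dens (bl (Φ o) (ful P)) A * ind (E A o))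
    (h2 : ∀ A, H A → (av fun o => dens (bl (Φ o) (ful P')) A * w A o) ≤ β)
    (h3 : ∀ A o, G (ow A (Φ o) P) → E (ow A (Φ o) P) o → Q (ow A (Φ o) P') →
      H (ow A (Φ o) P') ∧ d ≤ w (ow A (Φ o) P') o) :
    c * av (fun A => ind (G A)) ≤ 2 ^ B ^ 2 * av (fun A => ind (¬ Q A)) + β / d := by
  let W : Om I → O → ℝ := fun A o => ind (¬ Q A) + ind (H A) / d * w A o
  calc c * av (fun A => ind (G A))
      ≤ av fun A => av fun o => dens (bl (Φ o) (ful P)) A * (ind (G A) * ind (E A o)) := by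
        rw [← av_mul_left]
        refine av_mono fun A => ?_
        by_cases h : G A
        · simpa only [ind_pos h, mul_one, one_mul] using h1 A h
        · simp [ind_neg h, av_zero]
    _ = av fun o => av fun A => ind (G (ow A (Φ o) P)) * ind (E (ow A (Φ o) P) o) := by
        rw [av_comm]
        refine av_congr fun o => ?_
        rw [av_dens _ fun A => ind (G A) * ind (E A o)]
        simp only [ow_eq_ovr]
    _ ≤ av fun o => av fun A => W (ow A (Φ o) P') o := by
        refine av_mono fun o => av_mono fun A => ?_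
        have p1 := mul_nonneg (div_nonneg (ind_nonneg (H (ow A (Φ o) P'))) hd.le)
          (hw (ow A (Φ o) P') o)
        have p2 := ind_nonneg (¬ Q (ow A (Φ o) P'))
        by_cases h : G (ow A (Φ o) P) ∧ E (ow A (Φ o) P) o
        · rw [ind_pos h.1, ind_pos h.2, one_mul]
          by_cases q : Q (ow A (Φ o) P')
          · obtain ⟨k1, k2⟩ := h3 A o h.1 h.2 q
            have : 1 ≤ ind (H (ow A (Φ o) P')) / d * w (ow A (Φ o) P') o := by
              rw [ind_pos k1, one_div, ← div_eq_inv_mul, one_le_div hd]; exact k2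
            exact this.trans (le_add_of_nonneg_left p2)
          · show 1 ≤ ind (¬ Q (ow A (Φ o) P')) + _
            rw [ind_pos q]
            exact le_add_of_nonneg_right p1
        · rw [← ind_and, ind_neg h]
          exact add_nonneg p2 p1
    _ = av fun A => av fun o => dens (bl (Φ o) (ful P')) A * W A o := by
        rw [av_comm (fun A o => dens (bl (Φ o) (ful P')) A * W A o)]
        refine av_congr fun o => ?_
        rw [av_dens _ fun A => W A o]
        simp only [ow_eq_ovr]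
    _ ≤ av fun A => 2 ^ B ^ 2 * ind (¬ Q A) + β / d := by
        refine av_mono fun A => ?_
        simp only [W, mul_add, mul_left_comm _ (ind (H A) / d)]
        rw [av_add, av_mul_left]
        refine add_le_add (one_av_le (mul_nonneg (by positivity) (ind_nonneg _)) fun o =>
          mul_le_mul_of_nonneg_right (dens_bl_le (hB o) _ _) (ind_nonneg _)) ?_
        by_cases h : H A
        · rw [ind_pos h, one_div, ← div_eq_inv_mul]
          exact div_le_div_of_nonneg_right (h2 A h) hd.le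
        · rw [ind_neg h, zero_div, zero_mul]
          positivity
    _ = _ := by rw [av_add, av_mul_left, av_const]

theorem one_of (hQ : QRT) (hP : POS) (hBad : BAD) (hM : MOVE) : ONE := by
  intro EE _ _ J Cf hJ R η hη
  obtain ⟨r, hr⟩ := hP EE J Cf hJ Unit
  obtain ⟨c, δ, Q, hc, hδ, hp⟩ := hr R R
  obtain ⟨F0, hF⟩ := exists_nat_ge (8 * Nat.card EE / (δ * c * η))
  rw [div_le_iff₀ (by positivity)] at hF
  refine ⟨F0, 2 * Q + 1, fun t1 t2 h1 h2 => ?_⟩
  have h12 : t1 ≤ t2 := by nlinarith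
  obtain ⟨u, γ, hγ, hp⟩ := hp (2 * t1) t2 (by omega) (by nlinarith)
  obtain ⟨ε, hε, e1, e2⟩ : ∃ ε : ℝ, 0 < ε ∧ ε ≤ δ / 2 ∧ ε ≤ δ * c * η / 16 :=
    ⟨min (δ / 2) (δ * c * η / 16), by positivity, min_le_left _ _, min_le_right _ _⟩
  obtain ⟨u', γ', hγ', hb⟩ := hBad EE J Cf hJ Unit r (2 * t1) ε hε
  let B := Nat.card (Unit × Fin r × Fin J × Fin (2 * t1))
  obtain ⟨n1, hm⟩ := hM EE J Cf hJ B t2 ε hε
  obtain ⟨η1, hη1, e3, e4⟩ : ∃ η1 : ℝ, 0 < η1 ∧ η1 ≤ η / 4 ∧ 2 ^ B ^ 2 * η1 ≤ c * η / 4 :=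
    ⟨min (η / 4) (c * η / 4 / 2 ^ B ^ 2), by positivity, min_le_left _ _, by
      rw [← le_div_iff₀' (by positivity)]; exact min_le_right _ _⟩
  obtain ⟨n2, hq⟩ := hQ (max u u') (min γ γ') η1 (by positivity) hη1
  refine ⟨max n1 n2 + 1, fun I _ hn L hL l e e' => ?_⟩
  have : Nonempty I := (Nat.card_pos_iff.1 (by omega)).1
  replace hn := Nat.le_of_succ_le hn
  have hq := hq I (le_of_max_le_right hn)
  have hB : ∀ o : LO Unit r J (2 * t1) I, {i | llab o i ≠ none}.ncard ≤ B := fun o =>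
    supp_lcomp_crd _ _
  let S : Om I → Prop := fun A => L.kap A ≤ R ∧ 1 ≤ R * L.bb A l e e' t2 t2 ∧
    F0 * L.bb A l (e + 1) e' t1 t1 ≤ 1
  let q : Om I → Prop := QR (max u u') (min γ γ')
  have key := one_flip (fun o : LO Unit r J (2 * t1) I => llab o) (fun _ => e) (fun _ => e + 1) hB
    (fun A => S A ∧ q A) q (fun A => q A ∧ L.bb A l (e + 1) e' t1 t2 ≤ δ * c * η / 8 + ε)
    (fun A o => Good (llab o) ∧ L.Fp A (llab o) ∧ δ ≤ L.bet A l e' t2 (yv (llab o) ()))
    (fun A o => ind (Good (llab o) ∧ yv (llab o) () ∈ L.V A) * L.bet A l e' t2 (yv (llab o) ()))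
    (c := c) (d := δ / 2) (β := δ * c * η / 8 + ε + ε) (by positivity) (by positivity)
    (fun A o => mul_nonneg (ind_nonneg _) (hL.bet_nonneg hJ A e' l t2 _))
    (fun A h => by
      refine (hp I L A hL (one_qr_mono h.2 (le_max_left _ _) (min_le_left _ _)) h.1.1 e
        (fun e2 => {l2 | l2 = l ∧ e2 = e'}) ?_).trans (av_mono fun o =>
          mul_le_mul_of_nonneg_left (ind_mono fun k => ⟨k.1, k.2.1, k.2.2 () e' l ⟨rfl, rfl⟩⟩)
            (dens_nonneg _ _))
      rintro _ _ ⟨rfl, rfl⟩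
      exact h.1.2.1)
    (fun A h => by
      have := (hb I L A hL (one_qr_mono h.1 (le_max_right _ _) (min_le_right _ _))
        (fun _ => e + 1) () t1 le_rfl).2 l e' t2
      simp only [mul_assoc] at this ⊢
      linarith [h.2])
    (fun A o hG hE hq' => by
      have f' := one_fp hL hE.2.1 fun _ => e + 1
      have m1 := (hm I (le_of_max_le_left hn) L hL Unit (llab o) A (fun _ => e) (fun _ => e + 1)
        (hB o) hG.2.bal hE.2.1 l e' e' t2 t2 le_rfl le_rfl).1 _ (hE.2.1.1 ())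
        fun a => hE.2.1.2 a ()
      have m2 := (hm I (le_of_max_le_left hn) L hL Unit (llab o) A (fun _ => e + 1) (fun _ => e)
        (hB o) hq'.bal f' l (e + 1) e' t1 t2 h12 le_rfl).2
      rw [Nat.card_unique (α := Unit), pow_one] at m2
      have m3 := hL.bb_anti hJ (ow A (llab o) fun _ => e) (e + 1) l e' (le_refl t1) h12
      have m4 := hL.bb_nonneg hJ (ow A (llab o) fun _ => e) (e + 1) l e' t1 t1
      have m5 := hG.1.2.2
      have m6 := mul_le_mul_of_nonneg_right hF m4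
      have m7 := mul_le_mul_of_nonneg_left m5 (show 0 ≤ δ * c * η by positivity)
      have m8 := mul_le_mul_of_nonneg_left m3 (Nat.cast_nonneg (α := ℝ) (Nat.card EE))
      refine ⟨⟨hq', by nlinarith⟩, ?_⟩
      rw [ind_pos ⟨hE.1, f'.1 ()⟩, one_mul]
      linarith [(abs_le.1 m1).1, hE.2.2])
  have k1 : (δ * c * η / 8 + ε + ε) / (δ / 2) ≤ c * η / 2 := by
    rw [div_le_iff₀ (by positivity)]; nlinarith
  have k2 : (2 : ℝ) ^ B ^ 2 * av (fun A => ind (¬ q A)) ≤ c * η / 4 :=
    (mul_le_mul_of_nonneg_left hq (by positivity)).trans e4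
  have k3 : av (fun A => ind (S A ∧ q A)) ≤ 3 * η / 4 :=
    le_of_mul_le_mul_left (by linarith) hc
  have k4 : av (fun A => ind (S A)) ≤ av (fun A => ind (S A ∧ q A)) + av fun A => ind (¬ q A) := by
    rw [← av_add]
    exact av_mono fun A => (ind_mono fun h => by tauto).trans (ind_or_le _ _)
  show av (fun A => ind (S A)) ≤ η
  linarith

end NE
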