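import Pool.Agent.Lib.MP_ecee09_co.NE.P1c
import Pool.Agent.Lib.MP_ecee09_co.NE.Stmts4

/-! The local limit for tuples of particles. -/

namespace NE

open SD hiding cond
open ComplexConjugate

variable {Γ M I : Type} [AddCommGroup Γ]

lemma map_adj {E E' : Type} [AddCommGroup E] [AddCommGroup E'] [Finite I] (f : E →+ E')
    (A : Om I) (v : I → E) (i : I) : f (adj A v i) = adj A (fun j => f (v j)) i := by
  let _ := Fintype.ofFinite I
  simp only [adj_eq, map_sum, map_nsmul]

lemma mem_Dg {d : M → Γ} : d ∈ Dg M Γ ↔ ∃ g : Γ, (fun _ => g) = d := by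
  have := AddSubgroup.closure_eq (Pi.constAddMonoidHom M Γ).range
  rw [AddMonoidHom.coe_range] at this
  rw [show Dg M Γ = (Pi.constAddMonoidHom M Γ).range from this]; rfl

lemma card_Dg [Nonempty M] : Nat.card (Dg M Γ) = Nat.card Γ :=
  (Nat.card_eq_of_bijective (fun g : Γ => (⟨fun _ => g, mem_Dg.2 ⟨g, rfl⟩⟩ : Dg M Γ))
    ⟨fun _ _ h => congrFun (congrArg Subtype.val h) (Classical.arbitrary M), fun d =>
      (mem_Dg.1 d.2).imp fun _ h => Subtype.ext h⟩).symm

lemma ovr_eq_mix (A : Om I) (σ : PP I) :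
    ovr A σ = mixS {c | σ c ≠ none} (fun c => (σ c).getD 0) A := by
  funext c
  cases h : σ c with
  | none => rw [mix_not_mem (S := {c | σ c ≠ none}) _ _ fun k => k h, ovr, h]; rfl
  | some a => rw [mix_mem (S := {c | σ c ≠ none}) _ _ (show σ c ≠ none by simp [h]), ovr, h]; rfl

variable [Finite Γ] [Finite I]

/-- the average over the shift -/
lemma p1_avb [Nonempty M] (ε : Γ) (p : M → Pt Γ I) (w : M → I → Γ) (A : Om I) :
    (av fun b : I → Γ => ind (∀ r, rs ε (p r) (b, A) = w r)) =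
      ind (∀ i, (fun r => w r i - (p r).2 i) - adj A (row p) i ∈ Dg M Γ) / DD Γ I := by
  have e : ∀ b : I → Γ, (∀ r, rs ε (p r) (b, A) = w r) ↔ ∀ i, (fun _ => b i + (A s(i, i)).val • ε) =
      (fun r => w r i - (p r).2 i) - adj A (row p) i := fun b => by
    simp only [funext_iff, Pi.sub_apply]
    refine forall_comm.trans (forall₂_congr fun i r => ?_)
    rw [show adj A (row p) i r = adj A (p r).1 i from
      map_adj (Pi.evalAddMonoidHom (fun _ => Γ) r) A (row p) i, eq_sub_iff_add_eq,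
      eq_sub_iff_add_eq, rs, add_right_comm (b i)]
  simp only [e]
  by_cases h : ∀ i, (fun r => w r i - (p r).2 i) - adj A (row p) i ∈ Dg M Γ
  · choose g hg using fun i => mem_Dg.1 (h i)
    have e2 : ∀ b : I → Γ, (∀ i, (fun _ : M => b i + (A s(i, i)).val • ε) = fun _ => g i) ↔
        b = fun i => g i - (A s(i, i)).val • ε := fun b =>
      ⟨fun k => funext fun i => eq_sub_of_add_eq (congrFun (k i) (Classical.arbitrary M)),
        fun k i => by rw [k]; simp⟩
    simp only [← hg, e2]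
    rw [ind_pos fun i => mem_Dg.2 ⟨_, rfl⟩, av_def, sm_ind_one, Nat.card_fun, DD]
    push_cast; rfl
  · rw [ind_neg h, zero_div, av_congr (g := fun _ => 0) fun b =>
      ind_neg fun k => h fun i => mem_Dg.2 ⟨_, k i⟩, av_zero]

theorem p1t : P1T := by
  intro Γ M _ _ _ _ u γ θ hγ hθ
  obtain ⟨s0, hs⟩ := p1c ((M → Γ) ⧸ Dg M Γ) hγ u hθ
  refine ⟨s0, fun I _ hI ε p w σ U hU hσ hR => ?_⟩
  let π := QuotientAddGroup.mk' (Dg M Γ)
  have hπ : Function.Surjective π := QuotientAddGroup.mk'_surjective _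
  have h := hs I hI (fun i => π (row p i)) (fun i => π fun r => w r i - (p r).2 i)
    (fun S hS => by
      rw [← cnt_eq_ncard]
      refine hR (S.comap π) (fun d hd => ?_) fun k => hS (eq_top_iff.2 fun a _ => ?_)
      · rw [AddSubgroup.mem_comap, show π d = 0 from (QuotientAddGroup.eq_zero_iff d).2 hd]
        exact zero_mem _
      · obtain ⟨a, rfl⟩ := hπ a
        exact k trivial) U hU {c | σ c ≠ none} (fun c => (σ c).getD 0) fun c hc i hi => by
      obtain ⟨j, rfl⟩ := Sym2.mem_iff_exists.1 hi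
      exact hσ i j hc
  have hD : 0 < DD Γ I := pow_pos card_pos' _
  have hc : DD Γ I ^ Nat.card M = (Nat.card ((M → Γ) ⧸ Dg M Γ) : ℝ) ^ Nat.card I * DD Γ I := by
    have := AddSubgroup.card_eq_card_quotient_mul_card_addSubgroup (Dg M Γ)
    rw [card_Dg, Nat.card_fun] at this
    rw [DD, ← mul_pow, ← pow_mul, mul_comm (Nat.card I), pow_mul]
    exact_mod_cast congrArg (· ^ Nat.card I) this
  convert h using 3
  · rw [av_prod, av_comm, hc, mul_assoc, ← av_mul_left]
    congr 1
    refine congrArg _ (av_congr fun A => ?_)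
    rw [p1_avb ε p w (ovr A σ), mul_div_cancel₀ _ hD.ne', ← ovr_eq_mix]
    refine ind_congr (Iff.trans (forall_congr' fun i => ?_) funext_iff.symm)
    rw [← map_adj π, eq_comm]
    exact QuotientAddGroup.eq_iff_sub_mem.symm
  · let _ := Fintype.ofFinite ((M → Γ) →+ Ch (M → Γ))
    let _ := Fintype.ofFinite ((M → Γ) ⧸ Dg M Γ →+ Ch ((M → Γ) ⧸ Dg M Γ))
    rw [csm_eq, csm_eq]
    refine (Fintype.sum_of_injective (fun μ => (μ.comp π).compl₂ π) (fun μ μ' k => ?_) _ _
      (fun μ hμ => ?_) fun μ => ?_).symm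
    · refine AddMonoidHom.ext fun a => AddMonoidHom.ext fun b => ?_
      obtain ⟨a, rfl⟩ := hπ a
      obtain ⟨b, rfl⟩ := hπ b
      exact DFunLike.congr_fun (DFunLike.congr_fun k a) b
    · rw [ind_neg fun k => hμ ?_]; · simp
      have h1 : Dg M Γ ≤ μ.flip.ker := fun d hd => AddMonoidHom.ext fun a => by
        simpa [k.1, k.2 d hd] using k.1 (a + d)
      exact ⟨QuotientAddGroup.lift _ (QuotientAddGroup.lift _ μ.flip h1).flip fun d hd =>
        AddMonoidHom.ext fun a => by
          obtain ⟨a, rfl⟩ := hπ a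
          exact DFunLike.congr_fun (k.2 d hd) a, rfl⟩
    · refine congrArg₂ _ (congrArg _ (ind_congr ⟨fun k => ⟨fun a => k _, fun d hd => ?_⟩,
        fun k a => ?_⟩)) rfl
      · refine AddMonoidHom.ext fun a => ?_
        show μ (π d) (π a) = 0
        rw [show π d = 0 from (QuotientAddGroup.eq_zero_iff d).2 hd, map_zero]; rfl
      · obtain ⟨a, rfl⟩ := hπ a
        exact k.1 a

theorem p1u : P1U := by
  intro Γ M _ _ _ _
  let X : AddSubgroup (M → Γ) → Type := fun W => W ⧸ (Dg M Γ).addSubgroupOf W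
  obtain ⟨C, hC⟩ := Finite.exists_le fun W : AddSubgroup (M → Γ) =>
    (1 + Nat.card (X W →+ X W →+ TT) : ℝ)
  refine ⟨C, lt_of_lt_of_le (by positivity) (hC ⊤), fun γ hγ => ?_⟩
  choose s hs using fun W : AddSubgroup (M → Γ) => p1c (X W) hγ 0 one_pos
  obtain ⟨s0, h0⟩ := Finite.exists_le s
  refine ⟨s0, fun S _ hS ε q W hW hq hR => ?_⟩
  have hD : 0 < DD Γ S := pow_pos card_pos' _
  have hDW : 0 < DD W S := pow_pos card_pos' _
  have hA : ∀ (A : Om S) i, adj A (row q) i = adj A (fun j => (⟨row q j, hq j⟩ : W)) i :=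
    fun A i => (map_adj W.subtype A (fun j => (⟨row q j, hq j⟩ : W)) i).symm
  rw [av_prod, av_comm]
  simp only [p1_avb ε q fun _ => 0, Pi.zero_apply, zero_sub]
  by_cases hξ : ∀ i, (fun r => (q r).2 i) ∈ W
  swap
  · rw [ind_neg hξ, av_congr (g := fun _ => 0) fun A => by
      rw [ind_neg fun k => hξ fun i => ?_, zero_div]
      have := add_mem (hW (k i)) (adj A (fun j => (⟨row q j, hq j⟩ : W)) i).2
      rw [← hA, sub_add_cancel] at this
      exact neg_mem_iff.1 this, av_zero]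
    simp
  let π : W →+ X W := QuotientAddGroup.mk' _
  have hπ : Function.Surjective π := QuotientAddGroup.mk'_surjective _
  have h := hs W S ((h0 W).trans hS) (fun i => π ⟨row q i, hq i⟩) (fun i => π (-⟨_, hξ i⟩))
    (fun T hT => by
      rw [← cnt_eq_ncard]
      refine (hR ((T.comap π).map W.subtype) (fun d hd => ⟨⟨d, hW hd⟩, ?_, rfl⟩) fun k =>
        hT (eq_top_iff.2 fun a _ => ?_)).trans (cnt_mono fun i hi k => hi ⟨_, k, rfl⟩)
      · show π _ ∈ T
        rw [show π ⟨d, hW hd⟩ = 0 from (QuotientAddGroup.eq_zero_iff _).2 hd]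
        exact zero_mem _
      · obtain ⟨a, rfl⟩ := hπ a
        obtain ⟨b, hb, e⟩ := k a.2
        rwa [← show b = a from Subtype.ext e]) ∅ (by simp) ∅ 0 fun c hc => hc.elim
  have h2 : ‖csm fun μ : X W →+ X W →+ TT => ((ind (∀ a, μ a a = 0) : ℝ) : ℂ) *
      ee (∑ᶠ i, μ (π ⟨row q i, hq i⟩) (π (-⟨_, hξ i⟩)))‖ ≤ Nat.card (X W →+ X W →+ TT) := by
    refine (norm_csm_le _).trans ((sm_mono (g := fun _ => 1) fun μ => ?_).trans ?_)
    · rw [norm_mul, norm_ee, mul_one, Complex.norm_real, Real.norm_eq_abs, abs_ind]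
      exact ind_le_one _
    · rw [sm_const, mul_one]
  have h3 := ((norm_le_norm_add_norm_sub' _ _).trans (add_le_add h2 h)).trans
    ((add_comm _ _).le.trans (hC W))
  rw [Complex.norm_real, Real.norm_eq_abs] at h3
  have hc : DD W S = (Nat.card (X W) : ℝ) ^ Nat.card S * DD Γ S := by
    have := AddSubgroup.card_eq_card_quotient_mul_card_addSubgroup ((Dg M Γ).addSubgroupOf W)
    rw [Nat.card_congr (AddSubgroup.addSubgroupOfEquivOfLe hW).toEquiv, card_Dg] at this
    rw [DD, DD, ← mul_pow]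
    exact_mod_cast congrArg (· ^ Nat.card S) this
  rw [ind_pos hξ, mul_one, le_div_iff₀ hDW, av_div, hc, mul_comm _ (DD Γ S), ← mul_assoc,
    div_mul_cancel₀ _ hD.ne', mul_comm]
  refine le_trans (le_of_eq (congrArg _ (av_congr fun A => ?_))) ((le_abs_self _).trans h3)
  rw [show mixS ∅ 0 A = A from funext fun c => mix_not_mem _ _ id]
  refine ind_congr (Iff.trans (forall_congr' fun i => ?_) funext_iff.symm)
  rw [← map_adj π, eq_comm, hA]
  exact (QuotientAddGroup.eq_iff_sub_mem (N := (Dg M Γ).addSubgroupOf W)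
    (x := -⟨_, hξ i⟩) (y := adj A (fun j => ⟨row q j, hq j⟩) i)).symm

end NE
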