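import Pool.Agent.Lib.MP_ecee09_co.NE.Stat
import Pool.Agent.Lib.MP_ecee09_co.NE.GB

/-! A non trivial pairing cancels. -/

namespace NE

open SD
open ComplexConjugate

section grp
variable {X A : Type} [AddCommGroup X] [Finite X] [Finite A]

theorem pu3_T {B : X → X → TT} (h1 : ∀ y, Ad fun x => B x y) (h2 : ∀ x, Ad (B x))
    {R : AddSubgroup X} (hR : ∀ y, (∀ x, B x y = 0) → y ∈ R) (π : A → X) {W : A → ℂ} {w : A → ℝ}
    (hW : ∀ a, ‖W a‖ ≤ w a) : (sm fun x => ‖csm fun a => W a * ee (B x (π a))‖ ^ 2) ≤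
      Nat.card X * sm fun a => sm fun b => w a * w b * ind (π a - π b ∈ R) := by
  have e : (((sm fun x => ‖csm fun a => W a * ee (B x (π a))‖ ^ 2 : ℝ)) : ℂ) = Nat.card X *
      csm fun a => csm fun b => W a * conj (W b) * (ind (∀ x, B x (π a - π b) = 0) : ℝ) := by
    have k (y) := cav_ee_add (fun x => B x y) (h1 y)
    simp only [← csm_ofReal, ← mul_conj'', conj_csm, csm_mul_csm, ← k]
    simp only [← cav_mul_left (W _ * _), ← cav_csm_comm, ← csm_eq_card_mul_cav]
    refine csm_congr fun x => csm_congr fun a => csm_congr fun b => ?_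
    rw [(h2 x).sub, ee_sub, map_mul]; ring
  have := congrArg norm e
  rw [Complex.norm_real, Real.norm_of_nonneg (sm_nonneg fun _ => sq_nonneg _), norm_mul,
    Complex.norm_natCast] at this
  rw [this]
  refine mul_le_mul_of_nonneg_left ((norm_csm_le _).trans (sm_mono fun a => (norm_csm_le _).trans
    (sm_mono fun b => ?_))) (Nat.cast_nonneg _)
  rw [norm_mul, norm_mul, Complex.norm_conj, Complex.norm_real, Real.norm_eq_abs, abs_ind]
  have k (a) : 0 ≤ w a := (norm_nonneg _).trans (hW a)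
  exact mul_le_mul (mul_le_mul (hW a) (hW b) (norm_nonneg _) (k a)) (ind_mono (hR _))
    (ind_nonneg _) (mul_nonneg (k a) (k b))

theorem pu3_L (L : AddSubgroup X) {W : X → ℂ} {w : X → ℝ} (hW : ∀ a, ‖W a‖ ≤ w a) :
    n2 (prS L.subtype W) ≤ hq L w w / (Nat.card L * Nat.card X) := by
  have := congrArg norm (n2_prS (ad_hom L.subtype) W)
  rw [Complex.norm_real, Real.norm_of_nonneg (n2_nonneg _)] at this
  rw [← this, ← div_div, hq, ← sm_div, ← av_def]
  refine (norm_cav_le _).trans (av_mono fun x => (norm_cav_le _).trans ?_)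
  rw [av_def, ← sm_add_left _ x]
  refine div_le_div_of_nonneg_right ((sm_subtype (· ∈ L) fun y => ‖dd W y x‖).trans_le
    (sm_mono fun y => ?_)) (Nat.cast_nonneg _)
  rw [sub_add_cancel_left, ind_congr neg_mem_iff, mul_comm, dd, norm_mul, Complex.norm_conj]
  exact mul_le_mul_of_nonneg_right (mul_le_mul (hW _) (hW _) (norm_nonneg _)
    ((norm_nonneg _).trans (hW _))) (ind_nonneg _)

/-- Lindsey -/
theorem pu3_lin {B : X → X → TT} (h1 : ∀ y, Ad fun x => B x y) (h2 : ∀ x, Ad (B x))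
    {L R : AddSubgroup X} (hL : ∀ x ∈ L, ∀ y, B x y = 0) (hR : ∀ y, (∀ x, B x y = 0) → y ∈ R)
    {W W' : X → ℂ} {w : X → ℝ} (hW : ∀ a, ‖W a‖ ≤ w a) (hW' : ∀ a, ‖W' a‖ ≤ w a) :
    ‖csm fun x => W x * csm fun y => W' y * ee (B x y)‖ ^ 2 ≤
      Nat.card X * hq R w w * hq L w w / Nat.card L := by
  have c := card_pos' (α := X)
  have t : n2 (fun x => csm fun y => W' y * ee (B x y)) ≤ hq R w w := by
    rw [n2, av_def, div_le_iff₀' c]
    exact pu3_T h1 h2 hR id hW'
  have := (cs_box1 (a := L.subtype) W (f := fun x => csm fun y => W' y * ee (B x y))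
    fun x h => csm_congr fun y => by
      rw [show B (x + L.subtype h) y = _ from (h1 y x _).trans (congrArg _ (hL _ h.2 y)),
        add_zero]).trans (mul_le_mul t (pu3_L L hW) (n2_nonneg _) (hq_self_nonneg ..))
  rw [csm_eq_card_mul_cav, norm_mul, Complex.norm_natCast, mul_pow]
  refine (mul_le_mul_of_nonneg_left this (sq_nonneg _)).trans_eq ?_
  field_simp

/-- Hoelder -/
theorem pu3_hol {B : X → X → TT} (h1 : ∀ y, Ad fun x => B x y) (h2 : ∀ x, Ad (B x))
    (hR : ∀ y, (∀ x, B x y = 0) → y = 0) {W W' : X → ℂ} {P : Set X} (hW : ∀ a, ‖W a‖ ≤ si P a)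
    (hW' : ∀ a, ‖W' a‖ ≤ si P a) : ‖csm fun x => W x * csm fun y => W' y * ee (B x y)‖ ^ 4 ≤
      sm (si P) ^ 3 * (Nat.card X * ead (si P) (si P) (si P) (si P)) := by
  have t := pu3_T h1 h2 (R := ⊥) hR (fun a : X × X => a.1 + a.2) (W := fun a => W' a.1 * W' a.2)
    (w := fun a => si P a.1 * si P a.2) fun a => (norm_mul _ _).trans_le
      (mul_le_mul (hW' _) (hW' _) (norm_nonneg _) (ind_nonneg _))
  have e1 (x) : (csm fun a : X × X => W' a.1 * W' a.2 * ee (B x (a.1 + a.2))) =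
      (csm fun y => W' y * ee (B x y)) ^ 2 := by
    rw [sq, csm_mul_csm, csm_prod]
    exact csm_congr fun a => csm_congr fun b => by rw [h2 x, ee_add]; ring
  have e2 : (sm fun a : X × X => sm fun b : X × X => si P a.1 * si P a.2 * (si P b.1 * si P b.2) *
      ind (a.1 + a.2 - (b.1 + b.2) ∈ (⊥ : AddSubgroup X))) = ead (si P) (si P) (si P) (si P) := by
    rw [sm_prod, ead]
    refine sm_congr fun a => sm_congr fun b => (sm_prod _).trans (sm_congr fun c => ?_)
    rw [← sm_ind_eq (a + b - c) fun d => si P a * si P b * si P c * si P d]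
    refine sm_congr fun d => ?_
    rw [ind_congr (q := d = a + b - c) (by
      rw [AddSubgroup.mem_bot, sub_eq_zero, eq_sub_iff_add_eq', eq_comm])]
    ring
  simp only [e1, e2, norm_pow, ← pow_mul] at t
  set T := fun x => ‖csm fun y => W' y * ee (B x y)‖
  have s1 : ‖csm fun x => W x * csm fun y => W' y * ee (B x y)‖ ≤
      sm fun x => si P x * (si P x * T x) := (norm_csm_le _).trans (sm_mono fun x => by
    rw [norm_mul, ← mul_assoc, si, ind_mul_self]
    exact mul_le_mul_of_nonneg_right (hW x) (norm_nonneg _))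
  have s2 := sm_cs (si P) fun x => si P x * T x
  have s3 := sm_cs (si P) fun x => T x ^ 2
  simp only [si, ind_sq, mul_pow, ← pow_mul] at s2 s3
  have p : 0 ≤ sm (si P) := sm_nonneg fun _ => ind_nonneg _
  have s4 := pow_le_pow_left₀ (sq_nonneg _) ((pow_le_pow_left₀ (norm_nonneg _) s1 2).trans s2) 2
  rw [← pow_mul, mul_pow] at s4
  refine s4.trans ((mul_le_mul_of_nonneg_left (s3.trans (mul_le_mul_of_nonneg_left t p))
    (sq_nonneg _)).trans_eq ?_)
  rw [← mul_assoc, ← pow_succ]; rfl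

theorem pu3_rad (a : X →+ Ch X) : Nat.card a.flip.ker = Nat.card a.ker := by
  have k (b : X →+ Ch X) : (cav fun x => cav fun y => ee (b x y)) = (Nat.card b.ker : ℝ) / Nat.card X := by
    simp only [cav_ee_hom]
    rw [cav_ofReal, av_def, show sm (fun x => ind (b x = 0)) = cnt (b.ker : Set X) from rfl,
      cnt_eq_card, Complex.ofReal_div]
    rfl
  have := (k a.flip).symm.trans ((cav_comm _).trans (k a))
  exact_mod_cast (div_left_inj' ccard_ne).1 this

end grp

theorem pu3 : PU3 := by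
  intro Γ I _ _ _ a ha P f f' β Λ hf hf' b0 b1 hΛ hl hc he
  classical
  let _ := Fintype.ofFinite I
  let B (p p' : Pt Γ I) : TT := ∑ᶠ i, (a (p.1 i) (p'.2 i) - a (p.2 i) (p'.1 i))
  have eB (p p') : B p p' = ∑ i, (a (p.1 i) (p'.2 i) - a (p.2 i) (p'.1 i)) :=
    finsum_eq_sum_of_fintype _
  have h1 (y) : Ad fun x => B x y := fun p q => by
    simp only [eB, ← Finset.sum_add_distrib, Prod.fst_add, Prod.snd_add, Pi.add_apply, map_add,
      AddMonoidHom.add_apply]
    exact Finset.sum_congr rfl fun i _ => by abel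
  have h2 (x) : Ad (B x) := fun p q => by
    simp only [eB, ← Finset.sum_add_distrib, Prod.fst_add, Prod.snd_add, Pi.add_apply, map_add]
    exact Finset.sum_congr rfl fun i _ => by abel
  have hL (x) (hx : x ∈ ptH I a.ker a.ker) (y) : B x y = 0 := by
    rw [eB]
    exact Finset.sum_eq_zero fun i _ => by
      rw [show a (x.1 i) = 0 from (hx i).1, show a (x.2 i) = 0 from (hx i).2]; simp
  have hR (y) (hy : ∀ x, B x y = 0) : y ∈ ptH I a.flip.ker a.flip.ker := fun i => by
    refine ⟨AddMonoidHom.ext fun g => ?_, AddMonoidHom.ext fun g => ?_⟩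
    · simpa [eB, Pi.single_apply, apply_ite a, DFunLike.ite_apply] using hy (0, Pi.single i g)
    · simpa [eB, Pi.single_apply, apply_ite a, DFunLike.ite_apply] using hy (Pi.single i g, 0)
  have w {f : Pt Γ I → ℂ} (hf : ∀ p, ‖f p‖ ≤ 1) (p) : ‖(si P p : ℂ) * f p‖ ≤ si P p := by
    rw [norm_mul, Complex.norm_real, si, Real.norm_eq_abs, abs_ind]
    exact mul_le_of_le_one_right (ind_nonneg _) (hf p)
  have D := DD_pos' Γ I
  have cX : (Nat.card (Pt Γ I) : ℝ) = DD Γ I ^ 2 := by
    rw [Nat.card_prod, Nat.cast_mul, ← DD_eq_card, sq]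
  rw [show (csm fun p : Pt Γ I => csm fun p' : Pt Γ I => (si P p : ℂ) * (si P p' : ℂ) * f p *
      f' p' * ee (∑ᶠ i, (a (p.1 i) (p'.2 i) - a (p.2 i) (p'.1 i)))) =
      csm fun p => (si P p : ℂ) * f p * csm fun p' => (si P p' : ℂ) * f' p' * ee (B p p') from
    csm_congr fun p => by rw [← csm_mul_left]; exact csm_congr fun p' => by ring]
  by_cases h0 : a.flip.ker = ⊥
  · refine le_of_pow_le_pow_left₀ four_ne_zero (by positivity) ((pu3_hol h1 h2 (fun y hy => ?_)
      (w hf) (w hf')).trans ?_)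
    · have := hR y hy
      rw [h0] at this
      exact Prod.ext (funext fun i => (this i).1) (funext fun i => (this i).2)
    rw [en_eq, div_le_iff₀ (by positivity)] at he
    rw [lam, div_le_iff₀ D] at hl
    have p : 0 ≤ sm (si P) := sm_nonneg fun _ => ind_nonneg _
    calc _ ≤ (Λ * DD Γ I) ^ 3 * (DD Γ I ^ 2 * (β ^ 4 * DD Γ I ^ 3)) := by
          rw [cX]; have := ead_self_nonneg (si P) (si P); gcongr
      _ = (β * DD Γ I ^ 2) ^ 4 * Λ ^ 3 := by ring
      _ ≤ (β * DD Γ I ^ 2) ^ 4 * Λ ^ 4 := by gcongr; norm_num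
      _ = _ := by ring
  have r := pu3_rad a
  have k (G : AddSubgroup Γ) (e : Nat.card G = Nat.card a.ker) :
      hq (ptH I G G) (si P) (si P) ≤ β ^ 4 * (DD a.ker I * DD Γ I) := by
    have := hc G (fun e' => h0 (AddSubgroup.card_eq_one.1 (by rw [r, ← e, e', AddSubgroup.card_bot])))
      fun e' => ha (AddMonoidHom.ker_eq_top_iff.1 (AddSubgroup.card_eq_iff_eq_top _ |>.1
        (by rw [← e, e', AddSubgroup.card_top])))
    rwa [coll_eq, div_le_iff₀ (mul_pos (DD_pos' G I) D), show DD G I = DD a.ker I by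
      rw [DD, e, DD]] at this
  have D' := DD_pos' a.ker I
  refine le_of_pow_le_pow_left₀ two_ne_zero (by positivity) ((pu3_lin h1 h2 hL hR (w hf)
    (w hf')).trans ?_)
  calc _ ≤ DD Γ I ^ 2 * (β ^ 4 * (DD a.ker I * DD Γ I)) * (β ^ 4 * (DD a.ker I * DD Γ I)) /
        (DD a.ker I * DD a.ker I) := by
        rw [cX, card_ptH]
        have := hq_self_nonneg (ptH I a.ker a.ker) (si P)
        gcongr
        exacts [k _ r, k _ rfl]
    _ = (β * DD Γ I ^ 2) ^ 2 * β ^ 6 := by field_simp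
    _ ≤ (β * DD Γ I ^ 2) ^ 2 * Λ ^ 2 := by
        gcongr; exact (pow_le_one₀ b0 b1).trans (one_le_pow₀ hΛ)
    _ = _ := by ring

end NE
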