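import Pool.Agent.Lib.MP_ecee09_co.NE.PU4a

/-! Factorial moments factorize. -/

namespace NE

open SD

variable {Γ I : Type} [AddCommGroup Γ] [Finite Γ] [Finite I]

lemma pu4_lam {ε : Γ} {P : Set (Pt Γ I)} {D : ℕ → ℝ} (h : Tame D (NN ε (si P))) :
    lam (si P) ≤ D 1 := by
  refine le_trans (le_of_eq ?_) ((av_mono (f := NN ε (si P)) fun x => ?_).trans (h 1))
  swap
  · rw [pow_one]; exact le_abs_self _
  let _ := Fintype.ofFinite I
  unfold NN
  rw [av_sm_comm, lam, ← sm_div]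
  refine sm_congr fun p => ?_
  rw [av_mul_left, av_prod, av_comm, div_eq_mul_one_div]
  congr 1
  rw [← av_const (α := Om I) (1 / DD Γ I)]
  refine av_congr fun A => ?_
  have := av_ind_eq (-rs ε p (0, A)) fun _ => (1 : ℝ)
  rw [Nat.card_fun, Nat.cast_pow] at this
  refine this.symm.trans (av_congr fun b => ?_)
  rw [mul_one]
  refine ind_congr (eq_neg_iff_add_eq_zero.trans (Eq.congr_left (funext fun i => ?_)))
  simp only [rs, Pi.add_apply, Pi.zero_apply]
  abel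

omit [Finite Γ] [Finite I] in
lemma pu4_mono {ε : Γ} {P : Set (Pt Γ I)} {D : ℕ → ℝ} {s1 : ℕ} {η η' : ℝ} (h : PuH ε P D s1 η)
    (e : η ≤ η') : PuH ε P D s1 η' where
  gc G h1 h2 := (h.gc G h1 h2).trans e
  ge := h.ge.trans e
  cc s h1 h2 G h3 h4 := (h.cc s h1 h2 G h3 h4).trans e
  ce s h1 h2 := (h.ce s h1 h2).trans e
  cm s h1 h2 := (h.cm s h1 h2).trans e
  tm := h.tm
  ch s h1 h2 G h3 := (h.ch s h1 h2 G h3).trans e
  ca s h1 h2 G h3 := (h.ca s h1 h2 G h3).trans e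

/-- robust tuples are injective -/
lemma pu4_inj [Nonempty I] {M : Type} {P : Set (Pt Γ I)} (hP : en (si P) < 1) {γ : ℝ} (hγ : 0 < γ)
    {p : M → Pt Γ I} (h1 : ∀ r, p r ∈ P) (h2 : Rob γ ⊤ (row p)) : Function.Injective p := by
  intro r r' e
  by_contra hne
  rcases subsingleton_or_nontrivial Γ with hs | hs
  · have hU : si P = fun _ => 1 := funext fun q => ind_pos (Subsingleton.elim (p r) q ▸ h1 r)
    simp [en, hU, sm_const, DD] at hP
  · classical
    obtain ⟨g, hg⟩ := exists_ne (0 : Γ)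
    have := h2 (AddMonoidHom.eqLocus (Pi.evalAddMonoidHom (fun _ => Γ) r)
      (Pi.evalAddMonoidHom (fun _ => Γ) r'))
      ((AddSubgroup.closure_le _).2 (by rintro _ ⟨g, rfl⟩; rfl))
      fun h => hg (by
        have h' := h (AddSubgroup.mem_top (Pi.single r g : M → Γ))
        have : (Pi.single r g : M → Γ) r = (Pi.single r g : M → Γ) r' := h'
        rwa [Pi.single_eq_same, Pi.single_eq_of_ne' hne] at this)
    refine absurd (this.trans_eq ((sm_congr fun i => ind_neg fun h => h ?_).trans sm_zero))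
      (not_le.2 (mul_pos hγ card_pos'))
    exact congrArg (fun q : Pt Γ I => q.1 i) e

/-- one probe -/
lemma pu4_main {m : ℕ} (P : Set (Pt Γ I)) (c : Fin m → Pt Γ I → ℝ) (hc : ∀ r p, |c r p| ≤ 1)
    (R : (Fin m → Pt Γ I) → Prop) (u : (Fin m → Pt Γ I) → ℝ)
    (al : ((Fin m → Γ) →+ Ch (Fin m → Γ)) → Prop) (h0 : al 0)
    (φ : ((Fin m → Γ) →+ Ch (Fin m → Γ)) → (Fin m → Pt Γ I) → TT) (hφ : ∀ p, φ 0 p = 0)
    {θ Λ c0 c1 : ℝ} (hθ : 0 ≤ θ) (hc1 : 0 ≤ c1) (hl : lam (si P) ≤ Λ)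
    (h1 : ∀ p, R p → ‖((DD Γ I ^ m * u p : ℝ) : ℂ) - csm fun μ => (ind (al μ) : ℂ) * ee (φ μ p)‖ ≤ θ)
    (h2 : (sm fun p => ind ((∀ r, p r ∈ P) ∧ ¬ R p)) ≤ c0 * DD Γ I ^ m)
    (h3 : ∀ μ, al μ → μ ≠ 0 → ‖csm fun p : Fin m → Pt Γ I =>
      ((∏ r, si P (p r) * c r (p r) : ℝ) : ℂ) * ee (φ μ p)‖ ≤ c1 * DD Γ I ^ m) :
    |(sm fun p => ind (R p) * (∏ r, si P (p r) * c r (p r)) * u p) -
      ∏ r, (sm fun p => si P p * c r p) / DD Γ I| ≤
      θ * Λ ^ m + Nat.card ((Fin m → Γ) →+ Ch (Fin m → Γ)) * (c0 + c1) := by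
  have hD := pu4_DD (Γ := Γ) (I := I)
  have hm := pow_pos hD m
  generalize hN : (Nat.card ((Fin m → Γ) →+ Ch (Fin m → Γ)) : ℝ) = N
  set B : (Fin m → Pt Γ I) → ℝ := fun p => ∏ r, si P (p r) * c r (p r) with hB
  set S : (Fin m → Pt Γ I) → ℂ := fun p => csm fun μ => (ind (al μ) : ℂ) * ee (φ μ p) with hS
  have b1 : ∀ p, |B p| ≤ ind (∀ r, p r ∈ P) := fun p => by
    rw [hB, Finset.abs_prod, ind_forall]
    refine Finset.prod_le_prod (fun _ _ => abs_nonneg _) fun r' _ => ?_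
    rw [abs_mul, si, abs_ind]
    exact mul_le_of_le_one_right (ind_nonneg _) (hc _ _)
  have s1 : ∀ p, ‖S p‖ ≤ N := fun p => by
    refine (norm_csm_le _).trans ((sm_mono (g := fun _ => 1) fun μ => ?_).trans_eq ?_)
    · rw [norm_mul, norm_ee, mul_one, Complex.norm_real, Real.norm_eq_abs, abs_ind]
      exact ind_le_one _
    · rw [sm_const, mul_one, hN]
  have e1 : ‖(csm fun p => B p * S p) - (sm B : ℝ)‖ ≤ N * c1 * DD Γ I ^ m := by
    have a1 : (csm fun p => B p * S p) =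
        csm fun μ => (ind (al μ) : ℂ) * csm fun p => B p * ee (φ μ p) := by
      simp only [hS, ← csm_mul_left]
      rw [csm_comm]
      exact csm_congr fun μ => csm_congr fun p => mul_left_comm _ _ _
    have a2 := csm_ind_eq 0 fun μ => (ind (al μ) : ℂ) * csm fun p => B p * ee (φ μ p)
    simp only [ind_pos h0, hφ, ee_zero, mul_one, Complex.ofReal_one, one_mul, csm_ofReal] at a2
    rw [a1, ← a2, ← csm_sub, mul_assoc, ← hN, ← sm_const]
    refine (norm_csm_le _).trans (sm_mono fun μ => ?_)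
    by_cases h : μ = 0
    · rw [ind_pos h, Complex.ofReal_one, one_mul, sub_self, norm_zero]; positivity
    · by_cases h' : al μ
      · rw [ind_neg h, ind_pos h', Complex.ofReal_zero, zero_mul, sub_zero, Complex.ofReal_one,
          one_mul]
        exact h3 μ h' h
      · simp only [ind_neg h', Complex.ofReal_zero, zero_mul, mul_zero, sub_self, norm_zero]
        positivity
  have e2 : ‖((DD Γ I ^ m * sm fun p => ind (R p) * B p * u p : ℝ) : ℂ) - csm fun p => B p * S p‖ ≤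
      θ * (Λ * DD Γ I) ^ m + N * (c0 * DD Γ I ^ m) := by
    rw [← sm_mul_left, ← csm_ofReal, ← csm_sub]
    refine (norm_csm_le _).trans ((sm_mono (g := fun p => θ * ind (∀ r, p r ∈ P) +
      N * ind ((∀ r, p r ∈ P) ∧ ¬ R p)) fun p => ?_).trans ?_)
    · by_cases h : R p
      · rw [ind_pos h, ind_neg (p := _ ∧ ¬ R p) fun h' => h'.2 h, mul_zero, add_zero, mul_comm θ]
        refine le_trans (le_of_eq ?_) (mul_le_mul (b1 p) (h1 p h) (norm_nonneg _) (ind_nonneg _))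
        rw [← Real.norm_eq_abs, ← Complex.norm_real, ← norm_mul]
        congr 1
        push_cast
        ring
      · rw [ind_neg h, ind_congr (and_iff_left h)]
        simp only [zero_mul, mul_zero, Complex.ofReal_zero, zero_sub, norm_neg, norm_mul,
          Complex.norm_real, Real.norm_eq_abs]
        have := mul_le_mul (b1 p) (s1 p) (norm_nonneg _) (ind_nonneg _)
        have := mul_nonneg hθ (ind_nonneg (∀ r, p r ∈ P))
        linarith
    · rw [sm_add, sm_mul_left, sm_mul_left]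
      have a1 := prod_sm fun (_ : Fin m) => si P
      simp only [Finset.prod_const, Finset.card_univ, Fintype.card_fin] at a1
      have a2 : (sm fun p : Fin m → Pt Γ I => ind (∀ r, p r ∈ P)) ≤ (Λ * DD Γ I) ^ m := by
        simp only [ind_forall]
        exact a1.symm.le.trans (pow_le_pow_left₀ (sm_nonneg fun _ => ind_nonneg _)
          ((div_le_iff₀ hD).1 hl) m)
      have : 0 ≤ N := hN ▸ Nat.cast_nonneg _
      gcongr
  have e3 := (norm_add_le _ _).trans (add_le_add e2 e1)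
  rw [sub_add_sub_cancel, ← Complex.ofReal_sub, Complex.norm_real, Real.norm_eq_abs] at e3
  rw [Finset.prod_div_distrib, prod_sm, Finset.prod_const, Finset.card_univ, Fintype.card_fin]
  refine le_of_mul_le_mul_left ?_ hm
  rw [← abs_of_pos hm, ← abs_mul, abs_of_pos hm, mul_sub, mul_div_cancel₀ _ hm.ne']
  exact e3.trans_eq (by ring)

omit [Finite I] in
lemma pu4_supp {K : Type} [Finite K] {s : ℕ} (o : Pr K s I) (Q : PP K) (i j : I)
    (h : bl (prl o) Q s(i, j) ≠ none) : i ∈ Set.range o.1 := by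
  by_contra hi
  refine h ?_
  have : prl o i = none := by
    have : crd o.1 i = none := dif_neg hi
    simp [prl, lcomp, this]
  simp [bl, lab2, this]

lemma pu4_av {α : Type} [Finite α] {c : ℝ} (h : 0 ≤ c) : av (fun _ : α => c) ≤ c := by
  have := mul_le_mul_of_nonneg_left (av_one_le (α := α)) h
  rwa [← av_mul_left, mul_one] at this

theorem pu4_of (h1 : P1T) (h0 : PU0) (h2 : PU2) (h3 : PU3) : PU4 := by
  intro Γ _ _ m D δ hδ
  rcases m.eq_zero_or_pos with rfl | hm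
  · refine ⟨1, one_pos, fun _ => ⟨0, fun s _ κ => ⟨0, fun I K _ _ _ _ ε P Q t a _ _ => ?_⟩⟩⟩
    have : ∀ (Φ : Lab I K) x, (sm fun p : Fin 0 → Pt Γ I =>
        ind (Mat ε P t Φ x p ∧ Function.Injective p) * ∏ r, a r (wl (p r).1 Φ)) = 1 := fun Φ x => by
      rw [sm_congr (g := fun _ => 1) fun p => by
        rw [ind_pos ⟨fun r => r.elim0, fun r => r.elim0⟩]; simp, sm_const]
      simp
    simp only [EP, this, av_const]
    simp [hδ.le]
  have : Nonempty (Fin m) := ⟨⟨0, hm⟩⟩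
  obtain ⟨η2, hη2, h2⟩ := h2 Γ m D (δ / 4) (by positivity)
  obtain ⟨C, hC, h0⟩ := h0 Γ m
  obtain ⟨N, hN⟩ : ∃ N : ℝ, N = Nat.card ((Fin m → Γ) →+ Ch (Fin m → Γ)) := ⟨_, rfl⟩
  have hN0 : 0 < N := hN ▸ card_pos'
  obtain ⟨Λ, hΛ⟩ : ∃ Λ, Λ = |D 1| + 1 := ⟨_, rfl⟩
  have hΛ1 : 1 ≤ Λ := hΛ ▸ le_add_of_nonneg_left (abs_nonneg _)
  have hL : 0 < Λ ^ m := by positivity
  obtain ⟨β, hβ, hβ1, hβ2⟩ : ∃ β : ℝ, 0 < β ∧ β ≤ 1 / 2 ∧ β ≤ δ / 4 / (N * Λ ^ m) :=
    ⟨min _ _, lt_min (by norm_num) (by positivity), min_le_left _ _, min_le_right _ _⟩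
  obtain ⟨η, hη, e1, e2, e3⟩ : ∃ η : ℝ, 0 < η ∧ η ≤ η2 ∧ η ≤ β ^ 4 ∧ η ≤ δ / 4 / (N * C * Λ ^ m) :=
    ⟨min _ (min _ _), lt_min hη2 (lt_min (by positivity) (by positivity)), min_le_left _ _,
      (min_le_right _ _).trans (min_le_left _ _), (min_le_right _ _).trans (min_le_right _ _)⟩
  refine ⟨η, hη, fun s1 => ?_⟩
  obtain ⟨γ2, hγ2, s0, h2⟩ := h2 s1
  obtain ⟨γ, hγ, g1, g2⟩ : ∃ γ : ℝ, 0 < γ ∧ γ ≤ γ2 ∧ γ ≤ 1 / (2 * (s1 + 1)) :=
    ⟨min _ _, lt_min hγ2 (by positivity), min_le_left _ _, min_le_right _ _⟩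
  refine ⟨s0, fun s hs κ => ?_⟩
  obtain ⟨n2, h2⟩ := h2 s hs κ
  obtain ⟨n1, h1⟩ := h1 Γ (Fin m) (κ * s) γ (δ / 4 / Λ ^ m) hγ (by positivity)
  refine ⟨n1 + n2 + s1 + 1, fun I K _ _ hI hK ε P Q t a hP ha => ?_⟩
  have : Nonempty I := (Nat.card_pos_iff.1 (by omega)).1
  have hl : lam (si P) ≤ Λ := (pu4_lam hP.tm).trans (by rw [hΛ]; linarith [le_abs_self (D 1)])
  have hen : en (si P) < 1 :=
    (hP.ge.trans e2).trans_lt (pow_lt_one₀ hβ.le (by linarith) (by norm_num))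
  have h2' := h2 I K (by omega) hK ε P Q t (pu4_mono hP e1)
  have h0' := h0 I ε P D s1 η γ hP (by omega) hγ (by
    rw [le_div_iff₀ (by positivity)] at g2
    nlinarith)
  have hD1 : D 1 + 1 = Λ := by rw [hΛ, abs_of_nonneg (hP.tm.nonneg 1)]
  rw [hD1] at h0'
  rw [EP, ← av_sub]
  refine (abs_av_le _).trans ((av_mono (g := fun o => (av fun x : OmE Γ I =>
    sm fun p : Fin m → Pt Γ I => ind (Mat ε P t (prl o) (x.1, ovr x.2 (bl (prl o) Q)) p ∧
      Function.Injective p ∧ ¬ Rob γ2 ⊤ (row p))) + 3 * (δ / 4)) fun o => ?_).trans ?_)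
  swap
  · rw [av_add]
    have := pu4_av (α := Pr K s I) (c := 3 * (δ / 4)) (by positivity)
    rw [EP] at h2'
    linarith
  have hM := pu4_main P (fun r p => a r (wl p.1 (prl o))) (fun r p => ha r _)
    (fun p => Rob γ ⊤ (row p))
    (fun p => av fun x : OmE Γ I => ind (∀ r, rs ε (p r) (x.1, ovr x.2 (bl (prl o) Q)) =
      spr (t r) (prl o)))
    (fun μ => (∀ a, μ a a = 0) ∧ ∀ d ∈ Dg (Fin m) Γ, μ d = 0) ⟨fun _ => by simp, fun _ _ => by simp⟩
    (fun μ p => ∑ᶠ i, μ (row p i) fun r => spr (t r) (prl o) i - (p r).2 i) (fun p => by simp)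
    (θ := δ / 4 / Λ ^ m) (c1 := β * Λ ^ m) (by positivity) (by positivity) hl
    (fun p hp => by
      have := h1 I (by omega) ε p (fun r => spr (t r) (prl o)) (bl (prl o) Q) (Set.range o.1)
        (by
          rw [Set.ncard_range_of_injective o.1.injective, Nat.card_prod, Nat.card_fin]
          exact Nat.mul_le_mul_right _ hK) (pu4_supp o Q) hp
      rwa [Nat.card_fin] at this) h0'
    fun μ hμ hne => pu4_cancel h3 μ hμ.1 hμ.2 hne P (fun r p => a r (wl p.1 (prl o)))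
      (fun r p => ha r _) (fun r => spr (t r) (prl o)) hβ.le (by linarith) hΛ1
      hl (fun G h h' => (hP.gc G h h').trans e2) (hP.ge.trans e2)
  rw [← hN] at hM
  have b1 : δ / 4 / Λ ^ m * Λ ^ m + N * (C * η * Λ ^ m + β * Λ ^ m) ≤ 3 * (δ / 4) := by
    rw [le_div_iff₀ (by positivity)] at hβ2 e3
    rw [div_mul_cancel₀ _ hL.ne']
    nlinarith
  rw [av_mul_left, ← mul_sub, abs_mul, abs_ind]
  refine (mul_le_of_le_one_left (abs_nonneg _) (ind_le_one _)).trans ?_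
  refine (abs_sub_le _ _ _).trans (add_le_add ?_ (hM.trans b1))
  simp only [← av_mul_left]
  rw [← av_sm_comm, ← av_sub]
  refine (abs_av_le _).trans (av_mono fun x => ?_)
  rw [← sm_sub]
  refine (abs_sm_le _).trans (sm_mono fun p => ?_)
  have b2 : |∏ r, a r (wl (p r).1 (prl o))| ≤ 1 := by
    rw [Finset.abs_prod]
    exact Finset.prod_le_one (fun _ _ => abs_nonneg _) fun r _ => ha r _
  have b3 : ind (Rob γ ⊤ (row p)) * (∏ r, si P (p r) * a r (wl (p r).1 (prl o))) *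
      ind (∀ r, rs ε (p r) (x.1, ovr x.2 (bl (prl o) Q)) = spr (t r) (prl o)) =
      ind (Mat ε P t (prl o) (x.1, ovr x.2 (bl (prl o) Q)) p ∧ Rob γ ⊤ (row p)) *
        ∏ r, a r (wl (p r).1 (prl o)) := by
    rw [Finset.prod_mul_distrib, ind_and, Mat, ind_congr forall_and, ind_and,
      ind_forall fun r => p r ∈ P]
    simp only [si]
    ring
  rw [b3, ← sub_mul, abs_mul]
  refine (mul_le_of_le_one_right (abs_nonneg _) b2).trans ?_
  by_cases hr : Rob γ ⊤ (row p)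
  · rw [ind_congr (p := _ ∧ Function.Injective p) (q := _ ∧ Rob γ ⊤ (row p))
      (and_congr_right fun h => iff_of_true (pu4_inj hen hγ (fun r => (h r).1) hr) hr),
      sub_self, abs_zero]
    exact ind_nonneg _
  · rw [ind_neg (p := _ ∧ Rob γ ⊤ (row p)) fun h => hr h.2, sub_zero, abs_ind]
    exact ind_mono fun h => ⟨h.1, h.2, fun h' => hr fun W a b =>
      (mul_le_mul_of_nonneg_right g1 (Nat.cast_nonneg _)).trans (h' W a b)⟩

end NE
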