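import Pool.Agent.Lib.MP_ecee09_co.NE.CBase

/-! Weighted counts of pairs in cosets and of additive quadruples. -/

namespace NE

open SD

section grp
variable {X Y : Type} [AddCommGroup X] [Finite X] [AddCommGroup Y] [Finite Y]

/-- weighted number of pairs in one coset -/
noncomputable def hq (H : AddSubgroup X) (m m' : X → ℝ) : ℝ :=
  sm fun p => sm fun p' => m p * m' p' * ind (p - p' ∈ H)

/-- convolution -/
noncomputable def cnv (m m' : X → ℝ) (s : X) : ℝ := sm fun a => m a * m' (s - a)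

/-- weighted number of additive quadruples -/
noncomputable def ead (m1 m2 m3 m4 : X → ℝ) : ℝ :=
  sm fun a => sm fun b => sm fun c => m1 a * m2 b * m3 c * m4 (a + b - c)

/-- push a weight forward -/
noncomputable def psh {α β : Type} (f : α → β) (m : α → ℝ) (y : β) : ℝ :=
  sm fun p => m p * ind (f p = y)

lemma psh_nonneg {α β : Type} [Finite α] (f : α → β) {m : α → ℝ} (h : ∀ p, 0 ≤ m p) (y : β) :
    0 ≤ psh f m y := sm_nonneg fun p => mul_nonneg (h p) (ind_nonneg _)

lemma psh_add {α β : Type} [Finite α] (f : α → β) (m m' : α → ℝ) (y : β) :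
    psh f (fun p => m p + m' p) y = psh f m y + psh f m' y := by
  simp only [psh, add_mul, sm_add]

lemma sm_psh_mul {α β : Type} [Finite α] [Finite β] (f : α → β) (m : α → ℝ) (g : β → ℝ) :
    (sm fun y => psh f m y * g y) = sm fun p => m p * g (f p) := by
  simp only [psh, ← sm_mul_right]
  rw [sm_comm]
  exact sm_congr fun p => by
    rw [← sm_ind_eq' (f p) g, ← sm_mul_left]; exact sm_congr fun y => mul_assoc _ _ _

lemma psh_mul {α α' β : Type} [Finite α] [Finite α'] [Finite β] (f : α → β) (f' : α' → β)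
    (m : α → ℝ) (m' : α' → ℝ) : (sm fun y => psh f m y * psh f' m' y) =
      sm fun p => sm fun p' => m p * m' p' * ind (f p = f' p') := by
  rw [sm_psh_mul]
  refine sm_congr fun p => ?_
  rw [psh, ← sm_mul_left]
  exact sm_congr fun p' => by rw [mul_assoc, ind_congr eq_comm]

lemma sm_sq_le_card {α : Type} [Finite α] (f : α → ℝ) :
    sm f ^ 2 ≤ Nat.card α * sm fun x => f x ^ 2 := by
  simpa only [one_mul, one_pow, sm_const, mul_one] using sm_cs (fun _ => 1) f

lemma hq_eq (H : AddSubgroup X) (m m' : X → ℝ) : hq H m m' =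
    sm fun c : X ⧸ H => psh QuotientAddGroup.mk m c * psh QuotientAddGroup.mk m' c := by
  rw [psh_mul]
  simp only [hq, QuotientAddGroup.eq_iff_sub_mem]

lemma hq_self_nonneg (H : AddSubgroup X) (m : X → ℝ) : 0 ≤ hq H m m := by
  rw [hq_eq]; exact sm_nonneg fun _ => mul_self_nonneg _

lemma hq_cs (H : AddSubgroup X) (m m' : X → ℝ) : hq H m m' ^ 2 ≤ hq H m m * hq H m' m' := by
  simp only [hq_eq, ← sq]; exact sm_cs _ _

lemma hq_le_half (H : AddSubgroup X) (m m' : X → ℝ) :
    hq H m m' ≤ (hq H m m + hq H m' m') / 2 := by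
  simp only [hq_eq]
  rw [← sm_add, ← sm_div]
  exact sm_mono fun c => by
    nlinarith [sq_nonneg (psh QuotientAddGroup.mk m c - psh QuotientAddGroup.mk m' c)]

lemma hq_add_le (H : AddSubgroup X) (m m' : X → ℝ) :
    hq H (fun p => m p + m' p) (fun p => m p + m' p) ≤ 2 * hq H m m + 2 * hq H m' m' := by
  simp only [hq_eq, psh_add]
  rw [← sm_mul_left, ← sm_mul_left, ← sm_add]
  exact sm_mono fun c => by
    nlinarith [sq_nonneg (psh QuotientAddGroup.mk m c - psh QuotientAddGroup.mk m' c)]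

lemma hq_mono {H H' : AddSubgroup X} (h : H ≤ H') {m1 m2 m1' m2' : X → ℝ} (h1 : ∀ p, 0 ≤ m1 p)
    (h2 : ∀ p, 0 ≤ m2 p) (h1' : ∀ p, m1 p ≤ m1' p) (h2' : ∀ p, m2 p ≤ m2' p) :
    hq H m1 m2 ≤ hq H' m1' m2' :=
  sm_mono fun p => sm_mono fun p' =>
    mul_le_mul (mul_le_mul (h1' p) (h2' p') (h2 p') ((h1 p).trans (h1' p)))
      (ind_mono fun hp => h hp) (ind_nonneg _)
      (mul_nonneg ((h1 p).trans (h1' p)) ((h2 p').trans (h2' p')))

/-- cutting the cosets of `H` by a map that takes `H` into `S` -/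
lemma hq_le_card (H : AddSubgroup X) (T : X →+ Y) (S : AddSubgroup Y) (hT : ∀ h ∈ H, T h ∈ S)
    (m : X → ℝ) : hq H m m ≤ Nat.card S * hq (H ⊓ T.ker) m m := by
  have hm : ∀ p : X, p - (QuotientAddGroup.mk p : X ⧸ H).out ∈ H := fun p =>
    QuotientAddGroup.eq_iff_sub_mem.1 (QuotientAddGroup.out_eq' _).symm
  let f : X → (X ⧸ H) × S := fun p => (QuotientAddGroup.mk p, ⟨T _, hT _ (hm p)⟩)
  have e : ∀ p p', f p = f p' ↔ p - p' ∈ H ⊓ T.ker := fun p p' => by
    rw [Prod.ext_iff, Subtype.ext_iff, AddSubgroup.mem_inf, ← QuotientAddGroup.eq_iff_sub_mem]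
    refine and_congr_right fun h => ?_
    have h' : (QuotientAddGroup.mk p : X ⧸ H) = QuotientAddGroup.mk p' := h
    show T (p - (QuotientAddGroup.mk p : X ⧸ H).out) =
      T (p' - (QuotientAddGroup.mk p' : X ⧸ H).out) ↔ _
    rw [h', map_sub, map_sub, sub_left_inj, AddMonoidHom.mem_ker, map_sub, sub_eq_zero]
  have e2 : hq (H ⊓ T.ker) m m = sm fun z => psh f m z * psh f m z := by
    rw [psh_mul]; simp only [hq, e]
  have e3 : ∀ c : X ⧸ H, psh QuotientAddGroup.mk m c = sm fun s : S => psh f m (c, s) :=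
    fun c => by
      simp only [psh]
      rw [sm_comm]
      refine sm_congr fun p => ?_
      rw [sm_mul_left]
      congr 1
      rw [← sm_ind_eq' (f p).2 fun _ => ind ((f p).1 = c)]
      exact sm_congr fun s => by rw [← ind_and, ind_congr (Prod.ext_iff.trans and_comm)]
  rw [e2, hq_eq, sm_prod, ← sm_mul_left]
  refine sm_mono fun c => ?_
  simp only [← sq]
  rw [e3]
  exact sm_sq_le_card _

lemma cnv_nonneg {m m' : X → ℝ} (h : ∀ p, 0 ≤ m p) (h' : ∀ p, 0 ≤ m' p) (s : X) :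
    0 ≤ cnv m m' s := sm_nonneg fun _ => mul_nonneg (h _) (h' _)

omit [Finite X] in
lemma cnv_comm (m m' : X → ℝ) (s : X) : cnv m m' s = cnv m' m s := by
  rw [cnv, cnv, ← sm_equiv (Equiv.subLeft s)]
  exact sm_congr fun a => by simp [mul_comm]

lemma ead_eq_cnv (m1 m2 m3 m4 : X → ℝ) :
    ead m1 m2 m3 m4 = sm fun s => cnv m1 m2 s * cnv m3 m4 s := by
  simp only [cnv, sm_mul_sm]
  rw [sm_comm, ead]
  refine sm_congr fun a => ?_
  rw [← sm_add_left (fun s => sm fun c => m1 a * m2 (s - a) * (m3 c * m4 (s - c))) a]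
  exact sm_congr fun b => sm_congr fun c => by rw [add_sub_cancel_left]; ring

lemma ead_eq_cor (m1 m2 m3 m4 : X → ℝ) : ead m1 m2 m3 m4 =
    sm fun t => (sm fun c => m1 (c + t) * m3 c) * sm fun b => m4 (b + t) * m2 b := by
  simp only [sm_mul_sm]
  rw [sm_comm, ead, sm_congr fun a => sm_comm _, sm_comm]
  refine sm_congr fun c => ?_
  rw [← sm_add_left (fun a => sm fun b => m1 a * m2 b * m3 c * m4 (a + b - c)) c]
  exact sm_congr fun t => sm_congr fun b => by
    rw [show c + t + b - c = b + t by abel]; ring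

lemma ead_self_nonneg (m m' : X → ℝ) : 0 ≤ ead m m' m m' := by
  rw [ead_eq_cnv]; exact sm_nonneg fun _ => mul_self_nonneg _

lemma ead_mixed_sq (m m' : X → ℝ) : ead m m' m m' ^ 2 ≤ ead m m m m * ead m' m' m' m' := by
  simp only [ead_eq_cor, ← sq]; exact sm_cs _ _

lemma ead_mixed_le (m m' : X → ℝ) : ead m m' m m' ≤ (ead m m m m + ead m' m' m' m') / 2 := by
  simp only [ead_eq_cor]
  rw [← sm_add, ← sm_div]
  exact sm_mono fun t => by
    nlinarith [sq_nonneg ((sm fun c => m (c + t) * m c) - sm fun c => m' (c + t) * m' c)]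

lemma ead_sq_le (m1 m2 m3 m4 : X → ℝ) :
    ead m1 m2 m3 m4 ^ 2 ≤ ead m1 m2 m1 m2 * ead m3 m4 m3 m4 := by
  simp only [ead_eq_cnv, ← sq]; exact sm_cs _ _

lemma ead_pow_four (m1 m2 m3 m4 : X → ℝ) : ead m1 m2 m3 m4 ^ 4 ≤
    ead m1 m1 m1 m1 * ead m2 m2 m2 m2 * (ead m3 m3 m3 m3 * ead m4 m4 m4 m4) := by
  have h := pow_le_pow_left₀ (sq_nonneg _) (ead_sq_le m1 m2 m3 m4) 2
  rw [← pow_mul, mul_pow] at h
  exact h.trans (mul_le_mul (ead_mixed_sq _ _) (ead_mixed_sq _ _) (sq_nonneg _)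
    (mul_nonneg (ead_self_nonneg _ _) (ead_self_nonneg _ _)))

lemma ead_add_le (m m' : X → ℝ) :
    ead (fun p => m p + m' p) (fun p => m p + m' p) (fun p => m p + m' p) (fun p => m p + m' p) ≤
      8 * ead m m m m + 8 * ead m' m' m' m' := by
  have e : ∀ s, cnv (fun p => m p + m' p) (fun p => m p + m' p) s =
      cnv m m s + 2 * cnv m m' s + cnv m' m' s := fun s => by
    rw [two_mul, ← add_assoc]
    nth_rewrite 2 [cnv_comm m m']
    simp only [cnv, ← sm_add]
    exact sm_congr fun a => by ring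
  have h := ead_mixed_le m m'
  have h2 : (sm fun s => (cnv m m s + 2 * cnv m m' s + cnv m' m' s) *
      (cnv m m s + 2 * cnv m m' s + cnv m' m' s)) ≤ sm fun s => 4 * (cnv m m s * cnv m m s) +
        8 * (cnv m m' s * cnv m m' s) + 4 * (cnv m' m' s * cnv m' m' s) := sm_mono fun s => by
    nlinarith [sq_nonneg (cnv m m s - cnv m m' s), sq_nonneg (cnv m' m' s - cnv m m' s),
      sq_nonneg (cnv m m s - cnv m' m' s)]
  rw [sm_add, sm_add, sm_mul_left, sm_mul_left, sm_mul_left, ← ead_eq_cnv, ← ead_eq_cnv,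
    ← ead_eq_cnv] at h2
  rw [ead_eq_cnv]
  simp only [e]
  linarith

lemma ead_mono {m m' : X → ℝ} (h0 : ∀ p, 0 ≤ m p) (h : ∀ p, m p ≤ m' p) :
    ead m m m m ≤ ead m' m' m' m' :=
  sm_mono fun a => sm_mono fun b => sm_mono fun c => by
    have h1 := fun p => (h0 p).trans (h p)
    have := h0 a; have := h0 b; have := h0 c; have := h0 (a + b - c)
    have := h1 a; have := h1 b; have := h1 c
    gcongr <;> exact h _

lemma cnv_psh (T : X →+ Y) (m m' : X → ℝ) (y : Y) :
    cnv (psh T m) (psh T m') y = psh T (cnv m m') y := by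
  rw [cnv, sm_psh_mul T m fun a => psh T m' (y - a)]
  simp only [psh, cnv, ← sm_mul_right, ← sm_mul_left]
  rw [sm_comm fun s a => m a * m' (s - a) * ind (T s = y)]
  refine sm_congr fun a => ?_
  rw [← sm_add_left (fun s => m a * m' (s - a) * ind (T s = y)) a]
  exact sm_congr fun b => by
    rw [add_sub_cancel_left, map_add, mul_assoc, ind_congr eq_sub_iff_add_eq']

lemma ead_le_psh (T : X →+ Y) {m : X → ℝ} (h0 : ∀ p, 0 ≤ m p) :
    ead m m m m ≤ ead (psh T m) (psh T m) (psh T m) (psh T m) := by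
  simp only [ead_eq_cnv, cnv_psh]
  rw [psh_mul]
  refine sm_mono fun s => le_trans (le_of_eq ?_) (single_le_sm
    (f := fun s' => cnv m m s * cnv m m s' * ind (T s = T s'))
    (fun s' => mul_nonneg (mul_nonneg (cnv_nonneg h0 h0 _) (cnv_nonneg h0 h0 _)) (ind_nonneg _)) s)
  rw [ind_pos rfl, mul_one]

lemma cnv_sq_le (m m' : X → ℝ) (s : X) :
    cnv m m' s ^ 2 ≤ (sm fun z => m z ^ 2) * sm fun z => m' z ^ 2 := by
  rw [← sm_equiv (Equiv.subLeft s) fun z => m' z ^ 2]
  exact sm_cs _ _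

lemma ead_le_four (m : X → ℝ) :
    ead m m m m ≤ (Nat.card X : ℝ) ^ 2 * sm fun z => m z ^ 4 := by
  have h := sm_sq_le_card fun z => m z ^ 2
  simp only [← pow_mul] at h
  rw [ead_eq_cnv]
  simp only [← sq]
  refine (sm_mono fun s => cnv_sq_le m m s).trans ?_
  rw [sm_const, ← sq, sq (Nat.card X : ℝ), mul_assoc]
  exact mul_le_mul_of_nonneg_left h (Nat.cast_nonneg _)

lemma hq_eq_cor (H : AddSubgroup X) (m m' : X → ℝ) :
    hq H m m' = sm fun t => ind (t ∈ H) * sm fun c => m (c + t) * m' c := by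
  simp only [← sm_mul_left]
  rw [hq, sm_comm, sm_comm fun t c => ind (t ∈ H) * (m (c + t) * m' c)]
  refine sm_congr fun c => ?_
  rw [← sm_add_left (fun p => m p * m' c * ind (p - c ∈ H)) c]
  exact sm_congr fun t => by rw [add_sub_cancel_left, mul_comm]

lemma hq_sq_le_ead (H : AddSubgroup X) (m : X → ℝ) :
    hq H m m ^ 2 ≤ Nat.card H * ead m m m m := by
  have h := sm_cs (fun t => ind (t ∈ H)) fun t => sm fun c => m (c + t) * m c
  have h2 : (sm fun t => ind (t ∈ H)) = Nat.card H := cnt_eq_card (H : Set X)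
  simp only [ind_sq, h2] at h
  rw [hq_eq_cor, ead_eq_cor]
  simpa only [sq] using h

end grp

end NE
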