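import Pool.Agent.Lib.MP_ecee09_co.NE.Stmts4
import Pool.Agent.Lib.MP_ecee09_co.NE.StatA
import Pool.Agent.Lib.MP_ecee09_co.NE.BF

/-! Statistics of weighted sets of particles. -/

namespace NE

open SD

section stat
variable {Γ I K : Type} [AddCommGroup Γ] [Finite Γ] [Finite I] [Finite K]

lemma DD_pos' (Γ I : Type) [Finite Γ] [Nonempty Γ] : 0 < DD Γ I := pow_pos card_pos' _

lemma DD_eq_card (Γ I : Type) [Finite Γ] [Finite I] : DD Γ I = Nat.card (I → Γ) := by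
  rw [Nat.card_fun]; push_cast; rfl

omit [Finite Γ] [Finite I] in
lemma DD_top' : DD (⊤ : AddSubgroup Γ) I = DD Γ I := by rw [DD, AddSubgroup.card_top]; rfl

omit [Finite Γ] [Finite I] in
lemma DD_bot' : DD (⊥ : AddSubgroup Γ) I = 1 := by simp [DD]

omit [Finite Γ] [Finite I] in
lemma DD_quot' (G : AddSubgroup Γ) : DD (Γ ⧸ G) I * DD G I = DD Γ I := by
  rw [DD, DD, DD, ← mul_pow, AddSubgroup.card_eq_card_quotient_mul_card_addSubgroup G]
  push_cast; rfl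

/-- the particles with `v` in `G1` and `xi` in `G2` at every index -/
def ptH (I : Type) (G1 G2 : AddSubgroup Γ) : AddSubgroup (Pt Γ I) where
  carrier := {p | ∀ i, p.1 i ∈ G1 ∧ p.2 i ∈ G2}
  zero_mem' := fun _ => ⟨G1.zero_mem, G2.zero_mem⟩
  add_mem' := fun ha hb i => ⟨G1.add_mem (ha i).1 (hb i).1, G2.add_mem (ha i).2 (hb i).2⟩
  neg_mem' := fun ha i => ⟨G1.neg_mem (ha i).1, G2.neg_mem (ha i).2⟩

omit [Finite Γ] [Finite I] in
lemma mem_ptH {G1 G2 : AddSubgroup Γ} {p : Pt Γ I} :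
    p ∈ ptH I G1 G2 ↔ ∀ i, p.1 i ∈ G1 ∧ p.2 i ∈ G2 := Iff.rfl

lemma card_ptH (G1 G2 : AddSubgroup Γ) :
    (Nat.card (ptH I G1 G2) : ℝ) = DD G1 I * DD G2 I := by
  have e : ptH I G1 G2 ≃ (I → G1) × (I → G2) :=
    ⟨fun p => (fun i => ⟨p.1.1 i, (p.2 i).1⟩, fun i => ⟨p.1.2 i, (p.2 i).2⟩),
      fun q => ⟨(fun i => q.1 i, fun i => q.2 i), fun i => ⟨(q.1 i).2, (q.2 i).2⟩⟩,
      fun _ => rfl, fun _ => rfl⟩
  rw [Nat.card_congr e, Nat.card_prod, DD_eq_card, DD_eq_card]; push_cast; rfl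

/-- the vectors with values in `G` -/
def vecH (I : Type) (G : AddSubgroup Γ) : AddSubgroup (I → Γ) :=
  AddSubgroup.pi Set.univ fun _ => G

omit [Finite Γ] [Finite I] in
lemma mem_vecH {G : AddSubgroup Γ} {v : I → Γ} : v ∈ vecH I G ↔ ∀ i, v i ∈ G :=
  ⟨fun h i => h i trivial, fun h i _ => h i⟩

lemma card_vecH (G : AddSubgroup Γ) : (Nat.card (vecH I G) : ℝ) = DD G I := by
  have e : vecH I G ≃ (I → G) :=
    ⟨fun p i => ⟨p.1 i, mem_vecH.1 p.2 i⟩, fun q => ⟨fun i => q i, mem_vecH.2 fun i => (q i).2⟩,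
      fun _ => rfl, fun _ => rfl⟩
  rw [Nat.card_congr e, DD_eq_card]

omit [Finite Γ] [Finite I] in
lemma coll_eq (m : Pt Γ I → ℝ) (G : AddSubgroup Γ) :
    coll m G = hq (ptH I G G) m m / (DD G I * DD Γ I) := rfl

omit [Finite Γ] [Finite I] in
lemma co_eq (m : Pt Γ I → ℝ) (G : AddSubgroup Γ) :
    co m G = hq (ptH I ⊥ G) m m / (DD G I * DD Γ I) := by
  simp only [co, hq, mem_ptH, forall_and, AddSubgroup.mem_bot, Prod.fst_sub, Prod.snd_sub,
    Pi.sub_apply, sub_eq_zero, funext_iff]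

omit [Finite Γ] [Finite I] in
lemma att_eq (m : Pt Γ I → ℝ) (G : AddSubgroup Γ) :
    att m G = hq (ptH I G ⊤) m m / DD Γ I ^ 2 := by
  simp only [att, hq, mem_ptH, AddSubgroup.mem_top, and_true, Prod.fst_sub, Pi.sub_apply]

omit [Finite Γ] [Finite I] in
lemma en_eq (m : Pt Γ I → ℝ) : en m = ead m m m m / DD Γ I ^ 3 := rfl

lemma coll_nonneg (m : Pt Γ I → ℝ) (G : AddSubgroup Γ) : 0 ≤ coll m G :=
  div_nonneg (hq_self_nonneg (ptH I G G) m) (mul_pos (DD_pos' _ _) (DD_pos' _ _)).le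

lemma co_nonneg (m : Pt Γ I → ℝ) (G : AddSubgroup Γ) : 0 ≤ co m G := by
  rw [co_eq]; exact div_nonneg (hq_self_nonneg _ m) (mul_pos (DD_pos' _ _) (DD_pos' _ _)).le

lemma att_nonneg (m : Pt Γ I → ℝ) (G : AddSubgroup Γ) : 0 ≤ att m G := by
  rw [att_eq]; exact div_nonneg (hq_self_nonneg _ m) (sq_nonneg _)

lemma en_nonneg (m : Pt Γ I → ℝ) : 0 ≤ en m :=
  div_nonneg (ead_self_nonneg m m) (pow_pos (DD_pos' _ _) _).le

lemma coll_mono {m m' : Pt Γ I → ℝ} (h0 : ∀ p, 0 ≤ m p) (h : ∀ p, m p ≤ m' p)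
    (G : AddSubgroup Γ) : coll m G ≤ coll m' G :=
  div_le_div_of_nonneg_right (hq_mono (H := ptH I G G) le_rfl h0 h0 h h)
    (mul_pos (DD_pos' _ _) (DD_pos' _ _)).le

lemma en_mono {m m' : Pt Γ I → ℝ} (h0 : ∀ p, 0 ≤ m p) (h : ∀ p, m p ≤ m' p) : en m ≤ en m' :=
  div_le_div_of_nonneg_right (ead_mono h0 h) (pow_pos (DD_pos' _ _) _).le

lemma coll_add_le (m m' : Pt Γ I → ℝ) (G : AddSubgroup Γ) :
    coll (fun p => m p + m' p) G ≤ 2 * coll m G + 2 * coll m' G := by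
  simp only [coll_eq]
  rw [← mul_div_assoc, ← mul_div_assoc, ← add_div]
  exact div_le_div_of_nonneg_right (hq_add_le _ m m') (mul_pos (DD_pos' _ _) (DD_pos' _ _)).le

lemma en_add_le (m m' : Pt Γ I → ℝ) : en (fun p => m p + m' p) ≤ 8 * en m + 8 * en m' := by
  simp only [en_eq]
  rw [← mul_div_assoc, ← mul_div_assoc, ← add_div]
  exact div_le_div_of_nonneg_right (ead_add_le m m') (pow_pos (DD_pos' _ _) _).le

lemma co_le_coll {m : Pt Γ I → ℝ} (h0 : ∀ p, 0 ≤ m p) (G : AddSubgroup Γ) :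
    co m G ≤ coll m G := by
  rw [co_eq, coll_eq]
  exact div_le_div_of_nonneg_right (hq_mono (fun p hp i => ⟨bot_le (a := G) (hp i).1, (hp i).2⟩)
    h0 h0 (fun _ => le_rfl) fun _ => le_rfl) (mul_pos (DD_pos' _ _) (DD_pos' _ _)).le

lemma co_top_sq (m : Pt Γ I → ℝ) : co m ⊤ ^ 2 ≤ en m := by
  have h := hq_sq_le_ead (ptH I ⊥ ⊤) m
  have h0 := DD_pos' Γ I
  rw [card_ptH, DD_bot', DD_top', one_mul] at h
  rw [co_eq, en_eq, DD_top', div_pow, div_le_div_iff₀ (by positivity) (by positivity)]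
  calc _ ≤ DD Γ I * ead m m m m * DD Γ I ^ 3 := mul_le_mul_of_nonneg_right h (by positivity)
    _ = _ := by ring

lemma att_le_coll (m : Pt Γ I → ℝ) (G : AddSubgroup Γ) : att m G ≤ coll m G := by
  let T : Pt Γ I →+ (I → Γ ⧸ G) :=
    AddMonoidHom.mk' (fun p i => QuotientAddGroup.mk (p.2 i)) fun _ _ => rfl
  have h := hq_le_card (ptH I G ⊤) T ⊤ (fun _ _ => trivial) m
  have e : ptH I G ⊤ ⊓ T.ker = ptH I G G := by
    ext p
    rw [AddSubgroup.mem_inf, AddMonoidHom.mem_ker, funext_iff, mem_ptH, mem_ptH, ← forall_and]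
    exact forall_congr' fun i => by
      rw [and_assoc]
      exact and_congr_right fun _ => (and_iff_right trivial).trans (QuotientAddGroup.eq_zero_iff _)
  have h0 := DD_pos' Γ I
  have h1 := DD_pos' G I
  rw [e, AddSubgroup.card_top, ← DD_eq_card] at h
  rw [att_eq, coll_eq, div_le_div_iff₀ (by positivity) (by positivity)]
  calc _ ≤ DD (Γ ⧸ G) I * hq (ptH I G G) m m * (DD G I * DD Γ I) :=
        mul_le_mul_of_nonneg_right h (by positivity)
    _ = hq (ptH I G G) m m * (DD (Γ ⧸ G) I * DD G I * DD Γ I) := by ring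
    _ = _ := by rw [DD_quot', sq]

omit [Finite Γ] [Finite I] in
lemma att_bot (m : Pt Γ I → ℝ) : att m ⊥ = co m ⊤ := by rw [att_eq, co_eq, DD_top', sq]

/-- `TM A` as a homomorphism -/
noncomputable def TMh (A : Om I) : Pt Γ I →+ (I → Γ) :=
  AddMonoidHom.mk' (TM A) fun p p' => by
    simp only [TM, Prod.fst_add, Prod.snd_add, adj_add]; abel

lemma av_NN_pow (ε : Γ) (m : Pt Γ I → ℝ) (k : ℕ) : (av fun x => NN ε m x ^ k) =
    av fun A : Om I => (sm fun z => psh (TMh A) m z ^ k) / DD Γ I := by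
  rw [av_prod, av_comm]
  refine av_congr fun A => ?_
  rw [av_def, DD_eq_card,
    ← sm_equiv (Equiv.subLeft fun i => -((A s(i, i)).val • ε)) fun z => psh (TMh A) m z ^ k]
  congr 1
  refine sm_congr fun b => congrArg (· ^ k) (sm_congr fun p => congrArg _ (ind_congr ?_))
  rw [funext_iff, funext_iff]
  refine forall_congr' fun i => ?_
  show b i + adj A p.1 i + (A s(i, i)).val • ε + p.2 i = 0 ↔
    adj A p.1 i + p.2 i = -((A s(i, i)).val • ε) - b i
  rw [← sub_eq_zero (a := adj A p.1 i + p.2 i)]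
  exact Eq.congr_left (by abel)

lemma coll_le_NN (ε : Γ) {m : Pt Γ I → ℝ} (h0 : ∀ p, 0 ≤ m p) (G : AddSubgroup Γ) :
    coll m G ≤ av fun x => NN ε m x ^ 2 := by
  rw [av_NN_pow]
  refine const_le_av fun A => ?_
  have h := hq_le_card (ptH I G G) (TMh A) (vecH I G) (fun p hp => mem_vecH.2 fun i => by
    let _ := Fintype.ofFinite I
    show adj A p.1 i + p.2 i ∈ G
    rw [adj_eq]
    exact G.add_mem (G.sum_mem fun j _ => G.nsmul_mem (hp j).1 _) (hp i).2) m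
  have h2 : hq (ptH I G G ⊓ (TMh A).ker) m m ≤ sm fun z => psh (TMh A) m z ^ 2 := by
    refine (hq_mono inf_le_right h0 h0 (fun _ => le_rfl) fun _ => le_rfl).trans (le_of_eq ?_)
    simp only [sq, psh_mul, hq, AddMonoidHom.mem_ker, map_sub, sub_eq_zero]
  have h1 := DD_pos' G I
  rw [card_vecH] at h
  rw [coll_eq, ← div_div]
  refine div_le_div_of_nonneg_right ?_ (DD_pos' Γ I).le
  rw [div_le_iff₀' h1]
  exact h.trans (mul_le_mul_of_nonneg_left h2 h1.le)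

lemma co_le_NN (ε : Γ) {m : Pt Γ I → ℝ} (h0 : ∀ p, 0 ≤ m p) (G : AddSubgroup Γ) :
    co m G ≤ av fun x => NN ε m x ^ 2 := (co_le_coll h0 G).trans (coll_le_NN ε h0 G)

lemma att_le_NN (ε : Γ) {m : Pt Γ I → ℝ} (h0 : ∀ p, 0 ≤ m p) (G : AddSubgroup Γ) :
    att m G ≤ av fun x => NN ε m x ^ 2 := (att_le_coll m G).trans (coll_le_NN ε h0 G)

lemma en_le_NN (ε : Γ) {m : Pt Γ I → ℝ} (h0 : ∀ p, 0 ≤ m p) :
    en m ≤ av fun x => NN ε m x ^ 4 := by
  rw [av_NN_pow]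
  refine const_le_av fun A => ?_
  have h := (ead_le_psh (TMh A) h0).trans (ead_le_four _)
  have h1 := DD_pos' Γ I
  rw [← DD_eq_card] at h
  rw [en_eq, div_le_div_iff₀ (by positivity) h1]
  calc _ ≤ DD Γ I ^ 2 * (sm fun z => psh (TMh A) m z ^ 4) * DD Γ I :=
        mul_le_mul_of_nonneg_right h h1.le
    _ = _ := by ring

omit [Finite Γ] [Finite I] in
lemma en_si (P : Set (Pt Γ I)) : en (si P) = NE.energy P / DD Γ I ^ 3 := by
  simp only [en, NE.energy, si, ind_and, mul_assoc]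

omit [Finite K] in
lemma mm_nonneg' (ε : Γ) {m : Pt Γ I → ℝ} (h0 : ∀ p, 0 ≤ m p) (x : OmE Γ I) (Φ : Lab I K)
    (q : Pt Γ K) : 0 ≤ mm ε m x Φ q := sm_nonneg fun p => mul_nonneg (h0 p) (ind_nonneg _)

omit [Finite K] in
/-- mean multiplicity of a sub-particle -/
lemma av_mm (ε : Γ) (m : Pt Γ I → ℝ) (Φ : Lab I K) (q : Pt Γ K) :
    (av fun x => mm ε m x Φ q) = (sm fun p => m p * ind (q.1 = wl p.1 Φ)) / DD Γ I := by
  simp only [mm, Sub, ind_and, ← mul_assoc]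
  rw [av_sm_comm, ← sm_div]
  refine sm_congr fun p => ?_
  rw [av_mul_left, div_eq_mul_one_div, av_prod, av_comm, DD_eq_card]
  congr 1
  refine (av_congr fun A => ?_).trans (av_const _)
  rw [← av_ind_eq (spr q.2 Φ - rs ε p (cell (0, A) Φ 0)) fun _ => 1]
  refine av_congr fun b => ?_
  rw [mul_one, ind_congr eq_sub_iff_add_eq]
  refine congrArg (fun z => ind (z = spr q.2 Φ)) (funext fun i => ?_)
  simp only [rs, cell, Pi.add_apply, zero_add, add_assoc]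

/-- global from local for label collisions -/
lemma att_gl (ε : Γ) (m : Pt Γ I → ℝ) (Φ : Lab I K) (G : AddSubgroup Γ) :
    (sm fun p => sm fun p' => m p * m p' * ind (∀ a, wl p.1 Φ a - wl p'.1 Φ a ∈ G)) / DD Γ I ^ 2 ≤
      av fun x => att (mm ε m x Φ) G := by
  let f : (K → Γ) → K → Γ ⧸ G := fun v a => QuotientAddGroup.mk (v a)
  have hf : ∀ v v', f v = f v' ↔ ∀ a, v a - v' a ∈ G := fun v v' => by
    rw [funext_iff]; exact forall_congr' fun a => QuotientAddGroup.eq_iff_sub_mem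
  have hK := DD_pos' Γ K
  have e1 : ∀ c, (av fun x => psh (fun q : Pt Γ K => f q.1) (mm ε m x Φ) c) =
      DD Γ K * (psh (fun p : Pt Γ I => f (wl p.1 Φ)) m c / DD Γ I) := fun c => by
    simp only [psh]
    rw [av_sm_comm]
    simp only [av_mul_right, av_mm]
    rw [sm_prod]
    simp only [sm_const, sm_mul_left, ← DD_eq_card, div_mul_eq_mul_div, sm_div]
    congr 2
    simp only [← sm_mul_right]
    rw [sm_comm]
    refine sm_congr fun p => ?_
    simp only [mul_assoc]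
    rw [sm_mul_left, sm_ind_eq (wl p.1 Φ) fun v => ind (f v = c)]
  simp only [att, ← hf]
  rw [← psh_mul (fun p : Pt Γ I => f (wl p.1 Φ)) (fun p : Pt Γ I => f (wl p.1 Φ)) m m, ← sm_div]
  simp only [← psh_mul (fun q : Pt Γ K => f q.1) (fun q : Pt Γ K => f q.1), ← sm_div]
  rw [av_sm_comm]
  refine sm_mono fun c => ?_
  have h := av_sq_le fun x => psh (fun q : Pt Γ K => f q.1) (mm ε m x Φ) c
  rw [e1] at h
  simp only [← sq]
  rw [av_div, le_div_iff₀ (by positivity), ← div_pow, ← mul_pow, mul_comm]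
  exact h

omit [Finite Γ] [Finite I] in
lemma PuU.mono {ε : Γ} {P : Set (Pt Γ I)} {s1 : ℕ} {η η' : ℝ} (h : PuU ε P s1 η) (hη : η ≤ η') :
    PuU ε P s1 η' :=
  ⟨fun G a b => (h.gc G a b).trans hη, h.ge.trans hη, fun s a b G c d => (h.cc s a b G c d).trans hη,
    fun s a b => (h.ce s a b).trans hη, fun s a b => (h.cm s a b).trans hη⟩

omit [Finite Γ] [Finite I] in
lemma PuH.mono {ε : Γ} {P : Set (Pt Γ I)} {D : ℕ → ℝ} {s1 : ℕ} {η η' : ℝ} (h : PuH ε P D s1 η)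
    (hη : η ≤ η') : PuH ε P D s1 η' :=
  ⟨h.toPuU.mono hη, h.tm, fun s a b G c => (h.ch s a b G c).trans hη,
    fun s a b G c => (h.ca s a b G c).trans hη⟩

lemma cst_mono (ε : Γ) (P : Set (Pt Γ I)) (s : ℕ) {T T' : (Pt Γ (Fin s) → ℝ) → ℝ}
    (h : ∀ m, (∀ q, 0 ≤ m q) → T m ≤ T' m) : cst ε P s T ≤ cst ε P s T' :=
  av_mono fun _ => av_mono fun _ => h _ (mm_nonneg' ε (fun _ => ind_nonneg _) _ _)

lemma cst_sq_le (ε : Γ) (P : Set (Pt Γ I)) (s : ℕ) (T : (Pt Γ (Fin s) → ℝ) → ℝ) :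
    cst ε P s T ^ 2 ≤ cst ε P s fun m => T m ^ 2 :=
  (av_sq_le _).trans (av_mono fun _ => av_sq_le _)

end stat

theorem puh : PUH := by
  intro η hη
  refine ⟨min η (η ^ 2), by positivity, fun Γ I _ _ _ ε P D s1 hT h => ?_⟩
  have h1 := h.mono (min_le_left _ _)
  have h2 := h.mono (min_le_right _ _)
  have ht : ∀ s, s1 ≤ s → s ≤ Nat.card I → cst ε P s (fun m => co m ⊤) ≤ η := fun s a b =>
    abs_le_of_sq_le_sq' ((cst_sq_le ε P s _).trans
      ((cst_mono ε P s fun m _ => co_top_sq m).trans (h2.ce s a b))) hη.le |>.2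
  refine ⟨h1, hT, fun s a b G hG => ?_, fun s a b G hG => ?_⟩
  · by_cases e : G = ⊤
    · rw [e]; exact ht s a b
    · exact (cst_mono ε P s fun m hm => co_le_coll hm G).trans (h1.cc s a b G hG e)
  · have h3 : cst ε P s (fun m => att m G) ≤ η := by
      by_cases e : G = ⊥
      · simp only [e, att_bot]; exact ht s a b
      · exact (cst_mono ε P s fun m _ => att_le_coll m G).trans (h1.cc s a b G e hG)
    refine le_trans (av_mono fun ι => ?_) h3
    have := att_gl ε (si P) (crd ι) G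
    simpa only [wl_crd ι.injective, Function.comp] using this

end NE
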