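import Pool.Agent.Lib.MP_ecee09_co.NE.W0
import Pool.Agent.Lib.MP_ecee09_co.NE.Stat
import Pool.Agent.Lib.MP_ecee09_co.NE.Part4

/-! Two different matched particles with equal labels off the pools are rare. -/

namespace NE

open SD hiding cond

lemma pair_jlab {I K S : Type} {s : ℕ} {ι ι' : (K × Fin s) ⊕ S ↪ I} {g : K × Fin s → Bool}
    (h : ∀ v, g v = true → ι (.inl v) = ι' (.inl v)) : jlab ι g = jlab ι' g := by
  have key : ∀ {ι ι' : (K × Fin s) ⊕ S ↪ I}, (∀ v, g v = true → ι (.inl v) = ι' (.inl v)) →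
      ∀ i k, jlab ι g i = some k → jlab ι' g i = some k := fun {ι ι'} h i k e => by
    obtain ⟨v, h1, h2⟩ := lcomp_eq_some.1 e
    have hv : g v = true := by
      by_contra k'
      simp [tg, k'] at h2
    rw [← (crd_eq_some (ι.injective.comp Sum.inl_injective)).1 h1]
    exact (congrArg _ (h v hv)).trans ((jlab_inl ι' g v).trans h2)
  exact funext fun i => Option.ext fun k => ⟨key h i k, key (fun v hv => (h v hv).symm) i k⟩

/-- from the tagged world to the coarse world -/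
lemma pair_macro (hU : UNI) (u : ℕ) {ε : ℝ} (hε : 0 < ε) : ∃ n0 : ℕ, ∀ (I : Type) [Finite I],
    n0 ≤ Nat.card I → ∀ (E K S : Type) [Finite E] [Nonempty E] [Finite K] [Finite S] (s : ℕ),
      Nat.card K * s + Nat.card S ≤ u → ∀ (Q : PP K) (f : Lab I K → (S → I) → OmE E I → Prop),
      EPS s S Q (fun Φ ι x => ind (f Φ ι x)) ≤
        EPM s S Q (fun ι g x => ind (f (jlab ι g) (fun a => ι (.inr a)) x)) + ε := by
  obtain ⟨n0, hn⟩ := hU u 1 ε hε
  refine ⟨n0, fun I _ hI E K S _ _ _ _ s hu Q f => ?_⟩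
  rw [EPS_eq, EPM_eq, ← av_const (α := K × Fin s → Bool) ε, ← av_add]
  refine av_mono fun g => sub_le_iff_le_add'.1 ((le_abs_self _).trans
    (hn I hI ((K × Fin s) ⊕ S) (by simpa using hu) {v | ∀ w, v = .inl w → g w = true} _ _ ?_ _
      (fun ι ι' e => ?_) ?_))
  · rintro (a | a) ha (b | b) hb
    · have h1 : tg g a = some a.1 := if_pos (ha a rfl)
      have h2 : tg g b = some b.1 := if_pos (hb b rfl)
      exact (bl_some Q h1 h2).trans (bl_some Q (Φ := tg fun _ => true) rfl rfl).symm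
    all_goals rfl
  · rw [pair_jlab (ι := ι) (ι' := ι') fun v hv => e _ fun w hw => by cases hw; exact hv,
      show (fun a => ι (.inr a)) = fun a => ι' (.inr a) from
        funext fun a => e _ fun w hw => by cases hw]
  · refine (av_mono fun ι => (av_mono fun A => ?_).trans av_one_le).trans av_one_le
    exact pow_le_one₀ (av_ind_nonneg _) (av_ind_le_one _)

theorem pair_of (hU : UNI) (hS : SH) (ha : PAIRa) (hb : PAIRb) : PAIR := by
  intro Γ _ _ D δ hδ
  obtain ⟨ηa, ha0, ha⟩ := ha Γ D (δ / 3) (by positivity)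
  obtain ⟨ηb, hb0, hb⟩ := hb Γ D (δ / 3) (by positivity)
  refine ⟨min (min ηa ηb) (δ / 2), by positivity, fun s1 σ hσ => ?_⟩
  obtain ⟨l, ha⟩ := ha σ
  obtain ⟨s0, hb⟩ := hb s1 l
  refine ⟨s0, fun s hs κ => ?_⟩
  obtain ⟨na, ha⟩ := ha κ s
  obtain ⟨nb, hb⟩ := hb s hs κ σ
  obtain ⟨nc, hc⟩ := pair_macro hU (κ * s + σ) (ε := δ / 3) (by positivity)
  obtain ⟨nd, hd⟩ := hS (κ * s + σ) 1 (δ / 2) (by positivity)
  refine ⟨na + nb + nc + nd + σ, fun I K _ _ hI hK ε P Q t t' h => ?_⟩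
  have hu : Nat.card K * s + Nat.card (Fin σ) ≤ κ * s + σ := by
    rw [Nat.card_fin]; exact Nat.add_le_add_right (Nat.mul_le_mul_right _ hK) _
  by_cases e : t = t'
  · subst e
    have h1 := (hd I (by omega) Γ K (Fin σ) s hu Q t (fun ι x => ind (∃ p ∈ P, ∃ p' ∈ P,
      p ≠ p' ∧ rs ε p x = 0 ∧ rs ε p' x = 0 ∧ ∀ b, p.1 (ι b) = p'.1 (ι b)))
      ((av_mono fun ι => (av_mono fun x =>
        pow_le_one₀ (ind_nonneg _) (ind_le_one _)).trans av_one_le).trans av_one_le)).1
    simp only [rs_shift_eq_zero] at h1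
    have h2 := (h.cm σ hσ (by omega)).trans (min_le_right _ _)
    have h3 := sub_le_iff_le_add'.1 (abs_le.1 h1).2
    exact h3.trans ((add_le_add h2 le_rfl).trans (by linarith))
  · obtain ⟨a, e⟩ := Function.ne_iff.1 e
    have h1 := ha I K (by omega) hK ε P Q t t' a s1 hσ
      (h.mono ((min_le_left _ _).trans (min_le_left _ _)))
    have h2 := hb I K (by omega) hK ε P Q t t' a e
      (h.mono ((min_le_left _ _).trans (min_le_right _ _)))
    refine (hc I (by omega) Γ K (Fin σ) s hu Q _).trans ?_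
    have h3 := add_le_add h1 h2
    simp only [EPM, ← av_add] at h3 ⊢
    refine (add_le_add ((av_mono fun ι => av_mono fun g => av_mono fun x => ?_).trans h3)
      le_rfl).trans (by linarith)
    have n1 := fun (f : Pt Γ I → Pt Γ I → Prop) (p : Pt Γ I) =>
      sm_nonneg fun p' => ind_nonneg (f p p')
    have n2 := fun (f : Pt Γ I → Pt Γ I → Prop) (p p' : Pt Γ I) (k : f p p') =>
      (ind_pos k).ge.trans ((single_le_sm (fun p' => ind_nonneg (f p p')) p').trans
        (single_le_sm (n1 f) p))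
    refine (em _).elim (fun k => ?_) fun k => (ind_neg k).le.trans
      (add_nonneg (sm_nonneg (n1 _)) (sm_nonneg (n1 _)))
    obtain ⟨p, hp, p', hp', -, k1, k2, k3⟩ := k
    refine (ind_le_one _).trans ?_
    rcases le_or_gt l {i : Fin s | p.1 (ι (.inl (a, i))) ≠ p'.1 (ι (.inl (a, i)))}.ncard with k | k
    · exact le_add_of_le_of_nonneg (n2 _ p p' ⟨hp, hp', k1, k2, k3, k⟩) (sm_nonneg (n1 _))
    · exact le_add_of_nonneg_of_le (sm_nonneg (n1 _)) (n2 _ p p' ⟨hp, hp', k1, k2, k⟩)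

end NE
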