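import Pool.Agent.Lib.MP_ecee09_co.NE.PairAa
import Pool.Agent.Lib.MP_ecee09_co.NE.Stat
import Pool.Agent.Lib.MP_ecee09_co.NE.W0

/-! Pairs with equal labels off the pools and many different labels on a pool are rare. -/

namespace NE

open SD

section fix
variable {Γ I S Y : Type} [AddCommGroup Γ] [Finite Γ] [Finite I] [Finite S]

lemma pra_hq_mm (H : AddSubgroup (Pt Γ S)) (ε : Γ) (m m' : Pt Γ I → ℝ) (x x' : OmE Γ I)
    (Φ : Lab I S) : hq H (mm ε m x Φ) (mm ε m' x' Φ) = sm fun p => sm fun p' => m p * m' p' *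
      sm fun q => sm fun q' => ind (Sub ε p x Φ q ∧ Sub ε p' x' Φ q' ∧ q - q' ∈ H) := by
  calc _ = sm fun q => sm fun q' => sm fun p => sm fun p' => m p * m' p' *
        ind (Sub ε p x Φ q ∧ Sub ε p' x' Φ q' ∧ q - q' ∈ H) := by
        refine sm_congr fun q => sm_congr fun q' => ?_
        rw [mm, mm, sm_mul_sm, ← sm_mul_right]
        refine sm_congr fun p => ?_
        rw [← sm_mul_right]
        exact sm_congr fun p' => by rw [ind_and, ind_and]; ring
    _ = sm fun q => sm fun p => sm fun p' => sm fun q' => m p * m' p' *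
        ind (Sub ε p x Φ q ∧ Sub ε p' x' Φ q' ∧ q - q' ∈ H) :=
        sm_congr fun q => (sm_comm _).trans (sm_congr fun p => sm_comm _)
    _ = _ := by
        refine (sm_comm _).trans (sm_congr fun p => (sm_comm _).trans (sm_congr fun p' => ?_))
        simp only [sm_mul_left]

variable {u : S → I} {w : Y → I} {π : PP I}

omit [Finite Γ] in
/-- two candidates of the coordinate cell with equal labels -/
lemma pra_sub (hu : Function.Injective u) {ε : Γ} {p p' : Pt Γ I} {b b' : I → Γ} {A : Om I}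
    {G : AddSubgroup Γ} (hv : ∀ a, p.1 (u a) = p'.1 (u a))
    (h : ∀ i, i ∉ Set.range u → rs ε p (b, A) i = 0)
    (h' : ∀ i, i ∉ Set.range u → rs ε p' (b', A) i = 0)
    (hG : ∀ a, rs ε p (b, A) (u a) - rs ε p' (b', A) (u a) ∈ G) :
    ∃ q q', Sub ε p (b, A) (crd u) q ∧ Sub ε p' (b', A) (crd u) q' ∧ q - q' ∈ ptH S ⊥ G := by
  have key : ∀ (p : Pt Γ I) (b : I → Γ), (∀ i, i ∉ Set.range u → rs ε p (b, A) i = 0) →
      ∃ q, Sub ε p (b, A) (crd u) q ∧ rs ε q (0, pb u A) = rs ε p (b, A) ∘ u := fun p b h => by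
    refine rs_cell_iff.1 ?_
    rw [show cell (b, A) (crd u) (0, pb u A) = (b, A) from cell_crd_self hu (b, A)]
    funext i
    by_cases hi : i ∈ Set.range u
    · obtain ⟨a, rfl⟩ := hi
      rw [spr_crd hu]; rfl
    · rw [h i hi, spr_of_none _ ((crd_eq_none hu).2 hi)]
  obtain ⟨q, h1, h2⟩ := key p b h
  obtain ⟨q', h1', h2'⟩ := key p' b' h'
  have e : q.1 = q'.1 := by
    rw [h1.1, h1'.1, wl_crd hu, wl_crd hu]; exact funext hv
  have e2 := rs_sub_rs ε q q' (0, pb u A)
  rw [h2, h2', TM, Prod.fst_sub, e, sub_self, adj_zero, zero_add] at e2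
  refine ⟨q, q', h1, h1', fun a => ⟨?_, ?_⟩⟩
  · rw [Prod.fst_sub, e, sub_self]; exact AddSubgroup.zero_mem _
  · rw [← e2]; exact hG a

/-- one pair with a popular label difference -/
lemma pra_pair [Fintype Y] (hu : Function.Injective u) (hw : Function.Injective w)
    (h : ∀ b j, u b ≠ w j) (hπ : ∀ b i, π s(u b, i) = none) (ε : Γ) {p p' : Pt Γ I}
    (T T' : I → Γ) {d : Γ} (hv : ∀ a, p.1 (u a) = p'.1 (u a))
    (hd : ∀ j, p.1 (w j) - p'.1 (w j) = d) {ρ : ℝ}
    (hρ : ∀ c, av (fun z : Y → F => ind (∑ j, (z j).val • d = c)) ≤ ρ) :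
    av (fun x : OmE Γ I => ind (rs ε p (x.1, ovr x.2 π) = T ∧ rs ε p' (x.1, ovr x.2 π) = T')) ≤
      ρ ^ Nat.card S / DD Γ S * av fun x : OmE Γ I => sm fun q => sm fun q' =>
        ind (Sub ε p (x.1 - T, ovr x.2 π) (crd u) q ∧ Sub ε p' (x.1 - T', ovr x.2 π) (crd u) q' ∧
          q - q' ∈ ptH S ⊥ (AddSubgroup.zmultiples d)) := by
  have ρ0 : 0 ≤ ρ := (av_ind_nonneg _).trans (hρ 0)
  set c : I → Γ := T - T' - (p - p').2 with hc
  have hW : ∀ (b : I → Γ) (A : Om I), (rs ε p (b, A) - T) - (rs ε p' (b, A) - T') =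
      adj A (p - p').1 - c := fun b A => by
    rw [sub_sub_sub_comm, rs_sub_rs, TM, hc]; abel
  have hr : ∀ (b : I → Γ) (A : Om I), rs ε p (b, A) - T = b + (rs ε p (0, A) - T) := fun b A => by
    rw [← zero_add b, rs_add, zero_add]; abel
  have k1 := pra_key hu hw h hπ (v := (p - p').1) (fun a => sub_eq_zero.2 (hv a)) hd hρ c
  have D0 : 0 < DD Γ S := DD_pos
  rw [av_prod, av_comm, av_prod, av_comm fun b A => sm fun q => sm fun q' => ind (_ ∧ _ ∧ _)]
  calc _ ≤ av fun A : Om I => ind (adj (ovr A π) (p - p').1 = c) *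
        av fun b : I → Γ => ind (b + 0 = 0) := by
        refine av_mono fun A => ?_
        rw [av_add_right (fun b : I → Γ => ind (b = 0)),
          ← av_add_right (fun b : I → Γ => ind (b = 0)) (rs ε p (0, ovr A π) - T), ← av_mul_left]
        refine av_mono fun b => ?_
        rw [← ind_and, ← hr]
        refine ind_mono fun e => ⟨sub_eq_zero.1 ?_, sub_eq_zero.2 e.1⟩
        rw [← hW b, e.1, e.2, sub_self, sub_self, sub_self]
    _ ≤ (ρ ^ Nat.card S * av fun A : Om I =>
          ind ((∀ i, i ∉ Set.range u → adj (ovr A π) (p - p').1 i = c i) ∧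
            ∀ b, adj (ovr A π) (p - p').1 (u b) - c (u b) ∈ AddSubgroup.zmultiples d)) *
        av fun b : I → Γ => ind (b + 0 = 0) := by
        rw [av_mul_right]
        exact mul_le_mul_of_nonneg_right k1 (av_ind_nonneg _)
    _ ≤ _ := by
        rw [mul_assoc, div_eq_mul_one_div, mul_assoc, ← av_mul_right, ← av_mul_left (1 / DD Γ S)]
        refine mul_le_mul_of_nonneg_left (av_mono fun A => ?_) (by positivity)
        refine (mul_le_mul_of_nonneg_left (pra_cyl hu 0 (rs ε p (0, ovr A π) - T))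
          (ind_nonneg _)).trans ?_
        rw [mul_left_comm, ← av_mul_left]
        refine mul_le_mul_of_nonneg_left (av_mono fun b => ?_) (by positivity)
        rw [← ind_and, ← hr]
        refine le_trans (ind_mono fun e => ?_)
          ((ind_exists_le _).trans (sm_mono fun q => ind_exists_le _))
        refine pra_sub hu hv (fun i hi => ?_) (fun i hi => ?_) fun a => ?_
        · rw [rs_sub]; exact e.2 i hi
        · have h1 := congrFun (hW b (ovr A π)) i
          rw [Pi.sub_apply, e.2 i hi, Pi.sub_apply (adj _ _), e.1.1 i hi, sub_self, zero_sub,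
            neg_eq_zero] at h1
          rw [rs_sub]; exact h1
        · rw [rs_sub, rs_sub, ← Pi.sub_apply, hW]; exact e.1.2 a

/-- all pairs, for fixed index sets -/
lemma pra_fix {Z : Type} [Finite Z] {y0 : ℕ} {ρ : ℝ}
    (hpt : ∀ (Y : Type) [Fintype Y], y0 ≤ Fintype.card Y → ∀ d c : Γ,
      av (fun z : Y → F => ind (∑ j, (z j).val • d = c)) ≤
        ρ / Nat.card (AddSubgroup.zmultiples d)) (hρ : ρ ^ Nat.card S ≤ 2)
    {w : Z → I} (hu : Function.Injective u) (hw : Function.Injective w)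
    (h : ∀ b j, u b ≠ w j) (hπ : ∀ b i, π s(u b, i) = none) (ε : Γ) (P : Set (Pt Γ I))
    (T T' : I → Γ) :
    av (fun x : OmE Γ I => sm fun p : Pt Γ I => sm fun p' : Pt Γ I =>
      ind (p ∈ P ∧ p' ∈ P ∧ rs ε p (x.1, ovr x.2 π) = T ∧ rs ε p' (x.1, ovr x.2 π) = T' ∧
        (∀ b, p.1 (u b) = p'.1 (u b)) ∧
        Nat.card Γ * y0 + 1 ≤ {i | p.1 (w i) ≠ p'.1 (w i)}.ncard)) ≤
      sm fun d : Γ => ind (d ≠ 0) * av fun x : OmE Γ I =>
        co (mm ε (si P) (x.1 - T, ovr x.2 π) (crd u)) (AddSubgroup.zmultiples d) +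
        co (mm ε (si P) (x.1 - T', ovr x.2 π) (crd u)) (AddSubgroup.zmultiples d) := by
  classical
  let _ := Fintype.ofFinite Z
  let _ := Fintype.ofFinite Γ
  let X : Γ → Pt Γ I → Pt Γ I → ℝ := fun d p p' => av fun x : OmE Γ I => sm fun q => sm fun q' =>
    ind (Sub ε p (x.1 - T, ovr x.2 π) (crd u) q ∧ Sub ε p' (x.1 - T', ovr x.2 π) (crd u) q' ∧
      q - q' ∈ ptH S ⊥ (AddSubgroup.zmultiples d))
  let κ : Γ → ℝ := fun d => 2 / (DD (AddSubgroup.zmultiples d) S * DD Γ S)
  have X0 : ∀ d p p', 0 ≤ X d p p' := fun d p p' =>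
    av_nonneg fun _ => sm_nonneg fun _ => sm_nonneg fun _ => ind_nonneg _
  have κ0 : ∀ d, 0 ≤ κ d := fun d => div_nonneg two_pos.le (mul_nonneg DD_nonneg DD_nonneg)
  have t0 : ∀ p p' d, 0 ≤ ind (d ≠ 0) * (κ d * (si P p * si P p' * X d p p')) := fun p p' d =>
    mul_nonneg (ind_nonneg _) (mul_nonneg (κ0 d)
      (mul_nonneg (mul_nonneg (si_nonneg _ _) (si_nonneg _ _)) (X0 d p p')))
  calc _ ≤ sm fun p : Pt Γ I => sm fun p' : Pt Γ I => sm fun d : Γ =>
        ind (d ≠ 0) * (κ d * (si P p * si P p' * X d p p')) := by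
        rw [av_sm_comm]
        refine sm_mono fun p => ?_
        rw [av_sm_comm]
        refine sm_mono fun p' => ?_
        by_cases e : p ∈ P ∧ p' ∈ P ∧ (∀ b, p.1 (u b) = p'.1 (u b)) ∧
            Nat.card Γ * y0 + 1 ≤ {i | p.1 (w i) ≠ p'.1 (w i)}.ncard
        swap
        · exact (av_le_const fun x => (ind_neg fun e' =>
            e ⟨e'.1, e'.2.1, e'.2.2.2.2⟩).le).trans (sm_nonneg (t0 p p'))
        obtain ⟨hp, hp', hv, hl⟩ := e
        rw [Set.ncard_eq_toFinset_card', Nat.card_eq_fintype_card] at hl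
        obtain ⟨d, -, hd⟩ := Finset.exists_lt_card_fiber_of_mul_lt_card_of_maps_to
          (t := Finset.univ) (f := fun i => p.1 (w i) - p'.1 (w i))
          (fun _ _ => Finset.mem_univ _) (Nat.lt_of_succ_le hl)
        set B := Finset.filter (fun i => p.1 (w i) - p'.1 (w i) = d)
          {i | p.1 (w i) ≠ p'.1 (w i)}.toFinset with hB
        have d0 : d ≠ 0 := by
          obtain ⟨i, hi⟩ := Finset.card_pos.1 (Nat.zero_lt_of_lt hd)
          rw [hB, Finset.mem_filter, Set.mem_toFinset] at hi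
          exact hi.2 ▸ sub_ne_zero.2 hi.1
        have k := pra_pair (Y := B) (w := fun j => w j) hu (hw.comp Subtype.val_injective)
          (fun b j => h b j) hπ ε T T' hv (fun j => (Finset.mem_filter.1 j.2).2)
          (hpt B (by rw [Fintype.card_coe]; exact hd.le) d)
        refine le_trans ?_ (single_le_sm (t0 p p') d)
        refine ((av_mono fun x => ind_mono fun e => ⟨e.2.2.1, e.2.2.2.1⟩).trans k).trans ?_
        rw [ind_pos d0, si, si, ind_pos hp, ind_pos hp', one_mul, one_mul, one_mul]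
        refine mul_le_mul_of_nonneg_right ?_ (X0 d p p')
        rw [div_pow, div_div]
        exact div_le_div_of_nonneg_right hρ (mul_nonneg DD_nonneg DD_nonneg)
    _ = sm fun d : Γ => sm fun p : Pt Γ I => sm fun p' : Pt Γ I =>
        ind (d ≠ 0) * (κ d * (si P p * si P p' * X d p p')) :=
        (sm_congr fun p => sm_comm _).trans (sm_comm _)
    _ ≤ _ := by
        refine sm_mono fun d => ?_
        simp only [sm_mul_left (ind (d ≠ 0)), sm_mul_left (κ d)]
        refine mul_le_mul_of_nonneg_left ?_ (ind_nonneg _)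
        simp only [X, ← av_mul_left (si P _ * si P _), ← av_sm_comm, ← pra_hq_mm]
        rw [← av_mul_left]
        refine av_mono fun x => ?_
        refine (mul_le_mul_of_nonneg_left (hq_le_half _ _ _) (κ0 d)).trans_eq ?_
        rw [co_eq, co_eq]
        simp only [κ]
        ring

/-- second moment of the statistic of a coordinate cell -/
lemma pra_l2 {ε : Γ} {P : Set (Pt Γ I)} {D : ℕ → ℝ} (hD : Tame D (NN ε (si P)))
    (G : AddSubgroup Γ) :
    (av fun ι : S ↪ I => av fun x => co (mm ε (si P) x (crd ι)) G ^ 2) ≤ D 4 := by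
  have h4 : ∀ ι : S ↪ I, (av fun x => co (mm ε (si P) x (crd ι)) G ^ 2) ≤ D 4 := fun ι => by
    refine le_trans (av_mono fun x => ?_) ((av_cell_crd ι.injective _).trans_le (hD 4))
    refine (pow_le_pow_left₀ (co_nonneg _ _)
      (co_le_NN ε (mm_nonneg (si_nonneg P) x (crd ι)) G) 2).trans ?_
    refine (av_sq_le _).trans_eq (av_congr fun y => ?_)
    rw [NN_mm, ← pow_mul, Even.pow_abs (by decide)]
  calc _ ≤ av fun _ : S ↪ I => D 4 * 1 := av_mono fun ι => by rw [mul_one]; exact h4 ι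
    _ ≤ _ := by
      rw [av_mul_left]; exact mul_le_of_le_one_right (hD.nonneg 4) av_one_le

end fix

theorem paira_of (hS : SH) : PAIRa := by
  intro Γ _ _ D δ hδ
  have hJ : (0 : ℝ) < Nat.card Γ := card_pos'
  have hη : 0 < δ / (4 * Nat.card Γ) := by positivity
  refine ⟨_, hη, fun σ => ?_⟩
  have hθ : 0 < Real.log 2 / (σ + 1) := div_pos (Real.log_pos one_lt_two) (by positivity)
  obtain ⟨y0, hy⟩ := pra_point Γ hθ
  have hρ : (1 + Real.log 2 / (σ + 1)) ^ Nat.card (Fin σ) ≤ 2 := by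
    rw [Nat.card_fin]
    calc _ ≤ Real.exp (Real.log 2 / (σ + 1)) ^ σ := by
          gcongr; rw [add_comm]; exact Real.add_one_le_exp _
      _ ≤ Real.exp (Real.log 2) := by
          rw [← Real.exp_nat_mul, Real.exp_le_exp, mul_div_assoc', div_le_iff₀ (by positivity)]
          nlinarith [Real.log_pos one_lt_two]
      _ = 2 := Real.exp_log two_pos
  refine ⟨Nat.card Γ * y0 + 1, fun κ s => ?_⟩
  obtain ⟨n0, hn⟩ := hS (κ * s + σ) (D 4) _ hη
  refine ⟨max n0 σ, fun I K _ _ hI hK ε P Q t t' a s1 hs hP => ?_⟩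
  have k : ∀ (t : K → Γ) (d : Γ), d ≠ 0 → EPM s (Fin σ) Q (fun ι g x =>
      co (mm ε (si P) (x.1 - spr t (jlab ι g), x.2) (crd fun b => ι (.inr b)))
        (AddSubgroup.zmultiples d)) ≤ δ / (4 * Nat.card Γ) + δ / (4 * Nat.card Γ) := by
    intro t d hd
    have h1 := (hn I (le_of_max_le_left hI) Γ K (Fin σ) s
      (by rw [Nat.card_fin]; gcongr) Q t
      (fun u x => co (mm ε (si P) x (crd u)) (AddSubgroup.zmultiples d)) (pra_l2 hP.tm _)).2
    have h2 := hP.ch σ hs (le_of_max_le_right hI) (AddSubgroup.zmultiples d)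
      (by rwa [Ne, AddSubgroup.zmultiples_eq_bot])
    rw [cst] at h2
    linarith [(abs_le.1 h1).2]
  calc _ ≤ av fun ι : (K × Fin s) ⊕ Fin σ ↪ I => av fun g : K × Fin s → Bool =>
        sm fun d : Γ => ind (d ≠ 0) * av fun x : OmE Γ I =>
          co (mm ε (si P) (x.1 - spr t (jlab ι g), ovr x.2 (bl (jlab ι fun _ => true) Q))
            (crd fun b => ι (.inr b))) (AddSubgroup.zmultiples d) +
          co (mm ε (si P) (x.1 - spr t' (jlab ι g), ovr x.2 (bl (jlab ι fun _ => true) Q))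
            (crd fun b => ι (.inr b))) (AddSubgroup.zmultiples d) :=
        av_mono fun ι => av_mono fun g => pra_fix hy hρ (w := fun i => ι (.inl (a, i)))
          (ι.injective.comp Sum.inr_injective)
          (fun i j e => (Prod.ext_iff.1 (Sum.inl_injective (ι.injective e))).2)
          (fun b j e => Sum.inr_ne_inl (ι.injective e))
          (fun b i => bl_none_left Q (jlab_inr ι _ b) i) ε P _ _
    _ ≤ sm fun _ : Γ => δ / Nat.card Γ := by
        simp only [av_sm_comm, av_mul_left, av_add]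
        refine sm_mono fun d => ?_
        by_cases hd : d = 0
        · rw [ind_neg (not_not.2 hd), zero_mul]; positivity
        · rw [ind_pos hd, one_mul]
          refine (add_le_add (k t d hd) (k t' d hd)).trans_eq ?_
          field_simp; norm_num
    _ = δ := by rw [sm_const]; field_simp

end NE
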