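import Pool.Agent.Lib.MP_ecee09_co.NE.PL

/-! Planted worlds: indices that a quantity does not use may be dropped. -/

namespace NE

open SD

section
variable {R U I : Type}

open Classical in
/-- plant the pattern `Pt` on the pairs in `C` -/
noncomputable def mw (e : U → I) (C : Set (Sym2 U)) (Pt : Om U) (A : Om I) : Om I :=
  ow A (crd e) fun d => if d ∈ C then Pt d else A (Sym2.map e d)

lemma mw_on {e : U → I} (he : Function.Injective e) {C : Set (Sym2 U)} (Pt : Om U) (A : Om I)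
    {d : Sym2 U} (h : d ∈ C) : mw e C Pt A (Sym2.map e d) = Pt d := by
  rw [mw, ow_crd_map he, if_pos h]

lemma mw_off {e : U → I} (he : Function.Injective e) {C : Set (Sym2 U)} (Pt : Om U) (A : Om I)
    {c : Sym2 I} (h : c ∉ Sym2.map e '' C) : mw e C Pt A c = A c := by
  cases hc : lab2 (crd e) c with
  | none => exact ow_of_none hc
  | some d =>
    have e1 := (lab2_crd_eq_some he).1 hc
    rw [mw, ow_of_some hc, if_neg fun hd => h ⟨d, hd, e1⟩, e1]

lemma mw_off' {e : U → I} (he : Function.Injective e) {C : Set (Sym2 U)} (Pt : Om U) (A : Om I)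
    {d : Sym2 U} (h : d ∉ C) : mw e C Pt A (Sym2.map e d) = A (Sym2.map e d) := by
  rw [mw, ow_crd_map he, if_neg h]

lemma mw_none (e : U → I) (C : Set (Sym2 U)) (Pt : Om U) (A : Om I) {c : Sym2 I}
    (h : lab2 (crd e) c = none) : mw e C Pt A c = A c := ow_of_none h

lemma mw_congr (e : U → I) {C C' : Set (Sym2 U)} {Pt Pt' : Om U} (h : ∀ d, d ∈ C ↔ d ∈ C')
    (h' : ∀ d ∈ C, Pt d = Pt' d) (A : Om I) : mw e C Pt A = mw e C' Pt' A := by
  obtain rfl : C = C' := Set.ext h
  unfold mw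
  congr 1
  funext d
  split_ifs with hd
  · exact h' d hd
  · rfl

lemma mw_univ (e : U → I) (Pt : Om U) (A : Om I) : mw e Set.univ Pt A = ow A (crd e) Pt := by
  unfold mw
  congr 1
  funext d
  exact if_pos (Set.mem_univ d)

lemma om_ext {e : U → I} (he : Function.Injective e) {X Y : Om I}
    (h1 : ∀ d, X (Sym2.map e d) = Y (Sym2.map e d))
    (h2 : ∀ c, lab2 (crd e) c = none → X c = Y c) : X = Y := by
  funext c
  cases hc : lab2 (crd e) c with
  | none => exact h2 c hc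
  | some d => rw [← (lab2_crd_eq_some he).1 hc]; exact h1 d

lemma mw_split {j : R → U} (hj : Function.Injective j) {e : U → I} (he : Function.Injective e)
    (C : Set (Sym2 U)) (Pt : Om U) (A : Om I) :
    mw e C Pt A = mw (e ∘ j) (Sym2.map j ⁻¹' C) (pb j Pt)
      (mw e (C \ Set.range (Sym2.map j)) Pt A) := by
  have hej := he.comp hj
  funext c
  by_cases h : c ∈ Sym2.map (e ∘ j) '' (Sym2.map j ⁻¹' C)
  · obtain ⟨d, hd, rfl⟩ := h
    rw [mw_on hej _ _ hd, ← Sym2.map_map, mw_on he _ _ (C := C) hd]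
    rfl
  · rw [mw_off hej _ _ h]
    by_cases h' : c ∈ Sym2.map e '' C
    · obtain ⟨d, hd, rfl⟩ := h'
      rw [mw_on he _ _ hd, mw_on he]
      refine ⟨hd, ?_⟩
      rintro ⟨d', rfl⟩
      exact h ⟨d', hd, (Sym2.map_map d').symm⟩
    · rw [mw_off he _ _ h', mw_off he]
      rintro ⟨d, hd, rfl⟩
      exact h' ⟨d, hd.1, rfl⟩

variable [Finite R] [Finite U] [Finite I]

/-- the planting density -/
noncomputable def mdn (e : U → I) (C : Set (Sym2 U)) (Pt : Om U) (A : Om I) : ℝ :=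
  2 ^ (Sym2.map e '' C).ncard * ind (∀ c ∈ Sym2.map e '' C, A c = mw e C Pt 0 c)

lemma mdn_dep (e : U → I) (C : Set (Sym2 U)) (Pt : Om U) :
    Dep (Sym2.map e '' C) (mdn e C Pt) := fun x x' h => by
  unfold mdn
  congr 2
  exact propext (forall₂_congr fun c hc => by rw [h c hc])

lemma av_mdn (e : U → I) (C : Set (Sym2 U)) (Pt : Om U) : av (mdn e C Pt) = 1 := by
  unfold mdn
  rw [av_mul_left, pl_agree, show Nat.card F = 2 from Nat.card_zmod 2, ← mul_pow]
  norm_num

lemma abs_mdn (e : U → I) (C : Set (Sym2 U)) (Pt : Om U) (A : Om I) :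
    |mdn e C Pt A| ≤ 2 ^ Nat.card (Sym2 U) := by
  unfold mdn
  rw [abs_mul, abs_ind, abs_of_nonneg (by positivity)]
  refine (mul_le_of_le_one_right (by positivity) (ind_le_one _)).trans ?_
  exact pow_le_pow_right₀ one_le_two ((Set.ncard_image_le).trans (Set.ncard_le_card C))

/-- overwriting is weighting -/
lemma av_mw {e : U → I} (he : Function.Injective e) (C : Set (Sym2 U)) (Pt : Om U)
    (g : Om I → ℝ) : av (fun A => g (mw e C Pt A)) = av fun A => g A * mdn e C Pt A := by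
  have d1 : Dep (Sym2.map e '' C)ᶜ fun A => g (mw e C Pt A) := fun x x' h => by
    refine congrArg g ?_
    funext c
    by_cases hc : c ∈ Sym2.map e '' C
    · obtain ⟨d, hd, rfl⟩ := hc
      rw [mw_on he _ _ hd, mw_on he _ _ hd]
    · rw [mw_off he _ _ hc, mw_off he _ _ hc, h c hc]
  rw [← mul_one (av fun A => g (mw e C Pt A)), ← av_mdn e C Pt,
    ← pl_indep disjoint_compl_left d1 (mdn_dep e C Pt)]
  refine av_congr fun A => ?_
  by_cases h : ∀ c ∈ Sym2.map e '' C, A c = mw e C Pt 0 c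
  · congr 2
    funext c
    by_cases hc : c ∈ Sym2.map e '' C
    · rw [h c hc]
      obtain ⟨d, hd, rfl⟩ := hc
      rw [mw_on he _ _ hd, mw_on he _ _ hd]
    · exact mw_off he _ _ hc
  · simp only [mdn, ind_neg h, mul_zero]

lemma mw_drop0 (hU : Nat.card U ≤ Nat.card I) (j : R ↪ U) (C : Set (Sym2 U)) (Pt : Om U)
    (f : (R ↪ I) → Om I → ℝ) :
    |av (fun e : U ↪ I => av fun A => f (j.trans e) (mw e C Pt A)) -
      av (fun ι : R ↪ I => av fun A => f ι (mw ι (Sym2.map j ⁻¹' C) (pb j Pt) A))| ≤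
    (2 ^ Nat.card (Sym2 U) + 1) * √((Nat.card U : ℝ) ^ 2 / (Nat.card I - Nat.card R : ℝ)) *
      √(av fun ι : R ↪ I => av fun A => f ι (mw ι (Sym2.map j ⁻¹' C) (pb j Pt) A) ^ 2) := by
  have := nonempty_emb (U := U) (I := I) hU
  rw [av_ext j, ← av_sub]
  generalize hε : (2 ^ Nat.card (Sym2 U) + 1) *
    √((Nat.card U : ℝ) ^ 2 / (Nat.card I - Nat.card R : ℝ)) = ε
  have ε0 : 0 ≤ ε := hε ▸ by positivity
  have key : ∀ ι : R ↪ I, |(av fun e : Ext j ι => av fun A => f (j.trans e.1) (mw e.1 C Pt A)) -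
      av fun A => f ι (mw ι (Sym2.map j ⁻¹' C) (pb j Pt) A)| ≤
      ε * √(av fun A => f ι (mw ι (Sym2.map j ⁻¹' C) (pb j Pt) A) ^ 2) := by
    intro ι
    have := nonempty_ext j ι
    set g : Om I → ℝ := fun A => f ι (mw ι (Sym2.map j ⁻¹' C) (pb j Pt) A) with hg
    have e1 : ∀ e : Ext j ι, (av fun A => f (j.trans e.1) (mw e.1 C Pt A)) =
        av fun A => g A * mdn e.1 (C \ Set.range (Sym2.map j)) Pt A := fun e => by
      rw [← av_mw e.1.injective]
      refine av_congr fun A => ?_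
      rw [mw_split j.injective e.1.injective C Pt A, hg, e.2]
      have : (e.1 : U → I) ∘ j = ι := congrArg DFunLike.coe e.2
      rw [this]
    simp only [e1]
    rw [av_comm, ← av_sub]
    have e2 : ∀ A, (av fun e : Ext j ι => g A * mdn e.1 (C \ Set.range (Sym2.map j)) Pt A) - g A =
        g A * ((av fun e : Ext j ι => mdn e.1 (C \ Set.range (Sym2.map j)) Pt A) - 1) := fun A => by
      rw [av_mul_left]; ring
    simp only [e2]
    refine (abs_av_mul_le _ _).trans ?_
    rw [mul_comm]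
    refine mul_le_mul_of_nonneg_right ?_ (Real.sqrt_nonneg _)
    have k := pl0 (O := Ext j ι) (fun e => Sym2.map e.1 '' (C \ Set.range (Sym2.map j)))
      (fun A e => mdn e.1 (C \ Set.range (Sym2.map j)) Pt A) (fun e => mdn_dep _ _ _)
      (fun e => av_mdn _ _ _) fun A e => abs_mdn _ _ _ _
    have k2 : (av fun e : Ext j ι => av fun e' : Ext j ι => ind (¬ Disjoint
        (Sym2.map e.1 '' (C \ Set.range (Sym2.map j)))
        (Sym2.map e'.1 '' (C \ Set.range (Sym2.map j))))) ≤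
        (Nat.card U : ℝ) ^ 2 / (Nat.card I - Nat.card R : ℝ) := by
      refine le_trans (av_mono fun e => av_mono fun e' => ind_mono fun h => ?_) (ext_meet j ι)
      obtain ⟨c, ⟨d, _, rfl⟩, ⟨d', hd', h'⟩⟩ := Set.not_disjoint_iff.1 h
      by_contra hn
      apply hd'.2
      have : ∀ u ∈ d', u ∈ Set.range j := fun u hu => by
        by_contra hu'
        refine hn ⟨u, hu', ?_⟩
        have : e'.1 u ∈ Sym2.map e.1 d := h' ▸ Sym2.mem_map.2 ⟨u, hu, rfl⟩
        obtain ⟨v, _, hv⟩ := Sym2.mem_map.1 this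
        exact ⟨v, hv⟩
      induction d' using Sym2.ind with
      | _ a b =>
        obtain ⟨a', rfl⟩ := this a (Sym2.mem_mk_left _ _)
        obtain ⟨b', rfl⟩ := this _ (Sym2.mem_mk_right _ _)
        exact ⟨s(a', b'), rfl⟩
    rw [← hε, ← Real.sqrt_sq (show (0 : ℝ) ≤ 2 ^ Nat.card (Sym2 U) + 1 by positivity),
      ← Real.sqrt_mul (sq_nonneg _)]
    exact Real.sqrt_le_sqrt (k.trans (mul_le_mul_of_nonneg_left k2 (sq_nonneg _)))
  refine (abs_av_le _).trans ((av_mono key).trans ?_)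
  rw [av_mul_left]
  refine mul_le_mul_of_nonneg_left ?_ ε0
  refine Real.le_sqrt_of_sq_le ((av_sq_le _).trans (le_of_eq (av_congr fun ι => ?_)))
  exact Real.sq_sqrt (av_nonneg fun _ => sq_nonneg _)

end

/-- dropping unused indices costs at most `ε` times the norm, for index sets of size `≤ u` -/
def MD (u : ℕ) (ε : ℝ) (I : Type) : Prop :=
  ∀ (R U : Type) [Finite R] [Finite U], Nat.card U ≤ u → ∀ (j : R ↪ U) (C : Set (Sym2 U))
    (Pt : Om U) (f : (R ↪ I) → Om I → ℝ),
    |av (fun e : U ↪ I => av fun A => f (j.trans e) (mw e C Pt A)) -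
      av (fun ι : R ↪ I => av fun A => f ι (mw ι (Sym2.map j ⁻¹' C) (pb j Pt) A))| ≤
    ε * √(av fun ι : R ↪ I => av fun A => f ι (mw ι (Sym2.map j ⁻¹' C) (pb j Pt) A) ^ 2)

theorem mw_drop (u : ℕ) {ε : ℝ} (hε : 0 < ε) :
    ∃ n0 : ℕ, u ≤ n0 ∧ ∀ (I : Type) [Finite I], n0 ≤ Nat.card I → MD u ε I := by
  obtain ⟨n, hn⟩ := exists_nat_gt (((2 : ℝ) ^ (u ^ 2) + 1) ^ 2 * u ^ 2 / ε ^ 2)
  refine ⟨u + n, Nat.le_add_right _ _, fun I _ hI R U _ _ hU j C Pt f => ?_⟩
  refine (mw_drop0 (by omega) j C Pt f).trans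
    (mul_le_mul_of_nonneg_right ?_ (Real.sqrt_nonneg _))
  have hR : Nat.card R ≤ u := (Nat.card_le_card_of_injective j j.injective).trans hU
  have n0 : (0 : ℝ) < n := lt_of_le_of_lt (by positivity) hn
  have h1 : (n : ℝ) ≤ Nat.card I - Nat.card R := by
    have : n + Nat.card R ≤ Nat.card I := by omega
    have : ((n + Nat.card R : ℕ) : ℝ) ≤ Nat.card I := Nat.cast_le.2 this
    push_cast at this
    linarith
  have h2 : Nat.card (Sym2 U) ≤ u ^ 2 := by
    refine (Nat.card_le_card_of_surjective (fun p : U × U => s(p.1, p.2)) fun c => ?_).trans ?_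
    · induction c using Sym2.ind with
      | _ a b => exact ⟨(a, b), rfl⟩
    · rw [Nat.card_prod, sq]; exact Nat.mul_le_mul hU hU
  have h3 : (2 : ℝ) ^ Nat.card (Sym2 U) + 1 ≤ 2 ^ (u ^ 2) + 1 :=
    add_le_add (pow_le_pow_right₀ one_le_two h2) le_rfl
  have h4 : (Nat.card U : ℝ) ^ 2 / (Nat.card I - Nat.card R : ℝ) ≤ u ^ 2 / n :=
    div_le_div₀ (by positivity) (pow_le_pow_left₀ (by positivity) (Nat.cast_le.2 hU) 2) n0 h1
  refine (mul_le_mul h3 (Real.sqrt_le_sqrt h4) (Real.sqrt_nonneg _) (by positivity)).trans ?_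
  rw [← Real.sqrt_sq (show (0 : ℝ) ≤ 2 ^ (u ^ 2) + 1 by positivity),
    ← Real.sqrt_mul (sq_nonneg _)]
  refine Real.sqrt_le_iff.2 ⟨hε.le, ?_⟩
  rw [div_lt_iff₀ (by positivity)] at hn
  rw [← mul_div_assoc, div_le_iff₀ n0]
  linarith

/-- a quantity that uses no index does not see the world -/
theorem MD.zero {u : ℕ} {ε : ℝ} {I : Type} [Finite I] (h : MD u ε I) {U : Type} [Finite U]
    (hU : Nat.card U ≤ u) (C : Set (Sym2 U)) (Pt : Om U) (g : Om I → ℝ) :
    |av (fun e : U ↪ I => av fun A => g (mw e C Pt A)) - av g| ≤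
      ε * √(av fun A => g A ^ 2) := by
  have k := h Empty U hU Function.Embedding.ofIsEmpty C Pt fun _ => g
  have e : ∀ (ι : Empty ↪ I) (C : Set (Sym2 Empty)) (P : Om Empty) (A : Om I),
      mw ι C P A = A := fun ι C P A =>
    om_ext ι.injective (fun d => by induction d using Sym2.ind with | _ a _ => exact a.elim)
      fun c hc => mw_none _ _ _ _ hc
  have : Nonempty (Empty ↪ I) := ⟨Function.Embedding.ofIsEmpty⟩
  simpa only [e, av_const] using k

end NE
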