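import Pool.Agent.Lib.MP_ecee09_co.NE.W0
import Pool.Agent.Lib.MP_ecee09_co.NE.MoA

/-! Uninvolved indices, shifts, planted moments. -/

namespace NE

open SD (F sm av ind cnt Tame)

lemma ovr_eq_mw {U I : Type} {e : U → I} (he : Function.Injective e) (π : PP U) (A : Om I) :
    ovr A (bl (crd e) π) = mw e (pdom π) (ovr 0 π) A := by
  refine om_ext he (fun d => ?_) fun c hc => ?_
  · cases hd : π d with
    | none => rw [ovr_free ((bl_crd_map he π d).trans hd), mw_off' he _ _ (not_not.2 hd)]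
    | some a =>
      rw [ovr_some ((bl_crd_map he π d).trans hd),
        mw_on he _ _ (show π d ≠ none by simp [hd]), ovr_some hd]
  · rw [mw_none _ _ _ _ hc, ovr_free (by unfold bl; rw [hc]; rfl)]

theorem ew_drop0 (u : ℕ) (C ε : ℝ) (hε : 0 < ε) : ∃ n0 : ℕ, ∀ (I : Type) [Finite I],
    n0 ≤ Nat.card I → ∀ (U R : Type) [Finite U] [Finite R], Nat.card U ≤ u →
      ∀ (j : R ↪ U) (π : PP U) (f : (R ↪ I) → Om I → ℝ),
        (av fun ι => av fun A => f ι A ^ 2) ≤ C →
        |EW π (fun (ι : U ↪ I) A => f (j.trans ι) A) - EW (pbP j π) f| ≤ ε := by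
  have hp : 0 < √(2 ^ u ^ 2 * C) + 1 := by positivity
  obtain ⟨n0, -, h⟩ := mw_drop u (div_pos hε hp)
  refine ⟨n0, fun I _ hI U R _ _ hU j π f hf => ?_⟩
  have k := h I hI R U hU j (pdom π) (ovr 0 π) f
  have e : ∀ (ι : R ↪ I) A, mw ι (Sym2.map j ⁻¹' pdom π) (pb j (ovr 0 π)) A =
      ovr A (bl (crd ι) (pbP j π)) := fun ι A => (ovr_eq_mw ι.injective (pbP j π) A).symm
  simp only [e, ← ovr_eq_mw (Function.Embedding.injective _)] at k
  refine k.trans ?_
  rw [div_mul_eq_mul_div, div_le_iff₀ hp]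
  refine mul_le_mul_of_nonneg_left ((Real.sqrt_le_sqrt ?_).trans (le_add_of_nonneg_right
    zero_le_one)) hε.le
  refine le_trans (SD.av_mono fun ι => ?_) ((SD.av_mul_left _ _).trans_le
    (mul_le_mul_of_nonneg_left hf (by positivity)))
  rw [← av_dens _ fun A => f ι A ^ 2, ← SD.av_mul_left]
  refine SD.av_mono fun A => mul_le_mul_of_nonneg_right (dens_bl_le ?_ _ A) (sq_nonneg _)
  refine le_trans (Set.ncard_le_ncard fun i hi => (crd_ne_none ι.injective).1 hi) ?_
  rw [Set.ncard_range_of_injective ι.injective]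
  exact (Nat.card_le_card_of_injective j j.injective).trans hU

theorem uni : UNI := fun u C ε hε => by
  classical
  obtain ⟨n0, h⟩ := ew_drop0 u C (ε / 2) (half_pos hε)
  refine ⟨max n0 u, fun I _ hI U _ hU R π π' hπ f hf hC => ?_⟩
  have := nonempty_emb (U := U) (I := I) (hU.trans ((le_max_right _ _).trans hI))
  let j : R ↪ U := Function.Embedding.subtype _
  let g : (R ↪ I) → Om I → ℝ := fun κ => f (nonempty_ext j κ).some.1
  have e : ∀ ι : U ↪ I, g (j.trans ι) = f ι := fun ι => hf _ _ fun a ha =>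
    DFunLike.congr_fun (nonempty_ext j (j.trans ι)).some.2 ⟨a, ha⟩
  have hg : (av fun κ => av fun A => g κ A ^ 2) ≤ C := by
    rw [← av_restrict j]; simpa only [e] using hC
  have e2 : pbP j π = pbP j π' := by
    funext d
    induction d using Sym2.ind with
    | _ a b => exact hπ a a.2 b b.2
  have k1 := h I ((le_max_left _ _).trans hI) U R hU j π g hg
  have k2 := h I ((le_max_left _ _).trans hI) U R hU j π' g hg
  simp only [e] at k1 k2
  rw [e2] at k1
  rw [abs_le] at k1 k2 ⊢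
  constructor <;> linarith [k1.1, k1.2, k2.1, k2.2]

theorem ew_drop_of (h : UNI) (u : ℕ) (C ε : ℝ) (hε : 0 < ε) : ∃ n0 : ℕ, ∀ (I : Type) [Finite I],
    n0 ≤ Nat.card I → ∀ (U R : Type) [Finite U] [Finite R], Nat.card U ≤ u →
      ∀ (j : R ↪ U) (π : PP U) (f : (R ↪ I) → Om I → ℝ),
        (av fun ι => av fun A => f ι A ^ 2) ≤ C →
        |EW π (fun (ι : U ↪ I) A => f (j.trans ι) A) - EW (pbP j π) f| ≤ ε := by
  obtain ⟨n0, hn⟩ := h u C ε hε
  refine ⟨max n0 u, fun I _ hI U R _ _ hU j π f hf => ?_⟩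
  have hc : Nat.card U ≤ Nat.card I := hU.trans ((le_max_right _ _).trans hI)
  rw [← EW_ext hc j (pbP j π) f]
  refine hn I ((le_max_left _ _).trans hI) U hU (Set.range j) _ _ ?_ _ (fun ι ι' e => ?_) ?_
  · rintro _ ⟨a, rfl⟩ _ ⟨b, rfl⟩
    exact (bl_crd_mk j.injective (pbP j π) a b).symm
  · rw [show j.trans ι = j.trans ι' from Function.Embedding.ext fun a => e _ ⟨a, rfl⟩]
  · have := EW_ext hc j (fun _ => none) fun ι A => f ι A ^ 2
    rw [bl_none, EW_none, EW_none] at this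
    exact this.trans_le hf

/-- dropping the indices off the range of `j` -/
theorem ew_drop (u : ℕ) (C ε : ℝ) (hε : 0 < ε) : ∃ n0 : ℕ, ∀ (I : Type) [Finite I],
    n0 ≤ Nat.card I → ∀ (U R : Type) [Finite U] [Finite R], Nat.card U ≤ u →
      ∀ (j : R ↪ U) (π : PP U) (f : (R ↪ I) → Om I → ℝ),
        (av fun ι => av fun A => f ι A ^ 2) ≤ C →
        |EW π (fun (ι : U ↪ I) A => f (j.trans ι) A) - EW (pbP j π) f| ≤ ε :=
  ew_drop_of uni u C ε hε

theorem sh_of (h : UNI) : SH := by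
  intro u C ε hε
  obtain ⟨n0, hn⟩ := ew_drop_of h u C ε hε
  refine ⟨n0, fun I _ hI E K S _ _ _ _ s hu Q t Y hY => ?_⟩
  have key : ∀ (π : PP (K × Fin s)) (g : K × Fin s → Bool),
      |EW (sumP π fun _ : Sym2 S => none) (fun (ι : (K × Fin s) ⊕ S ↪ I) A => av fun b : I → E =>
        Y (fun a => ι (.inr a)) (b - spr t (jlab ι g), A)) -
        av fun ι : S ↪ I => av fun x => Y ι x| ≤ ε := fun π g => by
    have h1 := hn I hI ((K × Fin s) ⊕ S) S (by simpa using hu) Function.Embedding.inr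
      (sumP π fun _ : Sym2 S => none) (fun ι A => av fun b : I → E => Y ι (b, A)) (by
        refine le_trans (SD.av_mono fun ι => ?_) hY
        rw [SD.av_prod, SD.av_comm]
        exact SD.av_mono fun A => SD.av_sq_le _)
    have e1 : pbP (Function.Embedding.inr : S ↪ (K × Fin s) ⊕ S)
        (sumP π fun _ : Sym2 S => none) = fun _ => none := funext fun c => by
      induction c using Sym2.ind with
      | _ a b => rfl
    rw [e1, EW_none] at h1
    simp only [sub_eq_add_neg (_ : I → E), fun (ι : (K × Fin s) ⊕ S ↪ I) A =>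
      SD.av_add_right (fun b : I → E => Y (fun a => ι (.inr a)) (b, A)) (-spr t (jlab ι g)),
      SD.av_prod (α := I → E), SD.av_comm (α := I → E)]
    exact h1
  have fin : ∀ (G : (K × Fin s → Bool) → ℝ) (c : ℝ), (∀ g, |G g - c| ≤ ε) → |av G - c| ≤ ε :=
    fun G c hG => by
      rw [← SD.av_const (α := K × Fin s → Bool) c, ← SD.av_sub]
      exact (SD.abs_av_le _).trans (SD.av_le_const hG)
  rw [EPS_eq, EPM_eq]
  exact ⟨fin _ _ fun g => key _ g, fin _ _ fun g => key _ g⟩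

lemma w1_prod {M : Type} [Fintype M] (a : M → ℝ) (ha : ∀ r, 0 ≤ a r) :
    ∏ r, a r ≤ 1 + ∑ r, a r ^ Fintype.card M := by
  have h0 : 0 ≤ ∑ r, a r ^ Fintype.card M := Finset.sum_nonneg fun r _ => pow_nonneg (ha r) _
  cases isEmpty_or_nonempty M with
  | inl _ => simp
  | inr _ =>
    obtain ⟨r, hr⟩ := Finite.exists_max a
    have h2 : ∏ i, a i ≤ a r ^ Fintype.card M :=
      (Finset.prod_le_prod (fun i _ => ha i) fun i _ => hr i).trans (by simp)
    have h3 := Finset.single_le_sum (f := fun r => a r ^ Fintype.card M)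
      (fun i _ => pow_nonneg (ha i) _) (Finset.mem_univ r)
    linarith

lemma w1_av_le {α : Type} [Finite α] {f : α → ℝ} {c : ℝ} (hc : 0 ≤ c) (h : ∀ x, f x ≤ c) :
    av f ≤ c := by
  cases isEmpty_or_nonempty α with
  | inl _ => simpa [av] using hc
  | inr _ => exact SD.av_le_const h

/-- planted moments of shifted tame functions -/
theorem ep_mom (u m : ℕ) (D : ℕ → ℝ) : ∃ n0 : ℕ, ∀ (I : Type) [Finite I], n0 ≤ Nat.card I →
    ∀ (E K S M : Type) [AddCommGroup E] [Finite E] [Finite K] [Finite S] [Fintype M] (s : ℕ),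
      Nat.card K * s + Nat.card S ≤ u → Fintype.card M ≤ m → ∀ (Q : PP K) (t : M → K → E)
      (N : OmE E I → ℝ), Tame D N → ∀ p : ℕ, p ≤ m →
        EP s Q (fun Φ x => ∏ r, |N (x.1 - spr (t r) Φ, x.2)| ^ p) ≤
          (Fintype.card M + 1) * (D (p * Fintype.card M) + 1) ∧
        EPS s S Q (fun Φ _ x => ∏ r, |N (x.1 - spr (t r) Φ, x.2)| ^ p) ≤
          (Fintype.card M + 1) * (D (p * Fintype.card M) + 1) ∧
        EPM s S Q (fun ι g x => ∏ r, |N (x.1 - spr (t r) (jlab ι g), x.2)| ^ p) ≤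
          (Fintype.card M + 1) * (D (p * Fintype.card M) + 1) := by
  obtain ⟨n0, hn⟩ := sh_of uni u (∑ q ∈ Finset.range (m * m + 1), |D (q * 2)|) 1 one_pos
  refine ⟨max n0 u, fun I _ hI E K S M _ _ _ _ _ s hu hM Q t N hN p hp => ?_⟩
  set q := p * Fintype.card M with hq
  have h0 := hN.nonneg q
  have h1 := fun r => hn I ((le_max_left _ _).trans hI) E K S s hu Q (t r) (fun _ x => |N x| ^ q)
    (w1_av_le (Finset.sum_nonneg fun _ _ => abs_nonneg _) fun _ => by
      simp only [← pow_mul]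
      exact (hN _).trans ((le_abs_self _).trans (Finset.single_le_sum
        (f := fun q => |D (q * 2)|) (fun _ _ => abs_nonneg _)
        (Finset.mem_range.2 (Nat.lt_succ_of_le (Nat.mul_le_mul hp hM))))))
  have h2 : (av fun _ : S ↪ I => av fun x => |N x| ^ q) ≤ D q := w1_av_le h0 fun _ => hN q
  have h3 : ∀ (Φ : Lab I K) (x : OmE E I), ∏ r, |N (x.1 - spr (t r) Φ, x.2)| ^ p ≤
      1 + ∑ r, |N (x.1 - spr (t r) Φ, x.2)| ^ q := fun Φ x => by
    simpa only [← pow_mul] using w1_prod (fun r => |N (x.1 - spr (t r) Φ, x.2)| ^ p)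
      fun r => by positivity
  have h4 : ∀ (z : ℝ) (a : M → ℝ), z ≤ 1 → (∀ r, a r ≤ D q + 1) →
      z + ∑ r, a r ≤ (Fintype.card M + 1) * (D q + 1) := fun z a hz ha => by
    have := Finset.sum_le_card_nsmul Finset.univ a _ fun r _ => ha r
    rw [Finset.card_univ, nsmul_eq_mul] at this
    linarith
  have h5 : EPS s S Q (fun Φ _ x => ∏ r, |N (x.1 - spr (t r) Φ, x.2)| ^ p) ≤
      (Fintype.card M + 1) * (D q + 1) := by
    refine (EPS_mono Q fun Φ _ x => h3 Φ x).trans ?_
    simp only [EPS, SD.av_add, SD.av_sum]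
    exact h4 _ _ (w1_av_le zero_le_one fun _ => w1_av_le zero_le_one fun _ => SD.av_one_le)
      fun r => (sub_le_iff_le_add'.1 (abs_le.1 (h1 r).1).2).trans (by linarith)
  refine ⟨(eps_eq_ep (hu.trans ((le_max_right _ _).trans hI)) Q _).symm.trans_le h5, h5, ?_⟩
  refine (EPM_mono Q fun ι g x => h3 (jlab ι g) x).trans ?_
  simp only [EPM, SD.av_add, SD.av_sum]
  exact h4 _ _ (w1_av_le zero_le_one fun _ => w1_av_le zero_le_one fun _ => SD.av_one_le)
    fun r => (sub_le_iff_le_add'.1 (abs_le.1 (h1 r).2).2).trans (by linarith)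

end NE
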