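import Pool.Agent.Lib.MP_ecee09_co.NE.PairBa
import Pool.Agent.Lib.MP_ecee09_co.NE.W1

/-! Pairs with different targets and few different labels on a pool. -/

set_option linter.unusedSectionVars false

namespace NE

open SD

theorem pqb_pigeon {C T : Type} [Finite T] (l : ℕ) (e : Fin (2 * l) × C ↪ T) (d : T → Prop) :
    ind ({i | d i}.ncard < l) ≤ 2 * av fun m : Fin (2 * l) => ind (∀ c, ¬ d (e (m, c))) := by
  by_cases h : {i | d i}.ncard < l
  · have : Nonempty (Fin (2 * l)) := ⟨⟨0, by omega⟩⟩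
    have k : (sm fun m : Fin (2 * l) => ind (∃ c, d (e (m, c)))) ≤ ({i | d i}.ncard : ℝ) := by
      rw [← cnt_eq_ncard]
      exact sm_ind_le_of_inj _ _ (fun m i => ∃ c, e (m, c) = i)
        (fun m ⟨c, hc⟩ => ⟨_, hc, c, rfl⟩) fun m m' _ _ _ ⟨c, hc⟩ ⟨c', hc'⟩ =>
          (Prod.ext_iff.1 (e.injective (hc.trans hc'.symm))).1
    have hl : ({i | d i}.ncard : ℝ) < l := by exact_mod_cast h
    have l0 : (0 : ℝ) < l := (Nat.cast_nonneg _).trans_lt hl
    simp only [← not_exists, ind_not, av_sub, av_const, ind_pos h]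
    rw [av_def, Nat.card_fin]
    have : (sm fun m : Fin (2 * l) => ind (∃ c, d (e (m, c)))) / ((2 * l : ℕ) : ℝ) ≤ 1 / 2 := by
      push_cast
      rw [div_le_iff₀ (by positivity)]
      linarith
    linarith
  · rw [ind_neg h]
    exact mul_nonneg zero_le_two (av_ind_nonneg _)

theorem pqb_mix {U I : Type} [Finite U] [Finite I] {κ : U → I} (hκ : Function.Injective κ)
    (T : Set U) (φ : (U → Bool) → ℝ) :
    av φ = av fun g => av fun z : I → Bool => φ (mixS T (z ∘ κ) g) := by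
  rw [← av_mix (mixS T) (mix_mix T) φ, av_comm]
  exact av_congr fun g => (av_surj (fun z : I → Bool => z ∘ κ) (fun _ _ => rfl)
    hκ.surjective_comp_right fun y => φ (mixS T y g)).symm

section key
variable {Γ I K S Pl C : Type} [AddCommGroup Γ] {s : ℕ}

theorem pqb_spr (ι : (K × Fin s) ⊕ S ↪ I) (a : K) {e : Pl × C → Fin s} (he : Function.Injective e)
    (h : K → Γ) (g : K × Fin s → Bool) (z : I → Bool) :
    spr h (jlab ι (mixS (Set.range fun c => (a, e c)) (z ∘ fun u => ι (.inl u)) g)) =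
      spr h (jlab ι (mixS (Set.range fun c => (a, e c)) (fun _ => false) g)) +
        pqbW (fun c => ι (.inl (a, e c))) (h a) z := by
  have hκ : Function.Injective fun u => ι (.inl u) := ι.injective.comp Sum.inl_injective
  have hζ : Function.Injective fun c => ι (.inl (a, e c)) :=
    fun c c' k => he (Prod.ext_iff.1 (hκ k)).2
  funext i
  by_cases hi : i ∈ Set.range fun c => ι (.inl (a, e c))
  · obtain ⟨c, rfl⟩ := hi
    have hc : (a, e c) ∈ Set.range fun c => (a, e c) := ⟨c, rfl⟩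
    simp only [spr, jlab_inl, tg, mix_mem _ _ hc, pqbW, pqbPool, crd_apply hζ, Pi.add_apply,
      Function.comp_apply]
    cases z (ι (.inl (a, e c))) <;> simp
  · have : pqbW (fun c => ι (.inl (a, e c))) (h a) z i = 0 := by
      simp [pqbW, pqbPool, (crd_eq_none hζ).2 hi]
    rw [Pi.add_apply, this, add_zero]
    by_cases hj : i ∈ Set.range fun u => ι (.inl u)
    · obtain ⟨u, rfl⟩ := hj
      have hu : u ∉ Set.range fun c => (a, e c) := fun ⟨c, hc⟩ => hi ⟨c, by rw [← hc]⟩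
      simp only [spr, jlab_inl, tg, mix_not_mem _ _ hu]
    · simp only [spr, jlab, lcomp_of_none _ ((crd_eq_none hκ).2 hj)]

theorem pqb_mm_ovr (ε : Γ) (m : Pt Γ I → ℝ) (b : I → Γ) (A : Om I) (Φ : Lab I K) (Q : PP K) :
    mm ε m (b, ovr A (bl Φ Q)) Φ = mm ε m (b, A) Φ := by
  have : ow (ovr A (bl Φ Q)) Φ 0 = ow A Φ 0 :=
    ow_congr_base _ _ fun c hc => ovr_free (by rw [bl, hc]; rfl)
  funext q
  simp only [mm, Sub, cell, Prod.snd_zero, this]

end key

theorem pqb_key (Γ : Type) [AddCommGroup Γ] [Finite Γ] : ∃ ρ : ℝ, 0 ≤ ρ ∧ ρ < 1 ∧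
    ∀ (I K S C : Type) [Finite I] [Finite K] [Finite C] (s l k : ℕ)
      (e : Fin (2 * l) × Fin (2 * k + 1) × C ↪ Fin s) (ι : (K × Fin s) ⊕ S ↪ I) (ε : Γ)
      (P : Set (Pt Γ I)) (t t' : K → Γ) (a : K) (A : Om I) (θ : ℝ), 0 < θ →
      (av fun g => av fun b => sm fun p : Pt Γ I => sm fun p' : Pt Γ I =>
        ind (p ∈ P ∧ p' ∈ P ∧ rs ε p (b, A) = spr t (jlab ι g) ∧
          rs ε p' (b, A) = spr t' (jlab ι g) ∧
          {i : Fin s | p.1 (ι (.inl (a, i))) ≠ p'.1 (ι (.inl (a, i)))}.ncard < l)) ≤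
        (θ + ρ ^ k / θ) * (av fun b => NN ε (si P) (b, A) ^ 2) + 2 / θ * av fun m => av fun j =>
          av fun b => co (mm ε (si P) (b, A) (crd fun c => ι (.inl (a, e (m, j, c)))))
            (AddSubgroup.zmultiples ((t' - t) a)) := by
  obtain ⟨ρ, h0, h1, hρ⟩ := pqb_tags Γ
  refine ⟨ρ, h0, h1, fun I K S C _ _ _ s l k e ι ε P t t' a A θ hθ => ?_⟩
  have hκ : Function.Injective fun u => ι (.inl u) := ι.injective.comp Sum.inl_injective
  have e1 (Φ : Lab I K) : (av fun b => sm fun p : Pt Γ I => sm fun p' : Pt Γ I =>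
      ind (p ∈ P ∧ p' ∈ P ∧ rs ε p (b, A) = spr t Φ ∧ rs ε p' (b, A) = spr t' Φ ∧
        {i : Fin s | p.1 (ι (.inl (a, i))) ≠ p'.1 (ι (.inl (a, i)))}.ncard < l)) ≤
      av fun m => 2 * av fun b =>
        pqbP ε (si P) (fun c => ι (.inl (a, e (m, c)))) (b + spr (t' - t) Φ, A) (b, A) := by
    rw [← av_add_right _ (spr t' Φ), av_mul_left, av_comm, ← av_mul_left]
    refine av_mono fun b => ?_
    simp only [pqbP, av_sm_comm, ← sm_mul_left]
    refine sm_mono fun p => sm_mono fun p' => ?_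
    have a1 : rs ε p (b + spr t' Φ, A) = spr t Φ ↔ rs ε p (b + spr (t' - t) Φ, A) = 0 := by
      rw [rs_add, rs_add, spr_sub, ← add_sub_assoc, sub_eq_zero]
    have a2 : rs ε p' (b + spr t' Φ, A) = spr t' Φ ↔ rs ε p' (b, A) = 0 := by
      rw [rs_add, add_eq_right]
    simp only [a1, a2, ind_and, ← mul_assoc, av_mul_left, si]
    rw [mul_assoc 2, mul_assoc 2, mul_assoc 2, mul_comm 2, mul_assoc _ 2]
    refine mul_le_mul_of_nonneg_left ((pqb_pigeon l e _).trans_eq ?_)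
      (by simp only [← ind_and, ind_nonneg])
    simp only [not_not, funext_iff, Function.comp_apply]
  refine (av_mono fun g => e1 _).trans ?_
  rw [av_comm]
  have e2 (m : Fin (2 * l)) : (av fun g => 2 * av fun b => pqbP ε (si P)
      (fun c => ι (.inl (a, e (m, c)))) (b + spr (t' - t) (jlab ι g), A) (b, A)) ≤
      (θ + ρ ^ k / θ) * (av fun b => NN ε (si P) (b, A) ^ 2) + 2 / θ * av fun j =>
        av fun b => co (mm ε (si P) (b, A) (crd fun c => ι (.inl (a, e (m, j, c)))))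
          (AddSubgroup.zmultiples ((t' - t) a)) := by
    have he : Function.Injective fun c => e (m, c) :=
      fun c c' h => (Prod.ext_iff.1 (e.injective h)).2
    rw [pqb_mix hκ (Set.range fun c => (a, e (m, c)))]
    refine av_le_const fun g => ?_
    simp only [pqb_spr ι a he (t' - t) g, av_mul_left]
    exact hρ I C k _ (fun c c' h => he (Prod.ext_iff.1 (hκ h)).2) ε _ _ (si_nonneg P) A _ θ hθ
  refine (av_mono e2).trans ?_
  rw [av_add, av_mul_left (2 / θ)]
  exact add_le_add (av_le_c (mul_nonneg (by positivity) (av_nonneg fun _ => sq_nonneg _))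
    fun _ => le_rfl) le_rfl

theorem pqb_drop (hU : UNI) (u : ℕ) {C ε : ℝ} (hC : 0 ≤ C) (hε : 0 < ε) : ∃ n0 : ℕ,
    ∀ (I : Type) [Finite I], n0 ≤ Nat.card I → ∀ (U R : Type) [Finite U] [Finite R],
      Nat.card U ≤ u → ∀ (j : R ↪ U) (π : PP U) (f : (R ↪ I) → Om I → ℝ),
      (∀ (κ : R ↪ I) A Q, f κ (ovr A (bl (crd κ) Q)) = f κ A) →
      (∀ κ, (av fun A => f κ A ^ 2) ≤ C) →
      EW π (fun (ι : U ↪ I) A => f (j.trans ι) A) ≤ (av fun κ => av fun A => f κ A) + ε := by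
  obtain ⟨n0, h⟩ := ew_drop_of hU u C ε hε
  refine ⟨n0, fun I _ hI U R _ _ hu j π f h1 h2 => ?_⟩
  have := (abs_le.1 (h I hI U R hu j π f (av_le_c hC h2))).2
  rw [sub_le_iff_le_add'] at this
  simpa only [EW, h1] using this

theorem pairb_of (hU : UNI) (_ : SH) : PAIRb := by
  intro Γ _ _ D δ hδ
  obtain ⟨ρ, r0, r1, hρ⟩ := pqb_key Γ
  set B : ℝ := |D 2| + 1 with hB
  have B0 : 0 < B := by positivity
  set θ : ℝ := δ / (4 * B) with hθ
  have θ0 : 0 < θ := by positivity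
  have η0 : 0 < θ * δ / 8 := by positivity
  obtain ⟨k, hk⟩ := exists_pow_lt_of_lt_one (pow_pos θ0 2) r1
  refine ⟨θ * δ / 8, η0, fun s1 l => ⟨2 * l * ((2 * k + 1) * s1), fun s hs κ σ => ?_⟩⟩
  obtain ⟨n1, h1⟩ := pqb_drop hU (κ * s + σ) (abs_nonneg (D 4)) η0
  obtain ⟨n2, h2⟩ := pqb_drop hU (κ * s + σ) (abs_nonneg (D 4)) one_pos
  refine ⟨max (max n1 n2) s1, fun I K _ _ hI hK ε P Q t t' a ha H => ?_⟩
  simp only [max_le_iff] at hI
  obtain ⟨e⟩ : Nonempty (Fin (2 * l) × Fin (2 * k + 1) × Fin s1 ↪ Fin s) :=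
    Function.Embedding.nonempty_of_card_le (by simpa using hs)
  have hu : Nat.card ((K × Fin s) ⊕ Fin σ) ≤ κ * s + σ := by
    rw [Nat.card_sum, Nat.card_prod, Nat.card_fin, Nat.card_fin]
    gcongr
  have t4 : (av fun A => av fun b => NN ε (si P) (b, A) ^ 4) ≤ |D 4| := by
    rw [av_comm, ← av_prod fun x => NN ε (si P) x ^ 4]
    refine le_trans (av_mono fun x => ?_) ((H.tm 4).trans (le_abs_self _))
    rw [abs_of_nonneg (NN_nonneg (si_nonneg P) x)]
  rw [EPM_eq, ← EW_av]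
  refine (EW_mono _ fun ι A _ => hρ I K _ _ s l k e ι ε P t t' a A θ θ0).trans ?_
  rw [EW_add, EW_mul_left, EW_mul_left]
  simp only [EW_av (O := Fin _)]
  generalize (sumP (bl (tg fun _ : K × Fin s => true) Q) fun _ : Sym2 (Fin σ) => none) = π
  have k1 : EW π (fun (_ : (K × Fin s) ⊕ Fin σ ↪ I) A => av fun b => NN ε (si P) (b, A) ^ 2) ≤ B := by
    refine (h2 I hI.1.2 _ Empty hu Function.Embedding.ofIsEmpty π
      (fun _ A => av fun b => NN ε (si P) (b, A) ^ 2) (fun κ A Q => ?_) fun κ => ?_).trans ?_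
    · rw [show Q = fun _ => none from funext fun d => Sym2.ind (fun x => x.elim) d, bl_none, ovr_none]
    · exact (av_mono fun A => (av_sq_le _).trans_eq (av_congr fun b => by ring)).trans t4
    · rw [av_const, av_comm, ← av_prod fun x => NN ε (si P) x ^ 2]
      exact add_le_add ((H.tm.sq).trans (le_abs_self _)) le_rfl
  have k2 (m : Fin (2 * l)) (j : Fin (2 * k + 1)) : EW π (fun (ι : (K × Fin s) ⊕ Fin σ ↪ I) A =>
      av fun b => co (mm ε (si P) (b, A) (crd fun c => ι (.inl (a, e (m, j, c)))))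
        (AddSubgroup.zmultiples ((t' - t) a))) ≤ θ * δ / 8 + θ * δ / 8 := by
    refine (h1 I hI.1.1 _ (Fin s1) hu ⟨fun c => .inl (a, e (m, j, c)), fun c c' h => ?_⟩ π
      (fun κ A => av fun b => co (mm ε (si P) (b, A) (crd κ)) (AddSubgroup.zmultiples ((t' - t) a)))
      (fun κ A Q => ?_) fun κ => ?_).trans (add_le_add ?_ le_rfl)
    · simpa using h
    · simp only [pqb_mm_ovr]
    · exact (av_mono fun A => pqb_cor_le (si_nonneg P) κ.injective _ A).trans t4
    · refine le_trans (av_mono fun κ => ?_) (H.ch s1 le_rfl hI.2 (AddSubgroup.zmultiples ((t' - t) a))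
        (mt AddSubgroup.zmultiples_eq_bot.1 (sub_ne_zero.2 ha.symm)))
      rw [av_comm, av_prod]
  have k3 : ρ ^ k / θ ≤ θ := by rw [div_le_iff₀ θ0, ← sq]; exact hk.le
  refine (add_le_add (mul_le_mul (add_le_add le_rfl k3) k1 ?_ (by positivity))
    (mul_le_mul_of_nonneg_left (av_le_c (by positivity) fun m => av_le_const (k2 m))
      (by positivity))).trans_eq ?_
  · exact av_nonneg fun _ => av_nonneg fun _ => av_nonneg fun _ => sq_nonneg _
  · rw [hθ]; field_simp; ring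

end NE
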