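import Pool.Agent.Lib.MP_ecee09_co.NE.PosA

/-! Frozen probes with null blocks have positive planted mass. -/

namespace NE

open SD

set_option linter.unusedSectionVars false

theorem pos_prod_le {Z : Type} [Fintype Z] {f : Z → ℝ} (h : ∀ z, 0 ≤ f z ∧ f z ≤ 1) (a : Z) :
    ∏ z, f z ≤ f a := by
  classical
  rw [← Finset.mul_prod_erase _ _ (Finset.mem_univ a)]
  exact mul_le_of_le_one_right (h a).1 (Finset.prod_le_one (fun z _ => (h z).1) fun z _ => (h z).2)

theorem pos_exp {C : ℝ} (hC : 0 ≤ C) {t : ℕ} (ht : 0 < t) (h : 2 * C ≤ t) :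
    Real.exp (-(2 * C)) ≤ (1 - C / t) ^ t := by
  have ht' : (0 : ℝ) < t := by exact_mod_cast ht
  have a : 0 ≤ C / t := by positivity
  have b : C / t ≤ 1 / 2 := by rw [div_le_div_iff₀ ht' two_pos]; linarith
  have e : -(2 * C) = t * (-(2 * (C / t))) := by field_simp
  rw [e, Real.exp_nat_mul]
  refine pow_le_pow_left₀ (Real.exp_pos _).le ?_ t
  rw [Real.exp_neg, inv_le_iff_one_le_mul₀ (Real.exp_pos _)]
  nlinarith [Real.add_one_le_exp (2 * (C / t))]

theorem pos_lcomp {U I K : Type} {ι ι' : U → I} (h : Function.Injective ι)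
    (h' : Function.Injective ι') {Ψ : Lab U K} (e : ∀ a, Ψ a ≠ none → ι a = ι' a) :
    lcomp (crd ι) Ψ = lcomp (crd ι') Ψ := by
  funext i
  refine Option.ext fun k => ?_
  simp only [lcomp_eq_some, crd_eq_some h, crd_eq_some h']
  exact exists_congr fun a => and_congr_left fun ha => by rw [e a (by simp [ha])]

section main
variable {I EE K : Type} [Finite I] [AddCommGroup EE] [Finite EE] [Finite K] {L : LD I EE} {J : ℕ}
  {Cf : ℕ → ℕ} {A : Om I} {Λ : F → Set (Ch EE)}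

open Classical in
/-- the factors of the weight of a sub-probe -/
noncomputable def pos_f (L : LD I EE) (A : Om I) (Λ : F → Set (Ch EE)) (t : ℕ)
    (z : Option (F × Ch EE)) (w : I → ℤ) : ℝ :=
  z.elim (ind (w ∈ L.V A)) fun z =>
    if z.2 ∈ Λ z.1 then ind (w ∈ L.V A) * L.bet A z.2 z.1 t w else 1

/-- the vector lies in the subgroup and its low forms are null -/
def pos_Nice (L : LD I EE) (A : Om I) (Λ : F → Set (Ch EE)) (θ : ℝ) (y : I → ℤ) : Prop :=
  y ∈ L.V A ∧ ∀ e, ∀ l ∈ Λ e, L.Nul A e (l.comp (L.B A y)) θ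

theorem pos_nice_sum [∀ e, Nonempty (Lp A e)] {Z : Type} [Fintype Z] {y : Z → I → ℤ} {θ : ℝ}
    (h : ∀ z, pos_Nice L A Λ θ (y z)) : pos_Nice L A Λ (Fintype.card Z ^ 2 * θ) (∑ z, y z) :=
  ⟨sum_mem fun z _ => (h z).1, fun e l hl =>
    (LD.nul_sum Finset.univ fun z _ => (h z).2 e l hl).congr fun u _ => by
      simp [map_sum, AddMonoidHom.finsetSum_apply]⟩

variable (h : L.Ok J Cf) (hJ : 0 < J)
include h hJ

theorem pos_f_mem (t : ℕ) (z : Option (F × Ch EE)) (w : I → ℤ) :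
    0 ≤ pos_f L A Λ t z w ∧ pos_f L A Λ t z w ≤ 1 := by
  rcases z with _ | z
  · exact ⟨ind_nonneg _, ind_le_one _⟩
  · simp only [pos_f, Option.elim_some]
    split_ifs
    · exact ⟨mul_nonneg (ind_nonneg _) (h.bet_nonneg hJ _ _ _ _ _), mul_le_one₀ (ind_le_one _)
        (h.bet_nonneg hJ _ _ _ _ _) (h.bet_le_one hJ _ _ _ _ _)⟩
    · exact ⟨zero_le_one, le_rfl⟩

theorem pos_nice_of {t : ℕ} (ht : 0 < t) {d : ℝ} (hd : 0 < d) {w : I → ℤ}
    (hw : ∀ z, d ≤ pos_f L A Λ t z w) : pos_Nice L A Λ (Real.log (1 / d) / t) w := by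
  have h1 : w ∈ L.V A := by
    by_contra k
    have := hw none
    simp only [pos_f, Option.elim_none, ind_neg k] at this
    linarith
  refine ⟨h1, fun e l hl => h.nul_of_bet hJ A e ht hd ?_⟩
  simpa only [pos_f, Option.elim_some, if_pos hl, ind_pos h1, one_mul] using hw (some (e, l))

theorem pos_f_mx {e : F} [Nonempty (Lp A e)] {t : ℕ} (ht : 0 < t) {R C : ℝ} (hR : 1 ≤ R)
    (hC : ((L.V A).index : ℝ) ≤ C) (hb : ∀ e', ∀ l ∈ Λ e', 1 ≤ R * L.bb A l e e' t t)
    (z : Option (F × Ch EE)) : pos_Mx A e (pos_f L A Λ t z) (1 / (2 * R * C)) (2 * R / t) := by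
  have := h.finQ hJ A
  have i1 : (1 : ℝ) ≤ (L.V A).index := by exact_mod_cast h.index_pos hJ A
  have hθ : 0 ≤ 2 * R / t := by positivity
  have hp : ∀ x : ℝ, 0 < x → x ≤ 2 * R * C → 1 / (2 * R * C) ≤ 1 / x := fun x a b =>
    one_div_le_one_div_of_le a b
  rcases z with _ | ⟨e', l⟩
  · refine ⟨Ch (L.Qt A), inferInstance, fun _ => 1, L.lift A, ⟨fun _ => ⟨zero_le_one, le_rfl⟩,
      fun w => by simpa [pos_f] using h.ind_eq hJ A w⟩,
      (hp (L.V A).index (by linarith) (by nlinarith)).trans ?_⟩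
    rw [av_def, h.card_ch hJ]
    refine div_le_div_of_nonneg_right (le_trans ?_ (single_le_sm
      (fun _ => mul_nonneg zero_le_one (ind_nonneg _)) 0)) (by linarith)
    rw [one_mul, ind_pos (((congrArg (dch A e) (show L.lift A 0 = 0 from rfl)).trans
      (dch_zero A e)).trans_le hθ)]
  · by_cases hl : l ∈ Λ e'
    · have e1 : pos_f L A Λ t (some (e', l)) = fun w => ind (w ∈ L.V A) * L.bet A l e' t w :=
        funext fun w => if_pos hl
      rw [e1]
      refine pos_mx_mono (pos_mx_of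
        (Ω := ((Fin t → Lp A e') × (Fin t → Lp A e')) × Ch (L.Qt A))
        (ν := fun z => ind (df z.1 ∈ L.V A))
        (χ := fun z => l.comp ((L.B A).flip (df z.1)) + L.lift A z.2)
        ⟨fun _ => ⟨ind_nonneg _, ind_le_one _⟩, fun w => ?_⟩ ht (by linarith) (hb e' l hl))
        (hp _ (by linarith) (by nlinarith)) le_rfl
      rw [Complex.ofReal_mul, LD.bet_gbet, ← h.cav_gbet' hJ, h.ind_eq hJ A w, mul_comm,
        cav_mul_cav]
      refine Eq.symm ((cav_prod _).trans (cav_congr fun a => cav_congr fun b => ?_))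
      rw [AddMonoidHom.add_apply, ee_add, mul_assoc]; rfl
    · have e1 : pos_f L A Λ t (some (e', l)) = fun _ => 1 := funext fun w => if_neg hl
      rw [e1]
      exact pos_mx_mono pos_mx_one ((hp 1 one_pos (by nlinarith)).trans_eq (by simp)) hθ

/-- the choice of the atoms -/
theorem pos_block [∀ e, Nonempty (Lp A e)] {r t : ℕ} (ht : 0 < t)
    (hr : ∀ z : K × Fin r → I → ℤ, ∃ Ξ : K × Fin r → Bool, (∀ a, ∃ j, Ξ (a, j) = true) ∧
      ∀ a b, L.B A (∑ j, if Ξ (a, j) then z (a, j) else 0)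
        (∑ j, if Ξ (b, j) then z (b, j) else 0) = 0)
    (ι : K × Fin (r * Nat.card EE) × Fin J × Fin t ↪ I) (y : I → ℤ) {θ : ℝ} (hθ : 0 ≤ θ)
    (hy : ∀ a j i, pos_Nice L A Λ θ ((smp fun s => ι (a, j, i, s)) - y)) :
    ∃ Ξ, Good (llab (ι, Ξ)) ∧ L.Fp A (llab (ι, Ξ)) ∧ ∀ a,
      pos_Nice L A Λ ((r * (Nat.card EE * J)) ^ 2 * θ) (yv (llab (ι, Ξ)) a) := by
  obtain ⟨Ξ, h1, h2⟩ := hr fun z => ∑ i : Fin (Nat.card EE) × Fin J,
    smp fun s => ι (z.1, finProdFinEquiv (z.2, i.1), i.2, s)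
  have e1 : ∀ a, yv (llab (ι, fun u => Ξ (u.1, (finProdFinEquiv.symm u.2).1))) a =
      ∑ j, if Ξ (a, j) then ∑ i : Fin (Nat.card EE) × Fin J,
        smp fun s => ι (a, finProdFinEquiv (j, i.1), i.2, s) else 0 := fun a => by
    rw [yv_llab, ← finProdFinEquiv.sum_comp, Fintype.sum_prod_type]
    refine Finset.sum_congr rfl fun j _ => ?_
    simp only [Equiv.symm_apply_apply, atom, smp_prod, Fintype.sum_prod_type]
    split_ifs <;> simp
  have e2 : ∀ a, pos_Nice L A Λ ((r * (Nat.card EE * J)) ^ 2 * θ)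
      (yv (llab (ι, fun u => Ξ (u.1, (finProdFinEquiv.symm u.2).1))) a) := fun a => by
    have e3 : ((r : ℝ) * (Nat.card EE * J)) ^ 2 * θ = Fintype.card (Fin r) ^ 2 *
        (Fintype.card (Fin (Nat.card EE) × Fin J) ^ 2 * θ) := by simp; ring
    rw [e1, e3]
    refine pos_nice_sum fun j => ?_
    split_ifs
    · have k := pos_nice_sum fun i : Fin (Nat.card EE) × Fin J =>
        hy a (finProdFinEquiv (j, i.1)) i.2
      rw [Finset.sum_sub_distrib, Finset.sum_const, Finset.card_univ, Fintype.card_prod,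
        Fintype.card_fin, Fintype.card_fin] at k
      rw [Fintype.card_prod, Fintype.card_fin, Fintype.card_fin]
      refine ⟨?_, fun e l hl => (k.2 e l hl).congr fun u _ => ?_⟩
      · simpa using add_mem k.1 (show (Nat.card EE * J) • y ∈ L.V A by
          rw [mul_comm, mul_nsmul']; exact h.jv A _)
      · rw [map_sub, mul_nsmul', map_nsmul, AddMonoidHom.comp_apply, AddMonoidHom.sub_apply,
          AddMonoidHom.nsmul_apply, card_nsmul_eq_zero', sub_zero, AddMonoidHom.comp_apply]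
    · exact ⟨zero_mem _, fun e l _ => (LD.nul_zero.mono (by positivity)).congr fun u _ => by simp⟩
  refine ⟨_, (good_crd ι.injective).lcomp fun a => ?_, ⟨fun a => (e2 a).1, fun a b => ?_⟩, e2⟩
  · obtain ⟨j, hj⟩ := h1 a
    exact ⟨(a, finProdFinEquiv (j, ⟨0, Nat.card_pos⟩), ⟨0, hJ⟩, ⟨0, ht⟩), by simp [tg, hj]⟩
  · rw [e1, e1]; exact h2 a b

omit h hJ in
/-- removing the atoms that were not chosen -/
theorem pos_drop {r t u : ℕ} {γ : ℝ} (hQ : QR u γ A)
    (hu : Nat.card (K × Fin r × Fin J × Fin t) ≤ u) (e : F) (p : Lab I K → Prop) :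
    (av fun ι : K × Fin r × Fin J × Fin t ↪ I =>
        dens (bl (crd ι) (ful fun _ => e)) A * ind (∃ Ξ, p (llab (ι, Ξ)))) ≤
      Nat.card (K × Fin r → Bool) * ((av fun o : LO K r J t I =>
        dens (bl (llab o) (ful fun _ => e)) A * ind (p (llab o))) + γ) := by
  refine (av_mono fun ι => mul_le_mul_of_nonneg_left (ind_exists_le _) (dens_nonneg _ _)).trans ?_
  simp only [← sm_mul_left]
  rw [av_sm_comm, av_prod, av_comm, ← av_const (α := K × Fin r → Bool) γ, ← av_add,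
    ← sm_eq_card_mul_av]
  refine sm_mono fun Ξ => ?_
  have k := hQ.uni _ hu {a | tg (fun u : K × Fin r × Fin J × Fin t => Ξ (u.1, u.2.1)) a ≠ none}
    (ful fun _ => e) (bl (tg fun u : K × Fin r × Fin J × Fin t => Ξ (u.1, u.2.1)) (ful fun _ => e))
    (fun a ha b hb => by
      obtain ⟨x, hx⟩ := Option.ne_none_iff_exists'.1 ha
      obtain ⟨y, hy⟩ := Option.ne_none_iff_exists'.1 hb
      rw [bl_some _ hx hy]; rfl)
    (fun ι => ind (p (llab (ι, Ξ)))) (fun _ => (abs_ind _).trans_le (ind_le_one _))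
    fun ι ι' k => by rw [llab, llab, pos_lcomp ι.injective ι'.injective k]
  simp only [← bl_lcomp] at k
  exact (sub_le_iff_le_add'.1 (abs_le.1 k).2)

end main

theorem pos_of (hI : ISO) : POS := by
  intro EE _ _ J Cf hJ K _
  obtain ⟨r, hr⟩ := hI EE K
  refine ⟨r * Nat.card EE, fun R R' => ?_⟩
  let _ := Fintype.ofFinite K
  let _ := Fintype.ofFinite (Option (F × Ch EE))
  obtain ⟨N, hN⟩ : ∃ N, N = (Finset.univ : Finset (Option (F × Ch EE))).card := ⟨_, rfl⟩
  obtain ⟨S, hS, hS'⟩ : ∃ S : ℝ, 1 ≤ S ∧ R' ≤ S := ⟨max 1 R', le_max_left _ _, le_max_right _ _⟩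
  obtain ⟨C, hC, hC'⟩ : ∃ C : ℝ, 1 ≤ C ∧ Cf R ≤ C := ⟨max 1 _, le_max_left _ _, le_max_right _ _⟩
  obtain ⟨b, hb⟩ : ∃ b : ℝ, b = ((1 / (2 * S * C)) ^ N / 2) ^
    Fintype.card (K × Fin (r * Nat.card EE) × Fin J) := ⟨_, rfl⟩
  have b0 : 0 < b := by rw [hb]; positivity
  have b1 : b ≤ 1 := by
    have : (1 / (2 * S * C)) ^ N ≤ 1 := pow_le_one₀ (by positivity)
      ((div_le_one (by positivity)).2 (by nlinarith))
    rw [hb]; exact pow_le_one₀ (by positivity) (by linarith)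
  obtain ⟨W, hW⟩ : ∃ W : ℝ, W = Nat.card (K × Fin (r * Nat.card EE) → Bool) := ⟨_, rfl⟩
  have W1 : 1 ≤ W := by rw [hW]; exact_mod_cast Nat.card_pos
  have l0 : 0 ≤ Real.log (1 / (b / 4)) := Real.log_nonneg (one_le_one_div (by linarith) (by linarith))
  obtain ⟨D, hD⟩ : ∃ D : ℝ, D = (r * (Nat.card EE * J)) ^ 2 * Real.log (1 / (b / 4)) := ⟨_, rfl⟩
  have D0 : 0 ≤ D := by rw [hD]; positivity
  refine ⟨b / (4 * W), Real.exp (-(2 * D)) / C, ⌈4 ^ N * (4 * S) + 2 * D⌉₊, by positivity,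
    by positivity, fun t t2 ht hQ => ⟨Nat.card (K × Fin (r * Nat.card EE) × Fin J × Fin t),
      b / (8 * W), by positivity, fun I _ _ L A h hA hk e Λ hΛ => ?_⟩⟩
  have t1 : (1 : ℝ) ≤ t := by exact_mod_cast ht
  have q0 : 0 < 4 ^ N * (4 * S) := by positivity
  have q1 : (4 ^ N * (4 * S) + 2 * D) * t ≤ t2 :=
    (mul_le_mul_of_nonneg_right (Nat.le_ceil _) (by linarith)).trans (by exact_mod_cast hQ)
  have q2 : 2 * D < t2 := by nlinarith
  have q3 : (0 : ℝ) < t2 := by linarith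
  have q4 : 0 < t2 := by exact_mod_cast q3
  have : ∀ e, Nonempty (Lp A e) := fun e => (Nat.card_pos_iff.1 (by
    have := hA.bal e
    have := Nat.card_pos (α := I)
    omega)).1
  have hi : ((L.V A).index : ℝ) ≤ C := le_trans (by exact_mod_cast h.idx A R hk) hC'
  have m := pos_mx_prod Finset.univ (by positivity) (by positivity) (pos_f_mx h hJ q4 hS hi
    fun e' l hl => (hΛ e' l hl).trans
      (mul_le_mul_of_nonneg_right hS' (h.bb_nonneg hJ A e l e' t2 t2)))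
  rw [← hN] at m
  have m1 := pos_mx_df m ht (by
    rw [← mul_div_assoc, ← mul_div_assoc, div_le_one q3]; nlinarith)
  rw [av_prod, av_comm] at m1
  obtain ⟨κ, m2⟩ := exists_av_le fun κ : Fin t → Lp A e => av fun κ' : Fin t → Lp A e =>
    ∏ z, pos_f L A Λ t2 z (df (κ', κ))
  obtain ⟨Ω, _, ν, χ, m3, -⟩ := m
  let σ : (K × Fin (r * Nat.card EE) × Fin J) × Fin t ≃
      K × Fin (r * Nat.card EE) × Fin J × Fin t :=
    (Equiv.prodAssoc _ _ _).trans ((Equiv.refl _).prodCongr (Equiv.prodAssoc _ _ _))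
  have γ0 : 0 ≤ b / (8 * W) := by positivity
  have k1 := (abs_le.1 (pos_tr m3 σ γ0 hA le_rfl e (smp fun s => (κ s : I)))).1
  have k2 := (abs_le.1 (pos_tr pos_rep_one σ γ0 hA le_rfl e 0)).2
  have k3 := pos_drop hA le_rfl e fun Φ : Lab I K => Good Φ ∧ L.Fp A Φ ∧
    ∀ a e', ∀ l ∈ Λ e', Real.exp (-(2 * D)) / C ≤ L.bet A l e' t2 (yv Φ a)
  have k4 := hb.trans_le (pow_le_pow_left₀ (by positivity) (m1.trans m2) _)
  simp only [Finset.prod_const_one, mul_one, av_const, one_pow] at k2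
  have f1 : ∀ w, 0 ≤ ∏ z, pos_f L A Λ t2 z w ∧ ∏ z, pos_f L A Λ t2 z w ≤ 1 := fun w =>
    ⟨Finset.prod_nonneg fun z _ => (pos_f_mem h hJ t2 z w).1, Finset.prod_le_one
      (fun z _ => (pos_f_mem h hJ t2 z w).1) fun z _ => (pos_f_mem h hJ t2 z w).2⟩
  have k5 := av_mono (α := K × Fin (r * Nat.card EE) × Fin J × Fin t ↪ I)
    (f := fun ι => dens (bl (crd ι) (ful fun _ => e)) A *
      ∏ m, ∏ z, pos_f L A Λ t2 z ((smp fun s => ι (σ (m, s))) - smp fun s => (κ s : I)))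
    (g := fun ι => dens (bl (crd ι) (ful fun _ => e)) A * ind (∃ Ξ, Good (llab (ι, Ξ)) ∧
      L.Fp A (llab (ι, Ξ)) ∧ ∀ a e', ∀ l ∈ Λ e',
        Real.exp (-(2 * D)) / C ≤ L.bet A l e' t2 (yv (llab (ι, Ξ)) a)) +
      b / 4 * dens (bl (crd ι) (ful fun _ => e)) A) fun ι => by
    rw [mul_comm (b / 4), ← mul_add]
    refine mul_le_mul_of_nonneg_left ?_ (dens_nonneg _ _)
    refine le_of_not_gt fun k => ?_
    have k' := (le_add_of_nonneg_left (ind_nonneg _)).trans k.le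
    obtain ⟨Ξ, g1, g2, g3⟩ := pos_block h hJ ht (hr _ (L.B A)) ι (smp fun s => (κ s : I))
      (div_nonneg l0 q3.le) fun a j i => pos_nice_of h hJ q4 (by positivity) fun z =>
        (k'.trans (pos_prod_le (fun _ => f1 _) (a, j, i))).trans
          (pos_prod_le (fun z => pos_f_mem h hJ t2 z _) z)
    rw [← mul_div_assoc, ← hD] at g3
    rw [ind_pos ⟨Ξ, g1, g2, fun a e' l hl => le_trans (div_le_div₀
      (pow_nonneg (sub_nonneg.2 ((div_le_one q3).2 (by linarith))) _) (pos_exp D0 q4 q2.le)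
      (by exact_mod_cast h.index_pos hJ A) hi)
      (h.bet_of_nul hJ A e' t2 ((div_le_one q3).2 (by linarith)) ((g3 a).2 e' l hl))⟩] at k
    linarith [Finset.prod_le_one (s := Finset.univ) (fun m _ => (f1
      ((smp fun s => ι (σ (m, s))) - smp fun s => (κ s : I))).1) fun m _ => (f1 _).2]
  rw [av_add, av_mul_left] at k5
  rw [← hW, mul_add, show W * (b / (8 * W)) = b / 8 by field_simp] at k3
  have k6 : b / (8 * W) ≤ b / 8 := div_le_div_of_nonneg_left b0.le (by norm_num) (by linarith)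
  have k7 := mul_le_mul_of_nonneg_left (show (av fun ι : K × Fin (r * Nat.card EE) × Fin J × Fin t
    ↪ I => dens (bl (crd ι) (ful fun _ => e)) A) ≤ 2 by linarith) (show 0 ≤ b / 4 by linarith)
  rw [div_le_iff₀' (by positivity), mul_assoc]
  simp only [df] at k4
  linarith

end NE
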