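import Pool.Agent.Lib.MP_ecee09_co.NE.Pu2b

/-! Matched injective tuples that are not robust are rare. -/

namespace NE

open SD

lemma p2_tup (h : TUP) (Γ : Type) [AddCommGroup Γ] [Finite Γ] (m : ℕ) (D : ℕ → ℝ) (δ : ℝ)
    (hδ : 0 < δ) : ∃ η : ℝ, 0 < η ∧ ∀ γ : ℝ, 0 < γ → ∃ s0 : ℕ, ∀ σ : ℕ, s0 ≤ σ → ∀ κ s : ℕ,
      ∃ n0 : ℕ, ∀ (I K : Type) [Finite I] [Finite K], n0 ≤ Nat.card I → Nat.card K ≤ κ →
        ∀ (ε : Γ) (P : Set (Pt Γ I)) (Q : PP K) (t : Fin m → K → Γ) (s1 : ℕ), s1 ≤ σ →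
          PuH ε P D s1 η → ∀ (R : Finset (Fin m)) (W : AddSubgroup (R → Γ)), p2gd W →
          EPS s (Fin σ) Q (p2tp γ ε P (fun r : R => t r) W) ≤ δ := by
  have h' := fun R : {R : Finset (Fin m) // Nonempty R} =>
    @h Γ R.1 _ _ _ R.2 D δ hδ
  choose η hη s0 n0 H using h'
  obtain ⟨c, hc, hc'⟩ := p2_exists_pos η hη
  refine ⟨c, hc, fun γ hγ => ?_⟩
  obtain ⟨a, ha⟩ := Finite.exists_le fun R => s0 R γ hγ
  refine ⟨a, fun σ hσ κ s => ?_⟩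
  obtain ⟨b, hb⟩ := Finite.exists_le fun R => n0 R γ hγ σ ((ha R).trans hσ) κ s
  exact ⟨b, fun I K _ _ hI hK ε P Q t s1 h1 hP R W hW =>
    H ⟨R, hW.1⟩ γ hγ σ _ κ s I K ((hb _).trans hI) hK ε P Q (fun r : R => t r) s1 h1
      (p2_puh hP (hc' _)) W hW.2.1 hW.2.2.1 hW.2.2.2.1 hW.2.2.2.2⟩

lemma p2_level (hT : TUP) (hP : PAIR) (Γ : Type) [AddCommGroup Γ] [Finite Γ] (m : ℕ)
    (D : ℕ → ℝ) (δ : ℝ) (hδ : 0 < δ) : ∃ η : ℝ, 0 < η ∧ ∀ s1 k : ℕ, ∃ k' : ℕ, k ≤ k' ∧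
      ∃ s0 : ℕ, ∀ s : ℕ, s0 ≤ s → ∀ κ : ℕ, ∃ n0 : ℕ,
      ∀ (I K : Type) [Finite I] [Finite K], n0 ≤ Nat.card I → Nat.card K ≤ κ →
        ∀ (ε : Γ) (P : Set (Pt Γ I)) (Q : PP K) (t : Fin m → K → Γ), PuH ε P D s1 η →
          ∀ n : ℕ, k' ≤ n → Nonempty ((K × Fin s) ⊕ Fin n ↪ I) →
          EPS s (Fin n) Q (p2bd ε P t) ≤ δ + 2 * sm fun R : Finset (Fin m) =>
            EPS s (Fin n) Q (p2ch ε P (fun r : R => t r) k k') := by
  obtain ⟨A, hA⟩ : ∃ A : ℝ, A = (sm fun R : Finset (Fin m) =>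
    (Nat.card (AddSubgroup (R → Γ)) : ℝ)) + Nat.card (Fin m × Fin m) := ⟨_, rfl⟩
  have hA0 : 0 ≤ A := hA ▸ add_nonneg (sm_nonneg fun _ => Nat.cast_nonneg _) (Nat.cast_nonneg _)
  have hd : 0 < δ / (A + 1) := by positivity
  obtain ⟨η1, a1, H1⟩ := p2_tup hT Γ m D _ hd
  obtain ⟨η2, a2, H2⟩ := hP Γ D _ hd
  refine ⟨min η1 η2, lt_min a1 a2, fun s1 k => ?_⟩
  obtain ⟨σ0, H1⟩ := H1 (1 / (2 * k + 2)) (by positivity)
  obtain ⟨k', b1, b2, b3⟩ : ∃ k', k ≤ k' ∧ s1 ≤ k' ∧ σ0 ≤ k' :=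
    ⟨k + s1 + σ0, by omega, by omega, by omega⟩
  obtain ⟨s0, H2⟩ := H2 s1 k' b2
  refine ⟨k', b1, s0, fun s hs κ => ?_⟩
  obtain ⟨n1, H1⟩ := H1 k' b3 κ s
  obtain ⟨n2, H2⟩ := H2 s hs κ
  refine ⟨n1 + n2, fun I K _ _ hI hK ε P Q t hu n hn hne => ?_⟩
  have hγ : 2 * (1 / (2 * k + 2) : ℝ) * k ≤ 1 := by
    rw [mul_one_div, div_mul_eq_mul_div, div_le_one (by positivity)]; linarith
  have hne' : Nonempty ((K × Fin s) ⊕ Fin k' ↪ I) :=
    hne.map fun ι => ((Function.Embedding.refl _).sumMap (Fin.castLEEmb hn)).trans ι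
  have e1 : EPS s (Fin n) Q (p2bd ε P t) ≤ EPS s (Fin k') Q (p2bd ε P t) := by
    rw [← p2_eps_res Q (Fin.castLEEmb hn)]
    refine p2_eps_mono Q fun Φ ι x => ind_mono fun ⟨p, h1, h2, h3⟩ => ⟨p, h1, h2, fun h => h3 ?_⟩
    exact top_le_iff.1 (h ▸ p2_Wg_comp (fun a => row p (ι a)) (Fin.castLEEmb hn))
  have e2 : ∀ R : Finset (Fin m), EPS s (Fin k') Q (p2ch ε P (fun r : R => t r) k k') =
      EPS s (Fin n) Q (p2ch ε P (fun r : R => t r) k k') := fun R => by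
    rw [← p2_eps_res Q (Fin.castLEEmb hn)]
    congr 1
    funext Φ ι x
    refine sm_congr fun q => ?_
    rw [← seg_cast (fun a => row q (ι a)) hn b1, ← seg_cast (fun a => row q (ι a)) hn le_rfl]
    rfl
  have e3 := p2_eps_mono (s := s) Q (p2_dec (S := Fin k') (1 / (2 * k + 2)) ε P t)
  rw [p2_eps_add, p2_eps_add, p2_eps_sm, p2_eps_sm, p2_eps_sm] at e3
  have e4 : (sm fun R : Finset (Fin m) => EPS s (Fin k') Q fun Φ ι x =>
      sm fun W : AddSubgroup (R → Γ) =>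
        ind (p2gd W) * p2tp (1 / (2 * k + 2)) ε P (fun r : R => t r) W Φ ι x) ≤
      sm fun R : Finset (Fin m) => (Nat.card (AddSubgroup (R → Γ)) : ℝ) * (δ / (A + 1)) := by
    refine sm_mono fun R => ?_
    rw [p2_eps_sm, ← sm_const]
    refine sm_mono fun W => ?_
    rw [p2_eps_mul]
    by_cases hW : p2gd W
    · rw [ind_pos hW, one_mul]
      exact H1 I K (by omega) hK ε P Q t s1 b2 (p2_puh hu (min_le_left _ _)) R W hW
    · rw [ind_neg hW, zero_mul]; exact hd.le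
  have e5 : (sm fun r : Fin m × Fin m => EPS s (Fin k') Q (p2pr ε P (t r.1) (t r.2))) ≤
      Nat.card (Fin m × Fin m) * (δ / (A + 1)) := by
    rw [← sm_const]
    exact sm_mono fun r => H2 I K (by omega) hK ε P Q _ _ (p2_puh hu (min_le_right _ _))
  have e6 : (sm fun R : Finset (Fin m) =>
      EPS s (Fin k') Q (p2nr (1 / (2 * k + 2)) ε P (fun r : R => t r))) ≤
      2 * sm fun R : Finset (Fin m) => EPS s (Fin n) Q (p2ch ε P (fun r : R => t r) k k') := by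
    rw [← sm_mul_left]
    exact sm_mono fun R => e2 R ▸ p2_nr_le hγ Q ε P _
  rw [sm_mul_right] at e4
  have e7 : A * (δ / (A + 1)) ≤ δ := by
    rw [mul_div_assoc', div_le_iff₀ (by positivity)]; nlinarith
  rw [hA, add_mul, ← hA] at e7
  exact e1.trans (e3.trans (by linarith))

lemma p2_bad (hS : SH) (hT : TUP) (hP : PAIR) (Γ : Type) [AddCommGroup Γ] [Finite Γ] (m : ℕ)
    (D : ℕ → ℝ) (δ : ℝ) (hδ : 0 < δ) : ∃ η : ℝ, 0 < η ∧ ∀ s1 : ℕ, ∃ n s0 : ℕ,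
      ∀ s : ℕ, s0 ≤ s → ∀ κ : ℕ, ∃ n0 : ℕ,
      ∀ (I K : Type) [Finite I] [Finite K], n0 ≤ Nat.card I → Nat.card K ≤ κ →
        ∀ (ε : Γ) (P : Set (Pt Γ I)) (Q : PP K) (t : Fin m → K → Γ), PuH ε P D s1 η →
          EPS s (Fin n) Q (p2bd ε P t) ≤ δ := by
  obtain ⟨η, hη, H⟩ := p2_level hT hP Γ m D (δ / 2) (by positivity)
  refine ⟨η, hη, fun s1 => ?_⟩
  choose nx hnx s0 n0 H using H s1
  obtain ⟨B, hB⟩ : ∃ B : ℝ, B = sm fun R : Finset (Fin m) =>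
    (Nat.card (R → Γ) : ℝ) * (1 + Nat.card R * (|D m| + 2)) := ⟨_, rfl⟩
  obtain ⟨T, hT'⟩ := exists_nat_gt (max (4 * B / δ) 0)
  have hT0 : (0 : ℝ) < T := (le_max_right _ _).trans_lt hT'
  have hT1 : 4 * B ≤ T * δ := (div_le_iff₀ hδ).1 ((le_max_left _ _).trans hT'.le)
  let σ : ℕ → ℕ := fun j => nx^[j] 0
  have hσ : ∀ j, σ (j + 1) = nx (σ j) := fun j => Function.iterate_succ_apply' _ _ _
  have hm : Monotone σ := monotone_nat_of_le_succ fun j => hσ j ▸ hnx _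
  obtain ⟨a, ha⟩ := Finite.exists_le fun j : Fin T => s0 (σ j)
  refine ⟨σ T, a, fun s hs κ => ?_⟩
  obtain ⟨b, hb⟩ := Finite.exists_le fun j : Fin T => n0 (σ j) s ((ha j).trans hs) κ
  obtain ⟨c, hc⟩ := p2_mom hS D m (κ * s + σ T)
  refine ⟨b + c + (κ * s + σ T), fun I K _ _ hI hK ε P Q t hu => ?_⟩
  have hKs : Nat.card K * s ≤ κ * s := Nat.mul_le_mul_right _ hK
  have hne : Nonempty ((K × Fin s) ⊕ Fin (σ T) ↪ I) := nonempty_emb (by simp; omega)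
  have e1 : ∀ j ∈ Finset.range T, EPS s (Fin (σ T)) Q (p2bd ε P t) ≤
      δ / 2 + 2 * sm fun R : Finset (Fin m) =>
        EPS s (Fin (σ T)) Q (p2ch ε P (fun r : R => t r) (σ j) (σ (j + 1))) := fun j hj => by
    have hj := Finset.mem_range.1 hj
    rw [hσ]
    exact H (σ j) s ((ha ⟨j, hj⟩).trans hs) κ I K ((hb ⟨j, hj⟩).trans (by omega)) hK ε P Q t hu
      _ (hσ j ▸ hm hj) hne
  have e2 := Finset.sum_le_sum e1
  rw [Finset.sum_add_distrib, ← Finset.mul_sum, ← sm_sum] at e2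
  simp only [Finset.sum_const, Finset.card_range, nsmul_eq_mul] at e2
  have e3 : (sm fun R : Finset (Fin m) => ∑ j ∈ Finset.range T,
      EPS s (Fin (σ T)) Q (p2ch ε P (fun r : R => t r) (σ j) (σ (j + 1)))) ≤ B := by
    rw [hB]
    refine sm_mono fun R => ?_
    have hR : 1 * Nat.card R ≤ m := by simpa using Finset.card_le_univ R
    refine le_trans ?_ (mul_le_mul_of_nonneg_left (hc I (by omega) Γ K (Fin (σ T)) R s 1
      (by simp; omega) hR ε P Q (fun r => t r) hu.tm) (Nat.cast_nonneg _))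
    rw [← p2_eps_mul, ← p2_eps_sum]
    refine p2_eps_mono Q fun Φ ι x => ?_
    simp only [p2ch, p2N, pow_one]
    rw [← sm_sum, ← sm_mul_left]
    refine sm_mono fun q => ?_
    rw [← Finset.mul_sum, mul_comm]
    exact mul_le_mul_of_nonneg_right (p2_chain (fun j => seg (fun a => row q (ι a)) (σ j))
      (fun j => seg_mono _ (hm (Nat.le_succ j))) T) (ind_nonneg _)
  refine le_of_mul_le_mul_left ?_ hT0
  linarith

theorem pu2_of (hS : SH) (hT : TUP) (hP : PAIR) : PU2 := by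
  intro Γ _ _ m D δ hδ
  obtain ⟨C, hC⟩ : ∃ C : ℝ, C = 1 + Nat.card (Fin m) * (|D (2 * m)| + 2) := ⟨_, rfl⟩
  have hC0 : 0 < C := by rw [hC]; positivity
  have hl : 0 < δ / (2 * C) := by positivity
  obtain ⟨η, hη, H⟩ := p2_bad hS hT hP Γ m D (δ / (2 * C) * (δ / 2)) (by positivity)
  refine ⟨η, hη, fun s1 => ?_⟩
  obtain ⟨n, s0, H⟩ := H s1
  refine ⟨1 / (4 * n + 4), by positivity, s0, fun s hs κ => ?_⟩
  obtain ⟨b, H⟩ := H s hs κ
  obtain ⟨c, hc⟩ := p2_mom hS D (2 * m) (κ * s + n)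
  refine ⟨b + c + (2 * (κ * s + n) + 1), fun I K _ _ hI hK ε P Q t hu => ?_⟩
  have hKs : Nat.card K * s ≤ κ * s := Nat.mul_le_mul_right _ hK
  have hne : Nonempty ((K × Fin s) ⊕ Fin n ↪ I) := nonempty_emb (by simp; omega)
  have hU : 2 * Nat.card (K × Fin s) < Nat.card I := by simp; omega
  have e1 : ∀ p : Fin m → Pt Γ I, EP s Q (fun Φ x =>
      ind (Mat ε P t Φ x p ∧ Function.Injective p ∧ ¬ Rob (1 / (4 * n + 4)) ⊤ (row p))) ≤
      2 * EPS s (Fin n) Q fun Φ ι x => ind (Mat ε P t Φ x p) * p2bd ε P t Φ ι x := fun p => by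
    by_cases hr : Function.Injective p ∧ ¬ Rob (1 / (4 * n + 4)) ⊤ (row p)
    swap
    · simp only [hr, and_false, EP, ind_neg not_false, av_zero]
      exact mul_nonneg zero_le_two
        (p2_eps_nonneg Q fun _ _ _ => mul_nonneg (ind_nonneg _) (ind_nonneg _))
    have h2 := hr.2
    simp only [Rob, not_forall, not_le] at h2
    obtain ⟨W, h1, h2, h3⟩ := h2
    have h4 : 2 * (Nat.card (Fin n) * cnt {i | row p i ∉ W}) ≤
        Nat.card I - Nat.card (K × Fin s) := by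
      have h5 : 2 * (Nat.card (K × Fin s) : ℝ) < Nat.card I := by exact_mod_cast hU
      rw [one_div_mul_eq_div, lt_div_iff₀ (by positivity)] at h3
      rw [Nat.card_eq_fintype_card (α := Fin n), Fintype.card_fin]
      nlinarith [cnt_nonneg {i | row p i ∉ W}]
    refine (p2_ep_le (S := Fin n) Q _ (fun _ _ => ind_nonneg _) _ h4 (by omega)).trans ?_
    refine mul_le_mul_of_nonneg_left (p2_eps_mono Q fun Φ ι x => ?_) zero_le_two
    rw [p2bd, ← ind_and, ← ind_and]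
    exact ind_mono fun ⟨a1, a2⟩ => ⟨a1.1, p, a1.1, hr.1, fun h =>
      h2 (h ▸ p2_Wg_le h1 fun a => not_not.1 (a2 a))⟩
  have e2 := hc I (by omega) Γ K (Fin n) (Fin m) s 2 (by simp; omega) (by simp) ε P Q t hu.tm
  have e3 := H I K (by omega) hK ε P Q t hu
  rw [← hC] at e2
  rw [p2_ep_sm]
  refine (sm_mono e1).trans ?_
  rw [sm_mul_left, ← p2_eps_sm, ← p2_eps_mul]
  refine (p2_eps_mono Q (g := fun Φ ι x => δ / (2 * C) * p2N ε P t Φ x ^ 2 +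
    (δ / (2 * C))⁻¹ * p2bd ε P t Φ ι x) fun Φ ι x => ?_).trans ?_
  · rw [sm_mul_right]
    have hb : p2bd ε P t Φ ι x ^ 2 = p2bd ε P t Φ ι x := ind_sq _
    change 2 * (p2N ε P t Φ x * _) ≤ _
    generalize δ / (2 * C) = l at hl
    refine le_of_mul_le_mul_left ?_ hl
    rw [mul_add, mul_inv_cancel_left₀ hl.ne']
    nlinarith [sq_nonneg (l * p2N ε P t Φ x - p2bd ε P t Φ ι x)]
  · rw [p2_eps_add, p2_eps_mul, p2_eps_mul]
    have f1 := mul_le_mul_of_nonneg_left e2 hl.le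
    have f2 := mul_le_mul_of_nonneg_left e3 (inv_pos.2 hl).le
    rw [inv_mul_cancel_left₀ hl.ne'] at f2
    have f3 : δ / (2 * C) * C = δ / 2 := by field_simp
    linarith

end NE
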