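import Pool.Agent.Lib.MP_ecee09_co.NE.Pu5a

/-! The truncated product has mean close to one. -/

namespace NE

open SD

lemma pu5_absX {Γ I K : Type} [AddCommGroup Γ] [Finite Γ] [Finite I] [Finite K] {s : ℕ}
    {Q : PP K} {ε : Γ} {P : Set (Pt Γ I)} {N B : ℝ} (h : (Nat.card (K → Γ) : ℝ) ≤ N)
    (hB : 0 ≤ B) (m : ℕ) (LL : Set (K → Γ)) (b : (K → Γ) → (K → Γ) → ℝ)
    (hb : ∀ t : Fin m → K → Γ, |EP s Q (pu5I ε P t fun r => b (t r))| ≤ B) :
    |EP s Q (pu5X m ε P LL b)| ≤ N ^ m * B := by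
  simp only [EP, pu5X, av_sm_comm, av_mul_left]
  refine (abs_sm_le _).trans (P5.sm_le (fun t => ?_) hB ?_)
  · rw [abs_mul, abs_ind]
    exact (mul_le_of_le_one_left (abs_nonneg _) (ind_le_one _)).trans (hb t)
  · rw [Nat.card_fun, Nat.card_fin]
    push_cast
    exact pow_le_pow_left₀ (Nat.cast_nonneg _) h m

theorem pu5_of (h4 : PU4) (hn : PUN) : PU5 := by
  intro Γ _ _ D κ B δ hδ
  set N : ℝ := (Nat.card Γ : ℝ) ^ κ with hN
  have hN0 : 0 < N := pow_pos card_pos' _
  set B' : ℝ := |B| + 1 with hB'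
  have hB0 : 0 < B' := by positivity
  obtain ⟨L0, hL0⟩ := Filter.eventually_atTop.1
    ((FloorSemiring.tendsto_pow_div_factorial_atTop ((1 + B') * N * |D 1|)).eventually
      (gt_mem_nhds (half_pos hδ)))
  refine ⟨L0, fun L hL => ?_⟩
  set k : ℕ → ℝ := fun m => (B' * N) ^ (m + 1) * (1 + |D 1| ^ m) with hk
  set C : ℝ := 1 + ((1 + B') * N) ^ (L + 1) + ∑ m ∈ Finset.range L, k m with hC
  have hC0 : 0 < C := by
    have : 0 ≤ ∑ m ∈ Finset.range L, k m := Finset.sum_nonneg fun m _ => by positivity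
    positivity
  set θ : ℝ := δ / (2 * C) with hθ
  have hθ0 : 0 < θ := by positivity
  choose g hg0 hg using fun m => h4 Γ m D θ hθ0
  obtain ⟨e, he0, he⟩ := P5.fin_min g hg0 (L + 1)
  obtain ⟨η', hη', hn'⟩ := hn Γ D κ (θ ^ 2) (by positivity)
  refine ⟨min e η', lt_min he0 hη', fun s1 => ?_⟩
  choose s0 hs0 using fun m => hg m s1
  obtain ⟨s0', hs0'⟩ := hn' s1
  obtain ⟨s2, hs2⟩ := exists_nat_ge (κ / θ)
  refine ⟨max (max s0' s2) ((Finset.range (L + 2)).sup s0), fun s hs => ?_⟩
  choose n0 hn0 using fun m : Finset.range (L + 2) =>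
    hs0 m s ((Finset.le_sup m.2).trans ((le_max_right _ _).trans hs)) κ
  obtain ⟨n0', hn0'⟩ := hs0' s ((le_max_left _ _).trans ((le_max_left _ _).trans hs))
  refine ⟨max (max n0' (κ * s)) (Finset.univ.sup n0),
    fun I K _ _ hI hK ε P Q LL f hP hf hf0 => ?_⟩
  have hne : Nonempty (K × Fin s ↪ I) := by
    let _ := Fintype.ofFinite I
    let _ := Fintype.ofFinite K
    refine Function.Embedding.nonempty_of_card_le ?_
    rw [← Nat.card_eq_fintype_card, ← Nat.card_eq_fintype_card, Nat.card_prod, Nat.card_fin]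
    exact (Nat.mul_le_mul_right _ hK).trans
      ((le_max_right _ _).trans ((le_max_left _ _).trans hI))
  have hN' : (Nat.card (K → Γ) : ℝ) ≤ N := by
    rw [Nat.card_fun, Nat.cast_pow]
    exact pow_le_pow_right₀ (by exact_mod_cast Nat.card_pos) hK
  have hj : (av fun o : Pr K s I => ind (¬ Good (prl o))) ≤ θ := by
    refine (pu5_junk s).trans ?_
    have a1 : (Nat.card K : ℝ) ≤ κ := by exact_mod_cast hK
    have a2 : (s2 : ℝ) ≤ 2 ^ s := by
      exact_mod_cast ((le_max_right _ _).trans ((le_max_left _ _).trans hs)).trans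
        Nat.lt_two_pow_self.le
    rw [← div_eq_mul_inv, div_le_iff₀ (by positivity)]
    rw [div_le_iff₀ hθ0] at hs2
    nlinarith
  have H4 : ∀ m ≤ L + 1, ∀ (t : Fin m → K → Γ) (a : Fin m → (K → Γ) → ℝ),
      (∀ r w, |a r w| ≤ 1) → ∀ X : ℝ,
      (av fun o : Pr K s I => |∏ r, nu P (a r) (prl o)|) ≤ X → |EP s Q (pu5I ε P t a)| ≤ θ + X := by
    intro m hm t a ha X hX
    have := hn0 ⟨m, Finset.mem_range.2 (by omega)⟩ I K
      ((Finset.le_sup (Finset.mem_univ _)).trans ((le_max_right _ _).trans hI)) hK ε P Q t a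
      (hP.pu5_mono ((min_le_left _ _).trans (he m hm))) ha
    refine (sub_le_iff_le_add.1 ((abs_sub_abs_le_abs_sub _ _).trans this)).trans
      (add_le_add le_rfl ((abs_av_le _).trans (le_trans (av_mono fun o => ?_) hX)))
    rw [abs_mul, abs_ind]
    exact mul_le_of_le_one_left (abs_nonneg _) (ind_le_one _)
  set b : (K → Γ) → (K → Γ) → ℝ := fun t w => f t w / B' with hb
  have hf' : ∀ t w, |f t w| ≤ B' := fun t w =>
    (hf t w).trans ((le_abs_self B).trans (le_add_of_nonneg_right zero_le_one))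
  have hb1 : ∀ t w, |b t w| ≤ 1 := fun t w => by
    rw [hb, abs_div, abs_of_pos hB0, div_le_one hB0]
    exact hf' t w
  have hfac : ∀ m : ℕ, (1 : ℝ) ≤ m.factorial := fun m => by exact_mod_cast m.factorial_pos
  have T1 : |EP s Q fun Φ x => puPi ε P LL f L Φ x - (ind (Good Φ) + ∑ m ∈ Finset.range L,
        B' ^ (m + 1) / (m + 1).factorial * pu5X (m + 1) ε P LL b Φ x)| ≤
      δ / 2 + ((1 + B') * N) ^ (L + 1) * θ := by
    refine (abs_av_le _).trans ((av_mono fun o => (abs_av_le _).trans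
      (av_mono fun x => pu5_pt ε P LL f hB0 hf' L _ _)).trans ?_)
    simp only [av_mul_left]
    have h1 := (le_abs_self _).trans (pu5_absX (s := s) (Q := Q) (ε := ε) (P := P)
      (B := θ + |D 1| ^ (L + 1)) hN' (by positivity) (L + 1) LL (fun _ _ => 1)
      fun t => H4 _ le_rfl t _ (by simp) _
        (av_le_const fun o => pu5_prod_nu hP.tm _ (by simp) _))
    refine (mul_le_mul_of_nonneg_left h1 (by positivity)).trans ?_
    have h2 := (hL0 (L + 1) (by omega)).le
    have h3 : ((1 + B') * N) ^ (L + 1) * θ / (L + 1).factorial ≤ ((1 + B') * N) ^ (L + 1) * θ :=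
      div_le_self (by positivity) (hfac _)
    have h5 : (1 + B') ^ (L + 1) / (L + 1).factorial * (N ^ (L + 1) * (θ + |D 1| ^ (L + 1))) =
        ((1 + B') * N * |D 1|) ^ (L + 1) / (L + 1).factorial +
          ((1 + B') * N) ^ (L + 1) * θ / (L + 1).factorial := by
      rw [mul_pow, mul_pow]
      ring
    rw [h5]
    exact add_le_add h2 h3
  have T2 : ∀ m ∈ Finset.range L, |B' ^ (m + 1) / (m + 1).factorial *
      EP s Q (pu5X (m + 1) ε P LL b)| ≤ k m * θ := by
    intro m hm
    have hm' : m + 1 ≤ L + 1 := by have := Finset.mem_range.1 hm; omega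
    have h1 := pu5_absX (s := s) (Q := Q) (ε := ε) (P := P) (B := θ + θ * |D 1| ^ m) hN'
      (by positivity) (m + 1) LL b fun t => H4 _ hm' t _ (fun r => hb1 _) _ (by
        refine (av_mono (g := fun o : Pr K s I => |nu P (b (t 0)) (prl o)| * |D 1| ^ m)
          fun o => ?_).trans ?_
        · rw [Fin.prod_univ_succ, abs_mul]
          exact mul_le_mul_of_nonneg_left (pu5_prod_nu hP.tm (fun r => b (t r.succ))
            (fun r => hb1 _) _) (abs_nonneg _)
        rw [av_mul_right]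
        refine mul_le_mul_of_nonneg_right (abs_le_of_sq_le_sq' ((av_sq_le _).trans ?_) hθ0.le).2
          (by positivity)
        simp only [sq_abs]
        exact hn0' I K ((le_max_left _ _).trans ((le_max_left _ _).trans hI)) hK ε P _
          (hP.pu5_mono (min_le_right _ _)) (hb1 _) (by
            rw [hb]; simp only [av_div]; rw [hf0, zero_div]))
    rw [abs_mul, abs_of_nonneg (by positivity)]
    refine (mul_le_mul (div_le_self (by positivity) (hfac _)) h1 (abs_nonneg _)
      (by positivity)).trans (le_of_eq ?_)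
    simp only [hk]
    rw [mul_pow]
    ring
  have E : EP s Q (puPi ε P LL f L) - 1 =
      (EP s Q fun Φ x => puPi ε P LL f L Φ x - (ind (Good Φ) + ∑ m ∈ Finset.range L,
        B' ^ (m + 1) / (m + 1).factorial * pu5X (m + 1) ε P LL b Φ x)) +
      (∑ m ∈ Finset.range L, B' ^ (m + 1) / (m + 1).factorial *
        EP s Q (pu5X (m + 1) ε P LL b)) - av fun o : Pr K s I => ind (¬ Good (prl o)) := by
    simp only [EP, ind_not, av_sub, av_add, av_mul_left, av_const, av_sum]
    ring
  rw [E]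
  refine (abs_sub _ _).trans ((add_le_add (abs_add_le _ _) le_rfl).trans ?_)
  have T3 := (Finset.abs_sum_le_sum_abs _ _).trans (Finset.sum_le_sum T2)
  rw [← Finset.sum_mul] at T3
  rw [abs_of_nonneg (av_ind_nonneg _)]
  have T4 : C * θ = δ / 2 := by
    rw [hθ]
    field_simp
  have T5 : C * θ = θ + ((1 + B') * N) ^ (L + 1) * θ + (∑ m ∈ Finset.range L, k m) * θ := by
    rw [hC]
    ring
  linarith

end NE
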