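import Pool.Agent.Lib.MP_ecee09_co.NE.Pu6a

/-! The pure case. -/

namespace NE

open SD

section
variable {Γ I K K' : Type} {s : ℕ}

/-- an injection maps the uniform measure below the conditioned one -/
lemma pu6_inj {X Y : Type} [Finite X] [Finite Y] {j : Y → X} (hj : Function.Injective j)
    {g : X → ℝ} (hg : ∀ x, 0 ≤ g x) :
    av (fun x => ind (x ∈ Set.range j) * g x) ≤ av fun y => g (j y) := by
  have e : sm (fun x => ind (x ∈ Set.range j) * g x) = sm fun y => g (j y) := by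
    simp only [← sm_ind_eq' (j _) g]
    rw [sm_comm]
    refine sm_congr fun x => ?_
    rw [sm_mul_right, sm_ind_uniq _ fun a b h h' => hj (h.trans h'.symm)]
    rfl
  rw [av_def, av_def, e]
  cases isEmpty_or_nonempty Y with
  | inl h => simp [sm, finsum_of_isEmpty]
  | inr h =>
    exact div_le_div_of_nonneg_left (sm_nonneg fun y => hg _) card_pos'
      (Nat.cast_le.2 (Nat.card_le_card_of_injective j hj))

/-- restriction of a probe to some of its pools -/
def pu6r (e : K ↪ K') (O : Pr K' s I) : Pr K s I :=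
  ((e.prodMap (Function.Embedding.refl _)).trans O.1, fun u => O.2 (e u.1, u.2))

lemma prl_pu6r (e : K ↪ K') (O : Pr K' s I) : prl (pu6r e O) = lcomp (prl O) (crd e) := by
  funext i
  refine Option.ext fun k => ?_
  simp only [prl, lcomp_eq_some, crd_eq_some (Function.Embedding.injective _), tg, pu6r]
  constructor
  · rintro ⟨u, h1, h2⟩
    split_ifs at h2 with h
    obtain rfl := Option.some.inj h2
    exact ⟨_, ⟨(e u.1, u.2), h1, if_pos h⟩, rfl⟩
  · rintro ⟨_, ⟨u, h1, h2⟩, rfl⟩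
    split_ifs at h2 with h
    have h3 : (e k, u.2) = u := Prod.ext (Option.some.inj h2).symm rfl
    exact ⟨(k, u.2), (congrArg O.1 h3).trans h1, if_pos (h3 ▸ h)⟩

/-- the two halves of a joint probe -/
def pu6j (O : Pr (K ⊕ K) s I) : Pr K s I × Pr K s I :=
  (pu6r Function.Embedding.inl O, pu6r Function.Embedding.inr O)

lemma pu6j_inj : Function.Injective (pu6j : Pr (K ⊕ K) s I → _) := fun O O' h => by
  refine Prod.ext (Function.Embedding.ext ?_) (funext ?_)
  · rintro ⟨k | k, a⟩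
    · exact congrArg (fun z => z.1.1 (k, a)) h
    · exact congrArg (fun z => z.2.1 (k, a)) h
  · rintro ⟨k | k, a⟩
    · exact congrArg (fun z => z.1.2 (k, a)) h
    · exact congrArg (fun z => z.2.2 (k, a)) h

lemma pu6j_range (z : Pr K s I × Pr K s I) (h : z ∉ Set.range pu6j) :
    ∃ i, i ∈ Set.range z.1.1 ∧ i ∈ Set.range z.2.1 := by
  by_contra hc
  refine h ⟨(⟨fun u => u.1.elim (fun k => z.1.1 (k, u.2)) fun k => z.2.1 (k, u.2), ?_⟩,
    fun u => u.1.elim (fun k => z.1.2 (k, u.2)) fun k => z.2.2 (k, u.2)), rfl⟩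
  rintro ⟨k | k, a⟩ ⟨l | l, b⟩ e
  · obtain ⟨rfl, rfl⟩ := Prod.mk.inj (z.1.1.injective e); rfl
  · exact absurd ⟨_, ⟨_, e⟩, _, rfl⟩ hc
  · exact absurd ⟨_, ⟨_, rfl⟩, _, e⟩ hc
  · obtain ⟨rfl, rfl⟩ := Prod.mk.inj (z.2.1.injective e); rfl

lemma pu6_bl (Φ : Lab I (K ⊕ K')) (π : PP K) (π' : PP K') : bl Φ (sumP π π') =
    orP (bl (lcomp Φ (crd Sum.inl)) π) (bl (lcomp Φ (crd Sum.inr)) π') := by
  have h := bl_sumP (ι := id) Function.injective_id π π'
  rw [crd_id] at h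
  have h2 : bl some (sumP π π') = sumP π π' := by
    funext c
    induction c using Sym2.ind with
    | _ i j => exact bl_some _ rfl rfl
  rw [bl_lcomp, bl_lcomp, ← h2, h]
  funext c
  simp only [bl, orP]
  cases lab2 Φ c <;> rfl

lemma pu6_disj (Φ : Lab I (K ⊕ K')) (i : I) :
    lcomp Φ (crd Sum.inl) i = none ∨ lcomp Φ (crd Sum.inr) i = none := by
  rcases h : Φ i with _ | k | k
  · exact Or.inl (lcomp_of_none _ h)
  · exact Or.inr ((lcomp_of_some _ h).trans ((crd_eq_none Sum.inr_injective).2 (by simp)))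
  · exact Or.inl ((lcomp_of_some _ h).trans ((crd_eq_none Sum.inl_injective).2 (by simp)))

variable [AddCommGroup Γ] [Finite Γ] [Finite K] [Finite I]

/-- the density -/
noncomputable def pu6s (ε : Γ) (P : Set (Pt Γ I)) (L : ℕ) (x : OmE Γ I) (o : Pr K s I) : ℝ :=
  plant (prl o) x.2 * pu6p ε P L (prl o) x

omit [Finite Γ] in
lemma pu6s_nonneg (ε : Γ) (P : Set (Pt Γ I)) (L : ℕ) (x : OmE Γ I) (o : Pr K s I) :
    0 ≤ pu6s ε P L x o := mul_nonneg (plant_nonneg ..) (pu6p_nonneg ..)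

lemma pu6s_le (ε : Γ) (P : Set (Pt Γ I)) (L : ℕ) (x : OmE Γ I) (o : Pr K s I) :
    pu6s ε P L x o ≤ 2 ^ Nat.card (K × Fin s) ^ 2 * DD Γ K ^ L :=
  mul_le_mul (plant_le (supp_lcomp_crd _ _) _) (pu6p_le ..) (pu6p_nonneg ..) (by positivity)

omit [Finite Γ] in
lemma pu6s_pos {ε : Γ} {P : Set (Pt Γ I)} {L : ℕ} {x : OmE Γ I} {o : Pr K s I}
    (h : pu6s ε P L x o ≠ 0) : 0 < plant (prl o) x.2 :=
  (plant_nonneg ..).lt_of_ne' (left_ne_zero_of_mul h)

omit [Finite Γ] in
lemma pu6s_inv {ε : Γ} {P : Set (Pt Γ I)} {L : ℕ} {x : OmE Γ I} {o : Pr K s I}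
    (h : 0 < pu6s ε P L x o) (y : OmE Γ K) :
    pu6s ε P L (cell x (prl o) y) o = pu6s ε P L x o := by
  have h1 := pu6s_pos h.ne'
  rw [pu6s, pu6s, pu6p_inv ε P L h1]
  exact congrArg (· * _) (plant_ow (pu6p_good (right_ne_zero_of_mul h.ne')) h1 y.2)

lemma pu6_first (ε : Γ) (P : Set (Pt Γ I)) (L : ℕ) :
    (av fun x => av fun o : Pr K s I => pu6s ε P L x o) =
      av fun Q : Om K => EP s (ful Q) (pu6p ε P L) := by
  simp only [pu6s, plant, ← av_mul_right, EP_dens]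
  rw [av_comm]
  exact (av_congr fun o => av_comm _).trans (av_comm _)

lemma pu6_second (ε : Γ) (P : Set (Pt Γ I)) (L : ℕ) :
    (av fun x => av fun o : Pr K s I => av fun o' : Pr K s I =>
      pu6s ε P L x o * pu6s ε P L x o') ≤
      (av fun Q : Om K × Om K => EP s (sumP (ful Q.1) (ful Q.2))
        (puPi ε P (pu6R Γ Sum.inl ∪ pu6R Γ Sum.inr) pu6f2 (2 * L))) +
      (2 ^ Nat.card (K × Fin s) ^ 2 * DD Γ K ^ L) ^ 2 *
        (Nat.card (K × Fin s) * Nat.card (K × Fin s) / Nat.card I) := by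
  set C : ℝ := 2 ^ Nat.card (K × Fin s) ^ 2 * DD Γ K ^ L with hC
  have h1 : ∀ x, (av fun o : Pr K s I => av fun o' : Pr K s I =>
      pu6s ε P L x o * pu6s ε P L x o') ≤
      (av fun O : Pr (K ⊕ K) s I => pu6s ε P L x (pu6j O).1 * pu6s ε P L x (pu6j O).2) +
        C ^ 2 * (Nat.card (K × Fin s) * Nat.card (K × Fin s) / Nat.card I) := fun x => by
    rw [← av_prod fun z : Pr K s I × Pr K s I => pu6s ε P L x z.1 * pu6s ε P L x z.2]
    refine le_trans (av_mono (g := fun z => ind (z ∈ Set.range pu6j) *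
      (pu6s ε P L x z.1 * pu6s ε P L x z.2) +
        C ^ 2 * ind (∃ i, i ∈ Set.range z.1.1 ∧ i ∈ Set.range z.2.1)) fun z => ?_) ?_
    · by_cases hz : z ∈ Set.range pu6j
      · rw [ind_pos hz, one_mul]
        exact le_add_of_nonneg_right (mul_nonneg (sq_nonneg _) (ind_nonneg _))
      · rw [ind_neg hz, ind_pos (pu6j_range z hz), zero_mul, zero_add, mul_one, sq]
        exact mul_le_mul (pu6s_le ..) (pu6s_le ..) (pu6s_nonneg ..)
          ((pu6s_nonneg ε P L x z.1).trans (pu6s_le ..))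
    · rw [av_add, av_mul_left]
      refine add_le_add (pu6_inj pu6j_inj fun z => mul_nonneg (pu6s_nonneg ..) (pu6s_nonneg ..))
        (mul_le_mul_of_nonneg_left (le_trans (le_of_eq ?_) emb_meet) (sq_nonneg _))
      simp only [av_prod, av_const]
  refine (av_mono h1).trans ?_
  rw [av_add, av_const]
  refine add_le_add ?_ le_rfl
  simp only [EP_dens]
  rw [av_comm, av_comm (α := Om K × Om K)]
  refine av_mono fun O => ?_
  rw [av_comm (α := Om K × Om K)]
  refine av_mono fun x => ?_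
  simp only [pu6s, pu6j, prl_pu6r, plant]
  rw [mul_mul_mul_comm, av_mul_av, av_prod, ← av_mul_right]
  refine av_mono fun Q => ?_
  rw [← av_mul_right]
  refine av_mono fun Q' => ?_
  rw [pu6_bl, dens_orP (disj_bl (pu6_disj _) _ _)]
  exact mul_le_mul_of_nonneg_left (pu6_joint ..) (mul_nonneg (dens_nonneg ..) (dens_nonneg ..))

end

theorem pure_of (hM : MRF) (hH : PUH) (h5 : PU5) : PURE := by
  intro Γ _ _ _ ε D K _ η hη
  obtain ⟨η0, hη0, hM⟩ := hM η (Nat.card (OmE Γ K)) hη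
  set δ : ℝ := η0 ^ 2 / 4 with hδ
  have hδ0 : 0 < δ := by positivity
  obtain ⟨L, hL⟩ := h5 Γ D (Nat.card K + Nat.card K) (DD Γ K ^ 2) δ hδ0
  obtain ⟨e1, he1, H1⟩ := hL L le_rfl
  obtain ⟨e2, he2, H2⟩ := hL (2 * L) (by omega)
  obtain ⟨f1, hf1, G1⟩ := hH e1 he1
  obtain ⟨f2, hf2, G2⟩ := hH e2 he2
  refine ⟨min f1 f2, lt_min hf1 hf2, fun s1 => ?_⟩
  obtain ⟨t1, H1⟩ := H1 s1
  obtain ⟨t2, H2⟩ := H2 s1
  set s := max t1 t2 with hs
  obtain ⟨n1, H1⟩ := H1 s (le_max_left _ _)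
  obtain ⟨n2, H2⟩ := H2 s (le_max_right _ _)
  obtain ⟨n3, hn3⟩ := exists_nat_gt ((2 ^ Nat.card (K × Fin s) ^ 2 * DD Γ K ^ L) ^ 2 *
    (Nat.card (K × Fin s) * Nat.card (K × Fin s)) / δ)
  refine ⟨max (max n1 n2) (max n3 (Nat.card (K × Fin s))), fun I _ hn P hP hU => ?_⟩
  simp only [max_le_iff] at hn
  obtain ⟨⟨hn1, hn2⟩, hn3', hn4⟩ := hn
  have mono : ∀ {a : ℝ}, min f1 f2 ≤ a → PuU ε P s1 a := fun h =>
    ⟨fun G a b => (hU.gc G a b).trans h, hU.ge.trans h,
      fun s a b G c d => (hU.cc s a b G c d).trans h, fun s a b => (hU.ce s a b).trans h,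
      fun s a b => (hU.cm s a b).trans h⟩
  have := nonempty_emb hn4
  have A1 : 1 - δ ≤ av fun x => av fun o : Pr K s I => pu6s ε P L x o := by
    rw [pu6_first]
    refine const_le_av fun Q => ?_
    have := (abs_le.1 (H1 I K hn1 (Nat.le_add_right _ _) ε P (ful Q) Set.univ pu6f1
      (G1 Γ I ε P D s1 hP (mono (min_le_left _ _))) abs_pu6f1 av_pu6f1)).1
    exact sub_le_iff_le_add.2 (neg_le_sub_iff_le_add.1 this)
  have A2 : (av fun x => av fun o : Pr K s I => av fun o' : Pr K s I =>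
      pu6s ε P L x o * pu6s ε P L x o') ≤ 1 + δ + δ := by
    refine (pu6_second ε P L).trans (add_le_add (av_le_const fun Q => ?_) ?_)
    · exact sub_le_iff_le_add'.1 (abs_le.1 (H2 I (K ⊕ K) hn2 Nat.card_sum.le ε P _ _ pu6f2
        (G2 Γ I ε P D s1 hP (mono (min_le_right _ _))) abs_pu6f2 av_pu6f2)).2
    · rw [div_lt_iff₀ hδ0] at hn3
      rw [← mul_div_assoc]
      refine div_le_of_le_mul₀ (Nat.cast_nonneg _) hδ0.le (hn3.le.trans ?_)
      rw [mul_comm]
      exact mul_le_mul_of_nonneg_left (Nat.cast_le.2 hn3') hδ0.le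
  have A5 : (av fun x => |av (fun o : Pr K s I => pu6s ε P L x o) - 1|) ≤ η0 := by
    refine (av_abs_le_sqrt _).trans (Real.sqrt_le_iff.2 ⟨hη0.le, ?_⟩)
    have e : ∀ x, (av (fun o : Pr K s I => pu6s ε P L x o) - 1) ^ 2 =
        (av fun o : Pr K s I => av fun o' : Pr K s I => pu6s ε P L x o * pu6s ε P L x o') -
          2 * av (fun o : Pr K s I => pu6s ε P L x o) + 1 := fun x => by
      rw [← av_mul_av]; ring
    simp only [e]
    rw [av_add, av_sub, av_mul_left, av_const]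
    linarith
  obtain ⟨ψ, A, a1, a2, -, a3, a4, -, a5, a6⟩ := hM (OmE Γ I) (OmE Γ K) (Pr K s I) (Lab I K)
    (fun x Φ y => cell x Φ y) prl (fun _ => none) (fun o => Good (prl o)) (pu6s ε P L)
    cell_none le_rfl (pu6s_nonneg ε P L)
    (fun o ho => tile_cell ho (fun x h => pu6s_pos h.ne') fun x y h => (pu6s_inv h y).symm ▸ h)
    (fun o _ x y h => pu6s_inv h y) A5 (by
      refine le_trans (le_of_eq ?_) hη0.le
      refine (av_congr fun x => (av_congr fun o => ?_).trans av_zero).trans av_zero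
      by_cases h : pu6s ε P L x o = 0
      · rw [h, zero_mul]
      · rw [ind_neg (not_not.2 (pu6p_good (right_ne_zero_of_mul h))), mul_zero])
  have key : ∀ f : OmE Γ I → Lab I K → ℝ, (∀ x Φ, f x Φ ≤ 1) →
      (∀ x o, pu6s ε P L x o ≠ 0 → f x (prl o) = 0) → A.E f ≤ η := fun f hf hf0 => by
    rw [a6]
    refine le_trans (av_mono fun x => ?_) a5
    have : (av fun o => ψ x o * f x (prl o)) = 0 := by
      refine (av_congr fun o => ?_).trans av_zero
      by_cases h : pu6s ε P L x o = 0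
      · rw [le_antisymm (h ▸ a2 x o) (a1 x o), zero_mul]
      · rw [hf0 x o h, mul_zero]
    rw [this, zero_add]
    exact mul_le_of_le_one_right (sub_nonneg.2 (a4 x)) (hf _ _)
  exact ⟨A, key _ (fun _ _ => ind_le_one _) fun x o h =>
      ind_neg (not_not.2 (pu6p_good (right_ne_zero_of_mul h))),
    key _ (fun x Φ => bad_le_one ..) fun x o h =>
      pu6p_bad ε P L (pu6s_pos h) (right_ne_zero_of_mul h)⟩

end NE
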