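import Pool.Agent.Lib.MP_ecee09_co.NE.Stmts4
import Pool.Agent.Lib.MP_ecee09_co.NE.Part4
import Pool.Agent.Lib.MP_ecee09_co.NE.Dual
import Pool.Agent.Lib.MP_ecee09_co.NE.PL

/-! Weights of mean zero cancel over the probe. -/

namespace NE

open SD Finset
open ComplexConjugate

theorem pun_tag {U : Type} [Fintype U] (θ : U → TT) :
    (cav fun g : U → Bool => ee (∑ u, if g u then θ u else 0)) = ∏ u, (1 + ee (θ u)) / 2 := by
  simp only [ee_sum]
  rw [← prod_cav fun (u : U) (b : Bool) => ee (if b then θ u else 0)]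
  refine prod_congr rfl fun u _ => ?_
  rw [cav_eq, Fintype.sum_bool, if_pos rfl, if_neg Bool.false_ne_true, ee_zero, add_comm,
    Fintype.card_bool, Nat.cast_ofNat]

theorem pun_wl {Γ I K S : Type} [AddCommGroup Γ] [Finite I] [Fintype K] [Fintype S]
    [DecidableEq K] (ι : K × S ↪ I) (g : K × S → Bool) (v : I → Γ) :
    wl v (lcomp (crd ι) (tg g)) = ∑ u, if g u then Pi.single u.1 (v (ι u)) else 0 := by
  rw [wl_lcomp, wl_crd ι.injective]
  funext k
  rw [wl_eq, Finset.sum_apply]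
  refine sum_congr rfl fun u _ => ?_
  by_cases h : k = u.1
  · cases e : g u <;> simp [tg, e, h]
  · cases e : g u <;> simp [tg, e, h, Ne.symm h]

theorem pun_half (x : TT) : ‖(1 + ee x) / 2‖ ≤ 1 := by
  have := norm_add_le 1 (ee x)
  rw [norm_ee, norm_one] at this
  rw [norm_div, Complex.norm_two]
  linarith

theorem pun_prod {U S : Type} [Fintype U] {m : ℕ} (e : Fin m × S ↪ U) (θ : U → TT) {c : ℝ}
    (c0 : 0 ≤ c) (hc : ∀ u, θ u ≠ 0 → ‖(1 + ee (θ u)) / 2‖ ≤ c) :
    ‖∏ u, (1 + ee (θ u)) / 2‖ ≤ c ^ m + ∑ j, ind (∀ i, θ (e (j, i)) = 0) := by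
  classical
  rw [norm_prod]
  by_cases h : ∃ j, ∀ i, θ (e (j, i)) = 0
  · obtain ⟨j, hj⟩ := h
    refine (prod_le_one (fun _ _ => norm_nonneg _) fun _ _ => pun_half _).trans
      (le_add_of_nonneg_of_le (pow_nonneg c0 _) ((ind_pos hj).ge.trans ?_))
    exact single_le_sum (f := fun j => ind (∀ i, θ (e (j, i)) = 0)) (fun _ _ => ind_nonneg _)
      (mem_univ j)
  · simp only [not_exists, not_forall] at h
    choose i hi using h
    refine le_add_of_le_of_nonneg ?_ (sum_nonneg fun _ _ => ind_nonneg _)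
    refine (prod_le_prod_of_subset_of_le_one (subset_univ (univ.image fun j => e (j, i j)))
      (fun _ _ => norm_nonneg _) fun _ _ _ => pun_half _).trans ?_
    rw [prod_image fun j _ k _ t => (Prod.mk.inj (e.injective t)).1]
    refine (prod_le_prod (fun _ _ => norm_nonneg _) fun j _ => hc _ (hi j)).trans ?_
    rw [prod_const, card_fin]

theorem pun_sq {α O : Type} [Finite α] [Finite O] {w : α → ℝ} (hw : ∀ p, 0 ≤ w p)
    (f : O → α → TT) : (av fun o => ‖csm fun p => (w p : ℂ) * ee (f o p)‖ ^ 2) ≤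
      sm fun p => sm fun p' => w p * w p' * ‖cav fun o => ee (f o p - f o p')‖ := by
  have e : ((av fun o => ‖csm fun p => (w p : ℂ) * ee (f o p)‖ ^ 2 : ℝ) : ℂ) =
      csm fun p => csm fun p' => ((w p * w p' : ℝ) : ℂ) * cav fun o => ee (f o p - f o p') := by
    simp only [← cav_mul_left, ← cav_csm_comm]
    rw [← cav_ofReal]
    refine cav_congr fun o => ?_
    rw [← mul_conj'', conj_csm, csm_mul_csm]
    refine csm_congr fun p => csm_congr fun p' => ?_
    rw [ee_sub, map_mul, Complex.conj_ofReal, Complex.ofReal_mul]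
    ring
  refine (le_abs_self _).trans ((Complex.norm_real _).symm.trans_le ?_)
  rw [e]
  refine (norm_csm_le _).trans (sm_mono fun p => (norm_csm_le _).trans (sm_mono fun p' => ?_))
  rw [norm_mul, Complex.norm_real, Real.norm_of_nonneg (mul_nonneg (hw p) (hw p'))]

theorem pun_four {α X : Type} [Finite α] [AddCommGroup X] [Finite X] (w : α → ℝ) (y : α → X)
    {a : X → ℝ} (ha : ∀ x, |a x| ≤ 1) (h0 : av a = 0) : (sm fun p => w p * a (y p)) ^ 2 ≤
      sm fun l : Ch X => ind (l ≠ 0) * ‖csm fun p => (w p : ℂ) * ee (l (y p))‖ ^ 2 := by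
  have e : ((sm fun p => w p * a (y p) : ℝ) : ℂ) = csm fun l : Ch X => chF (fun x => (a x : ℂ)) l *
      ((ind (l ≠ 0) : ℝ) * csm fun p => (w p : ℂ) * ee (l (y p))) := by
    have z : ∀ l : Ch X, chF (fun x => (a x : ℂ)) l * (ind (l ≠ 0) : ℝ) =
        chF (fun x => (a x : ℂ)) l := fun l => by
      by_cases h : l = 0
      · subst h
        simp only [chF, AddMonoidHom.zero_apply, ee_zero, map_one, mul_one, cav_ofReal, h0,
          Complex.ofReal_zero, zero_mul]
      · rw [ind_pos h, Complex.ofReal_one, mul_one]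
    simp only [← mul_assoc, z, ← csm_mul_left]
    rw [csm_comm, ← csm_ofReal]
    refine csm_congr fun p => ?_
    rw [Complex.ofReal_mul, ← chF_inv (fun x => (a x : ℂ)) (y p), ← csm_mul_left]
    exact csm_congr fun l => by ring
  rw [← sq_abs, ← Real.norm_eq_abs, ← Complex.norm_real, e]
  refine (norm_csm_cs _ _).trans ((mul_le_of_le_one_left (sm_nonneg fun _ => sq_nonneg _)
    ?_).trans (sm_mono fun l => le_of_eq ?_))
  · rw [chF_parseval]
    exact n2_le_one fun x => (Complex.norm_real _).trans_le (ha x)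
  · rw [norm_mul, mul_pow, Complex.norm_real, Real.norm_eq_abs, abs_ind, ind_sq]

theorem pun : PUN := by
  classical
  intro Γ _ _ D κ δ hδ
  obtain ⟨c, c0, c1, hc⟩ := exists_half (Nat.card Γ)
  have N0 : (0 : ℝ) < (Nat.card Γ : ℝ) ^ κ := pow_pos card_pos' _
  obtain ⟨m, hm⟩ := exists_pow_lt_of_lt_one
    (show 0 < δ / (2 * (Nat.card Γ : ℝ) ^ κ * (D 1 ^ 2 + 1)) by positivity) c1
  refine ⟨δ / (2 * (Nat.card Γ : ℝ) ^ κ * (m + 1)), by positivity, fun s1 => ⟨m * s1, fun s hs =>
    ⟨κ * s + s1, fun I K _ _ hI hK ε P a h ha h0 => ?_⟩⟩⟩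
  have := Fintype.ofFinite K
  set η := δ / (2 * (Nat.card Γ : ℝ) ^ κ * (m + 1)) with hη
  have η0 : 0 < η := by positivity
  have D0 : 0 < DD Γ I := pow_pos card_pos' _
  have s0 : ∀ p, 0 ≤ si P p := fun _ => ind_nonneg _
  have : Nonempty (K × Fin s ↪ I) := nonempty_emb (by
    rw [Nat.card_prod, Nat.card_fin]
    exact (Nat.mul_le_mul_right _ hK).trans ((Nat.le_add_right _ _).trans hI))
  have key : ∀ l : Ch (K → Γ), l ≠ 0 → (av fun o : Pr K s I =>
      ‖csm fun p => (si P p : ℂ) * ee (l (wl p.1 (prl o)))‖ ^ 2) / DD Γ I ^ 2 ≤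
      c ^ m * D 1 ^ 2 + m * η := fun l hl => by
    obtain ⟨k, hk⟩ : ∃ k, l.comp (AddMonoidHom.single (fun _ => Γ) k) ≠ 0 :=
      not_forall.1 fun t => hl (AddMonoidHom.functions_ext' _ _ _ fun k => (t k).trans rfl)
    let e : Fin m × Fin s1 ↪ K × Fin s := ⟨fun z => (k, Fin.castLE hs (finProdFinEquiv z)),
      fun z z' t => finProdFinEquiv.injective (Fin.castLE_injective hs (Prod.mk.inj t).2)⟩
    let b : Fin m → Fin s1 ↪ K × Fin s := fun j =>
      ⟨fun i => e (j, i), fun i i' t => (Prod.mk.inj (e.injective t)).2⟩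
    let T : (Fin s1 ↪ I) → ℝ := fun ι => (sm fun p => sm fun p' => si P p * si P p' * ind (∀ i,
      p.1 (ι i) - p'.1 (ι i) ∈ (l.comp (AddMonoidHom.single (fun _ => Γ) k)).ker)) / DD Γ I ^ 2
    have hT : av T ≤ η := h.ca s1 le_rfl ((Nat.le_add_left _ _).trans hI) _
      fun t => hk (AddMonoidHom.ker_eq_top_iff.1 t)
    have w : ∀ ι : K × Fin s ↪ I, (av fun g : K × Fin s → Bool =>
        ‖csm fun p => (si P p : ℂ) * ee (l (wl p.1 (prl (ι, g))))‖ ^ 2) / DD Γ I ^ 2 ≤
        c ^ m * D 1 ^ 2 + ∑ j, T ((b j).trans ι) := fun ι => by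
      refine (div_le_div_of_nonneg_right ((pun_sq s0 _).trans (sm_mono fun p => sm_mono fun p' =>
        (?_ : _ ≤ c ^ m * (si P p * si P p') + ∑ j, si P p * si P p' * ind (∀ i,
          p.1 (ι (e (j, i))) - p'.1 (ι (e (j, i))) ∈
            (l.comp (AddMonoidHom.single (fun _ => Γ) k)).ker)))) (sq_nonneg _)).trans ?_
      · rw [← mul_sum, mul_comm (c ^ m), ← mul_add]
        refine mul_le_mul_of_nonneg_left ?_ (mul_nonneg (s0 p) (s0 p'))
        have z : ∀ g : K × Fin s → Bool, l (wl p.1 (prl (ι, g))) - l (wl p'.1 (prl (ι, g))) =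
            ∑ u, if g u then l (Pi.single u.1 (p.1 (ι u) - p'.1 (ι u))) else 0 := fun g => by
          rw [← map_sub, ← wl_sub, prl, pun_wl, map_sum]
          refine sum_congr rfl fun u _ => ?_
          rw [apply_ite l, map_zero]
          rfl
        simp only [z]
        rw [pun_tag]
        refine pun_prod e _ c0.le fun u hu => hc _ _ Nat.card_pos le_rfl ?_ hu
        rw [← map_nsmul, ← Pi.single_smul, card_nsmul_eq_zero', Pi.single_zero, map_zero]
      · simp only [sm_add, sm_sum, sm_mul_left (c ^ m)]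
        rw [add_div, sum_div]
        refine add_le_add ?_ le_rfl
        rw [mul_div_assoc, ← sm_mul_sm, ← sq, ← div_pow]
        exact mul_le_mul_of_nonneg_left (pow_le_pow_left₀ (lam_nonneg s0) (lam_le_of_tame h.tm) 2)
          (pow_nonneg c0.le _)
    rw [av_prod, ← av_div]
    refine (av_mono w).trans ?_
    rw [av_add, av_const, av_sum]
    refine add_le_add le_rfl ((sum_le_sum fun j _ => (av_restrict (b j) T).trans_le hT).trans ?_)
    rw [sum_const, card_fin, nsmul_eq_mul]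
  have B0 : 0 ≤ c ^ m * D 1 ^ 2 + m * η := by positivity
  calc (av fun o : Pr K s I => nu P a (prl o) ^ 2)
      ≤ av fun o : Pr K s I => sm fun l : Ch (K → Γ) => ind (l ≠ 0) *
          (‖csm fun p => (si P p : ℂ) * ee (l (wl p.1 (prl o)))‖ ^ 2 / DD Γ I ^ 2) :=
        av_mono fun o => by
          simp only [← mul_div_assoc]
          rw [nu, div_pow, sm_div]
          exact div_le_div_of_nonneg_right (pun_four _ _ ha h0) (sq_nonneg _)
    _ ≤ sm fun _ : Ch (K → Γ) => c ^ m * D 1 ^ 2 + m * η := by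
        rw [av_sm_comm]
        refine sm_mono fun l => ?_
        rw [av_mul_left, av_div]
        by_cases hl : l = 0
        · rwa [ind_neg (not_not.2 hl), zero_mul]
        · rw [ind_pos hl, one_mul]
          exact key l hl
    _ ≤ (Nat.card Γ : ℝ) ^ κ * (c ^ m * D 1 ^ 2 + m * η) := by
        rw [sm_const, card_ch, Nat.card_fun, Nat.cast_pow]
        exact mul_le_mul_of_nonneg_right (pow_le_pow_right₀ (Nat.one_le_cast.2 Nat.card_pos) hK) B0
    _ ≤ δ := by
        have e : (Nat.card Γ : ℝ) ^ κ * (m + 1) * η = δ / 2 := by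
          rw [hη]
          field_simp
        rw [lt_div_iff₀ (by positivity)] at hm
        nlinarith [mul_pos N0 η0, mul_pos N0 (pow_pos c0 m)]

end NE
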