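import Pool.Agent.Lib.MP_ecee09_co.NE.QRa
import Pool.Agent.Lib.MP_ecee09_co.NE.Stmts4

/-! Almost every pattern is quasirandom. -/

namespace NE.QRn

open SD
open ComplexConjugate Function

variable {I U : Type} [Finite I] [Finite U]

lemma card_lp [Nonempty I] (A : Om I) (e : F) :
    (2 * Nat.card (Lp A e) : ℝ) = Nat.card I * (1 + sg e * lb A) := by
  have h : ∀ i, 1 + sg e * sg (A s(i, i)) = 2 * ind (A s(i, i) = e) := fun i => by
    rcases F_cases e with rfl | rfl <;> rcases F_cases (A s(i, i)) with h | h <;>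
      simp [h, ind] <;> norm_num
  rw [lb, ← av_mul_left, ← av_const (α := I) 1, ← av_add, ← sm_eq_card_mul_av]
  simp only [h, sm_mul_left]
  exact congrArg _ (cnt_eq_card {i | A s(i, i) = e}).symm

omit [Finite U] in
lemma cav_wt [Nonempty I] (A : Om I) (π : PP U) (a : U) (g : I → ℂ) :
    cav (fun i => ((1 + cf π s(a, a) * sg (A s(i, i)) : ℝ) : ℂ) * g i) =
      ((1 + cf π s(a, a) * lb A : ℝ) : ℂ) * lav A (π s(a, a)) g := by
  unfold cf lav
  cases π s(a, a) with
  | none => simp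
  | some e =>
    have h : ∀ i, 1 + sg e * sg (A s(i, i)) = 2 * ind (A s(i, i) = e) := fun i => by
      rcases F_cases e with rfl | rfl <;> rcases F_cases (A s(i, i)) with h | h <;>
        simp [h, ind] <;> norm_num
    have h2 := congrArg (fun x : ℝ => (x : ℂ)) (card_lp A e)
    have h3 : csm (fun i : Lp A e => g i) = Nat.card (Lp A e) * cav fun i : Lp A e => g i := by
      rcases isEmpty_or_nonempty (Lp A e) with h0 | h0
      · simp [csm, finsum_of_isEmpty]
      · exact csm_eq_card_mul_cav _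
    simp only [Option.elim, h]
    push_cast at h2 ⊢
    simp only [mul_assoc, cav_mul_left]
    rw [cav_def, ← csm_subtype, h3, ← mul_div_assoc, ← mul_assoc, h2]
    have := ccard_ne (α := I)
    field_simp

omit [Finite U] in
lemma card_le_sq [Fintype U] [DecidableEq U] {u : ℕ} (hu : Nat.card U ≤ u) (S : Finset (Sym2 U)) :
    S.card ≤ u ^ 2 := by
  refine (Finset.card_le_univ S).trans ((Fintype.card_le_of_surjective
    (fun p : U × U => s(p.1, p.2)) fun c => ?_).trans ?_)
  · induction c using Sym2.ind with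
    | h a b => exact ⟨(a, b), rfl⟩
  · rw [Fintype.card_prod, sq, ← Nat.card_eq_fintype_card]; exact Nat.mul_le_mul hu hu

omit [Finite U] in
lemma pow_le [Fintype U] [DecidableEq U] {u : ℕ} (hu : Nat.card U ≤ u) (S : Finset (Sym2 U)) :
    (2 : ℝ) ^ S.card ≤ 2 ^ u ^ 2 := pow_le_pow_right₀ one_le_two (card_le_sq hu S)

/-- the planted mean over embeddings against the planted mean over maps -/
lemma dens_TT [Nonempty I] [Fintype U] [DecidableEq U] {u : ℕ} (hu : Nat.card U ≤ u)
    (hn : u ≤ Nat.card I) (π : PP U) (A : Om I) {G : (U → I) → ℂ} (c : ∀ φ, ‖G φ‖ ≤ 1) :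
    ‖(cav fun ι : U ↪ I => (dens (bl (crd ι) π) A : ℂ) * G ι) - TT' π A G Finset.univ‖ ≤
      2 * 2 ^ u ^ 2 * ((u : ℝ) ^ 2 / Nat.card I) := by
  have := nonempty_emb (hu.trans hn)
  simp only [dens_eq]
  refine (emb_maps (fun φ => ((∏ d, wt π A φ d : ℝ) : ℂ) * G φ) (C := 2 ^ u ^ 2)
    fun φ => ?_).trans ?_
  · rw [norm_mul]
    exact (mul_le_of_le_one_right (norm_nonneg _) (c φ)).trans
      ((norm_prod_wt _ _ _ _).trans (pow_le hu _))
  · gcongr

lemma prd_of [Nonempty I] {u : ℕ} (hu : Nat.card U ≤ u) (hn : u ≤ Nat.card I) {A : Om I} {β : ℝ}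
    (hβ : β ≤ 1) (hA : bx A ≤ β ^ 4) (hl : |lb A| ≤ β) (π : PP U) (g : U → I → ℂ)
    (hg : ∀ a i, ‖g a i‖ ≤ 1) :
    ‖(cav fun ι : U ↪ I => (dens (bl (crd ι) π) A : ℂ) * ∏ᶠ a, g a (ι a)) -
      ∏ᶠ a, lav A (π s(a, a)) (g a)‖ ≤
      2 * 2 ^ u ^ 2 * ((u : ℝ) ^ 2 / Nat.card I) + (u ^ 2 * 2 ^ u ^ 2 + u * 2 ^ u) * β := by
  classical
  let _ := Fintype.ofFinite U
  have β0 := (abs_nonneg _).trans hl
  simp only [finprod_eq_prod_of_fintype]
  have hp : ∀ (S : Finset U) (φ : U → I), ‖∏ a ∈ S, g a (φ a)‖ ≤ 1 := fun S φ => by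
    rw [norm_prod]; exact Finset.prod_le_one (fun _ _ => norm_nonneg _) fun a _ => hg a _
  let G : (U → I) → ℂ := fun φ => ∏ a, g a (φ a)
  have h1 := dens_TT hu hn π A (G := G) (hp _)
  let S0 : Finset (Sym2 U) := Finset.univ.image fun a => s(a, a)
  have h2 := tel (TT' π A G) S0 S0ᶜ (c := 2 ^ u ^ 2 * β) (fun S d _ hd hS => by
    induction d using Sym2.ind with
    | h a b =>
      have hab : a ≠ b := fun e => by simp [S0, e] at hd
      refine (step_nl β0 hA π hab (G1 := fun φ => ∏ x ∈ Finset.univ.erase a, g x (φ x))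
        (G2 := fun φ => g a (φ a)) (fun φ => ?_) (fun φ i => ?_) (fun φ i => ?_) (hp _)
        (fun _ => hg _ _) hS).trans (mul_le_mul_of_nonneg_right (pow_le hu S) β0)
      · exact (Finset.prod_erase_mul _ _ (Finset.mem_univ a)).symm
      · exact Finset.prod_congr rfl fun x hx => by rw [update_of_ne (Finset.mem_erase.1 hx).1]
      · simp only [update_of_ne hab]) disjoint_compl_right
  rw [Finset.union_compl] at h2
  have h3 : TT' π A G S0 = (∏ a, ((1 + cf π s(a, a) * lb A : ℝ) : ℂ)) *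
      ∏ a, lav A (π s(a, a)) (g a) := by
    rw [← Finset.prod_mul_distrib]
    simp only [← cav_wt]
    rw [prod_cav]
    refine cav_congr fun φ => ?_
    rw [Finset.prod_image fun a _ b _ h => by simpa using h, Finset.prod_mul_distrib]
    simp only [wt, Sym2.map_mk, G, Complex.ofReal_prod]
  have h4 := tel (fun S : Finset U => ∏ a ∈ S, ((1 + cf π s(a, a) * lb A : ℝ) : ℂ)) ∅ Finset.univ
    (c := 2 ^ u * β) (fun S a _ _ hS => by
      have hc : ∀ a, |cf π s(a, a) * lb A| ≤ β := fun a => by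
        rw [abs_mul]; exact (mul_le_of_le_one_left (abs_nonneg _) (abs_cf _ _)).trans hl
      rw [Finset.prod_insert hS, ← sub_one_mul, norm_mul, mul_comm, ← Complex.ofReal_one,
        ← Complex.ofReal_sub, add_sub_cancel_left, Complex.norm_real, norm_prod]
      refine mul_le_mul (((Finset.prod_le_prod (g := fun _ => (2 : ℝ)) (fun _ _ => norm_nonneg _)
        fun a _ => ?_).trans_eq (Finset.prod_const _)).trans (pow_le_pow_right₀ one_le_two ?_)) (hc a) (abs_nonneg _) (by positivity)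
      · rw [Complex.norm_real]
        exact (abs_add_le _ _).trans (by rw [abs_one]; linarith [hc a])
      · exact (Finset.card_le_univ S).trans (by rwa [← Nat.card_eq_fintype_card]))
    (Finset.disjoint_empty_left _)
  rw [Finset.empty_union, Finset.prod_empty] at h4
  have h5 : ‖∏ a, lav A (π s(a, a)) (g a)‖ ≤ 1 := by
    rw [norm_prod]
    refine Finset.prod_le_one (fun _ _ => norm_nonneg _) fun a _ => ?_
    unfold lav
    cases π s(a, a) <;> exact norm_cav_le_const zero_le_one fun _ => hg _ _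
  have h6 : ‖TT' π A G S0 - ∏ a, lav A (π s(a, a)) (g a)‖ ≤ u * (2 ^ u * β) := by
    rw [h3, ← sub_one_mul, norm_mul]
    refine (mul_le_of_le_one_right (norm_nonneg _) h5).trans (h4.trans ?_)
    gcongr
    rwa [Finset.card_univ, ← Nat.card_eq_fintype_card]
  have h7 : (S0ᶜ.card : ℝ) * (2 ^ u ^ 2 * β) ≤ u ^ 2 * (2 ^ u ^ 2 * β) := by
    gcongr; exact_mod_cast card_le_sq hu _
  refine (norm_sub_le_norm_sub_add_norm_sub _ (TT' π A G Finset.univ) _).trans
    (add_le_add h1 ((norm_sub_le_norm_sub_add_norm_sub _ (TT' π A G S0) _).trans ?_))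
  linarith

lemma uni_half [Nonempty I] [Fintype U] [DecidableEq U] {u : ℕ} (hu : Nat.card U ≤ u) {A : Om I}
    {β : ℝ} (hA : bx A ≤ β ^ 4) (hl : |lb A| ≤ β) (R : Set U) (π : PP U) {G : (U → I) → ℂ}
    (c : ∀ φ, ‖G φ‖ ≤ 1) (hG : ∀ b, b ∉ R → Idp b G) {S0 : Finset (Sym2 U)}
    (h0 : ∀ d, d ∈ S0 ↔ ∀ x ∈ d, x ∈ R) :
    ‖TT' π A G Finset.univ - TT' π A G S0‖ ≤ 2 * (u ^ 2 * (2 ^ u ^ 2 * β)) := by
  classical
  have β0 := (abs_nonneg _).trans hl
  let L : Finset (Sym2 U) := S0ᶜ.filter Sym2.IsDiag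
  have h1 := tel (TT' π A G) S0 L (c := 2 ^ u ^ 2 * β) (fun S d hS hd hd' => by
    obtain ⟨h1, h2⟩ := Finset.mem_filter.1 hd
    induction d using Sym2.ind with
    | h a b =>
      obtain rfl : a = b := h2
      have ha : a ∉ R := fun h => (Finset.mem_compl.1 h1) ((h0 _).2 (by simpa using h))
      refine (step_lp hl π (hG a ha) c fun d hd ha' => ?_).trans
        (mul_le_mul_of_nonneg_right (pow_le hu S) β0)
      rcases Finset.mem_union.1 (hS hd) with h | h
      · exact ha ((h0 d).1 h a ha')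
      · have h3 := (Finset.mem_filter.1 h).2
        induction d using Sym2.ind with
        | h x y =>
          obtain rfl : x = y := h3
          obtain rfl : a = x := by simpa using ha'
          exact hd' hd) (disjoint_compl_right.mono_right (Finset.filter_subset _ _))
  have h2 := tel (TT' π A G) (S0 ∪ L) (S0 ∪ L)ᶜ (c := 2 ^ u ^ 2 * β) (fun S d _ hd hS => by
    rw [Finset.mem_compl, Finset.mem_union, not_or] at hd
    obtain ⟨b, hb, hR⟩ : ∃ b ∈ d, b ∉ R := by simpa [h0] using hd.1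
    obtain ⟨a, rfl⟩ := Sym2.mem_iff_exists.1 hb
    have hab : a ≠ b := fun e => hd.2 (Finset.mem_filter.2 ⟨Finset.mem_compl.2 hd.1, e.symm⟩)
    rw [Sym2.eq_swap] at hS ⊢
    exact (step_nl β0 hA π hab (G1 := fun _ => 1) (fun φ => (one_mul _).symm) (fun _ _ => rfl)
      (hG b hR) (fun _ => norm_one.le) c hS).trans (mul_le_mul_of_nonneg_right (pow_le hu S) β0))
    disjoint_compl_right
  rw [Finset.union_compl] at h2
  have h7 : ∀ S : Finset (Sym2 U), (S.card : ℝ) * (2 ^ u ^ 2 * β) ≤ u ^ 2 * (2 ^ u ^ 2 * β) :=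
    fun S => by gcongr; exact_mod_cast card_le_sq hu _
  refine (norm_sub_le_norm_sub_add_norm_sub _ (TT' π A G (S0 ∪ L)) _).trans ?_
  linarith [h7 L, h7 (S0 ∪ L)ᶜ]

lemma uni_of' [Nonempty I] {u : ℕ} (hu : Nat.card U ≤ u) (hn : u ≤ Nat.card I) {A : Om I} {β : ℝ}
    (hA : bx A ≤ β ^ 4) (hl : |lb A| ≤ β) (R : Set U) (π π' : PP U)
    (hπ : ∀ a ∈ R, ∀ b ∈ R, π s(a, b) = π' s(a, b)) (f : (U ↪ I) → ℝ) (hf : ∀ ι, |f ι| ≤ 1)
    (hR : ∀ ι ι' : U ↪ I, (∀ a ∈ R, ι a = ι' a) → f ι = f ι') :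
    |(av fun ι : U ↪ I => dens (bl (crd ι) π) A * f ι) -
      av fun ι : U ↪ I => dens (bl (crd ι) π') A * f ι| ≤
      4 * 2 ^ u ^ 2 * ((u : ℝ) ^ 2 / Nat.card I) + 4 * (u ^ 2 * 2 ^ u ^ 2) * β := by
  classical
  let _ := Fintype.ofFinite U
  let G : (U → I) → ℂ := fun φ =>
    if h : ∃ ι : U ↪ I, ∀ a ∈ R, ι a = φ a then (f h.choose : ℂ) else 0
  have g1 : ∀ ι : U ↪ I, G ι = f ι := fun ι => by
    have h : ∃ ι' : U ↪ I, ∀ a ∈ R, ι' a = ι a := ⟨ι, fun _ _ => rfl⟩
    simp only [G, dif_pos h]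
    rw [hR _ _ h.choose_spec]
  have g2 : ∀ φ, ‖G φ‖ ≤ 1 := fun φ => by
    simp only [G]
    split_ifs
    · rw [Complex.norm_real]; exact hf _
    · simp
  have g3 : ∀ b, b ∉ R → Idp b G := fun b hb φ i => by
    have : (fun ι : U ↪ I => ∀ a ∈ R, ι a = update φ b i a) = fun ι => ∀ a ∈ R, ι a = φ a :=
      funext fun ι => propext (forall₂_congr fun a ha => by
        rw [update_of_ne fun e : a = b => hb (e ▸ ha)])
    simp only [G, this]
  let S0 : Finset (Sym2 U) := Finset.univ.filter fun d => ∀ x ∈ d, x ∈ R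
  have h0 : ∀ d, d ∈ S0 ↔ ∀ x ∈ d, x ∈ R := fun d => by simp [S0]
  have e : TT' π A G S0 = TT' π' A G S0 := cav_congr fun φ => by
    rw [Finset.prod_congr rfl fun d hd => show wt π A φ d = wt π' A φ d from ?_]
    induction d using Sym2.ind with
    | h a b =>
      rw [wt, wt, cf, cf, hπ a ((h0 _).1 hd a (Sym2.mem_mk_left _ _)) b
        ((h0 _).1 hd b (Sym2.mem_mk_right _ _))]
  have a1 := dens_TT hu hn π A g2
  have a2 := dens_TT hu hn π' A g2
  have b1 := uni_half hu hA hl R π g2 g3 h0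
  have b2 := uni_half hu hA hl R π' g2 g3 h0
  simp only [g1, ← Complex.ofReal_mul, cav_ofReal] at a1 a2
  rw [← Real.norm_eq_abs, ← Complex.norm_real, Complex.ofReal_sub]
  rw [norm_sub_rev] at a2 b2
  rw [← e] at b2
  refine (norm_sub_le_norm_sub_add_norm_sub _ (TT' π A G S0) _).trans (le_trans (add_le_add
    (norm_sub_le_norm_sub_add_norm_sub _ (TT' π A G Finset.univ) _)
    (norm_sub_le_norm_sub_add_norm_sub _ (TT' π' A G Finset.univ) _)) ?_)
  linarith

lemma av_sg_two {c c' : Sym2 I} (h : c ≠ c') : av (fun A : Om I => sg (A c) * sg (A c')) = 0 := by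
  classical
  simp only [← sg_add]
  rw [av_sg (fun A : Om I => A c + A c') fun a b => by simp only [Pi.add_apply]; abel, ind_neg]
  intro h0
  simpa [h.symm] using h0 (Pi.single c 1)

lemma av_eq_le [Nonempty I] (j : I) : av (fun i => ind (i = j)) = 1 / Nat.card I := by
  simpa using av_ind_eq j fun _ => 1

lemma av_lb [Nonempty I] : av (fun A : Om I => lb A ^ 2) ≤ 1 / Nat.card I := by
  classical
  refine (pl00 (fun i => {s(i, i)}) (fun (A : Om I) i => sg (A s(i, i))) (C := 1)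
    (fun i x x' h => by simp only [h _ rfl]) (fun i => ?_) fun _ _ => (abs_sg _).le).trans ?_
  · rw [av_sg (fun A : Om I => A s(i, i)) fun _ _ => rfl, ind_neg]
    intro h0
    simpa using h0 (Pi.single s(i, i) 1)
  · rw [one_pow, one_mul]
    refine av_le_const fun i => (av_mono fun i' => ind_mono fun h => ?_).trans (av_eq_le i).le
    simpa [eq_comm] using h

lemma av_bx [Nonempty I] : av (fun A : Om I => bx A) ≤ 4 / Nat.card I := by
  unfold bx
  rw [av_comm]
  refine av_le_const fun j => ?_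
  rw [av_comm]
  refine (av_mono (g := fun j' => ind (j' = j) + 3 / Nat.card I) fun j' => ?_).trans
    (by rw [av_add, av_const, av_eq_le]; exact le_of_eq (by ring))
  have hb : ∀ (A : Om I) i, |sg (A s(i, j)) * sg (A s(i, j'))| ≤ 1 := fun A i => by
    rw [abs_mul, abs_sg, abs_sg, mul_one]
  by_cases h : j' = j
  · rw [ind_pos h]
    refine (av_le_const fun A => ?_).trans (le_add_of_nonneg_right (by positivity))
    exact (sq_le_one_iff_abs_le_one _).2 ((abs_av_le _).trans (av_le_const (hb A)))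
  · rw [ind_neg h, zero_add]
    refine (pl00 (fun i => {s(i, j), s(i, j')})
      (fun (A : Om I) i => sg (A s(i, j)) * sg (A s(i, j'))) (C := 1)
      (fun i x x' h => by simp only [h _ (Or.inl rfl), h _ (Or.inr rfl)])
      (fun i => av_sg_two fun e => h (Sym2.congr_right.1 e).symm) hb).trans ?_
    rw [one_pow, one_mul]
    refine av_le_const fun i => (av_mono (g := fun i' => ind (i' = i) + (ind (i' = j) + ind (i' = j')))
      fun i' => ?_).trans (by simp only [av_add, av_eq_le]; exact le_of_eq (by ring))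
    refine le_trans (ind_mono fun h => ?_) ((ind_or_le _ _).trans (add_le_add_right (ind_or_le _ _) _))
    obtain ⟨c, h1, h2⟩ := Set.not_disjoint_iff.1 h
    have : i' ∈ c := by rcases h2 with rfl | rfl <;> exact Sym2.mem_mk_left _ _
    rcases h1 with rfl | rfl <;> rcases Sym2.mem_iff.1 this with h | h <;> simp [h]

end NE.QRn

namespace NE

open SD QRn

theorem qrt : QRT := by
  intro u γ η hγ hη
  set c : ℝ := 4 * (u ^ 2 * 2 ^ u ^ 2) + u * 2 ^ u + 1 with hc
  have c0 : 0 < c := by positivity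
  set β := min (1 / 2) (γ / (2 * c)) with hβ
  have β0 : 0 < β := lt_min (by norm_num) (by positivity)
  have β1 : β ≤ 1 / 2 := min_le_left _ _
  have β2 : c * β ≤ γ / 2 := by
    refine (mul_le_mul_of_nonneg_left (min_le_right _ _) c0.le).trans (le_of_eq ?_)
    field_simp
  obtain ⟨n0, hn0⟩ := exists_nat_ge
    (max (8 * 2 ^ u ^ 2 * u ^ 2 / γ) ((4 / β ^ 4 + 1 / β ^ 2) / η))
  refine ⟨max (max n0 u) 1, fun I _ hI => ?_⟩
  have hn : (n0 : ℝ) ≤ Nat.card I := by exact_mod_cast (le_max_left _ _).trans ((le_max_left _ _).trans hI)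
  have hu : u ≤ Nat.card I := (le_max_right _ _).trans ((le_max_left _ _).trans hI)
  have : Nonempty I := (Nat.card_pos_iff.1 ((le_max_right _ _).trans hI)).1
  have n0' : (0 : ℝ) < Nat.card I := card_pos'
  have e1 : 4 * 2 ^ u ^ 2 * ((u : ℝ) ^ 2 / Nat.card I) ≤ γ / 2 := by
    have := (div_le_iff₀ hγ).1 ((le_max_left _ _).trans (hn0.trans hn))
    rw [← mul_div_assoc, div_le_iff₀ n0']; linarith
  have e0 : (0 : ℝ) ≤ 2 ^ u ^ 2 * ((u : ℝ) ^ 2 / Nat.card I) := by positivity
  have p1 : (0 : ℝ) ≤ u ^ 2 * 2 ^ u ^ 2 * β := by positivity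
  have p2 : (0 : ℝ) ≤ u * 2 ^ u * β := by positivity
  have key : ∀ A : Om I, bx A < β ^ 4 → lb A ^ 2 < β ^ 2 → QR u γ A := by
    intro A hA hl
    have hl' : |lb A| ≤ β := abs_le_of_sq_le_sq hl.le β0.le
    refine ⟨fun e => ?_, fun U _ hU π g hg => ?_, fun U _ hU R π π' hπ f hf hR => ?_⟩
    · have h1 := card_lp A e
      have h2 : |sg e * lb A| ≤ 1 / 2 := by rw [abs_mul, abs_sg, one_mul]; linarith
      have h3 : (Nat.card I : ℝ) ≤ 4 * Nat.card (Lp A e) := by nlinarith [(abs_le.1 h2).1]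
      exact_mod_cast h3
    · refine (prd_of hU hu (by linarith) hA.le hl' π g hg).trans ?_
      rw [hc] at β2; nlinarith
    · refine (uni_of' hU hu hA.le hl' R π π' hπ f hf hR).trans ?_
      rw [hc] at β2; nlinarith
  refine (av_mono (g := fun A => ind (β ^ 4 ≤ bx A) + ind (β ^ 2 ≤ lb A ^ 2)) fun A =>
    (ind_mono fun h => ?_).trans (ind_or_le _ _)).trans ?_
  · by_contra h'
    push Not at h'
    exact h (key A h'.1 h'.2)
  · rw [av_add]
    have m1 := markov (f := fun A : Om I => bx A)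
      (fun A => av_nonneg fun _ => av_nonneg fun _ => sq_nonneg _) (pow_pos β0 4)
    have m2 := markov (f := fun A : Om I => lb A ^ 2) (fun A => sq_nonneg _) (pow_pos β0 2)
    have m3 := div_le_div_of_nonneg_right (av_bx (I := I)) (pow_pos β0 4).le
    have m4 := div_le_div_of_nonneg_right (av_lb (I := I)) (pow_pos β0 2).le
    have := (div_le_iff₀ hη).1 ((le_max_right _ _).trans (hn0.trans hn))
    refine (add_le_add (m1.trans m3) (m2.trans m4)).trans ?_
    rw [div_right_comm, div_right_comm 1, ← add_div, div_le_iff₀ n0']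
    linarith

end NE
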