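import Pool.Agent.Lib.MP_ecee09_co.NE.Stmts4
import Pool.Agent.Lib.MP_ecee09_co.NE.Part4
import Pool.Agent.Lib.MP_ecee09_co.NE.BF

/-! The lattice case. -/

namespace NE

open SD

section
variable {Γ I K : Type} [AddCommGroup Γ] [Finite Γ] [Finite I] [Finite K]

/-- if a part of `P` of mass `2 c` is solved, the mass of the sub-particles drops by `c` -/
lemma lg_drop {D : ℕ → ℝ} {c η : ℝ} (hc : 0 < c) (ε : Γ) (P P1 : Set (Pt Γ I))
    (hP : Tame D (NN ε (si P))) (h1 : P1 ⊆ P) (hm : 2 * c ≤ lam (si P1))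
    (hs : Solve ε P1 K (min η (c ^ 2 / (D 2 + 1)))) : PDrop ε P K η c := by
  obtain ⟨A, hj, hb⟩ := hs
  refine ⟨A, hj.trans (min_le_left _ _), ?_⟩
  have hD := hP.nonneg 2
  set t := c / (2 * (D 2 + 1)) with ht
  have ht0 : 0 < t := by positivity
  have key : ∀ (x : OmE Γ I) (Φ : Lab I K), ind (Good Φ) * lam (si (subP ε P x Φ)) ≤
      (av fun y : OmE Γ K => NN ε (si P) (cell x Φ y) - NN ε (si P1) (cell x Φ y) +
        t * NN ε (si P) (cell x Φ y) ^ 2) + 1 / (4 * t) * bad ε P1 x Φ := by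
    intro x Φ
    refine (mul_le_of_le_one_left (lam_nonneg (si_nonneg _)) (ind_le_one _)).trans
      ((lam_subP_le ε P x Φ).trans ?_)
    unfold bad
    rw [← av_mul_left, ← av_add]
    refine av_mono fun y => ?_
    set z := cell x Φ y
    set b := ind (∃ p ∈ P1, rs ε p z = 0 ∧ Gen (wl p.1 Φ)) with hb
    have e1 : (sm fun p => ind (p ∈ P ∧ rs ε p z = 0 ∧ Gen (wl p.1 Φ))) ≤
        NN ε (si P) z - NN ε (si P1) z + NN ε (si P) z * b := by
      rw [NN_si, NN_si, ← sm_sub, ← sm_mul_right, ← sm_add]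
      refine sm_mono fun p => ?_
      by_cases hp : p ∈ P ∧ rs ε p z = 0
      · by_cases hp1 : p ∈ P1
        · rw [ind_pos hp, ind_pos (⟨hp1, hp.2⟩ : p ∈ P1 ∧ _), sub_self, zero_add, one_mul]
          exact ind_mono fun h => ⟨p, hp1, h.2⟩
        · rw [ind_pos hp, ind_neg (fun h : p ∈ P1 ∧ _ => hp1 h.1)]
          have := ind_le_one (p ∈ P ∧ rs ε p z = 0 ∧ Gen (wl p.1 Φ))
          have := ind_nonneg (∃ p ∈ P1, rs ε p z = 0 ∧ Gen (wl p.1 Φ))
          linarith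
      · rw [ind_neg hp, ind_neg (fun h : p ∈ P1 ∧ _ => hp ⟨h1 h.1, h.2⟩),
          ind_neg (fun h : p ∈ P ∧ _ ∧ _ => hp ⟨h.1, h.2.1⟩)]
        simp
    have e2 : NN ε (si P) z * b ≤ t * NN ε (si P) z ^ 2 + 1 / (4 * t) * b := by
      have hb2 : b ^ 2 = b := ind_sq _
      have : 0 ≤ (2 * t * NN ε (si P) z - b) ^ 2 / (4 * t) := by positivity
      have e : (2 * t * NN ε (si P) z - b) ^ 2 / (4 * t) =
          t * NN ε (si P) z ^ 2 + 1 / (4 * t) * b ^ 2 - NN ε (si P) z * b := by field_simp; ring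
      rw [e, hb2] at this
      linarith
    linarith
  refine (A.mono key).trans ?_
  rw [A.add, A.smul, A.marg fun z => NN ε (si P) z - NN ε (si P1) z + t * NN ε (si P) z ^ 2,
    av_add, av_sub, av_mul_left, av_NN, av_NN]
  have e3 : t * av (fun z => NN ε (si P) z ^ 2) ≤ c / 2 := by
    refine (mul_le_mul_of_nonneg_left hP.sq ht0.le).trans ?_
    rw [ht, div_mul_eq_mul_div, div_le_div_iff₀ (by positivity) (by norm_num)]
    nlinarith
  have e4 : 1 / (4 * t) * A.E (fun x Φ => bad ε P1 x Φ) ≤ c / 2 := by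
    refine (mul_le_mul_of_nonneg_left (hb.trans (min_le_right _ _)) (by positivity)).trans ?_
    rw [ht]; apply le_of_eq; field_simp; ring
  linarith

omit [Finite Γ] [Finite I] [Finite K] in
lemma lg_gen_ne [Nontrivial Γ] {w : K → Γ} (h : Gen w) : w ≠ 0 := by
  rintro rfl
  refine bot_ne_top (α := AddSubgroup Γ) (le_antisymm bot_le (h.ge.trans ?_))
  rw [AddSubgroup.closure_le]
  rintro _ ⟨k, rfl⟩
  exact (⊥ : AddSubgroup Γ).zero_mem

omit [Finite Γ] [Finite I] in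
lemma lg_en (P : Set (Pt Γ I)) : en (si P) = NE.energy P / DD Γ I ^ 3 := by
  simp only [en, NE.energy, si, ind_and, mul_assoc]

end

theorem lg_of (hZ : LZ) (Γ : Type) [AddCommGroup Γ] [Finite Γ] [Nontrivial Γ] : LG Γ := by
  intro ε D η1 hη1
  set D1 := max (D 1) 1 with hD1
  have hD : 0 < D1 := lt_of_lt_of_le one_pos (le_max_right _ _)
  obtain ⟨C, hC, hB⟩ := bfj (Nat.card Γ) Nat.card_pos (η1 / D1 ^ 3) (by positivity)
  set c := η1 / (2 * C * D1 ^ 2) with hc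
  have hc0 : 0 < c := by positivity
  refine ⟨c, hc0, fun K _ η hη => ?_⟩
  have hD2 : 0 < |D 2| + 1 := by positivity
  obtain ⟨n0, h0⟩ := hZ Γ ε (C * D1) K (min η (c ^ 2 / (|D 2| + 1))) (by positivity)
  refine ⟨n0, fun I _ hI P hP hE => ?_⟩
  have hN : 0 < DD Γ I := DD_pos
  rw [lg_en, le_div_iff₀ (by positivity)] at hE
  have hle : cnt P ≤ D1 * DD Γ I := by
    have := (lam_le_of_tame hP).trans (le_max_left (D 1) 1)
    rwa [lam, div_le_iff₀ hN] at this
  have hP0 := cnt_nonneg P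
  have hlow : η1 * DD Γ I ^ 3 ≤ cnt P ^ 3 := hE.trans (energy_le_cube P)
  have hne : P.Nonempty := by
    by_contra hn
    rw [Set.not_nonempty_iff_eq_empty] at hn
    have : cnt P = 0 := by rw [hn, cnt_eq_ncard]; simp
    rw [this] at hlow
    have : 0 < η1 * DD Γ I ^ 3 := by positivity
    linarith
  obtain ⟨H, hH1, hH2⟩ := hB (Pt Γ I)
    (fun e => Prod.ext (funext fun _ => card_nsmul_eq_zero') (funext fun _ => card_nsmul_eq_zero'))
    P hne (by
      refine le_trans ?_ hE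
      rw [div_mul_eq_mul_div, div_le_iff₀ (by positivity), mul_assoc, ← mul_pow,
        mul_comm (DD Γ I)]
      exact mul_le_mul_of_nonneg_left (pow_le_pow_left₀ hP0 hle 3) hη1.le)
  obtain ⟨A, hj, hA⟩ := h0 I hI H (hH1.trans (by
    rw [mul_assoc]; exact mul_le_mul_of_nonneg_left hle hC.le))
  rw [abs_of_nonneg (hP.nonneg 2)] at hj hA
  refine lg_drop hc0 ε P (P ∩ H) hP Set.inter_subset_left ?_ ⟨A, hj, ?_⟩
  · have h1 : η1 * DD Γ I ≤ D1 ^ 2 * cnt P := by
      have h2 : cnt P ^ 3 ≤ (D1 * DD Γ I) ^ 2 * cnt P := by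
        rw [pow_succ]; exact mul_le_mul_of_nonneg_right (pow_le_pow_left₀ hP0 hle 2) hP0
      have h4 : η1 * DD Γ I * DD Γ I ^ 2 ≤ D1 ^ 2 * cnt P * DD Γ I ^ 2 := by nlinarith
      exact le_of_mul_le_mul_right h4 (by positivity)
    rw [lam, sm_si, le_div_iff₀ hN, hc]
    have h5 : 2 * (η1 / (2 * C * D1 ^ 2)) * DD Γ I = η1 * DD Γ I / (C * D1 ^ 2) := by
      field_simp
    rw [h5, div_le_iff₀ (by positivity)]
    nlinarith [mul_le_mul_of_nonneg_left hH2 (sq_nonneg D1)]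
  · refine le_trans (A.mono fun x Φ => av_mono fun y => ind_mono ?_) hA
    rintro ⟨p, hp, hr, hn⟩
    exact ⟨p, hp.2, hr, lg_gen_ne hn⟩

end NE
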