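import Pool.Agent.Lib.MP_ecee09_co.NE.Defs3
import Pool.Agent.Lib.MP_ecee09_co.NE.FamC
import Pool.Agent.Lib.MP_ecee09_co.NE.FldR
import Pool.Agent.Lib.MP_ecee09_co.NE.PL

/-! Coordinate cells, transfer of a gain from a set of cells, and `RSP`. -/

namespace NE

open SD

section gen
variable {X C Λ : Type} {a : X → Λ → C → X} [Finite X] [Nonempty X] [Finite C] [Nonempty C]

/-- second moment lower bound for the mass of the cells where `Y` is large -/
lemma rs_pz (A : Fam a) {Y Z : X → Λ → ℝ} {m B : ℝ} (hm : 0 ≤ m) (hB : 0 < B)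
    (hYZ : ∀ x l, Y x l ≤ Z x l) (h : m ≤ A.E Y) (hZ : (A.E fun x l => Z x l ^ 2) ≤ B) :
    m ^ 2 / (4 * B) ≤ A.E fun x l => ind (m / 2 ≤ Y x l) := by
  have h1 := A.mono (f := Y) (g := fun x l => Z x l * ind (m / 2 ≤ Y x l) + m / 2) fun x l => by
    by_cases hx : m / 2 ≤ Y x l
    · rw [ind_pos hx]; linarith [hYZ x l]
    · rw [ind_neg hx]; linarith [not_le.1 hx]
  rw [A.add, A.const] at h1
  have h2 := A.cs Z fun x l => ind (m / 2 ≤ Y x l)
  simp only [ind_sq] at h2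
  have h3 := mul_le_mul_of_nonneg_right hZ (A.pos _ fun x l => ind_nonneg (m / 2 ≤ Y x l))
  have h4 := pow_le_pow_left₀ (by linarith : 0 ≤ m / 2)
    (by linarith : m / 2 ≤ A.E fun x l => Z x l * ind (m / 2 ≤ Y x l)) 2
  rw [div_le_iff₀ (by positivity)]
  nlinarith

omit [Finite X] [Nonempty X] [Finite C] [Nonempty C] in
lemma rs_and (A : Fam a) (p q : X → Λ → Prop) :
    (A.E fun x l => ind (p x l)) - (A.E fun x l => ind (¬ q x l)) ≤
      A.E fun x l => ind (p x l ∧ q x l) := by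
  rw [← A.sub]
  refine A.mono fun x l => ?_
  by_cases hq : q x l
  · rw [ind_neg (not_not.2 hq), sub_zero]; exact ind_mono fun h => ⟨h, hq⟩
  · rw [ind_pos hq]; linarith [ind_le_one (p x l), ind_nonneg (p x l ∧ q x l)]

end gen

variable {E I K L : Type} [AddCommGroup E] [Finite E] [Finite I] [Finite K] [Finite L] {τ : QT E}

/-- the family of all coordinate cells of size `s` -/
lemma gcm {s : ℕ} (hs : s ≤ Nat.card I) : ∃ A : GFam E I (Fin s),
    (∀ f, A.E f = av fun ι : Fin s ↪ I => av fun x => f x (crd ι)) ∧ A.junk = 0 := by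
  have : Nonempty (Fin s ↪ I) := nonempty_emb (by simpa using hs)
  choose S h1 h2 using fun ι : Fin s ↪ I => Fam.gcrd (E := E) ι.injective
  obtain ⟨A, hA⟩ := Fam.mix S
  refine ⟨A, fun f => by simp only [hA, h1], ?_⟩
  simp only [Fam.junk] at h2 ⊢
  simp only [hA, h2, av_const]

/-- coordinate cells of coordinate cells -/
lemma cm_cm (u : OmE E I → ℂ) {s s' : ℕ} (h : s ≤ s') (h' : s' ≤ Nat.card I)
    (Y : (OmE E (Fin s) → ℂ) → ℝ) : cm u s' (fun g => cm g s Y) = cm u s Y := by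
  have : Nonempty (Fin s' ↪ I) := nonempty_emb (by simpa using h')
  have : Nonempty (Fin s ↪ Fin s') := nonempty_emb (by simpa using h)
  have e : ∀ ι : Fin s' ↪ I, (av fun x => cm (res u x (crd ι)) s Y) =
      av fun κ : Fin s ↪ Fin s' => av fun x => Y (res u x (crd (κ.trans ι))) := fun ι => by
    simp only [cm]
    rw [av_comm]
    refine av_congr fun κ => ?_
    simp only [← res_lcomp, lcomp_crd ι.injective κ.injective]
    obtain ⟨A, hA, -⟩ := Fam.gcrd (E := E) ι.injective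
    exact (hA fun x Φ => av fun y => Y (res u (cell x Φ y) (crd (ι ∘ κ)))).symm.trans
      (A.marg fun x => Y (res u x (crd (ι ∘ κ))))
  rw [cm]
  simp only [e]
  rw [av_comm]
  exact (av_congr fun κ => av_restrict κ fun ι => av fun x => Y (res u x (crd ι))).trans
    (av_const _)

omit [Finite K] in
lemma Gain.mono {u : OmE E I → ℂ} {η c c' : ℝ} (h : Gain τ u K η c) (hc : c' ≤ c) :
    Gain τ u K η c' := h.imp fun _ h => ⟨h.1, hc.trans h.2⟩

omit [Finite I] in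
/-- a gain on a set of cells of positive mass -/
lemma rs_gain (A : GFam E I L) (h0 : A.junk = 0) (hK : Nat.card K ≤ Nat.card L)
    {u : OmE E I → ℂ} {η c q : ℝ} (hη : 0 ≤ η) (hc : 0 ≤ c) (p : OmE E I → Lab I L → Prop)
    (hq : q ≤ A.E fun x Φ => ind (p x Φ)) (hp : ∀ x Φ, p x Φ → Gain τ (res u x Φ) K η c)
    [Finite I] : Gain τ u K η (q * c) := by
  obtain ⟨B0, hB⟩ := Fam.gcrd' (E := E) hK
  obtain ⟨S, h1, h2, -⟩ := Fam.choose_cell p (fun B : GFam E L K => B.junk ≤ η)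
    (fun x Φ B => c ≤ B.E fun y Ψ => ng τ (res (res u x Φ) y Ψ)) hp B0 (hB.trans_le hη)
  obtain ⟨A', hA, hj⟩ := A.gcomp S
  refine ⟨A', hj.trans (by rw [h0, zero_add]; exact A.le_const h1), ?_⟩
  rw [hA]
  refine (mul_le_mul_of_nonneg_right hq hc).trans ?_
  rw [← A.mul_right]
  refine A.mono fun x Φ => ?_
  simp only [res_lcomp]
  by_cases h : p x Φ
  · rw [ind_pos h, one_mul]; exact h2 x Φ h
  · rw [ind_neg h, zero_mul]; exact (S x Φ).pos _ fun _ _ => ng_nonneg _ _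

omit [AddCommGroup E] in
lemma CT.pow {D : ℕ → ℝ} {u : OmE E I → ℂ} (h : CT D u) (p : ℕ) :
    av (fun x => ‖u x‖ ^ p) ≤ D p := by simpa only [abs_norm] using h p

/-- most cells of a family are tame -/
lemma rs_tame (A : GFam E I L) {D : ℕ → ℝ} {u : OmE E I → ℂ} (h : CT D u) {M : ℝ} (hM : 0 < M) :
    (A.E fun x Φ => ind (¬ CT (fun p => M * 2 ^ (p + 1) * (D p + 1)) (res u x Φ))) ≤ 1 / M :=
  A.tamef (res u) hM fun p => (A.marg fun x => ‖u x‖ ^ p).trans_le (h.pow p)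

/-- the second moment of a cell average -/
lemma rs_mom (A : GFam E I L) {D : ℕ → ℝ} {u : OmE E I → ℂ} (h : CT D u) (p : ℕ) :
    (A.E fun x Φ => (av fun y => ‖res u x Φ y‖ ^ p) ^ 2) ≤ D (p * 2) :=
  (A.mono fun x Φ => (av_sq_le _).trans_eq (av_congr fun _ => (pow_mul _ _ _).symm)).trans
    ((A.marg fun x => ‖u x‖ ^ (p * 2)).trans_le (h.pow _))

section boxes
variable {G H1 H2 H3 : Type} [AddCommGroup G] [Finite G] [Finite H1] [Finite H2] [Finite H3]
  [Nonempty H1] [Nonempty H2] [Nonempty H3]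

lemma rs_dd (k : G → ℂ) (h : G) (p : ℕ) :
    av (fun x => ‖dd k h x‖ ^ p) ≤ av fun x => ‖k x‖ ^ (p * 2) := by
  refine le_trans (av_mono (g := fun x => (‖k x‖ ^ (p * 2) + ‖k (x + h)‖ ^ (p * 2)) / 2)
    fun x => ?_) ?_
  · rw [dd, norm_mul, RCLike.norm_conj, mul_pow, pow_mul, pow_mul]
    nlinarith [sq_nonneg (‖k x‖ ^ p - ‖k (x + h)‖ ^ p)]
  · rw [av_div, av_add, av_add_right fun x => ‖k x‖ ^ (p * 2)]; linarith

lemma rs_gb2 (k : G → ℂ) (a : H1 → G) (b : H2 → G) : gb2 k a b ≤ av fun x => ‖k x‖ ^ 4 := by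
  simp only [gb2, cav_re]
  rw [av_comm]
  refine av_le_const fun h1 => ?_
  rw [av_comm]
  refine av_le_const fun h2 => (av_mono fun x => (Complex.re_le_norm _).trans_eq (pow_one _).symm).trans
    ((rs_dd _ _ 1).trans (rs_dd _ _ _))

lemma rs_gb3 (k : G → ℂ) (a : H1 → G) (b : H2 → G) (c : H3 → G) :
    gb3 k a b c ≤ av fun x => ‖k x‖ ^ 8 := by
  simp only [gb3, cav_re]
  rw [av_comm]
  refine av_le_const fun h1 => ?_
  rw [av_comm]
  refine av_le_const fun h2 => ?_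
  rw [av_comm]
  refine av_le_const fun h3 => (av_mono fun x => (Complex.re_le_norm _).trans_eq (pow_one _).symm).trans
    ((rs_dd _ _ 1).trans ((rs_dd _ _ _).trans (rs_dd _ _ _)))

end boxes

lemma box_le (u : OmE E I → ℂ) (S S' : AddSubgroup E) : box u S S' ≤ av fun x => ‖u x‖ ^ 4 := by
  rw [av_prod, av_comm]
  exact av_mono fun P => rs_gb2 _ _ _

lemma box3_le (u : OmE E I → ℂ) : box3 u ≤ av fun x => ‖u x‖ ^ 8 := by
  rw [av_prod, av_comm]
  exact av_mono fun P => rs_gb3 _ _ _ _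

theorem rsp_of (hG : GG τ) (hR : PR τ) (hA : PA τ) (hU : U3 τ) : RSP τ := by
  intro D m hm
  obtain ⟨cG, hcG, hG⟩ := hG D m hm
  refine ⟨cG, hcG, fun K _ η hη => ?_⟩
  obtain ⟨ηS, v, hS, hv, hG⟩ := hG K η hη
  obtain ⟨B, hB⟩ : ∃ B, B = |D 8| + |D 16| + 1 := ⟨_, rfl⟩
  have B0 : 0 < B := by rw [hB]; positivity
  obtain ⟨q, hq⟩ : ∃ q, q = ηS ^ 2 / (4 * B) := ⟨_, rfl⟩
  have q0 : 0 < q := by rw [hq]; positivity
  obtain ⟨a1, ha1, hR⟩ := hR (fun p => 2 / q * 2 ^ (p + 1) * (D p + 1)) (ηS / 2) (by positivity)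
  obtain ⟨a2, ha2, hA⟩ := hA (fun p => 2 / q * 2 ^ (p + 1) * (D p + 1)) (ηS / 2) (by positivity)
  obtain ⟨a3, ha3, hU⟩ := hU (fun p => 2 / q * 2 ^ (p + 1) * (D p + 1)) (ηS / 2) (by positivity)
  have a0 : 0 < min a1 (min a2 a3) := lt_min ha1 (lt_min ha2 ha3)
  refine ⟨q / 2 * min a1 (min a2 a3), v, by positivity, hv, fun K' _ η' hη' => ?_⟩
  obtain ⟨n1, hR⟩ := hR K' η' hη'
  obtain ⟨n2, hA⟩ := hA K' η' hη'
  obtain ⟨n3, hU⟩ := hU K' η' hη'
  refine ⟨n1 + n2 + n3 + Nat.card K' + 1, fun s hs => ?_⟩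
  obtain ⟨n0, hG⟩ := hG s (by omega)
  refine ⟨n0 + s, fun I _ hI c hc had hmc hvr => ?_⟩
  by_cases hb : SmallB τ (fld τ c) s ηS
  · exact .inl (hG I (by omega) c hc had hmc hvr hb)
  obtain ⟨A, hE, h0⟩ := gcm (E := E) (I := I) (s := s) (by omega)
  have cs : Nat.card (Fin s) = s := by simp
  have key : ∀ (Y : (OmE E (Fin s) → ℂ) → ℝ) (p : ℕ), D (p * 2) ≤ B →
      (∀ g, Y g ≤ av fun y => ‖g y‖ ^ p) → ¬ cm (fld τ c) s Y ≤ ηS →
      (∀ c', CT (fun p => 2 / q * 2 ^ (p + 1) * (D p + 1)) (fld τ c') → ηS / 2 ≤ Y (fld τ c') →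
        Gain τ (fld τ c') K' η' (min a1 (min a2 a3))) →
      Gain τ (fld τ c) K' η' (q / 2 * min a1 (min a2 a3)) := fun Y p hp hY h1 h2 => by
    have m1 := rs_pz A hS.le B0 (fun x Φ => hY (res (fld τ c) x Φ))
      ((not_le.1 h1).le.trans_eq (hE fun x Φ => Y (res (fld τ c) x Φ)).symm)
      ((rs_mom A hc p).trans hp)
    have m2 := rs_tame A hc (M := 2 / q) (by positivity)
    rw [one_div_div] at m2
    refine rs_gain A h0 (by omega) hη'.le a0.le _ (le_trans (by linarith)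
      ((sub_le_sub m1 m2).trans (rs_and A _ _))) fun x Φ h => ?_
    rw [res_fld] at h ⊢
    exact h2 _ h.2 h.1
  right
  by_cases b3 : cm (fld τ c) s box3 ≤ ηS
  · obtain ⟨S, hS⟩ := not_forall.1 fun h => hb ⟨h, b3⟩
    rw [Classical.not_imp, Classical.not_imp] at hS
    refine key _ 4 (by linarith [le_abs_self (D 8), abs_nonneg (D 16)]) (fun g => box_le g _ _)
      hS.2.2 fun c' h1 h2 => ?_
    by_cases b : S ⊓ τ.perp S = ⊥
    · exact (hR _ (by omega) c' h1 S hS.1 hS.2.1 b h2).mono (min_le_left _ _)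
    · exact (hA _ (by omega) c' h1 S b h2).mono ((min_le_right _ _).trans (min_le_left _ _))
  · exact key _ 8 (by linarith [le_abs_self (D 16), abs_nonneg (D 8)]) box3_le b3 fun c' h1 h2 =>
      (hU _ (by omega) c' h1 h2).mono ((min_le_right _ _).trans (min_le_right _ _))

end NE
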