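import Pool.Agent.Lib.MP_ecee09_co.NE.Part4
import Pool.Agent.Lib.MP_ecee09_co.NE.RSa
import Pool.Agent.Lib.MP_ecee09_co.NE.Stat
import Pool.Agent.Lib.MP_ecee09_co.NE.Stmts4

/-! `PSTEP` from its three cases. -/

namespace NE

open SD

/-- most cells are tame, real form -/
lemma Fam.tamer {X C Λ Y : Type} {a : X → Λ → C → X} (A : Fam a) [Finite X] [Finite Λ] [Finite Y]
    (K : X → Λ → Y → ℝ) {D : ℕ → ℝ} {L : ℝ} (hL : 0 < L)
    (h : ∀ p : ℕ, (A.E fun x l => SD.av fun y => |K x l y| ^ p) ≤ D p) :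
    (A.E fun x l => ind (¬ Tame (fun p => L * 2 ^ (p + 1) * (D p + 1)) (K x l))) ≤ 1 / L := by
  simpa only [CT, Tame, Complex.norm_real, Real.norm_eq_abs, abs_abs] using
    A.tamef (fun x l y => (K x l y : ℂ)) hL (by
      simpa only [Complex.norm_real, Real.norm_eq_abs] using h)

variable {Γ I K L : Type} [AddCommGroup Γ] [Finite Γ] [Finite I] [Finite K] [Finite L] {ε : Γ}
  {P : Set (Pt Γ I)}

omit [Finite Γ] [Finite I] [Finite K] in
lemma PDrop.mono {η c c' : ℝ} (h : PDrop ε P K η c) (hc : c' ≤ c) : PDrop ε P K η c' :=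
  h.imp fun _ h => ⟨h.1, h.2.trans (sub_le_sub_left hc _)⟩

/-- a drop on a set of cells of positive mass -/
lemma ps_drop (A : GFam Γ I L) (h0 : A.junk = 0) (hK : Nat.card K ≤ Nat.card L) {η c q : ℝ}
    (hη : 0 ≤ η) (hc : 0 ≤ c) (p : OmE Γ I → Lab I L → Prop) (hq : q ≤ A.E fun x Φ => ind (p x Φ))
    (hp : ∀ x Φ, p x Φ → PDrop ε (subP ε P x Φ) K η c) :
    PDrop ε P K η (lam (si P) - (A.E fun x Φ => lam (si (subP ε P x Φ))) + q * c) := by
  obtain ⟨B0, hB⟩ := Fam.gcrd' (E := Γ) hK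
  obtain ⟨S, h1, h2, -⟩ := Fam.choose_cell p (fun B : GFam Γ L K => B.junk ≤ η)
    (fun x Φ B => (B.E fun y Ψ => ind (Good Ψ) * lam (si (subP ε (subP ε P x Φ) y Ψ))) ≤
      lam (si (subP ε P x Φ)) - c) hp B0 (hB.trans_le hη)
  obtain ⟨A', hA, hj⟩ := A.gcomp S
  refine ⟨A', hj.trans (by rw [h0, zero_add]; exact A.le_const h1), ?_⟩
  have l0 : ∀ Q : Set (Pt Γ K), 0 ≤ lam (si Q) := fun Q => lam_nonneg (si_nonneg Q)
  have := A.mono (g := fun x Φ => lam (si (subP ε P x Φ)) - ind (p x Φ) * c)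
    (f := fun x Φ => (S x Φ).E fun y Ψ => ind (Good (lcomp Φ Ψ)) *
      lam (si (subP ε P (cell x Φ y) (lcomp Φ Ψ)))) fun x Φ => by
    simp only [subP_lcomp]
    by_cases h : p x Φ
    · rw [ind_pos h, one_mul]
      exact ((S x Φ).mono fun y Ψ =>
        mul_le_mul_of_nonneg_right (ind_mono Good.of_lcomp) (l0 _)).trans (h2 x Φ h)
    · rw [ind_neg h, zero_mul, sub_zero]
      exact ((S x Φ).mono fun y Ψ => mul_le_of_le_one_left (l0 _) (ind_le_one _)).trans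
        (E_lam_subP_le _ _ _)
  rw [A.sub, A.mul_right] at this
  rw [hA]
  linarith [mul_le_mul_of_nonneg_right hq hc]

/-- moments of a count that is dominated by the count on the cell -/
lemma ps_mom (A : GFam Γ I L) {D : ℕ → ℝ} (hT : Tame D (NN ε (si P)))
    {R : OmE Γ I → Lab I L → OmE Γ L → ℝ} (h0 : ∀ x Φ y, 0 ≤ R x Φ y)
    (h1 : ∀ x Φ y, R x Φ y ≤ NN ε (si P) (cell x Φ y)) (p : ℕ) :
    (A.E fun x Φ => av fun y => R x Φ y ^ p) ≤ D p :=
  (A.mono fun x Φ => av_mono fun y =>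
    pow_le_pow_left₀ (h0 x Φ y) ((h1 x Φ y).trans (le_abs_self _)) p).trans
    ((A.marg fun x => |NN ε (si P) x| ^ p).trans_le (hT p))

lemma ps_pow {R t : ℝ} (h0 : 0 ≤ R) (ht : 0 < t) (k : ℕ) :
    R ^ (k + 1) ≤ t ^ k * R + t⁻¹ * R ^ (k + 1 + 1) := by
  by_cases h : R ≤ t
  · exact le_add_of_le_of_nonneg (by rw [pow_succ]; gcongr) (by positivity)
  · refine le_add_of_nonneg_of_le (by positivity) ?_
    rw [le_inv_mul_iff₀ ht, pow_succ _ (k + 1), mul_comm]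
    exact mul_le_mul_of_nonneg_left (not_le.1 h).le (by positivity)

/-- a merge forces a multiple sub-particle -/
lemma ps_merge {ι : K → I} (hι : Function.Injective ι) (x : OmE Γ I) (y : OmE Γ K) :
    ind (∃ p ∈ P, ∃ p' ∈ P, p ≠ p' ∧ rs ε p (cell x (crd ι) y) = 0 ∧
      rs ε p' (cell x (crd ι) y) = 0 ∧ ∀ a, p.1 (ι a) = p'.1 (ι a)) ≤
    NN ε (fun q => mm ε (si P) x (crd ι) q - si (subP ε P x (crd ι)) q) y := by
  have n0 := fun q => sub_nonneg.2 (si_subP_le ε P x (crd ι) q)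
  by_cases h : ∃ p ∈ P, ∃ p' ∈ P, p ≠ p' ∧ rs ε p (cell x (crd ι) y) = 0 ∧
      rs ε p' (cell x (crd ι) y) = 0 ∧ ∀ a, p.1 (ι a) = p'.1 (ι a)
  swap
  · rw [ind_neg h]; exact NN_nonneg n0 y
  rw [ind_pos h]
  obtain ⟨p, hp, p', hp', ne, h1, h2, e⟩ := h
  obtain ⟨q, s1, z1⟩ := present_iff.1 h1
  obtain ⟨q', s2, z2⟩ := present_iff.1 h2
  obtain rfl : q = q' := present_unique z1 z2 (by
    rw [s1.1, s2.1, wl_crd hι, wl_crd hι]; exact funext e)
  refine le_trans ?_ (single_le_sm (fun q => mul_nonneg (n0 q) (ind_nonneg _)) q)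
  have : (2 : ℝ) ≤ mm ε (si P) x (crd ι) q := by
    rw [mm_si]
    exact_mod_cast (Set.one_lt_ncard (s := {p | p ∈ P ∧ Sub ε p x (crd ι) q})).2
      ⟨p, ⟨hp, s1⟩, p', ⟨hp', s2⟩, ne⟩
  rw [ind_pos z1]
  linarith [si_le_one (subP ε P x (crd ι)) q]

theorem pstep_of [Nontrivial Γ] (hH : HH Γ) (hG : LG Γ) (hP : PURE) : PSTEP Γ := by
  intro ε D K _ η hη
  obtain ⟨η1, e1, hP⟩ := hP Γ ε D K η hη
  obtain ⟨B, hB⟩ : ∃ B, B = |D 3| + |D 4| + |D 5| + |D 8| + 1 := ⟨_, rfl⟩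
  have B0 : 0 < B := by rw [hB]; positivity
  have b3 := abs_nonneg (D 3)
  have b4 := abs_nonneg (D 4)
  have b5 := abs_nonneg (D 5)
  have b8 := abs_nonneg (D 8)
  obtain ⟨t, ht⟩ : ∃ t, t = 1 + 32 * B / η1 := ⟨_, rfl⟩
  have t1 : 1 ≤ t := by rw [ht]; exact le_add_of_nonneg_right (by positivity)
  have t0 : 0 < t := by linarith
  have tB : t⁻¹ * B ≤ η1 / 32 := by
    rw [inv_mul_le_iff₀ t0, ht, add_mul, show 32 * B / η1 * (η1 / 32) = B by field_simp]
    linarith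
  obtain ⟨η2, h2⟩ : ∃ η2, η2 = η1 / 32 / t ^ 3 := ⟨_, rfl⟩
  have e2 : 0 < η2 := by rw [h2]; positivity
  have tη : ∀ k ≤ 3, t ^ k * η2 ≤ η1 / 32 := fun k hk =>
    (mul_le_mul_of_nonneg_right (pow_le_pow_right₀ t1 hk) e2.le).trans_eq (by
      rw [h2]; field_simp)
  have η21 : η2 ≤ η1 / 32 := by simpa using tη 0 (by norm_num)
  obtain ⟨q, hq⟩ : ∃ q, q = η2 ^ 2 / (4 * B) := ⟨_, rfl⟩
  have q0 : 0 < q := by rw [hq]; positivity
  obtain ⟨c1, hc1, H1⟩ := hH ε D η1 e1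
  obtain ⟨c2, hc2, G1⟩ := hG ε D η1 e1
  obtain ⟨c3, hc3, H2⟩ := hH ε (fun p => 2 / q * 2 ^ (p + 1) * (D p + 1)) (η2 / 2) (by positivity)
  obtain ⟨c4, hc4, G2⟩ := hG ε (fun p => 2 / q * 2 ^ (p + 1) * (D p + 1)) (η2 / 2) (by positivity)
  have c0 := lt_min hc3 hc4
  refine ⟨min (min c1 c2) (min η2 (q / 2 * min c3 c4)),
    lt_min (lt_min hc1 hc2) (lt_min e2 (by positivity)), fun K' _ η' hη' => ?_⟩
  obtain ⟨n1, H1⟩ := H1 K' η' hη'
  obtain ⟨n2, G1⟩ := G1 K' η' hη'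
  obtain ⟨n3, H2⟩ := H2 K' η' hη'
  obtain ⟨n4, G2⟩ := G2 K' η' hη'
  obtain ⟨n0, hP⟩ := hP (n3 + n4 + Nat.card K')
  refine ⟨n0 + n1 + n2, fun I _ hI P hT => or_iff_not_imp_right.2 fun hn => hP I (by omega) P hT ?_⟩
  have key : ∀ s, n3 + n4 + Nat.card K' ≤ s → s ≤ Nat.card I →
      (∀ G : AddSubgroup Γ, G ≠ ⊥ → G ≠ ⊤ → cst ε P s (fun m => coll m G) ≤ η1) ∧
      cst ε P s en ≤ η1 ∧ mg ε P s ≤ η1 := fun s s1 s2 => by
    obtain ⟨A, hA, h0⟩ := gcm (E := Γ) s2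
    have cs : Nat.card (Fin s) = s := by simp
    have r0 := fun (x : OmE Γ I) (Φ : Lab I (Fin s)) q => sub_nonneg.2 (si_subP_le ε P x Φ q)
    have u0 := fun (x : OmE Γ I) (Φ : Lab I (Fin s)) => NN_nonneg (ε := ε) (si_nonneg (subP ε P x Φ))
    have M1 : lam (si P) - (A.E fun x Φ => lam (si (subP ε P x Φ))) ≤ η2 := not_lt.1 fun h =>
      hn ((ps_drop A h0 (by omega) hη'.le le_rfl (fun _ _ => False) (q := 0)
        (A.pos _ fun _ _ => ind_nonneg _) fun _ _ => False.elim).mono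
        (((min_le_right _ _).trans (min_le_left _ _)).trans (by linarith)))
    have M2 : (A.E fun x Φ => av (NN ε fun q => mm ε (si P) x Φ q - si (subP ε P x Φ) q)) ≤ η2 := by
      simp only [av_NN, lam_sub, A.sub]
      rwa [E_lam_mm]
    have R : ∀ k ≤ 3, D (k + 1 + 1) ≤ B → (A.E fun x Φ => av fun y =>
        NN ε (fun q => mm ε (si P) x Φ q - si (subP ε P x Φ) q) y ^ (k + 1)) ≤ η1 / 16 :=
      fun k hk hD => by
        have := A.mono fun x Φ => av_mono fun y => ps_pow (NN_nonneg (ε := ε) (r0 x Φ) y) t0 k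
        simp only [av_add, av_mul_left, A.add, A.smul] at this
        have m := mul_le_mul_of_nonneg_left ((ps_mom A hT (fun x Φ => NN_nonneg (ε := ε) (r0 x Φ))
          (fun x Φ y => by rw [NN_sub, NN_mm]; exact sub_le_self _ (u0 x Φ y)) _).trans hD)
          (inv_nonneg.2 t0.le)
        linarith [mul_le_mul_of_nonneg_left M2 (pow_nonneg t0.le k), tη k hk]
    have big : ∀ (Y : (Pt Γ (Fin s) → ℝ) → ℝ) (p : ℕ), D (p * 2) ≤ B →
        (∀ Q, Y (si Q) ≤ av fun y => NN ε (si Q) y ^ p) →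
        (∀ Q, Tame (fun p => 2 / q * 2 ^ (p + 1) * (D p + 1)) (NN ε (si Q)) → η2 / 2 ≤ Y (si Q) →
          PDrop ε Q K' η' (min c3 c4)) → (A.E fun x Φ => Y (si (subP ε P x Φ))) ≤ η2 :=
      fun Y p hp hY hD => not_lt.1 fun h => by
        have m1 := rs_pz A e2.le B0 (fun x Φ => hY _) h.le (((A.mono fun x Φ =>
          (av_sq_le _).trans_eq (av_congr fun _ => (pow_mul _ _ _).symm)).trans
          (ps_mom A hT u0 (NN_subP_le' ε P) _)).trans hp)
        have m2 := A.tamer (fun x Φ => NN ε (si (subP ε P x Φ))) (L := 2 / q) (by positivity)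
          fun p => by simpa only [abs_of_nonneg (u0 _ _ _)] using ps_mom A hT u0 (NN_subP_le' ε P) p
        rw [one_div_div] at m2
        refine hn ((ps_drop A h0 (by omega) hη'.le c0.le _ (q := q / 2) (le_trans (by linarith)
          ((sub_le_sub m1 m2).trans (rs_and A _ _))) fun x Φ h => hD _ h.2 h.1).mono
          (((min_le_right _ _).trans (min_le_right _ _)).trans ?_))
        linarith [E_lam_subP_le A ε P]
    have sp : ∀ (x : OmE Γ I) (Φ : Lab I (Fin s)), mm ε (si P) x Φ = fun q =>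
      si (subP ε P x Φ) q + (mm ε (si P) x Φ q - si (subP ε P x Φ) q) := fun x Φ =>
        funext fun _ => (add_sub_cancel _ _).symm
    refine ⟨fun G g1 g2 => ?_, ?_, ?_⟩
    · have a := big (fun m => coll m G) 2 (by linarith [le_abs_self (D 4)])
        (fun Q => coll_le_NN ε (si_nonneg Q) G) fun Q h1 h2 =>
          (H2 _ (by omega) Q h1 G g1 g2 h2).mono (min_le_left _ _)
      have b := R 1 (by norm_num) (by linarith [le_abs_self (D 3)])
      have c := A.mono fun x Φ => (congrArg (coll · G) (sp x Φ)).trans_le ((coll_add_le _ _ G).trans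
        (add_le_add le_rfl (mul_le_mul_of_nonneg_left (coll_le_NN ε (r0 x Φ) G) zero_le_two)))
      rw [A.add, A.smul, A.smul, hA] at c
      exact c.trans (by linarith)
    · have a := big en 4 (by linarith [le_abs_self (D 8)]) (fun Q => en_le_NN ε (si_nonneg Q))
        fun Q h1 h2 => (G2 _ (by omega) Q h1 h2).mono (min_le_right _ _)
      have b := R 3 le_rfl (by linarith [le_abs_self (D 5)])
      have c := A.mono fun x Φ => (congrArg en (sp x Φ)).trans_le ((en_add_le _ _).trans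
        (add_le_add le_rfl (mul_le_mul_of_nonneg_left (en_le_NN ε (r0 x Φ)) (by norm_num))))
      rw [A.add, A.smul, A.smul, hA] at c
      exact c.trans (by linarith)
    · rw [hA] at M2
      refine le_trans (av_mono fun ι => ?_) (M2.trans (by linarith))
      obtain ⟨C, hC, -⟩ := Fam.gcrd (E := Γ) ι.injective
      exact ((C.marg _).symm.trans (hC _)).trans_le
        (av_mono fun x => av_mono fun y => ps_merge ι.injective x y)
  exact ⟨fun G g1 g2 => not_lt.1 fun h => hn ((H1 I (by omega) P hT G g1 g2 h.le).mono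
      ((min_le_left _ _).trans (min_le_left _ _))),
    not_lt.1 fun h => hn ((G1 I (by omega) P hT h.le).mono
      ((min_le_left _ _).trans (min_le_right _ _))),
    fun s a b => (key s a b).1, fun s a b => (key s a b).2.1, fun s a b => (key s a b).2.2⟩

end NE
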