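import Pool.Agent.Lib.MP_ecee09_co.NE.HC
import Pool.Agent.Lib.MP_ecee09_co.SD.TH

/-! The loop that proves `RP` from `PSTEP`. -/

namespace NE

open SD (F sm av ind cnt Tame av_mul_left av_mono av_nonneg ind_pos ind_neg ind_nonneg ind_le_one
  ind_mono)

namespace Rp

variable {Γ : Type} [AddCommGroup Γ] [Finite Γ] {K : Type} [Finite K]

/-- the quantity bounded in the loop -/
noncomputable def jb {I : Type} (ε : Γ) (P : Set (Pt Γ I)) (x : OmE Γ I) (Φ : Lab I K) : ℝ :=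
  ind (¬ Good Φ) + bad ε P x Φ

lemma triv_le {I : Type} [Finite I] (ε : Γ) (P : Set (Pt Γ I)) (hk : Nat.card K ≤ Nat.card I) :
    ∃ A : GFam Γ I K, A.E (jb ε P) ≤ 1 := by
  obtain ⟨A, hA⟩ := Fam.gcrd' (E := Γ) hk
  refine ⟨A, ?_⟩
  have h1 : A.E (jb ε P) = A.junk + A.E fun x Φ => bad ε P x Φ := A.add _ _
  have h2 : (A.E fun x Φ => bad ε P x Φ) ≤ 1 := A.le_const fun x Φ => hc_bad_le_one ε P x Φ
  linarith

lemma loop (ε : Γ) (Θ : ℝ → ℝ) (h0 : ∀ t, 0 ≤ Θ t)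
    (hm : ∀ s t, |s| ≤ |t| → Θ s ≤ Θ t) {L η0 η' b c : ℝ} (hL : 0 < L) (hη0 : 0 ≤ η0)
    (hη' : 0 ≤ η') (hb : 0 ≤ b) (hc : 0 ≤ c)
    (hs : ∀ k' : ℕ, ∃ n0 : ℕ, ∀ (I : Type) [Finite I], n0 ≤ Nat.card I →
      ∀ P : Set (Pt Γ I), av (fun x => Θ (NN ε (si P) x)) ≤ L →
        Solve ε P K η0 ∨ PDrop ε P (Fin k') η' c) (t : ℕ) :
    ∃ n : ℕ, ∀ (I : Type) [Finite I], n ≤ Nat.card I →
      ∀ P : Set (Pt Γ I), ∃ A : GFam Γ I K, A.E (jb ε P) ≤
        (2 * η0 + 2 * t * η' + max 0 (1 - t * (b * c))) +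
          L⁻¹ * av (fun x => Θ (NN ε (si P) x)) + b * lam (si P) := by
  induction t with
  | zero =>
    refine ⟨Nat.card K, fun I _ hI P => ?_⟩
    obtain ⟨A, hA⟩ := triv_le ε P hI
    refine ⟨A, hA.trans ?_⟩
    have h1 : 0 ≤ L⁻¹ * av (fun x => Θ (NN ε (si P) x)) :=
      mul_nonneg (inv_nonneg.2 hL.le) (av_nonneg fun _ => h0 _)
    have h2 : 0 ≤ b * lam (si P) := mul_nonneg hb (hc_lam_nonneg P)
    have h3 : 2 * η0 + 2 * ((0 : ℕ) : ℝ) * η' + max 0 (1 - ((0 : ℕ) : ℝ) * (b * c)) =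
        2 * η0 + 1 := by simp
    rw [h3]
    linarith
  | succ t ih =>
    obtain ⟨n, hn⟩ := ih
    obtain ⟨n0, hn0⟩ := hs n
    refine ⟨max (Nat.card K) n0, fun I _ hI P => ?_⟩
    have h1 : 0 ≤ L⁻¹ * av (fun x => Θ (NN ε (si P) x)) :=
      mul_nonneg (inv_nonneg.2 hL.le) (av_nonneg fun _ => h0 _)
    have h2 : 0 ≤ b * lam (si P) := mul_nonneg hb (hc_lam_nonneg P)
    have h3 : 0 ≤ max 0 (1 - ((t + 1 : ℕ) : ℝ) * (b * c)) := le_max_left _ _
    have h4 : 0 ≤ 2 * ((t + 1 : ℕ) : ℝ) * η' := by positivity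
    by_cases hsz : av (fun x => Θ (NN ε (si P) x)) ≤ L
    swap
    · obtain ⟨A, hA⟩ := triv_le (K := K) ε P ((le_max_left _ _).trans hI)
      refine ⟨A, hA.trans ?_⟩
      have : 1 ≤ L⁻¹ * av (fun x => Θ (NN ε (si P) x)) := by
        rw [inv_mul_eq_div, le_div_iff₀ hL]
        linarith [not_le.1 hsz]
      linarith
    rcases hn0 I ((le_max_right _ _).trans hI) P hsz with ⟨A, hj, hbad⟩ | ⟨A, hj, hu⟩
    · refine ⟨A, ?_⟩
      have : A.E (jb ε P) = A.junk + A.E fun x Φ => bad ε P x Φ := A.add _ _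
      linarith
    choose S hS using fun (x : OmE Γ I) (Φ : Lab I (Fin n)) =>
      hn (Fin n) (by simp) (subP ε P x Φ)
    obtain ⟨A', hA', -⟩ := A.gcomp S
    refine ⟨A', ?_⟩
    rw [hA']
    set Z : ℝ := 2 * η0 + 2 * t * η' + max 0 (1 - t * (b * c)) with hZ
    have hZ0 : 0 ≤ Z := by
      have : 0 ≤ max 0 (1 - (t : ℝ) * (b * c)) := le_max_left _ _
      have : 0 ≤ 2 * (t : ℝ) * η' := by positivity
      linarith
    have key : ∀ (x : OmE Γ I) (Φ : Lab I (Fin n)),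
        ((S x Φ).E fun y Ψ => jb ε P (cell x Φ y) (lcomp Φ Ψ)) ≤
          (2 * ind (¬ Good Φ) + Z) +
            (L⁻¹ * (av fun y : OmE Γ (Fin n) => Θ (NN ε (si P) (cell x Φ y))) +
              b * (ind (Good Φ) * lam (si (subP ε P x Φ)))) := by
      intro x Φ
      have g1 : 0 ≤ L⁻¹ * av fun y : OmE Γ (Fin n) => Θ (NN ε (si P) (cell x Φ y)) :=
        mul_nonneg (inv_nonneg.2 hL.le) (av_nonneg fun _ => h0 _)
      by_cases hΦ : Good Φ
      · have e1 : ((S x Φ).E fun y Ψ => jb ε P (cell x Φ y) (lcomp Φ Ψ)) ≤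
            (S x Φ).E (jb ε (subP ε P x Φ)) := by
          refine Fam.mono _ fun y Ψ => add_le_add ?_ (hc_bad_comp ε P x Φ y Ψ)
          have := Fam.ind_lcomp_le Φ Ψ
          rwa [ind_neg (not_not.2 hΦ), zero_add] at this
        have e2 : av (fun y => Θ (NN ε (si (subP ε P x Φ)) y)) ≤
            av fun y : OmE Γ (Fin n) => Θ (NN ε (si P) (cell x Φ y)) := by
          refine av_mono fun y => hm _ _ ?_
          rw [abs_of_nonneg (hc_NN_nonneg _ _ _), abs_of_nonneg (hc_NN_nonneg _ _ _)]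
          exact hc_nn_sub_le ε P x hΦ y
        have e4 := mul_le_mul_of_nonneg_left e2 (inv_nonneg.2 hL.le)
        have e6 := hS x Φ
        have e7 := ind_nonneg (¬ Good Φ)
        rw [ind_pos hΦ, one_mul]
        linarith
      · have e1 : ((S x Φ).E fun y Ψ => jb ε P (cell x Φ y) (lcomp Φ Ψ)) ≤ 2 := by
          refine Fam.le_const _ fun y Ψ => ?_
          have := ind_le_one (¬ Good (lcomp Φ Ψ))
          have := hc_bad_le_one ε P (cell x Φ y) (lcomp Φ Ψ)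
          rw [jb]
          linarith
        rw [ind_pos hΦ, ind_neg hΦ, zero_mul, mul_zero]
        linarith
    refine (A.mono key).trans ?_
    clear_value Z
    rw [A.add, A.add, A.add, A.smul, A.smul, A.smul, A.const Z,
      A.marg fun x => Θ (NN ε (si P) x), hZ]
    have e1 : (A.E fun _ Φ => ind (¬ Good Φ)) ≤ η' := hj
    have e2 := mul_le_mul_of_nonneg_left hu hb
    have e3 : max 0 (1 - (t : ℝ) * (b * c)) - b * c ≤ max 0 (1 - ((t + 1 : ℕ) : ℝ) * (b * c)) := by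
      have hbc : 0 ≤ b * c := mul_nonneg hb hc
      rcases le_total 0 (1 - (t : ℝ) * (b * c)) with h | h
      · rw [max_eq_right h]
        refine le_trans (le_of_eq ?_) (le_max_right _ _)
        push_cast; ring
      · rw [max_eq_left h]
        linarith
    push_cast at e3 ⊢
    nlinarith

end Rp

theorem rp_of {Γ : Type} [AddCommGroup Γ] [Finite Γ] (h : PSTEP Γ) : RP Γ := by
  intro ε D K _ η hη
  obtain ⟨Θ, h0, hm, hD, hC⟩ := SD.th D
  choose C hC0 hC using hC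
  obtain ⟨c, hc, hs⟩ := h ε (fun p => C p * (8 / η)) K (η / 8) (by positivity)
  set b : ℝ := η / (8 * (|D 1| + 1)) with hb
  have hb0 : 0 < b := by positivity
  obtain ⟨t, ht⟩ := exists_nat_ge (1 / (b * c))
  have hbc : 0 < b * c := mul_pos hb0 hc
  have ht1 : 1 ≤ (t : ℝ) * (b * c) := by rwa [div_le_iff₀ hbc] at ht
  obtain ⟨n, hn⟩ := Rp.loop (K := K) ε Θ h0 hm (L := 8 / η) (η0 := η / 8)
    (η' := η / (8 * (t + 1))) (b := b) (c := c) (by positivity) (by positivity) (by positivity)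
    hb0.le hc.le (fun k' => by
      obtain ⟨n0, hn0⟩ := hs (Fin k') (η / (8 * (t + 1))) (by positivity)
      refine ⟨n0, fun I _ hI P hP => hn0 I hI P fun p => ?_⟩
      refine (av_mono fun x => hC p _).trans ?_
      rw [av_mul_left]
      exact mul_le_mul_of_nonneg_left hP (hC0 p)) t
  refine ⟨n, fun I _ hI P hP => ?_⟩
  obtain ⟨A, hA⟩ := hn I hI P
  have e1 : max 0 (1 - (t : ℝ) * (b * c)) = 0 := max_eq_left (by linarith)
  have e2 : (8 / η)⁻¹ * av (fun x => Θ (NN ε (si P) x)) ≤ η / 8 := by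
    rw [inv_div]
    exact mul_le_of_le_one_right (by positivity) (hD _ _ hP)
  have e3 : b * lam (si P) ≤ η / 8 := by
    have h1 : lam (si P) ≤ |D 1| + 1 := by linarith [hc_lam_le hP, le_abs_self (D 1)]
    refine (mul_le_mul_of_nonneg_left h1 hb0.le).trans (le_of_eq ?_)
    rw [hb]
    field_simp
  have e4 : 2 * (t : ℝ) * (η / (8 * (t + 1))) ≤ η / 4 := by
    rw [mul_div_assoc', div_le_div_iff₀ (by positivity) (by positivity)]
    nlinarith
  have e5 : A.E (Rp.jb ε P) = A.junk + A.E fun x Φ => bad ε P x Φ := A.add _ _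
  have e6 : 0 ≤ A.junk := A.junk_nonneg
  have e7 : 0 ≤ A.E fun x Φ => bad ε P x Φ := A.pos _ fun x Φ => hc_bad_nonneg ε P x Φ
  exact ⟨A, by linarith, by linarith⟩

end NE
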