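import Pool.Agent.Lib.MP_ecee09_co.NE.HH
import Pool.Agent.Lib.MP_ecee09_co.NE.RPl
import Pool.Agent.Lib.MP_ecee09_co.NE.PSt
import Pool.Agent.Lib.MP_ecee09_co.NE.Lg

/-! Reduction of particles for all groups, by induction on the order. -/

namespace NE

theorem rpa_of (hZ : LZ) (hP : PURE) : RPA := by
  have key : ∀ (n : ℕ) (Γ : Type) [AddCommGroup Γ] [Finite Γ] [Nontrivial Γ],
      Nat.card Γ = n → RP Γ := by
    intro n
    induction n using Nat.strong_induction_on with
    | _ n ih =>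
      intro Γ _ _ _ hn
      exact rp_of (pstep_of (hh_of fun Γ' _ _ _ h => ih _ (hn ▸ h) Γ' rfl) (lg_of hZ Γ) hP)
  intro Γ _ _ _
  exact key _ Γ rfl

end NE
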