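import Pool.Agent.Lib.MP_ecee09_co.NE.TUPa

/-! Matched tuples with a robust minimal relation off the pools are rare. -/

namespace NE
namespace Tup

open SD (F sm av ind cnt Tame)

lemma ind_le_div {t f : ℝ} (ht : 0 < t) (hf : 0 ≤ f) : ind (t ≤ f) ≤ f / t := by
  by_cases h : t ≤ f
  · rw [SD.ind_pos h, le_div_iff₀ ht]; simpa using h
  · rw [SD.ind_neg h]; exact div_nonneg hf ht.le

lemma av_const_le {α : Type} [Finite α] {c : ℝ} (hc : 0 ≤ c) : av (fun _ : α => c) ≤ c := by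
  have h := SD.av_mul_left c fun _ : α => (1 : ℝ)
  simp only [mul_one] at h
  rw [h]; exact mul_le_of_le_one_right hc SD.av_one_le

lemma av_le_of_le {α : Type} [Finite α] {f : α → ℝ} {c : ℝ} (hc : 0 ≤ c) (h : ∀ x, f x ≤ c) :
    av f ≤ c := (SD.av_mono h).trans (av_const_le hc)

variable {Γ I K M S : Type} [AddCommGroup Γ] [Finite Γ] [Finite I] [Finite K] [Finite M]
  [Finite S]

omit [Finite Γ] [Finite I] [Finite S] in
lemma ovr_cell {j : S → I} (hj : Function.Injective j) {π : PP I}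
    (hπ : ∀ a b, π s(j a, j b) = none) (x : OmE Γ I) (y : OmE Γ S) :
    (((cell x (crd j) y).1, ovr (cell x (crd j) y).2 π) : OmE Γ I) =
      cell (x.1, ovr x.2 π) (crd j) y := by
  refine Prod.ext rfl (funext fun c => ?_)
  show (π c).getD (ow x.2 (crd j) y.2 c) = ow (ovr x.2 π) (crd j) y.2 c
  cases h : lab2 (crd j) c with
  | none => rw [ow_of_none h, ow_of_none h]; rfl
  | some d =>
    rw [ow_of_some h, ow_of_some h, ← (lab2_crd_eq_some hj).1 h]
    induction d using Sym2.ind with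
    | _ a b => rw [Sym2.map_mk, hπ]; rfl

/-- the bound for a fixed set and a fixed planting -/
lemma av_tn_ovr [Fintype M] (ε : Γ) (P : Set (Pt Γ I)) (w : M → I → Γ)
    {W : AddSubgroup (M → Γ)} {γ B θ T a : ℝ} (hB : 0 ≤ B) (ha : 0 < a)
    {j : S → I} (hj : Function.Injective j) {π : PP I} (hπ : ∀ a b, π s(j a, j b) = none)
    (hg : ∀ x : OmE Γ I, (∀ r, ¬ Bd ε P θ T j (x.1 - w r, x.2)) →
      (av fun y => TN ε P w W γ j (cell x (crd j) y)) ≤ B) :
    (av fun x : OmE Γ I => TN ε P w W γ j (x.1, ovr x.2 π)) ≤ B + a +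
      a * ∑ r, (av fun x : OmE Γ I => |NN ε (si P) (x.1 - w r, ovr x.2 π)| ^ (2 * Nat.card M)) +
      (∑ r, av fun x : OmE Γ I => ind (Bd ε P θ T j (x.1 - w r, ovr x.2 π))) / a := by
  have t1 := av_cell_crd hj fun x : OmE Γ I => TN ε P w W γ j (x.1, ovr x.2 π)
  have t2 := av_cell_crd hj fun x : OmE Γ I => TN ε P w W γ j (x.1, ovr x.2 π) ^ 2
  simp only [ovr_cell hj hπ] at t1 t2
  have h1 : ∀ x : OmE Γ I, (av fun y => TN ε P w W γ j (cell x (crd j) y)) ≤
      B + a * (av fun y => TN ε P w W γ j (cell x (crd j) y) ^ 2) +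
        (∑ r, ind (Bd ε P θ T j (x.1 - w r, x.2))) / a := fun x => by
    have h2 : 0 ≤ av fun y => TN ε P w W γ j (cell x (crd j) y) ^ 2 :=
      SD.av_nonneg fun _ => sq_nonneg _
    by_cases h : ∀ r, ¬ Bd ε P θ T j (x.1 - w r, x.2)
    · have h3 : 0 ≤ (∑ r, ind (Bd ε P θ T j (x.1 - w r, x.2))) / a :=
        div_nonneg (Finset.sum_nonneg fun _ _ => SD.ind_nonneg _) ha.le
      have := hg x h
      nlinarith
    · push Not at h
      obtain ⟨r, hr⟩ := h
      have h3 : 1 / a ≤ (∑ r, ind (Bd ε P θ T j (x.1 - w r, x.2))) / a := by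
        refine div_le_div_of_nonneg_right ?_ ha.le
        rw [← SD.ind_pos hr]
        exact Finset.single_le_sum (f := fun r => ind (Bd ε P θ T j (x.1 - w r, x.2)))
          (fun _ _ => SD.ind_nonneg _) (Finset.mem_univ r)
      have h4 : (av fun y => TN ε P w W γ j (cell x (crd j) y)) ≤
          av fun y => a * TN ε P w W γ j (cell x (crd j) y) ^ 2 + 1 / a := by
        refine SD.av_mono fun y => ?_
        generalize TN ε P w W γ j (cell x (crd j) y) = u
        rw [← sub_nonneg]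
        have : a * u ^ 2 + 1 / a - u = ((a * u - 1 / 2) ^ 2 + 3 / 4) / a := by field_simp; ring
        rw [this]; positivity
      rw [SD.av_add, SD.av_mul_left, SD.av_const] at h4
      linarith
  rw [← t1]
  refine (SD.av_mono fun x : OmE Γ I => h1 (x.1, ovr x.2 π)).trans ?_
  rw [SD.av_add, SD.av_add, SD.av_const, SD.av_mul_left, t2, SD.av_div, SD.av_sum]
  have h5 := SD.av_mono fun x : OmE Γ I => tn_sq_le ε P w W γ j (x.1, ovr x.2 π)
  rw [SD.av_add, SD.av_const, SD.av_sum] at h5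
  have := mul_le_mul_of_nonneg_left h5 ha.le
  linarith

omit [Finite K] [Finite M] [Finite S] in
/-- without planting few cells have a large statistic -/
lemma av_bd_le {ε : Γ} {P : Set (Pt Γ I)} {D : ℕ → ℝ} {s1 σ : ℕ} {η θ T : ℝ} (hη : 0 ≤ η)
    (hθ : 0 < θ) (hT : 0 < T) (h : PuH ε P D s1 η) (h1 : s1 ≤ σ) (h2 : σ ≤ Nat.card I) :
    (av fun ι : Fin σ ↪ I => av fun x => ind (Bd ε P θ T ι x)) ≤
      Nat.card (AddSubgroup Γ) * η / θ + η / θ ^ 2 + |D 2| / T ^ 2 := by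
  have h3 : ∀ (ι : Fin σ ↪ I) (x : OmE Γ I), ind (Bd ε P θ T ι x) ≤
      (sm fun G : AddSubgroup Γ => ind (G ≠ ⊥ ∧ G ≠ ⊤) * coll (mm ε (si P) x (crd ι)) G) / θ +
      en (mm ε (si P) x (crd ι)) / θ ^ 2 +
      (av fun y => |NN ε (si P) (cell x (crd ι) y)| ^ 2) / T ^ 2 := fun ι x => by
    have hm := mm_nonneg ε P x (crd ι)
    refine (SD.ind_or_le _ _).trans ?_
    rw [add_assoc]
    refine add_le_add ((SD.ind_exists_le _).trans ?_) ((SD.ind_or_le _ _).trans (add_le_add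
      (ind_le_div (by positivity) (en_nonneg hm)) ((ind_le_div (by positivity)
        (SD.av_nonneg fun _ => sq_nonneg _)).trans ?_)))
    · rw [← SD.sm_div]
      refine SD.sm_mono fun G => ?_
      rw [← and_assoc, SD.ind_and, mul_div_assoc]
      exact mul_le_mul_of_nonneg_left (ind_le_div hθ (coll_nonneg hm G)) (SD.ind_nonneg _)
    · refine div_le_div_of_nonneg_right (SD.av_mono fun y => ?_) (by positivity)
      exact pow_le_pow_left₀ (nn_nonneg ε hm y)
        ((nn_mm_le ε P x (good_crd ι.injective) y).trans (le_abs_self _)) 2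
  refine (SD.av_mono fun ι => SD.av_mono fun x => h3 ι x).trans ?_
  simp only [SD.av_add, SD.av_div, SD.av_sm_comm, SD.av_mul_left]
  refine add_le_add (add_le_add ?_ ?_) ?_
  · refine div_le_div_of_nonneg_right ?_ hθ.le
    rw [← SD.sm_const]
    refine SD.sm_mono fun G => ?_
    by_cases hG : G ≠ ⊥ ∧ G ≠ ⊤
    · rw [SD.ind_pos hG, one_mul]; exact h.cc σ h1 h2 G hG.1 hG.2
    · rw [SD.ind_neg hG, zero_mul]; exact hη
  · exact div_le_div_of_nonneg_right (h.ce σ h1 h2) (by positivity)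
  · refine div_le_div_of_nonneg_right (av_le_of_le (abs_nonneg _) fun ι => ?_) (by positivity)
    rw [av_cell_crd ι.injective fun x => |NN ε (si P) x| ^ 2]
    exact (h.tm 2).trans (le_abs_self _)

omit [Finite I] [Finite K] [Finite S] in
lemma jlab_inr {s : ℕ} (ι : (K × Fin s) ⊕ S ↪ I) (g : K × Fin s → Bool) (a : S) :
    jlab ι g (ι (.inr a)) = none := by
  refine lcomp_of_none _ ((crd_eq_none (ι.injective.comp Sum.inl_injective)).2 ?_)
  rintro ⟨u, hu⟩
  exact Sum.inl_ne_inr (ι.injective hu)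

end Tup

open SD (F sm av ind cnt Tame)
open Tup

theorem tup_of (hP : P1U) (hC : CNT) (hS : SH) : TUP := by
  intro Γ M _ _ _ _ D δ hδ
  let _ := Fintype.ofFinite M
  obtain ⟨C, hC0, hP⟩ := hP Γ M
  obtain ⟨m, hm⟩ : ∃ m, m = Nat.card M := ⟨_, rfl⟩
  have hm0 : (0 : ℝ) < m := by rw [hm]; exact SD.card_pos'
  obtain ⟨N, hN⟩ : ∃ N : ℝ, N = Nat.card (AddSubgroup Γ) := ⟨_, rfl⟩
  have hN0 : 0 ≤ N := by rw [hN]; positivity
  obtain ⟨a, ha⟩ : ∃ a : ℝ, a = δ / (4 * (1 + m * (|D (2 * m)| + 1))) := ⟨_, rfl⟩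
  have ha0 : 0 < a := by rw [ha]; positivity
  obtain ⟨ρ, hρ⟩ : ∃ ρ : ℝ, ρ = a * δ / (8 * m) := ⟨_, rfl⟩
  have hρ0 : 0 < ρ := by rw [hρ]; positivity
  obtain ⟨T, hT⟩ : ∃ T : ℝ, T = 1 + |D 2| / ρ := ⟨_, rfl⟩
  have hT1 : 1 ≤ T := by rw [hT]; exact le_add_of_nonneg_right (by positivity)
  obtain ⟨θ, hθ⟩ : ∃ θ : ℝ, θ = δ / (4 * C * T ^ m) := ⟨_, rfl⟩
  have hθ0 : 0 < θ := by rw [hθ]; positivity
  refine ⟨ρ * min (θ / (N + 1)) (θ ^ 2), by positivity, fun γ hγ => ?_⟩
  obtain ⟨s0, hP⟩ := hP γ hγ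
  refine ⟨s0, fun σ hσ κ s => ?_⟩
  obtain ⟨n0, hS⟩ := hS (κ * s + σ) (|D (2 * m * 2)| + 1) (min 1 ρ) (by positivity)
  refine ⟨max n0 σ, fun I K _ _ hI hK ε P Q t s1 hs1 h W hD hW hO h2 => ?_⟩
  have hS' := fun r Y hY => (abs_le.1 (hS I (le_of_max_le_left hI) Γ K (Fin σ) s
    (by simpa using Nat.mul_le_mul_right s hK) Q (t r) Y hY).1).2
  have e1 : ∀ r, EPS s (Fin σ) Q (fun Φ _ x =>
      |NN ε (si P) (x.1 - spr (t r) Φ, x.2)| ^ (2 * m)) ≤ |D (2 * m)| + 1 := fun r => by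
    have h3 := hS' r (fun _ x => |NN ε (si P) x| ^ (2 * m)) (av_le_of_le (by positivity)
      fun _ => by
        simp only [← pow_mul]
        exact (h.tm _).trans ((le_abs_self _).trans (by linarith)))
    have h4 : (av fun _ : Fin σ ↪ I => av fun x => |NN ε (si P) x| ^ (2 * m)) ≤ |D (2 * m)| :=
      av_le_of_le (abs_nonneg _) fun _ => (h.tm _).trans (le_abs_self _)
    have := min_le_left 1 ρ
    linarith
  have e2 : ∀ r, EPS s (Fin σ) Q (fun Φ j x =>
      ind (Bd ε P θ T j (x.1 - spr (t r) Φ, x.2))) ≤ 4 * ρ := fun r => by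
    have h3 := hS' r (fun j x => ind (Bd ε P θ T j x)) (av_le_of_le (by positivity)
      fun _ => by
        simp only [SD.ind_sq]
        exact (SD.av_ind_le_one _).trans (le_add_of_nonneg_left (abs_nonneg _)))
    have h4 := av_bd_le (by positivity) hθ0 (by linarith : 0 < T) h hs1 (le_of_max_le_right hI)
    rw [← hN] at h4
    have h5 : N * (ρ * min (θ / (N + 1)) (θ ^ 2)) / θ ≤ ρ := by
      rw [div_le_iff₀ hθ0, mul_left_comm]
      refine mul_le_mul_of_nonneg_left ?_ hρ0.le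
      refine (mul_le_mul_of_nonneg_left (min_le_left _ _) hN0).trans ?_
      rw [← mul_div_assoc, div_le_iff₀ (by positivity)]
      nlinarith
    have h6 : ρ * min (θ / (N + 1)) (θ ^ 2) / θ ^ 2 ≤ ρ := by
      rw [div_le_iff₀ (by positivity)]
      exact mul_le_mul_of_nonneg_left (min_le_right _ _) hρ0.le
    have h7 : |D 2| / T ^ 2 ≤ ρ := by
      rw [div_le_iff₀ (by positivity)]
      have : ρ * T = ρ + |D 2| := by rw [hT]; field_simp
      nlinarith [mul_nonneg (mul_nonneg hρ0.le (by linarith : 0 ≤ T)) (sub_nonneg.2 hT1)]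
    have := min_le_right 1 ρ
    linarith
  have e3 : ∀ (ι : (K × Fin s) ⊕ Fin σ ↪ I) (g : K × Fin s → Bool), _ := fun ι g =>
    av_tn_ovr ε P (fun r => spr (t r) (jlab ι g)) (W := W) (γ := γ) (B := C * θ * T ^ m)
      (θ := θ) (T := T) (by positivity) ha0 (j := fun u => ι (.inr u))
      (ι.injective.comp Sum.inr_injective) (π := bl (jlab ι g) Q)
      (fun a b => by unfold bl; rw [lab2_none_left (jlab_inr ι g a)]; rfl)
      fun x hx => hm ▸ av_tn_le hC ε P _ hC0.le hθ0.le hT1 hD hW hO h2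
        (fun q => hP (Fin σ) (by simpa using hσ) ε q W hD)
        (ι.injective.comp Sum.inr_injective) x hx
  refine (SD.av_mono fun ι => SD.av_mono fun g => e3 ι g).trans ?_
  simp only [SD.av_add, SD.av_mul_left, SD.av_div, SD.av_sum, SD.av_const, ← hm]
  have f1 : (av fun _ : (K × Fin s) ⊕ Fin σ ↪ I => C * θ * T ^ m) ≤ δ / 4 := by
    refine (av_const_le (by positivity)).trans (le_of_eq ?_)
    rw [hθ]; field_simp
  have f2 : (av fun _ : (K × Fin s) ⊕ Fin σ ↪ I => a) ≤ a := av_const_le ha0.le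
  have hc : (Finset.univ : Finset M).card = m := by
    rw [hm, Nat.card_eq_fintype_card, Finset.card_univ]
  have f3 := Finset.sum_le_card_nsmul Finset.univ _ _ fun r _ => e1 r
  have f4 := Finset.sum_le_card_nsmul Finset.univ _ _ fun r _ => e2 r
  rw [hc, nsmul_eq_mul] at f3 f4
  have f5 := mul_le_mul_of_nonneg_left f3 ha0.le
  have f6 := div_le_div_of_nonneg_right f4 ha0.le
  have f7 : a + a * (m * (|D (2 * m)| + 1)) = δ / 4 := by rw [ha]; field_simp
  have f8 : m * (4 * ρ) / a = δ / 2 := by rw [hρ]; field_simp; ring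
  simp only [EPS] at f5 f6
  rw [SD.av_mul_left] at f1
  linarith

end NE
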