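import Pool.Agent.Lib.MP_ecee09_co.NE.Final3
import Pool.Agent.Lib.MP_ecee09_co.NE.W1
import Pool.Agent.Lib.MP_ecee09_co.NE.QRT
import Pool.Agent.Lib.MP_ecee09_co.NE.RPA
import Pool.Agent.Lib.MP_ecee09_co.NE.LZ
import Pool.Agent.Lib.MP_ecee09_co.NE.Pu6
import Pool.Agent.Lib.MP_ecee09_co.NE.Pu5
import Pool.Agent.Lib.MP_ecee09_co.NE.PU4
import Pool.Agent.Lib.MP_ecee09_co.NE.PU3
import Pool.Agent.Lib.MP_ecee09_co.NE.Pu2
import Pool.Agent.Lib.MP_ecee09_co.NE.Pu0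
import Pool.Agent.Lib.MP_ecee09_co.NE.Pun
import Pool.Agent.Lib.MP_ecee09_co.NE.Stat
import Pool.Agent.Lib.MP_ecee09_co.NE.P1T
import Pool.Agent.Lib.MP_ecee09_co.NE.Cnt
import Pool.Agent.Lib.MP_ecee09_co.NE.TUP
import Pool.Agent.Lib.MP_ecee09_co.NE.Pair
import Pool.Agent.Lib.MP_ecee09_co.NE.PairA
import Pool.Agent.Lib.MP_ecee09_co.NE.PairB
import Pool.Agent.Lib.MP_ecee09_co.NE.LALG
import Pool.Agent.Lib.MP_ecee09_co.NE.ISO
import Pool.Agent.Lib.MP_ecee09_co.NE.PIG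
import Pool.Agent.Lib.MP_ecee09_co.NE.MOVE
import Pool.Agent.Lib.MP_ecee09_co.NE.Bad
import Pool.Agent.Lib.MP_ecee09_co.NE.One
import Pool.Agent.Lib.MP_ecee09_co.NE.JLOW
import Pool.Agent.Lib.MP_ecee09_co.NE.Jinv
import Pool.Agent.Lib.MP_ecee09_co.NE.Pos
import Pool.Agent.Lib.MP_ecee09_co.NE.ALF

/-! Assembly of part III-b. -/

namespace NE

theorem sh : SH := sh_of uni

theorem pure : PURE :=
  pure_of mrf puh (pu5_of (pu4_of p1t pu0 (pu2_of sh (tup_of p1u cnt_of sh)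
    (pair_of uni sh (paira_of sh) (pairb_of uni sh))) pu3) pun)

theorem cor_of_alf (h : ALF) : COR :=
  cor_of_parts (rpa_of (lz_of (lf_of lalg h) zs) pure) (lz_of (lf_of lalg h) zs)

theorem alf : ALF :=
  alf_of mrf qrt pig move (pos_of iso) bad_of (one_of qrt (pos_of iso) bad_of move) jlow
    (jinv_of move)

theorem cor : COR := cor_of_alf alf

end NE
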