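import Pool.Agent.Lib.MP_ecee09_co.NE.GB

/-! Random halves of pools free the shifts. -/

set_option linter.unusedSectionVars false

namespace NE

open SD
open ComplexConjugate

variable {E I Pl : Type} [AddCommGroup E]

/-- the part of the pools where `z` is false -/
def lz (pool : Lab I Pl) (z : I → Bool) : Lab I Pl := fun i => if z i then none else pool i

/-- shifts that are constant on the parts of the pools where `z` is false -/
def azS (S : AddSubgroup E) (pool : Lab I Pl) (z : I → Bool) (h : Pl → S) : I → E :=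
  spr (fun p => (h p : E)) (lz pool z)

theorem ad_sprS (S : AddSubgroup E) (Φ : Lab I Pl) :
    Ad fun h : Pl → S => spr (fun p => (h p : E)) Φ := fun x y => by
  funext i; simp only [spr, Pi.add_apply]; cases Φ i <;> simp

theorem ad_azS (S : AddSubgroup E) (pool : Lab I Pl) (z : I → Bool) : Ad (azS S pool z) :=
  ad_sprS S _

variable [Finite E] [Finite I] [Finite Pl]

open Classical in
/-- pools on which a character is not trivial -/
def badP (S : AddSubgroup E) (pool : Lab I Pl) (ψ : AddChar (I → E) ℂ) : Set Pl :=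
  {p | ∃ i, pool i = some p ∧ ∃ s ∈ S, ψ (Pi.single i s) ≠ 1}

theorem char_pi [Fintype I] [DecidableEq I] (ψ : AddChar (I → E) ℂ) (v : I → E) :
    ψ v = ∏ i, ψ (Pi.single i (v i)) := by
  have (s : Finset I) (f : I → I → E) : ψ (∑ i ∈ s, f i) = ∏ i ∈ s, ψ (f i) := by
    induction s using Finset.cons_induction <;> simp [*, ψ.map_add_eq_mul]
  rw [← this, Finset.univ_sum_single]

theorem triv_sft {S : AddSubgroup E} {pool : Lab I Pl} {ψ : AddChar (I → E) ℂ} {J : Set I}
    (hJ : ∀ i ∈ J, ∃ p, p ∉ badP S pool ψ ∧ pool i = some p) (h : I → S) :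
    ψ (sft J S h) = 1 := by
  classical
  let _ := Fintype.ofFinite I
  rw [char_pi]
  refine Finset.prod_eq_one fun i _ => ?_
  by_cases hi : i ∈ J
  · obtain ⟨p, hp, e⟩ := hJ i hi
    rw [show sft J S h i = h i from if_pos hi]
    exact by_contra fun k => hp ⟨i, e, _, (h i).2, k⟩
  · simp [sft, hi]

open Classical in
theorem azS_flip {S : AddSubgroup E} {pool : Lab I Pl} {z z' : I → Bool} {i0 : I} {p : Pl}
    (hp : pool i0 = some p) (h1 : z i0 = false) (h2 : z' i0 = true)
    (h : ∀ i, i ≠ i0 → pool i = some p → z i = z' i) (s : S) :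
    azS S pool z (Pi.single p s) = azS S pool z' (Pi.single p s) + Pi.single i0 (s : E) := by
  funext i
  by_cases e : i = i0
  · simp [azS, spr, lz, e, hp, h1, h2]
  · simp only [azS, spr, lz, Pi.add_apply, Pi.single_eq_of_ne e, add_zero]
    cases k : pool i with
    | none => simp
    | some q =>
      by_cases e' : q = p
      · rw [h i e (e' ▸ k)]
      · cases z i <;> cases z' i <;> simp [e']

theorem av_ind_sub {α : Type} [Finite α] {p : α → Prop} (h : ∀ x y, p x → p y → x = y) :
    av (fun x => ind (p x)) ≤ 1 / Nat.card α := by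
  by_cases k : ∃ x, p x
  · obtain ⟨x, hx⟩ := k
    rw [← av_ind_eq x fun _ => 1]
    exact av_mono fun y => by rw [mul_one]; exact ind_mono fun hy => h _ _ hy hx
  · exact (av_le_c le_rfl fun x => (ind_neg fun hx => k ⟨x, hx⟩).le).trans (by positivity)

theorem flip_le (S : AddSubgroup E) (pool : Lab I Pl) (ψ : AddChar (I → E) ℂ) :
    av (fun z => ind (∀ h, ψ (azS S pool z h) = 1)) ≤ (1 / 2) ^ (badP S pool ψ).ncard := by
  classical
  choose ι hι s hs hψ using fun p : badP S pool ψ => p.2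
  have inj : Function.Injective ι := fun p q e =>
    Subtype.ext (Option.some.inj ((hι p).symm.trans (e ▸ hι q)))
  let w (u : badP S pool ψ → Bool) : I → Bool := Function.extend ι u 0
  rw [← av_const (α := badP S pool ψ → Bool) (av _),
    av_congr fun u => (av_add_right _ (w u)).symm, av_comm]
  refine av_le_const fun z => (av_ind_sub fun u u' hu hu' => funext fun p => ?_).trans_eq ?_
  · have k (u u' : badP S pool ψ → Bool) (hu : ∀ h, ψ (azS S pool (z + w u) h) = 1)
        (hu' : ∀ h, ψ (azS S pool (z + w u') h) = 1) (h1 : (z + w u) (ι p) = false)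
        (h2 : (z + w u') (ι p) = true) : False := by
      have := hu (Pi.single p ⟨s p, hs p⟩)
      rw [azS_flip (hι p) h1 h2, ψ.map_add_eq_mul, hu', one_mul] at this
      · exact hψ p this
      · intro i hi e
        have : ¬ ∃ q, ι q = i := fun ⟨q, hq⟩ => hi <| by
          rw [← hq, Subtype.ext (Option.some.inj ((hι q).symm.trans (hq ▸ e)) : q.1 = p.1)]
        simp only [w, Pi.add_apply, Function.extend_apply' _ _ _ this]
    have k1 := k u u' hu hu'
    have k2 := k u' u hu' hu
    simp only [w, Pi.add_apply, inj.extend_apply] at k1 k2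
    revert k1 k2
    generalize z (ι p) = a; generalize u p = b; generalize u' p = c
    revert a b c; decide
  · rw [Nat.card_fun, Nat.card_coe_set_eq]; simp

theorem pool_av {S : AddSubgroup E} {pool : Lab I Pl} {ψ : AddChar (I → E) ℂ} {l : ℕ}
    (hl : l < Nat.card Pl) (h : (badP S pool ψ).ncard ≤ l) : 1 ≤ (1 - (l : ℝ) / Nat.card Pl)⁻¹ *
      av fun p => ind (∀ h, ψ (sft {i | pool i = some p} S h) = 1) := by
  have : Nonempty Pl := (Nat.card_pos_iff.1 (by omega)).1
  have c := card_pos' (α := Pl)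
  rw [le_inv_mul_iff₀ (sub_pos.2 ((div_lt_one c).2 (by exact_mod_cast hl))), mul_one]
  refine le_trans ?_ (av_mono (f := fun p => 1 - ind (p ∈ badP S pool ψ)) fun p => ?_)
  · rw [av_sub, av_const, av_def]
    have : (sm fun p => ind (p ∈ badP S pool ψ)) = _ := cnt_eq_ncard (badP S pool ψ)
    rw [this]
    gcongr
  · rw [← ind_not]
    exact ind_mono fun hp => triv_sft fun i hi => ⟨p, hp, hi⟩

theorem inv_nonneg' {l : ℕ} (hl : l < Nat.card Pl) : 0 ≤ (1 - (l : ℝ) / Nat.card Pl)⁻¹ :=
  inv_nonneg.2 (sub_nonneg.2 (div_le_one_of_le₀ (by exact_mod_cast hl.le) (Nat.cast_nonneg _)))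

theorem n2_azS (S : AddSubgroup E) (pool : Lab I Pl) (z : I → Bool) (g : (I → E) → ℂ) :
    n2 (prS (azS S pool z) g) = sm fun ψ : AddChar (I → E) ℂ =>
      ind (∀ h, ψ (azS S pool z h) = 1) * ‖fc g ψ‖ ^ 2 := n2_prS_fc (ad_azS S pool z) g

theorem n2_sft (J : Set I) (S : AddSubgroup E) (g : (I → E) → ℂ) :
    n2 (prS (sft J S) g) = sm fun ψ : AddChar (I → E) ℂ =>
      ind (∀ h, ψ (sft J S h) = 1) * ‖fc g ψ‖ ^ 2 := n2_prS_fc (ad_sft J S) g

theorem free1 (S : AddSubgroup E) (pool : Lab I Pl) (g : (I → E) → ℂ) (l : ℕ) :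
    av (fun z => n2 (prS (azS S pool z) g)) ≤ (1 / 2) ^ l * n2 g +
      sm fun T : Set Pl => ind (T.ncard ≤ l) *
        n2 (prS (sft {i | ∃ p, p ∉ T ∧ pool i = some p} S) g) := by
  simp only [n2_azS, n2_sft, parseval g, av_sm_comm, av_mul_right,
    ← sm_mul_left]
  rw [sm_comm, ← sm_add]
  refine sm_mono fun ψ => ?_
  simp only [← mul_assoc, sm_mul_right, ← add_mul]
  refine mul_le_mul_of_nonneg_right ?_ (sq_nonneg _)
  have p (T : Set Pl) := mul_nonneg (ind_nonneg (T.ncard ≤ l))
    (ind_nonneg (∀ h, ψ (sft {i | ∃ p, p ∉ T ∧ pool i = some p} S h) = 1))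
  rcases le_total l (badP S pool ψ).ncard with h | h
  · exact ((flip_le ..).trans (pow_le_pow_of_le_one (by norm_num) (by norm_num) h)).trans
      (le_add_of_nonneg_right (sm_nonneg p))
  · refine (av_ind_le_one _).trans (le_add_of_nonneg_of_le (by positivity)
      (le_trans ?_ (single_le_sm p (badP S pool ψ))))
    rw [ind_pos h, one_mul]
    exact (ind_pos (triv_sft fun i hi => hi)).ge

theorem free2 (S : AddSubgroup E) (pool : Lab I Pl) (g : (I → E) → ℂ) {l : ℕ}
    (hl : l < Nat.card Pl) :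
    av (fun z => n2 (prS (azS S pool z) g)) ≤ (1 / 2) ^ l * n2 g +
      (1 - (l : ℝ) / Nat.card Pl)⁻¹ * av fun p => n2 (prS (sft {i | pool i = some p} S) g) := by
  simp only [n2_azS, n2_sft, parseval g, av_sm_comm, av_mul_right,
    ← sm_mul_left, ← sm_add]
  refine sm_mono fun ψ => ?_
  rw [← mul_assoc, ← add_mul]
  refine mul_le_mul_of_nonneg_right ?_ (sq_nonneg _)
  rcases le_total l (badP S pool ψ).ncard with h | h
  · exact ((flip_le ..).trans (pow_le_pow_of_le_one (by norm_num) (by norm_num) h)).trans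
      (le_add_of_nonneg_right (mul_nonneg (inv_nonneg' hl) (av_ind_nonneg _)))
  · exact (av_ind_le_one _).trans (le_add_of_nonneg_of_le (by positivity) (pool_av hl h))

theorem char_gap (E : Type) [AddCommGroup E] [Finite E] : ∃ ρ : ℝ, 0 ≤ ρ ∧ ρ < 1 ∧
    ∀ (χ : AddChar E ℂ) (e : E), χ e ≠ 1 → ‖(χ e + 1) / 2‖ ^ 2 ≤ ρ := by
  obtain ⟨x, hx⟩ := Finite.exists_max fun x : AddChar E ℂ × E =>
    ind (x.1 x.2 ≠ 1) * ‖(x.1 x.2 + 1) / 2‖ ^ 2
  refine ⟨_, mul_nonneg (ind_nonneg _) (sq_nonneg _), ?_, fun χ e h => le_trans ?_ (hx (χ, e))⟩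
  swap
  · rw [ind_pos h, one_mul]
  by_cases h : x.1 x.2 = 1
  · simp [ind, h]
  · have h1 := parallelogram_law_with_norm ℂ (x.1 x.2) 1
    have h2 := norm_pos_iff.2 (sub_ne_zero.2 h)
    rw [x.1.norm_apply, norm_one] at h1
    rw [ind_pos h, one_mul, norm_div, Complex.norm_two]
    nlinarith

theorem free3 (E : Type) [AddCommGroup E] [Finite E] : ∃ ρ : ℝ, 0 ≤ ρ ∧ ρ < 1 ∧
    ∀ (I Pl : Type) [Finite I] [Finite Pl] (pool : Lab I Pl) (h0 : E) (g : (I → E) → ℂ) (l : ℕ),
      l < Nat.card Pl →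
      n2 (prS (fun (z : I → Bool) i => if z i ∧ (pool i).isSome then h0 else 0) g) ≤
        ρ ^ l * n2 g + (1 - (l : ℝ) / Nat.card Pl)⁻¹ *
          av fun p => n2 (prS (sft {i | pool i = some p} (AddSubgroup.zmultiples h0)) g) := by
  obtain ⟨ρ, h0, h1, hρ⟩ := char_gap E
  refine ⟨ρ, h0, h1, fun I Pl _ _ pool e g l hl => ?_⟩
  classical
  let _ := Fintype.ofFinite I
  simp only [parseval (prS (fun (z : I → Bool) i => if z i ∧ (pool i).isSome then e else 0) g),
    fc_prS, n2_sft, parseval g, av_sm_comm, av_mul_right, ← sm_mul_left, ← sm_add,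
    norm_mul, mul_pow]
  refine sm_mono fun ψ => ?_
  rw [← mul_assoc, ← add_mul]
  refine mul_le_mul_of_nonneg_right ?_ (sq_nonneg _)
  rcases le_total l (badP (AddSubgroup.zmultiples e) pool ψ).ncard with h | h
  swap
  · exact (pow_le_one₀ (norm_nonneg _) (norm_cav_le_const zero_le_one fun _ =>
      (ψ.norm_apply _).le)).trans (le_add_of_nonneg_of_le (by positivity) (pool_av hl h))
  refine le_add_of_le_of_nonneg ?_ (mul_nonneg (inv_nonneg' hl) (av_ind_nonneg _))
  let B : Finset I := Finset.univ.filter fun i => (pool i).isSome ∧ ψ (Pi.single i e) ≠ 1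
  have hB : l ≤ B.card := by
    refine h.trans ((Set.ncard_le_ncard (t := (fun i => (pool i).getD ?_) '' (B : Set I)) ?_).trans
      ((Set.ncard_image_le).trans_eq (Set.ncard_coe_finset B)))
    · exact (Nat.card_pos_iff.1 (by omega : 0 < Nat.card Pl)).1.some
    · rintro p ⟨i, hi, _, ⟨n, rfl⟩, hn⟩
      refine ⟨i, Finset.mem_filter.2 ⟨Finset.mem_univ _, by simp [hi], fun k => hn ?_⟩, by simp [hi]⟩
      have : ψ (Pi.single i (n • e)) = ψ (Pi.single i e) ^ n := by
        rw [Pi.single_smul, ψ.map_zsmul_eq_zpow]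
      convert this.trans (by rw [k, one_zpow])
  rw [cav_congr fun _ => char_pi ψ _, ← prod_cav fun i (b : Bool) => ψ (Pi.single i (if b ∧ (pool i).isSome then e else 0)),
    norm_prod, ← Finset.prod_pow]
  refine (Finset.prod_le_prod (g := fun i => if i ∈ B then ρ else 1) (fun _ _ => sq_nonneg _)
    fun i _ => ?_).trans ?_
  · split_ifs with k
    · have k := (Finset.mem_filter.1 k).2
      simpa [cav_eq, k.1] using hρ (ψ.compAddMonoidHom (AddMonoidHom.single (fun _ => E) i)) e k.2
    · exact pow_le_one₀ (norm_nonneg _) (norm_cav_le_const zero_le_one fun _ => (ψ.norm_apply _).le)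
  · rw [Finset.prod_ite_mem, Finset.univ_inter, Finset.prod_const]
    exact pow_le_pow_of_le_one h0 h1.le hB

end NE
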