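import Pool.Agent.Lib.MP_ecee09_co.NE.PRa

/-! The structured case with a nondegenerate subgroup. -/

namespace NE

open SD
open ComplexConjugate

variable {E I K : Type} [AddCommGroup E] {τ : QT E} {S T : AddSubgroup E}
  [Finite E] [Finite I] [Finite K]

lemma Spl.sm_ctr_le (h : Spl τ S T) (hτ : τ.ND) (c : (I → E) → ℂ) (d : (I → T) → ℂ) :
    (sm fun w => ‖ctr S c d w‖ ^ 2) ≤ (sm fun v => ‖d v‖ ^ 2) * n2 (fld τ c) := by
  rw [← n2_fld (h.nd hτ)]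
  simpa only [n2, mul_one, pow_one] using h.ctr_pow hτ c d 1

/-- a large box gives a unit vector with a large contraction -/
lemma Spl.row (h : Spl τ S T) (hτ : τ.ND) (c : (I → E) → ℂ) {η M : ℝ} (hη : 0 < η) (hM : 0 < M)
    (hn : n2 (fld τ c) ≤ M) (hb : η ≤ box (fld τ c) S T) :
    ∃ d : (I → T) → ℂ, (sm fun v => ‖d v‖ ^ 2) = 1 ∧ η / (2 * M) ≤ sm fun w => ‖ctr S c d w‖ ^ 2 := by
  let d : OmE S I → (I → T) → ℂ := fun x v => fld (τ.sub S) (fun w => c (mrg w v)) x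
  have h1 : (av fun x => sm fun v => ‖d x v‖ ^ 2) = n2 (fld τ c) := by
    rw [n2, h.av_om]
    refine av_congr fun x => ?_
    rw [← av_fld_sq (h.symm.nd hτ) _ x.2]
    simp only [h.fld_mg]; rfl
  have h2 : (av fun x => sm fun w => ‖ctr S c (d x) w‖ ^ 2) = box (fld τ c) S T := by
    rw [box, av_prod, av_comm]
    refine av_congr fun P => ?_
    rw [h.xb2_eq]
    refine av_congr fun a' => ?_
    rw [← av_fld_sq (h.nd hτ) _ P]
    refine av_congr fun a => ?_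
    rw [h.fld_ctr hτ]
    simp only [h.fld_mg c a']; rfl
  obtain ⟨x, hx⟩ := exists_av_le fun x => (sm fun w => ‖ctr S c (d x) w‖ ^ 2) -
    η / (2 * M) * sm fun v => ‖d x v‖ ^ 2
  rw [av_sub, av_mul_left, h1, h2] at hx
  have hl : 0 < η / (2 * M) := by positivity
  have e : η / (2 * M) * M = η / 2 := by field_simp
  have h3 := mul_le_mul_of_nonneg_left hn hl.le
  have h4 := h.sm_ctr_le hτ c (d x)
  set n := sm fun v => ‖d x v‖ ^ 2 with hn'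
  set N := sm fun w => ‖ctr S c (d x) w‖ ^ 2 with hN
  have n0 : 0 ≤ n := sm_nonneg fun _ => by positivity
  have n1 : 0 < n := n0.lt_of_ne fun e0 => by
    rw [← e0] at hx h4; linarith
  have hs : ‖(((√n)⁻¹ : ℝ) : ℂ)‖ ^ 2 = n⁻¹ := by
    rw [Complex.norm_real, Real.norm_eq_abs, sq_abs, inv_pow, Real.sq_sqrt n0]
  refine ⟨fun v => (((√n)⁻¹ : ℝ) : ℂ) * d x v, ?_, ?_⟩
  · simp only [norm_mul, mul_pow, hs]
    rw [sm_mul_left, inv_mul_cancel₀ n1.ne']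
  · have e1 : ∀ w, ctr S c (fun v => (((√n)⁻¹ : ℝ) : ℂ) * d x v) w =
        (((√n)⁻¹ : ℝ) : ℂ) * ctr S c (d x) w := fun w => by
      rw [ctr, ctr, ← csm_mul_left]
      exact csm_congr fun v => by rw [map_mul, Complex.conj_ofReal]; ring
    simp only [e1, norm_mul, mul_pow, hs]
    rw [sm_mul_left, ← hN, le_inv_mul_iff₀ n1]
    linarith

lemma ctr_ctr (c : (I → E) → ℂ) (d : (I → T) → ℂ) (hd : (sm fun v => ‖d v‖ ^ 2) = 1) :
    (sm fun w => ‖ctr S c d w‖ ^ 2) ^ 2 ≤ sm fun v => ‖ctr T c (ctr S c d) v‖ ^ 2 := by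
  have h1 := norm_csm_cs (ctr T c (ctr S c d)) fun v => conj (d v)
  have h2 : (csm fun v => ctr T c (ctr S c d) v * conj (d v)) =
      ((sm fun w => ‖ctr S c d w‖ ^ 2 : ℝ) : ℂ) := by
    rw [← csm_ofReal]
    simp only [ctr.eq_1 T, ← csm_mul_right]
    rw [csm_comm]
    refine csm_congr fun w => ?_
    rw [← mul_conj'']
    conv_rhs => rw [ctr.eq_1 S c d w]
    rw [← csm_mul_right]
    exact csm_congr fun v => by rw [mrg_comm v w, ← ctr]; ring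
  simp only [h2, Complex.norm_conj, hd, mul_one, Complex.norm_real, Real.norm_eq_abs, sq_abs] at h1
  exact h1

lemma Spl.ip_tp (h : Spl τ S T) (hτ : τ.ND) (c : (I → E) → ℂ) (f : (I → S) → ℂ) :
    (ip (fld τ c) (fld τ (h.tp f (ctr T c f)))).re = sm fun v => ‖ctr T c f v‖ ^ 2 := by
  rw [ip_fld, cf_fld hτ, h.csm_mg, csm_comm, ← Complex.ofReal_re (sm _), ← csm_ofReal]
  refine congrArg _ (csm_congr fun v => ?_)
  rw [← mul_conj'']
  conv_rhs => rw [ctr.eq_1 T c f v]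
  rw [← csm_mul_right]
  exact csm_congr fun w => by rw [h.tp_mg, mrg_comm v w, map_mul, ← ctr]; ring

lemma Spl.res_tp (h : Spl τ S T) (f : (I → S) → ℂ) (g : (I → T) → ℂ) (x : OmE S I) (b : I → T)
    (Φ : Lab I K) : res (fld τ (h.tp f g)) (mrg x.1 b, x.2) Φ =
      fld τ (h.tp (rc (τ.sub S) f x Φ) (rc (τ.sub T) g (b, x.2) Φ)) := by
  funext y
  obtain ⟨p, hp⟩ := (h.e K).surjective y.1
  have hy : y = (mrg p.1 p.2, y.2) := Prod.ext hp.symm rfl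
  rw [hy, h.fld_tp, ← res_fld, ← res_fld, res, cell_mg, h.fld_tp]; rfl

/-- the gain on one cell -/
lemma Spl.cell_gain (h : Spl τ S T) (hτ : τ.ND) (u : OmE E K → ℂ) (f : (K → S) → ℂ)
    (g : (K → T) → ℂ) {δ : ℝ} (hδ : 0 < δ) :
    2 * δ * (ip u (fld τ (h.tp f g))).re - (δ ^ 2 / 2 * (av fun y => ‖u y‖ ^ 4) +
      δ ^ 2 / 2 * (av fun y => ‖fld (τ.sub S) f y‖ ^ 4) + En (τ.sub S) (fld (τ.sub S) f) +
      δ ^ 2 * av fun y => ‖fld (τ.sub T) g y‖ ^ 4) ≤ ng τ u := by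
  have hS := h.nd hτ
  have hT := h.symm.nd hτ
  let f0 : (K → S) → ℂ := fun w => (ind (¬ Gen w) : ℝ) * f w
  let f1 : (K → S) → ℂ := fun w => (ind (Gen w) : ℝ) * f w
  have h1 := ng_ge τ u (fun w => (δ : ℂ) * h.tp f0 g w) fun w hw => by
    rw [h.tp_gen (fun a ha => by simp [f0, ind_neg (not_not.2 ha)]) g w hw, mul_zero]
  have e0 : (fld τ fun w => (δ : ℂ) * h.tp f0 g w) =
      fun y => (δ : ℂ) * (fld τ (h.tp f g) y - fld τ (h.tp f1 g) y) := by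
    funext y
    rw [fld_mul_left, ← fld_sub]
    congr 2; funext w
    simp only [Spl.tp, f0, f1, ind_not]; push_cast; ring
  rw [e0, ip_mul_right, ip_sub_right, Complex.conj_ofReal, Complex.re_ofReal_mul,
    Complex.sub_re] at h1
  simp only [norm_mul, mul_pow, Complex.norm_real, Real.norm_eq_abs, sq_abs] at h1
  rw [sm_mul_left, h.sm_tp] at h1
  have h2 : (sm fun a => ‖f0 a‖ ^ 2) ≤ n2 (fld (τ.sub S) f) := by
    rw [sm_ind_sq, ← ng_fld hS, ← fen_fld hS]; exact ng_le_fen _ _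
  have h3 : n2 (fld (τ.sub S) f) ^ 2 ≤ av fun y => ‖fld (τ.sub S) f y‖ ^ 4 := by
    exact (av_sq_le _).trans (le_of_eq (av_congr fun y => by ring))
  have h4 : (sm fun b => ‖g b‖ ^ 2) ^ 2 ≤ av fun y => ‖fld (τ.sub T) g y‖ ^ 4 := by
    rw [← n2_fld hT]
    exact (av_sq_le _).trans (le_of_eq (av_congr fun y => by ring))
  have h5 : 2 * δ * (ip u (fld τ (h.tp f1 g))).re ≤ δ ^ 2 / 2 * (av fun y => ‖u y‖ ^ 4) +
      En (τ.sub S) (fld (τ.sub S) f) + δ ^ 2 / 2 * av fun y => ‖fld (τ.sub T) g y‖ ^ 4 := by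
    have a1 : En (τ.sub S) (fld (τ.sub S) f) =
        av fun x : OmE S K => av fun _ : K → T => ‖fld (τ.sub S) f1 x‖ ^ 2 := by
      simp only [av_const]
      rw [En_fld hS, ← sm_ind_sq, ← n2_fld hS]; rfl
    have a2 : (av fun y => ‖fld (τ.sub T) g y‖ ^ 4) =
        av fun x : OmE S K => av fun b : K → T => ‖fld (τ.sub T) g (b, x.2)‖ ^ 4 := by
      rw [av_prod, av_prod, av_comm]
      exact (av_const _).symm
    rw [a1, a2, h.av_om, ip, cav_re, h.av_om]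
    simp only [← av_mul_left, ← av_add]
    refine av_mono fun x => av_mono fun b => ?_
    have b1 := Complex.re_le_norm (u (mrg x.1 b, x.2) * conj (fld τ (h.tp f1 g) (mrg x.1 b, x.2)))
    rw [norm_mul, Complex.norm_conj, h.fld_tp, norm_mul] at b1
    rw [h.fld_tp]
    set p := ‖u (mrg x.1 b, x.2)‖
    set q := ‖fld (τ.sub S) f1 (x.1, x.2)‖
    set r := ‖fld (τ.sub T) g (b, x.2)‖
    have b2 := mul_le_mul_of_nonneg_left b1 (by positivity : 0 ≤ 2 * δ)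
    nlinarith [sq_nonneg (δ * (p * r) - q), mul_nonneg (sq_nonneg δ) (sq_nonneg (p ^ 2 - r ^ 2))]
  have h6 : 0 ≤ sm fun b => ‖g b‖ ^ 2 := sm_nonneg fun _ => by positivity
  have h7 := mul_le_mul_of_nonneg_right h2 h6
  have h8 : (sm fun a => ‖f0 a‖ ^ 2) * (sm fun b => ‖g b‖ ^ 2) ≤
      ((av fun y => ‖fld (τ.sub S) f y‖ ^ 4) + av fun y => ‖fld (τ.sub T) g y‖ ^ 4) / 2 := by
    nlinarith [sq_nonneg (n2 (fld (τ.sub S) f) - sm fun b => ‖g b‖ ^ 2)]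
  have h9 := mul_le_mul_of_nonneg_left h8 (sq_nonneg δ)
  linarith

lemma marg_other {E' : Type} [AddCommGroup E'] [Finite E'] (A : GFam E I K)
    (g : OmE E' I → ℝ) :
    (A.E fun x Φ => av fun b : I → E' => av fun y : OmE E' K => g (cell (b, x.2) Φ y)) = av g := by
  obtain ⟨A', hA, -⟩ := A.forget
  simp only [Fam.fc_shift]
  rw [av_prod g, av_comm, ← A'.marg, hA]

/-- the gain along the lifted family -/
lemma Spl.gain (h : Spl τ S T) (hτ : τ.ND) (c : (I → E) → ℂ) (f : (I → S) → ℂ)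
    (A : GFam S I K) {δ : ℝ} (hδ : 0 < δ) : ∃ A' : GFam E I K, A'.junk = A.junk ∧
    2 * δ * (sm fun v => ‖ctr T c f v‖ ^ 2) - (δ ^ 2 / 2 * (av fun y => ‖fld τ c y‖ ^ 4) +
      δ ^ 2 / 2 * (av fun y => ‖fld (τ.sub S) f y‖ ^ 4) +
      (A.E fun x Φ => En (τ.sub S) (res (fld (τ.sub S) f) x Φ)) +
      δ ^ 2 * av fun y => ‖fld (τ.sub T) (ctr T c f) y‖ ^ 4) ≤
      A'.E fun x Φ => ng τ (res (fld τ c) x Φ) := by
  obtain ⟨A', hA, hj⟩ := h.lift A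
  refine ⟨A', hj, ?_⟩
  have h1 := congrArg Complex.re (A'.res_ip (fld τ c) (fld τ (h.tp f (ctr T c f))))
  rw [h.ip_tp hτ, Fam.cE_re, hA] at h1
  have h2 := A'.marg fun y => ‖fld τ c y‖ ^ 4
  rw [hA] at h2
  rw [← h1, ← h2, ← A.marg fun y => ‖fld (τ.sub S) f y‖ ^ 4,
    ← marg_other A fun y => ‖fld (τ.sub T) (ctr T c f) y‖ ^ 4, hA]
  simp only [← A.smul, ← A.add, ← A.sub]
  refine A.mono fun x Φ => ?_
  refine le_trans (le_of_eq ?_) (av_mono fun b => h.cell_gain hτ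
    (res (fld τ c) (mrg x.1 b, x.2) Φ) (rc (τ.sub S) f x Φ)
    (rc (τ.sub T) (ctr T c f) (b, x.2) Φ) hδ)
  simp only [av_sub, av_add, av_mul_left, av_const, h.res_tp, ← res_fld]
  rfl

theorem pr_of (hτ : τ.ND)
    (ih : ∀ S : AddSubgroup E, S ≠ ⊤ → (τ.sub S).ND → Nontrivial S → FULL (τ.sub S)) : PR τ := by
  intro D ηS hηS
  obtain ⟨M, hM⟩ : ∃ M, M = |D 2| + 1 := ⟨_, rfl⟩
  have M0 : 0 < M := by rw [hM]; positivity
  obtain ⟨l, hl⟩ : ∃ l, l = ηS / (2 * M) := ⟨_, rfl⟩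
  have l0 : 0 < l := by rw [hl]; positivity
  obtain ⟨B, hB⟩ : ∃ B, B = |D 4| * (1 + M ^ 2) + 1 := ⟨_, rfl⟩
  have B0 : 0 < B := by rw [hB]; positivity
  obtain ⟨δ, hδ⟩ : ∃ δ, δ = l ^ 2 / (2 * B) := ⟨_, rfl⟩
  have δ0 : 0 < δ := by rw [hδ]; positivity
  have eδ : δ * B = l ^ 2 / 2 := by rw [hδ]; field_simp
  refine ⟨δ * l ^ 2, by positivity, fun K _ η hη => ?_⟩
  have hη' : 0 < min η (δ * l ^ 2 / 2) := lt_min hη (by positivity)
  have key : ∀ S : AddSubgroup E, ∃ n0 : ℕ, S ≠ ⊥ → S ≠ ⊤ → S ⊓ τ.perp S = ⊥ →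
      ∀ (I : Type) [Finite I], n0 ≤ Nat.card I → ∀ c : (I → S) → ℂ,
        CT (fun p => 1 + D (2 * p)) (fld (τ.sub S) c) → ∃ A : GFam S I K,
          A.junk ≤ min η (δ * l ^ 2 / 2) ∧ (A.E fun x Φ =>
            En (τ.sub S) (res (fld (τ.sub S) c) x Φ)) ≤ min η (δ * l ^ 2 / 2) := fun S => by
    by_cases hS : S ≠ ⊥ ∧ S ≠ ⊤ ∧ S ⊓ τ.perp S = ⊥
    · obtain ⟨n0, h0⟩ := ih S hS.2.1 ((spl_perp hτ hS.2.2).nd hτ)
        ((AddSubgroup.nontrivial_iff_ne_bot S).2 hS.1) (fun p => 1 + D (2 * p)) K _ hη'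
      exact ⟨n0, fun _ _ _ => h0⟩
    · exact ⟨0, fun h1 h2 h3 => absurd ⟨h1, h2, h3⟩ hS⟩
  choose n hn using key
  let _ := Fintype.ofFinite (AddSubgroup E)
  refine ⟨Finset.univ.sup n, fun I _ hI c hc S h1 h2 h3 hb => ?_⟩
  have h := spl_perp hτ h3
  have hc' := ct_iff.1 hc
  have a2 : n2 (fld τ c) ≤ M := (hc' 2).trans (by rw [hM]; linarith [le_abs_self (D 2)])
  obtain ⟨d, d1, d2⟩ := h.row hτ c hηS M0 a2 hb
  rw [← hl] at d2
  have p1 := h.ctr_pow hτ c d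
  simp only [d1, one_pow, one_mul] at p1
  obtain ⟨A, j1, j2⟩ := hn S h1 h2 h3 I ((Finset.le_sup (Finset.mem_univ S)).trans hI) (ctr S c d)
    (ct_iff.2 fun p => by
      refine le_trans ?_ (add_le_add_right ((p1 p).trans (hc' _)) 1)
      rw [← av_const (α := OmE S I) 1, ← av_add]
      refine av_mono fun x => ?_
      rw [pow_mul']
      nlinarith [sq_nonneg (‖fld (τ.sub S) (ctr S c d) x‖ ^ p - 1),
        sq_nonneg (‖fld (τ.sub S) (ctr S c d) x‖ ^ p)])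
  obtain ⟨A', j3, j4⟩ := h.gain hτ c (ctr S c d) A δ0
  refine ⟨A', j3.trans_le (j1.trans (min_le_left _ _)), le_trans ?_ j4⟩
  have q1 := (pow_le_pow_left₀ l0.le d2 2).trans (ctr_ctr c d d1)
  have q2 := h.sm_ctr_le hτ c d
  rw [d1, one_mul] at q2
  have q3 := h.symm.ctr_pow hτ c (ctr S c d) 2
  have q4 : (av fun x => ‖fld τ c x‖ ^ 4) ≤ |D 4| := (hc' 4).trans (le_abs_self _)
  have q5 := q3.trans (mul_le_mul (pow_le_pow_left₀ (sm_nonneg fun _ => by positivity)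
    (q2.trans a2) 2) q4 (av_nonneg fun _ => by positivity) (by positivity))
  have q6 := (p1 2).trans q4
  have q7 := j2.trans (min_le_right _ _)
  have q8 : (av fun x => ‖fld τ c x‖ ^ 4) / 2 + (av fun x => ‖fld (τ.sub S) (ctr S c d) x‖ ^ 4) / 2 +
      (av fun x => ‖fld (τ.sub (τ.perp S)) (ctr (τ.perp S) c (ctr S c d)) x‖ ^ 4) ≤ B := by
    rw [hB]; linarith
  have q9 := mul_le_mul_of_nonneg_left q8 (sq_nonneg δ)
  have q10 := mul_le_mul_of_nonneg_left q1 δ0.le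
  have q11 : δ ^ 2 * B = δ * l ^ 2 / 2 := by rw [sq, mul_assoc, eδ]; ring
  linarith

end NE
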