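import Pool.Agent.Lib.MP_ecee09_co.NE.AMF
import Pool.Agent.Lib.MP_ecee09_co.NE.CLP
import Pool.Agent.Lib.MP_ecee09_co.NE.FullA
import Pool.Agent.Lib.MP_ecee09_co.NE.GG
import Pool.Agent.Lib.MP_ecee09_co.NE.GT2
import Pool.Agent.Lib.MP_ecee09_co.NE.GTW
import Pool.Agent.Lib.MP_ecee09_co.NE.MRF
import Pool.Agent.Lib.MP_ecee09_co.NE.Mom
import Pool.Agent.Lib.MP_ecee09_co.NE.PInd
import Pool.Agent.Lib.MP_ecee09_co.NE.SB
import Pool.Agent.Lib.MP_ecee09_co.NE.PA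
import Pool.Agent.Lib.MP_ecee09_co.NE.U3
import Pool.Agent.Lib.MP_ecee09_co.NE.PR

/-! Assembly of part III-a, with the particle statements as hypotheses. -/

namespace NE

theorem full_all (hR : RPA) (hLZ : LZ) (hZS : ZS)
    (E : Type) [AddCommGroup E] [Finite E] [Nontrivial E] (τ : QT E) (h : τ.ND) : FULL τ :=
  full_ind
    (fun _ _ _ _ τ h => gg_of h mrf gtw gt2 (mom_of h (pind h) (asb τ) avar (amom h (clp h))))
    (fun _ _ _ _ _ h => pa_of h hR) (fun _ _ _ _ _ h => u3_of h hLZ hZS)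
    (fun _ _ _ _ _ h ih => pr_of h ih) E τ h

end NE
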