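import Pool.Agent.Lib.MP_ecee09_co.NE.GDefs

/-! Basic lemmas on joint kernel projections, the algebras `Alg` and the events `Q`. -/

namespace NE

open ComplexConjugate Filter Topology
open scoped InnerProductSpace

section kp
variable {H : Type} [NormedAddCommGroup H] [InnerProductSpace ℂ H] [CompleteSpace H]

theorem kp_proj (N : Set (H →L[ℂ] H)) : IsStarProjection (kp N) :=
  isStarProjection_starProjection

theorem kp_apply_eq_iff (N : Set (H →L[ℂ] H)) (h : H) : kp N h = h ↔ ∀ n ∈ N, n h = 0 :=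
  Submodule.starProjection_eq_self_iff

theorem kp_apply_mem (N : Set (H →L[ℂ] H)) (h : H) : kp N h ∈ jk N :=
  Submodule.starProjection_apply_mem _ h

theorem mul_kp {N : Set (H →L[ℂ] H)} {n : H →L[ℂ] H} (hn : n ∈ N) : n * kp N = 0 := by
  ext h
  exact kp_apply_mem N h n hn

/-- if every member kills the range of `Y`, the projection fixes it -/
theorem kp_mul_eq {N : Set (H →L[ℂ] H)} {Y : H →L[ℂ] H} (h : ∀ n ∈ N, n * Y = 0) :
    kp N * Y = Y := by
  ext u
  exact (kp_apply_eq_iff N (Y u)).2 fun n hn => congrArg (fun T : H →L[ℂ] H => T u) (h n hn)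

theorem kp_mul_kp {N N' : Set (H →L[ℂ] H)} (h : N ⊆ N') : kp N * kp N' = kp N' :=
  kp_mul_eq fun _ hn => mul_kp (h hn)

theorem inner_star_right (W : H →L[ℂ] H) (u w : H) : ⟪u, star W w⟫_ℂ = ⟪W u, w⟫_ℂ :=
  ContinuousLinearMap.adjoint_inner_right W u w

theorem inner_star_left (W : H →L[ℂ] H) (u w : H) : ⟪star W u, w⟫_ℂ = ⟪u, W w⟫_ℂ :=
  ContinuousLinearMap.adjoint_inner_left W w u

/-- intertwining -/
theorem kp_inter {ι : Type} (n n' : ι → H →L[ℂ] H) (W : H →L[ℂ] H)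
    (h1 : ∀ i, n' i * W = W * n i) (h2 : ∀ i, n i * star W = star W * n' i) :
    kp (Set.range n') * W = W * kp (Set.range n) := by
  ext h
  refine Submodule.eq_starProjection_of_mem_of_inner_eq_zero (K := jk (Set.range n'))
    (u := W h) (v := W (kp (Set.range n) h)) ?_ fun w hw => ?_
  · rintro _ ⟨i, rfl⟩
    have e : n' i (W (kp (Set.range n) h)) = W (n i (kp (Set.range n) h)) :=
      congrArg (fun T : H →L[ℂ] H => T (kp (Set.range n) h)) (h1 i)
    rw [e, kp_apply_mem _ h (n i) (Set.mem_range_self i), map_zero]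
  · rw [← map_sub, ← inner_star_right]
    refine Submodule.starProjection_inner_eq_zero (K := jk (Set.range n)) h _ ?_
    rintro _ ⟨i, rfl⟩
    have e : n i (star W w) = star W (n' i w) := congrArg (fun T : H →L[ℂ] H => T w) (h2 i)
    rw [e, hw _ ⟨i, rfl⟩, map_zero]

theorem proj_inner {p : H →L[ℂ] H} (hp : IsStarProjection p) (h h' : H) :
    ⟪h, p h'⟫_ℂ = ⟪p h, p h'⟫_ℂ := by
  rw [← inner_star_right p h (p h'), hp.isSelfAdjoint.star_eq]
  congr 1
  exact (congrArg (fun T : H →L[ℂ] H => T h') hp.isIdempotentElem.eq).symm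

theorem proj_inner_self {p : H →L[ℂ] H} (hp : IsStarProjection p) (h : H) :
    ⟪h, p h⟫_ℂ = ((‖p h‖ ^ 2 : ℝ) : ℂ) := by
  rw [proj_inner hp, inner_self_eq_norm_sq_to_K]
  simp

theorem proj_norm_le {p : H →L[ℂ] H} (hp : IsStarProjection p) (h : H) : ‖p h‖ ≤ ‖h‖ := by
  have h1 : ‖p h‖ ^ 2 ≤ ‖h‖ * ‖p h‖ := by
    have := norm_inner_le_norm (𝕜 := ℂ) h (p h)
    rwa [proj_inner_self hp, Complex.norm_real, Real.norm_of_nonneg (by positivity)] at this
  by_contra hc
  push Not at hc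
  nlinarith [norm_nonneg h, norm_nonneg (p h)]

/-- approximation by finite subfamilies -/
theorem kp_finite (N : Set (H →L[ℂ] H)) (h : H) {δ : ℝ} (hδ : 0 < δ) :
    ∃ N' ⊆ N, N'.Finite ∧ ‖kp N' h - kp N h‖ ≤ δ := by
  classical
  let U : Finset N → Submodule ℂ H := fun s => (jk (Subtype.val '' (s : Set N)))ᗮ
  have hU : Monotone U := fun s t hst =>
    Submodule.orthogonal_le fun w hw n hn => hw n (Set.image_mono (by exact_mod_cast hst) hn)
  have hle : (iSup U)ᗮ ≤ jk N := by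
    intro w hw n hn
    have h1 : w ∈ (U {⟨n, hn⟩})ᗮ := Submodule.orthogonal_le (le_iSup U _) hw
    rw [Submodule.orthogonal_orthogonal] at h1
    exact h1 n ⟨⟨n, hn⟩, by simp, rfl⟩
  have hu : h - kp N h ∈ (iSup U).topologicalClosure := by
    rw [← Submodule.orthogonal_orthogonal_eq_closure]
    exact Submodule.orthogonal_le hle (Submodule.sub_starProjection_mem_orthogonal h)
  rw [← SetLike.mem_coe, Submodule.topologicalClosure_coe, Metric.mem_closure_iff] at hu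
  obtain ⟨a, ha, hay⟩ := hu δ hδ
  obtain ⟨s, hs⟩ := (Submodule.mem_iSup_of_directed _ hU.directed_le).1 ha
  have hsub : Subtype.val '' (s : Set N) ⊆ N := by
    rintro _ ⟨x, -, rfl⟩
    exact x.2
  refine ⟨Subtype.val '' (s : Set N), hsub, s.finite_toSet.image _, ?_⟩
  have e1 : kp (Subtype.val '' (s : Set N)) (kp N h) = kp N h :=
    congrArg (fun T : H →L[ℂ] H => T h) (kp_mul_kp hsub)
  have e2 : kp (Subtype.val '' (s : Set N)) a = 0 :=
    Submodule.eq_starProjection_of_mem_orthogonal (Submodule.zero_mem _) (by simpa using hs)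
  have e3 : kp (Subtype.val '' (s : Set N)) h - kp N h =
      kp (Subtype.val '' (s : Set N)) (h - kp N h - a) := by
    rw [map_sub, map_sub, e1, e2, sub_zero]
  rw [e3]
  rw [dist_eq_norm] at hay
  exact (proj_norm_le (kp_proj _) _).trans hay.le

/-- equality in Cauchy-Schwarz -/
theorem eq_of_inner {u w : H} {z : ℂ} (hz : ‖z‖ = 1) (h1 : ‖u‖ ≤ ‖w‖)
    (h2 : ⟪w, u⟫_ℂ = z * ((‖w‖ ^ 2 : ℝ) : ℂ)) : u = z • w := by
  have hzz : conj z * z = 1 := by
    rw [mul_comm, Complex.mul_conj, Complex.normSq_eq_norm_sq, hz]; simp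
  have e : ⟪z • w, u⟫_ℂ = ((‖w‖ ^ 2 : ℝ) : ℂ) := by
    rw [inner_smul_left, h2, ← mul_assoc, hzz, one_mul]
  have h3 := norm_sub_sq (𝕜 := ℂ) (z • w) u
  rw [e, norm_smul, hz, one_mul] at h3
  simp only [RCLike.re_to_complex, Complex.ofReal_re] at h3
  have h4 : ‖z • w - u‖ ^ 2 ≤ 0 := by
    rw [h3]; nlinarith [norm_nonneg u, norm_nonneg w]
  have h5 : ‖z • w - u‖ = 0 := by nlinarith [norm_nonneg (z • w - u)]
  exact (sub_eq_zero.1 (norm_eq_zero.1 h5)).symm

/-- mean ergodic theorem for the averages over `1 .. n + 1` -/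
theorem avs_pow_tendsto {T : H →L[ℂ] H} (hT : ‖T‖ ≤ 1) (h : H) :
    Tendsto (fun n => Sys.avs n (fun t => T ^ t) h) atTop (𝓝 (kp {T - 1} h)) := by
  have h0 := T.tendsto_birkhoffAverage_orthogonalProjection hT h
  have hm : ∀ w, w ∈ T.eqLocus (1 : H →L[ℂ] H) ↔ w ∈ jk {T - 1} := by
    intro w
    change T w = w ↔ ∀ n ∈ ({T - 1} : Set (H →L[ℂ] H)), n w = 0
    simp [sub_eq_zero]
  have e : ((T.eqLocus (1 : H →L[ℂ] H)).orthogonalProjectionOnto h : H) = kp {T - 1} h := by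
    refine Submodule.eq_starProjection_of_mem_of_inner_eq_zero ((hm _).2 (kp_apply_mem _ h))
      fun w hw => ?_
    exact Submodule.starProjection_inner_eq_zero (K := jk {T - 1}) h w ((hm w).1 hw)
  rw [e] at h0
  have h1 := (T.continuous.tendsto _).comp (h0.comp (tendsto_add_atTop_nat 1))
  have e2 : T (kp {T - 1} h) = kp {T - 1} h := (hm _).2 (kp_apply_mem _ h)
  rw [e2] at h1
  refine h1.congr fun n => ?_
  simp only [Function.comp, birkhoffAverage, birkhoffSum, Sys.avs, map_smul, map_sum, id,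
    smul_apply, sum_apply]
  congr 1
  refine Finset.sum_congr rfl fun t _ => ?_
  rw [pow_succ', mul_apply_eq_comp, FunLike.coe_pow_eq_iterate]

theorem avs_norm_le {Y : ℕ → H →L[ℂ] H} {C : ℝ} (h : ∀ t, ‖Y t‖ ≤ C) (n : ℕ) :
    ‖Sys.avs n Y‖ ≤ C := by
  have h1 : ‖∑ t ∈ Finset.range (n + 1), Y (t + 1)‖ ≤ (n + 1 : ℕ) * C := by
    refine (norm_sum_le _ _).trans ?_
    have := Finset.sum_le_card_nsmul (Finset.range (n + 1)) (fun t => ‖Y (t + 1)‖) C
      fun t _ => h _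
    rwa [Finset.card_range, nsmul_eq_mul] at this
  have hp : (0 : ℝ) < (n + 1 : ℕ) := by positivity
  rw [Sys.avs, norm_smul, norm_inv, Complex.norm_natCast, inv_mul_le_iff₀ hp]
  exact h1

/-- atom of a finite family of events -/
noncomputable def atm {ι : Type} (p : ι → H →L[ℂ] H) (ε : ι → Bool) : H →L[ℂ] H :=
  kp (Set.range fun i => if ε i then 1 - p i else p i)

theorem mul_atm {ι : Type} (p : ι → H →L[ℂ] H) (ε : ι → Bool) (i : ι) :
    p i * atm p ε = if ε i then atm p ε else 0 := by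
  have h : (if ε i then 1 - p i else p i) * atm p ε = 0 := mul_kp ⟨i, rfl⟩
  split_ifs at h ⊢
  · rw [sub_mul, one_mul, sub_eq_zero] at h
    exact h.symm
  · exact h

theorem atm_proj {ι : Type} (p : ι → H →L[ℂ] H) (ε : ι → Bool) : IsStarProjection (atm p ε) :=
  kp_proj _

theorem atm_mul {ι : Type} (p : ι → H →L[ℂ] H) (hp : ∀ i, IsStarProjection (p i)) (ε : ι → Bool)
    (i : ι) : atm p ε * p i = if ε i then atm p ε else 0 := by
  have h := congrArg star (mul_atm p ε i)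
  rw [star_mul, (atm_proj p ε).isSelfAdjoint.star_eq, (hp i).isSelfAdjoint.star_eq] at h
  rw [h]
  split_ifs
  · exact (atm_proj p ε).isSelfAdjoint.star_eq
  · exact star_zero _

theorem atm_mul_atm {ι : Type} (p : ι → H →L[ℂ] H) (hp : ∀ i, IsStarProjection (p i))
    {ε ε' : ι → Bool} (h : ε ≠ ε') : atm p ε * atm p ε' = 0 := by
  obtain ⟨i, hi⟩ := Function.ne_iff.1 h
  have h1 := atm_mul p hp ε i
  have h2 := mul_atm p ε' i
  have h3 : atm p ε * p i * atm p ε' = atm p ε * (p i * atm p ε') := mul_assoc _ _ _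
  rw [h1, h2] at h3
  cases he : ε i <;> cases he' : ε' i <;> simp_all

theorem sum_atm {ι : Type} [Fintype ι] [DecidableEq ι] (p : ι → H →L[ℂ] H)
    (hp : ∀ i, IsStarProjection (p i)) (hc : ∀ i j, Commute (p i) (p j)) :
    ∑ ε, atm p ε = 1 := by
  have key : ∀ s : Finset ι, ∀ (ε : ι → Bool) (Y : H →L[ℂ] H),
      (∀ i ∉ s, (if ε i then 1 - p i else p i) * Y = 0) → (∑ ε, atm p ε) * Y = Y := by
    intro s
    induction s using Finset.induction_on with
    | empty =>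
      intro ε Y hY
      have e : atm p ε * Y = Y := kp_mul_eq (by
        rintro _ ⟨i, rfl⟩
        exact hY i (Finset.notMem_empty i))
      rw [Finset.sum_mul, Finset.sum_eq_single ε, e]
      · intro ε' _ hne
        rw [← e, ← mul_assoc, atm_mul_atm p hp hne, zero_mul]
      · intro hn
        exact absurd (Finset.mem_univ _) hn
    | insert a s _ ih =>
      intro ε Y hY
      have hq : ∀ (b : Bool) i, i ∉ s → ∀ r : H →L[ℂ] H, (∀ j, Commute (p j) r) →
          (if b then 1 - p a else p a) * r = 0 →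
          (if Function.update ε a b i then 1 - p i else p i) * (r * Y) = 0 := by
        intro b i hi r hr h0
        by_cases hia : i = a
        · subst hia
          rw [Function.update_self, ← mul_assoc, h0, zero_mul]
        · rw [Function.update_of_ne hia]
          have hcm : Commute (if ε i then 1 - p i else p i) r := by
            split_ifs
            · exact (Commute.one_left r).sub_left (hr i)
            · exact hr i
          rw [← mul_assoc, hcm.eq, mul_assoc, hY i (by simp [hia, hi]), mul_zero]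
      have h1 := ih (Function.update ε a true) (p a * Y) fun i hi =>
        hq true i hi _ (fun j => hc j a) (by simpa using (hp a).one_sub_mul_self)
      have h2 := ih (Function.update ε a false) ((1 - p a) * Y) fun i hi =>
        hq false i hi _ (fun j => (Commute.one_right _).sub_right (hc j a))
          (by simpa using (hp a).mul_one_sub_self)
      have e : Y = p a * Y + (1 - p a) * Y := by rw [← add_mul]; simp
      rw [e, mul_add, h1, h2]
  simpa using key Finset.univ (fun _ => true) 1 fun i hi => absurd (Finset.mem_univ i) hi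

end kp

/-- an injection that fixes `R` and misses `a` -/
theorem exists_fix {R : Set ℕ} (hR : Rᶜ.Infinite) (a : Finset ℕ) (ha : Disjoint (a : Set ℕ) R) :
    ∃ f : ℕ ↪ ℕ, (∀ i ∈ R, f i = i) ∧ ∀ i, f i ∉ a := by
  classical
  have hT : (Rᶜ \ (a : Set ℕ)).Infinite := hR.sdiff a.finite_toSet
  let g := hT.natEmbedding
  refine ⟨⟨fun i => if i ∈ R then i else (g i : ℕ), fun i j hij => ?_⟩, fun i hi => if_pos hi,
    fun i => ?_⟩
  · by_cases hi : i ∈ R <;> by_cases hj : j ∈ R <;> simp only [hi, hj, if_true, if_false] at hij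
    · exact hij
    · exact absurd (hij ▸ hi) (g j).2.1
    · exact absurd (hij ▸ hj) (g i).2.1
    · exact g.injective (Subtype.ext hij)
  · change (if i ∈ R then i else (g i : ℕ)) ∉ a
    split_ifs with hi
    · exact fun h => Set.disjoint_left.1 ha h hi
    · exact (g i).2.2

theorem compl_Aa_infinite (a : Finset ℕ) : (Aa ∪ (a : Set ℕ))ᶜ.Infinite := by
  have h : (Aaᶜ : Set ℕ).Infinite :=
    Set.infinite_of_injective_forall_mem (f := fun n : ℕ => 2 * n + 1)
      (fun i j hij => by simpa using hij) fun n => by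
        simp [Aa]
  rw [Set.compl_union]
  exact h.sdiff a.finite_toSet

theorem Aa_infinite : Aa.Infinite :=
  Set.infinite_of_injective_forall_mem (f := fun n : ℕ => 2 * n)
    (fun i j hij => by simpa using hij) fun n => by simp [Aa]

theorem mem_rect {a b : Finset ℕ} {c : Sym2 ℕ} :
    c ∈ rect a b ↔ ∃ i ∈ a, ∃ j ∈ b, s(i, j) = c := Finset.mem_image₂

theorem rect_comm (a b : Finset ℕ) : rect a b = rect b a := by
  ext c
  simp only [mem_rect]
  constructor <;> rintro ⟨i, hi, j, hj, rfl⟩ <;> exact ⟨j, hj, i, hi, Sym2.eq_swap⟩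

theorem pmap_rect (f : ℕ ↪ ℕ) (a b : Finset ℕ) : pmap f (rect a b) = rect (a.map f) (b.map f) := by
  ext c
  simp only [pmap, Finset.mem_image, mem_rect, Finset.mem_map]
  constructor
  · rintro ⟨_, ⟨i, hi, j, hj, rfl⟩, rfl⟩
    exact ⟨_, ⟨i, hi, rfl⟩, _, ⟨j, hj, rfl⟩, rfl⟩
  · rintro ⟨_, ⟨i, hi, rfl⟩, _, ⟨j, hj, rfl⟩, rfl⟩
    exact ⟨_, ⟨i, hi, j, hj, rfl⟩, rfl⟩

theorem pmap_fix {f : ℕ ↪ ℕ} {R : Set ℕ} (hf : ∀ i ∈ R, f i = i) {P : Pat} (hP : Supp P R) :
    pmap f P = P := by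
  have h : ∀ c ∈ P, Sym2.map f c = id c := by
    intro c hc
    induction c using Sym2.ind with
    | _ i j =>
      rw [Sym2.map_mk, hf i (hP _ hc i (by simp)), hf j (hP _ hc j (by simp))]
      rfl
  rw [pmap, Finset.image_congr h, Finset.image_id]

theorem off_empty (f : ℕ ↪ ℕ) : Off f ∅ := fun c hc => absurd hc (Finset.notMem_empty c)

theorem off_rect {f : ℕ ↪ ℕ} {a : Finset ℕ} (h : ∀ i, f i ∉ a) (b : Finset ℕ) :
    Off f (rect a b) := by
  intro c hc
  obtain ⟨i, hi, j, -, rfl⟩ := mem_rect.1 hc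
  refine ⟨i, by simp, ?_⟩
  rintro ⟨k, rfl⟩
  exact h k hi

theorem mem_pmap {f : ℕ ↪ ℕ} {P : Pat} {c : Sym2 ℕ} :
    c ∈ pmap f P ↔ ∃ d ∈ P, Sym2.map f d = c := Finset.mem_image

theorem pmap_empty (f : ℕ ↪ ℕ) : pmap f ∅ = ∅ := rfl

theorem pmap_union (f : ℕ ↪ ℕ) (P Q : Pat) : pmap f (P ∪ Q) = pmap f P ∪ pmap f Q :=
  Finset.image_union _ _

theorem pmap_pmap (f g : ℕ ↪ ℕ) (P : Pat) : pmap g (pmap f P) = pmap (f.trans g) P := by
  rw [pmap, pmap, pmap, Finset.image_image, ← Sym2.map_comp]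
  rfl

theorem pmap_congr {f g : ℕ ↪ ℕ} {P : Pat} (h : ∀ c ∈ P, ∀ i ∈ c, f i = g i) :
    pmap f P = pmap g P :=
  Finset.image_congr fun c hc => Sym2.map_congr (h c hc)

theorem mem_map_emb {f : ℕ ↪ ℕ} {c : Sym2 ℕ} {i : ℕ} : f i ∈ Sym2.map f c ↔ i ∈ c := by
  rw [Sym2.mem_map]
  exact ⟨fun ⟨_, hj, e⟩ => f.injective e ▸ hj, fun h => ⟨i, h, rfl⟩⟩

theorem Off.union {f : ℕ ↪ ℕ} {x y : Pat} (hx : Off f x) (hy : Off f y) : Off f (x ∪ y) :=
  fun c hc => (Finset.mem_union.1 hc).elim (hx c) (hy c)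

theorem Off.mono {f : ℕ ↪ ℕ} {x y : Pat} (hy : Off f y) (h : x ⊆ y) : Off f x :=
  fun c hc => hy c (h hc)

theorem Off.of_pull {f f' σ : ℕ ↪ ℕ} {s : Pat} (hs : Off f s)
    (hp : ∀ i j, σ i = f' j → ∃ k, f k = i) : Off f' (pmap σ s) := by
  intro c hc
  obtain ⟨d, hd, rfl⟩ := mem_pmap.1 hc
  obtain ⟨i, hi, hn⟩ := hs d hd
  exact ⟨σ i, mem_map_emb.2 hi, fun ⟨j, hj⟩ => hn (hp i j hj.symm)⟩

theorem Off.trans {f g : ℕ ↪ ℕ} {x y : Pat} (hx : Off f x) (hy : Off g y) :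
    Off (f.trans g) (pmap g x ∪ y) := by
  refine (hx.of_pull fun i j h => ⟨j, (g.injective (show g i = g (f j) from h)).symm⟩).union fun c hc => ?_
  obtain ⟨i, hi, hn⟩ := hy c hc
  exact ⟨i, hi, fun ⟨j, hj⟩ => hn ⟨f j, hj⟩⟩

/-- doubling -/
def dbl : ℕ ↪ ℕ := ⟨fun j => 2 * j, fun _ _ h => by simpa using h⟩

/-- the pullback square over `f` and `g` -/
theorem exists_sq (f g : ℕ ↪ ℕ) : ∃ σ : ℕ ↪ ℕ, f.trans σ = g.trans dbl ∧
    (∀ i j, σ i = dbl j → ∃ k, f k = i ∧ g k = j) ∧ ∀ i, i ∉ Set.range f → σ i = 2 * i + 1 := by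
  classical
  refine ⟨⟨fun i => if h : i ∈ Set.range f then 2 * g h.choose else 2 * i + 1, fun i j h => ?_⟩,
    ?_, fun i j h => ?_, fun i hi => dif_neg hi⟩
  · by_cases hi : i ∈ Set.range f <;> by_cases hj : j ∈ Set.range f <;>
      simp only [hi, hj, dif_pos, dif_neg, not_false_eq_true] at h
    · rw [← hi.choose_spec, ← hj.choose_spec, g.injective (by omega : g hi.choose = g hj.choose)]
    all_goals omega
  · ext k
    have h : f k ∈ Set.range f := ⟨k, rfl⟩
    change (if h : f k ∈ Set.range f then 2 * g h.choose else 2 * f k + 1) = 2 * g k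
    rw [dif_pos h, f.injective h.choose_spec]
  · change (if h : i ∈ Set.range f then 2 * g h.choose else 2 * i + 1) = 2 * j at h
    split_ifs at h with hi
    · exact ⟨hi.choose, hi.choose_spec, by omega⟩
    · omega

/-- the ends of the pairs of a pattern -/
def ends (P : Pat) : Finset ℕ := P.biUnion Sym2.toFinset

theorem mem_ends {P : Pat} {i : ℕ} : i ∈ ends P ↔ ∃ c ∈ P, i ∈ c := by
  simp [ends]

theorem supp_ends (P : Pat) : Supp P (ends P) := fun c hc _ hi => mem_ends.2 ⟨c, hc, hi⟩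

theorem compl_union_infinite {R : Set ℕ} (hR : Rᶜ.Infinite) (a : Finset ℕ) :
    (R ∪ (a : Set ℕ))ᶜ.Infinite := by
  rw [Set.compl_union]
  exact hR.sdiff a.finite_toSet

namespace Sys
variable {κ : Ker} {H : Type} [NormedAddCommGroup H] [InnerProductSpace ℂ H] [CompleteSpace H]
  (S : Sys κ H)

theorem inner_V {f : ℕ ↪ ℕ} {x : Pat} (h : Off f x) (u u' : H) :
    ⟪S.V f x u, S.V f x u'⟫_ℂ = ⟪u, u'⟫_ℂ := by
  rw [← inner_star_right, ← mul_apply_eq_comp, S.V_iso f x h, one_apply_eq_self]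

theorem norm_V {f : ℕ ↪ ℕ} {x : Pat} (h : Off f x) (u : H) : ‖S.V f x u‖ = ‖u‖ := by
  rw [@norm_eq_sqrt_re_inner ℂ, S.inner_V h, ← @norm_eq_sqrt_re_inner ℂ]

theorem norm_v (P : Pat) : ‖S.v P‖ = ‖S.v ∅‖ := by
  obtain ⟨f, -, hf⟩ := exists_fix (R := ∅) (by simpa using Set.infinite_univ) (ends P) (by simp)
  have h : Off f P := fun c hc =>
    ⟨c.out.1, Sym2.out_fst_mem c, fun ⟨k, hk⟩ =>
      hf k (mem_ends.2 ⟨c, hc, hk ▸ Sym2.out_fst_mem c⟩)⟩
  rw [← S.norm_V h (S.v ∅), S.V_v f P ∅ h, pmap_empty, Finset.empty_union]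

theorem norm_v_le (P : Pat) : ‖S.v P‖ ≤ 1 := by
  have h := S.link Empty Empty.elim (fun a => a.elim) 0 0
  have h0 : pat (Empty.elim : Empty → ℕ) 0 = ∅ := by
    ext c
    simp [pat]
  have h1 := κ.le_one Empty 0
  rw [← h, h0, inner_self_eq_norm_sq_to_K, norm_pow, RCLike.norm_ofReal, abs_norm] at h1
  rw [S.norm_v]
  exact (pow_le_one_iff_of_nonneg (norm_nonneg _) two_ne_zero).1 h1

theorem V_v0 (f : ℕ ↪ ℕ) : S.V f ∅ (S.v ∅) = S.v ∅ := by
  rw [S.V_v f ∅ ∅ (off_empty f), pmap_empty, Finset.empty_union]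

/-- relabelling a diagram -/
theorem rel {f f' π : ℕ ↪ ℕ} {s t : Pat} (hπ : f.trans π = f') (hs : Off f s) (ht : Off f t) :
    star (S.V f' (pmap π s)) * S.V f' (pmap π t) = star (S.V f s) * S.V f t := by
  have h1 := S.V_comp f π s ∅ hs (off_empty π)
  have h2 := S.V_comp f π t ∅ ht (off_empty π)
  rw [Finset.union_empty, hπ] at h1 h2
  rw [← h1, ← h2, star_mul, mul_assoc, ← mul_assoc (star (S.V π ∅)), S.V_iso π ∅ (off_empty π),
    one_mul]

/-- the two ways around a pullback square -/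
theorem V_sq_comm {f g f' σ : ℕ ↪ ℕ} (hc : f.trans σ = g.trans f')
    (hp : ∀ i j, σ i = f' j → ∃ k, f k = i ∧ g k = j) {t y : Pat} (ht : Off f t) (hy : Off g y) :
    S.V f' (pmap σ t) * S.V g y = S.V σ (pmap f' y) * S.V f t := by
  rw [S.V_comp g f' y _ hy (ht.of_pull fun i j h => (hp i j h).imp fun _ h => h.1),
    S.V_comp f σ t _ ht (hy.of_pull fun j i h => (hp i j h.symm).imp fun _ h => h.2), hc,
    Finset.union_comm]

/-- moving a diagram along an injection -/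
theorem sq_V {f g f' σ : ℕ ↪ ℕ} (hc : f.trans σ = g.trans f')
    (hp : ∀ i j, σ i = f' j → ∃ k, f k = i ∧ g k = j) {s t y : Pat} (hs : Off f s) (ht : Off f t)
    (hy : Off g y) : star (S.V f' (pmap σ s)) * S.V f' (pmap σ t) * S.V g y =
      S.V g y * (star (S.V f s) * S.V f t) := by
  rw [mul_assoc, S.V_sq_comm hc hp ht hy, ← mul_assoc, S.V_sq f g f' σ s y hc hp hs hy, mul_assoc]

/-- compression of a diagram -/
theorem cmp_eq {f g : ℕ ↪ ℕ} {s t s' t' : Pat} (hs : Off f s) (ht : Off f t) (hs' : Off g s')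
    (ht' : Off g t') : star (S.V g s') * (star (S.V f s) * S.V f t) * S.V g t' =
      star (S.V (g.trans f) (pmap f s' ∪ s)) * S.V (g.trans f) (pmap f t' ∪ t) := by
  rw [← S.V_comp g f s' s hs' hs, ← S.V_comp g f t' t ht' ht, star_mul]
  simp only [mul_assoc]

/-- product of two diagrams -/
theorem mul_eq {f g f' σ : ℕ ↪ ℕ} (hc : f.trans σ = g.trans f')
    (hp : ∀ i j, σ i = f' j → ∃ k, f k = i ∧ g k = j) {s t s' t' : Pat} (hs : Off f s)
    (ht : Off f t) (hs' : Off g s') (ht' : Off g t') :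
    star (S.V g s') * S.V g t' * (star (S.V f s) * S.V f t) =
      star (S.V (g.trans f') (pmap f' s' ∪ pmap σ s)) *
        S.V (g.trans f') (pmap f' t' ∪ pmap σ t) := by
  have hq : ∀ i j, σ i = f' j → ∃ k, f k = i := fun i j h => (hp i j h).imp fun _ h => h.1
  rw [mul_assoc, ← S.sq_V hc hp hs ht ht', ← mul_assoc,
    S.cmp_eq (hs.of_pull hq) (ht.of_pull hq) hs' ht']

theorem gens_star {R : Set ℕ} {T : H →L[ℂ] H} (h : T ∈ Gens S.V R) : star T ∈ Gens S.V R := by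
  obtain ⟨f, s, t, hs, ht, hR, rfl⟩ := h
  exact ⟨f, t, s, ht, hs, fun c hc => hR c hc.symm, by rw [star_mul, star_star]⟩

theorem gens_one (R : Set ℕ) : (1 : H →L[ℂ] H) ∈ Gens S.V R :=
  ⟨.refl ℕ, ∅, ∅, off_empty _, off_empty _, by simp, (S.V_iso _ _ (off_empty _)).symm⟩

theorem gens_mono {R R' : Set ℕ} (h : R ⊆ R') : Gens S.V R ⊆ Gens S.V R' := by
  rintro T ⟨f, s, t, hs, ht, hR, rfl⟩
  exact ⟨f, s, t, hs, ht, fun c hc i hi => h (hR c hc i hi), rfl⟩

theorem gens_comm {R R' : Set ℕ} {T T' : H →L[ℂ] H} (h : T ∈ Gens S.V R) (h' : T' ∈ Gens S.V R') :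
    T' * T = T * T' := by
  obtain ⟨f, s, t, hs, ht, -, rfl⟩ := h
  obtain ⟨g, s', t', hs', ht', -, rfl⟩ := h'
  obtain ⟨σ, hc, hp, -⟩ := exists_sq f g
  rw [S.mul_eq hc hp hs ht hs' ht', S.mul_eq hc.symm
    (fun j i h => (hp i j h.symm).imp fun _ h => h.symm) hs' ht' hs ht, hc,
    Finset.union_comm (pmap σ s), Finset.union_comm (pmap σ t)]

theorem gens_cmp {R R' : Set ℕ} {T : H →L[ℂ] H} (h : T ∈ Gens S.V R') {g : ℕ ↪ ℕ} {s t : Pat}
    (hs : Off g s) (ht : Off g t) (hR : ∀ c, c ∈ s ∨ c ∈ t → ∀ i, g i ∈ c → i ∈ R)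
    (hg : ∀ i, g i ∈ R' → i ∈ R) : star (S.V g s) * T * S.V g t ∈ Gens S.V R := by
  obtain ⟨f, s', t', hs', ht', hR', rfl⟩ := h
  refine ⟨g.trans f, _, _, hs.trans hs', ht.trans ht', fun c hc i hi => ?_,
    S.cmp_eq hs' ht' hs ht⟩
  simp only [Finset.mem_union, mem_pmap] at hc
  rcases hc with (⟨d, hd, rfl⟩ | hc) | (⟨d, hd, rfl⟩ | hc)
  · exact hR d (.inl hd) i (mem_map_emb.1 hi)
  · exact hg i (hR' c (.inl hc) _ hi)
  · exact hR d (.inr hd) i (mem_map_emb.1 hi)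
  · exact hg i (hR' c (.inr hc) _ hi)

theorem gens_mul {R : Set ℕ} {T T' : H →L[ℂ] H} (h' : T' ∈ Gens S.V R) (h : T ∈ Gens S.V R) :
    T' * T ∈ Gens S.V R := by
  obtain ⟨f, s, t, hs, ht, hR, rfl⟩ := h
  obtain ⟨g, s', t', hs', ht', hR', rfl⟩ := h'
  obtain ⟨σ, hc, hp, -⟩ := exists_sq f g
  have hq : ∀ i j, σ i = dbl j → ∃ k, f k = i := fun i j h => (hp i j h).imp fun _ h => h.1
  refine ⟨g.trans dbl, _, _, hs'.trans (hs.of_pull hq), ht'.trans (ht.of_pull hq),
    fun c hc' i hi => ?_, S.mul_eq hc hp hs ht hs' ht'⟩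
  simp only [Finset.mem_union, mem_pmap] at hc'
  rcases hc' with (⟨d, hd, rfl⟩ | ⟨d, hd, rfl⟩) | (⟨d, hd, rfl⟩ | ⟨d, hd, rfl⟩)
  · exact hR' d (.inl hd) i (mem_map_emb.1 hi)
  · rw [← hc] at hi
    exact hR d (.inl hd) i (mem_map_emb.1 hi)
  · exact hR' d (.inr hd) i (mem_map_emb.1 hi)
  · rw [← hc] at hi
    exact hR d (.inr hd) i (mem_map_emb.1 hi)

theorem gens_pow {R : Set ℕ} {T : H →L[ℂ] H} (h : T ∈ Gens S.V R) (n : ℕ) :
    T ^ n ∈ Gens S.V R := by
  induction n with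
  | zero => rw [pow_zero]; exact S.gens_one R
  | succ n ih => rw [pow_succ]; exact S.gens_mul ih h

/-- what commutes with the diagrams commutes with the algebra -/
theorem alg_of_gens {R : Set ℕ} {Y W : H →L[ℂ] H} (hY : Y ∈ Alg S.V R)
    (h : ∀ T ∈ Gens S.V R, T * W = W * T) : W * Y = Y * W :=
  ((StarSubalgebra.mem_centralizer_iff ℂ).1 hY W ((StarSubalgebra.mem_centralizer_iff ℂ).2
    fun T hT => ⟨h T hT, h _ (S.gens_star hT)⟩)).1

theorem mem_alg {R : Set ℕ} {Y : H →L[ℂ] H}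
    (h : ∀ W ∈ StarSubalgebra.centralizer ℂ (Gens S.V R), W * Y = Y * W) : Y ∈ Alg S.V R :=
  (StarSubalgebra.mem_centralizer_iff ℂ).2 fun W hW => ⟨h W hW, h _ (star_mem hW)⟩

theorem alg_cent {R : Set ℕ} {Y W : H →L[ℂ] H} (hY : Y ∈ Alg S.V R)
    (hW : W ∈ StarSubalgebra.centralizer ℂ (Gens S.V R)) : W * Y = Y * W :=
  ((StarSubalgebra.mem_centralizer_iff ℂ).1 hY W hW).1

theorem gens_mem {R : Set ℕ} {T : H →L[ℂ] H} (h : T ∈ Gens S.V R) : T ∈ Alg S.V R :=
  S.mem_alg fun _ hW => (((StarSubalgebra.mem_centralizer_iff ℂ).1 hW T h).1).symm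

theorem alg_mono {R R' : Set ℕ} (h : R ⊆ R') : Alg S.V R ≤ Alg S.V R' :=
  StarSubalgebra.centralizer_le ℂ _ _ (StarSubalgebra.centralizer_le ℂ _ _ (S.gens_mono h))

theorem alg_comm {R R' : Set ℕ} {Y Z : H →L[ℂ] H} (hY : Y ∈ Alg S.V R) (hZ : Z ∈ Alg S.V R') :
    Commute Y Z :=
  S.alg_of_gens hZ fun _ hT => S.alg_of_gens hY fun _ hT' => S.gens_comm hT hT'

theorem alg_apply_comm {R R' : Set ℕ} {Y Z : H →L[ℂ] H} (hY : Y ∈ Alg S.V R)
    (hZ : Z ∈ Alg S.V R') (u : H) : Y (Z u) = Z (Y u) :=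
  congrArg (fun T : H →L[ℂ] H => T u) (S.alg_comm hY hZ).eq

theorem kp_mem {R : Set ℕ} {N : Set (H →L[ℂ] H)} (h : ∀ n ∈ N, n ∈ Alg S.V R) :
    kp N ∈ Alg S.V R := by
  refine S.mem_alg fun W hW => ?_
  have h1 := kp_inter (fun n : N => n.1) (fun n : N => n.1) W
    (fun n => (S.alg_cent (h n n.2) hW).symm) fun n => (S.alg_cent (h n n.2) (star_mem hW)).symm
  rw [Subtype.range_coe] at h1
  exact h1.symm

/-- closed under strong limits -/
theorem alg_lim {R : Set ℕ} {Y : ℕ → H →L[ℂ] H} {Z : H →L[ℂ] H} (h : ∀ n, Y n ∈ Alg S.V R)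
    (hl : ∀ u, Tendsto (fun n => Y n u) atTop (𝓝 (Z u))) : Z ∈ Alg S.V R := by
  refine S.mem_alg fun W hW => ContinuousLinearMap.ext fun u => ?_
  refine tendsto_nhds_unique ((W.continuous.tendsto _).comp (hl u)) ((hl (W u)).congr fun n => ?_)
  exact (congrArg (fun T : H →L[ℂ] H => T u) (S.alg_cent (h n) hW)).symm

/-- an injection that fixes the roots commutes with the algebra -/
theorem alg_V {R : Set ℕ} {Y : H →L[ℂ] H} (hY : Y ∈ Alg S.V R) {g : ℕ ↪ ℕ} {y : Pat}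
    (hg : ∀ i ∈ R, g i = i) (hy : Off g y) : Y * S.V g y = S.V g y * Y := by
  refine (S.alg_of_gens hY ?_).symm
  rintro T ⟨f, s, t, hs, ht, hR, rfl⟩
  obtain ⟨σ, hc, hp, ho⟩ := exists_sq f g
  obtain ⟨π, hc', -, ho'⟩ := exists_sq f (.refl ℕ)
  have key : ∀ x : Pat, (∀ c ∈ x, ∀ i, f i ∈ c → i ∈ R) → pmap σ x = pmap π x := fun x hx =>
    pmap_congr fun c hc'' i hi => by
      by_cases h : i ∈ Set.range f
      · obtain ⟨k, rfl⟩ := h
        have e1 : σ (f k) = dbl (g k) := DFunLike.congr_fun hc k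
        have e2 : π (f k) = dbl k := DFunLike.congr_fun hc' k
        rw [e1, e2, hg k (hx c hc'' k hi)]
      · rw [ho i h, ho' i h]
  rw [← S.sq_V hc hp hs ht hy, key s fun c hc => hR c (.inl hc), key t fun c hc => hR c (.inr hc),
    S.rel (hc'.trans (Function.Embedding.refl_trans _)) hs ht]

theorem alg_V_apply {R : Set ℕ} {Y : H →L[ℂ] H} (hY : Y ∈ Alg S.V R) {g : ℕ ↪ ℕ} {y : Pat}
    (hg : ∀ i ∈ R, g i = i) (hy : Off g y) (u : H) : Y (S.V g y u) = S.V g y (Y u) :=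
  congrArg (fun T : H →L[ℂ] H => T u) (S.alg_V hY hg hy)

/-- removing common pairs that are not loops -/
theorem sd_nd {R : Set ℕ} {Y : H →L[ℂ] H} (hY : Y ∈ Alg S.V R) (P P' W : Pat)
    (h : Disjoint W P) (h' : Disjoint W P') (hW : ∀ c ∈ W, ¬ c.IsDiag) :
    ⟪S.v (P' ∪ W), Y (S.v (P ∪ W))⟫_ℂ = ⟪S.v P', Y (S.v P)⟫_ℂ := by
  induction W using Finset.induction_on with
  | empty => rw [Finset.union_empty, Finset.union_empty]
  | insert c W hc ih =>
    rw [Finset.disjoint_insert_left] at h h'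
    rw [Finset.union_insert, Finset.union_insert, S.sd Y (S.alg_mono (Set.subset_univ R) hY) c _ _
      (hW c (Finset.mem_insert_self _ _)) (by simp [h.1, hc]) (by simp [h'.1, hc]),
      ih h.2 h'.2 fun d hd => hW d (Finset.mem_insert_of_mem hd)]

/-- removing common pairs that are not loops at roots -/
theorem sd_union {R : Set ℕ} (hR : Rᶜ.Infinite) {Y : H →L[ℂ] H} (hY : Y ∈ Alg S.V R)
    (P P' W : Pat) (h : Disjoint W P) (h' : Disjoint W P') (hW : NoLoop W R)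
    (hl : ∀ i, s(i, i) ∈ W → (∀ c ∈ P, i ∉ c) ∧ ∀ c ∈ P', i ∉ c) :
    ⟪S.v (P' ∪ W), Y (S.v (P ∪ W))⟫_ℂ = ⟪S.v P', Y (S.v P)⟫_ℂ := by
  classical
  have hd : ∀ i ∈ ends (W.filter Sym2.IsDiag), s(i, i) ∈ W := fun i hi => by
    obtain ⟨c, hc, hi⟩ := mem_ends.1 hi
    obtain ⟨hc, hc'⟩ := Finset.mem_filter.1 hc
    induction c using Sym2.ind with
    | _ a b =>
      obtain rfl : a = b := Sym2.mk_isDiag_iff.1 hc'
      obtain rfl : i = a := by simpa using hi
      exact hc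
  obtain ⟨f, hf, hf'⟩ := exists_fix (compl_union_infinite hR (ends (P ∪ P')))
    (ends (W.filter Sym2.IsDiag)) (Set.disjoint_left.2 fun i hi hi' => by
      rcases hi' with hi' | hi'
      · exact hW i hi' (hd i hi)
      · obtain ⟨c, hc, hi'⟩ := mem_ends.1 hi'
        exact (Finset.mem_union.1 hc).elim (fun hc => (hl i (hd i hi)).1 c hc hi')
          fun hc => (hl i (hd i hi)).2 c hc hi')
  have ho : Off f (W.filter Sym2.IsDiag) := fun c hc =>
    ⟨c.out.1, Sym2.out_fst_mem c, fun ⟨k, hk⟩ =>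
      hf' k (mem_ends.2 ⟨c, hc, hk ▸ Sym2.out_fst_mem c⟩)⟩
  have hv : ∀ X : Pat, X ⊆ P ∪ P' →
      S.v (X ∪ W.filter Sym2.IsDiag) = S.V f (W.filter Sym2.IsDiag) (S.v X) := fun X hX => by
    rw [S.V_v f _ X ho, pmap_fix hf fun c hc i hi => .inr (mem_ends.2 ⟨c, hX hc, hi⟩)]
  have hu : ∀ X : Pat, X ∪ W = X ∪ W.filter Sym2.IsDiag ∪ W.filter fun c => ¬ c.IsDiag :=
    fun X => by rw [Finset.union_assoc, Finset.filter_union_filter_not_eq]
  have hj : ∀ X : Pat, Disjoint W X →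
      Disjoint (W.filter fun c => ¬ c.IsDiag) (X ∪ W.filter Sym2.IsDiag) := fun X hX =>
    Finset.disjoint_union_right.2 ⟨hX.mono_left (Finset.filter_subset _ _),
      (Finset.disjoint_filter_filter_not _ _ _).symm⟩
  rw [hu P, hu P', S.sd_nd hY _ _ _ (hj P h) (hj P' h') fun c hc => (Finset.mem_filter.1 hc).2,
    hv P Finset.subset_union_left, hv P' Finset.subset_union_right,
    S.alg_V_apply hY (fun i hi => hf i (.inl hi)) ho, S.inner_V ho]

theorem norm_alg_v {R : Set ℕ} (hR : Rᶜ.Infinite) {Y : H →L[ℂ] H} (hY : Y ∈ Alg S.V R)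
    {P : Pat} (hP : NoLoop P R) : ‖Y (S.v P)‖ = ‖Y (S.v ∅)‖ := by
  have h := S.sd_union hR (mul_mem (star_mem hY) hY) ∅ ∅ P (by simp) (by simp) hP (by simp)
  simp only [Finset.empty_union, mul_apply_eq_comp, inner_star_right] at h
  rw [@norm_eq_sqrt_re_inner ℂ, h, ← @norm_eq_sqrt_re_inner ℂ]

theorem norm_star_alg {R : Set ℕ} {Y : H →L[ℂ] H} (hY : Y ∈ Alg S.V R) (u : H) :
    ‖star Y u‖ = ‖Y u‖ := by
  rw [@norm_eq_sqrt_re_inner ℂ, inner_star_left, S.alg_apply_comm hY (star_mem hY),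
    inner_star_right, ← @norm_eq_sqrt_re_inner ℂ]

/-- testing against the algebra -/
theorem alg_ext0 {R : Set ℕ} {Y : H →L[ℂ] H} (hY : Y ∈ Alg S.V R) (u : H)
    (h : ∀ Z ∈ Alg S.V R, ⟪u, Y (Z u)⟫_ℂ = 0) : Y u = 0 := by
  have h1 := h _ (star_mem hY)
  rw [S.alg_apply_comm hY (star_mem hY), inner_star_right] at h1
  exact inner_self_eq_zero.1 h1

theorem opnorm_V {f : ℕ ↪ ℕ} {x : Pat} (h : Off f x) : ‖S.V f x‖ ≤ 1 :=
  ContinuousLinearMap.opNorm_le_bound _ zero_le_one fun u => by rw [S.norm_V h, one_mul]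

theorem sht_notMem (t i : ℕ) : sht t i ∉ Finset.range t := by
  simp [sht]

theorem sht_notMem0 (i : ℕ) : sht 1 i ∉ ({0} : Finset ℕ) := by
  simp [sht]

/-- an injection that places a block and the rest -/
theorem exists_blk {f : ℕ ↪ ℕ} {a : Finset ℕ} (ha : ∀ i, f i ∉ a) :
    ∃ π : ℕ ↪ ℕ, (sht a.card).trans π = f ∧ (Finset.range a.card).map π = a := by
  classical
  let e := a.orderEmbOfFin rfl
  have he : ∀ k, e k ∈ a := fun k => a.orderEmbOfFin_mem rfl k
  refine ⟨⟨fun i => if h : i < a.card then e ⟨i, h⟩ else f (i - a.card), fun i j hij => ?_⟩,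
    ?_, ?_⟩
  · by_cases hi : i < a.card <;> by_cases hj : j < a.card <;>
      simp only [hi, hj, dif_pos, dif_neg, not_false_iff] at hij
    · exact congrArg Fin.val (e.injective hij)
    · exact absurd (hij ▸ he _) (ha _)
    · exact absurd (hij ▸ he _) (ha _)
    · have := f.injective hij
      omega
  · ext i
    simp [sht]
  · refine Finset.eq_of_subset_of_card_le ?_ (by simp)
    intro x hx
    obtain ⟨i, hi, rfl⟩ := Finset.mem_map.1 hx
    have hi' := Finset.mem_range.1 hi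
    simp only [Function.Embedding.coeFn_mk, hi', dif_pos]
    exact he _

/-- the lift of an injection over a fresh block -/
theorem exists_lift (t : ℕ) (g : ℕ ↪ ℕ) :
    ∃ σ : ℕ ↪ ℕ, (sht t).trans σ = g.trans (sht t) ∧ (Finset.range t).map σ = Finset.range t ∧
      ∀ i j, σ i = sht t j → ∃ k, sht t k = i ∧ g k = j := by
  obtain ⟨σ, h1, h2⟩ := exists_blk (f := g.trans (sht t)) (a := Finset.range t)
    fun i => sht_notMem t (g i)
  rw [Finset.card_range] at h1 h2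
  refine ⟨σ, h1, h2, fun i j hij => ?_⟩
  by_cases hi : i < t
  · have : σ i ∈ Finset.range t := h2 ▸ Finset.mem_map_of_mem σ (Finset.mem_range.2 hi)
    exact absurd (hij ▸ this) (sht_notMem t j)
  · have e : sht t (i - t) = i := by
      simp only [sht, addRightEmbedding_apply]
      omega
    refine ⟨i - t, e, (sht t).injective ?_⟩
    have := congrArg (fun φ : ℕ ↪ ℕ => φ (i - t)) h1
    simp only [Function.Embedding.trans_apply, e] at this
    rw [← this, hij]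

theorem off_sq {f g f' σ : ℕ ↪ ℕ} (hp : ∀ i j, σ i = f' j → ∃ k, f k = i ∧ g k = j) {s : Pat}
    (hs : Off f s) : Off f' (pmap σ s) := by
  intro c hc
  obtain ⟨d, hd, rfl⟩ := Finset.mem_image.1 hc
  obtain ⟨i, hi, hn⟩ := hs d hd
  refine ⟨σ i, Sym2.mem_map.2 ⟨i, hi, rfl⟩, ?_⟩
  rintro ⟨j, hj⟩
  obtain ⟨k, hk, -⟩ := hp i j hj.symm
  exact hn ⟨k, hk⟩

theorem off_union {f : ℕ ↪ ℕ} {s t : Pat} (hs : Off f s) (ht : Off f t) : Off f (s ∪ t) :=
  fun c hc => (Finset.mem_union.1 hc).elim (hs c) (ht c)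

theorem pmap_empty (f : ℕ ↪ ℕ) : pmap f ∅ = ∅ := Finset.image_empty _

theorem pmap_union (f : ℕ ↪ ℕ) (s t : Pat) : pmap f (s ∪ t) = pmap f s ∪ pmap f t :=
  Finset.image_union _ _

/-- a diagram with an operator in the middle passes an isometry -/
theorem sq_mid {f g f' σ : ℕ ↪ ℕ} (h : f.trans σ = g.trans f')
    (hp : ∀ i j, σ i = f' j → ∃ k, f k = i ∧ g k = j) {s t y : Pat} (hs : Off f s) (ht : Off f t)
    (hy : Off g y) {M M' : H →L[ℂ] H} (hM : M' * S.V σ (pmap f' y) = S.V σ (pmap f' y) * M) :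
    star (S.V f' (pmap σ s)) * M' * S.V f' (pmap σ t) * S.V g y =
      S.V g y * (star (S.V f s) * M * S.V f t) := by
  have hp' : ∀ i j, f' i = σ j → ∃ k, g k = i ∧ f k = j := fun i j hij => by
    obtain ⟨k, h1, h2⟩ := hp j i hij.symm
    exact ⟨k, h2, h1⟩
  have e : S.V f' (pmap σ t) * S.V g y = S.V σ (pmap f' y) * S.V f t := by
    rw [S.V_comp g f' y _ hy (off_sq hp ht), S.V_comp f σ t _ ht (off_sq hp' hy), h,
      Finset.union_comm]
  calc _ = star (S.V f' (pmap σ s)) * (M' * (S.V f' (pmap σ t) * S.V g y)) := by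
        simp only [mul_assoc]
    _ = star (S.V f' (pmap σ s)) * S.V σ (pmap f' y) * (M * S.V f t) := by
        rw [e, ← mul_assoc M', hM]; simp only [mul_assoc]
    _ = _ := by rw [S.V_sq f g f' σ s y h hp hs hy]; simp only [mul_assoc]

theorem map_sq {f g f' σ : ℕ ↪ ℕ} (h : f.trans σ = g.trans f') (z : Finset ℕ) :
    (z.map f).map σ = (z.map g).map f' := by
  rw [Finset.map_map, Finset.map_map, h]

theorem G_eq {f : ℕ ↪ ℕ} {i : ℕ} (hi : ∀ j, f j ≠ i) (x y : Finset ℕ) :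
    S.G x y = star (S.V f (rect {i} (y.map f))) * S.V f (rect {i} (x.map f)) := by
  obtain ⟨π, h1, h2⟩ := exists_blk (f := f) (a := {i}) (by simpa using hi)
  rw [Finset.card_singleton] at h1 h2
  have e : ∀ z : Finset ℕ, pmap π (rect {0} (z.map (sht 1))) = rect {i} (z.map f) := by
    intro z
    rw [pmap_rect, Finset.map_map, h1, ← h2, Finset.range_one]
  rw [← e, ← e, S.rel h1 (off_rect sht_notMem0 _) (off_rect sht_notMem0 _), G]

theorem G_gens (x y : Finset ℕ) : S.G x y ∈ Gens S.V ((x : Set ℕ) ∪ y) := by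
  refine ⟨sht 1, _, _, off_rect sht_notMem0 _, off_rect sht_notMem0 _, ?_, rfl⟩
  have key : ∀ (z : Finset ℕ) c, c ∈ rect {0} (z.map (sht 1)) → ∀ i, sht 1 i ∈ c → i ∈ z := by
    intro z c hc i hi
    obtain ⟨a, ha, b, hb, rfl⟩ := mem_rect.1 hc
    rcases Sym2.mem_iff.1 hi with h | h
    · exact absurd (h ▸ ha) (sht_notMem0 i)
    · exact (Finset.mem_map' _).1 (h ▸ hb)
  rintro c (hc | hc) i hi
  · exact Or.inr (key y c hc i hi)
  · exact Or.inl (key x c hc i hi)

theorem G_mem (x y : Finset ℕ) : S.G x y ∈ Alg S.V ((x : Set ℕ) ∪ y) := S.gens_mem (S.G_gens x y)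

theorem norm_sandwich {A M B : H →L[ℂ] H} (hA : ‖A‖ ≤ 1) (hM : ‖M‖ ≤ 1) (hB : ‖B‖ ≤ 1) :
    ‖star A * M * B‖ ≤ 1 := by
  have h1 : ‖star A * M‖ ≤ 1 :=
    (norm_mul_le _ _).trans (by rw [norm_star]; exact mul_le_one₀ hA (norm_nonneg _) hM)
  exact (norm_mul_le _ _).trans (mul_le_one₀ h1 (norm_nonneg _) hB)

theorem norm_G_le (x y : Finset ℕ) : ‖S.G x y‖ ≤ 1 := by
  refine (norm_mul_le _ _).trans ?_
  rw [norm_star]
  exact mul_le_one₀ (S.opnorm_V (off_rect sht_notMem0 _)) (norm_nonneg _)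
    (S.opnorm_V (off_rect sht_notMem0 _))

theorem star_G (x y : Finset ℕ) : star (S.G x y) = S.G y x := by
  rw [G, G, star_mul, star_star]

theorem G_V {f : ℕ ↪ ℕ} {z : Pat} (hz : Off f z) (x y : Finset ℕ) :
    S.G (x.map f) (y.map f) * S.V f z = S.V f z * S.G x y := by
  obtain ⟨σ, h1, h2, h3⟩ := exists_lift 1 f
  rw [Finset.range_one] at h2
  have e : ∀ w : Finset ℕ,
      pmap σ (rect {0} (w.map (sht 1))) = rect {0} ((w.map f).map (sht 1)) := by
    intro w
    rw [pmap_rect, h2, map_sq h1]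
  have := S.sq_mid h1 h3 (off_rect sht_notMem0 (y.map (sht 1)))
    (off_rect sht_notMem0 (x.map (sht 1))) hz (M := 1) (M' := 1) (by rw [one_mul, mul_one])
  rwa [mul_one, mul_one, e, e] at this

theorem G_mul_Q (x y : Finset ℕ) : S.G x y * S.Q x y = S.Q x y := by
  have h : (S.G x y - 1) * S.Q x y = 0 := mul_kp (Set.mem_singleton _)
  rwa [sub_mul, one_mul, sub_eq_zero] at h

theorem Q_proj (x y : Finset ℕ) : IsStarProjection (S.Q x y) := kp_proj _

theorem Q_mem (x y : Finset ℕ) : S.Q x y ∈ Alg S.V ((x : Set ℕ) ∪ y) :=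
  S.kp_mem fun n hn => by
    rw [Set.mem_singleton_iff.1 hn]
    exact sub_mem (S.G_mem x y) (one_mem _)

theorem Q_V {f : ℕ ↪ ℕ} {z : Pat} (hz : Off f z) (x y : Finset ℕ) :
    S.Q (x.map f) (y.map f) * S.V f z = S.V f z * S.Q x y := by
  have h := kp_inter (fun _ : Unit => S.G x y - 1) (fun _ => S.G (x.map f) (y.map f) - 1)
    (S.V f z) (fun _ => by rw [sub_mul, mul_sub, S.G_V hz, one_mul, mul_one]) fun _ => by
      have := congrArg star (S.G_V hz y x)
      rw [star_mul, star_mul, S.star_G, S.star_G] at this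
      rw [sub_mul, mul_sub, this, one_mul, mul_one]
  rwa [Set.range_const, Set.range_const] at h

theorem Q_fix_iff (x y : Finset ℕ) (u : H) : S.Q x y u = u ↔ S.G x y u = u := by
  rw [Q, kp_apply_eq_iff]
  simp [sub_eq_zero]

/-- fixed vectors of a diagram -/
theorem fix_iff {f : ℕ ↪ ℕ} {s t : Pat} (hs : Off f s) (ht : Off f t) (u : H) :
    (star (S.V f s) * S.V f t) u = u ↔ S.V f t u = S.V f s u := by
  constructor
  · intro h
    have := eq_of_inner (z := 1) (u := S.V f t u) (w := S.V f s u) norm_one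
      (by rw [S.norm_V hs, S.norm_V ht]) (by
        rw [← inner_star_right, one_mul, S.norm_V hs]
        change ⟪u, (star (S.V f s) * S.V f t) u⟫_ℂ = _
        rw [h, inner_self_eq_norm_sq_to_K]
        simp)
    rwa [one_smul] at this
  · intro h
    change star (S.V f s) (S.V f t u) = u
    rw [h]
    exact congrArg (fun T : H →L[ℂ] H => T u) (S.V_iso f s hs)

theorem Q_fix_iff' (x y : Finset ℕ) (u : H) : S.Q x y u = u ↔
    S.V (sht 1) (rect {0} (x.map (sht 1))) u = S.V (sht 1) (rect {0} (y.map (sht 1))) u := by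
  rw [S.Q_fix_iff, G, S.fix_iff (off_rect sht_notMem0 _) (off_rect sht_notMem0 _)]

theorem Q_idem (x y : Finset ℕ) (u : H) : S.Q x y (S.Q x y u) = S.Q x y u :=
  congrArg (fun T : H →L[ℂ] H => T u) (S.Q_proj x y).isIdempotentElem.eq

theorem Q_refl (x : Finset ℕ) : S.Q x x = 1 := by
  ext u
  exact (S.Q_fix_iff' x x u).2 rfl

theorem Q_symm (x y : Finset ℕ) : S.Q x y = S.Q y x := by
  have h : ∀ x y : Finset ℕ, S.Q x y * S.Q y x = S.Q y x := fun x y => by
    ext u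
    exact (S.Q_fix_iff' x y _).2 ((S.Q_fix_iff' y x _).1 (S.Q_idem y x u)).symm
  have h2 := congrArg star (h y x)
  rw [star_mul, (S.Q_proj x y).isSelfAdjoint.star_eq, (S.Q_proj y x).isSelfAdjoint.star_eq,
    h x y] at h2
  exact h2.symm

theorem Q_trans (x y z : Finset ℕ) : S.Q x z * (S.Q x y * S.Q y z) = S.Q x y * S.Q y z := by
  ext u
  change S.Q x z (S.Q x y (S.Q y z u)) = S.Q x y (S.Q y z u)
  refine (S.Q_fix_iff' x z _).2 (((S.Q_fix_iff' x y _).1 (S.Q_idem x y _)).trans ?_)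
  rw [S.alg_apply_comm (S.Q_mem x y) (S.Q_mem y z)]
  exact (S.Q_fix_iff' y z _).1 (S.Q_idem y z _)

theorem G_union {x y z : Finset ℕ} (hx : Disjoint x z) (hy : Disjoint y z) :
    S.G (x ∪ z) (y ∪ z) = S.G x y := by
  induction z using Finset.induction_on with
  | empty => rw [Finset.union_empty, Finset.union_empty]
  | insert k z hk ih =>
    rw [Finset.disjoint_insert_right] at hx hy
    have e : ∀ w : Finset ℕ, rect {0} ((w ∪ insert k z).map (sht 1)) =
        insert s(0, sht 1 k) (rect {0} ((w ∪ z).map (sht 1))) := by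
      intro w
      rw [Finset.union_insert, Finset.map_insert, rect, Finset.image₂_insert_right, rect]
      simp
    have hn : ∀ w : Finset ℕ, k ∉ w → s(0, sht 1 k) ∉ rect {0} ((w ∪ z).map (sht 1)) := by
      intro w hw hc
      obtain ⟨a, ha, b, hb, h⟩ := mem_rect.1 hc
      rw [Finset.mem_singleton.1 ha, Sym2.congr_right] at h
      rw [h, Finset.mem_map'] at hb
      exact (Finset.mem_union.1 hb).elim hw hk
    rw [← ih hx.2 hy.2, G, G, e, e]
    refine S.V_sd _ _ _ _ (e y ▸ off_rect sht_notMem0 _) (off_rect sht_notMem0 _) ?_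
      (hn y hy.1) (hn x hx.1)
    simp [sht]

theorem Q_union {x y z : Finset ℕ} (hx : Disjoint x z) (hy : Disjoint y z) :
    S.Q (x ∪ z) (y ∪ z) = S.Q x y := by
  rw [Q, Q, S.G_union hx hy]

theorem map_fix {f : ℕ ↪ ℕ} {R : Set ℕ} (hf : ∀ i ∈ R, f i = i) {x : Finset ℕ}
    (hx : (x : Set ℕ) ⊆ R) : x.map f = x := by
  refine Finset.eq_of_subset_of_card_le (fun j hj => ?_) (by simp)
  obtain ⟨i, hi, rfl⟩ := Finset.mem_map.1 hj
  rwa [hf i (hx hi)]

theorem Q_row {i : ℕ} {x y : Finset ℕ} {P : Pat} (hx : i ∉ x) (hy : i ∉ y)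
    (hP : Disjoint P (rect {i} (x ∪ y))) (hl : s(i, i) ∉ P) :
    S.Q x y (S.v (P ∪ rect {i} x)) = S.Q x y (S.v (P ∪ rect {i} y)) := by
  classical
  let T : Finset ℕ := (x ∪ y ∪ P.biUnion fun c => c.toFinset).erase i
  obtain ⟨f, hf, hi⟩ := exists_fix (R := (T : Set ℕ)) T.finite_toSet.infinite_compl {i}
    (by simp [T])
  have hi' : ∀ j, f j ≠ i := by simpa using hi
  let r : Finset ℕ := T.filter fun j => s(i, j) ∈ P
  let P0 : Pat := P.filter fun c => i ∉ c
  have hP0 : Supp P0 (T : Set ℕ) := by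
    intro c hc j hj
    obtain ⟨h1, h2⟩ := Finset.mem_filter.1 hc
    refine Finset.mem_erase.2 ⟨fun h => h2 (h ▸ hj), Finset.mem_union_right _ ?_⟩
    exact Finset.mem_biUnion.2 ⟨c, h1, Sym2.mem_toFinset.2 hj⟩
  have hsplit : P = P0 ∪ rect {i} r := by
    ext c
    simp only [P0, r, Finset.mem_union, Finset.mem_filter, mem_rect, Finset.mem_singleton]
    constructor
    · intro hc
      by_cases hic : i ∈ c
      · obtain ⟨j, rfl⟩ := Sym2.mem_iff_exists.1 hic
        refine Or.inr ⟨i, rfl, j, ⟨Finset.mem_erase.2 ⟨?_, Finset.mem_union_right _ ?_⟩, hc⟩, rfl⟩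
        · rintro rfl
          exact hl hc
        · exact Finset.mem_biUnion.2 ⟨_, hc, by simp⟩
      · exact Or.inl ⟨hc, hic⟩
    · rintro (h | ⟨_, rfl, j, hj, rfl⟩)
      · exact h.1
      · exact hj.2
  have hd : ∀ w : Finset ℕ, w ⊆ x ∪ y → Disjoint w r := by
    intro w hw
    refine Finset.disjoint_left.2 fun j hj hr => ?_
    exact Finset.disjoint_left.1 hP (Finset.mem_filter.1 hr).2
      (mem_rect.2 ⟨i, Finset.mem_singleton_self i, j, hw hj, rfl⟩)
  have hT : ∀ w : Finset ℕ, w ⊆ x ∪ y → i ∉ w → ((w ∪ r : Finset ℕ) : Set ℕ) ⊆ T := by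
    intro w hw hiw j hj
    rcases Finset.mem_union.1 hj with h | h
    · exact Finset.mem_erase.2 ⟨fun e => hiw (e ▸ h), Finset.mem_union_left _ (hw h)⟩
    · exact (Finset.mem_filter.1 h).1
  have mx := map_fix hf (hT x Finset.subset_union_left hx)
  have my := map_fix hf (hT y Finset.subset_union_right hy)
  have ev : ∀ w : Finset ℕ, S.v (P ∪ rect {i} w) = S.V f (rect {i} (w ∪ r)) (S.v P0) := by
    intro w
    rw [S.V_v _ _ _ (off_rect hi _), pmap_fix hf hP0]
    congr 1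
    conv_lhs => rw [hsplit]
    rw [Finset.union_assoc, rect, rect, rect, Finset.image₂_union_right, Finset.union_comm]
    rw [Finset.union_comm _ P0, Finset.union_comm (Finset.image₂ _ _ r)]
  have eq : ∀ w : Finset ℕ, S.Q x y (S.V f (rect {i} w) (S.v P0)) =
      S.V f (rect {i} w) (S.Q (x ∪ r) (y ∪ r) (S.v P0)) := by
    intro w
    have := S.Q_V (off_rect hi w) (x ∪ r) (y ∪ r)
    rw [mx, my] at this
    rw [← S.Q_union (hd x Finset.subset_union_left) (hd y Finset.subset_union_right)]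
    exact congrArg (fun T : H →L[ℂ] H => T (S.v P0)) this
  rw [ev, ev, eq, eq]
  have h1 := (S.Q_fix_iff _ _ _).1 (S.Q_idem (x ∪ r) (y ∪ r) (S.v P0))
  rw [S.G_eq hi', mx, my, S.fix_iff (off_rect hi _) (off_rect hi _)] at h1
  exact h1

/-- (Q2): equivalent sets give the same rectangles against rows without loops -/
theorem Q_rect {a x y : Finset ℕ} {P : Pat} (hx : Disjoint a x) (hy : Disjoint a y)
    (hP : Disjoint P (rect a (x ∪ y))) (hl : NoLoop P a) :
    S.Q x y (S.v (P ∪ rect a x)) = S.Q x y (S.v (P ∪ rect a y)) := by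
  induction a using Finset.induction_on generalizing P with
  | empty => simp [rect]
  | insert i a hi ih =>
    rw [Finset.disjoint_insert_left] at hx hy
    have e : ∀ w : Finset ℕ, rect (insert i a) w = rect {i} w ∪ rect a w := by
      intro w
      rw [Finset.insert_eq, rect, Finset.image₂_union_left]
      rfl
    have hxy : i ∉ x ∪ y := by simp [hx.1, hy.1]
    have hd : ∀ w w' : Finset ℕ, i ∉ w' → Disjoint (rect {i} w) (rect a w') := by
      intro w w' hw'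
      refine Finset.disjoint_left.2 fun c h1 h2 => ?_
      obtain ⟨k, hk, j, -, rfl⟩ := mem_rect.1 h1
      obtain ⟨k', hk', j', hj', h⟩ := mem_rect.1 h2
      rw [Finset.mem_singleton.1 hk] at h
      rcases Sym2.eq_iff.1 h with ⟨h, -⟩ | ⟨-, h⟩
      · exact hi (h ▸ hk')
      · exact hw' (h ▸ hj')
    rw [e, Finset.disjoint_union_right] at hP
    have h1 := S.Q_row (P := P ∪ rect a x) hx.1 hy.1
      (Finset.disjoint_union_left.2 ⟨hP.1, (hd _ _ hx.1).symm⟩) (by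
        intro h
        rcases Finset.mem_union.1 h with h | h
        · exact hl i (by simp) h
        · obtain ⟨k, hk, j, -, h⟩ := mem_rect.1 h
          rcases Sym2.eq_iff.1 h with ⟨h, -⟩ | ⟨h, -⟩ <;> exact hi (h ▸ hk))
    have h2 := ih (P := P ∪ rect {i} y) hx.2 hy.2
      (Finset.disjoint_union_left.2 ⟨hP.2, hd _ _ hxy⟩) (by
        intro k hk h
        rcases Finset.mem_union.1 h with h | h
        · exact hl k (by simp [Finset.mem_coe.1 hk]) h
        · obtain ⟨k', hk', j, -, h⟩ := mem_rect.1 h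
          rw [Finset.mem_singleton.1 hk'] at h
          rcases Sym2.eq_iff.1 h with ⟨h, -⟩ | ⟨h, -⟩ <;> exact hi (h ▸ hk))
    rw [e, e, Finset.union_comm (rect {i} x), ← Finset.union_assoc, h1, Finset.union_right_comm,
      h2, Finset.union_assoc]

theorem off_blk {f : ℕ ↪ ℕ} {a : Finset ℕ} (ha : ∀ i, f i ∉ a) (b : Bool) (z : Finset ℕ) :
    Off f ((if b then fill a else ∅) ∪ rect a z) := by
  refine off_union ?_ (off_rect ha _)
  split_ifs
  · exact off_rect ha _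
  · exact off_empty _

theorem pmap_blk (f : ℕ ↪ ℕ) (a : Finset ℕ) (b : Bool) (z : Finset ℕ) :
    pmap f ((if b then fill a else ∅) ∪ rect a z) =
      (if b then fill (a.map f) else ∅) ∪ rect (a.map f) (z.map f) := by
  rw [pmap_union, pmap_rect]
  congr 1
  split_ifs
  · exact pmap_rect _ _ _
  · exact pmap_empty _

theorem V_split {f f' π : ℕ ↪ ℕ} (hπ : f.trans π = f') {s : Pat} (hs : Off f s) :
    S.V f' (pmap π s) = S.V π ∅ * S.V f s := by
  rw [S.V_comp f π s ∅ hs (off_empty _), hπ, Finset.union_empty]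

theorem EQ_eq {f : ℕ ↪ ℕ} {a : Finset ℕ} (ha : ∀ i, f i ∉ a) (y c : Finset ℕ) (b : Bool)
    (z : Finset ℕ) :
    S.EQ a.card y c b z = star (S.V f ∅) * S.Q (a ∪ y.map f) (c.map f) *
      S.V f ((if b then fill a else ∅) ∪ rect a (z.map f)) := by
  obtain ⟨π, h1, h2⟩ := exists_blk ha
  have e1 := S.V_split h1 (off_empty (sht a.card))
  have e2 := S.V_split h1 (off_blk (sht_notMem a.card) b (z.map (sht a.card)))
  have e3 := S.Q_V (off_empty π) (Finset.range a.card ∪ y.map (sht a.card)) (c.map (sht a.card))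
  rw [pmap_empty] at e1
  rw [pmap_blk, h2, Finset.map_map, h1] at e2
  rw [Finset.map_union, h2, Finset.map_map, Finset.map_map, h1] at e3
  rw [e1, e2, EQ, star_mul]
  simp only [mul_assoc]
  rw [← mul_assoc (S.Q (a ∪ _) _), e3, mul_assoc, ← mul_assoc (star (S.V π ∅)),
    S.V_iso π ∅ (off_empty π), one_mul]

theorem exists_sq12 (f g : ℕ ↪ ℕ) : ∃ f' σ : ℕ ↪ ℕ, f.trans σ = g.trans f' ∧
    ∀ i j, σ i = f' j → ∃ k, f k = i ∧ g k = j := by
  classical
  refine ⟨⟨fun j => 2 * j, fun i j h => by simpa using h⟩,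
    ⟨fun i => if h : ∃ k, f k = i then 2 * g h.choose else 2 * i + 1, fun i j hij => ?_⟩, ?_, ?_⟩
  · by_cases hi : ∃ k, f k = i <;> by_cases hj : ∃ k, f k = j <;>
      simp only [hi, hj, dif_pos, dif_neg, not_false_iff] at hij
    · rw [← hi.choose_spec, ← hj.choose_spec, g.injective (by omega : g hi.choose = g hj.choose)]
    all_goals omega
  · ext k
    have h : ∃ k', f k' = f k := ⟨k, rfl⟩
    simp only [Function.Embedding.trans_apply, Function.Embedding.coeFn_mk, h, dif_pos]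
    rw [f.injective h.choose_spec]
  · intro i j hij
    simp only [Function.Embedding.coeFn_mk] at hij
    split_ifs at hij with h
    · exact ⟨h.choose, h.choose_spec, by omega⟩
    · omega

theorem off_comp {f g : ℕ ↪ ℕ} {x y : Pat} (hx : Off f x) (hy : Off g y) :
    Off (f.trans g) (pmap g x ∪ y) := by
  refine off_union (fun c hc => ?_) fun c hc => ?_
  · obtain ⟨d, hd, rfl⟩ := Finset.mem_image.1 hc
    obtain ⟨i, hi, hn⟩ := hx d hd
    refine ⟨g i, Sym2.mem_map.2 ⟨i, hi, rfl⟩, ?_⟩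
    rintro ⟨j, hj⟩
    exact hn ⟨j, g.injective hj⟩
  · obtain ⟨i, hi, hn⟩ := hy c hc
    refine ⟨i, hi, ?_⟩
    rintro ⟨j, hj⟩
    exact hn ⟨f j, hj⟩

theorem root_pmap {g : ℕ ↪ ℕ} {s : Pat} {c : Sym2 ℕ} (hc : c ∈ pmap g s) {i : ℕ} (hi : g i ∈ c) :
    ∃ d ∈ s, i ∈ d := by
  obtain ⟨d, hd, rfl⟩ := Finset.mem_image.1 hc
  obtain ⟨j, hj, e⟩ := Sym2.mem_map.1 hi
  exact ⟨d, hd, g.injective e ▸ hj⟩

/-- a diagram between two isometries is a diagram -/
theorem gens_sandwich {R R' : Set ℕ} {M : H →L[ℂ] H} (hM : M ∈ Gens S.V R') {f : ℕ ↪ ℕ}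
    {s t : Pat} (hs : Off f s) (ht : Off f t) (h1 : ∀ i, f i ∈ R' → i ∈ R)
    (h2 : ∀ c, c ∈ s ∨ c ∈ t → ∀ i, f i ∈ c → i ∈ R) :
    star (S.V f s) * M * S.V f t ∈ Gens S.V R := by
  obtain ⟨g, s', t', hs', ht', hr, rfl⟩ := hM
  refine ⟨f.trans g, pmap g s ∪ s', pmap g t ∪ t', off_comp hs hs', off_comp ht ht', ?_, ?_⟩
  · rintro c (hc | hc) i hi <;> rcases Finset.mem_union.1 hc with hc | hc
    · obtain ⟨d, hd, h⟩ := root_pmap hc hi
      exact h2 d (Or.inl hd) i h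
    · exact h1 i (hr c (Or.inl hc) _ hi)
    · obtain ⟨d, hd, h⟩ := root_pmap hc hi
      exact h2 d (Or.inr hd) i h
    · exact h1 i (hr c (Or.inr hc) _ hi)
  · rw [← S.V_comp f g s s' hs hs', ← S.V_comp f g t t' ht ht', star_mul]
    simp only [mul_assoc]

theorem gens_mul12 {R : Set ℕ} {T T' : H →L[ℂ] H} (hT : T ∈ Gens S.V R) (hT' : T' ∈ Gens S.V R) :
    T' * T ∈ Gens S.V R := by
  obtain ⟨f, s, t, hs, ht, hr, rfl⟩ := hT
  obtain ⟨g, s', t', hs', ht', hr', rfl⟩ := hT'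
  obtain ⟨f', σ, h1, h2⟩ := exists_sq12 f g
  have e := S.sq_mid h1 h2 hs ht ht' (M := 1) (M' := 1) (by rw [one_mul, mul_one])
  rw [mul_one, mul_one] at e
  rw [mul_assoc, ← e, ← mul_assoc]
  refine S.gens_sandwich (R' := {j | ∀ i, g i = j → i ∈ R})
    ⟨f', _, _, off_sq h2 hs, off_sq h2 ht, ?_, rfl⟩ hs' ht' (fun i hi => hi i rfl) hr'
  have e2 : ∀ i, f' (g i) = σ (f i) := fun i => (congrArg (fun φ : ℕ ↪ ℕ => φ i) h1).symm
  rintro c (hc | hc) j hj i rfl <;> rw [e2] at hj <;> obtain ⟨d, hd, h⟩ := root_pmap hc hj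
  · exact hr d (Or.inl hd) i h
  · exact hr d (Or.inr hd) i h

theorem gens_pow12 {R : Set ℕ} {T : H →L[ℂ] H} (hT : T ∈ Gens S.V R) (m : ℕ) :
    T ^ (m + 1) ∈ Gens S.V R := by
  induction m with
  | zero => rwa [zero_add, pow_one]
  | succ m ih => rw [pow_succ]; exact S.gens_mul12 hT ih

theorem avs_mem {R : Set ℕ} {Y : ℕ → H →L[ℂ] H} (h : ∀ t, Y (t + 1) ∈ Alg S.V R) (n : ℕ) :
    avs n Y ∈ Alg S.V R :=
  SMulMemClass.smul_mem _ (sum_mem fun t _ => h t)

theorem EQ_mem (t : ℕ) (y c : Finset ℕ) (b : Bool) (z : Finset ℕ) :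
    S.EQ t y c b z ∈ Alg S.V ((y : Set ℕ) ∪ c ∪ z) := by
  set X := Finset.range t ∪ y.map (sht t) with hX
  set C := c.map (sht t) with hC
  set w := (if b then fill (Finset.range t) else ∅) ∪ rect (Finset.range t) (z.map (sht t)) with hw
  have how : Off (sht t) w := off_blk (sht_notMem t) b _
  refine S.alg_lim (Y := fun n => avs n fun m => star (S.V (sht t) ∅) * S.G X C ^ m * S.V (sht t) w)
    (fun n => S.avs_mem (fun m => S.gens_mem ?_) n) fun u => ?_
  · refine S.gens_sandwich (S.gens_pow12 (S.G_gens X C) m) (off_empty _) how ?_ ?_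
    · rintro i (hi | hi)
      · rcases Finset.mem_union.1 hi with hi | hi
        · exact absurd hi (sht_notMem t i)
        · exact Or.inl (Or.inl ((Finset.mem_map' _).1 hi))
      · exact Or.inl (Or.inr ((Finset.mem_map' _).1 hi))
    · rintro d (hd | hd) i hi
      · exact absurd hd (Finset.notMem_empty d)
      · rcases Finset.mem_union.1 hd with hd | hd
        · split_ifs at hd
          · obtain ⟨k, hk, j, hj, rfl⟩ := mem_rect.1 hd
            rcases Sym2.mem_iff.1 hi with h | h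
            · exact absurd (h ▸ hk) (sht_notMem t i)
            · exact absurd (h ▸ hj) (sht_notMem t i)
          · exact absurd hd (Finset.notMem_empty d)
        · obtain ⟨k, hk, j, hj, rfl⟩ := mem_rect.1 hd
          rcases Sym2.mem_iff.1 hi with h | h
          · exact absurd (h ▸ hk) (sht_notMem t i)
          · exact Or.inr ((Finset.mem_map' _).1 (h ▸ hj))
  · have h0 := ((star (S.V (sht t) ∅)).continuous.tendsto _).comp
      (avs_pow_tendsto (S.norm_G_le X C) (S.V (sht t) w u))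
    refine h0.congr fun n => ?_
    simp only [Function.comp, avs, smul_apply, sum_apply, map_smul, map_sum, mul_apply_eq_comp]

theorem norm_EQ_le (t : ℕ) (y c : Finset ℕ) (b : Bool) (z : Finset ℕ) :
    ‖S.EQ t y c b z‖ ≤ 1 :=
  norm_sandwich (S.opnorm_V (off_empty _))
    (ContinuousLinearMap.opNorm_le_bound _ zero_le_one fun u => by
      rw [one_mul]; exact proj_norm_le (S.Q_proj _ _) u)
    (S.opnorm_V (off_blk (sht_notMem t) b _))

theorem EQ_V {f : ℕ ↪ ℕ} {w : Pat} (hw : Off f w) (t : ℕ) (y c : Finset ℕ) (b : Bool)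
    (z : Finset ℕ) :
    S.EQ t (y.map f) (c.map f) b (z.map f) * S.V f w = S.V f w * S.EQ t y c b z := by
  obtain ⟨σ, h1, h2, h3⟩ := exists_lift t f
  have h3' : ∀ i j, sht t i = σ j → ∃ k, f k = i ∧ sht t k = j := fun i j hij => by
    obtain ⟨k, e1, e2⟩ := h3 j i hij.symm
    exact ⟨k, e2, e1⟩
  have := S.sq_mid h1 h3 (off_empty (sht t)) (off_blk (sht_notMem t) b (z.map (sht t))) hw
    (S.Q_V (off_sq h3' hw) (Finset.range t ∪ y.map (sht t)) (c.map (sht t)))
  rwa [pmap_empty, pmap_blk, Finset.map_union, h2, map_sq h1, map_sq h1, map_sq h1] at this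

theorem EQ0_eq (t : ℕ) (y c : Finset ℕ) : S.EQ t y c false ∅ =
    star (S.V (sht t) ∅) * S.Q (Finset.range t ∪ y.map (sht t)) (c.map (sht t)) *
      S.V (sht t) ∅ := by
  simp [EQ, rect]

theorem star_EQ0 (t : ℕ) (y c : Finset ℕ) :
    star (S.EQ t y c false ∅) = S.EQ t y c false ∅ := by
  rw [S.EQ0_eq, star_mul, star_mul, star_star, (S.Q_proj _ _).isSelfAdjoint.star_eq, mul_assoc]

/-- integrating out a block `a` -/
theorem inner_EQ {R : Set ℕ} (hR : Rᶜ.Infinite) {a y c z : Finset ℕ}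
    (ha : Disjoint (a : Set ℕ) R) (hy : (y : Set ℕ) ⊆ R) (hc : (c : Set ℕ) ⊆ R)
    (hz : (z : Set ℕ) ⊆ R) {Y : H →L[ℂ] H} (hY : Y ∈ Alg S.V R) {P P' : Pat} (hP : Supp P R)
    (hP' : Supp P' R) (b : Bool) :
    ⟪S.v P', S.Q (a ∪ y) c (Y (S.v (P ∪ ((if b then fill a else ∅) ∪ rect a z))))⟫_ℂ =
      ⟪S.v P', S.EQ a.card y c b z (Y (S.v P))⟫_ℂ := by
  obtain ⟨f, hf, hi⟩ := exists_fix hR a ha
  have ho := off_blk hi b z
  rw [S.EQ_eq hi, map_fix hf hy, map_fix hf hc, map_fix hf hz]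
  change _ = ⟪S.v P', star (S.V f ∅) (S.Q (a ∪ y) c (S.V f _ (Y (S.v P))))⟫_ℂ
  have e : S.V f ((if b then fill a else ∅) ∪ rect a z) (Y (S.v P)) =
      Y (S.V f ((if b then fill a else ∅) ∪ rect a z) (S.v P)) :=
    (congrArg (fun T : H →L[ℂ] H => T (S.v P)) (S.alg_V hY hf ho)).symm
  rw [inner_star_right, e, S.V_v _ _ _ ho, S.V_v _ _ _ (off_empty f), pmap_fix hf hP,
    pmap_fix hf hP', Finset.union_empty]

theorem Tf_mem (t : ℕ) : S.Tf t ∈ Alg S.V ∅ := by
  refine S.gens_mem ⟨sht t, _, _, off_empty _, off_rect (sht_notMem t) _, ?_, rfl⟩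
  rintro d (hd | hd) i hi
  · exact absurd hd (Finset.notMem_empty d)
  · obtain ⟨k, hk, j, hj, rfl⟩ := mem_rect.1 hd
    rcases Sym2.mem_iff.1 hi with h | h
    · exact absurd (h ▸ hk) (sht_notMem t i)
    · exact absurd (h ▸ hj) (sht_notMem t i)

theorem norm_Tf_le (t : ℕ) : ‖S.Tf t‖ ≤ 1 := by
  refine (norm_mul_le _ _).trans ?_
  rw [norm_star]
  exact mul_le_one₀ (S.opnorm_V (off_empty _)) (norm_nonneg _)
    (S.opnorm_V (off_rect (sht_notMem t) _))

theorem Tf_eq {f : ℕ ↪ ℕ} {a : Finset ℕ} (ha : ∀ i, f i ∉ a) :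
    S.Tf a.card = star (S.V f ∅) * S.V f (fill a) := by
  obtain ⟨π, h1, h2⟩ := exists_blk ha
  have := S.rel h1 (off_empty (sht a.card)) (off_rect (sht_notMem a.card) (Finset.range a.card))
  rw [pmap_empty, pmap_rect, h2] at this
  exact this.symm

theorem inner_Tf {R : Set ℕ} (hR : Rᶜ.Infinite) {a : Finset ℕ} (ha : Disjoint (a : Set ℕ) R)
    {Y : H →L[ℂ] H} (hY : Y ∈ Alg S.V R) {P P' : Pat} (hP : Supp P R) (hP' : Supp P' R) :
    ⟪S.v P', Y (S.v (P ∪ fill a))⟫_ℂ = ⟪S.v P', S.Tf a.card (Y (S.v P))⟫_ℂ := by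
  obtain ⟨f, hf, hi⟩ := exists_fix hR a ha
  have ho : Off f (fill a) := off_rect hi a
  rw [S.Tf_eq hi]
  change _ = ⟪S.v P', star (S.V f ∅) (S.V f _ (Y (S.v P)))⟫_ℂ
  have e : S.V f (fill a) (Y (S.v P)) = Y (S.V f (fill a) (S.v P)) :=
    (congrArg (fun T : H →L[ℂ] H => T (S.v P)) (S.alg_V hY hf ho)).symm
  rw [inner_star_right, e, S.V_v _ _ _ ho, S.V_v _ _ _ (off_empty f), pmap_fix hf hP,
    pmap_fix hf hP', Finset.union_empty]

theorem Tb_mem (n : ℕ) : S.Tb n ∈ Alg S.V ∅ := S.avs_mem (fun _ => S.Tf_mem _) n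

theorem norm_Tb_le (n : ℕ) : ‖S.Tb n‖ ≤ 1 := avs_norm_le S.norm_Tf_le n

end Sys

end NE
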