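import Pool.Agent.Lib.MP_ecee09_co.NE.Stmts

/-! The Hilbert space side of the decomposition theorem: definitions and interface statements. -/

namespace NE

open SD (F sm av ind cnt Tame)
open ComplexConjugate Filter Topology
open scoped InnerProductSpace

/-- finite patterns on the natural numbers -/
abbrev Pat : Type := Finset (Sym2 ℕ)

def pmap (f : ℕ ↪ ℕ) (P : Pat) : Pat := P.image (Sym2.map f)

/-- every pair of `x` has an end outside the range of `f` -/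
def Off (f : ℕ ↪ ℕ) (x : Pat) : Prop := ∀ c ∈ x, ∃ i ∈ c, i ∉ Set.range f

/-- the pattern `P` placed on the natural numbers by `j` -/
noncomputable def pat {U : Type} [Finite U] (j : U → ℕ) (P : Om U) : Pat :=
  ((Set.toFinite {d | P d = 1}).image (Sym2.map j)).toFinset

def rect (a b : Finset ℕ) : Pat := Finset.image₂ (fun i j => s(i, j)) a b

def fill (a : Finset ℕ) : Pat := rect a a

/-- no loop at a point of `R` -/
def NoLoop (P : Pat) (R : Set ℕ) : Prop := ∀ i ∈ R, s(i, i) ∉ P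

/-- all ends of the pairs of `P` lie in `R` -/
def Supp (P : Pat) (R : Set ℕ) : Prop := ∀ c ∈ P, ∀ i ∈ c, i ∈ R

/-- the reservoir -/
def Aa : Set ℕ := {n | Even n}

def sht (t : ℕ) : ℕ ↪ ℕ := addRightEmbedding t

/-- a common value on a pair that is not a loop does not matter -/
def KSD : Prop :=
  ∀ (κ : Ker) (U : Type) [Finite U] (P P' Q Q' : Om U) (c : Sym2 U), ¬ c.IsDiag →
    P c = P' c → Q c = Q' c → (∀ d, d ≠ c → Q d = P d) → (∀ d, d ≠ c → Q' d = P' d) →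
    κ.ρ U Q Q' = κ.ρ U P P'

section hilbert
variable {H : Type} [NormedAddCommGroup H] [InnerProductSpace ℂ H] [CompleteSpace H]

/-- the diagram operators rooted in `R` -/
def Gens (V : (ℕ ↪ ℕ) → Pat → H →L[ℂ] H) (R : Set ℕ) : Set (H →L[ℂ] H) :=
  {T | ∃ f s t, Off f s ∧ Off f t ∧ (∀ c, c ∈ s ∨ c ∈ t → ∀ i, f i ∈ c → i ∈ R) ∧
    T = star (V f s) * V f t}

/-- their bicommutant -/
noncomputable def Alg (V : (ℕ ↪ ℕ) → Pat → H →L[ℂ] H) (R : Set ℕ) :
    StarSubalgebra ℂ (H →L[ℂ] H) :=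
  StarSubalgebra.centralizer ℂ (StarSubalgebra.centralizer ℂ (Gens V R) : Set (H →L[ℂ] H))

/-- the joint kernel -/
def jk (N : Set (H →L[ℂ] H)) : Submodule ℂ H where
  carrier := {h | ∀ n ∈ N, n h = 0}
  zero_mem' := fun n _ => map_zero n
  add_mem' := fun ha hb n hn => by rw [map_add, ha n hn, hb n hn, add_zero]
  smul_mem' := fun c _ h n hn => by rw [map_smul, h n hn, smul_zero]

theorem jk_closed (N : Set (H →L[ℂ] H)) : IsClosed (jk N : Set H) := by
  have : (jk N : Set H) = ⋂ n ∈ N, n ⁻¹' {0} := by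
    ext h; simp only [Set.mem_iInter]; rfl
  rw [this]
  exact isClosed_biInter fun n _ => isClosed_singleton.preimage n.continuous

instance jkProj (N : Set (H →L[ℂ] H)) : (jk N).HasOrthogonalProjection :=
  haveI : CompleteSpace (jk N) := (jk_closed N).completeSpace_coe
  inferInstance

/-- the orthogonal projection on the joint kernel -/
noncomputable def kp (N : Set (H →L[ℂ] H)) : H →L[ℂ] H := (jk N).starProjection

end hilbert

/-- the Hilbert space of a kernel: vectors of patterns and isometries of injections -/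
structure Sys (κ : Ker) (H : Type) [NormedAddCommGroup H] [InnerProductSpace ℂ H]
    [CompleteSpace H] where
  v : Pat → H
  V : (ℕ ↪ ℕ) → Pat → H →L[ℂ] H
  link : ∀ (U : Type) [Finite U] (j : U → ℕ), Function.Injective j → ∀ P P' : Om U,
    ⟪v (pat j P'), v (pat j P)⟫_ℂ = κ.ρ U P P'
  V_v : ∀ f x P, Off f x → V f x (v P) = v (pmap f P ∪ x)
  V_iso : ∀ f x, Off f x → star (V f x) * V f x = 1
  V_one : V (Function.Embedding.refl ℕ) ∅ = 1
  V_comp : ∀ f g x y, Off f x → Off g y → V g y * V f x = V (f.trans g) (pmap g x ∪ y)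
  V_sq : ∀ f g f' σ s y, f.trans σ = g.trans f' → (∀ i j, σ i = f' j → ∃ k, f k = i ∧ g k = j) →
    Off f s → Off g y → star (V f' (pmap σ s)) * V σ (pmap f' y) = V g y * star (V f s)
  V_sd : ∀ f s t c, Off f (insert c s) → Off f t → ¬ c.IsDiag → c ∉ s → c ∉ t →
    star (V f (insert c s)) * V f (insert c t) = star (V f s) * V f t
  sd : ∀ Y ∈ Alg V Set.univ, ∀ (c : Sym2 ℕ) (P P' : Pat), ¬ c.IsDiag → c ∉ P → c ∉ P' →
    ⟪v (insert c P'), Y (v (insert c P))⟫_ℂ = ⟪v P', Y (v P)⟫_ℂ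

namespace Sys
variable {κ : Ker} {H : Type} [NormedAddCommGroup H] [InnerProductSpace ℂ H] [CompleteSpace H]
  (S : Sys κ H)

/-- one fresh index, source row `y`, target row `x` -/
noncomputable def G (x y : Finset ℕ) : H →L[ℂ] H :=
  star (S.V (sht 1) (rect {0} (y.map (sht 1)))) * S.V (sht 1) (rect {0} (x.map (sht 1)))

/-- the event `x ~ y` -/
noncomputable def Q (x y : Finset ℕ) : H →L[ℂ] H := kp {S.G x y - 1}

/-- a fresh block `a` of size `t`: the event `a + y ~ c`, source zero, target the rectangle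
`a x z` and, if `b`, the square of `a` -/
noncomputable def EQ (t : ℕ) (y c : Finset ℕ) (b : Bool) (z : Finset ℕ) : H →L[ℂ] H :=
  star (S.V (sht t) ∅) * S.Q (Finset.range t ∪ y.map (sht t)) (c.map (sht t)) *
    S.V (sht t) ((if b then fill (Finset.range t) else ∅) ∪ rect (Finset.range t) (z.map (sht t)))

/-- filling a fresh block of size `t` -/
noncomputable def Tf (t : ℕ) : H →L[ℂ] H :=
  star (S.V (sht t) ∅) * S.V (sht t) (fill (Finset.range t))

/-- average over the sizes `1 .. n + 1` -/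
noncomputable def avs (n : ℕ) (Y : ℕ → H →L[ℂ] H) : H →L[ℂ] H :=
  ((n + 1 : ℕ) : ℂ)⁻¹ • ∑ t ∈ Finset.range (n + 1), Y (t + 1)

noncomputable def Tb (n : ℕ) : H →L[ℂ] H := avs n S.Tf

noncomputable def Pib (n : ℕ) (y c : Finset ℕ) : H →L[ℂ] H := avs n fun t => S.EQ t y c false ∅

/-- collision probability of two fresh blocks on the event `Y` -/
noncomputable def col (n : ℕ) (Y : H →L[ℂ] H) : ℝ :=
  av fun t : Fin (n + 1) => av fun t' : Fin (n + 1) =>
    ‖S.Q ((Finset.range (t + 1)).image fun i => 4 * i + 1)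
      ((Finset.range (t' + 1)).image fun i => 4 * i + 3) (Y (S.v ∅))‖ ^ 2

/-- at most `m` classes among the finite subsets of the reservoir -/
noncomputable def Cm (m : ℕ) : H →L[ℂ] H :=
  kp {B | ∃ y : Fin (m + 1) → Finset ℕ, (∀ i, (y i : Set ℕ) ⊆ Aa) ∧
    B = kp {q | ∃ i j, i ≠ j ∧ q = S.Q (y i) (y j)}}

/-- every finite subset of `W` has a representative inside `R` -/
noncomputable def Rep (W : Set ℕ) (R : Finset ℕ) : H →L[ℂ] H :=
  kp {B | ∃ y : Finset ℕ, (y : Set ℕ) ⊆ W ∧ B = kp {q | ∃ x, x ⊆ R ∧ q = S.Q y x}}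

end Sys

/-- an event on which the classes form the group `E`, with representatives in three pieces -/
structure Atom {κ : Ker} {H : Type} [NormedAddCommGroup H] [InnerProductSpace ℂ H]
    [CompleteSpace H] (S : Sys κ H) (E : Type) [AddCommGroup E] [Fintype E] where
  La : H →L[ℂ] H
  proj : IsStarProjection La
  mem : La ∈ Alg S.V Aa
  x : Fin 3 → E → Finset ℕ
  sub : ∀ r e, (x r e : Set ℕ) ⊆ Aa
  disj : ∀ r r' e e', r ≠ r' → Disjoint (x r e) (x r' e')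
  same : ∀ r r' e, S.Q (x r e) (x r' e) * La = La
  diff : ∀ r r' e e', e ≠ e' → S.Q (x r e) (x r' e') * La = 0
  zero : S.Q (x 0 0) ∅ * La = La
  add : ∀ r r' r'' e e', r ≠ r' → S.Q (x r e ∪ x r' e') (x r'' (e + e')) * La = La
  cover : ∀ a : Finset ℕ, Disjoint (a : Set ℕ) Aa →
    ∑ e, S.Q a (x 0 e) (La (S.v ∅)) = La (S.v ∅)

/-- rectangles between labelled blocks act by the phase `be` -/
def Atom.Rect {κ : Ker} {H : Type} [NormedAddCommGroup H] [InnerProductSpace ℂ H]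
    [CompleteSpace H] {S : Sys κ H} {E : Type} [AddCommGroup E] [Fintype E] (A : Atom S E)
    (be : E →+ E →+ TT) : Prop :=
  ∀ (a b : Finset ℕ) (e e' : E) (P : Pat), Disjoint (a : Set ℕ) Aa → Disjoint (b : Set ℕ) Aa →
    Disjoint a b → Disjoint P (rect a b) → NoLoop P (Aa ∪ a ∪ b) →
    A.La (S.Q a (A.x 0 e) (S.Q b (A.x 0 e') (S.v (P ∪ rect a b)))) =
      ee (be e e') • A.La (S.Q a (A.x 0 e) (S.Q b (A.x 0 e') (S.v P)))

def GNS : Prop :=
  ∀ κ : Ker, ∃ (H : Type) (_ : NormedAddCommGroup H) (_ : InnerProductSpace ℂ H)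
    (_ : CompleteSpace H), Nonempty (Sys κ H)

def CD : Prop :=
  ∀ (κ : Ker) (H : Type) [NormedAddCommGroup H] [InnerProductSpace ℂ H] [CompleteSpace H]
    (S : Sys κ H) (y : Finset ℕ) (δ : ℝ), 0 < δ → ∀ᶠ n in atTop, ∀ c : Finset ℕ, Disjoint y c →
      ‖S.Pib n y c (S.v ∅) - S.Pib n ∅ c (S.v ∅)‖ ≤ δ

def AA : Prop :=
  ∀ (κ : Ker) (H : Type) [NormedAddCommGroup H] [InnerProductSpace ℂ H] [CompleteSpace H]
    (S : Sys κ H) (m : ℕ) (δ : ℝ), 0 < δ →
      ∀ᶠ n in atTop, S.col n (1 - S.Cm m) ≤ 1 / (m + 1) + δ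

def TL : Prop :=
  ∀ (κ : Ker) (H : Type) [NormedAddCommGroup H] [InnerProductSpace ℂ H] [CompleteSpace H]
    (S : Sys κ H) (Y : H →L[ℂ] H), IsStarProjection Y → Y ∈ Alg S.V Aa →
      ∀ (n' : ℕ) (δ : ℝ), 0 < δ → ∀ᶠ n in atTop, ‖S.Tb n (Y (S.v ∅))‖ ^ 16 ≤ S.col n' Y + δ

def BB : Prop :=
  ∀ (κ : Ker) (H : Type) [NormedAddCommGroup H] [InnerProductSpace ℂ H] [CompleteSpace H]
    (S : Sys κ H) (m : ℕ) (δ : ℝ), 0 < δ → ∃ R : Finset ℕ, (R : Set ℕ) ⊆ Aa ∧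
      ‖S.Cm m (S.v ∅) - S.Rep Aa R (S.Cm m (S.v ∅))‖ ≤ δ

/-- the group of classes -/
def GRP : Prop :=
  ∀ (R : Fin 4 → Finset ℕ) (W : Finset ℕ) (r : Finset ℕ → Finset ℕ → Prop),
    (∀ l l', l ≠ l' → Disjoint (R l) (R l')) → (∀ l, R l ⊆ W) →
    (∀ x, x ⊆ W → r x x) → (∀ x y, x ⊆ W → y ⊆ W → r x y → r y x) →
    (∀ x y z, x ⊆ W → y ⊆ W → z ⊆ W → r x y → r y z → r x z) →
    (∀ x y z, x ⊆ W → y ⊆ W → z ⊆ W → Disjoint x z → Disjoint y z →
      (r (x ∪ z) (y ∪ z) ↔ r x y)) →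
    (∀ l y, y ⊆ W → ∃ x, x ⊆ R l ∧ r y x) →
    ∃ (E : Type) (_ : AddCommGroup E) (_ : Fintype E) (cl : Finset ℕ → E),
      (∀ x y, x ⊆ W → y ⊆ W → (cl x = cl y ↔ r x y)) ∧ cl ∅ = 0 ∧
      (∀ l l' x y, l ≠ l' → x ⊆ R l → y ⊆ R l' → cl (x ∪ y) = cl x + cl y) ∧
      ∀ l e, ∃ x, x ⊆ R l ∧ cl x = e

def SPLIT : Prop :=
  ∀ (κ : Ker) (H : Type) [NormedAddCommGroup H] [InnerProductSpace ℂ H] [CompleteSpace H]
    (S : Sys κ H) (ε : ℝ), 0 < ε →
      ∃ (m : ℕ) (E : Fin m → Type) (_ : ∀ i, AddCommGroup (E i)) (_ : ∀ i, Fintype (E i))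
        (A : ∀ i, Atom S (E i)), (∀ i j, i ≠ j → (A i).La * (A j).La = 0) ∧
        ∀ᶠ n in atTop, ‖S.Tb n (S.v ∅ - ∑ i, (A i).La (S.v ∅))‖ ≤ ε

/-- a fresh block of random size has a uniform label -/
def PIB : Prop :=
  ∀ (κ : Ker) (H : Type) [NormedAddCommGroup H] [InnerProductSpace ℂ H] [CompleteSpace H]
    (S : Sys κ H) (E : Type) [AddCommGroup E] [Fintype E] (A : Atom S E) (e : E),
      Tendsto (fun n => S.Pib n ∅ (A.x 0 e) (A.La (S.v ∅))) atTop
        (𝓝 ((Fintype.card E : ℂ)⁻¹ • A.La (S.v ∅)))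

def BE : Prop :=
  ∀ (κ : Ker) (H : Type) [NormedAddCommGroup H] [InnerProductSpace ℂ H] [CompleteSpace H]
    (S : Sys κ H) (E : Type) [AddCommGroup E] [Fintype E] (A : Atom S E),
      ∃ (m : ℕ) (A' : Fin m → Atom S E) (be : Fin m → E →+ E →+ TT),
        (∀ j, (A' j).La * A.La = (A' j).La) ∧
        (∀ j j', j ≠ j' → (A' j).La ((A' j').La (S.v ∅)) = 0) ∧
        ∑ j, (A' j).La (S.v ∅) = A.La (S.v ∅) ∧
        ∀ j, (∀ x y, be j x y = be j y x) ∧ (∀ x, be j x = 0 → x = 0) ∧ (A' j).Rect (be j)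

/-- a symmetric biadditive form is a polar form -/
def QEX : Prop :=
  ∀ (E : Type) [AddCommGroup E] (be : E →+ E →+ TT), (∀ x y, be x y = be y x) →
    ∃ τ : QT E, τ.be = be

def QQ : Prop :=
  ∀ (κ : Ker) (H : Type) [NormedAddCommGroup H] [InnerProductSpace ℂ H] [CompleteSpace H]
    (S : Sys κ H) (E : Type) [AddCommGroup E] [Fintype E] (A : Atom S E) (be : E →+ E →+ TT),
      (∀ x y, be x y = be y x) → (∀ x, be x = 0 → x = 0) → A.Rect be →
      ∃ (m : ℕ) (R : Fin m → H →L[ℂ] H) (τ : Fin m → QT E),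
        (∀ j, (τ j).ND ∧ IsStarProjection (R j) ∧ R j ∈ Alg S.V Aa ∧ R j * A.La = R j) ∧
        (∀ j j', j ≠ j' → R j (R j' (S.v ∅)) = 0) ∧
        Tendsto (fun n => S.Tb n (A.La (S.v ∅) - ∑ j, R j (S.v ∅))) atTop (𝓝 0) ∧
        ∀ (j : Fin m) (K : Type) [Finite K] (jj : ∀ n : ℕ, K × Fin (n + 1) → ℕ),
          (∀ n, Function.Injective (jj n)) → (∀ n p, jj n p ∉ Aa) → ∀ P P' : Om K,
          Tendsto (fun n => cav fun s : K → Fin (n + 1) =>
              ⟪S.v (pat (jj n) (ow 0 (blk s) P')), R j (S.v (pat (jj n) (ow 0 (blk s) P)))⟫_ℂ)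
            atTop (𝓝 (((‖R j (S.v ∅)‖ ^ 2 : ℝ) : ℂ) * model (τ j) P P'))

end NE
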