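import Pool.Agent.Lib.MP_ecee09_co.NE.PL
import Pool.Agent.Lib.MP_ecee09_co.NE.Defs3

/-! The Gaussian step, planting part: the planted density and the joint probe. -/

namespace NE

open SD

section plant
variable {I K L : Type}

/-- the planted density -/
noncomputable def pld (A : Om I) (Φ : Lab I K) : ℝ :=
  2 ^ (ins Φ).ncard * av fun P : Om K => ind (ow A Φ P = A)

variable [Finite K] [Finite L]

lemma pld_nonneg (A : Om I) (Φ : Lab I K) : 0 ≤ pld A Φ :=
  mul_nonneg (by positivity) (av_ind_nonneg _)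

lemma pld_le (A : Om I) (Φ : Lab I K) : pld A Φ ≤ 2 ^ (ins Φ).ncard :=
  mul_le_of_le_one_right (by positivity) (av_ind_le_one _)

omit [Finite K] in
lemma pld_dep (Φ : Lab I K) : Dep (ins Φ) fun A => pld A Φ := fun A A' e =>
  congrArg _ (av_congr fun P => ind_congr (by
    rw [ow_eq_iff A 0, ow_eq_iff A' 0]
    exact forall₂_congr fun d hd => by rw [e d hd]))

omit [Finite K] in
lemma pld_pos {A : Om I} {Φ : Lab I K} (h : pld A Φ ≠ 0) : ∃ P, ow A Φ P = A :=
  by_contra fun h' => h (by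
    rw [pld, av_congr fun P => ind_neg fun e => h' ⟨P, e⟩, av_zero, mul_zero])

lemma pld_ow {Φ : Lab I K} (h : Good Φ) (A : Om I) (Q : Om K) :
    pld (ow A Φ Q) Φ = 2 ^ (ins Φ).ncard * (1 / Nat.card (Om K)) := by
  rw [pld, ← av_ind_eq Q fun _ => 1]
  simp only [ow_ow, (h.ow_inj A).eq_iff, mul_one]

lemma pld_av [Finite I] (Φ : Lab I K) (f : Om I → ℝ) :
    av (fun A => pld A Φ * f A) = av fun A => av fun P => f (ow A Φ P) := by
  have e : ∀ A, pld A Φ * f A = av fun P : Om K =>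
      2 ^ (ins Φ).ncard * (ind (∀ c ∈ ins Φ, A c = ow 0 Φ P c) * f (ow A Φ P)) := fun A => by
    rw [av_mul_left, pld, mul_assoc, ← av_mul_right]
    refine congrArg _ (av_congr fun P => ?_)
    rw [← ow_eq_iff A 0]
    by_cases h : ow A Φ P = A
    · rw [h]
    · rw [ind_neg h, zero_mul, zero_mul]
  rw [av_congr e, av_comm, av_comm fun A P => f (ow A Φ P)]
  refine av_congr fun P => ?_
  rw [av_mul_left, pl_indep (S := ins Φ) disjoint_compl_right
    (f := fun A => ind (∀ c ∈ ins Φ, A c = ow 0 Φ P c)) (g := fun A => f (ow A Φ P))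
    (fun A A' e => ind_congr (forall₂_congr fun d hd => by rw [e d hd]))
    (dep_compl P fun A => by rw [ow_ow]), pl_agree, Nat.card_zmod, ← mul_assoc, ← mul_pow]
  norm_num

lemma pld_one [Finite I] (Φ : Lab I K) : av (fun A => pld A Φ) = 1 := by
  simpa only [mul_one, av_const] using pld_av Φ fun _ => 1

lemma pld_two [Finite I] {Φ : Lab I K} {Φ' : Lab I L} (h : Disjoint (ins Φ) (ins Φ'))
    (f : Om I → ℝ) : av (fun A => pld A Φ * pld A Φ' * f A) =
      av fun A => av fun P => av fun P' => f (ow (ow A Φ P) Φ' P') := by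
  rw [← pld_av Φ fun A => av fun P' => f (ow A Φ' P')]
  simp only [mul_comm (pld _ Φ) (pld _ Φ'), mul_assoc]
  rw [pld_av Φ' fun A => pld A Φ * f A]
  refine av_congr fun A => ?_
  rw [← av_mul_left]
  refine av_congr fun P' => congrArg (· * _) (pld_dep Φ _ _ fun c hc => ow_of_none ?_)
  exact not_not.1 (Set.disjoint_left.1 h hc)

omit [Finite K] [Finite L] in
lemma gq_lft {Φ : Lab I (K ⊕ L)} {i : I} {k : K} : lft Φ i = some k ↔ Φ i = some (.inl k) := by
  unfold lft
  rcases Φ i with _ | a | a <;> simp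

omit [Finite K] [Finite L] in
lemma gq_rgt {Φ : Lab I (K ⊕ L)} {i : I} {k : L} : rgt Φ i = some k ↔ Φ i = some (.inr k) := by
  unfold rgt
  rcases Φ i with _ | a | a <;> simp

omit [Finite K] [Finite L] in
lemma gq_disj (Φ : Lab I (K ⊕ L)) : Disjoint (ins (lft Φ)) (ins (rgt Φ)) := by_contra fun h => by
  obtain ⟨i, h1, h2⟩ := ins_meet h
  obtain ⟨k, hk⟩ := Option.ne_none_iff_exists'.1 h1
  obtain ⟨l, hl⟩ := Option.ne_none_iff_exists'.1 h2
  simpa using (gq_lft.1 hk).symm.trans (gq_rgt.1 hl)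

omit [Finite K] [Finite L] in
lemma gq_spr_inl {E : Type} [AddCommGroup E] (t : K → E) (Φ : Lab I (K ⊕ L)) :
    spr (Sum.elim t 0) Φ = spr t (lft Φ) := by
  funext i
  unfold spr lft
  rcases Φ i with _ | a | a <;> rfl

omit [Finite K] [Finite L] in
lemma gq_spr_inr {E : Type} [AddCommGroup E] (t : L → E) (Φ : Lab I (K ⊕ L)) :
    spr (Sum.elim 0 t) Φ = spr t (rgt Φ) := by
  funext i
  unfold spr rgt
  rcases Φ i with _ | a | a <;> rfl

end plant

section joint
variable {α β γ δ I : Type} [Finite α] [Finite β] [Finite δ] [Finite I]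

lemma gq_fun (e : α ⊕ β ≃ γ) (G : (α → δ) → (β → δ) → ℝ) :
    av (fun f : γ → δ => G (fun a => f (e (.inl a))) fun b => f (e (.inr b))) =
      av fun f => av fun g => G f g := by
  rw [← av_prod fun p : (α → δ) × (β → δ) => G p.1 p.2,
    ← av_equiv ((Equiv.arrowCongr e.symm (Equiv.refl δ)).trans
      (Equiv.sumArrowEquivProdArrow α β δ))]
  rfl

/-- two independent embeddings against one joint embedding -/
lemma gq_emb (e : α ⊕ β ≃ γ) [Nonempty (γ ↪ I)] (G : (α ↪ I) → (β ↪ I) → ℝ) {M η : ℝ}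
    (hM : 0 ≤ M) (hη : 0 ≤ η) (hG : ∀ a b, G a b ≤ M)
    (h : av (fun ι : γ ↪ I => G (Function.Embedding.inl.trans (e.toEmbedding.trans ι))
      (Function.Embedding.inr.trans (e.toEmbedding.trans ι))) ≤ η) :
    av (fun a => av fun b => G a b) ≤ η + M * (Nat.card α * Nat.card β / Nat.card I) := by
  let q : (γ ↪ I) ≃ {f : (α ↪ I) × (β ↪ I) // Disjoint (Set.range f.1) (Set.range f.2)} :=
    (Equiv.embeddingCongr e.symm (Equiv.refl I)).trans Equiv.sumEmbeddingEquivProdEmbeddingDisjoint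
  have hD : Nonempty {f : (α ↪ I) × (β ↪ I) // Disjoint (Set.range f.1) (Set.range f.2)} :=
    ⟨q (Classical.arbitrary _)⟩
  have hP : Nonempty ((α ↪ I) × (β ↪ I)) := ⟨(q (Classical.arbitrary _)).1⟩
  have h1 : av (fun f : {f : (α ↪ I) × (β ↪ I) // Disjoint (Set.range f.1) (Set.range f.2)} =>
      G f.1.1 f.1.2) ≤ η := by
    rw [← av_equiv q]
    exact h
  have h2 : av (fun f : (α ↪ I) × (β ↪ I) =>
      ind (Disjoint (Set.range f.1) (Set.range f.2)) * G f.1 f.2) ≤ η := by
    rw [av_def, ← sm_subtype _ fun f : (α ↪ I) × (β ↪ I) => G f.1 f.2, sm_eq_card_mul_av,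
      div_le_iff₀ card_pos', mul_comm η]
    exact (mul_le_mul_of_nonneg_left h1 (Nat.cast_nonneg _)).trans (mul_le_mul_of_nonneg_right
      (Nat.cast_le.2 (Nat.card_le_card_of_injective _ Subtype.val_injective)) hη)
  have h3 := mul_le_mul_of_nonneg_left (emb_meet (U := α) (U' := β) (I := I)) hM
  rw [← av_prod fun f : (α ↪ I) × (β ↪ I) => ind (∃ i, i ∈ Set.range f.1 ∧ i ∈ Set.range f.2),
    ← av_mul_left] at h3
  rw [← av_prod fun f : (α ↪ I) × (β ↪ I) => G f.1 f.2]
  refine le_trans (av_mono fun f => ?_) ((av_add _ _).trans_le (add_le_add h2 h3))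
  by_cases hd : Disjoint (Set.range f.1) (Set.range f.2)
  · rw [ind_pos hd, one_mul]
    exact le_add_of_nonneg_right (mul_nonneg hM (ind_nonneg _))
  · rw [ind_neg hd, zero_mul, zero_add, ind_pos (Set.not_disjoint_iff.1 hd), mul_one]
    exact hG _ _

end joint

/-- the probes -/
abbrev Prb (I κ : Type) (m s : ℕ) : Type :=
  ((κ × Fin m × Fin s → Tg) × (κ × Fin m × Tg → Bool)) × (κ × Fin m × Fin s ↪ I)

section probe
variable {I K κ X : Type} {m s : ℕ}

/-- the label of a probe -/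
noncomputable def gprl (o : Prb I κ m s) : Lab I κ := plab o.2 o.1.1 o.1.2

/-- a part of a probe -/
def prr (j : K ↪ κ) (o : Prb I κ m s) : Prb I K m s :=
  ((fun u => o.1.1 (j u.1, u.2), fun v => o.1.2 (j v.1, v.2)),
    (j.prodMap (Function.Embedding.refl _)).trans o.2)

lemma prl_some {o : Prb I κ m s} {i : I} {k : κ} :
    gprl o i = some k ↔ ∃ v, o.2 (k, v) = i ∧ o.1.2 (k, v.1, o.1.1 (k, v)) = true := by
  simp only [gprl, plab, lcomp_eq_some, crd_eq_some o.2.injective, tl3, zl, Option.some.injEq,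
    exists_eq_left', Option.ite_none_right_eq_some]
  exact ⟨fun ⟨u, h1, h2, h3⟩ => h3 ▸ ⟨u.2, h1, h2⟩, fun ⟨v, h1, h2⟩ => ⟨(k, v), h1, h2, rfl⟩⟩

lemma prl_inl (o : Prb I (K ⊕ κ) m s) : gprl (prr Function.Embedding.inl o) = lft (gprl o) :=
  funext fun _ => Option.ext fun _ => by rw [gq_lft, prl_some, prl_some]; rfl

lemma prl_inr (o : Prb I (K ⊕ κ) m s) : gprl (prr Function.Embedding.inr o) = rgt (gprl o) :=
  funext fun _ => Option.ext fun _ => by rw [gq_rgt, prl_some, prl_some]; rfl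

variable [Finite I] [Finite K] [Finite X]

lemma prl_pld (A : Om I) (o : Prb I K m s) :
    pld A (gprl o) ≤ 2 ^ Nat.card (K × Fin m × Fin s) ^ 2 := by
  refine (pld_le _ _).trans (pow_le_pow_right₀ one_le_two ((ins_card _).trans
    (Nat.pow_le_pow_left ?_ 2)))
  rw [← Set.ncard_range_of_injective o.2.injective]
  refine Set.ncard_le_ncard fun i hi => ?_
  obtain ⟨k, hk⟩ := Option.ne_none_iff_exists'.1 hi
  obtain ⟨v, hv, -⟩ := prl_some.1 hk
  exact ⟨_, hv⟩

/-- empty blocks are rare -/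
lemma prl_bad [Nonempty (K × Fin m × Fin s ↪ I)] (hs : 1 ≤ s) :
    av (fun o : Prb I K m s => ind (¬ Good (gprl o))) ≤ Nat.card K * (1 / 2) ^ m := by
  rw [av_prod, av_comm]
  refine av_le_const fun ι => ?_
  rw [av_prod]
  refine av_le_const fun tg => ?_
  let S : K → Set (K × Fin m × Tg) := fun k => Set.range fun j => (k, j, tg (k, j, ⟨0, hs⟩))
  refine le_trans (av_mono (g := fun Ξ : K × Fin m × Tg → Bool =>
    sm fun k => ind (∀ c ∈ S k, Ξ c = false)) fun Ξ => ?_) (le_of_eq ?_)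
  · refine le_trans (ind_mono fun h => ?_) (ind_exists_le _)
    obtain ⟨k, hk⟩ := not_forall.1 h
    refine ⟨k, Set.forall_mem_range.2 fun j => ?_⟩
    exact Bool.eq_false_iff.2 fun e => hk ⟨_, prl_some.2 ⟨(j, ⟨0, hs⟩), rfl, e⟩⟩
  · rw [av_sm_comm, ← sm_const]
    refine sm_congr fun k => ?_
    rw [pl_agree (S k) fun _ => false, Set.ncard_range_of_injective
      fun j j' e => (Prod.ext_iff.1 (Prod.ext_iff.1 e).2).1]
    simp

lemma gq_pair [Nonempty ((K ⊕ K) × Fin m × Fin s ↪ I)] (G : Prb I K m s → Prb I K m s → ℝ)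
    {M η : ℝ} (hM : 0 ≤ M) (hη : 0 ≤ η) (hG : ∀ a b, G a b ≤ M)
    (h : av (fun ω : Prb I (K ⊕ K) m s =>
      G (prr Function.Embedding.inl ω) (prr Function.Embedding.inr ω)) ≤ η) :
    av (fun a => av fun b => G a b) ≤
      η + M * ((Nat.card (K × Fin m × Fin s) : ℝ) ^ 2 / Nat.card I) := by
  have k := gq_emb (I := I) (Equiv.sumProdDistrib K K (Fin m × Fin s)).symm
    (fun ι ι' => av fun tg => av fun tg' => av fun Ξ => av fun Ξ' =>
      G ((tg, Ξ), ι) ((tg', Ξ'), ι')) hM hη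
    (fun _ _ => av_le_const fun _ => av_le_const fun _ => av_le_const fun _ =>
      av_le_const fun _ => hG _ _) (by
      rw [av_prod, av_comm] at h
      refine le_trans (le_of_eq (av_congr fun ι => ?_)) h
      rw [av_prod, ← gq_fun (Equiv.sumProdDistrib K K (Fin m × Fin s)).symm]
      refine av_congr fun tg => ?_
      rw [← gq_fun (Equiv.sumProdDistrib K K (Fin m × Tg)).symm]
      rfl)
  rw [sq]
  refine le_trans (le_of_eq ?_) k
  rw [av_prod, av_comm]
  refine av_congr fun ι => ?_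
  simp only [av_prod (fun b => G _ b)]
  simp only [av_comm fun z ι' => G _ (z, ι')]
  rw [av_comm]
  refine av_congr fun ι' => ?_
  rw [av_prod]
  refine av_congr fun tg => ?_
  simp only [av_prod (fun z => G _ (z, ι'))]
  exact av_comm _

/-- two planted averages against the joint probe -/
lemma gq_probe [Nonempty ((K ⊕ K) × Fin m × Fin s ↪ I)] (f g : X × Om I → Lab I K → ℝ)
    (h : X × Om I → ℝ) {M η : ℝ} (hη : 0 ≤ η) (hb : ∀ x Φ Φ', f x Φ * g x Φ' ≤ h x)
    (h0 : ∀ x, 0 ≤ h x) (hM : av h ≤ M)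
    (hJ : av (fun ω : Prb I (K ⊕ K) m s => av fun x : X × Om I => av fun P => av fun P' =>
      f (x.1, ow (ow x.2 (lft (gprl ω)) P) (rgt (gprl ω)) P') (lft (gprl ω)) *
        g (x.1, ow (ow x.2 (lft (gprl ω)) P) (rgt (gprl ω)) P') (rgt (gprl ω))) ≤ η) :
    av (fun x : X × Om I => av (fun o : Prb I K m s => pld x.2 (gprl o) * f x (gprl o)) *
      av fun o : Prb I K m s => pld x.2 (gprl o) * g x (gprl o)) ≤
      η + M * (4 ^ Nat.card (K × Fin m × Fin s) ^ 2 *
        (Nat.card (K × Fin m × Fin s) : ℝ) ^ 2 / Nat.card I) := by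
  have hM0 : 0 ≤ M := (av_nonneg h0).trans hM
  have k := gq_pair (fun a b : Prb I K m s => av fun x : X × Om I =>
    pld x.2 (gprl a) * pld x.2 (gprl b) * (f x (gprl a) * g x (gprl b)))
    (M := 4 ^ Nat.card (K × Fin m × Fin s) ^ 2 * M) (by positivity) hη (fun a b => by
      refine le_trans (av_mono fun x => ?_) ((av_mul_left _ h).trans_le
        (mul_le_mul_of_nonneg_left hM (by positivity)))
      refine (mul_le_mul_of_nonneg_left (hb x _ _)
        (mul_nonneg (pld_nonneg _ _) (pld_nonneg _ _))).trans (mul_le_mul_of_nonneg_right ?_ (h0 x))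
      rw [show (4 : ℝ) = 2 * 2 by norm_num, mul_pow]
      exact mul_le_mul (prl_pld _ _) (prl_pld _ _) (pld_nonneg _ _) (by positivity)) (by
      refine le_trans (le_of_eq (av_congr fun ω => ?_)) hJ
      rw [prl_inl, prl_inr, av_prod, av_prod]
      exact av_congr fun b => pld_two (gq_disj _) fun A =>
        f (b, A) (lft (gprl ω)) * g (b, A) (rgt (gprl ω)))
  refine le_trans (le_of_eq ?_) (k.trans_eq (by ring))
  simp only [av_mul_av]
  rw [av_comm]
  refine av_congr fun a => ?_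
  rw [av_comm]
  exact av_congr fun b => av_congr fun x => by ring

end probe

end NE
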