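import Pool.Agent.Lib.MP_ecee09_co.SD.GG
import Pool.Agent.Lib.MP_ecee09_co.NE.GGa
import Pool.Agent.Lib.MP_ecee09_co.NE.FldR
import Pool.Agent.Lib.MP_ecee09_co.NE.MRF

/-! The Gaussian step: one form of the Gaussian test, invariance on cells, the gain estimate. -/

namespace NE

open SD
open ComplexConjugate

section test
variable {E : Type} [AddCommGroup E]

/-- depends only on the sum and the sum of squared norms, on admitted vectors -/
def InvU {T : Type} [Fintype T] (τ : QT E) (Ψ : (T → ℂ) → ℝ) : Prop :=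
  ∀ Y Y' : T → ℂ, Adm τ Y → Adm τ Y' → ∑ t, Y t = ∑ t, Y' t →
    ∑ t, ‖Y t‖ ^ 2 = ∑ t, ‖Y' t‖ ^ 2 → Ψ Y = Ψ Y'

/-- the Gaussian test in both cases -/
def GTU (τ : QT E) : Prop :=
  ∃ τ0 : ℝ, 0 < τ0 ∧ ∀ (T : Type) [Fintype T] (o : T) (η : ℝ), 0 < η →
    ∃ (Ψ Ψ1 Ψ2 : (T → ℂ) → ℝ) (C : ℝ) (R : ℕ) (δ : ℝ), 0 < δ ∧
      InvU τ Ψ ∧ InvU τ Ψ1 ∧ (∀ X, 0 ≤ Ψ X) ∧ (∀ X, Ψ X ≤ C) ∧ (∀ X, |Ψ1 X| ≤ C) ∧
      (∀ X, 0 ≤ Ψ2 X) ∧ (∀ X, Ψ2 X ≤ C) ∧ (∀ X, Ψ1 X ^ 2 ≤ Ψ X * Ψ2 X) ∧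
      ∀ (Ω L : Type) [Finite Ω] (Y : Ω → L → ℂ) (e1 e2 : T → L),
        (∀ w, Adm τ (Y w)) → Function.Injective e1 → Function.Injective e2 → e1 o = e2 o →
        (∀ t t', e1 t = e2 t' → t = o) →
        (∀ R' : ℕ, R' ≤ R → ∀ (l : Fin R' → L) (ε : Fin R' → Bool),
          ‖(cav fun w => ∏ r, cj (ε r) (Y w (l r))) - ((pmx τ l ε : ℝ) : ℂ)‖ ≤ δ) →
        av (fun w => (Ψ (Y w ∘ e1) - 1) * (Ψ (Y w ∘ e2) - 1)) ≤ η ∧
        av (fun w => (Ψ1 (Y w ∘ e1) - τ0 * (Y w (e1 o)).re) *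
          (Ψ1 (Y w ∘ e2) - τ0 * (Y w (e1 o)).re)) ≤ η ∧
        av (fun w => Ψ2 (Y w ∘ e1)) ≤ 1

lemma gq_re {z : ℂ} (h : z.im = 0) : (z.re : ℂ) = z := Complex.ext rfl (by simpa using h.symm)

lemma gq_sq {z : ℂ} (h : z.im = 0) : z.re ^ 2 = ‖z‖ ^ 2 := by
  rw [Complex.sq_norm, Complex.normSq_apply, h]; ring

lemma gq_inv2 {T : Type} [Fintype T] {τ : QT E} (hr : τ.Real) {Ψ : (T → ℝ) → ℝ} (h : Inv2 Ψ) :
    InvU τ fun Y => Ψ fun t => (Y t).re := fun Y Y' a a' e e' =>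
  h _ _ (by rw [← Complex.re_sum, ← Complex.re_sum, e])
    (by simpa only [gq_sq (a hr _), gq_sq (a' hr _)] using e')

theorem gtu_of (h1 : GTW) (h2 : GT2) (τ : QT E) : GTU τ := by
  by_cases hr : τ.Real
  · obtain ⟨τ0, h0, h⟩ := h1
    refine ⟨τ0, h0, fun T _ o η hη => ?_⟩
    obtain ⟨Ψ, Ψ1, Ψ2, C, R, δ, hδ, j0, j1, -, p0, p1, p2, p3, p4, p5, h⟩ := h T o η hη
    refine ⟨fun Y => Ψ fun t => (Y t).re, fun Y => Ψ1 fun t => (Y t).re,
      fun Y => Ψ2 fun t => (Y t).re, C, R, δ, hδ, gq_inv2 hr j0, gq_inv2 hr j1, fun _ => p0 _,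
      fun _ => p1 _, fun _ => p2 _, fun _ => p3 _, fun _ => p4 _, fun _ => p5 _, ?_⟩
    intro Ω L _ Y e1 e2 ha i1 i2 eo e12 hm
    have := h Ω L (fun _ => 1) (fun w l => (Y w l).re) e1 e2 (fun _ => zero_le_one) i1 i2 eo e12
      fun R' hR l => by
        have k := hm R' hR l fun _ => false
        have e : ∀ w, ∏ r, cj false (Y w (l r)) = ((∏ r, (Y w (l r)).re : ℝ) : ℂ) := fun w => by
          rw [Complex.ofReal_prod]
          exact Finset.prod_congr rfl fun r _ => (gq_re (ha w hr _)).symm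
        rw [cav_congr e, cav_ofReal, pmx, if_pos hr, ← Complex.ofReal_sub, Complex.norm_real] at k
        simpa only [one_mul, Real.norm_eq_abs] using k
    simp only [one_mul] at this
    exact this
  · obtain ⟨τ0, h0, h⟩ := h2
    refine ⟨τ0, h0, fun T _ o η hη => ?_⟩
    obtain ⟨Ψ, Ψ1, Ψ2, C, R, δ, hδ, j0, j1, -, p0, p1, p2, p3, p4, p5, h⟩ := h T o η hη
    refine ⟨Ψ, Ψ1, Ψ2, C, R, δ, hδ, fun Y Y' _ _ => j0 Y Y', fun Y Y' _ _ => j1 Y Y', p0, p1, p2,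
      p3, p4, p5, ?_⟩
    intro Ω L _ Y e1 e2 _ i1 i2 eo e12 hm
    have := h Ω L (fun _ => 1) Y e1 e2 (fun _ => zero_le_one) i1 i2 eo e12 fun R' hR l ε => by
      have k := hm R' hR l ε
      rw [pmx, if_neg hr] at k
      have k1 := (Complex.abs_re_le_norm _).trans k
      have k2 := (Complex.abs_im_le_norm _).trans k
      rw [Complex.sub_re, cav_re, Complex.ofReal_re] at k1
      rw [Complex.sub_im, cav_im, Complex.ofReal_im, sub_zero] at k2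
      simpa only [one_mul] using And.intro k1 k2
    simpa only [one_mul] using this

end test

section cell
variable {E I K : Type} [AddCommGroup E] [Finite E] [Finite I] [Finite K] {τ : QT E}

omit [Finite E] [Finite I] in
lemma gq_chi (x : OmE E I) : chi τ 0 x = 1 := by
  rw [chi, brk_zero_left, th_zero_left, add_zero, ee_zero]

/-- the probe values -/
noncomputable def gqY (u : OmE E I → ℂ) (σ : ℝ) (x : OmE E I) (Φ : Lab I K) (t : K → E) : ℂ :=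
  u (x.1 + spr t Φ, x.2) / σ

omit [Finite E] [Finite I] [Finite K] in
lemma gqY_adm {u : OmE E I → ℂ} (h : Adm τ u) (σ : ℝ) (x : OmE E I) (Φ : Lab I K) :
    Adm τ (gqY u σ x Φ) := fun hr t => by rw [gqY, Complex.div_ofReal_im, h hr, zero_div]

/-- functions of the sum and the sum of squares of the probe values are constant on the cell -/
lemma gq_inv [Fintype (K → E)] (h : τ.ND) {c : (I → E) → ℂ} (ha : Adm τ (fld τ c)) (σ : ℝ)
    {Ψ : ((K → E) → ℂ) → ℝ} (hΨ : InvU τ Ψ) (x : OmE E I) (Φ : Lab I K) (y y' : OmE E K) :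
    Ψ (gqY (fld τ c) σ (cell x Φ y) Φ) = Ψ (gqY (fld τ c) σ (cell x Φ y') Φ) := by
  have e : ∀ (y : OmE E K) t, gqY (fld τ c) σ (cell x Φ y) Φ t =
      fld τ (rc τ c x Φ) (y.1 + t, y.2) / σ := fun y t => by
    rw [← res_fld, gqY, res, cell, cell, spr_add, add_assoc]
  have e1 : ∀ y : OmE E K, ∑ t, gqY (fld τ c) σ (cell x Φ y) Φ t =
      Nat.card (K → E) * (rc τ c x Φ 0 / σ) := fun y => by
    rw [← csm_eq, csm_eq_card_mul_cav, cav_congr (e y), cav_div,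
      cav_add_left (fun t => fld τ (rc τ c x Φ) (t, y.2)), ← tw_fld h (rc τ c x Φ) 0 y.2, tw]
    simp only [gq_chi, map_one, mul_one]
  have e2 : ∀ y : OmE E K, ∑ t, ‖gqY (fld τ c) σ (cell x Φ y) Φ t‖ ^ 2 =
      Nat.card (K → E) * ((sm fun w => ‖rc τ c x Φ w‖ ^ 2) / ‖(σ : ℂ)‖ ^ 2) := fun y => by
    rw [← sm_eq, sm_eq_card_mul_av]
    simp only [e y, norm_div, div_pow]
    rw [av_div, av_add_left (fun t => ‖fld τ (rc τ c x Φ) (t, y.2)‖ ^ 2), av_fld_sq h]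
  exact hΨ _ _ (gqY_adm ha _ _ _) (gqY_adm ha _ _ _) ((e1 y).trans (e1 y').symm)
    ((e2 y).trans (e2 y').symm)

lemma gq_ng [Nontrivial E] (g : OmE E K → ℂ) : av (fun y => (g y).re) ^ 2 ≤ ng τ g := by
  have h0 : ¬ Gen (0 : K → E) := fun h => by
    refine bot_ne_top (α := AddSubgroup E) (top_le_iff.1 (h.ge.trans ?_))
    rw [AddSubgroup.closure_le]
    rintro _ ⟨k, rfl⟩
    exact zero_mem _
  refine le_trans ?_ (single_le_sm (f := fun w : K → E => ind (¬ Gen w) * ‖cf τ g w‖ ^ 2)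
    (fun w => mul_nonneg (ind_nonneg _) (sq_nonneg _)) 0)
  simp only [ind_pos h0, one_mul, cf, ip, gq_chi, map_one, mul_one]
  rw [← cav_re, ← sq_abs]
  exact pow_le_pow_left₀ (abs_nonneg _) (Complex.abs_re_le_norm _) 2

omit [Finite E] [Finite I] in
lemma gq_cell {Φ : Lab I K} (hg : Good Φ) {a : OmE E I → ℝ}
    (ha : ∀ x y y', a (cell x Φ y) = a (cell x Φ y')) {x : OmE E I} (hx : pld x.2 Φ ≠ 0)
    (y : OmE E K) : pld (cell x Φ y).2 Φ * a (cell x Φ y) = pld x.2 Φ * a x := by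
  obtain ⟨P, hP⟩ := pld_pos hx
  have e : cell x Φ (0, P) = x := Prod.ext (by simp [cell, spr_zero]) hP
  rw [ha x y (0, P), e, show (cell x Φ y).2 = ow x.2 Φ y.2 from rfl, pld_ow hg, ← pld_ow hg x.2 P,
    hP]

omit [Finite E] [Finite I] in
lemma gq_tile {Φ : Lab I K} (hg : Good Φ) {a : OmE E I → ℝ}
    (ha : ∀ x y y', a (cell x Φ y) = a (cell x Φ y')) :
    Tile (fun x : OmE E I => cell x Φ) fun x => 0 < pld x.2 Φ * a x := fun x hx => by
  have h0 : pld x.2 Φ ≠ 0 := left_ne_zero_of_mul hx.ne'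
  obtain ⟨P, hP⟩ := pld_pos h0
  refine ⟨hg.cell_inj x, ⟨(0, P), Prod.ext (by simp [cell, spr_zero]) hP⟩, fun y =>
    ⟨hx.trans_eq (gq_cell hg ha h0 y).symm, Set.ext fun z => ⟨?_, ?_⟩⟩⟩
  · rintro ⟨w, rfl⟩
    exact ⟨_, (cell_cell x Φ y w).symm⟩
  · rintro ⟨w, rfl⟩
    exact ⟨(w.1 - y.1, w.2), (cell_cell x Φ y _).trans (by simp)⟩

end cell

section rot
variable {E I : Type} [AddCommGroup E] {τ : QT E} {ω : ℂ}

lemma gq_dd {G : Type} [AddCommGroup G] (hω : ‖ω‖ = 1) (k : G → ℂ) (h : G) :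
    dd (fun x => ω * k x) h = dd k h := funext fun x => by
  have := mul_conj'' ω
  rw [hω] at this
  simp only [dd, map_mul]
  linear_combination (exp := 1) (k x * conj (k (x + h))) * this
    + (k x * conj (k (x + h))) * (by norm_num : (((1 : ℝ) ^ 2 : ℝ) : ℂ) = 1)

lemma gq_small (hω : ‖ω‖ = 1) {u : OmE E I → ℂ} {s : ℕ} {η : ℝ} (h : SmallB τ u s η) :
    SmallB τ (fun x => ω * u x) s η := by
  refine ⟨fun S a b => le_trans (le_of_eq ?_) (h.1 S a b), le_trans (le_of_eq ?_) h.2⟩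
  · refine av_congr fun ι => av_congr fun x => av_congr fun P => ?_
    simp only [xb2, gb2, res, gq_dd hω]
  · refine av_congr fun ι => av_congr fun x => av_congr fun P => ?_
    simp only [xb3, gb3, res, gq_dd hω]

lemma gq_vr (hω : ‖ω‖ = 1) (u : OmE E I → ℂ) (s : ℕ) : vr (fun x => ω * u x) s = vr u s := by
  simp only [vr, cm, n2, res, norm_mul, hω, one_mul]

end rot

/-- the abstract gain estimate -/
lemma gq_gain {X O : Type} [Finite X] [Nonempty X] [Finite O] (u κ : X → ℝ)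
    (ψ ψ1 ψ2 ψ' b : X → O → ℝ) (s μ B : ℝ) (hs : 0 ≤ s) (hμ : 0 < μ) (hB : 0 < B)
    (h0 : ∀ x o, 0 ≤ ψ' x o) (h1 : ∀ x o, ψ' x o ≤ ψ x o) (h2 : ∀ x o, 0 ≤ ψ2 x o)
    (h3 : ∀ x o, ψ1 x o ^ 2 ≤ ψ x o * ψ2 x o)
    (hsh : ∀ o, av (fun x => ψ' x o * (s * ψ1 x o / ψ x o) * b x o) =
      av fun x => ψ' x o * (s * ψ1 x o / ψ x o) * u x) (e1 e2 e3 e4 d2 d8 : ℝ)
    (b1 : av (fun x => (av (ψ x) - 1) ^ 2) ≤ e1) (b2 : av (fun x => (av (ψ1 x) - κ x) ^ 2) ≤ e2)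
    (b3 : av (fun x => av (ψ2 x)) ≤ e3) (b4 : av (fun x => av fun o => ψ x o - ψ' x o) ≤ e4)
    (t2 : av (fun x => u x ^ 2) ≤ d2) (t8 : av (fun x => |u x| ^ 8) ≤ d8) :
    2 * s * av (fun x => u x * κ x) - s * (μ * d2 + e2 / μ) - s ^ 2 * e3 -
        (B * e4 + (2 + 2 * e1 + d8) / (2 * B)) ≤ av fun x => av fun o => ψ' x o * b x o ^ 2 := by
  set g : X → O → ℝ := fun x o => s * ψ1 x o / ψ x o with hg
  have s1 : av (fun x => av fun o => 2 * (ψ' x o * g x o * u x) - ψ' x o * g x o ^ 2) ≤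
      av fun x => av fun o => ψ' x o * b x o ^ 2 := by
    rw [av_comm, av_comm (fun x o => ψ' x o * b x o ^ 2)]
    refine av_mono fun o => ?_
    rw [av_sub, av_mul_left, ← hsh o, ← av_mul_left, ← av_sub]
    refine av_mono fun x => ?_
    change 2 * (ψ' x o * g x o * b x o) - _ ≤ _
    nlinarith [mul_nonneg (h0 x o) (sq_nonneg (b x o - g x o))]
  refine le_trans ?_ s1
  have s2 : ∀ x, 2 * s * (u x * κ x) - s * (μ * u x ^ 2 + (av (ψ1 x) - κ x) ^ 2 / μ) -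
      s ^ 2 * av (ψ2 x) - (B * (av fun o => ψ x o - ψ' x o) +
        (2 + 2 * (av (ψ x) - 1) ^ 2 + |u x| ^ 8) / (2 * B)) ≤
      av fun o => 2 * (ψ' x o * g x o * u x) - ψ' x o * g x o ^ 2 := fun x => by
    have p1 : av (fun o => 2 * s * ψ1 x o * u x - s ^ 2 * ψ2 x o - (ψ x o - ψ' x o) * u x ^ 2) ≤
        av fun o => 2 * (ψ' x o * g x o * u x) - ψ' x o * g x o ^ 2 :=
      av_mono fun o => gg_point s _ _ _ _ _ (h0 x o) (h1 x o) (h2 x o) (h3 x o)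
    rw [av_sub, av_sub, av_mul_right, av_mul_right, av_mul_left, av_mul_left] at p1
    have p2 := gg_lost B (av fun o => ψ x o - ψ' x o) (av (ψ x)) (u x) hB
      (av_nonneg fun o => sub_nonneg.2 (h1 x o)) (av_mono fun o => by linarith [h0 x o])
    have p3 : -(μ * u x ^ 2 + (av (ψ1 x) - κ x) ^ 2 / μ) ≤ 2 * (u x * (av (ψ1 x) - κ x)) := by
      set d := av (ψ1 x) - κ x
      have : 0 ≤ (μ * u x + d) ^ 2 / μ := by positivity
      have e : (μ * u x + d) ^ 2 / μ = μ * u x ^ 2 + d ^ 2 / μ + 2 * (u x * d) := by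
        field_simp; ring
      linarith
    have p4 := mul_le_mul_of_nonneg_left p3 hs
    linarith
  refine le_trans ?_ (av_mono s2)
  simp only [av_sub, av_add, av_mul_left, av_div, av_const]
  simp only [av_sub] at b4
  have q1 : μ * av (fun x => u x ^ 2) ≤ μ * d2 := mul_le_mul_of_nonneg_left t2 hμ.le
  have q2 : av (fun x => (av (ψ1 x) - κ x) ^ 2) / μ ≤ e2 / μ :=
    div_le_div_of_nonneg_right b2 hμ.le
  have q3 := mul_le_mul_of_nonneg_left (add_le_add q1 q2) hs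
  have q4 := mul_le_mul_of_nonneg_left b3 (sq_nonneg s)
  have q5 := mul_le_mul_of_nonneg_left b4 hB.le
  have q6 : (2 + 2 * av (fun x => (av (ψ x) - 1) ^ 2) + av fun x => |u x| ^ 8) / (2 * B) ≤
      (2 + 2 * e1 + d8) / (2 * B) :=
    div_le_div_of_nonneg_right (by linarith) (by positivity)
  linarith

end NE
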