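import Pool.Agent.Lib.MP_ecee09_co.NE.GGb

/-! The Gaussian step: estimates for the planted densities, and the gain from them. -/

namespace NE

open SD
open ComplexConjugate

section est
variable {X O : Type} [Finite X] [Nonempty X] [Finite O]

lemma gq_rho {ρ : X → ℝ} {ξ : ℝ} (h1 : av ρ = 1) (h2 : av (fun x => ρ x * ρ x) ≤ 1 + ξ) :
    av (fun x => (ρ x - 1) ^ 2) ≤ ξ := by
  rw [av_congr (g := fun x => ρ x * ρ x - 2 * ρ x + 1) fun x => by ring, av_add, av_sub,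
    av_mul_left, av_const, h1]
  linarith

omit [Nonempty X] in
lemma gq_f1 (p a : X → O → ℝ) : av (fun x => (av (fun o => p x o * a x o) - 1) ^ 2) ≤
    2 * av (fun x => av (fun o => p x o * (a x o - 1)) * av fun o => p x o * (a x o - 1)) +
      2 * av fun x => (av (p x) - 1) ^ 2 := by
  rw [← av_mul_left, ← av_mul_left, ← av_add]
  refine av_mono fun x => ?_
  simp only [mul_sub, mul_one, av_sub]
  nlinarith [sq_nonneg ((av fun o => p x o * a x o) - 2 * av (p x) + 1)]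

omit [Finite X] [Nonempty X] in
lemma gq_f2 (p a : X → O → ℝ) (κ : X → ℝ) :
    av (fun x => (av (fun o => p x o * a x o) - κ x * av (p x)) ^ 2) =
      av fun x => av (fun o => p x o * (a x o - κ x)) * av fun o => p x o * (a x o - κ x) :=
  av_congr fun x => by simp only [mul_sub, av_sub, av_mul_right]; ring

omit [Nonempty X] in
lemma gq_f3 (p a : X → O → ℝ) {C : ℝ} (hC : 0 ≤ C) (hp : ∀ x o, 0 ≤ p x o) (h0 : ∀ x o, 0 ≤ a x o)
    (h1 : ∀ x o, a x o ≤ C) : av (fun x => av fun o => p x o * a x o) ≤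
      av (fun x => av (fun o => p x o * a x o) * av (p x)) + C * av fun x => |av (p x) - 1| := by
  rw [← av_mul_left, ← av_add]
  refine av_mono fun x => ?_
  have a0 : 0 ≤ av fun o => p x o * a x o := av_nonneg fun o => mul_nonneg (hp x o) (h0 x o)
  have a1 : (av fun o => p x o * a x o) ≤ av (p x) * C :=
    (av_mono fun o => mul_le_mul_of_nonneg_left (h1 x o) (hp x o)).trans_eq (av_mul_right _ _)
  rcases le_total 1 (av (p x)) with h | h
  · nlinarith [mul_nonneg hC (abs_nonneg (av (p x) - 1))]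
  · rw [abs_of_nonpos (sub_nonpos.2 h)]
    nlinarith [mul_le_mul_of_nonneg_right a1 (sub_nonneg.2 h),
      mul_nonneg hC (mul_nonneg (sub_nonneg.2 h) (sub_nonneg.2 h))]

omit [Nonempty X] in
lemma gq_f4 (W ρ : X → ℝ) {ζ : ℝ} (hζ : 0 < ζ) :
    av W - (ζ * av (fun x => W x ^ 2) + av (fun x => (ρ x - 1) ^ 2) / ζ) / 2 ≤
      av fun x => W x * ρ x := by
  rw [← av_mul_left, ← av_div, ← av_add, ← av_div, ← av_sub]
  refine av_mono fun x => ?_
  have : 0 ≤ (ζ * W x + (ρ x - 1)) ^ 2 / ζ := by positivity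
  have e : (ζ * W x + (ρ x - 1)) ^ 2 / ζ =
      ζ * W x ^ 2 + (ρ x - 1) ^ 2 / ζ + 2 * (W x * (ρ x - 1)) := by field_simp; ring
  linarith

end est

lemma gq_cj (b : Bool) (z : ℂ) (σ : ℝ) : cj b (z / σ) = cj b z / σ := by
  cases b <;> simp

lemma gq_norm {σ r δ P : ℝ} {A : ℂ} {R R' : ℕ} (hr : 0 < r) (hσ : r ≤ σ) (hδ : 0 < δ)
    (hR : R' ≤ R) (h : ‖A - ((σ ^ R' * P : ℝ) : ℂ)‖ ≤ δ * min 1 r ^ R) :
    ‖A / σ ^ R' - P‖ ≤ δ := by
  have hσ0 : 0 < σ := hr.trans_le hσ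
  have hs : (σ : ℂ) ≠ 0 := Complex.ofReal_ne_zero.2 hσ0.ne'
  have e : A / σ ^ R' - P = (A - ((σ ^ R' * P : ℝ) : ℂ)) / σ ^ R' := by push_cast; field_simp
  rw [e, norm_div, norm_pow, Complex.norm_real, Real.norm_of_nonneg hσ0.le,
    div_le_iff₀ (pow_pos hσ0 _)]
  refine h.trans (mul_le_mul_of_nonneg_left ?_ hδ.le)
  have h0 : 0 ≤ min 1 r := le_min zero_le_one hr.le
  exact (pow_le_pow_of_le_one h0 (min_le_left _ _) hR).trans
    (pow_le_pow_left₀ h0 ((min_le_right _ _).trans hσ) _)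

lemma gq_arith {t W d2 d8 e1 e4 B μ : ℝ} (ht : 0 < t) (hW : 7 * t / 16 ≤ W)
    (hμ : 0 < μ) (hB : 0 < B) (h1 : μ * d2 ≤ t / 16) (h2 : e1 ≤ μ * (t / 16)) (h3 : e1 ≤ 1)
    (h4 : B * e4 ≤ t ^ 2 / 64) (h5 : 4 + d8 ≤ 2 * B * (t ^ 2 / 64)) :
    t ^ 2 / 32 ≤ 2 * (t / 4) * W - t / 4 * (μ * d2 + e1 / μ) - (t / 4) ^ 2 * 2 -
      (B * e4 + (2 + 2 * e1 + d8) / (2 * B)) := by
  have a1 : e1 / μ ≤ t / 16 := by rw [div_le_iff₀ hμ]; linarith
  have a2 : (2 + 2 * e1 + d8) / (2 * B) ≤ t ^ 2 / 64 := by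
    rw [div_le_iff₀ (by positivity)]; linarith
  have a3 : t / 4 * (μ * d2 + e1 / μ) ≤ t / 4 * (t / 8) :=
    mul_le_mul_of_nonneg_left (by linarith) (by positivity)
  have a4 := mul_le_mul_of_nonneg_left hW ht.le
  nlinarith

lemma gq_small_const {Q ε : ℝ} (hε : 0 < ε) : ∃ ζ : ℝ, 0 < ζ ∧ ζ ≤ 1 ∧ ζ ≤ ε ∧ ζ * Q ≤ ε := by
  have h0 : 0 < min 1 ε := lt_min one_pos hε
  have h1 : min 1 ε / (|Q| + 1) ≤ min 1 ε := div_le_self h0.le (by linarith [abs_nonneg Q])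
  refine ⟨min 1 ε / (|Q| + 1), by positivity, h1.trans (min_le_left _ _),
    h1.trans (min_le_right _ _), ?_⟩
  rw [div_mul_eq_mul_div, div_le_iff₀ (by positivity)]
  exact (mul_le_mul_of_nonneg_left (by linarith [le_abs_self Q]) h0.le).trans
    (mul_le_mul_of_nonneg_right (min_le_right _ _) (by positivity))

section gain
variable {E I K O : Type} [AddCommGroup E] [Finite E] [Nontrivial E] [Finite I] [Finite K]
  [Finite O] {τ : QT E}

/-- the gain of the repaired family -/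
lemma gq_final (u : OmE E I → ℂ) (φ : O → Lab I K) (a a1 a2 : OmE E I → Lab I K → ℝ)
    (κ : OmE E I → ℝ) (ψ' : OmE E I → O → ℝ) (A : GFam E I K) {s μ B e1 e3 e4 d2 d8 : ℝ}
    (hs : 0 ≤ s) (hμ : 0 < μ) (hB : 0 < B) (p2 : ∀ x Φ, 0 ≤ a2 x Φ)
    (p12 : ∀ x Φ, a1 x Φ ^ 2 ≤ a x Φ * a2 x Φ)
    (i0 : ∀ Φ x y y', a (cell x Φ y) Φ = a (cell x Φ y') Φ)
    (i1 : ∀ Φ x y y', a1 (cell x Φ y) Φ = a1 (cell x Φ y') Φ)
    (q0 : ∀ x o, 0 ≤ ψ' x o) (q1 : ∀ x o, ψ' x o ≤ pld x.2 (φ o) * a x (φ o))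
    (q2 : ∀ x o y, 0 < ψ' x o → ψ' (cell x (φ o) y) o = ψ' x o)
    (q3 : ∀ x o, ¬ Good (φ o) → ψ' x o = 0) (q4 : ∀ x, av (ψ' x) ≤ 1)
    (q5 : av (fun x => av fun o => pld x.2 (φ o) * a x (φ o) - ψ' x o) ≤ e4)
    (q6 : av (fun x => 1 - av (ψ' x)) ≤ e4)
    (hA : ∀ f, A.E f = av fun x =>
      (av fun o => ψ' x o * f x (φ o)) + (1 - av (ψ' x)) * f x fun _ => none)
    (b1 : av (fun x => (av (fun o => pld x.2 (φ o) * a x (φ o)) - 1) ^ 2) ≤ e1)
    (b2 : av (fun x => (av (fun o => pld x.2 (φ o) * a1 x (φ o)) - κ x) ^ 2) ≤ e1)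
    (b3 : av (fun x => av fun o => pld x.2 (φ o) * a2 x (φ o)) ≤ e3)
    (t2 : av (fun x => (u x).re ^ 2) ≤ d2) (t8 : av (fun x => |(u x).re| ^ 8) ≤ d8) :
    Gain τ u K e4 (2 * s * av (fun x => (u x).re * κ x) - s * (μ * d2 + e1 / μ) - s ^ 2 * e3 -
      (B * e4 + (2 + 2 * e1 + d8) / (2 * B))) := by
  refine ⟨A, ?_, ?_⟩
  · rw [Fam.junk, hA]
    refine le_trans (av_mono fun x => ?_) q6
    have b1 : (av fun o => ψ' x o * ind (¬ Good (φ o))) = 0 := by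
      rw [← av_zero (α := O)]
      refine av_congr fun o => ?_
      by_cases h : Good (φ o)
      · rw [ind_neg (not_not.2 h), mul_zero]
      · rw [q3 x o h, zero_mul]
    rw [b1, zero_add]
    exact mul_le_of_le_one_right (sub_nonneg.2 (q4 x)) (ind_le_one _)
  · refine (gq_gain (fun x => (u x).re) κ (fun x o => pld x.2 (φ o) * a x (φ o))
      (fun x o => pld x.2 (φ o) * a1 x (φ o)) (fun x o => pld x.2 (φ o) * a2 x (φ o)) ψ'
      (fun x o => av fun y => (u (cell x (φ o) y)).re) s μ B hs hμ hB q0 q1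
      (fun x o => mul_nonneg (pld_nonneg _ _) (p2 _ _)) (fun x o => ?_) (fun o => ?_)
      e1 e1 e3 e4 d2 d8 b1 b2 b3 q5 t2 t8).trans ?_
    · nlinarith [mul_le_mul_of_nonneg_left (p12 x (φ o)) (sq_nonneg (pld x.2 (φ o)))]
    · by_cases hg : Good (φ o)
      · have k : ∀ x, ψ' x o * (s * (pld x.2 (φ o) * a1 x (φ o)) / (pld x.2 (φ o) * a x (φ o))) ≠
            0 → 0 < ψ' x o := fun x h => (q0 x o).lt_of_ne' (left_ne_zero_of_mul h)
        refine (gq_tile (a := fun x => a x (φ o)) hg (i0 (φ o))).av_eq (fun x h => (k x h).trans_le (q1 x o))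
          (fun x y h => ?_) fun x => (u x).re
        have h0 : pld x.2 (φ o) ≠ 0 := left_ne_zero_of_mul ((k x h).trans_le (q1 x o)).ne'
        rw [q2 x o y (k x h), gq_cell (a := fun x => a x (φ o)) hg (i0 (φ o)) h0,
          gq_cell (a := fun x => a1 x (φ o)) hg (i1 (φ o)) h0]
      · exact av_congr fun x => by rw [q3 x o hg, zero_mul, zero_mul, zero_mul]
    · rw [hA]
      refine av_mono fun x => le_add_of_le_of_nonneg (av_mono fun o => ?_)
        (mul_nonneg (sub_nonneg.2 (q4 x)) (ng_nonneg _ _))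
      exact mul_le_mul_of_nonneg_left (gq_ng (res u x (φ o))) (q0 x o)

end gain

end NE
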