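import Pool.Agent.Lib.MP_ecee09_co.NE.GDefs

/-! Abstract part of the construction of the Hilbert space of a kernel. -/

namespace NE.GN

open ComplexConjugate
open scoped InnerProductSpace

/-- finitely supported functions with the semi inner product of `K` -/
def Pre {X : Type} (_K : X → X → ℂ) : Type := X →₀ ℂ

noncomputable instance {X : Type} (K : X → X → ℂ) : AddCommGroup (Pre K) :=
  inferInstanceAs (AddCommGroup (X →₀ ℂ))

noncomputable instance {X : Type} (K : X → X → ℂ) : Module ℂ (Pre K) :=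
  inferInstanceAs (Module ℂ (X →₀ ℂ))

/-- the sesquilinear form of a kernel -/
noncomputable def frm {X : Type} (K : X → X → ℂ) (f g : X →₀ ℂ) : ℂ :=
  f.sum fun y z => g.sum fun x w => w * conj z * K x y

theorem frm_add {X : Type} (K : X → X → ℂ) (f g h : X →₀ ℂ) :
    frm K (f + g) h = frm K f h + frm K g h := by
  unfold frm
  rw [Finsupp.sum_add_index'] <;> simp [← Finsupp.sum_add, add_mul, mul_add]

theorem frm_smul {X : Type} (K : X → X → ℂ) (f g : X →₀ ℂ) (r : ℂ) :
    frm K (r • f) g = conj r * frm K f g := by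
  unfold frm
  rw [Finsupp.sum_smul_index]
  · simp only [Finsupp.mul_sum, map_mul]
    refine Finsupp.sum_congr fun y _ => Finsupp.sum_congr fun x _ => ?_
    ring
  · simp

/-- the core of a positive kernel -/
@[reducible] noncomputable def core {X : Type} (K : X → X → ℂ) (hH : ∀ x y, K y x = conj (K x y))
    (hP : ∀ (T : Finset X) (z : X → ℂ), 0 ≤ (∑ x ∈ T, ∑ y ∈ T, z x * conj (z y) * K x y).re) :
    PreInnerProductSpace.Core ℂ (Pre K) where
  inner f g := frm K f g
  conj_inner_symm f g := by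
    show conj (frm K g f) = frm K f g
    unfold frm
    rw [Finsupp.sum_comm]
    simp only [map_finsuppSum, map_mul, Complex.conj_conj]
    refine Finsupp.sum_congr fun y _ => Finsupp.sum_congr fun x _ => ?_
    rw [hH y x]; ring
  add_left f g h := frm_add K f g h
  smul_left f g r := frm_smul K f g r
  re_inner_nonneg f := by
    show 0 ≤ (frm K f f).re
    unfold frm
    rw [Finsupp.sum_comm]
    exact hP (Finsupp.support f) (fun x => (show X →₀ ℂ from f) x)

theorem exists_hilbert {X : Type} (K : X → X → ℂ) (hH : ∀ x y, K y x = conj (K x y))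
    (hP : ∀ (T : Finset X) (z : X → ℂ), 0 ≤ (∑ x ∈ T, ∑ y ∈ T, z x * conj (z y) * K x y).re) :
    ∃ (H : Type) (_ : NormedAddCommGroup H) (_ : InnerProductSpace ℂ H) (_ : CompleteSpace H)
      (e : X → H), (∀ x y, ⟪e y, e x⟫_ℂ = K x y) ∧ ∀ h, (∀ a, ⟪e a, h⟫_ℂ = 0) → h = 0 := by
  let c := core K hH hP
  let _ : SeminormedAddCommGroup (Pre K) := InnerProductSpace.Core.toSeminormedAddCommGroup (𝕜 := ℂ)
  let _ : InnerProductSpace ℂ (Pre K) := .ofCore _
  refine ⟨UniformSpace.Completion (Pre K), inferInstance, inferInstance, inferInstance,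
    fun x => ((show Pre K from Finsupp.single x 1 : Pre K) : UniformSpace.Completion (Pre K)),
    fun x y => ?_, fun h hh => ?_⟩
  · rw [UniformSpace.Completion.inner_coe]
    show frm K (Finsupp.single y 1) (Finsupp.single x 1) = _
    simp [frm]
  · refine UniformSpace.Completion.denseRange_coe.eq_zero_of_inner_right ℂ fun f => ?_
    induction f using Finsupp.induction_linear with
    | zero =>
      have : ((0 : Pre K) : UniformSpace.Completion (Pre K)) = 0 := UniformSpace.Completion.coe_zero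
      exact (congrArg (fun u => ⟪u, h⟫_ℂ) this).trans (inner_zero_left h)
    | add f g hf hg =>
      have : (((show Pre K from f) + (show Pre K from g) : Pre K) :
          UniformSpace.Completion (Pre K)) = _ := UniformSpace.Completion.coe_add _ _
      refine (congrArg (fun u => ⟪u, h⟫_ℂ) this).trans ?_
      rw [inner_add_left]
      exact (congrArg₂ (· + ·) hf hg).trans (add_zero _)
    | single a z =>
      have h1 : (show Pre K from Finsupp.single a z) = z • (show Pre K from Finsupp.single a 1) := by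
        show Finsupp.single a z = z • Finsupp.single a (1 : ℂ)
        simp
      have : ((z • (show Pre K from Finsupp.single a 1) : Pre K) :
          UniformSpace.Completion (Pre K)) = _ := UniformSpace.Completion.coe_smul _ _
      refine (congrArg (fun u : Pre K => ⟪(u : UniformSpace.Completion (Pre K)), h⟫_ℂ) h1).trans ?_
      refine (congrArg (fun u => ⟪u, h⟫_ℂ) this).trans ?_
      rw [inner_smul_left, hh a, mul_zero]

variable {H : Type} [NormedAddCommGroup H] [InnerProductSpace ℂ H] [CompleteSpace H] {X : Type}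

theorem dense_of {N : Submodule ℂ H} (e : X → H) (h1 : ∀ a, e a ∈ N)
    (h2 : ∀ h, (∀ a, ⟪e a, h⟫_ℂ = 0) → h ∈ N) : Dense (N : Set H) := by
  rw [Submodule.dense_iff_topologicalClosure_eq_top, Submodule.topologicalClosure_eq_top_iff,
    Submodule.eq_bot_iff]
  intro w hw
  have hw' : w ∈ N := h2 w fun a => Submodule.inner_right_of_mem_orthogonal (h1 a) hw
  exact inner_self_eq_zero.mp (Submodule.inner_right_of_mem_orthogonal (𝕜 := ℂ) hw' hw)

/-- two maps that agree on the family and on its orthogonal complement agree -/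
theorem ext_sp {G : Type} [NormedAddCommGroup G] [NormedSpace ℂ G] (e : X → H) {A B : H →L[ℂ] G}
    (h1 : ∀ a, A (e a) = B (e a)) (h2 : ∀ h, (∀ a, ⟪e a, h⟫_ℂ = 0) → A h = B h) : A = B := by
  have hd := dense_of (N := LinearMap.eqLocus A.toLinearMap B.toLinearMap) e h1 h2
  ext h
  exact congrFun (Continuous.ext_on hd A.continuous B.continuous fun x hx => hx) h

theorem exists_op (e e' : X → H) (h : ∀ a b, ⟪e' b, e' a⟫_ℂ = ⟪e b, e a⟫_ℂ) :
    ∃ W : H →L[ℂ] H, (∀ a, W (e a) = e' a) ∧ ∀ w, (∀ a, ⟪e a, w⟫_ℂ = 0) → W w = 0 := by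
  let N : Submodule ℂ H := (Submodule.span ℂ (Set.range e))ᗮ
  have hN : ∀ w, (∀ a, ⟪e a, w⟫_ℂ = 0) → w ∈ N := by
    intro w hw u hu
    induction hu using Submodule.span_induction with
    | mem x hx => obtain ⟨a, rfl⟩ := hx; exact hw a
    | zero => exact inner_zero_left _
    | add x y _ _ hx hy => rw [inner_add_left, hx, hy, add_zero]
    | smul c x _ hx => rw [inner_smul_left, hx, mul_zero]
  let L : (X →₀ ℂ) × N →ₗ[ℂ] H := (Finsupp.linearCombination ℂ e).coprod N.subtype
  let L' : (X →₀ ℂ) × N →ₗ[ℂ] H := Finsupp.linearCombination ℂ e' ∘ₗ LinearMap.fst ℂ _ _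
  have hd : DenseRange L :=
    dense_of (N := LinearMap.range L) e (fun a => ⟨(Finsupp.single a 1, 0), by simp [L]⟩)
      fun w hw => ⟨(0, ⟨w, hN w hw⟩), by simp [L]⟩
  have hb : ∀ z, ‖L' z‖ ≤ 1 * ‖L z‖ := by
    rintro ⟨z, n⟩
    have e1 : ⟪Finsupp.linearCombination ℂ e' z, Finsupp.linearCombination ℂ e' z⟫_ℂ =
        ⟪Finsupp.linearCombination ℂ e z, Finsupp.linearCombination ℂ e z⟫_ℂ := by
      simp only [Finsupp.linearCombination_apply, Finsupp.sum_inner, Finsupp.inner_sum,
        inner_smul_left, inner_smul_right, h]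
    have e2 : ‖Finsupp.linearCombination ℂ e' z‖ = ‖Finsupp.linearCombination ℂ e z‖ := by
      rw [norm_eq_sqrt_re_inner (𝕜 := ℂ), e1, ← norm_eq_sqrt_re_inner]
    have e3 : ⟪Finsupp.linearCombination ℂ e z, (n : H)⟫_ℂ = 0 :=
      n.2 _ (by rw [← Finsupp.range_linearCombination]; exact ⟨z, rfl⟩)
    have e4 := norm_add_sq_eq_norm_sq_add_norm_sq_of_inner_eq_zero (𝕜 := ℂ) _ _ e3
    show ‖Finsupp.linearCombination ℂ e' z‖ ≤ 1 * ‖Finsupp.linearCombination ℂ e z + (n : H)‖
    rw [e2, one_mul]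
    exact abs_le_of_sq_le_sq' (by nlinarith [mul_self_nonneg ‖(n : H)‖]) (norm_nonneg _) |>.2
  refine ⟨L'.extendOfNorm L, fun a => ?_, fun w hw => ?_⟩
  · have := LinearMap.extendOfNorm_eq hd ⟨1, hb⟩ (Finsupp.single a 1, 0)
    simpa [L, L'] using this
  · have := LinearMap.extendOfNorm_eq hd ⟨1, hb⟩ (0, ⟨w, hN w hw⟩)
    simpa [L, L'] using this

/-- the operator is isometric against the family -/
theorem inner_op {e e' : X → H} (h : ∀ a b, ⟪e' b, e' a⟫_ℂ = ⟪e b, e a⟫_ℂ) {W : H →L[ℂ] H}
    (h1 : ∀ a, W (e a) = e' a) (h2 : ∀ w, (∀ a, ⟪e a, w⟫_ℂ = 0) → W w = 0) (a : X) (w : H) :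
    ⟪e' a, W w⟫_ℂ = ⟪e a, w⟫_ℂ := by
  have := ext_sp e (A := (innerSL ℂ (e' a)).comp W) (B := innerSL ℂ (e a))
    (fun b => by simp [h1, h]) (fun w hw => by simp [h2 w hw, hw a])
  exact congrArg (fun A : H →L[ℂ] ℂ => A w) this

/-- an operator that preserves the family together with its adjoint commutes with `W` -/
theorem comm_op {e e' : X → H} {W T : H →L[ℂ] H}
    (h1 : ∀ a, W (e a) = e' a) (h2 : ∀ w, (∀ a, ⟪e a, w⟫_ℂ = 0) → W w = 0)
    (h3 : ∀ a, ∃ b, T (e a) = e b ∧ T (e' a) = e' b) (h4 : ∀ a, ∃ b, star T (e a) = e b) :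
    T * W = W * T := by
  refine ext_sp e (fun a => ?_) fun w hw => ?_
  · obtain ⟨b, hb, hb'⟩ := h3 a
    show T (W (e a)) = W (T (e a))
    rw [h1, hb, hb', h1]
  · show T (W w) = W (T w)
    rw [h2 w hw, map_zero, h2]
    intro a
    obtain ⟨b, hb⟩ := h4 a
    rw [← ContinuousLinearMap.adjoint_inner_left, ← ContinuousLinearMap.star_eq_adjoint, hb, hw]

end NE.GN
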