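import Pool.Agent.Lib.MP_ecee09_co.NE.GNa
import Pool.Agent.Lib.MP_ecee09_co.NE.CQT

/-! The kernel on sets of pairs of an arbitrary index type. -/

namespace NE.GN

open ComplexConjugate

variable {I J U : Type}

/-- image of a set of pairs -/
def im (φ : I → J) (A : Set (Sym2 I)) : Set (Sym2 J) := Sym2.map φ '' A

open Classical in
/-- the bit of a proposition -/
noncomputable def bit (p : Prop) : SD.F := if p then 1 else 0

theorem bit_congr {p q : Prop} (h : p ↔ q) : bit p = bit q := by rw [propext h]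

theorem bit_eq (x : SD.F) : bit (x = 1) = x := by
  unfold bit
  rcases SD.F_cases x with h | h <;> simp [h]

/-- the pattern read off a set of pairs -/
noncomputable def ofP (j : U → I) (A : Set (Sym2 I)) : Om U := fun c => bit (Sym2.map j c ∈ A)

/-- indices at which the two sets differ -/
def Df (A B : Set (Sym2 I)) : Set I := {i | ∃ l, ¬ (s(i, l) ∈ A ↔ s(i, l) ∈ B)}

open Classical in
/-- the kernel on sets of pairs -/
noncomputable def kk (κ : Ker) (A B : Set (Sym2 I)) : ℂ :=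
  if h : (Df A B).Finite then
    @Ker.ρ κ (Df A B) h.to_subtype (ofP Subtype.val A) (ofP Subtype.val B) else 0

theorem im_im {L : Type} (ψ : J → L) (φ : I → J) (A : Set (Sym2 I)) :
    im ψ (im φ A) = im (ψ ∘ φ) A := by
  simp only [im, Set.image_image, Sym2.map_map]

theorem im_union (φ : I → J) (A B : Set (Sym2 I)) : im φ (A ∪ B) = im φ A ∪ im φ B :=
  Set.image_union _ _ _

@[simp] theorem im_empty (φ : I → J) : im φ ∅ = ∅ := Set.image_empty _

theorem im_id (A : Set (Sym2 I)) : im id A = A := by simp [im]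

theorem im_insert (φ : I → J) (c : Sym2 I) (A : Set (Sym2 I)) :
    im φ (insert c A) = insert (Sym2.map φ c) (im φ A) := Set.image_insert_eq

theorem im_finite (φ : I → J) {A : Set (Sym2 I)} (h : A.Finite) : (im φ A).Finite := h.image _

theorem mem_im {φ : I → J} (h : Function.Injective φ) {A : Set (Sym2 I)} {c : Sym2 I} :
    Sym2.map φ c ∈ im φ A ↔ c ∈ A := (Sym2.map.injective h).mem_set_image

theorem range_of_im {φ : I → J} {A : Set (Sym2 I)} {c : Sym2 J} (h : c ∈ im φ A) {i : J}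
    (hi : i ∈ c) : i ∈ Set.range φ := by
  obtain ⟨d, -, rfl⟩ := h
  obtain ⟨a, -, rfl⟩ := Sym2.mem_map.mp hi
  exact ⟨a, rfl⟩

theorem pb_ofP {V : Type} (g : V → U) (j : U → I) (A : Set (Sym2 I)) :
    pb g (ofP j A) = ofP (j ∘ g) A := by
  funext c; exact bit_congr (by rw [Sym2.map_map])

theorem kk_eq (κ : Ker) [Finite U] {j : U → I} (hj : Function.Injective j) {A B : Set (Sym2 I)}
    (h : Df A B ⊆ Set.range j) : kk κ A B = κ.ρ U (ofP j A) (ofP j B) := by
  have hf : (Df A B).Finite := (Set.finite_range j).subset h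
  have := hf.to_subtype
  choose g hg using fun i : Df A B => h i.2
  have hv : j ∘ g = Subtype.val := funext hg
  have hgi : Function.Injective g := Function.Injective.of_comp (f := j) (hv ▸ Subtype.val_injective)
  rw [kk, dif_pos hf, κ.drop (Df A B) U g hgi, pb_ofP, pb_ofP, hv]
  intro i l hi
  have : s(j i, j l) ∈ A ↔ s(j i, j l) ∈ B := by
    by_contra hc
    exact hi ⟨⟨j i, j l, hc⟩, hj (hg _)⟩
  exact bit_congr this

theorem Df_symm (A B : Set (Sym2 I)) : Df A B = Df B A := by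
  ext i; simp only [Df, Set.mem_ofPred_eq, iff_comm]

/-- the ends of a finite set of pairs -/
theorem ends_finite {A : Set (Sym2 I)} (h : A.Finite) : {i | ∃ c ∈ A, i ∈ c}.Finite := by
  have : {i | ∃ c ∈ A, i ∈ c} = ⋃ c ∈ A, {i | i ∈ c} := by ext i; simp
  rw [this]
  refine h.biUnion fun c _ => ?_
  induction c using Sym2.ind with
  | h a b => exact (Set.toFinite {a, b}).subset fun i hi => by simpa using hi

theorem Df_sub {A B : Set (Sym2 I)} {D : Set I} (hA : ∀ c ∈ A, ∀ i ∈ c, i ∈ D)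
    (hB : ∀ c ∈ B, ∀ i ∈ c, i ∈ D) : Df A B ⊆ D := by
  rintro i ⟨l, hl⟩
  by_contra hi
  exact hl (iff_of_false (fun h => hi (hA _ h i (Sym2.mem_mk_left _ _)))
    fun h => hi (hB _ h i (Sym2.mem_mk_left _ _)))

theorem kk_pull (κ : Ker) {φ : I → J} (hφ : Function.Injective φ) {A B : Set (Sym2 J)}
    (h : Df A B ⊆ Set.range φ) : kk κ A B = kk κ (Sym2.map φ ⁻¹' A) (Sym2.map φ ⁻¹' B) := by
  have hD : Df A B = φ '' Df (Sym2.map φ ⁻¹' A) (Sym2.map φ ⁻¹' B) := by
    ext i
    constructor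
    · rintro ⟨l, hl⟩
      obtain ⟨i, rfl⟩ := h ⟨l, hl⟩
      obtain ⟨l, rfl⟩ := h (show l ∈ Df A B from ⟨φ i, by rwa [Sym2.eq_swap]⟩)
      exact ⟨i, ⟨l, hl⟩, rfl⟩
    · rintro ⟨i, ⟨l, hl⟩, rfl⟩
      exact ⟨φ l, hl⟩
  by_cases hf : (Df (Sym2.map φ ⁻¹' A) (Sym2.map φ ⁻¹' B)).Finite
  · have := hf.to_subtype
    rw [kk_eq κ (U := Df (Sym2.map φ ⁻¹' A) (Sym2.map φ ⁻¹' B)) (j := φ ∘ Subtype.val)
      (hφ.comp Subtype.val_injective) (by rw [hD, Set.range_comp, Subtype.range_coe]),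
      kk, dif_pos hf]
    congr 1 <;> (funext c; exact bit_congr (by rw [Set.mem_preimage, Sym2.map_map]))
  · rw [kk, kk, dif_neg hf, dif_neg]
    rw [hD]
    exact fun h' => hf (Set.Finite.of_finite_image h' hφ.injOn)

/-- relabelling, and dropping common pairs with an end outside -/
theorem kk_im (κ : Ker) {φ : I → J} (hφ : Function.Injective φ) (A B : Set (Sym2 I))
    {Z : Set (Sym2 J)} (hZ : ∀ c ∈ Z, ∃ i ∈ c, i ∉ Set.range φ) :
    kk κ (im φ A ∪ Z) (im φ B ∪ Z) = kk κ A B := by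
  have hp : ∀ A : Set (Sym2 I), Sym2.map φ ⁻¹' (im φ A ∪ Z) = A := by
    intro A
    ext c
    rw [Set.mem_preimage, Set.mem_union, mem_im hφ, or_iff_left]
    intro hc
    obtain ⟨i, hi, hi'⟩ := hZ _ hc
    obtain ⟨a, -, rfl⟩ := Sym2.mem_map.mp hi
    exact hi' ⟨a, rfl⟩
  rw [kk_pull κ hφ, hp, hp]
  rintro i ⟨l, hl⟩
  by_contra hi
  have h1 : ∀ A : Set (Sym2 I), s(i, l) ∉ im φ A := fun A h =>
    hi (range_of_im h (Sym2.mem_mk_left _ _))
  exact hl (by simp only [Set.mem_union, h1, false_or])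

theorem kk_map (κ : Ker) {φ : I → J} (hφ : Function.Injective φ) (A B : Set (Sym2 I)) :
    kk κ (im φ A) (im φ B) = kk κ A B := by
  simpa using kk_im κ hφ A B (Z := ∅) (by simp)

theorem kk_conj (κ : Ker) (A B : Set (Sym2 I)) : kk κ B A = conj (kk κ A B) := by
  by_cases hf : (Df A B).Finite
  · have := hf.to_subtype
    rw [kk_eq κ (U := Df A B) Subtype.val_injective (by rw [Subtype.range_coe, Df_symm]),
      kk_eq κ (U := Df A B) Subtype.val_injective (by rw [Subtype.range_coe])]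
    exact (κ.psd _).1 _ _
  · rw [kk, kk, dif_neg hf, dif_neg (by rwa [Df_symm]), map_zero]

theorem norm_kk_le (κ : Ker) (A B : Set (Sym2 I)) : ‖kk κ A B‖ ≤ 1 := by
  unfold kk
  split_ifs with hf
  · have := hf.to_subtype
    exact (κ.psd _).norm_le (κ.le_one _) _ _
  · simp

theorem kk_psd (κ : Ker) {O : Type} [Finite O] (Y : O → Set (Sym2 I)) (hY : ∀ o, (Y o).Finite) :
    PSD fun o o' => kk κ (Y o) (Y o') := by
  have hf := ends_finite (Set.finite_iUnion hY)
  have := hf.to_subtype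
  have h := (κ.psd {i | ∃ c ∈ ⋃ o, Y o, i ∈ c}).comp fun o => ofP Subtype.val (Y o)
  have he : ∀ o, ∀ c ∈ Y o, ∀ i ∈ c, i ∈ {i | ∃ c ∈ ⋃ o, Y o, i ∈ c} :=
    fun o c hc i hi => ⟨c, Set.mem_iUnion.mpr ⟨o, hc⟩, hi⟩
  convert h using 3 with o o'
  exact kk_eq κ Subtype.val_injective (by rw [Subtype.range_coe]; exact Df_sub (he o) (he o'))

theorem kk_sd (hK : KSD) (κ : Ker) {A B : Set (Sym2 I)} (hA : A.Finite) (hB : B.Finite)
    {c : Sym2 I} (hc : ¬ c.IsDiag) (h1 : c ∉ A) (h2 : c ∉ B) :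
    kk κ (insert c A) (insert c B) = kk κ A B := by
  have hf := ends_finite ((hA.union hB).insert c)
  have := hf.to_subtype
  set D := {i | ∃ d ∈ insert c (A ∪ B), i ∈ d} with hD
  have he : ∀ C : Set (Sym2 I), C ⊆ insert c (A ∪ B) → ∀ d ∈ C, ∀ i ∈ d,
      i ∈ Set.range (Subtype.val : D → I) :=
    fun C hC d hd i hi => ⟨⟨i, d, hC hd, hi⟩, rfl⟩
  have s1 : insert c A ⊆ insert c (A ∪ B) := Set.insert_subset_insert Set.subset_union_left
  have s2 : insert c B ⊆ insert c (A ∪ B) := Set.insert_subset_insert Set.subset_union_right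
  rw [kk_eq κ (U := D) Subtype.val_injective (Df_sub (he _ s1) (he _ s2)),
    kk_eq κ (U := D) Subtype.val_injective (Df_sub (he _ ((Set.subset_insert _ _).trans s1))
      (he _ ((Set.subset_insert _ _).trans s2)))]
  obtain ⟨c', hc'⟩ : ∃ c' : Sym2 D, Sym2.map Subtype.val c' = c := by
    have h0 := he _ subset_rfl c (Set.mem_insert _ _)
    clear_value D
    induction c using Sym2.ind with
    | h a b =>
      obtain ⟨a', ha⟩ := h0 a (Sym2.mem_mk_left _ _)
      obtain ⟨b', hb⟩ := h0 b (Sym2.mem_mk_right _ _)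
      exact ⟨s(a', b'), by rw [Sym2.map_mk, ha, hb]⟩
  have hne : ∀ d, d ≠ c' → Sym2.map (Subtype.val : D → I) d ≠ c :=
    fun d hd h => hd (Sym2.map.injective Subtype.val_injective (h.trans hc'.symm))
  refine hK κ D _ _ _ _ c' (fun h => hc (hc' ▸ h.map)) (bit_congr ?_) (bit_congr ?_)
    (fun d hd => bit_congr ?_) fun d hd => bit_congr ?_
  · rw [hc']; exact iff_of_false h1 h2
  · rw [hc']; exact iff_of_true (Set.mem_insert _ _) (Set.mem_insert _ _)
  · simp only [Set.mem_insert_iff, hne d hd, false_or]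
  · simp only [Set.mem_insert_iff, hne d hd, false_or]

end NE.GN
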