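import Pool.Agent.Lib.MP_ecee09_co.NE.GNb

/-! Symbols, their kernel and its positivity. -/

namespace NE.GN

open ComplexConjugate

theorem psd_of_copies {X : Type} (K : X → X → ℂ) (hK : ∀ x, ‖K x x‖ ≤ 1)
    (h : ∀ (O : Type) [Finite O] (g : O → X), ∃ M : O → O → ℂ, PSD M ∧ (∀ o, ‖M o o‖ ≤ 1) ∧
      ∀ o o', o ≠ o' → M o o' = K (g o) (g o')) (T : Finset X) (z : X → ℂ) :
    0 ≤ (∑ x ∈ T, ∑ y ∈ T, z x * conj (z y) * K x y).re := by
  classical
  set S := ∑ x ∈ T, ∑ y ∈ T, z x * conj (z y) * K x y with hS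
  set C := ∑ x ∈ T, ‖z x‖ ^ 2 with hC
  have key : ∀ m : ℕ, 0 ≤ (m : ℝ) ^ 2 * S.re + m * (2 * C) := by
    intro m
    obtain ⟨M, hM, h1, h2⟩ := h (T × Fin m) fun o => o.1
    have h3 := hM.2 fun o => z o.1
    simp only [csm_eq] at h3
    have h4 : ∀ o : T × Fin m, ∑ o' : T × Fin m, z o.1 * conj (z o'.1) * M o o' =
        ∑ o' : T × Fin m, z o.1 * conj (z o'.1) * K o.1 o'.1 +
          z o.1 * conj (z o.1) * (M o o - K o.1 o.1) := by
      intro o
      rw [← sub_eq_iff_eq_add', ← Finset.sum_sub_distrib, Finset.sum_eq_single o]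
      · ring
      · intro o' _ ho
        rw [h2 o o' ho.symm, sub_self]
      · simp
    have h5 : ∑ o : T × Fin m, ∑ o' : T × Fin m, z o.1 * conj (z o'.1) * K o.1 o'.1 =
        (((m : ℝ) ^ 2 : ℝ) : ℂ) * S := by
      simp only [Fintype.sum_prod_type, Finset.sum_const, Finset.card_univ, Fintype.card_fin,
        nsmul_eq_mul]
      rw [hS, ← Finset.sum_coe_sort T, Finset.mul_sum]
      refine Finset.sum_congr rfl fun x _ => ?_
      rw [← Finset.mul_sum, ← Finset.sum_coe_sort T (fun y => z x * conj (z y) * K x y)]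
      push_cast; ring
    have h6 : (∑ o : T × Fin m, z o.1 * conj (z o.1) * (M o o - K o.1 o.1)).re ≤ m * (2 * C) := by
      refine (Complex.re_le_norm _).trans ((norm_sum_le _ _).trans ?_)
      refine (Finset.sum_le_sum (g := fun o : T × Fin m => 2 * ‖z o.1‖ ^ 2) fun o _ => ?_).trans ?_
      · rw [norm_mul, norm_mul, Complex.norm_conj]
        have := (norm_sub_le (M o o) (K o.1 o.1)).trans (add_le_add (h1 o) (hK o.1))
        nlinarith [mul_self_nonneg ‖z o.1‖]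
      · simp only [Fintype.sum_prod_type, Finset.sum_const, Finset.card_univ, Fintype.card_fin,
          nsmul_eq_mul]
        rw [← Finset.mul_sum, ← Finset.mul_sum, hC, ← Finset.sum_coe_sort T]
    simp only [h4, Finset.sum_add_distrib, h5, Complex.add_re, Complex.re_ofReal_mul] at h3
    linarith
  by_contra hneg
  have hpos : 0 < -S.re := by linarith
  obtain ⟨m, hm⟩ := exists_nat_gt (max 0 (2 * C / -S.re))
  have m0 : (0 : ℝ) < m := (le_max_left _ _).trans_lt hm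
  have m1 := (div_lt_iff₀ hpos).mp ((le_max_right _ _).trans_lt hm)
  nlinarith [key m]

/-- fresh indices -/
abbrev Fr : Type := ℕ × ℕ

/-- roots and fresh indices -/
abbrev Ix : Type := ℕ ⊕ Fr

/-- every pair has a fresh end -/
def Tch (A : Set (Sym2 Ix)) : Prop := ∀ c ∈ A, ∃ n, Sum.inr n ∈ c

/-- a symbol: target `t`, source `u` -/
@[ext] structure Sy where
  t : Set (Sym2 Ix)
  u : Set (Sym2 Ix)
  ft : t.Finite
  fu : u.Finite
  tch : Tch u

/-- the copy `p` of the fresh indices -/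
def cp {ι : Type} (p : ι) : Ix → ℕ ⊕ ι × Fr := Sum.map id (Prod.mk p)

theorem cp_inj {ι : Type} (p : ι) : Function.Injective (cp p) :=
  Function.injective_id.sumMap (Prod.mk_right_injective p)

/-- the kernel on symbols -/
noncomputable def K (κ : Ker) (a b : Sy) : ℂ :=
  kk κ (im (cp true) a.t ∪ im (cp false) b.u) (im (cp false) b.t ∪ im (cp true) a.u)

theorem K_eq (κ : Ker) {ι : Type} {p q : ι} (h : p ≠ q) (a b : Sy) {Z : Set (Sym2 (ℕ ⊕ ι × Fr))}
    (hZ : ∀ c ∈ Z, ∃ r n, r ≠ p ∧ r ≠ q ∧ Sum.inr (r, n) ∈ c) :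
    kk κ (im (cp p) a.t ∪ im (cp q) b.u ∪ Z) (im (cp q) b.t ∪ im (cp p) a.u ∪ Z) = K κ a b := by
  let φ : ℕ ⊕ Bool × Fr → ℕ ⊕ ι × Fr := Sum.map id (Prod.map (fun b => cond b p q) id)
  have hφ : Function.Injective φ := Function.injective_id.sumMap (Function.Injective.prodMap
    (by rintro (_ | _) (_ | _) <;> simp [h, h.symm]) Function.injective_id)
  have h1 : φ ∘ cp true = cp p := by funext i; cases i <;> rfl
  have h2 : φ ∘ cp false = cp q := by funext i; cases i <;> rfl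
  rw [K, ← kk_im κ hφ _ _ (Z := Z)]
  · simp only [im_union, im_im, h1, h2]
  · intro c hc
    obtain ⟨r, n, hp, hq, hr⟩ := hZ c hc
    refine ⟨_, hr, ?_⟩
    rintro ⟨i | ⟨_ | _, i⟩, hi⟩
    · cases hi
    · cases hi; exact hq rfl
    · cases hi; exact hp rfl

theorem K_conj (κ : Ker) (a b : Sy) : K κ b a = conj (K κ a b) := by
  have := K_eq κ (p := false) (q := true) (by simp) a b (Z := ∅) (by simp)
  rw [← this, ← kk_conj, Set.union_empty, Set.union_empty, K]

theorem K_psd (κ : Ker) (T : Finset Sy) (z : Sy → ℂ) :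
    0 ≤ (∑ x ∈ T, ∑ y ∈ T, z x * conj (z y) * K κ x y).re := by
  refine psd_of_copies (K κ) (fun x => norm_kk_le κ _ _) (fun O _ g => ?_) T z
  let Y : O → Set (Sym2 (ℕ ⊕ O × Fr)) := fun o =>
    im (cp o) (g o).t ∪ ⋃ r ∈ {r | r ≠ o}, im (cp r) (g r).u
  refine ⟨fun o o' => kk κ (Y o) (Y o'), kk_psd κ Y fun o => (im_finite _ (g o).ft).union
    ((Set.toFinite _).biUnion fun r _ => im_finite _ (g r).fu), fun o => norm_kk_le κ _ _,
    fun o o' ho => ?_⟩
  have e : ∀ o o' : O, o ≠ o' → Y o = im (cp o) (g o).t ∪ im (cp o') (g o').u ∪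
      ⋃ r ∈ {r | r ≠ o ∧ r ≠ o'}, im (cp r) (g r).u := by
    intro o o' ho
    have : {r | r ≠ o} = insert o' {r | r ≠ o ∧ r ≠ o'} := by
      ext r
      by_cases hr : r = o' <;> simp [hr, ho.symm]
    simp only [Y]
    rw [this, Set.biUnion_insert, Set.union_assoc]
  rw [← K_eq κ ho (g o) (g o') (Z := ⋃ r ∈ {r | r ≠ o ∧ r ≠ o'}, im (cp r) (g r).u)]
  · show kk κ (Y o) (Y o') = _
    rw [e o o' ho, e o' o ho.symm]
    simp only [and_comm]
  · intro c hc
    simp only [Set.mem_iUnion] at hc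
    obtain ⟨r, hr, d, hd, rfl⟩ := hc
    obtain ⟨n, hn⟩ := (g r).tch d hd
    exact ⟨r, n, hr.1, hr.2, Sym2.mem_map.mpr ⟨_, hn, rfl⟩⟩

theorem Tch.im {A : Set (Sym2 Ix)} (h : Tch A) {φ : Ix → Ix}
    (hφ : ∀ n, ∃ m, φ (.inr n) = .inr m) : Tch (im φ A) := by
  rintro _ ⟨c, hc, rfl⟩
  obtain ⟨n, hn⟩ := h c hc
  obtain ⟨m, hm⟩ := hφ n
  exact ⟨m, Sym2.mem_map.mpr ⟨_, hn, hm⟩⟩

theorem Tch.union {A B : Set (Sym2 Ix)} (h : Tch A) (h' : Tch B) : Tch (A ∪ B) :=
  fun c hc => hc.elim (h c) (h' c)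

theorem Tch.not_mem {A : Set (Sym2 Ix)} (h : Tch A) (c : Sym2 ℕ) : Sym2.map Sum.inl c ∉ A := by
  intro hc
  obtain ⟨n, hn⟩ := h _ hc
  obtain ⟨a, -, ha⟩ := Sym2.mem_map.mp hn
  cases ha

/-- a map of indices acting on the roots and the first copy -/
def lift (φ : Ix → Ix) : ℕ ⊕ Bool × Fr → ℕ ⊕ Bool × Fr
  | .inl n => cp true (φ (.inl n))
  | .inr (true, m) => cp true (φ (.inr m))
  | .inr (false, m) => .inr (false, m)

theorem lift_cp (φ : Ix → Ix) : lift φ ∘ cp true = cp true ∘ φ := by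
  funext i; cases i <;> rfl

theorem lift_inj {φ : Ix → Ix} (h : Function.Injective φ) : Function.Injective (lift φ) := by
  have h1 : ∀ (x : Ix) (m : Fr), cp true x ≠ .inr (false, m) := by
    rintro (x | x) m hx <;> cases hx
  rintro (i | ⟨_ | _, i⟩) (j | ⟨_ | _, j⟩) hij
  · cases h (cp_inj _ hij); rfl
  · exact absurd hij (h1 _ _)
  · cases h (cp_inj _ hij)
  · exact absurd hij.symm (h1 _ _)
  · exact hij
  · exact absurd hij.symm (h1 _ _)
  · cases h (cp_inj _ hij)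
  · exact absurd hij (h1 _ _)
  · cases h (cp_inj _ hij); rfl

/-- renaming the fresh indices -/
def rel (h : Fr → Fr) (a : Sy) : Sy :=
  ⟨im (Sum.map id h) a.t, im (Sum.map id h) a.u, im_finite _ a.ft, im_finite _ a.fu,
    a.tch.im fun n => ⟨h n, rfl⟩⟩

theorem K_rel (κ : Ker) {h : Fr → Fr} (hh : Function.Injective h) (a b : Sy) :
    K κ (rel h a) b = K κ a b := by
  have h1 : lift (Sum.map id h) ∘ cp false = cp false := by funext i; cases i <;> rfl
  rw [K, K, ← kk_map κ (lift_inj (Function.injective_id.sumMap hh)) (im (cp true) a.t ∪ _)]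
  simp only [rel, im_union, im_im, lift_cp, h1]

/-- adding a pair of roots to the target -/
def ins (c : Sym2 ℕ) (a : Sy) : Sy :=
  ⟨insert (Sym2.map Sum.inl c) a.t, a.u, a.ft.insert _, a.fu, a.tch⟩

theorem K_ins (hK : KSD) (κ : Ker) {c : Sym2 ℕ} (hc : ¬ c.IsDiag) {a b : Sy}
    (ha : Sym2.map Sum.inl c ∉ a.t) (hb : Sym2.map Sum.inl c ∉ b.t) :
    K κ (ins c a) (ins c b) = K κ a b := by
  have h1 : ∀ p : Bool, Sym2.map (cp p) (Sym2.map Sum.inl c) = Sym2.map Sum.inl c := by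
    intro p; rw [Sym2.map_map]; rfl
  have h2 : ∀ (p q : Bool) (a b : Sy), Sym2.map Sum.inl c ∉ a.t →
      Sym2.map Sum.inl c ∉ im (cp p) a.t ∪ im (cp q) b.u := by
    rintro p q a b ha (h | h)
    · rw [← h1 p, mem_im (cp_inj p)] at h; exact ha h
    · rw [← h1 q, mem_im (cp_inj q)] at h; exact b.tch.not_mem c h
  simp only [K, ins, im_insert, h1, Set.insert_union]
  exact kk_sd hK κ ((im_finite _ a.ft).union (im_finite _ b.fu))
    ((im_finite _ b.ft).union (im_finite _ a.fu))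
    (by rwa [Sym2.isDiag_map Sum.inl_injective]) (h2 _ _ _ _ ha) (h2 _ _ _ _ hb)

end NE.GN
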