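import Pool.Agent.Lib.MP_ecee09_co.NE.GNc

/-! The isometries of injections and their adjoints on symbols. -/

namespace NE.GN

open ComplexConjugate

/-- a pattern on the roots -/
def rt (x : Pat) : Set (Sym2 Ix) := im Sum.inl (x : Set (Sym2 ℕ))

theorem rt_finite (x : Pat) : (rt x).Finite := im_finite _ x.finite_toSet

theorem coe_pmap (f : ℕ ↪ ℕ) (x : Pat) : (pmap f x : Set (Sym2 ℕ)) = im f x := Finset.coe_image

theorem rt_union (x y : Pat) : rt (x ∪ y) = rt x ∪ rt y := by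
  rw [rt, Finset.coe_union, im_union]; rfl

theorem rt_empty : rt ∅ = ∅ := by simp [rt]

theorem rt_insert (c : Sym2 ℕ) (x : Pat) : rt (insert c x) = insert (Sym2.map Sum.inl c) (rt x) := by
  rw [rt, Finset.coe_insert, im_insert]; rfl

theorem mem_rt {c : Sym2 ℕ} {x : Pat} : Sym2.map Sum.inl c ∈ rt x ↔ c ∈ x :=
  mem_im Sum.inl_injective

/-- `f` on the roots -/
def up (f : ℕ → ℕ) : Ix → Ix := Sum.map f id

theorem im_up_rt (f : ℕ ↪ ℕ) (x : Pat) : im (up f) (rt x) = rt (pmap f x) := by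
  rw [rt, rt, coe_pmap, im_im, im_im]; rfl

theorem im_rt {φ : Ix → Ix} (h : ∀ i, φ (.inl i) = .inl i) (x : Pat) : im φ (rt x) = rt x := by
  rw [rt, im_im, show φ ∘ Sum.inl = Sum.inl from funext h]

open Classical in
/-- undo `f` on its range, make the other roots fresh -/
noncomputable def dn (f : ℕ → ℕ) : Ix → Ix
  | .inl n => if h : n ∈ Set.range f then .inl h.choose else .inr (0, n)
  | .inr m => .inr (m.1 + 1, m.2)

theorem dn_in (f : ℕ ↪ ℕ) (i : ℕ) : dn f (.inl (f i)) = .inl i := by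
  have h : f i ∈ Set.range f := ⟨i, rfl⟩
  simp only [dn, dif_pos h]
  exact congrArg _ (f.injective h.choose_spec)

theorem dn_out {f : ℕ → ℕ} {n : ℕ} (h : n ∉ Set.range f) : dn f (.inl n) = .inr (0, n) := by
  simp only [dn, dif_neg h]

theorem dn_inj (f : ℕ ↪ ℕ) : Function.Injective (dn f) := by
  refine Function.LeftInverse.injective (g := fun i => match i with
    | .inl i => .inl (f i)
    | .inr (0, n) => .inl n
    | .inr (k + 1, n) => .inr (k, n)) ?_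
  rintro (n | ⟨k, n⟩)
  · by_cases h : n ∈ Set.range f
    · obtain ⟨i, rfl⟩ := h
      rw [dn_in]
    · rw [dn_out h]
  · rfl

theorem tch_dn {f : ℕ ↪ ℕ} {x : Pat} (h : Off f x) : Tch (im (dn f) (rt x)) := by
  rintro _ ⟨_, ⟨c, hc, rfl⟩, rfl⟩
  obtain ⟨i, hi, hi'⟩ := h c hc
  exact ⟨(0, i), Sym2.mem_map.mpr ⟨_, Sym2.mem_map.mpr ⟨i, hi, rfl⟩, dn_out hi'⟩⟩

/-- the isometry on symbols -/
def Vs (f : ℕ ↪ ℕ) (x : Pat) (a : Sy) : Sy :=
  ⟨im (up f) a.t ∪ rt x, im (up f) a.u, (im_finite _ a.ft).union (rt_finite x), im_finite _ a.fu,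
    a.tch.im fun n => ⟨n, rfl⟩⟩

/-- its adjoint on symbols -/
noncomputable def Vt {f : ℕ ↪ ℕ} {x : Pat} (h : Off f x) (a : Sy) : Sy :=
  ⟨im (dn f) a.t, im (dn f) a.u ∪ im (dn f) (rt x), im_finite _ a.ft,
    (im_finite _ a.fu).union (im_finite _ (rt_finite x)),
    (a.tch.im fun _ => ⟨_, rfl⟩).union (tch_dn h)⟩

theorem im_cp_rt {ι : Type} (p : ι) (x : Pat) :
    im (cp p) (rt x) = im Sum.inl (x : Set (Sym2 ℕ)) := by
  rw [rt, im_im]; rfl

theorem K_Vs (κ : Ker) {f : ℕ ↪ ℕ} {x : Pat} (h : Off f x) (a b : Sy) :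
    K κ (Vs f x a) (Vs f x b) = K κ a b := by
  let ψ : ℕ ⊕ Bool × Fr → ℕ ⊕ Bool × Fr := Sum.map f id
  have h1 : ∀ p, ψ ∘ cp p = cp p ∘ up f := by intro p; funext i; cases i <;> rfl
  rw [K, K, ← kk_im κ (φ := ψ) (f.injective.sumMap Function.injective_id) (im (cp true) a.t ∪ _) _
    (Z := im Sum.inl (x : Set (Sym2 ℕ)))]
  · simp only [Vs, im_union, im_im, h1, im_cp_rt, Set.union_right_comm]
  · rintro _ ⟨c, hc, rfl⟩
    obtain ⟨i, hi, hi'⟩ := h c hc
    refine ⟨_, Sym2.mem_map.mpr ⟨i, hi, rfl⟩, ?_⟩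
    rintro ⟨j | j, hj⟩
    · cases hj; exact hi' ⟨j, rfl⟩
    · cases hj

theorem K_adj (κ : Ker) {f : ℕ ↪ ℕ} {x : Pat} (h : Off f x) (a b : Sy) :
    K κ a (Vs f x b) = K κ (Vt h a) b := by
  have h1 : (lift (dn f) ∘ cp false) ∘ up f = cp false := by
    funext i
    cases i with
    | inl i => exact congrArg (cp true) (dn_in f i)
    | inr i => rfl
  have h2 : im (lift (dn f) ∘ cp false) (rt x) = im (cp true ∘ dn f) (rt x) := by
    rw [rt, im_im, im_im]; rfl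
  rw [K, K, ← kk_map κ (lift_inj (dn_inj f)) (im (cp true) a.t ∪ _)]
  simp only [Vs, Vt, im_union, im_im, lift_cp, ← Function.comp_assoc, h1, h2]
  rw [Set.union_assoc, Set.union_comm (im (cp true ∘ dn f) (rt x))]

theorem Vs_one (a : Sy) : Vs (Function.Embedding.refl ℕ) ∅ a = a := by
  have : up (Function.Embedding.refl ℕ) = id := by funext i; cases i <;> rfl
  ext1 <;> simp only [Vs, this, im_id, rt_empty, Set.union_empty]

theorem Vs_comp (f g : ℕ ↪ ℕ) (x y : Pat) (a : Sy) :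
    Vs g y (Vs f x a) = Vs (f.trans g) (pmap g x ∪ y) a := by
  have : up g ∘ up f = up (f.trans g) := by funext i; cases i <;> rfl
  ext1 <;> simp only [Vs, im_union, im_im, this, im_up_rt, rt_union, Set.union_assoc]

theorem off_comp {f g : ℕ ↪ ℕ} {x y : Pat} (hx : Off f x) (hy : Off g y) :
    Off (f.trans g) (pmap g x ∪ y) := by
  intro c hc
  rcases Finset.mem_union.mp hc with hc | hc
  · obtain ⟨d, hd, rfl⟩ := Finset.mem_image.mp hc
    obtain ⟨i, hi, hi'⟩ := hx d hd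
    exact ⟨g i, Sym2.mem_map.mpr ⟨i, hi, rfl⟩, fun ⟨j, hj⟩ => hi' ⟨j, g.injective hj⟩⟩
  · obtain ⟨i, hi, hi'⟩ := hy c hc
    exact ⟨i, hi, fun ⟨j, hj⟩ => hi' ⟨f j, hj⟩⟩

theorem off_sq {f f' σ : ℕ ↪ ℕ} {s : Pat} (h : ∀ i j, σ i = f' j → ∃ k, f k = i) (hs : Off f s) :
    Off f' (pmap σ s) := by
  intro c hc
  obtain ⟨d, hd, rfl⟩ := Finset.mem_image.mp hc
  obtain ⟨i, hi, hi'⟩ := hs d hd
  exact ⟨σ i, Sym2.mem_map.mpr ⟨i, hi, rfl⟩, fun ⟨j, hj⟩ => hi' (h i j hj.symm)⟩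

/-- `σ` on the lowest level of the fresh indices -/
def low (σ : ℕ → ℕ) : Fr → Fr
  | (0, n) => (0, σ n)
  | (k + 1, n) => (k + 1, n)

theorem low_inj (σ : ℕ ↪ ℕ) : Function.Injective (low σ) := by
  rintro ⟨_ | k, n⟩ ⟨_ | l, m⟩ h
  · rw [σ.injective (Prod.mk.inj h).2]
  · cases h
  · cases h
  · exact h

theorem sq_sym {f g f' σ : ℕ ↪ ℕ} {s y : Pat} (h1 : f.trans σ = g.trans f')
    (h2 : ∀ i j, σ i = f' j → ∃ k, f k = i ∧ g k = j) (hs : Off f s) (hs' : Off f' (pmap σ s))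
    (a : Sy) : Vt hs' (Vs σ (pmap f' y) a) = rel (low σ) (Vs g y (Vt hs a)) := by
  have e1 : dn f' ∘ up σ = (Sum.map id (low σ) ∘ up g) ∘ dn f := by
    funext i
    rcases i with i | ⟨k, n⟩
    · by_cases h : i ∈ Set.range f
      · obtain ⟨k, rfl⟩ := h
        have : σ (f k) = f' (g k) := DFunLike.congr_fun h1 k
        show dn f' (.inl (σ (f k))) = Sum.map id (low σ) (up g (dn f (.inl (f k))))
        rw [this, dn_in, dn_in]; rfl
      · show dn f' (.inl (σ i)) = Sum.map id (low σ) (up g (dn f (.inl i)))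
        rw [dn_out h, dn_out fun ⟨j, hj⟩ => h ((h2 i j hj.symm).imp fun _ => And.left)]; rfl
    · rfl
  have e2 : im (dn f' ∘ up f') (rt y) = rt y := im_rt (dn_in f') y
  have e3 : im (Sum.map id (low σ)) (rt y) = rt y := im_rt (fun _ => rfl) y
  ext1 <;> simp only [Vs, Vt, rel, im_union, ← im_up_rt, im_im, ← Function.comp_assoc, e1, e2, e3]

theorem Vs_insert (f : ℕ ↪ ℕ) (c : Sym2 ℕ) (x : Pat) (a : Sy) :
    Vs f (insert c x) a = ins c (Vs f x a) := by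
  ext1 <;> simp only [Vs, ins, rt_insert, Set.union_insert]

theorem not_mem_Vs {f : ℕ ↪ ℕ} {c : Sym2 ℕ} {x : Pat} (h : ∃ i ∈ c, i ∉ Set.range f) (hx : c ∉ x)
    (a : Sy) : Sym2.map Sum.inl c ∉ (Vs f x a).t := by
  rintro (h' | h')
  · obtain ⟨i, hi, hi'⟩ := h
    obtain ⟨j | j, hj⟩ := range_of_im h' (Sym2.mem_map.mpr ⟨i, hi, rfl⟩)
    · cases hj; exact hi' ⟨j, rfl⟩
    · cases hj
  · exact hx (mem_rt.mp h')

theorem dn_up_pair (f : ℕ ↪ ℕ) (c : Sym2 ℕ) :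
    Sym2.map (dn f ∘ up f) (Sym2.map Sum.inl c) = Sym2.map Sum.inl c := by
  rw [Sym2.map_map]; exact congrArg (Sym2.map · c) (funext (dn_in f))

theorem gen_ins {f : ℕ ↪ ℕ} {s : Pat} (hs : Off f s) (t : Pat) (c : Sym2 ℕ) (a : Sy) :
    Vt hs (Vs f t (ins c a)) = ins c (Vt hs (Vs f t a)) := by
  ext1 <;> simp only [Vs, Vt, ins, im_union, im_im, im_insert, Set.insert_union]
  rw [Sym2.map_map, dn_up_pair]

theorem gen_not_mem {f : ℕ ↪ ℕ} {s t : Pat} (hs : Off f s) (ht : Off f t) {c : Sym2 ℕ} {a : Sy}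
    (ha : Sym2.map Sum.inl c ∉ a.t) : Sym2.map Sum.inl c ∉ (Vt hs (Vs f t a)).t := by
  simp only [Vs, Vt, im_union, im_im]
  rintro (h | h)
  · rw [← dn_up_pair f] at h
    exact ha ((mem_im ((dn_inj f).comp (f.injective.sumMap Function.injective_id))).mp h)
  · exact (tch_dn ht).not_mem c h

/-- the symbol of a pattern -/
def sy (P : Pat) : Sy := ⟨rt P, ∅, rt_finite P, Set.finite_empty, fun _ h => h.elim⟩

theorem Vs_sy (f : ℕ ↪ ℕ) (x P : Pat) : Vs f x (sy P) = sy (pmap f P ∪ x) := by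
  ext1 <;> simp only [Vs, sy, im_up_rt, rt_union, im_empty]

theorem ins_sy (c : Sym2 ℕ) (P : Pat) : ins c (sy P) = sy (insert c P) := by
  ext1 <;> simp only [ins, sy, rt_insert]

theorem K_sy (κ : Ker) {U : Type} [Finite U] {j : U → ℕ} (hj : Function.Injective j)
    (P P' : Om U) : K κ (sy (pat j P)) (sy (pat j P')) = κ.ρ U P P' := by
  have h1 : ∀ P : Om U, (pat j P : Set (Sym2 ℕ)) = im j {d | P d = 1} := fun P =>
    Set.Finite.coe_toFinset _
  have h2 : ∀ P : Om U, ofP id {d | P d = 1} = P := fun P => by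
    funext c
    rw [ofP, Sym2.map_id]
    exact bit_eq _
  simp only [K, sy, im_empty, Set.union_empty, im_cp_rt, h1]
  rw [kk_map κ Sum.inl_injective, kk_map κ hj, kk_eq κ Function.injective_id (by simp), h2, h2]

end NE.GN
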