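import Pool.Agent.Lib.MP_ecee09_co.NE.GDefs

/-! The group of classes; a symmetric biadditive form is a polar form. -/

namespace NE

/-- a finite commutative cancellative monoid, given by bare operations, is a group -/
theorem grp_mk {E : Type} [Finite E] (ad : E → E → E) (z : E)
    (ha : ∀ a b c, ad (ad a b) c = ad a (ad b c)) (hc : ∀ a b, ad a b = ad b a)
    (hz : ∀ a, ad z a = a) (hi : ∀ a b c, ad a c = ad b c → a = b) :
    ∃ _ : AddCommGroup E, (0 : E) = z ∧ ∀ a b : E, a + b = ad a b := by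
  have hs : ∀ c, ∃ a, ad a c = z := fun c =>
    Finite.injective_iff_surjective.mp (fun a b h => hi a b c h) z
  choose ng hng using hs
  letI : Add E := ⟨ad⟩
  letI : Zero E := ⟨z⟩
  letI : Neg E := ⟨ng⟩
  exact ⟨{ AddGroup.ofLeftAxioms ha hz hng with add_comm := hc }, rfl, fun _ _ => rfl⟩

theorem grp : GRP := by
  classical
  intro R W r hd hW hr hs ht hu hx
  let st : Setoid {x : Finset ℕ // x ⊆ W} :=
    ⟨fun x y => r x.1 y.1, fun x => hr _ x.2, fun {x y} => hs _ _ x.2 y.2,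
      fun {x y z} => ht _ _ _ x.2 y.2 z.2⟩
  haveI : Finite {x : Finset ℕ // x ⊆ W} :=
    (W.powerset.finite_toSet.subset fun x (h : x ⊆ W) => by simpa using h).to_subtype
  let cl : Finset ℕ → Quotient st := fun x =>
    if h : x ⊆ W then Quotient.mk st ⟨x, h⟩ else Quotient.mk st ⟨∅, Finset.empty_subset _⟩
  have hcl : ∀ x y, x ⊆ W → y ⊆ W → (cl x = cl y ↔ r x y) := by
    intro x y h1 h2
    simp only [cl, dif_pos h1, dif_pos h2]
    exact Quotient.eq
  have hsur : ∀ l e, ∃ x, x ⊆ R l ∧ cl x = e := by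
    intro l e
    obtain ⟨⟨y, hy⟩, rfl⟩ := Quotient.exists_rep e
    obtain ⟨x, h1, h2⟩ := hx l y hy
    refine ⟨x, h1, ((hcl y x hy (h1.trans (hW l))).2 h2).symm.trans ?_⟩
    simp only [cl, dif_pos hy]
  choose rp hrp hrc using hsur
  have can : ∀ x y z, x ⊆ W → y ⊆ W → z ⊆ W → Disjoint x z → Disjoint y z →
      (cl (x ∪ z) = cl (y ∪ z) ↔ cl x = cl y) := by
    intro x y z h1 h2 h3 h4 h5
    rw [hcl _ _ (Finset.union_subset h1 h3) (Finset.union_subset h2 h3), hcl _ _ h1 h2]
    exact hu x y z h1 h2 h3 h4 h5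
  have dj : ∀ {l l' x y}, l ≠ l' → x ⊆ R l → y ⊆ R l' → Disjoint x y :=
    fun h h1 h2 => Finset.disjoint_of_subset_left h1 (Finset.disjoint_of_subset_right h2 (hd _ _ h))
  have mv : ∀ {l m k x x' y}, l ≠ k → m ≠ k → x ⊆ R l → x' ⊆ R m → y ⊆ R k → cl x = cl x' →
      cl (x ∪ y) = cl (x' ∪ y) := fun h1 h2 h3 h4 h5 h6 =>
    (can _ _ _ (h3.trans (hW _)) (h4.trans (hW _)) (h5.trans (hW _)) (dj h1 h3 h5)
      (dj h2 h4 h5)).2 h6
  let ad : Quotient st → Quotient st → Quotient st := fun a b => cl (rp 0 a ∪ rp 1 b)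
  have key : ∀ l l' x y, l ≠ l' → x ⊆ R l → y ⊆ R l' → cl (x ∪ y) = ad (cl x) (cl y) := by
    intro l l' x y h h1 h2
    obtain ⟨k, hk, hk0⟩ : ∃ k : Fin 4, k ≠ l ∧ k ≠ 0 := by
      by_cases e : l = 1
      · exact ⟨2, by rw [e]; decide, by decide⟩
      · exact ⟨1, Ne.symm e, by decide⟩
    calc cl (x ∪ y) = cl (y ∪ x) := by rw [Finset.union_comm]
      _ = cl (rp k (cl y) ∪ x) := mv h.symm hk h2 (hrp _ _) h1 (hrc _ _).symm
      _ = cl (x ∪ rp k (cl y)) := by rw [Finset.union_comm]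
      _ = cl (rp 0 (cl x) ∪ rp k (cl y)) :=
        mv hk.symm hk0.symm h1 (hrp _ _) (hrp _ _) (hrc _ _).symm
      _ = cl (rp k (cl y) ∪ rp 0 (cl x)) := by rw [Finset.union_comm]
      _ = cl (rp 1 (cl y) ∪ rp 0 (cl x)) :=
        mv hk0 (by decide) (hrp _ _) (hrp _ _) (hrp _ _) ((hrc _ _).trans (hrc _ _).symm)
      _ = ad (cl x) (cl y) := by rw [Finset.union_comm]
  have key' : ∀ l l' a b, l ≠ l' → cl (rp l a ∪ rp l' b) = ad a b := by
    intro l l' a b h
    rw [key l l' _ _ h (hrp _ _) (hrp _ _), hrc, hrc]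
  have sW : ∀ l a, rp l a ⊆ W := fun l a => (hrp l a).trans (hW l)
  have hc : ∀ a b, ad a b = ad b a := fun a b => by
    rw [← key' 1 0 b a (by decide), Finset.union_comm]
  have tri : ∀ a b c, ad (ad a b) c = cl (rp 0 a ∪ rp 1 b ∪ rp 2 c) := by
    intro a b c
    rw [← key' 0 2 _ c (by decide)]
    refine (can _ _ _ (sW _ _) (Finset.union_subset (sW _ _) (sW _ _)) (sW _ _)
      (dj (by decide) (hrp _ _) (hrp _ _)) (Finset.disjoint_union_left.2
        ⟨dj (by decide) (hrp _ _) (hrp _ _), dj (by decide) (hrp _ _) (hrp _ _)⟩)).2 (hrc _ _)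
  have ha : ∀ a b c, ad (ad a b) c = ad a (ad b c) := by
    intro a b c
    rw [tri, hc a, ← key' 1 0 _ a (by decide), Finset.union_assoc, Finset.union_comm (rp 0 a)]
    refine (can _ _ _ (Finset.union_subset (sW _ _) (sW _ _)) (sW _ _) (sW _ _)
      (Finset.disjoint_union_left.2
        ⟨dj (by decide) (hrp _ _) (hrp _ _), dj (by decide) (hrp _ _) (hrp _ _)⟩)
      (dj (by decide) (hrp _ _) (hrp _ _))).2 ?_
    rw [hrc, key' 1 2 b c (by decide)]
  have hz : ∀ a, ad (cl ∅) a = a := fun a => by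
    have := key 0 1 ∅ (rp 1 a) (by decide) (Finset.empty_subset _) (hrp _ _)
    rw [Finset.empty_union, hrc] at this
    exact this.symm
  have hi : ∀ a b c, ad a c = ad b c → a = b := fun a b c h => by
    have := (can _ _ _ (sW 0 a) (sW 0 b) (sW 1 c) (dj (by decide) (hrp _ _) (hrp _ _))
      (dj (by decide) (hrp _ _) (hrp _ _))).1 h
    rwa [hrc, hrc] at this
  obtain ⟨inst, h0, hadd⟩ := grp_mk ad (cl ∅) ha hc hz hi
  exact ⟨Quotient st, inst, Fintype.ofFinite _, cl, hcl, h0.symm,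
    fun l l' x y h h1 h2 => (key l l' x y h h1 h2).trans (hadd _ _).symm,
    fun l e => ⟨rp l e, hrp l e, hrc l e⟩⟩

/-- the extension of `E` by the circle along `be` -/
def QX {E : Type} [AddCommGroup E] (be : E →+ E →+ TT) (_ : ∀ x y, be x y = be y x) : Type :=
  E × TT

section
variable {E : Type} [AddCommGroup E] {be : E →+ E →+ TT} {hb : ∀ x y, be x y = be y x}

noncomputable instance : Add (QX be hb) := ⟨fun a b => (a.1 + b.1, a.2 + b.2 + be a.1 b.1)⟩
noncomputable instance : Zero (QX be hb) := ⟨((0, 0) : E × TT)⟩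
noncomputable instance : Neg (QX be hb) := ⟨fun a => (-a.1, -a.2 + be a.1 a.1)⟩

noncomputable instance : AddCommGroup (QX be hb) :=
  { AddGroup.ofLeftAxioms (G := QX be hb)
      (fun a b c => Prod.ext (add_assoc _ _ _) (by
        show a.2 + b.2 + be a.1 b.1 + c.2 + be (a.1 + b.1) c.1 =
          a.2 + (b.2 + c.2 + be b.1 c.1) + be a.1 (b.1 + c.1)
        rw [map_add, map_add, AddMonoidHom.add_apply]; abel))
      (fun a => Prod.ext (zero_add _) (by
        show 0 + a.2 + be 0 a.1 = a.2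
        simp))
      (fun a => Prod.ext (neg_add_cancel _) (by
        show -a.2 + be a.1 a.1 + a.2 + be (-a.1) a.1 = 0
        rw [map_neg, AddMonoidHom.neg_apply]; abel)) with
    add_comm := fun a b => Prod.ext (add_comm _ _) (by
      show a.2 + b.2 + be a.1 b.1 = b.2 + a.2 + be b.1 a.1
      rw [hb a.1, add_comm a.2]) }

end

theorem qex : QEX := by
  intro E _ be hb
  let i : TT →+ QX be hb :=
    { toFun := fun t => ((0, t) : E × TT)
      map_zero' := rfl
      map_add' := fun s t => Prod.ext (add_zero _).symm (by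
        show s + t = s + t + be 0 0
        simp) }
  obtain ⟨r, hr⟩ := (Module.Baer.of_divisible TT).extension_property_addMonoidHom i
    (fun s t h => congrArg Prod.snd h) (AddMonoidHom.id _)
  have hri : ∀ t, r (i t) = t := fun t => DFunLike.congr_fun hr t
  let s : E → QX be hb := fun x => ((x, 0) : E × TT)
  have hs : ∀ x y, s x + s y = s (x + y) + i (be x y) := fun x y =>
    Prod.ext (add_zero _).symm (by
      show 0 + 0 + be x y = 0 + be x y + be (x + y) 0
      simp)
  refine ⟨⟨fun x => -r (s x), be, fun x y => ?_⟩, rfl⟩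
  have := congrArg r (hs x y)
  rw [map_add, map_add, hri] at this
  rw [← neg_add, this]
  abel

end NE
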