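import Pool.Agent.Lib.MP_ecee09_co.NE.Stmts4
import Pool.Agent.Lib.MP_ecee09_co.NE.FamC

/-! Common tools for the particle loop, the hierarchy case and the lattice case. -/

namespace NE

open SD (F sm av ind cnt Tame sm_congr av_congr sm_add sm_sub sm_mul_left sm_mul_right sm_div
  sm_mono sm_nonneg av_add av_sub av_mul_left av_const av_mono av_nonneg av_sm_comm av_prod av_comm
  ind_pos ind_neg ind_nonneg ind_le_one ind_and ind_congr ind_mono ind_sq av_ind_eq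
  av_ind_nonneg av_ind_le_one sm_ind_le_of_inj)

section part
variable {Γ I K L : Type} [AddCommGroup Γ]

lemma hc_si_nonneg {α : Type} (P : Set α) (p : α) : 0 ≤ si P p := ind_nonneg _

lemma hc_NN_si (ε : Γ) (P : Set (Pt Γ I)) (x : OmE Γ I) :
    NN ε (si P) x = sm fun p => ind (p ∈ P ∧ rs ε p x = 0) :=
  sm_congr fun _ => (ind_and _ _).symm

lemma hc_rs_snd (ε : Γ) (v w : I → Γ) (x : OmE Γ I) : rs ε (v, w) x = rs ε (v, 0) x + w := by
  funext i; simp [rs]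

lemma hc_rs_fst (ε : Γ) (p : Pt Γ I) (b : I → Γ) (M : Om I) :
    rs ε p (b, M) = b + rs ε p (0, M) := by
  funext i; simp [rs, add_assoc]

lemma hc_rs_iff (ε : Γ) (p : Pt Γ I) (b : I → Γ) (M : Om I) :
    rs ε p (b, M) = 0 ↔ b = -rs ε p (0, M) := by
  rw [hc_rs_fst, add_eq_zero_iff_eq_neg]

variable [Finite I] [Finite K] [Finite L]

lemma hc_rs_cell (ε : Γ) (p : Pt Γ I) (x : OmE Γ I) (Φ : Lab I K) (y : OmE Γ K) :
    rs ε p (cell x Φ y) = rs ε p (cell x Φ 0) + spr (rs ε (wl p.1 Φ, 0) y) Φ := by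
  funext i
  have h := congrFun (adj_ow x.2 Φ y.2 p.1) i
  simp only [rs, cell, Pi.add_apply, h, Prod.fst_zero, Prod.snd_zero, spr_zero, Pi.zero_apply]
  rcases hi : Φ i with _ | k
  · simp only [spr_of_none _ hi, ow_none_left _ _ hi]
    abel
  · simp only [spr_some _ hi, ow_some _ _ hi hi, rs, Pi.zero_apply, ZMod.val_zero, zero_smul]
    abel

lemma hc_rs_sub {ε : Γ} {p : Pt Γ I} {x : OmE Γ I} {Φ : Lab I K} {q : Pt Γ K}
    (h : Sub ε p x Φ q) (y : OmE Γ K) : rs ε p (cell x Φ y) = spr (rs ε q y) Φ := by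
  rw [hc_rs_cell, h.2, ← spr_add, ← h.1, add_comm, ← hc_rs_snd]

lemma hc_sub_ex {ε : Γ} {p : Pt Γ I} {x : OmE Γ I} {Φ : Lab I K} {y : OmE Γ K}
    (h : rs ε p (cell x Φ y) = 0) : ∃ q, Sub ε p x Φ q ∧ rs ε q y = 0 := by
  refine ⟨(wl p.1 Φ, -rs ε (wl p.1 Φ, 0) y), ⟨rfl, ?_⟩, ?_⟩
  · rw [hc_rs_cell] at h
    rw [spr_neg, ← add_eq_zero_iff_eq_neg, h]
  · rw [hc_rs_snd, add_neg_cancel]

variable [Finite Γ]

omit [AddCommGroup Γ] [Finite Γ] in
lemma hc_card_fun : (Nat.card (I → Γ) : ℝ) = DD Γ I := by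
  rw [Nat.card_fun]; push_cast; rfl

omit [Finite I] in
lemma hc_DD_pos : 0 < DD Γ I := pow_pos SD.card_pos' _

lemma hc_NN_nonneg (ε : Γ) (P : Set (Pt Γ I)) (x : OmE Γ I) : 0 ≤ NN ε (si P) x :=
  sm_nonneg fun _ => mul_nonneg (ind_nonneg _) (ind_nonneg _)

/-- a particle is present with probability `1 / DD` -/
lemma hc_present (ε : Γ) (p : Pt Γ I) :
    av (fun x : OmE Γ I => ind (rs ε p x = 0)) = 1 / DD Γ I := by
  rw [av_prod, av_comm]
  refine (av_congr fun M => ?_).trans (av_const _)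
  rw [← hc_card_fun, ← av_ind_eq (-rs ε p (0, M)) fun _ => 1]
  exact av_congr fun b => by rw [mul_one, hc_rs_iff]

lemma hc_av_NN (ε : Γ) (m : Pt Γ I → ℝ) : av (NN ε m) = lam m := by
  unfold NN lam
  rw [av_sm_comm, ← sm_div]
  refine sm_congr fun p => ?_
  rw [av_mul_left, hc_present]; ring

lemma hc_lam_nonneg (P : Set (Pt Γ I)) : 0 ≤ lam (si P) :=
  div_nonneg (sm_nonneg (hc_si_nonneg P)) hc_DD_pos.le

lemma hc_lam_le {D : ℕ → ℝ} {ε : Γ} {P : Set (Pt Γ I)} (h : Tame D (NN ε (si P))) :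
    lam (si P) ≤ D 1 := by
  have := h 1
  simp only [pow_one, abs_of_nonneg (hc_NN_nonneg ε P _)] at this
  rwa [← hc_av_NN ε]

lemma hc_nn_sub (ε : Γ) (P : Set (Pt Γ I)) (x : OmE Γ I) {Φ : Lab I K} (hΦ : Good Φ)
    (y : OmE Γ K) : NN ε (si (subP ε P x Φ)) y ≤
      sm fun p => ind (p ∈ P ∧ rs ε p (cell x Φ y) = 0 ∧ Gen (wl p.1 Φ)) := by
  rw [hc_NN_si]
  refine sm_ind_le_of_inj _ _ (fun q p => Sub ε p x Φ q) ?_ ?_
  · rintro q ⟨⟨hg, p, hp, hs⟩, h0⟩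
    refine ⟨p, ⟨hp, ?_, hs.1 ▸ hg⟩, hs⟩
    rw [hc_rs_sub hs, h0, spr_zero]
  · rintro q q' p - - h h'
    exact Prod.ext (h.1.trans h'.1.symm) (hΦ.spr_inj (h.2.symm.trans h'.2))

lemma hc_nn_sub_le (ε : Γ) (P : Set (Pt Γ I)) (x : OmE Γ I) {Φ : Lab I K} (hΦ : Good Φ)
    (y : OmE Γ K) : NN ε (si (subP ε P x Φ)) y ≤ NN ε (si P) (cell x Φ y) := by
  rw [hc_NN_si ε P]
  exact (hc_nn_sub ε P x hΦ y).trans (sm_mono fun _ => ind_mono fun h => ⟨h.1, h.2.1⟩)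

omit [Finite I] in
lemma hc_bad_le_one (ε : Γ) (P : Set (Pt Γ I)) (x : OmE Γ I) (Φ : Lab I K) : bad ε P x Φ ≤ 1 :=
  av_ind_le_one _

omit [Finite I] in
lemma hc_bad_nonneg (ε : Γ) (P : Set (Pt Γ I)) (x : OmE Γ I) (Φ : Lab I K) : 0 ≤ bad ε P x Φ :=
  av_ind_nonneg _

lemma hc_bad_comp (ε : Γ) (P : Set (Pt Γ I)) (x : OmE Γ I) (Φ : Lab I K) (y : OmE Γ K)
    (Ψ : Lab K L) : bad ε P (cell x Φ y) (lcomp Φ Ψ) ≤ bad ε (subP ε P x Φ) y Ψ := by
  refine av_mono fun z => ind_mono ?_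
  rintro ⟨p, hp, h0, hg⟩
  rw [Fam.fc_cell_lcomp] at h0
  rw [wl_lcomp] at hg
  obtain ⟨q, hq, h1⟩ := hc_sub_ex h0
  rw [← hq.1] at hg
  exact ⟨q, ⟨hg.of_wl, p, hp, hq⟩, h1, hg⟩

/-- the mass of the sub-particles is at most the mean number of present unreduced particles -/
lemma hc_lam_sub (ε : Γ) (P : Set (Pt Γ I)) (x : OmE Γ I) (Φ : Lab I K) :
    ind (Good Φ) * lam (si (subP ε P x Φ)) ≤ av fun y : OmE Γ K =>
      sm fun p => ind (p ∈ P ∧ rs ε p (cell x Φ y) = 0 ∧ Gen (wl p.1 Φ)) := by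
  by_cases hΦ : Good Φ
  · rw [ind_pos hΦ, one_mul, ← hc_av_NN ε]
    exact av_mono fun y => hc_nn_sub ε P x hΦ y
  · rw [ind_neg hΦ, zero_mul]
    exact av_nonneg fun _ => sm_nonneg fun _ => ind_nonneg _

/-- if a part of `P` of mass `2c` is solved, the mass of the sub-particles drops by `c` -/
lemma hc_drop {D : ℕ → ℝ} {c η : ℝ} (hc : 0 < c) (ε : Γ) (P P1 : Set (Pt Γ I))
    (hP : Tame D (NN ε (si P))) (h1 : P1 ⊆ P) (hm : 2 * c ≤ lam (si P1))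
    (hs : Solve ε P1 K (min η (c ^ 2 / (D 2 + 1)))) : PDrop ε P K η c := by
  obtain ⟨A, hj, hb⟩ := hs
  refine ⟨A, hj.trans (min_le_left _ _), ?_⟩
  have hD := hP.nonneg 2
  set t := c / (2 * (D 2 + 1)) with ht
  have ht0 : 0 < t := by positivity
  have key : ∀ x (Φ : Lab I K), ind (Good Φ) * lam (si (subP ε P x Φ)) ≤
      (av fun y : OmE Γ K => NN ε (si P) (cell x Φ y) - NN ε (si P1) (cell x Φ y) +
        t * NN ε (si P) (cell x Φ y) ^ 2) + 1 / (4 * t) * bad ε P1 x Φ := by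
    intro x Φ
    refine (hc_lam_sub ε P x Φ).trans ?_
    unfold bad
    rw [← av_mul_left, ← av_add]
    refine av_mono fun y => ?_
    set z := cell x Φ y
    set b := ind (∃ p ∈ P1, rs ε p z = 0 ∧ Gen (wl p.1 Φ)) with hb
    have e1 : (sm fun p => ind (p ∈ P ∧ rs ε p z = 0 ∧ Gen (wl p.1 Φ))) ≤
        NN ε (si P) z - NN ε (si P1) z + NN ε (si P) z * b := by
      simp only [hc_NN_si]
      rw [← sm_sub, ← sm_mul_right, ← sm_add]
      refine sm_mono fun p => ?_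
      by_cases hp : p ∈ P ∧ rs ε p z = 0
      · by_cases hp1 : p ∈ P1
        · rw [ind_pos hp, ind_pos (⟨hp1, hp.2⟩ : p ∈ P1 ∧ _), sub_self, zero_add, one_mul]
          exact ind_mono fun h => ⟨p, hp1, h.2⟩
        · rw [ind_pos hp, ind_neg (fun h : p ∈ P1 ∧ _ => hp1 h.1)]
          have := ind_le_one (p ∈ P ∧ rs ε p z = 0 ∧ Gen (wl p.1 Φ))
          have := ind_nonneg (∃ p ∈ P1, rs ε p z = 0 ∧ Gen (wl p.1 Φ))
          linarith
      · rw [ind_neg hp, ind_neg (fun h : p ∈ P1 ∧ _ => hp ⟨h1 h.1, h.2⟩),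
          ind_neg (fun h : p ∈ P ∧ _ ∧ _ => hp ⟨h.1, h.2.1⟩)]
        simp
    have e2 : NN ε (si P) z * b ≤ t * NN ε (si P) z ^ 2 + 1 / (4 * t) * b := by
      have hb2 : b ^ 2 = b := ind_sq _
      have : 0 ≤ (2 * t * NN ε (si P) z - b) ^ 2 / (4 * t) := by positivity
      have e : (2 * t * NN ε (si P) z - b) ^ 2 / (4 * t) =
          t * NN ε (si P) z ^ 2 + 1 / (4 * t) * b ^ 2 - NN ε (si P) z * b := by field_simp; ring
      rw [e, hb2] at this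
      linarith
    linarith
  refine (A.mono key).trans ?_
  rw [A.add, A.smul, A.marg fun z => NN ε (si P) z - NN ε (si P1) z + t * NN ε (si P) z ^ 2,
    av_add, av_sub, av_mul_left, hc_av_NN ε, hc_av_NN ε]
  have e3 : t * av (fun z => NN ε (si P) z ^ 2) ≤ c / 2 := by
    have h2 : av (fun z => NN ε (si P) z ^ 2) ≤ D 2 := by simpa only [sq_abs] using hP 2
    refine (mul_le_mul_of_nonneg_left h2 ht0.le).trans ?_
    rw [ht, div_mul_eq_mul_div, div_le_div_iff₀ (by positivity) (by norm_num)]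
    nlinarith
  have e4 : 1 / (4 * t) * A.E (fun x Φ => bad ε P1 x Φ) ≤ c / 2 := by
    refine (mul_le_mul_of_nonneg_left (hb.trans (min_le_right _ _)) (by positivity)).trans ?_
    rw [ht]; apply le_of_eq; field_simp; ring
  linarith

end part

end NE
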