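import Pool.Agent.Lib.MP_ecee09_co.NE.HC

/-! The hierarchy case. -/

namespace NE

open SD (F sm av ind cnt Tame sm_congr av_congr sm_add sm_mul_left sm_mul_right sm_div
  sm_mono sm_nonneg av_mul_left av_mul_right av_mono av_sm_comm av_prod av_comm sm_fiber sm_mul_sm
  ind_pos ind_neg ind_nonneg ind_and ind_congr ind_mono av_ind_eq single_le_sm av_surj
  cond_mono cond_comp)

section part
variable {Γ Γ' I K : Type} [AddCommGroup Γ] [AddCommGroup Γ'] (π : Γ →+ Γ')

/-- the parent of a particle -/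
def hhPar (p : Pt Γ I) : Pt Γ' I := (π ∘ p.1, π ∘ p.2)

/-- the projection of tagged points -/
def hhL (x : OmE Γ I) : OmE Γ' I := (π ∘ x.1, x.2)

lemma hh_comp_add (b b' : I → Γ) : π ∘ (b + b') = π ∘ b + π ∘ b' :=
  funext fun _ => map_add _ _ _

lemma hhL_add (x y : OmE Γ I) : hhL π (x + y) = hhL π x + hhL π y :=
  Prod.ext (hh_comp_add π _ _) rfl

lemma hhL_surj (hπ : Function.Surjective π) :
    Function.Surjective (hhL π : OmE Γ I → OmE Γ' I) := fun y => by
  obtain ⟨w, hw⟩ := hπ.comp_left y.1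
  exact ⟨(w, y.2), Prod.ext hw rfl⟩

lemma hhL_cell (x : OmE Γ I) (Φ : Lab I K) (y : OmE Γ K) :
    hhL π (cell x Φ y) = cell (hhL π x) Φ (hhL π y) := by
  refine Prod.ext (funext fun i => ?_) rfl
  simp only [hhL, cell, spr, Function.comp, Pi.add_apply, map_add]
  rcases Φ i with _ | k <;> simp

lemma hh_gen (hπ : Function.Surjective π) {w : K → Γ} (h : Gen w) : Gen (π ∘ w) := by
  unfold Gen at h ⊢
  rw [Set.range_comp, ← AddMonoidHom.map_closure, h]
  exact AddSubgroup.map_top_of_surjective π hπ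

variable [Finite I]

lemma hh_rs (ε : Γ) (p : Pt Γ I) (x : OmE Γ I) :
    rs (π ε) (hhPar π p) (hhL π x) = π ∘ rs ε p x := by
  let _ := Fintype.ofFinite I
  funext i
  simp only [rs, hhPar, hhL, Function.comp, map_add, adj_eq, map_sum, map_nsmul]

variable [Finite Γ] [Finite Γ']

omit [Finite Γ'] in
lemma hh_cond (ε : Γ) (p : Pt Γ I) (y : OmE Γ' I) :
    SD.cond (hhL π) (fun x => ind (rs ε p x = 0)) y =
      DD Γ' I / DD Γ I * ind (rs (π ε) (hhPar π p) y = 0) := by
  obtain ⟨b', M'⟩ := y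
  have e : ∀ M : Om I, (av fun b : I → Γ =>
      ind (hhL π (b, M) = (b', M')) * ind (rs ε p (b, M) = 0)) =
      ind (M = M') * (ind (rs (π ε) (hhPar π p) (b', M) = 0) / DD Γ I) := by
    intro M
    simp only [hc_rs_iff ε p _ M, mul_comm (ind (hhL π _ = _))]
    rw [av_ind_eq (-rs ε p (0, M)) fun b => ind (hhL π (b, M) = (b', M')), hc_card_fun,
      ← mul_div_assoc, ← ind_and]
    congr 1
    refine ind_congr ?_
    have h0 := hh_rs π ε p (0, M)
    have h1 : hhL π ((0 : I → Γ), M) = (0, M) := Prod.ext (funext fun _ => map_zero π) rfl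
    have h2 : π ∘ (-rs ε p (0, M)) = -(π ∘ rs ε p (0, M)) := funext fun _ => map_neg π _
    rw [h1] at h0
    rw [hc_rs_iff, h0, hhL, Prod.mk.injEq, h2, eq_comm (a := b'), and_comm]
  rw [SD.cond, av_prod, av_comm]
  simp only [e]
  rw [av_ind_eq M' fun M => ind (rs (π ε) (hhPar π p) (b', M) = 0) / DD Γ I,
    Nat.card_prod, Nat.cast_mul, hc_card_fun]
  have := SD.card_pos' (α := Om I)
  field_simp

/-- normalised number of children -/
noncomputable def hhM (P : Set (Pt Γ I)) (q : Pt Γ' I) : ℝ :=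
  DD Γ' I / DD Γ I * sm fun p => ind (hhPar π p = q) * ind (p ∈ P)

lemma hhM_nonneg (P : Set (Pt Γ I)) (q : Pt Γ' I) : 0 ≤ hhM π P q :=
  mul_nonneg (div_pos hc_DD_pos hc_DD_pos).le
    (sm_nonneg fun _ => mul_nonneg (ind_nonneg _) (ind_nonneg _))

lemma hh_cond_NN (ε : Γ) (P : Set (Pt Γ I)) (y : OmE Γ' I) :
    SD.cond (hhL π) (NN ε (si P)) y = sm fun q => hhM π P q * ind (rs (π ε) q y = 0) := by
  have e : SD.cond (hhL π) (NN ε (si P)) y =
      sm fun p => ind (p ∈ P) * SD.cond (hhL π) (fun x => ind (rs ε p x = 0)) y := by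
    simp only [SD.cond, NN, si, ← sm_mul_left]
    rw [av_sm_comm, ← sm_mul_left]
    refine sm_congr fun p => ?_
    rw [mul_left_comm, ← av_mul_left (ind (p ∈ P))]
    congr 1
    exact av_congr fun x => by ring
  rw [e, sm_fiber (hhPar π)]
  refine sm_congr fun q => ?_
  rw [hhM, mul_assoc, ← sm_mul_right, ← sm_mul_left]
  refine sm_congr fun p => ?_
  rw [hh_cond]
  by_cases h : hhPar π p = q
  · rw [h]; ring
  · rw [ind_neg h]; ring

lemma hh_mass (P : Set (Pt Γ I)) (S : Set (Pt Γ' I)) :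
    lam (si {p | p ∈ P ∧ hhPar π p ∈ S}) = (sm fun q => ind (q ∈ S) * hhM π P q) / DD Γ' I := by
  have h1 := hc_DD_pos (Γ := Γ) (I := I)
  have h2 := hc_DD_pos (Γ := Γ') (I := I)
  rw [lam, sm_fiber (hhPar π), ← sm_div, ← sm_div]
  refine sm_congr fun q => ?_
  have e : (sm fun p => ind (hhPar π p = q) * si {p | p ∈ P ∧ hhPar π p ∈ S} p) =
      ind (q ∈ S) * sm fun p => ind (hhPar π p = q) * ind (p ∈ P) := by
    rw [← sm_mul_left]
    refine sm_congr fun p => ?_
    by_cases h : hhPar π p = q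
    · rw [si, Set.mem_ofPred_eq, ind_and, h]; ring
    · rw [ind_neg h]; ring
  rw [e, hhM]; field_simp

lemma hh_coll (P : Set (Pt Γ I)) (G : AddSubgroup Γ) (hG : ∀ g ∈ G, π g = 0)
    (hD : DD Γ I = DD G I * DD Γ' I) :
    coll (si P) G ≤ (sm fun q => hhM π P q ^ 2) / DD Γ' I := by
  have h1 := hc_DD_pos (Γ := G) (I := I)
  have h2 := hc_DD_pos (Γ := Γ') (I := I)
  have h3 := hc_DD_pos (Γ := Γ) (I := I)
  have e : (sm fun p => sm fun p' => si P p * si P p' *
      ind (∀ i, p.1 i - p'.1 i ∈ G ∧ p.2 i - p'.2 i ∈ G)) ≤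
      sm fun q => (sm fun p => ind (hhPar π p = q) * ind (p ∈ P)) ^ 2 := by
    rw [sm_fiber (hhPar π)]
    refine sm_mono fun q => ?_
    rw [sq, sm_mul_sm]
    refine sm_mono fun p => ?_
    rw [← sm_mul_left]
    refine sm_mono fun p' => ?_
    simp only [si, ← ind_and]
    refine ind_mono ?_
    rintro ⟨h, ⟨hp, hp'⟩, hc⟩
    refine ⟨⟨h, hp⟩, ?_, hp'⟩
    rw [← h]
    refine Prod.ext (funext fun i => ?_) (funext fun i => ?_)
    · have := hG _ (hc i).1
      rw [map_sub, sub_eq_zero] at this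
      exact this.symm
    · have := hG _ (hc i).2
      rw [map_sub, sub_eq_zero] at this
      exact this.symm
  rw [coll]
  refine (div_le_div_of_nonneg_right e (by positivity)).trans (le_of_eq ?_)
  simp only [hhM, mul_pow, sm_mul_left]
  rw [hD]
  field_simp

lemma hh_cube (hπ : Function.Surjective π) {D : ℕ → ℝ} {ε : Γ} {P : Set (Pt Γ I)}
    (hP : Tame D (NN ε (si P))) : (sm fun q => hhM π P q ^ 3) / DD Γ' I ≤ D 3 := by
  refine le_trans ?_ (hP.cond (hhL π) (hhL_add π) (hhL_surj π hπ) 3)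
  have e : (sm fun q => hhM π P q ^ 3) / DD Γ' I =
      av fun y => sm fun q => hhM π P q ^ 3 * ind (rs (π ε) q y = 0) := by
    rw [av_sm_comm, ← sm_div]
    exact sm_congr fun q => by rw [av_mul_left, hc_present]; ring
  rw [e]
  refine av_mono fun y => ?_
  have h0 : ∀ q, 0 ≤ hhM π P q * ind (rs (π ε) q y = 0) :=
    fun q => mul_nonneg (hhM_nonneg π P q) (ind_nonneg _)
  rw [hh_cond_NN, abs_of_nonneg (sm_nonneg h0), pow_succ, ← sm_mul_left]
  refine sm_mono fun q => ?_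
  have h1 := pow_le_pow_left₀ (h0 q) (single_le_sm h0 q) 2
  refine le_trans (le_of_eq ?_) (mul_le_mul_of_nonneg_right h1 (h0 q))
  by_cases h : rs (π ε) q y = 0
  · rw [ind_pos h]; ring
  · rw [ind_neg h]; ring

lemma hh_solve [Finite K] (hπ : Function.Surjective π) (ε : Γ) (P : Set (Pt Γ I))
    (S : Set (Pt Γ' I)) {η : ℝ} (h : Solve (π ε) S K η) :
    Solve ε {p | p ∈ P ∧ hhPar π p ∈ S} K η := by
  obtain ⟨A, hj, hb⟩ := h
  obtain ⟨A', hA', hj'⟩ := A.glift π hπ
  refine ⟨A', hj'.trans_le hj, le_trans ?_ hb⟩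
  rw [hA']
  refine A.mono fun x Φ => ?_
  refine le_trans (cond_mono _ (g := fun b => bad (π ε) S (π ∘ b, x.2) Φ) (fun b => ?_) x.1)
    (cond_comp (fun b : I → Γ => π ∘ b) (hh_comp_add π) hπ.comp_left
      (fun b' => bad (π ε) S (b', x.2) Φ) x.1).le
  unfold bad
  rw [← av_surj (hhL π) (hhL_add π) (hhL_surj π hπ)]
  refine av_mono fun y => ind_mono ?_
  rintro ⟨p, hp, hr, hn⟩
  refine ⟨hhPar π p, hp.2, ?_, ?_⟩
  · have e := hh_rs π ε p (cell (b, x.2) Φ y)
    rw [hhL_cell, hr] at e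
    exact e.trans (funext fun _ => map_zero π)
  · have e := hh_gen π hπ hn
    rwa [map_wl] at e

end part

theorem hh_of {Γ : Type} [AddCommGroup Γ] [Finite Γ]
    (h : ∀ (Γ' : Type) [AddCommGroup Γ'] [Finite Γ'] [Nontrivial Γ'],
      Nat.card Γ' < Nat.card Γ → RP Γ') : HH Γ := by
  intro ε D η1 hη1
  set c := η1 ^ 2 / (6 * (|D 3| + 1)) with hc
  set th := η1 / (3 * (|D 1| + 1)) with hth
  have hc0 : 0 < c := by positivity
  have hth0 : 0 < th := by positivity
  refine ⟨c, hc0, fun K _ η hη => ?_⟩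
  have hη' : 0 < min η (c ^ 2 / (|D 2| + 1)) := by positivity
  have hex : ∀ G : AddSubgroup Γ, ∃ n0 : ℕ, G ≠ ⊥ → G ≠ ⊤ →
      ∀ (I : Type) [Finite I], n0 ≤ Nat.card I → ∀ P : Set (Pt (Γ ⧸ G) I),
        Tame (fun p => D p / th ^ p) (NN (QuotientAddGroup.mk' G ε) (si P)) →
          Solve (QuotientAddGroup.mk' G ε) P K (min η (c ^ 2 / (|D 2| + 1))) := by
    intro G
    by_cases h1 : G ≠ ⊥ ∧ G ≠ ⊤
    · have : Nontrivial (Γ ⧸ G) := QuotientAddGroup.nontrivial_iff.2 h1.2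
      have h2 : Nat.card (Γ ⧸ G) < Nat.card Γ := by
        rw [AddSubgroup.card_eq_card_quotient_mul_card_addSubgroup G]
        exact lt_mul_of_one_lt_right Nat.card_pos (G.one_lt_card_iff_ne_bot.2 h1.1)
      obtain ⟨n0, h0⟩ := h (Γ ⧸ G) h2 (QuotientAddGroup.mk' G ε) _ K _ hη'
      exact ⟨n0, fun _ _ => h0⟩
    · exact ⟨0, fun h2 h3 => absurd ⟨h2, h3⟩ h1⟩
  choose n hn using hex
  obtain ⟨n0, hn0⟩ := (Set.finite_range n).bddAbove
  refine ⟨n0, fun I _ hI P hP G hb ht hco => ?_⟩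
  set π := QuotientAddGroup.mk' G with hπ0
  have hπ : Function.Surjective π := QuotientAddGroup.mk'_surjective G
  have hN := hc_DD_pos (Γ := Γ ⧸ G) (I := I)
  set S : Set (Pt (Γ ⧸ G) I) := {q | th ≤ hhM π P q} with hS
  have hs := hn G hb ht I ((hn0 ⟨_, rfl⟩).trans hI) S (by
    intro p
    rw [le_div_iff₀ (by positivity), ← av_mul_right]
    refine le_trans (av_mono fun y => ?_) (hP.cond (hhL π) (hhL_add π) (hhL_surj π hπ) p)
    rw [← abs_of_pos hth0, ← mul_pow, ← abs_mul]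
    refine pow_le_pow_left₀ (abs_nonneg _) ?_ p
    rw [abs_of_nonneg (mul_nonneg (hc_NN_nonneg _ _ _) hth0.le)]
    refine le_trans ?_ (le_abs_self _)
    rw [hh_cond_NN, NN, ← sm_mul_right]
    refine sm_mono fun q => ?_
    by_cases hq : q ∈ S
    · rw [si, ind_pos hq, one_mul, mul_comm]
      exact mul_le_mul_of_nonneg_right hq (ind_nonneg _)
    · rw [si, ind_neg hq, zero_mul, zero_mul]
      exact mul_nonneg (hhM_nonneg _ _ _) (ind_nonneg _))
  rw [abs_of_nonneg (hP.nonneg 2)] at hs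
  refine hc_drop hc0 ε P _ hP (fun p hp => hp.1) ?_ (hh_solve π hπ ε P S hs)
  rw [hh_mass]
  have h1 : (sm fun q => hhM π P q) / DD (Γ ⧸ G) I ≤ D 1 := by
    have := hh_mass π P Set.univ
    simp only [Set.mem_univ, and_true, Set.ofPred_mem_eq, ind_pos trivial, one_mul] at this
    rw [← this]; exact hc_lam_le hP
  have h2 := hco.trans (hh_coll π P G (fun g hg => (QuotientAddGroup.eq_zero_iff g).2 hg) (by
    rw [DD, DD, DD, ← mul_pow, AddSubgroup.card_eq_card_quotient_mul_card_addSubgroup G,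
      Nat.cast_mul, mul_comm]))
  have h3 := hh_cube π hπ hP
  have hD1 := hP.nonneg 1
  have hD3 := hP.nonneg 3
  rw [abs_of_nonneg hD3] at hc
  rw [abs_of_nonneg hD1] at hth
  set s := (D 3 + 1) / η1 with hs0
  have hs1 : 0 < s := by positivity
  have h4 : (sm fun q => hhM π P q ^ 2) ≤ th * (sm fun q => hhM π P q) +
      (s * (sm fun q => ind (q ∈ S) * hhM π P q) +
        1 / (4 * s) * sm fun q => hhM π P q ^ 3) := by
    rw [← sm_mul_left, ← sm_mul_left, ← sm_mul_left, ← sm_add, ← sm_add]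
    refine sm_mono fun q => ?_
    have hm := hhM_nonneg π P q
    by_cases hq : q ∈ S
    · rw [ind_pos hq]
      have : 0 ≤ hhM π P q * (hhM π P q - 2 * s) ^ 2 / (4 * s) := by positivity
      have e : hhM π P q * (hhM π P q - 2 * s) ^ 2 / (4 * s) =
          s * (1 * hhM π P q) + 1 / (4 * s) * hhM π P q ^ 3 - hhM π P q ^ 2 := by
        field_simp; ring
      have := mul_nonneg hth0.le hm
      linarith
    · rw [ind_neg hq]
      have h5 : hhM π P q ≤ th := (not_le.1 hq).le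
      have : 0 ≤ 1 / (4 * s) * hhM π P q ^ 3 := by positivity
      nlinarith
  have h5 := div_le_div_of_nonneg_right h4 hN.le
  rw [add_div, add_div, mul_div_assoc, mul_div_assoc, mul_div_assoc] at h5
  have h6 : th * D 1 ≤ η1 / 3 := by
    rw [hth, div_mul_eq_mul_div, div_le_div_iff₀ (by positivity) (by norm_num)]; nlinarith
  have h7 : 1 / (4 * s) * D 3 ≤ η1 / 4 := by
    rw [hs0, show 1 / (4 * ((D 3 + 1) / η1)) * D 3 = η1 * D 3 / (4 * (D 3 + 1)) by field_simp,
      div_le_div_iff₀ (by positivity) (by norm_num)]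
    nlinarith
  have h8 := mul_le_mul_of_nonneg_left h1 hth0.le
  have h9 := mul_le_mul_of_nonneg_left h3 (by positivity : 0 ≤ 1 / (4 * s))
  have h10 : s * (2 * c) = η1 / 3 := by rw [hs0, hc]; field_simp; ring
  refine le_of_mul_le_mul_left ?_ hs1
  linarith

end NE
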