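import Pool.Agent.Lib.MP_ecee09_co.NE.Cells

/-! Overwriting a pattern on a random extension of a coordinate cell changes little. -/

set_option linter.unusedSectionVars false

namespace NE

open SD

variable {I U U' W : Type} [Finite I] [Finite U] [Finite U'] [Finite W]

lemma kl_tile {ι : U → I} (h : Function.Injective ι) (f : Om I → ℝ) :
    (av fun A => av fun Z => f (ow A (crd ι) Z)) = av f := by
  let e : Om I × Om U → Om I × Om U := fun z => (ow z.1 (crd ι) z.2, pb ι z.1)
  have he : Function.Involutive e := fun z => by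
    simp only [e, ow_ow, ow_crd_pb h, pb_ow_crd h]
  have h1 := av_equiv he.toPerm fun z => f z.1
  rw [av_prod, av_prod] at h1
  simp only [av_const] at h1
  exact h1

lemma kl_perm (ι0 : U ↪ I) (f : (U ↪ I) → ℝ) :
    (av fun σ : Equiv.Perm I => f (ι0.trans σ.toEmbedding)) = av f := by
  have : Nonempty (U ↪ I) := ⟨ι0⟩
  have h1 : ∀ σ : Equiv.Perm I, (av fun ι : U ↪ I => f (ι.trans σ.toEmbedding)) = av f := fun σ =>
    av_equiv (Equiv.embeddingCongr (Equiv.refl U) σ) f
  have h2 : ∀ ι : U ↪ I, (av fun σ : Equiv.Perm I => f (ι.trans σ.toEmbedding)) =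
      av fun σ : Equiv.Perm I => f (ι0.trans σ.toEmbedding) := fun ι => by
    obtain ⟨ρ, hρ⟩ := Equiv.Perm.exists_extending_pair _ _ ι0.injective ι.injective
    rw [← av_equiv (Equiv.mulRight ρ) fun σ : Equiv.Perm I => f (ι0.trans σ.toEmbedding)]
    exact av_congr fun σ => congrArg f (Function.Embedding.ext fun u => by simp [hρ])
  rw [← av_const (α := Equiv.Perm I) (av f), ← av_congr h1, av_comm, av_congr h2, av_const]

/-- the restriction of a uniform embedding is uniform -/
lemma kl_restr [Nonempty (W ↪ I)] (e : U ↪ W) (f : (U ↪ I) → ℝ) :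
    (av fun κ : W ↪ I => f (e.trans κ)) = av f := by
  obtain ⟨κ0⟩ := ‹Nonempty (W ↪ I)›
  rw [← kl_perm κ0, ← kl_perm (e.trans κ0)]
  rfl

/-- agreement on all pairs that leave the range of `j` -/
def Agr (j : U → U') (P Z : Om U') : Prop := ∀ i l, i ∉ Set.range j → Z s(i, l) = P s(i, l)

lemma Agr.ow {j : U → U'} (hj : Function.Injective j) {P Z : Om U'} (h : Agr j P Z) :
    ow P (crd j) (pb j Z) = Z := by
  conv_rhs => rw [← ow_crd_pb hj Z]
  refine ow_congr_base _ _ fun c hc => ?_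
  induction c using Sym2.ind with
  | _ i l =>
    rcases (lab2_eq_none_iff _ _ _).1 hc with k | k
    · exact (h i l ((crd_eq_none hj).1 k)).symm
    · rw [Sym2.eq_swap]
      exact (h l i ((crd_eq_none hj).1 k)).symm

lemma kl_ov {j : U → U'} (hj : Function.Injective j) (P : Om U') {ι : U' → I}
    (hι : Function.Injective ι) {g : Om I → ℝ} (hg : ∀ A R, g (ow A (crd (ι ∘ j)) R) = g A) :
    (av fun A => ind (Agr j P (pb ι A)) * g A) =
      (av fun Z => ind (Agr j P Z)) * av fun A => g (ow A (crd ι) P) := by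
  rw [← kl_tile hι, av_comm, av_mul_av]
  refine av_congr fun Z => av_congr fun A => ?_
  rw [pb_ow_crd hι]
  by_cases k : Agr j P Z
  · rw [← hg (ow A (crd ι) P) (pb j Z), ← lcomp_crd hι hj, ow_lcomp, k.ow hj]
  · rw [ind_neg k, zero_mul, zero_mul]

lemma agr_ow {j : U → U'} (P : Om U') {ι : U' → I} {Ψ : Lab I W}
    (h : ∀ i, i ∉ Set.range j → Ψ (ι i) = none) (A : Om I) (R : Om W) :
    Agr j P (pb ι (ow A Ψ R)) ↔ Agr j P (pb ι A) :=
  forall_congr' fun i => forall_congr' fun l => forall_congr' fun k => by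
    rw [pb_mk, pb_mk, ow_none_left A R (h i k)]

lemma kl_orth {X : Type} [Finite X] {m : ℕ} (hm : 0 < m) (φ : Fin m → X → ℝ)
    (h1 : ∀ r x, |φ r x| ≤ 1) (h2 : ∀ r r', r ≠ r' → (av fun x => φ r x * φ r' x) = 0)
    {g : X → ℝ} (hg : ∀ x, |g x| ≤ 1) : (av fun r => av fun x => φ r x * g x) ^ 2 ≤ 1 / m := by
  have : Nonempty (Fin m) := ⟨⟨0, hm⟩⟩
  have h3 : ∀ {f : X → ℝ}, (∀ x, f x ≤ 1) → av f ≤ 1 := fun h => (av_mono h).trans av_one_le
  rw [av_comm]
  simp only [av_mul_right]
  refine (av_cs _ _).trans ((mul_le_of_le_one_right (av_nonneg fun _ => sq_nonneg _)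
    (h3 fun x => (sq_le_one_iff_abs_le_one _).2 (hg x))).trans ?_)
  simp only [sq, av_mul_av]
  rw [av_comm]
  refine av_le_const fun r => ?_
  rw [av_comm]
  refine (av_mono (g := fun r' => ind (r' = r) * 1) fun r' => ?_).trans_eq (by rw [av_ind_eq r fun _ => 1, Nat.card_fin])
  by_cases k : r' = r
  · rw [ind_pos k, mul_one, k]
    exact h3 fun x => sq (φ r x) ▸ (sq_le_one_iff_abs_le_one _).2 (h1 r x)
  · rw [ind_neg k, zero_mul, h2 r r' (Ne.symm k)]

/-- the planting estimate -/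
theorem kl_plant (j : U ↪ U') (P : Om U') {δ : ℝ} (hδ : 0 < δ) : ∃ n0 : ℕ,
    ∀ (I : Type) [Finite I], n0 ≤ Nat.card I → ∀ g : (U ↪ I) → Om I → ℝ, (∀ ι A, |g ι A| ≤ 1) →
      (∀ ι A R, g ι (ow A (crd ι) R) = g ι A) →
      |(av fun ι : U' ↪ I => av fun A => g (j.trans ι) (ow A (crd ι) P)) -
        av fun ι => av (g ι)| ≤ δ := by
  obtain ⟨p, hp⟩ : ∃ p, p = av fun Z => ind (Agr j P Z) := ⟨_, rfl⟩
  have p1 : p ≤ 1 := hp ▸ av_ind_le_one _
  have p0 : 0 < p := by
    rw [hp, av_def]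
    refine div_pos (lt_of_lt_of_le ?_ (single_le_sm (fun _ => ind_nonneg _) P)) card_pos'
    rw [ind_pos (show Agr j P P from fun _ _ _ => rfl)]
    exact one_pos
  obtain ⟨m, hm⟩ := exists_nat_gt (1 / (p * δ) ^ 2)
  have m0 : (0 : ℝ) < m := lt_trans (by positivity) hm
  have : Nonempty (Fin m) := ⟨⟨0, Nat.cast_pos.1 m0⟩⟩
  refine ⟨Nat.card (U ⊕ Fin m × U'), fun I _ hI g g1 g2 => ?_⟩
  have : Nonempty (U ⊕ Fin m × U' ↪ I) := by
    have := Fintype.ofFinite I
    have := Fintype.ofFinite (U ⊕ Fin m × U')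
    exact Function.Embedding.nonempty_of_card_le (by simpa only [Nat.card_eq_fintype_card] using hI)
  let e0 : Fin m → U' → U ⊕ Fin m × U' := fun r i => (crd j i).elim (.inr (r, i)) .inl
  have e1 : ∀ r u, e0 r (j u) = .inl u := fun r u => by simp only [e0, crd_apply j.injective]; rfl
  have e2 : ∀ r i, i ∉ Set.range j → e0 r i = .inr (r, i) := fun r i k => by
    simp only [e0, (crd_eq_none j.injective).2 k]; rfl
  have e3 : ∀ r r' i i', e0 r i = e0 r' i' → i = i' ∧ (i ∉ Set.range j → r = r') :=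
    fun r r' i i' k => by
      by_cases a : i ∈ Set.range j <;> by_cases a' : i' ∈ Set.range j
      · obtain ⟨u, rfl⟩ := a
        obtain ⟨u', rfl⟩ := a'
        rw [e1, e1, Sum.inl.injEq] at k
        exact ⟨congrArg j k, fun b => (b ⟨u, rfl⟩).elim⟩
      · obtain ⟨u, rfl⟩ := a
        rw [e1, e2 _ _ a'] at k
        cases k
      · obtain ⟨u, rfl⟩ := a'
        rw [e1, e2 _ _ a] at k
        cases k
      · rw [e2 _ _ a, e2 _ _ a', Sum.inr.injEq, Prod.mk.injEq] at k
        exact ⟨k.2, fun _ => k.1⟩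
  let e : Fin m → U' ↪ U ⊕ Fin m × U' := fun r => ⟨e0 r, fun _ _ k => (e3 r r _ _ k).1⟩
  have e4 : ∀ r, j.trans (e r) = .inl := fun r => Function.Embedding.ext (e1 r)
  rw [← av_const (α := Fin m) (av fun ι : U' ↪ I => _), ← av_congr fun r => kl_restr (e r) _,
    av_comm, ← kl_restr (W := U ⊕ Fin m × U') .inl, ← av_sub]
  refine (abs_av_le _).trans (av_le_const fun κ => ?_)
  have a1 : ∀ r (G : Om I → ℝ), (∀ A R, G (ow A (crd (j.trans ((e r).trans κ))) R) = G A) →
      (av fun A => ind (Agr j P (pb ((e r).trans κ) A)) * G A) =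
        p * av fun A => G (ow A (crd ((e r).trans κ)) P) := fun r G hG =>
    hp ▸ kl_ov j.injective P ((e r).trans κ).injective hG
  have a2 : ∀ r, (av fun A => ind (Agr j P (pb ((e r).trans κ) A))) = p := fun r => by
    simpa only [mul_one, av_const] using a1 r (fun _ => 1) fun _ _ => rfl
  have a3 := kl_orth (Nat.cast_pos.1 m0) (fun r A => ind (Agr j P (pb ((e r).trans κ) A)) - p)
    (fun r A => abs_le.2 ⟨by linarith [ind_nonneg (Agr j P (pb ((e r).trans κ) A))],
      by linarith [ind_le_one (Agr j P (pb ((e r).trans κ) A))]⟩)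
    (fun r r' k => by
      simp only [sub_mul, mul_sub, av_sub, av_mul_left, av_mul_right, a2, av_const]
      rw [a1 r _ fun A R => ind_congr (agr_ow P (fun i hi => (crd_eq_none (Function.Embedding.injective
          _)).2 fun ⟨u, hu⟩ => hi ⟨u, (e3 _ _ _ _ (κ.injective hu)).1⟩) A R),
        av_congr fun A => ind_congr (agr_ow P (fun i hi => (crd_eq_none
          (Function.Embedding.injective _)).2 fun ⟨u, hu⟩ =>
            k ((e3 _ _ _ _ (κ.injective hu).symm).2 hi).symm) A P), a2]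
      ring) (g1 (Function.Embedding.inl.trans κ))
  have a4 : ∀ r, j.trans ((e r).trans κ) = Function.Embedding.inl.trans κ := fun r => by
    rw [← Function.Embedding.trans_assoc, e4]
  simp only [sub_mul, av_sub, av_mul_left, av_const] at a3
  rw [av_congr fun r => a1 r _ fun A R => by rw [a4, g2], av_mul_left, ← mul_sub, mul_pow] at a3
  simp only [a4]
  refine abs_le_of_sq_le_sq ?_ hδ.le
  refine le_of_mul_le_mul_left (a3.trans ?_) (pow_pos p0 2)
  rw [← mul_pow, div_le_iff₀ m0, mul_comm, ← div_le_iff₀ (by positivity)]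
  exact hm.le

end NE
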