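import Pool.Agent.Lib.MP_ecee09_co.NE.Defs4

/-! Lattice data of a subgroup: the projection and the pairing. -/

namespace NE

open SD (F sm av ind cnt Tame)

/-- a projection onto a subgroup of finite index that is the identity mod `J` on a large part -/
lemma la_proj {I : Type} [Finite I] {J : ℕ} (hJ : 0 < J) (W : AddSubgroup (I → ℤ)) :
    ∃ (V : AddSubgroup (I → ℤ)) (π : (I → ℤ) →+ (I → ℤ)), W.index ≠ 0 →
      (∀ u, π u ∈ W) ∧ (∀ u, J • u ∈ V) ∧ V.index ≤ J ^ W.index ∧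
        ∀ u ∈ V, ∃ x, π u = u - J • x := by
  classical
  by_cases hW : W.index = 0
  · exact ⟨⊤, 0, fun h => (h hW).elim⟩
  have : Finite ((I → ℤ) ⧸ W) := Nat.finite_of_card_ne_zero hW
  let _ := Fintype.ofFinite ((I → ℤ) ⧸ W)
  have : NeZero J := ⟨hJ.ne'⟩
  let c : I → (I → ℤ) ⧸ W := fun i => QuotientAddGroup.mk (Pi.single i 1)
  let σ : (I → ℤ) →+ ((I → ℤ) ⧸ W → ℤ) := wlH fun i => some (c i)
  let τ : ((I → ℤ) ⧸ W → ℤ) →+ (I → ℤ) := AddMonoidHom.mk' (fun m => ∑ q, m q • q.out)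
    fun m m' => by simp only [Pi.add_apply, add_smul, Finset.sum_add_distrib]
  let μ : ((I → ℤ) ⧸ W → ℤ) →+ ((I → ℤ) ⧸ W → ZMod J) := (Int.castAddHom (ZMod J)).compLeft _
  refine ⟨(μ.comp σ).ker, AddMonoidHom.id _ - τ.comp σ, fun _ => ⟨fun u => ?_, fun u => ?_, ?_,
    fun u hu => ?_⟩⟩
  · induction u using Pi.single_induction with
    | zero => rw [map_zero]; exact W.zero_mem
    | add u u' h h' => rw [map_add]; exact W.add_mem h h'
    | single i n =>
      have e1 : σ (Pi.single i n) = Pi.single (c i) n :=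
        wl_single_some (Φ := fun i => some (c i)) (i := i) rfl n
      have e2 : τ (Pi.single (c i) n) = n • (c i).out := by
        show ∑ q, (Pi.single (c i) n : _ → ℤ) q • q.out = _
        rw [Finset.sum_eq_single (c i)]
        · rw [Pi.single_eq_same]
        · intro q _ hq; rw [Pi.single_eq_of_ne hq, zero_smul]
        · simp
      have e3 : (Pi.single i n : I → ℤ) = n • Pi.single i 1 := by
        rw [← Pi.single_smul, smul_eq_mul, mul_one]
      show Pi.single i n - τ (σ (Pi.single i n)) ∈ W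
      rw [e1, e2, e3, ← smul_sub]
      refine W.zsmul_mem ?_ n
      rw [← QuotientAddGroup.eq_iff_sub_mem, QuotientAddGroup.out_eq']
  · rw [AddMonoidHom.mem_ker, map_nsmul]
    funext q
    simp
  · rw [AddSubgroup.index_ker]
    refine (AddSubgroup.card_le_card_addGroup _).trans ?_
    rw [Nat.card_fun, Nat.card_zmod]
    rfl
  · have h : ∀ q, ∃ k : ℤ, σ u q = J * k := fun q =>
      (ZMod.intCast_zmod_eq_zero_iff_dvd _ J).1 (congrFun (AddMonoidHom.mem_ker.1 hu) q)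
    choose k hk using h
    refine ⟨τ k, ?_⟩
    have e : σ u = J • k := by funext q; rw [hk]; simp
    show u - τ (σ u) = _
    rw [e, map_nsmul]

section
variable {Γ I K : Type} [AddCommGroup Γ]

/-- the vector `u γ` -/
def lsc (u : I → ℤ) (γ : Γ) : I → Γ := fun i => u i • γ

/-- the pairing `v . u` -/
noncomputable def ldot (v : I → Γ) (u : I → ℤ) : Γ := ∑ᶠ i, u i • v i

lemma lsc_add (u u' : I → ℤ) (γ : Γ) : lsc (u + u') γ = lsc u γ + lsc u' γ := by
  funext i; simp [lsc, add_smul]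

lemma lsc_zero (γ : Γ) : lsc (0 : I → ℤ) γ = 0 := by funext i; simp [lsc]

lemma lsc_neg (u : I → ℤ) (γ : Γ) : lsc (-u) γ = -lsc u γ := by funext i; simp [lsc]

lemma lsc_card (u : I → ℤ) (γ : Γ) : lsc (Nat.card Γ • u) γ = 0 := by
  funext i
  show (Nat.card Γ • u i) • γ = 0
  rw [smul_assoc, card_nsmul_eq_zero']

lemma lsc_sub_card (u x : I → ℤ) (γ : Γ) : lsc (u - Nat.card Γ • x) γ = lsc u γ := by
  rw [sub_eq_add_neg, lsc_add, lsc_neg, lsc_card, neg_zero, add_zero]

lemma lsc_yv [DecidableEq K] (Φ : Lab I K) (a : K) (γ : Γ) :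
    lsc (yv Φ a) γ = spr (Pi.single a γ) Φ := by
  funext i
  unfold lsc yv
  cases h : Φ i with
  | none => rw [spr_of_none _ h]; simp
  | some k =>
    rw [spr_some _ h]
    by_cases e : k = a
    · subst e; simp
    · simp [e]

variable [Finite I]

lemma ldot_add_left (v v' : I → Γ) (u : I → ℤ) : ldot (v + v') u = ldot v u + ldot v' u := by
  let _ := Fintype.ofFinite I
  simp only [ldot, finsum_eq_sum_of_fintype, Pi.add_apply, smul_add, Finset.sum_add_distrib]

lemma ldot_sub_left (v v' : I → Γ) (u : I → ℤ) : ldot (v - v') u = ldot v u - ldot v' u := by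
  let _ := Fintype.ofFinite I
  simp only [ldot, finsum_eq_sum_of_fintype, Pi.sub_apply, smul_sub, Finset.sum_sub_distrib]

lemma ldot_add_right (v : I → Γ) (u u' : I → ℤ) : ldot v (u + u') = ldot v u + ldot v u' := by
  let _ := Fintype.ofFinite I
  simp only [ldot, finsum_eq_sum_of_fintype, Pi.add_apply, add_smul, Finset.sum_add_distrib]

omit [Finite I] in
lemma ldot_zero_right (v : I → Γ) : ldot v 0 = 0 := by simp [ldot]

omit [Finite I] in
lemma ldot_zero_left (u : I → ℤ) : ldot (0 : I → Γ) u = 0 := by simp [ldot]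

lemma ldot_neg_right (v : I → Γ) (u : I → ℤ) : ldot v (-u) = -ldot v u := by
  rw [eq_neg_iff_add_eq_zero, ← ldot_add_right, neg_add_cancel, ldot_zero_right]

omit [Finite I] in
lemma ldot_card (v : I → Γ) (u : I → ℤ) : ldot v (Nat.card Γ • u) = 0 := by
  have : ∀ i, (Nat.card Γ • u) i • v i = 0 := fun i => congrFun (lsc_card u (v i)) i
  simp only [ldot, this, finsum_zero]

lemma ldot_sub_card (v : I → Γ) (u x : I → ℤ) : ldot v (u - Nat.card Γ • x) = ldot v u := by
  rw [sub_eq_add_neg, ldot_add_right, ldot_neg_right, ldot_card, neg_zero, add_zero]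

omit [Finite I] in
lemma ldot_yv (v : I → Γ) (Φ : Lab I K) (a : K) : ldot v (yv Φ a) = wl v Φ a := by
  unfold ldot wl yv
  refine finsum_congr fun i => ?_
  split_ifs <;> simp

/-- `T_A` as a homomorphism -/
noncomputable def laTM (A : Om I) : Pt Γ I →+ (I → Γ) := AddMonoidHom.mk' (TM A) fun h h' => by
  simp only [TM, Prod.fst_add, Prod.snd_add, adj_add]; abel

lemma tm_add (A : Om I) (h h' : Pt Γ I) : TM A (h + h') = TM A h + TM A h' := map_add (laTM A) h h'

lemma tm_sub (A : Om I) (h h' : Pt Γ I) : TM A (h - h') = TM A h - TM A h' := map_sub (laTM A) h h'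

lemma tm_zero (A : Om I) : TM A (0 : Pt Γ I) = 0 := map_zero (laTM A)

lemma tm_ow [Finite K] (A : Om I) (Φ : Lab I K) (P P' : Om K) (h : Pt Γ I) :
    TM (ow A Φ P') h =
      TM (ow A Φ P) h + spr (adj P' (wl h.1 Φ) - adj P (wl h.1 Φ)) Φ := by
  unfold TM
  rw [adj_ow A Φ P, adj_ow A Φ P', spr_sub]
  abel

variable (H : AddSubgroup (Pt Γ I)) (A : Om I)

/-- the lattice `V0` -/
def lV : AddSubgroup (I → ℤ) where
  carrier := {u | (∀ γ : Γ, lsc u γ ∈ H.map (laTM A)) ∧ ∀ h ∈ H, TM A h = 0 → ldot h.1 u = 0}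
  zero_mem' := ⟨fun γ => by rw [lsc_zero]; exact zero_mem _, fun h _ _ => ldot_zero_right _⟩
  add_mem' := fun ha hb => ⟨fun γ => by rw [lsc_add]; exact add_mem (ha.1 γ) (hb.1 γ),
    fun h hh h0 => by rw [ldot_add_right, ha.2 h hh h0, hb.2 h hh h0, add_zero]⟩
  neg_mem' := fun ha => ⟨fun γ => by rw [lsc_neg]; exact neg_mem (ha.1 γ),
    fun h hh h0 => by rw [ldot_neg_right, ha.2 h hh h0, neg_zero]⟩

lemma lV_card (u : I → ℤ) : Nat.card Γ • u ∈ lV H A :=
  ⟨fun γ => by rw [lsc_card]; exact zero_mem _, fun _ _ _ => ldot_card _ _⟩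

/-- the pairing `a (u, w)` -/
noncomputable def lA (u w : I → ℤ) : Γ → Γ := fun γ =>
  ldot (Classical.epsilon fun h : Pt Γ I => h ∈ H ∧ TM A h = lsc u γ).1 w

variable {H A}

lemma lV_ex {u : I → ℤ} (hu : u ∈ lV H A) (γ : Γ) : ∃ h ∈ H, TM A h = lsc u γ := hu.1 γ

lemma lA_eq {u w : I → ℤ} {γ : Γ} {h : Pt Γ I} (hh : h ∈ H) (e : TM A h = lsc u γ)
    (hw : w ∈ lV H A) : lA H A u w γ = ldot h.1 w := by
  obtain ⟨h1, h2⟩ := Classical.epsilon_spec (p := fun h : Pt Γ I => h ∈ H ∧ TM A h = lsc u γ)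
    ⟨h, hh, e⟩
  have := hw.2 _ (H.sub_mem h1 hh) (by rw [tm_sub, h2, e, sub_self])
  rw [Prod.fst_sub, ldot_sub_left, sub_eq_zero] at this
  exact this

lemma lA_add_left {u u' w : I → ℤ} (hu : u ∈ lV H A) (hu' : u' ∈ lV H A) (hw : w ∈ lV H A) :
    lA H A (u + u') w = lA H A u w + lA H A u' w := by
  funext γ
  obtain ⟨h, hh, e⟩ := lV_ex hu γ
  obtain ⟨h', hh', e'⟩ := lV_ex hu' γ
  rw [Pi.add_apply, lA_eq hh e hw, lA_eq hh' e' hw,
    lA_eq (H.add_mem hh hh') (by rw [tm_add, e, e', lsc_add]) hw, Prod.fst_add, ldot_add_left]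

lemma lA_add_right (u w w' : I → ℤ) : lA H A u (w + w') = lA H A u w + lA H A u w' :=
  funext fun _ => ldot_add_right _ _ _

lemma lA_sub_card (u w x x' : I → ℤ) :
    lA H A (u - Nat.card Γ • x) (w - Nat.card Γ • x') = lA H A u w := by
  funext γ
  simp only [lA, lsc_sub_card, ldot_sub_card]

/-- block vectors have preimages, and these are orthogonal to what the blocks are orthogonal to -/
lemma lA_blk [Finite K] {Φ : Lab I K} (hy : ∀ a, yv Φ a ∈ lV H A) (t : K → Γ) :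
    ∃ h ∈ H, TM A h = spr t Φ ∧
      ∀ u ∈ lV H A, (∀ a, lA H A (yv Φ a) u = 0) → ldot h.1 u = 0 := by
  classical
  induction t using Pi.single_induction with
  | zero => exact ⟨0, H.zero_mem, by rw [tm_zero, spr_zero], fun u _ _ => ldot_zero_left u⟩
  | add t t' k k' =>
    obtain ⟨h, hh, e, f⟩ := k
    obtain ⟨h', hh', e', f'⟩ := k'
    exact ⟨h + h', H.add_mem hh hh', by rw [tm_add, e, e', spr_add], fun u hu h0 => by
      rw [Prod.fst_add, ldot_add_left, f u hu h0, f' u hu h0, add_zero]⟩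
  | single a γ =>
    obtain ⟨h, hh, e⟩ := lV_ex (hy a) γ
    exact ⟨h, hh, e.trans (lsc_yv Φ a γ), fun u hu h0 => by rw [← lA_eq hh e hu, h0]; rfl⟩

lemma lA_orth [Finite K] {Φ : Lab I K} (hy : ∀ a, yv Φ a ∈ lV H A) {u : I → ℤ} (hu : u ∈ lV H A)
    (h0 : ∀ a, lA H A (yv Φ a) u = 0) {h : Pt Γ I} (hh : h ∈ H) {t : K → Γ}
    (e : TM A h = spr t Φ) : ldot h.1 u = 0 := by
  obtain ⟨h', hh', e', f⟩ := lA_blk hy t
  have := hu.2 _ (H.sub_mem hh hh') (by rw [tm_sub, e, e', sub_self])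
  rwa [Prod.fst_sub, ldot_sub_left, f u hu h0, sub_zero] at this

end

end NE
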