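import Pool.Agent.Lib.MP_ecee09_co.NE.LSc
import Pool.Agent.Lib.MP_ecee09_co.NE.Dual

/-! Extras for the scales of the lattice freeze: a general subgroup, mixtures, lower bounds. -/

namespace NE

open SD
open ComplexConjugate

variable {I K EE : Type} [AddCommGroup EE]

theorem yv_eq_smp [Finite I] (Φ : Lab I K) (a : K) :
    yv Φ a = smp fun i : {i // Φ i = some a} => (i : I) := by
  classical
  funext j
  by_cases h : Φ j = some a
  · simp only [yv, smp, h, if_true]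
    rw [finsum_eq_single _ (⟨j, h⟩ : {i // Φ i = some a})]
    · simp
    · intro x hx; exact if_neg fun e => hx (Subtype.ext e)
  · simp only [yv, smp, h, if_false]
    rw [finsum_eq_zero_of_forall_eq_zero]
    intro x; exact if_neg fun (e : (x : I) = j) => h (e ▸ x.2)

theorem atom_eq {r J t : ℕ} (ι : K × Fin r × Fin J × Fin t → I) (z : K × Fin r) :
    atom ι z = ∑ x : Fin J, smp fun y : Fin t => ι (z.1, z.2, x, y) := smp_prod _

section dch
variable [Finite I] {A : Om I} {e : F}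

theorem av_df (t : ℕ) (χ : (I → ℤ) →+ TT) :
    av (fun κ : (Fin t → Lp A e) × (Fin t → Lp A e) => (ee (χ (df κ))).re) =
      (1 - dch A e χ) ^ t := by rw [← cav_re, cav_df, Complex.ofReal_re]

theorem dch_eq_re [Nonempty (Lp A e)] (χ : (I → ℤ) →+ TT) : dch A e χ =
    av fun z : Lp A e × Lp A e => 1 - (ee (χ (ei (z.1 : I)) - χ (ei (z.2 : I)))).re := by
  rw [av_sub, av_const, ← cav_re, dch_eq]
  simp only [ee_sub]
  rw [cav_prod, ← cav_mul_cav (fun i : Lp A e => ee (χ (ei (i : I))))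
    (fun i : Lp A e => conj (ee (χ (ei (i : I))))), ← conj_cav, mul_conj'', Complex.ofReal_re]
  rfl

theorem dch_sum_le' [Nonempty (Lp A e)] {ι : Type} (s : Finset ι) (χ : ι → (I → ℤ) →+ TT) {θ : ℝ}
    (h : ∀ i ∈ s, dch A e (χ i) ≤ θ) : dch A e (∑ i ∈ s, χ i) ≤ (s.card : ℝ) ^ 2 * θ := by
  refine (dch_sum_le A e s χ).trans ?_
  rw [sq, mul_assoc]
  refine mul_le_mul_of_nonneg_left ?_ (Nat.cast_nonneg _)
  simpa using Finset.sum_le_card_nsmul s _ θ h

/-- a character with small `dch` is close to its value at one index -/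
theorem exists_dch [Nonempty (Lp A e)] (χ : (I → ℤ) →+ TT) : ∃ j : Lp A e,
    (av fun i : Lp A e => 1 - (ee (χ (ei (i : I)) - χ (ei (j : I)))).re) ≤ dch A e χ := by
  rw [dch_eq_re, av_prod, av_comm]
  exact exists_le_av fun j : Lp A e =>
    av fun i : Lp A e => 1 - (ee (χ (ei (i : I)) - χ (ei (j : I)))).re

end dch

/-! ## `gbt`: the general form of `bet` -/

section gbt
variable [Finite I] {A : Om I} {e : F} {V V' : AddSubgroup (I → ℤ)}

/-- pairs of samples -/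
abbrev Sp (A : Om I) (e : F) (t : ℕ) : Type := (Fin t → Lp A e) × (Fin t → Lp A e)

noncomputable def gbt (V : AddSubgroup (I → ℤ)) (A : Om I) (e : F) (t : ℕ)
    (φ : (I → ℤ) →+ TT) : ℝ :=
  av fun κ : Sp A e t => ind (df κ ∈ V) * (ee (φ (df κ))).re

instance finAnn (V : AddSubgroup (I → ℤ)) [Finite ((I → ℤ) ⧸ V)] : Finite (chAnn V) :=
  Finite.of_equiv _ (chAnnEquiv V)

omit [Finite I] in
theorem gbt_congr {φ φ' : (I → ℤ) →+ TT} (t : ℕ) (h : ∀ u ∈ V, φ u = φ' u) :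
    gbt V A e t φ = gbt V A e t φ' := by
  refine av_congr fun κ => ?_
  by_cases hk : df κ ∈ V
  · rw [h _ hk]
  · simp [ind_neg hk]

theorem gbt_le_zero (t : ℕ) (φ : (I → ℤ) →+ TT) : gbt V A e t φ ≤ gbt V A e t 0 :=
  av_mono fun _ => mul_le_mul_of_nonneg_left (by simpa using re_ee_le _) (ind_nonneg _)

omit [Finite I] in
theorem gbt_zero (t : ℕ) : gbt V A e t 0 = av fun κ : Sp A e t => ind (df κ ∈ V) := by
  simp [gbt]

theorem gbt_le_one (t : ℕ) (φ : (I → ℤ) →+ TT) : gbt V A e t φ ≤ 1 :=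
  (gbt_le_zero t φ).trans ((gbt_zero t).le.trans (av_ind_le_one _))

variable [Finite ((I → ℤ) ⧸ V)]

omit [Finite I] in
/-- membership times a phase is a mean of characters -/
theorem ind_mul_ee (φ : (I → ℤ) →+ TT) (u : I → ℤ) :
    ((ind (u ∈ V) : ℝ) : ℂ) * ee (φ u) = cav fun χ : chAnn V => ee ((φ + χ.1) u) := by
  simp only [AddMonoidHom.add_apply, ee_add, cav_mul_left, cav_chAnn, mul_comm]

theorem cav_gbt (t : ℕ) (φ : (I → ℤ) →+ TT) :
    cav (fun κ : Sp A e t => ((ind (df κ ∈ V) : ℝ) : ℂ) * ee (φ (df κ))) =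
      ((av fun χ : chAnn V => (1 - dch A e (φ + χ.1)) ^ t : ℝ) : ℂ) := by
  simp only [ind_mul_ee]
  rw [cav_comm, ← cav_ofReal]
  exact cav_congr fun χ => cav_df A e t _

theorem gbt_eq (t : ℕ) (φ : (I → ℤ) →+ TT) :
    gbt V A e t φ = av fun χ : chAnn V => (1 - dch A e (φ + χ.1)) ^ t := by
  have h := congrArg Complex.re (cav_gbt (V := V) (A := A) (e := e) t φ)
  rw [cav_re, Complex.ofReal_re] at h
  simpa only [Complex.re_ofReal_mul, gbt] using h

/-- the complex mean is real -/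
theorem gbt_cav (t : ℕ) (φ : (I → ℤ) →+ TT) : ((gbt V A e t φ : ℝ) : ℂ) =
    cav fun κ : Sp A e t => ((ind (df κ ∈ V) : ℝ) : ℂ) * ee (φ (df κ)) := by
  rw [cav_gbt, gbt_eq]

theorem gbt_nonneg (t : ℕ) (φ : (I → ℤ) →+ TT) : 0 ≤ gbt V A e t φ := by
  rw [gbt_eq]; exact av_nonneg fun _ => pow_nonneg (sub_nonneg.2 (dch_le_one A e _)) _

theorem gbt_anti {t t' : ℕ} (h : t ≤ t') (φ : (I → ℤ) →+ TT) : gbt V A e t' φ ≤ gbt V A e t φ := by
  rw [gbt_eq, gbt_eq]
  exact av_mono fun _ => pow_le_pow_of_le_one (sub_nonneg.2 (dch_le_one A e _))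
    (sub_le_self _ (dch_nonneg A e _)) h

theorem index_mul_gbt (t : ℕ) (φ : (I → ℤ) →+ TT) :
    V.index * gbt V A e t φ = sm fun χ : chAnn V => (1 - dch A e (φ + χ.1)) ^ t := by
  rw [gbt_eq, sm_eq_card_mul_av, card_chAnn]

/-- a smaller group has more extensions -/
theorem gbt_sub [Finite ((I → ℤ) ⧸ V')] (h : V' ≤ V) (t : ℕ) (φ : (I → ℤ) →+ TT) :
    V.index * gbt V A e t φ ≤ V'.index * gbt V' A e t φ := by
  let _ := Fintype.ofFinite (chAnn V); let _ := Fintype.ofFinite (chAnn V')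
  classical
  rw [index_mul_gbt, index_mul_gbt, sm_eq, sm_eq]
  let j : chAnn V ↪ chAnn V' := ⟨fun χ => ⟨χ.1, fun s hs => χ.2 s (h hs)⟩, fun _ _ h =>
    Subtype.ext (congrArg (fun z : chAnn V' => z.1) h)⟩
  have := Finset.sum_map Finset.univ j fun χ : chAnn V' => (1 - dch A e (φ + χ.1)) ^ t
  refine le_trans (le_of_eq this.symm) (Finset.sum_le_sum_of_subset_of_nonneg
    (Finset.subset_univ _) fun _ _ _ => pow_nonneg (sub_nonneg.2 (dch_le_one A e _)) _)

omit [Finite I] in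
theorem lsc_index_pos : (0 : ℝ) < V.index := by
  exact_mod_cast Nat.pos_of_ne_zero AddSubgroup.index_ne_zero_of_finite

theorem gbt_sub' [Finite ((I → ℤ) ⧸ V')] (h : V' ≤ V) (t : ℕ) (φ : (I → ℤ) →+ TT) :
    gbt V A e t φ ≤ V'.relIndex V * gbt V' A e t φ := by
  refine le_of_mul_le_mul_left ((gbt_sub h t φ).trans (le_of_eq ?_)) (lsc_index_pos (V := V))
  rw [← AddSubgroup.relIndex_mul_index h]; push_cast; ring

theorem gbt_ge (t : ℕ) {φ χ : (I → ℤ) →+ TT} (h : ∀ u ∈ V, χ u = φ u) :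
    (1 - dch A e χ) ^ t ≤ V.index * gbt V A e t φ := by
  rw [← gbt_congr t h, index_mul_gbt]
  simpa using single_le_sm (f := fun ψ : chAnn V => (1 - dch A e (χ + ψ.1)) ^ t)
    (fun _ => pow_nonneg (sub_nonneg.2 (dch_le_one A e _)) _) 0

theorem exists_of_gbt (t : ℕ) (φ : (I → ℤ) →+ TT) :
    ∃ χ : (I → ℤ) →+ TT, (∀ u ∈ V, χ u = φ u) ∧ gbt V A e t φ ≤ (1 - dch A e χ) ^ t := by
  obtain ⟨χ, h⟩ := exists_av_le fun χ : chAnn V => (1 - dch A e (φ + χ.1)) ^ t
  exact ⟨φ + χ.1, fun u hu => by rw [AddMonoidHom.add_apply, χ.2 u hu, add_zero],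
    (gbt_eq t φ).le.trans h⟩

omit [Finite I] in
theorem lsc_log {x d : ℝ} {t : ℕ} (ht : 1 ≤ t) (hd : 0 < d) (hx : x ≤ 1) (h : d ≤ (1 - x) ^ t) :
    x ≤ Real.log (1 / d) / t := by
  have h1 : (1 - x) ^ t ≤ Real.exp (-x) ^ t :=
    pow_le_pow_left₀ (sub_nonneg.2 hx) (by linarith [Real.add_one_le_exp (-x)]) t
  rw [← Real.exp_nat_mul] at h1
  have h2 := (Real.log_le_iff_le_exp hd).2 (h.trans h1)
  rw [le_div_iff₀ (by exact_mod_cast ht), one_div, Real.log_inv]; linarith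

end gbt

section ld
variable [Finite I] {L : LD I EE} {A : Om I} {J : ℕ}

theorem lsc_fin {V : AddSubgroup (I → ℤ)} (hJ : 0 < J) (h : ∀ u, J • u ∈ V) :
    Finite ((I → ℤ) ⧸ V) := by
  have : NeZero J := ⟨hJ.ne'⟩
  refine Finite.of_surjective (fun x : I → Fin J => (QuotientAddGroup.mk fun i => ((x i : ℕ) : ℤ)))
    fun q => ?_
  obtain ⟨u, rfl⟩ := QuotientAddGroup.mk_surjective q
  have hJ' : (0 : ℤ) < J := by exact_mod_cast hJ
  refine ⟨fun i => ⟨(u i % J).toNat, ?_⟩, ?_⟩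
  · have := Int.emod_lt_of_pos (u i) hJ'; have := Int.emod_nonneg (u i) hJ'.ne'; omega
  · rw [QuotientAddGroup.eq]
    convert h fun i => u i / J using 1
    funext i
    have h1 := Int.emod_nonneg (u i) hJ'.ne'
    have h2 := Int.emod_add_mul_ediv (u i) J
    simp only [Pi.add_apply, Pi.neg_apply, Pi.smul_apply, nsmul_eq_mul, Int.toNat_of_nonneg h1]
    linarith

/-- the form with a fixed first vector, as a character -/
def LD.fl (L : LD I EE) (A : Om I) (l : Ch EE) (y : I → ℤ) : (I → ℤ) →+ TT := l.comp (L.B A y)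

/-- the form with a fixed second vector, as a character -/
def LD.fr (L : LD I EE) (A : Om I) (l : Ch EE) (w : I → ℤ) : (I → ℤ) →+ TT :=
  l.comp ((L.B A).flip w)

omit [Finite I] in
@[simp] theorem LD.fl_apply (l : Ch EE) (y u : I → ℤ) : L.fl A l y u = l (L.B A y u) := rfl

omit [Finite I] in
@[simp] theorem LD.fr_apply (l : Ch EE) (w u : I → ℤ) : L.fr A l w u = l (L.B A u w) := rfl

omit [Finite I] in
theorem LD.fl_add (l : Ch EE) (y y' : I → ℤ) : L.fl A l (y + y') = L.fl A l y + L.fl A l y' := by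
  ext1 u; simp

omit [Finite I] in
theorem LD.fl_neg (l : Ch EE) (y : I → ℤ) : L.fl A l (-y) = -L.fl A l y := by ext1 u; simp

omit [Finite I] in
theorem LD.fl_sub (l : Ch EE) (y y' : I → ℤ) : L.fl A l (y - y') = L.fl A l y - L.fl A l y' := by
  ext1 u; simp

omit [Finite I] in
theorem LD.fl_zero (l : Ch EE) : L.fl A l 0 = 0 := by ext1 u; simp

omit [Finite I] in
theorem LD.fl_sum {ι : Type} (s : Finset ι) (l : Ch EE) (y : ι → I → ℤ) :
    L.fl A l (∑ i ∈ s, y i) = ∑ i ∈ s, L.fl A l (y i) := by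
  ext1 u; simp [map_sum]

omit [Finite I] in
theorem LD.bet_def (l : Ch EE) (e : F) (t : ℕ) (y : I → ℤ) :
    L.bet A l e t y = gbt (L.V A) A e t (L.fl A l y) := rfl

omit [Finite I] in
theorem LD.gbet_def (e : F) (t : ℕ) (φ : (I → ℤ) →+ TT) :
    L.gbet A e t φ = gbt (L.V A) A e t φ := rfl

theorem LD.bb_swap (l : Ch EE) (e e' : F) (t t' : ℕ) : L.bb A l e e' t t' =
    av fun κ : Sp A e' t' => ind (df κ ∈ L.V A) * gbt (L.V A) A e t (L.fr A l (df κ)) :=
  LD.bb_flip A l e e' t t'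

variable [Finite ((I → ℤ) ⧸ L.V A)]

theorem LD.bet_cav (l : Ch EE) (e : F) (t : ℕ) (y : I → ℤ) : ((L.bet A l e t y : ℝ) : ℂ) =
    cav fun κ : Sp A e t => ((ind (df κ ∈ L.V A) : ℝ) : ℂ) * ee (l (L.B A y (df κ))) :=
  gbt_cav t (L.fl A l y)

/-- `ind * bet` is a mixture of characters of `y` -/
theorem LD.bet_mix (l : Ch EE) (e : F) (t : ℕ) (y : I → ℤ) :
    ((ind (y ∈ L.V A) * L.bet A l e t y : ℝ) : ℂ) = cav fun κ : Sp A e t =>
      ((ind (df κ ∈ L.V A) : ℝ) : ℂ) *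
        cav fun χ : chAnn (L.V A) => ee ((L.fr A l (df κ) + χ.1) y) := by
  rw [Complex.ofReal_mul, LD.bet_cav, ← cav_mul_left]
  refine cav_congr fun κ => ?_
  rw [← ind_mul_ee, LD.fr_apply, mul_left_comm]

/-- `bb` as a mixture over the second sample and the annihilator -/
theorem LD.bb_mix (l : Ch EE) (e e' : F) (t t' : ℕ) : L.bb A l e e' t t' =
    av fun κ : Sp A e' t' => ind (df κ ∈ L.V A) *
      av fun χ : chAnn (L.V A) => (1 - dch A e (L.fr A l (df κ) + χ.1)) ^ t := by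
  simp only [LD.bb_swap, gbt_eq]

theorem LD.bb_cav (l : Ch EE) (e e' : F) (t t' : ℕ) : ((L.bb A l e e' t t' : ℝ) : ℂ) =
    cav fun κ : Sp A e t => cav fun κ' : Sp A e' t' => ((ind (df κ ∈ L.V A) : ℝ) : ℂ) *
      (((ind (df κ' ∈ L.V A) : ℝ) : ℂ) * ee (l (L.B A (df κ) (df κ')))) := by
  simp only [cav_mul_left, ← LD.bet_cav, LD.bb, ← cav_ofReal, Complex.ofReal_mul]

theorem LD.Nul.gbt {e : F} {φ : (I → ℤ) →+ TT} {θ : ℝ} (h : L.Nul A e φ θ) (hθ : θ ≤ 1) (t : ℕ) :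
    (1 - θ) ^ t ≤ (L.V A).index * gbt (L.V A) A e t φ := by
  obtain ⟨χ, h1, h2⟩ := h
  exact (pow_le_pow_left₀ (sub_nonneg.2 hθ) (by linarith) t).trans (gbt_ge t h1)

/-- lower bound for the trivial phase -/
theorem LD.gbt_zero_ge (e : F) [Nonempty (Lp A e)] (t : ℕ) :
    1 / ((L.V A).index : ℝ) ≤ av fun κ : Sp A e t => ind (df κ ∈ L.V A) := by
  have h := (LD.nul_zero (L := L) (A := A) (e := e)).gbt zero_le_one t
  rw [gbt_zero] at h
  rw [div_le_iff₀ lsc_index_pos, mul_comm]; simpa using h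

theorem LD.bb_zero_ge (e e' : F) [Nonempty (Lp A e)] [Nonempty (Lp A e')] (t t' : ℕ) :
    1 / ((L.V A).index : ℝ) ^ 2 ≤ L.bb A 0 e e' t t' := by
  have h : L.bb A 0 e e' t t' = (av fun κ : Sp A e t => ind (df κ ∈ L.V A)) *
      av fun κ : Sp A e' t' => ind (df κ ∈ L.V A) := by
    simp [LD.bb, LD.bet, av_mul_right]
  rw [h, ← one_div_pow, sq]
  exact mul_le_mul (LD.gbt_zero_ge e t) (LD.gbt_zero_ge e' t') (by positivity) (av_ind_nonneg _)

end ld

end NE
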