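import Pool.Agent.Lib.MP_ecee09_co.SD.Stmts
import Pool.Agent.Lib.MP_ecee09_co.NE.Defs3
import Pool.Agent.Lib.MP_ecee09_co.NE.FldR
import Pool.Agent.Lib.MP_ecee09_co.NE.FamC
import Pool.Agent.Lib.MP_ecee09_co.NE.Cells

/-! `RSTEP` implies `FULL`. -/

namespace NE

open SD (F sm av ind cnt Tame av_nonneg av_mono av_add av_const av_mul_left)

variable {E : Type} [AddCommGroup E] [Finite E] {τ : QT E}

section
variable {I K K' : Type} [Finite I] [Finite K] [Finite K']

omit [Finite E] [Finite I] [Finite K] in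
theorem loop_mono {h : OmE E I → ℂ} {η η' b b' : ℝ} (H : Drop τ h K η b) (h1 : η ≤ η')
    (h2 : b ≤ b') : Drop τ h K η' b' := by
  obtain ⟨A, a1, a2⟩ := H
  exact ⟨A, a1.trans h1, a2.trans h2⟩

theorem loop_triv (hτ : τ.ND) (c : (I → E) → ℂ) (hk : Nat.card K ≤ Nat.card I) :
    Drop τ (fld τ c) K 0 (En τ (fld τ c)) := by
  obtain ⟨A, hA⟩ := Fam.gcrd' (E := E) hk
  exact ⟨A, hA.le, En_fld_anti hτ A c⟩

theorem loop_comp (Θ : ℝ → ℝ) {c : (I → E) → ℂ} {η η' b α β γ : ℝ} (hα : 0 ≤ α)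
    (H : Drop τ (fld τ c) K' η' b)
    (H' : ∀ d : (K' → E) → ℂ, Drop τ (fld τ d) K η
      (α * En τ (fld τ d) + β * av (fun y => Θ ‖fld τ d y‖) + γ)) :
    Drop τ (fld τ c) K (η' + η) (α * b + β * av (fun x => Θ ‖fld τ c x‖) + γ) := by
  obtain ⟨A, a1, a2⟩ := H
  choose S s1 s2 using fun (x : OmE E I) (Φ : Lab I K') => H' (rc τ c x Φ)
  simp only [← res_fld] at s2
  obtain ⟨A', e, j⟩ := Fam.gcomp A S
  refine ⟨A', j.trans (add_le_add a1 (Fam.le_const A s1)), ?_⟩
  rw [e]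
  simp only [res_lcomp]
  refine (Fam.mono A s2).trans ?_
  rw [A.add, A.add, A.smul, A.smul, Fam.const]
  have : (A.E fun x Φ => av fun y => Θ ‖res (fld τ c) x Φ y‖) = av fun x => Θ ‖fld τ c x‖ :=
    A.marg fun x => Θ ‖fld τ c x‖
  rw [this]
  gcongr

theorem loop_En_le (hτ : τ.ND) (u : OmE E I → ℂ) : En τ u ≤ av fun x => ‖u x‖ ^ 2 :=
  (En_le_fen τ u).trans (fen_le_n2 hτ u)

end

/-- every field on a large index set has a family with the given bound -/
def LoopOK (Θ : ℝ → ℝ) (τ : QT E) (K : Type) (η α β γ : ℝ) : Prop :=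
  ∃ n0 : ℕ, ∀ (I : Type) [Finite I], n0 ≤ Nat.card I → ∀ c : (I → E) → ℂ,
    Drop τ (fld τ c) K η (α * En τ (fld τ c) + β * av (fun x => Θ ‖fld τ c x‖) + γ)

theorem loop_contr (hτ : τ.ND) (hR : RSTEP τ) (Θ : ℝ → ℝ) (h0 : ∀ t, 0 ≤ Θ t)
    (hC : ∀ p : ℕ, ∃ C : ℝ, 0 ≤ C ∧ ∀ t, |t| ^ p ≤ C * Θ t) (a m : ℝ) (ha : 0 < a) (hm : 0 < m) :
    ∃ b : ℝ, 0 < b ∧ b ≤ 1 / 2 ∧ ∀ (K : Type) [Finite K] (η : ℝ), 0 < η →
      LoopOK Θ τ K η (1 - b) (b * a) (b * m) := by
  choose C hC0 hC using hC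
  set lam : ℝ := 2 * (C 4 + 1) / a with hlam
  have hC4 := hC0 4
  have hlam0 : 0 < lam := by positivity
  set L : ℝ := 2 * lam / a with hL
  have hL0 : 0 < L := by positivity
  obtain ⟨cG, hcG, hR⟩ := hR (fun p => C p * L) m hm
  have hP : 0 < C 2 * L + 1 := by have := hC0 2; positivity
  refine ⟨min (1 / 2) (cG / (C 2 * L + 1)), lt_min (by norm_num) (by positivity), min_le_left _ _,
    fun K _ η hη => ?_⟩
  have b0 : 0 < min (1 / 2) (cG / (C 2 * L + 1)) := lt_min (by norm_num) (by positivity)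
  have b1 : min (1 / 2) (cG / (C 2 * L + 1)) ≤ 1 / 2 := min_le_left _ _
  have b2 : min (1 / 2) (cG / (C 2 * L + 1)) * (C 2 * L + 1) ≤ cG :=
    (le_div_iff₀ hP).1 (min_le_right _ _)
  generalize min (1 / 2) (cG / (C 2 * L + 1)) = b at b0 b1 b2 ⊢
  obtain ⟨cS, hcS, hR⟩ := hR K (η / 2) (by positivity)
  obtain ⟨T, hT⟩ := exists_nat_ge (2 * cG / cS)
  set η' : ℝ := η / 2 / (T + 1) with hη'
  have hη'0 : 0 < η' := by positivity
  -- the three easy cases
  have easy : ∀ (I : Type) [Finite I] (h : OmE E I → ℂ),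
      En τ h ≤ a * av (fun x => Θ ‖h x‖) + m ∨
      (CT (fun p => C p * L) h ∧ m ≤ En τ h ∧ b * En τ h ≤ cG) := by
    intro I _ h
    have hs0 : 0 ≤ av fun x => Θ ‖h x‖ := av_nonneg fun M => h0 _
    by_cases h1 : L ≤ av fun x => Θ ‖h x‖
    · left
      have e1 : En τ h ≤ av fun M => lam + C 4 / lam * Θ ‖h M‖ := by
        refine (loop_En_le hτ h).trans (av_mono fun M => ?_)
        have e2 := hC 4 ‖h M‖
        have e3 : |‖h M‖| ^ 4 = (‖h M‖ ^ 2) ^ 2 := by rw [abs_norm]; ring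
        rw [e3] at e2
        rw [div_mul_eq_mul_div, ← sub_le_iff_le_add', le_div_iff₀ hlam0]
        nlinarith [sq_nonneg (‖h M‖ ^ 2 - lam), sq_nonneg ‖h M‖]
      rw [av_add, av_const, av_mul_left] at e1
      have e4 : lam = a / 2 * L := by rw [hL]; field_simp
      have e5 : C 4 / lam ≤ a / 2 := by
        rw [div_le_iff₀ hlam0, hlam]
        have : a / 2 * (2 * (C 4 + 1) / a) = C 4 + 1 := by field_simp
        linarith
      have e6 := mul_le_mul_of_nonneg_right e5 hs0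
      have e7 := mul_le_mul_of_nonneg_left h1 (show 0 ≤ a / 2 by positivity)
      linarith
    · by_cases h2 : m ≤ En τ h
      · right
        have ht : CT (fun p => C p * L) h := fun p => by
          refine (av_mono fun M => hC p ‖h M‖).trans ?_
          rw [av_mul_left]
          exact mul_le_mul_of_nonneg_left (not_le.1 h1).le (hC0 p)
        refine ⟨ht, h2, le_trans (mul_le_mul_of_nonneg_left ?_ b0.le) b2⟩
        have := (loop_En_le hτ h).trans (Tame.sq ht)
        linarith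
      · left
        have := mul_nonneg ha.le hs0
        linarith [not_le.1 h2]
  have claim : ∀ t : ℕ, LoopOK Θ τ K (η / 2 + t * η') (1 - b) (b * a)
      (b * m + max 0 (cG - t * (cS / 2))) := by
    intro t
    induction t with
    | zero =>
      refine ⟨Nat.card K, fun I _ hI c => loop_mono (loop_triv hτ c hI) (by positivity) ?_⟩
      have hs0 : 0 ≤ a * av fun x => Θ ‖fld τ c x‖ := mul_nonneg ha.le (av_nonneg fun M => h0 _)
      have m1 := le_max_left 0 (cG - (0 : ℕ) * (cS / 2))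
      have m2 := le_max_right 0 (cG - (0 : ℕ) * (cS / 2))
      rcases easy I (fld τ c) with e | ⟨-, -, e⟩
      · nlinarith [mul_le_mul_of_nonneg_left e b0.le]
      · have := mul_nonneg b0.le hs0
        have := mul_nonneg b0.le hm.le
        simp only [Nat.cast_zero, zero_mul, sub_zero] at m2 ⊢
        nlinarith
    | succ t ih =>
      obtain ⟨n, ih⟩ := ih
      obtain ⟨n', hR⟩ := hR (Fin n) η' hη'0
      refine ⟨max (Nat.card K) n', fun I _ hI c => ?_⟩
      have hs0 : 0 ≤ a * av fun x => Θ ‖fld τ c x‖ := mul_nonneg ha.le (av_nonneg fun M => h0 _)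
      have m1 := le_max_left 0 (cG - (t + 1 : ℕ) * (cS / 2))
      have m2 := le_max_right 0 (cG - (t + 1 : ℕ) * (cS / 2))
      have p1 := mul_nonneg b0.le hs0
      have p2 := mul_nonneg b0.le hm.le
      rcases easy I (fld τ c) with e | ⟨e1, e2, e3⟩
      · refine loop_mono (loop_triv hτ c ((le_max_left _ _).trans hI)) (by positivity) ?_
        nlinarith [mul_le_mul_of_nonneg_left e b0.le]
      · rcases hR I ((le_max_right _ _).trans hI) c e1 e2 with d | d
        · refine loop_mono d (le_add_of_nonneg_right (by positivity)) ?_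
          nlinarith
        · refine loop_mono (loop_comp Θ (by linarith) d
            (ih (Fin n) (by simp))) (by push_cast; linarith) ?_
          have m3 : max 0 (cG - t * (cS / 2)) ≤ max 0 (cG - (t + 1 : ℕ) * (cS / 2)) + cS / 2 := by
            refine max_le (by linarith) ?_
            push_cast at m2 ⊢
            linarith
          nlinarith
  obtain ⟨n, hn⟩ := claim T
  refine ⟨n, fun I _ hI c => loop_mono (hn I hI c) ?_ ?_⟩
  · have : (T + 1) * η' = η / 2 := by rw [hη']; field_simp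
    nlinarith
  · rw [max_eq_left, add_zero]
    rw [div_le_iff₀ hcS] at hT
    linarith

theorem loop_rounds (hτ : τ.ND) (Θ : ℝ → ℝ) (h0 : ∀ t, 0 ≤ Θ t) {a m b : ℝ} (ha : 0 ≤ a)
    (hm : 0 ≤ m) (hb : b ≤ 1) (H : ∀ (K : Type) [Finite K] (η : ℝ), 0 < η →
      LoopOK Θ τ K η (1 - b) (b * a) (b * m)) (T : ℕ) :
    ∀ (K : Type) [Finite K] (η : ℝ), 0 < η → LoopOK Θ τ K η ((1 - b) ^ T) a m := by
  induction T with
  | zero =>
    intro K _ η hη
    refine ⟨Nat.card K, fun I _ hI c => loop_mono (loop_triv hτ c hI) hη.le ?_⟩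
    have hs0 : 0 ≤ a * av fun x => Θ ‖fld τ c x‖ := mul_nonneg ha (av_nonneg fun M => h0 _)
    rw [pow_zero]; linarith
  | succ T ih =>
    intro K _ η hη
    obtain ⟨n, hn⟩ := H K (η / 2) (by positivity)
    obtain ⟨n', hn'⟩ := ih (Fin n) (η / 2) (by positivity)
    refine ⟨n', fun I _ hI c => loop_mono (loop_comp Θ (by linarith) (hn' I hI c)
      (hn (Fin n) (by simp))) (by linarith) (le_of_eq (by ring))⟩

theorem full_of (hτ : τ.ND) (hTH : SD.TH) (hR : RSTEP τ) : FULL τ := by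
  intro D K _ η hη
  obtain ⟨Θ, h0, -, h1, hC⟩ := hTH D
  have h3 : 0 < η / 3 := by positivity
  obtain ⟨b, b0, b1, H⟩ := loop_contr hτ hR Θ h0 hC (η / 3) (η / 3) h3 h3
  obtain ⟨T, hT⟩ := exists_pow_lt_of_lt_one (show 0 < η / 3 / (|D 2| + 1) by positivity)
    (show 1 - b < 1 by linarith)
  obtain ⟨n, hn⟩ := loop_rounds hτ Θ h0 h3.le h3.le (by linarith) H T K η hη
  refine ⟨n, fun I _ hI c ht => loop_mono (hn I hI c) le_rfl ?_⟩
  have e1 : En τ (fld τ c) ≤ |D 2| + 1 := by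
    have := ((loop_En_le hτ (fld τ c)).trans (Tame.sq ht)).trans (le_abs_self _)
    linarith
  have e2 := mul_le_mul_of_nonneg_left e1 (pow_nonneg (show 0 ≤ 1 - b by linarith) T)
  have e3 := mul_le_mul_of_nonneg_left (h1 _ _ ht) h3.le
  rw [lt_div_iff₀ (by positivity)] at hT
  linarith

end NE
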