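import Pool.Agent.Lib.MP_ecee09_co.NE.Pen
import Pool.Agent.Lib.MP_ecee09_co.NE.Cells
import Pool.Agent.Lib.MP_ecee09_co.NE.FamB

/-! The main theorem on `Om` follows from `STEP`. -/

namespace NE

open SD (F sm av ind cnt Tame ind_nonneg ind_le_one ind_pos ind_neg)

section
variable {I K : Type}

theorem Indep.ores {A : Set (Om I)} (hA : Indep A) (x : Om I) {Φ : Lab I K} (hΦ : Good Φ) :
    Indep {P | ow x Φ P ∈ A} := fun y Ψ hΨ h0 h1 =>
  hA (ow x Φ y) (lcomp Φ Ψ) (hΦ.lcomp hΨ) (by rw [ow_lcomp]; exact h0) (by rw [ow_lcomp]; exact h1)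

theorem ores_cind (A : Set (Om I)) (x : Om I) (Φ : Lab I K) :
    ores (cind A) x Φ = cind {P | ow x Φ P ∈ A} := rfl

theorem norm_cind_le {X : Type} (A : Set X) (x : X) : ‖cind A x‖ ≤ 1 := by
  rw [cind, Complex.norm_real, Real.norm_eq_abs, SD.abs_ind]
  exact ind_le_one _

theorem n2_cind_le {X : Type} [Finite X] (A : Set X) : n2 (cind A) ≤ 1 :=
  (SD.av_mono fun x => pow_le_one₀ (norm_nonneg _) (norm_cind_le A x)).trans SD.av_one_le

theorem mn_sq_le_one {X : Type} [Finite X] (A : Set X) : av (fun x => ind (x ∈ A)) ^ 2 ≤ 1 :=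
  pow_le_one₀ (SD.av_ind_nonneg _) (SD.av_ind_le_one _)

theorem mn_E_sq [Finite I] [Finite K] (B : OFam I K) (g : Om I → ℝ) :
    av g ^ 2 ≤ B.E fun x Φ => (av fun P => g (ow x Φ P)) ^ 2 := by
  rw [← B.marg g]
  exact Fam.sq_le B _

end

theorem mn_claim {θ c η b : ℝ} {J0 : ℕ} (hθ : 0 ≤ θ) (hc : 0 ≤ c) (hη : 0 < η) (hb : 0 ≤ b)
    (h : ∀ (K : Type) [Finite K] (η : ℝ), 0 < η →
      ∃ n0 : ℕ, ∀ (I : Type) [Finite I], n0 ≤ Nat.card I → ∀ A : Set (Om I), Indep A →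
        θ ≤ av (fun x => ind (x ∈ A)) ^ 2 →
        ∃ B : OFam I K, B.junk ≤ η ∧
          (B.E fun x Φ => pot J0 (ores (cind A) x Φ)) ≤ pot J0 (cind A) - c)
    (t : ℕ) (ht : t * (b * c) ≤ 1) :
    ∃ n0 : ℕ, ∀ (I : Type) [Finite I], n0 ≤ Nat.card I → ∀ A : Set (Om I), Indep A →
      av (fun x => ind (x ∈ A)) ^ 2 ≤ θ + t * η + (1 - t * (b * c)) + b * pot J0 (cind A) := by
  have p0 : ∀ (I : Type) [Finite I] (f : Om I → ℂ), 0 ≤ b * pot J0 f := fun I _ f =>
    mul_nonneg hb (pot_nonneg J0 f)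
  induction t with
  | zero =>
    refine ⟨0, fun I _ _ A _ => ?_⟩
    have := p0 I (cind A)
    have := mn_sq_le_one A
    push_cast
    linarith
  | succ t ih =>
    have p3 : 0 ≤ b * c := by positivity
    have p4 : 0 ≤ t * η := by positivity
    push_cast at ht ⊢
    obtain ⟨k, hk⟩ := ih (by linarith)
    obtain ⟨n, hn⟩ := h (Fin k) η hη
    refine ⟨n, fun I _ hI A hA => ?_⟩
    by_cases q : θ ≤ av (fun x => ind (x ∈ A)) ^ 2
    · obtain ⟨B, b1, b2⟩ := hn I hI A hA q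
      have b3 := (mn_E_sq B fun x => ind (x ∈ A)).trans (Fam.mono B (g := fun x Φ =>
        ind (¬ Good Φ) + ((θ + t * η + (1 - t * (b * c))) + b * pot J0 (ores (cind A) x Φ)))
          fun x Φ => ?_)
      · rw [B.add, B.add, B.smul, Fam.const] at b3
        have b4 := mul_le_mul_of_nonneg_left b2 hb
        rw [Fam.junk] at b1
        linarith
      by_cases i : Good Φ
      · rw [ind_neg (not_not.2 i), zero_add]
        exact hk (Fin k) (by simp) {P | ow x Φ P ∈ A} (hA.ores x i)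
      · have := p0 (Fin k) (ores (cind A) x Φ)
        have q : av (fun P => ind (ow x Φ P ∈ A)) ^ 2 ≤ 1 := mn_sq_le_one {P | ow x Φ P ∈ A}
        rw [ind_pos i]
        linarith
    · have := p0 I (cind A)
      linarith [not_le.1 q]

theorem main_of (h : STEP) : MAIN := by
  intro δ hδ
  have hε : 0 < δ ^ 2 / 8 := by positivity
  generalize e : δ ^ 2 / 8 = ε at hε
  obtain ⟨J0, c, hc, h⟩ := h ε hε
  obtain ⟨N, hN⟩ := exists_nat_gt ((J0 + 1) / (ε * c))
  have N0 : (0 : ℝ) < N := lt_of_le_of_lt (by positivity) hN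
  have e1 : N * (1 / (N * c) * c) = 1 := by field_simp
  obtain ⟨n, hn⟩ := mn_claim (b := 1 / (N * c)) hε.le hc.le (div_pos hε N0) (by positivity) h N e1.le
  refine ⟨n, fun I _ hI A hA hi => ?_⟩
  have k := hn I hI A hi
  have k1 : pot J0 (cind A) ≤ J0 + 1 :=
    (pot_le J0 _).trans (mul_le_of_le_one_right (by positivity) (n2_cind_le A))
  have k2 : 1 / (N * c) * (J0 + 1) ≤ ε := by
    rw [div_lt_iff₀ (by positivity)] at hN
    rw [div_mul_eq_mul_div, div_le_iff₀ (by positivity)]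
    linarith
  have k3 := mul_le_mul_of_nonneg_left k1 (show 0 ≤ 1 / (N * c) by positivity)
  have k4 := pow_le_pow_left₀ hδ.le hA 2
  rw [e1, mul_div_cancel₀ _ N0.ne'] at k
  linarith

end NE
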