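import Pool.Agent.Lib.MP_ecee09_co.NE.MoA
import Pool.Agent.Lib.MP_ecee09_co.NE.GB
import Pool.Agent.Lib.MP_ecee09_co.NE.FldR

/-! Statistics of single pools in a world with zeros inside the pool. -/

namespace NE

open SD
open ComplexConjugate

section cos
variable {G H H1 H2 H3 : Type} [AddCommGroup G] [Finite G] [AddCommGroup H] [Finite H]
  [Finite H1] [Finite H2] [Finite H3] {L : H → G}

lemma mo_dd (hL : Ad L) (k : G → ℂ) (b : G) (h : H) :
    dd (fun t => k (b + L t)) h = fun t => dd k (L h) (b + L t) := by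
  funext t
  simp only [dd, hL t h, add_assoc]

lemma mo_cos (L : H → G) (f : G → ℂ) : cav f = cav fun b => cav fun t => f (b + L t) := by
  rw [cav_comm]
  simp only [cav_add_right]
  exact (cav_const _).symm

lemma mo_gb2 (hL : Ad L) (k : G → ℂ) (a : H1 → H) (a' : H2 → H) :
    gb2 k (fun h => L (a h)) (fun h => L (a' h)) =
      av fun b => gb2 (fun t => k (b + L t)) a a' := by
  unfold gb2
  rw [mo_cos L, cav_re]
  refine av_congr fun b => ?_
  simp only [mo_dd hL]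

lemma mo_gb3 (hL : Ad L) (k : G → ℂ) (a : H1 → H) (a' : H2 → H) (a'' : H3 → H) :
    gb3 k (fun h => L (a h)) (fun h => L (a' h)) (fun h => L (a'' h)) =
      av fun b => gb3 (fun t => k (b + L t)) a a' a'' := by
  unfold gb3
  rw [mo_cos L, cav_re]
  refine av_congr fun b => ?_
  simp only [mo_dd hL]

end cos

section
variable {E I K : Type} [AddCommGroup E] [Finite E] [Finite I] [Finite K] {τ : QT E}

lemma mo_ad (Φ : Lab I K) : Ad fun t : K → E => spr t Φ := fun t t' => spr_add t t' Φ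

lemma mo_range {ι : K → I} (hι : Function.Injective ι) (S : AddSubgroup E) :
    Set.range (sft (Set.range ι) S) =
      Set.range fun h : K → S => spr (sft Set.univ S h) (crd ι) := by
  ext v
  rw [mem_range_sft]
  constructor
  · rintro ⟨h1, h2⟩
    refine ⟨fun k => ⟨v (ι k), h1 _⟩, funext fun i => ?_⟩
    by_cases hi : i ∈ Set.range ι
    · obtain ⟨k, rfl⟩ := hi
      show spr _ _ _ = _
      rw [spr_crd hι, sft, if_pos (Set.mem_univ _)]
    · show spr _ _ _ = _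
      rw [spr_of_none _ ((crd_eq_none hι).2 hi), h2 i hi]
  · rintro ⟨h, rfl⟩
    refine ⟨fun i => ?_, fun i hi => spr_of_none _ ((crd_eq_none hι).2 hi)⟩
    by_cases hi : i ∈ Set.range ι
    · obtain ⟨k, rfl⟩ := hi
      show spr _ _ _ ∈ _
      rw [spr_crd hι, sft, if_pos (Set.mem_univ _)]
      exact (h k).2
    · show spr _ _ _ ∈ _
      rw [spr_of_none _ ((crd_eq_none hι).2 hi)]
      exact zero_mem _

lemma mo_xb2 {ι : K → I} (hι : Function.Injective ι) (k : (I → E) → ℂ) (S S' : AddSubgroup E) :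
    xb2 k (Set.range ι) S S' =
      av fun b => xb2 (fun t : K → E => k (b + spr t (crd ι))) Set.univ S S' := by
  unfold xb2
  rw [gb2_range (ad_sft _ _) (ad_sft _ _) ((mo_ad _).comp (ad_sft _ _))
    ((mo_ad _).comp (ad_sft _ _)) (mo_range hι S) (mo_range hι S')]
  exact mo_gb2 (L := fun t : K → E => spr t (crd ι)) (mo_ad (crd ι)) k (sft Set.univ S)
    (sft Set.univ S')

lemma mo_xb3 {ι : K → I} (hι : Function.Injective ι) (k : (I → E) → ℂ) :
    xb3 k (Set.range ι) = av fun b => xb3 (fun t : K → E => k (b + spr t (crd ι))) Set.univ := by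
  unfold xb3
  rw [gb3_range (ad_sft _ _) (ad_sft _ _) (ad_sft _ _) ((mo_ad _).comp (ad_sft _ _))
    ((mo_ad _).comp (ad_sft _ _)) ((mo_ad _).comp (ad_sft _ _)) (mo_range hι ⊤) (mo_range hι ⊤)
    (mo_range hι ⊤)]
  exact mo_gb3 (L := fun t : K → E => spr t (crd ι)) (mo_ad (crd ι)) k
    (sft Set.univ (⊤ : AddSubgroup E)) (sft Set.univ (⊤ : AddSubgroup E))
    (sft Set.univ (⊤ : AddSubgroup E))

lemma mo_prS {ι : K → I} (hι : Function.Injective ι) (g : (I → E) → ℂ) :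
    prS (sft (Set.range ι) (⊤ : AddSubgroup E)) g = prS (fun t : K → E => spr t (crd ι)) g := by
  refine prS_range (ad_sft _ _) (mo_ad _) ?_ g
  rw [mo_range hι]
  ext v
  refine ⟨fun ⟨h, e⟩ => ⟨_, e⟩, fun ⟨t, e⟩ => ⟨fun k => ⟨t k, trivial⟩, ?_⟩⟩
  rw [← e]
  exact congrArg (fun x : K → E => spr x (crd ι)) (funext fun k => if_pos (Set.mem_univ _))

lemma mo_box2 (hP : PIND τ) (c : (I → E) → ℂ) {ι : K → I} (hι : Function.Injective ι)
    (S : AddSubgroup E) :
    (av fun A => xb2 (fun b => fld τ c (b, ow A (crd ι) 0)) (Set.range ι) S (τ.perp S)) =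
      av fun x : OmE E I => box (res (fld τ c) x (crd ι)) S (τ.perp S) := by
  rw [av_prod, av_comm]
  refine av_congr fun A => ?_
  rw [mo_xb2 hι]
  refine av_congr fun b => ?_
  have e : (fun t : K → E => fld τ c (b + spr t (crd ι), ow A (crd ι) 0)) =
      fun t => res (fld τ c) (b, A) (crd ι) (t, 0) := rfl
  rw [e, box, res_fld, ← av_const (α := Om K) (xb2 _ _ _ _)]
  exact av_congr fun P => (hP K _ 0 P).1 S

lemma mo_box3 (hP : PIND τ) (c : (I → E) → ℂ) {ι : K → I} (hι : Function.Injective ι) :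
    (av fun A => xb3 (fun b => fld τ c (b, ow A (crd ι) 0)) (Set.range ι)) =
      av fun x : OmE E I => box3 (res (fld τ c) x (crd ι)) := by
  rw [av_prod, av_comm]
  refine av_congr fun A => ?_
  rw [mo_xb3 hι]
  refine av_congr fun b => ?_
  have e : (fun t : K → E => fld τ c (b + spr t (crd ι), ow A (crd ι) 0)) =
      fun t => res (fld τ c) (b, A) (crd ι) (t, 0) := rfl
  rw [e, box3, res_fld, ← av_const (α := Om K) (xb3 _ _)]
  exact av_congr fun P => (hP K _ 0 P).2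

/-- the squared modulus as a complex function -/
noncomputable def sq2 {X : Type} (k : X → ℂ) (x : X) : ℂ := ((‖k x‖ ^ 2 : ℝ) : ℂ)

lemma norm_sq2 {X : Type} (k : X → ℂ) (x : X) : ‖sq2 k x‖ = ‖k x‖ ^ 2 := by
  rw [sq2, Complex.norm_real, Real.norm_eq_abs, abs_of_nonneg (sq_nonneg _)]

lemma n2_sq2 {X : Type} (k : X → ℂ) : n2 (sq2 k) = av fun x => ‖k x‖ ^ 4 :=
  av_congr fun x => by rw [norm_sq2, ← pow_mul]

lemma n2_prS_sq2 {G H : Type} [AddCommGroup G] [Finite H] (a : H → G) (k : G → ℂ) :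
    n2 (prS a (sq2 k)) = av fun b => (av fun h => ‖k (b + a h)‖ ^ 2) ^ 2 := by
  refine av_congr fun b => ?_
  have e : prS a (sq2 k) b = ((av fun h => ‖k (b + a h)‖ ^ 2 : ℝ) : ℂ) :=
    cav_ofReal fun h => ‖k (b + a h)‖ ^ 2
  rw [e, Complex.norm_real, Real.norm_eq_abs, sq_abs]

lemma mo_var (hτ : τ.ND) (c : (I → E) → ℂ) {ι : K → I} (hι : Function.Injective ι) :
    (av fun A => n2 (prS (sft (Set.range ι) (⊤ : AddSubgroup E))
      (sq2 fun b => fld τ c (b, ow A (crd ι) 0)))) =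
      av fun x : OmE E I => n2 (res (fld τ c) x (crd ι)) ^ 2 := by
  rw [av_prod, av_comm]
  refine av_congr fun A => ?_
  rw [mo_prS hι, n2_prS_sq2]
  refine av_congr fun b => ?_
  have e : (fun t : K → E => ‖fld τ c (b + spr t (crd ι), ow A (crd ι) 0)‖ ^ 2) =
      fun t => ‖res (fld τ c) (b, A) (crd ι) (t, 0)‖ ^ 2 := rfl
  rw [e, res_fld, av_fld_sq hτ, n2_fld hτ]

/-- the profile in planted worlds -/
def dw (D : ℕ → ℝ) (p : ℕ) : ℝ := D p + 1 + D (2 * p)

lemma CT.av_le {X : Type} {D : ℕ → ℝ} {u : X → ℂ} (h : CT D u) (p : ℕ) :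
    av (fun x => ‖u x‖ ^ p) ≤ D p := by
  simpa only [abs_norm] using h p

lemma CT.nn {X : Type} [Finite X] {D : ℕ → ℝ} {u : X → ℂ} (h : CT D u) (p : ℕ) : 0 ≤ D p :=
  (av_nonneg fun _ => by positivity).trans (h.av_le p)

lemma mo_sq {X : Type} [Finite X] (k : X → ℂ) (p : ℕ) :
    (av fun b => ‖k b‖ ^ p) ^ 2 ≤ av fun b => ‖k b‖ ^ (2 * p) :=
  (av_sq_le _).trans (le_of_eq (av_congr fun b => by rw [← pow_mul, mul_comm]))

/-- moments in a planted world -/
lemma mo_mom {n : ℕ} {ε : ℝ} (h : MD n ε I) (hε : ε ≤ 1) {D : ℕ → ℝ} {u : OmE E I → ℂ}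
    (hu : CT D u) {U : Type} [Finite U] (hU : Nat.card U ≤ n) (C : Set (Sym2 U)) (Pt : Om U)
    (p : ℕ) :
    (av fun e : U ↪ I => av fun A => av fun b => ‖u (b, mw e C Pt A)‖ ^ p) ≤ dw D p := by
  have k := h.zero hU C Pt fun A => av fun b => ‖u (b, A)‖ ^ p
  have k1 : ∀ q, (av fun A => av fun b => ‖u (b, A)‖ ^ q) ≤ D q := fun q => by
    rw [av_comm, ← av_prod fun x : OmE E I => ‖u x‖ ^ q]
    exact hu.av_le q
  have k2 : (av fun A => (av fun b => ‖u (b, A)‖ ^ p) ^ 2) ≤ D (2 * p) :=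
    (av_mono fun A => mo_sq _ p).trans (k1 _)
  have k3 : √(av fun A => (av fun b => ‖u (b, A)‖ ^ p) ^ 2) ≤ 1 + D (2 * p) := by
    refine Real.sqrt_le_iff.2 ⟨by linarith [hu.nn (2 * p)], k2.trans ?_⟩
    nlinarith [hu.nn (2 * p)]
  have k4 := mul_le_mul_of_nonneg_right hε
    (Real.sqrt_nonneg (av fun A => (av fun b => ‖u (b, A)‖ ^ p) ^ 2))
  have := (abs_le.1 k).2
  have := k1 p
  unfold dw
  linarith

/-- a statistic of one pool with zeros inside -/
lemma mo_pool {n : ℕ} {ε : ℝ} (h : MD n ε I) (hε0 : 0 ≤ ε) (hε : ε ≤ 1) {D : ℕ → ℝ}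
    {u : OmE E I → ℂ} (hu : CT D u) {U : Type} [Finite U] (hU : Nat.card U ≤ n) (j : K ↪ U)
    {C : Set (Sym2 U)} (hC : ∀ d, Sym2.map j d ∈ C) (Y : Set I → ((I → E) → ℂ) → ℝ) (p : ℕ)
    (hY : ∀ J k, |Y J k| ≤ av fun b => ‖k b‖ ^ p) :
    (av fun e : U ↪ I => av fun A =>
      Y (Set.range fun i => e (j i)) fun b => u (b, mw e C 0 A)) ≤
    (av fun ι : K ↪ I => av fun A => Y (Set.range ι) fun b => u (b, ow A (crd ι) 0)) +
      ε * √(dw D (2 * p)) := by
  have k := h K U hU j C 0 fun ι A => Y (Set.range ι) fun b => u (b, A)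
  have e1 : Sym2.map j ⁻¹' C = Set.univ := Set.eq_univ_of_forall hC
  rw [e1, pb_zero] at k
  have k2 : (av fun ι : K ↪ I => av fun A =>
      (Y (Set.range ι) fun b => u (b, mw ι Set.univ 0 A)) ^ 2) ≤ dw D (2 * p) := by
    refine le_trans (av_mono fun ι => av_mono fun A => ?_) (mo_mom h hε hu
      ((Nat.card_le_card_of_injective j j.injective).trans hU) Set.univ 0 (2 * p))
    rw [← sq_abs]
    exact (pow_le_pow_left₀ (abs_nonneg _) (hY _ _) 2).trans (mo_sq _ p)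
  have k3 := mul_le_mul_of_nonneg_left (Real.sqrt_le_sqrt k2) hε0
  have k4 := (abs_le.1 (k.trans k3)).2
  simp only [mw_univ] at k4
  exact sub_le_iff_le_add'.1 k4

end

end NE
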