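import Pool.Agent.Lib.MP_ecee09_co.NE.MoB

/-! Blocks of the sample and of the probe, and the two worlds of the moment lemma. -/

namespace NE

open SD
open ComplexConjugate

section
variable {E I B B' U R κ : Type} [AddCommGroup E]

lemma mo_th_add [Finite I] (τ : QT E) (w : I → E) {X Y : Om I} (h : ∀ c, X c = 0 ∨ Y c = 0) :
    th τ w (X + Y) = th τ w X + th τ w Y := by
  let _ := Fintype.ofFinite (Sym2 I)
  simp only [th_eq, ← Finset.sum_add_distrib]
  refine Finset.sum_congr rfl fun c _ => ?_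
  rcases h c with k | k <;> simp [k]

lemma mo_tk [Finite E] [Finite I] [Finite B] {τ : QT E} (hτ : τ.ND) (c : (I → E) → ℂ)
    (Ψ : Lab I B) (A : Om I) (P : Om B) (h : ∀ d, A d = 0 ∨ ow 0 Ψ P d = 0) (b : I → E) :
    tk τ (sprH Ψ) (fun b => fld τ c (b, A)) P b = fld τ c (b, A + ow 0 Ψ P) := by
  have e1 : ∀ w' : B → E, lp3 τ (sprH Ψ) (fun b => fld τ c (b, A)) w' b =
      csm fun w => (ind (wl w Ψ = w') : ℝ) * (c w * chi τ w (b, A)) := by
    intro w'
    have k := fld_mulp τ (sprH Ψ) (brkH τ w') c (b, A)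
    refine Eq.trans k.symm (csm_congr fun w => ?_)
    rw [mul_assoc]
    congr 3
    refine propext ⟨fun k => ?_, fun k t => ?_⟩
    · refine sub_eq_zero.1 (brk_nd hτ fun t => ?_)
      rw [brk_sub_left, ← brk_spr, sub_eq_zero]
      exact k t
    · rw [← k, ← show brk τ w (spr t Ψ) = brkH τ (wl w Ψ) t from brk_spr τ w t Ψ]
      rfl
  unfold tk
  simp only [e1, ← csm_mul_left]
  rw [csm_comm]
  refine csm_congr fun w => ?_
  have e2 : ∀ w' : B → E, ph τ w' P * (((ind (wl w Ψ = w') : ℝ) : ℂ) * (c w * chi τ w (b, A))) =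
      (ind (wl w Ψ = w') : ℂ) * (ph τ w' P * (c w * chi τ w (b, A))) := fun w' => by ring
  simp only [e2]
  rw [csm_ind_eq', chi_eq, chi_eq]
  simp only [ph, mo_th_add τ w h, th_ow_zero, ee_add]
  ring

lemma mo_sprI {Ψ : Lab I B} {Ψ' : Lab I B'} {i : B' → B}
    (h : ∀ x l, Ψ' x = some l ↔ Ψ x = some (i l)) {g : B → E}
    (hg : ∀ l, l ∉ Set.range i → g l = 0) : spr g Ψ = spr (g ∘ i) Ψ' := by
  funext x
  cases h' : Ψ' x with
  | some l => rw [spr_some _ h', spr_some _ ((h x l).1 h')]; rfl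
  | none =>
    rw [spr_of_none _ h']
    cases h'' : Ψ x with
    | none => exact spr_of_none _ h''
    | some l =>
      rw [spr_some _ h'']
      refine hg l ?_
      rintro ⟨l', rfl⟩
      rw [(h x l').2 h''] at h'
      cases h'

lemma mo_rangeI {Ψ : Lab I B} {Ψ' : Lab I B'} {i : B' → B} (hi : Function.Injective i)
    (h : ∀ x l, Ψ' x = some l ↔ Ψ x = some (i l)) {J : Set B} {J' : Set B'}
    (hJ : ∀ l ∈ J', i l ∈ J) (S : AddSubgroup E) :
    Set.range (fun t => sprH Ψ' (sft J' S t)) ⊆ Set.range fun t => sprH Ψ (sft J S t) := by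
  classical
  rintro _ ⟨t, rfl⟩
  obtain ⟨t', ht⟩ : Function.extend i (sft J' S t) 0 ∈ Set.range (sft J S) := by
    have m := (mem_range_sft (J := J') (S := S)).1 ⟨t, rfl⟩
    refine mem_range_sft.2 ⟨fun l => ?_, fun l hl => ?_⟩
    · by_cases k : ∃ l', i l' = l
      · obtain ⟨l', rfl⟩ := k
        rw [hi.extend_apply]; exact m.1 l'
      · rw [Function.extend_apply' _ _ _ k]; exact zero_mem _
    · by_cases k : ∃ l', i l' = l
      · obtain ⟨l', rfl⟩ := k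
        rw [hi.extend_apply]; exact m.2 l' fun q => hl (hJ l' q)
      · rw [Function.extend_apply' _ _ _ k]; rfl
  refine ⟨t', ?_⟩
  show spr (sft J S t') Ψ = spr (sft J' S t) Ψ'
  rw [ht, mo_sprI h fun l hl => Function.extend_apply' (f := i) (sft J' S t) (0 : B → E) l hl,
    Function.extend_comp hi]

lemma mo_crd_sub {e : U → I} (he : Function.Injective e) {j : R → U} (hj : Function.Injective j)
    {Λ : Lab U κ} (h : ∀ u, u ∉ Set.range j → Λ u = none) :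
    lcomp (crd (e ∘ j)) (Λ ∘ j) = lcomp (crd e) Λ := by
  funext x
  by_cases k : x ∈ Set.range (e ∘ j)
  · obtain ⟨r, rfl⟩ := k
    rw [lcomp_crd_apply (he.comp hj)]
    exact (lcomp_crd_apply he Λ (j r)).symm
  · rw [lcomp_of_none _ ((crd_eq_none (he.comp hj)).2 k)]
    by_cases k' : x ∈ Set.range e
    · obtain ⟨u, rfl⟩ := k'
      rw [lcomp_crd_apply he, h u fun ⟨r, hr⟩ => k ⟨r, congrArg e hr⟩]
    · exact (lcomp_of_none _ ((crd_eq_none he).2 k')).symm

end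

section
variable {E I K κ : Type} [AddCommGroup E] {k0 m s : ℕ}

/-- indices of the sample pools and of the probe pools -/
abbrev Uu (k0 : ℕ) (κ : Type) (m s : ℕ) : Type := (Fin k0 × Fin s) ⊕ (κ × Fin m × Fin s)

/-- the block of an index -/
def ubl (tu : Uu k0 κ m s → Tg) : Uu k0 κ m s → Bl k0 κ m
  | .inl y => .inl (y.1, tu (.inl y))
  | .inr z => .inr (z.1, z.2.1, tu (.inr z))

/-- the probe label of an index -/
def ual (tu : Uu k0 κ m s → Tg) (Ξ : κ × Fin m × Tg → Bool) : Lab (Uu k0 κ m s) κ :=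
  Sum.elim (fun _ => none) (lcomp (tl3 (tu ∘ Sum.inr)) (zl Ξ))

/-- the block label on `I` -/
noncomputable def uPs (e : Uu k0 κ m s → I) (tu : Uu k0 κ m s → Tg) : Lab I (Bl k0 κ m) :=
  lcomp (crd e) fun u => some (ubl tu u)

lemma ual_some {tu : Uu k0 κ m s → Tg} {Ξ : κ × Fin m × Tg → Bool} {u : Uu k0 κ m s} {a : κ}
    (h : ual tu Ξ u = some a) :
    ∃ z : κ × Fin m × Fin s, u = .inr z ∧ z.1 = a ∧ zl Ξ (z.1, z.2.1, tu (.inr z)) = some a := by
  rcases u with y | z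
  · cases h
  · refine ⟨z, rfl, ?_, h⟩
    have h' : zl Ξ (z.1, z.2.1, tu (.inr z)) = some a := h
    unfold zl at h'
    split_ifs at h'
    exact Option.some.inj h'

lemma mo_plab {e : Uu k0 κ m s → I} (he : Function.Injective e) (tu : Uu k0 κ m s → Tg)
    (Ξ : κ × Fin m × Tg → Bool) :
    plab (e ∘ Sum.inr) (tu ∘ Sum.inr) Ξ = lcomp (crd e) (ual tu Ξ) := by
  rw [← mo_crd_sub he Sum.inr_injective (Λ := ual tu Ξ)]
  · rfl
  · rintro (y | z) h
    · rfl
    · exact absurd ⟨z, rfl⟩ h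

lemma mo_shift (e : Uu k0 κ m s → I) (tu : Uu k0 κ m s → Tg) (Ξ : κ × Fin m × Tg → Bool)
    (t : κ → E) : sprH (uPs e tu) (tt t Ξ) = spr t (lcomp (crd e) (ual tu Ξ)) := by
  show spr (tt t Ξ) (uPs e tu) = _
  rw [uPs, spr_lcomp, spr_lcomp]
  congr 1
  funext u
  rcases u with y | z <;> rfl

lemma uPs_iff {e : Uu k0 κ m s → I} (he : Function.Injective e) (tg : I → Tg) {k : ℕ}
    {p : Fin k × Fin s → Uu k0 κ m s} (hp : Function.Injective p) {i : Fin k × Tg → Bl k0 κ m}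
    (h : ∀ u l, ubl (tg ∘ e) u = i l ↔ ∃ y, p y = u ∧ (y.1, tg (e u)) = l) (x : I)
    (l : Fin k × Tg) : yl (e ∘ p) tg x = some l ↔ uPs e (tg ∘ e) x = some (i l) := by
  rw [uPs, lcomp_eq_some, yl, Option.map_eq_some_iff]
  constructor
  · rintro ⟨y, h1, h2⟩
    have e1 : e (p y) = x := (crd_eq_some (he.comp hp)).1 h1
    exact ⟨p y, (crd_eq_some he).2 e1, congrArg some ((h _ _).2 ⟨y, rfl, e1 ▸ h2⟩)⟩
  · rintro ⟨u, h1, h2⟩
    obtain ⟨y, rfl, h3⟩ := (h _ _).1 (Option.some.inj h2)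
    have e1 : e (p y) = x := (crd_eq_some he).1 h1
    exact ⟨y, (crd_eq_some (he.comp hp)).2 e1, e1 ▸ h3⟩

lemma ubl_inl (tu : Uu k0 κ m s → Tg) (u : Uu k0 κ m s) (l : Fin k0 × Tg) :
    ubl tu u = .inl l ↔ ∃ y : Fin k0 × Fin s, Sum.inl y = u ∧ (y.1, tu u) = l := by
  rcases u with y | z
  · exact ⟨fun h => ⟨y, rfl, Sum.inl.inj h⟩, fun ⟨y', h1, h2⟩ => by
      obtain rfl := Sum.inl.inj h1
      exact congrArg Sum.inl h2⟩
  · exact ⟨fun h => (by cases h), fun ⟨_, h1, _⟩ => by cases h1⟩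

lemma ubl_inr (tu : Uu k0 κ m s → Tg) (a : κ) (u : Uu k0 κ m s) (l : Fin m × Tg) :
    ubl tu u = .inr (a, l) ↔ ∃ y : Fin m × Fin s, Sum.inr (a, y) = u ∧ (y.1, tu u) = l := by
  rcases u with y | ⟨a', z⟩
  · exact ⟨fun h => (by cases h), fun ⟨_, h1, _⟩ => by cases h1⟩
  · constructor
    · intro h
      obtain ⟨rfl, h2⟩ := Prod.mk.inj (Sum.inr.inj h)
      exact ⟨z, rfl, h2⟩
    · rintro ⟨y, h1, h2⟩
      obtain ⟨rfl, rfl⟩ := Prod.mk.inj (Sum.inr.inj h1)
      exact congrArg (fun l => Sum.inr (a, l)) h2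

/-- the half of an index of the probe -/
def uhf : Uu k0 (K ⊕ K) m s → Option Bool
  | .inl _ => none
  | .inr z => some z.1.isLeft

/-- the pairs that do not cross the halves -/
def uC0 (k0 : ℕ) (K : Type) (m s : ℕ) : Set (Sym2 (Uu k0 (K ⊕ K) m s)) :=
  {d | ∀ u u', d = s(u, u') → uhf u = some true → uhf u' ≠ some false}

/-- the joint pattern -/
def jq (P P' : Om K) : Om (K ⊕ K) := ow (ow 0 Sum.getLeft? P) Sum.getRight? P'

lemma jq_cross (P P' : Om K) (a a' : K) : jq P P' s(.inl a, .inr a') = 0 := rfl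

lemma mem_uC0 {u u' : Uu k0 (K ⊕ K) m s} :
    s(u, u') ∈ uC0 k0 K m s ↔
      ¬ (uhf u = some true ∧ uhf u' = some false) ∧ ¬ (uhf u' = some true ∧ uhf u = some false) := by
  constructor
  · intro h
    exact ⟨fun k => h u u' rfl k.1 k.2, fun k => h u' u Sym2.eq_swap k.1 k.2⟩
  · intro h v v' e h1 h2
    rcases Sym2.eq_iff.1 e with ⟨rfl, rfl⟩ | ⟨rfl, rfl⟩
    · exact h.1 ⟨h1, h2⟩
    · exact h.2 ⟨h1, h2⟩

/-- the pattern of the second world -/
noncomputable def uPB (tu : Uu k0 κ m s → Tg) (z : Om (Bl k0 κ m)) (Q : Om κ)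
    (Ξ : κ × Fin m × Tg → Bool) : Om (Uu k0 κ m s) :=
  ow 0 (fun u => some (ubl tu u)) (mix3 z Q Ξ)

lemma uPB_inr (tu : Uu k0 κ m s → Tg) (z : Om (Bl k0 κ m)) (Q : Om κ)
    (Ξ : κ × Fin m × Tg → Bool) (x y : κ × Fin m × Fin s) :
    uPB tu z Q Ξ s(.inr x, .inr y) = ow 0 (ual tu Ξ) Q s(.inr x, .inr y) := by
  refine (ow_some 0 (Φ := fun u => some (ubl tu u)) (mix3 z Q Ξ) rfl rfl).trans ?_
  exact (ow_crd_mk Sum.inr_injective z _ (x.1, x.2.1, tu (.inr x)) (y.1, y.2.1, tu (.inr y))).trans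
    rfl

lemma uPB_off (tu : Uu k0 (K ⊕ K) m s → Tg) (z : Om (Bl k0 (K ⊕ K) m)) (P P' : Om K)
    (Ξ : (K ⊕ K) × Fin m × Tg → Bool) {d : Sym2 (Uu k0 (K ⊕ K) m s)} (h : d ∉ uC0 k0 K m s) :
    uPB tu z (jq P P') Ξ d = 0 := by
  simp only [uC0, Set.mem_setOf_eq, not_forall, not_not] at h
  obtain ⟨u, u', rfl, h1, h2⟩ := h
  rcases u with y | ⟨a | a, x⟩ <;> rcases u' with y' | ⟨a' | a', x'⟩ <;>
    simp only [uhf, Sum.isLeft_inl, Sum.isLeft_inr, reduceCtorEq, Option.some.injEq] at h1 h2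
  rw [uPB_inr]
  cases q : ual tu Ξ (.inr (.inl a, x)) with
  | none => exact ow_none_left _ _ q _
  | some b =>
    cases q' : ual tu Ξ (.inr (.inr a', x')) with
    | none => exact ow_none_right _ _ _ q'
    | some b' =>
      obtain ⟨_, e1, rfl, _⟩ := ual_some q
      obtain ⟨_, e2, rfl, _⟩ := ual_some q'
      obtain rfl := Sum.inr.inj e1
      obtain rfl := Sum.inr.inj e2
      exact (ow_some _ _ q q').trans (jq_cross P P' a a')

lemma mo_wB [Finite E] [Finite I] [Finite K] {τ : QT E} (hτ : τ.ND) (c : (I → E) → ℂ)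
    {e : Uu k0 (K ⊕ K) m s → I} (he : Function.Injective e) (tu : Uu k0 (K ⊕ K) m s → Tg)
    (z : Om (Bl k0 (K ⊕ K) m)) (P P' : Om K) (Ξ : (K ⊕ K) × Fin m × Tg → Bool) (A : Om I)
    (b : I → E) :
    tk τ (sprH (uPs e tu)) (fun b => fld τ c (b, mw e (uC0 k0 K m s) 0 A))
      (mix3 z (jq P P') Ξ) b = fld τ c (b, mw e (uC0 k0 K m s) (uPB tu z (jq P P') Ξ) A) := by
  have e1 : ∀ d, ow 0 (uPs e tu) (mix3 z (jq P P') Ξ) (Sym2.map e d) =
      uPB tu z (jq P P') Ξ d := fun d =>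
    congrFun (pb_ow_lcomp_crd he 0 (fun u => some (ubl tu u)) (mix3 z (jq P P') Ξ)) d
  have e2 : ∀ c, lab2 (crd e) c = none → ow 0 (uPs e tu) (mix3 z (jq P P') Ξ) c = 0 :=
    fun c hc => ow_of_none (by rw [uPs, lab2_lcomp, hc]; rfl)
  rw [mo_tk hτ]
  · congr 2
    refine om_ext he (fun d => ?_) fun c hc => ?_
    · rw [Pi.add_apply, e1]
      by_cases hd : d ∈ uC0 k0 K m s
      · rw [mw_on he _ _ hd, mw_on he _ _ hd, Pi.zero_apply, zero_add]
      · rw [mw_off' he _ _ hd, mw_off' he _ _ hd, uPB_off _ _ _ _ _ hd, add_zero]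
    · rw [Pi.add_apply, e2 c hc, add_zero, mw_none _ _ _ _ hc, mw_none _ _ _ _ hc]
  · intro c
    cases hc : lab2 (crd e) c with
    | none => exact Or.inr (e2 c hc)
    | some d =>
      rw [← (lab2_crd_eq_some he).1 hc, e1]
      by_cases hd : d ∈ uC0 k0 K m s
      · exact Or.inl (mw_on he _ _ hd)
      · exact Or.inr (uPB_off _ _ _ _ _ hd)

/-- the pairs inside one half of a joint label -/
def uCA {U : Type} (Λ : Lab U (K ⊕ K)) : Set (Sym2 U) :=
  {d | lab2 (lft Λ) d ≠ none ∨ lab2 (rgt Λ) d ≠ none}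

lemma mem_uCA {U : Type} {Λ : Lab U (K ⊕ K)} {u u' : U} {a a' : K ⊕ K} (h : Λ u = some a)
    (h' : Λ u' = some a') : s(u, u') ∈ uCA Λ ↔ a.isLeft = a'.isLeft := by
  simp only [uCA, Set.mem_setOf_eq, ne_eq, lab2_eq_none_iff, lft, rgt, h, h']
  rcases a with a | a <;> rcases a' with a' | a' <;> simp

lemma mo_wA {U : Type} {e : U → I} (he : Function.Injective e) (Λ : Lab U (K ⊕ K))
    (P P' : Om K) (A : Om I) :
    ow (ow A (lft (lcomp (crd e) Λ)) P) (rgt (lcomp (crd e) Λ)) P' =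
      mw e (uCA Λ) (ow 0 Λ (jq P P')) A := by
  have l1 : lft (lcomp (crd e) Λ) = lcomp (crd e) (lft Λ) := lcomp_assoc _ _ _
  have l2 : rgt (lcomp (crd e) Λ) = lcomp (crd e) (rgt Λ) := lcomp_assoc _ _ _
  have l3 : ow 0 Λ (jq P P') = ow (ow 0 (lft Λ) P) (rgt Λ) P' := by
    rw [jq, ← ow_lcomp, ← ow_lcomp 0 Λ Sum.getLeft? 0 P, ow_zero]
    rfl
  rw [l1, l2, l3]
  refine om_ext he (fun d => ?_) fun c hc => ?_
  · have k : ow (ow A (lcomp (crd e) (lft Λ)) P) (lcomp (crd e) (rgt Λ)) P' (Sym2.map e d) =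
        ow (ow (pb e A) (lft Λ) P) (rgt Λ) P' d := by
      rw [← pb_ow_lcomp_crd he A (lft Λ) P, ← pb_ow_lcomp_crd he _ (rgt Λ) P']
      rfl
    rw [k]
    cases q : lab2 (rgt Λ) d with
    | some x =>
      rw [mw_on he _ _ (Or.inr (by rw [q]; exact Option.some_ne_none _)), ow_of_some q,
        ow_of_some q]
    | none =>
      cases q' : lab2 (lft Λ) d with
      | some x =>
        rw [mw_on he _ _ (Or.inl (by rw [q']; exact Option.some_ne_none _)), ow_of_none q,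
          ow_of_none q, ow_of_some q', ow_of_some q']
      | none =>
        rw [mw_off' he _ _ fun h => h.elim (fun h => h q') fun h => h q, ow_of_none q,
          ow_of_none q']
        rfl
  · rw [mw_none _ _ _ _ hc, ow_of_none (by rw [lab2_lcomp, hc]; rfl),
      ow_of_none (by rw [lab2_lcomp, hc]; rfl)]

end

end NE
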