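import Pool.Agent.Lib.MP_ecee09_co.NE.MoC

/-! Transfer between the worlds and the hypotheses of the abstract moment lemma. -/

namespace NE

open SD
open ComplexConjugate

section
variable {E I K κ U : Type} [AddCommGroup E] [Finite E] [Finite I] [Finite K] [Finite κ] [Finite U]

lemma mo_change {n : ℕ} {ε B : ℝ} (h : MD n ε I) (hε : 0 ≤ ε) (hU : Nat.card U ≤ n)
    (Λ : Lab U κ) {C C' : Set (Sym2 U)} {Pt Pt' : Om U}
    (hC : ∀ u u', Λ u ≠ none → Λ u' ≠ none →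
      (s(u, u') ∈ C ↔ s(u, u') ∈ C') ∧ Pt s(u, u') = Pt' s(u, u'))
    (F : Lab I κ → Om I → ℂ)
    (hB : ∀ (R : Type) [Finite R], Nat.card R ≤ n → ∀ (C : Set (Sym2 R)) (Pt : Om R)
      (Φ : (R ↪ I) → Lab I κ),
      (av fun ι : R ↪ I => av fun A => ‖F (Φ ι) (mw ι C Pt A)‖ ^ 2) ≤ B) :
    ‖(cav fun e : U ↪ I => cav fun A => F (lcomp (crd e) Λ) (mw e C Pt A)) -
      cav fun e : U ↪ I => cav fun A => F (lcomp (crd e) Λ) (mw e C' Pt' A)‖ ≤ 4 * (ε * √B) := by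
  let j : {u // Λ u ≠ none} ↪ U := Function.Embedding.subtype _
  have hR : Nat.card {u // Λ u ≠ none} ≤ n :=
    (Nat.card_le_card_of_injective j j.injective).trans hU
  have e1 : ∀ e : U ↪ I, lcomp (crd (j.trans e)) (Λ ∘ j) = lcomp (crd e) Λ := fun e =>
    mo_crd_sub e.injective j.injective fun u hu => by
      by_contra k
      exact hu ⟨⟨u, k⟩, rfl⟩
  have e2 : ∀ (ι : {u // Λ u ≠ none} ↪ I) (A : Om I),
      mw ι (Sym2.map j ⁻¹' C') (pb j Pt') A = mw ι (Sym2.map j ⁻¹' C) (pb j Pt) A := fun ι A =>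
    mw_congr _ (fun d => by
      induction d using Sym2.ind with
      | _ a b => exact (hC a.1 b.1 a.2 b.2).1.symm) (fun d _ => by
      induction d using Sym2.ind with
      | _ a b => exact (hC a.1 b.1 a.2 b.2).2.symm) A
  have key : ∀ ℓ : ℂ → ℝ, (∀ z, |ℓ z| ≤ ‖z‖) →
      |(av fun e : U ↪ I => av fun A => ℓ (F (lcomp (crd e) Λ) (mw e C Pt A))) -
        av fun e : U ↪ I => av fun A => ℓ (F (lcomp (crd e) Λ) (mw e C' Pt' A))| ≤
        2 * (ε * √B) := by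
    intro ℓ hℓ
    have k1 := h _ U hU j C Pt fun ι A => ℓ (F (lcomp (crd ι) (Λ ∘ j)) A)
    have k2 := h _ U hU j C' Pt' fun ι A => ℓ (F (lcomp (crd ι) (Λ ∘ j)) A)
    simp only [e1, e2] at k1 k2
    have k3 : (av fun ι : {u // Λ u ≠ none} ↪ I => av fun A =>
        ℓ (F (lcomp (crd ι) (Λ ∘ j)) (mw ι (Sym2.map j ⁻¹' C) (pb j Pt) A)) ^ 2) ≤ B := by
      refine le_trans (av_mono fun ι => av_mono fun A => ?_)
        (hB _ hR (Sym2.map j ⁻¹' C) (pb j Pt) fun ι => lcomp (crd ι) (Λ ∘ j))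
      rw [← sq_abs]
      exact pow_le_pow_left₀ (abs_nonneg _) (hℓ _) 2
    have k4 := mul_le_mul_of_nonneg_left (Real.sqrt_le_sqrt k3) hε
    have k5 := abs_le.1 (k1.trans k4)
    have k6 := abs_le.1 (k2.trans k4)
    exact abs_le.2 ⟨by linarith [k5.1, k6.2], by linarith [k5.2, k6.1]⟩
  refine (Complex.norm_le_abs_re_add_abs_im _).trans ?_
  have a1 := key Complex.re Complex.abs_re_le_norm
  have a2 := key Complex.im Complex.abs_im_le_norm
  simp only [Complex.sub_re, Complex.sub_im, cav_re, cav_im]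
  linarith

lemma mo_norm_cj (b : Bool) (z : ℂ) : ‖cj b z‖ = ‖z‖ := by cases b <;> simp

/-- the moment at a pattern -/
noncomputable def mF (u : OmE E I → ℂ) {R : ℕ} (t : Fin R → κ → E) (ε : Fin R → Bool)
    (Φ : Lab I κ) (A : Om I) : ℂ := cav fun b => ∏ r, cj (ε r) (u (b + spr (t r) Φ, A))

lemma mF_sq (u : OmE E I → ℂ) {R : ℕ} (t : Fin R → κ → E) (ε : Fin R → Bool) (Φ : Lab I κ)
    (A : Om I) : ‖mF u t ε Φ A‖ ^ 2 ≤ 1 + R * av fun b => ‖u (b, A)‖ ^ (2 * R) := by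
  refine (norm_cav_sq_le _).trans ((av_mono (g := fun b =>
    1 + ∑ r, ‖u (b + spr (t r) Φ, A)‖ ^ (2 * R)) fun b => ?_).trans (le_of_eq ?_))
  · have k := abs_prod_le fun r => ‖u (b + spr (t r) Φ, A)‖ ^ 2
    simp only [abs_pow, abs_norm, Fintype.card_fin, ← pow_mul] at k
    rw [norm_prod, ← Finset.prod_pow]
    simp only [mo_norm_cj]
    exact (le_abs_self _).trans k
  · rw [av_add, av_const, av_sum]
    simp only [av_add_right fun b => ‖u (b, A)‖ ^ (2 * R), Finset.sum_const, Finset.card_univ,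
      Fintype.card_fin, nsmul_eq_mul]

lemma mo_tags {T : Type} [AddCommGroup T] [Finite T] {e : U → I} (he : Function.Injective e)
    (f : (U → T) → ℝ) : av f = av fun tg : I → T => f (tg ∘ e) :=
  (av_surj (fun tg : I → T => tg ∘ e) (fun _ _ => rfl) he.surjective_comp_right f).symm

lemma mo_crestrict {U' : Type} [Finite U'] [Nonempty (U' ↪ I)] (j : U ↪ U')
    (f : (U ↪ I) → ℂ) : cav (fun ι : U' ↪ I => f (j.trans ι)) = cav f := by
  apply Complex.ext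
  · simp only [cav_re]; exact av_restrict j fun ι => (f ι).re
  · simp only [cav_im]; exact av_restrict j fun ι => (f ι).im

variable {k0 m s : ℕ} {τ : QT E}

/-- the sample space -/
abbrev Ow (I K : Type) (k0 m s : ℕ) : Type :=
  (Uu k0 (K ⊕ K) m s ↪ I) × (Uu k0 (K ⊕ K) m s → Tg) × Om I

/-- the function in the zero world -/
noncomputable def kw (u : OmE E I → ℂ) (ω : Ow I K k0 m s) (b : I → E) : ℂ :=
  u (b, mw ω.1 (uC0 k0 K m s) 0 ω.2.2)

lemma av_Ow (f : Ow I K k0 m s → ℝ) :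
    av f = av fun e : Uu k0 (K ⊕ K) m s ↪ I => av fun A => av fun tg : I → Tg =>
      f (e, tg ∘ e, A) := by
  rw [av_prod]
  refine av_congr fun e => ?_
  rw [av_prod, av_comm]
  exact av_congr fun A => mo_tags e.injective _

/-- a bound over tags by statistics of single pools, averaged in the zero world -/
lemma mo_avg {n : ℕ} {ε : ℝ} (h : MD n ε I) (hε0 : 0 ≤ ε) (hε : ε ≤ 1) {D : ℕ → ℝ}
    {u : OmE E I → ℂ} (hu : CT D u) (hU : Nat.card (Uu k0 (K ⊕ K) m s) ≤ n) {k : ℕ}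
    (p : Fin k × Fin s ↪ Uu k0 (K ⊕ K) m s)
    (hp : ∀ j x x', s(p (j, x), p (j, x')) ∈ uC0 k0 K m s)
    (Y : Set I → ((I → E) → ℂ) → ℝ) (q : ℕ) (hY : ∀ J k, |Y J k| ≤ av fun b => ‖k b‖ ^ q)
    {η : ℝ} (hη : (av fun ι : Fin s ↪ I => av fun A =>
      Y (Set.range ι) fun b => u (b, ow A (crd ι) 0)) ≤ η)
    (f : Ow I K k0 m s → ℝ) {a C : ℝ} (ha : 0 ≤ a) (hC : 0 ≤ C)
    (hf : ∀ e A, (av fun tg : I → Tg => f (e, tg ∘ e, A)) ≤
      a * av (fun b => ‖u (b, mw e (uC0 k0 K m s) 0 A)‖ ^ q) +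
        C * sm fun j => Y (Set.range fun i => e (p (j, i)))
          fun b => u (b, mw e (uC0 k0 K m s) 0 A)) :
    av f ≤ a * dw D q + C * (k * (η + ε * √(dw D (2 * q)))) := by
  rw [av_Ow]
  refine (av_mono fun e => av_mono fun A => hf e A).trans ?_
  simp only [av_add, av_mul_left]
  refine add_le_add (mul_le_mul_of_nonneg_left (mo_mom h hε hu hU _ _ q) ha)
    (mul_le_mul_of_nonneg_left ?_ hC)
  simp only [av_sm_comm]
  refine (sm_mono (g := fun _ => η + ε * √(dw D (2 * q))) fun j => ?_).trans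
    (le_of_eq (by rw [sm_const, Nat.card_fin]))
  refine (mo_pool h hε0 hε hu hU ((Function.Embedding.sectR j (Fin s)).trans p) (fun d => ?_)
    Y q hY).trans (add_le_add hη le_rfl)
  induction d using Sym2.ind with
  | _ x x' => exact hp j x x'

lemma mo_sb (hP : PIND τ) {n : ℕ} {ε : ℝ} (h : MD n ε I) (hε0 : 0 ≤ ε) (hε : ε ≤ 1) {D : ℕ → ℝ}
    {c : (I → E) → ℂ} (hu : CT D (fld τ c)) (hU : Nat.card (Uu k0 (K ⊕ K) m s) ≤ n) {k : ℕ}
    (p : Fin k × Fin s ↪ Uu k0 (K ⊕ K) m s)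
    (hp : ∀ j x x', s(p (j, x), p (j, x')) ∈ uC0 k0 K m s)
    {i : Fin k × Tg → Bl k0 (K ⊕ K) m} (hi : Function.Injective i)
    (hpi : ∀ (tu : Uu k0 (K ⊕ K) m s → Tg) u l,
      ubl tu u = i l ↔ ∃ y, p y = u ∧ (y.1, tu u) = l)
    {η : ℝ} (hη : SmallB τ (fld τ c) s η) {J : Set (Fin k)} {Jb : Set (Bl k0 (K ⊕ K) m)}
    (hJ : ∀ l : Fin k × Tg, l.1 ∈ J → i l ∈ Jb) {a C : ℝ} (ha : 0 ≤ a) (hC : 0 ≤ C)
    (hA : ∀ e : Fin k × Fin s → I, Function.Injective e → ∀ g : (I → E) → ℂ,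
      (∀ S : AddSubgroup E,
        av (fun tg : I → Tg => bb2 (sprH (yl e tg)) g {l | l.1 ∈ J} S (τ.perp S)) ≤
          a * av (fun b => ‖g b‖ ^ 4) +
            C * sm fun j => xb2 g (Set.range fun i => e (j, i)) S (τ.perp S)) ∧
      av (fun tg : I → Tg => bb3 (sprH (yl e tg)) g {l | l.1 ∈ J}) ≤
          a * av (fun b => ‖g b‖ ^ 8) + C * sm fun j => xb3 g (Set.range fun i => e (j, i))) :
    (∀ S : AddSubgroup E, S ≠ ⊥ → S ≠ ⊤ → av (fun ω : Ow I K k0 m s =>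
      bb2 (sprH (uPs ω.1 ω.2.1)) (kw (fld τ c) ω) Jb S (τ.perp S)) ≤
        a * dw D 4 + C * (k * (η + ε * √(dw D 8)))) ∧
    av (fun ω : Ow I K k0 m s => bb3 (sprH (uPs ω.1 ω.2.1)) (kw (fld τ c) ω) Jb) ≤
        a * dw D 8 + C * (k * (η + ε * √(dw D 16))) := by
  have rg : ∀ (e : Uu k0 (K ⊕ K) m s ↪ I) (tg : I → Tg) (S : AddSubgroup E),
      Set.range (fun t => sprH (yl (e ∘ p) tg) (sft {l | l.1 ∈ J} S t)) ⊆
        Set.range fun t => sprH (uPs e (tg ∘ e)) (sft Jb S t) := fun e tg S =>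
    mo_rangeI hi (uPs_iff e.injective tg p.injective (hpi _)) hJ S
  refine ⟨fun S h1 h2 => ?_, ?_⟩
  · refine mo_avg h hε0 hε hu hU p hp (fun J g => xb2 g J S (τ.perp S)) 4 (fun J g => ?_)
      (le_trans (le_of_eq (av_congr fun ι => mo_box2 hP c ι.injective S)) (hη.1 S h1 h2)) _ ha hC
      fun e A => ?_
    · exact (abs_of_nonneg (gb2_nonneg (ad_sft J (τ.perp S)) g (sft J S))).le.trans (gb2_le _ _ _)
    · refine le_trans (av_mono fun tg => ?_) ((hA _ (e.injective.comp p.injective) _).1 S)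
      exact gb2_anti (ad_hsft _ _ _) (ad_hsft _ _ _) (ad_hsft _ _ _) (ad_hsft _ _ _) (rg e tg _)
        (rg e tg _) _
  · refine mo_avg h hε0 hε hu hU p hp (fun J g => xb3 g J) 8 (fun J g => ?_)
      (le_trans (le_of_eq (av_congr fun ι => mo_box3 hP c ι.injective)) hη.2) _ ha hC
      fun e A => ?_
    · exact (abs_of_nonneg (gb3_nonneg (ad_sft J (⊤ : AddSubgroup E)) g
        (sft J (⊤ : AddSubgroup E)) (sft J (⊤ : AddSubgroup E)))).le.trans (gb3_le _ _ _ _)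
    · refine le_trans (av_mono fun tg => ?_) (hA _ (e.injective.comp p.injective) _).2
      exact gb3_anti (ad_hsft _ _ _) (ad_hsft _ _ _) (ad_hsft _ _ _) (ad_hsft _ _ _)
        (ad_hsft _ _ _) (ad_hsft _ _ _) (rg e tg _) (rg e tg _) (rg e tg _) _

lemma uC0_inl (x : Fin k0 × Fin s) (u : Uu k0 (K ⊕ K) m s) : s(.inl x, u) ∈ uC0 k0 K m s :=
  mem_uC0.2 ⟨fun h => (by cases h.1), fun h => by cases h.2⟩

lemma uC0_inr (a : K ⊕ K) (x x' : Fin m × Fin s) :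
    s(.inr (a, x), .inr (a, x')) ∈ uC0 k0 K m s := by
  have : ¬ (some a.isLeft = some true ∧ some a.isLeft = some false) := fun h => by
    rw [h.1] at h; cases h.2
  exact mem_uC0.2 ⟨this, this⟩

lemma mo_vr (hτ : τ.ND) {n : ℕ} {ε : ℝ} (h : MD n ε I) (hε0 : 0 ≤ ε) (hε : ε ≤ 1) {D : ℕ → ℝ}
    {c : (I → E) → ℂ} (hu : CT D (fld τ c)) (hU : Nat.card (Uu k0 (K ⊕ K) m s) ≤ n)
    [Nonempty (Uu k0 (K ⊕ K) m s ↪ I)] (hk : 1 ≤ k0) {δ : ℝ} (hδ : 0 ≤ δ)
    (hA : ∀ e : Fin k0 × Fin s → I, Function.Injective e → ∀ g : (I → E) → ℂ,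
      av (fun tg : I → Tg => n2 (prS (sprH (yl e tg)) g)) ≤ δ * n2 g +
        (1 + δ) * av fun j : Fin k0 =>
          n2 (prS (sft (Set.range fun i => e (j, i)) (⊤ : AddSubgroup E)) g)) :
    av (fun ω : Ow I K k0 m s => av fun b =>
      (av (fun t => ‖kw (fld τ c) ω (b + sprH (uPs ω.1 ω.2.1) t)‖ ^ 2) -
        √(n2 (fld τ c)) ^ 2) ^ 2) ≤
      δ * dw D 4 + (1 + δ) * (vr (fld τ c) s + ε * √(dw D 8)) - n2 (fld τ c) ^ 2 := by
  have k0p : (0 : ℝ) < k0 := Nat.cast_pos.2 hk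
  have : Nonempty (Fin k0) := ⟨⟨0, hk⟩⟩
  have e1 : ∀ ω : Ow I K k0 m s, (av fun b =>
      (av (fun t => ‖kw (fld τ c) ω (b + sprH (uPs ω.1 ω.2.1) t)‖ ^ 2) -
        √(n2 (fld τ c)) ^ 2) ^ 2) =
      n2 (prS (sprH (uPs ω.1 ω.2.1)) (sq2 (kw (fld τ c) ω))) - n2 (fld τ c) ^ 2 := fun ω => by
    have a1 : (av fun b => av fun t => ‖kw (fld τ c) ω (b + sprH (uPs ω.1 ω.2.1) t)‖ ^ 2) =
        n2 (fld τ c) := by
      rw [av_shift fun b => ‖kw (fld τ c) ω b‖ ^ 2, n2_fld hτ]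
      exact av_fld_sq hτ c _
    rw [Real.sq_sqrt (n2_nonneg _), n2_prS_sq2]
    simp only [sub_sq, av_add, av_sub, av_mul_right, av_mul_left, a1, av_const]
    ring
  simp only [e1]
  rw [av_sub, av_const]
  refine sub_le_sub_right ?_ _
  have k := mo_avg h hε0 hε hu hU Function.Embedding.inl (fun j x x' => uC0_inl _ _)
    (fun J g => n2 (prS (sft J (⊤ : AddSubgroup E)) (sq2 g))) 4 (fun J g => by
      rw [abs_of_nonneg (n2_nonneg _), ← n2_sq2]; exact n2_prS_le _ _)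
    (le_of_eq (av_congr fun ι => mo_var hτ c ι.injective))
    (fun ω => n2 (prS (sprH (uPs ω.1 ω.2.1)) (sq2 (kw (fld τ c) ω)))) hδ
    (show 0 ≤ (1 + δ) / k0 by positivity) fun e A => by
      have k1 := hA _ (e.injective.comp Sum.inl_injective)
        (sq2 fun b => fld τ c (b, mw e (uC0 k0 K m s) 0 A))
      rw [n2_sq2, av_def (α := Fin k0), Nat.card_fin, ← mul_div_assoc, mul_div_right_comm] at k1
      refine le_trans (av_mono fun tg => n2_prS_anti (ad_hom _) (ad_hom _) ?_ _) k1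
      rintro _ ⟨t, rfl⟩
      refine ⟨Sum.elim t 0, ?_⟩
      exact mo_sprI (uPs_iff e.injective tg Sum.inl_injective (ubl_inl _)) fun l hl => by
        rcases l with l | l
        · exact absurd ⟨l, rfl⟩ hl
        · rfl
  refine k.trans (le_of_eq ?_)
  rw [vr, cm]
  field_simp

lemma mo_main (hτ : τ.ND) {n : ℕ} {ε B : ℝ} (h : MD n ε I) (hε0 : 0 ≤ ε) (hε : ε ≤ 1)
    {D : ℕ → ℝ} {c : (I → E) → ℂ} (hu : CT D (fld τ c))
    (hU : Nat.card (Uu k0 (K ⊕ K) m s) ≤ n) (hn : n ≤ Nat.card I) (P P' : Om K)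
    {R : ℕ} (t : Fin R → K ⊕ K → E) (σ : Fin R → Bool) (hB : 1 + R * dw D (2 * R) ≤ B) :
    ‖(cav fun tg => cav fun Ξ => cav fun ι : (K ⊕ K) × Fin m × Fin s ↪ I =>
        cav fun x : OmE E I => ∏ r, cj (σ r) (fld τ c (x.1 + spr (t r) (plab ι tg Ξ),
          ow (ow x.2 (lft (plab ι tg Ξ)) P) (rgt (plab ι tg Ξ)) P'))) -
      cav fun ω : Ow I K k0 m s => cav fun Ξ => cav fun z => cav fun b =>
        ∏ r, cj (σ r) (tk τ (sprH (uPs ω.1 ω.2.1)) (kw (fld τ c) ω) (mix3 z (jq P P') Ξ)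
          (b + sprH (uPs ω.1 ω.2.1) (tt (t r) Ξ)))‖ ≤ 4 * (ε * √B) := by
  have := nonempty_emb (hU.trans hn)
  have e1 : (cav fun tg => cav fun Ξ => cav fun ι : (K ⊕ K) × Fin m × Fin s ↪ I =>
        cav fun x : OmE E I => ∏ r, cj (σ r) (fld τ c (x.1 + spr (t r) (plab ι tg Ξ),
          ow (ow x.2 (lft (plab ι tg Ξ)) P) (rgt (plab ι tg Ξ)) P'))) =
      cav fun tu : Uu k0 (K ⊕ K) m s → Tg => cav fun Ξ => cav fun _ : Om (Bl k0 (K ⊕ K) m) =>
        cav fun e : Uu k0 (K ⊕ K) m s ↪ I => cav fun A =>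
          mF (fld τ c) t σ (lcomp (crd e) (ual tu Ξ))
            (mw e (uCA (ual tu Ξ)) (ow 0 (ual tu Ξ) (jq P P')) A) := by
    rw [← cav_surj (fun tu : Uu k0 (K ⊕ K) m s → Tg => tu ∘ Sum.inr) (fun _ _ => rfl)
      Sum.inr_injective.surjective_comp_right]
    refine cav_congr fun tu => cav_congr fun Ξ => ?_
    rw [cav_const, ← mo_crestrict (U' := Uu k0 (K ⊕ K) m s) Function.Embedding.inr]
    refine cav_congr fun e => ?_
    rw [cav_prod, cav_comm]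
    refine cav_congr fun A => ?_
    rw [← mo_wA e.injective, ← mo_plab e.injective]
    rfl
  have e2 : (cav fun ω : Ow I K k0 m s => cav fun Ξ => cav fun z => cav fun b =>
        ∏ r, cj (σ r) (tk τ (sprH (uPs ω.1 ω.2.1)) (kw (fld τ c) ω) (mix3 z (jq P P') Ξ)
          (b + sprH (uPs ω.1 ω.2.1) (tt (t r) Ξ)))) =
      cav fun tu : Uu k0 (K ⊕ K) m s → Tg => cav fun Ξ => cav fun z : Om (Bl k0 (K ⊕ K) m) =>
        cav fun e : Uu k0 (K ⊕ K) m s ↪ I => cav fun A =>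
          mF (fld τ c) t σ (lcomp (crd e) (ual tu Ξ))
            (mw e (uC0 k0 K m s) (uPB tu z (jq P P') Ξ) A) := by
    have a : ∀ (ω : Ow I K k0 m s) Ξ z, (cav fun b =>
        ∏ r, cj (σ r) (tk τ (sprH (uPs ω.1 ω.2.1)) (kw (fld τ c) ω) (mix3 z (jq P P') Ξ)
          (b + sprH (uPs ω.1 ω.2.1) (tt (t r) Ξ)))) =
        mF (fld τ c) t σ (lcomp (crd ω.1) (ual ω.2.1 Ξ))
          (mw ω.1 (uC0 k0 K m s) (uPB ω.2.1 z (jq P P') Ξ) ω.2.2) := fun ω Ξ z =>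
      cav_congr fun b => Finset.prod_congr rfl fun r _ => by
        rw [mo_shift]
        exact congrArg _ (mo_wB hτ c ω.1.injective _ _ _ _ _ _ _)
    simp only [a]
    rw [cav_prod]
    simp only [cav_prod (α := Uu k0 (K ⊕ K) m s → Tg) (β := Om I)]
    rw [cav_comm]
    refine cav_congr fun tu => ?_
    simp only [cav_comm (α := Om I) (β := (K ⊕ K) × Fin m × Tg → Bool)]
    rw [cav_comm]
    refine cav_congr fun Ξ => ?_
    simp only [cav_comm (α := Om I) (β := Om (Bl k0 (K ⊕ K) m))]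
    rw [cav_comm]
  rw [e1, e2]
  have b0 : 0 ≤ 4 * (ε * √B) := by positivity
  refine norm_cav_sub_le b0 fun tu => norm_cav_sub_le b0 fun Ξ => norm_cav_sub_le b0 fun z => ?_
  refine mo_change h hε0 hU (ual tu Ξ) (fun u u' h1 h2 => ?_) (mF (fld τ c) t σ)
    fun R' _ hR C Pt Φ => ?_
  · obtain ⟨a, h1⟩ := Option.ne_none_iff_exists'.1 h1
    obtain ⟨a', h2⟩ := Option.ne_none_iff_exists'.1 h2
    rw [mem_uCA h1 h2, mem_uC0]
    obtain ⟨x, rfl, rfl, _⟩ := ual_some h1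
    obtain ⟨x', rfl, rfl, _⟩ := ual_some h2
    refine ⟨?_, (uPB_inr _ _ _ _ _ _).symm⟩
    simp only [uhf]
    cases x.1.isLeft <;> cases x'.1.isLeft <;> simp
  · have := nonempty_emb (hR.trans hn)
    refine (av_mono fun ι => av_mono fun A => mF_sq _ _ _ _ _).trans (le_trans ?_ hB)
    simp only [av_add, av_const, av_mul_left]
    exact add_le_add le_rfl (mul_le_mul_of_nonneg_left (mo_mom h hε hu hR _ _ _) (by positivity))

end

end NE
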