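import Pool.Agent.Lib.MP_ecee09_co.NE.CQT
import Pool.Agent.Lib.MP_ecee09_co.NE.CellT

/-! The local limit for `A x = z`, `A` a random symmetric zero-one matrix. -/

namespace NE

open SD hiding cond
open ComplexConjugate Filter Topology

variable {V G I : Type} [AddCommGroup V] [AddCommGroup G]

instance finite_hom2 [Finite V] : Finite (V →+ V →+ TT) := DFunLike.finite _

/-- characters separate points -/
lemma hom_sep [Finite V] {a : V} (h : ∀ φ : V →+ TT, φ a = 0) : a = 0 := by
  have hs : Function.Surjective fun ψ : (V ⧸ AddSubgroup.zmultiples a) →+ TT =>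
      ψ.comp (QuotientAddGroup.mk' _) := fun φ =>
    ⟨QuotientAddGroup.lift _ φ (by rintro _ ⟨k, rfl⟩; simp [h]), by ext; rfl⟩
  have h1 := Nat.card_le_card_of_surjective _ hs
  rw [card_hom, card_hom,
    AddSubgroup.card_eq_card_quotient_mul_card_addSubgroup (AddSubgroup.zmultiples a)] at h1
  have h2 : Nat.card (AddSubgroup.zmultiples a) ≤ 1 := by
    nlinarith [Nat.card_pos (α := V ⧸ AddSubgroup.zmultiples a)]
  exact AddSubgroup.zmultiples_eq_bot.1 (AddSubgroup.eq_bot_of_card_le _ h2)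

/-- the average over all tuples of characters -/
lemma cav_homs [Finite V] [Fintype I] (d : I → V) :
    cav (fun y : I → V →+ TT => ee (∑ i, y i (d i))) = (ind (d = 0) : ℝ) := by
  classical
  rw [cav_ee_add _ fun a b => by simp [Finset.sum_add_distrib]]
  refine congrArg _ (ind_congr ⟨fun h => funext fun i => hom_sep fun φ => ?_, fun h y => by
    simp [h]⟩)
  have := h (Pi.single i φ)
  rwa [Finset.sum_eq_single i (fun j _ hj => by simp [hj]) (by simp), Pi.single_eq_same] at this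

lemma exists_lam0 {X : Type} [Finite X] [Nonempty X] (f : X → TT) :
    ∃ l : ℝ, 0 < l ∧ ∀ x, f x ≠ 0 → ‖(1 + ee (f x)) / 2‖ ≤ Real.exp (-l) := by
  classical
  let g : X → ℝ := fun x => if f x = 0 then 1 / 2 else max (1 / 2) ‖(1 + ee (f x)) / 2‖
  obtain ⟨x0, h0⟩ := Finite.exists_max g
  have h1 : ∀ x, 0 < g x ∧ g x < 1 := fun x => by
    by_cases h : f x = 0
    · simp only [g, if_pos h]; norm_num
    · simp only [g, if_neg h]
      refine ⟨lt_max_of_lt_left (by norm_num), max_lt (by norm_num) ?_⟩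
      have := (norm_midpoint_lt_iff (x := (1 : ℂ)) (y := ee (f x)) (by simp)).2
        fun e => h (ee_eq_one.1 e.symm)
      rw [norm_one, norm_smul] at this
      rw [norm_div]; norm_num at this ⊢; linarith
  refine ⟨-Real.log (g x0), neg_pos.2 (Real.log_neg (h1 x0).1 (h1 x0).2), fun x hx => ?_⟩
  rw [neg_neg, Real.exp_log (h1 x0).1]
  exact le_trans (by simp only [g, if_neg hx]; exact le_max_right _ _) (h0 x)

/-- a fair bit on a pair with non zero phase damps by a fixed factor -/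
def Dmp1 (τ : QT G) (l : ℝ) : Prop :=
  ∀ (I : Type) (w : I → G) (c : Sym2 I), cz τ w c ≠ 0 → ‖(1 + ee (cz τ w c)) / 2‖ ≤ Real.exp (-l)

lemma exists_dmp1 [Finite G] (τ : QT G) : ∃ l : ℝ, 0 < l ∧ Dmp1 τ l := by
  obtain ⟨l, hl, h⟩ := exists_lam0 (Sum.elim τ.q fun p : G × G => τ.be p.1 p.2)
  refine ⟨l, hl, fun I w c => ?_⟩
  induction c using Sym2.ind with
  | _ i j =>
    by_cases e : i = j
    · subst e; rw [cz_self]; exact h (Sum.inl (w i))
    · rw [cz_ne τ _ e]; exact h (Sum.inr (w i, w j))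

lemma cav_bit (z : ℂ) : cav (fun a : F => if a = 0 then 1 else z) = (1 + z) / 2 := by
  rw [cav_eq]
  show (∑ a : Fin 2, if a = 0 then 1 else z) / _ = _
  simp [Fin.sum_univ_two]

/-- the mean phase under fair bits off the planted pairs -/
lemma norm_cav_ph_le [Finite I] {τ : QT G} {l : ℝ} (h : Dmp1 τ l) (w : I → G)
    (Sp : Set (Sym2 I)) (P : Om I) (T : Finset (Sym2 I)) (hT : ∀ c ∈ T, c ∉ Sp ∧ cz τ w c ≠ 0) :
    ‖cav fun A : Om I => ph τ w (mixS Sp P A)‖ ≤ Real.exp (-l * T.card) := by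
  classical
  let _ := Fintype.ofFinite I
  have e : (cav fun A : Om I => ph τ w (mixS Sp P A)) = ∏ c, cav fun a : F =>
      if (if c ∈ Sp then P c else a) = 0 then 1 else ee (cz τ w c) := by
    rw [prod_cav]
    refine cav_congr fun A => ?_
    rw [ph_eq_prod]
    refine Finset.prod_congr rfl fun c _ => ?_
    by_cases hc : c ∈ Sp
    · rw [mix_mem _ _ hc, if_pos hc]
    · rw [mix_not_mem _ _ hc, if_neg hc]
  rw [e, norm_prod, mul_comm, Real.exp_nat_mul, ← Finset.prod_const,
    ← Finset.prod_mul_prod_compl T]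
  refine (mul_le_of_le_one_right (Finset.prod_nonneg fun _ _ => norm_nonneg _)
    (Finset.prod_le_one (fun _ _ => norm_nonneg _) fun c _ =>
      norm_cav_le_const zero_le_one fun a => ?_)).trans
    (Finset.prod_le_prod (fun _ _ => norm_nonneg _) fun c hc => ?_)
  · split_ifs <;> simp
  · simp only [if_neg (hT c hc).1, cav_bit]
    exact h I w c (hT c hc).2

/-- rows `X` with many damping partners -/
lemma norm_cav_ph_rows [Finite I] {τ : QT G} {l : ℝ} (hl : 0 < l) (h : Dmp1 τ l) (w : I → G)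
    {U : Set I} {Sp : Set (Sym2 I)} (hS : ∀ c ∈ Sp, ∀ i ∈ c, i ∈ U) (P : Om I) (X : Set I) {b : ℝ}
    (hX : ∀ i ∈ X, b + X.ncard + U.ncard ≤ {j | τ.be (w i) (w j) ≠ 0 ∨ j ∈ X}.ncard) :
    ‖cav fun A : Om I => ph τ w (mixS Sp P A)‖ ≤ Real.exp (-l * (b * X.ncard)) := by
  classical
  let _ := Fintype.ofFinite I
  let S : I → Finset I := fun i => ({j | τ.be (w i) (w j) ≠ 0 ∨ j ∈ X} \ (X ∪ U)).toFinset
  have hm : ∀ i j, j ∈ S i → τ.be (w i) (w j) ≠ 0 ∧ j ∉ X ∧ j ∉ U := fun i j hj => by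
    obtain ⟨h1, h2⟩ := Set.mem_toFinset.1 hj
    exact ⟨h1.resolve_right fun h => h2 (Or.inl h), fun h => h2 (Or.inl h), fun h => h2 (Or.inr h)⟩
  have hc : ∀ i ∈ X, b ≤ (S i).card := fun i hi => by
    have h3 := hX i hi
    rw [← Set.ncard_eq_toFinset_card']
    generalize {j | τ.be (w i) (w j) ≠ 0 ∨ j ∈ X} = Y at h3 ⊢
    have h1 := Set.le_ncard_sdiff (X ∪ U) Y
    have h2 := Set.ncard_union_le X U
    have h4 : (Y.ncard : ℝ) ≤ X.ncard + U.ncard + (Y \ (X ∪ U)).ncard := by
      exact_mod_cast (by omega)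
    linarith
  refine (norm_cav_ph_le h w Sp P ((X.toFinset.sigma S).image fun p => s(p.1, p.2))
    fun c hc => ?_).trans (Real.exp_le_exp.2 (mul_le_mul_of_nonpos_left ?_ (by linarith)))
  · obtain ⟨p, hp, rfl⟩ := Finset.mem_image.1 hc
    rw [Finset.mem_sigma, Set.mem_toFinset] at hp
    obtain ⟨h1, h2, h3⟩ := hm _ _ hp.2
    exact ⟨fun hs => h3 (hS _ hs _ (by simp)), by
      rw [cz_ne τ _ fun e : p.1 = p.2 => h2 (e ▸ hp.1)]; exact h1⟩
  · rw [Finset.card_image_of_injOn, Finset.card_sigma, Set.ncard_eq_toFinset_card', mul_comm,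
      ← nsmul_eq_mul, ← Finset.sum_const]
    · push_cast
      exact Finset.sum_le_sum fun i hi => hc i (Set.mem_toFinset.1 hi)
    · rintro ⟨i, j⟩ hp ⟨i', j'⟩ hp' e
      rw [Finset.mem_coe, Finset.mem_sigma, Set.mem_toFinset] at hp hp'
      rcases Sym2.eq_iff.1 e with ⟨rfl, rfl⟩ | ⟨rfl, rfl⟩
      · rfl
      · exact absurd hp.1 (hm _ _ hp'.2).2.1

/-- the hyperbolic type on `V x V^` -/
def hyp (V : Type) [AddCommGroup V] : QT (V × (V →+ TT)) where
  q g := g.2 g.1
  be := AddMonoidHom.mk' (fun g => AddMonoidHom.mk' (fun g' => g.2 g'.1 + g'.2 g.1)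
    fun a b => by simp only [Prod.fst_add, Prod.snd_add, map_add, AddMonoidHom.add_apply]; abel)
    fun a b => AddMonoidHom.ext fun c => by
      simp only [Prod.fst_add, Prod.snd_add, map_add, AddMonoidHom.add_apply,
        AddMonoidHom.mk'_apply]; abel
  q_add a b := by
    simp only [Prod.fst_add, Prod.snd_add, map_add, AddMonoidHom.add_apply,
      AddMonoidHom.mk'_apply]; abel

lemma hyp_be (g g' : V × (V →+ TT)) : (hyp V).be g g' = g.2 g'.1 + g'.2 g.1 := rfl

lemma th_hyp [Fintype I] (x : I → V) (y : I → V →+ TT) (A : Om I) :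
    th (hyp V) (fun i => (x i, y i)) A = ∑ i, y i (adj A x i) := by
  have h := th_add (hyp V) (fun i => (0, y i)) (fun i => (x i, 0)) A
  have z : ∀ w : I → V × (V →+ TT), (∀ i j, (w i).2 (w j).1 = 0) → th (hyp V) w A = 0 :=
    fun w hw => finsum_eq_zero_of_forall_eq_zero fun c => by
      induction c using Sym2.ind with
      | _ i j =>
        by_cases e : i = j
        · subst e; rw [cz_self, show (hyp V).q (w i) = 0 from hw i i, smul_zero]
        · rw [cz_ne _ _ e, hyp_be, hw, hw, add_zero, smul_zero]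
  rw [z (fun i => (0, y i)) fun _ _ => map_zero _, z (fun i => (x i, 0)) fun _ _ => rfl,
    zero_add, zero_add, brk_eq] at h
  rw [show (fun i => (x i, y i)) = (fun i => ((0 : V), y i)) + fun i => (x i, 0) from
    funext fun i => by simp, h]
  refine Finset.sum_congr rfl fun i _ => ?_
  simp [hyp_be, adj_eq]

/-- an isotropic set that generates `V` lies on the graph of a skew map -/
lemma p1_graph (Q : Set (V × (V →+ TT))) (hQ : ∀ g ∈ Q, ∀ g' ∈ Q, (hyp V).be g g' = 0)
    (hs : ∀ S : AddSubgroup V, (∀ g ∈ Q, g.1 ∈ S) → S = ⊤) :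
    ∃ μ : V →+ V →+ TT, (∀ a b, μ a b + μ b a = 0) ∧ ∀ g ∈ Q, g.2 = μ g.1 := by
  have h1 : ∀ g ∈ AddSubgroup.closure Q, ∀ g' ∈ AddSubgroup.closure Q, (hyp V).be g g' = 0 :=
    fun g hg g' hg' => (AddSubgroup.closure_le ((hyp V).be g).ker).2 (fun k hk =>
      (AddSubgroup.closure_le ((hyp V).be.flip k).ker).2 (fun k' hk' => hQ k' hk' k hk) hg) hg'
  have h2 := hs ((AddSubgroup.closure Q).map (AddMonoidHom.fst _ _)) fun g hg =>
    ⟨g, AddSubgroup.subset_closure hg, rfl⟩
  have h3 : ∀ a : V, ∃ φ, (a, φ) ∈ AddSubgroup.closure Q := fun a => by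
    obtain ⟨g, hg, e⟩ : a ∈ (AddSubgroup.closure Q).map (AddMonoidHom.fst _ _) := by
      rw [h2]; trivial
    exact ⟨g.2, by rw [← e]; exact hg⟩
  choose m hm using h3
  have h4 : ∀ g ∈ AddSubgroup.closure Q, g.2 = m g.1 := fun g hg => AddMonoidHom.ext fun b => by
    simpa [hyp_be, sub_eq_zero] using h1 _ (sub_mem hg (hm g.1)) _ (hm b)
  exact ⟨AddMonoidHom.mk' m fun a b => (h4 _ (add_mem (hm a) (hm b))).symm,
    fun a b => h1 _ (hm a) _ (hm b), fun g hg => h4 g (AddSubgroup.subset_closure hg)⟩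

open Classical in
/-- the weight of a tuple of characters near the graph of `mu` -/
noncomputable def p1B [Fintype I] (r : ℝ) (x : I → V) (μ : V →+ V →+ TT) (y : I → V →+ TT) : ℝ :=
  (∏ i, if y i = μ (x i) then 1 else r) - (1 - r) * ind (y = fun i => μ (x i))

lemma p1B_nonneg [Fintype I] {r : ℝ} (hr : 0 ≤ r) (x : I → V) (μ : V →+ V →+ TT)
    (y : I → V →+ TT) : 0 ≤ p1B r x μ y := by
  unfold p1B
  by_cases h : y = fun i => μ (x i)
  · rw [ind_pos h, h]; simpa using hr
  · rw [ind_neg h, mul_zero, sub_zero]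
    exact Finset.prod_nonneg fun i _ => by split_ifs <;> positivity

lemma sm_p1B [Finite V] [Fintype I] {r : ℝ} (hr : 0 ≤ r) (x : I → V) (μ : V →+ V →+ TT) :
    sm (p1B r x μ) ≤ Real.exp (Nat.card V * (Nat.card I * r)) - 1 + r := by
  classical
  unfold p1B
  rw [sm_sub, sm_mul_left, sm_ind_one,
    ← prod_sm fun i (φ : V →+ TT) => if φ = μ (x i) then 1 else r]
  have h : ∀ i, (sm fun φ : V →+ TT => if φ = μ (x i) then 1 else r) ≤
      Real.exp (Nat.card V * r) := fun i => by
    refine le_trans (sm_mono (g := fun φ => ind (φ = μ (x i)) + r) fun φ => ?_) ?_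
    · rw [ind_eq]; split_ifs <;> linarith
    · rw [sm_add, sm_ind_one, sm_const, card_hom, add_comm]; exact Real.add_one_le_exp _
  have := Finset.prod_le_prod (s := Finset.univ)
    (fun i _ => sm_nonneg fun φ : V →+ TT => by split_ifs <;> positivity) fun i _ => h i
  rw [Finset.prod_const, Finset.card_univ, ← Real.exp_nat_mul, ← Nat.card_eq_fintype_card,
    mul_left_comm] at this
  linarith

/-- the pointwise bound off the alternating graphs -/
lemma p1_point [Finite V] [Fintype I] {l b : ℝ} (hl : 0 < l) (h : Dmp1 (hyp V) l) {x : I → V}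
    (hx : ∀ S : AddSubgroup V, S ≠ ⊤ →
      8 * Nat.card (V × (V →+ TT)) * b ≤ {i | x i ∉ S}.ncard)
    {U : Set I} (hU : U.ncard + 1 ≤ b) {Sp : Set (Sym2 I)} (hS : ∀ c ∈ Sp, ∀ i ∈ c, i ∈ U)
    (P : Om I) {y : I → V →+ TT}
    (hy : ¬ ∃ μ : V →+ V →+ TT, (∀ a, μ a a = 0) ∧ (fun i => μ (x i)) = y) :
    ‖cav fun A : Om I => ph (hyp V) (fun i => (x i, y i)) (mixS Sp P A)‖ ≤
      Real.exp (-l * b ^ 2) + sm fun μ => p1B (Real.exp (-l * b)) x μ y := by
  classical
  set w : I → V × (V →+ TT) := fun i => (x i, y i) with hw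
  set N : ℝ := ((Nat.card (V × (V →+ TT)) : ℕ) : ℝ) with hN
  have hN1 : 1 ≤ N := by rw [hN]; exact_mod_cast Nat.card_pos
  have hu : (0 : ℝ) ≤ U.ncard := Nat.cast_nonneg _
  have hb : 1 ≤ b := by linarith
  have hNb : b ≤ N * b := le_mul_of_one_le_left (by linarith) hN1
  have h0 := p1B_nonneg (Real.exp_pos (-l * b)).le x (y := y)
  let Q : Set (V × (V →+ TT)) := {g | 4 * b ≤ {i | w i = g}.ncard}
  have hQ : ({i | w i ∉ Q}.ncard : ℝ) ≤ N * (4 * b) := by
    rw [← cnt_eq_ncard, cnt, sm_fiber w, hN, ← sm_const]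
    refine sm_mono fun g => ?_
    by_cases hg : g ∈ Q
    · rw [sm_congr (g := fun _ => 0) fun i => ?_, sm_zero]; · linarith
      by_cases e : w i = g
      · rw [ind_neg (p := i ∈ {i | w i ∉ Q}) fun k => k (e ▸ hg), mul_zero]
      · rw [ind_neg e, zero_mul]
    · refine le_trans ?_ (not_le.1 hg).le
      rw [← cnt_eq_ncard]
      exact sm_mono fun i => mul_le_of_le_one_right (ind_nonneg _) (ind_le_one _)
  by_cases h1 : ∀ g ∈ Q, ∀ g' ∈ Q, (hyp V).be g g' = 0
  · obtain ⟨μ, hμ, hg⟩ := p1_graph Q h1 fun S hS' => by_contra fun hne => by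
      have := Set.ncard_le_ncard (s := {i | x i ∉ S}) (t := {i | w i ∉ Q})
        fun i hi k => hi (hS' _ k)
      have h3 := (hx S hne).trans (Nat.cast_le.2 this)
      linarith
    refine le_add_of_nonneg_of_le (Real.exp_pos _).le (le_trans ?_ (single_le_sm h0 μ))
    unfold p1B
    by_cases e : y = fun i => μ (x i)
    · let ν : V →+ TT := AddMonoidHom.mk' (fun a => μ a a) fun a c => by
        simp only [map_add, AddMonoidHom.add_apply]
        rw [add_assoc, ← add_assoc (μ c a), add_comm (μ c a), hμ, zero_add]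
      have h3 := hx ν.ker fun k => hy ⟨μ, fun a => (AddSubgroup.eq_top_iff' _).1 k a, e.symm⟩
      generalize hY : {i | x i ∉ ν.ker} = Y at h3
      have h4 := Set.le_ncard_sdiff U Y
      have h5 : (Y.ncard : ℝ) ≤ U.ncard + (Y \ U).ncard := by exact_mod_cast (by omega)
      rw [ind_pos e, Finset.prod_eq_one fun i _ => if_pos (congrFun e i)]
      refine (norm_cav_ph_le h w Sp P ((Y \ U).toFinset.image fun i => s(i, i))
        fun c hc => ?_).trans ?_
      · obtain ⟨i, hi, rfl⟩ := Finset.mem_image.1 hc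
        obtain ⟨k1, k2⟩ := Set.mem_toFinset.1 hi
        rw [← hY] at k1
        exact ⟨fun k => k2 (hS _ k _ (by simp)), by
          rw [cz_self]; show y i (x i) ≠ 0; rw [congrFun e i]; exact k1⟩
      · rw [Finset.card_image_of_injective _ fun i j k => by simpa using k,
          ← Set.ncard_eq_toFinset_card']
        refine le_trans (Real.exp_le_exp.2 (mul_le_mul_of_nonpos_left (b := b) ?_ ?_)) ?_ <;>
          linarith
    · have h3 := (Nat.cast_le (α := ℝ)).2 (Set.ncard_le_ncard (s := {i | y i ≠ μ (x i)})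
        (t := {i | w i ∉ Q}) fun i hi k => hi (hg _ k))
      rw [ind_neg e, mul_zero, sub_zero]
      refine (norm_cav_ph_rows hl h w hS P {i | y i ≠ μ (x i)} (b := b) fun i hi => ?_).trans
        (le_of_eq ?_)
      · have h4 := (hx (y i - μ (x i)).ker fun k => hi (sub_eq_zero.1 (AddMonoidHom.ext fun a =>
          (AddSubgroup.eq_top_iff' _).1 k a))).trans ((Nat.cast_le (α := ℝ)).2
          (Set.ncard_le_ncard
            (t := {j | (hyp V).be (w i) (w j) ≠ 0 ∨ j ∈ {i | y i ≠ μ (x i)}}) fun j hj => ?_))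
        · linarith
        refine or_iff_not_imp_right.2 fun k k' => hj ?_
        rw [hyp_be, show (w j).2 = μ (x j) from not_not.1 k] at k'
        show y i (x j) - μ (x i) (x j) = 0
        exact sub_eq_zero.2 (add_right_cancel (k'.trans (hμ (x i) (x j)).symm))
      · rw [← mul_assoc, mul_comm, Real.exp_nat_mul, Finset.prod_ite, Finset.prod_const_one,
          one_mul, Finset.prod_const, Set.ncard_eq_toFinset_card', Set.toFinset_ofPred]
  · push Not at h1
    obtain ⟨g, hg, g', hg', hne⟩ := h1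
    have hk := (Nat.ceil_lt_add_one (by linarith : 0 ≤ b)).le
    obtain ⟨X, hX, hc⟩ := Set.exists_subset_card_eq (s := {i | w i = g}) (n := ⌈b⌉₊)
      ((Nat.cast_le (α := ℝ)).1 (le_trans (by linarith) hg))
    refine le_add_of_le_of_nonneg ((norm_cav_ph_rows hl h w hS P X (b := b) fun i hi => ?_).trans
      (Real.exp_le_exp.2 (mul_le_mul_of_nonpos_left ?_ (by linarith)))) (sm_nonneg h0)
    · refine le_trans ?_ (le_trans hg' ((Nat.cast_le (α := ℝ)).2 (Set.ncard_le_ncard
        fun j hj => Or.inl (by rw [hX hi, show w j = g' from hj]; exact hne))))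
      rw [hc]; linarith
    · rw [hc, sq]; exact mul_le_mul_of_nonneg_left (Nat.le_ceil b) (by linarith)

lemma p1_lim {l ε : ℝ} (hl : 0 < l) (hε : 0 < ε) (c N : ℝ) (hc : 0 < c) :
    Tendsto (fun n : ℕ => c ^ n * Real.exp (-l * (ε * n) ^ 2) +
      N * (Real.exp (c * (n * Real.exp (-l * (ε * n)))) - 1 + Real.exp (-l * (ε * n))))
      atTop (𝓝 0) := by
  have hn := tendsto_natCast_atTop_atTop (R := ℝ)
  have h1 : Tendsto (fun n : ℕ => (n : ℝ) * Real.exp (-l * (ε * n))) atTop (𝓝 0) := by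
    simpa [Function.comp_def, mul_assoc] using
      (tendsto_rpow_mul_exp_neg_mul_atTop_nhds_zero 1 _ (mul_pos hl hε)).comp hn
  have h2 : Tendsto (fun n : ℕ => Real.exp (-l * (ε * n))) atTop (𝓝 0) :=
    Real.tendsto_exp_atBot.comp ((hn.const_mul_atTop hε).const_mul_atTop_of_neg (by linarith))
  have h3 : Tendsto (fun n : ℕ => c ^ n * Real.exp (-l * (ε * n) ^ 2)) atTop (𝓝 0) := by
    have := Real.tendsto_exp_atBot.comp (hn.atTop_mul_atBot₀ (tendsto_atBot_add_const_left _
      (Real.log c) (hn.const_mul_atTop_of_neg (r := -l * ε ^ 2) (by nlinarith [sq_pos_of_pos hε]))))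
    refine this.congr fun n => ?_
    rw [Function.comp_apply, mul_add, Real.exp_add, Real.exp_nat_mul, Real.exp_log hc]
    congr 2; ring
  have h4 := (Real.continuous_exp.tendsto _).comp (h1.const_mul c)
  simpa [Function.comp_def] using h3.add (((h4.sub_const 1).add h2).const_mul N)

/-- the local limit -/
theorem p1c (V : Type) [AddCommGroup V] [Finite V] {γ : ℝ} (hγ : 0 < γ) (u : ℕ) {θ : ℝ}
    (hθ : 0 < θ) : ∃ s0 : ℕ, ∀ (I : Type) [Finite I], s0 ≤ Nat.card I → ∀ x z : I → V,
      (∀ S : AddSubgroup V, S ≠ ⊤ → γ * Nat.card I ≤ {i | x i ∉ S}.ncard) →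
      ∀ U : Set I, U.ncard ≤ u → ∀ (Sp : Set (Sym2 I)) (P : Om I), (∀ c ∈ Sp, ∀ i ∈ c, i ∈ U) →
        ‖(((Nat.card V : ℝ) ^ Nat.card I * av fun A => ind (adj (mixS Sp P A) x = z) : ℝ) : ℂ) -
          csm fun μ : V →+ V →+ TT =>
            (ind (∀ a, μ a a = 0) : ℝ) * ee (∑ᶠ i, μ (x i) (z i))‖ ≤ θ := by
  obtain ⟨l, hl, h⟩ := exists_dmp1 (hyp V)
  have hN := card_pos' (α := V × (V →+ TT))
  have hε : 0 < γ / (8 * Nat.card (V × (V →+ TT))) := by positivity
  obtain ⟨s0, hs⟩ := eventually_atTop.1 (((p1_lim hl hε _ (Nat.card (V →+ V →+ TT))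
    (card_pos' (α := V))).eventually (ge_mem_nhds hθ)).and
    (((tendsto_natCast_atTop_atTop (R := ℝ)).const_mul_atTop hε).eventually_ge_atTop (u + 1)))
  refine ⟨s0, fun I _ hI x z hx U hU Sp P hS => ?_⟩
  obtain ⟨h1, h2⟩ := hs _ hI
  let _ := Fintype.ofFinite I
  let W : (I → V →+ TT) → ℂ := fun y =>
    cav fun A : Om I => ph (hyp V) (fun i => (x i, y i)) (mixS Sp P A)
  let M : (I → V →+ TT) → Prop := fun y =>
    ∃ μ : V →+ V →+ TT, (∀ a, μ a a = 0) ∧ (fun i => μ (x i)) = y
  have hn : (0 : ℝ) < Nat.card I := by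
    by_contra k
    have := mul_nonpos_of_nonneg_of_nonpos hε.le (not_lt.1 k)
    linarith [Nat.cast_nonneg (α := ℝ) u]
  have e1 : (((Nat.card V : ℝ) ^ Nat.card I * av fun A => ind (adj (mixS Sp P A) x = z) : ℝ) : ℂ) =
      csm fun y => ee (∑ i, y i (z i)) * conj (W y) := by
    simp only [W, conj_cav, ← cav_mul_left, ph, th_hyp, ← ee_sub, ← Finset.sum_sub_distrib,
      ← map_sub]
    rw [← cav_csm_comm, Complex.ofReal_mul, ← cav_ofReal, ← cav_mul_left]
    refine cav_congr fun A => ?_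
    rw [csm_eq_card_mul_cav, cav_homs fun i => z i - adj (mixS Sp P A) x i, Nat.card_fun, card_hom,
      ind_congr (p := (fun i => z i - adj (mixS Sp P A) x i) = 0) (q := adj (mixS Sp P A) x = z)
        (sub_eq_zero.trans eq_comm)]
    push_cast; rfl
  have e2 : (csm fun μ : V →+ V →+ TT => (ind (∀ a, μ a a = 0) : ℝ) * ee (∑ᶠ i, μ (x i) (z i))) =
      csm fun y => (ind (M y) : ℝ) * (ee (∑ i, y i (z i)) * conj (W y)) := by
    rw [csm_fiber fun (μ : V →+ V →+ TT) i => μ (x i)]
    refine csm_congr fun y => ?_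
    by_cases hy : M y
    · obtain ⟨μ, hμ, rfl⟩ := id hy
      have hW : W (fun i => μ (x i)) = 1 := by
        refine (cav_congr fun A => ?_).trans (cav_const 1)
        rw [ph, th, finsum_eq_zero_of_forall_eq_zero fun c => ?_, ee_zero]
        induction c using Sym2.ind with
        | _ i j =>
          by_cases e : i = j
          · subst e; rw [cz_self, show (hyp V).q _ = 0 from hμ _, smul_zero]
          · have := hμ (x i + x j)
            simp only [map_add, AddMonoidHom.add_apply, hμ, zero_add, add_zero] at this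
            rw [cz_ne _ _ e, hyp_be, add_comm, this, smul_zero]
      have hi : ∀ μ' : V →+ V →+ TT, ((fun i => μ' (x i)) = fun i => μ (x i)) ↔ μ' = μ :=
        fun μ' => ⟨fun k => by_contra fun k' => by
          have := hx (μ' - μ).ker fun k2 => k' (sub_eq_zero.1 (AddMonoidHom.ext fun a =>
            (AddSubgroup.eq_top_iff' _).1 k2 a))
          rw [show {i | x i ∉ (μ' - μ).ker} = ∅ from Set.eq_empty_of_forall_notMem fun i hi =>
            hi (sub_eq_zero.2 (congrFun k i)), Set.ncard_empty, Nat.cast_zero] at this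
          nlinarith, fun k => by rw [k]⟩
      simp only [hi]
      rw [csm_ind_eq, ind_pos hμ, ind_pos hy, hW, map_one, mul_one, finsum_eq_sum_of_fintype]
    · rw [ind_neg hy, Complex.ofReal_zero, zero_mul, ← csm_zero (α := V →+ V →+ TT)]
      refine csm_congr fun μ => ?_
      rw [← mul_assoc, ← Complex.ofReal_mul, ← ind_and, ind_neg fun k => hy ⟨μ, k.2, k.1⟩]
      simp
  rw [e1, e2, ← csm_sub]
  set b : ℝ := γ / (8 * Nat.card (V × (V →+ TT))) * Nat.card I with hb
  refine (norm_csm_le _).trans (le_trans (sm_mono (g := fun y => Real.exp (-l * b ^ 2) +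
    sm fun μ => p1B (Real.exp (-l * b)) x μ y) fun y => ?_) (le_trans ?_ h1))
  · by_cases hy : M y
    · rw [ind_pos hy, Complex.ofReal_one, one_mul, sub_self, norm_zero]
      exact add_nonneg (Real.exp_pos _).le
        (sm_nonneg fun μ => p1B_nonneg (Real.exp_pos _).le x μ y)
    · rw [ind_neg hy, Complex.ofReal_zero, zero_mul, sub_zero, norm_mul, norm_ee, one_mul,
        Complex.norm_conj]
      refine p1_point hl h (fun S hS' => le_trans (le_of_eq ?_) (hx S hS'))
        (le_trans (by exact_mod_cast Nat.succ_le_succ hU) h2) hS P hy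
      rw [hb]; field_simp
  · rw [sm_add, sm_const, sm_comm, Nat.card_fun, card_hom]
    push_cast
    exact add_le_add le_rfl
      ((sm_mono fun μ => sm_p1B (Real.exp_pos _).le x μ).trans (sm_const _).le)

end NE
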