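import Pool.Agent.Lib.MP_ecee09_co.NE.CBase
import Pool.Agent.Lib.MP_ecee09_co.NE.Defs3

/-! Abstract analytic part of the degenerate case (PA): labelled parts of a function. -/

set_option linter.unusedSectionVars false

namespace NE

open SD hiding F
open ComplexConjugate

section orth
variable {A Λ Y : Type} [AddCommGroup A] [Finite A] [Finite Λ] [Finite Y] [Nonempty Y]

lemma pa_cshift (f : A → ℂ) (s : Y → A) : cav (fun x => cav fun o => f (x + s o)) = cav f := by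
  rw [cav_comm]; simp only [cav_add_right]; exact cav_const _

/-- parts with different labels are orthogonal -/
lemma pa_orth (i : Y → A) (χ : Λ → Y → ℂ)
    (hχ : ∀ v w, cav (fun y => χ v y * conj (χ w y)) = (ind (v = w) : ℝ)) (f g : Λ → A → ℂ)
    (hf : ∀ v a y, f v (a + i y) = f v a * χ v y) (hg : ∀ v a y, g v (a + i y) = g v a * χ v y) :
    ip (fun a => csm fun v => f v a) (fun a => csm fun w => g w a) =
      csm fun v => ip (f v) (g v) := by
  have h1 : ∀ v w, ip (f v) (g w) = (ind (v = w) : ℝ) * ip (f v) (g w) := by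
    intro v w
    conv_lhs => rw [ip, ← pa_cshift (fun a => f v a * conj (g w a)) i]
    rw [ip, ← cav_mul_left]
    refine cav_congr fun a => ?_
    have : ∀ y, f v (a + i y) * conj (g w (a + i y)) =
        (f v a * conj (g w a)) * (χ v y * conj (χ w y)) := fun y => by
      rw [hf, hg, map_mul]; ring
    rw [cav_congr this, cav_mul_left, hχ]; ring
  rw [ip_csm_left]
  refine csm_congr fun v => ?_
  rw [ip_csm_right, csm_congr (h1 v)]
  exact csm_ind_eq' v fun w => ip (f v) (g w)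

lemma pa_orth2 (i : Y → A) (χ : Λ → Y → ℂ)
    (hχ : ∀ v w, cav (fun y => χ v y * conj (χ w y)) = (ind (v = w) : ℝ)) (f : Λ → A → ℂ)
    (hf : ∀ v a y, f v (a + i y) = f v a * χ v y) :
    n2 (fun a => csm fun v => f v a) = sm fun v => n2 (f v) := by
  rw [← ip_self_re, pa_orth i χ hχ f f hf hf, csm_re]
  exact sm_congr fun v => ip_self_re _

omit [Finite A] in
/-- the sum of the squares of the parts -/
lemma pa_sumsq (i : Y → A) (χ : Λ → Y → ℂ)
    (hχ : ∀ v w, cav (fun y => χ v y * conj (χ w y)) = (ind (v = w) : ℝ)) (f : Λ → A → ℂ)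
    (hf : ∀ v a y, f v (a + i y) = f v a * χ v y) (a : A) :
    sm (fun v => ‖f v a‖ ^ 2) = av fun y => ‖csm fun v => f v (a + i y)‖ ^ 2 := by
  have h1 : ∀ v w, ip (fun y => f v (a + i y)) (fun y => f w (a + i y)) =
      (ind (v = w) : ℝ) * (f v a * conj (f w a)) := fun v w => by
    simp only [hf]
    rw [ip_mul_left, ip_mul_right, ip, hχ]; ring
  change _ = n2 fun y => csm fun v => f v (a + i y)
  rw [← ip_self_re, ip_csm_left, csm_re]
  refine sm_congr fun v => ?_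
  rw [ip_csm_right, csm_congr (h1 v), csm_ind_eq' v fun w => f v a * conj (f w a), mul_conj'',
    Complex.ofReal_re]

variable {B : Type} [AddCommGroup B] [Finite B]

/-- the box form of a sum of labelled parts -/
lemma pa_box_fix (i : Y → A) (j : Y → B) (χ : Λ → Y → ℂ)
    (hχ : ∀ v w, cav (fun y => χ v y * conj (χ w y)) = (ind (v = w) : ℝ)) (f : Λ → A → B → ℂ)
    (h1 : ∀ v a b y, f v (a + i y) b = f v a b * χ v y)
    (h2 : ∀ v a b y, f v a (b + j y) = f v a b * χ v y) :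
    av (fun a' => av fun a =>
      ‖ip (fun b => csm fun v => f v a b) fun b => csm fun v => f v a' b‖ ^ 2) ≤
      sm fun v => (av fun a => n2 (f v a)) ^ 2 := by
  have e1 : ∀ a a', ip (fun b => csm fun v => f v a b) (fun b => csm fun v => f v a' b) =
      csm fun v => ip (f v a) (f v a') := fun a a' =>
    pa_orth j χ hχ (fun v b => f v a b) (fun v b => f v a' b) (fun v b y => h2 v a b y)
      (fun v b y => h2 v a' b y)
  have e2 : ∀ a', av (fun a =>
      ‖ip (fun b => csm fun v => f v a b) fun b => csm fun v => f v a' b‖ ^ 2) =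
      sm fun v => av fun a => ‖ip (f v a) (f v a')‖ ^ 2 := by
    intro a'
    simp only [e1]
    refine pa_orth2 i χ hχ (fun v a => ip (f v a) (f v a')) fun v a y => ?_
    rw [mul_comm, ← ip_mul_left]
    exact congrArg (ip · _) (funext fun b => by rw [h1, mul_comm])
  rw [av_congr e2, av_sm_comm]
  refine sm_mono fun v => ?_
  rw [sq, av_mul_av]
  refine av_mono fun a' => av_mono fun a => ?_
  rw [mul_comm]
  exact norm_ip_sq_le _ _

end orth

section core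
variable {X Λ Y H1 H2 : Type} [AddCommGroup X] [Finite X] [Finite Λ] [Finite Y] [Nonempty Y]
  [AddCommGroup H1] [Finite H1] [AddCommGroup H2] [Finite H2]

/-- the energy of the part `v` near `M` -/
noncomputable def paE (s1 : H1 → X) (s2 : H2 → X) (Kv : Λ → X → ℂ) (v : Λ) (M : X) : ℝ :=
  av fun a => av fun b => ‖Kv v (M + s1 a + s2 b)‖ ^ 2

/-- the data of a labelled decomposition -/
structure PaD (s1 : H1 → X) (s2 : H2 → X) (t : Y → X) (χ : Λ → Y → ℂ) (Kv : Λ → X → ℂ) :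
    Prop where
  a1 : ∀ a a', s1 (a + a') = s1 a + s1 a'
  a2 : ∀ b b', s2 (b + b') = s2 b + s2 b'
  t1 : ∀ y, ∃ a, s1 a = t y
  t2 : ∀ y, ∃ b, s2 b = t y
  orth : ∀ v w, cav (fun y => χ v y * conj (χ w y)) = (ind (v = w) : ℝ)
  one : ∀ v y, ‖χ v y‖ = 1
  cov : ∀ v M y, Kv v (M + t y) = Kv v M * χ v y

variable {s1 : H1 → X} {s2 : H2 → X} {t : Y → X} {χ : Λ → Y → ℂ} {Kv : Λ → X → ℂ}

lemma paE_nonneg (v : Λ) (M : X) : 0 ≤ paE s1 s2 Kv v M :=
  av_nonneg fun _ => av_nonneg fun _ => sq_nonneg _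

lemma PaD.e_shift (h : PaD s1 s2 t χ Kv) (v : Λ) (M : X) (a : H1) (b : H2) :
    paE s1 s2 Kv v (M + s1 a + s2 b) = paE s1 s2 Kv v M := by
  unfold paE
  rw [← av_add_left (fun a' => av fun b' => ‖Kv v (M + s1 a' + s2 b')‖ ^ 2) a]
  refine av_congr fun a' => ?_
  rw [← av_add_left (fun b' => ‖Kv v (M + s1 (a + a') + s2 b')‖ ^ 2) b]
  refine av_congr fun b' => ?_
  rw [h.a1, h.a2]
  congr 3
  abel

lemma PaD.e_t (h : PaD s1 s2 t χ Kv) (v : Λ) (M : X) (y : Y) :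
    paE s1 s2 Kv v (M + t y) = paE s1 s2 Kv v M := by
  unfold paE
  refine av_congr fun a => av_congr fun b => ?_
  rw [show M + t y + s1 a + s2 b = M + s1 a + s2 b + t y by abel, h.cov, norm_mul, h.one, mul_one]

/-- averaging over the two shifts -/
lemma pa_shift2 (s1 : H1 → X) (s2 : H2 → X) (f : X → ℝ) :
    av (fun M => av fun a => av fun b => f (M + s1 a + s2 b)) = av f := by
  rw [← av_shift f s2, ← av_shift (fun M => av fun b => f (M + s2 b)) s1]

lemma pa_corr (h2 : ∀ b b', s2 (b + b') = s2 b + s2 b') (g : X → ℂ) :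
    (cav fun x => cav fun b => dd g (s2 b) x).re = av fun x => ‖cav fun b => g (x + s2 b)‖ ^ 2 := by
  rw [← pa_cshift (fun x => cav fun b => dd g (s2 b) x) s2, cav_re]
  refine av_congr fun x => ?_
  rw [← Complex.ofReal_re (‖_‖ ^ 2), ← mul_conj'', conj_cav, cav_mul_cav]
  refine congrArg Complex.re (cav_congr fun b0 => ?_)
  rw [← cav_add_left (fun b => g (x + s2 b0) * conj (g (x + s2 b))) b0]
  exact cav_congr fun b => by rw [dd, h2, add_assoc]

lemma PaD.box_le (h : PaD s1 s2 t χ Kv) :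
    gb2 (fun M => csm fun v => Kv v M) s1 s2 ≤ av fun M => sm fun v => paE s1 s2 Kv v M ^ 2 := by
  set K : X → ℂ := fun M => csm fun v => Kv v M with hK
  choose i hi using h.t1
  choose j hj using h.t2
  have e : gb2 K s1 s2 = av fun M => av fun a => ‖cav fun b => dd K (s1 a) (M + s2 b)‖ ^ 2 := by
    rw [gb2, cav_comm, cav_re, av_comm]
    exact av_congr fun a => pa_corr h.a2 (dd K (s1 a))
  rw [e, ← av_shift (fun M => av fun a => ‖cav fun b => dd K (s1 a) (M + s2 b)‖ ^ 2) s1]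
  refine av_mono fun M => ?_
  refine le_trans (le_of_eq ?_) (pa_box_fix i j χ h.orth (fun v a b => Kv v (M + s1 a + s2 b))
    (fun v a b y => ?_) (fun v a b y => ?_))
  · refine av_congr fun a0 => ?_
    rw [← av_add_left (fun a => ‖ip (fun b => csm fun v => Kv v (M + s1 a + s2 b))
      fun b => csm fun v => Kv v (M + s1 a0 + s2 b)‖ ^ 2) a0]
    refine av_congr fun a => ?_
    rw [← conj_ip, Complex.norm_conj, ip]
    refine congrArg (‖·‖ ^ 2) (cav_congr fun b => ?_)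
    rw [dd, h.a1, show M + s1 a0 + s2 b + s1 a = M + (s1 a0 + s1 a) + s2 b by abel]
  · rw [h.a1, hi, show M + (s1 a + t y) + s2 b = M + s1 a + s2 b + t y by abel, h.cov]
  · rw [h.a2, hj, ← add_assoc, h.cov]

lemma PaD.sumsq (h : PaD s1 s2 t χ Kv) (M : X) :
    sm (fun v => ‖Kv v M‖ ^ 2) = av fun y => ‖csm fun v => Kv v (M + t y)‖ ^ 2 :=
  pa_sumsq t χ h.orth Kv h.cov M

lemma pa_pow_av {O : Type} [Finite O] [Nonempty O] (f : O → ℝ) (hf : ∀ o, 0 ≤ f o) (p : ℕ) :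
    av f ^ p ≤ av fun o => f o ^ p := by
  have := abs_av_pow_le f p
  rw [abs_of_nonneg (av_nonneg hf)] at this
  refine this.trans (le_of_eq (av_congr fun o => ?_))
  rw [abs_of_nonneg (hf o)]

lemma PaD.sumsq_pow (h : PaD s1 s2 t χ Kv) {D : ℕ → ℝ} (hD : CT D fun M => csm fun v => Kv v M)
    (p : ℕ) : av (fun M => sm (fun v => ‖Kv v M‖ ^ 2) ^ p) ≤ D (2 * p) := by
  refine le_trans ?_ (hD (2 * p))
  rw [← av_shift (fun M => |‖csm fun v => Kv v M‖| ^ (2 * p)) t]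
  refine av_mono fun M => ?_
  rw [h.sumsq]
  refine (pa_pow_av _ (fun _ => sq_nonneg _) p).trans (le_of_eq (av_congr fun y => ?_))
  rw [pow_mul, sq_abs]

lemma pa_sumE (M : X) : sm (fun v => paE s1 s2 Kv v M) =
    av fun a => av fun b => sm fun v => ‖Kv v (M + s1 a + s2 b)‖ ^ 2 := by
  unfold paE
  rw [← av_sm_comm]
  exact av_congr fun a => (av_sm_comm _).symm

lemma PaD.sumE_pow (h : PaD s1 s2 t χ Kv) {D : ℕ → ℝ} (hD : CT D fun M => csm fun v => Kv v M)
    (p : ℕ) : av (fun M => sm (fun v => paE s1 s2 Kv v M) ^ p) ≤ D (2 * p) := by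
  refine le_trans ?_ (h.sumsq_pow hD p)
  rw [← pa_shift2 s1 s2 (fun M => sm (fun v => ‖Kv v M‖ ^ 2) ^ p)]
  refine av_mono fun M => ?_
  rw [pa_sumE]
  refine (pa_pow_av _ (fun _ => av_nonneg fun _ => sm_nonneg fun _ => sq_nonneg _) p).trans
    (av_mono fun a => pa_pow_av _ (fun _ => sm_nonneg fun _ => sq_nonneg _) p)

/-- mass of the heavy parts -/
noncomputable def paK (s1 : H1 → X) (s2 : H2 → X) (Kv : Λ → X → ℂ) (θ : ℝ) : ℝ :=
  av fun M => sm fun v => paE s1 s2 Kv v M * ind (θ ≤ paE s1 s2 Kv v M)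

/-- the heavy part -/
noncomputable def paK0 (s1 : H1 → X) (s2 : H2 → X) (Kv : Λ → X → ℂ) (θ : ℝ) (M : X) : ℂ :=
  csm fun v => Kv v M * (ind (θ ≤ paE s1 s2 Kv v M) : ℝ)

lemma PaD.heavy (h : PaD s1 s2 t χ Kv) (θ : ℝ) (v : Λ) :
    av (fun M => ‖Kv v M‖ ^ 2 * ind (θ ≤ paE s1 s2 Kv v M)) =
      av fun M => paE s1 s2 Kv v M * ind (θ ≤ paE s1 s2 Kv v M) := by
  rw [← pa_shift2 s1 s2 (fun M => ‖Kv v M‖ ^ 2 * ind (θ ≤ paE s1 s2 Kv v M))]
  refine av_congr fun M => ?_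
  simp only [h.e_shift]
  simp only [av_mul_right]
  rfl

lemma PaD.inner_K0 (h : PaD s1 s2 t χ Kv) (θ : ℝ) :
    (ip (fun M => csm fun v => Kv v M) (paK0 s1 s2 Kv θ)).re = paK s1 s2 Kv θ := by
  unfold paK0 paK
  rw [pa_orth t χ h.orth Kv (fun v M => Kv v M * (ind (θ ≤ paE s1 s2 Kv v M) : ℝ)) h.cov
    (fun v M y => by rw [h.cov, h.e_t]; ring), av_sm_comm, csm_re]
  refine sm_congr fun v => ?_
  rw [← h.heavy, ip, cav_re]
  refine av_congr fun M => ?_
  rw [map_mul, ← mul_assoc, mul_conj'', Complex.conj_ofReal, ← Complex.ofReal_mul,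
    Complex.ofReal_re]

lemma pa_norm_ind (z : ℂ) (p : Prop) : ‖z * (ind p : ℝ)‖ ^ 2 = ‖z‖ ^ 2 * ind p := by
  rw [norm_mul, Complex.norm_real, Real.norm_eq_abs, abs_ind, mul_pow, ind_sq]

lemma PaD.sq_K0 (h : PaD s1 s2 t χ Kv) (θ : ℝ) : n2 (paK0 s1 s2 Kv θ) = paK s1 s2 Kv θ := by
  unfold paK0 paK
  rw [pa_orth2 t χ h.orth (fun v M => Kv v M * (ind (θ ≤ paE s1 s2 Kv v M) : ℝ))
    (fun v M y => by rw [h.cov, h.e_t]; ring), av_sm_comm]
  refine sm_congr fun v => ?_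
  rw [← h.heavy]
  exact av_congr fun M => pa_norm_ind _ _

lemma PaD.K_le (h : PaD s1 s2 t χ Kv) {D : ℕ → ℝ} (hD : CT D fun M => csm fun v => Kv v M)
    (θ : ℝ) : paK s1 s2 Kv θ ≤ D 2 := by
  refine le_trans (av_mono fun M => ?_) (h.sumE_pow hD 1)
  rw [pow_one]
  exact sm_mono fun v => mul_le_of_le_one_right (paE_nonneg v M) (ind_le_one _)

lemma PaD.le_K (h : PaD s1 s2 t χ Kv) {D : ℕ → ℝ} (hD : CT D fun M => csm fun v => Kv v M)
    {η θ : ℝ} (hη : 0 < η) (hθ : 0 ≤ θ) (hθη : θ * D 2 ≤ η / 2)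
    (hb : η ≤ av fun M => sm fun v => paE s1 s2 Kv v M ^ 2) :
    (η / 2) ^ 2 ≤ D 6 * paK s1 s2 Kv θ := by
  set S : X → ℝ := fun M => sm fun v => paE s1 s2 Kv v M with hS
  set T : X → ℝ := fun M => sm fun v => paE s1 s2 Kv v M * ind (θ ≤ paE s1 s2 Kv v M) with hT
  have hT0 : ∀ M, 0 ≤ T M := fun M => sm_nonneg fun v => mul_nonneg (paE_nonneg v M) (ind_nonneg _)
  have hTS : ∀ M, T M ≤ S M := fun M =>
    sm_mono fun v => mul_le_of_le_one_right (paE_nonneg v M) (ind_le_one _)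
  have h1 : ∀ M, sm (fun v => paE s1 s2 Kv v M ^ 2) ≤ θ * S M + S M * T M := by
    intro M
    rw [hS, hT]
    simp only []
    rw [← sm_mul_left θ, ← sm_mul_left (sm fun v => paE s1 s2 Kv v M), ← sm_add]
    refine sm_mono fun v => ?_
    have e0 := paE_nonneg (s1 := s1) (s2 := s2) (Kv := Kv) v M
    have e1 := single_le_sm (fun v => paE_nonneg (s1 := s1) (s2 := s2) (Kv := Kv) v M) v
    by_cases hv : θ ≤ paE s1 s2 Kv v M
    · rw [ind_pos hv]; nlinarith
    · rw [ind_neg hv]; push Not at hv; nlinarith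
  have h2 : η ≤ θ * av S + av fun M => S M * T M := by
    rw [← av_mul_left, ← av_add]; exact hb.trans (av_mono h1)
  have h3 : av S ≤ D 2 := by simpa using h.sumE_pow hD 1
  have h4 : η / 2 ≤ av fun M => S M * T M := by nlinarith
  have h5 := av_cs (fun M => S M * Real.sqrt (T M)) (fun M => Real.sqrt (T M))
  have e5 : ∀ M, S M * Real.sqrt (T M) * Real.sqrt (T M) = S M * T M := fun M => by
    rw [mul_assoc, Real.mul_self_sqrt (hT0 M)]
  have e6 : ∀ M, (S M * Real.sqrt (T M)) ^ 2 ≤ S M ^ 3 := fun M => by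
    rw [mul_pow, Real.sq_sqrt (hT0 M)]
    nlinarith [hTS M, sq_nonneg (S M)]
  have e7 : ∀ M, Real.sqrt (T M) ^ 2 = T M := fun M => Real.sq_sqrt (hT0 M)
  rw [av_congr e5, av_congr e7] at h5
  have h6 : av (fun M => (S M * Real.sqrt (T M)) ^ 2) ≤ D 6 :=
    (av_mono e6).trans (h.sumE_pow hD 3)
  calc (η / 2) ^ 2 ≤ (av fun M => S M * T M) ^ 2 := pow_le_pow_left₀ (by linarith) h4 2
    _ ≤ _ := h5
    _ ≤ D 6 * av T := mul_le_mul_of_nonneg_right h6 (av_nonneg hT0)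

lemma pa_count_le {θ : ℝ} (hθ : 0 < θ) (M : X) :
    sm (fun v => ind (θ ≤ paE s1 s2 Kv v M)) ≤ sm (fun v => paE s1 s2 Kv v M) / θ := by
  rw [← sm_div]
  refine sm_mono fun v => ?_
  by_cases hv : θ ≤ paE s1 s2 Kv v M
  · rw [ind_pos hv, le_div_iff₀ hθ]; linarith
  · rw [ind_neg hv]; exact div_nonneg (paE_nonneg v M) hθ.le

/-- the weight that controls the error term -/
noncomputable def paW (s1 : H1 → X) (s2 : H2 → X) (Kv : Λ → X → ℂ) (θ : ℝ) (M : X) : ℝ :=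
  (sm (fun v => paE s1 s2 Kv v M) ^ 4 + sm (fun v => ‖Kv v M‖ ^ 2) ^ 4) / θ ^ 2

lemma PaD.W_le (h : PaD s1 s2 t χ Kv) {D : ℕ → ℝ} (hD : CT D fun M => csm fun v => Kv v M)
    (θ : ℝ) : av (paW s1 s2 Kv θ) ≤ 2 * D 8 / θ ^ 2 := by
  unfold paW
  rw [av_div, av_add]
  have h1 := h.sumE_pow hD 4
  have h2 := h.sumsq_pow hD 4
  exact div_le_div_of_nonneg_right (by norm_num at h1 h2; linarith) (sq_nonneg _)

/-- the error made by dropping the parts that are not reduced -/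
lemma pa_err {θ T : ℝ} (hθ : 0 < θ) (hT : 0 < T) (red : Λ → Prop) (M : X) :
    ‖paK0 s1 s2 Kv θ M - csm fun v => Kv v M * (ind (θ ≤ paE s1 s2 Kv v M ∧ red v) : ℝ)‖ ^ 2 ≤
      T * ind (∃ v, θ ≤ paE s1 s2 Kv v M ∧ ¬ red v) + paW s1 s2 Kv θ M / T := by
  have e : (paK0 s1 s2 Kv θ M - csm fun v => Kv v M * (ind (θ ≤ paE s1 s2 Kv v M ∧ red v) : ℝ)) =
      csm fun v => Kv v M * (ind (θ ≤ paE s1 s2 Kv v M ∧ ¬ red v) : ℝ) := by
    unfold paK0
    rw [← csm_sub]
    refine csm_congr fun v => ?_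
    rw [ind_and, ind_and, ind_not]; push_cast; ring
  rw [e]
  have hW : 0 ≤ paW s1 s2 Kv θ M := by unfold paW; positivity
  by_cases hb : ∃ v, θ ≤ paE s1 s2 Kv v M ∧ ¬ red v
  · rw [ind_pos hb, mul_one]
    set S := sm fun v => paE s1 s2 Kv v M with hS
    set Q := sm fun v => ‖Kv v M‖ ^ 2 with hQ
    have hQ0 : 0 ≤ Q := sm_nonneg fun _ => sq_nonneg _
    have h1 := norm_csm_cs (fun v => Kv v M)
      fun v => ((ind (θ ≤ paE s1 s2 Kv v M ∧ ¬ red v) : ℝ) : ℂ)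
    have h2 : sm (fun v => ‖((ind (θ ≤ paE s1 s2 Kv v M ∧ ¬ red v) : ℝ) : ℂ)‖ ^ 2) ≤ S / θ := by
      refine le_trans (sm_mono fun v => ?_) (pa_count_le hθ M)
      rw [Complex.norm_real, Real.norm_eq_abs, abs_ind, ind_sq]; exact ind_mono And.left
    have h3 : (Q * (S / θ)) ^ 2 ≤ paW s1 s2 Kv θ M := by
      unfold paW
      rw [mul_pow, div_pow, ← mul_div_assoc]
      refine div_le_div_of_nonneg_right ?_ (sq_nonneg _)
      nlinarith [sq_nonneg (S ^ 2 - Q ^ 2), sq_nonneg (S * Q)]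
    have h4 : Q * (S / θ) ≤ T + (Q * (S / θ)) ^ 2 / T := by
      have : Q * (S / θ) * T ≤ T * T + (Q * (S / θ)) ^ 2 := by
        nlinarith [sq_nonneg (Q * (S / θ) - T), sq_nonneg (Q * (S / θ)), sq_nonneg T]
      rw [← sub_le_iff_le_add', le_div_iff₀ hT]; linarith
    calc _ ≤ Q * (S / θ) := h1.trans (mul_le_mul_of_nonneg_left h2 hQ0)
      _ ≤ T + (Q * (S / θ)) ^ 2 / T := h4
      _ ≤ _ := by gcongr
  · have : csm (fun v => Kv v M * (ind (θ ≤ paE s1 s2 Kv v M ∧ ¬ red v) : ℝ)) = 0 := by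
      rw [← csm_zero (α := Λ)]
      exact csm_congr fun v => by rw [ind_neg fun hv => hb ⟨v, hv⟩, Complex.ofReal_zero, mul_zero]
    rw [this, ind_neg hb, norm_zero]
    have := div_nonneg hW hT.le
    nlinarith

end core

/-- the pointwise inequality behind the gain -/
lemma pa_point {δ : ℝ} (hδ : 0 < δ) (u k g : ℂ) :
    2 * (u * conj k).re - (1 + δ) * ‖k‖ ^ 2 - δ * ‖u‖ ^ 2 - (1 + 2 / δ) * ‖k - g‖ ^ 2 ≤
      2 * (u * conj g).re - ‖g‖ ^ 2 := by
  have h : ∀ u k g : ℝ, 2 * (u * k) - (1 + δ) * k ^ 2 - δ * u ^ 2 - (1 + 2 / δ) * (k - g) ^ 2 ≤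
      2 * (u * g) - g ^ 2 := fun u k g => by
    have h1 : 0 ≤ (δ * u - (k - g)) ^ 2 / δ := by positivity
    have h2 : 0 ≤ (δ * k + (k - g)) ^ 2 / δ := by positivity
    have e : 2 * (u * g) - g ^ 2 - (2 * (u * k) - (1 + δ) * k ^ 2 - δ * u ^ 2 -
        (1 + 2 / δ) * (k - g) ^ 2) = (δ * u - (k - g)) ^ 2 / δ + (δ * k + (k - g)) ^ 2 / δ := by
      field_simp
      ring
    linarith
  have h1 := h u.re k.re g.re
  have h2 := h u.im k.im g.im
  simp only [Complex.sq_norm, Complex.normSq_apply, Complex.mul_re, Complex.conj_re,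
    Complex.conj_im, Complex.sub_re, Complex.sub_im]
  nlinarith

end NE
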