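import Pool.Agent.Lib.MP_ecee09_co.NE.PAa
import Pool.Agent.Lib.MP_ecee09_co.NE.FldR
import Pool.Agent.Lib.MP_ecee09_co.NE.FamC

/-! Algebra for the degenerate case (PA): labels, positions, labelled fields. -/

set_option linter.unusedSectionVars false

namespace NE

open SD hiding F
open ComplexConjugate

variable {E I K : Type} [AddCommGroup E] [Finite E] [Finite I] [Finite K]

/-- the radical of `S` -/
def paR (τ : QT E) (S : AddSubgroup E) : AddSubgroup E := S ⊓ τ.perp S

/-- the group of labels -/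
abbrev PaG (τ : QT E) (S : AddSubgroup E) : Type := E ⧸ τ.perp (paR τ S)

def paPi (τ : QT E) (S : AddSubgroup E) : E →+ PaG τ S := QuotientAddGroup.mk' _

/-- a vector with values in a subgroup -/
def paV {T : AddSubgroup E} (h : I → T) : I → E := fun i => h i

def paS (T : AddSubgroup E) (h : I → T) : OmE E I := (paV h, 0)

/-- the pairing of the radical with the labels -/
noncomputable def paP (τ : QT E) (S : AddSubgroup E) (y : I → paR τ S) (ξ : I → PaG τ S) : TT :=
  brk τ (paV y) fun i => (ξ i).out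

/-- the diagonal times a group element -/
def paD {G : Type} [AddCommGroup G] (P : Om I) (e : G) : I → G := fun i => (P s(i, i)).val • e

/-- the map to the particle space -/
def paL (τ : QT E) (S : AddSubgroup E) (x : OmE E I) : OmE (PaG τ S) I := (paPi τ S ∘ x.1, x.2)

/-- minus the position of the present particle with label `v` -/
noncomputable def paZ (τ : QT E) (S : AddSubgroup E) (ε : E) (x : OmE E I) (v : I → PaG τ S) :
    I → PaG τ S := paPi τ S ∘ x.1 + adj x.2 v + paD x.2 (paPi τ S ε)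

/-- the part of a field with label `v` -/
noncomputable def paKv (τ : QT E) (S : AddSubgroup E) (c : (I → E) → ℂ) (v : I → PaG τ S)
    (x : OmE E I) : ℂ := fld τ (fun w => (ind (paPi τ S ∘ w = v) : ℝ) * c w) x

variable {τ : QT E} {S : AddSubgroup E} {ε : E}

lemma paPi_surj (τ : QT E) (S : AddSubgroup E) : Function.Surjective (paPi τ S) :=
  QuotientAddGroup.mk'_surjective _

lemma paPi_eq_zero {e : E} : paPi τ S e = 0 ↔ e ∈ τ.perp (paR τ S) := QuotientAddGroup.eq_zero_iff e

lemma paR_iso {r r' : E} (h : r ∈ paR τ S) (h' : r' ∈ paR τ S) : τ.be r r' = 0 := h'.2 r h.1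

lemma pa_eps (hτ : τ.ND) (S : AddSubgroup E) : ∃ ε : E, ∀ r ∈ paR τ S, τ.q r = τ.be r ε := by
  let φ : paR τ S →+ TT := AddMonoidHom.mk' (fun r => τ.q r) fun r r' => by
    rw [AddSubgroup.coe_add, τ.q_add, paR_iso r.2 r'.2, add_zero]
  obtain ⟨ψ, hψ⟩ := (Module.Baer.of_divisible TT).extension_property_addMonoidHom
    (paR τ S).subtype (paR τ S).subtype_injective φ
  obtain ⟨ε, hε⟩ := hτ.surj ψ
  exact ⟨ε, fun r hr => by rw [τ.symm, hε]; exact (DFunLike.congr_fun hψ ⟨r, hr⟩).symm⟩

lemma pa_nontrivial (hτ : τ.ND) (h : S ⊓ τ.perp S ≠ ⊥) : Nontrivial (PaG τ S) := by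
  by_contra hn
  rw [not_nontrivial_iff_subsingleton] at hn
  refine h ((AddSubgroup.eq_bot_iff_forall _).2 fun r hr => hτ r (AddMonoidHom.ext fun e => ?_))
  exact paPi_eq_zero.1 (Subsingleton.elim (paPi τ S e) 0) r hr

lemma paV_add {T : AddSubgroup E} (a b : I → T) : paV (a + b) = paV a + paV b := rfl

lemma paS_add (T : AddSubgroup E) (a b : I → T) : paS T (a + b) = paS T a + paS T b :=
  Prod.ext rfl (add_zero _).symm

lemma pa_cav_brk (τ : QT E) (T : AddSubgroup E) (w : I → E) :
    cav (fun a : I → T => ee (brk τ (paV a) w)) = (ind (∀ i, w i ∈ τ.perp T) : ℝ) := by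
  classical
  let _ := Fintype.ofFinite I
  rw [cav_ee_add _ fun a b => by rw [paV_add, brk_add_left]]
  refine congrArg _ (ind_congr ⟨fun h i s hs => ?_, fun h a => ?_⟩)
  · have e : paV (Pi.single i (⟨s, hs⟩ : T) : I → T) = Pi.single i s := funext fun j => by
      by_cases q : j = i
      · subst q; simp [paV]
      · simp [paV, Pi.single_eq_of_ne q]
    rw [← brk_single_left τ i s w, ← e]
    exact h _
  · rw [brk_eq]
    exact Finset.sum_eq_zero fun i _ => h i _ (a i).2

lemma paP_mk (y : I → paR τ S) (w : I → E) : paP τ S y (paPi τ S ∘ w) = brk τ (paV y) w := by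
  let _ := Fintype.ofFinite I
  rw [paP, ← sub_eq_zero, ← brk_sub_right, brk_eq]
  refine Finset.sum_eq_zero fun i _ => paPi_eq_zero.1 ?_ _ (y i).2
  rw [Pi.sub_apply, map_sub, sub_eq_zero]
  exact Quotient.out_eq' _

lemma pa_orthP (v w : I → PaG τ S) :
    cav (fun y => ee (paP τ S y v) * conj (ee (paP τ S y w))) = (ind (v = w) : ℝ) := by
  obtain ⟨v, rfl⟩ := (paPi_surj τ S).comp_left v
  obtain ⟨w, rfl⟩ := (paPi_surj τ S).comp_left w
  simp only [paP_mk, ← ee_sub, ← brk_sub_right]
  rw [pa_cav_brk]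
  refine congrArg _ (ind_congr ?_)
  simp only [funext_iff, Function.comp_apply, ← paPi_eq_zero, Pi.sub_apply, map_sub, sub_eq_zero]

lemma pa_lab_add (w : I → E) (y : I → paR τ S) : paPi τ S ∘ (w + paV y) = paPi τ S ∘ w := by
  funext i
  have : paPi τ S (paV y i) = 0 := paPi_eq_zero.2 fun r hr => paR_iso hr (y i).2
  simp only [Function.comp_apply, Pi.add_apply, map_add, this, add_zero]

lemma pa_th (hε : ∀ r ∈ paR τ S, τ.q r = τ.be r ε) (y : I → paR τ S) (P : Om I) :
    th τ (paV y) P = brk τ (paV y) (paD P ε) := by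
  classical
  let _ := Fintype.ofFinite I
  rw [th_eq, brk_eq]
  refine (Fintype.sum_of_injective Sym2.diag Sym2.diag_injective _ _ (fun c hc => ?_)
    fun i => ?_).symm
  · induction c using Sym2.ind with
    | _ i j =>
      rw [cz_ne τ _ fun q => hc ⟨i, by rw [← q]; rfl⟩, paV, paV, paR_iso (y i).2 (y j).2, smul_zero]
  · rw [paD, map_nsmul, ← hε (paV y i) (y i).2]
    exact congrArg _ (cz_self τ (paV y) i).symm

lemma pa_map_adj {G : Type} [AddCommGroup G] (f : E →+ G) (P : Om I) (w : I → E) :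
    f ∘ adj P w = adj P (f ∘ w) := by
  let _ := Fintype.ofFinite I
  funext i
  simp only [Function.comp_apply, adj_eq, map_sum, map_nsmul]

lemma pa_chi_add (hε : ∀ r ∈ paR τ S, τ.q r = τ.be r ε) (w : I → E) (y : I → paR τ S)
    (x : OmE E I) :
    chi τ (w + paV y) x = chi τ w x * ee (paP τ S y (paZ τ S ε x (paPi τ S ∘ w))) := by
  have e : paZ τ S ε x (paPi τ S ∘ w) = paPi τ S ∘ (x.1 + adj x.2 w + paD x.2 ε) := by
    rw [paZ, ← pa_map_adj]
    funext i
    simp only [Function.comp_apply, Pi.add_apply, map_add, paD, map_nsmul]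
  rw [e, paP_mk, chi, chi, ← ee_add, brk_add_left, add_comm w, th_add, pa_th hε, brk_add_right,
    brk_add_right]
  congr 1
  abel

lemma pa_chi_S (τ : QT E) {T : AddSubgroup E} (w : I → E) (x : OmE E I) (a : I → T) :
    chi τ w (x + paS T a) = chi τ w x * ee (brk τ (paV a) w) := by
  rw [brk_comm, ← chi_shift τ w x.1 (paV a) x.2]
  exact congrArg _ (Prod.ext rfl (add_zero _))

lemma pa_sum_Kv (τ : QT E) (S : AddSubgroup E) (c : (I → E) → ℂ) :
    (fun x => csm fun v => paKv τ S c v x) = fld τ c := by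
  funext x
  unfold paKv fld
  rw [csm_fiber (fun w => paPi τ S ∘ w)]
  exact csm_congr fun v => csm_congr fun w => mul_assoc _ _ _

lemma pa_data (τ : QT E) (S : AddSubgroup E) (c : (I → E) → ℂ) :
    PaD (paS S) (paS (τ.perp S)) (paS (paR τ S)) (fun v y => ee (paP τ S y v)) (paKv τ S c) where
  a1 := paS_add S
  a2 := paS_add _
  t1 y := ⟨fun i => ⟨y i, (y i).2.1⟩, rfl⟩
  t2 y := ⟨fun i => ⟨y i, (y i).2.2⟩, rfl⟩
  orth := pa_orthP
  one _ _ := norm_ee _
  cov v x y := by
    unfold paKv fld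
    rw [← csm_mul_right]
    refine csm_congr fun w => ?_
    rw [pa_chi_S]
    beta_reduce
    by_cases hv : paPi τ S ∘ w = v
    · rw [← hv, paP_mk]; ring
    · rw [ind_neg hv]; simp

lemma pa_box (u : OmE E I → ℂ) (S1 S2 : AddSubgroup E) :
    box u S1 S2 = gb2 u (paS S1) (paS S2) := by
  have e : ∀ (T : AddSubgroup E) (h : I → T), sft Set.univ T h = paV h := fun T h =>
    funext fun i => if_pos trivial
  rw [gb2, cav_prod, cav_comm, cav_re]
  refine av_congr fun P => congrArg Complex.re (cav_congr fun b => cav_congr fun h1 =>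
    cav_congr fun h2 => ?_)
  simp only [dd, e, paS, Prod.mk_add_mk, add_zero]

/-- the energy of a part depends only on the present particle -/
lemma pa_inv (hτ : τ.ND) (hε : ∀ r ∈ paR τ S, τ.q r = τ.be r ε) (c : (I → E) → ℂ)
    (v : I → PaG τ S) {x x' : OmE E I} (hx : paZ τ S ε x v = paZ τ S ε x' v) :
    paE (paS S) (paS (τ.perp S)) (paKv τ S c) v x =
      paE (paS S) (paS (τ.perp S)) (paKv τ S c) v x' := by
  have e : ∀ x : OmE E I, (paE (paS S) (paS (τ.perp S)) (paKv τ S c) v x : ℂ) =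
      csm fun w => csm fun w' => ((ind (paPi τ S ∘ w = v) : ℝ) * c w *
        conj ((ind (paPi τ S ∘ w' = v) : ℝ) * c w')) * (chi τ w x * conj (chi τ w' x)) *
        ((ind (∀ i, (w - w') i ∈ τ.perp S) : ℝ) *
          (ind (∀ i, (w - w') i ∈ τ.perp (τ.perp S)) : ℝ)) := by
    intro x
    unfold paE paKv fld
    simp only [← cav_ofReal, ← mul_conj'', conj_csm, csm_mul_csm, cav_csm_comm]
    refine csm_congr fun w => csm_congr fun w' => ?_
    rw [← pa_cav_brk, ← pa_cav_brk, cav_mul_cav, ← cav_mul_left]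
    refine cav_congr fun a => ?_
    rw [← cav_mul_left]
    refine cav_congr fun b => ?_
    simp only [pa_chi_S, brk_sub_right, ee_sub, map_mul]
    ring
  refine Complex.ofReal_injective ?_
  rw [e, e]
  refine csm_congr fun w => csm_congr fun w' => ?_
  by_cases hv : paPi τ S ∘ w' = v
  swap
  · rw [ind_neg hv]; simp
  by_cases h1 : ∀ i, (w - w') i ∈ τ.perp S
  swap
  · rw [ind_neg h1]; simp
  by_cases h2 : ∀ i, (w - w') i ∈ τ.perp (τ.perp S)
  swap
  · rw [ind_neg h2]; simp
  rw [hτ.perp_perp] at h2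
  have hw : w = w' + paV fun i => (⟨(w - w') i, h2 i, h1 i⟩ : paR τ S) :=
    (add_sub_cancel w' w).symm
  have hc : ∀ x : OmE E I, chi τ w x * conj (chi τ w' x) =
      ee (paP τ S (fun i => (⟨(w - w') i, h2 i, h1 i⟩ : paR τ S)) (paZ τ S ε x v)) := fun x => by
    conv_lhs => rw [hw, pa_chi_add hε, mul_right_comm, chi_mul_conj, one_mul, hv]
  rw [hc, hc, hx]

/-- parts multiplied by functions of the present particle form a field -/
lemma pa_field (hε : ∀ r ∈ paR τ S, τ.q r = τ.be r ε) (c : (I → E) → ℂ)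
    (g : (I → PaG τ S) → (I → PaG τ S) → ℂ) :
    ∃ a : (I → E) → ℂ, (∀ w, a w ≠ 0 → ∃ ξ, g (paPi τ S ∘ w) ξ ≠ 0) ∧
      ∀ x, csm (fun v => paKv τ S c v x * g v (paZ τ S ε x v)) = fld τ a x := by
  refine ⟨fun w => csm fun ξ => cav fun y : I → paR τ S =>
    g (paPi τ S ∘ w) ξ * c (w - paV y) * conj (ee (paP τ S y ξ)), fun w hw => ?_, fun x => ?_⟩
  · by_contra hn
    push Not at hn
    apply hw
    simp only [hn, zero_mul, cav_zero, csm_zero]
  · have e1 : csm (fun v => paKv τ S c v x * g v (paZ τ S ε x v)) =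
        csm fun w => c w * chi τ w x * g (paPi τ S ∘ w) (paZ τ S ε x (paPi τ S ∘ w)) := by
      rw [csm_fiber (fun w => paPi τ S ∘ w)]
      refine csm_congr fun v => ?_
      unfold paKv fld
      rw [← csm_mul_right]
      refine csm_congr fun w => ?_
      beta_reduce
      by_cases hv : paPi τ S ∘ w = v
      · rw [hv]; ring
      · rw [ind_neg hv]; simp
    have e2 : ∀ w, c w * chi τ w x * g (paPi τ S ∘ w) (paZ τ S ε x (paPi τ S ∘ w)) =
        csm fun ξ => cav fun y : I → paR τ S =>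
          g (paPi τ S ∘ w) ξ * c w * conj (ee (paP τ S y ξ)) * chi τ (w + paV y) x := fun w => by
      rw [← csm_ind_eq' (paZ τ S ε x (paPi τ S ∘ w)) (g (paPi τ S ∘ w)), ← csm_mul_left]
      refine csm_congr fun ξ => ?_
      rw [← pa_orthP, ← cav_mul_right, ← cav_mul_left]
      exact cav_congr fun y => by rw [pa_chi_add hε]; ring
    rw [e1, csm_congr e2, fld]
    simp only [← csm_mul_right, ← cav_mul_right]
    rw [csm_comm, csm_comm fun w ξ => cav fun y : I → paR τ S =>
      g (paPi τ S ∘ w) ξ * c (w - paV y) * conj (ee (paP τ S y ξ)) * chi τ w x]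
    refine csm_congr fun ξ => ?_
    rw [← cav_csm_comm, ← cav_csm_comm]
    refine cav_congr fun y => ?_
    rw [← csm_add_right (fun w => g (paPi τ S ∘ w) ξ * c (w - paV y) * conj (ee (paP τ S y ξ)) *
      chi τ w x) (paV y)]
    exact csm_congr fun w => by rw [pa_lab_add, add_sub_cancel_right]

lemma paL_add (x x' : OmE E I) : paL τ S (x + x') = paL τ S x + paL τ S x' :=
  Prod.ext (funext fun _ => map_add _ _ _) rfl

lemma paL_surj : Function.Surjective (paL τ S : OmE E I → _) := fun x => by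
  obtain ⟨b, hb⟩ := (paPi_surj τ S).comp_left x.1
  exact ⟨(b, x.2), Prod.ext hb rfl⟩

lemma paL_cell (x : OmE E I) (Φ : Lab I K) (y : OmE E K) :
    paL τ S (cell x Φ y) = cell (paL τ S x) Φ (paL τ S y) := by
  refine Prod.ext (funext fun i => ?_) rfl
  simp only [paL, cell, Function.comp_apply, Pi.add_apply, map_add, spr]
  cases Φ i <;> simp

/-- lift a particle family along `paL` -/
lemma pa_fam (A : GFam (PaG τ S) I K) :
    ∃ A' : GFam E I K, A'.junk = A.junk ∧ ∀ ψ : OmE (PaG τ S) I → Lab I K → ℝ,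
      (A'.E fun x Φ => av fun y => ψ (paL τ S (cell x Φ y)) Φ) =
        A.E fun x Φ => av fun y => ψ (cell x Φ y) Φ := by
  obtain ⟨A', h1, h2⟩ := Fam.glift A (paPi τ S) (paPi_surj τ S)
  refine ⟨A', h2, fun ψ => ?_⟩
  rw [h1]
  refine Fam.congr' A fun x Φ => ?_
  simp only [paL_cell]
  rw [← cond_comp (fun b : I → E => paPi τ S ∘ b) (fun _ _ => funext fun _ => map_add _ _ _)
    (paPi_surj τ S).comp_left (fun b => av fun y => ψ (cell (b, x.2) Φ y) Φ) x.1]
  exact congrArg (SD.cond _ · _) (funext fun b =>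
    av_surj (paL τ S) paL_add paL_surj fun y => ψ (cell (paPi τ S ∘ b, x.2) Φ y) Φ)

/-- coefficients on labels whose block sums do not generate give a non generating restriction -/
lemma pa_rc (τ : QT E) {a : (I → E) → ℂ} (x : OmE E I) (Φ : Lab I K)
    (h : ∀ w, a w ≠ 0 → ¬ Gen (wl (paPi τ S ∘ w) Φ)) (v : K → E) (hv : Gen v) :
    rc τ a x Φ v = 0 := by
  rw [rc, ← csm_zero (α := I → E)]
  refine csm_congr fun w => ?_
  by_cases q : wl w Φ = v
  · have : a w = 0 := by_contra fun hn => h w hn (by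
      rw [← map_wl, q, Gen, Set.range_comp, ← AddMonoidHom.map_closure, hv]
      exact AddSubgroup.map_top_of_surjective _ (paPi_surj τ S))
    rw [this, zero_mul, mul_zero]
  · rw [ind_neg q, Complex.ofReal_zero, zero_mul]

end NE
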