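import Pool.Agent.Lib.MP_ecee09_co.NE.PAb

/-! The degenerate case (PA): heavy particles and the gain. -/

set_option linter.unusedSectionVars false

namespace NE

open SD hiding F
open ComplexConjugate

variable {E I K : Type} [AddCommGroup E] [Finite E] [Finite I] [Finite K]
  {τ : QT E} {S : AddSubgroup E} {ε : E}

/-- the energy of the part with label `v` -/
noncomputable abbrev paEn (τ : QT E) (S : AddSubgroup E) (c : (I → E) → ℂ) :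
    (I → PaG τ S) → OmE E I → ℝ := paE (paS S) (paS (τ.perp S)) (paKv τ S c)

/-- a particle is present -/
def paPres {G : Type} [AddCommGroup G] (e : G) (p : (I → G) × (I → G)) (x : OmE G I) : Prop :=
  x.1 + adj x.2 p.1 + paD x.2 e + p.2 = 0

/-- the heavy particles -/
def paPP (τ : QT E) (S : AddSubgroup E) (ε : E) (c : (I → E) → ℂ) (θ : ℝ) :
    Set ((I → PaG τ S) × (I → PaG τ S)) :=
  {p | ∃ x, paZ τ S ε x p.1 = -p.2 ∧ θ ≤ paEn τ S c p.1 x}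

lemma pa_pres (p : (I → PaG τ S) × (I → PaG τ S)) (x : OmE E I) :
    paPres (paPi τ S ε) p (paL τ S x) ↔ -paZ τ S ε x p.1 = p.2 := neg_eq_iff_add_eq_zero.symm

section
variable (hτ : τ.ND) (hε : ∀ r ∈ paR τ S, τ.q r = τ.be r ε) (c : (I → E) → ℂ)
include hτ hε

lemma pa_mem (θ : ℝ) (v : I → PaG τ S) (x : OmE E I) :
    (v, -paZ τ S ε x v) ∈ paPP τ S ε c θ ↔ θ ≤ paEn τ S c v x :=
  ⟨fun ⟨_, h1, h2⟩ => h2.trans_eq (pa_inv hτ hε c v (h1.trans (neg_neg _))),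
    fun h1 => ⟨x, (neg_neg _).symm, h1⟩⟩

lemma pa_NN (θ : ℝ) (x : OmE E I) :
    (sm fun p => ind (p ∈ paPP τ S ε c θ ∧ paPres (paPi τ S ε) p (paL τ S x))) =
      sm fun v => ind (θ ≤ paEn τ S c v x) := by
  rw [sm_prod]
  refine sm_congr fun v => ?_
  rw [← ind_congr (pa_mem hτ hε c θ v x),
    ← sm_ind_eq' (-paZ τ S ε x v) fun ξ => ind ((v, ξ) ∈ paPP τ S ε c θ)]
  refine sm_congr fun ξ => ?_
  rw [ind_and, ind_congr (pa_pres (v, ξ) x), mul_comm]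

lemma pa_tame {D : ℕ → ℝ} (hD : CT D (fld τ c)) {θ : ℝ} (hθ : 0 < θ) :
    Tame (fun p => D (2 * p) / θ ^ p) fun x : OmE (PaG τ S) I =>
      sm fun p => ind (p ∈ paPP τ S ε c θ ∧ paPres (paPi τ S ε) p x) := by
  intro p
  rw [← pa_sum_Kv τ S c] at hD
  rw [← av_surj (paL τ S) paL_add paL_surj]
  refine le_trans (av_mono fun x => ?_) ((av_div (θ ^ p) _).trans_le
    (div_le_div_of_nonneg_right ((pa_data τ S c).sumE_pow hD p) (by positivity)))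
  have h0 : 0 ≤ sm fun v => ind (θ ≤ paEn τ S c v x) := sm_nonneg fun _ => ind_nonneg _
  beta_reduce
  rw [pa_NN hτ hε, abs_of_nonneg h0, ← div_pow]
  exact pow_le_pow_left₀ h0 (pa_count_le hθ x) p

/-- the bound on one cell -/
lemma pa_cell {θ T δ : ℝ} (hθ : 0 < θ) (hT : 0 < T) (hδ : 0 < δ) (x : OmE E I) (Φ : Lab I K) :
    (av fun y => (fun M => 2 * (fld τ c M *
        conj (paK0 (paS S) (paS (τ.perp S)) (paKv τ S c) θ M)).re -
        (1 + δ) * ‖paK0 (paS S) (paS (τ.perp S)) (paKv τ S c) θ M‖ ^ 2 - δ * ‖fld τ c M‖ ^ 2 -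
        (1 + 2 / δ) / T * paW (paS S) (paS (τ.perp S)) (paKv τ S c) θ M) (cell x Φ y)) -
      (1 + 2 / δ) * T * (av fun y => ind (∃ p ∈ paPP τ S ε c θ,
        paPres (paPi τ S ε) p (paL τ S (cell x Φ y)) ∧ Gen (wl p.1 Φ))) ≤
      ng τ (res (fld τ c) x Φ) := by
  obtain ⟨a, ha, hf⟩ := pa_field hε c fun v ξ =>
    (ind ((v, -ξ) ∈ paPP τ S ε c θ ∧ ¬ Gen (wl v Φ)) : ℝ)
  have hg : ∀ M, fld τ a M = csm fun v => paKv τ S c v M *
      (ind (θ ≤ paEn τ S c v M ∧ ¬ Gen (wl v Φ)) : ℝ) := fun M => by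
    rw [← hf]
    exact csm_congr fun v => by rw [ind_congr (and_congr_left' (pa_mem hτ hε c θ v M))]
  have h0 := ng_ge τ (res (fld τ c) x Φ) (rc τ a x Φ) (pa_rc (S := S) τ x Φ fun w hw hn => by
    obtain ⟨ξ, hξ⟩ := ha w hw
    exact hξ (by rw [ind_neg fun hh => hh.2 hn, Complex.ofReal_zero]))
  rw [← n2_fld hτ, ← res_fld, ip, cav_re, n2] at h0
  refine le_trans ?_ h0
  rw [← av_mul_left, ← av_sub, ← av_mul_left, ← av_sub]
  refine av_mono fun y => ?_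
  simp only [res]
  generalize cell x Φ y = N
  refine le_trans ?_ (pa_point hδ (fld τ c N) (paK0 (paS S) (paS (τ.perp S)) (paKv τ S c) θ N)
    (fld τ a N))
  have h1 := pa_err (s1 := paS S) (s2 := paS (τ.perp S)) (Kv := paKv τ S c) hθ hT
    (fun v => ¬ Gen (wl v Φ)) N
  rw [← hg] at h1
  have h2 : ind (∃ v, θ ≤ paEn τ S c v N ∧ ¬¬ Gen (wl v Φ)) ≤
      ind (∃ p ∈ paPP τ S ε c θ, paPres (paPi τ S ε) p (paL τ S N) ∧ Gen (wl p.1 Φ)) :=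
    ind_mono fun ⟨v, hv, hr⟩ => ⟨(v, -paZ τ S ε N v), (pa_mem hτ hε c θ v N).2 hv,
      (pa_pres _ N).2 rfl, not_not.1 hr⟩
  have h3 := mul_le_mul_of_nonneg_left (h1.trans (add_le_add_left
    (mul_le_mul_of_nonneg_left h2 hT.le) _)) (show 0 ≤ 1 + 2 / δ by positivity)
  have e : (1 + 2 / δ) / T * paW (paS S) (paS (τ.perp S)) (paKv τ S c) θ N =
      (1 + 2 / δ) * (paW (paS S) (paS (τ.perp S)) (paKv τ S c) θ N / T) := by ring
  rw [e]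
  linarith

lemma pa_gain {D : ℕ → ℝ} (hK : CT D (fld τ c)) {θ T δ η η' : ℝ} (hθ : 0 < θ) (hT : 0 < T)
    (hδ : 0 < δ) (hη : η' ≤ η) (A : GFam (PaG τ S) I K) (hj : A.junk ≤ η')
    (hb : (A.E fun x Φ => av fun y => ind (∃ p ∈ paPP τ S ε c θ,
      paPres (paPi τ S ε) p (cell x Φ y) ∧ Gen (wl p.1 Φ))) ≤ η') :
    Gain τ (fld τ c) K η (paK (paS S) (paS (τ.perp S)) (paKv τ S c) θ -
      2 * δ * D 2 - (1 + 2 / δ) / T * (2 * D 8 / θ ^ 2) - (1 + 2 / δ) * T * η') := by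
  obtain ⟨A', hm, he⟩ := pa_fam A
  have hD : CT D fun M => csm fun v => paKv τ S c v M := by rw [pa_sum_Kv]; exact hK
  have hd := pa_data τ S c
  refine ⟨A', hm.trans_le (hj.trans hη), le_trans ?_ (Fam.mono A' (pa_cell hτ hε c hθ hT hδ))⟩
  rw [Fam.sub, A'.smul, he fun x Φ => ind (∃ p ∈ paPP τ S ε c θ,
      paPres (paPi τ S ε) p x ∧ Gen (wl p.1 Φ)), A'.marg fun M => 2 * (fld τ c M *
        conj (paK0 (paS S) (paS (τ.perp S)) (paKv τ S c) θ M)).re -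
        (1 + δ) * ‖paK0 (paS S) (paS (τ.perp S)) (paKv τ S c) θ M‖ ^ 2 - δ * ‖fld τ c M‖ ^ 2 -
        (1 + 2 / δ) / T * paW (paS S) (paS (τ.perp S)) (paKv τ S c) θ M, av_sub, av_sub, av_sub, av_mul_left,
    av_mul_left, av_mul_left, av_mul_left]
  have h1 := hd.inner_K0 θ
  rw [pa_sum_Kv, ip, cav_re] at h1
  have h0 := hd.sq_K0 θ
  rw [n2] at h0
  rw [h1, h0]
  have h2 := mul_le_mul_of_nonneg_left (hd.K_le hD θ) hδ.le
  have h3 := mul_le_mul_of_nonneg_left (Tame.sq hK) hδ.le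
  have h4 := mul_le_mul_of_nonneg_left (hd.W_le hD θ) (show 0 ≤ (1 + 2 / δ) / T by positivity)
  have h5 := mul_le_mul_of_nonneg_left hb (show 0 ≤ (1 + 2 / δ) * T by positivity)
  linarith

end

/-- the particle statement in the form used here -/
def PaRP (G : Type) [AddCommGroup G] : Prop :=
  ∀ (e : G) (D : ℕ → ℝ) (K : Type) [Finite K] (η : ℝ), 0 < η → ∃ n0 : ℕ,
    ∀ (I : Type) [Finite I], n0 ≤ Nat.card I → ∀ P : Set ((I → G) × (I → G)),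
      Tame D (fun x : OmE G I => sm fun p => ind (p ∈ P ∧ paPres e p x)) →
      ∃ A : GFam G I K, A.junk ≤ η ∧ (A.E fun x Φ => av fun y =>
        ind (∃ p ∈ P, paPres e p (cell x Φ y) ∧ Gen (wl p.1 Φ))) ≤ η

theorem pa_of' (hτ : τ.ND)
    (h : ∀ (G : Type) [AddCommGroup G] [Finite G] [Nontrivial G], PaRP G) : PA τ := by
  intro D ηS hηS
  obtain ⟨d, hd0, hd⟩ : ∃ d : ℕ → ℝ, (∀ p, 0 < d p) ∧ ∀ p, D p ≤ d p :=
    ⟨fun p => |D p| + 1, fun p => by positivity, fun p => by linarith [le_abs_self (D p)]⟩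
  have h2 := hd0 2
  have h6 := hd0 6
  have h8 := hd0 8
  obtain ⟨θ, hθ, hθe⟩ : ∃ θ : ℝ, 0 < θ ∧ θ * d 2 = ηS / 2 :=
    ⟨ηS / 2 / d 2, by positivity, by field_simp⟩
  obtain ⟨κ, hκ, hκe⟩ : ∃ κ : ℝ, 0 < κ ∧ d 6 * κ = (ηS / 2) ^ 2 :=
    ⟨(ηS / 2) ^ 2 / d 6, by positivity, by field_simp⟩
  obtain ⟨δ, hδ, hδe⟩ : ∃ δ : ℝ, 0 < δ ∧ 2 * δ * d 2 = κ / 4 :=
    ⟨κ / 8 / d 2, by positivity, by field_simp; ring⟩
  obtain ⟨T, hT, hTe⟩ : ∃ T : ℝ, 0 < T ∧ (1 + 2 / δ) / T * (2 * d 8 / θ ^ 2) = κ / 8 :=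
    ⟨(1 + 2 / δ) * (2 * d 8 / θ ^ 2) * 8 / κ, by positivity, by field_simp⟩
  refine ⟨κ / 2, by positivity, fun K _ η hη => ?_⟩
  obtain ⟨η', hη', h1, h3⟩ : ∃ η' : ℝ, 0 < η' ∧ η' ≤ η ∧ (1 + 2 / δ) * T * η' ≤ κ / 8 := by
    have hc : 0 < (1 + 2 / δ) * T := by positivity
    refine ⟨min η (κ / 8 / ((1 + 2 / δ) * T)), by positivity, min_le_left _ _, ?_⟩
    rw [mul_comm, ← le_div_iff₀ hc]
    exact min_le_right _ _
  have hN : ∀ S : AddSubgroup E, ∃ n0 : ℕ, S ⊓ τ.perp S ≠ ⊥ → ∀ (I : Type) [Finite I],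
      n0 ≤ Nat.card I → ∀ c : (I → E) → ℂ, CT D (fld τ c) → ηS ≤ box (fld τ c) S (τ.perp S) →
        Gain τ (fld τ c) K η (κ / 2) := by
    intro S
    by_cases hS : S ⊓ τ.perp S = ⊥
    · exact ⟨0, fun h' => absurd hS h'⟩
    have := pa_nontrivial hτ hS
    obtain ⟨ε, hε⟩ := pa_eps hτ S
    obtain ⟨n0, hn⟩ := h (PaG τ S) (paPi τ S ε) (fun p => d (2 * p) / θ ^ p) K η' hη'
    refine ⟨n0, fun _ I _ hI c hc hbox => ?_⟩
    have hK : CT d (fld τ c) := fun p => (hc p).trans (hd p)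
    obtain ⟨A, a1, a2⟩ := hn I hI _ (pa_tame hτ hε c hK hθ)
    obtain ⟨A', hj, hg⟩ := pa_gain hτ hε c hK hθ hT hδ h1 A a1 a2
    refine ⟨A', hj, le_trans ?_ hg⟩
    have hD : CT d fun M => csm fun v => paKv τ S c v M := by rw [pa_sum_Kv]; exact hK
    have hb := (pa_data τ S c).box_le
    rw [pa_sum_Kv, ← pa_box] at hb
    have h4 := (pa_data τ S c).le_K hD hηS hθ.le hθe.le (hbox.trans hb)
    rw [← hκe] at h4
    have h5 := le_of_mul_le_mul_left h4 h6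
    linarith
  choose N hN using hN
  obtain ⟨n0, hn0⟩ := (Set.finite_range N).bddAbove
  exact ⟨n0, fun I _ hI c hc S hS => hN S hS I ((hn0 ⟨S, rfl⟩).trans hI) c hc⟩

end NE
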