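import Pool.Agent.Lib.MP_ecee09_co.NE.Stmts4

/-! The two pigeonholes. -/

namespace NE

open SD Finset

/-- A staircase in a square has few points. -/
theorem pig_stair {m : ℕ} (E : Fin m × Fin m → Prop)
    (h : ∀ u v, E u → E v → u.2 < v.2 → u.1 ≤ v.1) : (sm fun u => ind (E u)) ≤ 2 * m := by
  refine (sm_ind_le_of_inj E (fun _ : Fin (2 * m) => True) (fun u y => (y : ℕ) = u.1 + u.2)
    (fun u _ => ⟨⟨u.1 + u.2, by have := u.1.2; have := u.2.2; omega⟩, trivial, rfl⟩)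
    fun u v y hu hv e e' => ?_).trans ?_
  · have a := h u v hu hv
    have b := h v u hv hu
    simp only [Fin.lt_def, Fin.le_def] at a b
    exact Prod.ext (Fin.ext (by omega)) (Fin.ext (by omega))
  · simp [ind_pos trivial, sm_const]

theorem pig : PIG := by
  intro N R0 Ff η hη
  obtain ⟨m, hm⟩ := exists_nat_gt (2 * (N + 1) / η)
  have m0 : (0 : ℝ) < m := lt_trans (by positivity) hm
  have : Nonempty (Fin m) := ⟨⟨0, by exact_mod_cast m0⟩⟩
  let R : ℕ → ℕ := fun i => (fun r => max (Ff r) r)^[i] R0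
  have R1 : ∀ i, R (i + 1) = max (Ff (R i)) (R i) := fun i => Function.iterate_succ_apply' _ _ _
  have Rm : Monotone R := monotone_nat_of_le_succ fun i => R1 i ▸ le_max_right _ _
  have RF : ∀ {i j : ℕ}, i < j → Ff (R i) ≤ R j := fun {i j} h =>
    (R1 i ▸ le_max_left _ _ : Ff (R i) ≤ R (i + 1)).trans (Rm h)
  refine ⟨R m, fun Q => ⟨(Q + 1) ^ m, fun X Z _ _ hZ k b hb ha => ?_⟩⟩
  obtain ⟨u, hu⟩ := exists_le_av fun u : Fin m × Fin m => av fun x => ind (¬ (Ff (R u.1) < k x ∨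
    (k x ≤ R u.1 ∧ ∀ z, 1 ≤ R u.1 * b z x (Q * (Q + 1) ^ (u.2 : ℕ)) ∨
      Ff (R u.1) * b z x ((Q + 1) ^ (u.2 : ℕ)) ≤ 1)))
  refine ⟨R u.1, (Q + 1) ^ (u.2 : ℕ), Rm (Nat.zero_le _), Rm u.1.2.le,
    Nat.one_le_pow _ _ Q.succ_pos, Nat.pow_le_pow_right Q.succ_pos u.2.2.le, hu.trans ?_⟩
  rw [av_comm]
  have key : ∀ x, (av fun u : Fin m × Fin m => ind (¬ (Ff (R u.1) < k x ∨
      (k x ≤ R u.1 ∧ ∀ z, 1 ≤ R u.1 * b z x (Q * (Q + 1) ^ (u.2 : ℕ)) ∨
        Ff (R u.1) * b z x ((Q + 1) ^ (u.2 : ℕ)) ≤ 1)))) ≤ η := fun x => by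
    have k1 : (sm fun u : Fin m × Fin m => ind (R u.1 < k x ∧ k x ≤ Ff (R u.1))) ≤ 2 * m :=
      pig_stair _ fun u v hu hv _ => not_lt.1 fun t =>
        (hu.1.trans_le hv.2).not_ge (RF (Fin.lt_def.1 t))
    have k2 : ∀ z, (sm fun u : Fin m × Fin m => ind (R u.1 * b z x (Q * (Q + 1) ^ (u.2 : ℕ)) < 1 ∧
        1 < Ff (R u.1) * b z x ((Q + 1) ^ (u.2 : ℕ)))) ≤ 2 * m := fun z =>
      pig_stair _ fun u v hu hv e => not_lt.1 fun t => by
        have a : b z x ((Q + 1) ^ (v.2 : ℕ)) ≤ b z x (Q * (Q + 1) ^ (u.2 : ℕ)) :=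
          ha z x ((Nat.mul_le_mul_right _ Q.le_succ).trans ((pow_succ' _ _).symm.trans_le
            (Nat.pow_le_pow_right Q.succ_pos (Fin.lt_def.1 e))))
        have c : (Ff (R v.1) : ℝ) ≤ R u.1 := Nat.cast_le.2 (RF (Fin.lt_def.1 t))
        exact (hu.1.trans hv.2).not_ge (mul_le_mul c a (hb z x _).1 (Nat.cast_nonneg _))
    rw [av_def, div_le_iff₀ card_pos']
    refine (sm_mono (g := fun u : Fin m × Fin m => ind (R u.1 < k x ∧ k x ≤ Ff (R u.1)) +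
      sm fun z => ind (R u.1 * b z x (Q * (Q + 1) ^ (u.2 : ℕ)) < 1 ∧
        1 < Ff (R u.1) * b z x ((Q + 1) ^ (u.2 : ℕ)))) fun u => ?_).trans ?_
    · refine le_trans (ind_mono fun t => ?_)
        ((ind_or_le _ _).trans (add_le_add le_rfl (ind_exists_le _)))
      simp only [not_or, not_and_or, not_forall, not_le, not_lt] at t
      exact t.2.imp_left fun s => ⟨s, t.1⟩
    · rw [sm_add, sm_comm]
      refine (add_le_add k1 (sm_mono k2)).trans ?_
      rw [sm_const, Nat.card_prod, Nat.card_fin, Nat.cast_mul]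
      have z : (Nat.card Z : ℝ) ≤ N := Nat.cast_le.2 hZ
      rw [div_lt_iff₀ hη] at hm
      nlinarith [mul_le_mul_of_nonneg_right z m0.le, mul_le_mul_of_nonneg_right hm.le m0.le]
  exact (av_mono key).trans (by
    rw [← mul_one η, av_mul_left, mul_one]
    exact mul_le_of_le_one_right hη.le av_one_le)

end NE
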