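import Pool.Agent.Lib.MP_ecee09_co.NE.Defs3
import Pool.Agent.Lib.MP_ecee09_co.NE.FldR

/-! Orthogonal splitting of the group: fields in two variables. -/

namespace NE

open SD
open ComplexConjugate

variable {E I K : Type} [AddCommGroup E] {τ : QT E} {S T : AddSubgroup E}

/-- the sum of a vector in `S` and a vector in `T` -/
def mrg (a : I → S) (b : I → T) : I → E := fun i => (a i : E) + b i

/-- an orthogonal splitting -/
structure Spl (τ : QT E) (S T : AddSubgroup E) : Prop where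
  orth : ∀ (s : S) (t : T), τ.be s t = 0
  inj : ∀ (s s' : S) (t t' : T), (s : E) + t = s' + t' → s = s'
  inj' : ∀ (s s' : S) (t t' : T), (s : E) + t = s' + t' → t = t'
  surj : ∀ e : E, ∃ (s : S) (t : T), (s : E) + t = e

lemma Spl.symm (h : Spl τ S T) : Spl τ T S where
  orth t s := by rw [τ.symm]; exact h.orth s t
  inj t t' s s' e := h.inj' s s' t t' (by rw [add_comm, e, add_comm])
  inj' t t' s s' e := h.inj s s' t t' (by rw [add_comm, e, add_comm])
  surj e := by
    obtain ⟨s, t, hst⟩ := h.surj e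
    exact ⟨t, s, by rw [add_comm, hst]⟩

lemma mrg_comm (a : I → S) (b : I → T) : mrg a b = mrg b a := funext fun _ => add_comm _ _

lemma mrg_add (a a' : I → S) (b b' : I → T) : mrg (a + a') (b + b') = mrg a b + mrg a' b' := by
  funext i; simp only [mrg, Pi.add_apply, AddSubgroup.coe_add]; abel

lemma spr_mg (a : K → S) (b : K → T) (Φ : Lab I K) : spr (mrg a b) Φ = mrg (spr a Φ) (spr b Φ) := by
  funext i; simp only [spr, mrg]; cases Φ i <;> simp [mrg]

lemma cell_mg (a : I → S) (b : I → T) (A : Om I) (Φ : Lab I K) (t : K → S) (u : K → T)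
    (Q : Om K) : cell (mrg a b, A) Φ (mrg t u, Q) =
      (mrg (cell (a, A) Φ (t, Q)).1 (cell (b, A) Φ (u, Q)).1, ow A Φ Q) := by
  simp only [cell, spr_mg, mrg_add]

/-- the splitting of vectors -/
noncomputable def Spl.e (h : Spl τ S T) (I : Type) : (I → S) × (I → T) ≃ (I → E) :=
  Equiv.ofBijective (fun p => mrg p.1 p.2) ⟨fun p q e => Prod.ext
    (funext fun i => h.inj _ _ _ _ (congrFun e i)) (funext fun i => h.inj' _ _ _ _ (congrFun e i)),
    fun w => by
      choose s t hst using h.surj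
      exact ⟨(fun i => s (w i), fun i => t (w i)), funext fun i => hst _⟩⟩

lemma Spl.e_symm (h : Spl τ S T) (a : I → S) (b : I → T) : (h.e I).symm (mrg a b) = (a, b) :=
  (h.e I).symm_apply_apply (a, b)

lemma Spl.gen (h : Spl τ S T) {a : I → S} {b : I → T} (hg : Gen (mrg a b)) : Gen a := by
  refine eq_top_iff.2 fun s _ => ?_
  have h1 : AddSubgroup.closure (Set.range (mrg a b)) ≤
      (AddSubgroup.closure (Set.range a)).map S.subtype ⊔ T := by
    rw [AddSubgroup.closure_le]
    rintro _ ⟨i, rfl⟩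
    exact AddSubgroup.add_mem_sup
      (AddSubgroup.mem_map_of_mem _ (AddSubgroup.subset_closure ⟨i, rfl⟩)) (b i).2
  obtain ⟨_, ⟨y, hy, rfl⟩, z, hz, e⟩ := AddSubgroup.mem_sup.1 (h1 (hg ▸ AddSubgroup.mem_top (s : E)))
  exact h.inj y s ⟨z, hz⟩ 0 (by simpa using e) ▸ hy

lemma Spl.nd (h : Spl τ S T) (hτ : τ.ND) : (τ.sub S).ND := fun x hx =>
  Subtype.ext (hτ x (AddMonoidHom.ext fun e => by
    obtain ⟨s, t, rfl⟩ := h.surj e
    have : τ.be x s = 0 := DFunLike.congr_fun hx s
    rw [map_add, this, h.orth, add_zero]; rfl))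

variable [Finite E] [Finite I] [Finite K]

lemma spl_perp (hτ : τ.ND) (h0 : S ⊓ τ.perp S = ⊥) : Spl τ S (τ.perp S) := by
  have key : ∀ (s s' : S) (t t' : τ.perp S), (s : E) + t = s' + t' → s = s' := fun s s' t t' e => by
    have e' : (s : E) - s' = t' - t := by rw [sub_eq_sub_iff_add_eq_add, e, add_comm]
    have : (s : E) - s' ∈ S ⊓ τ.perp S := ⟨S.sub_mem s.2 s'.2, e' ▸ (τ.perp S).sub_mem t'.2 t.2⟩
    rw [h0, AddSubgroup.mem_bot, sub_eq_zero] at this
    exact Subtype.ext this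
  have key' : ∀ (s s' : S) (t t' : τ.perp S), (s : E) + t = s' + t' → t = t' :=
    fun s s' t t' e => by
      rw [key s s' t t' e] at e
      exact Subtype.ext (add_left_cancel e)
  refine ⟨fun s t => t.2 s s.2, key, key', fun e => ?_⟩
  obtain ⟨p, hp⟩ := ((Nat.bijective_iff_injective_and_card
    fun p : S × τ.perp S => (p.1 : E) + p.2).2 ⟨fun p q e => Prod.ext (key _ _ _ _ e)
      (key' _ _ _ _ e), by rw [Nat.card_prod, hτ.card_perp]⟩).2 e
  exact ⟨p.1, p.2, hp⟩

lemma Spl.av_mg (h : Spl τ S T) (f : (I → E) → ℝ) :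
    av f = av fun a : I → S => av fun b : I → T => f (mrg a b) := by
  rw [← av_equiv (h.e I), av_prod]; rfl

lemma Spl.sm_mg (h : Spl τ S T) (f : (I → E) → ℝ) :
    sm f = sm fun a : I → S => sm fun b : I → T => f (mrg a b) := by
  rw [← sm_equiv (h.e I), sm_prod]; rfl

lemma Spl.cav_mg (h : Spl τ S T) (f : (I → E) → ℂ) :
    cav f = cav fun a : I → S => cav fun b : I → T => f (mrg a b) := by
  rw [← cav_equiv (h.e I), cav_prod]; rfl

lemma Spl.csm_mg (h : Spl τ S T) (f : (I → E) → ℂ) :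
    csm f = csm fun a : I → S => csm fun b : I → T => f (mrg a b) := by
  rw [← csm_equiv (h.e I), csm_prod]; rfl

/-- averages over patterns with a vector -/
lemma Spl.av_om (h : Spl τ S T) (f : OmE E I → ℝ) :
    av f = av fun x : OmE S I => av fun b : I → T => f (mrg x.1 b, x.2) := by
  rw [av_prod, h.av_mg, av_prod]
  exact av_congr fun a => av_comm _

lemma Spl.cav_om (h : Spl τ S T) (f : OmE E I → ℂ) :
    cav f = cav fun x : OmE S I => cav fun b : I → T => f (mrg x.1 b, x.2) := by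
  rw [cav_prod, h.cav_mg, cav_prod]
  exact cav_congr fun a => cav_comm _

omit [Finite E] in
lemma Spl.brk_zero (h : Spl τ S T) (a : I → S) (v : I → E) (hv : ∀ i, v i ∈ T) :
    brk τ (fun i => (a i : E)) v = 0 := by
  let _ := Fintype.ofFinite I
  rw [brk_eq]
  exact Finset.sum_eq_zero fun i _ => h.orth (a i) ⟨v i, hv i⟩

omit [Finite E] in
lemma Spl.chi_mg (h : Spl τ S T) (w a : I → S) (v b : I → T) (P : Om I) :
    chi τ (mrg w v) (mrg a b, P) = chi (τ.sub S) w (a, P) * chi (τ.sub T) v (b, P) := by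
  let _ := Fintype.ofFinite I
  have h1 := h.brk_zero w (fun i => (b i : E)) fun i => (b i).2
  have h2 := h.symm.brk_zero v (fun i => (a i : E)) fun i => (a i).2
  have h3 := h.brk_zero w (adj P fun i => (v i : E)) fun i => by
    rw [adj_eq]; exact sum_mem fun j _ => nsmul_mem (v j).2 _
  have e1 : brk τ (mrg w v) (mrg a b) = brk (τ.sub S) w a + brk (τ.sub T) v b := by
    have : brk τ (mrg w v) (mrg a b) = brk τ ((fun i => (w i : E)) + fun i => (v i : E))
      ((fun i => (a i : E)) + fun i => (b i : E)) := rfl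
    rw [this, brk_add_left, brk_add_right, brk_add_right, h1, h2, add_zero, zero_add]; rfl
  have e2 : th τ (mrg w v) P = th (τ.sub S) w P + th (τ.sub T) v P := by
    have : th τ (mrg w v) P = th τ ((fun i => (w i : E)) + fun i => (v i : E)) P := rfl
    rw [this, th_add, h3, add_zero]; rfl
  simp only [chi, e1, e2, ← ee_add]
  congr 1; abel

lemma Spl.fld_mg (h : Spl τ S T) (c : (I → E) → ℂ) (a : I → S) (b : I → T) (P : Om I) :
    fld τ c (mrg a b, P) =
      fld (τ.sub T) (fun v => fld (τ.sub S) (fun w => c (mrg w v)) (a, P)) (b, P) := by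
  simp only [fld, ← csm_mul_right]
  rw [h.csm_mg, csm_comm]
  exact csm_congr fun v => csm_congr fun w => by rw [h.chi_mg, mul_assoc]

lemma cav_fld_conj (hτ : τ.ND) (c d : (I → E) → ℂ) (P : Om I) :
    (cav fun b : I → E => fld τ c (b, P) * conj (fld τ d (b, P))) =
      csm fun w => c w * conj (d w) := by
  rw [← tw_pars hτ]; simp only [tw_fld hτ]

/-- contraction of the coefficients against a vector -/
noncomputable def ctr (S : AddSubgroup E) (c : (I → E) → ℂ) (d : (I → T) → ℂ) (w : I → S) : ℂ :=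
  csm fun v => c (mrg w v) * conj (d v)

lemma Spl.fld_ctr (h : Spl τ S T) (hτ : τ.ND) (c : (I → E) → ℂ) (d : (I → T) → ℂ) (a : I → S)
    (P : Om I) : fld (τ.sub S) (ctr S c d) (a, P) =
      cav fun b : I → T => fld τ c (mrg a b, P) * conj (fld (τ.sub T) d (b, P)) := by
  simp only [h.fld_mg, cav_fld_conj (h.symm.nd hτ)]
  rw [show ctr S c d = fun w => csm fun v => conj (d v) * c (mrg w v) from
    funext fun w => csm_congr fun v => mul_comm _ _, fld_csm]
  exact csm_congr fun v => by rw [fld_mul_left, mul_comm]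

lemma Spl.ctr_sq (h : Spl τ S T) (hτ : τ.ND) (c : (I → E) → ℂ) (d : (I → T) → ℂ) (x : OmE S I) :
    ‖fld (τ.sub S) (ctr S c d) x‖ ^ 2 ≤
      (av fun b : I → T => ‖fld τ c (mrg x.1 b, x.2)‖ ^ 2) * sm fun v => ‖d v‖ ^ 2 := by
  rw [← av_fld_sq (h.symm.nd hτ) d x.2, show x = (x.1, x.2) from rfl, h.fld_ctr hτ]
  simpa only [n2, Complex.norm_conj] using norm_cav_cs (fun b : I → T => fld τ c (mrg x.1 b, x.2))
    fun b => conj (fld (τ.sub T) d (b, x.2))

lemma Spl.ctr_pow (h : Spl τ S T) (hτ : τ.ND) (c : (I → E) → ℂ) (d : (I → T) → ℂ) (p : ℕ) :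
    (av fun x => ‖fld (τ.sub S) (ctr S c d) x‖ ^ (2 * p)) ≤
      (sm fun v => ‖d v‖ ^ 2) ^ p * av fun x => ‖fld τ c x‖ ^ (2 * p) := by
  rw [h.av_om, ← av_mul_left]
  refine av_mono fun x => ?_
  have h0 : 0 ≤ av fun b : I → T => ‖fld τ c (mrg x.1 b, x.2)‖ ^ 2 := av_nonneg fun _ => by positivity
  have h1 := abs_av_pow_le (fun b : I → T => ‖fld τ c (mrg x.1 b, x.2)‖ ^ 2) p
  rw [abs_of_nonneg h0] at h1
  simp only [abs_pow, abs_norm, ← pow_mul] at h1
  rw [pow_mul, mul_comm]
  refine (pow_le_pow_left₀ (by positivity) (h.ctr_sq hτ c d x) p).trans ?_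
  rw [mul_pow]
  exact mul_le_mul_of_nonneg_right h1 (pow_nonneg (sm_nonneg fun _ => by positivity) _)

/-- the product of a field of `S` and a field of `T` -/
noncomputable def Spl.tp (h : Spl τ S T) (f : (I → S) → ℂ) (g : (I → T) → ℂ) (w : I → E) : ℂ :=
  f ((h.e I).symm w).1 * g ((h.e I).symm w).2

omit [Finite E] [Finite I] in
lemma Spl.tp_mg (h : Spl τ S T) (f : (I → S) → ℂ) (g : (I → T) → ℂ) (a : I → S) (b : I → T) :
    h.tp f g (mrg a b) = f a * g b := by rw [Spl.tp, h.e_symm]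

lemma Spl.fld_tp (h : Spl τ S T) (f : (I → S) → ℂ) (g : (I → T) → ℂ) (a : I → S) (b : I → T)
    (P : Om I) : fld τ (h.tp f g) (mrg a b, P) = fld (τ.sub S) f (a, P) * fld (τ.sub T) g (b, P) := by
  simp only [h.fld_mg, h.tp_mg, mul_comm (f _), fld_mul_left]
  simp only [mul_comm (g _), fld_mul_left]

lemma Spl.sm_tp (h : Spl τ S T) (f : (I → S) → ℂ) (g : (I → T) → ℂ) :
    (sm fun w => ‖h.tp f g w‖ ^ 2) = (sm fun a => ‖f a‖ ^ 2) * sm fun b => ‖g b‖ ^ 2 := by
  rw [h.sm_mg, sm_mul_sm]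
  simp only [h.tp_mg, norm_mul, mul_pow]

omit [Finite E] [Finite I] in
lemma Spl.tp_gen (h : Spl τ S T) {f : (I → S) → ℂ} (hf : ∀ a, Gen a → f a = 0)
    (g : (I → T) → ℂ) (w : I → E) (hw : Gen w) : h.tp f g w = 0 := by
  obtain ⟨p, rfl⟩ := (h.e I).surjective w
  exact (h.tp_mg f g p.1 p.2).trans (by rw [hf _ (h.gen hw), zero_mul])

/-- lift of a family -/
lemma Spl.lift (h : Spl τ S T) (A : GFam S I K) : ∃ A' : GFam E I K,
    (∀ f, A'.E f = A.E fun x Φ => av fun b : I → T => f (mrg x.1 b, x.2) Φ) ∧ A'.junk = A.junk := by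
  obtain ⟨A', hA⟩ := A.transport (a := fun (x : OmE E I) (Φ : Lab I K) (y : OmE E K) => cell x Φ y)
    (fun x _ (b : I → T) => (mrg x.1 b, x.2)) (fun _ Φ _ => Φ) fun g => by
      rw [h.av_om g, ← A.marg]
      refine A.congr' fun x Φ => ?_
      simp only [h.av_om fun y : OmE E K => g (cell _ Φ y)]
      rw [av_comm]
      refine av_congr fun y => ?_
      rw [av_comm]
      refine (av_congr fun u => ?_).trans (av_const _)
      simp only [cell_mg]
      exact av_add_right (fun b : I → T => g (mrg (x.1 + spr y.1 Φ) b, ow x.2 Φ y.2)) (spr u Φ)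
  exact ⟨A', hA, by simp only [Fam.junk, hA, av_const]⟩

lemma Spl.xb2_eq (h : Spl τ S T) (k : (I → E) → ℂ) : xb2 k Set.univ S T =
    av fun a' : I → S => av fun a : I → S =>
      ‖cav fun b : I → T => k (mrg a b) * conj (k (mrg a' b))‖ ^ 2 := by
  have e1 : ∀ (a s : I → S) (b : I → T), mrg a b + sft Set.univ S s = mrg (a + s) b :=
    fun a s b => funext fun i => by
      simp only [mrg, sft, Pi.add_apply, Set.mem_univ, if_true, AddSubgroup.coe_add]; abel
  have e2 : ∀ (a : I → S) (b t : I → T), mrg a b + sft Set.univ T t = mrg a (b + t) :=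
    fun a b t => funext fun i => by
      simp only [mrg, sft, Pi.add_apply, Set.mem_univ, if_true, AddSubgroup.coe_add]; abel
  rw [xb2, gb2, h.cav_mg, av_comm, cav_re]
  refine av_congr fun a => ?_
  rw [cav_comm, cav_re]
  refine (av_congr fun s => ?_).trans (av_add_left
    (fun a' => ‖cav fun b : I → T => k (mrg a b) * conj (k (mrg a' b))‖ ^ 2) a)
  simp only [dd, e1, e2]
  have e3 : ∀ b : I → T, (cav fun t : I → T => k (mrg a b) * conj (k (mrg (a + s) b)) *
      conj (k (mrg a (b + t)) * conj (k (mrg (a + s) (b + t))))) =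
      k (mrg a b) * conj (k (mrg (a + s) b)) *
        conj (cav fun t : I → T => k (mrg a t) * conj (k (mrg (a + s) t))) := fun b => by
    rw [cav_mul_left, conj_cav,
      cav_add_left (fun t : I → T => conj (k (mrg a t) * conj (k (mrg (a + s) t)))) b]
  refine (congrArg Complex.re (cav_congr e3)).trans ?_
  rw [cav_mul_right, mul_conj'', Complex.ofReal_re]

end NE
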