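import Pool.Agent.Lib.MP_ecee09_co.NE.Stmts4
import Pool.Agent.Lib.MP_ecee09_co.NE.CBase

/-! Factorial moments: the terms of non zero alternating maps cancel. -/

namespace NE

open SD

lemma pu4_upd {M X : Type} [Finite M] [Finite X] [DecidableEq M] (r : M) (G : (M → X) → ℂ) :
    csm (fun q : M → X => csm fun x => G (Function.update q r x)) = Nat.card X * csm G := by
  have hi : Function.Involutive fun z : (M → X) × X => (Function.update z.1 r z.2, z.1 r) :=
    fun z => by simp
  have h := csm_equiv hi.toPerm fun z => G z.1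
  rw [csm_prod, csm_prod fun z : (M → X) × X => G z.1] at h
  refine h.trans ?_
  rw [← csm_mul_left]
  exact csm_congr fun q => csm_const (G q)

variable {Γ I M : Type} [AddCommGroup Γ]

lemma pu4_pair [Fintype M] [DecidableEq M] (μ : (M → Γ) →+ Ch (M → Γ))
    (hd : ∀ d ∈ Dg M Γ, μ d = 0) (h0 : μ ≠ 0) :
    ∃ r s, r ≠ s ∧ ∃ g h, μ (Pi.single r g) (Pi.single s h) ≠ 0 := by
  by_contra hc
  push Not at hc
  refine h0 (AddMonoidHom.functions_ext _ _ _ fun r g => AddMonoidHom.functions_ext _ _ _ fun s h => ?_)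
  by_cases e : r = s
  · subst e
    have h1 := hd (fun _ => g) (AddSubgroup.subset_closure ⟨g, rfl⟩)
    rw [← Finset.univ_sum_single (fun _ : M => g), map_sum] at h1
    have h2 := DFunLike.congr_fun h1 (Pi.single r h)
    rw [AddMonoidHom.finsetSum_apply, Finset.sum_eq_single r (fun s _ e => hc s r e g h)
      fun h => absurd (Finset.mem_univ r) h] at h2
    exact h2
  · exact hc r s e g h

lemma pu4_DD [Finite Γ] [Finite I] : 0 < DD Γ I := pow_pos card_pos' _

lemma pu4_cancel [Finite Γ] [Finite I] (h3 : PU3) {m : ℕ} (μ : (Fin m → Γ) →+ Ch (Fin m → Γ))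
    (ha : ∀ a, μ a a = 0) (hd : ∀ d ∈ Dg (Fin m) Γ, μ d = 0) (h0 : μ ≠ 0) (P : Set (Pt Γ I))
    (c : Fin m → Pt Γ I → ℝ) (hc : ∀ r p, |c r p| ≤ 1) (w : Fin m → I → Γ) {β Λ : ℝ}
    (hβ : 0 ≤ β) (hβ' : β ≤ 1) (hΛ : 1 ≤ Λ) (hl : lam (si P) ≤ Λ)
    (h1 : ∀ G : AddSubgroup Γ, G ≠ ⊥ → G ≠ ⊤ → coll (si P) G ≤ β ^ 4) (h2 : en (si P) ≤ β ^ 4) :
    ‖csm fun p : Fin m → Pt Γ I => ((∏ r, si P (p r) * c r (p r) : ℝ) : ℂ) *
      ee (∑ᶠ i, μ (row p i) fun r => w r i - (p r).2 i)‖ ≤ β * Λ ^ m * DD Γ I ^ m := by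
  let _ := Fintype.ofFinite I
  obtain ⟨r, s, hrs, g, h, hgh⟩ := pu4_pair μ hd h0
  let a : Γ →+ Ch Γ := -(μ.comp (AddMonoidHom.single (fun _ => Γ) r)).compl₂
    (AddMonoidHom.single (fun _ => Γ) s)
  have ea : ∀ x y, a x y = -μ (Pi.single r x) (Pi.single s y) := fun _ _ => rfl
  have hne : a ≠ 0 := fun e => hgh (neg_eq_zero.1 ((ea g h).symm.trans (by rw [e]; rfl)))
  have sk : ∀ x y, μ x y = -μ y x := fun x y => by
    have := ha (x + y)
    simp only [map_add, AddMonoidHom.add_apply, ha, zero_add, add_zero] at this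
    exact eq_neg_of_add_eq_zero_right this
  generalize hG : (fun p : Fin m → Pt Γ I => ((∏ r, si P (p r) * c r (p r) : ℝ) : ℂ) *
      ee (∑ᶠ i, μ (row p i) fun r => w r i - (p r).2 i)) = G
  let T := (Finset.univ.erase s).erase r
  have hr : r ∈ Finset.univ.erase s := Finset.mem_erase.2 ⟨hrs, Finset.mem_univ r⟩
  have hT : ∀ f : Fin m → ℝ, ∏ r', f r' = f s * (f r * ∏ r' ∈ T, f r') := fun f => by
    rw [Finset.mul_prod_erase _ _ hr, Finset.mul_prod_erase _ _ (Finset.mem_univ s)]
  have hm : T.card + 1 + 1 = m := by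
    rw [Finset.card_erase_add_one hr, Finset.card_erase_add_one (Finset.mem_univ s)]; simp
  have hD := pu4_DD (Γ := Γ) (I := I)
  have key : ∀ q : Fin m → Pt Γ I,
      ‖csm fun x => csm fun y => G (Function.update (Function.update q r x) s y)‖ ≤
        (∏ r' ∈ T, si P (q r')) * (β * Λ * DD Γ I ^ 2) := fun q => by
    let v : I → Fin m → Γ := row (Function.update (Function.update q r 0) s 0)
    let z : I → Fin m → Γ := fun i r' => w r' i - (Function.update (Function.update q r 0) s 0 r').2 i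
    have hn : ∀ r p t, ‖(c r p : ℂ) * ee t‖ ≤ 1 := fun r p t => by
      rw [norm_mul, norm_ee, mul_one, Complex.norm_real]; exact hc r p
    have := h3 Γ I a hne P
      (fun x => c r x * ee (∑ i, μ (v i + Pi.single r (x.1 i)) (z i - Pi.single r (x.2 i))))
      (fun y => c s y * ee (∑ i, (μ (Pi.single s (y.1 i)) (z i - Pi.single s (y.2 i)) -
        μ (v i) (Pi.single s (y.2 i))))) β Λ (fun _ => hn _ _ _) (fun _ => hn _ _ _) hβ hβ' hΛ hl h1 h2
    have hq : |∏ r' ∈ T, si P (q r') * c r' (q r')| ≤ ∏ r' ∈ T, si P (q r') := by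
      rw [Finset.abs_prod]
      refine Finset.prod_le_prod (fun _ _ => abs_nonneg _) fun r' _ => ?_
      rw [abs_mul, si, abs_ind]
      exact mul_le_of_le_one_right (ind_nonneg _) (hc _ _)
    refine le_trans (le_of_eq ?_) (mul_le_mul hq this (norm_nonneg _)
      (Finset.prod_nonneg fun _ _ => ind_nonneg _))
    rw [← Real.norm_eq_abs, ← Complex.norm_real, ← norm_mul, ← csm_mul_left]
    refine congrArg _ (csm_congr fun x => ?_)
    rw [← csm_mul_left]
    refine csm_congr fun y => ?_
    have e1 : ∀ i, row (Function.update (Function.update q r x) s y) i =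
        v i + Pi.single r (x.1 i) + Pi.single s (y.1 i) := fun i => funext fun r' => by
      by_cases h1 : r' = s
      · subst h1; simp [v, row, hrs.symm]
      · by_cases h2 : r' = r
        · subst h2; simp [v, row, h1]
        · simp [v, row, h1, h2]
    have e2 : ∀ i, (fun r' => w r' i - (Function.update (Function.update q r x) s y r').2 i) =
        z i - Pi.single r (x.2 i) - Pi.single s (y.2 i) := fun i => funext fun r' => by
      by_cases h1 : r' = s
      · subst h1; simp [z, hrs.symm]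
      · by_cases h2 : r' = r
        · subst h2; simp [z, h1]
        · simp [z, h1, h2]
    have e3 : ∏ r' ∈ T, si P (Function.update (Function.update q r x) s y r') *
        c r' (Function.update (Function.update q r x) s y r') = ∏ r' ∈ T, si P (q r') * c r' (q r') :=
      Finset.prod_congr rfl fun r' h => by
        rw [Function.update_of_ne (Finset.ne_of_mem_erase (Finset.mem_of_mem_erase h)),
          Function.update_of_ne (Finset.ne_of_mem_erase h)]
    have e4 : ∑ i, μ (v i + Pi.single r (x.1 i) + Pi.single s (y.1 i))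
          (z i - Pi.single r (x.2 i) - Pi.single s (y.2 i)) =
        ∑ i, μ (v i + Pi.single r (x.1 i)) (z i - Pi.single r (x.2 i)) +
        ∑ i, (μ (Pi.single s (y.1 i)) (z i - Pi.single s (y.2 i)) - μ (v i) (Pi.single s (y.2 i))) +
        ∑ i, (a (x.1 i) (y.2 i) - a (x.2 i) (y.1 i)) := by
      rw [← Finset.sum_add_distrib, ← Finset.sum_add_distrib]
      refine Finset.sum_congr rfl fun i _ => ?_
      simp only [ea, map_add, map_sub, AddMonoidHom.add_apply,
        sk (Pi.single r (x.2 i)) (Pi.single s (y.1 i))]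
      abel
    rw [← hG]
    simp only [finsum_eq_sum_of_fintype, e1, e2]
    rw [hT, e3, e4, ee_add, ee_add, Function.update_self, Function.update_of_ne hrs,
      Function.update_self]
    push_cast
    ring
  have e1 := pu4_upd r fun q => csm fun y => G (Function.update q s y)
  rw [pu4_upd s G] at e1
  have e2 := (norm_csm_le _).trans (sm_mono key)
  have e3 := prod_sm fun (r' : Fin m) (x : Pt Γ I) => if r' ∈ T then si P x else 1
  simp only [Finset.prod_ite_mem, Finset.univ_inter] at e3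
  have hP : sm (si P) ≤ Λ * DD Γ I := (div_le_iff₀ hD).1 hl
  have e4 : ∏ r' ∈ T, sm (fun x : Pt Γ I => if r' ∈ T then si P x else 1) ≤
      (Λ * DD Γ I) ^ T.card := by
    rw [← Finset.prod_const]
    refine Finset.prod_le_prod (fun r' h => ?_) fun r' h => ?_ <;> simp only [h, if_true]
    · exact sm_nonneg fun _ => ind_nonneg _
    · exact hP
  rw [e1, sm_mul_right, ← e3, hT] at e2
  simp only [T, Finset.mem_erase, ne_eq, not_true, false_and, and_false, if_false, sm_const,
    mul_one, norm_mul, Complex.norm_natCast] at e2 e4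
  have hX := card_pos' (α := Pt Γ I)
  refine le_of_mul_le_mul_left (le_of_mul_le_mul_left (e2.trans ?_) hX) hX
  have e5 : Λ ^ (T.card + 1) ≤ Λ ^ m := pow_le_pow_right₀ hΛ (by omega)
  calc _ ≤ Nat.card (Pt Γ I) * (Nat.card (Pt Γ I) * (Λ * DD Γ I) ^ T.card) *
        (β * Λ * DD Γ I ^ 2) := by gcongr
    _ = Nat.card (Pt Γ I) * (Nat.card (Pt Γ I) * (β * Λ ^ (T.card + 1) *
        DD Γ I ^ (T.card + 1 + 1))) := by ring
    _ ≤ _ := by rw [hm]; gcongr

end NE
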