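import Pool.Agent.Lib.MP_ecee09_co.NE.Dual
import Pool.Agent.Lib.MP_ecee09_co.NE.Part4
import Pool.Agent.Lib.MP_ecee09_co.NE.CellT

/-! Pairs of particles with a popular label difference: point masses and free rows. -/

namespace NE

open SD

lemma pra_bit (x : TT) : cav (fun a : F => ee (a.val • x)) = (1 + ee x) / 2 := by
  rw [cav_eq]
  show (∑ a : Fin 2, ee ((ZMod.val (n := 2) a) • x)) / _ = _
  rw [Fin.sum_univ_two]
  have h0 : ZMod.val (n := 2) (0 : Fin 2) = 0 := rfl
  have h1 : ZMod.val (n := 2) (1 : Fin 2) = 1 := rfl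
  rw [h0, h1, zero_nsmul, one_nsmul, ee_zero, ZMod.card]
  norm_num

/-- point masses of a sum of fair multiples of one element -/
lemma pra_point (Γ : Type) [AddCommGroup Γ] [Finite Γ] {θ : ℝ} (hθ : 0 < θ) : ∃ y0 : ℕ,
    ∀ (Y : Type) [Fintype Y], y0 ≤ Fintype.card Y → ∀ d c : Γ,
      av (fun z : Y → F => ind (∑ j, (z j).val • d = c)) ≤
        (1 + θ) / Nat.card (AddSubgroup.zmultiples d) := by
  obtain ⟨r, r0, r1, hr⟩ := exists_half (Nat.card Γ)
  have hJ : (0 : ℝ) < Nat.card Γ := card_pos'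
  obtain ⟨y0, hy⟩ := exists_pow_lt_of_lt_one (div_pos hθ hJ) r1
  refine ⟨y0, fun Y _ hY d c => ?_⟩
  set G := AddSubgroup.zmultiples d with hG
  have hGp : (0 : ℝ) < Nat.card G := card_pos'
  have hGJ : (Nat.card G : ℝ) ≤ Nat.card Γ := by
    exact_mod_cast Nat.card_le_card_of_injective _ G.subtype_injective
  have e1 : ((av fun z : Y → F => ind (∑ j, (z j).val • d = c) : ℝ) : ℂ) =
      cav fun l : Ch Γ => ee (-l c) * ∏ _j : Y, (1 + ee (l d)) / 2 := by
    rw [← cav_ofReal]
    have : ∀ z : Y → F, ((ind (∑ j, (z j).val • d = c) : ℝ) : ℂ) =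
        cav fun l : Ch Γ => ee (-l c) * ∏ j, ee ((z j).val • l d) := fun z => by
      rw [ind_congr sub_eq_zero.symm, ← cav_ch]
      refine cav_congr fun l => ?_
      rw [map_sub, sub_eq_neg_add, ee_add, map_sum, ee_sum]
      simp only [map_nsmul]
    simp only [this]
    rw [cav_comm]
    refine cav_congr fun l => ?_
    rw [cav_mul_left, ← prod_cav fun (_ : Y) (a : F) => ee (a.val • l d)]
    simp only [pra_bit]
  have e2 : ∀ l : Ch Γ, ‖ee (-l c) * ∏ _j : Y, (1 + ee (l d)) / 2‖ ≤
      ind (l ∈ chAnn G) + θ / Nat.card Γ := fun l => by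
    rw [norm_mul, norm_ee, one_mul, Finset.prod_const, Finset.card_univ, norm_pow]
    by_cases h : l d = 0
    · rw [ind_pos, h, ee_zero]
      · norm_num; positivity
      · rintro _ ⟨n, rfl⟩
        simp [h]
    · have h1 := hr (l d) _ Nat.card_pos le_rfl (ch_tors l d) h
      have h2 := pow_le_pow_left₀ (norm_nonneg _) h1 (Fintype.card Y)
      have h3 := pow_le_pow_of_le_one r0.le r1.le hY
      have h4 := ind_nonneg (l ∈ chAnn G)
      linarith
  have e3 : av (fun l : Ch Γ => ind (l ∈ chAnn G)) = 1 / Nat.card G := by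
    rw [av_ind_mem, card_ch, ← card_chAnn_mul G]
    have : (0 : ℝ) < Nat.card (chAnn G) := card_pos'
    push_cast; field_simp
  have e4 := (norm_cav_le _).trans (av_mono e2)
  rw [← e1, Complex.norm_real, av_add, e3, av_const] at e4
  refine ((le_abs_self _).trans e4).trans ?_
  rw [add_div]
  gcongr

section key
variable {Γ I S Y : Type} [AddCommGroup Γ]

/-- the pairs between the two sets -/
def praE (u : S → I) (w : Y → I) (c : S × Y) : Sym2 I := s(u c.1, w c.2)

/-- a pattern on the pairs between the two sets -/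
noncomputable def praZ (u : S → I) (w : Y → I) (z : S → Y → F) : Om I :=
  Function.extend (praE u w) (fun c => z c.1 c.2) 0

variable {u : S → I} {w : Y → I}

lemma praE_inj (hu : Function.Injective u) (hw : Function.Injective w) (h : ∀ b j, u b ≠ w j) :
    Function.Injective (praE u w) := by
  rintro ⟨b, j⟩ ⟨b', j'⟩ e
  rcases Sym2.eq_iff.1 e with ⟨e1, e2⟩ | ⟨e1, _⟩
  · exact Prod.ext (hu e1) (hw e2)
  · exact absurd e1 (h _ _)

lemma praZ_on (hu : Function.Injective u) (hw : Function.Injective w) (h : ∀ b j, u b ≠ w j)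
    (z : S → Y → F) (b : S) (j : Y) : praZ u w z s(u b, w j) = z b j :=
  (praE_inj hu hw h).extend_apply _ _ (b, j)

lemma praZ_off (z : S → Y → F) {i k : I}
    (h : ∀ b j, ¬ (u b = i ∧ w j = k) ∧ ¬ (u b = k ∧ w j = i)) : praZ u w z s(i, k) = 0 := by
  refine Function.extend_apply' _ _ _ fun ⟨c, hc⟩ => ?_
  rcases Sym2.eq_iff.1 hc with e | e
  · exact (h _ _).1 e
  · exact (h _ _).2 e

variable [Finite I] {π : PP I} {v : I → Γ} {d : Γ}

lemma pra_adj_off (hv : ∀ b, v (u b) = 0) (A : Om I) (z : S → Y → F) {i : I}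
    (hi : i ∉ Set.range u) : adj (ovr (A + praZ u w z) π) v i = adj (ovr A π) v i := by
  let _ := Fintype.ofFinite I
  rw [adj_eq, adj_eq]
  refine Finset.sum_congr rfl fun k _ => ?_
  by_cases hk : k ∈ Set.range u
  · obtain ⟨b, rfl⟩ := hk
    rw [hv, smul_zero, smul_zero]
  · have := praZ_off (u := u) (w := w) z (i := i) (k := k)
      fun b j => ⟨fun e => hi ⟨b, e.1⟩, fun e => hk ⟨b, e.1⟩⟩
    simp only [ovr, Pi.add_apply, this, add_zero]

lemma pra_adj_on [Fintype Y] (hu : Function.Injective u) (hw : Function.Injective w)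
    (h : ∀ b j, u b ≠ w j) (hπ : ∀ b i, π s(u b, i) = none) (hd : ∀ j, v (w j) = d) (A : Om I)
    (z : S → Y → F) (b : S) : adj (ovr (A + praZ u w z) π) v (u b) = adj (ovr A π) v (u b) +
      (∑ j, (A s(u b, w j) + z b j).val • d - ∑ j, (A s(u b, w j)).val • d) := by
  let _ := Fintype.ofFinite I
  rw [adj_eq, adj_eq, ← sub_eq_iff_eq_add', ← Finset.sum_sub_distrib, ← Finset.sum_sub_distrib]
  refine (Fintype.sum_of_injective w hw _ _ (fun k hk => ?_) fun j => ?_).symm
  · have := praZ_off (u := u) (w := w) z (i := u b) (k := k)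
      fun b' j => ⟨fun e => hk ⟨j, e.2⟩, fun e => h _ _ e.2.symm⟩
    simp only [ovr, Pi.add_apply, this, add_zero, sub_self]
  · simp only [ovr, hπ, Option.getD_none, Pi.add_apply, praZ_on hu hw h, hd]

/-- the free rows spread the residue difference over the subgroup -/
lemma pra_key [Finite S] [Fintype Y] (hu : Function.Injective u) (hw : Function.Injective w)
    (h : ∀ b j, u b ≠ w j) (hπ : ∀ b i, π s(u b, i) = none) (hv : ∀ b, v (u b) = 0)
    (hd : ∀ j, v (w j) = d) {ρ : ℝ}
    (hρ : ∀ c, av (fun z : Y → F => ind (∑ j, (z j).val • d = c)) ≤ ρ) (c : I → Γ) :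
    av (fun A : Om I => ind (adj (ovr A π) v = c)) ≤ ρ ^ Nat.card S * av fun A : Om I =>
      ind ((∀ i, i ∉ Set.range u → adj (ovr A π) v i = c i) ∧
        ∀ b, adj (ovr A π) v (u b) - c (u b) ∈ AddSubgroup.zmultiples d) := by
  let _ := Fintype.ofFinite S
  have ρ0 : 0 ≤ ρ := (av_ind_nonneg _).trans (hρ 0)
  rw [← av_shift _ (praZ u w), ← av_mul_left]
  refine av_mono fun A => ?_
  by_cases e : (∀ i, i ∉ Set.range u → adj (ovr A π) v i = c i) ∧
      ∀ b, adj (ovr A π) v (u b) - c (u b) ∈ AddSubgroup.zmultiples d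
  · rw [ind_pos e, mul_one]
    calc _ ≤ av fun z : S → Y → F => ∏ b, ind (∑ j, (A s(u b, w j) + z b j).val • d =
            c (u b) - adj (ovr A π) v (u b) + ∑ j, (A s(u b, w j)).val • d) := by
          refine av_mono fun z => ?_
          rw [← ind_forall]
          refine ind_mono fun hz b => ?_
          rw [← congrFun hz (u b), pra_adj_on hu hw h hπ hd]; abel
      _ = ∏ b, av fun z : Y → F => ind (∑ j, (A s(u b, w j) + z j).val • d =
            c (u b) - adj (ovr A π) v (u b) + ∑ j, (A s(u b, w j)).val • d) :=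
          (prod_av fun b (z : Y → F) => ind (∑ j, (A s(u b, w j) + z j).val • d = _)).symm
      _ ≤ ∏ _b : S, ρ := Finset.prod_le_prod (fun _ _ => av_ind_nonneg _) fun b _ =>
          (av_add_left (fun z : Y → F => ind (∑ j, (z j).val • d = _))
            fun j => A s(u b, w j)).trans_le (hρ _)
      _ = _ := by rw [Finset.prod_const, Finset.card_univ, Nat.card_eq_fintype_card]
  · rw [ind_neg e, mul_zero]
    refine av_le_const fun z => (ind_neg fun hz => e ⟨fun i hi => ?_, fun b => ?_⟩).le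
    · rw [← hz, pra_adj_off hv A z hi]
    · rw [← hz, pra_adj_on hu hw h hπ hd, sub_add_cancel_left]
      refine neg_mem (sub_mem (sum_mem fun j _ => ?_) (sum_mem fun j _ => ?_)) <;>
        exact AddSubgroup.nsmul_mem _ (AddSubgroup.mem_zmultiples d) _

variable [Finite Γ]

/-- a point against a cylinder -/
lemma pra_cyl [Finite S] (hu : Function.Injective u) (c c' : I → Γ) :
    av (fun b : I → Γ => ind (b + c = 0)) ≤
      1 / DD Γ S * av fun b : I → Γ => ind (∀ i, i ∉ Set.range u → (b + c') i = 0) := by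
  rw [av_add_right (fun b : I → Γ => ind (b = 0)),
    av_add_right (fun b : I → Γ => ind (∀ i, i ∉ Set.range u → b i = 0)),
    ← av_shift _ fun y : S → Γ => spr y (crd u), ← av_mul_left]
  refine av_mono fun b => ?_
  by_cases e : ∀ i, i ∉ Set.range u → b i = 0
  · rw [ind_pos e, mul_one, DD_eq, ← av_ind_eq (-(b ∘ u)) fun _ => 1]
    refine av_mono fun y => ?_
    rw [mul_one]
    refine ind_mono fun hy => funext fun a => ?_
    have := congrFun hy (u a)
    rw [Pi.add_apply, spr_crd hu] at this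
    exact eq_neg_of_add_eq_zero_right this
  · rw [ind_neg e, mul_zero]
    refine av_le_const fun y => (ind_neg fun hy => e fun i hi => ?_).le
    have := congrFun hy i
    rwa [Pi.add_apply, spr_of_none _ ((crd_eq_none hu).2 hi), add_zero] at this

end key

end NE
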