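import Pool.Agent.Lib.MP_ecee09_co.NE.Free
import Pool.Agent.Lib.MP_ecee09_co.NE.Part4
import Pool.Agent.Lib.MP_ecee09_co.NE.CellT

/-! Pairs of particles with equal labels on a set of points, and random tags on the points. -/

set_option linter.unusedSectionVars false

namespace NE

open SD

section free
variable {E I S Pl : Type} [AddCommGroup E]

/-- the pools of a family of points -/
noncomputable def pqbPool (ζ : Pl × S → I) : Lab I Pl := fun i => (crd ζ i).map Prod.fst

/-- the shift by `h0` on the tagged points -/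
noncomputable def pqbW (ζ : Pl × S → I) (h0 : E) (z : I → Bool) : I → E :=
  fun i => if z i ∧ (pqbPool ζ i).isSome then h0 else 0

theorem pqb_range {ζ : Pl × S → I} (hζ : Function.Injective ζ) (G : AddSubgroup E) (j : Pl) :
    Set.range (fun y : S → G => spr (fun c => (y c : E)) (crd fun c => ζ (j, c))) ⊆
      Set.range (sft {i | pqbPool ζ i = some j} G) := by
  have hj : Function.Injective fun c => ζ (j, c) := fun c c' h => (Prod.ext_iff.1 (hζ h)).2
  rintro _ ⟨y, rfl⟩
  refine mem_range_sft.2 ⟨fun i => ?_, fun i hi => ?_⟩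
  · rcases h : crd (fun c => ζ (j, c)) i with _ | c
    · simp only [spr_of_none _ h, zero_mem]
    · simp only [spr_some _ h, SetLike.coe_mem]
  · refine spr_of_none _ ((crd_eq_none hj).2 ?_)
    rintro ⟨c, rfl⟩
    exact hi (by simp only [Set.mem_ofPred_eq, pqbPool, crd_apply hζ, Option.map_some])

theorem pqb_n2 {X : Type} [Finite X] (f : X → ℝ) : n2 (fun x => (f x : ℂ)) = av fun x => f x ^ 2 := by
  simp only [n2, Complex.norm_real, Real.norm_eq_abs, sq_abs]

theorem pqb_free (E : Type) [AddCommGroup E] [Finite E] : ∃ ρ : ℝ, 0 ≤ ρ ∧ ρ < 1 ∧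
    ∀ (I S : Type) [Finite I] [Finite S] (l : ℕ) (ζ : Fin (2 * l + 1) × S → I),
      Function.Injective ζ → ∀ (h0 : E) (f : (I → E) → ℝ) (r : I → E) (θ : ℝ), 0 < θ →
      2 * (av fun z => av fun b => f (b + (r + pqbW ζ h0 z)) * f b) ≤
        (θ + ρ ^ l / θ) * (av fun b => f b ^ 2) + 2 / θ * av fun j => av fun b =>
          av fun y : S → AddSubgroup.zmultiples h0 =>
            f b * f (b + spr (fun c => (y c : E)) (crd fun c => ζ (j, c))) := by
  obtain ⟨ρ, h0, h1, hρ⟩ := free3 E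
  refine ⟨ρ, h0, h1, fun I S _ _ l ζ hζ e f r θ hθ => ?_⟩
  have k := hρ I _ (pqbPool ζ) e (fun b => (f b : ℂ)) l (by rw [Nat.card_fin]; omega)
  have e1 : prS (fun (z : I → Bool) i => if z i ∧ (pqbPool ζ i).isSome then e else 0)
      (fun b => (f b : ℂ)) = fun b => ((av fun z => f (b + pqbW ζ e z) : ℝ) : ℂ) :=
    funext fun b => cav_ofReal _
  rw [e1, pqb_n2, pqb_n2] at k
  have e2 (j : Fin (2 * l + 1)) : n2 (prS (sft {i | pqbPool ζ i = some j}
      (AddSubgroup.zmultiples e)) fun b => (f b : ℂ)) ≤ av fun b =>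
        av fun y : S → AddSubgroup.zmultiples e =>
          f b * f (b + spr (fun c => (y c : E)) (crd fun c => ζ (j, c))) := by
    refine (n2_prS_anti (ad_sft _ _) (ad_sprS _ _) (pqb_range hζ _ j) _).trans_eq ?_
    have := n2_prS (ad_sprS (AddSubgroup.zmultiples e) (crd fun c => ζ (j, c))) fun b => (f b : ℂ)
    simp only [dd, Complex.conj_ofReal, ← Complex.ofReal_mul, cav_ofReal] at this
    exact_mod_cast this.symm
  have e3 : (1 - (l : ℝ) / Nat.card (Fin (2 * l + 1)))⁻¹ ≤ 2 := by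
    rw [Nat.card_fin]
    refine inv_le_of_inv_le₀ two_pos ?_
    rw [le_sub_comm, div_le_iff₀ (by positivity)]
    push_cast
    linarith
  replace k := k.trans (add_le_add le_rfl (mul_le_mul e3 (av_mono e2)
    (av_nonneg fun _ => n2_nonneg _) zero_le_two))
  have e4 : 2 * (av fun z => av fun b => f (b + (r + pqbW ζ e z)) * f b) ≤
      θ * (av fun b => f b ^ 2) + (av fun b => (av fun z => f (b + pqbW ζ e z)) ^ 2) / θ := by
    rw [av_comm, ← av_add_right (fun b => (av fun z => f (b + pqbW ζ e z)) ^ 2) r, ← av_mul_left,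
      ← av_mul_left, ← av_div, ← av_add]
    refine av_mono fun b => ?_
    simp only [av_mul_right, add_assoc]
    generalize (av fun z => f (b + (r + pqbW ζ e z))) = u
    rw [← sub_le_iff_le_add', le_div_iff₀ hθ]
    nlinarith [sq_nonneg (u - θ * f b)]
  refine e4.trans ?_
  refine (add_le_add le_rfl (div_le_div_of_nonneg_right k hθ.le)).trans_eq ?_
  ring

end free

section pairs
variable {Γ I S S' : Type} [AddCommGroup Γ] [Finite Γ] [Finite I] [Finite S]

/-- present particles with given labels on `Z` -/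
noncomputable def pqbF (ε : Γ) (m : Pt Γ I → ℝ) (Z : S → I) (w : S → Γ) (x : OmE Γ I) : ℝ :=
  NN ε (fun p => m p * ind (p.1 ∘ Z = w)) x

/-- pairs present at two points with equal labels on `Z` -/
noncomputable def pqbP (ε : Γ) (m : Pt Γ I → ℝ) (Z : S → I) (x x' : OmE Γ I) : ℝ :=
  sm fun p => sm fun p' => m p * m p' * ind (rs ε p x = 0 ∧ rs ε p' x' = 0 ∧ p.1 ∘ Z = p'.1 ∘ Z)

variable {ε : Γ} {m : Pt Γ I → ℝ}

theorem pqbP_eq (Z : S → I) (x x' : OmE Γ I) :
    pqbP ε m Z x x' = sm fun w => pqbF ε m Z w x * pqbF ε m Z w x' := by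
  simp only [pqbF, NN, sm_mul_sm]
  rw [sm_comm]
  refine sm_congr fun p => ?_
  rw [sm_comm]
  refine sm_congr fun p' => ?_
  rw [← sm_ind_eq' (p.1 ∘ Z) fun w =>
    m p * m p' * ind (rs ε p x = 0 ∧ rs ε p' x' = 0 ∧ w = p'.1 ∘ Z)]
  refine sm_congr fun w => ?_
  rw [ind_and, ind_and, ind_congr (eq_comm (a := w))]
  ring

theorem pqbP_nonneg (h : ∀ p, 0 ≤ m p) (Z : S → I) (x x' : OmE Γ I) : 0 ≤ pqbP ε m Z x x' :=
  sm_nonneg fun p => sm_nonneg fun p' => mul_nonneg (mul_nonneg (h p) (h p')) (ind_nonneg _)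

theorem pqbP_le (h : ∀ p, 0 ≤ m p) (Z : S → I) (x x' : OmE Γ I) :
    pqbP ε m Z x x' ≤ NN ε m x * NN ε m x' := by
  simp only [NN, sm_mul_sm]
  refine sm_mono fun p => sm_mono fun p' => ?_
  rw [mul_mul_mul_comm, ← ind_and]
  exact mul_le_mul_of_nonneg_left (ind_mono fun k => ⟨k.1, k.2.1⟩) (mul_nonneg (h p) (h p'))

theorem pqbP_mono (h : ∀ p, 0 ≤ m p) (Z : S → I) (c : S' → S) (x x' : OmE Γ I) :
    pqbP ε m Z x x' ≤ pqbP ε m (fun a => Z (c a)) x x' :=
  sm_mono fun p => sm_mono fun p' => mul_le_mul_of_nonneg_left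
    (ind_mono fun k => ⟨k.1, k.2.1, funext fun a => congrFun k.2.2 (c a)⟩)
    (mul_nonneg (h p) (h p'))

theorem pqb_av_coe (G : AddSubgroup Γ) (d : S → Γ) :
    (av fun y : S → G => ind ((fun c => (y c : Γ)) = d)) = ind (∀ c, d c ∈ G) / DD G S := by
  by_cases h : ∀ c, d c ∈ G
  · rw [ind_pos h, DD_eq, ← av_ind_eq (fun c => (⟨d c, h c⟩ : G)) fun _ => 1]
    refine av_congr fun y => ?_
    rw [mul_one]
    exact ind_congr ⟨fun k => funext fun c => Subtype.ext (congrFun k c), fun k => k ▸ rfl⟩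
  · rw [ind_neg h, zero_div, ← av_zero (α := S → G)]
    exact av_congr fun y => ind_neg fun k => h fun c => k ▸ (y c).2

theorem pqb_co (M : Pt Γ S → ℝ) (G : AddSubgroup Γ) (P0 : Om S) :
    (av fun y1 => av fun y : S → G => pqbP ε M id (y1, P0) (y1 + fun c => (y c : Γ), P0)) =
      co M G := by
  simp only [pqbP, av_sm_comm, av_mul_left, co, ← sm_div, mul_div_assoc]
  refine sm_congr fun q => sm_congr fun q' => congrArg _ ?_
  by_cases h : q.1 = q'.1
  · have e (y1 d : S → Γ) : (rs ε q (y1, P0) = 0 ∧ rs ε q' (y1 + d, P0) = 0 ∧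
        q.1 ∘ id = q'.1 ∘ id) ↔ y1 = -rs ε q (0, P0) ∧ d = q.2 - q'.2 := by
      have e1 : rs ε q (y1, P0) = rs ε q (0, P0) + y1 := by rw [← rs_add, zero_add]
      have e2 : rs ε q' (y1 + d, P0) = rs ε q (y1, P0) + (d - (q.2 - q'.2)) := by
        funext i; simp only [rs, h, Pi.add_apply, Pi.sub_apply]; abel
      rw [e2, eq_neg_iff_add_eq_zero, add_comm y1, ← e1]
      exact ⟨fun ⟨a, b, _⟩ => ⟨a, by rwa [a, zero_add, sub_eq_zero] at b⟩,
        fun ⟨a, b⟩ => ⟨a, by rw [a, b, sub_self, add_zero], h⟩⟩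
    simp only [e, ind_and, av_mul_left, pqb_av_coe, av_ind_eq, ind_pos h, Pi.sub_apply, one_mul]
    rw [DD_eq (Γ := Γ), div_div]
  · rw [ind_neg fun k => h k.1, zero_div]
    exact (av_congr fun _ => (av_congr fun _ => ind_neg fun k => h k.2.2).trans av_zero).trans
      av_zero

theorem pqb_cell {κ : S → I} (hκ : Function.Injective κ) (x : OmE Γ I) (y y' : OmE Γ S) :
    pqbP ε m κ (cell x (crd κ) y) (cell x (crd κ) y') = pqbP ε (mm ε m x (crd κ)) id y y' := by
  have e (w : S → Γ) : mm ε (fun p => m p * ind (p.1 ∘ κ = w)) x (crd κ) =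
      fun q => mm ε m x (crd κ) q * ind (q.1 ∘ id = w) := by
    funext q
    simp only [mm, ← sm_mul_right, mul_assoc, ← ind_and]
    refine sm_congr fun p => congrArg _ (ind_congr ?_)
    rw [and_comm]
    exact and_congr_right fun k => by rw [← wl_crd hκ, ← k.1]; rfl
  simp only [pqbP_eq, pqbF, ← NN_mm, e]

theorem pqb_cor {κ : S → I} (hκ : Function.Injective κ) (G : AddSubgroup Γ) (A : Om I) :
    (av fun b => av fun y : S → G =>
      pqbP ε m κ (b, A) (b + spr (fun c => (y c : Γ)) (crd κ), A)) =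
      av fun b => co (mm ε m (b, A) (crd κ)) G := by
  rw [← av_shift _ fun y1 : S → Γ => spr y1 (crd κ)]
  refine av_congr fun b => ?_
  rw [← pqb_co (ε := ε) _ G (pb κ A)]
  refine av_congr fun y1 => av_congr fun y => ?_
  rw [← pqb_cell hκ]
  simp only [cell, ow_crd_pb hκ, spr_add, add_assoc]

theorem pqb_cor_le (h : ∀ p, 0 ≤ m p) {κ : S → I} (hκ : Function.Injective κ) (G : AddSubgroup Γ)
    (A : Om I) : (av fun b => co (mm ε m (b, A) (crd κ)) G) ^ 2 ≤ av fun b => NN ε m (b, A) ^ 4 := by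
  rw [← pqb_cor hκ]
  have k : (av fun b => av fun y : S → G => pqbP ε m κ (b, A)
      (b + spr (fun c => (y c : Γ)) (crd κ), A)) ≤ av fun b => NN ε m (b, A) ^ 2 := by
    refine (av_mono fun b => av_mono fun y => pqbP_le h ..).trans ?_
    rw [av_comm]
    refine av_le_const fun y => ?_
    have := av_cs (fun b => NN ε m (b, A)) fun b => NN ε m (b + spr (fun c => (y c : Γ)) (crd κ), A)
    rw [av_add_right (fun b => NN ε m (b, A) ^ 2), ← sq] at this
    exact (abs_le_of_sq_le_sq' this (av_nonneg fun _ => sq_nonneg _)).2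
  refine (pow_le_pow_left₀ (av_nonneg fun _ => av_nonneg fun _ => pqbP_nonneg h ..) k 2).trans ?_
  exact (av_sq_le _).trans_eq (av_congr fun b => by ring)

/-- random tags on the points decorrelate pairs with equal labels there -/
theorem pqb_tags (Γ : Type) [AddCommGroup Γ] [Finite Γ] : ∃ ρ : ℝ, 0 ≤ ρ ∧ ρ < 1 ∧
    ∀ (I S : Type) [Finite I] [Finite S] (l : ℕ) (ζ : Fin (2 * l + 1) × S → I),
      Function.Injective ζ → ∀ (ε h0 : Γ) (m : Pt Γ I → ℝ), (∀ p, 0 ≤ m p) →
      ∀ (A : Om I) (r : I → Γ) (θ : ℝ), 0 < θ →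
      2 * (av fun z => av fun b => pqbP ε m ζ (b + (r + pqbW ζ h0 z), A) (b, A)) ≤
        (θ + ρ ^ l / θ) * (av fun b => NN ε m (b, A) ^ 2) + 2 / θ * av fun j => av fun b =>
          co (mm ε m (b, A) (crd fun c => ζ (j, c))) (AddSubgroup.zmultiples h0) := by
  obtain ⟨ρ, h0, h1, hρ⟩ := pqb_free Γ
  refine ⟨ρ, h0, h1, fun I S _ _ l ζ hζ ε e m hm A r θ hθ => ?_⟩
  have k := sm_mono fun w => hρ I S l ζ hζ e (fun b => pqbF ε m ζ w (b, A)) r θ hθ
  simp only [sm_add, sm_mul_left, ← av_sm_comm, sq, ← pqbP_eq] at k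
  refine k.trans (add_le_add (mul_le_mul_of_nonneg_left (av_mono fun b => ?_) (by positivity))
    (mul_le_mul_of_nonneg_left (av_mono fun j => ?_) (by positivity)))
  · rw [sq]; exact pqbP_le hm ..
  · rw [← pqb_cor fun c c' h => (Prod.ext_iff.1 (hζ h)).2]
    exact av_mono fun b => av_mono fun y => pqbP_mono hm ζ (fun c => (j, c)) ..

end pairs

end NE
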