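import Pool.Agent.Lib.MP_ecee09_co.NE.LSc
import Pool.Agent.Lib.MP_ecee09_co.NE.W0

/-! Positive mixtures of characters and their planted means. -/

namespace NE

open SD
open ComplexConjugate

set_option linter.unusedSectionVars false

variable {I : Type} [Finite I]

/-- `f` is the mixture of the characters `χ` with the weights `ν` -/
def pos_Rep {Ω : Type} (f : (I → ℤ) → ℝ) (ν : Ω → ℝ) (χ : Ω → Ch (I → ℤ)) : Prop :=
  (∀ ω, 0 ≤ ν ω ∧ ν ω ≤ 1) ∧ ∀ w, (f w : ℂ) = cav fun ω => (ν ω : ℂ) * ee (χ ω w)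

/-- a mixture with weight `p` on characters that are constant up to `θ` -/
def pos_Mx (A : Om I) (e : F) (f : (I → ℤ) → ℝ) (p θ : ℝ) : Prop :=
  ∃ (Ω : Type) (_ : Finite Ω) (ν : Ω → ℝ) (χ : Ω → Ch (I → ℤ)), pos_Rep f ν χ ∧
    p ≤ av fun ω => ν ω * ind (dch A e (χ ω) ≤ θ)

variable {A : Om I} {e : F}

theorem pos_rep_df {Ω : Type} [Finite Ω] {f : (I → ℤ) → ℝ} {ν : Ω → ℝ} {χ : Ω → Ch (I → ℤ)}
    (h : pos_Rep f ν χ) (A : Om I) (e : F) (t : ℕ) :
    (av fun κ : (Fin t → Lp A e) × (Fin t → Lp A e) => f (df κ)) =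
      av fun ω => ν ω * (1 - dch A e (χ ω)) ^ t := by
  apply Complex.ofReal_injective
  rw [← cav_ofReal, ← cav_ofReal]
  simp only [h.2]
  rw [cav_comm]
  refine cav_congr fun ω => ?_
  rw [cav_mul_left, cav_df, Complex.ofReal_mul]

theorem pos_mx_mono {f : (I → ℤ) → ℝ} {p θ p' θ' : ℝ} (h : pos_Mx A e f p θ) (hp : p' ≤ p)
    (hθ : θ ≤ θ') : pos_Mx A e f p' θ' := by
  obtain ⟨Ω, _, ν, χ, h1, h2⟩ := h
  exact ⟨Ω, inferInstance, ν, χ, h1, hp.trans (h2.trans (av_mono fun ω =>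
    mul_le_mul_of_nonneg_left (ind_mono fun k => k.trans hθ) (h1.1 ω).1))⟩

theorem pos_mx_of {Ω : Type} [Finite Ω] {f : (I → ℤ) → ℝ} {ν : Ω → ℝ} {χ : Ω → Ch (I → ℤ)}
    (h : pos_Rep f ν χ) {t : ℕ} (ht : 0 < t) {R : ℝ} (hR : 0 < R)
    (hb : 1 ≤ R * av fun κ : (Fin t → Lp A e) × (Fin t → Lp A e) => f (df κ)) :
    pos_Mx A e f (1 / (2 * R)) (2 * R / t) := by
  refine ⟨Ω, inferInstance, ν, χ, h, ?_⟩
  rw [pos_rep_df h] at hb
  have ht' : (0 : ℝ) < t := by exact_mod_cast ht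
  have h1 : ∀ ω, ν ω * (1 - dch A e (χ ω)) ^ t ≤
      ν ω * ind (dch A e (χ ω) ≤ 2 * R / t) + 1 / (2 * R) * 1 := fun ω => by
    have a := dch_nonneg A e (χ ω)
    have b := sub_nonneg.2 (dch_le_one A e (χ ω))
    by_cases k : dch A e (χ ω) ≤ 2 * R / t
    · rw [ind_pos k]
      exact le_add_of_le_of_nonneg (mul_le_mul_of_nonneg_left
        (pow_le_one₀ b (by linarith)) (h.1 ω).1) (by positivity)
    · rw [ind_neg k, mul_zero, zero_add, mul_one]
      refine (mul_le_of_le_one_left (pow_nonneg b _) (h.1 ω).2).trans ?_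
      have c : 2 * R ≤ t * dch A e (χ ω) := by
        rw [not_le, div_lt_iff₀ ht'] at k; linarith
      have d := one_add_mul_le_pow (a := dch A e (χ ω)) (by linarith) t
      have d2 : (1 - dch A e (χ ω)) ^ t * (1 + dch A e (χ ω)) ^ t ≤ 1 := by
        rw [← mul_pow]; exact pow_le_one₀ (by positivity) (by nlinarith)
      rw [le_div_iff₀ (by positivity)]
      exact (mul_le_mul_of_nonneg_left (by linarith) (pow_nonneg b _)).trans d2
  have h2 := av_mono h1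
  rw [av_add, av_mul_left] at h2
  have h3 := mul_le_of_le_one_right (a := 1 / (2 * R)) (by positivity) (av_one_le (α := Ω))
  have h4 : 1 / R ≤ av fun ω => ν ω * (1 - dch A e (χ ω)) ^ t := by
    rw [div_le_iff₀' hR]; exact hb
  have h5 : 1 / R = 1 / (2 * R) + 1 / (2 * R) := by field_simp; ring
  linarith

theorem pos_mx_df {f : (I → ℤ) → ℝ} {p θ : ℝ} (h : pos_Mx A e f p θ)
    {t : ℕ} (ht : 1 ≤ t) (hθ : 2 * t * θ ≤ 1) :
    p / 2 ≤ av fun κ : (Fin t → Lp A e) × (Fin t → Lp A e) => f (df κ) := by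
  obtain ⟨Ω, _, ν, χ, h1, h2⟩ := h
  have ht' : (1 : ℝ) ≤ t := by exact_mod_cast ht
  rw [pos_rep_df h1]
  refine (div_le_div_of_nonneg_right h2 zero_le_two).trans ?_
  rw [← av_div]
  refine av_mono fun ω => ?_
  rw [mul_div_assoc]
  refine mul_le_mul_of_nonneg_left ?_ (h1.1 ω).1
  by_cases k : dch A e (χ ω) ≤ θ
  · rw [ind_pos k]
    have d := one_add_mul_le_pow (a := -dch A e (χ ω)) (by linarith [dch_le_one A e (χ ω)]) t
    rw [← sub_eq_add_neg] at d
    nlinarith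
  · rw [ind_neg k, zero_div]
    exact pow_nonneg (sub_nonneg.2 (dch_le_one A e (χ ω))) _

theorem pos_rep_one : pos_Rep (I := I) (fun _ => 1) (fun _ : Unit => 1) fun _ => 0 :=
  ⟨fun _ => ⟨zero_le_one, le_rfl⟩, fun _ => by simp [cav_const]⟩

variable [Nonempty (Lp A e)]

theorem pos_mx_one : pos_Mx A e (fun _ => 1) 1 0 :=
  ⟨Unit, inferInstance, _, _, pos_rep_one, by simp [dch_zero, av_const, ind_pos]⟩

theorem pos_mx_mul {f g : (I → ℤ) → ℝ} {p θ p' θ' : ℝ} (h : pos_Mx A e f p θ)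
    (h' : pos_Mx A e g p' θ') (hp : 0 ≤ p) (hp' : 0 ≤ p') :
    pos_Mx A e (fun w => f w * g w) (p * p') (2 * (θ + θ')) := by
  obtain ⟨Ω, _, ν, χ, h1, h2⟩ := h
  obtain ⟨Ω', _, ν', χ', h1', h2'⟩ := h'
  refine ⟨Ω × Ω', inferInstance, fun z => ν z.1 * ν' z.2, fun z => χ z.1 + χ' z.2,
    ⟨fun z => ⟨mul_nonneg (h1.1 _).1 (h1'.1 _).1,
      mul_le_one₀ (h1.1 _).2 (h1'.1 _).1 (h1'.1 _).2⟩, fun w => ?_⟩, ?_⟩
  · rw [Complex.ofReal_mul, h1.2, h1'.2, cav_mul_cav, cav_prod]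
    refine cav_congr fun a => cav_congr fun b => ?_
    rw [AddMonoidHom.add_apply, ee_add]; push_cast; ring
  · refine (mul_le_mul h2 h2' hp' (hp.trans h2)).trans ?_
    rw [av_mul_av, av_prod]
    refine av_mono fun a => av_mono fun b => ?_
    rw [mul_mul_mul_comm, ← ind_and]
    exact mul_le_mul_of_nonneg_left (ind_mono fun k => (dch_add_le A e _ _).trans
      (by linarith [k.1, k.2])) (mul_nonneg (h1.1 _).1 (h1'.1 _).1)

theorem pos_mx_prod {Z : Type} (s : Finset Z) {f : Z → (I → ℤ) → ℝ} {p θ : ℝ} (hp : 0 ≤ p)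
    (hθ : 0 ≤ θ) (h : ∀ z, pos_Mx A e (f z) p θ) :
    pos_Mx A e (fun w => ∏ z ∈ s, f z w) (p ^ s.card) (4 ^ s.card * θ) := by
  classical
  induction s using Finset.induction_on with
  | empty => exact pos_mx_mono pos_mx_one (by simp) (by simpa using hθ)
  | insert a s ha ih =>
    simp only [Finset.prod_insert ha, Finset.card_insert_of_notMem ha]
    refine pos_mx_mono (pos_mx_mul (h a) ih hp (pow_nonneg hp _)) (by rw [pow_succ']) ?_
    have := mul_le_mul_of_nonneg_right (one_le_pow₀ (n := s.card) (show (1 : ℝ) ≤ 4 by norm_num)) hθ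
    rw [pow_succ]
    linarith

omit [Nonempty (Lp A e)] in
/-- planted sub-probes behave like independent samples -/
theorem pos_tr {Ω M T U : Type} [Finite Ω] [Fintype M] [Finite T] [Finite U]
    {f : (I → ℤ) → ℝ} {ν : Ω → ℝ} {χ : Ω → Ch (I → ℤ)} (h : pos_Rep f ν χ) (σ : M × T ≃ U)
    {u : ℕ} {γ : ℝ} (hγ : 0 ≤ γ) (hQ : QR u γ A) (hu : Nat.card U ≤ u) (e : F) (y : I → ℤ) :
    |(av fun ι : U ↪ I => dens (bl (crd ι) (ful fun _ => e)) A *
        ∏ m, f ((smp fun s => ι (σ (m, s))) - y)) -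
      (av fun κ : T → Lp A e => f ((smp fun s => (κ s : I)) - y)) ^ Fintype.card M| ≤ γ := by
  let _ := Fintype.ofFinite T
  let _ := Fintype.ofFinite U
  rw [← Real.norm_eq_abs, ← Complex.norm_real, Complex.ofReal_sub, Complex.ofReal_pow,
    ← cav_ofReal, ← cav_ofReal]
  have e1 : ∀ ι : U ↪ I, ((dens (bl (crd ι) (ful fun _ => e)) A *
      ∏ m, f ((smp fun s => ι (σ (m, s))) - y) : ℝ) : ℂ) = cav fun ω : M → Ω =>
      (∏ m, (ν (ω m) : ℂ) * conj (ee (χ (ω m) y))) * ((dens (bl (crd ι) (ful fun _ => e)) A : ℂ) *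
        ∏ᶠ a, ee (χ (ω (σ.symm a).1) (ei (ι a)))) := fun ι => by
    rw [Complex.ofReal_mul, Complex.ofReal_prod]
    simp only [h.2]
    rw [prod_cav fun m ω => (ν ω : ℂ) * ee (χ ω ((smp fun s => ι (σ (m, s))) - y)), ← cav_mul_left]
    refine cav_congr fun ω => ?_
    rw [finprod_eq_prod_of_fintype, ← σ.prod_comp, Fintype.prod_prod_type, mul_left_comm,
      ← Finset.prod_mul_distrib]
    simp only [map_sub, ee_sub, smp_hom, ee_sum, Equiv.symm_apply_apply]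
    congr 1
    exact Finset.prod_congr rfl fun m _ => by ring
  have e2 : (cav fun κ : T → Lp A e => (f ((smp fun s => (κ s : I)) - y) : ℂ)) ^ Fintype.card M =
      cav fun ω : M → Ω => (∏ m, (ν (ω m) : ℂ) * conj (ee (χ (ω m) y))) *
        ∏ᶠ a, lav A ((ful fun _ => e : PP U) s(a, a)) fun i => ee (χ (ω (σ.symm a).1) (ei i)) := by
    simp only [h.2]
    rw [cav_comm, ← Finset.card_univ, ← Finset.prod_const, prod_cav fun (_ : M) ω =>
      cav fun κ : T → Lp A e => (ν ω : ℂ) * ee (χ ω ((smp fun s => (κ s : I)) - y))]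
    refine cav_congr fun ω => ?_
    rw [finprod_eq_prod_of_fintype, ← σ.prod_comp, Fintype.prod_prod_type,
      ← Finset.prod_mul_distrib]
    refine Finset.prod_congr rfl fun m _ => ?_
    simp only [map_sub, ee_sub, cav_mul_left, cav_mul_right, cav_smp, Equiv.symm_apply_apply]
    rw [Nat.card_eq_fintype_card, ← Finset.card_univ, ← Finset.prod_const, mul_assoc,
      mul_comm (conj _)]
    rfl
  simp only [e1]
  rw [e2, cav_comm]
  refine norm_cav_sub_le hγ fun ω => ?_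
  rw [cav_mul_left, ← mul_sub, norm_mul]
  refine (mul_le_of_le_one_left (norm_nonneg _) ?_).trans
    (hQ.prd U hu _ (fun a i => ee (χ (ω (σ.symm a).1) (ei i))) fun _ _ => (norm_ee _).le)
  rw [norm_prod]
  refine Finset.prod_le_one (fun _ _ => norm_nonneg _) fun m _ => ?_
  rw [norm_mul, Complex.norm_conj, norm_ee, mul_one, Complex.norm_real, Real.norm_eq_abs,
    abs_of_nonneg (h.1 _).1]
  exact (h.1 _).2

end NE
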