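import Pool.Agent.Lib.MP_ecee09_co.NE.Part4
import Pool.Agent.Lib.MP_ecee09_co.NE.PL
import Pool.Agent.Lib.MP_ecee09_co.NE.Stat
import Pool.Agent.Lib.MP_ecee09_co.NE.Stmts4
import Pool.Agent.Lib.MP_ecee09_co.SD.Pu0

/-! Few tuples are not robust. -/

namespace NE

open SD hiding Pt

variable {Γ I S : Type} [AddCommGroup Γ] [Finite Γ] [Finite I] [Finite S] {m : ℕ}

omit [Finite Γ] in
/-- a proper subgroup over the diagonal sees two coordinates -/
lemma pu0_two {W : AddSubgroup (Fin m → Γ)} (h1 : Dg (Fin m) Γ ≤ W) (h2 : ¬ ⊤ ≤ W) :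
    ∃ r r', r ≠ r' ∧ W.comap (AddMonoidHom.single (fun _ => Γ) r) ≠ ⊤ ∧
      W.comap (AddMonoidHom.single (fun _ => Γ) r') ≠ ⊤ := by
  obtain ⟨r, hr⟩ : ∃ r, W.comap (AddMonoidHom.single (fun _ => Γ) r) ≠ ⊤ := by
    by_contra! h
    exact h2 fun x _ => Finset.univ_sum_single x ▸ W.sum_mem fun r _ =>
      (AddSubgroup.eq_top_iff' _).1 (h r) (x r)
  by_contra! h
  refine hr ((AddSubgroup.eq_top_iff' _).2 fun γ => ?_)
  have : (fun _ : Fin m => γ) ∈ W := h1 (AddSubgroup.subset_closure ⟨γ, rfl⟩)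
  rw [← Finset.univ_sum_single (fun _ : Fin m => γ),
    ← Finset.add_sum_erase _ _ (Finset.mem_univ r)] at this
  exact (W.add_mem_cancel_right (W.sum_mem fun r' hr' => (AddSubgroup.eq_top_iff' _).1
    (h r r' (Finset.ne_of_mem_erase hr').symm hr) γ)).1 this

/-- tuples whose rows on a set of indices lie in `W` -/
lemma pu0_cnt (P : Set (Pt Γ I)) (W : AddSubgroup (Fin m → Γ)) {r r' : Fin m} (h : r ≠ r')
    (ι : S → I) : (sm fun p : Fin m → Pt Γ I => ind (∀ j, p j ∈ P) * ind (∀ a, row p (ι a) ∈ W)) ≤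
      ((sm fun p => sm fun p' => si P p * si P p' * ind (∀ a, p.1 (ι a) - p'.1 (ι a) ∈
          W.comap (AddMonoidHom.single (fun _ => Γ) r))) +
        sm fun p => sm fun p' => si P p * si P p' * ind (∀ a, p.1 (ι a) - p'.1 (ι a) ∈
          W.comap (AddMonoidHom.single (fun _ => Γ) r'))) / 2 * cnt P ^ (m - 2) := by
  refine (le_abs_self _).trans ((pu_peel2 P _ r r' h _ fun p => ?_).trans_eq
    (by rw [Fintype.card_fin]))
  have := pu_c2 P (fun q a => QuotientAddGroup.mk' W (Pi.single r (q.1 (ι a))))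
    (fun q a => QuotientAddGroup.mk' W (Pi.single r' (q.1 (ι a))))
    fun a => - QuotientAddGroup.mk' W (row (Function.update (Function.update p r 0) r' 0) (ι a))
  have e : ∀ (j : Fin m) (q q' : Pt Γ I), ((fun a => QuotientAddGroup.mk' W (Pi.single j (q.1 (ι a))))
      = fun a => QuotientAddGroup.mk' W (Pi.single j (q'.1 (ι a)))) ↔ ∀ a, q.1 (ι a) - q'.1 (ι a) ∈
        W.comap (AddMonoidHom.single (fun _ => Γ) j) := fun j q q' =>
    funext_iff.trans (forall_congr' fun a => by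
      rw [AddSubgroup.mem_comap, map_sub]
      exact QuotientAddGroup.eq_iff_sub_mem)
  simp only [e, ind_and, ← mul_assoc] at this
  rw [abs_of_nonneg (sm_nonneg fun _ => sm_nonneg fun _ => mul_nonneg
    (mul_nonneg (ind_nonneg _) (ind_nonneg _)) (ind_nonneg _))]
  refine le_trans (sm_mono fun q => sm_mono fun q' => mul_le_mul_of_nonneg_left
    (ind_mono fun k => funext fun a => ?_) (mul_nonneg (ind_nonneg _) (ind_nonneg _))) this
  rw [Pi.add_apply, eq_neg_iff_add_eq_zero, ← map_add, ← map_add]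
  refine (QuotientAddGroup.eq_zero_iff _).2 (Eq.mp (congrArg (· ∈ W) (funext fun j => ?_)) (k a))
  by_cases c : j = r'
  · simp [row, c, h.symm]
  · by_cases c' : j = r <;> simp [row, c, c', h]

theorem pu0 : PU0 := by
  intro Γ _ _ m
  refine ⟨Nat.card (AddSubgroup (Fin m → Γ)) * 2, mul_pos card_pos' two_pos, ?_⟩
  intro I _ ε P D s1 η γ h hs hγ hγs
  have : Nonempty (Fin s1 ↪ I) := nonempty_emb (by simpa using hs)
  have e0 : 0 ≤ η := (en_nonneg _).trans h.ge
  have D0 := h.tm.nonneg 1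
  have d0 := DD_pos (Γ := Γ) (I := I)
  have hP : cnt P ≤ (D 1 + 1) * DD Γ I := (div_le_iff₀ d0).1
    ((lam_le_of_tame h.tm).trans (le_add_of_nonneg_right zero_le_one))
  have k : ∀ p : Fin m → Pt Γ I, ind ((∀ r, p r ∈ P) ∧ ¬ Rob γ ⊤ (row p)) ≤
      sm fun W : AddSubgroup (Fin m → Γ) => ind (Dg (Fin m) Γ ≤ W ∧ ¬ ⊤ ≤ W) * (2 *
        av fun ι : Fin s1 ↪ I => ind (∀ j, p j ∈ P) * ind (∀ a, row p (ι a) ∈ W)) := fun p => by
    have n0 := fun W : AddSubgroup (Fin m → Γ) => mul_nonneg (ind_nonneg (Dg (Fin m) Γ ≤ W ∧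
      ¬ ⊤ ≤ W)) (mul_nonneg zero_le_two (av_nonneg fun ι : Fin s1 ↪ I => mul_nonneg
        (ind_nonneg (∀ j, p j ∈ P)) (ind_nonneg (∀ a, row p (ι a) ∈ W))))
    by_cases c : (∀ r, p r ∈ P) ∧ ¬ Rob γ ⊤ (row p)
    swap
    · rw [ind_neg c]; exact sm_nonneg n0
    obtain ⟨W, hW⟩ := not_forall.1 c.2
    rw [Classical.not_imp, Classical.not_imp, not_le, cnt_eq_ncard] at hW
    refine le_trans ?_ (single_le_sm n0 W)
    have a := emb_hit (U := Fin s1) {i | row p i ∉ W}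
    simp only [Set.mem_ofPred_eq, ← not_forall, ind_not, av_sub, av_const, Nat.card_fin] at a
    have b : (s1 : ℝ) * {i | row p i ∉ W}.ncard / Nat.card I ≤ 1 / 2 :=
      div_le_of_le_mul₀ (Nat.cast_nonneg _) (by norm_num)
        ((mul_le_mul_of_nonneg_left hW.2.2.le s1.cast_nonneg).trans
          (by nlinarith [(Nat.card I).cast_nonneg (α := ℝ)]))
    simp only [ind_pos c, ind_pos c.1, ind_pos (And.intro hW.1 hW.2.1), one_mul]
    linarith
  refine (sm_mono k).trans ?_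
  rw [sm_comm, mul_assoc, mul_assoc, mul_assoc, ← sm_const]
  refine sm_mono fun W => ?_
  rw [sm_mul_left, sm_mul_left, ← av_sm_comm]
  by_cases c : Dg (Fin m) Γ ≤ W ∧ ¬ ⊤ ≤ W
  swap
  · rw [ind_neg c, zero_mul]; positivity
  obtain ⟨r, r', hr, h1, h2⟩ := pu0_two c.1 c.2
  have a1 := h.ca s1 le_rfl hs _ h1
  have a2 := h.ca s1 le_rfl hs _ h2
  rw [av_div, div_le_iff₀ (by positivity)] at a1 a2
  have m2 : m = m - 2 + 2 := by have := r.2; have := r'.2; have := Fin.val_ne_of_ne hr; omega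
  rw [ind_pos c, one_mul]
  refine mul_le_mul_of_nonneg_left ((av_mono fun ι : Fin s1 ↪ I => pu0_cnt P W hr ι).trans ?_)
    zero_le_two
  rw [av_mul_right, av_div, av_add]
  refine (mul_le_mul (by linarith : _ ≤ η * DD Γ I ^ 2) (pow_le_pow_left₀ (cnt_nonneg _) hP _)
    (pow_nonneg (cnt_nonneg _) _) (by positivity)).trans ?_
  generalize m - 2 = n at m2
  rw [m2, mul_assoc, mul_pow, pow_add (DD Γ I), mul_comm (DD Γ I ^ 2), mul_assoc]
  gcongr
  exacts [by linarith, by omega]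

end NE
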