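import Pool.Agent.Lib.MP_ecee09_co.NE.Stmts4
import Pool.Agent.Lib.MP_ecee09_co.NE.PL

/-! Groups of rows, minimal subtuples and the extra set of indices. -/

namespace NE

open SD

section rows
variable {Γ M M' S S' : Type} [AddCommGroup Γ]

lemma p2_const_mem (γ : Γ) : (fun _ : M => γ) ∈ Dg M Γ := AddSubgroup.subset_closure ⟨γ, rfl⟩

lemma p2_Dg_eq {z : M → Γ} (h : z ∈ Dg M Γ) (r r' : M) : z r = z r' := by
  induction h using AddSubgroup.closure_induction with
  | mem _ h => obtain ⟨γ, rfl⟩ := h; rfl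
  | zero => rfl
  | add a b _ _ ha hb => simp only [Pi.add_apply, ha, hb]
  | neg a _ ha => simp only [Pi.neg_apply, ha]

lemma p2_Dg_le (x : S → M → Γ) : Dg M Γ ≤ Wg x := le_sup_left

lemma p2_mem_Wg (x : S → M → Γ) (a : S) : x a ∈ Wg x :=
  (le_sup_right : AddSubgroup.closure (Set.range x) ≤ Wg x) (AddSubgroup.subset_closure ⟨a, rfl⟩)

lemma p2_Wg_le {x : S → M → Γ} {W : AddSubgroup (M → Γ)} (h : Dg M Γ ≤ W) (h' : ∀ a, x a ∈ W) :
    Wg x ≤ W := sup_le h ((AddSubgroup.closure_le _).2 (by rintro _ ⟨a, rfl⟩; exact h' a))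

lemma p2_Wg_comp (x : S → M → Γ) (e : S' → S) : Wg (fun a => x (e a)) ≤ Wg x :=
  p2_Wg_le (p2_Dg_le x) fun a => p2_mem_Wg x (e a)

lemma p2_Wg_lift (x : S → M → Γ) (e : M' → M) {w' : M' → Γ}
    (h : w' ∈ Wg fun a r => x a (e r)) : ∃ w ∈ Wg x, (fun r => w (e r)) = w' := by
  let ρ : (M → Γ) →+ (M' → Γ) := AddMonoidHom.mk' (fun z r => z (e r)) fun _ _ => rfl
  have : (Wg fun a r => x a (e r)) ≤ (Wg x).map ρ := by
    refine p2_Wg_le ((AddSubgroup.closure_le _).2 ?_) fun a => ⟨x a, p2_mem_Wg x a, rfl⟩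
    rintro _ ⟨γ, rfl⟩
    exact ⟨fun _ => γ, p2_Dg_le x (p2_const_mem γ), rfl⟩
  exact this h

/-- a minimal subtuple with a relation -/
lemma p2_min {m : ℕ} (x : S → Fin m → Γ) (h : Wg x ≠ ⊤) :
    ∃ R : Finset (Fin m), R.Nonempty ∧ (Wg fun a (r : R) => x a r) ≠ ⊤ ∧
      Onto (Wg fun a (r : R) => x a r) := by
  classical
  have h0 : (Wg fun a (r : (Finset.univ : Finset (Fin m))) => x a r) ≠ ⊤ := fun h' => by
    refine h ((AddSubgroup.eq_top_iff' _).2 fun z => ?_)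
    obtain ⟨w, hw, e⟩ := p2_Wg_lift x (fun r : (Finset.univ : Finset (Fin m)) => (r : Fin m))
      (w' := fun r => z r) (h' ▸ AddSubgroup.mem_top _)
    have : w = z := funext fun r => congrFun e ⟨r, Finset.mem_univ r⟩
    exact this ▸ hw
  obtain ⟨R, hR, hmin⟩ := Set.exists_min_image
    {R : Finset (Fin m) | (Wg fun a (r : R) => x a r) ≠ ⊤} Finset.card (Set.toFinite _) ⟨_, h0⟩
  refine ⟨R, ?_, hR, fun r z => ?_⟩
  · rw [Finset.nonempty_iff_ne_empty]
    rintro rfl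
    exact hR ((AddSubgroup.eq_top_iff' _).2 fun z => by
      rw [Subsingleton.elim z 0]; exact zero_mem _)
  · have h1 : (Wg fun a (r' : R.erase r) => x a r') = ⊤ := by
      by_contra h1
      exact absurd (hmin _ h1) (not_le.2 (Finset.card_erase_lt_of_mem r.2))
    obtain ⟨w, hw, e⟩ := p2_Wg_lift (fun a (r : R) => x a r)
      (fun r' : R.erase r => (⟨r', Finset.mem_of_mem_erase r'.2⟩ : R))
      (w' := fun r' => z ⟨r', Finset.mem_of_mem_erase r'.2⟩) (h1 ▸ AddSubgroup.mem_top _)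
    exact ⟨w, hw, fun r' hr' =>
      congrFun e ⟨r', Finset.mem_erase.2 ⟨fun h => hr' (Subtype.ext h), r'.2⟩⟩⟩

/-- the group of the first `k` rows -/
def seg {n : ℕ} (x : Fin n → M → Γ) (k : ℕ) : AddSubgroup (M → Γ) :=
  Wg fun a : {a : Fin n // a.val < k} => x a

lemma seg_mono {n : ℕ} (x : Fin n → M → Γ) {k k' : ℕ} (h : k ≤ k') : seg x k ≤ seg x k' :=
  p2_Wg_le (p2_Dg_le _) fun a =>
    p2_mem_Wg (fun a : {a : Fin n // a.val < k'} => x a) ⟨a, lt_of_lt_of_le a.2 h⟩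

lemma seg_cast {n n' : ℕ} (x : Fin n → M → Γ) (h : n' ≤ n) {k : ℕ} (hk : k ≤ n') :
    seg (fun a => x (Fin.castLE h a)) k = seg x k :=
  le_antisymm
    (p2_Wg_le (p2_Dg_le _) fun a =>
      p2_mem_Wg (fun a : {a : Fin n // a.val < k} => x a) ⟨Fin.castLE h a, a.2⟩)
    (p2_Wg_le (p2_Dg_le _) fun a =>
      p2_mem_Wg (fun a : {a : Fin n' // a.val < k} => x (Fin.castLE h a))
        ⟨⟨a, lt_of_lt_of_le a.2 hk⟩, a.2⟩)

lemma seg_self {n : ℕ} (x : Fin n → M → Γ) : seg x n = Wg x :=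
  le_antisymm (p2_Wg_comp x _) (p2_Wg_le (p2_Dg_le _) fun a =>
    p2_mem_Wg (fun a : {a : Fin n // a.val < n} => x a) ⟨a, a.2⟩)

lemma p2_chain {G : Type} [AddCommGroup G] [Finite G] (W : ℕ → AddSubgroup G)
    (h : ∀ j, W j ≤ W (j + 1)) (T : ℕ) :
    ∑ j ∈ Finset.range T, ind (W j ≠ W (j + 1)) ≤ Nat.card G := by
  have key : ∀ T, ∑ j ∈ Finset.range T, ind (W j ≠ W (j + 1)) ≤ (W T : Set G).ncard := by
    intro T
    induction T with
    | zero => simp
    | succ T ih =>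
      rw [Finset.sum_range_succ]
      by_cases e : W T = W (T + 1)
      · rw [ind_neg (not_not.2 e), add_zero, ← e]; exact ih
      · have : (W T : Set G).ncard < (W (T + 1) : Set G).ncard :=
          Set.ncard_lt_ncard (SetLike.coe_ssubset_coe.2 (lt_of_le_of_ne (h T) e))
        have : ((W T : Set G).ncard : ℝ) + 1 ≤ (W (T + 1) : Set G).ncard := by exact_mod_cast this
        rw [ind_pos e]; linarith
  exact (key T).trans (by exact_mod_cast Set.ncard_le_card _)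

/-- a tuple that is not robust is seen by a random initial segment -/
lemma p2_nonrob {n k : ℕ} {γ : ℝ} (hγ : 2 * γ * k ≤ 1) (x : Fin n → M → Γ)
    (h : ¬ Rob γ (Wg x) x) :
    1 ≤ 2 * av fun π : Equiv.Perm (Fin n) =>
      ind (seg (fun a => x (π a)) k ≠ Wg fun a => x (π a)) := by
  simp only [Rob, not_forall, not_le] at h
  obtain ⟨W', h1, h2, h3⟩ := h
  have hn : (0 : ℝ) < Nat.card (Fin n) := by
    rcases (Nat.cast_nonneg (α := ℝ) (Nat.card (Fin n))).eq_or_lt with e | e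
    · rw [← e, mul_zero] at h3; exact absurd h3 (not_lt.2 (cnt_nonneg _))
    · exact e
  let e : {a : Fin n // a.val < k} ↪ Fin n := Function.Embedding.subtype _
  have hc : (Nat.card {a : Fin n // a.val < k} : ℝ) ≤ k := by
    have := Nat.card_le_card_of_injective
      (fun a : {a : Fin n // a.val < k} => (⟨a.1.val, a.2⟩ : Fin k))
      fun a b h => Subtype.ext (Fin.ext (Fin.mk.inj h))
    exact_mod_cast this.trans (by simp)
  have h4 : av (fun π : Equiv.Perm (Fin n) =>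
      ind (∃ u, (e.trans π.toEmbedding) u ∈ {i | x i ∉ W'})) ≤ 1 / 2 := by
    rw [av_perm e fun ι => ind (∃ u, ι u ∈ {i | x i ∉ W'})]
    refine (emb_hit _).trans ?_
    rw [← cnt_eq_ncard, div_le_iff₀ hn]
    have := mul_le_mul hc h3.le (cnt_nonneg _) (Nat.cast_nonneg _)
    nlinarith
  have h5 : av (fun π : Equiv.Perm (Fin n) =>
      1 - ind (∃ u, (e.trans π.toEmbedding) u ∈ {i | x i ∉ W'})) ≤
      av fun π : Equiv.Perm (Fin n) => ind (seg (fun a => x (π a)) k ≠ Wg fun a => x (π a)) := by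
    refine av_mono fun π => ?_
    rw [← ind_not]
    refine ind_mono fun hh he => h2 ?_
    have : seg (fun a => x (π a)) k ≤ W' :=
      p2_Wg_le h1 fun a => not_not.1 fun h' => hh ⟨a, h'⟩
    refine le_trans (p2_Wg_le (p2_Dg_le _) fun a => ?_) (he ▸ this)
    simpa using p2_mem_Wg (fun a => x (π a)) (π.symm a)
  rw [av_sub, av_const] at h5
  linarith

end rows

/-- the extra set misses a small set with probability at least one half -/
lemma p2_half {U S I : Type} [Finite U] [Finite S] [Finite I] [Nonempty (U ⊕ S ↪ I)]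
    (G : (U ↪ I) → ℝ) (hG : ∀ j, 0 ≤ G j) (T : Set I)
    (hT : 2 * (Nat.card S * cnt T) ≤ Nat.card I - Nat.card U) (hI : Nat.card U < Nat.card I) :
    av G ≤ 2 * av fun ι : U ⊕ S ↪ I =>
      G (Function.Embedding.inl.trans ι) * ind (∀ a, ι (.inr a) ∉ T) := by
  have hI' : (0 : ℝ) < Nat.card I - Nat.card U := sub_pos.2 (by exact_mod_cast hI)
  rw [av_ext (Function.Embedding.inl : U ↪ U ⊕ S), ← av_mul_left]
  refine av_mono fun j => ?_
  have := nonempty_ext (Function.Embedding.inl : U ↪ U ⊕ S) j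
  have h1 : ∀ a : S, av (fun e : Ext (Function.Embedding.inl : U ↪ U ⊕ S) j =>
      ind (e.1 (.inr a) ∈ T)) ≤ cnt T * (1 / (Nat.card I - Nat.card U : ℝ)) := fun a => by
    rw [cnt, ← sm_mul_right]
    refine le_trans (av_mono (g := fun e : Ext (Function.Embedding.inl : U ↪ U ⊕ S) j =>
      sm fun i => ind (i ∈ T) * ind (e.1 (.inr a) = i)) fun e => ?_) ?_
    · simp only [mul_comm (ind (_ ∈ T))]
      rw [sm_ind_eq' (e.1 (.inr a)) fun i => ind (i ∈ T)]
    · rw [av_sm_comm]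
      refine sm_mono fun i => ?_
      rw [av_mul_left]
      exact mul_le_mul_of_nonneg_left (ext_val _ j (by simp) i) (ind_nonneg _)
  have h2 : av (fun e : Ext (Function.Embedding.inl : U ↪ U ⊕ S) j =>
      ind (∃ a, e.1 (.inr a) ∈ T)) ≤ 1 / 2 := by
    refine (av_mono fun e => ind_exists_le _).trans ?_
    rw [av_sm_comm]
    refine (sm_mono h1).trans ?_
    rw [sm_const, ← mul_assoc, mul_one_div, div_le_iff₀ hI']
    linarith
  have h3 : av (fun e : Ext (Function.Embedding.inl : U ↪ U ⊕ S) j =>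
      G (Function.Embedding.inl.trans e.1) * ind (∀ a, e.1 (.inr a) ∉ T)) =
      G j * (1 - av fun e : Ext (Function.Embedding.inl : U ↪ U ⊕ S) j =>
        ind (∃ a, e.1 (.inr a) ∈ T)) := by
    rw [← av_const (α := Ext (Function.Embedding.inl : U ↪ U ⊕ S) j) 1, ← av_sub, ← av_mul_left]
    exact av_congr fun e => by rw [e.2, ← ind_not, ind_congr not_exists]
  rw [h3]
  nlinarith [hG j]

section eps
variable {E I K S S' : Type} [Finite E] [Finite I] [Finite K] [Finite S] [Finite S'] {s : ℕ}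
  (Q : PP K)

lemma p2_eps_eq (f : Lab I K → (S → I) → OmE E I → ℝ) :
    EPS s S Q f = av fun ω : ((K × Fin s) ⊕ S ↪ I) × (K × Fin s → Bool) × OmE E I =>
      f (jlab ω.1 ω.2.1) (fun u => ω.1 (.inr u))
        (ω.2.2.1, ovr ω.2.2.2 (bl (jlab ω.1 ω.2.1) Q)) := by
  rw [av_prod]
  exact av_congr fun ι => by rw [av_prod]

lemma p2_eps_mono {f g : Lab I K → (S → I) → OmE E I → ℝ} (h : ∀ Φ ι x, f Φ ι x ≤ g Φ ι x) :
    EPS s S Q f ≤ EPS s S Q g := by
  simp only [p2_eps_eq]; exact av_mono fun ω => h _ _ _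

lemma p2_eps_add (f g : Lab I K → (S → I) → OmE E I → ℝ) :
    EPS s S Q (fun Φ ι x => f Φ ι x + g Φ ι x) = EPS s S Q f + EPS s S Q g := by
  simp only [p2_eps_eq, av_add]

lemma p2_eps_mul (c : ℝ) (f : Lab I K → (S → I) → OmE E I → ℝ) :
    EPS s S Q (fun Φ ι x => c * f Φ ι x) = c * EPS s S Q f := by
  simp only [p2_eps_eq, av_mul_left]

lemma p2_eps_sm {O : Type} [Finite O] (f : O → Lab I K → (S → I) → OmE E I → ℝ) :
    EPS s S Q (fun Φ ι x => sm fun o => f o Φ ι x) = sm fun o => EPS s S Q (f o) := by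
  simp only [p2_eps_eq]; exact av_sm_comm _

lemma p2_eps_av {O : Type} [Finite O] (f : O → Lab I K → (S → I) → OmE E I → ℝ) :
    EPS s S Q (fun Φ ι x => av fun o => f o Φ ι x) = av fun o => EPS s S Q (f o) := by
  simp only [p2_eps_eq]; exact av_comm _

lemma p2_eps_sum {O : Type} (T : Finset O) (f : O → Lab I K → (S → I) → OmE E I → ℝ) :
    EPS s S Q (fun Φ ι x => ∑ o ∈ T, f o Φ ι x) = ∑ o ∈ T, EPS s S Q (f o) := by
  simp only [p2_eps_eq]; exact av_sum _ _

lemma p2_eps_one : EPS s S Q (fun (_ : Lab I K) _ (_ : OmE E I) => 1) ≤ 1 := by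
  simp only [p2_eps_eq]; exact av_one_le

omit [Finite E] in
lemma p2_eps_res [Nonempty ((K × Fin s) ⊕ S ↪ I)] (e : S' ↪ S)
    (f : Lab I K → (S' → I) → OmE E I → ℝ) :
    EPS s S Q (fun Φ ι x => f Φ (fun a => ι (e a)) x) = EPS s S' Q f :=
  av_restrict ((Function.Embedding.refl _).sumMap e) fun ι : (K × Fin s) ⊕ S' ↪ I =>
    av fun g : K × Fin s → Bool => av fun x : OmE E I =>
      f (jlab ι g) (fun u => ι (.inr u)) (x.1, ovr x.2 (bl (jlab ι g) Q))

end eps

end NE
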