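import Pool.Agent.Lib.MP_ecee09_co.NE.Pu2a
import Pool.Agent.Lib.MP_ecee09_co.NE.Part4

/-! Moments of the number of matched tuples, the extra set, and the split of the bad event. -/

namespace NE

open SD

lemma p2_exists_pos {α : Type} [Finite α] (f : α → ℝ) (h : ∀ a, 0 < f a) :
    ∃ c : ℝ, 0 < c ∧ ∀ a, c ≤ f a := by
  obtain ⟨M, hM⟩ := Finite.exists_le fun a => (f a)⁻¹
  exact ⟨(max M 1)⁻¹, by positivity, fun a =>
    inv_le_of_inv_le₀ (h a) ((hM a).trans (le_max_left _ _))⟩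

lemma p2_av_le {α : Type} [Finite α] {f : α → ℝ} {c : ℝ} (hc : 0 ≤ c) (h : ∀ a, f a ≤ c) :
    av f ≤ c := by
  refine (av_mono (g := fun _ => c * 1) fun a => by simpa using h a).trans ?_
  rw [av_mul_left]
  exact mul_le_of_le_one_right hc av_one_le

section ep
variable {E I K S : Type} [Finite E] [Finite I] [Finite K] [Finite S] {s : ℕ} (Q : PP K)

lemma p2_ep_sm {O : Type} [Finite O] (f : O → Lab I K → OmE E I → ℝ) :
    EP s Q (fun Φ x => sm fun o => f o Φ x) = sm fun o => EP s Q (f o) := by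
  simp only [EP]
  rw [← av_sm_comm]
  exact av_congr fun o => av_sm_comm _

lemma p2_eps_nonneg {f : Lab I K → (S → I) → OmE E I → ℝ} (h : ∀ Φ ι x, 0 ≤ f Φ ι x) :
    0 ≤ EPS s S Q f := by
  simp only [p2_eps_eq]; exact av_nonneg fun ω => h _ _ _

lemma p2_ep_le [Nonempty ((K × Fin s) ⊕ S ↪ I)] (f : Lab I K → OmE E I → ℝ)
    (hf : ∀ Φ x, 0 ≤ f Φ x) (T : Set I)
    (hT : 2 * (Nat.card S * cnt T) ≤ Nat.card I - Nat.card (K × Fin s))
    (hI : Nat.card (K × Fin s) < Nat.card I) :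
    EP s Q f ≤ 2 * EPS s S Q fun Φ ι x => f Φ x * ind (∀ a, ι a ∉ T) := by
  have := p2_half (S := S) (fun j : K × Fin s ↪ I => av fun g : K × Fin s → Bool =>
    av fun x : OmE E I => f (prl (j, g)) (x.1, ovr x.2 (bl (prl (j, g)) Q)))
    (fun j => av_nonneg fun g => av_nonneg fun x => hf _ _) T hT hI
  rw [EP, av_prod]
  refine this.trans (le_of_eq ?_)
  simp only [EPS, av_mul_right]
  rfl

end ep

section defs
variable {Γ I K M S : Type} [AddCommGroup Γ]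

lemma p2_puh {ε : Γ} {P : Set (Pt Γ I)} {D : ℕ → ℝ} {s1 : ℕ} {η η' : ℝ} (h : PuH ε P D s1 η)
    (hη : η ≤ η') : PuH ε P D s1 η' where
  gc G a b := (h.gc G a b).trans hη
  ge := h.ge.trans hη
  cc s a b G c d := (h.cc s a b G c d).trans hη
  ce s a b := (h.ce s a b).trans hη
  cm s a b := (h.cm s a b).trans hη
  tm := h.tm
  ch s a b G c := (h.ch s a b G c).trans hη
  ca s a b G c := (h.ca s a b G c).trans hη

/-- the number of matched tuples -/
noncomputable def p2N (ε : Γ) (P : Set (Pt Γ I)) (t : M → K → Γ) (Φ : Lab I K) (x : OmE Γ I) :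
    ℝ := sm fun q : M → Pt Γ I => ind (Mat ε P t Φ x q)

/-- some matched injective tuple has a relation on the extra set -/
noncomputable def p2bd (ε : Γ) (P : Set (Pt Γ I)) (t : M → K → Γ) (Φ : Lab I K) (ι : S → I)
    (x : OmE Γ I) : ℝ :=
  ind (∃ p : M → Pt Γ I, Mat ε P t Φ x p ∧ Function.Injective p ∧
    (Wg fun a => row p (ι a)) ≠ ⊤)

/-- matched tuples whose group grows between two segments -/
noncomputable def p2ch (ε : Γ) (P : Set (Pt Γ I)) (t : M → K → Γ) (k k' : ℕ) {n : ℕ}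
    (Φ : Lab I K) (ι : Fin n → I) (x : OmE Γ I) : ℝ :=
  sm fun q : M → Pt Γ I => ind (Mat ε P t Φ x q) *
    ind (seg (fun a => row q (ι a)) k ≠ seg (fun a => row q (ι a)) k')

def p2gd (W : AddSubgroup (M → Γ)) : Prop :=
  Nonempty M ∧ Dg M Γ ≤ W ∧ W ≠ ⊤ ∧ Onto W ∧ ¬ (Nat.card M = 2 ∧ W = Dg M Γ)

noncomputable def p2tp (γ : ℝ) (ε : Γ) (P : Set (Pt Γ I)) (t : M → K → Γ)
    (W : AddSubgroup (M → Γ)) (Φ : Lab I K) (ι : S → I) (x : OmE Γ I) : ℝ :=
  sm fun p : M → Pt Γ I =>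
    ind (Mat ε P t Φ x p ∧ (∀ a, row p (ι a) ∈ W) ∧ Rob γ W fun a => row p (ι a))

noncomputable def p2pr (ε : Γ) (P : Set (Pt Γ I)) (t t' : K → Γ) (Φ : Lab I K) (ι : S → I)
    (x : OmE Γ I) : ℝ :=
  ind (∃ p ∈ P, ∃ p' ∈ P, p ≠ p' ∧
    rs ε p x = spr t Φ ∧ rs ε p' x = spr t' Φ ∧ ∀ b, p.1 (ι b) = p'.1 (ι b))

noncomputable def p2nr (γ : ℝ) (ε : Γ) (P : Set (Pt Γ I)) (t : M → K → Γ) (Φ : Lab I K)
    (ι : S → I) (x : OmE Γ I) : ℝ :=
  sm fun q : M → Pt Γ I => ind (Mat ε P t Φ x q) *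
    ind (¬ Rob γ (Wg fun a => row q (ι a)) fun a => row q (ι a))

variable [Finite Γ] [Finite I]

lemma p2N_pow [Fintype M] (ε : Γ) (P : Set (Pt Γ I)) (t : M → K → Γ) (Φ : Lab I K) (x : OmE Γ I)
    {k J : ℕ} (h : k * Fintype.card M ≤ J) :
    p2N ε P t Φ x ^ k ≤ 1 + ∑ r, (1 + NN ε (si P) (x.1 - spr (t r) Φ, x.2) ^ J) := by
  have h0 : ∀ y, 0 ≤ NN ε (si P) y := fun y => by
    rw [NN_si]; exact sm_nonneg fun _ => ind_nonneg _
  have h1 : p2N ε P t Φ x = ∏ r, NN ε (si P) (x.1 - spr (t r) Φ, x.2) := by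
    simp only [NN_si, rs_shift_eq_zero]
    rw [prod_sm]
    exact sm_congr fun q => ind_forall _
  rw [h1, ← Finset.prod_pow]
  refine (le_abs_self _).trans ((abs_prod_le _).trans ?_)
  refine add_le_add le_rfl (Finset.sum_le_sum fun r _ => ?_)
  rw [abs_of_nonneg (pow_nonneg (h0 _) _), ← pow_mul]
  rcases le_total (NN ε (si P) (x.1 - spr (t r) Φ, x.2)) 1 with e | e
  · exact (pow_le_one₀ (h0 _) e).trans (le_add_of_nonneg_right (pow_nonneg (h0 _) _))
  · exact (pow_le_pow_right₀ e h).trans (le_add_of_nonneg_left zero_le_one)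

lemma p2_dec {m : ℕ} (γ : ℝ) (ε : Γ) (P : Set (Pt Γ I)) (t : Fin m → K → Γ) (Φ : Lab I K)
    (ι : S → I) (x : OmE Γ I) :
    p2bd ε P t Φ ι x ≤
      (sm fun R : Finset (Fin m) => sm fun W : AddSubgroup (R → Γ) =>
        ind (p2gd W) * p2tp γ ε P (fun r : R => t r) W Φ ι x) +
      (sm fun r : Fin m × Fin m => p2pr ε P (t r.1) (t r.2) Φ ι x) +
      sm fun R : Finset (Fin m) => p2nr γ ε P (fun r : R => t r) Φ ι x := by
  have a1 : ∀ (R : Finset (Fin m)) (W : AddSubgroup (R → Γ)),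
      0 ≤ ind (p2gd W) * p2tp γ ε P (fun r : R => t r) W Φ ι x := fun R W =>
    mul_nonneg (ind_nonneg _) (sm_nonneg fun _ => ind_nonneg _)
  have a2 : ∀ r : Fin m × Fin m, 0 ≤ p2pr ε P (t r.1) (t r.2) Φ ι x := fun r => ind_nonneg _
  have a3 : ∀ R : Finset (Fin m), 0 ≤ p2nr γ ε P (fun r : R => t r) Φ ι x := fun R =>
    sm_nonneg fun _ => mul_nonneg (ind_nonneg _) (ind_nonneg _)
  have b1 := sm_nonneg fun R => sm_nonneg (a1 R)
  have b2 := sm_nonneg a2
  have b3 := sm_nonneg a3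
  by_cases h : ∃ p : Fin m → Pt Γ I, Mat ε P t Φ x p ∧ Function.Injective p ∧
      (Wg fun a => row p (ι a)) ≠ ⊤
  swap
  · rw [p2bd, ind_neg h]; positivity
  rw [p2bd, ind_pos h]
  obtain ⟨p, hp, hi, hW⟩ := h
  obtain ⟨R, hR, h1, h2⟩ := p2_min _ hW
  have hq : Mat ε P (fun r : R => t r) Φ x fun r => p r := fun r => hp r
  by_cases hr : Rob γ (Wg fun a => row (fun r : R => p r) (ι a))
      fun a => row (fun r : R => p r) (ι a)
  swap
  · have c := single_le_sm (f := fun q : R → Pt Γ I => ind (Mat ε P (fun r : R => t r) Φ x q) *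
      ind (¬ Rob γ (Wg fun a => row q (ι a)) fun a => row q (ι a)))
      (fun _ => mul_nonneg (ind_nonneg _) (ind_nonneg _)) fun r => p r
    rw [ind_pos hq, ind_pos hr, one_mul] at c
    have := c.trans (single_le_sm a3 R)
    linarith
  by_cases hd : Nat.card R = 2 ∧ (Wg fun a => row (fun r : R => p r) (ι a)) = Dg R Γ
  · have : Nontrivial R := Finite.one_lt_card_iff_nontrivial.1 (by omega)
    obtain ⟨r, r', e⟩ := exists_pair_ne R
    have c := single_le_sm a2 (r.1, r'.1)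
    rw [p2pr, ind_pos ⟨p r, (hp r).1, p r', (hp r').1, fun h => e (Subtype.ext (hi h)),
      (hp r).2, (hp r').2, fun b => p2_Dg_eq
        (hd.2 ▸ p2_mem_Wg (fun a => row (fun r : R => p r) (ι a)) b) r r'⟩] at c
    linarith
  · have c := single_le_sm (f := fun q : R → Pt Γ I => ind (Mat ε P (fun r : R => t r) Φ x q ∧
      (∀ a, row q (ι a) ∈ Wg fun a => row (fun r : R => p r) (ι a)) ∧
      Rob γ (Wg fun a => row (fun r : R => p r) (ι a)) fun a => row q (ι a)))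
      (fun _ => ind_nonneg _) fun r => p r
    rw [ind_pos ⟨hq, p2_mem_Wg (fun a => row (fun r : R => p r) (ι a)), hr⟩] at c
    have c' := (single_le_sm (a1 R) (Wg fun a => row (fun r : R => p r) (ι a))).trans
      (single_le_sm (fun R => sm_nonneg (a1 R)) R)
    rw [ind_pos ⟨hR.to_subtype, p2_Dg_le _, h1, h2, hd⟩, one_mul] at c'
    have := c.trans c'
    linarith

variable [Finite K] [Finite M]

lemma p2_nr_le {s n k : ℕ} [Nonempty ((K × Fin s) ⊕ Fin n ↪ I)] {γ : ℝ} (hγ : 2 * γ * k ≤ 1)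
    (Q : PP K) (ε : Γ) (P : Set (Pt Γ I)) (t : M → K → Γ) :
    EPS s (Fin n) Q (p2nr γ ε P t) ≤ 2 * EPS s (Fin n) Q (p2ch ε P t k n) := by
  have h1 : EPS s (Fin n) Q (p2nr γ ε P t) ≤ EPS s (Fin n) Q fun Φ ι x =>
      2 * av fun π : Equiv.Perm (Fin n) => p2ch ε P t k n Φ (fun a => ι (π.toEmbedding a)) x := by
    refine p2_eps_mono Q fun Φ ι x => ?_
    simp only [p2nr, p2ch]
    rw [av_sm_comm, ← sm_mul_left]
    refine sm_mono fun q => ?_
    rw [av_mul_left, mul_left_comm]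
    refine mul_le_mul_of_nonneg_left ?_ (ind_nonneg _)
    by_cases h : Rob γ (Wg fun a => row q (ι a)) fun a => row q (ι a)
    · rw [ind_neg (not_not.2 h)]
      exact mul_nonneg zero_le_two (av_nonneg fun _ => ind_nonneg _)
    · rw [ind_pos h]
      simp only [seg_self]
      exact p2_nonrob hγ (fun a => row q (ι a)) h
  rw [p2_eps_mul, p2_eps_av] at h1
  simp only [p2_eps_res Q _ (p2ch ε P t k n), av_const] at h1
  exact h1

end defs

lemma p2_mom (hS : SH) (D : ℕ → ℝ) (J u : ℕ) : ∃ n0 : ℕ, ∀ (I : Type) [Finite I],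
    n0 ≤ Nat.card I → ∀ (Γ K S M : Type) [AddCommGroup Γ] [Finite Γ] [Finite K] [Finite S]
      [Finite M] (s k : ℕ), Nat.card K * s + Nat.card S ≤ u → k * Nat.card M ≤ J →
      ∀ (ε : Γ) (P : Set (Pt Γ I)) (Q : PP K) (t : M → K → Γ), Tame D (NN ε (si P)) →
        EPS s S Q (fun Φ _ x => p2N ε P t Φ x ^ k) ≤ 1 + Nat.card M * (|D J| + 2) := by
  obtain ⟨n0, H⟩ := hS u |D (J * 2)| 1 one_pos
  refine ⟨n0, fun I _ hI Γ K S M _ _ _ _ _ s k hu hk ε P Q t hT => ?_⟩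
  let _ := Fintype.ofFinite M
  rw [Nat.card_eq_fintype_card] at hk
  have h0 : ∀ y, 0 ≤ NN ε (si P) y := fun y => by
    rw [NN_si]; exact sm_nonneg fun _ => ind_nonneg _
  have hT' : ∀ j, (av fun x => NN ε (si P) x ^ j) ≤ |D j| := fun j => by
    have := hT j
    simp only [abs_of_nonneg (h0 _)] at this
    exact this.trans (le_abs_self _)
  have h1 : ∀ r, EPS s S Q (fun Φ _ x => NN ε (si P) (x.1 - spr (t r) Φ, x.2) ^ J) ≤
      |D J| + 1 := fun r => by
    have := (H I hI Γ K S s hu Q (t r) (fun _ x => NN ε (si P) x ^ J)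
      (p2_av_le (abs_nonneg _) fun _ => by simpa only [← pow_mul] using hT' (J * 2))).1
    have h2 : (av fun _ : S ↪ I => av fun x => NN ε (si P) x ^ J) ≤ |D J| :=
      p2_av_le (abs_nonneg _) fun _ => hT' J
    linarith [(abs_le.1 this).2]
  refine (p2_eps_mono Q fun Φ _ x => p2N_pow ε P t Φ x hk).trans ?_
  rw [p2_eps_add, p2_eps_sum]
  refine add_le_add (p2_eps_one Q) ?_
  refine (Finset.sum_le_sum (g := fun _ => |D J| + 2) fun r _ => ?_).trans ?_
  · rw [p2_eps_add]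
    linarith [h1 r, p2_eps_one (E := Γ) (I := I) (S := S) (s := s) Q]
  · simp [mul_add]

end NE
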