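import Pool.Agent.Lib.MP_ecee09_co.NE.Stmts4
import Pool.Agent.Lib.MP_ecee09_co.NE.CellT
import Pool.Agent.Lib.MP_ecee09_co.SD.Pu5

/-! The truncated product: pointwise expansion and small facts. -/

namespace NE

open SD

variable {Γ I K : Type} [AddCommGroup Γ] {m : ℕ}

/-- the weighted count of matched injective tuples with labels `t` -/
noncomputable def pu5I (ε : Γ) (P : Set (Pt Γ I)) (t : Fin m → K → Γ)
    (a : Fin m → (K → Γ) → ℝ) (Φ : Lab I K) (x : OmE Γ I) : ℝ :=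
  ind (Good Φ) * sm fun p : Fin m → Pt Γ I =>
    ind (Mat ε P t Φ x p ∧ Function.Injective p) * ∏ r, a r (wl (p r).1 Φ)

/-- the same, summed over the labels in `LL` -/
noncomputable def pu5X (m : ℕ) (ε : Γ) (P : Set (Pt Γ I)) (LL : Set (K → Γ))
    (b : (K → Γ) → (K → Γ) → ℝ) (Φ : Lab I K) (x : OmE Γ I) : ℝ :=
  sm fun t : Fin m → K → Γ => ind (∀ r, t r ∈ LL) * pu5I ε P t (fun r => b (t r)) Φ x

lemma PuH.pu5_mono {ε : Γ} {P : Set (Pt Γ I)} {D : ℕ → ℝ} {s1 : ℕ} {η η' : ℝ}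
    (h : PuH ε P D s1 η) (e : η ≤ η') : PuH ε P D s1 η' where
  gc G a b := (h.gc G a b).trans e
  ge := h.ge.trans e
  cc s a b G c d := (h.cc s a b G c d).trans e
  ce s a b := (h.ce s a b).trans e
  cm s a b := (h.cm s a b).trans e
  tm := h.tm
  ch s a b G c := (h.ch s a b G c).trans e
  ca s a b G c := (h.ca s a b G c).trans e

variable [Finite Γ] [Finite I] [Finite K]

lemma pu5_tuples (m : ℕ) (ε : Γ) (P : Set (Pt Γ I)) (LL : Set (K → Γ))
    (b : (K → Γ) → (K → Γ) → ℝ) {Φ : Lab I K} (hΦ : Good Φ) (x : OmE Γ I) :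
    (sm fun z : Fin m → Pt Γ I × (K → Γ) =>
      ind ((∀ r, z r ∈ (cand ε P LL Φ x).toFinite.toFinset) ∧ Function.Injective z) *
        ∏ r, b (z r).2 (wl (z r).1.1 Φ)) = pu5X m ε P LL b Φ x := by
  rw [← sm_equiv (Equiv.arrowProdEquivProdArrow (Fin m) (fun _ => Pt Γ I)
    (fun _ => K → Γ)).symm, sm_prod, sm_comm, pu5X]
  refine sm_congr fun t => ?_
  rw [pu5I, ind_pos hΦ, one_mul, ← sm_mul_left]
  refine sm_congr fun p => ?_
  rw [← mul_assoc, ← ind_and]
  refine congrArg₂ _ (ind_congr ?_) rfl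
  simp only [Set.Finite.mem_toFinset]
  constructor
  · rintro ⟨h1, h2⟩
    exact ⟨fun r => (h1 r).2.1, fun r => ⟨(h1 r).1, (h1 r).2.2⟩, fun r s e => h2 (Prod.ext e
      (hΦ.spr_inj ((h1 r).2.2.symm.trans ((congrArg (rs ε · x) e).trans (h1 s).2.2))))⟩
  · rintro ⟨h1, h2, h3⟩
    exact ⟨fun r => ⟨(h2 r).1, h1 r, (h2 r).2⟩, fun r s e => h3 (congrArg Prod.fst e)⟩

/-- pointwise expansion of the truncated product -/
lemma pu5_pt (ε : Γ) (P : Set (Pt Γ I)) (LL : Set (K → Γ)) (f : (K → Γ) → (K → Γ) → ℝ) {B : ℝ}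
    (hB : 0 < B) (hf : ∀ t w, |f t w| ≤ B) (L : ℕ) (Φ : Lab I K) (x : OmE Γ I) :
    |puPi ε P LL f L Φ x - (ind (Good Φ) + ∑ m ∈ Finset.range L,
      B ^ (m + 1) / (m + 1).factorial * pu5X (m + 1) ε P LL (fun t w => f t w / B) Φ x)| ≤
      (1 + B) ^ (L + 1) / (L + 1).factorial * pu5X (L + 1) ε P LL (fun _ _ => 1) Φ x := by
  by_cases hΦ : Good Φ
  swap
  · simp [puPi, pu5X, pu5I, ind_neg hΦ, sm_zero]
  set s := (cand ε P LL Φ x).toFinite.toFinset with hs
  have h1 := pu5_trunc s (fun z => f z.2 (wl z.1.1 Φ)) B hB.le (fun z => hf _ _) L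
  have e1 : ∀ m : ℕ, ∑ S ∈ s.powersetCard m, ∏ z ∈ S, f z.2 (wl z.1.1 Φ) =
      B ^ m / m.factorial * pu5X m ε P LL (fun t w => f t w / B) Φ x := fun m => by
    have hm : (0 : ℝ) < m.factorial := by exact_mod_cast m.factorial_pos
    rw [← pu5_tuples m ε P LL _ hΦ x, div_mul_eq_mul_div, eq_div_iff hm.ne', mul_comm,
      ← pu5_esym, ← sm_mul_left]
    refine sm_congr fun z => ?_
    rw [Finset.prod_div_distrib, Finset.prod_const, Finset.card_univ, Fintype.card_fin, ← hs]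
    field_simp
  have e2 : (s.card.choose (L + 1) : ℝ) =
      pu5X (L + 1) ε P LL (fun _ _ => 1) Φ x / (L + 1).factorial := by
    have hm : (0 : ℝ) < (L + 1).factorial := by exact_mod_cast (L + 1).factorial_pos
    rw [← pu5_tuples (L + 1) ε P LL _ hΦ x, eq_div_iff hm.ne', mul_comm,
      pu5_esym s (fun _ => 1) (L + 1)]
    simp
  rw [Finset.sum_range_succ', Finset.powersetCard_zero, Finset.sum_singleton, Finset.prod_empty,
    e2] at h1
  simp only [e1] at h1
  rw [puPi, ind_pos hΦ, one_mul, add_comm (1 : ℝ) (∑ m ∈ Finset.range L, _),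
    finprod_mem_eq_finite_toFinset_prod _ (cand ε P LL Φ x).toFinite,
    Set.ncard_eq_toFinset_card _ (cand ε P LL Φ x).toFinite]
  refine h1.trans (le_of_eq ?_)
  ring

omit [Finite K] in
lemma pu5_lam (ε : Γ) (w : Pt Γ I → ℝ) : av (NN ε w) = lam w := by
  unfold NN lam
  rw [av_sm_comm, ← sm_div]
  refine sm_congr fun p => ?_
  rw [av_mul_left, av_prod, av_comm, div_eq_mul_one_div]
  refine congrArg _ ((av_congr fun A => ?_).trans (av_const _))
  have := av_ind_eq (-rs ε p (0, A)) fun _ => (1 : ℝ)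
  simp only [mul_one, Nat.card_fun, Nat.cast_pow] at this
  rw [DD, ← this]
  refine av_congr fun b => ind_congr ?_
  rw [eq_neg_iff_add_eq_zero]
  refine Eq.congr_left (funext fun i => ?_)
  simp only [rs, Pi.add_apply, Pi.zero_apply]
  abel

omit [Finite K] in
lemma pu5_nu {ε : Γ} {P : Set (Pt Γ I)} {D : ℕ → ℝ} (h : Tame D (NN ε (si P)))
    (a : (K → Γ) → ℝ) (ha : ∀ w, |a w| ≤ 1) (Φ : Lab I K) : |nu P a Φ| ≤ |D 1| := by
  have h0 : 0 < DD Γ I := pow_pos card_pos' _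
  have h1 : lam (si P) ≤ |D 1| := by
    rw [← pu5_lam ε]
    exact (av_mono fun x => by rw [pow_one]; exact le_abs_self _).trans
      ((h 1).trans (le_abs_self _))
  refine le_trans ?_ h1
  rw [nu, lam, abs_div, abs_of_pos h0]
  refine div_le_div_of_nonneg_right ((abs_sm_le _).trans (sm_mono fun p => ?_)) h0.le
  rw [abs_mul, si, abs_ind]
  exact mul_le_of_le_one_right (ind_nonneg _) (ha _)

omit [Finite K] in
lemma pu5_prod_nu {ε : Γ} {P : Set (Pt Γ I)} {D : ℕ → ℝ} (h : Tame D (NN ε (si P)))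
    (a : Fin m → (K → Γ) → ℝ) (ha : ∀ r w, |a r w| ≤ 1) (Φ : Lab I K) :
    |∏ r, nu P (a r) Φ| ≤ |D 1| ^ m := by
  rw [Finset.abs_prod]
  refine (Finset.prod_le_prod (fun _ _ => abs_nonneg _)
    fun r _ => pu5_nu h (a r) (ha r) Φ).trans ?_
  simp

omit [AddCommGroup Γ] [Finite Γ] in
/-- a probe has an empty block with small probability -/
lemma pu5_junk (s : ℕ) :
    (av fun o : Pr K s I => ind (¬ Good (prl o))) ≤ Nat.card K * ((2 : ℝ) ^ s)⁻¹ := by
  have h : (av fun g : K × Fin s → Bool => ind (¬ Good (tg g))) ≤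
      Nat.card K * ((2 : ℝ) ^ s)⁻¹ := by
    refine (av_mono (g := fun g : K × Fin s → Bool => sm fun k : K =>
      ind (∀ c ∈ {u : K × Fin s | u.1 = k}, g c = (fun _ => false) c)) fun g => ?_).trans ?_
    · refine (ind_mono fun hg => ?_).trans (ind_exists_le _)
      by_contra hc
      push Not at hc
      refine hg fun k => ?_
      obtain ⟨u, hu, e⟩ := hc k
      exact ⟨u, by simp only [tg, Bool.eq_true_of_not_eq_false e, if_true]; exact congrArg _ hu⟩
    · rw [av_sm_comm, ← sm_const]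
      refine sm_mono fun k => ?_
      have e : {u : K × Fin s | u.1 = k} = Set.range fun j : Fin s => (k, j) := by
        ext ⟨a, b⟩; simp [eq_comm]
      rw [av_agree, e, Set.ncard_range_of_injective fun _ _ q => congrArg Prod.snd q]
      simp
  rw [av_prod]
  refine (av_mono (g := fun _ => Nat.card K * ((2 : ℝ) ^ s)⁻¹ * 1) fun ι =>
    (av_mono fun g => ind_mono fun hg hg' => hg ((good_crd ι.injective).lcomp hg')).trans
      (h.trans (mul_one _).ge)).trans ?_
  rw [av_mul_left]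
  exact mul_le_of_le_one_right (by positivity) av_one_le

end NE
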