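import Pool.Agent.Lib.MP_ecee09_co.NE.W0
import Pool.Agent.Lib.MP_ecee09_co.NE.Part4

/-! The pure case: the weight of a probe. -/

namespace NE

open SD

section
variable {Γ I K K' : Type} [AddCommGroup Γ]

/-- the local factor -/
noncomputable def pu6g (w : K → Γ) : ℝ := DD Γ K * ind (w = 0)

lemma pu6g_nonneg (w : K → Γ) : 0 ≤ pu6g w := mul_nonneg DD_nonneg (ind_nonneg _)

lemma pu6g_le (w : K → Γ) : pu6g w ≤ DD Γ K := mul_le_of_le_one_right DD_nonneg (ind_le_one _)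

/-- the labels that come from `K` -/
def pu6R (Γ : Type) [AddCommGroup Γ] (e : K → K') : Set (K' → Γ) :=
  Set.range fun t : K → Γ => spr t (crd e)

open Classical in
/-- the factor of one half of a joint probe -/
noncomputable def pu6h (e : K → K') (t : K' → Γ) (w : K → Γ) : ℝ :=
  if t ∈ pu6R Γ e then pu6g w else 1

noncomputable def pu6f1 (_t w : K → Γ) : ℝ := pu6g w - 1

noncomputable def pu6f2 (t w : K ⊕ K → Γ) : ℝ :=
  pu6h Sum.inl t (w ∘ Sum.inl) * pu6h Sum.inr t (w ∘ Sum.inr) - 1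

/-- the weight -/
noncomputable def pu6p (ε : Γ) (P : Set (Pt Γ I)) (L : ℕ) (Φ : Lab I K) (x : OmE Γ I) : ℝ :=
  puPi ε P Set.univ pu6f1 L Φ x

lemma pu6p_eq (ε : Γ) (P : Set (Pt Γ I)) (L : ℕ) (Φ : Lab I K) (x : OmE Γ I) :
    pu6p ε P L Φ x = ind (Good Φ) * ind ((cand ε P Set.univ Φ x).ncard ≤ L) *
      ∏ᶠ z ∈ cand ε P Set.univ Φ x, pu6g (wl z.1.1 Φ) := by
  simp only [pu6p, puPi, pu6f1, add_sub_cancel]

lemma pu6_prod_nonneg {α : Type} (S : Set α) {f : α → ℝ} (h : ∀ a, 0 ≤ f a) :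
    0 ≤ ∏ᶠ a ∈ S, f a := finprod_nonneg fun a => finprod_nonneg fun _ => h a

lemma pu6p_nonneg (ε : Γ) (P : Set (Pt Γ I)) (L : ℕ) (Φ : Lab I K) (x : OmE Γ I) :
    0 ≤ pu6p ε P L Φ x := by
  rw [pu6p_eq]
  exact mul_nonneg (mul_nonneg (ind_nonneg _) (ind_nonneg _))
    (pu6_prod_nonneg _ fun _ => pu6g_nonneg _)

lemma pu6p_good {ε : Γ} {P : Set (Pt Γ I)} {L : ℕ} {Φ : Lab I K} {x : OmE Γ I}
    (h : pu6p ε P L Φ x ≠ 0) : Good Φ :=
  by_contra fun hg => h (by rw [pu6p_eq, ind_neg hg, zero_mul, zero_mul])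

lemma pu6h_nonneg (e : K → K') (t : K' → Γ) (w : K → Γ) : 0 ≤ pu6h e t w := by
  unfold pu6h; split_ifs
  exacts [pu6g_nonneg _, zero_le_one]

variable [Finite Γ] [Finite K]

omit [Finite K] in
lemma pu6h_le (e : K → K') (t : K' → Γ) (w : K → Γ) : pu6h e t w ≤ DD Γ K := by
  unfold pu6h; split_ifs
  exacts [pu6g_le _, one_le_DD]

lemma av_pu6g : av (pu6g : (K → Γ) → ℝ) = 1 := by
  have h := av_ind_eq (0 : K → Γ) fun _ => DD Γ K
  rw [← DD_eq, div_self DD_pos.ne'] at h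
  exact (av_congr fun w => mul_comm _ _).trans h

lemma av_pu6h (e : K → K') (t : K' → Γ) : av (pu6h e t) = 1 := by
  unfold pu6h; split_ifs
  exacts [av_pu6g, av_const _]

lemma av_pu6f1 (t : K → Γ) : av (pu6f1 t) = 0 := by
  unfold pu6f1; rw [av_sub, av_pu6g, av_const, sub_self]

lemma av_pu6f2 (t : K ⊕ K → Γ) : av (pu6f2 t) = 0 := by
  unfold pu6f2
  rw [av_sub, av_const, sub_eq_zero, ← av_equiv (Equiv.sumArrowEquivProdArrow K K Γ).symm,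
    av_prod]
  refine (av_mul_av (pu6h Sum.inl t) (pu6h Sum.inr t)).symm.trans ?_
  rw [av_pu6h, av_pu6h, mul_one]

omit [Finite K] in
lemma abs_pu6f1 (t w : K → Γ) : |pu6f1 t w| ≤ DD Γ K ^ 2 := by
  have h1 := pu6g_nonneg w
  have h2 := pu6g_le w
  have h3 : 1 ≤ DD Γ K := one_le_DD
  rw [pu6f1, abs_le]; constructor <;> nlinarith

omit [Finite K] in
lemma abs_pu6f2 (t w : K ⊕ K → Γ) : |pu6f2 t w| ≤ DD Γ K ^ 2 := by
  have h1 := mul_nonneg (pu6h_nonneg Sum.inl t (w ∘ Sum.inl)) (pu6h_nonneg Sum.inr t (w ∘ Sum.inr))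
  have h2 := mul_le_mul (pu6h_le Sum.inl t (w ∘ Sum.inl)) (pu6h_le Sum.inr t (w ∘ Sum.inr))
    (pu6h_nonneg _ _ _) DD_nonneg
  have h3 : 1 ≤ DD Γ K := one_le_DD
  rw [pu6f2, abs_le]; constructor <;> nlinarith

variable [Finite I]

lemma pu6p_le (ε : Γ) (P : Set (Pt Γ I)) (L : ℕ) (Φ : Lab I K) (x : OmE Γ I) :
    pu6p ε P L Φ x ≤ DD Γ K ^ L := by
  rw [pu6p_eq]
  by_cases hc : (cand ε P Set.univ Φ x).ncard ≤ L
  · have hf : (cand ε P Set.univ Φ x).Finite := Set.toFinite _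
    rw [ind_pos hc, mul_one]
    refine (mul_le_of_le_one_left (pu6_prod_nonneg _ fun _ => pu6g_nonneg _)
      (ind_le_one _)).trans (le_trans ?_ (pow_le_pow_right₀ one_le_DD hc))
    rw [finprod_mem_eq_finite_toFinset_prod _ hf, Set.ncard_eq_toFinset_card _ hf,
      ← Finset.prod_const]
    exact Finset.prod_le_prod (fun _ _ => pu6g_nonneg _) fun _ _ => pu6g_le _
  · rw [ind_neg hc, mul_zero, zero_mul]; exact pow_nonneg DD_nonneg _

omit [Finite Γ] in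
lemma pu6p_cell (ε : Γ) (P : Set (Pt Γ I)) (L : ℕ) (Φ : Lab I K) (x : OmE Γ I) (y : OmE Γ K) :
    pu6p ε P L Φ (cell x Φ y) = pu6p ε P L Φ (cell x Φ 0) := by
  let e : Pt Γ I × (K → Γ) → Pt Γ I × (K → Γ) := fun z => (z.1, z.2 + rs ε (wl z.1.1 Φ, 0) y)
  have hi : Function.Injective e := fun z z' h => by
    have h1 : z.1 = z'.1 := (congrArg Prod.fst h :)
    have h2 : z.2 + rs ε (wl z.1.1 Φ, 0) y = z'.2 + rs ε (wl z'.1.1 Φ, 0) y := congrArg Prod.snd h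
    rw [h1] at h2
    exact Prod.ext h1 (add_right_cancel h2)
  have he : cand ε P Set.univ Φ (cell x Φ y) = e '' cand ε P Set.univ Φ (cell x Φ 0) := by
    ext z
    constructor
    · rintro ⟨h1, -, h3⟩
      refine ⟨(z.1, z.2 - rs ε (wl z.1.1 Φ, 0) y), ⟨h1, trivial, ?_⟩, by simp [e]⟩
      rw [spr_sub, ← h3, rs_cell ε z.1 x Φ y, add_sub_cancel_right]
    · rintro ⟨z, ⟨h1, -, h3⟩, rfl⟩
      refine ⟨h1, trivial, ?_⟩
      simp only [e]
      rw [spr_add, ← h3, rs_cell ε z.1 x Φ y]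
  rw [pu6p_eq, pu6p_eq, he, Set.ncard_image_of_injective _ hi, finprod_mem_image hi.injOn]

omit [Finite Γ] in
lemma pu6p_inv (ε : Γ) (P : Set (Pt Γ I)) (L : ℕ) {Φ : Lab I K} {x : OmE Γ I}
    (h : 0 < plant Φ x.2) (y : OmE Γ K) : pu6p ε P L Φ (cell x Φ y) = pu6p ε P L Φ x := by
  obtain ⟨Q, hQ⟩ := (plant_pos_iff Φ x.2).1 h
  have e : cell x Φ (0, Q) = x := Prod.ext (by simp [cell, spr_zero]) hQ
  rw [pu6p_cell, ← pu6p_cell ε P L Φ x (0, Q), e]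

lemma pu6p_bad [Nontrivial Γ] (ε : Γ) (P : Set (Pt Γ I)) (L : ℕ) {Φ : Lab I K} {x : OmE Γ I}
    (h : 0 < plant Φ x.2) (h' : pu6p ε P L Φ x ≠ 0) : bad ε P x Φ = 0 := by
  unfold bad
  rw [← av_zero (α := OmE Γ K)]
  refine av_congr fun y => ind_neg ?_
  rintro ⟨p, hp, h0, hr⟩
  rw [← pu6p_inv ε P L h y, pu6p_eq,
    finprod_mem_eq_finite_toFinset_prod _ (Set.toFinite _)] at h'
  have h1 := Finset.prod_ne_zero_iff.1 (right_ne_zero_of_mul h') (p, 0)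
    ((Set.Finite.mem_toFinset _).2 ⟨hp, trivial, h0.trans (spr_zero Φ).symm⟩)
  have h2 : wl p.1 Φ = 0 := by_contra fun hc => h1 (by simp [pu6g, ind_neg hc])
  rw [h2, Gen] at hr
  refine bot_ne_top (α := AddSubgroup Γ) (hr ▸ ((AddSubgroup.closure_eq_bot_iff ..).2 ?_).symm)
  rintro _ ⟨k, rfl⟩
  rfl

omit [Finite Γ] [Finite K] [Finite I] in
lemma pu6_cand {e : K → K'} (ε : Γ) (P : Set (Pt Γ I)) {LL : Set (K' → Γ)} (h : pu6R Γ e ⊆ LL)
    (Φ : Lab I K') (x : OmE Γ I) (z : Pt Γ I × (K' → Γ)) :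
    z ∈ (fun c : Pt Γ I × (K → Γ) => (c.1, spr c.2 (crd e))) ''
      cand ε P Set.univ (lcomp Φ (crd e)) x ↔ z ∈ cand ε P LL Φ x ∧ z.2 ∈ pu6R Γ e := by
  constructor
  · rintro ⟨c, ⟨h1, -, h3⟩, rfl⟩
    exact ⟨⟨h1, h ⟨_, rfl⟩, h3.trans (spr_lcomp ..)⟩, _, rfl⟩
  · rintro ⟨⟨h1, -, h3⟩, t, ht⟩
    refine ⟨(z.1, t), ⟨h1, trivial, ?_⟩, Prod.ext rfl ht⟩
    rw [spr_lcomp, h3, ← ht]

omit [Finite Γ] [Finite K] in
lemma pu6_half [Finite K'] {e : K → K'} (he : Function.Injective e) (ε : Γ) (P : Set (Pt Γ I))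
    {LL : Set (K' → Γ)} (h : pu6R Γ e ⊆ LL) (Φ : Lab I K') (x : OmE Γ I) :
    ∏ᶠ z ∈ cand ε P LL Φ x, pu6h e z.2 (wl z.1.1 Φ ∘ e) =
      ∏ᶠ z ∈ cand ε P Set.univ (lcomp Φ (crd e)) x, pu6g (wl z.1.1 (lcomp Φ (crd e))) := by
  have hi : Function.Injective fun c : Pt Γ I × (K → Γ) => (c.1, spr c.2 (crd e)) :=
    fun c c' h => Prod.ext (congrArg Prod.fst h :) ((good_crd he).spr_inj (congrArg Prod.snd h))
  rw [finprod_mem_inter_mulSupport_eq' _ _ ((fun c : Pt Γ I × (K → Γ) => (c.1, spr c.2 (crd e))) ''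
    cand ε P Set.univ (lcomp Φ (crd e)) x) fun z hz => ?_, finprod_mem_image hi.injOn]
  · refine finprod_mem_congr rfl fun z _ => ?_
    rw [pu6h, if_pos ⟨_, rfl⟩, wl_lcomp, wl_crd he]
  · rw [pu6_cand ε P h, and_iff_left]
    exact by_contra fun hc => hz (if_neg hc)

lemma pu6_joint (ε : Γ) (P : Set (Pt Γ I)) (L : ℕ) (Φ : Lab I (K ⊕ K)) (x : OmE Γ I) :
    pu6p ε P L (lcomp Φ (crd Sum.inl)) x * pu6p ε P L (lcomp Φ (crd Sum.inr)) x ≤
      puPi ε P (pu6R Γ Sum.inl ∪ pu6R Γ Sum.inr) pu6f2 (2 * L) Φ x := by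
  simp only [puPi, pu6f2, add_sub_cancel]
  rw [finprod_mem_mul_distrib (Set.toFinite _),
    pu6_half Sum.inl_injective ε P Set.subset_union_left,
    pu6_half Sum.inr_injective ε P Set.subset_union_right, pu6p_eq, pu6p_eq, mul_mul_mul_comm]
  refine mul_le_mul_of_nonneg_right ?_ (mul_nonneg (pu6_prod_nonneg _ fun _ => pu6g_nonneg _)
    (pu6_prod_nonneg _ fun _ => pu6g_nonneg _))
  simp only [← ind_and]
  refine ind_mono fun ⟨⟨g1, c1⟩, g2, c2⟩ => ⟨?_, ?_⟩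
  · rintro (k | k)
    · obtain ⟨i, hi⟩ := g1 k
      obtain ⟨u, h1, h2⟩ := lcomp_eq_some.1 hi
      exact ⟨i, h1.trans (congrArg some ((crd_eq_some Sum.inl_injective).1 h2).symm)⟩
    · obtain ⟨i, hi⟩ := g2 k
      obtain ⟨u, h1, h2⟩ := lcomp_eq_some.1 hi
      exact ⟨i, h1.trans (congrArg some ((crd_eq_some Sum.inr_injective).1 h2).symm)⟩
  · refine le_trans (Set.ncard_le_ncard (fun z hz => ?_)) ((Set.ncard_union_le _ _).trans
      ((add_le_add ((Set.ncard_image_le (f := fun c : Pt Γ I × (K → Γ) =>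
        (c.1, spr c.2 (crd Sum.inl)))).trans c1) ((Set.ncard_image_le
          (f := fun c : Pt Γ I × (K → Γ) => (c.1, spr c.2 (crd Sum.inr)))).trans c2)).trans
            (two_mul L).ge))
    exact hz.2.1.imp (fun h => (pu6_cand ε P Set.subset_union_left Φ x z).2 ⟨hz, h⟩)
      fun h => (pu6_cand ε P Set.subset_union_right Φ x z).2 ⟨hz, h⟩

end

end NE
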