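import Pool.Agent.Lib.MP_ecee09_co.NE.CA

/-! Fill operators on an atom: the contraction semigroup. -/

namespace NE

open ComplexConjugate Filter Topology
open scoped InnerProductSpace

variable {κ : Ker} {H : Type} [NormedAddCommGroup H] [InnerProductSpace ℂ H] [CompleteSpace H]

namespace Atom
variable {S : Sys κ H} {E : Type} [AddCommGroup E] [Fintype E] (A : Atom S E)

/-- the phase `c` of the label of `a` -/
noncomputable def Dd (c : E → ℂ) (a : Finset ℕ) : H →L[ℂ] H :=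
  ∑ e, c e • (S.Q a (A.x 0 e) * A.La)

/-- fill a fresh block against the phase `c` of its label -/
noncomputable def Wh (c : E → ℂ) (t : ℕ) : H →L[ℂ] H :=
  ∑ e, c e • (S.EQ t ∅ (A.x 0 e) true ∅ * A.La)

theorem Dd_apply (c : E → ℂ) (a : Finset ℕ) (u : H) :
    A.Dd c a u = ∑ e, c e • S.Q a (A.x 0 e) (A.La u) := by
  simp only [Dd, ContinuousLinearMap.sum_apply, ContinuousLinearMap.smul_apply,
    ContinuousLinearMap.mul_apply]

theorem Wh_apply (c : E → ℂ) (t : ℕ) (u : H) :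
    A.Wh c t u = ∑ e, c e • S.EQ t ∅ (A.x 0 e) true ∅ (A.La u) := by
  simp only [Wh, ContinuousLinearMap.sum_apply, ContinuousLinearMap.smul_apply,
    ContinuousLinearMap.mul_apply]

theorem Dd_mem (c : E → ℂ) (a : Finset ℕ) : A.Dd c a ∈ Alg S.V (Aa ∪ a) :=
  sum_mem fun e _ => SMulMemClass.smul_mem _ (mul_mem (A.Qx_mem a 0 e) (A.La_mem _))

theorem EQx_mem (t : ℕ) (e : E) (b : Bool) : S.EQ t ∅ (A.x 0 e) b ∅ ∈ Alg S.V Aa :=
  S.alg_mono (by simpa using A.sub 0 e) (S.EQ_mem t ∅ (A.x 0 e) b ∅)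

theorem Wh_mem (c : E → ℂ) (t : ℕ) : A.Wh c t ∈ Alg S.V Aa :=
  sum_mem fun e _ => SMulMemClass.smul_mem _ (mul_mem (A.EQx_mem t e true) A.mem)

theorem star_Dd (c : E → ℂ) (a : Finset ℕ) : star (A.Dd c a) = A.Dd (fun e => conj (c e)) a := by
  simp only [Dd, star_sum, star_smul, star_mul, A.proj.isSelfAdjoint.star_eq,
    (S.Q_proj _ _).isSelfAdjoint.star_eq]
  exact Finset.sum_congr rfl fun e _ => by rw [(S.alg_comm A.mem (S.Q_mem _ _)).eq]; rfl

theorem inner_Dd (c : E → ℂ) (a : Finset ℕ) (u w : H) :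
    ⟪w, A.Dd c a u⟫_ℂ = ⟪A.Dd (fun e => conj (c e)) a w, u⟫_ℂ := by
  rw [← A.star_Dd, ContinuousLinearMap.star_eq_adjoint, ContinuousLinearMap.adjoint_inner_left]

theorem La_Dd (c : E → ℂ) (a : Finset ℕ) (u : H) : A.La (A.Dd c a u) = A.Dd c a u := by
  simp only [Dd_apply, map_sum, map_smul, A.La_Q, A.La_La]

theorem La_Wh (c : E → ℂ) (t : ℕ) (u : H) : A.La (A.Wh c t u) = A.Wh c t u := by
  simp only [Wh_apply, map_sum, map_smul, S.alg_apply_comm A.mem (A.EQx_mem t _ true), A.La_La]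

theorem Q_Dd (c : E → ℂ) (a : Finset ℕ) (e : E) (u : H) :
    S.Q a (A.x 0 e) (A.Dd c a u) = c e • S.Q a (A.x 0 e) (A.La u) := by
  classical
  simp only [Dd_apply, map_sum, map_smul, A.orth_ite (A.La_La u), smul_ite, smul_zero,
    Finset.sum_ite_eq, Finset.mem_univ, if_true]

theorem Dd_Dd (c c' : E → ℂ) (a : Finset ℕ) (u : H) :
    A.Dd c a (A.Dd c' a u) = A.Dd (fun e => c e * c' e) a u := by
  rw [A.Dd_apply c, A.La_Dd, A.Dd_apply (fun e => c e * c' e)]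
  simp only [A.Q_Dd, smul_smul]

theorem Dd_one_proj (a : Finset ℕ) : IsStarProjection (A.Dd (fun _ => 1) a) := by
  refine ⟨?_, ?_⟩
  · ext u
    simp only [ContinuousLinearMap.mul_apply, A.Dd_Dd, mul_one]
  · rw [IsSelfAdjoint, A.star_Dd]; simp

theorem norm_Dd_le {c : E → ℂ} (hc : ∀ e, ‖c e‖ = 1) (a : Finset ℕ) (u : H) :
    ‖A.Dd c a u‖ ≤ ‖u‖ := by
  have h1 : ⟪A.Dd c a u, A.Dd c a u⟫_ℂ = ⟪u, A.Dd (fun _ => 1) a u⟫_ℂ := by
    have : (fun e => conj (c e) * c e) = fun _ => (1 : ℂ) := by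
      funext e; rw [mul_comm, mul_conj'', hc]; simp
    rw [A.inner_Dd, A.Dd_Dd, this, ← inner_conj_symm, proj_inner_self (A.Dd_one_proj a),
      Complex.conj_ofReal]
  rw [inner_self_eq_norm_sq_to_K, proj_inner_self (A.Dd_one_proj a)] at h1
  have h2 : ‖A.Dd c a u‖ ^ 2 = ‖A.Dd (fun _ => 1) a u‖ ^ 2 := by
    apply Complex.ofReal_injective
    rw [← h1]; simp
  have h3 := proj_norm_le (A.Dd_one_proj a) u
  nlinarith [norm_nonneg (A.Dd c a u), norm_nonneg (A.Dd (fun _ => 1) a u), norm_nonneg u]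

theorem inner_Wh (c : E → ℂ) {R : Set ℕ} (hR : Rᶜ.Infinite) (hA : Aa ⊆ R) {a : Finset ℕ}
    (ha : Disjoint (a : Set ℕ) R) {Z : H →L[ℂ] H} (hZ : Z ∈ Alg S.V R) {P P' : Pat}
    (hP : Supp P R) (hP' : Supp P' R) :
    ⟪S.v P', A.Dd c a (Z (S.v (P ∪ fill a)))⟫_ℂ = ⟪S.v P', A.Wh c a.card (Z (S.v P))⟫_ℂ := by
  simp only [Dd_apply, Wh_apply, inner_sum, inner_smul_right]
  refine Finset.sum_congr rfl fun e _ => ?_
  have := S.inner_EQ hR (a := a) (y := ∅) (c := A.x 0 e) (z := ∅) ha (by simp)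
    ((A.sub 0 e).trans hA) (by simp) (mul_mem (S.alg_mono hA A.mem) hZ) hP hP' true
  simp only [Finset.union_empty, if_true, rect, Finset.image₂_empty_right,
    ContinuousLinearMap.mul_apply] at this
  rw [this]

theorem norm_Wh_le {c : E → ℂ} (hc : ∀ e, ‖c e‖ = 1) (t : ℕ) : ‖A.Wh c t‖ ≤ 1 := by
  obtain ⟨a, rfl, ha, -⟩ := exists_block t ∅
  obtain ⟨f, hf, hfa⟩ := exists_fix compl_Aa_inf a ha
  have hx : ∀ e, (A.x 0 e).map f = A.x 0 e := fun e => by
    ext i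
    simp only [Finset.mem_map]
    exact ⟨fun ⟨j, hj, h⟩ => by rw [← h, hf j (A.sub 0 e hj)]; exact hj,
      fun h => ⟨i, h, hf i (A.sub 0 e h)⟩⟩
  have hoff : Off f (fill a) := off_rect hfa a
  refine ContinuousLinearMap.opNorm_le_bound _ zero_le_one fun u => ?_
  have : A.Wh c a.card u = star (S.V f ∅) (A.Dd c a (S.V f (fill a) u)) := by
    simp only [Dd_apply, Wh_apply, map_sum, map_smul]
    refine Finset.sum_congr rfl fun e _ => ?_
    rw [S.EQ_eq hfa]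
    have h2 := congrArg (fun T : H →L[ℂ] H => T u) (S.alg_V A.mem hf hoff)
    simp only [ContinuousLinearMap.mul_apply] at h2
    simp only [Finset.map_empty, Finset.union_empty, if_true, rect, Finset.image₂_empty_right,
      ContinuousLinearMap.mul_apply, hx, h2]
  rw [this, one_mul]
  have h1 : ‖star (S.V f ∅)‖ ≤ 1 := by
    rw [norm_star]
    exact ContinuousLinearMap.opNorm_le_bound _ zero_le_one fun w => by
      rw [S.norm_V (off_empty f), one_mul]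
  refine ((star (S.V f ∅)).le_of_opNorm_le h1 _).trans ?_
  rw [one_mul, ← S.norm_V hoff u]
  exact A.norm_Dd_le hc a _

/-- splitting the label of a union of two blocks on the vacuum -/
theorem Dd_union (c : E → ℂ) {a a' : Finset ℕ} (ha : Disjoint (a : Set ℕ) Aa)
    (ha' : Disjoint (a' : Set ℕ) Aa) (h : Disjoint a a') :
    A.Dd c (a ∪ a') (S.v ∅) = ∑ e, ∑ e', c (e + e') •
      A.La (S.Q a (A.x 0 e) (S.Q a' (A.x 0 e') (S.v ∅))) := by
  classical
  have nl : ∀ R, NoLoop ∅ R := fun R i _ => Finset.notMem_empty _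
  have e1 : A.La (S.v ∅) = ∑ e, ∑ e', A.La (S.Q a (A.x 0 e) (S.Q a' (A.x 0 e') (S.v ∅))) := by
    rw [← A.cover a ha]
    refine Finset.sum_congr rfl fun e _ => ?_
    rw [← A.cover a' ha', map_sum]
    simp only [A.La_Q]
  have e2 : A.Dd c (a ∪ a') (S.v ∅) = A.Dd c (a ∪ a') (A.La (S.v ∅)) := by
    simp only [Dd_apply, A.La_La]
  rw [e2, e1]
  simp only [map_sum]
  refine Finset.sum_congr rfl fun e _ => Finset.sum_congr rfl fun e' _ => ?_
  set u := A.La (S.Q a (A.x 0 e) (S.Q a' (A.x 0 e') (S.v ∅))) with hu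
  have hL : A.La u = u := A.La_La _
  have h1 : S.Q a (A.x 0 e) u = u := by rw [hu, ← A.La_Q, S.Q_Q]
  have h2 : S.Q a' (A.x 0 e') u = u := by rw [hu, ← A.La_Q, S.Q_comm a', S.Q_Q]
  have h3 := A.label_add hL ha ha' h h1 h2
  rw [Dd_apply, hL, Finset.sum_eq_single (e + e') (fun e'' _ hne => ?_) (by simp), h3]
  rw [← h3, A.orth hL _ hne, smul_zero]

theorem fill_union (a a' : Finset ℕ) : fill (a ∪ a') = (fill a' ∪ fill a) ∪ rect a a' := by
  ext c
  simp only [fill, Finset.mem_union, mem_rect]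
  constructor
  · rintro ⟨i, hi | hi, j, hj | hj, rfl⟩
    · exact Or.inl (Or.inr ⟨i, hi, j, hj, rfl⟩)
    · exact Or.inr ⟨i, hi, j, hj, rfl⟩
    · exact Or.inr ⟨j, hj, i, hi, Sym2.eq_swap⟩
    · exact Or.inl (Or.inl ⟨i, hi, j, hj, rfl⟩)
  · rintro ((⟨i, hi, j, hj, rfl⟩ | ⟨i, hi, j, hj, rfl⟩) | ⟨i, hi, j, hj, rfl⟩)
    · exact ⟨i, Or.inr hi, j, Or.inr hj, rfl⟩
    · exact ⟨i, Or.inl hi, j, Or.inl hj, rfl⟩
    · exact ⟨i, Or.inl hi, j, Or.inr hj, rfl⟩

end Atom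

theorem loop_mem_rect {a b : Finset ℕ} {i : ℕ} : s(i, i) ∈ rect a b ↔ i ∈ a ∧ i ∈ b := by
  rw [mem_rect]
  constructor
  · rintro ⟨j, hj, l, hl, h⟩
    rcases Sym2.eq_iff.1 h with ⟨rfl, rfl⟩ | ⟨rfl, rfl⟩ <;> exact ⟨hj, hl⟩
  · rintro ⟨h1, h2⟩; exact ⟨i, h1, i, h2, rfl⟩

theorem disj_rect_fill {a a' : Finset ℕ} (h : Disjoint a a') : Disjoint (rect a a') (fill a) := by
  refine Finset.disjoint_left.2 fun c hc hc' => ?_
  obtain ⟨i, hi, j, hj, rfl⟩ := mem_rect.1 hc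
  obtain ⟨i', hi', j', hj', h'⟩ := mem_rect.1 hc'
  rcases Sym2.eq_iff.1 h' with ⟨rfl, rfl⟩ | ⟨rfl, rfl⟩
  · exact Finset.disjoint_left.1 h hj' hj
  · exact Finset.disjoint_left.1 h hi' hj

theorem supp_fill (a : Finset ℕ) {R : Set ℕ} (h : (a : Set ℕ) ⊆ R) : Supp (fill a) R := by
  intro c hc i hi
  obtain ⟨j, hj, l, hl, rfl⟩ := mem_rect.1 hc
  rcases Sym2.mem_iff.1 hi with rfl | rfl
  · exact h hj
  · exact h hl

theorem supp_empty (R : Set ℕ) : Supp ∅ R := fun _ h => absurd h (Finset.notMem_empty _)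

theorem noLoop_empty (R : Set ℕ) : NoLoop ∅ R := fun _ _ => Finset.notMem_empty _

namespace Atom
variable {S : Sys κ H} {E : Type} [AddCommGroup E] [Fintype E] (A : Atom S E)

/-- the conjugate phase of a type -/
noncomputable def cq (τ : QT E) (e : E) : ℂ := conj (ee (τ.q e))

theorem norm_cq (τ : QT E) (e : E) : ‖cq τ e‖ = 1 := by simp [cq]

/-- (L5) the semigroup law on the vacuum -/
theorem Wh_add (τ : QT E) (hR : A.Rect τ.be) (t t' : ℕ) :
    A.Wh (cq τ) (t + t') (S.v ∅) = A.Wh (cq τ) t (A.Wh (cq τ) t' (S.v ∅)) := by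
  obtain ⟨a, rfl, ha, -⟩ := exists_block t ∅
  obtain ⟨a', rfl, ha', h⟩ := exists_block t' a
  have h := h.symm
  rw [← sub_eq_zero]
  have hm := sub_mem (A.Wh_mem (cq τ) (a.card + a'.card))
    (mul_mem (A.Wh_mem (cq τ) a.card) (A.Wh_mem (cq τ) a'.card))
  refine S.alg_ext0 hm (S.v ∅) fun Z hZ => ?_
  rw [ContinuousLinearMap.sub_apply, inner_sub_right, sub_eq_zero, ContinuousLinearMap.mul_apply,
    ← Finset.card_union_of_disjoint h]
  have hu : Disjoint ((a ∪ a' : Finset ℕ) : Set ℕ) Aa := by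
    rw [Finset.coe_union]; exact Set.disjoint_union_left.2 ⟨ha, ha'⟩
  rw [← A.inner_Wh (cq τ) compl_Aa_inf subset_rfl hu hZ (supp_empty _) (supp_empty _),
    A.inner_Dd, A.Dd_union _ ha ha' h]
  have e1 : (∑ e, ∑ e', conj (cq τ (e + e')) •
      A.La (S.Q a (A.x 0 e) (S.Q a' (A.x 0 e') (S.v ∅)))) =
      A.Dd (fun e => conj (cq τ e)) a' (A.Dd (fun e => conj (cq τ e)) a (S.v (∅ ∪ rect a a'))) := by
    rw [Finset.sum_comm, A.Dd_apply _ a', A.La_Dd]
    refine Finset.sum_congr rfl fun e' _ => ?_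
    rw [A.Dd_apply, map_sum, Finset.smul_sum]
    refine Finset.sum_congr rfl fun e _ => ?_
    rw [map_smul, S.Q_comm a', ← A.La_Q, ← A.La_Q,
      hR a a' e e' ∅ ha ha' h (Finset.disjoint_empty_left _) (noLoop_empty _), smul_smul, smul_smul]
    simp only [cq, Complex.conj_conj, τ.q_add, ee_add]
    congr 1; ring
  rw [e1, ← A.inner_Dd, ← A.inner_Dd, Finset.empty_union (fill _), Atom.fill_union]
  have hR1 : (Aa ∪ ((a ∪ a' : Finset ℕ) : Set ℕ))ᶜ.Infinite := compl_Aa_infinite _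
  have m1 : A.Dd (cq τ) a * (A.Dd (cq τ) a' * Z) ∈ Alg S.V (Aa ∪ ((a ∪ a' : Finset ℕ) : Set ℕ)) :=
    mul_mem (S.alg_mono (Set.union_subset_union_right _ (by simp)) (A.Dd_mem _ a))
      (mul_mem (S.alg_mono (Set.union_subset_union_right _ (by simp)) (A.Dd_mem _ a'))
        (S.alg_mono Set.subset_union_left hZ))
  have nl : ∀ i, s(i, i) ∉ rect a a' := fun i hi =>
    Finset.disjoint_left.1 h (loop_mem_rect.1 hi).1 (loop_mem_rect.1 hi).2
  have e2 := S.sd_union hR1 m1 (fill a' ∪ fill a) ∅ (rect a a')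
    (Finset.disjoint_union_right.2 ⟨by rw [rect_comm]; exact disj_rect_fill h.symm,
      disj_rect_fill h⟩) (Finset.disjoint_empty_right _) (fun i _ => nl i)
    (fun i hi => absurd hi (nl i))
  simp only [ContinuousLinearMap.mul_apply] at e2
  rw [e2]
  have m2 : A.Dd (cq τ) a' * Z ∈ Alg S.V (Aa ∪ (a' : Set ℕ)) :=
    mul_mem (A.Dd_mem _ a') (S.alg_mono Set.subset_union_left hZ)
  have e3 := A.inner_Wh (cq τ) (compl_Aa_infinite a') Set.subset_union_left (a := a)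
    (Set.disjoint_union_right.2 ⟨ha, Finset.disjoint_coe.2 h⟩) m2
    (supp_fill a' Set.subset_union_right) (supp_empty _)
  simp only [ContinuousLinearMap.mul_apply] at e3
  rw [e3, S.alg_apply_comm (A.Wh_mem _ _) (A.Dd_mem _ a')]
  have e4 := A.inner_Wh (cq τ) compl_Aa_inf subset_rfl ha' (mul_mem (A.Wh_mem (cq τ) a.card) hZ)
    (supp_empty _) (supp_empty _)
  simp only [ContinuousLinearMap.mul_apply, Finset.empty_union] at e4
  rw [e4, S.alg_apply_comm (A.Wh_mem _ _) (A.Wh_mem _ _)]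

theorem Wh_pow (τ : QT E) (hR : A.Rect τ.be) (t : ℕ) :
    A.Wh (cq τ) (t + 1) (S.v ∅) = (A.Wh (cq τ) 1 ^ (t + 1)) (S.v ∅) := by
  induction t with
  | zero => simp
  | succ t ih =>
    rw [add_comm (t + 1) 1, A.Wh_add τ hR, ih, add_comm 1 (t + 1), pow_succ' _ (t + 1)]
    rfl

end Atom

end NE
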