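import Pool.Agent.Lib.MP_ecee09_co.NE.QQa
import Pool.Agent.Lib.MP_ecee09_co.NE.Cells

/-! Blow-ups on an event on which rectangles and fills act by the phases of a type. -/

namespace NE

open ComplexConjugate Filter Topology
open scoped InnerProductSpace

variable {κ : Ker} {H : Type} [NormedAddCommGroup H] [InnerProductSpace ℂ H] [CompleteSpace H]

section blocks
variable {K : Type} {a : K → Finset ℕ}

/-- the rectangle of a pair of blocks -/
def rc2 (a : K → Finset ℕ) : Sym2 K → Pat :=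
  Sym2.lift ⟨fun k l => rect (a k) (a l), fun _ _ => rect_comm _ _⟩

theorem rc2_mk (a : K → Finset ℕ) (k l : K) : rc2 a s(k, l) = rect (a k) (a l) := rfl

theorem rc2_disj (hd : ∀ k l i, i ∈ a k → i ∈ a l → k = l) {T : Finset (Sym2 K)} {c : Sym2 K}
    (hc : c ∉ T) : Disjoint (T.biUnion (rc2 a)) (rc2 a c) := by
  refine Finset.disjoint_left.2 fun x h h' => hc ?_
  obtain ⟨d, h1, h2⟩ := Finset.mem_biUnion.1 h
  induction c using Sym2.ind with
  | _ k l =>
  induction d using Sym2.ind with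
  | _ k' l' =>
  rw [rc2_mk] at h' h2
  obtain ⟨i, hi, j, hj, rfl⟩ := mem_rect.1 h'
  obtain ⟨i', hi', j', hj', e⟩ := mem_rect.1 h2
  rcases Sym2.eq_iff.1 e with ⟨rfl, rfl⟩ | ⟨rfl, rfl⟩
  · rwa [hd _ _ _ hi hi', hd _ _ _ hj hj']
  · rwa [hd _ _ _ hi hj', hd _ _ _ hj hi', Sym2.eq_swap]

theorem rc2_loop (hd : ∀ k l i, i ∈ a k → i ∈ a l → k = l) {T : Finset (Sym2 K)} {i : ℕ}
    (h : s(i, i) ∈ T.biUnion (rc2 a)) : ∃ k, s(k, k) ∈ T ∧ i ∈ a k := by
  obtain ⟨d, h1, h2⟩ := Finset.mem_biUnion.1 h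
  induction d using Sym2.ind with
  | _ k l =>
  obtain ⟨h3, h4⟩ := loop_mem_rect.1 (rc2_mk a k l ▸ h2)
  obtain rfl := hd _ _ _ h3 h4
  exact ⟨k, h1, h3⟩

theorem rc2_noLoop (hd : ∀ k l i, i ∈ a k → i ∈ a l → k = l)
    (ha : ∀ k, Disjoint (a k : Set ℕ) Aa) {T : Finset (Sym2 K)} {k : K} (h : s(k, k) ∉ T) :
    NoLoop (T.biUnion (rc2 a)) (Aa ∪ a k) := fun i hi e => by
  obtain ⟨l, h1, h2⟩ := rc2_loop hd e
  rcases hi with hi | hi
  · exact Set.disjoint_left.1 (ha l) h2 hi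
  · exact h (hd _ _ _ h2 hi ▸ h1)

theorem rc2_erase [DecidableEq K] {T : Finset (Sym2 K)} {c : Sym2 K} (hc : c ∈ T) :
    T.biUnion (rc2 a) = (T.erase c).biUnion (rc2 a) ∪ rc2 a c := by
  conv_lhs => rw [← Finset.insert_erase hc, Finset.biUnion_insert, Finset.union_comm]

end blocks

namespace Atom
variable {S : Sys κ H} {E : Type} [AddCommGroup E] [Fintype E] (A : Atom S E) {K : Type}

/-- the event that a block has a given label -/
noncomputable def QU (b : Finset ℕ) (e : E) : Alg S.V Set.univ := S.U (A.Qx_mem b 0 e)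

/-- a fresh block has a given label -/
noncomputable def EU (t : ℕ) (e : E) : Alg S.V Set.univ := S.U (A.EQx_mem t e false)

/-- a fresh block of random size has a given label -/
noncomputable def PU (n : ℕ) (e : E) : Alg S.V Set.univ :=
  ((n + 1 : ℕ) : ℂ)⁻¹ • ∑ t : Fin (n + 1), A.EU (t + 1) e

theorem PU_val (n : ℕ) (e : E) : (A.PU n e).1 = S.Pib n ∅ (A.x 0 e) := by
  rw [Sys.Pib, Sys.avs, Finset.sum_range]
  exact congrArg (((n + 1 : ℕ) : ℂ)⁻¹ • ·) (AddSubmonoidClass.coe_finsetSum _ _)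

theorem prod_QU {a : K → Finset ℕ} (ha : ∀ k, Disjoint (a k : Set ℕ) Aa)
    (hd : ∀ k l i, i ∈ a k → i ∈ a l → k = l) (w : K → E) (s : Finset K) {Z : H →L[ℂ] H}
    (hZ : Z ∈ Alg S.V Aa) : ⟪S.v ∅, (∏ k ∈ s, A.QU (a k) (w k)).1 (Z (S.v ∅))⟫_ℂ =
      ⟪S.v ∅, (∏ k ∈ s, A.EU (a k).card (w k)).1 (Z (S.v ∅))⟫_ℂ := by
  classical
  induction s using Finset.induction_on generalizing Z with
  | empty => rfl
  | insert k s hk ih =>
    have h1 : (∏ l ∈ s, A.QU (a l) (w l)).1 * Z ∈ Alg S.V (Aa ∪ (s.biUnion a : Finset ℕ)) :=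
      mul_mem (S.prod_mem s _ fun l hl => S.alg_mono (Set.union_subset_union_right _
        (Finset.coe_subset.2 (Finset.subset_biUnion_of_mem a hl))) (A.Qx_mem _ 0 _))
        (S.alg_mono Set.subset_union_left hZ)
    have h2 := S.inner_EQ (compl_Aa_infinite _) (a := a k) (y := ∅) (c := A.x 0 (w k)) (z := ∅)
      (Set.disjoint_union_right.2 ⟨ha k, Set.disjoint_left.2 fun i hi e => by
        obtain ⟨l, hl, e⟩ := Finset.mem_biUnion.1 e
        exact hk (hd _ _ _ e hi ▸ hl)⟩) (by simp) ((A.sub 0 _).trans Set.subset_union_left)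
      (by simp) h1 (supp_empty _) (supp_empty _) false
    simp only [Finset.union_empty, Bool.false_eq_true, if_false, rect, Finset.image₂_empty_right,
      mul_apply_eq_comp] at h2
    rw [Finset.prod_insert hk, Finset.prod_insert hk, mul_comm (A.EU _ _)]
    refine h2.trans ?_
    rw [S.alg_apply_comm (A.EQx_mem _ _ false) (∏ l ∈ s, A.QU (a l) (w l)).2]
    exact ih (mul_mem (A.EQx_mem (a k).card (w k) false) hZ)

theorem PU_tendsto (w : K → E) (s : Finset K) {u : H} {c : ℂ}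
    (h : ∀ e, Tendsto (fun n => S.Pib n ∅ (A.x 0 e) u) atTop (𝓝 (c • u))) :
    Tendsto (fun n => (∏ k ∈ s, A.PU n (w k)).1 u) atTop (𝓝 (c ^ s.card • u)) := by
  classical
  induction s using Finset.induction_on with
  | empty => simp
  | insert k s hk ih =>
    have h1 : Tendsto (fun n => (∏ l ∈ s, A.PU n (w l)).1 (S.Pib n ∅ (A.x 0 (w k)) u - c • u))
        atTop (𝓝 0) :=
      squeeze_zero_norm (fun n => S.norm_prod_le s _ (fun l _ => by
        rw [A.PU_val]
        exact avs_norm_le (fun t => S.norm_EQ_le _ _ _ _ _) n) _)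
        (tendsto_iff_norm_sub_tendsto_zero.1 (h (w k)))
    have h2 := h1.add (ih.const_smul c)
    rw [zero_add, smul_smul, ← pow_succ', ← Finset.card_insert_of_notMem hk] at h2
    refine h2.congr fun n => ?_
    rw [map_sub, map_smul, sub_add_cancel, Finset.prod_insert hk, mul_comm, ← A.PU_val]
    rfl

variable [Fintype K]

theorem cav_EU (w : K → E) (n : ℕ) (u u' : H) :
    (cav fun s : K → Fin (n + 1) => ⟪u', (∏ k, A.EU (s k + 1) (w k)).1 u⟫_ℂ) =
      ⟪u', (∏ k, A.PU n (w k)).1 u⟫_ℂ := by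
  classical
  simp only [PU, Finset.prod_smul, Finset.prod_univ_sum, Fintype.piFinset_univ, Finset.prod_const,
    Finset.card_univ, SetLike.val_smul, AddSubmonoidClass.coe_finsetSum,
    smul_apply, sum_apply, inner_smul_right, inner_sum,
    cav_eq, Fintype.card_fun, Fintype.card_fin, Nat.cast_pow, inv_pow, div_eq_inv_mul]

theorem VQ (a : K → Finset ℕ) (w : K → E) (k : K) (u : H) :
    (∏ l, A.QU (a l) (w l)).1 (S.Q (a k) (A.x 0 (w k)) u) = (∏ l, A.QU (a l) (w l)).1 u := by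
  classical
  rw [← Finset.prod_erase_mul _ _ (Finset.mem_univ k)]
  exact congrArg (∏ l ∈ Finset.univ.erase k, A.QU (a l) (w l)).1 (S.Q_Q (a k) (A.x 0 (w k)) u)

variable {τ : QT E} {R : H →L[ℂ] H} {a : K → Finset ℕ} (hm : R ∈ Alg S.V Aa) (hL : R * A.La = R)
  (hq : ∀ (a : Finset ℕ) (P : Pat), a.Nonempty → Disjoint (a : Set ℕ) Aa →
    Disjoint P (fill a) → NoLoop P (Aa ∪ a) →
    R (S.v (P ∪ fill a)) = A.Dd (fun e => ee (τ.q e)) a (R (S.v P)))
  (hn : ∀ k, (a k).Nonempty) (ha : ∀ k, Disjoint (a k : Set ℕ) Aa)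
  (hd : ∀ k l i, i ∈ a k → i ∈ a l → k = l)

omit [Fintype K] in
include hm hL in
theorem La_R (u : H) : A.La (R u) = R u :=
  (S.alg_apply_comm A.mem hm u).trans (congrArg (fun T : H →L[ℂ] H => T u) hL)

include hm hL hq hn ha hd

theorem blow_ph (hR : A.Rect τ.be) (w : K → E) (T : Finset (Sym2 K)) :
    (∏ l, A.QU (a l) (w l)).1 (R (S.v (T.biUnion (rc2 a)))) =
      (∏ c ∈ T, ee (cz τ w c)) • (∏ l, A.QU (a l) (w l)).1 (R (S.v ∅)) := by
  classical
  induction T using Finset.strongInduction with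
  | H T ih =>
  by_cases h1 : ∃ k, s(k, k) ∈ T
  · obtain ⟨k, hk⟩ := h1
    rw [rc2_erase hk, ← Finset.mul_prod_erase _ _ hk, mul_smul, ← ih _ (Finset.erase_ssubset hk),
      show rc2 a s(k, k) = fill (a k) from rfl, hq _ _ (hn k) (ha k)
        (rc2_disj hd (Finset.notMem_erase s(k, k) T)) (rc2_noLoop hd ha (Finset.notMem_erase _ T)),
      ← A.VQ a w k, A.Q_Dd, map_smul, A.VQ, A.La_R hm hL,
      show cz τ w s(k, k) = τ.q (w k) from if_pos rfl]
  rcases T.eq_empty_or_nonempty with rfl | ⟨c, hc⟩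
  · simp
  induction c using Sym2.ind with
  | _ k l =>
  have h2 : k ≠ l := fun e => h1 ⟨k, by rwa [← e] at hc⟩
  have h3 : ∀ u, (∏ l, A.QU (a l) (w l)).1 (R (A.La (S.Q (a k) (A.x 0 (w k))
      (S.Q (a l) (A.x 0 (w l)) u)))) = (∏ l, A.QU (a l) (w l)).1 (R u) := fun u => by
    rw [← S.alg_apply_comm A.mem hm, A.La_R hm hL, S.alg_apply_comm hm (S.Q_mem _ _),
      S.alg_apply_comm hm (S.Q_mem _ _), A.VQ, A.VQ]
  rw [rc2_erase hc, ← Finset.mul_prod_erase _ _ hc, mul_smul, ← ih _ (Finset.erase_ssubset hc),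
    ← h3, rc2_mk, hR _ _ _ _ _ (ha k) (ha l)
      (Finset.disjoint_left.2 fun i e e' => h2 (hd _ _ _ e e'))
      (rc2_disj hd (Finset.notMem_erase s(k, l) T)) fun i hi e => by
        obtain ⟨m, e1, -⟩ := rc2_loop hd e
        exact h1 ⟨m, Finset.mem_of_mem_erase e1⟩,
    map_smul, map_smul, h3, show cz τ w s(k, l) = τ.be (w k) (w l) from if_neg h2]

theorem blow_sum [DecidableEq K] (T : Finset (Sym2 K)) :
    ∑ w : K → E, (∏ l, A.QU (a l) (w l)).1 (R (S.v (T.biUnion (rc2 a)))) =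
      R (S.v (T.biUnion (rc2 a))) := by
  have h1 := S.prod_fix Finset.univ (fun k => ∑ e, A.QU (a k) e)
    (R (S.v (T.biUnion (rc2 a)))) fun k _ => by
      simp only [AddSubmonoidClass.coe_finsetSum, sum_apply]
      show ∑ e, S.Q (a k) (A.x 0 e) _ = _
      by_cases hk : s(k, k) ∈ T
      · rw [rc2_erase hk, show rc2 a s(k, k) = fill (a k) from rfl, hq _ _ (hn k) (ha k)
          (rc2_disj hd (Finset.notMem_erase s(k, k) T))
          (rc2_noLoop hd ha (Finset.notMem_erase _ T))]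
        simp only [A.Q_Dd]
        exact (A.Dd_apply _ _ _).symm
      · simpa only [A.La_R hm hL] using
          A.cover_pat (ha k) (rc2_noLoop hd ha hk) (S.mem_univ hm)
  simpa only [Finset.prod_univ_sum, Fintype.piFinset_univ, AddSubmonoidClass.coe_finsetSum,
    sum_apply] using h1

theorem blow_inner [DecidableEq K] (hR : A.Rect τ.be) (hp : IsStarProjection R)
    (T T' : Finset (Sym2 K)) : ⟪S.v (T'.biUnion (rc2 a)), R (S.v (T.biUnion (rc2 a)))⟫_ℂ =
      ∑ w : K → E, (∏ c ∈ T, ee (cz τ w c)) * conj (∏ c ∈ T', ee (cz τ w c)) *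
        ⟪S.v ∅, (∏ k, A.EU (a k).card (w k)).1 (R (S.v ∅))⟫_ℂ := by
  rw [← A.blow_sum hm hL hq hn ha hd T, inner_sum]
  refine Finset.sum_congr rfl fun w _ => ?_
  have h1 : IsStarProjection ((∏ l, A.QU (a l) (w l)).1 * R) :=
    (S.prod_proj _ _ fun l _ => S.Q_proj _ _).mul hp (S.alg_comm (∏ l, A.QU (a l) (w l)).2 hm)
  have h2 := proj_inner h1
  simp only [mul_apply_eq_comp] at h2
  rw [h2, A.blow_ph hm hL hq hn ha hd hR, A.blow_ph hm hL hq hn ha hd hR, inner_smul_left,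
    inner_smul_right, ← h2, A.prod_QU ha hd w _ hm]
  ring

end Atom

open Classical in
theorem pat_blk {K : Type} [Fintype K] {n : ℕ} (j : K × Fin (n + 1) → ℕ) (s : K → Fin (n + 1))
    (P : Om K) : pat j (ow 0 (blk s) P) = (Finset.univ.filter fun c => P c = 1).biUnion
      (rc2 fun k => (Finset.Iic (s k)).image fun r => j (k, r)) := by
  ext x
  simp only [pat, Set.Finite.mem_toFinset, Set.mem_image, Set.mem_ofPred_eq, Finset.mem_biUnion,
    Finset.mem_filter, Finset.mem_univ, true_and]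
  constructor
  · rintro ⟨d, h, rfl⟩
    induction d using Sym2.ind with
    | _ p p' =>
    by_cases e : p.2 ≤ s p.1
    swap
    · rw [ow_none_left _ _ (show blk s p = none from if_neg e)] at h
      cases h
    by_cases e' : p'.2 ≤ s p'.1
    swap
    · rw [ow_none_right _ _ _ (show blk s p' = none from if_neg e')] at h
      cases h
    rw [ow_some _ _ (show blk s p = _ from if_pos e) (show blk s p' = _ from if_pos e')] at h
    exact ⟨_, h, mem_rect.2 ⟨_, Finset.mem_image_of_mem _ (Finset.mem_Iic.2 e), _,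
      Finset.mem_image_of_mem _ (Finset.mem_Iic.2 e'), rfl⟩⟩
  · rintro ⟨d, h, h'⟩
    induction d using Sym2.ind with
    | _ k l =>
    rw [rc2_mk] at h'
    obtain ⟨_, hi, _, hj, rfl⟩ := mem_rect.1 h'
    obtain ⟨r, hr, rfl⟩ := Finset.mem_image.1 hi
    obtain ⟨r', hr', rfl⟩ := Finset.mem_image.1 hj
    exact ⟨s((k, r), (l, r')), (ow_some _ _ (show blk s (k, r) = _ from
      if_pos (Finset.mem_Iic.1 hr)) (show blk s (l, r') = _ from
      if_pos (Finset.mem_Iic.1 hr'))).trans h, rfl⟩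

open Classical in
theorem ph_filter {E K : Type} [AddCommGroup E] [Fintype K] (τ : QT E) (w : K → E) (P : Om K) :
    ∏ c ∈ Finset.univ.filter fun c => P c = 1, ee (cz τ w c) = ph τ w P := by
  rw [ph, th, ee_finsum, Finset.prod_filter]
  refine Finset.prod_congr rfl fun c _ => ?_
  rcases SD.F_cases (P c) with e | e <;> simp [e, ZMod.val_one]

theorem Atom.blow_tendsto (hP : PIB) {S : Sys κ H} {E : Type} [AddCommGroup E] [Fintype E]
    (A : Atom S E) (τ : QT E) (hR : A.Rect τ.be) {R : H →L[ℂ] H} (hp : IsStarProjection R)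
    (hm : R ∈ Alg S.V Aa) (hL : R * A.La = R)
    (hq : ∀ (a : Finset ℕ) (P : Pat), a.Nonempty → Disjoint (a : Set ℕ) Aa →
      Disjoint P (fill a) → NoLoop P (Aa ∪ a) →
      R (S.v (P ∪ fill a)) = A.Dd (fun e => ee (τ.q e)) a (R (S.v P)))
    (K : Type) [Finite K] (jj : ∀ n : ℕ, K × Fin (n + 1) → ℕ)
    (hj : ∀ n, Function.Injective (jj n)) (hj' : ∀ n p, jj n p ∉ Aa) (P P' : Om K) :
    Tendsto (fun n => cav fun s : K → Fin (n + 1) =>
        ⟪S.v (pat (jj n) (ow 0 (blk s) P')), R (S.v (pat (jj n) (ow 0 (blk s) P)))⟫_ℂ)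
      atTop (𝓝 (((‖R (S.v ∅)‖ ^ 2 : ℝ) : ℂ) * model τ P P')) := by
  classical
  have := Fintype.ofFinite K
  have h1 : ∀ e, Tendsto (fun n => S.Pib n ∅ (A.x 0 e) (R (S.v ∅))) atTop
      (𝓝 ((Fintype.card E : ℂ)⁻¹ • R (S.v ∅))) := fun e => by
    have h2 := (R.continuous.tendsto _).comp (hP κ H S E A e)
    rw [map_smul, ← S.alg_apply_comm A.mem hm, A.La_R hm hL] at h2
    refine h2.congr fun n => ?_
    rw [Function.comp_apply, ← A.PU_val, S.alg_apply_comm hm (A.PU n e).2,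
      ← S.alg_apply_comm A.mem hm, A.La_R hm hL]
  have h2 := tendsto_finsetSum Finset.univ fun (w : K → E) _ =>
    ((tendsto_const_nhds (x := S.v ∅)).inner (𝕜 := ℂ) (A.PU_tendsto w Finset.univ h1)).const_mul
      (ph τ w P * conj (ph τ w P'))
  convert h2 using 2 with n
  · simp only [← A.cav_EU, ← cav_mul_left, ← cav_sum]
    refine cav_congr fun s => ?_
    rw [pat_blk, pat_blk, A.blow_inner hm hL hq (fun k => Finset.nonempty_Iic.image _)
      (fun k => Set.disjoint_left.2 fun i hi => by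
        obtain ⟨r, -, rfl⟩ := Finset.mem_image.1 hi
        exact hj' n _) (fun k l i hi hi' => by
        obtain ⟨r, -, rfl⟩ := Finset.mem_image.1 hi
        obtain ⟨r', -, e⟩ := Finset.mem_image.1 hi'
        exact (congrArg Prod.fst (hj n e)).symm) hR hp]
    simp only [ph_filter, Finset.card_image_of_injective _
      fun r r' e => congrArg Prod.snd (hj n (a₁ := (_, r)) (a₂ := (_, r')) e), Fin.card_Iic]
  · simp only [inner_smul_right, proj_inner_self hp, ← Finset.sum_mul, model, cav_eq,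
      Fintype.card_fun, Finset.card_univ, Nat.cast_pow, inv_pow]
    ring

end NE
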