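import Pool.Agent.Lib.MP_ecee09_co.NE.Defs4
import Pool.Agent.Lib.MP_ecee09_co.NE.CBase
import Pool.Agent.Lib.MP_ecee09_co.NE.PL

/-! Deterministic consequences of a small box norm of the signs of a pattern. -/

namespace NE.QRn

open SD
open ComplexConjugate Function

variable {I U : Type} [Finite I] [Finite U]

lemma cav_upd [Nonempty I] [DecidableEq U] (a : U) (G : (U → I) → ℂ) :
    cav (fun φ => cav fun i => G (update φ a i)) = cav G := by
  have hi : Involutive fun p : (U → I) × I => (update p.1 a p.2, p.1 a) := fun p => by simp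
  rw [← cav_prod fun p : (U → I) × I => G (update p.1 a p.2)]
  refine (cav_equiv hi.toPerm fun p => G p.1).trans ?_
  rw [cav_prod]; simp only [cav_const]

lemma av_upd [Nonempty I] [DecidableEq U] (a : U) (G : (U → I) → ℝ) :
    av (fun φ => av fun i => G (update φ a i)) = av G := by
  have := cav_upd a fun φ => (G φ : ℂ)
  simp only [cav_ofReal] at this
  exact_mod_cast this

lemma av_not_inj [Nonempty I] :
    av (fun φ : U → I => ind (¬ Injective φ)) ≤ (Nat.card U : ℝ) ^ 2 / Nat.card I := by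
  classical
  have h1 : ∀ p : U × U, av (fun φ : U → I => ind (p.1 ≠ p.2 ∧ φ p.1 = φ p.2)) ≤ 1 / Nat.card I := by
    intro p
    by_cases h : p.1 = p.2
    · simp only [h, ne_eq, not_true, false_and, ind_neg not_false, av_zero]; positivity
    · rw [← av_upd p.1]
      refine av_le_const fun φ => le_of_eq ?_
      simp only [update_self, update_of_ne (Ne.symm h), ne_eq, h, not_false_eq_true, true_and]
      simpa using av_ind_eq (φ p.2) fun _ => 1
  refine (av_mono (g := fun φ => sm fun p : U × U => ind (p.1 ≠ p.2 ∧ φ p.1 = φ p.2))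
    fun φ => (ind_mono fun h => ?_).trans (ind_exists_le _)).trans ?_
  · simp only [Injective, not_forall] at h
    obtain ⟨a, b, h1, h2⟩ := h
    exact ⟨(a, b), h2, h1⟩
  · rw [av_sm_comm]
    refine (sm_mono h1).trans (le_of_eq ?_)
    rw [sm_const, Nat.card_prod]; push_cast; ring

/-- embeddings against maps -/
lemma emb_maps [Nonempty I] [Nonempty (U ↪ I)] (G : (U → I) → ℂ) {C : ℝ} (hC : ∀ φ, ‖G φ‖ ≤ C) :
    ‖cav (fun ι : U ↪ I => G ι) - cav G‖ ≤ 2 * C * ((Nat.card U : ℝ) ^ 2 / Nat.card I) := by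
  have C0 : 0 ≤ C := (norm_nonneg _).trans (hC (Classical.arbitrary _))
  have h1 : ∀ G : (U → I) → ℂ, cav (fun φ => (ind (Injective φ) : ℂ) * G φ) =
      (Nat.card (U ↪ I) / Nat.card (U → I) : ℂ) * cav fun ι : U ↪ I => G ι := by
    intro G
    rw [cav_def, ← csm_subtype, ← csm_equiv (Equiv.subtypeInjectiveEquivEmbedding U I).symm,
      csm_eq_card_mul_cav]
    exact mul_div_right_comm _ _ _
  set p := av fun φ : U → I => ind (¬ Injective φ) with hp
  have h2 : (Nat.card (U ↪ I) / Nat.card (U → I) : ℂ) = 1 - (p : ℝ) := by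
    have := h1 fun _ => 1
    simp only [mul_one, cav_const, cav_ofReal] at this
    rw [← this, hp]
    simp only [ind_not, av_sub, av_const]
    push_cast; ring
  have h3 : cav G = cav (fun φ => (ind (Injective φ) : ℂ) * G φ) +
      cav fun φ => (ind (¬ Injective φ) : ℂ) * G φ := by
    rw [← cav_add]; refine cav_congr fun φ => ?_
    rw [ind_not]; push_cast; ring
  have h4 : ‖cav fun φ => (ind (¬ Injective φ) : ℂ) * G φ‖ ≤ p * C := by
    refine (norm_cav_le _).trans ?_
    rw [hp, ← av_mul_right]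
    refine av_mono fun φ => ?_
    rw [norm_mul, Complex.norm_real, Real.norm_eq_abs, abs_ind]
    exact mul_le_mul_of_nonneg_left (hC φ) (ind_nonneg _)
  have p0 : 0 ≤ p := av_ind_nonneg _
  have h5 : ‖(p : ℂ) * cav fun ι : U ↪ I => G ι‖ ≤ p * C := by
    rw [norm_mul, Complex.norm_real, Real.norm_of_nonneg p0]
    exact mul_le_mul_of_nonneg_left (norm_cav_le_const C0 fun _ => hC _) p0
  rw [h3, h1, h2, show ∀ x y z : ℂ, x - ((1 - z) * x + y) = z * x - y from fun x y z => by ring]
  refine (norm_sub_le _ _).trans ?_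
  have := mul_le_mul_of_nonneg_left (av_not_inj (U := U) (I := I)) C0
  nlinarith

/-- fourth power of the box norm of the signs -/
noncomputable def bx (A : Om I) : ℝ :=
  av fun j => av fun j' => av (fun i => sg (A s(i, j)) * sg (A s(i, j'))) ^ 2

/-- imbalance of the loops -/
noncomputable def lb (A : Om I) : ℝ := av fun i => sg (A s(i, i))

lemma box2 [Nonempty I] {A : Om I} {β : ℝ} (hβ : 0 ≤ β) (hA : bx A ≤ β ^ 4) (f h : I → ℂ)
    {C1 C2 : ℝ} (hf : ∀ i, ‖f i‖ ≤ C1) (hh : ∀ i, ‖h i‖ ≤ C2) :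
    ‖cav fun j => cav fun i => (sg (A s(i, j)) : ℂ) * h j * f i‖ ≤ C2 * C1 * β := by
  have c1 : 0 ≤ C1 := (norm_nonneg _).trans (hf (Classical.arbitrary _))
  have c2 : 0 ≤ C2 := (norm_nonneg _).trans (hh (Classical.arbitrary _))
  have e : (cav fun j => cav fun i => (sg (A s(i, j)) : ℂ) * h j * f i) =
      cav fun i => f i * cav fun j => (sg (A s(i, j)) : ℂ) * h j := by
    rw [cav_comm]; refine cav_congr fun i => ?_
    rw [cav_mul_right, mul_comm]
  have h1 : n2 (fun i => cav fun j => (sg (A s(i, j)) : ℂ) * h j) ≤ C2 ^ 2 * β ^ 2 := by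
    have e2 : ((n2 (fun i => cav fun j => (sg (A s(i, j)) : ℂ) * h j) : ℝ) : ℂ) =
        cav fun j => cav fun j' => h j * conj (h j') *
          ((av fun i => sg (A s(i, j)) * sg (A s(i, j')) : ℝ) : ℂ) := by
      rw [← ip_self, ip]
      simp only [conj_cav, cav_mul_cav]
      simp only [← cav_ofReal, ← cav_mul_left]
      rw [cav_comm]; refine cav_congr fun j => ?_
      rw [cav_comm]; refine cav_congr fun j' => cav_congr fun i => ?_
      simp only [map_mul, Complex.conj_ofReal]; push_cast; ring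
    have e3 := congrArg norm e2
    rw [Complex.norm_real, Real.norm_of_nonneg (n2_nonneg _), ← cav_prod fun p : I × I =>
      h p.1 * conj (h p.2) * ((av fun i => sg (A s(i, p.1)) * sg (A s(i, p.2)) : ℝ) : ℂ)] at e3
    rw [e3]
    refine (norm_cav_le _).trans ((av_mono (g := fun p : I × I =>
      C2 ^ 2 * |av fun i => sg (A s(i, p.1)) * sg (A s(i, p.2))|) fun p => ?_).trans ?_)
    · rw [norm_mul, norm_mul, Complex.norm_conj, Complex.norm_real, Real.norm_eq_abs, sq]
      exact mul_le_mul_of_nonneg_right (mul_le_mul (hh _) (hh _) (norm_nonneg _) c2) (abs_nonneg _)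
    · rw [av_mul_left]
      refine mul_le_mul_of_nonneg_left ((av_abs_le_sqrt _).trans ?_) (sq_nonneg _)
      rw [av_prod]
      exact Real.sqrt_le_iff.2 ⟨sq_nonneg _, hA.trans (le_of_eq (by ring))⟩
  rw [e]
  refine abs_le_of_sq_le_sq' ((norm_cav_cs _ _).trans ?_) (by positivity) |>.2
  refine (mul_le_mul (n2_le_sq hf) h1 (n2_nonneg _) (sq_nonneg _)).trans (le_of_eq (by ring))

/-- the function does not see the coordinate `a` -/
def Idp [DecidableEq U] (a : U) (G : (U → I) → ℂ) : Prop := ∀ φ i, G (update φ a i) = G φ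

lemma box_map [Nonempty I] [DecidableEq U] {A : Om I} {β : ℝ} (hβ : 0 ≤ β) (hA : bx A ≤ β ^ 4)
    {a b : U} (hab : a ≠ b) {F1 F2 : (U → I) → ℂ} (h1 : Idp a F1) (h2 : Idp b F2) {C1 C2 : ℝ}
    (c1 : ∀ φ, ‖F1 φ‖ ≤ C1) (c2 : ∀ φ, ‖F2 φ‖ ≤ C2) :
    ‖cav fun φ : U → I => (sg (A s(φ a, φ b)) : ℂ) * F1 φ * F2 φ‖ ≤ C1 * C2 * β := by
  have k1 : 0 ≤ C1 := (norm_nonneg _).trans (c1 (Classical.arbitrary _))
  have k2 : 0 ≤ C2 := (norm_nonneg _).trans (c2 (Classical.arbitrary _))
  rw [← cav_upd a, ← cav_upd b]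
  refine norm_cav_le_const (by positivity) fun φ => ?_
  have e : ∀ i j, F2 (update (update φ b j) a i) = F2 (update φ a i) := fun i j => by
    rw [update_comm hab.symm, h2]
  simp only [update_self, update_of_ne hab.symm, h1 _ _, e]
  exact box2 hβ hA _ _ (fun _ => c2 _) fun _ => c1 _

lemma tel {α : Type} [DecidableEq α] (T : Finset α → ℂ) (S0 S1 : Finset α) {c : ℝ}
    (h : ∀ S d, S ⊆ S0 ∪ S1 → d ∈ S1 → d ∉ S → ‖T (insert d S) - T S‖ ≤ c)
    (hd : Disjoint S0 S1) : ‖T (S0 ∪ S1) - T S0‖ ≤ S1.card * c := by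
  induction S1 using Finset.induction_on with
  | empty => simp
  | insert d S1 hS ih =>
    rw [Finset.disjoint_insert_right] at hd
    have s1 : S0 ∪ S1 ⊆ S0 ∪ insert d S1 := Finset.union_subset_union_right (Finset.subset_insert _ _)
    have h1 := ih (fun S e hS he => h S e (hS.trans s1) (Finset.mem_insert_of_mem he)) hd.2
    have h2 := h (S0 ∪ S1) d s1 (Finset.mem_insert_self _ _) (by simp [hd.1, hS])
    rw [Finset.union_insert, Finset.card_insert_of_notMem hS]
    refine (norm_sub_le_norm_sub_add_norm_sub _ (T (S0 ∪ S1)) _).trans ?_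
    push_cast; linarith

/-- the sign of the planted value -/
def cf (π : PP U) (d : Sym2 U) : ℝ := (π d).elim 0 sg

/-- the density of one planted pair -/
def wt (π : PP U) (A : Om I) (φ : U → I) (d : Sym2 U) : ℝ := 1 + cf π d * sg (A (Sym2.map φ d))

omit [Finite U] in
lemma abs_cf (π : PP U) (d : Sym2 U) : |cf π d| ≤ 1 := by
  unfold cf; cases π d <;> simp [abs_sg]

omit [Finite U] [Finite I] in
lemma abs_wt (π : PP U) (A : Om I) (φ : U → I) (d : Sym2 U) : |wt π A φ d| ≤ 2 := by
  refine (abs_add_le _ _).trans ?_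
  rw [abs_mul, abs_sg, abs_one]; linarith [abs_cf π d]

omit [Finite U] [Finite I] in
lemma norm_prod_wt (π : PP U) (A : Om I) (φ : U → I) (S : Finset (Sym2 U)) :
    ‖((∏ d ∈ S, wt π A φ d : ℝ) : ℂ)‖ ≤ 2 ^ S.card := by
  rw [Complex.norm_real, Real.norm_eq_abs, Finset.abs_prod, ← Finset.prod_const]
  exact Finset.prod_le_prod (fun _ _ => abs_nonneg _) fun d _ => abs_wt π A φ d

omit [Finite U] [Finite I] in
lemma wt_upd [DecidableEq U] (π : PP U) (A : Om I) (φ : U → I) {a : U} (i : I) {d : Sym2 U}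
    (h : a ∉ d) : wt π A (update φ a i) d = wt π A φ d := by
  rw [wt, wt, Sym2.map_congr fun x hx => update_of_ne (fun e : x = a => h (e ▸ hx)) i φ]

omit [Finite I] [Finite U] in
lemma dens_eq [Fintype U] [DecidableEq U] (ι : U ↪ I) (π : PP U) (A : Om I) :
    dens (bl (crd ι) π) A = ∏ d, wt π A ι d := by
  have hb : ∀ d, bl (crd ι) π (Sym2.map ι d) = π d := fun d => by
    rw [bl, lab2_crd_map ι.injective]; rfl
  by_cases h : ∀ d e, π d = some e → A (Sym2.map ι d) = e
  · have h1 : ovr A (bl (crd ι) π) = A := by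
      funext c
      unfold ovr
      cases h1 : lab2 (crd ι) c with
      | none => rw [bl, h1]; rfl
      | some d =>
        obtain rfl := (lab2_crd_eq_some ι.injective).1 h1
        rw [hb]
        cases h2 : π d with
        | none => rfl
        | some e => exact (h d e h2).symm
    have h2 : {c | bl (crd ι) π c ≠ none} =
        Sym2.map ι '' (Finset.univ.filter fun d => π d ≠ none : Finset _) := by
      ext c
      constructor
      · intro hc
        cases h1 : lab2 (crd ι) c with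
        | none => exact absurd (by rw [bl, h1]; rfl) hc
        | some d =>
          obtain rfl := (lab2_crd_eq_some ι.injective).1 h1
          exact ⟨d, by simpa [hb] using hc, rfl⟩
      · rintro ⟨d, hd, rfl⟩
        simpa [hb] using hd
    rw [dens, ind_pos h1, mul_one, h2, Set.ncard_image_of_injective _
      (Sym2.map.injective ι.injective), Set.ncard_coe_finset, ← Finset.prod_const,
      Finset.prod_filter]
    refine Finset.prod_congr rfl fun d _ => ?_
    unfold wt cf
    cases h2 : π d with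
    | none => simp
    | some e => simp [h d e h2, sg_mul_self]; norm_num
  · push Not at h
    obtain ⟨d, e, h1, h2⟩ := h
    rw [dens, ind_neg fun h => h2 (by rw [← congrFun h (Sym2.map ι d), ovr, hb, h1]; rfl), mul_zero]
    refine (Finset.prod_eq_zero (Finset.mem_univ d) ?_).symm
    rw [wt, cf, h1]
    revert h2
    rcases F_cases e with rfl | rfl <;> rcases F_cases (A (Sym2.map ι d)) with h | h <;> simp [h]

/-- the planted mean over maps -/
noncomputable def TT' (π : PP U) (A : Om I) (G : (U → I) → ℂ) (S : Finset (Sym2 U)) : ℂ :=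
  cav fun φ => ((∏ d ∈ S, wt π A φ d : ℝ) : ℂ) * G φ

lemma TT_insert [DecidableEq U] (π : PP U) (A : Om I) (G : (U → I) → ℂ) {S : Finset (Sym2 U)}
    {d : Sym2 U} (h : d ∉ S) : TT' π A G (insert d S) - TT' π A G S = (cf π d : ℂ) *
      cav fun φ => (sg (A (Sym2.map φ d)) : ℂ) * (((∏ d ∈ S, wt π A φ d : ℝ) : ℂ) * G φ) := by
  rw [TT', TT', ← cav_sub, ← cav_mul_left]
  refine cav_congr fun φ => ?_
  rw [Finset.prod_insert h, wt]; push_cast; ring

lemma step_nl [Nonempty I] [DecidableEq U] {A : Om I} {β : ℝ} (hβ : 0 ≤ β) (hA : bx A ≤ β ^ 4)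
    (π : PP U) {a b : U} (hab : a ≠ b) {G G1 G2 : (U → I) → ℂ} (hG : ∀ φ, G φ = G1 φ * G2 φ)
    (h1 : Idp a G1) (h2 : Idp b G2) (c1 : ∀ φ, ‖G1 φ‖ ≤ 1) (c2 : ∀ φ, ‖G2 φ‖ ≤ 1)
    {S : Finset (Sym2 U)} (hS : s(a, b) ∉ S) :
    ‖TT' π A G (insert s(a, b) S) - TT' π A G S‖ ≤ 2 ^ S.card * β := by
  rw [TT_insert π A G hS, norm_mul, Complex.norm_real, Real.norm_eq_abs]
  refine (mul_le_of_le_one_left (norm_nonneg _) (abs_cf _ _)).trans ?_
  have := box_map hβ hA hab
    (F1 := fun φ => ((∏ d ∈ S.filter fun d => ¬ a ∈ d, wt π A φ d : ℝ) : ℂ) * G1 φ)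
    (F2 := fun φ => ((∏ d ∈ S.filter fun d => a ∈ d, wt π A φ d : ℝ) : ℂ) * G2 φ)
    (fun φ i => by
      simp only [h1 φ i]
      rw [Finset.prod_congr rfl fun d hd => wt_upd π A φ i (Finset.mem_filter.1 hd).2])
    (fun φ i => by
      simp only [h2 φ i]
      rw [Finset.prod_congr rfl fun d hd => wt_upd π A φ i fun hb => hS ?_]
      obtain ⟨h3, h4⟩ := Finset.mem_filter.1 hd
      rwa [← (Sym2.mem_and_mem_iff hab).1 ⟨h4, hb⟩])
    (C1 := 2 ^ (S.filter fun d => ¬ a ∈ d).card) (C2 := 2 ^ (S.filter fun d => a ∈ d).card)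
    (fun φ => by
      rw [norm_mul]
      exact (mul_le_of_le_one_right (norm_nonneg _) (c1 φ)).trans (norm_prod_wt _ _ _ _))
    (fun φ => by
      rw [norm_mul]
      exact (mul_le_of_le_one_right (norm_nonneg _) (c2 φ)).trans (norm_prod_wt _ _ _ _))
  rw [← pow_add, add_comm, Finset.card_filter_add_card_filter_not] at this
  refine le_of_eq_of_le (congrArg norm (cav_congr fun φ => ?_)) this
  rw [hG, ← Finset.prod_filter_mul_prod_filter_not S fun d => a ∈ d, Sym2.map_mk]
  push_cast; ring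

lemma step_lp [Nonempty I] [DecidableEq U] {A : Om I} {β : ℝ} (hA : |lb A| ≤ β)
    (π : PP U) {b : U} {G : (U → I) → ℂ} (h2 : Idp b G) (c : ∀ φ, ‖G φ‖ ≤ 1)
    {S : Finset (Sym2 U)} (hS : ∀ d ∈ S, b ∉ d) :
    ‖TT' π A G (insert s(b, b) S) - TT' π A G S‖ ≤ 2 ^ S.card * β := by
  rw [TT_insert π A G fun h => hS _ h (Sym2.mem_mk_left _ _), norm_mul, Complex.norm_real,
    Real.norm_eq_abs]
  refine (mul_le_of_le_one_left (norm_nonneg _) (abs_cf _ _)).trans ?_
  have β0 := (abs_nonneg _).trans hA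
  rw [← cav_upd b]
  refine norm_cav_le_const (by positivity) fun φ => ?_
  have e : ∀ i, ∏ d ∈ S, wt π A (update φ b i) d = ∏ d ∈ S, wt π A φ d := fun i =>
    Finset.prod_congr rfl fun d hd => wt_upd π A φ i (hS d hd)
  simp only [Sym2.map_mk, update_self, e, h2 φ _]
  rw [cav_mul_right, cav_ofReal, norm_mul, norm_mul, mul_comm, Complex.norm_real (av _)]
  exact mul_le_mul ((mul_le_of_le_one_right (norm_nonneg _) (c φ)).trans (norm_prod_wt _ _ _ _))
    hA (norm_nonneg _) (by positivity)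

end NE.QRn
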