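import Pool.Agent.Lib.MP_ecee09_co.NE.Stmts4
import Pool.Agent.Lib.MP_ecee09_co.NE.CellT

/-! Matched tuples on one coordinate cell. -/

namespace NE
namespace Tup

open SD (F sm av ind cnt Tame)

section cells
variable {Γ I K : Type} [AddCommGroup Γ] [Finite I] [Finite K]

lemma rs_cell (ε : Γ) (p : Pt Γ I) (x : OmE Γ I) (Φ : Lab I K) (y : OmE Γ K) :
    rs ε p (cell x Φ y) = rs ε p (cell x Φ 0) + spr (rs ε (wl p.1 Φ, 0) y) Φ := by
  funext i
  have h0 := congrFun (adj_ow x.2 Φ y.2 p.1) i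
  cases h : Φ i with
  | none =>
    simp only [Pi.add_apply, spr_of_none _ h, rs, cell, ow_none_left _ _ h, Prod.snd_zero] at h0 ⊢
    rw [h0]; simp
  | some k =>
    simp only [Pi.add_apply, spr_some _ h, rs, cell, ow_some _ _ h h, Prod.snd_zero,
      Prod.fst_zero, Pi.zero_apply, ZMod.val_zero, zero_smul] at h0 ⊢
    rw [h0]; abel

omit [Finite K] in
lemma rs_split (ε : Γ) (q : Pt Γ K) (y : OmE Γ K) : rs ε q y = q.2 + rs ε (q.1, 0) y := by
  funext i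
  simp only [rs, Pi.add_apply, Pi.zero_apply]; abel

lemma sub_of_pres {ε : Γ} {p : Pt Γ I} {x : OmE Γ I} {Φ : Lab I K} {y : OmE Γ K}
    (h : rs ε p (cell x Φ y) = 0) : ∃ q, Sub ε p x Φ q ∧ rs ε q y = 0 := by
  refine ⟨(wl p.1 Φ, -rs ε (wl p.1 Φ, 0) y), ⟨rfl, ?_⟩, ?_⟩
  · rw [rs_cell] at h
    show _ = spr (-rs ε (wl p.1 Φ, 0) y) Φ
    rw [spr_neg]; exact eq_neg_of_add_eq_zero_left h
  · rw [rs_split]; exact neg_add_cancel _

lemma pres_of_sub {ε : Γ} {p : Pt Γ I} {x : OmE Γ I} {Φ : Lab I K} {y : OmE Γ K} {q : Pt Γ K}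
    (h : Sub ε p x Φ q) (h' : rs ε q y = 0) : rs ε p (cell x Φ y) = 0 := by
  rw [rs_cell, h.2, ← spr_add, ← h.1, ← rs_split, h', spr_zero]

omit [Finite I] [Finite K] in
lemma sub_uniq {ε : Γ} {p : Pt Γ I} {x : OmE Γ I} {Φ : Lab I K} (hΦ : Good Φ) {q q' : Pt Γ K}
    (h : Sub ε p x Φ q) (h' : Sub ε p x Φ q') : q = q' :=
  Prod.ext (h.1.trans h'.1.symm) (hΦ.spr_inj (h.2.symm.trans h'.2))

omit [Finite I] [Finite K] in
lemma rs_shift (ε : Γ) (p : Pt Γ I) (x : OmE Γ I) (w : I → Γ) :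
    rs ε p (x.1 - w, x.2) = 0 ↔ rs ε p x = w := by
  have : rs ε p (x.1 - w, x.2) = rs ε p x - w := by
    funext i
    simp only [rs, Pi.sub_apply]; abel
  rw [this, sub_eq_zero]

omit [Finite I] [Finite K] in
lemma cell_shift (x : OmE Γ I) (w : I → Γ) (Φ : Lab I K) (y : OmE Γ K) :
    cell (x.1 - w, x.2) Φ y = ((cell x Φ y).1 - w, (cell x Φ y).2) := by
  simp only [cell, Prod.mk.injEq, and_true]; abel

variable [Finite Γ]

omit [Finite K] in
lemma mm_nonneg (ε : Γ) (P : Set (Pt Γ I)) (x : OmE Γ I) (Φ : Lab I K) (q : Pt Γ K) :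
    0 ≤ mm ε (si P) x Φ q :=
  SD.sm_nonneg fun _ => mul_nonneg (SD.ind_nonneg _) (SD.ind_nonneg _)

lemma nn_nonneg (ε : Γ) {m : Pt Γ I → ℝ} (h : ∀ p, 0 ≤ m p) (x : OmE Γ I) : 0 ≤ NN ε m x :=
  SD.sm_nonneg fun p => mul_nonneg (h p) (SD.ind_nonneg _)

lemma coll_nonneg {m : Pt Γ I → ℝ} (h : ∀ p, 0 ≤ m p) (G : AddSubgroup Γ) : 0 ≤ coll m G :=
  div_nonneg (SD.sm_nonneg fun p => SD.sm_nonneg fun p' =>
    mul_nonneg (mul_nonneg (h p) (h p')) (SD.ind_nonneg _)) (by unfold DD; positivity)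

lemma en_nonneg {m : Pt Γ I → ℝ} (h : ∀ p, 0 ≤ m p) : 0 ≤ en m :=
  div_nonneg (SD.sm_nonneg fun _ => SD.sm_nonneg fun _ => SD.sm_nonneg fun _ =>
    mul_nonneg (mul_nonneg (mul_nonneg (h _) (h _)) (h _)) (h _)) (by unfold DD; positivity)

lemma nn_mm_le (ε : Γ) (P : Set (Pt Γ I)) (x : OmE Γ I) {Φ : Lab I K} (hΦ : Good Φ)
    (y : OmE Γ K) : NN ε (mm ε (si P) x Φ) y ≤ NN ε (si P) (cell x Φ y) := by
  unfold NN mm
  simp only [← SD.sm_mul_right]
  rw [SD.sm_comm]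
  refine SD.sm_mono fun p => ?_
  simp only [mul_assoc, SD.sm_mul_left]
  refine mul_le_mul_of_nonneg_left ?_ (SD.ind_nonneg _)
  by_cases h : ∃ q, Sub ε p x Φ q ∧ rs ε q y = 0
  · obtain ⟨q, h1, h2⟩ := h
    rw [SD.ind_pos (pres_of_sub h1 h2), ← SD.sm_ind_one q]
    refine SD.sm_mono fun q' => ?_
    rw [← SD.ind_and]
    exact SD.ind_mono fun h => sub_uniq hΦ h.1 h1
  · refine le_trans (le_of_eq ?_) (SD.ind_nonneg _)
    rw [← SD.sm_zero (α := Pt Γ K)]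
    refine SD.sm_congr fun q => ?_
    rw [← SD.ind_and]
    exact SD.ind_neg fun h' => h ⟨q, h'⟩

end cells

section tuples
variable {Γ I M S : Type} [AddCommGroup Γ] [Finite Γ] [Finite I] [Finite M] [Finite S]

/-- the number of matched tuples with a robust relation on the set `j` -/
noncomputable def TN (ε : Γ) (P : Set (Pt Γ I)) (w : M → I → Γ) (W : AddSubgroup (M → Γ))
    (γ : ℝ) (j : S → I) (x : OmE Γ I) : ℝ :=
  sm fun p : M → Pt Γ I => ind ((∀ r, p r ∈ P ∧ rs ε (p r) x = w r) ∧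
    (∀ a, row p (j a) ∈ W) ∧ Rob γ W fun a => row p (j a))

/-- the cell has a large statistic -/
def Bd (ε : Γ) (P : Set (Pt Γ I)) (θ T : ℝ) (j : S → I) (x : OmE Γ I) : Prop :=
  (∃ G : AddSubgroup Γ, G ≠ ⊥ ∧ G ≠ ⊤ ∧ θ ≤ coll (mm ε (si P) x (crd j)) G) ∨
    θ ^ 2 ≤ en (mm ε (si P) x (crd j)) ∨
    T ^ 2 ≤ av fun y => NN ε (mm ε (si P) x (crd j)) y ^ 2

omit [Finite S] in
lemma tn_nonneg (ε : Γ) (P : Set (Pt Γ I)) (w : M → I → Γ) (W : AddSubgroup (M → Γ))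
    (γ : ℝ) (j : S → I) (x : OmE Γ I) : 0 ≤ TN ε P w W γ j x :=
  SD.sm_nonneg fun _ => SD.ind_nonneg _

omit [Finite S] in
lemma tn_sq_le [Fintype M] (ε : Γ) (P : Set (Pt Γ I)) (w : M → I → Γ) (W : AddSubgroup (M → Γ))
    (γ : ℝ) (j : S → I) (x : OmE Γ I) : TN ε P w W γ j x ^ 2 ≤
      1 + ∑ r, |NN ε (si P) (x.1 - w r, x.2)| ^ (2 * Nat.card M) := by
  have h1 : TN ε P w W γ j x ≤ ∏ r, NN ε (si P) (x.1 - w r, x.2) := by
    unfold NN
    rw [SD.prod_sm]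
    refine SD.sm_mono fun p => ?_
    simp only [si, ← SD.ind_and, ← SD.ind_forall, rs_shift]
    exact SD.ind_mono fun h => h.1
  have h2 := SD.abs_prod_le fun r => NN ε (si P) (x.1 - w r, x.2) ^ 2
  simp only [abs_pow, ← pow_mul, ← Nat.card_eq_fintype_card] at h2
  refine le_trans ?_ ((le_abs_self _).trans h2)
  rw [Finset.prod_pow]
  exact pow_le_pow_left₀ (tn_nonneg ..) h1 2

lemma tn_cell_le [Fintype M] (ε : Γ) (P : Set (Pt Γ I)) (w : M → I → Γ)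
    (W : AddSubgroup (M → Γ)) (γ : ℝ) {j : S → I} (hj : Function.Injective j) (x : OmE Γ I)
    (y : OmE Γ S) : TN ε P w W γ j (cell x (crd j) y) ≤
      sm fun q : M → Pt Γ S => (∏ r, mm ε (si P) (x.1 - w r, x.2) (crd j) (q r)) *
        (ind ((∀ i, row q i ∈ W) ∧ Rob γ W (row q)) * ind (∀ r, rs ε (q r) y = 0)) := by
  unfold mm
  simp only [SD.prod_sm, ← SD.sm_mul_right]
  rw [SD.sm_comm]
  refine SD.sm_mono fun p => ?_
  simp only [si, ← SD.ind_and, ← SD.ind_forall]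
  refine le_trans (SD.ind_mono ?_) (SD.ind_exists_le _)
  rintro ⟨h1, h2, h3⟩
  have h4 : ∀ r, ∃ q, Sub ε (p r) (x.1 - w r, x.2) (crd j) q ∧ rs ε q y = 0 := fun r =>
    sub_of_pres (by rw [cell_shift, rs_shift]; exact (h1 r).2)
  choose q hq hq' using h4
  have h5 : row q = fun a => row p (j a) := by
    funext a r
    show (q r).1 a = (p r).1 (j a)
    rw [(hq r).1, wl_crd hj]; rfl
  refine ⟨q, fun r => ⟨(h1 r).1, hq r⟩, ⟨?_, ?_⟩, hq'⟩
  · rw [h5]; exact h2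
  · rw [h5]; exact h3

/-- a cell with small statistics carries few tuples -/
lemma av_tn_le (hC : CNT) (ε : Γ) (P : Set (Pt Γ I)) (w : M → I → Γ)
    {W : AddSubgroup (M → Γ)} {γ C θ T : ℝ} (hC0 : 0 ≤ C) (hθ : 0 ≤ θ) (hT : 1 ≤ T)
    (hD : Dg M Γ ≤ W) (hW : W ≠ ⊤) (hO : Onto W) (h2 : ¬ (Nat.card M = 2 ∧ W = Dg M Γ))
    (hU : ∀ q : M → Pt Γ S, (∀ i, row q i ∈ W) → Rob γ W (row q) →
      (av fun y : OmE Γ S => ind (∀ r, rs ε (q r) y = 0)) ≤
        C * ind (∀ i, (fun r => (q r).2 i) ∈ W) / DD W S)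
    {j : S → I} (hj : Function.Injective j) (x : OmE Γ I)
    (hb : ∀ r, ¬ Bd ε P θ T j (x.1 - w r, x.2)) :
    (av fun y => TN ε P w W γ j (cell x (crd j) y)) ≤ C * θ * T ^ Nat.card M := by
  let _ := Fintype.ofFinite M
  have hDD : 0 < DD W S := by
    have : (0 : ℝ) < Nat.card W := SD.card_pos'
    unfold DD; positivity
  simp only [Bd, not_or, not_exists, not_and, not_le] at hb
  have h3 := hC Γ M S ε W (fun r => mm ε (si P) (x.1 - w r, x.2) (crd j)) θ T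
    (fun r q => mm_nonneg ..) hD hW hO h2 hθ hT (fun r G h h' => ((hb r).1 G h h').le)
    (fun r => (hb r).2.1.le) fun r => (hb r).2.2.le
  simp only [finprod_eq_prod_of_fintype] at h3
  refine (SD.av_mono fun y => tn_cell_le ε P w W γ hj x y).trans ?_
  rw [SD.av_sm_comm]
  simp only [SD.av_mul_left]
  calc _ ≤ sm fun q : M → Pt Γ S => C / DD W S *
        ((∏ r, mm ε (si P) (x.1 - w r, x.2) (crd j) (q r)) *
          ind (∀ i, row q i ∈ W ∧ (fun r => (q r).2 i) ∈ W)) := by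
        refine SD.sm_mono fun q => ?_
        rw [mul_left_comm (C / DD W S)]
        refine mul_le_mul_of_nonneg_left ?_
          (Finset.prod_nonneg fun r _ => mm_nonneg ε P _ (crd j) (q r))
        by_cases h : (∀ i, row q i ∈ W) ∧ Rob γ W (row q)
        · rw [SD.ind_pos h, one_mul]
          refine (hU q h.1 h.2).trans (le_of_eq ?_)
          rw [SD.ind_congr (q := ∀ i, row q i ∈ W ∧ (fun r => (q r).2 i) ∈ W)
            ⟨fun h' i => ⟨h.1 i, h' i⟩, fun h' i => (h' i).2⟩]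
          ring
        · rw [SD.ind_neg h, zero_mul]
          exact mul_nonneg (div_nonneg hC0 hDD.le) (SD.ind_nonneg _)
    _ ≤ C / DD W S * (θ * T ^ Nat.card M * DD W S) := by
        rw [SD.sm_mul_left]
        exact mul_le_mul_of_nonneg_left h3 (div_nonneg hC0 hDD.le)
    _ = _ := by field_simp

end tuples

end Tup
end NE
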