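import Pool.Agent.Lib.MP_ecee09_co.NE.CBase
import Pool.Agent.Lib.MP_ecee09_co.NE.Cells

/-! The exchange `sw`, the annihilator on low functions, special patterns. -/

namespace NE.TG

open SD (F sm av ind cnt Tame ind_pos ind_neg ind_congr)

variable {E K N : Type}

open Classical in
/-- the permutation of pairs behind `sw` -/
noncomputable def swp (S : Set (E × E)) : Sym2 (Tst E ⊕ K) → Sym2 (Tst E ⊕ K) :=
  Sym2.lift ⟨fun i j => match i, j with
    | .inl (.inl e), .inl (.inr p) =>
        if p ∈ S then s(.inl (.inl (Equiv.swap p.1 p.2 e)), .inl (.inr p)) else s(i, j)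
    | .inl (.inr p), .inl (.inl e) =>
        if p ∈ S then s(.inl (.inl (Equiv.swap p.1 p.2 e)), .inl (.inr p)) else s(i, j)
    | _, _ => s(i, j), by
    rintro ((i | i) | i) ((j | j) | j) <;> simp [Sym2.eq_swap]⟩

lemma sw_eq (S : Set (E × E)) (P : Om (Tst E ⊕ K)) (c : Sym2 (Tst E ⊕ K)) :
    sw S P c = P (swp S c) := by
  induction c using Sym2.ind with
  | _ i j =>
    rcases i with (i | i) | i <;> rcases j with (j | j) | j <;>
      simp only [sw, swp, Sym2.lift_mk] <;> split_ifs <;> rfl

lemma swp_swp (S S' : Set (E × E)) (c : Sym2 (Tst E ⊕ K)) :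
    swp S (swp S' c) = swp (symmDiff S S') c := by
  induction c using Sym2.ind with
  | _ i j =>
    rcases i with (i | i) | i <;> rcases j with (j | j) | j <;>
      simp only [swp, Sym2.lift_mk]
    · by_cases h : j ∈ S <;> by_cases h' : j ∈ S' <;> simp [h, h', Set.mem_symmDiff]
    · by_cases h : i ∈ S <;> by_cases h' : i ∈ S' <;> simp [h, h', Set.mem_symmDiff, Sym2.eq_swap]

lemma swp_empty (c : Sym2 (Tst E ⊕ K)) : swp ∅ c = c := by
  induction c using Sym2.ind with
  | _ i j => rcases i with (i | i) | i <;> rcases j with (j | j) | j <;> simp [swp]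

lemma swp_inv (S : Set (E × E)) : Function.Involutive (swp (K := K) S) := fun c => by
  rw [swp_swp, symmDiff_self]; exact swp_empty c

lemma sw_inv (S : Set (E × E)) : Function.Involutive (sw (K := K) S) := fun P =>
  funext fun c => by rw [sw_eq, sw_eq, swp_inv]

lemma sw_symmDiff (S S' : Set (E × E)) (P : Om (Tst E ⊕ K)) :
    sw (symmDiff S S') P = sw S' (sw S P) :=
  funext fun c => by rw [sw_eq, sw_eq, sw_eq, swp_swp]

lemma crd_inl (t : Tst E) : crd (Sum.inr : K → Tst E ⊕ K) (.inl t) = none :=
  (crd_eq_none Sum.inr_injective).2 (by simp)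

lemma sw_ow (S : Set (E × E)) (y : Om (Tst E ⊕ K)) (z : Om K) :
    sw S (ow y (crd Sum.inr) z) = ow (sw S y) (crd Sum.inr) z := by
  funext c
  induction c using Sym2.ind with
  | _ i j =>
    rcases i with i | i
    · rw [ow_none_left _ _ (crd_inl i)]
      rcases i with i | i <;> rcases j with (j | j) | j <;> simp only [sw, Sym2.lift_mk] <;>
        (try split_ifs) <;> exact ow_none_left _ _ (crd_inl _) _
    · rcases j with j | j
      · rw [ow_none_right _ _ _ (crd_inl j)]
        rcases j with j | j <;> exact ow_none_right _ _ _ (crd_inl _)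
      · rw [ow_crd_mk Sum.inr_injective]
        exact ow_crd_mk Sum.inr_injective y z i j

lemma cz_swp {G : Type} [AddCommGroup G] (σ : QT G) (w : Tst E ⊕ K → G) {p : E × E}
    (h : w (.inl (.inl p.1)) = w (.inl (.inl p.2))) (c : Sym2 (Tst E ⊕ K)) :
    cz σ w (swp {p} c) = cz σ w c := by
  classical
  have k : ∀ e, w (.inl (.inl (Equiv.swap p.1 p.2 e))) = w (.inl (.inl e)) := fun e =>
    Equiv.apply_swap_eq_self (v := fun e => w (.inl (.inl e))) h e
  induction c using Sym2.ind with
  | _ i j =>
    rcases i with (i | i) | i <;> rcases j with (j | j) | j <;> simp only [swp, Sym2.lift_mk]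
    · split_ifs with q
      · rw [Set.mem_singleton_iff.1 q]
        simp only [cz, Sym2.lift_mk, reduceCtorEq, Sum.inl.injEq, if_false]
        convert rfl using 3
        convert (k i).symm
      · rfl
    · split_ifs with q
      · rw [Set.mem_singleton_iff.1 q, Sym2.eq_swap (a := Sum.inl (Sum.inr p))]
        simp only [cz, Sym2.lift_mk, reduceCtorEq, Sum.inl.injEq, if_false]
        convert rfl using 3
        convert (k j).symm
      · rfl

lemma ph_sw {G : Type} [AddCommGroup G] (σ : QT G) (w : Tst E ⊕ K → G) {p : E × E}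
    (h : w (.inl (.inl p.1)) = w (.inl (.inl p.2))) (P : Om (Tst E ⊕ K)) :
    ph σ w (sw {p} P) = ph σ w P := by
  unfold ph th
  congr 1
  rw [← finsum_comp_equiv (swp_inv (K := K) {p}).toPerm (f := fun c => (P c).val • cz σ w c)]
  refine finsum_congr fun c => ?_
  rw [sw_eq]
  exact congrArg _ (cz_swp σ w h c).symm

variable [Finite E]

lemma neg_pow_symm (S : Set (E × E)) (p : E × E) :
    (-1 : ℂ) ^ (symmDiff S {p}).ncard = - (-1) ^ S.ncard := by
  by_cases h : p ∈ S
  · have e : symmDiff S {p} = S \ {p} := by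
      ext q; by_cases hq : q = p <;> simp [Set.mem_symmDiff, hq, h]
    rw [e, ← Set.ncard_sdiff_singleton_add_one h, pow_succ]; ring
  · have e : symmDiff S {p} = insert p S := by
      ext q; by_cases hq : q = p <;> simp [Set.mem_symmDiff, hq, h]
    rw [e, Set.ncard_insert_of_notMem h, pow_succ]; ring

lemma ann_zero {φ : Om (Tst E ⊕ K) → ℂ} {p : E × E} (hp : p.1 ≠ p.2)
    (h : ∀ P, φ (sw {p} P) = φ P) (P : Om (Tst E ⊕ K)) : ann φ P = 0 := by
  have inv : Function.Involutive fun S : Set (E × E) => symmDiff S {p} := fun S =>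
    symmDiff_symmDiff_cancel_right _ _
  have e : ann φ P = - ann φ P := by
    conv_lhs => rw [ann, ← csm_equiv inv.toPerm]
    rw [ann, ← csm_neg]
    refine csm_congr fun S => ?_
    have i : (∀ q ∈ symmDiff S {p}, q.1 ≠ q.2) ↔ ∀ q ∈ S, q.1 ≠ q.2 := by
      constructor <;> intro a q hq <;> by_cases b : q = p
      · exact b ▸ hp
      · exact a q (by simp [Set.mem_symmDiff, b, hq])
      · exact b ▸ hp
      · exact a q (by simpa [Set.mem_symmDiff, b] using hq)
    change (ind (∀ q ∈ symmDiff S {p}, q.1 ≠ q.2) : ℂ) * (-1) ^ (symmDiff S {p}).ncard *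
      φ (sw (symmDiff S {p}) P) = _
    rw [ind_congr i, neg_pow_symm, sw_symmDiff, h]; ring
  exact self_eq_neg.1 e

lemma ann_low {g : Om (Tst E ⊕ K) → ℂ} (hg : g ∈ Low (Nat.card E) (Tst E ⊕ K))
    (P : Om (Tst E ⊕ K)) : ann g P = 0 := by
  induction hg using Submodule.span_induction with
  | mem φ hφ =>
    obtain ⟨σ, w, h1, rfl⟩ := hφ
    have : ¬ Function.Injective fun e : E => w (.inl (.inl e)) := fun i =>
      h1.not_ge (Nat.card_le_card_of_injective _ i)
    obtain ⟨a, b, h2, h3⟩ := Function.not_injective_iff.1 this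
    exact ann_zero (p := (a, b)) h3 (ph_sw σ.τ w h2) P
  | zero => simp only [ann, Pi.zero_apply, mul_zero, csm_zero]
  | add a b _ _ ha hb => simp only [ann, Pi.add_apply, mul_add, csm_add] at *; rw [ha, hb, add_zero]
  | smul c a _ ha =>
    simp only [ann, Pi.smul_apply, smul_eq_mul, mul_left_comm _ c, csm_mul_left] at *
    rw [ha, mul_zero]

lemma ann_sub (f g : Om (Tst E ⊕ K) → ℂ) (P : Om (Tst E ⊕ K)) :
    ann (fun x => f x - g x) P = ann f P - ann g P := by
  simp only [ann, mul_sub, csm_sub]

/-- the sign of a set of pairs -/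
noncomputable def eps (S : Set (E × E)) : ℂ := (ind (∀ p ∈ S, p.1 ≠ p.2) : ℂ) * (-1) ^ S.ncard

omit [Finite E] in
lemma norm_eps (S : Set (E × E)) : ‖eps S‖ ≤ 1 := by
  rw [eps, norm_mul, norm_pow, norm_neg, norm_one, one_pow, mul_one, Complex.norm_real,
    Real.norm_eq_abs, SD.abs_ind]
  exact SD.ind_le_one _

omit [Finite E] in
lemma ann_div (f : Om (Tst E ⊕ K) → ℂ) (P : Om (Tst E ⊕ K)) :
    ((Nat.card (Set (E × E)) : ℂ))⁻¹ * ann f P = cav fun S => eps S * f (sw S P) := by
  rw [cav_def, div_eq_inv_mul]; rfl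

omit [Finite E] in
lemma enc_inj : Function.Injective (enc : OmE E N → Om (N ⊕ E)) := fun y y' h => by
  refine Prod.ext (funext fun i => ?_) (funext fun c => ?_)
  · have := congrFun h s(.inl i, .inr (y.1 i))
    simp only [enc, Sym2.lift_mk, if_true] at this
    by_contra q
    rw [if_neg (Ne.symm q)] at this
    exact one_ne_zero this
  · induction c using Sym2.ind with
    | _ i j => exact congrFun h s(.inl i, .inl j)

/-- a label extended by no block on the reference indices -/
def ext (E : Type) (Φ : Lab N K) : Lab (N ⊕ E) K := Sum.elim Φ fun _ => none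

omit [Finite E] in
lemma good_ext {Φ : Lab N K} (h : Good Φ) : Good (ext E Φ) := fun k =>
  (h k).elim fun i hi => ⟨.inl i, hi⟩

omit [Finite E] in
lemma ow_enc (y : OmE E N) (Φ : Lab N K) (Q : Om K) :
    ow (enc y) (ext E Φ) Q = enc (y.1, ow y.2 Φ Q) := by
  funext c
  induction c using Sym2.ind with
  | _ i j =>
    rcases i with i | i
    · rcases j with j | j
      · rfl
      · exact ow_none_right _ _ _ rfl
    · rcases j with j | j <;> exact ow_none_left _ _ rfl _

end NE.TG
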