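import Pool.Agent.Lib.MP_ecee09_co.NE.ALF
import Pool.Agent.Lib.MP_ecee09_co.NE.Bad
import Pool.Agent.Lib.MP_ecee09_co.NE.Cnt
import Pool.Agent.Lib.MP_ecee09_co.NE.ISO
import Pool.Agent.Lib.MP_ecee09_co.NE.JLOW
import Pool.Agent.Lib.MP_ecee09_co.NE.Jinv
import Pool.Agent.Lib.MP_ecee09_co.NE.LALG
import Pool.Agent.Lib.MP_ecee09_co.NE.LZ
import Pool.Agent.Lib.MP_ecee09_co.NE.MOVE
import Pool.Agent.Lib.MP_ecee09_co.NE.MRF
import Pool.Agent.Lib.MP_ecee09_co.NE.One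
import Pool.Agent.Lib.MP_ecee09_co.NE.P1T
import Pool.Agent.Lib.MP_ecee09_co.NE.PIG
import Pool.Agent.Lib.MP_ecee09_co.NE.PU3
import Pool.Agent.Lib.MP_ecee09_co.NE.PU4
import Pool.Agent.Lib.MP_ecee09_co.NE.Pair
import Pool.Agent.Lib.MP_ecee09_co.NE.PairA
import Pool.Agent.Lib.MP_ecee09_co.NE.PairB
import Pool.Agent.Lib.MP_ecee09_co.NE.Pos
import Pool.Agent.Lib.MP_ecee09_co.NE.Pu0
import Pool.Agent.Lib.MP_ecee09_co.NE.Pu2
import Pool.Agent.Lib.MP_ecee09_co.NE.Pu5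
import Pool.Agent.Lib.MP_ecee09_co.NE.Pu6
import Pool.Agent.Lib.MP_ecee09_co.NE.Pun
import Pool.Agent.Lib.MP_ecee09_co.NE.QRT
import Pool.Agent.Lib.MP_ecee09_co.NE.RPA
import Pool.Agent.Lib.MP_ecee09_co.NE.Stat
import Pool.Agent.Lib.MP_ecee09_co.NE.TUP
import Pool.Agent.Lib.MP_ecee09_co.NE.W1
import Pool.Agent.Lib.MP_ecee09_co.NE.Zs

/-! Assembly of part III-b. -/

namespace NE

theorem zs_all : ZS := zs_of (plant_of mrf)

theorem lz_all : LZ :=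
  lz_of (lf_of lalg (alf_of mrf qrt pig move (pos_of iso) bad_of
    (one_of qrt (pos_of iso) bad_of move) jlow (jinv_of move))) zs_all

theorem rpa_all : RPA :=
  rpa_of lz_all (pure_of mrf puh (pu5_of (pu4_of p1t pu0 (pu2_of (sh_of uni)
    (tup_of p1u cnt_of (sh_of uni))
    (pair_of uni (sh_of uni) (paira_of (sh_of uni)) (pairb_of uni (sh_of uni)))) pu3) pun))

end NE
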