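import Pool.Agent.Lib.MP_ecee09_co.NE.CQT
import Pool.Agent.Lib.MP_ecee09_co.NE.FamB

/-! Quadratic forms of a function, read on a decomposed Gram kernel. -/

namespace NE.TA

open SD
open ComplexConjugate

variable {X O : Type} [Finite X] [Finite O]

/-- a linear form -/
def IsL (l : (X → ℂ) → ℂ) : Prop := ∃ c : X → ℂ, ∀ g, l g = csm fun P => c P * g P

lemma isL_ev (P : X) : IsL fun g => g P :=
  ⟨fun Q => (ind (Q = P) : ℝ), fun g => (csm_ind_eq P g).symm⟩

lemma IsL.mul_left {l : (X → ℂ) → ℂ} (h : IsL l) (a : ℂ) : IsL fun g => a * l g := by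
  obtain ⟨c, hc⟩ := h
  exact ⟨fun P => a * c P, fun g => by simp only [hc, mul_assoc, csm_mul_left]⟩

lemma IsL.mul_right {l : (X → ℂ) → ℂ} (h : IsL l) (a : ℂ) : IsL fun g => l g * a := by
  simpa only [mul_comm a] using h.mul_left a

lemma isL_csm {l : O → (X → ℂ) → ℂ} (h : ∀ o, IsL (l o)) : IsL fun g => csm fun o => l o g := by
  choose c hc using h
  exact ⟨fun P => csm fun o => c o P, fun g => by
    simp only [hc, ← csm_mul_right]; rw [csm_comm]⟩

lemma isL_cav {l : O → (X → ℂ) → ℂ} (h : ∀ o, IsL (l o)) : IsL fun g => cav fun o => l o g := by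
  simpa only [cav_def, div_eq_mul_inv] using (isL_csm h).mul_right ((Nat.card O : ℂ))⁻¹

/-- pairing of two kernels -/
noncomputable def hq (H M : X → X → ℂ) : ℂ := csm fun P => csm fun P' => H P P' * M P P'

/-- a nonnegative quadratic form -/
def IsQ (Q : (X → ℂ) → ℝ) : Prop :=
  (∀ g, 0 ≤ Q g) ∧ ∃ H : X → X → ℂ, ∀ g, (Q g : ℂ) = hq H fun P P' => g P * conj (g P')

lemma IsL.isQ {l : (X → ℂ) → ℂ} (h : IsL l) : IsQ fun g => ‖l g‖ ^ 2 := by
  obtain ⟨c, hc⟩ := h
  refine ⟨fun g => by positivity, fun P P' => c P * conj (c P'), fun g => ?_⟩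
  rw [← mul_conj'', hc, conj_csm, csm_mul_csm]
  exact csm_congr fun P => csm_congr fun P' => by rw [map_mul]; ring

lemma hq_csm_left (H : O → X → X → ℂ) (M : X → X → ℂ) :
    hq (fun P P' => csm fun o => H o P P') M = csm fun o => hq (H o) M := by
  simp only [hq, ← csm_mul_right]
  rw [csm_comm (fun o P => csm fun P' => H o P P' * M P P')]
  exact csm_congr fun P => csm_comm _

lemma hq_mul_left (c : ℂ) (H M : X → X → ℂ) :
    hq (fun P P' => c * H P P') M = c * hq H M := by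
  simp only [hq, mul_assoc, csm_mul_left]

omit [Finite X] in
lemma hq_comm (H M : X → X → ℂ) : hq H M = hq M H := by simp only [hq, mul_comm]

lemma isQ_sm {Q : O → (X → ℂ) → ℝ} (h : ∀ o, IsQ (Q o)) : IsQ fun g => sm fun o => Q o g := by
  refine ⟨fun g => sm_nonneg fun o => (h o).1 g, ?_⟩
  choose H hH using fun o => (h o).2
  exact ⟨fun P P' => csm fun o => H o P P', fun g => by
    rw [hq_csm_left, ← csm_ofReal]; exact csm_congr fun o => hH o g⟩

lemma isQ_av {Q : O → (X → ℂ) → ℝ} (h : ∀ o, IsQ (Q o)) : IsQ fun g => av fun o => Q o g := by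
  refine ⟨fun g => av_nonneg fun o => (h o).1 g, ?_⟩
  obtain ⟨H, hH⟩ := (isQ_sm h).2
  refine ⟨fun P P' => ((Nat.card O : ℂ))⁻¹ * H P P', fun g => ?_⟩
  rw [hq_mul_left, ← hH]; simp only [av_def]; push_cast; ring

lemma hq_add (H M M' : X → X → ℂ) :
    hq H (fun P P' => M P P' + M' P P') = hq H M + hq H M' := by
  simp only [hq, mul_add, csm_add]

lemma hq_sum (H : X → X → ℂ) {ι : Type} (s : Finset ι) (c : ι → ℂ) (M : ι → X → X → ℂ) :
    hq H (fun P P' => ∑ i ∈ s, c i * M i P P') = ∑ i ∈ s, c i * hq H (M i) := by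
  simp only [hq, Finset.mul_sum, csm_sum, mul_left_comm _ (c _), csm_mul_left]

lemma hq_csm (H : X → X → ℂ) (M : O → X → X → ℂ) :
    hq H (fun P P' => csm fun o => M o P P') = csm fun o => hq H (M o) := by
  rw [hq_comm, hq_csm_left]; exact csm_congr fun o => hq_comm _ _

lemma hq_cav (H : X → X → ℂ) (M : O → X → X → ℂ) :
    hq H (fun P P' => cav fun o => M o P P') = cav fun o => hq H (M o) := by
  simp only [cav_def, div_eq_inv_mul]
  rw [hq_comm, hq_mul_left, hq_comm, hq_csm]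

lemma hq_cE {Y C Λ : Type} {a : Y → Λ → C → Y} (A : Fam a) (H : X → X → ℂ)
    (M : Y → Λ → X → X → ℂ) :
    hq H (fun P P' => A.cE fun x l => M x l P P') = A.cE fun x l => hq H (M x l) := by
  simp only [hq, A.cE_csm, A.cE_mul_left]

lemma norm_hq_le (H : X → X → ℂ) {M : X → X → ℂ} {ε : ℝ} (h : ∀ P P', ‖M P P'‖ ≤ ε) :
    ‖hq H M‖ ≤ (sm fun P => sm fun P' => ‖H P P'‖) * ε := by
  refine (norm_csm_le _).trans ?_
  rw [← sm_mul_right]
  refine sm_mono fun P => (norm_csm_le _).trans ?_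
  rw [← sm_mul_right]
  exact sm_mono fun P' => by
    rw [norm_mul]; exact mul_le_mul_of_nonneg_left (h P P') (norm_nonneg _)

/-- a quadratic form along a family is at least its value on the models -/
lemma IsQ.key {K : Type} [Finite K] {Q : (Om K → ℂ) → ℝ} (hQ : IsQ Q) : ∃ C : ℝ, 0 ≤ C ∧
    ∀ (Y Z Λ : Type) (a : Y → Λ → Z → Y) (A : Fam a) (g : Y → Λ → Om K → ℂ) (ε : ℝ) (m : ℕ)
      (σ : Fin m → Ty) (μ : Fin m → ℝ) (M' : Om K → Om K → ℂ), PSD M' →
      (∀ P P', ‖(A.cE fun x l => g x l P * conj (g x l P')) -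
        (∑ i, (μ i : ℂ) * model (σ i).τ P P') - M' P P'‖ ≤ ε) →
      ∑ i, μ i * av (fun w : K → (σ i).E => Q (ph (σ i).τ w)) - C * ε ≤
        A.E fun x l => Q (g x l) := by
  obtain ⟨h0, H, hH⟩ := hQ
  refine ⟨sm fun P => sm fun P' => ‖H P P'‖,
    sm_nonneg fun _ => sm_nonneg fun _ => norm_nonneg _, ?_⟩
  intro Y Z Λ a A g ε m σ μ M' hM h
  obtain ⟨φ, hφ⟩ := hM.gram
  have e1 : hq H (fun P P' => A.cE fun x l => g x l P * conj (g x l P')) =
      (A.E fun x l => Q (g x l) : ℝ) := by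
    rw [hq_cE, ← A.cE_ofReal]; exact A.cE_congr fun x l => (hH _).symm
  have e2 : ∀ i, hq H (model (σ i).τ) =
      (av (fun w : K → (σ i).E => Q (ph (σ i).τ w)) : ℝ) := fun i => by
    rw [← cav_ofReal]
    exact (hq_cav H _).trans (cav_congr fun w => (hH _).symm)
  have e3 : hq H M' = (sm fun j => Q (φ j) : ℝ) := by
    rw [show M' = fun P P' => csm fun j => φ j P * conj (φ j P') from
      funext fun P => funext fun P' => hφ P P', hq_csm, ← csm_ofReal]
    exact csm_congr fun j => (hH _).symm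
  have e4 := norm_hq_le H h
  have e5 : hq H (fun P P' => A.cE fun x l => g x l P * conj (g x l P')) =
      hq H (fun P P' => (A.cE fun x l => g x l P * conj (g x l P')) -
        (∑ i, (μ i : ℂ) * model (σ i).τ P P') - M' P P') +
      hq H (fun P P' => ∑ i, (μ i : ℂ) * model (σ i).τ P P') + hq H M' := by
    rw [← hq_add, ← hq_add]; congr 1; funext P P'; ring
  rw [e1, hq_sum, e3] at e5
  simp only [e2] at e5
  have e6 := congrArg Complex.re e5
  simp only [Complex.add_re, Complex.ofReal_re, Complex.re_sum, ← Complex.ofReal_mul] at e6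
  have e7 := (abs_le.1 ((Complex.abs_re_le_norm _).trans e4)).1
  have e8 : 0 ≤ sm fun j => Q (φ j) := sm_nonneg fun j => h0 _
  linarith

end NE.TA
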