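import Pool.Agent.Lib.MP_ecee09_co.NE.TpA
import Pool.Agent.Lib.MP_ecee09_co.NE.TgA
import Pool.Agent.Lib.MP_ecee09_co.NE.Fld
import Pool.Agent.Lib.MP_ecee09_co.NE.CellP
import Pool.Agent.Lib.MP_ecee09_co.NE.CellT

/-! The special energy of the phases of a type is bounded below. -/

namespace NE.TA

open SD
open ComplexConjugate

variable {E K N L : Type} [AddCommGroup E] (τ : QT E)

/-- a phase whose label vanishes off the range of `ι` -/
lemma th_supp [Finite K] [Finite L] {ι : L → K} (h : Function.Injective ι) {v : K → E}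
    (hv : ∀ k, k ∉ Set.range ι → v k = 0) (P : Om K) : th τ v P = th τ (v ∘ ι) (pb ι P) := by
  conv_lhs => rw [← ow_crd_pb h P, th_ow, wl_crd h]
  suffices e : th τ v (ow P (crd ι) 0) = 0 by rw [e, zero_add]
  refine finsum_eq_zero_of_forall_eq_zero fun c => ?_
  induction c using Sym2.ind with
  | _ i j =>
    by_cases hi : i ∈ Set.range ι
    · by_cases hj : j ∈ Set.range ι
      · obtain ⟨i, rfl⟩ := hi
        obtain ⟨j, rfl⟩ := hj
        rw [ow_crd_mk h]; simp
      · rw [cz_ne τ v (by rintro rfl; exact hj hi), hv j hj]; simp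
    · by_cases e : i = j
      · subst e; rw [cz_self, hv i hi]; simp
      · rw [cz_ne τ v e, hv i hi]; simp

variable [Finite E]

lemma ph_enc [Finite N] {v : N ⊕ E → E} (hv : ∀ e, v (.inr e) = e) (y : OmE E N) :
    ph τ v (enc y) = chi τ (v ∘ Sum.inl) y := by
  classical
  let _ := Fintype.ofFinite N
  let _ := Fintype.ofFinite E
  have e : v = (Sum.elim (v ∘ Sum.inl) 0 : N ⊕ E → E) + (Sum.elim 0 id : N ⊕ E → E) := by
    funext i; rcases i with i | i <;> simp [hv]
  have e1 : th τ (Sum.elim (v ∘ Sum.inl) 0 : N ⊕ E → E) (enc y) = th τ (v ∘ Sum.inl) y.2 := by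
    rw [th_supp τ Sum.inl_injective (by rintro (k | k) hk <;> simp at hk ⊢)]
    congr 1
    funext c
    induction c using Sym2.ind with
    | _ i j => rfl
  have e2 : th τ (Sum.elim 0 id : N ⊕ E → E) (enc y) = 0 := by
    rw [th_supp τ Sum.inr_injective (by rintro (k | k) hk <;> simp at hk ⊢),
      show pb Sum.inr (enc y) = 0 from funext fun c => by
        induction c using Sym2.ind with
        | _ i j => rfl, th_zero_right]
  have e3 : brk τ (Sum.elim (v ∘ Sum.inl) 0 : N ⊕ E → E) (adj (enc y) (Sum.elim 0 id)) =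
      brk τ (v ∘ Sum.inl) y.1 := by
    rw [brk_eq, brk_eq, Fintype.sum_sum_type]
    simp only [Sum.elim_inl, Sum.elim_inr, Pi.zero_apply, map_zero, AddMonoidHom.zero_apply,
      Finset.sum_const_zero, add_zero]
    refine Finset.sum_congr rfl fun i _ => ?_
    congr 1
    rw [adj_eq, Fintype.sum_sum_type]
    simp only [Sum.elim_inl, Sum.elim_inr, Pi.zero_apply, smul_zero, Finset.sum_const_zero,
      zero_add, id]
    rw [Finset.sum_eq_single (y.1 i)]
    · simp only [enc, Sym2.lift_mk, if_true]; exact one_smul _ _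
    · intro b _ hb
      simp only [enc, Sym2.lift_mk, if_neg hb.symm]; exact zero_smul _ _
    · simp
  unfold ph chi
  conv_lhs => rw [e, th_add, e1, e2, e3]
  rw [add_zero, add_comm]

omit τ [AddCommGroup E] [Finite E] in
/-- the exchange, read on the test indices -/
noncomputable def sw0 (S : Set (E × E)) (Q : Om (Tst E)) : Om (Tst E) :=
  pb Sum.inl (sw (K := Empty) S (ow 0 (crd Sum.inl) Q))

omit τ [AddCommGroup E] [Finite E] in
lemma pb_sw (S : Set (E × E)) (P : Om (Tst E ⊕ K)) :
    pb Sum.inl (sw S P) = sw0 S (pb Sum.inl P) := by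
  funext c
  induction c using Sym2.ind with
  | _ i j =>
    rcases i with i | i <;> rcases j with j | j <;>
      simp only [sw0, pb_mk, sw, Sym2.lift_mk, ow_crd_mk Sum.inl_injective]

omit τ [AddCommGroup E] [Finite E] in
lemma ow_sw (S : Set (E × E)) (P : Om (Tst E ⊕ K)) :
    sw S P = ow P (crd Sum.inl) (sw0 S (pb Sum.inl P)) := by
  rw [← pb_sw]
  conv_lhs => rw [← ow_crd_pb Sum.inl_injective (sw S P)]
  refine ow_congr_base _ _ fun c hc => ?_
  induction c using Sym2.ind with
  | _ i j =>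
    rcases i with (i | i) | i <;> rcases j with (j | j) | j <;>
      first
        | rfl
        | (rw [lab2_some (crd_apply Sum.inl_injective _) (crd_apply Sum.inl_injective _)] at hc
           exact absurd hc (Option.some_ne_none _))

/-- the annihilator of a phase, on the test indices -/
noncomputable def an0 (v : Tst E → E) (Q : Om (Tst E)) : ℂ :=
  csm fun S => TG.eps S * ph τ v (sw0 S Q)

lemma ann_ph [Finite K] (v : Tst E ⊕ K → E) (P : Om (Tst E ⊕ K)) :
    ann (ph τ v) P = an0 τ (v ∘ Sum.inl) (pb Sum.inl P) * ph τ v (ow P (crd Sum.inl) 0) := by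
  rw [an0, ← csm_mul_right]
  refine csm_congr fun S => ?_
  rw [ow_sw, ph_ow, wl_crd Sum.inl_injective, TG.eps]; ring

lemma an0_ne (hτ : τ.ND) : ∃ v Q, an0 τ v Q ≠ 0 := by
  classical
  let _ := Fintype.ofFinite (E × E)
  have hu : ∀ p : E × E, ∃ u, p.1 ≠ p.2 → τ.be u p.1 ≠ τ.be u p.2 := fun p => by
    by_contra h
    push Not at h
    exact (h 0).1 (sub_eq_zero.1 (hτ.eq_zero fun w => by rw [map_sub, (h w).2, sub_self]))
  choose u hu using hu
  let e := Equiv.sumComm E (E × E)
  let x : (E × E → E) → Om (Tst E) := fun b => pb e (enc (b, 0))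
  refine ⟨Sum.elim u id ∘ e, x Prod.fst, ?_⟩
  have h1 : ∀ S : Set (E × E), sw0 S (x Prod.fst) = x fun p => if p ∈ S then p.2 else p.1 := by
    intro S
    have k : ∀ (p : E × E) (a : E), (p.1 = Equiv.swap p.1 p.2 a) = (p.2 = a) := fun p a => by
      rw [eq_comm (a := p.1), Equiv.swap_apply_eq_iff, Equiv.swap_apply_left, eq_iff_iff]
      exact eq_comm
    funext c
    induction c using Sym2.ind with
    | _ i j =>
      rcases i with i | i <;> rcases j with j | j <;>
        simp only [sw0, pb_mk, sw, Sym2.lift_mk, ow_crd_mk Sum.inl_injective, x, e,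
          Equiv.sumComm_apply, Sum.swap_inl, Sum.swap_inr, enc, k] <;>
        split_ifs <;> simp_all
  have h2 : ∀ b, ph τ (Sum.elim u id ∘ e) (x b) = ∏ p, ee (τ.be (u p) (b p)) := fun b => by
    rw [ph_comp_equiv, ph_enc τ (fun _ => rfl), chi, th_zero_right, add_zero, brk_eq, ee_sum]
    rfl
  have h3 : an0 τ (Sum.elim u id ∘ e) (x Prod.fst) = ∏ p : E × E, csm fun t : Prop =>
      (ind (t → p.1 ≠ p.2) : ℂ) * (if t then -1 else 1) * ee (τ.be (u p) (if t then p.2 else p.1)) := by
    rw [prod_csm]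
    refine csm_congr fun S : Set (E × E) => ?_
    rw [h1, h2, TG.eps, Finset.prod_mul_distrib, Finset.prod_mul_distrib, ind_forall]
    push_cast
    congr 2
    rw [Finset.prod_ite, Finset.prod_const, Finset.prod_const_one, mul_one, Set.ncard_eq_toFinset_card']
    congr 2
    ext p; simp; rfl
  rw [h3]
  refine Finset.prod_ne_zero_iff.2 fun p _ => ?_
  rw [csm_eq, Fintype.univ_Prop, Finset.sum_pair (by simp)]
  by_cases h : p.1 = p.2
  · simp [ind_neg, ind_pos, h, ee_ne_zero]
  · have := fun q => hu p h (ee_inj q)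
    simp only [if_true, if_false, ind_pos (fun _ : True => h), ind_pos (False.elim : False → p.1 ≠ p.2)]
    intro q
    exact this (by push_cast at q; linear_combination q)

lemma fen_chi [Finite N] (hτ : τ.ND) (a : ℂ) (w : N → E) :
    fen τ (fun y => a * chi τ w y) = ‖a‖ ^ 2 := by
  rw [fen_mul_left, fen]
  have : ∀ w', ‖cf τ (chi τ w) w'‖ ^ 2 = ind (w' = w) := fun w' => by
    rw [cf, ip_chi hτ, Complex.norm_real, Real.norm_eq_abs, abs_ind, ind_sq, ind_congr eq_comm]
  simp only [this, sm_ind_one, mul_one]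

variable [Finite K] [Finite N]

lemma fen_ann (hτ : τ.ND) (ι : N ⊕ E ↪ K) {v : Tst E ⊕ K → E}
    (hv : ∀ e, v (.inr (ι (.inr e))) = e) (x : Om (Tst E ⊕ K)) :
    (fen τ fun y : OmE E N => ann (ph τ v) (ow x (crd fun u => Sum.inr (ι u)) (enc y))) =
      ‖an0 τ (v ∘ Sum.inl) (pb Sum.inl x)‖ ^ 2 := by
  have hi : Function.Injective fun u => (Sum.inr (ι u) : Tst E ⊕ K) :=
    Sum.inr_injective.comp ι.injective
  have n1 : ∀ t : Tst E, crd (fun u => (Sum.inr (ι u) : Tst E ⊕ K)) (.inl t) = none :=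
    fun t => (crd_eq_none hi).2 (by simp)
  have n2 : ∀ k : K, crd (Sum.inl : Tst E → Tst E ⊕ K) (.inr k) = none :=
    fun t => (crd_eq_none Sum.inl_injective).2 (by simp)
  have e : ∀ y : OmE E N, ann (ph τ v) (ow x (crd fun u => Sum.inr (ι u)) (enc y)) =
      an0 τ (v ∘ Sum.inl) (pb Sum.inl x) *
        ph τ v (ow (ow x (crd Sum.inl) 0) (crd fun u => Sum.inr (ι u)) 0) *
        chi τ ((v ∘ fun u => Sum.inr (ι u)) ∘ Sum.inl) y := fun y => by
    rw [ann_ph, ow_comm x (enc y) 0, ph_ow, wl_crd hi, ph_enc τ hv, mul_assoc]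
    · congr 2
      funext c
      induction c using Sym2.ind with
      | _ i j => exact ow_none_left _ _ (n1 i) _
    · intro c
      induction c using Sym2.ind with
      | _ i j =>
        rcases i with i | i
        · exact .inl (lab2_none_left (n1 i) _)
        · exact .inr (lab2_none_left (n2 i) _)
  simp only [e, fen_chi τ hτ, norm_mul, norm_ph, mul_one]

omit [Finite K] [Finite N] in
/-- the special energy of the phases, uniformly in the sizes -/
lemma se_ph (hτ : τ.ND) : ∃ c : ℝ, 0 < c ∧ ∀ (K N : Type) [Finite K] [Finite N],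
    Nonempty (N ⊕ E ↪ K) → c ≤ av fun v : Tst E ⊕ K → E => SE τ N (ph τ v) := by
  obtain ⟨v0, Q0, h0⟩ := an0_ne τ hτ
  let G : (Tst E → E) → ℝ := fun v => av fun Q => ‖an0 τ v Q‖ ^ 2
  have G0 : ∀ v, 0 ≤ G v := fun v => av_nonneg fun _ => by positivity
  have G1 : 0 < av G := by
    have a1 : 0 < G v0 := div_pos ((by positivity : 0 < ‖an0 τ v0 Q0‖ ^ 2).trans_le
      (single_le_sm (f := fun Q => ‖an0 τ v0 Q‖ ^ 2) (fun _ => by positivity) Q0)) card_pos'
    exact div_pos (a1.trans_le (single_le_sm G0 v0)) card_pos'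
  refine ⟨av G / Nat.card (E → E), div_pos G1 card_pos', fun K N _ _ hι => ?_⟩
  unfold SE
  refine le_of_le_of_eq (const_le_av fun ι => ?_) (av_comm _).symm
  have hs := av_surj (fun v : Tst E ⊕ K → E => ((v ∘ Sum.inl, fun e => v (.inr (ι (.inr e)))) :
      (Tst E → E) × (E → E))) (fun _ _ => rfl) (fun z =>
      ⟨Sum.elim z.1 (Function.extend (fun e => ι (.inr e)) z.2 0), Prod.ext rfl (funext fun e =>
        (ι.injective.comp Sum.inr_injective).extend_apply z.2 0 e)⟩)
    fun z => ind (z.2 = id) * G z.1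
  rw [av_prod] at hs
  simp only [av_ind_eq, av_div] at hs
  rw [← hs]
  refine av_mono fun v => ?_
  by_cases hv : (fun e => v (.inr (ι (.inr e)))) = id
  · rw [ind_pos hv, one_mul]
    simp only [fen_ann τ hτ ι (congrFun hv)]
    exact (av_pb Sum.inl_injective fun Q => ‖an0 τ (v ∘ Sum.inl) Q‖ ^ 2).ge
  · rw [ind_neg hv, zero_mul]
    exact av_nonneg fun _ => fen_nonneg _ _

end NE.TA
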