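import Pool.Agent.Lib.MP_ecee09_co.NE.CBase
import Pool.Agent.Lib.MP_ecee09_co.NE.BF

/-! A self dual weight has a heavy set with large additive energy, hence a heavy set inside a
subgroup of comparable size. -/

namespace NE

open SD
open ComplexConjugate

section
variable {X : Type} [AddCommGroup X] [Finite X]

/-- a weight that is its own symplectic transform -/
structure SDW (ω : X →+ X →+ TT) (N : ℝ) (p : X → ℝ) : Prop where
  anti : ∀ x y, ω y x = -ω x y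
  nd : ∀ y, (∀ x, ω y x = 0) → y = 0
  card : (Nat.card X : ℝ) = N ^ 2
  pos : 0 < N
  nn : ∀ x, 0 ≤ p x
  dual : ∀ y, (csm fun x => (p x : ℂ) * ee (ω x y)) = N * p y

variable {ω : X →+ X →+ TT} {N : ℝ} {p : X → ℝ}

lemma SDW.dual' (h : SDW ω N p) (y : X) : (csm fun x => (p x : ℂ) * ee (ω y x)) = N * p y := by
  have := congrArg conj (h.dual y)
  rw [conj_csm, map_mul, Complex.conj_ofReal, Complex.conj_ofReal] at this
  rw [← this]
  exact csm_congr fun x => by rw [map_mul, Complex.conj_ofReal, conj_ee, h.anti]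

lemma SDW.sm_p (h : SDW ω N p) : sm p = N * p 0 := by
  have := h.dual 0
  simp only [map_zero, ee_zero, mul_one, csm_ofReal] at this
  exact_mod_cast this

lemma SDW.orth (h : SDW ω N p) (y : X) :
    (csm fun x => ee (ω y x)) = (N : ℂ) ^ 2 * (ind (y = 0) : ℝ) := by
  rw [csm_eq_card_mul_cav, cav_ee_add (fun x => ω y x) fun a b => map_add _ _ _,
    ind_congr (q := y = 0) ⟨h.nd y, fun e x => by simp [e]⟩]
  congr 1
  exact_mod_cast h.card

/-- triple convolution -/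
noncomputable def u3T (p : X → ℝ) (a : X) : ℝ :=
  sm fun b => sm fun d => p b * p d * p (a + b - d)

lemma SDW.T_eq (h : SDW ω N p) (a : X) :
    (u3T p a : ℂ) = N * csm fun y => (p y : ℂ) ^ 3 * ee (ω y a) := by
  have hN : (N : ℂ) ≠ 0 := by exact_mod_cast h.pos.ne'
  have e1 : ∀ b d, ((p b * p d * p (a + b - d) : ℝ) : ℂ) = csm fun y =>
      (N : ℂ)⁻¹ * (p y * ee (ω y a)) * ((p b * ee (ω y b)) * (p d * ee (ω d y))) := fun b d => by
    have h2 : (p (a + b - d) : ℂ) = (N : ℂ)⁻¹ * csm fun x => (p x : ℂ) * ee (ω x (a + b - d)) := by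
      rw [h.dual]; field_simp
    push_cast
    rw [h2, ← csm_mul_left, ← csm_mul_left]
    refine csm_congr fun y => ?_
    rw [map_sub, map_add, sub_eq_add_neg, ← h.anti, ee_add, ee_add]; ring
  simp only [u3T, ← csm_ofReal, e1]
  have e2 : ∀ b, (csm fun d => csm fun y => (N : ℂ)⁻¹ * (p y * ee (ω y a)) *
      ((p b * ee (ω y b)) * (p d * ee (ω d y)))) =
      csm fun y => (p y * ee (ω y a)) * p y * (p b * ee (ω y b)) := fun b => by
    rw [csm_comm]
    refine csm_congr fun y => ?_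
    rw [csm_mul_left, csm_mul_left, h.dual]; field_simp
  simp only [e2]
  rw [csm_comm, ← csm_mul_left]
  refine csm_congr fun y => ?_
  rw [csm_mul_left, h.dual']; ring

lemma SDW.La_eq (h : SDW ω N p) : sm (fun a => p a * u3T p a) = N ^ 2 * sm fun y => p y ^ 4 := by
  have : (csm fun a => ((p a * u3T p a : ℝ) : ℂ)) =
      csm fun y => ((N ^ 2 * p y ^ 4 : ℝ) : ℂ) := by
    have e : ∀ a, ((p a * u3T p a : ℝ) : ℂ) =
        csm fun y => N * (p y : ℂ) ^ 3 * (p a * ee (ω y a)) := fun a => by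
      push_cast
      rw [h.T_eq, ← csm_mul_left, ← csm_mul_left]; exact csm_congr fun y => by ring
    simp only [e]
    rw [csm_comm]
    refine csm_congr fun y => ?_
    rw [csm_mul_left, h.dual']; push_cast; ring
  rw [csm_ofReal, csm_ofReal, sm_mul_left] at this
  exact_mod_cast this

lemma SDW.T_sq (h : SDW ω N p) : sm (fun a => u3T p a ^ 2) = N ^ 4 * sm fun y => p y ^ 6 := by
  have : (csm fun a => ((u3T p a ^ 2 : ℝ) : ℂ)) = csm fun y => ((N ^ 4 * p y ^ 6 : ℝ) : ℂ) := by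
    have e : ∀ a, ((u3T p a ^ 2 : ℝ) : ℂ) = csm fun y => csm fun y' =>
        (N : ℂ) ^ 2 * ((p y : ℂ) ^ 3 * (p y' : ℂ) ^ 3) * ee (ω (y - y') a) := fun a => by
      have h1 := h.T_eq a
      have h2 := congrArg conj h1
      rw [Complex.conj_ofReal, map_mul, Complex.conj_ofReal, conj_csm] at h2
      push_cast
      rw [sq]
      nth_rewrite 1 [h1]
      rw [h2, mul_mul_mul_comm, csm_mul_csm, ← csm_mul_left]
      refine csm_congr fun y => ?_
      rw [← csm_mul_left]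
      refine csm_congr fun y' => ?_
      rw [map_sub, AddMonoidHom.sub_apply, ee_sub, map_mul, map_pow, Complex.conj_ofReal]; ring
    simp only [e]
    rw [csm_comm]
    refine csm_congr fun y => ?_
    rw [csm_comm]
    simp only [csm_mul_left, h.orth, ind_congr (sub_eq_zero (a := y))]
    rw [csm_congr (g := fun y' => (ind (y = y') : ℂ) *
      ((N : ℂ) ^ 4 * ((p y : ℂ) ^ 3 * (p y' : ℂ) ^ 3))) fun y' => by ring, csm_ind_eq']
    push_cast; ring
  rw [csm_ofReal, csm_ofReal, sm_mul_left] at this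
  exact_mod_cast this

/-- removing the light part of a weight costs at most four times the mixed count -/
lemma u3_heavy (p : X → ℝ) (hp : ∀ x, 0 ≤ p x) (b th : ℝ) (hb : ∀ x, p x ≤ b) :
    sm (fun a => p a * u3T p a) ≤ b ^ 4 * energy {x | th ≤ p x} +
      4 * sm fun a => ind (¬ th ≤ p a) * p a * u3T p a := by
  set l : X → ℝ := fun a => ind (¬ th ≤ p a) * p a with hl
  have hl0 : ∀ a, 0 ≤ l a := fun a => mul_nonneg (ind_nonneg _) (hp a)
  have hb0 : 0 ≤ b := (hp 0).trans (hb 0)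
  have pt : ∀ a1 a2 a3 a4, p a1 * (p a2 * p a3 * p a4) ≤
      b ^ 4 * ind (a1 ∈ {x | th ≤ p x} ∧ a2 ∈ {x | th ≤ p x} ∧ a3 ∈ {x | th ≤ p x} ∧
        a4 ∈ {x | th ≤ p x}) + (l a1 * (p a2 * p a3 * p a4) + l a2 * (p a1 * p a3 * p a4) +
        l a3 * (p a4 * p a1 * p a2) + l a4 * (p a3 * p a1 * p a2)) := by
    intro a1 a2 a3 a4
    have q1 := hp a1; have q2 := hp a2; have q3 := hp a3; have q4 := hp a4
    have t1 : 0 ≤ l a1 * (p a2 * p a3 * p a4) := mul_nonneg (hl0 _) (by positivity)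
    have t2 : 0 ≤ l a2 * (p a1 * p a3 * p a4) := mul_nonneg (hl0 _) (by positivity)
    have t3 : 0 ≤ l a3 * (p a4 * p a1 * p a2) := mul_nonneg (hl0 _) (by positivity)
    have t4 : 0 ≤ l a4 * (p a3 * p a1 * p a2) := mul_nonneg (hl0 _) (by positivity)
    have t0 : 0 ≤ b ^ 4 * ind (a1 ∈ {x | th ≤ p x} ∧ a2 ∈ {x | th ≤ p x} ∧
        a3 ∈ {x | th ≤ p x} ∧ a4 ∈ {x | th ≤ p x}) := mul_nonneg (by positivity) (ind_nonneg _)
    have hlp : ∀ a, ¬ th ≤ p a → l a = p a := fun a ha => by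
      simp only [hl]; rw [ind_pos ha, one_mul]
    by_cases h1 : th ≤ p a1
    · by_cases h2 : th ≤ p a2
      · by_cases h3 : th ≤ p a3
        · by_cases h4 : th ≤ p a4
          · rw [ind_pos ⟨h1, h2, h3, h4⟩]
            have : p a1 * (p a2 * p a3 * p a4) ≤ b * (b * b * b) := by
              have := hb a1; have := hb a2; have := hb a3; have := hb a4
              gcongr
            nlinarith
          · rw [hlp a4 h4] at t4 ⊢; nlinarith
        · rw [hlp a3 h3] at t3 ⊢; nlinarith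
      · rw [hlp a2 h2] at t2 ⊢; nlinarith
    · rw [hlp a1 h1] at t1 ⊢; nlinarith
  have tri : ∀ g : X → X → X → ℝ, (sm fun a1 => sm fun a2 => sm fun a3 => g a1 a2 a3) =
      sm fun t : X × X × X => g t.1 t.2.1 t.2.2 := fun g => by
    rw [sm_prod]; exact sm_congr fun a => by rw [sm_prod]
  have base : ∀ f : X → ℝ, sm (fun a => f a * u3T p a) =
      sm fun t : X × X × X => f t.1 * (p t.2.1 * p t.2.2 * p (t.1 + t.2.1 - t.2.2)) := fun f => by
    rw [← tri fun a1 a2 a3 => f a1 * (p a2 * p a3 * p (a1 + a2 - a3))]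
    simp only [u3T, ← sm_mul_left]
  let e2 : X × X × X ≃ X × X × X := ⟨fun t => (t.2.1, t.1, t.2.2), fun t => (t.2.1, t.1, t.2.2),
    fun _ => rfl, fun _ => rfl⟩
  let e3 : X × X × X ≃ X × X × X := ⟨fun t => (t.2.2, t.1 + t.2.1 - t.2.2, t.1),
    fun t => (t.2.2, t.1 + t.2.1 - t.2.2, t.1), fun t => by simp, fun t => by simp⟩
  let e4 : X × X × X ≃ X × X × X := ⟨fun t => (t.1 + t.2.1 - t.2.2, t.2.2, t.1),
    fun t => (t.2.2, t.1 + t.2.1 - t.2.2, t.2.1), fun t => by simp, fun t => by simp⟩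
  have s2 : (sm fun t : X × X × X => l t.2.1 * (p t.1 * p t.2.2 * p (t.1 + t.2.1 - t.2.2))) =
      sm (fun a => l a * u3T p a) := by
    rw [base, ← sm_equiv e2]
    exact sm_congr fun t => by simp only [e2, Equiv.coe_fn_mk, add_comm]
  have s3 : (sm fun t : X × X × X => l t.2.2 * (p (t.1 + t.2.1 - t.2.2) * p t.1 * p t.2.1)) =
      sm (fun a => l a * u3T p a) := by
    rw [base, ← sm_equiv e3 fun t => l t.1 * (p t.2.1 * p t.2.2 * p (t.1 + t.2.1 - t.2.2))]
    exact sm_congr fun t => by simp [e3]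
  have s4 : (sm fun t : X × X × X => l (t.1 + t.2.1 - t.2.2) * (p t.2.2 * p t.1 * p t.2.1)) =
      sm (fun a => l a * u3T p a) := by
    rw [base, ← sm_equiv e4 fun t => l t.1 * (p t.2.1 * p t.2.2 * p (t.1 + t.2.1 - t.2.2))]
    exact sm_congr fun t => by simp [e4]
  refine (base p).trans_le ((sm_mono fun t => pt _ _ _ _).trans (le_of_eq ?_))
  simp only [sm_add]
  rw [s2, s3, s4, ← base l, sm_mul_left, energy,
    tri fun a b c => ind (a ∈ {x | th ≤ p x} ∧ b ∈ {x | th ≤ p x} ∧ c ∈ {x | th ≤ p x} ∧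
      a + b - c ∈ {x | th ≤ p x})]
  ring

end

/-- energy of the heavy set -/
theorem u3_energy (u s : ℝ) (hu : 0 < u) (hs : 0 < s) : ∃ th c0 : ℝ, 0 < th ∧ 0 < c0 ∧
    ∀ (X : Type) [AddCommGroup X] [Finite X] (ω : X →+ X →+ TT) (N : ℝ) (p : X → ℝ),
      SDW ω N p → (∀ x, p x ≤ s ^ 2) → u * N ≤ (sm fun x => p x ^ 2) →
      c0 * N ^ 3 ≤ energy {x | th ≤ p x} ∧ th * cnt {x | th ≤ p x} ≤ s ^ 2 * N := by
  obtain ⟨κ, hκ⟩ : ∃ κ, κ = u / (2 * s ^ 2) := ⟨_, rfl⟩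
  have hκ0 : 0 < κ := by rw [hκ]; positivity
  obtain ⟨θ, hθ⟩ : ∃ θ, θ = κ ^ 2 * u / (16 * s ^ 7) := ⟨_, rfl⟩
  have hθ0 : 0 < θ := by rw [hθ]; positivity
  refine ⟨θ ^ 2, κ ^ 2 * u / (4 * s ^ 8), by positivity, by positivity, ?_⟩
  intro X _ _ ω N p h p1 hbig
  have hN := h.pos
  have p0 := h.nn
  have p2 : sm p ≤ s ^ 2 * N := by
    rw [h.sm_p, mul_comm]; exact mul_le_mul_of_nonneg_right (p1 0) hN.le
  have p4 : κ ^ 2 * u / 2 * N ≤ sm fun x => p x ^ 4 := by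
    have pt : ∀ x, κ ^ 2 * p x ^ 2 ≤ κ ^ 3 * p x + p x ^ 4 := fun x => by
      have := p0 x
      rcases le_total (p x) κ with h1 | h1
      · have : κ ^ 2 * p x ^ 2 ≤ κ ^ 3 * p x := by
          calc κ ^ 2 * p x ^ 2 = κ ^ 2 * p x * p x := by ring
            _ ≤ κ ^ 2 * p x * κ := by gcongr
            _ = _ := by ring
        nlinarith [pow_nonneg (p0 x) 4]
      · have : κ ^ 2 * p x ^ 2 ≤ p x ^ 2 * p x ^ 2 := by gcongr
        nlinarith [mul_nonneg (pow_nonneg hκ0.le 3) (p0 x)]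
    have h1 := sm_mono pt
    rw [sm_add, sm_mul_left, sm_mul_left] at h1
    have h2 : κ ^ 3 * sm p ≤ κ ^ 3 * (s ^ 2 * N) := by gcongr
    have h3 : κ ^ 2 * (u * N) ≤ κ ^ 2 * sm fun x => p x ^ 2 := by gcongr
    have h4 : κ ^ 3 * (s ^ 2 * N) = κ ^ 2 * u / 2 * N := by
      have : κ * s ^ 2 = u / 2 := by rw [hκ]; field_simp
      calc κ ^ 3 * (s ^ 2 * N) = κ ^ 2 * (κ * s ^ 2) * N := by ring
        _ = _ := by rw [this]; ring
    nlinarith
  have p6 : (sm fun x => p x ^ 6) ≤ s ^ 12 * N := by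
    calc (sm fun x => p x ^ 6) ≤ sm fun x => (s ^ 2) ^ 5 * p x := sm_mono fun x => by
          have := p0 x; have := p1 x
          calc p x ^ 6 = p x ^ 5 * p x := by ring
            _ ≤ _ := by gcongr
      _ = (s ^ 2) ^ 5 * sm p := sm_mul_left _ _
      _ ≤ (s ^ 2) ^ 5 * (s ^ 2 * N) := by gcongr
      _ = _ := by ring
  have pl : (sm fun a => (ind (¬ θ ^ 2 ≤ p a) * p a) ^ 2) ≤ θ ^ 2 * (s ^ 2 * N) := by
    calc _ ≤ sm fun a => θ ^ 2 * p a := sm_mono fun a => by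
          have := p0 a
          by_cases h1 : θ ^ 2 ≤ p a
          · rw [ind_neg (not_not.2 h1), zero_mul, zero_pow two_ne_zero]; positivity
          · rw [ind_pos h1, one_mul, sq (p a)]
            exact mul_le_mul_of_nonneg_right (le_of_lt (not_le.1 h1)) this
      _ = θ ^ 2 * sm p := sm_mul_left _ _
      _ ≤ _ := by gcongr
  have hL : (sm fun a => ind (¬ θ ^ 2 ≤ p a) * p a * u3T p a) ≤ θ * s ^ 7 * N ^ 3 := by
    have h1 := sm_cs (fun a => ind (¬ θ ^ 2 ≤ p a) * p a) (u3T p)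
    have h2 : sm (fun a => u3T p a ^ 2) ≤ N ^ 4 * (s ^ 12 * N) := by
      rw [h.T_sq]; gcongr
    have h3 : (sm fun a => ind (¬ θ ^ 2 ≤ p a) * p a * u3T p a) ^ 2 ≤ (θ * s ^ 7 * N ^ 3) ^ 2 :=
      calc _ ≤ _ := h1
        _ ≤ θ ^ 2 * (s ^ 2 * N) * (N ^ 4 * (s ^ 12 * N)) :=
          mul_le_mul pl h2 (sm_nonneg fun _ => sq_nonneg _) (by positivity)
        _ = _ := by ring
    exact (abs_le_of_sq_le_sq' h3 (by positivity)).2
  have hH := u3_heavy p p0 (s ^ 2) (θ ^ 2) p1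
  have hLa := h.La_eq
  refine ⟨?_, ?_⟩
  · have h1 : N ^ 2 * (κ ^ 2 * u / 2 * N) ≤ N ^ 2 * sm fun y => p y ^ 4 := by gcongr
    have h2 : 4 * (θ * s ^ 7 * N ^ 3) = κ ^ 2 * u / 4 * N ^ 3 := by rw [hθ]; field_simp; ring
    have h3 : κ ^ 2 * u / 4 * N ^ 3 ≤ s ^ 8 * energy {x | θ ^ 2 ≤ p x} := by nlinarith
    rw [div_mul_eq_mul_div, div_le_iff₀ (by positivity)]
    nlinarith
  · refine le_trans ?_ p2
    rw [cnt, ← sm_mul_left]
    refine sm_mono fun x => ?_
    by_cases h1 : θ ^ 2 ≤ p x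
    · rw [ind_pos (show x ∈ {x | θ ^ 2 ≤ p x} from h1), mul_one]; exact h1
    · rw [ind_neg (show ¬ x ∈ {x | θ ^ 2 ≤ p x} from h1), mul_zero]; exact p0 x

/-- a subgroup of size about `N` that holds about `N` heavy points -/
theorem u3_struct {J : ℕ} (hBF : BFJ J) (u s : ℝ) (hu : 0 < u) (hs : 0 < s) :
    ∃ th C lam : ℝ, 0 < th ∧ 0 < lam ∧
    ∀ (X : Type) [AddCommGroup X] [Finite X] (ω : X →+ X →+ TT) (N : ℝ) (p : X → ℝ),
      (∀ x : X, J • x = 0) → SDW ω N p → (∀ x, p x ≤ s ^ 2) → u * N ≤ (sm fun x => p x ^ 2) →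
      ∃ H : AddSubgroup X, (Nat.card H : ℝ) ≤ C * N ∧ lam * N ≤ cnt {x | th ≤ p x ∧ x ∈ H} := by
  obtain ⟨th, c0, hth, hc0, hE⟩ := u3_energy u s hu hs
  obtain ⟨C, hC, hB⟩ := hBF (c0 * th ^ 3 / s ^ 6) (by positivity)
  refine ⟨th, C * (s ^ 2 / th), min c0 1 / C, hth, by positivity, ?_⟩
  intro X _ _ ω N p hJ h hc hbig
  obtain ⟨h1, h2⟩ := hE X ω N p h hc hbig
  have hN := h.pos
  set P : Set X := {x | th ≤ p x} with hP
  have P0 := cnt_nonneg P
  have h3 := energy_le_cube P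
  have h4 : min c0 1 * N ≤ cnt P := by
    have m0 : 0 < min c0 1 := lt_min hc0 one_pos
    have m1 : min c0 1 ^ 3 ≤ c0 := by
      calc min c0 1 ^ 3 ≤ min c0 1 ^ 1 :=
            pow_le_pow_of_le_one m0.le (min_le_right _ _) (by norm_num)
        _ ≤ c0 := by rw [pow_one]; exact min_le_left _ _
    have : (min c0 1 * N) ^ 3 ≤ cnt P ^ 3 := by
      rw [mul_pow]
      exact le_trans (mul_le_mul_of_nonneg_right m1 (by positivity)) (h1.trans h3)
    exact le_of_pow_le_pow_left₀ (by norm_num) P0 this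
  have hne : P.Nonempty := by
    by_contra hne
    rw [Set.not_nonempty_iff_eq_empty] at hne
    have : cnt P = 0 := by rw [cnt_eq_ncard, hne]; simp
    have : 0 < min c0 1 * N := mul_pos (lt_min hc0 one_pos) hN
    linarith
  have h5 : cnt P ≤ s ^ 2 / th * N := by
    rw [div_mul_eq_mul_div, le_div_iff₀ hth, mul_comm]; exact h2
  obtain ⟨H, hH1, hH2⟩ := hB X hJ P hne (by
    refine le_trans ?_ h1
    calc c0 * th ^ 3 / s ^ 6 * cnt P ^ 3 ≤ c0 * th ^ 3 / s ^ 6 * (s ^ 2 / th * N) ^ 3 := by gcongr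
      _ = _ := by field_simp)
  refine ⟨H, hH1.trans ?_, ?_⟩
  · rw [mul_assoc]; gcongr
  · rw [div_mul_eq_mul_div, div_le_iff₀ hC, mul_comm _ C]
    exact h4.trans hH2

end NE
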