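import Pool.Agent.Lib.MP_ecee09_co.NE.U3a
import Pool.Agent.Lib.MP_ecee09_co.NE.PInd
import Pool.Agent.Lib.MP_ecee09_co.NE.FldR

/-! The weight `|W0| ^ 2` is self dual; heavy pairs are present with positive probability; a
present heavy pair killed by the label forces a large fourth moment of the class sums. -/

namespace NE

open SD
open ComplexConjugate

variable {E I K L : Type} [AddCommGroup E] [Finite E] [Finite I] [Finite K] [Finite L] {τ : QT E}

/-- the symplectic form on pairs -/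
noncomputable def u3om (τ : QT E) (I : Type) [Finite I] :
    (I → E) × (I → E) →+ (I → E) × (I → E) →+ TT :=
  AddMonoidHom.mk' (fun x => AddMonoidHom.mk' (fun y => brk τ x.1 y.2 - brk τ y.1 x.2) fun a b => by
    simp only [Prod.fst_add, Prod.snd_add, brk_add_left, brk_add_right]; abel)
    fun a b => AddMonoidHom.ext fun y => by
      simp only [AddMonoidHom.mk'_apply, AddMonoidHom.add_apply, Prod.fst_add, Prod.snd_add,
        brk_add_left, brk_add_right]; abel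

omit [Finite E] in
lemma u3om_apply (x y : (I → E) × (I → E)) :
    u3om τ I x y = brk τ x.1 y.2 - brk τ y.1 x.2 := rfl

lemma W0_dual (h : τ.ND) (c : (I → E) → ℂ) (y : (I → E) × (I → E)) :
    (csm fun x => ((‖W0 τ c x‖ ^ 2 : ℝ) : ℂ) * ee (u3om τ I x y)) =
      (Nat.card (I → E) : ℝ) * ((‖W0 τ c y‖ ^ 2 : ℝ) : ℂ) := by
  have e1 : ∀ v : I → E, (csm fun ξ => ((‖W0 τ c (v, ξ)‖ ^ 2 : ℝ) : ℂ) * ee (u3om τ I (v, ξ) y)) =
      (Nat.card (I → E) : ℂ) * csm fun w => c (w + v) * conj (c (w + v + y.1)) *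
        ee (brk τ (w + v) y.2) * conj (c w * conj (c (w + y.1)) * ee (brk τ w y.2)) := fun v => by
    have e2 : ∀ ξ, ((‖W0 τ c (v, ξ)‖ ^ 2 : ℝ) : ℂ) * ee (u3om τ I (v, ξ) y) =
        csm fun w' => csm fun w => c w * conj (c (w + v)) * (conj (c w') * c (w' + v)) *
          ee (brk τ v y.2) * (ee (brk τ w ξ) * conj (ee (brk τ (w' + y.1) ξ))) := fun ξ => by
      rw [← mul_conj'', mul_comm (W0 τ c (v, ξ)), W0, conj_csm, csm_mul_csm, ← csm_mul_right]
      refine csm_congr fun w' => ?_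
      rw [← csm_mul_right]
      refine csm_congr fun w => ?_
      simp only [u3om_apply, ee_sub, brk_add_left, ee_add, map_mul, Complex.conj_conj]; ring
    simp only [e2]
    rw [csm_comm, ← csm_mul_left]
    refine csm_congr fun w' => ?_
    rw [csm_comm]
    simp only [csm_mul_left, csm_eq_card_mul_cav fun ξ : I → E => ee _ * conj (ee _), cav_brk h]
    rw [csm_congr (g := fun w => (ind (w = w' + y.1) : ℂ) * (Nat.card (I → E) *
      (c w * conj (c (w + v)) * (conj (c w') * c (w' + v)) * ee (brk τ v y.2)))) fun w => by ring,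
      csm_ind_eq, add_right_comm w' y.1 v]
    have := ee_mul_conj (brk τ w' y.2)
    simp only [brk_add_left, ee_add, map_mul, Complex.conj_conj]
    linear_combination (-(Nat.card (I → E) : ℂ) * c (w' + y.1) * conj (c (w' + v + y.1)) *
      conj (c w') * c (w' + v) * ee (brk τ v y.2)) * this
  rw [csm_prod]
  simp only [e1]
  rw [csm_mul_left, csm_comm, ← mul_conj'', mul_comm (W0 τ c y), W0, conj_csm, csm_mul_csm]
  congr 1
  refine csm_congr fun w => ?_
  rw [csm_add_left (fun u => c u * conj (c (u + y.1)) * ee (brk τ u y.2) *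
    conj (c w * conj (c (w + y.1)) * ee (brk τ w y.2))) w]
  exact csm_congr fun u => mul_comm _ _

lemma W0_sdw (h : τ.ND) (c : (I → E) → ℂ) :
    SDW (u3om τ I) (Nat.card (I → E)) fun x => ‖W0 τ c x‖ ^ 2 where
  anti x y := by simp only [u3om_apply]; abel
  nd y hy := by
    have h1 : y.1 = 0 := brk_nd h fun t => by
      simpa only [u3om_apply, brk_zero_left, sub_zero] using hy (0, t)
    have h2 : y.2 = 0 := brk_nd h fun t => by
      have := hy (t, 0)
      simp only [u3om_apply, brk_zero_right, zero_sub, neg_eq_zero] at this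
      rw [brk_comm]; exact this
    exact Prod.ext h1 h2
  card := by rw [Nat.card_prod]; push_cast; ring
  pos := card_pos'
  nn _ := by positivity
  dual := W0_dual h c

lemma W0_le (τ : QT E) (c : (I → E) → ℂ) (x : (I → E) × (I → E)) :
    ‖W0 τ c x‖ ^ 2 ≤ (sm fun w => ‖c w‖ ^ 2) ^ 2 := by
  have h := norm_csm_cs c fun w => conj (c (w + x.1)) * ee (brk τ w x.2)
  simp only [norm_mul, norm_ee, mul_one, Complex.norm_conj] at h
  rw [sm_add_right (fun w => ‖c w‖ ^ 2) x.1, ← sq] at h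
  simpa only [W0, mul_assoc] using h

/-- number of present pairs of a set -/
noncomputable def u3N (P : Set ((I → E) × (I → E))) (x : OmE E I) : ℝ :=
  sm fun p => ind (p ∈ P ∧ x.1 + adj x.2 p.1 + p.2 = 0)

lemma u3N_av (P : Set ((I → E) × (I → E))) : av (u3N P) = cnt P / Nat.card (I → E) := by
  unfold u3N
  rw [av_sm_comm, cnt, ← sm_div]
  refine sm_congr fun p => ?_
  rw [av_prod, av_comm, ← av_const (α := Om I) (ind (p ∈ P) / _)]
  refine av_congr fun A => ?_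
  rw [← av_ind_eq (-(adj A p.1 + p.2)) fun _ => ind (p ∈ P)]
  refine av_congr fun b => ?_
  rw [ind_and, mul_comm, add_assoc, ind_congr add_eq_zero_iff_eq_neg]

lemma u3N_le (h : τ.ND) (c : (I → E) → ℂ) (th : ℝ) (P : Set ((I → E) × (I → E)))
    (hP : ∀ x ∈ P, th ≤ ‖W0 τ c x‖ ^ 2) (y : I → E) (A : Om I) :
    th * u3N P (y, A) ≤ n2 (dd (fun b => fld τ c (b, A)) y) := by
  rw [← fo_parseval h, u3N, ← sm_mul_left, sm_prod]
  refine sm_mono fun v => ?_
  rw [norm_fo_dd_fld h, ← sm_ind_eq (-(y + adj A v)) fun ξ => ‖W0 τ c (v, ξ)‖ ^ 2]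
  refine sm_mono fun ξ => ?_
  by_cases hx : (v, ξ) ∈ P ∧ y + adj A v + ξ = 0
  · rw [ind_pos hx, ind_pos (eq_neg_of_add_eq_zero_right hx.2), mul_one, one_mul]
    exact hP _ hx.1
  · rw [ind_neg hx, mul_zero]
    exact mul_nonneg (ind_nonneg _) (by positivity)

lemma u3N_sq (h : τ.ND) (c : (I → E) → ℂ) {th : ℝ} (hth : 0 ≤ th) (P : Set ((I → E) × (I → E)))
    (hP : ∀ x ∈ P, th ≤ ‖W0 τ c x‖ ^ 2) :
    th ^ 2 * av (fun x => u3N P x ^ 2) ≤ av fun x => ‖fld τ c x‖ ^ 8 := by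
  rw [← av_mul_left, av_prod, av_prod fun x => ‖fld τ c x‖ ^ 8, av_comm,
    av_comm fun b A => ‖fld τ c (b, A)‖ ^ 8]
  refine av_mono fun A => av_le_const fun y => ?_
  rw [← mul_pow]
  refine (pow_le_pow_left₀ (mul_nonneg hth (sm_nonneg fun _ => ind_nonneg _))
    (u3N_le h c th P hP y A) 2).trans ((av_sq_le _).trans ((av_mono (g := fun b =>
      (‖fld τ c (b, A)‖ ^ 8 + ‖fld τ c (b + y, A)‖ ^ 8) / 2) fun b => ?_).trans (le_of_eq ?_)))
  · rw [dd, norm_mul, Complex.norm_conj]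
    nlinarith [sq_nonneg (‖fld τ c (b, A)‖ ^ 4 - ‖fld τ c (b + y, A)‖ ^ 4)]
  · rw [av_div, av_add, av_add_right fun b => ‖fld τ c (b, A)‖ ^ 8]; ring

/-- second moment bound for the presence of a heavy pair -/
lemma u3_present (h : τ.ND) (c : (I → E) → ℂ) {th lam d : ℝ} (hth : 0 ≤ th) (hlam : 0 ≤ lam)
    (hd : 0 < d) (P : Set ((I → E) × (I → E))) (hP : ∀ x ∈ P, th ≤ ‖W0 τ c x‖ ^ 2)
    (hc : lam * Nat.card (I → E) ≤ cnt P) (h8 : (av fun x => ‖fld τ c x‖ ^ 8) ≤ d) :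
    lam ^ 2 * th ^ 2 / d ≤ av fun x : OmE E I => ind (∃ p ∈ P, x.1 + adj x.2 p.1 + p.2 = 0) := by
  have hN := card_pos' (α := I → E)
  have h1 : lam ≤ av (u3N P) := by rw [u3N_av, le_div_iff₀ hN]; exact hc
  have h2 : av (u3N P) = av fun x : OmE E I =>
      ind (∃ p ∈ P, x.1 + adj x.2 p.1 + p.2 = 0) * u3N P x := av_congr fun x => by
    by_cases hx : ∃ p ∈ P, x.1 + adj x.2 p.1 + p.2 = 0
    · rw [ind_pos hx, one_mul]
    · rw [ind_neg hx, zero_mul, u3N, ← sm_zero (α := (I → E) × (I → E))]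
      exact sm_congr fun p => ind_neg fun hp => hx ⟨p, hp⟩
  have h3 := av_cs (fun x : OmE E I => ind (∃ p ∈ P, x.1 + adj x.2 p.1 + p.2 = 0)) (u3N P)
  rw [← h2] at h3
  simp only [ind_sq] at h3
  have h4 := (u3N_sq h c hth P hP).trans h8
  have h5 := av_ind_nonneg fun x : OmE E I => ∃ p ∈ P, x.1 + adj x.2 p.1 + p.2 = 0
  rw [div_le_iff₀ hd]
  calc lam ^ 2 * th ^ 2 ≤ av (u3N P) ^ 2 * th ^ 2 := by gcongr
    _ ≤ (av fun x : OmE E I => ind (∃ p ∈ P, x.1 + adj x.2 p.1 + p.2 = 0)) *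
        (av fun x => u3N P x ^ 2) * th ^ 2 := by gcongr
    _ = (av fun x : OmE E I => ind (∃ p ∈ P, x.1 + adj x.2 p.1 + p.2 = 0)) *
        (th ^ 2 * av fun x => u3N P x ^ 2) := by ring
    _ ≤ _ := by gcongr

/-- mean square of the correlation of two fields -/
lemma corr_fld (h : τ.ND) (r r' : (K → E) → ℂ) (P : Om K) :
    (av fun s => ‖cav fun t => fld τ r (t, P) * conj (fld τ r' (t + s, P))‖ ^ 2) =
      sm fun w => ‖r w‖ ^ 2 * ‖r' w‖ ^ 2 := by
  have e : ∀ s, conj (cav fun t => fld τ r (t, P) * conj (fld τ r' (t + s, P))) =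
      fld τ (fun w => conj (r w) * r' w) (s, 0) := fun s => by
    have h1 := tw_pars h (fld τ r) (fld τ fun w => ee (brk τ w s) * r' w) P
    simp only [tw_fld h] at h1
    rw [cav_congr fun t => by rw [fld_shift τ r' s (t, P)], ← h1, conj_csm]
    refine csm_congr fun w => ?_
    simp only [chi, th_zero_right, add_zero, map_mul, Complex.conj_conj]; ring
  simp only [← Complex.norm_conj (cav _), e]
  rw [av_fld_sq h]
  exact sm_congr fun w => by rw [norm_mul, Complex.norm_conj, mul_pow]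

/-- the fourth moment of the class sums -/
noncomputable def u3Psi (τ : QT E) (c : (I → E) → ℂ) (x : OmE E I) (Φ : Lab I K) : ℝ :=
  sm fun w => ‖rc τ c x Φ w‖ ^ 4

/-- a heavy pair is present and the label kills it -/
def u3Ev (τ : QT E) (c : (I → E) → ℂ) (th : ℝ) (Φ : Lab I K) (x : OmE E I) : Prop :=
  ∃ p : (I → E) × (I → E), th ≤ ‖W0 τ c p‖ ^ 2 ∧ x.1 + adj x.2 p.1 + p.2 = 0 ∧ wl p.1 Φ = 0

lemma u3_key1 (h : τ.ND) (c : (I → E) → ℂ) (th : ℝ) (Φ : Lab I K) (y : I → E) (A : Om I) :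
    th * ind (u3Ev τ c th Φ (y, A)) ≤ av fun b => ‖cav fun t : K → E =>
      fld τ c (b + spr t Φ, A) * conj (fld τ c (b + spr t Φ + y, A))‖ ^ 2 := by
  by_cases hE : u3Ev τ c th Φ (y, A)
  swap
  · rw [ind_neg hE, mul_zero]; exact av_nonneg fun _ => sq_nonneg _
  rw [ind_pos hE, mul_one]
  obtain ⟨⟨v, ξ⟩, h1, h2, h3⟩ := hE
  dsimp only at h2 h3
  rw [eq_neg_of_add_eq_zero_right h2, ← norm_fo_dd_fld h] at h1
  refine h1.trans ?_
  have e : fo τ (dd (fun b => fld τ c (b, A)) y) v = cav fun b => (cav fun t : K → E =>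
      fld τ c (b + spr t Φ, A) * conj (fld τ c (b + spr t Φ + y, A))) * ee (brk τ v b) := by
    simp only [← cav_mul_right]
    rw [cav_comm, ← cav_const (α := K → E) (fo τ _ v)]
    refine cav_congr fun t => ?_
    rw [fo, ← cav_add_right _ (spr t Φ)]
    refine cav_congr fun b => ?_
    rw [brk_add_right, brk_spr, h3, brk_zero_left, add_zero]; rfl
  rw [e]
  refine (norm_cav_sq_le _).trans (le_of_eq (av_congr fun b => ?_))
  rw [norm_mul, norm_ee, mul_one]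

lemma u3_key (h : τ.ND) (c : (I → E) → ℂ) (th : ℝ) (Φ : Lab I K) (x : OmE E I) :
    th * (av fun y : OmE E K => ind (u3Ev τ c th Φ (cell x Φ y))) ≤
      av fun b => u3Psi τ c (b, x.2) Φ := by
  rw [← av_mul_left, av_prod, av_comm]
  refine av_le_const fun P => ?_
  refine (av_mono fun s => u3_key1 h c th Φ (x.1 + spr s Φ) (ow x.2 Φ P)).trans ?_
  rw [av_comm]
  refine (av_mono (g := fun b => (u3Psi τ c (b, x.2) Φ + u3Psi τ c (b + x.1, x.2) Φ) / 2)
    fun b => ?_).trans (le_of_eq ?_)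
  · have e : ∀ s t : K → E, fld τ c (b + spr t Φ, ow x.2 Φ P) *
        conj (fld τ c (b + spr t Φ + (x.1 + spr s Φ), ow x.2 Φ P)) =
        fld τ (rc τ c (b, x.2) Φ) (t, P) * conj (fld τ (rc τ c (b + x.1, x.2) Φ) (t + s, P)) :=
      fun s t => by
        rw [← res_fld, ← res_fld]
        simp only [res, cell, spr_add]
        rw [add_add_add_comm]
    simp only [e]
    rw [corr_fld h, u3Psi, u3Psi, ← sm_add, ← sm_div]
    refine sm_mono fun w => ?_
    nlinarith [sq_nonneg (‖rc τ c (b, x.2) Φ w‖ ^ 2 - ‖rc τ c (b + x.1, x.2) Φ w‖ ^ 2)]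
  · rw [av_div, av_add, av_add_right fun b => u3Psi τ c (b, x.2) Φ]; ring

omit [Finite I] in
lemma u3Psi_le (τ : QT E) (c : (I → E) → ℂ) (x : OmE E I) (Φ : Lab I K) {M : ℝ} (hM : 0 < M)
    {w0 : K → E} (hw : ∀ w, ‖rc τ c x Φ w‖ ^ 2 ≤ ‖rc τ c x Φ w0‖ ^ 2) :
    u3Psi τ c x Φ ≤ M * ‖rc τ c x Φ w0‖ ^ 2 + (sm fun w => ‖rc τ c x Φ w‖ ^ 2) ^ 3 / M := by
  set s := ‖rc τ c x Φ w0‖ ^ 2 with hs
  set σ := sm fun w => ‖rc τ c x Φ w‖ ^ 2 with hσ
  have s0 : 0 ≤ s := sq_nonneg _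
  have h1 : s ≤ σ := single_le_sm (f := fun w => ‖rc τ c x Φ w‖ ^ 2) (fun _ => sq_nonneg _) _
  have h2 : u3Psi τ c x Φ ≤ s * σ := by
    rw [hσ, ← sm_mul_left]
    refine sm_mono fun w => ?_
    calc ‖rc τ c x Φ w‖ ^ 4 = ‖rc τ c x Φ w‖ ^ 2 * ‖rc τ c x Φ w‖ ^ 2 := by ring
      _ ≤ s * ‖rc τ c x Φ w‖ ^ 2 := mul_le_mul_of_nonneg_right (hw w) (sq_nonneg _)
  have σ0 : 0 ≤ σ := s0.trans h1
  refine h2.trans ?_
  rcases le_total σ M with h | h
  · have : 0 ≤ σ ^ 3 / M := by positivity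
    nlinarith
  · have h3 : s * σ ≤ σ ^ 3 / M := by
      rw [le_div_iff₀ hM]
      calc s * σ * M ≤ σ * σ * σ := by gcongr
        _ = _ := by ring
    have : 0 ≤ M * s := by positivity
    linarith

lemma u3_sigma (h : τ.ND) (c : (I → E) → ℂ) (A : GFam E I K) :
    (A.E fun x Φ => (sm fun w => ‖rc τ c x Φ w‖ ^ 2) ^ 3) ≤ av fun x => ‖fld τ c x‖ ^ 6 := by
  rw [← A.marg fun x => ‖fld τ c x‖ ^ 6]
  refine A.mono fun x Φ => ?_
  rw [← n2_fld h, ← res_fld]
  refine (le_abs_self _).trans ?_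
  rw [abs_pow]
  refine (abs_av_pow_le _ 3).trans (le_of_eq (av_congr fun t => ?_))
  rw [abs_pow, abs_norm, ← pow_mul]; rfl

/-- one coefficient, as a field -/
lemma u3_quad (h : τ.ND) (S : GFam E K L) (r : (K → E) → ℂ) (w : K → E) :
    (S.E fun y Ψ => 2 * (ip (res (fld τ r) y Ψ)
      (fld τ (rc τ (fun v => (ind (v = w) : ℝ) * r v) y Ψ))).re -
      sm fun v => ‖rc τ (fun v => (ind (v = w) : ℝ) * r v) y Ψ v‖ ^ 2) = ‖r w‖ ^ 2 := by
  have h1 := ip_fld_ind τ (fun v => v = w) (fld τ r)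
  rw [cf_fld h] at h1
  rw [E_fld_quad h, h1, n2_fld h, sm_ind_sq fun v => v = w, Complex.ofReal_re,
    sm_ind_eq w fun v => ‖r v‖ ^ 2]
  ring

omit [Finite K] in
lemma u3_quad_le (τ : QT E) (u : OmE E L → ℂ) (r : (K → E) → ℂ) (w : K → E) (y : OmE E K)
    {Ψ : Lab K L} (hw : ¬ Gen (wl w Ψ)) :
    2 * (ip u (fld τ (rc τ (fun v => (ind (v = w) : ℝ) * r v) y Ψ))).re -
      (sm fun v => ‖rc τ (fun v => (ind (v = w) : ℝ) * r v) y Ψ v‖ ^ 2) ≤ ng τ u := by
  refine ng_ge τ u _ fun v hv => ?_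
  rw [rc, ← csm_zero (α := K → E)]
  refine csm_congr fun w' => ?_
  by_cases h1 : w' = w
  · rw [ind_neg (p := wl w' Ψ = v) fun e => hw (by rw [← h1, e]; exact hv)]; simp
  · rw [ind_neg h1]; simp

end NE
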